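import Mathlib

/- AG.Plane -/
section
/-!
Plane geometry for project AG (vertex guards for polygons with holes).
Points are pairs of reals.  `Ccw a b c`: the triangle `a b c` is counterclockwise;
`ang a b c`: the angle at `a` from `b` to `c`.
-/

namespace AG

/-- points of the plane -/
abbrev Pt := ℝ × ℝ

/-- a point as a complex number -/
def toC (p : Pt) : ℂ := ⟨p.1, p.2⟩

@[simp] theorem toC_re (p : Pt) : (toC p).re = p.1 := rfl

@[simp] theorem toC_im (p : Pt) : (toC p).im = p.2 := rfl

theorem toC_inj {p q : Pt} (h : toC p = toC q) : p = q := by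
  have h1 := congrArg Complex.re h
  have h2 := congrArg Complex.im h
  exact Prod.ext h1 h2

theorem sub_toC_ne {p q : Pt} (h : p ≠ q) : toC p - toC q ≠ 0 :=
  sub_ne_zero.2 fun e => h (toC_inj e)

/-- twice the signed area of the triangle `a b c` -/
def cr (a b c : Pt) : ℝ := (b.1 - a.1) * (c.2 - a.2) - (b.2 - a.2) * (c.1 - a.1)

/-- counterclockwise and nondegenerate -/
def Ccw (a b c : Pt) : Prop := 0 < cr a b c

/-- the angle at `a` from `b` to `c` (in `(0, π)` for a counterclockwise triangle) -/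
noncomputable def ang (a b c : Pt) : ℝ := Complex.arg ((toC c - toC a) / (toC b - toC a))

/-- the closed triangle (for counterclockwise `a b c`) -/
def ctri (a b c : Pt) : Set Pt := {p | 0 ≤ cr a b p ∧ 0 ≤ cr b c p ∧ 0 ≤ cr c a p}

/-- the open triangle (for counterclockwise `a b c`) -/
def otri (a b c : Pt) : Set Pt := {p | 0 < cr a b p ∧ 0 < cr b c p ∧ 0 < cr c a p}

theorem cr_rot (a b c : Pt) : cr b c a = cr a b c := by unfold cr; ring

theorem cr_swap (a b c : Pt) : cr a c b = - cr a b c := by unfold cr; ring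

theorem cr_swap' (a b c : Pt) : cr b a c = - cr a b c := by unfold cr; ring

theorem cr_sum (a b c p : Pt) : cr a b p + cr b c p + cr c a p = cr a b c := by unfold cr; ring

theorem cr_self_left (a b : Pt) : cr a b a = 0 := by unfold cr; ring

theorem cr_self_right (a b : Pt) : cr a b b = 0 := by unfold cr; ring

theorem cr_same (a b : Pt) : cr a a b = 0 := by unfold cr; ring

theorem Ccw.rot {a b c : Pt} (h : Ccw a b c) : Ccw b c a := by
  unfold Ccw at *; rw [cr_rot]; exact h

theorem Ccw.rot' {a b c : Pt} (h : Ccw a b c) : Ccw c a b := h.rot.rot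

theorem Ccw.ne {a b c : Pt} (h : Ccw a b c) : a ≠ b := by
  rintro rfl; unfold Ccw at h; rw [cr_same] at h; exact lt_irrefl _ h

theorem Ccw.ne' {a b c : Pt} (h : Ccw a b c) : a ≠ c := fun e => h.rot'.ne e.symm

theorem Ccw.ne'' {a b c : Pt} (h : Ccw a b c) : b ≠ c := h.rot.ne

/-- affine in the last argument -/
theorem cr_affine (a b p q : Pt) (s t : ℝ) (h : s + t = 1) :
    cr a b (s • p + t • q) = s * cr a b p + t * cr a b q := by
  have hs : s = 1 - t := by linarith
  subst hs
  unfold cr
  simp only [Prod.fst_add, Prod.snd_add, Prod.smul_fst, Prod.smul_snd, smul_eq_mul]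
  ring

theorem mem_ctri_left {a b c : Pt} (h : Ccw a b c) : a ∈ ctri a b c := by
  refine ⟨?_, ?_, ?_⟩
  · rw [cr_self_left]
  · rw [cr_rot]; exact h.le
  · rw [cr_self_right]

theorem ctri_rot (a b c : Pt) : ctri b c a = ctri a b c := by
  ext p; unfold ctri; simp only [Set.mem_setOf_eq]; tauto

theorem otri_rot (a b c : Pt) : otri b c a = otri a b c := by
  ext p; unfold otri; simp only [Set.mem_setOf_eq]; tauto

theorem otri_subset_ctri (a b c : Pt) : otri a b c ⊆ ctri a b c :=
  fun _ h => ⟨h.1.le, h.2.1.le, h.2.2.le⟩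

theorem convex_half (a b : Pt) : Convex ℝ {p | 0 ≤ cr a b p} := by
  intro p hp q hq s t hs ht hst
  simp only [Set.mem_setOf_eq] at *
  rw [cr_affine _ _ _ _ _ _ hst]
  positivity

theorem convex_ctri (a b c : Pt) : Convex ℝ (ctri a b c) := by
  have : ctri a b c = {p | 0 ≤ cr a b p} ∩ ({p | 0 ≤ cr b c p} ∩ {p | 0 ≤ cr c a p}) := rfl
  rw [this]
  exact (convex_half a b).inter ((convex_half b c).inter (convex_half c a))

theorem isOpen_half (a b : Pt) : IsOpen {p | 0 < cr a b p} := by
  have : Continuous fun p : Pt => cr a b p := by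
    unfold cr; fun_prop
  exact isOpen_lt continuous_const this

theorem isOpen_otri (a b c : Pt) : IsOpen (otri a b c) := by
  have : otri a b c = {p | 0 < cr a b p} ∩ ({p | 0 < cr b c p} ∩ {p | 0 < cr c a p}) := rfl
  rw [this]
  exact (isOpen_half a b).inter ((isOpen_half b c).inter (isOpen_half c a))

/-! ### angles -/

theorem div_im (a b c : Pt) : ((toC c - toC a) / (toC b - toC a)).im = cr a b c / Complex.normSq (toC b - toC a) := by
  rw [Complex.div_im]
  unfold cr
  simp only [Complex.sub_re, Complex.sub_im, toC_re, toC_im]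
  ring

theorem Ccw.im_pos {a b c : Pt} (h : Ccw a b c) : 0 < ((toC c - toC a) / (toC b - toC a)).im := by
  rw [div_im]
  have hne : toC b - toC a ≠ 0 := sub_toC_ne h.ne.symm
  exact div_pos h (Complex.normSq_pos.2 hne)

theorem ang_pos {a b c : Pt} (h : Ccw a b c) : 0 < ang a b c := by
  unfold ang
  have h1 := h.im_pos
  have h0 : 0 ≤ Complex.arg ((toC c - toC a) / (toC b - toC a)) := Complex.arg_nonneg_iff.2 h1.le
  rcases h0.lt_or_eq with h2 | h2
  · exact h2
  · exfalso
    have := Complex.arg_eq_zero_iff.1 h2.symm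
    linarith [this.2]

theorem ang_lt_pi {a b c : Pt} (h : Ccw a b c) : ang a b c < Real.pi := by
  unfold ang
  have h1 := h.im_pos
  refine lt_of_le_of_ne (Complex.arg_le_pi _) ?_
  intro h2
  have := (Complex.arg_eq_pi_iff.1 h2).2
  linarith

theorem angle_ofReal_eq {x y : ℝ} (h : (x : Real.Angle) = (y : Real.Angle)) :
    ∃ k : ℤ, x - y = 2 * Real.pi * k :=
  Real.Angle.angle_eq_iff_two_pi_dvd_sub.1 h

theorem ang_coe_mul {z w : ℂ} (hz : z ≠ 0) (hw : w ≠ 0) :
    ∃ k : ℤ, Complex.arg (z * w) - (Complex.arg z + Complex.arg w) = 2 * Real.pi * k := by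
  apply angle_ofReal_eq
  rw [Real.Angle.coe_add]
  exact Complex.arg_mul_coe_angle hz hw

theorem int_lt_of_mul {k n : ℤ} (h : 2 * Real.pi * k < 2 * Real.pi * n) : k < n := by
  have h1 : (k : ℝ) < n := lt_of_mul_lt_mul_left h (by positivity)
  exact_mod_cast h1

theorem ang_add_of_ccw {a b c d : Pt} (h1 : Ccw a b c) (h2 : Ccw a c d) (h3 : Ccw a b d) :
    ang a b d = ang a b c + ang a c d := by
  have hb : toC b - toC a ≠ 0 := sub_toC_ne h1.ne.symm
  have hc : toC c - toC a ≠ 0 := sub_toC_ne h2.ne.symm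
  have hd : toC d - toC a ≠ 0 := sub_toC_ne h2.ne'.symm
  obtain ⟨k, hk⟩ := ang_coe_mul (div_ne_zero hc hb) (div_ne_zero hd hc)
  have e : (toC c - toC a) / (toC b - toC a) * ((toC d - toC a) / (toC c - toC a)) = (toC d - toC a) / (toC b - toC a) := by
    field_simp
  rw [e] at hk
  have p1 := ang_pos h1
  have p2 := ang_pos h2
  have p3 := ang_pos h3
  have q1 := ang_lt_pi h1
  have q2 := ang_lt_pi h2
  have q3 := ang_lt_pi h3
  change ang a b d - (ang a b c + ang a c d) = 2 * Real.pi * k at hk
  have k1 : k < 1 := by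
    apply int_lt_of_mul
    push_cast
    rw [← hk]; linarith
  have k2 : -1 < k := by
    apply int_lt_of_mul
    push_cast
    rw [← hk]; linarith
  have k0 : k = 0 := by omega
  subst k0
  push_cast at hk
  linarith

/-- additivity of angles -/
theorem ang_add {a b c d : Pt} (h1 : Ccw a b c) (h2 : Ccw a c d)
    (h : ang a b c + ang a c d < Real.pi) : Ccw a b d ∧ ang a b d = ang a b c + ang a c d := by
  have hb : toC b - toC a ≠ 0 := sub_toC_ne h1.ne.symm
  have hc : toC c - toC a ≠ 0 := sub_toC_ne h2.ne.symm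
  have hd : toC d - toC a ≠ 0 := sub_toC_ne h2.ne'.symm
  have e : (toC c - toC a) / (toC b - toC a) * ((toC d - toC a) / (toC c - toC a)) = (toC d - toC a) / (toC b - toC a) := by
    field_simp
  have p1 := ang_pos h1
  have p2 := ang_pos h2
  have key : ang a b d = ang a b c + ang a c d := by
    unfold ang at *
    rw [← e]
    apply Complex.arg_mul (div_ne_zero hc hb) (div_ne_zero hd hc)
    constructor
    · linarith [Real.pi_pos]
    · exact h.le
  refine ⟨?_, key⟩
  have hpos : 0 < ang a b d := by rw [key]; linarith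
  have hlt : ang a b d < Real.pi := by rw [key]; exact h
  have him : 0 < ((toC d - toC a) / (toC b - toC a)).im := by
    have hne : (toC d - toC a) / (toC b - toC a) ≠ 0 := div_ne_zero hd hb
    have := Complex.norm_mul_sin_arg ((toC d - toC a) / (toC b - toC a))
    rw [← this]
    exact mul_pos (norm_pos_iff.2 hne) (Real.sin_pos_of_pos_of_lt_pi hpos hlt)
  rw [div_im] at him
  have hn : 0 < Complex.normSq (toC b - toC a) := Complex.normSq_pos.2 hb
  have := (div_pos_iff_of_pos_right hn).1 him
  exact this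

theorem ang_add_lt_pi_iff {a b c d : Pt} (h1 : Ccw a b c) (h2 : Ccw a c d) :
    ang a b c + ang a c d < Real.pi ↔ Ccw a b d := by
  constructor
  · intro h; exact (ang_add h1 h2 h).1
  · intro h
    rw [← ang_add_of_ccw h1 h2 h]
    exact ang_lt_pi h

theorem ang_three {z1 z2 z3 : ℂ} (h1 : z1 ≠ 0) (h2 : z2 ≠ 0) (h3 : z3 ≠ 0) :
    ∃ k : ℤ, Complex.arg (z1 * z2 * z3) -
      (Complex.arg z1 + Complex.arg z2 + Complex.arg z3) = 2 * Real.pi * k := by
  obtain ⟨k, hk⟩ := ang_coe_mul h1 h2
  obtain ⟨l, hl⟩ := ang_coe_mul (mul_ne_zero h1 h2) h3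
  refine ⟨k + l, ?_⟩
  push_cast
  linarith

/-- the angles of a triangle add up to `π` -/
theorem ang_sum {a b c : Pt} (h : Ccw a b c) : ang a b c + ang b c a + ang c a b = Real.pi := by
  have hab : toC b - toC a ≠ 0 := sub_toC_ne h.ne.symm
  have hba : toC a - toC b ≠ 0 := sub_toC_ne h.ne
  have hac : toC c - toC a ≠ 0 := sub_toC_ne h.ne'.symm
  have hca : toC a - toC c ≠ 0 := sub_toC_ne h.ne'
  have hbc : toC c - toC b ≠ 0 := sub_toC_ne h.ne''.symm
  have hcb : toC b - toC c ≠ 0 := sub_toC_ne h.ne''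
  obtain ⟨k, hk⟩ := ang_three (div_ne_zero hac hab) (div_ne_zero hba hbc) (div_ne_zero hcb hca)
  have e : (toC c - toC a) / (toC b - toC a) * ((toC a - toC b) / (toC c - toC b)) * ((toC b - toC c) / (toC a - toC c)) = -1 := by
    rw [div_mul_div_comm, div_mul_div_comm, div_eq_iff (by positivity)]
    ring
  rw [e, Complex.arg_neg_one] at hk
  change Real.pi - (ang a b c + ang b c a + ang c a b) = 2 * Real.pi * k at hk
  have p1 := ang_pos h
  have p2 := ang_pos h.rot
  have p3 := ang_pos h.rot'
  have q1 := ang_lt_pi h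
  have q2 := ang_lt_pi h.rot
  have q3 := ang_lt_pi h.rot'
  have k1 : k < 1 := by
    apply int_lt_of_mul
    push_cast
    rw [← hk]; linarith
  have k2 : -2 < k := by
    apply int_lt_of_mul
    push_cast
    rw [← hk]; linarith
  have k3 : k = 0 ∨ k = -1 := by omega
  rcases k3 with k3 | k3
  · subst k3; push_cast at hk; linarith
  · subst k3; push_cast at hk
    linarith

/-- three triangles around a point -/
theorem ang_sum_around {y u v w : Pt} (h1 : Ccw y u v) (h2 : Ccw y v w) (h3 : Ccw y w u) :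
    ang y u v + ang y v w + ang y w u = 2 * Real.pi := by
  have hu : toC u - toC y ≠ 0 := sub_toC_ne h1.ne.symm
  have hv : toC v - toC y ≠ 0 := sub_toC_ne h2.ne.symm
  have hw : toC w - toC y ≠ 0 := sub_toC_ne h3.ne.symm
  obtain ⟨k, hk⟩ := ang_three (div_ne_zero hv hu) (div_ne_zero hw hv) (div_ne_zero hu hw)
  have e : (toC v - toC y) / (toC u - toC y) * ((toC w - toC y) / (toC v - toC y)) * ((toC u - toC y) / (toC w - toC y)) = 1 := by
    field_simp
  rw [e, Complex.arg_one] at hk
  change 0 - (ang y u v + ang y v w + ang y w u) = 2 * Real.pi * k at hk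
  have p1 := ang_pos h1
  have p2 := ang_pos h2
  have p3 := ang_pos h3
  have q1 := ang_lt_pi h1
  have q2 := ang_lt_pi h2
  have q3 := ang_lt_pi h3
  have k1 : k < 0 := by
    apply int_lt_of_mul
    push_cast
    rw [← hk]; linarith
  have k2 : -2 < k := by
    apply int_lt_of_mul
    push_cast
    rw [← hk]; linarith
  have k3 : k = -1 := by omega
  subst k3; push_cast at hk
  linarith

end AG
end

/- AG.Defs -/
section
/-!
# Project AG (Shermer's conjecture, MP_586e8d_co): definitions of the combinatorial core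

Triangles have names in a type `I`.  A pair `a = (t,i) : Sd I = I × Fin 3` is at the same time
* CORNER number `i` of the triangle `t`,
* the counterclockwise SIDE of `t` which runs from corner `i` to corner `i+1`.

An object `S : Obj I` is a finite set `F` of triangles, an involution `g` of the sides
(`g a = a` iff the side `a` is NOT glued, `g a = b` means: glued to the side `b` of another
triangle, with opposite direction) and a set `E` of ears (unglued sides).

If `a = (t,i)` is glued to `b = (t',j)`, then the corner `a` and the corner `rot b = (t',j+1)`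
lie at the same vertex, `rot b` is the next corner CLOCKWISE after `a`.
-/

namespace AG

open Finset

/-- sides = corners -/
abbrev Sd (I : Type) := I × Fin 3

variable {I : Type}

/-- next corner (side) of the same triangle, counterclockwise -/
def rot (a : Sd I) : Sd I := (a.1, a.2 + 1)

/-- previous corner (side) of the same triangle -/
def unrot (a : Sd I) : Sd I := (a.1, a.2 + 2)

/-- combinatorial objects -/
structure Obj (I : Type) where
  F : Finset I
  g : Sd I → Sd I
  E : Finset (Sd I)
  invol : ∀ a, g (g a) = a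
  ne : ∀ a, g a ≠ a → (g a).1 ≠ a.1
  memF : ∀ a, g a ≠ a → a.1 ∈ F
  earF : ∀ a ∈ E, a.1 ∈ F
  earFree : ∀ a ∈ E, g a = a

namespace Obj

/-- `b` is the corner clockwise after the corner `a` at the same vertex (across the side `a`) -/
def Step (S : Obj I) (a b : Sd I) : Prop := S.g a ≠ a ∧ b = rot (S.g a)

/-- equivalence of corners; the classes are the VISITS -/
def Eqv (S : Obj I) : Sd I → Sd I → Prop := Relation.EqvGen S.Step

variable [DecidableEq I]

/-- clockwise neighbour of a corner, the corner itself if its side is not glued -/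
def cw (S : Obj I) (a : Sd I) : Sd I := if S.g a = a then a else rot (S.g a)

/-- counterclockwise neighbour of a corner (across the side `unrot a`), the corner itself if
there is none -/
def ccw (S : Obj I) (a : Sd I) : Sd I :=
  if S.g (unrot a) = unrot a then a else S.g (unrot a)

/-- linear fans: going clockwise one arrives at an unglued side -/
def Linear (S : Obj I) : Prop := ∀ a, ∃ n, S.g (S.cw^[n] a) = S.cw^[n] a

/-- all sides (= corners) of the triangles of `S` -/
def sides (S : Obj I) : Finset (Sd I) := S.F ×ˢ (univ : Finset (Fin 3))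

/-- unglued sides.  In a linear object every visit contains exactly one unglued side
(its last corner in the clockwise direction), so `vis` stands for the set of visits. -/
def vis (S : Obj I) : Finset (Sd I) := S.sides.filter (fun a => S.g a = a)

/-- glued sides -/
def glued (S : Obj I) : Finset (Sd I) := S.sides.filter (fun a => S.g a ≠ a)

/-- boundary of a set of triangles: glued sides of triangles of `X` whose partner is outside -/
def bd (S : Obj I) (X : Finset I) : Finset (Sd I) :=
  S.glued.filter (fun a => a.1 ∈ X ∧ (S.g a).1 ∉ X)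

/-- connected (and not empty) -/
def Conn (S : Obj I) : Prop :=
  S.F.Nonempty ∧ ∀ X ⊆ S.F, X.Nonempty → X ≠ S.F → (S.bd X).Nonempty

/-- the glued side `a` is a bridge of the dual graph -/
def Bridge (S : Obj I) (a : Sd I) : Prop := ∃ X ⊆ S.F, S.bd X = {a}

/-- `t` lies on no cycle of the dual graph -/
def Noncore (S : Obj I) (t : I) : Prop := t ∈ S.F ∧ ∀ i, S.g (t, i) ≠ (t, i) → S.Bridge (t, i)

def Bridgeless (S : Obj I) : Prop := ∀ a, ¬ S.Bridge a

/-- twice the number `N(S,W)` of the text, for connected `S` and `|W| = k` -/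
def N2 (S : Obj I) (k : ℕ) : ℕ := S.F.card + S.vis.card + 2 + 4 * k + 2 * S.E.card

/-- sub-objects; nothing is said about ears -/
structure Le (S' S : Obj I) : Prop where
  F : S'.F ⊆ S.F
  g : ∀ a, S'.g a = S.g a ∨ S'.g a = a

/-- restriction to the triangles of `X` -/
def keep (S : Obj I) (X : Finset I) : Obj I where
  F := S.F ∩ X
  g a := if a.1 ∈ X ∧ (S.g a).1 ∈ X then S.g a else a
  E := S.E.filter (fun a => a.1 ∈ X)
  invol a := by
    by_cases h : a.1 ∈ X ∧ (S.g a).1 ∈ X
    · simp [h, S.invol]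
    · simp [h]
  ne a := by
    by_cases h : a.1 ∈ X ∧ (S.g a).1 ∈ X
    · simpa [h] using S.ne a
    · simp [h]
  memF a := by
    by_cases h : a.1 ∈ X ∧ (S.g a).1 ∈ X
    · simp only [h, and_self, if_true, ne_eq, mem_inter, and_true]
      exact S.memF a
    · simp [h]
  earF a ha := by
    simp only [mem_filter] at ha
    simp [S.earF a ha.1, ha.2]
  earFree a ha := by
    simp only [mem_filter] at ha
    by_cases h : a.1 ∈ X ∧ (S.g a).1 ∈ X
    · simp [h, S.earFree a ha.1]
    · simp [h]

/-- cut the glued side `a` -/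
def cut (S : Obj I) (a : Sd I) : Obj I where
  F := S.F
  g b := if b = a ∨ b = S.g a then b else S.g b
  E := S.E
  invol b := by
    by_cases h : b = a ∨ b = S.g a
    · simp [h]
    · have h2 : ¬ (S.g b = a ∨ S.g b = S.g a) := by
        rintro (h1 | h1)
        · exact h (Or.inr (by rw [← h1, S.invol]))
        · exact h (Or.inl (by rw [← S.invol b, h1, S.invol]))
      simp [h, h2, S.invol]
  ne b := by
    by_cases h : b = a ∨ b = S.g a
    · simp [h]
    · simpa [h] using S.ne b
  memF b := by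
    by_cases h : b = a ∨ b = S.g a
    · simp [h]
    · simpa [h] using S.memF b
  earF := S.earF
  earFree b hb := by
    by_cases h : b = a ∨ b = S.g a
    · simp [h]
    · simpa [h] using S.earFree b hb

/-- change the set of ears -/
def setE (S : Obj I) (E' : Finset (Sd I)) (h : ∀ a ∈ E', a.1 ∈ S.F ∧ S.g a = a) : Obj I where
  F := S.F
  g := S.g
  E := E'
  invol := S.invol
  ne := S.ne
  memF := S.memF
  earF a ha := (h a ha).1
  earFree a ha := (h a ha).2

/-- the corner `c` is hit by the set `C` of corners: `C` contains an equivalent corner -/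
def Hit (S : Obj I) (C : Finset (Sd I)) (c : Sd I) : Prop := ∃ d ∈ C, S.Eqv d c

end Obj

/-- the closed triangle with name `t` (for counterclockwise corners) -/
def tri (pt : Sd I → Pt) (t : I) : Set Pt := ctri (pt (t, 0)) (pt (t, 1)) (pt (t, 2))

/-- all points of `t` are seen inside `R` from the points of the corners in `C` -/
def Cov (pt : Sd I → Pt) (R : Set Pt) (C : Finset (Sd I)) (t : I) : Prop :=
  ∀ p ∈ tri pt t, ∃ c ∈ C, segment ℝ (pt c) p ⊆ R

variable [DecidableEq I]

/-- `C` is a solution of `(S,W)` -/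
structure Sol (S : Obj I) (pt : Sd I → Pt) (R : Set Pt) (W C : Finset (Sd I)) : Prop where
  sub : C ⊆ S.sides
  forced : ∀ w ∈ W, S.Hit C w
  ear : ∀ a ∈ S.E, S.Hit C a ∨ S.Hit C (rot a)
  dom : ∀ t, S.Noncore t → ∃ i, S.Hit C (t, i)
  cov : ∀ t ∈ S.F, Cov pt R C t

/-- statement P for the connected object `S` with forced corners `W ⊆ S.sides` (repetitions of a
visit in `W` only make the statement weaker); `6 |C| ≤ 2 N` says `|C| ≤ ⌊N/3⌋` -/
def P (S : Obj I) (pt : Sd I → Pt) (R : Set Pt) (W : Finset (Sd I)) : Prop :=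
  ∃ C, Sol S pt R W C ∧ 6 * C.card ≤ S.N2 W.card

end AG
end

/- AG.Basic -/
section
/-!
# Project AG: basic API for `Obj`
-/

set_option linter.unusedSectionVars false
set_option linter.unusedSimpArgs false

namespace AG

open Finset

variable {I : Type}

theorem fin3_a (i : Fin 3) : i + 2 + 1 = i := by revert i; decide
theorem fin3_b (i : Fin 3) : i + 1 + 2 = i := by revert i; decide
theorem fin3_c (i : Fin 3) : i + 1 + 1 = i + 2 := by revert i; decide
theorem fin3_d (i : Fin 3) : i + 2 + 2 = i + 1 := by revert i; decide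

@[simp] theorem rot_unrot (a : Sd I) : rot (unrot a) = a := by
  rcases a with ⟨t, i⟩; simp [rot, unrot, fin3_a]

@[simp] theorem unrot_rot (a : Sd I) : unrot (rot a) = a := by
  rcases a with ⟨t, i⟩; simp [rot, unrot, fin3_b]

theorem rot_rot (a : Sd I) : rot (rot a) = unrot a := by
  rcases a with ⟨t, i⟩; simp [rot, unrot, fin3_c]

theorem unrot_unrot (a : Sd I) : unrot (unrot a) = rot a := by
  rcases a with ⟨t, i⟩; simp [rot, unrot, fin3_d]

@[simp] theorem rot_fst (a : Sd I) : (rot a).1 = a.1 := rfl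
@[simp] theorem unrot_fst (a : Sd I) : (unrot a).1 = a.1 := rfl

theorem rot_injective : Function.Injective (rot : Sd I → Sd I) := fun a b h => by
  rw [← unrot_rot a, h, unrot_rot]

theorem rot_ne (a : Sd I) : rot a ≠ a := by
  rcases a with ⟨t, i⟩; fin_cases i <;> simp [rot]

theorem unrot_ne (a : Sd I) : unrot a ≠ a := by
  rcases a with ⟨t, i⟩; fin_cases i <;> simp [unrot]

theorem unrot_ne_rot (a : Sd I) : unrot a ≠ rot a := by
  rcases a with ⟨t, i⟩; fin_cases i <;> simp [unrot, rot]

/-- the three sides of the triangle of `a` -/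
theorem eq_of_fst_eq {a b : Sd I} (h : b.1 = a.1) : b = a ∨ b = rot a ∨ b = unrot a := by
  rcases a with ⟨t, i⟩; rcases b with ⟨s, j⟩; simp only at h; subst h
  fin_cases i <;> fin_cases j <;> simp [rot, unrot]

namespace Obj

/-! ### equivalence of corners -/

theorem Eqv.refl (S : Obj I) (a : Sd I) : S.Eqv a a := Relation.EqvGen.refl a
theorem Eqv.symm {S : Obj I} {a b : Sd I} (h : S.Eqv a b) : S.Eqv b a := Relation.EqvGen.symm _ _ h
theorem Eqv.trans {S : Obj I} {a b c : Sd I} (h : S.Eqv a b) (h' : S.Eqv b c) : S.Eqv a c :=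
  Relation.EqvGen.trans _ _ _ h h'

theorem Eqv.of_glued {S : Obj I} {a : Sd I} (h : S.g a ≠ a) : S.Eqv a (rot (S.g a)) :=
  Relation.EqvGen.rel _ _ ⟨h, rfl⟩

theorem g_ne_iff {S : Obj I} {a : Sd I} : S.g (S.g a) ≠ S.g a ↔ S.g a ≠ a := by
  rw [S.invol]; exact ne_comm

/-- `rot a` and `g a` lie at the same vertex -/
theorem Eqv.of_glued' {S : Obj I} {a : Sd I} (h : S.g a ≠ a) : S.Eqv (rot a) (S.g a) := by
  have := Eqv.of_glued (S := S) (a := S.g a) (g_ne_iff.2 h)
  rw [S.invol] at this
  exact this.symm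

theorem Step.mono {S' S : Obj I} (h : S'.Le S) {a b : Sd I} (hs : S'.Step a b) : S.Step a b := by
  rcases hs with ⟨h1, h2⟩
  rcases h.g a with h3 | h3
  · rw [h3] at h1 h2; exact ⟨h1, h2⟩
  · exact absurd h3 h1

theorem Eqv.mono {S' S : Obj I} (h : S'.Le S) {a b : Sd I} (hs : S'.Eqv a b) : S.Eqv a b := by
  induction hs with
  | rel x y hxy => exact Relation.EqvGen.rel _ _ (hxy.mono h)
  | refl x => exact Eqv.refl _ _
  | symm x y _ ih => exact ih.symm
  | trans x y z _ _ ih1 ih2 => exact ih1.trans ih2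

theorem Hit.mono {S' S : Obj I} [DecidableEq I] (h : S'.Le S) {C : Finset (Sd I)} {c : Sd I}
    (hc : S'.Hit C c) : S.Hit C c := by
  rcases hc with ⟨d, hd, h1⟩
  exact ⟨d, hd, h1.mono h⟩

theorem Hit.subset {S : Obj I} [DecidableEq I] {C D : Finset (Sd I)} {c : Sd I}
    (hc : S.Hit C c) (h : C ⊆ D) : S.Hit D c := by
  rcases hc with ⟨d, hd, h1⟩
  exact ⟨d, h hd, h1⟩

theorem Hit.eqv {S : Obj I} [DecidableEq I] {C : Finset (Sd I)} {c c' : Sd I}
    (hc : S.Hit C c) (h : S.Eqv c c') : S.Hit C c' := by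
  rcases hc with ⟨d, hd, h1⟩
  exact ⟨d, hd, h1.trans h⟩

/-- count once: if `d ≠ d'` are equivalent elements of `C`, then `d` can be erased -/
theorem Hit.erase {S : Obj I} [DecidableEq I] {C : Finset (Sd I)} {c d d' : Sd I}
    (hc : S.Hit C c) (hd' : d' ∈ C) (hne : d ≠ d') (h : S.Eqv d d') : S.Hit (C.erase d) c := by
  rcases hc with ⟨e, he, h1⟩
  by_cases hed : e = d
  · subst hed
    exact ⟨d', mem_erase.2 ⟨hne.symm, hd'⟩, h.symm.trans h1⟩
  · exact ⟨e, mem_erase.2 ⟨hed, he⟩, h1⟩

/-! ### sides -/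

variable [DecidableEq I]

theorem mem_sides {S : Obj I} {a : Sd I} : a ∈ S.sides ↔ a.1 ∈ S.F := by
  simp [sides]

theorem mem_vis {S : Obj I} {a : Sd I} : a ∈ S.vis ↔ a.1 ∈ S.F ∧ S.g a = a := by
  simp [vis, mem_sides]

theorem mem_glued {S : Obj I} {a : Sd I} : a ∈ S.glued ↔ S.g a ≠ a := by
  simp only [glued, mem_filter, mem_sides, ne_eq, and_iff_right_iff_imp]
  exact S.memF a

theorem g_mem_glued {S : Obj I} {a : Sd I} : S.g a ∈ S.glued ↔ a ∈ S.glued := by
  rw [mem_glued, mem_glued, g_ne_iff]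

theorem g_memF {S : Obj I} {a : Sd I} (h : S.g a ≠ a) : (S.g a).1 ∈ S.F :=
  S.memF _ (g_ne_iff.2 h)

theorem mem_bd {S : Obj I} {X : Finset I} {a : Sd I} :
    a ∈ S.bd X ↔ S.g a ≠ a ∧ a.1 ∈ X ∧ (S.g a).1 ∉ X := by
  simp [bd, mem_glued]

theorem card_sides (S : Obj I) : S.sides.card = 3 * S.F.card := by
  simp [sides, mul_comm]

theorem card_vis_add_card_glued (S : Obj I) : S.vis.card + S.glued.card = 3 * S.F.card := by
  rw [← card_sides, vis, glued, Finset.card_filter_add_card_filter_not]

theorem g_injective (S : Obj I) : Function.Injective S.g := fun a b h => by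
  rw [← S.invol a, h, S.invol]

/-- the boundary of the complement -/
theorem bd_sdiff (S : Obj I) (X : Finset I) : S.bd (S.F \ X) = (S.bd (S.F ∩ X)).image S.g := by
  ext a
  simp only [mem_bd, mem_sdiff, mem_image, mem_inter, not_and, not_not]
  constructor
  · rintro ⟨h1, ⟨h2, h3⟩, h4⟩
    have h5 := g_memF h1
    exact ⟨S.g a, ⟨g_ne_iff.2 h1, ⟨h5, h4 h5⟩, fun _ => by rw [S.invol]; exact h3⟩, S.invol a⟩
  · rintro ⟨b, ⟨h1, ⟨h2, h3⟩, h4⟩, rfl⟩
    have h5 := g_memF h1
    refine ⟨g_ne_iff.2 h1, ⟨h5, h4 h5⟩, fun _ => ?_⟩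
    rw [S.invol]; exact h3

theorem card_bd_sdiff (S : Obj I) {X : Finset I} (hX : X ⊆ S.F) :
    (S.bd (S.F \ X)).card = (S.bd X).card := by
  rw [bd_sdiff, inter_eq_right.2 hX, card_image_of_injective _ S.g_injective]

theorem bd_empty (S : Obj I) : S.bd ∅ = ∅ := by
  ext a; simp [mem_bd]

theorem bd_F (S : Obj I) : S.bd S.F = ∅ := by
  ext a
  simp only [mem_bd, notMem_empty, iff_false, not_and, not_not]
  exact fun h _ => g_memF h

/-- submodularity of the boundary -/
theorem card_bd_inter_add_union (S : Obj I) (X Y : Finset I) :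
    (S.bd (X ∩ Y)).card + (S.bd (X ∪ Y)).card ≤ (S.bd X).card + (S.bd Y).card := by
  classical
  have key : ∀ Z : Finset I, (S.bd Z).card
      = ∑ a ∈ S.glued, if a.1 ∈ Z ∧ (S.g a).1 ∉ Z then 1 else 0 := fun Z => by
    rw [bd, Finset.card_filter]
  rw [key, key, key, key, ← Finset.sum_add_distrib, ← Finset.sum_add_distrib]
  refine Finset.sum_le_sum fun a _ => ?_
  by_cases h1 : a.1 ∈ X <;> by_cases h2 : a.1 ∈ Y <;> by_cases h3 : (S.g a).1 ∈ X <;>
    by_cases h4 : (S.g a).1 ∈ Y <;> simp [h1, h2, h3, h4]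

/-! ### sub-objects -/

theorem Le.refl (S : Obj I) : S.Le S := ⟨subset_rfl, fun _ => Or.inl rfl⟩

theorem Le.trans {S₁ S₂ S₃ : Obj I} (h : S₁.Le S₂) (h' : S₂.Le S₃) : S₁.Le S₃ := by
  refine ⟨h.F.trans h'.F, fun a => ?_⟩
  rcases h.g a with h1 | h1
  · rcases h'.g a with h2 | h2
    · exact Or.inl (h1.trans h2)
    · exact Or.inr (h1.trans h2)
  · exact Or.inr h1

theorem keep_le (S : Obj I) (X : Finset I) : (S.keep X).Le S := by
  refine ⟨inter_subset_left, fun a => ?_⟩
  by_cases h : a.1 ∈ X ∧ (S.g a).1 ∈ X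
  · left; simp [keep, h]
  · right; simp [keep, h]

theorem cut_le (S : Obj I) (a : Sd I) : (S.cut a).Le S := by
  refine ⟨subset_rfl, fun b => ?_⟩
  by_cases h : b = a ∨ b = S.g a
  · right; simp [cut, h]
  · left; simp [cut, h]

theorem setE_le (S : Obj I) (E' : Finset (Sd I)) (h : ∀ a ∈ E', a.1 ∈ S.F ∧ S.g a = a) :
    (S.setE E' h).Le S := ⟨subset_rfl, fun _ => Or.inl rfl⟩

theorem Le.glued {S' S : Obj I} (h : S'.Le S) {a : Sd I} (ha : S'.g a ≠ a) :
    S'.g a = S.g a ∧ S.g a ≠ a := by
  rcases h.g a with h1 | h1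
  · exact ⟨h1, h1 ▸ ha⟩
  · exact absurd h1 ha

theorem Le.bd_subset {S' S : Obj I} (h : S'.Le S) (X : Finset I) : S'.bd X ⊆ S.bd X := by
  intro a ha
  rw [mem_bd] at ha ⊢
  obtain ⟨h1, h2⟩ := h.glued ha.1
  rw [h1] at ha
  exact ⟨h2, ha.2⟩

theorem Le.bd_inter_subset {S' S : Obj I} (h : S'.Le S) (X : Finset I) :
    S'.bd (X ∩ S'.F) ⊆ S.bd X := by
  intro a ha
  rw [mem_bd] at ha ⊢
  obtain ⟨h0, h1, h2⟩ := ha
  obtain ⟨h3, h4⟩ := h.glued h0
  refine ⟨h4, (mem_inter.1 h1).1, fun h5 => h2 ?_⟩
  rw [h3]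
  exact mem_inter.2 ⟨h5, h3 ▸ g_memF h0⟩

/-- a bridge stays a bridge in a sub-object -/
theorem Bridge.mono {S' S : Obj I} (h : S'.Le S) {a : Sd I} (hb : S.Bridge a)
    (ha : S'.g a ≠ a) : S'.Bridge a := by
  obtain ⟨X, hX, hbd⟩ := hb
  refine ⟨X ∩ S'.F, inter_subset_right, ?_⟩
  refine subset_antisymm ((h.bd_inter_subset X).trans hbd.subset) ?_
  rw [singleton_subset_iff, mem_bd]
  have h1 : a ∈ S.bd X := by rw [hbd]; exact mem_singleton_self a
  rw [mem_bd] at h1
  refine ⟨ha, mem_inter.2 ⟨h1.2.1, S'.memF a ha⟩, fun h2 => h1.2.2 ?_⟩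
  rw [(h.glued ha).1] at h2
  exact (mem_inter.1 h2).1

/-- MONOTONICITY: noncore triangles stay noncore -/
theorem Noncore.mono {S' S : Obj I} (h : S'.Le S) {t : I} (hn : S.Noncore t) (ht : t ∈ S'.F) :
    S'.Noncore t :=
  ⟨ht, fun i hi => (hn.2 i (h.glued hi).2).mono h hi⟩

theorem Bridge.symm {S : Obj I} {a : Sd I} (hb : S.Bridge a) : S.Bridge (S.g a) := by
  obtain ⟨X, hX, hbd⟩ := hb
  refine ⟨S.F \ X, sdiff_subset, ?_⟩
  rw [bd_sdiff, inter_eq_right.2 hX, hbd, image_singleton]

theorem Bridge.glued {S : Obj I} {a : Sd I} (hb : S.Bridge a) : S.g a ≠ a := by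
  obtain ⟨X, hX, hbd⟩ := hb
  have h1 : a ∈ S.bd X := by rw [hbd]; exact mem_singleton_self a
  exact (mem_bd.1 h1).1

/-- in a bridgeless object every nonempty boundary has at least two elements -/
theorem Bridgeless.two_le {S : Obj I} (h : S.Bridgeless) {X : Finset I} (hX : X ⊆ S.F)
    (hne : (S.bd X).Nonempty) : 2 ≤ (S.bd X).card := by
  by_contra hlt
  have h1 : (S.bd X).card = 1 := by
    have := hne.card_pos; omega
  obtain ⟨a, ha⟩ := card_eq_one.1 h1
  exact h a ⟨X, hX, ha⟩

/-! ### keep -/

theorem keep_g (S : Obj I) (X : Finset I) (a : Sd I) :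
    (S.keep X).g a = if a.1 ∈ X ∧ (S.g a).1 ∈ X then S.g a else a := rfl

theorem keep_F (S : Obj I) {X : Finset I} (hX : X ⊆ S.F) : (S.keep X).F = X :=
  inter_eq_right.2 hX

theorem keep_bd (S : Obj I) {X Y : Finset I} (hY : Y ⊆ X) :
    (S.keep X).bd Y = (S.bd Y).filter (fun a => (S.g a).1 ∈ X) := by
  ext a
  simp only [mem_bd, mem_filter, keep_g]
  by_cases h : a.1 ∈ X ∧ (S.g a).1 ∈ X
  · simp [h, and_assoc]
  · simp only [h, if_false, ne_eq, not_true_eq_false, false_and, false_iff, not_and]
    rintro ⟨_, h1, _⟩ h2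
    exact h ⟨hY h1, h2⟩

/-- the number of visits of a restriction: the unglued sides of its triangles and the boundary -/
theorem card_vis_keep (S : Obj I) {X : Finset I} (hX : X ⊆ S.F) :
    (S.keep X).vis.card = (S.vis.filter (fun a => a.1 ∈ X)).card + (S.bd X).card := by
  rw [← card_union_of_disjoint]
  · congr 1
    ext a
    simp only [mem_vis, keep_F S hX, keep_g, mem_union, mem_filter, mem_bd]
    by_cases h1 : a.1 ∈ X
    · by_cases h2 : (S.g a).1 ∈ X
      · simp [h1, h2, hX h1]
      · by_cases h3 : S.g a = a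
        · rw [h3] at h2; exact absurd h1 h2
        · simp [h1, h2, h3]
    · simp [h1]
  · rw [disjoint_left]
    intro a ha hb
    rw [mem_filter, mem_vis] at ha
    rw [mem_bd] at hb
    exact hb.1 ha.1.2

theorem keep_E (S : Obj I) (X : Finset I) : (S.keep X).E = S.E.filter (fun a => a.1 ∈ X) := rfl

/-- bookkeeping for a partition of `F` in two parts -/
theorem N2_keep_add (S : Obj I) {X : Finset I} (hX : X ⊆ S.F) (k l : ℕ) :
    (S.keep X).N2 k + (S.keep (S.F \ X)).N2 l = S.N2 (k + l) + 2 * (S.bd X).card + 2 := by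
  have h1 := card_vis_keep S hX
  have h2 := card_vis_keep S (sdiff_subset : S.F \ X ⊆ S.F)
  rw [card_bd_sdiff S hX] at h2
  have h3 : (S.vis.filter (fun a => a.1 ∈ X)).card
      + (S.vis.filter (fun a => a.1 ∈ S.F \ X)).card = S.vis.card := by
    rw [← Finset.card_filter_add_card_filter_not (s := S.vis) (fun a => a.1 ∈ X)]
    congr 2
    refine filter_congr fun a ha => ?_
    simp [(mem_vis.1 ha).1]
  have h4 : (S.E.filter (fun a => a.1 ∈ X)).card
      + (S.E.filter (fun a => a.1 ∈ S.F \ X)).card = S.E.card := by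
    rw [← Finset.card_filter_add_card_filter_not (s := S.E) (fun a => a.1 ∈ X)]
    congr 2
    refine filter_congr fun a ha => ?_
    simp [S.earF a ha]
  have h5 : X.card + (S.F \ X).card = S.F.card := by
    rw [card_sdiff_of_subset hX]; have := card_le_card hX; omega
  simp only [N2, keep_F S hX, keep_F S sdiff_subset, keep_E]
  omega

/-! ### cut -/

theorem cut_g (S : Obj I) (a b : Sd I) :
    (S.cut a).g b = if b = a ∨ b = S.g a then b else S.g b := rfl

theorem card_vis_cut (S : Obj I) {a : Sd I} (ha : S.g a ≠ a) :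
    (S.cut a).vis.card = S.vis.card + 2 := by
  have : (S.cut a).vis = insert a (insert (S.g a) S.vis) := by
    ext b
    simp only [mem_vis, mem_insert, cut_g]
    by_cases h1 : b = a
    · subst h1; simpa [cut] using S.memF b ha
    · by_cases h2 : b = S.g a
      · subst h2; simpa [cut, h1] using g_memF ha
      · simp [h1, h2, cut]
  rw [this, card_insert_of_notMem, card_insert_of_notMem]
  · rw [mem_vis]; exact fun h => (g_ne_iff.2 ha) h.2
  · rw [mem_insert, mem_vis]
    rintro (h | h)
    · exact ha h.symm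
    · exact ha h.2

theorem N2_cut (S : Obj I) {a : Sd I} (ha : S.g a ≠ a) (k : ℕ) :
    (S.cut a).N2 k = S.N2 k + 2 := by
  simp only [N2, card_vis_cut S ha]
  simp only [cut]
  omega

theorem card_glued_cut (S : Obj I) {a : Sd I} (ha : S.g a ≠ a) :
    (S.cut a).glued.card + 2 = S.glued.card := by
  have h1 := card_vis_add_card_glued S
  have h2 := card_vis_add_card_glued (S.cut a)
  rw [card_vis_cut S ha] at h2
  have : (S.cut a).F = S.F := rfl
  rw [this] at h2
  omega

/-- cutting a side which is not a bridge keeps a connected object connected -/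
theorem Conn.cut {S : Obj I} (hc : S.Conn) {a : Sd I} (ha : ¬ S.Bridge a) : (S.cut a).Conn := by
  refine ⟨hc.1, fun X hX hne hXF => ?_⟩
  have hX' : X ⊆ S.F := hX
  have h1 := hc.2 X hX' hne hXF
  by_contra hemp
  rw [not_nonempty_iff_eq_empty] at hemp
  -- all boundary sides of `X` in `S` are `a` or `g a`
  have h2 : ∀ b ∈ S.bd X, b = a ∨ b = S.g a := by
    intro b hb
    by_contra hn
    have : b ∈ (S.cut a).bd X := by
      rw [mem_bd] at hb ⊢
      rw [cut_g, if_neg hn]
      exact hb
    rw [hemp] at this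
    exact notMem_empty _ this
  by_cases h3 : a ∈ S.bd X
  · refine ha ⟨X, hX', ?_⟩
    refine subset_antisymm (fun b hb => ?_) (singleton_subset_iff.2 h3)
    rcases h2 b hb with h | h
    · exact mem_singleton.2 h
    · exfalso
      subst h
      exact (mem_bd.1 h3).2.2 (mem_bd.1 hb).2.1
  · have h4 : S.bd X = {S.g a} := by
      obtain ⟨b, hb⟩ := h1
      refine subset_antisymm (fun c hcb => ?_) ?_
      · rcases h2 c hcb with h | h
        · exact absurd (h ▸ hcb) h3
        · exact mem_singleton.2 h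
      · rcases h2 b hb with h | h
        · exact absurd (h ▸ hb) h3
        · rw [singleton_subset_iff, ← h]; exact hb
    have h5 : S.Bridge (S.g a) := ⟨X, hX', h4⟩
    have h6 := h5.symm
    rw [S.invol] at h6
    exact ha h6

/-! ### linear fans -/

theorem cw_eqv (S : Obj I) (a : Sd I) : S.Eqv a (S.cw a) := by
  unfold cw
  split_ifs with h
  · exact Eqv.refl _ _
  · exact Eqv.of_glued h

theorem cw_iter_eqv (S : Obj I) (n : ℕ) (a : Sd I) : S.Eqv a (S.cw^[n] a) := by
  induction n with
  | zero => exact Eqv.refl _ _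
  | succ n ih =>
    rw [Function.iterate_succ_apply']
    exact ih.trans (cw_eqv _ _)

theorem cw_of_unglued {S : Obj I} {a : Sd I} (h : S.g a = a) : S.cw a = a := by simp [cw, h]

theorem cw_iter_of_unglued {S : Obj I} {a : Sd I} (h : S.g a = a) (n : ℕ) : S.cw^[n] a = a := by
  induction n with
  | zero => rfl
  | succ n ih => rw [Function.iterate_succ_apply, cw_of_unglued h, ih]

theorem Linear.mono {S' S : Obj I} (h : S'.Le S) (hl : S.Linear) : S'.Linear := by
  intro a
  obtain ⟨n, hn⟩ := hl a
  induction n generalizing a with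
  | zero =>
    refine ⟨0, ?_⟩
    rcases h.g a with h1 | h1
    · simp only [Function.iterate_zero, id_eq] at hn ⊢; rw [h1, hn]
    · simpa using h1
  | succ n ih =>
    by_cases h1 : S'.g a = a
    · exact ⟨0, by simpa using h1⟩
    · obtain ⟨h2, h3⟩ := h.glued h1
      have h4 : S'.cw a = S.cw a := by simp [cw, h2, h3]
      obtain ⟨m, hm⟩ := ih (S.cw a) (by simpa [Function.iterate_succ_apply] using hn)
      refine ⟨m + 1, ?_⟩
      rw [Function.iterate_succ_apply, h4]
      exact hm

open Classical in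
/-- the last corner of the fan of `a` in the clockwise direction (an unglued side, for linear
objects); it names the visit of `a` -/
noncomputable def last (S : Obj I) (a : Sd I) : Sd I :=
  if h : ∃ n, S.g (S.cw^[n] a) = S.cw^[n] a then S.cw^[Nat.find h] a else a

theorem last_eq_of {S : Obj I} {a : Sd I} {n : ℕ} (h : S.g (S.cw^[n] a) = S.cw^[n] a) :
    S.last a = S.cw^[n] a := by
  classical
  have hex : ∃ n, S.g (S.cw^[n] a) = S.cw^[n] a := ⟨n, h⟩
  unfold last
  rw [dif_pos hex]
  have h1 := Nat.find_spec hex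
  have h2 : Nat.find hex ≤ n := Nat.find_min' hex h
  obtain ⟨k, hk⟩ := Nat.exists_eq_add_of_le h2
  rw [hk, add_comm, Function.iterate_add_apply, cw_iter_of_unglued h1]

theorem last_unglued {S : Obj I} (hl : S.Linear) (a : Sd I) : S.g (S.last a) = S.last a := by
  obtain ⟨n, hn⟩ := hl a
  rw [last_eq_of hn, hn]

theorem last_eqv (S : Obj I) (a : Sd I) : S.Eqv a (S.last a) := by
  classical
  unfold last
  split_ifs with h
  · exact cw_iter_eqv _ _ _
  · exact Eqv.refl _ _

theorem last_of_unglued {S : Obj I} {a : Sd I} (h : S.g a = a) : S.last a = a :=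
  last_eq_of (n := 0) (by simpa using h)

theorem last_cw {S : Obj I} (hl : S.Linear) (a : Sd I) : S.last (S.cw a) = S.last a := by
  obtain ⟨n, hn⟩ := hl (S.cw a)
  rw [last_eq_of hn, ← Function.iterate_succ_apply]
  exact (last_eq_of (n := n + 1) (by rw [Function.iterate_succ_apply]; exact hn)).symm

/-- for linear objects, corners are equivalent iff their fans end at the same unglued side -/
theorem eqv_iff {S : Obj I} (hl : S.Linear) {a b : Sd I} : S.Eqv a b ↔ S.last a = S.last b := by
  constructor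
  · intro h
    induction h with
    | rel x y hxy =>
      rcases hxy with ⟨h1, rfl⟩
      rw [← last_cw hl x, cw, if_neg h1]
    | refl x => rfl
    | symm x y _ ih => exact ih.symm
    | trans x y z _ _ ih1 ih2 => exact ih1.trans ih2
  · intro h
    exact (last_eqv S a).trans (h ▸ (last_eqv S b).symm)

theorem cw_mem {S : Obj I} {a : Sd I} (h : a ∈ S.sides) : S.cw a ∈ S.sides := by
  unfold cw
  split_ifs with h1
  · exact h
  · rw [mem_sides, rot_fst]; exact g_memF h1

theorem last_mem_vis {S : Obj I} (hl : S.Linear) {a : Sd I} (h : a ∈ S.sides) :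
    S.last a ∈ S.vis := by
  rw [mem_vis]
  refine ⟨?_, last_unglued hl a⟩
  obtain ⟨n, hn⟩ := hl a
  rw [last_eq_of hn, ← mem_sides]
  clear hn
  induction n with
  | zero => exact h
  | succ n ih => rw [Function.iterate_succ_apply']; exact cw_mem ih

end Obj

end AG
end

/- AG.Flip -/
section
/-!
# Project AG: the flip of a glued side

`a` glued to `b = S.g a`.  Triangle `a.1 = (x,y,w1)` with corners `a`, `rot a`, `unrot a`;
triangle `b.1 = (y,x,w2)` with corners `b`, `rot b`, `unrot b`.

After the flip: `a.1 = (x,w2,w1)`, `b.1 = (y,w1,w2)`, so only the points of the corners `rot a`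
(now `w2`) and `rot b` (now `w1`) change.  The side `rot a` (`y → w1`) is now called `b`, the side
`rot b` (`x → w2`) is now called `a`, the new diagonal consists of `rot a` and `rot b`.
So the flip is the conjugation by the 4-cycle `a ↦ rot a ↦ b ↦ rot b ↦ a` of side names.
-/

set_option linter.unusedSectionVars false
set_option linter.unusedSimpArgs false

namespace AG

open Finset

variable {I : Type} [DecidableEq I]

/-- the 4-cycle of side names `a ↦ rot a ↦ b ↦ rot b ↦ a` -/
def sigF (a b c : Sd I) : Sd I :=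
  if c = a then rot a else if c = rot a then b else if c = b then rot b
  else if c = rot b then a else c

/-- its inverse -/
def sigB (a b c : Sd I) : Sd I :=
  if c = a then rot b else if c = rot a then a else if c = b then rot a
  else if c = rot b then b else c

section
variable {a b : Sd I}

theorem ne_of_fst {c d : Sd I} (h : c.1 ≠ d.1) : c ≠ d := fun e => h (by rw [e])

theorem sigF_a : sigF a b a = rot a := by simp [sigF]
theorem sigF_ra : sigF a b (rot a) = b := by simp [sigF, rot_ne]
theorem sigF_b (h : b.1 ≠ a.1) : sigF a b b = rot b := by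
  have h1 : b ≠ a := ne_of_fst h
  have h2 : b ≠ rot a := ne_of_fst h
  simp [sigF, h1, h2]
theorem sigF_rb (h : b.1 ≠ a.1) : sigF a b (rot b) = a := by
  have h1 : rot b ≠ a := ne_of_fst h
  have h2 : rot b ≠ rot a := ne_of_fst h
  simp [sigF, h1, h2, rot_ne]
theorem sigF_other {c : Sd I} (h1 : c ≠ a) (h2 : c ≠ rot a) (h3 : c ≠ b) (h4 : c ≠ rot b) :
    sigF a b c = c := by
  simp [sigF, h1, h2, h3, h4]

theorem sigB_a : sigB a b a = rot b := by simp [sigB]
theorem sigB_ra : sigB a b (rot a) = a := by simp [sigB, rot_ne]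
theorem sigB_b (h : b.1 ≠ a.1) : sigB a b b = rot a := by
  have h1 : b ≠ a := ne_of_fst h
  have h2 : b ≠ rot a := ne_of_fst h
  simp [sigB, h1, h2]
theorem sigB_rb (h : b.1 ≠ a.1) : sigB a b (rot b) = b := by
  have h1 : rot b ≠ a := ne_of_fst h
  have h2 : rot b ≠ rot a := ne_of_fst h
  simp [sigB, h1, h2, rot_ne]
theorem sigB_other {c : Sd I} (h1 : c ≠ a) (h2 : c ≠ rot a) (h3 : c ≠ b) (h4 : c ≠ rot b) :
    sigB a b c = c := by
  simp [sigB, h1, h2, h3, h4]

theorem sigB_sigF (h : b.1 ≠ a.1) (c : Sd I) : sigB a b (sigF a b c) = c := by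
  by_cases h1 : c = a
  · subst h1; rw [sigF_a, sigB_ra]
  by_cases h2 : c = rot a
  · subst h2; rw [sigF_ra, sigB_b h]
  by_cases h3 : c = b
  · subst h3; rw [sigF_b h, sigB_rb h]
  by_cases h4 : c = rot b
  · subst h4; rw [sigF_rb h, sigB_a]
  rw [sigF_other h1 h2 h3 h4, sigB_other h1 h2 h3 h4]

theorem sigF_sigB (h : b.1 ≠ a.1) (c : Sd I) : sigF a b (sigB a b c) = c := by
  by_cases h1 : c = a
  · subst h1; rw [sigB_a, sigF_rb h]
  by_cases h2 : c = rot a
  · subst h2; rw [sigB_ra, sigF_a]
  by_cases h3 : c = b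
  · subst h3; rw [sigB_b h, sigF_ra]
  by_cases h4 : c = rot b
  · subst h4; rw [sigB_rb h, sigF_b h]
  rw [sigB_other h1 h2 h3 h4, sigF_other h1 h2 h3 h4]

/-- the 4-cycle as a permutation -/
def sig (a b : Sd I) (h : b.1 ≠ a.1) : Equiv.Perm (Sd I) where
  toFun := sigF a b
  invFun := sigB a b
  left_inv := sigB_sigF h
  right_inv := sigF_sigB h

/-- first component after `sigF` -/
theorem sigF_fst_other {c : Sd I} (h2 : c ≠ rot a) (h4 : c ≠ rot b) : (sigF a b c).1 = c.1 := by
  by_cases h1 : c = a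
  · subst h1; rw [sigF_a]; rfl
  by_cases h3 : c = b
  · subst h3
    unfold sigF
    simp only [h1, h2, if_false, if_true]
    rfl
  rw [sigF_other h1 h2 h3 h4]

end

namespace Obj

/-- the side `a` can be flipped (the two extra conditions hold in linear objects) -/
structure Flippable (S : Obj I) (a : Sd I) : Prop where
  glued : S.g a ≠ a
  h1 : S.g (rot a) ≠ unrot (S.g a)
  h2 : S.g (unrot a) ≠ rot (S.g a)

theorem Flippable.ne {S : Obj I} {a : Sd I} (h : S.Flippable a) : (S.g a).1 ≠ a.1 := S.ne a h.glued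

/-- the gluing after the flip -/
def flipG (S : Obj I) (a : Sd I) (c : Sd I) : Sd I :=
  sigF a (S.g a) (S.g (sigB a (S.g a) c))

/-- the flip of `a` -/
def flip (S : Obj I) (a : Sd I) (h : S.Flippable a) : Obj I where
  F := S.F
  g := S.flipG a
  E := S.E.map (sig a (S.g a) h.ne).toEmbedding
  invol c := by
    unfold flipG
    rw [sigB_sigF h.ne, S.invol, sigF_sigB h.ne]
  ne c := by
    intro hc
    unfold flipG at *
    set b := S.g a with hb
    have hba : b.1 ≠ a.1 := h.ne
    obtain ⟨d, rfl⟩ : ∃ d, sigF a b d = c := ⟨sigB a b c, sigF_sigB hba c⟩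
    rw [sigB_sigF hba] at *
    have hd : S.g d ≠ d := fun e => hc (by rw [e])
    have hd1 := S.ne d hd
    have hgb : S.g b = a := S.invol a
    by_cases k1 : d = rot a
    · subst k1
      rw [sigF_ra]
      have m1 : S.g (rot a) ≠ unrot b := h.h1
      by_cases k2 : S.g (rot a) = rot b
      · rw [k2, sigF_rb hba]; exact hba.symm
      · have k3 : S.g (rot a) ≠ b := by
          intro e
          have : rot a = a := by rw [← S.invol (rot a), e, hgb]
          exact rot_ne a this
        rw [sigF_fst_other hd k2]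
        intro e
        rcases eq_of_fst_eq e with e' | e' | e'
        · exact k3 e'
        · exact k2 e'
        · exact m1 e'
    by_cases k1' : d = rot b
    · subst k1'
      rw [sigF_rb hba]
      have m1 : S.g (rot b) ≠ unrot a := by
        intro e
        apply h.h2
        rw [← e, S.invol]
      by_cases k2 : S.g (rot b) = rot a
      · rw [k2, sigF_ra]; exact hba
      · have k3 : S.g (rot b) ≠ a := by
          intro e
          have : rot b = b := by rw [← S.invol (rot b), e, hb]
          exact rot_ne b this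
        rw [sigF_fst_other k2 hd]
        intro e
        rcases eq_of_fst_eq e with e' | e' | e'
        · exact k3 e'
        · exact k2 e'
        · exact m1 e'
    rw [sigF_fst_other k1 k1']
    by_cases k2 : S.g d = rot a
    · rw [k2, sigF_ra]
      intro e
      have e2 : S.g (rot a) = d := by rw [← k2, S.invol]
      rcases eq_of_fst_eq e.symm with e' | e' | e'
      · -- d = b
        rw [e', hgb] at k2
        exact rot_ne a k2.symm
      · exact k1' e'
      · exact h.h1 (by rw [e2, e'])
    by_cases k2' : S.g d = rot b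
    · rw [k2', sigF_rb hba]
      intro e
      rcases eq_of_fst_eq e.symm with e' | e' | e'
      · rw [e', ← hb] at k2'
        exact rot_ne b k2'.symm
      · exact k1 e'
      · exact h.h2 (by rw [← e', k2'])
    rw [sigF_fst_other k2 k2']
    exact hd1
  memF c := by
    intro hc
    unfold flipG at *
    set b := S.g a with hb
    have hba : b.1 ≠ a.1 := h.ne
    obtain ⟨d, rfl⟩ : ∃ d, sigF a b d = c := ⟨sigB a b c, sigF_sigB hba c⟩
    rw [sigB_sigF hba] at *
    have hd : S.g d ≠ d := fun e => hc (by rw [e])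
    by_cases k1 : d = rot a
    · subst k1; rw [sigF_ra]; exact g_memF h.glued
    by_cases k1' : d = rot b
    · subst k1'; rw [sigF_rb hba]; exact S.memF _ h.glued
    rw [sigF_fst_other k1 k1']
    exact S.memF _ hd
  earF c := by
    intro hc
    rw [Finset.mem_map] at hc
    obtain ⟨d, hd, rfl⟩ := hc
    change (sigF a (S.g a) d).1 ∈ S.F
    have hba : (S.g a).1 ≠ a.1 := h.ne
    by_cases k1 : d = rot a
    · subst k1; rw [sigF_ra]; exact g_memF h.glued
    by_cases k1' : d = rot (S.g a)
    · subst k1'; rw [sigF_rb hba]; exact S.memF _ h.glued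
    rw [sigF_fst_other k1 k1']
    exact S.earF _ hd
  earFree c := by
    intro hc
    rw [Finset.mem_map] at hc
    obtain ⟨d, hd, rfl⟩ := hc
    change sigF a (S.g a) (S.g (sigB a (S.g a) (sigF a (S.g a) d))) = sigF a (S.g a) d
    rw [sigB_sigF h.ne, S.earFree d hd]

section
variable {S : Obj I} {a : Sd I} (h : S.Flippable a)

@[simp] theorem flip_F : (S.flip a h).F = S.F := rfl

theorem flip_g (c : Sd I) : (S.flip a h).g c = sigF a (S.g a) (S.g (sigB a (S.g a) c)) := rfl

/-- the flip in terms of old side names: `g'(σ d) = σ (g d)` -/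
theorem flip_g_sig (d : Sd I) :
    (S.flip a h).g (sigF a (S.g a) d) = sigF a (S.g a) (S.g d) := by
  rw [flip_g, sigB_sigF h.ne]

theorem flip_E (d : Sd I) : sigF a (S.g a) d ∈ (S.flip a h).E ↔ d ∈ S.E := by
  change sigF a (S.g a) d ∈ S.E.map (sig a (S.g a) h.ne).toEmbedding ↔ _
  rw [Finset.mem_map]
  constructor
  · rintro ⟨e, he, h1⟩
    have : e = d := (sig a (S.g a) h.ne).injective h1
    rwa [← this]
  · intro hd; exact ⟨d, hd, rfl⟩

@[simp] theorem flip_E_card : (S.flip a h).E.card = S.E.card := Finset.card_map _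

/-- the new diagonal -/
theorem flip_g_rot : (S.flip a h).g (rot a) = rot (S.g a) := by
  have := flip_g_sig h a
  rwa [sigF_a, sigF_b h.ne] at this

theorem flip_g_rot' : (S.flip a h).g (rot (S.g a)) = rot a := by
  have := flip_g_sig h (S.g a)
  rwa [sigF_b h.ne, S.invol, sigF_a] at this

end

end Obj

/-- the points after the flip -/
def flipPt {α : Type} (pt : Sd I → α) (a b : Sd I) (c : Sd I) : α :=
  if c = rot a then pt (unrot b) else if c = rot b then pt (unrot a) else pt c

section
variable {α : Type} {pt : Sd I → α} {a b : Sd I}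

theorem flipPt_ra : flipPt pt a b (rot a) = pt (unrot b) := by simp [flipPt]

theorem flipPt_rb (h : b.1 ≠ a.1) : flipPt pt a b (rot b) = pt (unrot a) := by
  have h2 : rot b ≠ rot a := ne_of_fst h
  simp [flipPt, h2]

theorem flipPt_other {c : Sd I} (h1 : c ≠ rot a) (h2 : c ≠ rot b) : flipPt pt a b c = pt c := by
  simp [flipPt, h1, h2]

theorem flipPt_of_fst {c : Sd I} (h1 : c.1 ≠ a.1) (h2 : c.1 ≠ b.1) : flipPt pt a b c = pt c :=
  flipPt_other (ne_of_fst h1) (ne_of_fst h2)

theorem flipPt_a (h : b.1 ≠ a.1) : flipPt pt a b a = pt a :=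
  flipPt_other (rot_ne a).symm (ne_of_fst h.symm)

theorem flipPt_b (h : b.1 ≠ a.1) : flipPt pt a b b = pt b :=
  flipPt_other (ne_of_fst h) (rot_ne b).symm

theorem flipPt_ua (h : b.1 ≠ a.1) : flipPt pt a b (unrot a) = pt (unrot a) :=
  flipPt_other (unrot_ne_rot a) (ne_of_fst h.symm)

theorem flipPt_ub (h : b.1 ≠ a.1) : flipPt pt a b (unrot b) = pt (unrot b) :=
  flipPt_other (ne_of_fst h) (unrot_ne_rot b)

end

end AG
end
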