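import Mathlib

/- Helper69.AGF.Defs -/
section
/-!
Project AGF (geometric foundation of project AG, MP_586e8d_co, Shermer's conjecture).
Plane triangulations as finite sets of triples of points; simple polygons; polygons with holes.
-/

noncomputable section

namespace Pool.Agent.Helper69.AGF

/-- Points of the plane. -/
abbrev Pt := ℝ × ℝ

/-- Orientation determinant of three points (twice the signed area). -/
def det (a b c : Pt) : ℝ := (b.1 - a.1) * (c.2 - a.2) - (b.2 - a.2) * (c.1 - a.1)

/-- The convex hull of a finite set of points. -/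
def hull (t : Finset Pt) : Set Pt := convexHull ℝ (t : Set Pt)

/-- A finite family of non degenerate triangles, any two of which meet exactly in the hull of their
common vertices (an edge to edge triangulation of its region). -/
structure IsTri (T : Finset (Finset Pt)) : Prop where
  tri : ∀ t ∈ T, ∃ a b c : Pt, t = {a, b, c} ∧ 0 < det a b c
  glue : ∀ t ∈ T, ∀ t' ∈ T, hull t ∩ hull t' ⊆ hull (t ∩ t')

/-- The region covered by the triangles. -/
def region (T : Finset (Finset Pt)) : Set Pt := ⋃ t ∈ T, hull t

/-- The vertices. -/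
def verts (T : Finset (Finset Pt)) : Finset Pt := T.biUnion id

/-- The sides (two element subsets of the triangles). -/
def sides (T : Finset (Finset Pt)) : Finset (Finset Pt) := T.biUnion (fun t => t.powersetCard 2)

/-- The result of exchanging the diagonal x y of the quadrilateral x w' y w for w w'. -/
def flipTri (T : Finset (Finset Pt)) (x y w w' : Pt) : Finset (Finset Pt) :=
  (T \ {{x, y, w}, {x, y, w'}}) ∪ {{x, w, w'}, {y, w, w'}}

/-- The side p q crosses the segment a b (both at interior points). -/
def Crosses (a b : Pt) (e : Finset Pt) : Prop :=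
  ∃ p q : Pt, e = {p, q} ∧ det a b p < 0 ∧ 0 < det a b q ∧ det p q a * det p q b < 0

/-- Two triangles of T are adjacent across a side which satisfies a given condition. -/
def Adj (T : Finset (Finset Pt)) (ok : Finset Pt → Prop) (t t' : Finset Pt) : Prop :=
  t ∈ T ∧ t' ∈ T ∧ t ≠ t' ∧ ∃ e : Finset Pt, e.card = 2 ∧ e ⊆ t ∧ e ⊆ t' ∧ ok e

/-- A simple (closed) polygon with m vertices v 0, ..., v (m-1) in cyclic order: the vertices are
distinct and two different edges meet at most in a common end point. -/
structure SimplePoly where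
  m : ℕ
  three_le : 3 ≤ m
  v : ZMod m → Pt
  inj : Function.Injective v
  simple : ∀ i j : ZMod m, i ≠ j →
    ∀ p ∈ segment ℝ (v i) (v (i + 1)) ∩ segment ℝ (v j) (v (j + 1)),
      (p = v i ∨ p = v (i + 1)) ∧ (p = v j ∨ p = v (j + 1))

namespace SimplePoly

instance (g : SimplePoly) : NeZero g.m := ⟨by have := g.three_le; omega⟩

/-- The polygonal curve. -/
def curve (g : SimplePoly) : Set Pt := ⋃ i : ZMod g.m, segment ℝ (g.v i) (g.v (i + 1))

/-- The points of the bounded components of the complement of the curve. -/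
def inside (g : SimplePoly) : Set Pt :=
  {p | p ∉ g.curve ∧ Bornology.IsBounded (connectedComponentIn (g.curve)ᶜ p)}

/-- The closed region bounded by the simple polygon. -/
def closedRegion (g : SimplePoly) : Set Pt := g.curve ∪ g.inside

/-- The edges as two element sets. -/
def edges (g : SimplePoly) : Finset (Finset Pt) :=
  Finset.univ.image (fun i : ZMod g.m => ({g.v i, g.v (i + 1)} : Finset Pt))

/-- The vertices. -/
def vertices (g : SimplePoly) : Finset Pt := Finset.univ.image g.v

end SimplePoly

/-- A polygon with holes: a simple polygon (outer boundary) and h simple polygons whose closed regions are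
pairwise disjoint and contained in the interior of the closed region of the outer one. -/
structure HoledPoly where
  h : ℕ
  outer : SimplePoly
  hole : Fin h → SimplePoly
  hole_sub : ∀ i, (hole i).closedRegion ⊆ interior outer.closedRegion
  hole_disj : ∀ i j, i ≠ j → Disjoint (hole i).closedRegion (hole j).closedRegion

namespace HoledPoly

/-- The polygon with holes as a set of points. -/
def carrier (P : HoledPoly) : Set Pt :=
  P.outer.closedRegion \ ⋃ i, interior (P.hole i).closedRegion

/-- The number of vertices (of the outer polygon and of all holes). -/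
def n (P : HoledPoly) : ℕ := P.outer.m + ∑ i, (P.hole i).m

/-- The set of vertices. -/
def vertices (P : HoledPoly) : Finset Pt :=
  P.outer.vertices ∪ Finset.univ.biUnion (fun i => (P.hole i).vertices)

/-- The set of edges. -/
def edges (P : HoledPoly) : Finset (Finset Pt) :=
  P.outer.edges ∪ Finset.univ.biUnion (fun i => (P.hole i).edges)

end HoledPoly

/-- x sees y in P. -/
def Sees (P : Set Pt) (x y : Pt) : Prop := segment ℝ x y ⊆ P

end Pool.Agent.Helper69.AGF

end
end

/- Helper69.AGF.Det -/
section
/-!
Basic algebra of the orientation determinant; membership in segments and triangles.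
-/

noncomputable section

namespace Pool.Agent.Helper69.AGF

lemma det_rot (a b c : Pt) : det b c a = det a b c := by unfold det; ring

lemma det_rot' (a b c : Pt) : det c a b = det a b c := by unfold det; ring

lemma det_swap (a b c : Pt) : det b a c = - det a b c := by unfold det; ring

lemma det_swap' (a b c : Pt) : det a c b = - det a b c := by unfold det; ring

lemma det_swap'' (a b c : Pt) : det c b a = - det a b c := by unfold det; ring

@[simp] lemma det_aac (a c : Pt) : det a a c = 0 := by unfold det; ring

@[simp] lemma det_abb (a b : Pt) : det a b b = 0 := by unfold det; ring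

@[simp] lemma det_aba (a b : Pt) : det a b a = 0 := by unfold det; ring

/-- The three signed areas of the triangles with apex p add up. -/
lemma det_split (a b c p : Pt) : det a b p + det b c p + det c a p = det a b c := by
  unfold det; ring

/-- The determinant is affine in the last argument. -/
lemma det_comb (a b x y : Pt) (s t : ℝ) (h : s + t = 1) :
    det a b (s • x + t • y) = s * det a b x + t * det a b y := by
  obtain rfl : t = 1 - s := by linarith
  simp only [det, Prod.fst_add, Prod.smul_fst, smul_eq_mul, Prod.snd_add, Prod.smul_snd]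
  ring

lemma det_comb3 (a b x y z : Pt) (r s t : ℝ) (h : r + s + t = 1) :
    det a b (r • x + s • y + t • z) = r * det a b x + s * det a b y + t * det a b z := by
  obtain rfl : t = 1 - s - r := by linarith
  simp only [det, Prod.fst_add, Prod.smul_fst, smul_eq_mul, Prod.snd_add, Prod.smul_snd]
  ring

/-- Barycentric coordinates. -/
lemma bary (a b c p : Pt) (h : det a b c ≠ 0) :
    p = (det b c p / det a b c) • a + (det c a p / det a b c) • b + (det a b p / det a b c) • c := by
  have e1 : det b c p * a.1 + det c a p * b.1 + det a b p * c.1 = det a b c * p.1 := by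
    unfold det; ring
  have e2 : det b c p * a.2 + det c a p * b.2 + det a b p * c.2 = det a b c * p.2 := by
    unfold det; ring
  apply Prod.ext
  · simp only [Prod.fst_add, Prod.smul_fst, smul_eq_mul]
    field_simp
    linarith
  · simp only [Prod.snd_add, Prod.smul_snd, smul_eq_mul]
    field_simp
    linarith

lemma hull_mono {s t : Finset Pt} (h : s ⊆ t) : hull s ⊆ hull t :=
  convexHull_mono (by exact_mod_cast h)

@[simp] lemma hull_empty : hull (∅ : Finset Pt) = ∅ := by simp [hull]

@[simp] lemma hull_singleton (a : Pt) : hull {a} = {a} := by simp [hull]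

lemma hull_pair (a b : Pt) : hull {a, b} = segment ℝ a b := by
  unfold hull
  push_cast
  exact convexHull_pair a b

lemma convex_hull (t : Finset Pt) : Convex ℝ (hull t) := convex_convexHull ℝ _

lemma subset_hull {t : Finset Pt} {p : Pt} (h : p ∈ t) : p ∈ hull t :=
  subset_convexHull ℝ _ (by exact_mod_cast h)

lemma isCompact_hull (t : Finset Pt) : IsCompact (hull t) :=
  (Finset.finite_toSet t).isCompact_convexHull (𝕜 := ℝ)

lemma isClosed_hull (t : Finset Pt) : IsClosed (hull t) := (isCompact_hull t).isClosed

/-- Points of a triangle. -/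
lemma mem_hull3_comb {a b c p : Pt} : p ∈ hull {a, b, c} ↔
    ∃ r s t : ℝ, 0 ≤ r ∧ 0 ≤ s ∧ 0 ≤ t ∧ r + s + t = 1 ∧ p = r • a + s • b + t • c := by
  unfold hull
  push_cast
  rw [convexHull_insert (by simp), convexHull_pair]
  simp only [mem_convexJoin, Set.mem_singleton_iff, exists_eq_left]
  constructor
  · rintro ⟨q, ⟨s, t, hs, ht, hst, rfl⟩, ⟨u, w, hu, hw, huw, rfl⟩⟩
    refine ⟨u, w * s, w * t, hu, mul_nonneg hw hs, mul_nonneg hw ht, ?_, ?_⟩
    · rw [add_assoc, ← mul_add, hst, mul_one, huw]
    · simp only [smul_add, smul_smul, add_assoc]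
  · rintro ⟨r, s, t, hr, hs, ht, h, rfl⟩
    by_cases hz : s + t = 0
    · have hs0 : s = 0 := by linarith
      have ht0 : t = 0 := by linarith
      subst hs0; subst ht0
      have : r = 1 := by linarith
      subst this
      refine ⟨b, left_mem_segment ℝ b c, ?_⟩
      simpa using left_mem_segment ℝ a b
    · refine ⟨(s / (s + t)) • b + (t / (s + t)) • c,
        ⟨s / (s + t), t / (s + t), by positivity, by positivity, by field_simp, rfl⟩,
        ⟨r, s + t, hr, by positivity, by linarith, ?_⟩⟩
      simp only [smul_add, smul_smul]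
      rw [mul_div_cancel₀ _ hz, mul_div_cancel₀ _ hz, ← add_assoc]

/-- A point is in the positively oriented triangle a b c iff the three determinants are nonnegative. -/
lemma mem_hull3 {a b c p : Pt} (h : 0 < det a b c) :
    p ∈ hull {a, b, c} ↔ 0 ≤ det a b p ∧ 0 ≤ det b c p ∧ 0 ≤ det c a p := by
  rw [mem_hull3_comb]
  constructor
  · rintro ⟨r, s, t, hr, hs, ht, h1, rfl⟩
    rw [det_comb3 _ _ _ _ _ _ _ _ h1, det_comb3 _ _ _ _ _ _ _ _ h1, det_comb3 _ _ _ _ _ _ _ _ h1]
    simp only [det_aba, det_abb, mul_zero, zero_add, add_zero, det_rot, det_rot']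
    exact ⟨mul_nonneg ht h.le, mul_nonneg hr h.le, mul_nonneg hs h.le⟩
  · rintro ⟨h1, h2, h3⟩
    refine ⟨_, _, _, div_nonneg h2 h.le, div_nonneg h3 h.le, div_nonneg h1 h.le, ?_,
      bary a b c p h.ne'⟩
    have := det_split a b c p
    field_simp
    linarith

lemma mem_hull2 {a b p : Pt} : p ∈ hull {a, b} ↔ p ∈ segment ℝ a b := by rw [hull_pair]

/-- A point of the segment a b has determinant zero. -/
lemma det_of_mem_segment {a b p : Pt} (h : p ∈ segment ℝ a b) : det a b p = 0 := by
  obtain ⟨s, t, hs, ht, hst, rfl⟩ := h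
  rw [det_comb _ _ _ _ _ _ hst]; simp

/-- The value of an affine functional at a point of a segment is between the values at the ends. -/
lemma det_mem_segment {a b x y p : Pt} (h : p ∈ segment ℝ x y) :
    ∃ s t : ℝ, 0 ≤ s ∧ 0 ≤ t ∧ s + t = 1 ∧ p = s • x + t • y ∧
      det a b p = s * det a b x + t * det a b y := by
  obtain ⟨s, t, hs, ht, hst, rfl⟩ := h
  exact ⟨s, t, hs, ht, hst, rfl, det_comb _ _ _ _ _ _ hst⟩

/-- If det a b c > 0, a point of the triangle a b c with det a b p = 0 is on the segment a b. -/
lemma mem_segment_of_mem_hull3 {a b c p : Pt} (h : det a b c ≠ 0) (hp : p ∈ hull {a, b, c})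
    (h0 : det a b p = 0) : p ∈ segment ℝ a b := by
  rw [mem_hull3_comb] at hp
  obtain ⟨r, s, t, hr, hs, ht, h1, rfl⟩ := hp
  rw [det_comb3 _ _ _ _ _ _ _ _ h1] at h0
  simp only [det_aba, det_abb, mul_zero, zero_add] at h0
  have ht0 : t = 0 := by
    rcases mul_eq_zero.mp h0 with h' | h'
    · exact h'
    · exact absurd h' h
  subst ht0
  exact ⟨r, s, hr, hs, by linarith, by simp⟩

/-- A vertex of a non degenerate triangle which lies in the hull of a subset of the vertices belongs
to the subset. -/
lemma vertex_mem_of_hull {a b c : Pt} (h : det a b c ≠ 0) {s : Finset Pt} (hs : s ⊆ {a, b, c})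
    {p : Pt} (hp : p ∈ ({a, b, c} : Finset Pt)) (hps : p ∈ hull s) : p ∈ s := by
  by_contra hcon
  -- s is contained in the two other vertices
  have key : ∀ x y z : Pt, det x y z ≠ 0 → s ⊆ {x, y, z} → z ∉ s → z ∈ hull s → False := by
    intro x y z hxyz hsub hz hzs
    have hsub' : s ⊆ {x, y} := by
      intro q hq
      have := hsub hq
      simp only [Finset.mem_insert, Finset.mem_singleton] at this ⊢
      rcases this with h1 | h1 | h1
      · exact Or.inl h1
      · exact Or.inr h1
      · subst h1; exact absurd hq hz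
    have := hull_mono hsub' hzs
    rw [mem_hull2] at this
    exact hxyz (det_of_mem_segment this)
  simp only [Finset.mem_insert, Finset.mem_singleton] at hp
  rcases hp with rfl | rfl | rfl
  · refine key b c p (by rwa [det_rot]) ?_ hcon hps
    intro q hq
    have := hs hq
    simp only [Finset.mem_insert, Finset.mem_singleton] at this ⊢
    tauto
  · refine key c a p (by rwa [det_rot']) ?_ hcon hps
    intro q hq
    have := hs hq
    simp only [Finset.mem_insert, Finset.mem_singleton] at this ⊢
    tauto
  · exact key a b p h hs hcon hps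

lemma continuous_det (a b : Pt) : Continuous (fun p : Pt => det a b p) := by
  unfold det; fun_prop

/-- Moving a little away from a point inside the interior of a convex set. -/
lemma det_pos_of_mem_interior {a b c p : Pt} (h : 0 < det a b c) {S : Set Pt}
    (hS : ∀ q ∈ S, 0 ≤ det a b q) (hp : p ∈ interior S) : 0 < det a b p := by
  have hcont : Filter.Tendsto (fun e : ℝ => p + e • (p - c)) (nhds 0) (nhds p) := by
    have : Continuous (fun e : ℝ => p + e • (p - c)) := by fun_prop
    have h2 := this.tendsto 0
    simpa using h2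
  have hev := hcont (mem_interior_iff_mem_nhds.mp hp)
  rw [Filter.mem_map, Metric.mem_nhds_iff] at hev
  obtain ⟨d, hd, hball⟩ := hev
  have h1 := hball (show d / 2 ∈ Metric.ball (0 : ℝ) d by
    simp [abs_of_pos hd]; linarith)
  have h2 := hS _ h1
  have h3 : det a b (p + (d / 2) • (p - c)) = (1 + d / 2) * det a b p - d / 2 * det a b c := by
    simp only [det, Prod.fst_add, Prod.smul_fst, smul_eq_mul, Prod.snd_add, Prod.smul_snd,
      Prod.fst_sub, Prod.snd_sub]
    ring
  rw [h3] at h2
  have h4 : 0 < d / 2 * det a b c := by positivity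
  by_contra hcon
  push Not at hcon
  have : (1 + d / 2) * det a b p ≤ 0 := mul_nonpos_of_nonneg_of_nonpos (by positivity) hcon
  linarith

/-- The interior of a positively oriented triangle. -/
lemma interior_hull3 {a b c : Pt} (h : 0 < det a b c) :
    interior (hull {a, b, c}) = {p | 0 < det a b p ∧ 0 < det b c p ∧ 0 < det c a p} := by
  apply Set.Subset.antisymm
  · intro p hp
    refine ⟨det_pos_of_mem_interior h (fun q hq => ((mem_hull3 h).mp hq).1) hp,
      det_pos_of_mem_interior (c := a) (by rwa [det_rot]) (fun q hq => ((mem_hull3 h).mp hq).2.1) hp,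
      det_pos_of_mem_interior (c := b) (by rwa [det_rot']) (fun q hq => ((mem_hull3 h).mp hq).2.2)
        hp⟩
  · have hopen : IsOpen {p | 0 < det a b p ∧ 0 < det b c p ∧ 0 < det c a p} :=
      (isOpen_lt continuous_const (continuous_det a b)).inter
        ((isOpen_lt continuous_const (continuous_det b c)).inter
          (isOpen_lt continuous_const (continuous_det c a)))
    rw [hopen.subset_interior_iff]
    intro p hp
    exact (mem_hull3 h).mpr ⟨hp.1.le, hp.2.1.le, hp.2.2.le⟩

/-- The triangle is the closure of its interior. -/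
lemma hull3_subset_closure {a b c : Pt} (h : 0 < det a b c) :
    hull {a, b, c} ⊆ closure (interior (hull {a, b, c})) := by
  have hne : (interior (hull {a, b, c})).Nonempty := by
    rw [interior_hull3 h]
    refine ⟨(1/3 : ℝ) • a + (1/3 : ℝ) • b + (1/3 : ℝ) • c, ?_, ?_, ?_⟩
    · rw [det_comb3 _ _ _ _ _ _ _ _ (by norm_num)]; simp [h]
    · rw [det_comb3 _ _ _ _ _ _ _ _ (by norm_num)]; simp [det_rot, h]
    · rw [det_comb3 _ _ _ _ _ _ _ _ (by norm_num)]; simp [det_rot', h]
  have := (convex_hull {a, b, c}).closure_interior_eq_closure_of_nonempty_interior hne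
  rw [this]
  exact subset_closure

end Pool.Agent.Helper69.AGF

end
end

/- Helper69.AGF.Basic -/
section
/-!
AGF module Basic: basic facts on triangle complexes (IsTri).

PROOF HINTS.
det_ne: {x,y,w} = {a,b,c} with 0 < det a b c; a,b,c distinct (det would vanish), so the triple (x,y,w) is one of the
  six permutations of (a,b,c): det x y w = + or - det a b c (lemmas det_rot, det_swap ... in Det.lean). Practical way:
  card {a,b,c} = 3, so x,y,w are distinct, x,y,w in {a,b,c}: rcases gives 27 cases, most closed by simp_all.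
third: t = {a,b,c}; x, y in t distinct: 6 cases.
at_vertex: t = {a,b,c}, v one of them; use det_rot.
opp: both determinants are nonzero. Suppose they have the same sign; exchanging x and y (det_swap, Finset.pair_comm) we
  may assume both positive: D = det x y w > 0, D' = det x y w' > 0. m = midpoint of x,y. For 0 < e <= 1 the point
  q = (1-e) m + e w has det x y q = e D > 0, det y w q = (1-e) D/2 >= 0, det w x q = (1-e) D/2 >= 0, so q in hull {x,y,w};
  and det y w' q = (1-e) D'/2 + e det y w' w, det w' x q = (1-e) D'/2 + e det w' x w are >= 0 for e small (take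
  e = D'/2 / (D'/2 + 1 + |det y w' w| + |det w' x w|)). So q in hull {x,y,w}, q in hull {x,y,w'}, hence by glue q in
  hull ({x,y,w} cap {x,y,w'}) and the intersection is contained in {x,y} (w is not in {x,y,w'}: w <> w' and w <> x,y since
  det x y w <> 0), so q in segment x y and det x y q = 0. Contradiction.
side_two: write t1 = {x,y,w1}, t2 = {x,y,w2}, t3 = {x,y,w3} (third); if the three w are distinct, opp gives three
  pairwise negative products of d1, d2, d3: impossible (d1 d2 < 0, d1 d3 < 0 give d2 d3 > 0).
-/

noncomputable section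

namespace Pool.Agent.Helper69.AGF

variable {T : Finset (Finset Pt)}

lemma mem_verts {v : Pt} : v ∈ verts T ↔ ∃ t ∈ T, v ∈ t := by
  simp [verts]

lemma mem_sides {e : Finset Pt} : e ∈ sides T ↔ e.card = 2 ∧ ∃ t ∈ T, e ⊆ t := by
  unfold sides
  simp only [Finset.mem_biUnion, Finset.mem_powersetCard]
  constructor
  · rintro ⟨t, ht, h1, h2⟩
    exact ⟨h2, t, ht, h1⟩
  · rintro ⟨h2, t, ht, h1⟩
    exact ⟨t, ht, h1, h2⟩

lemma mem_region {p : Pt} : p ∈ region T ↔ ∃ t ∈ T, p ∈ hull t := by
  simp [region]

/-- The three points of a triangle of T are not collinear. -/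
theorem IsTri.det_ne (hT : IsTri T) {x y w : Pt} (h : ({x, y, w} : Finset Pt) ∈ T) :
    det x y w ≠ 0 := by
  obtain ⟨a, b, c, habc, hpos⟩ := hT.tri _ h
  intro h0
  have ha : a = x ∨ a = y ∨ a = w := by
    have : a ∈ ({x, y, w} : Finset Pt) := by rw [habc]; simp
    simpa using this
  have hb : b = x ∨ b = y ∨ b = w := by
    have : b ∈ ({x, y, w} : Finset Pt) := by rw [habc]; simp
    simpa using this
  have hc : c = x ∨ c = y ∨ c = w := by
    have : c ∈ ({x, y, w} : Finset Pt) := by rw [habc]; simp
    simpa using this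
  clear habc
  unfold det at hpos h0
  rcases ha with rfl | rfl | rfl <;> rcases hb with rfl | rfl | rfl <;>
    rcases hc with rfl | rfl | rfl <;> linarith

theorem IsTri.card (hT : IsTri T) {t : Finset Pt} (ht : t ∈ T) : t.card = 3 := by
  obtain ⟨a, b, c, habc, hpos⟩ := hT.tri _ ht
  rw [Finset.card_eq_three]
  refine ⟨a, b, c, ?_, ?_, ?_, habc⟩
  · rintro rfl
    simp at hpos
  · rintro rfl
    simp at hpos
  · rintro rfl
    simp at hpos

/-- The third vertex of a triangle with a given side. -/
theorem IsTri.third (hT : IsTri T) {t : Finset Pt} (ht : t ∈ T) {x y : Pt} (hxy : x ≠ y)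
    (h : ({x, y} : Finset Pt) ⊆ t) : ∃ w, t = {x, y, w} ∧ det x y w ≠ 0 := by
  have h3 := hT.card ht
  have h2 : ({x, y} : Finset Pt).card = 2 := Finset.card_pair hxy
  have h1 : (t \ {x, y}).card = 1 := by
    have := Finset.card_sdiff_add_card_eq_card h
    omega
  obtain ⟨w, hw⟩ := Finset.card_eq_one.1 h1
  have htw : t = {x, y, w} := by
    rw [← Finset.sdiff_union_of_subset h, hw]
    ext z
    simp only [Finset.mem_union, Finset.mem_insert, Finset.mem_singleton]
    tauto
  refine ⟨w, htw, hT.det_ne ?_⟩
  rw [← htw]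
  exact ht

/-- Every triangle can be written with a given first vertex and positive orientation. -/
theorem IsTri.at_vertex (hT : IsTri T) {t : Finset Pt} (ht : t ∈ T) {v : Pt} (h : v ∈ t) :
    ∃ p q, t = {v, p, q} ∧ 0 < det v p q := by
  obtain ⟨a, b, c, habc, hpos⟩ := hT.tri _ ht
  rw [habc] at h
  simp only [Finset.mem_insert, Finset.mem_singleton] at h
  rcases h with rfl | rfl | rfl
  · exact ⟨b, c, habc, hpos⟩
  · refine ⟨c, a, ?_, by rw [det_rot]; exact hpos⟩
    rw [habc]
    ext z
    simp only [Finset.mem_insert, Finset.mem_singleton]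
    tauto
  · refine ⟨a, b, ?_, by rw [det_rot']; exact hpos⟩
    rw [habc]
    ext z
    simp only [Finset.mem_insert, Finset.mem_singleton]
    tauto

/-- The main case of `IsTri.opp`. -/
private lemma IsTri.opp_aux (hT : IsTri T) {x y w w' : Pt} (h1 : ({x, y, w} : Finset Pt) ∈ T)
    (h2 : ({x, y, w'} : Finset Pt) ∈ T) (hne : w ≠ w') (hD : 0 < det x y w)
    (hD' : 0 < det x y w') : False := by
  set P := det y w' w with hP
  set Q := det w' x w with hQ
  set D := det x y w with hDd
  set D' := det x y w' with hDd'
  have hden : 0 < D' / 2 + 1 + |P| + |Q| := by positivity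
  set e := (D' / 2) / (D' / 2 + 1 + |P| + |Q|) with he
  have he0 : 0 < e := by positivity
  have hmul : e * (D' / 2 + 1 + |P| + |Q|) = D' / 2 := by
    rw [he]
    field_simp
  have hP1 : -|P| ≤ P := neg_abs_le P
  have hQ1 : -|Q| ≤ Q := neg_abs_le Q
  have hP0 : 0 ≤ |P| := abs_nonneg P
  have hQ0 : 0 ≤ |Q| := abs_nonneg Q
  have heP : 0 ≤ e * |P| := by positivity
  have heQ : 0 ≤ e * |Q| := by positivity
  have heP1 : e * (-|P|) ≤ e * P := mul_le_mul_of_nonneg_left hP1 he0.le
  have heQ1 : e * (-|Q|) ≤ e * Q := mul_le_mul_of_nonneg_left hQ1 he0.le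
  have he1 : e ≤ 1 := by
    rw [he, div_le_one hden]
    linarith
  set q : Pt := ((1 - e) / 2) • x + ((1 - e) / 2) • y + e • w with hq
  have hsum : (1 - e) / 2 + (1 - e) / 2 + e = 1 := by ring
  have hq1 : q ∈ hull {x, y, w} := by
    rw [mem_hull3_comb]
    exact ⟨(1 - e) / 2, (1 - e) / 2, e, by linarith, by linarith, he0.le, hsum, rfl⟩
  have hxyq : det x y q = e * D := by
    rw [hq, det_comb3 _ _ _ _ _ _ _ _ hsum, det_aba, det_abb, ← hDd]
    ring
  have hq2 : q ∈ hull {x, y, w'} := by
    rw [mem_hull3 hD']
    refine ⟨?_, ?_, ?_⟩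
    · rw [hxyq]
      positivity
    · rw [hq, det_comb3 _ _ _ _ _ _ _ _ hsum, det_rot, ← hDd', det_aba, ← hP]
      nlinarith
    · rw [hq, det_comb3 _ _ _ _ _ _ _ _ hsum, det_abb, det_rot', ← hDd', ← hQ]
      nlinarith
  have hq3 := hT.glue _ h1 _ h2 ⟨hq1, hq2⟩
  have hsub : ({x, y, w} : Finset Pt) ∩ {x, y, w'} ⊆ {x, y} := by
    intro z hz
    simp only [Finset.mem_inter, Finset.mem_insert, Finset.mem_singleton] at hz ⊢
    obtain ⟨hz1, hz2⟩ := hz
    rcases hz1 with h | h | h
    · exact Or.inl h
    · exact Or.inr h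
    · rcases hz2 with h' | h' | h'
      · exact Or.inl h'
      · exact Or.inr h'
      · exact absurd (h.symm.trans h') hne
  have hq4 := hull_mono hsub hq3
  rw [mem_hull2] at hq4
  have hq5 := det_of_mem_segment hq4
  rw [hxyq] at hq5
  have : 0 < e * D := by positivity
  linarith

/-- Two different triangles with a common side lie on different sides of it. -/
theorem IsTri.opp (hT : IsTri T) {x y w w' : Pt} (h1 : ({x, y, w} : Finset Pt) ∈ T)
    (h2 : ({x, y, w'} : Finset Pt) ∈ T) (hne : w ≠ w') : det x y w * det x y w' < 0 := by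
  have n1 := hT.det_ne h1
  have n2 := hT.det_ne h2
  rcases lt_or_gt_of_ne n1 with a1 | a1 <;> rcases lt_or_gt_of_ne n2 with a2 | a2
  · exfalso
    refine hT.opp_aux (x := y) (y := x) (w := w) (w' := w') ?_ ?_ hne ?_ ?_
    · rw [Finset.insert_comm]
      exact h1
    · rw [Finset.insert_comm]
      exact h2
    · rw [det_swap]
      linarith
    · rw [det_swap]
      linarith
  · exact mul_neg_of_neg_of_pos a1 a2
  · exact mul_neg_of_pos_of_neg a1 a2
  · exact (hT.opp_aux h1 h2 hne a1 a2).elim

/-- A side is contained in at most two triangles. -/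
theorem IsTri.side_two (hT : IsTri T) {e t1 t2 t3 : Finset Pt} (he : e.card = 2) (h1 : t1 ∈ T)
    (h2 : t2 ∈ T) (h3 : t3 ∈ T) (e1 : e ⊆ t1) (e2 : e ⊆ t2) (e3 : e ⊆ t3) (hne : t1 ≠ t2) :
    t3 = t1 ∨ t3 = t2 := by
  obtain ⟨x, y, hxy, rfl⟩ := Finset.card_eq_two.1 he
  obtain ⟨w1, rfl, -⟩ := hT.third h1 hxy e1
  obtain ⟨w2, rfl, -⟩ := hT.third h2 hxy e2
  obtain ⟨w3, rfl, -⟩ := hT.third h3 hxy e3
  by_contra hcon
  push Not at hcon
  obtain ⟨c1, c2⟩ := hcon
  have n12 : w1 ≠ w2 := by
    rintro rfl
    exact hne rfl
  have n31 : w3 ≠ w1 := by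
    rintro rfl
    exact c1 rfl
  have n32 : w3 ≠ w2 := by
    rintro rfl
    exact c2 rfl
  have p12 := hT.opp h1 h2 n12
  have p31 := hT.opp h3 h1 n31
  have p32 := hT.opp h3 h2 n32
  have q1 := mul_pos_of_neg_of_neg p31 p32
  have q2 : 0 ≤ det x y w3 * det x y w3 := mul_self_nonneg _
  have q3 : det x y w3 * det x y w1 * (det x y w3 * det x y w2) =
      (det x y w3 * det x y w3) * (det x y w1 * det x y w2) := by ring
  have q4 : (det x y w3 * det x y w3) * (det x y w1 * det x y w2) ≤ 0 :=
    mul_nonpos_of_nonneg_of_nonpos q2 p12.le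
  linarith

end Pool.Agent.Helper69.AGF

end
end

/- Helper69.AGF.Vert -/
section
/-!
AGF module Vert: vertices and directions of sides.

PROOF HINTS.
vert_mem: v in some t0 in T (mem_verts). v in hull t cap hull t0, so by glue v in hull (t cap t0). t0 = {a,b,c} with
  det <> 0, t cap t0 subset t0, so vertex_mem_of_hull (Det.lean) gives v in t cap t0.
same_dir: if c <= 1 then u' = v + c (u - v) is in segment v u, contained in hull t where {v,u} subset t in T; u' in verts T,
  so u' in t by vert_mem; t = {v,u,w} (third), u' = w is impossible (det v u u' = 0), u' = v impossible (card {v,u'} = 2), so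
  u' = u. If c > 1 exchange u and u' (c^-1).
not_in_cone: Suppose 0 < det v p u and 0 < det v u q. For small e > 0 the point x = v + e (u - v) satisfies
  det v p x = e det v p u > 0, det q v x = e det q v u = e det v u q > 0, det p q x = (1-e) det p q v + e det p q u > 0 for e
  small (det p q v = det v p q > 0), so x is in hull {v,p,q} with all three determinants positive. It is also in the hull of a
  triangle t' = {v,u,w} in T containing {v,u}. By glue x in hull ({v,p,q} cap t'). If {v,p,q} cap t' = {v,p,q} then t' = {v,p,q} and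
  u in {p,q} (u <> v by card), contradiction to the positive determinants (det v p p = 0, det v q q = 0). Otherwise the intersection misses
  p or q or v, i.e. is contained in {v,q}, {v,p} or {p,q}, and x in the hull (a segment) makes one determinant zero.
-/

noncomputable section

namespace Pool.Agent.Helper69.AGF

variable {T : Finset (Finset Pt)}

/-- A vertex of the complex which lies in a triangle of the complex is a vertex of the triangle. -/
theorem IsTri.vert_mem (hT : IsTri T) {v : Pt} (hv : v ∈ verts T) {t : Finset Pt} (ht : t ∈ T)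
    (h : v ∈ hull t) : v ∈ t := by
  obtain ⟨t0, ht0, hv0⟩ := mem_verts.mp hv
  have h1 : v ∈ hull (t ∩ t0) := hT.glue t ht t0 ht0 ⟨h, subset_hull hv0⟩
  obtain ⟨a, b, c, rfl, habc⟩ := hT.tri t0 ht0
  exact (Finset.mem_inter.mp
    (vertex_mem_of_hull habc.ne' Finset.inter_subset_right hv0 h1)).1

/-- The case of a factor at most one. -/
private theorem IsTri.same_dir_aux (hT : IsTri T) {v u u' : Pt} (hu : ({v, u} : Finset Pt) ∈ sides T)
    (hu' : ({v, u'} : Finset Pt) ∈ sides T) {c : ℝ} (hc : 0 < c) (hc1 : c ≤ 1)
    (h : u' - v = c • (u - v)) : u = u' := by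
  obtain ⟨hcard, t, ht, hsub⟩ := mem_sides.mp hu
  obtain ⟨hcard', t', ht', hsub'⟩ := mem_sides.mp hu'
  have hvu : v ≠ u := by
    rintro rfl
    simp at hcard
  have hvu' : v ≠ u' := by
    rintro rfl
    simp at hcard'
  have hseg : u' ∈ segment ℝ v u := by
    refine ⟨1 - c, c, by linarith, hc.le, by ring, ?_⟩
    have : u' = v + c • (u - v) := by rw [← h]; abel
    rw [this, smul_sub, sub_smul, one_smul]
    abel
  have hmem : u' ∈ hull t := hull_mono hsub (by rw [hull_pair]; exact hseg)
  have hver : u' ∈ verts T := mem_verts.mpr ⟨t', ht', hsub' (by simp)⟩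
  have hut := hT.vert_mem hver ht hmem
  obtain ⟨w, rfl, hw⟩ := hT.third ht hvu hsub
  simp only [Finset.mem_insert, Finset.mem_singleton] at hut
  rcases hut with h1 | h1 | h1
  · exact absurd h1.symm hvu'
  · exact h1.symm
  · subst h1
    exact absurd (det_of_mem_segment hseg) hw

/-- Two sides at v with the same direction are equal. -/
theorem IsTri.same_dir (hT : IsTri T) {v u u' : Pt} (hu : ({v, u} : Finset Pt) ∈ sides T)
    (hu' : ({v, u'} : Finset Pt) ∈ sides T) {c : ℝ} (hc : 0 < c) (h : u' - v = c • (u - v)) :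
    u = u' := by
  rcases le_total c 1 with h1 | h1
  · exact hT.same_dir_aux hu hu' hc h1 h
  · refine (hT.same_dir_aux hu' hu (inv_pos.mpr hc) (inv_le_one_of_one_le₀ h1) ?_).symm
    rw [h, smul_smul, inv_mul_cancel₀ hc.ne', one_smul]

/-- A side at v is not strictly inside a triangle at v. -/
theorem IsTri.not_in_cone (hT : IsTri T) {v p q u : Pt} (ht : ({v, p, q} : Finset Pt) ∈ T)
    (hd : 0 < det v p q) (hu : ({v, u} : Finset Pt) ∈ sides T) :
    ¬ (0 < det v p u ∧ 0 < det v u q) := by
  rintro ⟨h1, h2⟩
  obtain ⟨hcard, t', ht', hsub⟩ := mem_sides.mp hu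
  have hvu : v ≠ u := by
    rintro rfl
    simp at hcard
  have hD : 0 < det p q v := by rw [det_rot]; exact hd
  set D := det p q v with hDdef
  set X := det p q u with hXdef
  have hden : 0 < D + |X| + 1 := by positivity
  obtain ⟨e, he0, he1, heq⟩ : ∃ e : ℝ, 0 < e ∧ e ≤ 1 ∧ 0 < (1 - e) * D + e * X := by
    refine ⟨D / (D + |X| + 1), by positivity, ?_, ?_⟩
    · rw [div_le_one hden]
      have := abs_nonneg X
      linarith
    · have h3 : 0 < D / (D + |X| + 1) := by positivity
      have h4 : D / (D + |X| + 1) * (D + |X| + 1) = D := div_mul_cancel₀ D hden.ne'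
      have h5 : -|X| ≤ X := neg_abs_le X
      nlinarith
  set x : Pt := (1 - e) • v + e • u with hx
  have hsum : (1 - e) + e = 1 := by ring
  have d1 : 0 < det v p x := by
    rw [hx, det_comb _ _ _ _ _ _ hsum, det_aba, mul_zero, zero_add]
    exact mul_pos he0 h1
  have d2 : 0 < det p q x := by
    rw [hx, det_comb _ _ _ _ _ _ hsum]
    exact heq
  have d3 : 0 < det q v x := by
    rw [hx, det_comb _ _ _ _ _ _ hsum, det_abb, mul_zero, zero_add, det_rot']
    exact mul_pos he0 h2
  have m1 : x ∈ hull {v, p, q} := (mem_hull3 hd).mpr ⟨d1.le, d2.le, d3.le⟩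
  have m2 : x ∈ hull t' := by
    refine hull_mono hsub ?_
    rw [hull_pair]
    exact ⟨1 - e, e, by linarith, he0.le, hsum, rfl⟩
  have m3 := hT.glue _ ht _ ht' ⟨m1, m2⟩
  by_cases hv : v ∈ t'
  · by_cases hp : p ∈ t'
    · by_cases hq : q ∈ t'
      · have hsub3 : ({v, p, q} : Finset Pt) ⊆ t' := by
          intro y hy
          simp only [Finset.mem_insert, Finset.mem_singleton] at hy
          rcases hy with rfl | rfl | rfl
          · exact hv
          · exact hp
          · exact hq
        have heq3 : ({v, p, q} : Finset Pt) = t' :=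
          Finset.eq_of_subset_of_card_le hsub3 (by rw [hT.card ht, hT.card ht'])
        have hu3 : u ∈ ({v, p, q} : Finset Pt) := by
          rw [heq3]
          exact hsub (by simp)
        simp only [Finset.mem_insert, Finset.mem_singleton] at hu3
        rcases hu3 with h3 | h3 | h3
        · exact hvu h3.symm
        · rw [h3] at h1
          simp at h1
        · rw [h3] at h2
          simp at h2
      · have hs : ({v, p, q} : Finset Pt) ∩ t' ⊆ {v, p} := by
          intro y hy
          simp only [Finset.mem_inter, Finset.mem_insert, Finset.mem_singleton] at hy ⊢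
          rcases hy with ⟨rfl | rfl | rfl, hy⟩
          · exact Or.inl rfl
          · exact Or.inr rfl
          · exact absurd hy hq
        have := hull_mono hs m3
        rw [mem_hull2] at this
        exact d1.ne' (det_of_mem_segment this)
    · have hs : ({v, p, q} : Finset Pt) ∩ t' ⊆ {q, v} := by
        intro y hy
        simp only [Finset.mem_inter, Finset.mem_insert, Finset.mem_singleton] at hy ⊢
        rcases hy with ⟨rfl | rfl | rfl, hy⟩
        · exact Or.inr rfl
        · exact absurd hy hp
        · exact Or.inl rfl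
      have := hull_mono hs m3
      rw [mem_hull2] at this
      exact d3.ne' (det_of_mem_segment this)
  · have hs : ({v, p, q} : Finset Pt) ∩ t' ⊆ {p, q} := by
      intro y hy
      simp only [Finset.mem_inter, Finset.mem_insert, Finset.mem_singleton] at hy ⊢
      rcases hy with ⟨rfl | rfl | rfl, hy⟩
      · exact absurd hy hv
      · exact Or.inl rfl
      · exact Or.inr rfl
    have := hull_mono hs m3
    rw [mem_hull2] at this
    exact d2.ne' (det_of_mem_segment this)

end Pool.Agent.Helper69.AGF

end
end

/- Helper69.AGF.Star -/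
section
/-!
AGF module Star: the star of a vertex covers all directions into the region.

PROOF HINTS.
start_in_triangle: for n : Nat the point x_n = v + (1/(n+1)) (p - v) is in the segment, so in hull t_n for some t_n in T. T is
  finite, so one t in T occurs for infinitely many n (e.g. Finite.exists_infinite_fiber, or Filter.Frequently over a finite
  union). x_n -> v and hull t is closed (isClosed_hull), so v in hull t. Take any such n: e = 1/(n+1).
star_dir: start_in_triangle gives t with v in hull t; vert_mem gives v in t.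
side_left: m = midpoint of x and y; m in region (it lies in the hull of the triangle t0 containing {x,y}), so segment m p is in the
  region. start_in_triangle gives t in T, m in hull t, e > 0, m + e (p - m) in hull t. By glue m in hull (t cap t0),
  t0 = {x,y,w0}, det x y w0 <> 0. Claim: x and y in t: t cap t0 is a subset of t0 whose hull contains m; if x is not in it, it is a
  subset of {y,w0}, so m in segment y w0, hence det y w0 m = 0, but det y w0 m = (det y w0 x + 0)/2 <> 0. Same for y.
  So t = {x,y,w} (third) with det x y w <> 0; the point m + e (p - m) of hull t has det x y = e det x y p > 0, and all points of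
  hull {x,y,w} have det x y = (nonnegative) * det x y w (mem_hull3_comb, det_comb3), so det x y w > 0.
-/

noncomputable section

namespace Pool.Agent.Helper69.AGF

variable {T : Finset (Finset Pt)}

/-- If the segment from the point v of the region to p stays in the region, its beginning is contained in one
triangle which contains v. -/
theorem start_in_triangle {v p : Pt} (hp : segment ℝ v p ⊆ region T) :
    ∃ t ∈ T, v ∈ hull t ∧ ∃ ε : ℝ, 0 < ε ∧ ε ≤ 1 ∧ v + ε • (p - v) ∈ hull t := by
  have hle : ∀ n : ℕ, 1 / ((n : ℝ) + 1) ≤ 1 := by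
    intro n
    have h0 : (0 : ℝ) ≤ n := Nat.cast_nonneg n
    rw [div_le_one (by linarith)]
    linarith
  have hpos : ∀ n : ℕ, (0 : ℝ) < 1 / ((n : ℝ) + 1) := by
    intro n
    positivity
  have hx : ∀ n : ℕ, ∃ t : T, v + (1 / ((n : ℝ) + 1)) • (p - v) ∈ hull t.1 := by
    intro n
    have h1 : v + (1 / ((n : ℝ) + 1)) • (p - v) ∈ segment ℝ v p := by
      rw [segment_eq_image']
      exact ⟨1 / ((n : ℝ) + 1), ⟨(hpos n).le, hle n⟩, rfl⟩
    obtain ⟨t, ht, h2⟩ := mem_region.mp (hp h1)
    exact ⟨⟨t, ht⟩, h2⟩
  choose f hf using hx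
  obtain ⟨t, ht⟩ := Finite.exists_infinite_fiber f
  have hinf : (f ⁻¹' {t}).Infinite := Set.infinite_coe_iff.mp ht
  have hfreq : ∃ᶠ n in Filter.atTop, f n = t := Nat.frequently_atTop_iff_infinite.mpr hinf
  have hlim : Filter.Tendsto (fun n : ℕ => v + (1 / ((n : ℝ) + 1)) • (p - v)) Filter.atTop
      (nhds v) := by
    have h1 := tendsto_one_div_add_atTop_nhds_zero_nat (𝕜 := ℝ)
    have h2 := (h1.smul_const (p - v)).const_add v
    simpa using h2
  refine ⟨t.1, t.2, ?_, ?_⟩
  · refine (isClosed_hull t.1).mem_of_frequently_of_tendsto (hfreq.mono fun n hn => ?_) hlim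
    rw [← hn]
    exact hf n
  · obtain ⟨n, hn⟩ := hfreq.exists
    refine ⟨1 / ((n : ℝ) + 1), hpos n, hle n, ?_⟩
    rw [← hn]
    exact hf n

/-- The same for a vertex v. -/
theorem IsTri.star_dir (hT : IsTri T) {v p : Pt} (hv : v ∈ verts T)
    (hp : segment ℝ v p ⊆ region T) :
    ∃ t ∈ T, v ∈ t ∧ ∃ ε : ℝ, 0 < ε ∧ ε ≤ 1 ∧ v + ε • (p - v) ∈ hull t := by
  obtain ⟨t, ht, hvt, h⟩ := start_in_triangle hp
  exact ⟨t, ht, hT.vert_mem hv ht hvt, h⟩

/-- A side {x,y} with a point of the (convex) region strictly on its left has a triangle on its left. -/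
theorem IsTri.side_left (hT : IsTri T) (hconv : Convex ℝ (region T)) {x y p : Pt}
    (hxy : ({x, y} : Finset Pt) ∈ sides T) (hp : p ∈ region T) (hd : 0 < det x y p) :
    ∃ w, ({x, y, w} : Finset Pt) ∈ T ∧ 0 < det x y w := by
  obtain ⟨hcard, t0, ht0, hsub⟩ := mem_sides.mp hxy
  have hne : x ≠ y := by
    intro h
    rw [h] at hcard
    simp at hcard
  obtain ⟨w0, rfl, hd0⟩ := hT.third ht0 hne hsub
  set m : Pt := (1 / 2 : ℝ) • x + (1 / 2 : ℝ) • y with hm
  have hmseg : m ∈ segment ℝ x y := ⟨1 / 2, 1 / 2, by norm_num, by norm_num, by norm_num, rfl⟩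
  have hmh : m ∈ hull ({x, y, w0} : Finset Pt) := by
    have h1 : m ∈ hull ({x, y} : Finset Pt) := by
      rw [hull_pair]
      exact hmseg
    exact hull_mono hsub h1
  have hmreg : m ∈ region T := mem_region.mpr ⟨_, ht0, hmh⟩
  obtain ⟨t, ht, hmt, ε, hε, _, hq⟩ := start_in_triangle (hconv.segment_subset hmreg hp)
  have hmi : m ∈ hull (t ∩ {x, y, w0}) := hT.glue t ht _ ht0 ⟨hmt, hmh⟩
  have hyx : x ∈ t := by
    by_contra hx
    have hs : t ∩ {x, y, w0} ⊆ ({y, w0} : Finset Pt) := by
      intro z hz
      simp only [Finset.mem_inter, Finset.mem_insert, Finset.mem_singleton] at hz ⊢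
      rcases hz with ⟨h1, h2 | h2 | h2⟩
      · subst h2; exact absurd h1 hx
      · exact Or.inl h2
      · exact Or.inr h2
    have h1 := hull_mono hs hmi
    rw [hull_pair] at h1
    have h2 := det_of_mem_segment h1
    rw [hm, det_comb _ _ _ _ _ _ (by norm_num), det_rot, det_aba] at h2
    apply hd0
    linarith
  have hyy : y ∈ t := by
    by_contra hx
    have hs : t ∩ {x, y, w0} ⊆ ({w0, x} : Finset Pt) := by
      intro z hz
      simp only [Finset.mem_inter, Finset.mem_insert, Finset.mem_singleton] at hz ⊢
      rcases hz with ⟨h1, h2 | h2 | h2⟩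
      · exact Or.inr h2
      · subst h2; exact absurd h1 hx
      · exact Or.inl h2
    have h1 := hull_mono hs hmi
    rw [hull_pair] at h1
    have h2 := det_of_mem_segment h1
    rw [hm, det_comb _ _ _ _ _ _ (by norm_num), det_abb, det_rot'] at h2
    apply hd0
    linarith
  obtain ⟨w, rfl, hd1⟩ := hT.third ht hne (by
    intro z hz
    simp only [Finset.mem_insert, Finset.mem_singleton] at hz
    rcases hz with h | h
    · rw [h]; exact hyx
    · rw [h]; exact hyy)
  refine ⟨w, ht, ?_⟩
  have hval : det x y (m + ε • (p - m)) = ε * det x y p := by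
    have h1 : m + ε • (p - m) = (1 - ε) • m + ε • p := by
      rw [smul_sub, sub_smul, one_smul]
      abel
    rw [h1, det_comb _ _ _ _ _ _ (by ring), det_of_mem_segment hmseg]
    ring
  rw [mem_hull3_comb] at hq
  obtain ⟨r, s, u, _, _, hu, h1, hqe⟩ := hq
  rw [hqe, det_comb3 _ _ _ _ _ _ _ _ h1, det_aba, det_abb] at hval
  have h2 : 0 < u * det x y w := by
    have h3 : 0 < ε * det x y p := mul_pos hε hd
    linarith
  exact (pos_iff_pos_of_mul_pos h2).mp (lt_of_le_of_ne hu (by
    rintro rfl
    simp at h2))

end Pool.Agent.Helper69.AGF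

end
end

/- Helper69.AGF.Part -/
section
/-!
AGF module Part: the part T of a triangulation T' (of a convex region) cut out by a set E of sides.

PROOF HINTS. two_tri: e = {x,y} in sides T, not in E; e in sides T'. x in verts T is an interior point of region T', so there are points p, q of
region T' with det x y p > 0 and det x y q < 0 (p = x + s n, q = x - s n, n = (x.2 - y.2, y.1 - x.1), s small; det x y (x + s n) =
s ((y-x).1^2 + (y-x).2^2)). side_left for (x,y,p) and for (y,x,q) (det y x q = - det x y q > 0) gives triangles {x,y,w}, {y,x,w'} of T' on the two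
sides, hence different. Both contain e; one triangle t of T contains e (e in sides T), so by other both are in T. Uniqueness: side_two.
one_tri: e in E: edge_one gives t in T and t' in T' \ T; a third triangle t'' of T containing e is t or t' (side_two), not t'.
count: 3 * T.card = sum over t in T of card (t.powersetCard 2) = sum over e in sides T of card {t in T | e subset t} (double counting, e.g.
Finset.sum_card_bipartiteAbove_eq_sum_card_bipartiteBelow), which is 2 for e not in E and 1 for e in E; E subset sides T by edge_one.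
-/

noncomputable section

open scoped Classical

namespace Pool.Agent.Helper69.AGF

/-- T is the part of T' cut out by the closed polygons with edge set E. -/
structure Part (T' T E : Finset (Finset Pt)) : Prop where
  tri : IsTri T'
  conv : Convex ℝ (region T')
  sub : T ⊆ T'
  edge_side : E ⊆ sides T'
  edge_one : ∀ e ∈ E, ∃ t ∈ T, ∃ t' ∈ T', t' ∉ T ∧ e ⊆ t ∧ e ⊆ t'
  other : ∀ e ∈ sides T', e ∉ E → ∀ t ∈ T', ∀ t' ∈ T', e ⊆ t → e ⊆ t' → (t ∈ T ↔ t' ∈ T)
  inner : ∀ v ∈ verts T, v ∈ interior (region T')

/-- The interior sides (diagonals) of T. -/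
def diags (T E : Finset (Finset Pt)) : Finset (Finset Pt) := (sides T).filter (fun e => e ∉ E)

variable {T' T E : Finset (Finset Pt)}

lemma mem_diags {e : Finset Pt} : e ∈ diags T E ↔ e ∈ sides T ∧ e ∉ E := by
  simp [diags]

theorem Part.isTri (h : Part T' T E) : IsTri T :=
  ⟨fun t ht => h.tri.tri t (h.sub ht), fun t ht t' ht' => h.tri.glue t (h.sub ht) t' (h.sub ht')⟩

private lemma Part_both_sides {S : Set Pt} {x y : Pt} (hxy : x ≠ y) (hx : x ∈ interior S) :
    (∃ p ∈ S, 0 < det x y p) ∧ ∃ q ∈ S, 0 < det y x q := by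
  have hcont : Filter.Tendsto (fun s : ℝ => x + s • ((x.2 - y.2, y.1 - x.1) : Pt)) (nhds 0)
      (nhds x) := by
    have h1 : Continuous (fun s : ℝ => x + s • ((x.2 - y.2, y.1 - x.1) : Pt)) := by fun_prop
    have h2 := h1.tendsto 0
    simpa using h2
  have hev := hcont (mem_interior_iff_mem_nhds.mp hx)
  rw [Filter.mem_map, Metric.mem_nhds_iff] at hev
  obtain ⟨d, hd, hball⟩ := hev
  have hpos : 0 < (y.1 - x.1) ^ 2 + (y.2 - x.2) ^ 2 := by
    by_contra hcon
    push Not at hcon
    have h1 := sq_nonneg (y.1 - x.1)
    have h2 := sq_nonneg (y.2 - x.2)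
    have h3 : (y.1 - x.1) ^ 2 = 0 := by linarith
    have h4 : (y.2 - x.2) ^ 2 = 0 := by linarith
    apply hxy
    apply Prod.ext
    · have := pow_eq_zero_iff (two_ne_zero) |>.1 h3
      linarith
    · have := pow_eq_zero_iff (two_ne_zero) |>.1 h4
      linarith
  refine ⟨⟨x + (d / 2) • ((x.2 - y.2, y.1 - x.1) : Pt), ?_, ?_⟩,
    ⟨x + (-(d / 2)) • ((x.2 - y.2, y.1 - x.1) : Pt), ?_, ?_⟩⟩
  · exact hball (show d / 2 ∈ Metric.ball (0 : ℝ) d by
      simp [abs_of_pos hd]; linarith)
  · have h3 : det x y (x + (d / 2) • ((x.2 - y.2, y.1 - x.1) : Pt)) =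
        d / 2 * ((y.1 - x.1) ^ 2 + (y.2 - x.2) ^ 2) := by
      simp only [det, Prod.fst_add, Prod.smul_fst, smul_eq_mul, Prod.snd_add, Prod.smul_snd]
      ring
    rw [h3]
    positivity
  · exact hball (show -(d / 2) ∈ Metric.ball (0 : ℝ) d by
      simp [abs_of_pos hd]; linarith)
  · have h3 : det y x (x + (-(d / 2)) • ((x.2 - y.2, y.1 - x.1) : Pt)) =
        d / 2 * ((y.1 - x.1) ^ 2 + (y.2 - x.2) ^ 2) := by
      simp only [det, Prod.fst_add, Prod.smul_fst, smul_eq_mul, Prod.snd_add, Prod.smul_snd]
      ring
    rw [h3]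
    positivity

/-- A diagonal is contained in exactly two triangles of T. -/
theorem Part.two_tri (h : Part T' T E) {e : Finset Pt} (he : e ∈ diags T E) :
    ∃ t1 ∈ T, ∃ t2 ∈ T, t1 ≠ t2 ∧ e ⊆ t1 ∧ e ⊆ t2 ∧ ∀ t ∈ T', e ⊆ t → t = t1 ∨ t = t2 := by
  obtain ⟨heS, heE⟩ := mem_diags.1 he
  obtain ⟨hcard, t, ht, het⟩ := mem_sides.1 heS
  obtain ⟨x, y, hxy, rfl⟩ := Finset.card_eq_two.1 hcard
  have hS' : ({x, y} : Finset Pt) ∈ sides T' := mem_sides.2 ⟨hcard, t, h.sub ht, het⟩
  have hxT : x ∈ verts T := mem_verts.2 ⟨t, ht, het (by simp)⟩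
  obtain ⟨⟨p, hp, hpd⟩, ⟨q, hq, hqd⟩⟩ := Part_both_sides hxy (h.inner x hxT)
  obtain ⟨w, hw, hwd⟩ := h.tri.side_left h.conv hS' hp hpd
  have hS'' : ({y, x} : Finset Pt) ∈ sides T' := by
    rw [Finset.pair_comm]
    exact hS'
  obtain ⟨w', hw', hwd'⟩ := h.tri.side_left h.conv hS'' hq hqd
  have e1 : ({x, y} : Finset Pt) ⊆ {x, y, w} := by
    intro z hz
    simp only [Finset.mem_insert, Finset.mem_singleton] at hz ⊢
    tauto
  have e2 : ({x, y} : Finset Pt) ⊆ {y, x, w'} := by
    intro z hz
    simp only [Finset.mem_insert, Finset.mem_singleton] at hz ⊢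
    tauto
  have hne : ({x, y, w} : Finset Pt) ≠ {y, x, w'} := by
    intro heq
    have h1 : w' ∈ ({x, y, w} : Finset Pt) := by
      rw [heq]
      simp
    simp only [Finset.mem_insert, Finset.mem_singleton] at h1
    rcases h1 with h1 | h1 | h1
    · rw [h1, det_abb] at hwd'
      exact lt_irrefl _ hwd'
    · rw [h1, det_aba] at hwd'
      exact lt_irrefl _ hwd'
    · rw [h1, det_swap] at hwd'
      linarith
  refine ⟨{x, y, w}, (h.other _ hS' heE t (h.sub ht) _ hw het e1).1 ht, {y, x, w'},
    (h.other _ hS' heE t (h.sub ht) _ hw' het e2).1 ht, hne, e1, e2, ?_⟩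
  intro s hs hes
  exact h.tri.side_two hcard hw hw' hs e1 e2 hes hne

/-- A boundary edge is contained in exactly one triangle of T. -/
theorem Part.one_tri (h : Part T' T E) {e : Finset Pt} (he : e ∈ E) :
    ∃ t1 ∈ T, e ⊆ t1 ∧ ∀ t ∈ T, e ⊆ t → t = t1 := by
  obtain ⟨t, ht, t', ht', hnt, e1, e2⟩ := h.edge_one e he
  have hcard := (mem_sides.1 (h.edge_side he)).1
  refine ⟨t, ht, e1, ?_⟩
  intro s hs hes
  have hne : t ≠ t' := by
    rintro rfl
    exact hnt ht
  rcases h.tri.side_two hcard (h.sub ht) ht' (h.sub hs) e1 e2 hes hne with h1 | h1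
  · exact h1
  · exact absurd (h1 ▸ hs) hnt

/-- Counting sides: three times the number of triangles. -/
theorem Part.count (h : Part T' T E) : 3 * T.card = 2 * (diags T E).card + E.card := by
  have hEs : E ⊆ sides T := by
    intro e he
    obtain ⟨t, ht, e1, -⟩ := h.one_tri he
    exact mem_sides.2 ⟨(mem_sides.1 (h.edge_side he)).1, t, ht, e1⟩
  have h1 := Finset.sum_card_bipartiteAbove_eq_sum_card_bipartiteBelow
    (s := T) (t := sides T) (fun (t : Finset Pt) (e : Finset Pt) => e ⊆ t)
  have h2 : ∑ t ∈ T, ((sides T).bipartiteAbove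
      (fun (t : Finset Pt) (e : Finset Pt) => e ⊆ t) t).card = 3 * T.card := by
    have h3 : ∀ t ∈ T, ((sides T).bipartiteAbove
        (fun (t : Finset Pt) (e : Finset Pt) => e ⊆ t) t).card = 3 := by
      intro t ht
      have h4 : (sides T).bipartiteAbove (fun (t : Finset Pt) (e : Finset Pt) => e ⊆ t) t =
          t.powersetCard 2 := by
        ext e
        rw [Finset.mem_bipartiteAbove, Finset.mem_powersetCard, mem_sides]
        constructor
        · rintro ⟨⟨h5, -⟩, h6⟩
          exact ⟨h6, h5⟩
        · rintro ⟨h5, h6⟩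
          exact ⟨⟨h6, t, ht, h5⟩, h5⟩
      rw [h4, Finset.card_powersetCard, h.isTri.card ht]
      rfl
    rw [Finset.sum_congr rfl h3, Finset.sum_const, smul_eq_mul, mul_comm]
  have h5 : ∑ e ∈ sides T, (T.bipartiteBelow
      (fun (t : Finset Pt) (e : Finset Pt) => e ⊆ t) e).card = 2 * (diags T E).card + E.card := by
    rw [← Finset.sum_filter_add_sum_filter_not (sides T) (fun e => e ∈ E)]
    have h6 : (sides T).filter (fun e => e ∈ E) = E := by
      ext e
      rw [Finset.mem_filter]
      exact ⟨fun h7 => h7.2, fun h7 => ⟨hEs h7, h7⟩⟩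
    have h7 : ∀ e ∈ E, (T.bipartiteBelow
        (fun (t : Finset Pt) (e : Finset Pt) => e ⊆ t) e).card = 1 := by
      intro e he
      obtain ⟨t, ht, e1, e2⟩ := h.one_tri he
      rw [Finset.card_eq_one]
      refine ⟨t, ?_⟩
      ext s
      rw [Finset.mem_bipartiteBelow, Finset.mem_singleton]
      constructor
      · rintro ⟨hs, hes⟩
        exact e2 s hs hes
      · rintro rfl
        exact ⟨ht, e1⟩
    have h8 : ∀ e ∈ (sides T).filter (fun e => ¬ e ∈ E), (T.bipartiteBelow
        (fun (t : Finset Pt) (e : Finset Pt) => e ⊆ t) e).card = 2 := by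
      intro e he
      obtain ⟨t1, ht1, t2, ht2, hne, e1, e2, e3⟩ := h.two_tri (e := e) he
      rw [Finset.card_eq_two]
      refine ⟨t1, t2, hne, ?_⟩
      ext s
      rw [Finset.mem_bipartiteBelow, Finset.mem_insert, Finset.mem_singleton]
      constructor
      · rintro ⟨hs, hes⟩
        exact e3 s (h.sub hs) hes
      · rintro (rfl | rfl)
        · exact ⟨ht1, e1⟩
        · exact ⟨ht2, e2⟩
    rw [h6, Finset.sum_congr rfl h7, Finset.sum_congr rfl h8, Finset.sum_const, Finset.sum_const,
      smul_eq_mul, smul_eq_mul, mul_one, mul_comm, add_comm]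
    rfl
  rw [← h2, ← h5, h1]

end Pool.Agent.Helper69.AGF

end
end

/- Helper69.AGF.Between -/
section
/-!
AGF module Between: two neighbours u, u' of v with angle less than pi and no neighbour strictly between span a triangle.

PROOF HINTS (between).
m = midpoint of u and u' is in the region (convexity; u, u' are vertices, hence in the region), v in verts T, so star_dir gives
t in T, v in t, e > 0, v + e (m - v) in hull t; at_vertex: t = {v,p,q}, 0 < det v p q. From mem_hull3 for v + e (m-v):
det v p m >= 0 and det v m q >= 0 (det q v m = det v m q by det_rot). Note det v u m = (det v u u')/2 > 0 and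
det v m u' > 0. {v,p}, {v,q}, {v,u}, {v,u'} are sides.
Case det v p m = 0: then p is on the ray v m (det v m q >= 0 and det v p q > 0 exclude the opposite ray: m - v = s (p - v) with
s > 0, or m = v which is impossible), so det v u p > 0 and det v p u' > 0: contradiction to hno. Case det v m q = 0 similarly
with q. Otherwise det v p m > 0 and det v m q > 0. Claim: p = u. [not_in_cone for u: not (det v p u > 0 and det v u q > 0);
hno for p: not (det v u p > 0 and det v p u' > 0).] det v u p < 0 means det v p u > 0; then det v u q <= 0, but det v u m > 0 and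
det v m q > 0 and det v p u > 0, det v p m > 0: write m in the basis (u,q)... the clean way: the identity (Plucker)
 det v a b * det v c d - det v a c * det v b d + det v a d * det v b c = 0 for all a b c d (put v at the origin, ring), applied to
 (a,b,c,d) = (p,u,m,q): det v p u * det v m q - det v p m * det v u q + det v p q * det v u m = 0: all three terms would be
 nonnegative with a positive first: contradiction. det v u p > 0: then det v p u' <= 0 i.e. det v u' p >= 0, and Plucker with
 (u, p, m, u'): det v u p * det v m u' - det v u m * det v p u' + det v u u' * det v p m = 0: all nonnegative, first positive: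
 contradiction. So det v u p = 0, and p - v = c (u - v) with c > 0 (c < 0 contradicts det v p m > 0 and det v u m > 0;
 c = 0 means p = v). same_dir: u = p. Symmetric: q = u'.
-/

noncomputable section

namespace Pool.Agent.Helper69.AGF

variable {T : Finset (Finset Pt)}

lemma plucker (v a b c d : Pt) :
    det v a b * det v c d - det v a c * det v b d + det v a d * det v b c = 0 := by
  unfold det; ring

private lemma dir_of_det {v a b x : Pt} (h0 : det v a b = 0) (hx : det v a x ≠ 0) :
    b - v = (det v b x / det v a x) • (a - v) := by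
  have e1 : (b.1 - v.1) * det v a x = det v b x * (a.1 - v.1) + det v a b * (x.1 - v.1) := by
    unfold det; ring
  have e2 : (b.2 - v.2) * det v a x = det v b x * (a.2 - v.2) + det v a b * (x.2 - v.2) := by
    unfold det; ring
  rw [h0, zero_mul, add_zero] at e1 e2
  apply Prod.ext
  · simp only [Prod.fst_sub, Prod.smul_fst, smul_eq_mul]
    field_simp
    linarith
  · simp only [Prod.snd_sub, Prod.smul_snd, smul_eq_mul]
    field_simp
    linarith

private lemma det_ray (a b v m : Pt) (c : ℝ) (h : b - v = c • (m - v)) :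
    det v a b = c * det v a m ∧ det v b a = c * det v m a := by
  have h1 : b.1 - v.1 = c * (m.1 - v.1) := by
    have := congrArg Prod.fst h
    simpa using this
  have h2 : b.2 - v.2 = c * (m.2 - v.2) := by
    have := congrArg Prod.snd h
    simpa using this
  unfold det
  rw [h1, h2]
  constructor <;> ring

private lemma side_of_tri {v p q : Pt} (ht : ({v, p, q} : Finset Pt) ∈ T) (hd : det v p q ≠ 0) :
    ({v, p} : Finset Pt) ∈ sides T ∧ ({v, q} : Finset Pt) ∈ sides T := by
  have hvp : v ≠ p := by
    rintro rfl
    exact hd (by simp)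
  have hvq : v ≠ q := by
    rintro rfl
    exact hd (by simp)
  constructor
  · rw [mem_sides]
    refine ⟨Finset.card_pair hvp, _, ht, ?_⟩
    intro x hx
    simp only [Finset.mem_insert, Finset.mem_singleton] at hx ⊢
    tauto
  · rw [mem_sides]
    refine ⟨Finset.card_pair hvq, _, ht, ?_⟩
    intro x hx
    simp only [Finset.mem_insert, Finset.mem_singleton] at hx ⊢
    tauto

theorem IsTri.between (hT : IsTri T) (hconv : Convex ℝ (region T)) {v u u' : Pt}
    (hu : ({v, u} : Finset Pt) ∈ sides T) (hu' : ({v, u'} : Finset Pt) ∈ sides T)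
    (hd : 0 < det v u u')
    (hno : ∀ w, ({v, w} : Finset Pt) ∈ sides T → ¬ (0 < det v u w ∧ 0 < det v w u')) :
    ({v, u, u'} : Finset Pt) ∈ T := by
  obtain ⟨-, t1, ht1, hs1⟩ := mem_sides.1 hu
  obtain ⟨-, t2, ht2, hs2⟩ := mem_sides.1 hu'
  have hv1 : v ∈ t1 := hs1 (by simp)
  have hu1 : u ∈ t1 := hs1 (by simp)
  have hu2 : u' ∈ t2 := hs2 (by simp)
  have hvv : v ∈ verts T := mem_verts.2 ⟨t1, ht1, hv1⟩
  have rv : v ∈ region T := mem_region.2 ⟨t1, ht1, subset_hull hv1⟩
  have ru : u ∈ region T := mem_region.2 ⟨t1, ht1, subset_hull hu1⟩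
  have ru' : u' ∈ region T := mem_region.2 ⟨t2, ht2, subset_hull hu2⟩
  obtain ⟨m, hm⟩ : ∃ m : Pt, m = (1 / 2 : ℝ) • u + (1 / 2 : ℝ) • u' := ⟨_, rfl⟩
  have rm : m ∈ region T := by
    rw [hm]
    exact hconv ru ru' (by norm_num) (by norm_num) (by norm_num)
  have d1 : 0 < det v u m := by
    rw [hm, det_comb _ _ _ _ _ _ (by norm_num)]
    simp only [det_abb, mul_zero, zero_add]
    linarith
  have d2 : 0 < det v m u' := by
    have : det v u' m = (1 / 2) * det v u' u + (1 / 2) * det v u' u' := by
      rw [hm, det_comb _ _ _ _ _ _ (by norm_num)]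
    rw [det_abb, mul_zero, add_zero] at this
    have e1 : det v m u' = - det v u' m := det_swap' v u' m
    have e2 : det v u' u = - det v u u' := det_swap' v u u'
    rw [e1, this, e2]
    linarith
  obtain ⟨t, ht, hvt, ε, hε, -, hmem⟩ := hT.star_dir hvv (hconv.segment_subset rv rm)
  obtain ⟨p, q, rfl, hpq⟩ := hT.at_vertex ht hvt
  obtain ⟨hsp, hsq⟩ := side_of_tri ht hpq.ne'
  rw [mem_hull3 hpq] at hmem
  obtain ⟨m1, -, m3⟩ := hmem
  have f1 : det v p (v + ε • (m - v)) = ε * det v p m := by
    simp only [det, Prod.fst_add, Prod.smul_fst, smul_eq_mul, Prod.snd_add, Prod.smul_snd,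
      Prod.fst_sub, Prod.snd_sub]
    ring
  have f3 : det q v (v + ε • (m - v)) = ε * det v m q := by
    simp only [det, Prod.fst_add, Prod.smul_fst, smul_eq_mul, Prod.snd_add, Prod.smul_snd,
      Prod.fst_sub, Prod.snd_sub]
    ring
  rw [f1] at m1
  rw [f3] at m3
  have g1 : 0 ≤ det v p m := nonneg_of_mul_nonneg_right m1 hε
  have g3 : 0 ≤ det v m q := nonneg_of_mul_nonneg_right m3 hε
  have P1 := plucker v p u m q
  -- the two boundary cases
  have g1' : 0 < det v p m := by
    rcases g1.lt_or_eq with h | h
    · exact h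
    · exfalso
      have h' : det v p m = 0 := h.symm
      have hq : 0 < det v m q := by
        rcases g3.lt_or_eq with h3 | h3
        · exact h3
        · exfalso
          rw [← h3, h'] at P1
          have := mul_pos hpq d1
          linarith
      have hmp : det v m p = 0 := by rw [det_swap' v p m, h', neg_zero]
      have hdir := dir_of_det (x := q) hmp hq.ne'
      have hc : 0 < det v p q / det v m q := div_pos hpq hq
      obtain ⟨r1, -⟩ := det_ray u p v m _ hdir
      obtain ⟨-, r2⟩ := det_ray u' p v m _ hdir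
      exact hno p hsp ⟨by rw [r1]; exact mul_pos hc d1, by rw [r2]; exact mul_pos hc d2⟩
  have g3' : 0 < det v m q := by
    rcases g3.lt_or_eq with h | h
    · exact h
    · exfalso
      have h' : det v m q = 0 := h.symm
      have hmp : det v m p ≠ 0 := by rw [det_swap' v p m]; linarith
      have hdir := dir_of_det (x := p) h' hmp
      have hc : 0 < det v q p / det v m p := by
        rw [det_swap' v p q, det_swap' v p m, neg_div_neg_eq]
        exact div_pos hpq g1'
      obtain ⟨r1, -⟩ := det_ray u q v m _ hdir
      obtain ⟨-, r2⟩ := det_ray u' q v m _ hdir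
      exact hno q hsq ⟨by rw [r1]; exact mul_pos hc d1, by rw [r2]; exact mul_pos hc d2⟩
  have hup : u = p := by
    have n1 := hT.not_in_cone ht hpq hu
    have n2 := hno p hsp
    rcases lt_trichotomy (det v u p) 0 with h | h | h
    · exfalso
      have h1 : 0 < det v p u := by rw [det_swap' v u p]; linarith
      have h2 : det v u q ≤ 0 := by
        by_contra hc
        exact n1 ⟨h1, not_le.1 hc⟩
      have a1 := mul_pos h1 g3'
      have a2 := mul_nonpos_of_nonneg_of_nonpos g1'.le h2
      have a3 := mul_pos hpq d1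
      linarith
    · have hdir := dir_of_det (x := m) h d1.ne'
      exact hT.same_dir hu hsp (div_pos g1' d1) hdir
    · exfalso
      have h2 : det v p u' ≤ 0 := by
        by_contra hc
        exact n2 ⟨h, not_le.1 hc⟩
      have P2 := plucker v u p m u'
      have a1 := mul_pos h d2
      have a2 := mul_nonpos_of_nonneg_of_nonpos d1.le h2
      have a3 := mul_pos hd g1'
      linarith
  have huq : u' = q := by
    have n1 := hT.not_in_cone ht hpq hu'
    have n2 := hno q hsq
    rcases lt_trichotomy (det v u' q) 0 with h | h | h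
    · exfalso
      have h1 : 0 < det v q u' := by rw [det_swap' v u' q]; linarith
      have h2 : det v u q ≤ 0 := by
        by_contra hc
        exact n2 ⟨not_le.1 hc, h1⟩
      have P2 := plucker v u m q u'
      have a1 := mul_pos d1 h1
      have a2 := mul_nonpos_of_nonpos_of_nonneg h2 d2.le
      have a3 := mul_pos hd g3'
      linarith
    · have hne : det v u' m ≠ 0 := by rw [det_swap' v m u']; linarith
      have hdir := dir_of_det (x := m) h hne
      have hc : 0 < det v q m / det v u' m := by
        rw [det_swap' v m q, det_swap' v m u', neg_div_neg_eq]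
        exact div_pos g3' d2
      exact hT.same_dir hu' hsq hc hdir
    · exfalso
      have h2 : det v p u' ≤ 0 := by
        by_contra hc
        exact n1 ⟨not_le.1 hc, h⟩
      have P2 := plucker v p m u' q
      have a1 := mul_pos g1' h
      have a2 := mul_nonpos_of_nonpos_of_nonneg h2 g3'.le
      have a3 := mul_pos hpq d2
      linarith
  rw [hup, huq]
  exact ht

end Pool.Agent.Helper69.AGF

end
end

/- Helper69.AGF.BetweenInd -/
section
/-!
AGF module BetweenInd: induction principle for pairs of neighbours.

PROOF HINTS. Strong induction on the number of w in (verts T) with {v,w} in sides T, 0 < det v u w, 0 < det v w u'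
(a Finset.filter of verts T; if {v,w} in sides T then w in verts T). If there is none, IsTri.between gives {v,u,u'} in T and hbase
applies. Otherwise choose such a w; the sets for (u,w) and for (w,u') are proper subsets (w itself is missing because det v w w = 0;
inclusion: if 0 < det v u z and 0 < det v z w and 0 < det v u w, 0 < det v w u', 0 < det v u u' then 0 < det v z u': Plucker with
(u,z,w,u'): det v u z * det v w u' - det v u w * det v z u' + det v u u' * det v z w = 0, so det v u w * det v z u' > 0.
Similarly for (w,u')). Then htrans.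
-/

noncomputable section

open scoped Classical

namespace Pool.Agent.Helper69.AGF

variable {T : Finset (Finset Pt)}

/-- Induction principle: a relation between neighbours of v which holds for the two outer vertices of every
triangle at v and is transitive along intermediate neighbours holds for all pairs with angle less than pi. -/
theorem IsTri.between_induction (hT : IsTri T) (hconv : Convex ℝ (region T)) {v : Pt}
    {R : Pt → Pt → Prop} (hbase : ∀ u u', ({v, u, u'} : Finset Pt) ∈ T → 0 < det v u u' → R u u')
    (htrans : ∀ u w u', ({v, u} : Finset Pt) ∈ sides T → ({v, w} : Finset Pt) ∈ sides T →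
      ({v, u'} : Finset Pt) ∈ sides T → 0 < det v u w → 0 < det v w u' → 0 < det v u u' →
      R u w → R w u' → R u u')
    {u u' : Pt} (hu : ({v, u} : Finset Pt) ∈ sides T) (hu' : ({v, u'} : Finset Pt) ∈ sides T)
    (hd : 0 < det v u u') : R u u' := by
  have hvert : ∀ w, ({v, w} : Finset Pt) ∈ sides T → w ∈ verts T := by
    intro w hw
    obtain ⟨-, t, ht, hs⟩ := mem_sides.1 hw
    exact mem_verts.2 ⟨t, ht, hs (by simp)⟩
  obtain ⟨n, hn⟩ : ∃ n : ℕ, ((verts T).filter (fun w => ({v, w} : Finset Pt) ∈ sides T ∧
      0 < det v u w ∧ 0 < det v w u')).card = n := ⟨_, rfl⟩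
  induction n using Nat.strong_induction_on generalizing u u' with
  | _ n ih =>
    by_cases hex : ∃ w, ({v, w} : Finset Pt) ∈ sides T ∧ 0 < det v u w ∧ 0 < det v w u'
    · obtain ⟨w, hw, h1, h2⟩ := hex
      have hA : ((verts T).filter (fun z => ({v, z} : Finset Pt) ∈ sides T ∧
          0 < det v u z ∧ 0 < det v z w)).card < n := by
        rw [← hn]
        apply Finset.card_lt_card
        rw [Finset.ssubset_iff_of_subset]
        · refine ⟨w, Finset.mem_filter.2 ⟨hvert w hw, hw, h1, h2⟩, ?_⟩
          intro hcon
          have := (Finset.mem_filter.1 hcon).2.2.2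
          simp at this
        · intro z hz
          obtain ⟨z1, z2, z3, z4⟩ := Finset.mem_filter.1 hz
          refine Finset.mem_filter.2 ⟨z1, z2, z3, ?_⟩
          have P := plucker v u z w u'
          have a1 := mul_pos z3 h2
          have a2 := mul_pos hd z4
          have a3 : 0 < det v u w * det v z u' := by linarith
          exact (mul_pos_iff_of_pos_left h1).1 a3
      have hB : ((verts T).filter (fun z => ({v, z} : Finset Pt) ∈ sides T ∧
          0 < det v w z ∧ 0 < det v z u')).card < n := by
        rw [← hn]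
        apply Finset.card_lt_card
        rw [Finset.ssubset_iff_of_subset]
        · refine ⟨w, Finset.mem_filter.2 ⟨hvert w hw, hw, h1, h2⟩, ?_⟩
          intro hcon
          have := (Finset.mem_filter.1 hcon).2.2.1
          simp at this
        · intro z hz
          obtain ⟨z1, z2, z3, z4⟩ := Finset.mem_filter.1 hz
          refine Finset.mem_filter.2 ⟨z1, z2, ?_, z4⟩
          have P := plucker v u w z u'
          have a1 := mul_pos h1 z4
          have a2 := mul_pos hd z3
          have a3 : 0 < det v u z * det v w u' := by linarith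
          exact (mul_pos_iff_of_pos_right h2).1 a3
      exact htrans u w u' hu hw hu' h1 h2 hd (ih _ hA hu hw h1 rfl) (ih _ hB hw hu' h2 rfl)
    · push Not at hex
      exact hbase u u' (hT.between hconv hu hu' hd
        (fun w hw h => absurd h.2 (not_lt.2 (hex w hw h.1)))) hd

end Pool.Agent.Helper69.AGF

end
end

/- AG.GC.Faces -/
section
/-!
# Faces of the triangles of a triangulation
-/

set_option autoImplicit false

noncomputable section

namespace Pool.Agent.Helper69.AGF

/-- A point of a face which misses the vertex `a` has first coordinate zero. -/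
lemma det_eq_zero_of_notMem {a b c p : Pt} {s : Finset Pt} (hs : s ⊆ {a, b, c}) (ha : a ∉ s)
    (hp : p ∈ hull s) : det b c p = 0 := by
  have hsub : s ⊆ {b, c} := by
    intro q hq
    have h1 := hs hq
    simp only [Finset.mem_insert, Finset.mem_singleton] at h1 ⊢
    rcases h1 with h1 | h1
    · exact absurd (h1 ▸ hq) ha
    · exact h1
  have h2 := hull_mono hsub hp
  rw [mem_hull2] at h2
  exact det_of_mem_segment h2

lemma subset_rot {a b c : Pt} {s : Finset Pt} (hs : s ⊆ {a, b, c}) : s ⊆ {b, c, a} := by
  intro q hq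
  have h1 := hs hq
  simp only [Finset.mem_insert, Finset.mem_singleton] at h1 ⊢
  tauto

/-- A convex combination whose weights vanish off `s` is in the hull of `s`. -/
lemma mem_hull_of_weights {a b c : Pt} {s : Finset Pt} {x y z : ℝ} (hx : 0 ≤ x) (hy : 0 ≤ y)
    (hz : 0 ≤ z) (h1 : x + y + z = 1) (ha : a ∉ s → x = 0) (hb : b ∉ s → y = 0)
    (hc : c ∉ s → z = 0) : x • a + y • b + z • c ∈ hull s := by
  by_cases hA : a ∈ s
  · by_cases hB : b ∈ s
    · by_cases hC : c ∈ s
      · have hsub : ({a, b, c} : Finset Pt) ⊆ s := by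
          intro q hq
          simp only [Finset.mem_insert, Finset.mem_singleton] at hq
          rcases hq with rfl | rfl | rfl <;> assumption
        exact hull_mono hsub (mem_hull3_comb.2 ⟨x, y, z, hx, hy, hz, h1, rfl⟩)
      · rw [hc hC, zero_smul, add_zero]
        exact (convex_hull s).segment_subset (subset_hull hA) (subset_hull hB)
          ⟨x, y, hx, hy, by rw [hc hC] at h1; linarith, rfl⟩
    · by_cases hC : c ∈ s
      · rw [hb hB, zero_smul, add_zero]
        exact (convex_hull s).segment_subset (subset_hull hA) (subset_hull hC)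
          ⟨x, z, hx, hz, by rw [hb hB] at h1; linarith, rfl⟩
      · have e : x = 1 := by
          rw [hb hB, hc hC] at h1
          linarith
        rw [hb hB, hc hC, e, zero_smul, zero_smul, add_zero, add_zero, one_smul]
        exact subset_hull hA
  · by_cases hB : b ∈ s
    · by_cases hC : c ∈ s
      · rw [ha hA, zero_smul, zero_add]
        exact (convex_hull s).segment_subset (subset_hull hB) (subset_hull hC)
          ⟨y, z, hy, hz, by rw [ha hA] at h1; linarith, rfl⟩
      · have e : y = 1 := by
          rw [ha hA, hc hC] at h1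
          linarith
        rw [ha hA, hc hC, e, zero_smul, zero_smul, zero_add, add_zero, one_smul]
        exact subset_hull hB
    · by_cases hC : c ∈ s
      · have e : z = 1 := by
          rw [ha hA, hb hB] at h1
          linarith
        rw [ha hA, hb hB, e, zero_smul, zero_smul, zero_add, zero_add, one_smul]
        exact subset_hull hC
      · exfalso
        rw [ha hA, hb hB, hc hC] at h1
        norm_num at h1

/-- Two faces of a nondegenerate triangle meet in the hull of their common vertices. -/
lemma hull_inter_subset {a b c : Pt} (h : 0 < det a b c) {s s' : Finset Pt}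
    (hs : s ⊆ {a, b, c}) (hs' : s' ⊆ {a, b, c}) : hull s ∩ hull s' ⊆ hull (s ∩ s') := by
  rintro p ⟨hp, hp'⟩
  have hp3 := (mem_hull3 h).1 (hull_mono hs hp)
  have hza : a ∉ s ∩ s' → det b c p = 0 := by
    intro ha
    rw [Finset.mem_inter, not_and_or] at ha
    rcases ha with ha | ha
    · exact det_eq_zero_of_notMem hs ha hp
    · exact det_eq_zero_of_notMem hs' ha hp'
  have hzb : b ∉ s ∩ s' → det c a p = 0 := by
    intro ha
    rw [Finset.mem_inter, not_and_or] at ha
    rcases ha with ha | ha
    · exact det_eq_zero_of_notMem (subset_rot hs) ha hp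
    · exact det_eq_zero_of_notMem (subset_rot hs') ha hp'
  have hzc : c ∉ s ∩ s' → det a b p = 0 := by
    intro ha
    rw [Finset.mem_inter, not_and_or] at ha
    rcases ha with ha | ha
    · exact det_eq_zero_of_notMem (subset_rot (subset_rot hs)) ha hp
    · exact det_eq_zero_of_notMem (subset_rot (subset_rot hs')) ha hp'
  rw [bary a b c p h.ne']
  refine mem_hull_of_weights (div_nonneg hp3.2.1 h.le) (div_nonneg hp3.2.2 h.le)
    (div_nonneg hp3.1 h.le) ?_ (fun ha => ?_) (fun ha => ?_) (fun ha => ?_)
  · have := det_split a b c p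
    field_simp
    linarith
  · rw [hza ha, zero_div]
  · rw [hzb ha, zero_div]
  · rw [hzc ha, zero_div]

/-- The interior of a triangle meets no proper face. -/
lemma interior_notMem_face {a b c : Pt} (h : 0 < det a b c) {s : Finset Pt}
    (hs : s ⊆ {a, b, c}) (hne : s ≠ {a, b, c}) {p : Pt} (hp : p ∈ interior (hull {a, b, c})) :
    p ∉ hull s := by
  intro hps
  rw [interior_hull3 h] at hp
  obtain ⟨h1, h2, h3⟩ := hp
  apply hne
  apply Finset.Subset.antisymm hs
  intro q hq
  simp only [Finset.mem_insert, Finset.mem_singleton] at hq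
  rcases hq with rfl | rfl | rfl
  · by_contra hcon
    rw [det_eq_zero_of_notMem hs hcon hps] at h2
    exact lt_irrefl _ h2
  · by_contra hcon
    rw [det_eq_zero_of_notMem (subset_rot hs) hcon hps] at h3
    exact lt_irrefl _ h3
  · by_contra hcon
    rw [det_eq_zero_of_notMem (subset_rot (subset_rot hs)) hcon hps] at h1
    exact lt_irrefl _ h1

variable {T : Finset (Finset Pt)}

theorem IsTri.card_three (hT : IsTri T) {t : Finset Pt} (ht : t ∈ T) : t.card = 3 := by
  obtain ⟨a, b, c, rfl, h⟩ := hT.tri t ht
  have hab : a ≠ b := by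
    rintro rfl
    rw [det_aac] at h
    exact lt_irrefl _ h
  have hac : a ≠ c := by
    rintro rfl
    rw [det_aba] at h
    exact lt_irrefl _ h
  have hbc : b ≠ c := by
    rintro rfl
    rw [det_abb] at h
    exact lt_irrefl _ h
  rw [Finset.card_insert_of_notMem (by simp [hab, hac]), Finset.card_pair hbc]

theorem IsTri.inter_ne (hT : IsTri T) {t t' : Finset Pt} (ht : t ∈ T) (ht' : t' ∈ T)
    (hne : t ≠ t') : t ∩ t' ≠ t := by
  intro h
  have hsub : t ⊆ t' := Finset.inter_eq_left.1 h
  exact hne (Finset.eq_of_subset_of_card_le hsub (by rw [hT.card_three ht, hT.card_three ht']))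

/-- The interior of a triangle meets no other triangle. -/
theorem IsTri.interior_disjoint (hT : IsTri T) {t t' : Finset Pt} (ht : t ∈ T) (ht' : t' ∈ T)
    (hne : t ≠ t') {p : Pt} (hp : p ∈ interior (hull t)) : p ∉ hull t' := by
  intro hp'
  have h1 := hT.glue t ht t' ht' ⟨interior_subset hp, hp'⟩
  have hne' := hT.inter_ne ht ht' hne
  obtain ⟨a, b, c, rfl, h⟩ := hT.tri t ht
  exact interior_notMem_face h Finset.inter_subset_left hne' hp h1

/-- The interior of a triangle meets no side. -/
theorem IsTri.interior_side (hT : IsTri T) {t e : Finset Pt} (ht : t ∈ T) (he : e ∈ sides T)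
    {p : Pt} (hp : p ∈ interior (hull t)) : p ∉ hull e := by
  intro hpe
  obtain ⟨h2, t', ht', hsub⟩ := mem_sides.1 he
  by_cases hne : t = t'
  · subst hne
    have hcard := hT.card_three ht
    obtain ⟨a, b, c, rfl, h⟩ := hT.tri t ht
    refine interior_notMem_face h hsub ?_ hp hpe
    intro h3
    rw [h3] at h2
    omega
  · exact hT.interior_disjoint ht ht' hne hp (hull_mono hsub hpe)

/-- Two sides meet in the hull of their common vertices. -/
theorem IsTri.sides_meet (hT : IsTri T) {e e' : Finset Pt} (he : e ∈ sides T)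
    (he' : e' ∈ sides T) : hull e ∩ hull e' ⊆ hull (e ∩ e') := by
  rintro p ⟨hp, hp'⟩
  obtain ⟨-, t, ht, hsub⟩ := mem_sides.1 he
  obtain ⟨-, t', ht', hsub'⟩ := mem_sides.1 he'
  have h1 := hT.glue t ht t' ht' ⟨hull_mono hsub hp, hull_mono hsub' hp'⟩
  -- in the first triangle
  have h2 : p ∈ hull (e ∩ (t ∩ t')) := by
    obtain ⟨a, b, c, rfl, h⟩ := hT.tri t ht
    exact hull_inter_subset h hsub Finset.inter_subset_left ⟨hp, h1⟩
  have h3 : p ∈ hull ((e ∩ (t ∩ t')) ∩ e') := by
    obtain ⟨a, b, c, rfl, h⟩ := hT.tri t' ht'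
    exact hull_inter_subset h (Finset.inter_subset_right.trans Finset.inter_subset_right) hsub'
      ⟨h2, hp'⟩
  refine hull_mono ?_ h3
  intro q hq
  simp only [Finset.mem_inter] at hq ⊢
  exact ⟨hq.1.1, hq.2⟩

/-- The midpoint of a side is on no other side. -/
theorem IsTri.midpoint_side (hT : IsTri T) {e' : Finset Pt} {x y : Pt} (hxy : x ≠ y)
    (he : ({x, y} : Finset Pt) ∈ sides T) (he' : e' ∈ sides T)
    (hm : (1 / 2 : ℝ) • x + (1 / 2 : ℝ) • y ∈ hull e') : e' = {x, y} := by
  have hme : (1 / 2 : ℝ) • x + (1 / 2 : ℝ) • y ∈ hull {x, y} := by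
    rw [hull_pair]
    exact ⟨1 / 2, 1 / 2, by norm_num, by norm_num, by norm_num, rfl⟩
  have h1 := hT.sides_meet he he' ⟨hme, hm⟩
  obtain ⟨hc, -⟩ := mem_sides.1 he'
  -- both end points are in the intersection
  have hmx : ∀ u w : Pt, u ≠ w → (1 / 2 : ℝ) • u + (1 / 2 : ℝ) • w ≠ w := by
    intro u w huw h
    apply huw
    have h2 : (1 / 2 : ℝ) • u = (1 / 2 : ℝ) • w := by
      have h3 : (1 / 2 : ℝ) • w + (1 / 2 : ℝ) • w = w := by
        rw [← add_smul]; norm_num
      nth_rewrite 2 [← h3] at h
      exact add_right_cancel h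
    exact smul_right_injective Pt (by norm_num : (1 / 2 : ℝ) ≠ 0) h2
  have hx : x ∈ e' := by
    by_contra hx
    have hsub : ({x, y} : Finset Pt) ∩ e' ⊆ {y} := by
      intro q hq
      simp only [Finset.mem_inter, Finset.mem_insert, Finset.mem_singleton] at hq ⊢
      rcases hq.1 with h2 | h2
      · exact absurd (h2 ▸ hq.2) hx
      · exact h2
    have h3 := hull_mono hsub h1
    rw [hull_singleton, Set.mem_singleton_iff] at h3
    exact hmx x y hxy h3
  have hy : y ∈ e' := by
    by_contra hy
    have hsub : ({x, y} : Finset Pt) ∩ e' ⊆ {x} := by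
      intro q hq
      simp only [Finset.mem_inter, Finset.mem_insert, Finset.mem_singleton] at hq ⊢
      rcases hq.1 with h2 | h2
      · exact h2
      · exact absurd (h2 ▸ hq.2) hy
    have h3 := hull_mono hsub h1
    rw [hull_singleton, Set.mem_singleton_iff, add_comm] at h3
    exact hmx y x hxy.symm h3
  symm
  apply Finset.eq_of_subset_of_card_le
  · intro q hq
    simp only [Finset.mem_insert, Finset.mem_singleton] at hq
    rcases hq with rfl | rfl <;> assumption
  · rw [hc, Finset.card_pair hxy]

theorem IsTri.subset_closure (hT : IsTri T) {t : Finset Pt} (ht : t ∈ T) :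
    hull t ⊆ closure (interior (hull t)) := by
  obtain ⟨a, b, c, rfl, h⟩ := hT.tri t ht
  exact hull3_subset_closure h

/-- Near every point of a triangle there are interior points of it. -/
theorem IsTri.exists_interior (hT : IsTri T) {t : Finset Pt} (ht : t ∈ T) {p : Pt}
    (hp : p ∈ hull t) {A : Set Pt} (hA : A ∈ nhds p) : ∃ q ∈ interior (hull t), q ∈ A := by
  have h1 := hT.subset_closure ht hp
  rw [mem_closure_iff_nhds] at h1
  obtain ⟨q, hq1, hq2⟩ := h1 A hA
  exact ⟨q, hq2, hq1⟩

end Pool.Agent.Helper69.AGF

end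
end
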