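import Mathlib

/- Helper96.Cmd -/
section
/-!
# A small structured language for multi-stack machines

`Cmd` is a while-language over stacks indexed by `ℕ` with symbols in `ℕ` (each program uses
only finitely many stacks and symbols).  The semantics is a deterministic small-step function
on pairs (continuation, stacks).
-/

set_option autoImplicit false

namespace Pool.Agent.Helper96

/-- contents of the stacks -/
abbrev Stk := ℕ → List ℕ

/-- programs -/
inductive Cmd
  | push (k a : ℕ)
  | pop (k : ℕ)
  | seq (p q : Cmd)
  | ite (k a : ℕ) (p q : Cmd)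
  | wh (k a : ℕ) (p : Cmd)
  deriving DecidableEq, Encodable

/-- one step of a program: the first component is the continuation.
`ite k a p q` runs `p` if the head of stack `k` is `a` and `q` otherwise;
`wh k a p` runs `p` as long as the head of stack `k` is not `a`. -/
def step : List Cmd × Stk → List Cmd × Stk
  | ([], s) => ([], s)
  | (Cmd.push k a :: K, s) => (K, Function.update s k (a :: s k))
  | (Cmd.pop k :: K, s) => (K, Function.update s k (s k).tail)
  | (Cmd.seq p q :: K, s) => (p :: q :: K, s)
  | (Cmd.ite k a p q :: K, s) => if (s k).head? = some a then (p :: K, s) else (q :: K, s)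
  | (Cmd.wh k a p :: K, s) =>
      if (s k).head? = some a then (K, s) else (p :: Cmd.wh k a p :: K, s)

/-- `c` started in `s` terminates after exactly `t` steps in `s'`. -/
def Exec (c : Cmd) (s : Stk) (t : ℕ) (s' : Stk) : Prop :=
  ∀ K, step^[t] (c :: K, s) = (K, s')

/-- `c` started in `s` terminates after at most `B` steps in `s'`. -/
def Run (c : Cmd) (s : Stk) (B : ℕ) (s' : Stk) : Prop :=
  ∃ t, t ≤ B ∧ Exec c s t s'

theorem Exec.push (k a : ℕ) (s : Stk) :
    Exec (Cmd.push k a) s 1 (Function.update s k (a :: s k)) := fun _ => rfl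

theorem Exec.pop (k : ℕ) (s : Stk) :
    Exec (Cmd.pop k) s 1 (Function.update s k (s k).tail) := fun _ => rfl

theorem Exec.seq {p q : Cmd} {s s1 s2 : Stk} {t1 t2 : ℕ}
    (h1 : Exec p s t1 s1) (h2 : Exec q s1 t2 s2) :
    Exec (Cmd.seq p q) s (t1 + t2 + 1) s2 := by
  intro K
  have e : t1 + t2 + 1 = t2 + (t1 + 1) := by ring
  rw [e, Function.iterate_add_apply, Function.iterate_succ_apply]
  have : step (Cmd.seq p q :: K, s) = (p :: q :: K, s) := rfl
  rw [this, h1, h2]

theorem Exec.ite_pos {k a : ℕ} {p q : Cmd} {s s1 : Stk} {t : ℕ}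
    (hk : (s k).head? = some a) (h1 : Exec p s t s1) :
    Exec (Cmd.ite k a p q) s (t + 1) s1 := by
  intro K
  rw [Function.iterate_succ_apply]
  have : step (Cmd.ite k a p q :: K, s) = (p :: K, s) := by
    simp [step, hk]
  rw [this, h1]

theorem Exec.ite_neg {k a : ℕ} {p q : Cmd} {s s1 : Stk} {t : ℕ}
    (hk : (s k).head? ≠ some a) (h1 : Exec q s t s1) :
    Exec (Cmd.ite k a p q) s (t + 1) s1 := by
  intro K
  rw [Function.iterate_succ_apply]
  have : step (Cmd.ite k a p q :: K, s) = (q :: K, s) := by
    simp [step, hk]
  rw [this, h1]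

theorem Exec.wh_done {k a : ℕ} {p : Cmd} {s : Stk}
    (hk : (s k).head? = some a) : Exec (Cmd.wh k a p) s 1 s := by
  intro K
  simp [step, hk]

theorem Exec.wh_step {k a : ℕ} {p : Cmd} {s s1 s2 : Stk} {t1 t2 : ℕ}
    (hk : (s k).head? ≠ some a) (h1 : Exec p s t1 s1) (h2 : Exec (Cmd.wh k a p) s1 t2 s2) :
    Exec (Cmd.wh k a p) s (t1 + t2 + 1) s2 := by
  intro K
  have e : t1 + t2 + 1 = t2 + (t1 + 1) := by ring
  rw [e, Function.iterate_add_apply, Function.iterate_succ_apply]
  have : step (Cmd.wh k a p :: K, s) = (p :: Cmd.wh k a p :: K, s) := by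
    simp [step, hk]
  rw [this, h1, h2]

theorem Run.mono {c : Cmd} {s s' : Stk} {B B' : ℕ} (h : Run c s B s') (hB : B ≤ B') :
    Run c s B' s' := by
  obtain ⟨t, ht, h⟩ := h
  exact ⟨t, ht.trans hB, h⟩

theorem Run.push (k a : ℕ) (s : Stk) :
    Run (Cmd.push k a) s 1 (Function.update s k (a :: s k)) := ⟨1, le_rfl, Exec.push k a s⟩

theorem Run.pop (k : ℕ) (s : Stk) :
    Run (Cmd.pop k) s 1 (Function.update s k (s k).tail) := ⟨1, le_rfl, Exec.pop k s⟩

theorem Run.seq {p q : Cmd} {s s1 s2 : Stk} {B1 B2 : ℕ}
    (h1 : Run p s B1 s1) (h2 : Run q s1 B2 s2) :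
    Run (Cmd.seq p q) s (B1 + B2 + 1) s2 := by
  obtain ⟨t1, ht1, h1⟩ := h1
  obtain ⟨t2, ht2, h2⟩ := h2
  exact ⟨t1 + t2 + 1, by omega, h1.seq h2⟩

theorem Run.ite_pos {k a : ℕ} {p q : Cmd} {s s1 : Stk} {B : ℕ}
    (hk : (s k).head? = some a) (h1 : Run p s B s1) :
    Run (Cmd.ite k a p q) s (B + 1) s1 := by
  obtain ⟨t1, ht1, h1⟩ := h1
  exact ⟨t1 + 1, by omega, h1.ite_pos hk⟩

theorem Run.ite_neg {k a : ℕ} {p q : Cmd} {s s1 : Stk} {B : ℕ}
    (hk : (s k).head? ≠ some a) (h1 : Run q s B s1) :
    Run (Cmd.ite k a p q) s (B + 1) s1 := by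
  obtain ⟨t1, ht1, h1⟩ := h1
  exact ⟨t1 + 1, by omega, h1.ite_neg hk⟩

theorem Run.wh_done {k a : ℕ} {p : Cmd} {s : Stk}
    (hk : (s k).head? = some a) : Run (Cmd.wh k a p) s 1 s :=
  ⟨1, le_rfl, Exec.wh_done hk⟩

theorem Run.wh_step {k a : ℕ} {p : Cmd} {s s1 s2 : Stk} {B1 B2 : ℕ}
    (hk : (s k).head? ≠ some a) (h1 : Run p s B1 s1) (h2 : Run (Cmd.wh k a p) s1 B2 s2) :
    Run (Cmd.wh k a p) s (B1 + B2 + 1) s2 := by
  obtain ⟨t1, ht1, h1⟩ := h1
  obtain ⟨t2, ht2, h2⟩ := h2
  exact ⟨t1 + t2 + 1, by omega, h1.wh_step hk h2⟩

/-- uniqueness of final states: `Exec` is deterministic -/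
theorem step_nil_iter (t : ℕ) (s : Stk) : step^[t] ([], s) = ([], s) := by
  induction t with
  | zero => rfl
  | succ n ih => rw [Function.iterate_succ_apply]; exact ih

theorem step_iter_of_exec {c : Cmd} {s s' : Stk} {t : ℕ} (h : Exec c s t s') (n : ℕ)
    (hn : t ≤ n) : step^[n] ([c], s) = ([], s') := by
  obtain ⟨m, rfl⟩ := Nat.exists_eq_add_of_le hn
  rw [Nat.add_comm, Function.iterate_add_apply, h, step_nil_iter]

theorem Exec.unique {c : Cmd} {s s1 s2 : Stk} {t1 t2 : ℕ} (h1 : Exec c s t1 s1)
    (h2 : Exec c s t2 s2) : s1 = s2 := by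
  have e1 := step_iter_of_exec h1 (max t1 t2) (le_max_left _ _)
  have e2 := step_iter_of_exec h2 (max t1 t2) (le_max_right _ _)
  have := e1.symm.trans e2
  exact (Prod.mk.inj this).2

/-- total height of the `k`-th stack grows by at most one per step -/
theorem step_length (k : ℕ) (x : List Cmd × Stk) :
    ((step x).2 k).length ≤ (x.2 k).length + 1 := by
  obtain ⟨K, s⟩ := x
  cases K with
  | nil => simp [step]
  | cons c K =>
    cases c with
    | push j a =>
      simp only [step]
      by_cases h : k = j
      · subst h; simp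
      · rw [Function.update_of_ne h]; omega
    | pop j =>
      simp only [step]
      by_cases h : k = j
      · subst h; simp; omega
      · rw [Function.update_of_ne h]; omega
    | seq p q => simp [step]
    | ite j a p q => simp only [step]; split_ifs <;> simp
    | wh j a p => simp only [step]; split_ifs <;> simp

theorem step_iter_length (k t : ℕ) (x : List Cmd × Stk) :
    ((step^[t] x).2 k).length ≤ (x.2 k).length + t := by
  induction t generalizing x with
  | zero => simp
  | succ n ih =>
    rw [Function.iterate_succ_apply]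
    have := ih (step x)
    have := step_length k x
    omega

theorem Exec.length_le {c : Cmd} {s s' : Stk} {t : ℕ} (h : Exec c s t s') (k : ℕ) :
    (s' k).length ≤ (s k).length + t := by
  have := step_iter_length k t ([c], s)
  rw [h []] at this
  exact this

end Pool.Agent.Helper96
end

/- Helper96.Tree -/
section
/-!
# Binary trees as universal data, and the low level routines
-/

set_option autoImplicit false
set_option linter.all false
set_option linter.unusedSimpArgs false

namespace Pool.Agent.Helper96

/-- binary trees, the universal data type -/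
inductive T
  | L
  | N (l r : T)
  deriving DecidableEq, Encodable

namespace T

/-- size of a tree -/
def size : T → ℕ
  | L => 1
  | N l r => size l + size r + 1

/-- prefix code of a tree -/
def code : T → List ℕ
  | L => [0]
  | N l r => 1 :: (code l ++ code r)

theorem length_code (t : T) : (code t).length = size t := by
  induction t with
  | L => rfl
  | N l r ihl ihr => simp [code, size, ihl, ihr]

theorem size_pos (t : T) : 0 < size t := by
  cases t <;> simp [size]

theorem code_mem (t : T) : ∀ a ∈ code t, a = 0 ∨ a = 1 := by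
  induction t with
  | L => simp [code]
  | N l r ihl ihr =>
    intro a ha
    simp only [code, List.mem_cons, List.mem_append] at ha
    rcases ha with h | h | h
    · right; exact h
    · exact ihl a h
    · exact ihr a h

/-- the right spine of a tree as a list -/
def spine : T → List T
  | L => []
  | N a l => a :: spine l

/-- a list as a tree -/
def ofList : List T → T
  | [] => L
  | a :: l => N a (ofList l)

@[simp] theorem spine_ofList (l : List T) : spine (ofList l) = l := by
  induction l with
  | nil => rfl
  | cons a l ih => simp [ofList, spine, ih]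

@[simp] theorem ofList_spine (t : T) : ofList (spine t) = t := by
  induction t with
  | L => rfl
  | N a l _ ih => simp [ofList, spine, ih]

end T

open T Cmd Function

/-! ### moving a value between stacks -/

/-- the loop moving one value from stack `i` to stack `j` (reversed) -/
def mvLoop (i j c : ℕ) : Cmd :=
  wh c 2 (ite i 1
    (seq (pop i) (seq (push j 1) (push c 1)))
    (seq (pop i) (seq (push j 0) (pop c))))

theorem mvLoop_spec (i j c : ℕ) (hij : i ≠ j) (hic : i ≠ c) (hjc : j ≠ c) (t : T) :
    ∀ (s : Stk) (r cs : List ℕ), s i = code t ++ r → s c = 1 :: cs →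
    ∀ (B : ℕ) (s' : Stk),
      Run (mvLoop i j c) (update (update (update s i r) j ((code t).reverse ++ s j)) c cs) B s' →
      Run (mvLoop i j c) s (B + 7 * size t) s' := by
  induction t with
  | L =>
    intro s r cs hi hc B s' h
    have h1 : Run (ite i 1
        (seq (pop i) (seq (push j 1) (push c 1)))
        (seq (pop i) (seq (push j 0) (pop c)))) s 6
        (update (update (update s i r) j ((code L).reverse ++ s j)) c cs) := by
      have hh : (s i).head? ≠ some 1 := by rw [hi]; simp [code]
      have := Run.ite_neg (p := (seq (pop i) (seq (push j 1) (push c 1)))) hh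
        ((Run.pop i s).seq ((Run.push j 0 _).seq (Run.pop c _)))
      convert this using 1
      funext k
      by_cases g1 : k = c
      · subst g1
        simp [Function.update_apply, hc, hjc.symm, hic.symm]
      · by_cases g2 : k = j
        · subst g2
          simp [Function.update_apply, g1, code, hij.symm]
        · by_cases g3 : k = i
          · subst g3
            simp [Function.update_apply, g1, g2, hi, code]
          · simp [Function.update_apply, g1, g2, g3]
    have hh : (s c).head? ≠ some 2 := by rw [hc]; simp
    exact (Run.wh_step hh h1 h).mono (by simp [size]; omega)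
  | N l r' ihl ihr =>
    intro s r cs hi hc B s' h
    set s1 : Stk := update (update (update s i (code l ++ (code r' ++ r))) j (1 :: s j)) c
      (1 :: 1 :: cs) with hs1
    have h1 : Run (ite i 1
        (seq (pop i) (seq (push j 1) (push c 1)))
        (seq (pop i) (seq (push j 0) (pop c)))) s 6 s1 := by
      have hh : (s i).head? = some 1 := by rw [hi]; simp [code]
      have := Run.ite_pos (q := (seq (pop i) (seq (push j 0) (pop c)))) hh
        ((Run.pop i s).seq ((Run.push j 1 _).seq (Run.push c 1 _)))
      convert this using 1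
      funext k
      by_cases g1 : k = c
      · subst g1
        simp [hs1, Function.update_apply, hc, hjc.symm, hic.symm]
      · by_cases g2 : k = j
        · subst g2
          simp [hs1, Function.update_apply, g1, hij.symm]
        · by_cases g3 : k = i
          · subst g3
            simp [hs1, Function.update_apply, g1, g2, hi, code]
          · simp [hs1, Function.update_apply, g1, g2, g3]
    have hh : (s c).head? ≠ some 2 := by rw [hc]; simp
    have a1 : s1 i = code l ++ (code r' ++ r) := by
      simp [hs1, Function.update_apply, hic, hij]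
    have a2 : s1 c = 1 :: (1 :: cs) := by simp [hs1]
    have key := ihl s1 (code r' ++ r) (1 :: cs) a1 a2 (B + 7 * size r') s' ?_
    · exact (Run.wh_step hh h1 key).mono (by simp [size]; omega)
    · set s2 : Stk := update (update (update s1 i (code r' ++ r)) j ((code l).reverse ++ s1 j)) c
        (1 :: cs) with hs2
      have b1 : s2 i = code r' ++ r := by
        simp [hs2, Function.update_apply, hic, hij]
      have b2 : s2 c = 1 :: cs := by simp [hs2]
      apply ihr s2 r cs b1 b2 B s'
      convert h using 1
      funext k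
      by_cases g1 : k = c
      · subst g1
        simp
      · by_cases g2 : k = j
        · subst g2
          simp [hs1, hs2, Function.update_apply, g1, code]
        · by_cases g3 : k = i
          · subst g3
            simp [Function.update_apply, g1, g2]
          · simp [hs1, hs2, Function.update_apply, g1, g2, g3]

/-- move one value from stack `i` to stack `j`, reversed and on top of a marker `2`;
`c` is used as a counter -/
def mv (i j c : ℕ) : Cmd :=
  seq (push c 2) (seq (push c 1) (seq (push j 2) (seq (mvLoop i j c) (pop c))))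

theorem mv_spec (i j c : ℕ) (hij : i ≠ j) (hic : i ≠ c) (hjc : j ≠ c) (t : T) (s : Stk)
    (r : List ℕ) (hi : s i = code t ++ r) :
    Run (mv i j c) s (7 * size t + 9)
      (update (update s i r) j ((code t).reverse ++ 2 :: s j)) := by
  set s1 : Stk := update (update (update s c (2 :: s c)) c (1 :: 2 :: s c)) j (2 :: s j) with hs1
  set s2 : Stk := update (update (update s1 i r) j ((code t).reverse ++ s1 j)) c (2 :: s c)
    with hs2
  have e1 : Run (push c 2) s 1 (update s c (2 :: s c)) := Run.push c 2 s
  have e2 : Run (push c 1) (update s c (2 :: s c)) 1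
      (update (update s c (2 :: s c)) c (1 :: 2 :: s c)) := by
    have := Run.push c 1 (update s c (2 :: s c))
    simpa using this
  have e3 : Run (push j 2) (update (update s c (2 :: s c)) c (1 :: 2 :: s c)) 1 s1 := by
    have := Run.push j 2 (update (update s c (2 :: s c)) c (1 :: 2 :: s c))
    simpa [hs1, Function.update_apply, hjc] using this
  have e4 : Run (mvLoop i j c) s1 (1 + 7 * size t) s2 := by
    apply mvLoop_spec i j c hij hic hjc t s1 r (2 :: s c)
    · simp [hs1, Function.update_apply, hic, hij, hi]
    · simp [hs1, Function.update_apply, hjc.symm]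
    · exact Run.wh_done (by simp [hs2])
  have e5 : Run (pop c) s2 1 (update (update s i r) j ((code t).reverse ++ 2 :: s j)) := by
    have := Run.pop c s2
    convert this using 1
    funext k
    by_cases g1 : k = c
    · subst g1
      simp [hs2, Function.update_apply, hjc.symm, hic.symm]
    · by_cases g2 : k = j
      · subst g2
        simp [hs1, hs2, Function.update_apply, g1]
      · by_cases g3 : k = i
        · subst g3
          simp [hs2, Function.update_apply, g1, g2]
        · simp [hs1, hs2, Function.update_apply, g1, g2, g3]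
  exact (e1.seq (e2.seq (e3.seq (e4.seq e5)))).mono (by omega)

/-- the loop moving symbols `0,1` from stack `j` back to stack `i` until the marker -/
def mvbLoop (j i : ℕ) : Cmd :=
  wh j 2 (ite j 1 (seq (pop j) (push i 1)) (seq (pop j) (push i 0)))

theorem mvbLoop_spec (j i : ℕ) (hij : i ≠ j) (w : List ℕ) (hw : ∀ a ∈ w, a = 0 ∨ a = 1) :
    ∀ (s : Stk) (q : List ℕ), s j = w ++ 2 :: q →
      Run (mvbLoop j i) s (1 + 5 * w.length)
        (update (update s j (2 :: q)) i (w.reverse ++ s i)) := by
  induction w with
  | nil =>
    intro s q hj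
    have : update (update s j (2 :: q)) i (([] : List ℕ).reverse ++ s i) = s := by
      funext k
      by_cases g1 : k = i
      · subst g1; simp
      · by_cases g2 : k = j
        · subst g2; simp [Function.update_apply, g1, hj]
        · simp [Function.update_apply, g1, g2]
    rw [this]
    exact (Run.wh_done (by simp [hj])).mono (by simp)
  | cons a w ih =>
    intro s q hj
    have hw' : ∀ a ∈ w, a = 0 ∨ a = 1 := fun b hb => hw b (List.mem_cons_of_mem _ hb)
    have ha := hw a List.mem_cons_self
    set s1 : Stk := update (update s j (w ++ 2 :: q)) i (a :: s i) with hs1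
    have h1 : Run (ite j 1 (seq (pop j) (push i 1)) (seq (pop j) (push i 0))) s 4 s1 := by
      rcases ha with rfl | rfl
      · have hh : (s j).head? ≠ some 1 := by rw [hj]; simp
        have := Run.ite_neg (p := (seq (pop j) (push i 1))) hh
          ((Run.pop j s).seq (Run.push i 0 _))
        convert this using 1
        funext k
        by_cases g1 : k = i
        · subst g1; simp [hs1, Function.update_apply, hij]
        · by_cases g2 : k = j
          · subst g2; simp [hs1, Function.update_apply, g1, hj]
          · simp [hs1, Function.update_apply, g1, g2]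
      · have hh : (s j).head? = some 1 := by rw [hj]; simp
        have := Run.ite_pos (q := (seq (pop j) (push i 0))) hh
          ((Run.pop j s).seq (Run.push i 1 _))
        convert this using 1
        funext k
        by_cases g1 : k = i
        · subst g1; simp [hs1, Function.update_apply, hij]
        · by_cases g2 : k = j
          · subst g2; simp [hs1, Function.update_apply, g1, hj]
          · simp [hs1, Function.update_apply, g1, g2]
    have hh : (s j).head? ≠ some 2 := by
      rw [hj]
      rcases ha with rfl | rfl <;> simp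
    have a1 : s1 j = w ++ 2 :: q := by simp [hs1, Function.update_apply, hij.symm]
    have key := ih hw' s1 q a1
    have := Run.wh_step hh h1 key
    have e : update (update s1 j (2 :: q)) i (w.reverse ++ s1 i)
        = update (update s j (2 :: q)) i ((a :: w).reverse ++ s i) := by
      funext k
      by_cases g1 : k = i
      · subst g1; simp [hs1]
      · by_cases g2 : k = j
        · subst g2; simp [Function.update_apply, g1]
        · simp [hs1, Function.update_apply, g1, g2]
    rw [e] at this
    exact this.mono (by simp; omega)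

/-- move back from stack `j` to stack `i` until the marker, which is removed -/
def mvb (j i : ℕ) : Cmd := seq (mvbLoop j i) (pop j)

theorem mvb_spec (j i : ℕ) (hij : i ≠ j) (w : List ℕ) (hw : ∀ a ∈ w, a = 0 ∨ a = 1)
    (s : Stk) (q : List ℕ) (hj : s j = w ++ 2 :: q) :
    Run (mvb j i) s (5 * w.length + 3) (update (update s j q) i (w.reverse ++ s i)) := by
  have h1 := mvbLoop_spec j i hij w hw s q hj
  have h2 := Run.pop j (update (update s j (2 :: q)) i (w.reverse ++ s i))
  have := h1.seq h2
  have e : update (update (update s j (2 :: q)) i (w.reverse ++ s i)) j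
      ((update (update s j (2 :: q)) i (w.reverse ++ s i)) j).tail
      = update (update s j q) i (w.reverse ++ s i) := by
    funext k
    by_cases g1 : k = i
    · subst g1; simp [Function.update_apply, hij]
    · by_cases g2 : k = j
      · subst g2; simp [Function.update_apply, g1]
      · simp [Function.update_apply, g1, g2]
  rw [e] at this
  exact this.mono (by omega)

/-- transfer one value from stack `i` to stack `k` via `j`, with counter `c` -/
def xfer (i k j c : ℕ) : Cmd := seq (mv i j c) (mvb j k)

theorem xfer_spec (i k j c : ℕ) (hij : i ≠ j) (hic : i ≠ c) (hjc : j ≠ c) (hkj : k ≠ j)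
    (hik : i ≠ k) (t : T) (s : Stk) (r : List ℕ) (hi : s i = code t ++ r) :
    Run (xfer i k j c) s (12 * size t + 13)
      (update (update s i r) k (code t ++ s k)) := by
  have h1 := mv_spec i j c hij hic hjc t s r hi
  set s1 : Stk := update (update s i r) j ((code t).reverse ++ 2 :: s j) with hs1
  have h2 := mvb_spec j k hkj (code t).reverse
    (fun a ha => code_mem t a (List.mem_reverse.1 ha)) s1 (s j) (by simp [hs1])
  have := h1.seq h2
  have e : update (update s1 j (s j)) k ((code t).reverse.reverse ++ s1 k)
      = update (update s i r) k (code t ++ s k) := by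
    funext m
    by_cases g1 : m = k
    · subst g1; simp [hs1, Function.update_apply, hkj, hik.symm]
    · by_cases g2 : m = j
      · subst g2; simp [Function.update_apply, g1, hij.symm]
      · simp [hs1, Function.update_apply, g1, g2]
  rw [e] at this
  refine this.mono ?_
  rw [List.length_reverse, length_code]
  omega

/-- discard one value from stack `0` -/
def dropC : Cmd := seq (mv 0 1 2) (seq (wh 1 2 (pop 1)) (pop 1))

theorem clear_spec (w : List ℕ) (hw : ∀ a ∈ w, a = 0 ∨ a = 1) :
    ∀ (s : Stk) (q : List ℕ), s 1 = w ++ 2 :: q →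
      Run (wh 1 2 (pop 1)) s (1 + 2 * w.length) (update s 1 (2 :: q)) := by
  induction w with
  | nil =>
    intro s q hj
    have : update s 1 (2 :: q) = s := by
      funext k
      by_cases g2 : k = 1
      · subst g2; simp [hj]
      · simp [Function.update_apply, g2]
    rw [this]
    exact (Run.wh_done (by simp [hj])).mono (by simp)
  | cons a w ih =>
    intro s q hj
    have hw' : ∀ a ∈ w, a = 0 ∨ a = 1 := fun b hb => hw b (List.mem_cons_of_mem _ hb)
    have ha := hw a List.mem_cons_self
    have hh : (s 1).head? ≠ some 2 := by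
      rw [hj]
      rcases ha with rfl | rfl <;> simp
    have h1 := Run.pop 1 s
    have h2 := ih hw' (update s 1 (s 1).tail) q (by simp [hj])
    have := Run.wh_step hh h1 h2
    simp only [Function.update_idem] at this
    exact this.mono (by simp; omega)

theorem dropC_spec (t : T) (s : Stk) (r : List ℕ) (hi : s 0 = code t ++ r) :
    Run dropC s (9 * size t + 13) (update s 0 r) := by
  have h1 := mv_spec 0 1 2 (by simp) (by simp) (by simp) t s r hi
  set s1 : Stk := update (update s 0 r) 1 ((code t).reverse ++ 2 :: s 1) with hs1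
  have h2 := clear_spec (code t).reverse
    (fun a ha => code_mem t a (List.mem_reverse.1 ha)) s1 (s 1) (by simp [hs1])
  have h3 := Run.pop 1 (update s1 1 (2 :: s 1))
  have := h1.seq (h2.seq h3)
  have e : update (update s1 1 (2 :: s 1)) 1 ((update s1 1 (2 :: s 1)) 1).tail
      = update s 0 r := by
    funext m
    by_cases g2 : m = 1
    · subst g2; simp
    · simp [hs1, Function.update_apply, g2]
  rw [e] at this
  refine this.mono ?_
  rw [List.length_reverse, length_code]
  omega

/-- duplicate the loop moving back to two stacks -/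
def dupLoop : Cmd :=
  wh 1 2 (ite 1 1 (seq (pop 1) (seq (push 0 1) (push 3 1)))
    (seq (pop 1) (seq (push 0 0) (push 3 0))))

theorem dupLoop_spec (w : List ℕ) (hw : ∀ a ∈ w, a = 0 ∨ a = 1) :
    ∀ (s : Stk) (q : List ℕ), s 1 = w ++ 2 :: q →
      Run dupLoop s (1 + 7 * w.length)
        (update (update (update s 1 (2 :: q)) 0 (w.reverse ++ s 0)) 3 (w.reverse ++ s 3)) := by
  induction w with
  | nil =>
    intro s q hj
    have : update (update (update s 1 (2 :: q)) 0 (([] : List ℕ).reverse ++ s 0)) 3
        (([] : List ℕ).reverse ++ s 3) = s := by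
      funext k
      by_cases g1 : k = 3
      · subst g1; simp
      · by_cases g2 : k = 0
        · subst g2; simp
        · by_cases g3 : k = 1
          · subst g3; simp [hj]
          · simp [Function.update_apply, g1, g2, g3]
    rw [this]
    exact (Run.wh_done (by simp [hj])).mono (by simp)
  | cons a w ih =>
    intro s q hj
    have hw' : ∀ a ∈ w, a = 0 ∨ a = 1 := fun b hb => hw b (List.mem_cons_of_mem _ hb)
    have ha := hw a List.mem_cons_self
    set s1 : Stk := update (update (update s 1 (w ++ 2 :: q)) 0 (a :: s 0)) 3 (a :: s 3) with hs1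
    have h1 : Run (ite 1 1 (seq (pop 1) (seq (push 0 1) (push 3 1)))
        (seq (pop 1) (seq (push 0 0) (push 3 0)))) s 6 s1 := by
      rcases ha with rfl | rfl
      · have hh : (s 1).head? ≠ some 1 := by rw [hj]; simp
        have := Run.ite_neg (p := (seq (pop 1) (seq (push 0 1) (push 3 1)))) hh
          ((Run.pop 1 s).seq ((Run.push 0 0 _).seq (Run.push 3 0 _)))
        convert this using 1
        funext k
        by_cases g1 : k = 3
        · subst g1; simp [hs1]
        · by_cases g2 : k = 0
          · subst g2; simp [hs1]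
          · by_cases g3 : k = 1
            · subst g3; simp [hs1, hj]
            · simp [hs1, Function.update_apply, g1, g2, g3]
      · have hh : (s 1).head? = some 1 := by rw [hj]; simp
        have := Run.ite_pos (q := (seq (pop 1) (seq (push 0 0) (push 3 0)))) hh
          ((Run.pop 1 s).seq ((Run.push 0 1 _).seq (Run.push 3 1 _)))
        convert this using 1
        funext k
        by_cases g1 : k = 3
        · subst g1; simp [hs1]
        · by_cases g2 : k = 0
          · subst g2; simp [hs1]
          · by_cases g3 : k = 1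
            · subst g3; simp [hs1, hj]
            · simp [hs1, Function.update_apply, g1, g2, g3]
    have hh : (s 1).head? ≠ some 2 := by
      rw [hj]
      rcases ha with rfl | rfl <;> simp
    have a1 : s1 1 = w ++ 2 :: q := by simp [hs1, Function.update_apply]
    have key := ih hw' s1 q a1
    have := Run.wh_step hh h1 key
    have e : update (update (update s1 1 (2 :: q)) 0 (w.reverse ++ s1 0)) 3 (w.reverse ++ s1 3)
        = update (update (update s 1 (2 :: q)) 0 ((a :: w).reverse ++ s 0)) 3
          ((a :: w).reverse ++ s 3) := by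
      funext k
      by_cases g1 : k = 3
      · subst g1; simp [hs1]
      · by_cases g2 : k = 0
        · subst g2; simp [hs1]
        · by_cases g3 : k = 1
          · subst g3; simp
          · simp [hs1, Function.update_apply, g1, g2, g3]
    rw [e] at this
    exact this.mono (by simp; omega)

/-- duplicate the value on top of stack `0` -/
def dupC : Cmd := seq (mv 0 1 2) (seq dupLoop (seq (pop 1) (xfer 3 0 1 2)))

theorem dupC_spec (t : T) (s : Stk) (r : List ℕ) (hi : s 0 = code t ++ r) :
    Run dupC s (26 * size t + 28) (update s 0 (code t ++ (code t ++ r))) := by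
  have h1 := mv_spec 0 1 2 (by simp) (by simp) (by simp) t s r hi
  set s1 : Stk := update (update s 0 r) 1 ((code t).reverse ++ 2 :: s 1) with hs1
  have h2 := dupLoop_spec (code t).reverse
    (fun a ha => code_mem t a (List.mem_reverse.1 ha)) s1 (s 1) (by simp [hs1])
  set s2 : Stk := update (update (update s1 1 (2 :: s 1)) 0 ((code t).reverse.reverse ++ s1 0)) 3
    ((code t).reverse.reverse ++ s1 3) with hs2
  have h3 := Run.pop 1 s2
  set s3 : Stk := update s2 1 (s2 1).tail with hs3
  have h4 := xfer_spec 3 0 1 2 (by simp) (by simp) (by simp) (by simp) (by simp) t s3 (s 3)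
    (by simp [hs1, hs2, hs3])
  have := h1.seq (h2.seq (h3.seq h4))
  have e : update (update s3 3 (s 3)) 0 (code t ++ s3 0)
      = update s 0 (code t ++ (code t ++ r)) := by
    funext k
    by_cases g2 : k = 0
    · subst g2; simp [hs1, hs2, hs3]
    · by_cases g1 : k = 3
      · subst g1; simp [hs1, hs2, hs3, Function.update_apply]
      · by_cases g3 : k = 1
        · subst g3; simp [hs1, hs2, hs3]
        · simp [hs1, hs2, hs3, Function.update_apply, g1, g2, g3]
  rw [e] at this
  refine this.mono ?_
  rw [List.length_reverse, length_code]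
  omega

/-- push a list of symbols -/
def pushL : List ℕ → Cmd
  | [] => seq (push 0 0) (pop 0)
  | a :: w => seq (pushL w) (push 0 a)

theorem pushL_spec (w : List ℕ) : ∀ (s : Stk),
    Run (pushL w) s (2 * w.length + 3) (update s 0 (w ++ s 0)) := by
  induction w with
  | nil =>
    intro s
    have h1 := (Run.push 0 0 s).seq (Run.pop 0 _)
    have e : update (update s 0 (0 :: s 0)) 0 ((update s 0 (0 :: s 0)) 0).tail
        = update s 0 ([] ++ s 0) := by simp
    rw [e] at h1
    exact h1.mono (by simp)
  | cons a w ih =>
    intro s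
    have h1 := (ih s).seq (Run.push 0 a _)
    have e : update (update s 0 (w ++ s 0)) 0 (a :: (update s 0 (w ++ s 0)) 0)
        = update s 0 (a :: w ++ s 0) := by simp
    rw [e] at h1
    exact h1.mono (by simp; omega)

end Pool.Agent.Helper96
end

/- Helper96.Poly -/
section
/-!
# Polynomial time functions between encoded types
-/

set_option autoImplicit false
set_option linter.all false

namespace Pool.Agent.Helper96

open T Cmd Function

/-! ### polynomially bounded functions -/

/-- `f` is bounded by a polynomial -/
@[fun_prop]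
def IsPB (f : ℕ → ℕ) : Prop := ∃ k, ∀ n, f n ≤ (n + 2) ^ k

theorem one_le_pb (k n : ℕ) : 1 ≤ (n + 2) ^ k := Nat.one_le_pow _ _ (by omega)

theorem pb_mono {k l : ℕ} (h : k ≤ l) (n : ℕ) : (n + 2) ^ k ≤ (n + 2) ^ l :=
  Nat.pow_le_pow_right (by omega) h

theorem pb_mono' {m n : ℕ} (k : ℕ) (h : m ≤ n) : (m + 2) ^ k ≤ (n + 2) ^ k :=
  Nat.pow_le_pow_left (by omega) k

@[fun_prop]
theorem IsPB.id' : IsPB (fun n => n) := ⟨1, fun n => by simp⟩

@[fun_prop]
theorem IsPB.const (c : ℕ) : IsPB (fun _ => c) :=
  ⟨c, fun n => (Nat.lt_two_pow_self).le.trans (Nat.pow_le_pow_left (by omega) c)⟩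

theorem IsPB.mono {f g : ℕ → ℕ} (hg : IsPB g) (h : ∀ n, f n ≤ g n) : IsPB f := by
  obtain ⟨k, hk⟩ := hg
  exact ⟨k, fun n => (h n).trans (hk n)⟩

@[fun_prop]
theorem IsPB.mul {f g : ℕ → ℕ} (hf : IsPB f) (hg : IsPB g) : IsPB (fun n => f n * g n) := by
  obtain ⟨k, hk⟩ := hf
  obtain ⟨l, hl⟩ := hg
  refine ⟨k + l, fun n => ?_⟩
  rw [pow_add]
  exact Nat.mul_le_mul (hk n) (hl n)

@[fun_prop]
theorem IsPB.add {f g : ℕ → ℕ} (hf : IsPB f) (hg : IsPB g) : IsPB (fun n => f n + g n) := by
  obtain ⟨k, hk⟩ := hf
  obtain ⟨l, hl⟩ := hg
  refine ⟨max k l + 1, fun n => ?_⟩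
  have h1 := (hk n).trans (pb_mono (le_max_left k l) n)
  have h2 := (hl n).trans (pb_mono (le_max_right k l) n)
  rw [pow_succ]
  nlinarith [one_le_pb (max k l) n]

@[fun_prop]
theorem IsPB.pow {f : ℕ → ℕ} (hf : IsPB f) (k : ℕ) : IsPB (fun n => f n ^ k) := by
  induction k with
  | zero => simpa using IsPB.const 1
  | succ k ih => simpa [pow_succ] using ih.mul hf

@[fun_prop]
theorem IsPB.comp {f g : ℕ → ℕ} (hg : IsPB g) (hf : IsPB f) : IsPB (fun n => g (f n)) := by
  obtain ⟨l, hl⟩ := hg
  exact ((hf.add (IsPB.const 2)).pow l).mono fun n => hl (f n)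

/-! ### encodings -/

/-- encodings into binary trees -/
class Enc (α : Type) where
  enc : α → T
  inj : Function.Injective enc

export Enc (enc)

/-- size of the encoding -/
def sz {α : Type} [Enc α] (a : α) : ℕ := size (enc a)

instance : Enc T := ⟨id, Function.injective_id⟩

instance {α β : Type} [Enc α] [Enc β] : Enc (α × β) :=
  ⟨fun p => N (enc p.1) (enc p.2), by
    rintro ⟨a, b⟩ ⟨c, d⟩ h
    simp only [T.N.injEq] at h
    exact Prod.ext (Enc.inj h.1) (Enc.inj h.2)⟩

instance : Enc Bool :=
  ⟨fun b => if b then N L L else L, by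
    intro a b h
    cases a <;> cases b <;> simp_all⟩

instance : Enc Unit := ⟨fun _ => L, fun _ _ _ => rfl⟩

/-- lists are encoded along the right spine -/
instance {α : Type} [Enc α] : Enc (List α) :=
  ⟨fun l => ofList (l.map enc), by
    intro a b h
    have := congrArg spine h
    simp only [spine_ofList] at this
    exact (List.map_injective_iff.2 Enc.inj) this⟩

/-- natural numbers are encoded in unary -/
instance : Enc ℕ :=
  ⟨fun n => ofList (List.replicate n L), by
    intro a b h
    have := congrArg (fun t => (spine t).length) h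
    simpa using this⟩

instance {α : Type} [Enc α] : Enc (Option α) :=
  ⟨fun o => match o with
    | none => L
    | some a => N (enc a) L, by
    intro a b h
    cases a <;> cases b <;> simp_all
    exact Enc.inj h⟩

theorem enc_T (t : T) : enc t = t := rfl
theorem enc_prod {α β : Type} [Enc α] [Enc β] (a : α) (b : β) :
    enc (a, b) = N (enc a) (enc b) := rfl
theorem enc_true : enc true = N L L := rfl
theorem enc_false : enc false = L := rfl
theorem enc_nil {α : Type} [Enc α] : enc ([] : List α) = L := rfl
theorem enc_cons {α : Type} [Enc α] (a : α) (l : List α) :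
    enc (a :: l) = N (enc a) (enc l) := rfl
theorem enc_zero : enc (0 : ℕ) = L := rfl
theorem enc_succ (n : ℕ) : enc (n + 1) = N L (enc n) := rfl
theorem enc_none {α : Type} [Enc α] : enc (none : Option α) = L := rfl
theorem enc_some {α : Type} [Enc α] (a : α) : enc (some a) = N (enc a) L := rfl

theorem sz_pos {α : Type} [Enc α] (a : α) : 0 < sz a := size_pos _
theorem sz_prod {α β : Type} [Enc α] [Enc β] (a : α) (b : β) :
    sz (a, b) = sz a + sz b + 1 := rfl
theorem sz_nil {α : Type} [Enc α] : sz ([] : List α) = 1 := rfl
theorem sz_cons {α : Type} [Enc α] (a : α) (l : List α) :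
    sz (a :: l) = sz a + sz l + 1 := rfl
theorem sz_zero : sz (0 : ℕ) = 1 := rfl
theorem sz_nat (n : ℕ) : sz n = 2 * n + 1 := by
  induction n with
  | zero => rfl
  | succ n ih =>
    have : sz (n + 1) = 1 + sz n + 1 := rfl
    rw [this, ih]; ring
theorem sz_bool_le (b : Bool) : sz b ≤ 3 := by
  cases b <;> simp [sz, enc_true, enc_false, size]
theorem sz_none {α : Type} [Enc α] : sz (none : Option α) = 1 := rfl
theorem sz_some {α : Type} [Enc α] (a : α) : sz (some a) = sz a + 2 := rfl
theorem sz_unit (a : Unit) : sz a = 1 := rfl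

theorem length_lt_sz {α : Type} [Enc α] (l : List α) : l.length < sz l := by
  induction l with
  | nil => simp [sz_nil]
  | cons a l ih => rw [sz_cons, List.length_cons]; omega

theorem sz_mem_lt {α : Type} [Enc α] {l : List α} {a : α} (h : a ∈ l) : sz a < sz l := by
  induction l with
  | nil => simp at h
  | cons b l ih =>
    rw [sz_cons]
    rcases List.mem_cons.1 h with h | h
    · subst h; omega
    · have := ih h; omega

theorem sz_list_append {α : Type} [Enc α] (l m : List α) : sz (l ++ m) + 1 = sz l + sz m := by
  induction l with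
  | nil => simp [sz_nil]; omega
  | cons b l ih => rw [List.cons_append, sz_cons, sz_cons]; omega

theorem sz_list_le {α : Type} [Enc α] (l : List α) (B : ℕ) (h : ∀ a ∈ l, sz a ≤ B) :
    sz l ≤ l.length * (B + 1) + 1 := by
  induction l with
  | nil => simp [sz_nil]
  | cons a l ih =>
    have h1 := h a List.mem_cons_self
    have h2 := ih (fun b hb => h b (List.mem_cons_of_mem _ hb))
    rw [sz_cons, List.length_cons, add_mul]
    omega

/-! ### realisers -/

/-- `c` replaces the argument on top of stack `0` by the value of `f` and leaves everything else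
unchanged, in time at most `B` of the size of the argument -/
def Rz {α β : Type} [Enc α] [Enc β] (c : Cmd) (B : ℕ → ℕ) (f : α → β) : Prop :=
  ∀ (a : α) (s : Stk) (r : List ℕ), s 0 = code (enc a) ++ r →
    Run c s (B (sz a)) (update s 0 (code (enc (f a)) ++ r))

/-- polynomial time computable functions between encoded types -/
@[fun_prop]
def Poly {α β : Type} [Enc α] [Enc β] (f : α → β) : Prop :=
  ∃ (c : Cmd) (k : ℕ), Rz c (fun n => (n + 2) ^ k) f

section
variable {α β γ δ ε : Type} [Enc α] [Enc β] [Enc γ] [Enc δ] [Enc ε]

theorem Poly.of_rz {f : α → β} {c : Cmd} {B : ℕ → ℕ} (hB : IsPB B) (h : Rz c B f) : Poly f := by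
  obtain ⟨k, hk⟩ := hB
  exact ⟨c, k, fun a s r hs => (h a s r hs).mono (hk _)⟩

theorem Rz.sz_le {f : α → β} {c : Cmd} {B : ℕ → ℕ} (h : Rz c B f) (a : α) :
    sz (f a) ≤ sz a + B (sz a) := by
  obtain ⟨t, ht, h1⟩ := h a (update (fun _ => []) 0 (code (enc a))) [] (by simp)
  have := h1.length_le 0
  simp only [Function.update_self, List.append_nil, length_code] at this
  unfold sz
  unfold sz at ht
  omega

theorem Poly.sz_le {f : α → β} (h : Poly f) : ∃ k, ∀ a, sz (f a) ≤ (sz a + 2) ^ k := by
  obtain ⟨c, k, h⟩ := h
  obtain ⟨l, hl⟩ := IsPB.id'.add ((IsPB.id'.add (IsPB.const 2)).pow k)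
  exact ⟨l, fun a => (h.sz_le a).trans (hl _)⟩

theorem Rz.comp {g : β → γ} {f : α → β} {cg cf : Cmd} {Bg Bf : ℕ → ℕ}
    (hg : Rz cg Bg g) (hf : Rz cf Bf f) (hm : Monotone Bg) :
    Rz (Cmd.seq cf cg) (fun n => Bf n + Bg (n + Bf n) + 1) (fun a => g (f a)) := by
  intro a s r hs
  have h1 := hf a s r hs
  have h2 := hg (f a) (update s 0 (code (enc (f a)) ++ r)) r (by simp)
  have h3 := h1.seq h2
  rw [Function.update_idem] at h3
  refine h3.mono ?_
  have := hm (hf.sz_le a)
  simp only
  omega

theorem monotone_pb (k : ℕ) : Monotone (fun n => (n + 2) ^ k) := fun _ _ h => pb_mono' k h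

@[fun_prop]
theorem Poly.comp {g : β → γ} {f : α → β} (hg : Poly g) (hf : Poly f) :
    Poly (fun a => g (f a)) := by
  obtain ⟨cg, k, hg⟩ := hg
  obtain ⟨cf, l, hf⟩ := hf
  have hp : ∀ k, IsPB (fun n => (n + 2) ^ k) := fun k => (IsPB.id'.add (IsPB.const 2)).pow k
  exact Poly.of_rz (((hp l).add ((hp k).comp (IsPB.id'.add (hp l)))).add (IsPB.const 1))
    (Rz.comp hg hf (monotone_pb k))

@[fun_prop]
theorem Poly.id' : Poly (fun a : α => a) := by
  refine Poly.of_rz (c := Cmd.seq (push 0 0) (pop 0)) (IsPB.const 3) ?_
  intro a s r hs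
  have h1 := (Run.push 0 0 s).seq (Run.pop 0 _)
  have e : update (update s 0 (0 :: s 0)) 0 ((update s 0 (0 :: s 0)) 0).tail
      = update s 0 (code (enc a) ++ r) := by simp [← hs]
  rw [e] at h1
  exact h1

@[fun_prop]
theorem Poly.const (b : β) : Poly (fun _ : α => b) := by
  refine Poly.of_rz (c := Cmd.seq dropC (pushL (code (enc b))))
    (((IsPB.const 9).mul IsPB.id').add (IsPB.const (2 * (code (enc b)).length + 17))) ?_
  intro a s r hs
  have h1 := (dropC_spec (enc a) s r hs).seq (pushL_spec (code (enc b)) _)
  have e : update (update s 0 r) 0 (code (enc b) ++ (update s 0 r) 0)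
      = update s 0 (code (enc b) ++ r) := by simp
  rw [e] at h1
  refine h1.mono ?_
  unfold sz
  simp only
  omega

/-- first component of a pair on top of the stack -/
def fstC : Cmd := Cmd.seq (pop 0) (Cmd.seq (mv 0 1 2) (Cmd.seq dropC (mvb 1 0)))

theorem fstC_spec (l r' : T) (s : Stk) (r : List ℕ) (hs : s 0 = code (N l r') ++ r) :
    Run fstC s (12 * size l + 9 * size r' + 30) (update s 0 (code l ++ r)) := by
  have h1 := Run.pop 0 s
  set s1 : Stk := update s 0 (s 0).tail with hs1
  have e1 : s1 0 = code l ++ (code r' ++ r) := by simp [hs1, hs, code]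
  have h2 := mv_spec 0 1 2 (by simp) (by simp) (by simp) l s1 _ e1
  set s2 : Stk := update (update s1 0 (code r' ++ r)) 1 ((code l).reverse ++ 2 :: s1 1) with hs2
  have e2 : s2 0 = code r' ++ r := by simp [hs2, Function.update_apply]
  have h3 := dropC_spec r' s2 r e2
  set s3 : Stk := update s2 0 r with hs3
  have h4 := mvb_spec 1 0 (by simp) (code l).reverse
    (fun a ha => code_mem l a (List.mem_reverse.1 ha)) s3 (s 1)
    (by simp [hs1, hs2, hs3, Function.update_apply])
  have := h1.seq (h2.seq (h3.seq h4))
  have e : update (update s3 1 (s 1)) 0 ((code l).reverse.reverse ++ s3 0)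
      = update s 0 (code l ++ r) := by
    funext k
    by_cases g2 : k = 0
    · subst g2; simp [hs1, hs2, hs3]
    · by_cases g1 : k = 1
      · subst g1; simp [hs1, hs2, hs3, Function.update_apply]
      · simp [hs1, hs2, hs3, Function.update_apply, g1, g2]
  rw [e] at this
  refine this.mono ?_
  rw [List.length_reverse, length_code]
  omega

theorem sndC_spec (l r' : T) (s : Stk) (r : List ℕ) (hs : s 0 = code (N l r') ++ r) :
    Run (Cmd.seq (pop 0) dropC) s (9 * size l + 15) (update s 0 (code r' ++ r)) := by
  have h1 := Run.pop 0 s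
  set s1 : Stk := update s 0 (s 0).tail with hs1
  have e1 : s1 0 = code l ++ (code r' ++ r) := by simp [hs1, hs, code]
  have h2 := dropC_spec l s1 (code r' ++ r) e1
  have := h1.seq h2
  have e : update s1 0 (code r' ++ r) = update s 0 (code r' ++ r) := by simp [hs1]
  rw [e] at this
  exact this.mono (by omega)

theorem Poly.fst₀ : Poly (fun p : α × β => p.1) := by
  refine Poly.of_rz (c := fstC)
    (((IsPB.const 21).mul IsPB.id').add (IsPB.const 30)) ?_
  intro a s r hs
  refine (fstC_spec (enc a.1) (enc a.2) s r hs).mono ?_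
  have : sz a = size (enc a.1) + size (enc a.2) + 1 := rfl
  simp only [this]
  omega

theorem Poly.snd₀ : Poly (fun p : α × β => p.2) := by
  refine Poly.of_rz (c := Cmd.seq (pop 0) dropC)
    (((IsPB.const 21).mul IsPB.id').add (IsPB.const 30)) ?_
  intro a s r hs
  refine (sndC_spec (enc a.1) (enc a.2) s r hs).mono ?_
  have : sz a = size (enc a.1) + size (enc a.2) + 1 := rfl
  simp only [this]
  omega

@[fun_prop]
theorem Poly.fst {f : α → β × γ} (hf : Poly f) : Poly (fun a => (f a).1) := Poly.fst₀.comp hf

@[fun_prop]
theorem Poly.snd {f : α → β × γ} (hf : Poly f) : Poly (fun a => (f a).2) := Poly.snd₀.comp hf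

@[fun_prop]
theorem Poly.prodMk {f : α → β} {g : α → γ} (hf : Poly f) (hg : Poly g) :
    Poly (fun a => (f a, g a)) := by
  obtain ⟨cf, k, hf⟩ := hf
  obtain ⟨cg, l, hg⟩ := hg
  have hp : ∀ k, IsPB (fun n => (n + 2) ^ k) := fun k => (IsPB.id'.add (IsPB.const 2)).pow k
  refine Poly.of_rz (c := Cmd.seq dupC (Cmd.seq cf (Cmd.seq (mv 0 1 2) (Cmd.seq cg
    (Cmd.seq (mvb 1 0) (push 0 1))))))
    ((((IsPB.const 38).mul (IsPB.id'.add (hp k))).add ((hp k).add (hp l))).add
      (IsPB.const 60)) ?_
  intro a s r hs
  have h1 := dupC_spec (enc a) s r hs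
  set s1 : Stk := update s 0 (code (enc a) ++ (code (enc a) ++ r)) with hs1
  have h2 := hf a s1 (code (enc a) ++ r) (by simp [hs1])
  set s2 : Stk := update s1 0 (code (enc (f a)) ++ (code (enc a) ++ r)) with hs2
  have h3 := mv_spec 0 1 2 (by simp) (by simp) (by simp) (enc (f a)) s2 (code (enc a) ++ r)
    (by simp [hs2])
  set s3 : Stk := update (update s2 0 (code (enc a) ++ r)) 1
    ((code (enc (f a))).reverse ++ 2 :: s2 1) with hs3
  have h4 := hg a s3 r (by simp [hs3, Function.update_apply])
  set s4 : Stk := update s3 0 (code (enc (g a)) ++ r) with hs4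
  have h5 := mvb_spec 1 0 (by simp) (code (enc (f a))).reverse
    (fun b hb => code_mem _ b (List.mem_reverse.1 hb)) s4 (s 1)
    (by simp [hs1, hs2, hs3, hs4, Function.update_apply])
  set s5 : Stk := update (update s4 1 (s 1)) 0 ((code (enc (f a))).reverse.reverse ++ s4 0)
    with hs5
  have h6 := Run.push 0 1 s5
  have := h1.seq (h2.seq (h3.seq (h4.seq (h5.seq h6))))
  have e : update s5 0 (1 :: s5 0)
      = update s 0 (code (enc (f a, g a)) ++ r) := by
    funext m
    by_cases g2 : m = 0
    · subst g2; simp [hs1, hs2, hs3, hs4, hs5, enc_prod, code]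
    · by_cases g1 : m = 1
      · subst g1; simp [hs1, hs2, hs3, hs4, hs5, Function.update_apply]
      · simp [hs1, hs2, hs3, hs4, hs5, Function.update_apply, g1, g2]
  rw [e] at this
  refine this.mono ?_
  have hsz := hf.sz_le a
  rw [List.length_reverse, length_code]
  unfold sz at hsz ⊢
  simp only at hsz ⊢
  omega

theorem Poly.ite' {p : α → Bool} {f g : α → β} (hp : Poly p) (hf : Poly f) (hg : Poly g) :
    Poly (fun a => if p a = true then f a else g a) := by
  have hq : Poly (fun a => (p a, a)) := hp.prodMk Poly.id'
  obtain ⟨cf, k, hf⟩ := hf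
  obtain ⟨cg, l, hg⟩ := hg
  have hpb : ∀ k, IsPB (fun n => (n + 2) ^ k) := fun k => (IsPB.id'.add (IsPB.const 2)).pow k
  have main : Poly (fun q : Bool × α => if q.1 = true then f q.2 else g q.2) := by
    refine Poly.of_rz (c := Cmd.seq (pop 0) (Cmd.ite 0 0 (Cmd.seq (pop 0) cg)
      (Cmd.seq (pop 0) (Cmd.seq (pop 0) (Cmd.seq (pop 0) cf)))))
      (((hpb k).add (hpb l)).add (IsPB.const 20)) ?_
    rintro ⟨b, a⟩ s r hs
    have h1 := Run.pop 0 s
    set s1 : Stk := update s 0 (s 0).tail with hs1
    have e1 : s1 0 = code (enc b) ++ (code (enc a) ++ r) := by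
      simp [hs1, hs, enc_prod, code]
    have hmono : ∀ k, (sz a + 2) ^ k ≤ (sz (b, a) + 2) ^ k := fun k =>
      pb_mono' k (by rw [sz_prod]; omega)
    cases b with
    | false =>
      have hh : (s1 0).head? = some 0 := by rw [e1]; simp [enc_false, code]
      have h2 := Run.pop 0 s1
      have h3 := hg a (update s1 0 (s1 0).tail) r (by simp [e1, enc_false, code])
      have := h1.seq (Run.ite_pos (q := (Cmd.seq (pop 0) (Cmd.seq (pop 0) (Cmd.seq (pop 0) cf))))
        hh (h2.seq h3))
      simp only [hs1, Function.update_idem] at this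
      refine this.mono ?_
      have := hmono l
      simp only
      omega
    | true =>
      have hh : (s1 0).head? ≠ some 0 := by rw [e1]; simp [enc_true, code]
      have h2 := Run.pop 0 s1
      set s2 : Stk := update s1 0 (s1 0).tail with hs2
      have h3 := Run.pop 0 s2
      set s3 : Stk := update s2 0 (s2 0).tail with hs3
      have h4 := Run.pop 0 s3
      have h5 := hf a (update s3 0 (s3 0).tail) r (by simp [hs2, hs3, e1, enc_true, code])
      have := h1.seq (Run.ite_neg (p := (Cmd.seq (pop 0) cg)) hh (h2.seq (h3.seq (h4.seq h5))))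
      simp only [hs1, hs2, hs3, Function.update_idem] at this
      refine this.mono ?_
      have := hmono k
      simp only
      omega
  exact main.comp hq

@[fun_prop]
theorem Poly.cond {p : α → Bool} {f g : α → β} (hp : Poly p) (hf : Poly f) (hg : Poly g) :
    Poly (fun a => bif p a then f a else g a) := by
  have := Poly.ite' hp hf hg
  convert this using 2 with a
  cases p a <;> rfl

/-- the fold loop on trees -/
def foldC (cf : Cmd) : Cmd :=
  Cmd.seq (pop 0) (Cmd.seq (xfer 0 3 1 2)
    (Cmd.seq (wh 3 0 (Cmd.seq (pop 3) (Cmd.seq (xfer 3 0 1 2) (Cmd.seq (push 0 1) cf)))) (pop 3)))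

theorem spine_length_le (l : T) : (spine l).length ≤ size l := by
  induction l with
  | L => simp [spine]
  | N a l _ ih => simp [spine, size]; omega

/-! ### functions that are realised on part of the domain -/

/-- `c` realises `f` on the arguments satisfying `P` -/
def RzOn (P : α → Prop) (c : Cmd) (B : ℕ → ℕ) (f : α → β) : Prop :=
  ∀ (a : α), P a → ∀ (s : Stk) (r : List ℕ), s 0 = code (enc a) ++ r →
    Run c s (B (sz a)) (update s 0 (code (enc (f a)) ++ r))

/-- `f` is polynomial time computable on the arguments satisfying `P` -/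
def PolyOn (P : α → Prop) (f : α → β) : Prop :=
  ∃ (c : Cmd) (k : ℕ), RzOn P c (fun n => (n + 2) ^ k) f

theorem PolyOn.of_rz {P : α → Prop} {f : α → β} {c : Cmd} {B : ℕ → ℕ} (hB : IsPB B)
    (h : RzOn P c B f) : PolyOn P f := by
  obtain ⟨k, hk⟩ := hB
  exact ⟨c, k, fun a ha s r hs => (h a ha s r hs).mono (hk _)⟩

theorem Poly.comp_on {P : β → Prop} {g : β → γ} {f : α → β} (hg : PolyOn P g) (hf : Poly f)
    (hP : ∀ a, P (f a)) : Poly (fun a => g (f a)) := by
  obtain ⟨cg, k, hg⟩ := hg
  obtain ⟨cf, l, hf⟩ := hf
  refine Poly.of_rz (c := Cmd.seq cf cg)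
    (B := fun n => (n + 2) ^ l + (n + (n + 2) ^ l + 2) ^ k + 1) (by fun_prop) ?_
  intro a s r hs
  have h1 := hf a s r hs
  have h2 := hg (f a) (hP a) (update s 0 (code (enc (f a)) ++ r)) r (by simp)
  have h3 := h1.seq h2
  rw [Function.update_idem] at h3
  refine h3.mono ?_
  have := monotone_pb k (hf.sz_le a)
  simp only at this ⊢
  omega

/-- folding over lists, with a polynomial bound on the accumulators -/
theorem PolyOn.foldl {step : (γ × α) × β → β} (hs : Poly step) (kb : ℕ) :
    PolyOn (fun q : List α × (γ × β) => ∀ l', l' <+: q.1 →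
        sz (l'.foldl (fun b a => step ((q.2.1, a), b)) q.2.2) ≤ (sz q + 2) ^ kb)
      (fun q : List α × (γ × β) =>
        (q.2.1, q.1.foldl (fun b a => step ((q.2.1, a), b)) q.2.2)) := by
  -- the step function on the state `(c, b)`
  have hs' : Poly (fun q : α × (γ × β) => (q.2.1, step ((q.2.1, q.1), q.2.2))) := by
    fun_prop
  obtain ⟨cs, k, hs'⟩ := hs'
  -- first produce the pair `(c, b)` by folding
  refine PolyOn.of_rz (c := foldC cs) (B := fun n =>
      n * ((((n + 2) ^ kb + n + 1) + n + 3) ^ k + 12 * n + 30) + 12 * n + 40) (by fun_prop) ?_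
  rintro ⟨l, c, b⟩ hP s r hs0
  simp only at hP
  -- the tree function: the command `cs` restricted to encoded values
  have key : ∀ (l : List α) (c : γ) (b : β) (s : Stk) (r r3 : List ℕ) (M : ℕ),
      s 0 = code (enc (c, b)) ++ r → s 3 = code (enc l) ++ r3 →
      (∀ l', l' <+: l → sz (l'.foldl (fun (st : γ × β) a => (st.1, step ((st.1, a), st.2)))
        (c, b)) ≤ M) →
      Run (wh 3 0 (Cmd.seq (pop 3) (Cmd.seq (xfer 3 0 1 2) (Cmd.seq (push 0 1) cs)))) s
        (1 + l.length * ((M + sz l + 3) ^ k + 12 * sz l + 30))
        (update (update s 3 (0 :: r3)) 0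
          (code (enc (l.foldl (fun (st : γ × β) a => (st.1, step ((st.1, a), st.2))) (c, b)))
            ++ r)) := by
    intro l
    induction l with
    | nil =>
      intro c b s r r3 M h0 h3 hM
      have e : update (update s 3 (0 :: r3)) 0
          (code (enc (([] : List α).foldl
            (fun (st : γ × β) a => (st.1, step ((st.1, a), st.2))) (c, b))) ++ r) = s := by
        funext m
        by_cases g2 : m = 0
        · subst g2; simp [h0]
        · by_cases g1 : m = 3
          · subst g1; simp [h3, enc_nil, code]
          · simp [Function.update_apply, g1, g2]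
      rw [e]
      exact (Run.wh_done (by simp [h3, enc_nil, code])).mono (by simp)
    | cons x l ih =>
      intro c b s r r3 M h0 h3 hM
      have hh : (s 3).head? ≠ some 0 := by rw [h3]; simp [enc_cons, code]
      have h1 := Run.pop 3 s
      set s1 : Stk := update s 3 (s 3).tail with hs1
      have h2 := xfer_spec 3 0 1 2 (by simp) (by simp) (by simp) (by simp) (by simp) (enc x) s1
        (code (enc l) ++ r3) (by simp [hs1, h3, enc_cons, code])
      set s2 : Stk := update (update s1 3 (code (enc l) ++ r3)) 0 (code (enc x) ++ s1 0) with hs2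
      have h4 := Run.push 0 1 s2
      set s3 : Stk := update s2 0 (1 :: s2 0) with hs3
      have h5 := hs' (x, (c, b)) s3 r (by
        simp [hs1, hs2, hs3, h0, enc_prod, code, Function.update_apply])
      simp only at h5
      set s4 : Stk := update s3 0 (code (enc (c, step ((c, x), b))) ++ r) with hs4
      have h6 := ih c (step ((c, x), b)) s4 r r3 M (by simp [hs4])
        (by simp [hs2, hs3, hs4, Function.update_apply]) (fun l' hl' => by
          have := hM (x :: l') (List.cons_prefix_cons.2 ⟨rfl, hl'⟩)
          simpa using this)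
      have := Run.wh_step hh (h1.seq (h2.seq (h4.seq h5))) h6
      have e : update (update s4 3 (0 :: r3)) 0
          (code (enc (l.foldl (fun (st : γ × β) a => (st.1, step ((st.1, a), st.2)))
            (c, step ((c, x), b)))) ++ r)
          = update (update s 3 (0 :: r3)) 0
          (code (enc ((x :: l).foldl (fun (st : γ × β) a => (st.1, step ((st.1, a), st.2)))
            (c, b))) ++ r) := by
        funext m
        by_cases g2 : m = 0
        · subst g2; simp
        · by_cases g1 : m = 3
          · subst g1; simp
          · simp [hs1, hs2, hs3, hs4, Function.update_apply, g1, g2]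
      rw [e] at this
      refine this.mono ?_
      have hb' : sz (c, b) ≤ M := by simpa using hM [] (List.nil_prefix)
      have e1 : (x :: l).length = l.length + 1 := rfl
      have e2 : sz (x :: l) = sz x + sz l + 1 := rfl
      have e3 : sz (x, (c, b)) = sz x + sz (c, b) + 1 := rfl
      have e4 : size (enc x) = sz x := rfl
      rw [e1, e2, e3, e4]
      have p1 : (sz x + sz (c, b) + 1 + 2) ^ k ≤ (M + (sz x + sz l + 1) + 3) ^ k :=
        Nat.pow_le_pow_left (by omega) k
      have p3 : l.length * ((M + sz l + 3) ^ k + 12 * sz l + 30)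
          ≤ l.length * ((M + (sz x + sz l + 1) + 3) ^ k + 12 * (sz x + sz l + 1) + 30) := by
        have p2 : (M + sz l + 3) ^ k ≤ (M + (sz x + sz l + 1) + 3) ^ k :=
          Nat.pow_le_pow_left (by omega) k
        exact Nat.mul_le_mul_left _ (by omega)
      have p4 : (l.length + 1) * ((M + (sz x + sz l + 1) + 3) ^ k
            + 12 * (sz x + sz l + 1) + 30) =
          l.length * ((M + (sz x + sz l + 1) + 3) ^ k
            + 12 * (sz x + sz l + 1) + 30) + ((M + (sz x + sz l + 1) + 3) ^ k
            + 12 * (sz x + sz l + 1) + 30) := by ring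
      rw [p4]
      omega
  have h1 := Run.pop 0 s
  set s1 : Stk := update s 0 (s 0).tail with hs1
  have h2 := xfer_spec 0 3 1 2 (by simp) (by simp) (by simp) (by simp) (by simp) (enc l) s1
    (code (enc (c, b)) ++ r) (by simp [hs1, hs0, enc_prod, code])
  set s2 : Stk := update (update s1 0 (code (enc (c, b)) ++ r)) 3 (code (enc l) ++ s1 3) with hs2
  have fst_fold : ∀ (l : List α) (st : γ × β),
      l.foldl (fun (st : γ × β) a => (st.1, step ((st.1, a), st.2))) st
        = (st.1, l.foldl (fun b a => step ((st.1, a), b)) st.2) := by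
    intro l
    induction l with
    | nil => intro st; rfl
    | cons x l ih => intro st; simp [ih]
  have h3 := key l c b s2 r (s 3) ((sz (l, (c, b)) + 2) ^ kb + sz c + 1)
    (by simp [hs2, Function.update_apply])
    (by simp [hs1, hs2, Function.update_apply]) (by
      intro l' hl'
      rw [fst_fold]
      have := hP l' hl'
      rw [sz_prod]
      simp only
      omega)
  rw [fst_fold] at h3
  have h4 := Run.pop 3 (update (update s2 3 (0 :: s 3)) 0
    (code (enc (c, l.foldl (fun b a => step ((c, a), b)) b)) ++ r))
  have := h1.seq (h2.seq (h3.seq h4))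
  have e : update (update (update s2 3 (0 :: s 3)) 0
    (code (enc (c, l.foldl (fun b a => step ((c, a), b)) b)) ++ r)) 3
    ((update (update s2 3 (0 :: s 3)) 0
    (code (enc (c, l.foldl (fun b a => step ((c, a), b)) b)) ++ r))
      3).tail
    = update s 0
    (code (enc (c, l.foldl (fun b a => step ((c, a), b)) b)) ++ r)
      := by
    funext m
    by_cases g2 : m = 0
    · subst g2; simp
    · by_cases g1 : m = 3
      · subst g1; simp [Function.update_apply]
      · simp [hs1, hs2, Function.update_apply, g1, g2]
  rw [e] at this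
  refine this.mono ?_
  have e1 : sz (l, (c, b)) = sz l + (sz c + sz b + 1) + 1 := rfl
  have e4 : size (enc l) = sz l := rfl
  have hl : l.length ≤ sz (l, (c, b)) := by
    have := length_lt_sz l
    rw [e1]; omega
  set n := sz (l, (c, b)) with hn
  have q2 : ((n + 2) ^ kb + sz c + 1 + sz l + 3) ^ k
      ≤ (((n + 2) ^ kb + n + 1) + n + 3) ^ k := Nat.pow_le_pow_left (by omega) k
  have q3 : l.length * (((n + 2) ^ kb + sz c + 1 + sz l + 3) ^ k
      + 12 * sz l + 30) ≤ n * ((((n + 2) ^ kb + n + 1) + n + 3) ^ k + 12 * n + 30) :=
    Nat.mul_le_mul hl (by omega)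
  rw [e4]
  simp only
  omega

/-- folding, main form -/
theorem Poly.foldl {f : α → List β} {g : α → γ} {h : α → γ → β → γ} (hf : Poly f) (hg : Poly g)
    (hh : Poly (fun q : (α × β) × γ => h q.1.1 q.2 q.1.2))
    (hb : ∃ k, ∀ a l', l' <+: f a → sz (l'.foldl (h a) (g a)) ≤ (sz a + 2) ^ k) :
    Poly (fun a => (f a).foldl (h a) (g a)) := by
  obtain ⟨kb, hb⟩ := hb
  have h1 := PolyOn.foldl (γ := α) (α := β) (β := γ)
    (step := fun q : (α × β) × γ => h q.1.1 q.2 q.1.2) hh kb
  have h2 : Poly (fun a => (f a, (a, g a))) := by fun_prop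
  have h3 := Poly.comp_on h1 h2 (by
    intro a l' hl'
    simp only
    refine (hb a l' hl').trans (pb_mono' kb ?_)
    rw [sz_prod, sz_prod]; omega)
  exact Poly.snd h3

/-! ### changing types without changing encodings -/

theorem Poly.of_enc {f : α → β} {g : γ → δ} (hg : Poly g) (i : α → γ)
    (hi : ∀ a, enc (i a) = enc a) (ho : ∀ a, enc (f a) = enc (g (i a))) : Poly f := by
  obtain ⟨c, k, h⟩ := hg
  refine ⟨c, k, fun a s r hs => ?_⟩
  have := h (i a) s r (by rw [hi]; exact hs)
  rw [ho a]
  have e : sz (i a) = sz a := by unfold sz; rw [hi]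
  rw [e] at this
  exact this

theorem Poly.recast {f : α → β} {g : α → γ} (hg : Poly g)
    (ho : ∀ a, enc (f a) = enc (g a)) : Poly f := Poly.of_enc hg (fun a => a) (fun _ => rfl) ho

/-! ### more primitives on trees -/

/-- is the tree a leaf? -/
def T.isL : T → Bool
  | L => true
  | N _ _ => false

/-- left subtree, with default -/
def T.fstD : T → T
  | L => L
  | N a _ => a

/-- right subtree, with default -/
def T.sndD : T → T
  | L => L
  | N _ b => b

/-- do nothing -/
def nopC : Cmd := Cmd.seq (push 0 0) (pop 0)

theorem nopC_spec (s : Stk) : Run nopC s 3 s := by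
  have h1 := (Run.push 0 0 s).seq (Run.pop 0 _)
  have e : update (update s 0 (0 :: s 0)) 0 ((update s 0 (0 :: s 0)) 0).tail
      = s := by simp
  rw [e] at h1
  exact h1

theorem Poly.isL₀ : Poly T.isL := by
  refine Poly.of_rz (c := Cmd.ite 0 0 (Cmd.seq dropC (pushL (code (enc true))))
    (Cmd.seq dropC (pushL (code (enc false))))) (B := fun n => 9 * n + 40) (by fun_prop) ?_
  intro a s r hs
  cases a with
  | L =>
    have hh : (s 0).head? = some 0 := by rw [hs]; simp [enc_T, code]
    have h1 := dropC_spec L s r hs
    have h2 := pushL_spec (code (enc true)) (update s 0 r)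
    have := Run.ite_pos (q := (Cmd.seq dropC (pushL (code (enc false))))) hh (h1.seq h2)
    simp only [Function.update_idem, Function.update_self] at this
    exact this.mono (by simp [enc_true, code, size])
  | N a b =>
    have hh : (s 0).head? ≠ some 0 := by rw [hs]; simp [enc_T, code]
    have h1 := dropC_spec (N a b) s r hs
    have h2 := pushL_spec (code (enc false)) (update s 0 r)
    have := Run.ite_neg (p := (Cmd.seq dropC (pushL (code (enc true))))) hh (h1.seq h2)
    simp only [Function.update_idem, Function.update_self] at this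
    refine this.mono ?_
    have : sz (N a b) = size (N a b) := rfl
    rw [this]
    simp [enc_false, code]

theorem Poly.fstD₀ : Poly T.fstD := by
  refine Poly.of_rz (c := Cmd.ite 0 0 nopC fstC) (B := fun n => 12 * n + 40) (by fun_prop) ?_
  intro a s r hs
  cases a with
  | L =>
    have hh : (s 0).head? = some 0 := by rw [hs]; simp [enc_T, code]
    have := Run.ite_pos (q := fstC) hh (nopC_spec s)
    have e : update s 0 (code (enc (T.fstD L)) ++ r) = s := by
      rw [T.fstD, ← hs]; simp
    rw [e]
    exact this.mono (by simp only; omega)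
  | N a b =>
    have hh : (s 0).head? ≠ some 0 := by rw [hs]; simp [enc_T, code]
    have h1 := fstC_spec a b s r hs
    have := Run.ite_neg (p := nopC) hh h1
    refine this.mono ?_
    have : sz (N a b) = size a + size b + 1 := rfl
    rw [this]
    simp only
    omega

theorem Poly.sndD₀ : Poly T.sndD := by
  refine Poly.of_rz (c := Cmd.ite 0 0 nopC (Cmd.seq (pop 0) dropC)) (B := fun n => 12 * n + 40)
    (by fun_prop) ?_
  intro a s r hs
  cases a with
  | L =>
    have hh : (s 0).head? = some 0 := by rw [hs]; simp [enc_T, code]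
    have := Run.ite_pos (q := (Cmd.seq (pop 0) dropC)) hh (nopC_spec s)
    have e : update s 0 (code (enc (T.sndD L)) ++ r) = s := by
      rw [T.sndD, ← hs]; simp
    rw [e]
    exact this.mono (by simp only; omega)
  | N a b =>
    have hh : (s 0).head? ≠ some 0 := by rw [hs]; simp [enc_T, code]
    have h1 := sndC_spec a b s r hs
    have := Run.ite_neg (p := nopC) hh h1
    refine this.mono ?_
    have : sz (N a b) = size a + size b + 1 := rfl
    rw [this]
    simp only
    omega

/-- the prefix code of a tree, as a list of bits -/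
def T.bits (t : T) : List Bool := (code t).map (fun a => a == 1)

/-- the loop turning a raw word into an encoded list of bits -/
def bitsLoop : Cmd :=
  wh 1 2 (ite 1 1
    (Cmd.seq (pop 1) (Cmd.seq (push 0 0) (Cmd.seq (push 0 0) (Cmd.seq (push 0 1) (push 0 1)))))
    (Cmd.seq (pop 1) (Cmd.seq (push 0 0) (push 0 1))))

theorem bitsLoop_spec (w : List ℕ) (hw : ∀ a ∈ w, a = 0 ∨ a = 1) :
    ∀ (s : Stk) (q r : List ℕ) (l : List Bool), s 1 = w ++ 2 :: q → s 0 = code (enc l) ++ r →
      Run bitsLoop s (1 + 11 * w.length)
        (update (update s 1 (2 :: q)) 0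
          (code (enc ((w.reverse.map (fun a => a == 1)) ++ l)) ++ r)) := by
  induction w with
  | nil =>
    intro s q r l hj h0
    have : update (update s 1 (2 :: q)) 0
        (code (enc ((([] : List ℕ).reverse.map (fun a => a == 1)) ++ l)) ++ r) = s := by
      funext k
      by_cases g2 : k = 0
      · subst g2; simp [h0]
      · by_cases g3 : k = 1
        · subst g3; simp [hj]
        · simp [Function.update_apply, g2, g3]
    rw [this]
    exact (Run.wh_done (by simp [hj])).mono (by simp)
  | cons a w ih =>
    intro s q r l hj h0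
    have hw' : ∀ a ∈ w, a = 0 ∨ a = 1 := fun b hb => hw b (List.mem_cons_of_mem _ hb)
    have ha := hw a List.mem_cons_self
    set s1 : Stk := update (update s 1 (w ++ 2 :: q)) 0
      (code (enc ((a == 1) :: l)) ++ r) with hs1
    have h1 : Run (ite 1 1
        (Cmd.seq (pop 1) (Cmd.seq (push 0 0) (Cmd.seq (push 0 0) (Cmd.seq (push 0 1) (push 0 1)))))
        (Cmd.seq (pop 1) (Cmd.seq (push 0 0) (push 0 1)))) s 10 s1 := by
      rcases ha with rfl | rfl
      · have hh : (s 1).head? ≠ some 1 := by rw [hj]; simp
        have := Run.ite_neg (p := (Cmd.seq (pop 1) (Cmd.seq (push 0 0) (Cmd.seq (push 0 0)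
          (Cmd.seq (push 0 1) (push 0 1)))))) hh
          ((Run.pop 1 s).seq ((Run.push 0 0 _).seq (Run.push 0 1 _)))
        refine Run.mono ?_ (show 6 ≤ 10 by omega)
        convert this using 1
        funext k
        by_cases g2 : k = 0
        · subst g2; simp [hs1, h0, enc_cons, enc_false, code]
        · by_cases g3 : k = 1
          · subst g3; simp [hs1, hj]
          · simp [hs1, Function.update_apply, g2, g3]
      · have hh : (s 1).head? = some 1 := by rw [hj]; simp
        have := Run.ite_pos (q := (Cmd.seq (pop 1) (Cmd.seq (push 0 0) (push 0 1)))) hh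
          ((Run.pop 1 s).seq ((Run.push 0 0 _).seq ((Run.push 0 0 _).seq
            ((Run.push 0 1 _).seq (Run.push 0 1 _)))))
        convert this using 1
        funext k
        by_cases g2 : k = 0
        · subst g2; simp [hs1, h0, enc_cons, enc_true, code]
        · by_cases g3 : k = 1
          · subst g3; simp [hs1, hj]
          · simp [hs1, Function.update_apply, g2, g3]
    have hh : (s 1).head? ≠ some 2 := by
      rw [hj]
      rcases ha with rfl | rfl <;> simp
    have key := ih hw' s1 q r ((a == 1) :: l) (by simp [hs1, Function.update_apply])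
      (by simp [hs1])
    have := Run.wh_step hh h1 key
    have e : update (update s1 1 (2 :: q)) 0
          (code (enc ((w.reverse.map (fun a => a == 1)) ++ ((a == 1) :: l))) ++ r)
        = update (update s 1 (2 :: q)) 0
          (code (enc (((a :: w).reverse.map (fun a => a == 1)) ++ l)) ++ r) := by
      funext k
      by_cases g2 : k = 0
      · subst g2; simp
      · by_cases g3 : k = 1
        · subst g3; simp
        · simp [hs1, Function.update_apply, g2, g3]
    rw [e] at this
    exact this.mono (by simp; omega)

theorem Poly.bits₀ : Poly T.bits := by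
  refine Poly.of_rz (c := Cmd.seq (mv 0 1 2) (Cmd.seq (push 0 0) (Cmd.seq bitsLoop (pop 1))))
    (B := fun n => 18 * n + 40) (by fun_prop) ?_
  intro t s r hs
  have h1 := mv_spec 0 1 2 (by simp) (by simp) (by simp) t s r hs
  set s1 : Stk := update (update s 0 r) 1 ((code t).reverse ++ 2 :: s 1) with hs1
  have h2 := Run.push 0 0 s1
  set s2 : Stk := update s1 0 (0 :: s1 0) with hs2
  have h3 := bitsLoop_spec (code t).reverse
    (fun a ha => code_mem t a (List.mem_reverse.1 ha)) s2 (s 1) r []
    (by simp [hs1, hs2, Function.update_apply]) (by simp [hs1, hs2, enc_nil, code])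
  have h4 := Run.pop 1 (update (update s2 1 (2 :: s 1)) 0
          (code (enc (((code t).reverse.reverse.map (fun a => a == 1)) ++ ([] : List Bool))) ++ r))
  have := h1.seq (h2.seq (h3.seq h4))
  convert this.mono (show _ ≤ 18 * sz t + 40 by
    rw [List.length_reverse, length_code]; unfold sz; rw [enc_T]; omega) using 1
  funext k
  by_cases g2 : k = 0
  · subst g2; simp [T.bits]
  · by_cases g3 : k = 1
    · subst g3; simp
    · simp [hs1, hs2, Function.update_apply, g2, g3]

theorem T.code_injective : ∀ (t u : T) (r r' : List ℕ), code t ++ r = code u ++ r' →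
    t = u ∧ r = r' := by
  intro t
  induction t with
  | L =>
    intro u r r' h
    cases u with
    | L => simpa [code] using h
    | N a b => simp [code] at h
  | N a b iha ihb =>
    intro u r r' h
    cases u with
    | L => simp [code] at h
    | N c d =>
      simp only [code, List.cons_append, List.append_assoc, List.cons.injEq, true_and] at h
      obtain ⟨h1, h2⟩ := iha c _ _ h
      obtain ⟨h3, h4⟩ := ihb d _ _ h2
      exact ⟨by rw [h1, h3], h4⟩

theorem T.bits_injective : Function.Injective T.bits := by
  intro t u h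
  have h0 : ∀ t : T, (T.bits t).map (fun b => bif b then 1 else 0) = code t := by
    intro t
    unfold T.bits
    rw [List.map_map]
    conv_rhs => rw [← List.map_id (code t)]
    apply List.map_congr_left
    intro a ha
    rcases code_mem t a ha with rfl | rfl <;> simp
  have h1 : code t = code u := by rw [← h0, ← h0, h]
  exact (T.code_injective t u [] [] (by simpa using h1)).1

end

end Pool.Agent.Helper96
end
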