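import Mathlib

/- Helper20.Flip.Defs -/
section
/-!
# Polygons, pockets and flips
-/

set_option autoImplicit false

namespace Pool.Agent.Helper20.Flip

/-- Points of the plane. -/
abbrev Pt := ℝ × ℝ

/-- Twice the signed area of the triangle `A B C`; it is positive iff `C` lies strictly to the
left of the directed line `A B`, and zero iff `C` lies on that line (for `A ≠ B`). -/
def cross (A B C : Pt) : ℝ := (B.1 - A.1) * (C.2 - A.2) - (B.2 - A.2) * (C.1 - A.1)

/-- The mirror image of `X` in the line through `A` and `B`: twice the foot of the perpendicular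
minus `X`. -/
noncomputable def mirror (A B X : Pt) : Pt :=
  (2 * (A.1 + ((X.1 - A.1) * (B.1 - A.1) + (X.2 - A.2) * (B.2 - A.2)) /
      ((B.1 - A.1) ^ 2 + (B.2 - A.2) ^ 2) * (B.1 - A.1)) - X.1,
   2 * (A.2 + ((X.1 - A.1) * (B.1 - A.1) + (X.2 - A.2) * (B.2 - A.2)) /
      ((B.1 - A.1) ^ 2 + (B.2 - A.2) ^ 2) * (B.2 - A.2)) - X.2)

/-- A closed polygonal curve with vertices `V 0, …, V (n-1)` (indices modulo `n`) is simple: the
edges are nondegenerate, and two different edges meet only if they are consecutive, and then only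
in their common vertex. -/
def IsSimple {n : ℕ} (V : ZMod n → Pt) : Prop :=
  3 ≤ n ∧ (∀ i, V i ≠ V (i + 1)) ∧
  ∀ i j : ZMod n, i ≠ j → ∀ X ∈ segment ℝ (V i) (V (i + 1)), X ∈ segment ℝ (V j) (V (j + 1)) →
    (j = i + 1 ∧ X = V j) ∨ (i = j + 1 ∧ X = V i)

/-- Twice the signed area enclosed by the polygon (shoelace formula); a simple polygon is listed
counterclockwise iff this is positive. -/
def area2 {n : ℕ} (V : ZMod n → Pt) : ℝ :=
  ∑ k ∈ Finset.range n, ((V (k : ZMod n)).1 * (V ((k : ZMod n) + 1)).2 -
    (V ((k : ZMod n) + 1)).1 * (V (k : ZMod n)).2)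

/-- For a simple polygon listed counterclockwise: the subchain `V i, V (i+1), …, V (i+m)` bounds a
pocket with lid the segment from `V i` to `V (i+m)`. That is, the lid is an edge of the convex
hull (all vertices of the polygon lie to the left of it, or on it between its end points), the
subchain has at least two edges and so has the rest of the polygon, and the subchain is not
contained in the lid. -/
def IsPocket {n : ℕ} (V : ZMod n → Pt) (i : ZMod n) (m : ℕ) : Prop :=
  2 ≤ m ∧ m + 2 ≤ n ∧ V i ≠ V (i + m) ∧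
  (∀ k, 0 ≤ cross (V i) (V (i + m)) (V k)) ∧
  (∀ k, cross (V i) (V (i + m)) (V k) = 0 → V k ∈ segment ℝ (V i) (V (i + m))) ∧
  ∃ t : ℕ, 0 < t ∧ t < m ∧ 0 < cross (V i) (V (i + m)) (V (i + t))

open Classical in
/-- Flipping the pocket: the subchain strictly between `V i` and `V (i+m)` is replaced by its
mirror image in the line through the lid. -/
noncomputable def flip {n : ℕ} (V : ZMod n → Pt) (i : ZMod n) (m : ℕ) : ZMod n → Pt :=
  fun k => if ∃ t : ℕ, 0 < t ∧ t < m ∧ k = i + t then mirror (V i) (V (i + m)) (V k) else V k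

/-- `FlipSeq m V V'`: the polygon `V'` arises from `V` by a sequence of `m` allowed flips. -/
inductive FlipSeq {n : ℕ} : ℕ → (ZMod n → Pt) → (ZMod n → Pt) → Prop
  | refl (V : ZMod n → Pt) : FlipSeq 0 V V
  | step {m : ℕ} {V V' : ZMod n → Pt} (i : ZMod n) (l : ℕ) : IsPocket V i l →
      IsSimple (flip V i l) → FlipSeq m (flip V i l) V' → FlipSeq (m + 1) V V'

/-- A simple polygon listed counterclockwise is convex: every vertex lies to the left of (or on)
the line through every edge. -/
def IsConvex {n : ℕ} (V : ZMod n → Pt) : Prop :=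
  ∀ i k, 0 ≤ cross (V i) (V (i + 1)) (V k)

/-- There is a sequence of at least `k` flips that convexifies the polygon. -/
def Longest {n : ℕ} (V : ZMod n → Pt) (k : ℕ) : Prop :=
  ∃ m, k ≤ m ∧ ∃ V', FlipSeq m V V' ∧ IsConvex V'

/-- There is a sequence of at most `k` flips that convexifies the polygon. -/
def Shortest {n : ℕ} (V : ZMod n → Pt) (k : ℕ) : Prop :=
  ∃ m, m ≤ k ∧ ∃ V', FlipSeq m V V' ∧ IsConvex V'

end Pool.Agent.Helper20.Flip
end

/- Helper20.Flip.Lang -/
section
/-!
# The decision problem LONGEST as a language, and NP-hardness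
-/

set_option autoImplicit false

namespace Pool.Agent.Helper20.Flip

/-- The number with binary digits `l`, least significant digit first. -/
def val : List Bool → ℕ
  | [] => 0
  | b :: l => (if b then 1 else 0) + 2 * val l

/-- Codes of rational numbers: sign (`true` for minus), binary digits of the numerator, binary
digits of the denominator. -/
abbrev RatCode := Bool × List Bool × List Bool

/-- The rational number (as a real number) with a given code. -/
noncomputable def ratVal (r : RatCode) : ℝ :=
  (if r.1 then -1 else 1) * ((val r.2.1 : ℝ) / (val r.2.2 : ℝ))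

/-- The polygonal curve with a given list of vertices. -/
noncomputable def polygon (P : List (RatCode × RatCode)) : ZMod P.length → Pt :=
  fun k => (P.map fun q => (ratVal q.1, ratVal q.2)).getD k.val (0, 0)

/-- Self-delimiting code of a word: `true` before every letter, `false` at the end. -/
def encBits (l : List Bool) : List Bool := l.flatMap (fun b => [true, b]) ++ [false]

/-- The code of a rational number as a word: sign, numerator, denominator. -/
def encRat (r : RatCode) : List Bool := r.1 :: (encBits r.2.1 ++ encBits r.2.2)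

/-- The word encoding the instance `(P, k)`: for every vertex of `P` the letter `true` and the codes
of its two coordinates, then the letter `false` and the code of `k`. Its length is `7 n + 2 d + 2`
for `n` vertices and altogether `d` binary digits. -/
def encInst (P : List (RatCode × RatCode)) (k : List Bool) : List Bool :=
  P.flatMap (fun q => true :: (encRat q.1 ++ encRat q.2)) ++ false :: encBits k

/-- The decision problem LONGEST: the words encoding a pair `(P, k)`, where `P` is a simple
polygon, given by the list of its vertices in counterclockwise order with rational coordinates in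
binary, `k` is a natural number in binary, and there is a sequence of at least `k` flips that
convexifies `P`. -/
def LONGEST : Set (List Bool) :=
  {w | ∃ (P : List (RatCode × RatCode)) (k : List Bool), w = encInst P k ∧
    (∀ q ∈ P, val q.1.2.2 ≠ 0 ∧ val q.2.2.2 ≠ 0) ∧
    IsSimple (polygon P) ∧ 0 < area2 (polygon P) ∧ Longest (polygon P) (val k)}

/-- The decision problem SHORTEST: the words encoding a pair `(P, k)`, where `P` is a simple
polygon, given by the list of its vertices in counterclockwise order with rational coordinates in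
binary, `k` is a natural number in binary, and there is a sequence of at most `k` flips that
convexifies `P`. -/
def SHORTEST : Set (List Bool) :=
  {w | ∃ (P : List (RatCode × RatCode)) (k : List Bool), w = encInst P k ∧
    (∀ q ∈ P, val q.1.2.2 ≠ 0 ∧ val q.2.2.2 ≠ 0) ∧
    IsSimple (polygon P) ∧ 0 < area2 (polygon P) ∧ Shortest (polygon P) (val k)}

open Turing Computability in
/-- Polynomial time computable functions on binary words. -/
def PTimeFun (f : List Bool → List Bool) : Prop :=
  Nonempty (TM2ComputableInPolyTime (id : List Bool → List Bool) (id : List Bool → List Bool) f)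

open Turing Computability in
/-- The class NP: certificates of polynomial length with a polynomial time verifier. -/
def NPLang (L : Set (List Bool)) : Prop :=
  ∃ (R : List Bool × List Bool → Bool) (p : Polynomial ℕ),
    Nonempty (TM2ComputableInPolyTime
      (encodingProd (encodingList Bool) (encodingList Bool)).encode encodeBool R) ∧
    ∀ w, w ∈ L ↔ ∃ y : List Bool, y.length ≤ p.eval w.length ∧ R (w, y) = true

/-- `L` is NP-hard under polynomial-time many-one reductions. -/
def NPHard (L : Set (List Bool)) : Prop :=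
  ∀ L', NPLang L' → ∃ f, PTimeFun f ∧ ∀ w, w ∈ L' ↔ f w ∈ L

end Pool.Agent.Helper20.Flip
end

/- Helper97.UDP.Defs -/
section
/-!
# Packing unit disks into a simple polygon
-/

set_option autoImplicit false

namespace Pool.Agent.Helper97.UDP

open Pool.Agent.Helper20.Flip

/-- The closed polygonal curve with the given vertices: the union of its edges. -/
def curve {n : ℕ} (V : ZMod n → Pt) : Set Pt := {p | ∃ i, p ∈ segment ℝ (V i) (V (i + 1))}

/-- The closed region bounded by a simple polygon: the points of the boundary curve, and the points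
whose connected component in the complement of the curve is bounded. -/
def region {n : ℕ} (V : ZMod n → Pt) : Set Pt :=
  {p | p ∈ curve V ∨ Bornology.IsBounded (connectedComponentIn (curve V)ᶜ p)}

/-- The closed disk of radius `1` with centre `c`. -/
def disk (c : Pt) : Set Pt := {p | (p.1 - c.1) ^ 2 + (p.2 - c.2) ^ 2 ≤ 1}

/-- `m` disks of radius `1` can be packed into the polygon: there are `m` centres with mutual
distances at least `2` such that the closed disks are contained in the closed region. -/
def Packs {n : ℕ} (V : ZMod n → Pt) (m : ℕ) : Prop :=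
  ∃ c : Fin m → Pt, (∀ i, disk (c i) ⊆ region V) ∧
    ∀ i j, i ≠ j → 4 ≤ ((c i).1 - (c j).1) ^ 2 + ((c i).2 - (c j).2) ^ 2

/-- The decision problem of packing unit disks into a simple polygon of the class `K`: the words
encoding a pair `(P, m)`, where `P` is the list of the vertices of a simple polygon in `K`, with
rational coordinates in binary, and the number `m > 0` of disks is written in unary (one letter for
every disk), such that `m` unit disks can be packed into `P`. -/
def PACKING (K : ∀ n : ℕ, (ZMod n → Pt) → Prop) : Set (List Bool) :=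
  {w | ∃ (P : List (RatCode × RatCode)) (m : ℕ), w = encInst P (List.replicate m true) ∧ 0 < m ∧
    (∀ q ∈ P, val q.1.2.2 ≠ 0 ∧ val q.2.2.2 ≠ 0) ∧
    IsSimple (polygon P) ∧ K P.length (polygon P) ∧ Packs (polygon P) m}

/-- Special containers: every edge is horizontal or vertical, every vertical line meets the region
in an interval (so the polygon is `x`-monotone), the region is symmetric about the `x`-axis and
is contained in the strip of height `32/7`. -/
def Special {n : ℕ} (V : ZMod n → Pt) : Prop :=
  (∀ i, (V i).1 = (V (i + 1)).1 ∨ (V i).2 = (V (i + 1)).2) ∧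
  (∀ x y z t : ℝ, (x, y) ∈ region V → (x, t) ∈ region V → y ≤ z → z ≤ t → (x, z) ∈ region V) ∧
  (∀ x y : ℝ, (x, y) ∈ region V → (x, -y) ∈ region V) ∧
  ∀ p ∈ region V, |p.2| ≤ 16 / 7

end Pool.Agent.Helper97.UDP
end

/- Helper94.UR.Defs -/
section
/-!
# The existential theory of the reals, and problems with polynomially many guessed bits and a
predicate which is in `∃ℝ` and in `∀ℝ`
-/

set_option autoImplicit false

namespace Pool.Agent.Helper94.UR

open Pool.Agent.Helper20.Flip

/-- Terms in the variables `x 0, x 1, x 2, …`: polynomials with integer coefficients. -/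
inductive Tm : Type
  | var (i : ℕ)
  | zero
  | one
  | add (s t : Tm)
  | neg (t : Tm)
  | mul (s t : Tm)

/-- The value of a term for the real values `v` of the variables. -/
def Tm.eval (v : ℕ → ℝ) : Tm → ℝ
  | .var i => v i
  | .zero => 0
  | .one => 1
  | .add s t => s.eval v + t.eval v
  | .neg t => -t.eval v
  | .mul s t => s.eval v * t.eval v

/-- Quantifier-free formulas: Boolean combinations of polynomial equations and strict
inequalities with integer coefficients. -/
inductive Fm : Type
  | eq (s t : Tm)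
  | lt (s t : Tm)
  | not (φ : Fm)
  | and (φ ψ : Fm)
  | or (φ ψ : Fm)

/-- The formula is true for the real values `v` of the variables. -/
def Fm.Holds (v : ℕ → ℝ) : Fm → Prop
  | .eq s t => s.eval v = t.eval v
  | .lt s t => s.eval v < t.eval v
  | .not φ => ¬ φ.Holds v
  | .and φ ψ => φ.Holds v ∧ ψ.Holds v
  | .or φ ψ => φ.Holds v ∨ ψ.Holds v

/-- The word encoding a term, in prefix notation; the indices of the variables are in unary. -/
def Tm.code : Tm → List Bool
  | .var i => [false, false, false] ++ (List.replicate i true ++ [false])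
  | .zero => [false, false, true]
  | .one => [false, true, false]
  | .add s t => [false, true, true] ++ (s.code ++ t.code)
  | .neg t => [true, false, false] ++ t.code
  | .mul s t => [true, false, true] ++ (s.code ++ t.code)

/-- The word encoding a formula, in prefix notation. -/
def Fm.code : Fm → List Bool
  | .eq s t => [false, false, false] ++ (s.code ++ t.code)
  | .lt s t => [false, false, true] ++ (s.code ++ t.code)
  | .not φ => [false, true, false] ++ φ.code
  | .and φ ψ => [false, true, true] ++ (φ.code ++ ψ.code)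
  | .or φ ψ => [true, false, false] ++ (φ.code ++ ψ.code)

/-- The existential theory of the reals: the words encoding a quantifier-free formula `φ` such
that the sentence `∃ x 0, ∃ x 1, …, φ` is true over the real numbers. -/
def ETR : Set (List Bool) := {w | ∃ φ : Fm, w = φ.code ∧ ∃ v : ℕ → ℝ, φ.Holds v}

/-- The complexity class `∃ℝ`: the problems that reduce to `ETR` by polynomial-time many-one
reductions. -/
def InER (A : Set (List Bool)) : Prop := ∃ f, PTimeFun f ∧ ∀ w, w ∈ A ↔ f w ∈ ETR

/-- `∃ℝ`-hardness under polynomial-time many-one reductions. -/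
def ERHard (A : Set (List Bool)) : Prop :=
  ∀ B, InER B → ∃ f, PTimeFun f ∧ ∀ w, w ∈ B ↔ f w ∈ A

/-- The class `∃ℝ ∩ ∀ℝ`: the problems which are in `∃ℝ` and whose complements are in `∃ℝ`. -/
def InBoth (A : Set (List Bool)) : Prop := InER A ∧ InER Aᶜ

/-- The word encoding a pair of words. -/
def pair (w y : List Bool) : List Bool := encBits w ++ y

/-- Polynomially many guessed bits before a predicate of the class `C`: the problems `A` for which
there are a problem `R` in `C` and a polynomial `p` such that `w ∈ A` iff there is a word `y` with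
at most `p |w|` letters such that the pair `(w, y)` is in `R`. -/
def InN (C : Set (List Bool) → Prop) (A : Set (List Bool)) : Prop :=
  ∃ (R : Set (List Bool)) (p : Polynomial ℕ), C R ∧
    ∀ w, w ∈ A ↔ ∃ y : List Bool, y.length ≤ p.eval w.length ∧ pair w y ∈ R

/-- Unit-disk packing: can `m` disks of radius `1` be packed into a given simple polygon with
rational vertices? -/
def UDP : Set (List Bool) := Pool.Agent.Helper97.UDP.PACKING fun _ _ => True

end Pool.Agent.Helper94.UR
end

/- Helper94.UR.Inj -/
section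
/-!
# Unique readability
-/

set_option autoImplicit false

namespace Pool.Agent.Helper94.UR

theorem unary_inj : ∀ (i j : ℕ) (r r' : List Bool),
    List.replicate i true ++ [false] ++ r = List.replicate j true ++ [false] ++ r' →
      i = j ∧ r = r' := by
  intro i
  induction i with
  | zero =>
    intro j r r' h
    cases j with
    | zero => exact ⟨rfl, by simpa using h⟩
    | succ j => simp [List.replicate_succ] at h
  | succ i ih =>
    intro j r r' h
    cases j with
    | zero => simp [List.replicate_succ] at h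
    | succ j =>
      have h1 : List.replicate i true ++ [false] ++ r = List.replicate j true ++ [false] ++ r' := by
        simpa [List.replicate_succ] using h
      obtain ⟨h2, h3⟩ := ih j r r' h1
      exact ⟨by rw [h2], h3⟩

theorem Tm.code_append_inj : ∀ (s t : Tm) (r r' : List Bool), s.code ++ r = t.code ++ r' →
    s = t ∧ r = r' := by
  intro s
  induction s with
  | var i =>
    intro t r r' h
    cases t with
    | var j =>
      simp only [Tm.code, List.cons_append, List.nil_append, List.cons.injEq, true_and] at h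
      obtain ⟨h1, h2⟩ := unary_inj i j r r' h
      exact ⟨by rw [h1], h2⟩
    | _ => simp [Tm.code] at h
  | zero =>
    intro t r r' h
    cases t with
    | zero => exact ⟨rfl, by simpa [Tm.code] using h⟩
    | _ => simp [Tm.code] at h
  | one =>
    intro t r r' h
    cases t with
    | one => exact ⟨rfl, by simpa [Tm.code] using h⟩
    | _ => simp [Tm.code] at h
  | add s1 s2 ih1 ih2 =>
    intro t r r' h
    cases t with
    | add t1 t2 =>
      simp only [Tm.code, List.cons_append, List.nil_append, List.cons.injEq, true_and,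
        List.append_assoc] at h
      obtain ⟨h1, h2⟩ := ih1 _ _ _ h
      obtain ⟨h3, h4⟩ := ih2 _ _ _ h2
      exact ⟨by rw [h1, h3], h4⟩
    | _ => simp [Tm.code] at h
  | neg s ih =>
    intro t r r' h
    cases t with
    | neg t =>
      simp only [Tm.code, List.cons_append, List.nil_append, List.cons.injEq, true_and] at h
      obtain ⟨h1, h2⟩ := ih _ _ _ h
      exact ⟨by rw [h1], h2⟩
    | _ => simp [Tm.code] at h
  | mul s1 s2 ih1 ih2 =>
    intro t r r' h
    cases t with
    | mul t1 t2 =>
      simp only [Tm.code, List.cons_append, List.nil_append, List.cons.injEq, true_and,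
        List.append_assoc] at h
      obtain ⟨h1, h2⟩ := ih1 _ _ _ h
      obtain ⟨h3, h4⟩ := ih2 _ _ _ h2
      exact ⟨by rw [h1, h3], h4⟩
    | _ => simp [Tm.code] at h

theorem Tm.code_injective : Function.Injective Tm.code := by
  intro s t h
  exact (Tm.code_append_inj s t [] [] (by rw [h])).1

theorem Fm.code_append_inj : ∀ (φ ψ : Fm) (r r' : List Bool), φ.code ++ r = ψ.code ++ r' →
    φ = ψ ∧ r = r' := by
  intro φ
  induction φ with
  | eq s1 s2 =>
    intro ψ r r' h
    cases ψ with
    | eq t1 t2 =>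
      simp only [Fm.code, List.cons_append, List.nil_append, List.cons.injEq, true_and,
        List.append_assoc] at h
      obtain ⟨h1, h2⟩ := Tm.code_append_inj _ _ _ _ h
      obtain ⟨h3, h4⟩ := Tm.code_append_inj _ _ _ _ h2
      exact ⟨by rw [h1, h3], h4⟩
    | _ => simp [Fm.code] at h
  | lt s1 s2 =>
    intro ψ r r' h
    cases ψ with
    | lt t1 t2 =>
      simp only [Fm.code, List.cons_append, List.nil_append, List.cons.injEq, true_and,
        List.append_assoc] at h
      obtain ⟨h1, h2⟩ := Tm.code_append_inj _ _ _ _ h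
      obtain ⟨h3, h4⟩ := Tm.code_append_inj _ _ _ _ h2
      exact ⟨by rw [h1, h3], h4⟩
    | _ => simp [Fm.code] at h
  | not φ ih =>
    intro ψ r r' h
    cases ψ with
    | not ψ =>
      simp only [Fm.code, List.cons_append, List.nil_append, List.cons.injEq, true_and] at h
      obtain ⟨h1, h2⟩ := ih _ _ _ h
      exact ⟨by rw [h1], h2⟩
    | _ => simp [Fm.code] at h
  | and φ1 φ2 ih1 ih2 =>
    intro ψ r r' h
    cases ψ with
    | and ψ1 ψ2 =>
      simp only [Fm.code, List.cons_append, List.nil_append, List.cons.injEq, true_and,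
        List.append_assoc] at h
      obtain ⟨h1, h2⟩ := ih1 _ _ _ h
      obtain ⟨h3, h4⟩ := ih2 _ _ _ h2
      exact ⟨by rw [h1, h3], h4⟩
    | _ => simp [Fm.code] at h
  | or φ1 φ2 ih1 ih2 =>
    intro ψ r r' h
    cases ψ with
    | or ψ1 ψ2 =>
      simp only [Fm.code, List.cons_append, List.nil_append, List.cons.injEq, true_and,
        List.append_assoc] at h
      obtain ⟨h1, h2⟩ := ih1 _ _ _ h
      obtain ⟨h3, h4⟩ := ih2 _ _ _ h2
      exact ⟨by rw [h1, h3], h4⟩
    | _ => simp [Fm.code] at h

theorem Fm.code_injective : Function.Injective Fm.code := by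
  intro s t h
  exact (Fm.code_append_inj s t [] [] (by rw [h])).1

theorem mem_ETR (φ : Fm) : φ.code ∈ ETR ↔ ∃ v : ℕ → ℝ, φ.Holds v := by
  constructor
  · rintro ⟨ψ, h, hv⟩
    rw [Fm.code_injective h]
    exact hv
  · intro h
    exact ⟨φ, rfl, h⟩

end Pool.Agent.Helper94.UR
end

/- Helper97.UDP.Tangent -/
section
/-!
# The extrapolation principle for packings of unit disks
-/

set_option autoImplicit false

namespace Pool.Agent.Helper97.UDP

open Pool.Agent.Helper20.Flip Set Topology

/-- The packings of `m` unit disks (given by their centres) into the closed region bounded by a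
polygon. -/
def Packings {n : ℕ} (V : ZMod n → Pt) (m : ℕ) : Set (Fin m → Pt) :=
  {c | (∀ i, disk (c i) ⊆ region V) ∧
    ∀ i j, i ≠ j → 4 ≤ ((c i).1 - (c j).1) ^ 2 + ((c i).2 - (c j).2) ^ 2}

/-! ### the general principle -/

section general

variable {E : Type*} [AddCommGroup E] [Module ℝ E] [TopologicalSpace E] [IsTopologicalAddGroup E]
  [ContinuousSMul ℝ E]

theorem extrapolate {ι : Type*} [Finite ι] {W : ι → Set E} (hWo : ∀ i, IsOpen (W i))
    (hWc : ∀ i, Convex ℝ (W i)) {x y : E} (hx : ∀ i, x ∉ W i)
    (hxy : ∀ i, x ∈ closure (W i) → y ∈ closure (W i)) :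
    ∃ δ > 0, ∀ ε : ℝ, 0 < ε → ε < δ → ∀ i, x + ε • (x - y) ∉ W i := by
  have key : ∀ᶠ ε : ℝ in 𝓝[>] 0, ∀ i, x + ε • (x - y) ∉ W i := by
    rw [Filter.eventually_all]
    intro i
    by_cases hi : x ∈ closure (W i)
    · filter_upwards [self_mem_nhdsWithin] with ε hε
      have hε : 0 < ε := hε
      intro hz
      apply hx i
      have h1 := (hWc i).openSegment_interior_closure_subset_interior
        (by rw [(hWo i).interior_eq]; exact hz) (hxy i hi)
      rw [(hWo i).interior_eq] at h1
      apply h1
      refine ⟨1 / (1 + ε), ε / (1 + ε), by positivity, by positivity, ?_, ?_⟩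
      · field_simp
      · rw [smul_add, smul_sub, smul_sub, smul_smul, smul_smul]
        have h2 : 1 / (1 + ε) * ε = ε / (1 + ε) := by ring
        rw [h2]
        have h3 : (1 / (1 + ε)) • x + ((ε / (1 + ε)) • x - (ε / (1 + ε)) • y) +
            (ε / (1 + ε)) • y = (1 / (1 + ε) + ε / (1 + ε)) • x := by
          rw [add_smul]; abel
        rw [h3]
        have h4 : 1 / (1 + ε) + ε / (1 + ε) = 1 := by field_simp
        rw [h4, one_smul]
    · have hcont : Filter.Tendsto (fun ε : ℝ => x + ε • (x - y)) (𝓝[>] 0) (𝓝 x) := by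
        have h1 : ContinuousAt (fun ε : ℝ => x + ε • (x - y)) 0 := by fun_prop
        have h2 := h1.tendsto
        simp only [zero_smul, add_zero] at h2
        exact h2.mono_left nhdsWithin_le_nhds
      have hopen : (closure (W i))ᶜ ∈ 𝓝 x := isClosed_closure.isOpen_compl.mem_nhds hi
      filter_upwards [hcont hopen] with ε hε hz
      exact hε (subset_closure hz)
  rw [eventually_nhdsWithin_iff, Metric.eventually_nhds_iff] at key
  obtain ⟨δ, hδ, h⟩ := key
  refine ⟨δ, hδ, fun ε h1 h2 => h ?_ h1⟩
  rw [Real.dist_eq, sub_zero, abs_of_pos h1]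
  exact h2

/-- A set which is the complement of finitely many open convex sets: among sufficiently many points
of an affine image there are two such that the line through them can be extended. -/
theorem extrapolate_image {ι : Type*} [Finite ι] {W : ι → Set E} (hWo : ∀ i, IsOpen (W i))
    (hWc : ∀ i, Convex ℝ (W i)) {F : Set E} (hF : F = {x | ∀ i, x ∉ W i})
    {E' : Type*} [AddCommGroup E'] [Module ℝ E'] (π : E →ᵃ[ℝ] E')
    (S : Finset E') (hS : 2 ^ Nat.card ι < S.card) (hSF : (S : Set E') ⊆ π '' F) :
      ∃ a ∈ S, ∃ b ∈ S, a ≠ b ∧ ∃ δ > 0, ∀ ε : ℝ, 0 < ε → ε < δ → a + ε • (a - b) ∈ π '' F := by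
  classical
  have : Fintype ι := Fintype.ofFinite ι
  choose! X hX using fun a (ha : a ∈ S) => hSF ha
  obtain ⟨a, ha, b, hb, hab, he⟩ := Finset.exists_ne_map_eq_of_card_lt_of_maps_to
    (s := S) (t := (Finset.univ : Finset (Set ι))) (f := fun a => {i | X a ∈ closure (W i)})
    (by rw [Finset.card_univ, Fintype.card_set, ← Nat.card_eq_fintype_card]; exact hS)
    (fun a _ => Finset.mem_univ _)
  refine ⟨a, ha, b, hb, hab, ?_⟩
  have hXa := (hX a ha).1
  rw [hF] at hXa
  obtain ⟨δ, hδ, h⟩ := extrapolate hWo hWc hXa (y := X b) (by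
    intro i hi
    have h1 : i ∈ {i | X a ∈ closure (W i)} := hi
    rw [he] at h1
    exact h1)
  refine ⟨δ, hδ, fun ε h1 h2 => ⟨X a + ε • (X a - X b), ?_, ?_⟩⟩
  · rw [hF]
    exact h ε h1 h2
  · have h3 : X a + ε • (X a - X b) = (ε • (X a - X b)) +ᵥ X a := by
      rw [vadd_eq_add, add_comm]
    have h4 : π.linear (X a - X b) = π (X a) - π (X b) := by
      have := π.linearMap_vsub (X a) (X b)
      rwa [vsub_eq_sub, vsub_eq_sub] at this
    rw [h3, π.map_vadd, map_smul, h4, (hX a ha).2, (hX b hb).2, vadd_eq_add, add_comm]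

end general

/-! ### the complement of the region -/

theorem isClosed_curve {n : ℕ} [NeZero n] (V : ZMod n → Pt) : IsClosed (curve V) := by
  have h1 : curve V = ⋃ i, segment ℝ (V i) (V (i + 1)) := by
    ext p; simp [curve]
  rw [h1]
  refine isClosed_iUnion_of_finite fun i => ?_
  rw [← convexHull_pair]
  have h2 : ({V i, V (i + 1)} : Set Pt).Finite := Set.toFinite _
  exact (h2.isCompact_convexHull (𝕜 := ℝ)).isClosed

theorem same_comp {n : ℕ} {V : ZMod n → Pt} {s : Set Pt} (hs : IsPreconnected s)
    (hsC : s ⊆ (curve V)ᶜ) {p q : Pt} (hp : p ∈ s) (hq : q ∈ s) (h : p ∈ region V) :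
    q ∈ region V := by
  rcases h with h | h
  · exact absurd h (hsC hp)
  · right
    have h1 := hs.subset_connectedComponentIn hp hsC hq
    rw [← connectedComponentIn_eq h1]
    exact h

theorem isOpen_compl_region {n : ℕ} [NeZero n] (V : ZMod n → Pt) : IsOpen (region V)ᶜ := by
  rw [isOpen_iff_mem_nhds]
  intro p hp
  have hpC : p ∉ curve V := fun h => hp (Or.inl h)
  have hopen := (isClosed_curve V).isOpen_compl.connectedComponentIn (x := p)
  refine Filter.mem_of_superset (hopen.mem_nhds (mem_connectedComponentIn hpC)) ?_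
  intro q hq hqR
  apply hp
  exact same_comp isPreconnected_connectedComponentIn (connectedComponentIn_subset _ _) hq
    (mem_connectedComponentIn hpC) hqR

/-- the linear function of an edge -/
def edgeFun {n : ℕ} (V : ZMod n → Pt) (i : ZMod n) (q : Pt) : ℝ :=
  ((V (i + 1)).1 - (V i).1) * (q.2 - (V i).2) - ((V (i + 1)).2 - (V i).2) * (q.1 - (V i).1)

theorem edgeFun_eq_zero {n : ℕ} {V : ZMod n → Pt} {i : ZMod n} {q : Pt}
    (hq : q ∈ segment ℝ (V i) (V (i + 1))) : edgeFun V i q = 0 := by
  obtain ⟨a, b, ha, hb, hab, rfl⟩ := hq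
  unfold edgeFun
  simp only [Prod.fst_add, Prod.snd_add, Prod.smul_fst, Prod.smul_snd, smul_eq_mul]
  have : a = 1 - b := by linarith
  subst this
  ring

/-- the cells of the arrangement of the lines -/
def cell {n : ℕ} (V : ZMod n → Pt) (σ : ZMod n → Prop) : Set Pt :=
  {q | ∀ i, (σ i → 0 < edgeFun V i q) ∧ (¬ σ i → edgeFun V i q < 0)}

theorem convex_cell {n : ℕ} (V : ZMod n → Pt) (σ : ZMod n → Prop) : Convex ℝ (cell V σ) := by
  intro p hp q hq a b ha hb hab i
  have he : edgeFun V i (a • p + b • q) = a * edgeFun V i p + b * edgeFun V i q := by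
    unfold edgeFun
    simp only [Prod.fst_add, Prod.snd_add, Prod.smul_fst, Prod.smul_snd, smul_eq_mul]
    have : a = 1 - b := by linarith
    subst this
    ring
  rw [he]
  obtain ⟨h1, h2⟩ := hp i
  obtain ⟨h3, h4⟩ := hq i
  constructor
  · intro h
    rcases eq_or_lt_of_le ha with h0 | h0
    · have : b = 1 := by linarith
      subst this
      rw [← h0]
      simpa using h3 h
    · have := mul_pos h0 (h1 h)
      have := mul_nonneg hb (h3 h).le
      linarith
  · intro h
    rcases eq_or_lt_of_le ha with h0 | h0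
    · have : b = 1 := by linarith
      subst this
      rw [← h0]
      simpa using h4 h
    · have := mul_neg_of_pos_of_neg h0 (h2 h)
      have := mul_nonpos_of_nonneg_of_nonpos hb (h4 h).le
      linarith

theorem cell_subset {n : ℕ} (V : ZMod n → Pt) (σ : ZMod n → Prop) : cell V σ ⊆ (curve V)ᶜ := by
  rintro q hq ⟨i, hi⟩
  have h1 := edgeFun_eq_zero hi
  obtain ⟨h2, h3⟩ := hq i
  by_cases h : σ i
  · exact absurd h1 (h2 h).ne'
  · exact absurd h1 (h3 h).ne

theorem dense_generic {n : ℕ} [NeZero n] {V : ZMod n → Pt} (hV : ∀ i, V i ≠ V (i + 1)) :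
    Dense {q : Pt | ∀ i, edgeFun V i q ≠ 0} := by
  have h1 : {q : Pt | ∀ i, edgeFun V i q ≠ 0} = ⋂ i, {q : Pt | edgeFun V i q ≠ 0} := by
    ext q; simp
  have hc : ∀ i, Continuous (edgeFun V i) := by
    intro i
    unfold edgeFun
    fun_prop
  rw [h1]
  refine dense_iInter_of_isOpen (fun i => isOpen_ne_fun (hc i) continuous_const) ?_
  intro i q
  rw [Metric.mem_closure_iff]
  intro r hr
  -- move perpendicular to the line
  set u : ℝ := (V (i + 1)).1 - (V i).1 with hu
  set v : ℝ := (V (i + 1)).2 - (V i).2 with hv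
  have huv : 0 < u ^ 2 + v ^ 2 := by
    rcases eq_or_ne u 0 with h | h
    · rcases eq_or_ne v 0 with h' | h'
      · exact absurd (Prod.ext (by linarith) (by linarith)) (hV i)
      · positivity
    · positivity
  by_cases hq : edgeFun V i q = 0
  · obtain ⟨t, ht, ht'⟩ : ∃ t : ℝ, 0 < t ∧ t * (|u| + |v|) < r := by
      refine ⟨r / (2 * (|u| + |v| + 1)), by positivity, ?_⟩
      have h0 : 0 ≤ |u| + |v| := by positivity
      rw [div_mul_eq_mul_div, div_lt_iff₀ (by positivity)]
      nlinarith
    refine ⟨(q.1 - t * v, q.2 + t * u), ?_, ?_⟩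
    · show edgeFun V i _ ≠ 0
      have : edgeFun V i (q.1 - t * v, q.2 + t * u) = edgeFun V i q + t * (u ^ 2 + v ^ 2) := by
        unfold edgeFun
        rw [← hu, ← hv]
        ring
      rw [this, hq, zero_add]
      positivity
    · rw [Prod.dist_eq, max_lt_iff]
      have hb : ∀ z : ℝ, |z| ≤ |u| + |v| → |t * z| < r := by
        intro z hz
        rw [abs_mul, abs_of_pos ht]
        exact lt_of_le_of_lt (mul_le_mul_of_nonneg_left hz ht.le) ht'
      constructor
      · rw [Real.dist_eq]
        have := hb v (by linarith [abs_nonneg u])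
        simpa using this
      · rw [Real.dist_eq]
        have := hb u (by linarith [abs_nonneg v])
        rw [show q.2 - (q.2 + t * u) = -(t * u) by ring, abs_neg]
        exact this
  · exact ⟨q, hq, by simpa using hr⟩

/-- the centres at distance less than one from a set -/
def nbhd (O : Set Pt) : Set Pt := {c | ∃ q ∈ O, (q.1 - c.1) ^ 2 + (q.2 - c.2) ^ 2 < 1}

theorem isOpen_nbhd (O : Set Pt) : IsOpen (nbhd O) := by
  have h1 : nbhd O = ⋃ q ∈ O, {c : Pt | (q.1 - c.1) ^ 2 + (q.2 - c.2) ^ 2 < 1} := by
    ext c; simp [nbhd]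
  rw [h1]
  refine isOpen_biUnion fun q _ => isOpen_lt (by fun_prop) continuous_const

theorem sq_comb {a b x x' y y' : ℝ} (ha : 0 ≤ a) (hb : 0 ≤ b) (hab : a + b = 1) {r : ℝ}
    (h : x ^ 2 + y ^ 2 < r) (h' : x' ^ 2 + y' ^ 2 < r) :
    (a * x + b * x') ^ 2 + (a * y + b * y') ^ 2 < r := by
  have e : a = 1 - b := by linarith
  have h1 : (a * x + b * x') ^ 2 + (a * y + b * y') ^ 2 =
      a * (x ^ 2 + y ^ 2) + b * (x' ^ 2 + y' ^ 2) - a * b * ((x - x') ^ 2 + (y - y') ^ 2) := by
    subst e; ring
  have h2 : 0 ≤ a * b * ((x - x') ^ 2 + (y - y') ^ 2) := by positivity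
  rcases eq_or_lt_of_le ha with h0 | h0
  · have hb1 : b = 1 := by linarith
    subst hb1
    rw [← h0] at h1 ⊢
    nlinarith
  · nlinarith [mul_lt_mul_of_pos_left h h0, mul_le_mul_of_nonneg_left h'.le hb]

theorem convex_nbhd {O : Set Pt} (hO : Convex ℝ O) : Convex ℝ (nbhd O) := by
  rintro c ⟨q, hq, h⟩ c' ⟨q', hq', h'⟩ a b ha hb hab
  refine ⟨a • q + b • q', hO hq hq' ha hb hab, ?_⟩
  simp only [Prod.fst_add, Prod.snd_add, Prod.smul_fst, Prod.smul_snd, smul_eq_mul]
  have := sq_comb ha hb hab h h'
  have e1 : a * q.1 + b * q'.1 - (a * c.1 + b * c'.1) = a * (q.1 - c.1) + b * (q'.1 - c'.1) := by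
    ring
  have e2 : a * q.2 + b * q'.2 - (a * c.2 + b * c'.2) = a * (q.2 - c.2) + b * (q'.2 - c'.2) := by
    ring
  rw [e1, e2]
  exact this

/-- the disk is contained in the region iff its centre is outside of finitely many convex sets -/
theorem disk_subset_iff {n : ℕ} [NeZero n] {V : ZMod n → Pt} (hV : ∀ i, V i ≠ V (i + 1)) (c : Pt) :
    disk c ⊆ region V ↔ ∀ σ : {σ : ZMod n → Prop // cell V σ ⊆ (region V)ᶜ}, c ∉ nbhd (cell V σ.1) := by
  constructor
  · rintro h ⟨σ, hσ⟩ ⟨q, hq, hqc⟩
    exact hσ hq (h (show q ∈ disk c from hqc.le))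
  · intro h q hq
    by_contra hqR
    -- move towards the centre
    have hO := isOpen_compl_region V
    have hU : IsOpen ((region V)ᶜ ∩ {p : Pt | (p.1 - c.1) ^ 2 + (p.2 - c.2) ^ 2 < 1}) :=
      hO.inter (isOpen_lt (by fun_prop) continuous_const)
    have hne : ((region V)ᶜ ∩ {p : Pt | (p.1 - c.1) ^ 2 + (p.2 - c.2) ^ 2 < 1}).Nonempty := by
      have hq' : (q.1 - c.1) ^ 2 + (q.2 - c.2) ^ 2 ≤ 1 := hq
      have hcont : Filter.Tendsto (fun t : ℝ => ((q.1 + t * (c.1 - q.1), q.2 + t * (c.2 - q.2)) : Pt))
          (𝓝[>] 0) (𝓝 q) := by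
        have h1 : ContinuousAt (fun t : ℝ =>
            ((q.1 + t * (c.1 - q.1), q.2 + t * (c.2 - q.2)) : Pt)) 0 := by fun_prop
        have h2 := h1.tendsto
        simp only [zero_mul, add_zero] at h2
        exact h2.mono_left nhdsWithin_le_nhds
      have h3 : ∀ᶠ t : ℝ in 𝓝[>] 0,
          ((q.1 + t * (c.1 - q.1), q.2 + t * (c.2 - q.2)) : Pt) ∈ (region V)ᶜ :=
        hcont.eventually (hO.mem_nhds hqR)
      have h4 : ∀ᶠ t : ℝ in 𝓝[>] 0, t < 1 :=
        (eventually_lt_nhds one_pos).filter_mono nhdsWithin_le_nhds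
      have h5 : ∀ᶠ t : ℝ in 𝓝[>] 0, 0 < t := self_mem_nhdsWithin
      obtain ⟨t, ht1, ht2, ht3⟩ := (h3.and (h4.and h5)).exists
      refine ⟨_, ht1, ?_⟩
      show (q.1 + t * (c.1 - q.1) - c.1) ^ 2 + (q.2 + t * (c.2 - q.2) - c.2) ^ 2 < 1
      have e1 : (q.1 + t * (c.1 - q.1) - c.1) ^ 2 + (q.2 + t * (c.2 - q.2) - c.2) ^ 2 =
          (1 - t) ^ 2 * ((q.1 - c.1) ^ 2 + (q.2 - c.2) ^ 2) := by ring
      rw [e1]
      have h6 : (1 - t) ^ 2 < 1 := by nlinarith
      have h7 : 0 ≤ (q.1 - c.1) ^ 2 + (q.2 - c.2) ^ 2 := by positivity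
      nlinarith [sq_nonneg (1 - t)]
    obtain ⟨p, hp, hpg⟩ := (dense_generic hV).inter_open_nonempty _ hU hne
    set σ : ZMod n → Prop := fun i => 0 < edgeFun V i p with hσ
    have hpσ : p ∈ cell V σ := by
      intro i
      refine ⟨fun h => h, fun h => ?_⟩
      exact lt_of_le_of_ne (not_lt.1 h) (hpg i)
    have hσR : cell V σ ⊆ (region V)ᶜ := by
      intro q' hq' hq'R
      exact hp.1 (same_comp (convex_cell V σ).isPreconnected (cell_subset V σ) hq' hpσ hq'R)
    exact h ⟨σ, hσR⟩ ⟨p, hpσ, hp.2⟩

/-- the packings are the complement of finitely many open convex sets -/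
theorem packings_eq {n : ℕ} [NeZero n] {V : ZMod n → Pt} (hV : ∀ i, V i ≠ V (i + 1)) (m : ℕ) :
    Packings V m = {c | ∀ k : (Fin m × {σ : ZMod n → Prop // cell V σ ⊆ (region V)ᶜ}) ⊕
      {p : Fin m × Fin m // p.1 ≠ p.2},
      c ∉ Sum.elim (fun k => {c : Fin m → Pt | c k.1 ∈ nbhd (cell V k.2.1)})
        (fun k => {c : Fin m → Pt | ((c k.1.1).1 - (c k.1.2).1) ^ 2 +
          ((c k.1.1).2 - (c k.1.2).2) ^ 2 < 4}) k} := by
  ext c
  constructor
  · rintro ⟨h1, h2⟩ (⟨i, σ⟩ | ⟨⟨i, j⟩, hij⟩)
    · exact (disk_subset_iff hV (c i)).1 (h1 i) σ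
    · exact not_lt.2 (h2 i j hij)
  · intro h
    refine ⟨fun i => (disk_subset_iff hV (c i)).2 fun σ => h (Sum.inl (i, σ)), fun i j hij => ?_⟩
    exact not_lt.1 (h (Sum.inr ⟨(i, j), hij⟩))

theorem card_index (n m : ℕ) (P : (ZMod n → Prop) → Prop) [NeZero n] :
    Nat.card ((Fin m × {σ : ZMod n → Prop // P σ}) ⊕ {p : Fin m × Fin m // p.1 ≠ p.2}) ≤
      m * 2 ^ n + m ^ 2 := by
  classical
  rw [Nat.card_sum, Nat.card_prod, Nat.card_eq_fintype_card (α := Fin m), Fintype.card_fin]
  have h1 : Nat.card {σ : ZMod n → Prop // P σ} ≤ 2 ^ n := by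
    refine (Nat.card_le_card_of_injective _ Subtype.val_injective).trans ?_
    rw [Nat.card_eq_fintype_card, Fintype.card_fun, ZMod.card, Fintype.card_prop]
  have h2 : Nat.card {p : Fin m × Fin m // p.1 ≠ p.2} ≤ m ^ 2 := by
    refine (Nat.card_le_card_of_injective _ Subtype.val_injective).trans ?_
    rw [Nat.card_eq_fintype_card, Fintype.card_prod, Fintype.card_fin, sq]
  exact add_le_add (Nat.mul_le_mul_left m h1) h2

theorem packings_extrapolate {n : ℕ} {V : ZMod n → Pt} (hV : IsSimple V) (m : ℕ)
    {E' : Type*} [AddCommGroup E'] [Module ℝ E'] (π : (Fin m → Pt) →ᵃ[ℝ] E') (S : Finset E')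
    (hS : 2 ^ (m * 2 ^ n + m ^ 2) < S.card) (hSF : (S : Set E') ⊆ π '' Packings V m) :
      ∃ a ∈ S, ∃ b ∈ S, a ≠ b ∧ ∃ δ > 0, ∀ ε : ℝ, 0 < ε → ε < δ →
        a + ε • (a - b) ∈ π '' Packings V m := by
  classical
  have : NeZero n := ⟨by have := hV.1; omega⟩
  refine extrapolate_image ?_ ?_ (packings_eq hV.2.1 m) π S
    (lt_of_le_of_lt (Nat.pow_le_pow_right two_pos (card_index n m _)) hS) hSF
  · rintro (⟨i, σ⟩ | ⟨⟨i, j⟩, hij⟩)
    · exact (isOpen_nbhd _).preimage (continuous_apply i)
    · simp only [Sum.elim_inr]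
      exact isOpen_lt (by fun_prop) continuous_const
  · rintro (⟨i, σ⟩ | ⟨⟨i, j⟩, hij⟩)
    · intro c hc c' hc' a b ha hb hab
      exact convex_nbhd (convex_cell V σ.1) hc hc' ha hb hab
    · intro c hc c' hc' a b ha hb hab
      have := sq_comb ha hb hab hc hc'
      simp only [Sum.elim_inr, Set.mem_ofPred_eq, Pi.add_apply, Pi.smul_apply, Prod.fst_add,
        Prod.snd_add, Prod.smul_fst, Prod.smul_snd, smul_eq_mul]
      have e1 : a * (c i).1 + b * (c' i).1 - (a * (c j).1 + b * (c' j).1) =
          a * ((c i).1 - (c j).1) + b * ((c' i).1 - (c' j).1) := by ring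
      have e2 : a * (c i).2 + b * (c' i).2 - (a * (c j).2 + b * (c' j).2) =
          a * ((c i).2 - (c j).2) + b * ((c' i).2 - (c' j).2) := by ring
      rw [e1, e2]
      exact this

end Pool.Agent.Helper97.UDP
end

/- Helper85.AG.Geo -/
section
/-!
# Plane geometry for triangulations: orientation, triangles, exit from a triangle
-/

namespace Helper85.AG

/-- Points of the plane. -/
abbrev Pt := ℝ × ℝ

/-- Twice the signed area of the triangle `a b c`. -/
def crs (a b c : Pt) : ℝ := (b.1 - a.1) * (c.2 - a.2) - (b.2 - a.2) * (c.1 - a.1)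

theorem crs_self_left (a b : Pt) : crs a b a = 0 := by simp [crs]

theorem crs_self_right (a b : Pt) : crs a b b = 0 := by simp [crs]; ring

theorem crs_self_same (a b : Pt) : crs a a b = 0 := by simp [crs]

theorem crs_rot (a b c : Pt) : crs b c a = crs a b c := by simp only [crs]; ring

theorem crs_rot' (a b c : Pt) : crs c a b = crs a b c := by simp only [crs]; ring

theorem crs_swap (a b c : Pt) : crs b a c = - crs a b c := by simp only [crs]; ring

theorem crs_swap' (a b c : Pt) : crs a c b = - crs a b c := by simp only [crs]; ring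

/-- `crs a b` is affine. -/
theorem crs_aff (a b p q : Pt) (s t : ℝ) (h : s + t = 1) :
    crs a b (s • p + t • q) = s * crs a b p + t * crs a b q := by
  have : s = 1 - t := by linarith
  subst this
  simp only [crs, Prod.fst_add, Prod.snd_add, Prod.smul_fst, Prod.smul_snd, smul_eq_mul]
  ring

theorem crs_sum (a b c p : Pt) : crs a b p + crs b c p + crs c a p = crs a b c := by
  simp only [crs]; ring

/-- Barycentric identity. -/
theorem bary (a b c p : Pt) :
    crs a b c • p = crs b c p • a + crs c a p • b + crs a b p • c := by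
  ext <;> simp only [crs, Prod.fst_add, Prod.snd_add, Prod.smul_fst, Prod.smul_snd, smul_eq_mul] <;> ring

/-- The closed triangle `a b c` (for `crs a b c > 0`). -/
def Tri (a b c : Pt) : Set Pt := {p | 0 ≤ crs a b p ∧ 0 ≤ crs b c p ∧ 0 ≤ crs c a p}

/-- A point of the triangle on the line `a b` is on the side `a b`. -/
theorem mem_seg_of_tri {a b c p : Pt} (h : 0 < crs a b c) (hp : p ∈ Tri a b c) (h0 : crs a b p = 0) :
    p ∈ segment ℝ a b := by
  obtain ⟨-, h2, h3⟩ := hp
  have hs := crs_sum a b c p
  refine ⟨crs b c p / crs a b c, crs c a p / crs a b c, by positivity, by positivity, ?_, ?_⟩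
  · rw [← add_div, div_eq_one_iff_eq h.ne']; linarith
  · have hb := bary a b c p
    rw [h0, zero_smul, add_zero] at hb
    have h4 : p = (crs a b c)⁻¹ • (crs a b c • p) := by rw [smul_smul, inv_mul_cancel₀ h.ne', one_smul]
    rw [hb, smul_add, smul_smul, smul_smul] at h4
    rw [div_eq_inv_mul, div_eq_inv_mul]
    exact h4.symm

theorem mem_openSegment_of_tri {a b c p : Pt} (h : 0 < crs a b c) (hp : p ∈ Tri a b c)
    (h0 : crs a b p = 0) (ha : p ≠ a) (hb : p ≠ b) : p ∈ openSegment ℝ a b :=
  mem_openSegment_of_ne_left_right ha.symm hb.symm (mem_seg_of_tri h hp h0)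

/-- Exit time lemma: from nonnegative values to values not all nonnegative. -/
theorem exit_time {n : ℕ} (x y : Fin n → ℝ) (hx : ∀ i, 0 ≤ x i) (hy : ∃ i, y i < 0) :
    ∃ t : ℝ, 0 ≤ t ∧ t < 1 ∧ (∀ i, 0 ≤ (1 - t) * x i + t * y i) ∧
      ∃ i, y i < 0 ∧ (1 - t) * x i + t * y i = 0 := by
  classical
  obtain ⟨i0, h0⟩ := hy
  let F : Finset (Fin n) := Finset.univ.filter (fun i => y i < 0)
  have hF : F.Nonempty := ⟨i0, by simp [F, h0]⟩
  obtain ⟨i, hi, hmin⟩ := F.exists_min_image (fun i => x i / (x i - y i)) hF
  have hyi : y i < 0 := by simpa [F] using hi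
  have hd : 0 < x i - y i := by have := hx i; linarith
  refine ⟨x i / (x i - y i), by have := hx i; positivity, ?_, ?_, i, hyi, ?_⟩
  · rw [div_lt_one hd]; linarith
  · intro j
    set t := x i / (x i - y i) with ht
    have ht0 : 0 ≤ t := by have := hx i; positivity
    have ht1 : t < 1 := by rw [ht, div_lt_one hd]; linarith
    by_cases hj : y j < 0
    · have hdj : 0 < x j - y j := by have := hx j; linarith
      have := hmin j (by simp [F, hj])
      have h2 : t * (x j - y j) ≤ x j := by rwa [le_div_iff₀ hdj] at this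
      nlinarith
    · push Not at hj
      have := hx j
      have : 0 ≤ 1 - t := by linarith
      positivity
  · field_simp
    ring

/-- Exit lemma: a segment from a point `r` of the triangle to a point `u` outside leaves it through a side
which strictly separates `u` from the triangle. -/
theorem exit_tri {a b c r u : Pt} (hr : r ∈ Tri a b c) (hu : u ∉ Tri a b c) :
    ∃ t : ℝ, 0 ≤ t ∧ t < 1 ∧ ((1 - t) • r + t • u) ∈ Tri a b c ∧
      ((crs a b u < 0 ∧ crs a b ((1 - t) • r + t • u) = 0) ∨
       (crs b c u < 0 ∧ crs b c ((1 - t) • r + t • u) = 0) ∨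
       (crs c a u < 0 ∧ crs c a ((1 - t) • r + t • u) = 0)) := by
  obtain ⟨h1, h2, h3⟩ := hr
  have hu' : crs a b u < 0 ∨ crs b c u < 0 ∨ crs c a u < 0 := by
    by_contra hcon
    push Not at hcon
    exact hu ⟨hcon.1, hcon.2.1, hcon.2.2⟩
  obtain ⟨t, t0, t1, hall, i, hi, he⟩ := exit_time ![crs a b r, crs b c r, crs c a r]
    ![crs a b u, crs b c u, crs c a u]
    (by intro i; fin_cases i <;> simp [h1, h2, h3])
    (by rcases hu' with h | h | h
        · exact ⟨0, by simpa using h⟩
        · exact ⟨1, by simpa using h⟩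
        · exact ⟨2, by simpa using h⟩)
  refine ⟨t, t0, t1, ⟨?_, ?_, ?_⟩, ?_⟩
  · rw [crs_aff _ _ _ _ _ _ (by ring)]; simpa using hall 0
  · rw [crs_aff _ _ _ _ _ _ (by ring)]; simpa using hall 1
  · rw [crs_aff _ _ _ _ _ _ (by ring)]; simpa using hall 2
  · fin_cases i
    · left; exact ⟨by simpa using hi, by rw [crs_aff _ _ _ _ _ _ (by ring)]; simpa using he⟩
    · right; left; exact ⟨by simpa using hi, by rw [crs_aff _ _ _ _ _ _ (by ring)]; simpa using he⟩
    · right; right; exact ⟨by simpa using hi, by rw [crs_aff _ _ _ _ _ _ (by ring)]; simpa using he⟩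

/-- A point between `r` (open segment `u v`) and `u` (not equal to `u`) is in the open segment `u v`. -/
theorem mem_open_of_between {u v r : Pt} (hr : r ∈ openSegment ℝ u v) {t : ℝ} (t0 : 0 ≤ t) (t1 : t < 1) :
    ((1 - t) • r + t • u) ∈ openSegment ℝ u v := by
  obtain ⟨p, q, hp, hq, hpq, rfl⟩ := hr
  have h1 : 0 < 1 - t := by linarith
  refine ⟨(1 - t) * p + t, (1 - t) * q, by positivity, by positivity, by nlinarith, ?_⟩
  module

theorem crs_pos_openSegment {a b u v r : Pt} (hr : r ∈ openSegment ℝ u v) (hu : 0 ≤ crs a b u)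
    (hv : 0 < crs a b v) : 0 < crs a b r := by
  obtain ⟨p, q, hp, hq, hpq, rfl⟩ := hr
  rw [crs_aff _ _ _ _ _ _ hpq]
  have := mul_nonneg hp.le hu
  have := mul_pos hq hv
  linarith

/-- Points of the line `a b`. -/
theorem exists_param {a b u : Pt} (hab : a ≠ b) (h : crs a b u = 0) :
    ∃ t : ℝ, u = (1 - t) • a + t • b := by
  simp only [crs] at h
  by_cases h1 : b.1 - a.1 = 0
  · have h2 : b.2 - a.2 ≠ 0 := by
      intro h2
      apply hab
      ext <;> linarith
    refine ⟨(u.2 - a.2) / (b.2 - a.2), ?_⟩
    have h3 : u.1 = a.1 := by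
      rw [h1, zero_mul, zero_sub, neg_eq_zero, mul_eq_zero] at h
      rcases h with h | h
      · exact absurd h h2
      · linarith
    ext
    · simp only [Prod.fst_add, Prod.smul_fst, smul_eq_mul]
      have : b.1 = a.1 := by linarith
      rw [this, h3]; ring
    · simp only [Prod.snd_add, Prod.smul_snd, smul_eq_mul]
      field_simp
      ring
  · refine ⟨(u.1 - a.1) / (b.1 - a.1), ?_⟩
    ext
    · simp only [Prod.fst_add, Prod.smul_fst, smul_eq_mul]
      field_simp
      ring
    · simp only [Prod.snd_add, Prod.smul_snd, smul_eq_mul]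
      field_simp
      linarith

/-- Parameters on a line are unique. -/
theorem param_inj {a b : Pt} (hab : a ≠ b) {s t : ℝ} (h : (1 - s) • a + s • b = (1 - t) • a + t • b) :
    s = t := by
  by_contra hst
  apply hab
  have h1 : (s - t) • a = (s - t) • b := by
    have : (1 - s) • a + s • b - ((1 - t) • a + t • b) = (s - t) • b - (s - t) • a := by module
    rw [h, sub_self] at this
    exact (sub_eq_zero.1 this.symm).symm
  exact smul_right_injective _ (sub_ne_zero.2 hst) h1

theorem mem_openSegment_iff_param {a b r : Pt} :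
    r ∈ openSegment ℝ a b ↔ ∃ t : ℝ, 0 < t ∧ t < 1 ∧ r = (1 - t) • a + t • b := by
  constructor
  · rintro ⟨p, q, hp, hq, hpq, rfl⟩
    refine ⟨q, hq, by linarith, ?_⟩
    rw [show p = 1 - q by linarith]
  · rintro ⟨t, h0, h1, rfl⟩
    exact ⟨1 - t, t, by linarith, h0, by ring, rfl⟩

/-- Collinear open segments through a common point: if no endpoint of one is inside the other they have the
same endpoints. -/
theorem same_ends {a b u v r : Pt} (hr : r ∈ openSegment ℝ a b) (hr' : r ∈ openSegment ℝ u v)
    (hab : a ≠ b) (hcu : crs a b u = 0) (hcv : crs a b v = 0)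
    (hu : u ∉ openSegment ℝ a b) (hv : v ∉ openSegment ℝ a b)
    (ha : a ∉ openSegment ℝ u v) (hb : b ∉ openSegment ℝ u v) :
    (a = u ∧ b = v) ∨ (a = v ∧ b = u) := by
  obtain ⟨α, rfl⟩ := exists_param hab hcu
  obtain ⟨β, rfl⟩ := exists_param hab hcv
  obtain ⟨ρ, r0, r1, rfl⟩ := mem_openSegment_iff_param.1 hr
  obtain ⟨σ, s0, s1, hs⟩ := mem_openSegment_iff_param.1 hr'
  have hs' : ρ = (1 - σ) * α + σ * β := by
    apply param_inj hab
    rw [hs]
    module
  have hu' : ¬ (0 < α ∧ α < 1) := fun h => hu (mem_openSegment_iff_param.2 ⟨α, h.1, h.2, rfl⟩)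
  have hv' : ¬ (0 < β ∧ β < 1) := fun h => hv (mem_openSegment_iff_param.2 ⟨β, h.1, h.2, rfl⟩)
  have ha' : ∀ t : ℝ, 0 < t → t < 1 → (1 - t) * α + t * β ≠ 0 := by
    intro t h0 h1 h
    apply ha
    refine mem_openSegment_iff_param.2 ⟨t, h0, h1, ?_⟩
    have : (1 - t) • ((1 - α) • a + α • b) + t • ((1 - β) • a + β • b)
        = (1 - ((1 - t) * α + t * β)) • a + ((1 - t) * α + t * β) • b := by module
    rw [this, h]
    simp
  have hb' : ∀ t : ℝ, 0 < t → t < 1 → (1 - t) * α + t * β ≠ 1 := by
    intro t h0 h1 h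
    apply hb
    refine mem_openSegment_iff_param.2 ⟨t, h0, h1, ?_⟩
    have : (1 - t) • ((1 - α) • a + α • b) + t • ((1 - β) • a + β • b)
        = (1 - ((1 - t) * α + t * β)) • a + ((1 - t) * α + t * β) • b := by module
    rw [this, h]
    simp
  rcases lt_or_ge α ρ with h | h
  · have hα : α ≤ 0 := by
      by_contra hc
      push Not at hc
      exact hu' ⟨hc, by linarith⟩
    have hβρ : ρ < β := by nlinarith
    have hβ : 1 ≤ β := by
      by_contra hc
      push Not at hc
      exact hv' ⟨by linarith, hc⟩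
    have hα0 : α = 0 := by
      by_contra hc
      have hα' : α < 0 := lt_of_le_of_ne hα hc
      have hd : 0 < β - α := by linarith
      refine ha' (-α / (β - α)) (by apply div_pos <;> linarith) ?_ ?_
      · rw [div_lt_one hd]; linarith
      · field_simp; ring
    have hβ1 : β = 1 := by
      by_contra hc
      have hβ' : 1 < β := lt_of_le_of_ne hβ (Ne.symm hc)
      refine hb' (1 / β) (by positivity) ?_ ?_
      · rw [div_lt_one (by linarith)]; linarith
      · rw [hα0]; field_simp; ring
    left
    subst hα0; subst hβ1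
    simp
  · have hαρ : ρ < α := by
      rcases lt_or_eq_of_le h with h | h
      · exact h
      · exfalso; exact hu' ⟨by linarith, by linarith⟩
    have hα : 1 ≤ α := by
      by_contra hc
      push Not at hc
      exact hu' ⟨by linarith, hc⟩
    have hβρ : β < ρ := by nlinarith
    have hβ : β ≤ 0 := by
      by_contra hc
      push Not at hc
      exact hv' ⟨hc, by linarith⟩
    have hβ0 : β = 0 := by
      by_contra hc
      have hβ' : β < 0 := lt_of_le_of_ne hβ hc
      have hd : 0 < α - β := by linarith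
      refine ha' (α / (α - β)) (by apply div_pos <;> linarith) ?_ ?_
      · rw [div_lt_one hd]; linarith
      · field_simp; ring
    have hα1 : α = 1 := by
      by_contra hc
      have hα' : 1 < α := lt_of_le_of_ne hα (Ne.symm hc)
      refine hb' ((α - 1) / α) (div_pos (by linarith) (by linarith)) ?_ ?_
      · rw [div_lt_one (by linarith)]; linarith
      · rw [hβ0]; field_simp; ring
    right
    subst hα1; subst hβ0
    simp

end Helper85.AG
end

/- Helper85.AG.Cfg -/
section
/-!
# Maximal plane straight line graphs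
-/

namespace Helper85.AG

/-- A maximal plane straight line graph on the finite vertex set `V`. -/
structure Cfg where
  V : Finset Pt
  E : Pt → Pt → Prop
  symm : ∀ {a b}, E a b → E b a
  mem : ∀ {a b}, E a b → a ∈ V
  ne : ∀ {a b}, E a b → a ≠ b
  noV : ∀ {a b v}, E a b → v ∈ V → v ∉ openSegment ℝ a b
  cross : ∀ {a b c d p}, E a b → E c d → p ∈ openSegment ℝ a b → p ∈ openSegment ℝ c d →
    (a = c ∧ b = d) ∨ (a = d ∧ b = c)
  max : ∀ {a b}, a ∈ V → b ∈ V → a ≠ b → (∀ v ∈ V, v ∉ openSegment ℝ a b) →
    (∀ c d p, E c d → p ∈ openSegment ℝ a b → p ∈ openSegment ℝ c d →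
      (a = c ∧ b = d) ∨ (a = d ∧ b = c)) → E a b

namespace Cfg

variable (G : Cfg)

theorem crs_open_self {a b r : Pt} (hr : r ∈ openSegment ℝ a b) : crs a b r = 0 := by
  obtain ⟨p, q, hp, hq, hpq, rfl⟩ := hr
  rw [crs_aff _ _ _ _ _ _ hpq, crs_self_left, crs_self_right]; ring

/-- A crossing edge has its ends strictly on both sides. -/
theorem opp {a b u v r : Pt} (ha : a ∈ G.V) (hb : b ∈ G.V) (hab : a ≠ b)
    (hno : ∀ v ∈ G.V, v ∉ openSegment ℝ a b) (huv : G.E u v) (hr : r ∈ openSegment ℝ a b)
    (hr' : r ∈ openSegment ℝ u v) (hne : ¬ ((a = u ∧ b = v) ∨ (a = v ∧ b = u))) :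
    (0 < crs a b u ∧ crs a b v < 0) ∨ (crs a b u < 0 ∧ 0 < crs a b v) := by
  have h0 : crs a b r = 0 := crs_open_self hr
  have hu := G.mem huv
  have hv := G.mem (G.symm huv)
  have key : ¬ (crs a b u = 0 ∧ crs a b v = 0) := by
    rintro ⟨h1, h2⟩
    exact hne (same_ends hr hr' hab h1 h2 (hno u hu) (hno v hv) (G.noV huv ha) (G.noV huv hb))
  obtain ⟨p, q, hp, hq, hpq, rfl⟩ := hr'
  rw [crs_aff _ _ _ _ _ _ hpq] at h0
  rcases lt_trichotomy (crs a b u) 0 with h | h | h
  · right
    refine ⟨h, ?_⟩
    by_contra hc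
    push Not at hc
    have := mul_neg_of_pos_of_neg hp h
    have := mul_nonpos_of_nonneg_of_nonpos hq.le hc
    linarith
  · exfalso
    apply key
    refine ⟨h, ?_⟩
    rw [h, mul_zero, zero_add, mul_eq_zero] at h0
    rcases h0 with h0 | h0
    · exact absurd h0 hq.ne'
    · exact h0
  · left
    refine ⟨h, ?_⟩
    by_contra hc
    push Not at hc
    have := mul_pos hp h
    have := mul_nonneg hq.le hc
    linarith

/-- Coordinates of `p` in the frame `(a; q, x)`. -/
noncomputable def coS (a q x p : Pt) : ℝ := crs a p x / crs a q x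
/-- Coordinates of `p` in the frame `(a; q, x)`. -/
noncomputable def coT (a q x p : Pt) : ℝ := crs a q p / crs a q x

theorem coT_aff (a q x p r : Pt) (s t : ℝ) (h : s + t = 1) :
    coT a q x (s • p + t • r) = s * coT a q x p + t * coT a q x r := by
  simp only [coT]; rw [crs_aff _ _ _ _ _ _ h]; ring

theorem coS_aff (a q x p r : Pt) (s t : ℝ) (h : s + t = 1) :
    coS a q x (s • p + t • r) = s * coS a q x p + t * coS a q x r := by
  simp only [coS]
  have e : ∀ z, crs a z x = crs x a z := fun z => (crs_rot' a z x).symm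
  rw [e (s • p + t • r), e p, e r, crs_aff _ _ _ _ _ _ h]; ring

theorem coT_comb {a q x p y z : Pt} {m : ℝ} (h : p = (1 - m) • y + m • z) :
    coT a q x p = (1 - m) * coT a q x y + m * coT a q x z := by
  rw [h, coT_aff _ _ _ _ _ _ _ (by ring)]

theorem coS_comb {a q x p y z : Pt} {m : ℝ} (h : p = (1 - m) • y + m • z) :
    coS a q x p = (1 - m) * coS a q x y + m * coS a q x z := by
  rw [h, coS_aff _ _ _ _ _ _ _ (by ring)]

theorem co_eq {a q x : Pt} (h : crs a q x ≠ 0) (p : Pt) :
    p = (1 - coS a q x p - coT a q x p) • a + coS a q x p • q + coT a q x p • x := by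
  have hb := bary a q x p
  have hs := crs_sum a q x p
  have e1 : crs x a p = crs a p x := (crs_rot a p x).symm ▸ (crs_rot' a p x)
  have h4 : p = (crs a q x)⁻¹ • (crs a q x • p) := by rw [smul_smul, inv_mul_cancel₀ h, one_smul]
  rw [hb, smul_add, smul_add, smul_smul, smul_smul, smul_smul, e1] at h4
  have e2 : 1 - coS a q x p - coT a q x p = (crs a q x)⁻¹ * crs q x p := by
    simp only [coS, coT]
    field_simp
    rw [← e1]; linarith
  rw [e2]
  simp only [coS, coT, div_eq_inv_mul]
  exact h4

theorem co_left {a q x : Pt} (_ : crs a q x ≠ 0) : coS a q x a = 0 ∧ coT a q x a = 0 := by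
  simp [coS, coT, crs_self_left, crs_self_same]

theorem co_q {a q x : Pt} (h : crs a q x ≠ 0) : coS a q x q = 1 ∧ coT a q x q = 0 := by
  simp [coS, coT, crs_self_right, h]

theorem co_x {a q x : Pt} (h : crs a q x ≠ 0) : coS a q x x = 0 ∧ coT a q x x = 1 := by
  simp [coS, coT, crs_self_right, h]

/-- The sign of `crs a w` in coordinates. -/
theorem crs_co {a q x : Pt} (h : crs a q x ≠ 0) (w p : Pt) :
    crs a w p = (coS a q x w * coT a q x p - coT a q x w * coS a q x p) * crs a q x := by
  have e1 := co_eq h w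
  have e2 := co_eq h p
  set s := coS a q x w
  set t := coT a q x w
  set s' := coS a q x p
  set t' := coT a q x p
  rw [e1, e2]
  simp only [crs, Prod.fst_add, Prod.snd_add, Prod.smul_fst, Prod.smul_snd, smul_eq_mul]
  ring

/-- The visible vertex lemma. -/
theorem exists_edge_aux {a q x y : Pt} (ha : a ∈ G.V) (hxy : G.E x y) (hq : q ∈ openSegment ℝ x y)
    (hD : crs a q x ≠ 0) (hqV : ∀ v ∈ G.V, v ∉ openSegment ℝ a q)
    (hqE : ∀ u v p, G.E u v → u ≠ a → v ≠ a → p ∈ openSegment ℝ u v → p ∉ openSegment ℝ a q) :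
    ∃ w, G.E a w ∧ 0 ≤ coS a q x w ∧ 0 < coT a q x w := by
  classical
  have hqnV : q ∉ G.V := fun h => G.noV hxy h hq
  have hx := G.mem hxy
  have hy := G.mem (G.symm hxy)
  let s : Pt → ℝ := coS a q x
  let t : Pt → ℝ := coT a q x
  let W : Finset Pt := G.V.filter (fun w => 0 ≤ s w ∧ 0 ≤ t w ∧ s w + t w ≤ 1 ∧ w ≠ a)
  have hW : ∀ {w}, w ∈ W ↔ w ∈ G.V ∧ 0 ≤ s w ∧ 0 ≤ t w ∧ s w + t w ≤ 1 ∧ w ≠ a := by
    intro w; simp [W]
  have hxa : x ≠ a := by
    rintro rfl
    apply hD
    rw [crs_self_left]
  have hxW : x ∈ W := by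
    rw [hW]
    obtain ⟨h1, h2⟩ := co_x hD
    exact ⟨hx, by rw [show s x = 0 from h1], by rw [show t x = 1 from h2]; norm_num,
      by rw [show s x = 0 from h1, show t x = 1 from h2]; norm_num, hxa⟩
  have hpos : ∀ {w}, w ∈ W → 0 < t w := by
    intro w hw
    obtain ⟨hwV, h1, h2, h3, h4⟩ := hW.1 hw
    rcases lt_or_eq_of_le h2 with h | h
    · exact h
    · exfalso
      have he := co_eq hD w
      change w = (1 - s w - t w) • a + s w • q + t w • x at he
      rw [← h, zero_smul, add_zero, sub_zero] at he
      rcases lt_or_eq_of_le h1 with h5 | h5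
      · rcases lt_or_eq_of_le h3 with h6 | h6
        · exact hqV w hwV (mem_openSegment_iff_param.2 ⟨s w, h5, by linarith, he⟩)
        · have : s w = 1 := by linarith
          rw [this] at he
          simp at he
          exact hqnV (he ▸ hwV)
      · rw [← h5] at he
        simp at he
        exact h4 he
  -- first minimum
  obtain ⟨w1, hw1, hmin1⟩ := W.exists_min_image (fun w => t w / (s w + t w)) ⟨x, hxW⟩
  let W' : Finset Pt := W.filter (fun w => t w / (s w + t w) = t w1 / (s w1 + t w1))
  obtain ⟨w, hw', hmin2⟩ := W'.exists_min_image (fun w => s w + t w) ⟨w1, by simp [W', hw1]⟩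
  have hwW : w ∈ W := (Finset.mem_filter.1 hw').1
  have hwτ : t w / (s w + t w) = t w1 / (s w1 + t w1) := (Finset.mem_filter.1 hw').2
  obtain ⟨hwV, hs0, ht0, hst, hwa⟩ := hW.1 hwW
  have htw : 0 < t w := hpos hwW
  have hmin1' : ∀ v ∈ W, t w * (s v + t v) ≤ t v * (s w + t w) := by
    intro v hv
    have h1 := hmin1 v hv
    rw [← hwτ] at h1
    have h2 := hpos hv
    have h3 := (hW.1 hv).2.1
    rwa [div_le_div_iff₀ (by linarith) (by linarith)] at h1
  refine ⟨w, ?_, hs0, htw⟩
  have hnoV : ∀ v ∈ G.V, v ∉ openSegment ℝ a w := by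
    intro v hv hv'
    obtain ⟨k, k0, k1, rfl⟩ := mem_openSegment_iff_param.1 hv'
    have e1 : s ((1 - k) • a + k • w) = k * s w := by
      change coS a q x _ = _
      rw [coS_aff _ _ _ _ _ _ _ (by ring), (co_left hD).1]; simp [s]
    have e2 : t ((1 - k) • a + k • w) = k * t w := by
      change coT a q x _ = _
      rw [coT_aff _ _ _ _ _ _ _ (by ring), (co_left hD).2]; simp [t]
    have hvW : ((1 - k) • a + k • w) ∈ W := by
      rw [hW]
      refine ⟨hv, by rw [e1]; positivity, by rw [e2]; positivity, by rw [e1, e2]; nlinarith, ?_⟩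
      intro h
      apply hwa
      have h2 : k • w = k • a := by
        have : k • w = ((1 - k) • a + k • w) - (1 - k) • a := by abel
        rw [this, h]; module
      exact smul_right_injective _ k0.ne' h2
    have hvW' : ((1 - k) • a + k • w) ∈ W' := by
      simp only [W', Finset.mem_filter]
      refine ⟨hvW, ?_⟩
      rw [← hwτ, e1, e2, ← mul_add, mul_div_mul_left _ _ k0.ne']
    have := hmin2 _ hvW'
    rw [e1, e2] at this
    nlinarith
  refine G.max ha hwV hwa.symm hnoV ?_
  intro u v r huv hr hr'
  by_contra hne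
  -- wlog u on the q side
  have main : ∀ u v, G.E u v → r ∈ openSegment ℝ u v → 0 < t w * s u - s w * t u →
      t w * s v - s w * t v < 0 → False := by
    intro u v huv hr' hu hv
    have hu_a : u ≠ a := by
      rintro rfl
      have h1 : s u = 0 := (co_left hD).1
      have h2 : t u = 0 := (co_left hD).2
      rw [h1, h2] at hu; simp at hu
    have hv_a : v ≠ a := by
      rintro rfl
      have h1 : s v = 0 := (co_left hD).1
      have h2 : t v = 0 := (co_left hD).2
      rw [h1, h2] at hv; simp at hv
    obtain ⟨k, k0, k1, hrk⟩ := mem_openSegment_iff_param.1 hr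
    have e1 : s r = k * s w := by
      rw [hrk]
      change coS a q x _ = _
      rw [coS_aff _ _ _ _ _ _ _ (by ring), (co_left hD).1]; simp [s]
    have e2 : t r = k * t w := by
      rw [hrk]
      change coT a q x _ = _
      rw [coT_aff _ _ _ _ _ _ _ (by ring), (co_left hD).2]; simp [t]
    have htr : 0 < t r := by rw [e2]; positivity
    have hstr : 0 < 1 - s r - t r := by rw [e1, e2]; nlinarith
    -- u is not in the region
    have huR : t u < 0 ∨ 1 - s u - t u < 0 := by
      by_contra hc
      push Not at hc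
      obtain ⟨c1, c2⟩ := hc
      have hsu : 0 < s u := by
        have : 0 ≤ s w * t u := mul_nonneg hs0 c1
        by_contra hcc
        push Not at hcc
        have := mul_nonpos_of_nonneg_of_nonpos htw.le hcc
        linarith
      have huW : u ∈ W := hW.2 ⟨G.mem huv, hsu.le, c1, by linarith, hu_a⟩
      have := hmin1' u huW
      nlinarith
    obtain ⟨l, l0, l1, hall, i, hi, he⟩ := exit_time ![t r, 1 - s r - t r] ![t u, 1 - s u - t u]
      (by intro i; fin_cases i <;> simp <;> linarith)
      (by rcases huR with h | h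
          · exact ⟨0, by simpa using h⟩
          · exact ⟨1, by simpa using h⟩)
    have f0 : 0 ≤ (1 - l) * t r + l * t u := by simpa using hall 0
    have f1 : 0 ≤ (1 - l) * (1 - s r - t r) + l * (1 - s u - t u) := by simpa using hall 1
    have hlpos : 0 < l := by
      rcases lt_or_eq_of_le l0 with h | h
      · exact h
      · exfalso
        rw [← h] at he
        fin_cases i
        · simp at he; linarith
        · simp at he; linarith
    set r' := (1 - l) • r + l • u with hr'def
    have e3 : s r' = (1 - l) * s r + l * s u := by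
      change coS a q x _ = _
      rw [hr'def, coS_aff _ _ _ _ _ _ _ (by ring)]
    have e4 : t r' = (1 - l) * t r + l * t u := by
      change coT a q x _ = _
      rw [hr'def, coT_aff _ _ _ _ _ _ _ (by ring)]
    have hr'o : r' ∈ openSegment ℝ u v := mem_open_of_between hr' l0 l1
    have hg : 0 < t w * s r' - s w * t r' := by
      rw [e3, e4, e1, e2]
      nlinarith [mul_pos hlpos hu]
    have ht' : 0 ≤ t r' := by rw [e4]; exact f0
    have hst' : 0 ≤ 1 - s r' - t r' := by rw [e3, e4]; linarith
    have hs' : 0 < s r' := by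
      have : 0 ≤ s w * t r' := mul_nonneg hs0 ht'
      by_contra hcc
      push Not at hcc
      have := mul_nonpos_of_nonneg_of_nonpos htw.le hcc
      linarith
    have heq' := co_eq hD r'
    change r' = (1 - s r' - t r') • a + s r' • q + t r' • x at heq'
    -- the edge u v is not x y
    have hnxy : ∀ p, p ∈ openSegment ℝ u v → p ∈ openSegment ℝ x y → False := by
      intro p hp hp'
      have hc := G.cross huv hxy hp hp'
      have hr2 : r ∈ openSegment ℝ x y := by
        rcases hc with ⟨rfl, rfl⟩ | ⟨rfl, rfl⟩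
        · exact hr'
        · rw [openSegment_symm]; exact hr'
      -- on the line x y the function s + t is 1
      obtain ⟨m, m0, m1, hm⟩ := mem_openSegment_iff_param.1 hq
      have hy1 : s y + t y = 1 := by
        have h1 : s q = (1 - m) * s x + m * s y := coS_comb hm
        have h2 : t q = (1 - m) * t x + m * t y := coT_comb hm
        rw [show s q = 1 from (co_q hD).1, show s x = 0 from (co_x hD).1] at h1
        rw [show t q = 0 from (co_q hD).2, show t x = 1 from (co_x hD).2] at h2
        have : m * (s y + t y) = m * 1 := by linarith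
        exact mul_left_cancel₀ m0.ne' this
      obtain ⟨n, n0, n1, hn⟩ := mem_openSegment_iff_param.1 hr2
      have h3 : s r = (1 - n) * s x + n * s y := coS_comb hn
      have h4 : t r = (1 - n) * t x + n * t y := coT_comb hn
      rw [show s x = 0 from (co_x hD).1] at h3
      rw [show t x = 1 from (co_x hD).2] at h4
      have : s r + t r = 1 := by rw [h3, h4]; linear_combination n * hy1
      linarith
    have hqxy : ∀ p, p ∈ openSegment ℝ q x → p ∈ openSegment ℝ x y := by
      intro p hp
      obtain ⟨m, m0, m1, hm⟩ := mem_openSegment_iff_param.1 hq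
      obtain ⟨n, n0, n1, hn⟩ := mem_openSegment_iff_param.1 hp
      refine mem_openSegment_iff_param.2 ⟨(1 - n) * m, by apply mul_pos <;> linarith, by nlinarith, ?_⟩
      rw [hn, hm]
      module
    -- conclusion for r' on the side q x
    have side2 : 1 - s r' - t r' = 0 → False := by
      intro h0
      rw [h0, zero_smul, zero_add] at heq'
      rcases lt_or_eq_of_le ht' with h5 | h5
      · apply hnxy r' hr'o
        apply hqxy
        refine mem_openSegment_iff_param.2 ⟨t r', h5, by linarith, ?_⟩
        rw [show 1 - t r' = s r' by linarith]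
        exact heq'
      · rw [← h5, zero_smul, add_zero, show s r' = 1 by linarith, one_smul] at heq'
        exact hnxy r' hr'o (heq' ▸ hq)
    fin_cases i
    · -- on the side a q
      have h0 : t r' = 0 := by rw [e4]; simpa using he
      rcases lt_or_eq_of_le hst' with h6 | h6
      · rw [h0, zero_smul, add_zero, sub_zero] at heq'
        refine hqE u v r' huv hu_a hv_a hr'o (mem_openSegment_iff_param.2 ⟨s r', hs', by linarith, heq'⟩)
      · exact side2 h6.symm
    · apply side2
      rw [e3, e4]
      have : (1 - l) * (1 - s r - t r) + l * (1 - s u - t u) = 0 := by simpa using he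
      linarith
  rcases G.opp ha hwV hwa.symm hnoV huv hr hr' hne with ⟨h1, h2⟩ | ⟨h1, h2⟩
  · rw [crs_co hD] at h1 h2
    change 0 < (s w * t u - t w * s u) * crs a q x at h1
    change (s w * t v - t w * s v) * crs a q x < 0 at h2
    rcases lt_or_gt_of_ne hD with hneg | hpos'
    · apply main u v huv hr' <;> nlinarith
    · have hr'' : r ∈ openSegment ℝ v u := by rw [openSegment_symm]; exact hr'
      apply main v u (G.symm huv) hr'' <;> nlinarith
  · rw [crs_co hD] at h1 h2
    change (s w * t u - t w * s u) * crs a q x < 0 at h1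
    change 0 < (s w * t v - t w * s v) * crs a q x at h2
    rcases lt_or_gt_of_ne hD with hneg | hpos'
    · have hr'' : r ∈ openSegment ℝ v u := by rw [openSegment_symm]; exact hr'
      apply main v u (G.symm huv) hr'' <;> nlinarith
    · apply main u v huv hr' <;> nlinarith

/-- Not collinear. -/
theorem co_ne {a q x y : Pt} (ha : a ∈ G.V) (hxy : G.E x y) (hxa : x ≠ a) (hya : y ≠ a)
    (hq : q ∈ openSegment ℝ x y) (hqV : ∀ v ∈ G.V, v ∉ openSegment ℝ a q) : crs a q x ≠ 0 := by
  intro h0
  have hqnV : q ∉ G.V := fun h => G.noV hxy h hq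
  have hx := G.mem hxy
  have hy := G.mem (G.symm hxy)
  have haq : a ≠ q := by rintro rfl; exact hqnV ha
  obtain ⟨m, m0, m1, hm⟩ := mem_openSegment_iff_param.1 hq
  have h1 : crs a q y = 0 := by
    have h2 : crs a q q = (1 - m) * crs a q x + m * crs a q y := by
      nth_rewrite 2 [hm]
      rw [crs_aff _ _ _ _ _ _ (by ring)]
    rw [crs_self_right, h0, mul_zero, zero_add] at h2
    rcases mul_eq_zero.1 h2.symm with h | h
    · exact absurd h m0.ne'
    · exact h
  obtain ⟨α, hα⟩ := exists_param haq h0
  obtain ⟨β, hβ⟩ := exists_param haq h1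
  have h3 : 1 = (1 - m) * α + m * β := by
    apply param_inj haq
    rw [sub_self, zero_smul, zero_add, one_smul]
    nth_rewrite 1 [hm]
    rw [hα, hβ]
    module
  have hα' : ¬ (0 < α ∧ α < 1) := fun h => hqV x hx (mem_openSegment_iff_param.2 ⟨α, h.1, h.2, hα⟩)
  have hβ' : ¬ (0 < β ∧ β < 1) := fun h => hqV y hy (mem_openSegment_iff_param.2 ⟨β, h.1, h.2, hβ⟩)
  have hα0 : α ≠ 0 := by rintro rfl; apply hxa; rw [hα]; simp
  have hβ0 : β ≠ 0 := by rintro rfl; apply hya; rw [hβ]; simp
  have hα1 : α ≠ 1 := by rintro rfl; apply hqnV; have : x = q := by rw [hα]; simp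
                         rw [← this]; exact hx
  have hβ1 : β ≠ 1 := by rintro rfl; apply hqnV; have : y = q := by rw [hβ]; simp
                         rw [← this]; exact hy
  apply G.noV hxy ha
  have key : ∀ n : ℝ, 0 < n → n < 1 → (1 - n) * α + n * β = 0 → a ∈ openSegment ℝ x y := by
    intro n n0 n1 hn
    refine mem_openSegment_iff_param.2 ⟨n, n0, n1, ?_⟩
    rw [hα, hβ]
    have : (1 - n) • ((1 - α) • a + α • q) + n • ((1 - β) • a + β • q)
        = (1 - ((1 - n) * α + n * β)) • a + ((1 - n) * α + n * β) • q := by module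
    rw [this, hn]; simp
  have hne : α - β ≠ 0 := by
    intro h
    have : α = β := by linarith
    rw [this] at h3
    apply hβ1; linarith
  rcases lt_or_gt_of_ne hα1 with h4 | h4
  · have hαn : α < 0 := by
      rcases lt_or_gt_of_ne hα0 with h | h
      · exact h
      · exact absurd ⟨h, h4⟩ hα'
    have hβn : 1 < β := by nlinarith
    refine key (α / (α - β)) (div_pos_of_neg_of_neg hαn (by linarith)) ?_ (by field_simp; ring)
    rw [div_lt_one_of_neg (by linarith)]; linarith
  · have hβn : β < 1 := by nlinarith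
    have hβ2 : β < 0 := by
      rcases lt_or_gt_of_ne hβ0 with h | h
      · exact h
      · exact absurd ⟨h, hβn⟩ hβ'
    refine key (α / (α - β)) (div_pos (by linarith) (by linarith)) ?_ (by field_simp; ring)
    rw [div_lt_one (by linarith)]; linarith

/-- From every vertex there is an edge to the left of `a b` if there is a vertex to the left. -/
theorem exists_edge_left {a b w0 : Pt} (ha : a ∈ G.V) (hw0 : w0 ∈ G.V) (h : 0 < crs a b w0) :
    ∃ c, G.E a c ∧ 0 < crs a b c := by
  classical
  let K : Set Pt := (⋃ e ∈ (G.V ×ˢ G.V).filter (fun e => G.E e.1 e.2 ∧ e.1 ≠ a ∧ e.2 ≠ a),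
    segment ℝ e.1 e.2) ∪ ((G.V.erase a : Finset Pt) : Set Pt)
  have hKc : IsClosed K := by
    refine IsClosed.union ?_ (Finset.finite_toSet _).isClosed
    refine Set.Finite.isClosed_biUnion (Finset.finite_toSet _) ?_
    intro e _
    rw [segment_eq_image_lineMap]
    exact (isCompact_Icc.image (by fun_prop)).isClosed
  have hKmem : ∀ p, p ∈ K ↔ (∃ x y, G.E x y ∧ x ≠ a ∧ y ≠ a ∧ p ∈ segment ℝ x y) ∨ (p ∈ G.V ∧ p ≠ a) := by
    intro p
    simp only [K, Set.mem_union, Set.mem_iUnion, Finset.mem_filter, Finset.mem_product,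
      Finset.coe_erase, Set.mem_sdiff, Set.mem_singleton_iff, Finset.mem_coe]
    constructor
    · rintro (⟨e, ⟨-, he, h1, h2⟩, h3⟩ | h)
      · exact Or.inl ⟨e.1, e.2, he, h1, h2, h3⟩
      · exact Or.inr h
    · rintro (⟨x, y, he, h1, h2, h3⟩ | h)
      · exact Or.inl ⟨(x, y), ⟨⟨G.mem he, G.mem (G.symm he)⟩, he, h1, h2⟩, h3⟩
      · exact Or.inr h
  have haK : a ∉ K := by
    rw [hKmem]
    rintro (⟨x, y, he, h1, h2, h3⟩ | h)
    · exact G.noV he ha (mem_openSegment_of_ne_left_right h1 h2 h3)
    · exact h.2 rfl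
  let f : ℝ → Pt := fun t => (1 - t) • a + t • w0
  have hf : Continuous f := by fun_prop
  have hwa : w0 ≠ a := by rintro rfl; rw [crs_self_left] at h; exact lt_irrefl _ h
  have hC : IsCompact (Set.Icc (0 : ℝ) 1 ∩ f ⁻¹' K) := isCompact_Icc.inter_right (hKc.preimage hf)
  have hCne : (Set.Icc (0 : ℝ) 1 ∩ f ⁻¹' K).Nonempty := by
    refine ⟨1, ⟨by norm_num, le_refl _⟩, ?_⟩
    change f 1 ∈ K
    rw [hKmem]
    right
    simp only [f, sub_self, zero_smul, zero_add, one_smul]
    exact ⟨hw0, hwa⟩
  obtain ⟨t, ⟨⟨ht0, ht1⟩, htK⟩, hleast⟩ := hC.exists_isLeast hCne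
  have htK' : f t ∈ K := htK
  have htpos : 0 < t := by
    rcases lt_or_eq_of_le ht0 with h | h
    · exact h
    · exfalso
      rw [← h] at htK'
      simp only [f, sub_zero, one_smul, zero_smul, add_zero] at htK'
      exact haK htK'
  set q := f t with hqdef
  have hbefore : ∀ p, p ∈ openSegment ℝ a q → p ∉ K := by
    intro p hp hpK
    obtain ⟨k, k0, k1, rfl⟩ := mem_openSegment_iff_param.1 hp
    have e : (1 - k) • a + k • q = f (k * t) := by
      rw [hqdef]; simp only [f]; module
    rw [e] at hpK
    have := hleast ⟨⟨by positivity, by nlinarith⟩, hpK⟩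
    nlinarith
  have hcq : crs a b q = t * crs a b w0 := by
    rw [hqdef]; simp only [f]
    rw [crs_aff _ _ _ _ _ _ (by ring), crs_self_left]; ring
  have hcqpos : 0 < crs a b q := by rw [hcq]; positivity
  have hqV : ∀ v ∈ G.V, v ∉ openSegment ℝ a q := by
    intro v hv hv'
    apply hbefore v hv'
    rw [hKmem]
    right
    refine ⟨hv, ?_⟩
    rintro rfl
    have : v ≠ q := by
      rintro h
      rw [← h, crs_self_left] at hcqpos
      exact lt_irrefl _ hcqpos
    exact this (left_mem_openSegment_iff.1 hv')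
  have hqE : ∀ u v p, G.E u v → u ≠ a → v ≠ a → p ∈ openSegment ℝ u v → p ∉ openSegment ℝ a q := by
    intro u v p he hu hv hp hp'
    apply hbefore p hp'
    rw [hKmem]
    left
    exact ⟨u, v, he, hu, hv, openSegment_subset_segment _ _ _ hp⟩
  by_cases hqG : q ∈ G.V
  · refine ⟨q, ?_, hcqpos⟩
    have haq : a ≠ q := by
      rintro h
      rw [← h, crs_self_left] at hcqpos
      exact lt_irrefl _ hcqpos
    refine G.max ha hqG haq hqV ?_
    intro c d p hcd hp hp'
    by_contra hne
    have ho := G.opp ha hqG haq hqV hcd hp hp' hne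
    by_cases hc : c = a
    · rw [hc, crs_self_left] at ho
      rcases ho with ⟨h1, h2⟩ | ⟨h1, h2⟩
      · exact lt_irrefl _ h1
      · exact lt_irrefl _ h1
    · by_cases hd : d = a
      · rw [hd, crs_self_left] at ho
        rcases ho with ⟨h1, h2⟩ | ⟨h1, h2⟩
        · exact lt_irrefl _ h2
        · exact lt_irrefl _ h2
      · exact hqE c d p hcd hc hd hp' hp
  · rw [hKmem] at htK'
    rcases htK' with ⟨x, y, he, hxa, hya, hseg⟩ | h
    swap
    · exact absurd h.1 hqG
    have hqx : x ≠ q := by rintro h; exact hqG (h ▸ G.mem he)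
    have hqy : y ≠ q := by rintro h; exact hqG (h ▸ G.mem (G.symm he))
    have hqo : q ∈ openSegment ℝ x y := mem_openSegment_of_ne_left_right hqx hqy hseg
    have main : ∀ x y, G.E x y → x ≠ a → y ≠ a → q ∈ openSegment ℝ x y → 0 < crs a b x →
        ∃ c, G.E a c ∧ 0 < crs a b c := by
      intro x y he hxa hya hqo hx
      have hD := G.co_ne ha he hxa hya hqo hqV
      obtain ⟨w, hw, h1, h2⟩ := G.exists_edge_aux ha he hqo hD hqV hqE
      refine ⟨w, hw, ?_⟩
      have e := co_eq hD w
      have e2 : crs a b w = coS a q x w * crs a b q + coT a q x w * crs a b x := by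
        nth_rewrite 1 [e]
        simp only [crs, Prod.fst_add, Prod.snd_add, Prod.smul_fst, Prod.smul_snd, smul_eq_mul]
        ring
      rw [e2]
      have := mul_nonneg h1 hcqpos.le
      have := mul_pos h2 hx
      linarith
    by_cases hx : 0 < crs a b x
    · exact main x y he hxa hya hqo hx
    · refine main y x (G.symm he) hya hxa (by rw [openSegment_symm]; exact hqo) ?_
      push Not at hx
      obtain ⟨m, m0, m1, hm⟩ := mem_openSegment_iff_param.1 hqo
      have h2 : crs a b q = (1 - m) * crs a b x + m * crs a b y := by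
        rw [hm, crs_aff _ _ _ _ _ _ (by ring)]
      by_contra hc
      push Not at hc
      have := mul_nonpos_of_nonneg_of_nonpos (show (0 : ℝ) ≤ 1 - m by linarith) hx
      have := mul_nonpos_of_nonneg_of_nonpos m0.le hc
      linarith

end Cfg

end Helper85.AG
end
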