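import Pool.Agent.Helper16.VGG.G01

/- AG.Quad -/
section
/-!
# Project AG (MP_586e8d), block GEO-B: the convex quadrilateral of a `U` diagonal, seeing lemmas

`t1 = (x,y,w1)`, `t2 = (y,x,w2)` counterclockwise, common diagonal `xy`; both angle sums at `x`
and at `y` are smaller than `π`, i.e. `Ccw x w2 w1` and `Ccw y w1 w2`.
-/

namespace AG

/-- the closed quadrilateral `x w2 y w1` -/
def quad (x y w1 w2 : Pt) : Set Pt :=
  {p | 0 ≤ cr x w2 p ∧ 0 ≤ cr w2 y p ∧ 0 ≤ cr y w1 p ∧ 0 ≤ cr w1 x p}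

theorem convex_quad (x y w1 w2 : Pt) : Convex ℝ (quad x y w1 w2) := by
  have : quad x y w1 w2 = {p | 0 ≤ cr x w2 p} ∩ ({p | 0 ≤ cr w2 y p} ∩
    ({p | 0 ≤ cr y w1 p} ∩ {p | 0 ≤ cr w1 x p})) := rfl
  rw [this]
  exact (convex_half _ _).inter ((convex_half _ _).inter ((convex_half _ _).inter (convex_half _ _)))

/-- hypotheses of a `U` diagonal -/
structure UQ (x y w1 w2 : Pt) : Prop where
  t1 : Ccw x y w1
  t2 : Ccw y x w2
  ax : Ccw x w2 w1
  ay : Ccw y w1 w2

namespace UQ

variable {x y w1 w2 : Pt}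

theorem of_ang (h1 : Ccw x y w1) (h2 : Ccw y x w2) (hx : ang x w2 y + ang x y w1 < Real.pi)
    (hy : ang y w1 x + ang y x w2 < Real.pi) : UQ x y w1 w2 :=
  ⟨h1, h2, (ang_add h2.rot h1 hx).1, (ang_add h1.rot h2 hy).1⟩

/-- the other diagonal of the same quadrilateral -/
theorem flip (h : UQ x y w1 w2) : UQ w2 w1 x y := ⟨h.ax.rot, h.ay.rot, h.t2.rot', h.t1.rot'⟩

theorem symm (h : UQ x y w1 w2) : UQ y x w2 w1 := ⟨h.t2, h.t1, h.ay, h.ax⟩

end UQ

theorem quad_symm (x y w1 w2 : Pt) : quad y x w2 w1 = quad x y w1 w2 := by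
  ext p; unfold quad; simp only [Set.mem_setOf_eq]; tauto

theorem quad_flip (x y w1 w2 : Pt) : quad w2 w1 x y = quad x y w1 w2 := by
  ext p; unfold quad; simp only [Set.mem_setOf_eq]; tauto

theorem UQ.sub1 {x y w1 w2 : Pt} (h : UQ x y w1 w2) : ctri x y w1 ⊆ quad x y w1 w2 := by
  rintro p ⟨h1, h2, h3⟩
  have e1 : cr x y w1 * cr x w2 p = cr w1 x p * cr x w2 y + cr x y p * cr x w2 w1 := by
    unfold cr; ring
  have e2 : cr x y w1 * cr w2 y p = cr y w1 p * cr w2 y x + cr x y p * cr w2 y w1 := by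
    unfold cr; ring
  have p0 : 0 < cr x y w1 := h.t1
  have p1 : 0 < cr x w2 y := h.t2.rot
  have p2 : 0 < cr w2 y x := h.t2.rot'
  have p3 : 0 < cr x w2 w1 := h.ax
  have p4 : 0 < cr w2 y w1 := h.ay.rot'
  refine ⟨?_, ?_, h2, h3⟩
  · refine nonneg_of_mul_nonneg_right ?_ p0
    rw [e1]; positivity
  · refine nonneg_of_mul_nonneg_right ?_ p0
    rw [e2]; positivity

theorem UQ.sub2 {x y w1 w2 : Pt} (h : UQ x y w1 w2) : ctri y x w2 ⊆ quad x y w1 w2 := by
  rw [← quad_symm]; exact h.symm.sub1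

/-- the two triangles at the diagonal `xy` fill the quadrilateral -/
theorem UQ.union {x y w1 w2 : Pt} (h : UQ x y w1 w2) :
    ctri x y w1 ∪ ctri y x w2 = quad x y w1 w2 := by
  apply Set.Subset.antisymm
  · exact Set.union_subset h.sub1 h.sub2
  · rintro p ⟨h1, h2, h3, h4⟩
    rcases le_total 0 (cr x y p) with h5 | h5
    · exact Or.inl ⟨h5, h3, h4⟩
    · refine Or.inr ⟨?_, h1, h2⟩
      rw [cr_swap']; linarith

/-- the flip does not change the union -/
theorem UQ.union_flip {x y w1 w2 : Pt} (h : UQ x y w1 w2) :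
    ctri x w2 w1 ∪ ctri y w1 w2 = ctri x y w1 ∪ ctri y x w2 := by
  rw [h.union, ← quad_flip, ← h.flip.union, ctri_rot x w2 w1, ctri_rot y w1 w2]

/-- every point of an open triangle of the flipped pair which is not on the line `xy` is in an
old open triangle -/
theorem UQ.otri_sub {x y w1 w2 : Pt} (h : UQ x y w1 w2) {p : Pt}
    (hp : p ∈ otri x w2 w1 ∨ p ∈ otri y w1 w2) (hne : cr x y p ≠ 0) :
    p ∈ otri x y w1 ∨ p ∈ otri y x w2 := by
  -- the four strict inequalities
  have key : ∀ {x y w1 w2 : Pt}, UQ x y w1 w2 → ∀ p, p ∈ otri x y w1 →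
      0 < cr x w2 p ∧ 0 < cr w2 y p ∧ 0 < cr y w1 p ∧ 0 < cr w1 x p := by
    rintro x y w1 w2 h p ⟨h1, h2, h3⟩
    have e1 : cr x y w1 * cr x w2 p = cr w1 x p * cr x w2 y + cr x y p * cr x w2 w1 := by
      unfold cr; ring
    have e2 : cr x y w1 * cr w2 y p = cr y w1 p * cr w2 y x + cr x y p * cr w2 y w1 := by
      unfold cr; ring
    have p0 : 0 < cr x y w1 := h.t1
    have p1 : 0 < cr x w2 y := h.t2.rot
    have p2 : 0 < cr w2 y x := h.t2.rot'
    have p3 : 0 < cr x w2 w1 := h.ax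
    have p4 : 0 < cr w2 y w1 := h.ay.rot'
    refine ⟨?_, ?_, h2, h3⟩
    · refine (mul_pos_iff_of_pos_left p0).1 ?_
      rw [e1]; positivity
    · refine (mul_pos_iff_of_pos_left p0).1 ?_
      rw [e2]; positivity
  have hq : 0 < cr x w2 p ∧ 0 < cr w2 y p ∧ 0 < cr y w1 p ∧ 0 < cr w1 x p := by
    rcases hp with hp | hp
    · have := key h.flip p (by rw [otri_rot]; exact hp)
      tauto
    · have := key h.flip.symm p (by rw [otri_rot]; exact hp)
      tauto
  rcases lt_or_gt_of_ne hne with h5 | h5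
  · right
    refine ⟨?_, hq.1, hq.2.1⟩
    rw [cr_swap']; linarith
  · left
    exact ⟨h5, hq.2.2.1, hq.2.2.2⟩

/-- a nonempty open set contains a point off a line -/
theorem exists_off_line {U : Set Pt} (hU : IsOpen U) (hne : U.Nonempty) {x y : Pt} (hxy : x ≠ y) :
    ∃ p ∈ U, cr x y p ≠ 0 := by
  obtain ⟨p, hp⟩ := hne
  have hpos : 0 < (y.1 - x.1) ^ 2 + (y.2 - x.2) ^ 2 := by
    by_contra hcon
    apply hxy
    have h1 : (y.1 - x.1) ^ 2 = 0 := by nlinarith [sq_nonneg (y.1 - x.1), sq_nonneg (y.2 - x.2)]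
    have h2 : (y.2 - x.2) ^ 2 = 0 := by nlinarith [sq_nonneg (y.1 - x.1), sq_nonneg (y.2 - x.2)]
    have h3 := pow_eq_zero_iff (two_ne_zero) |>.1 h1
    have h4 := pow_eq_zero_iff (two_ne_zero) |>.1 h2
    ext <;> linarith
  let f : ℝ → Pt := fun e => (p.1 - e * (y.2 - x.2), p.2 + e * (y.1 - x.1))
  have hf : Continuous f := by
    refine Continuous.prodMk ?_ ?_ <;> fun_prop
  have hf0 : f 0 = p := by simp [f]
  have hcr : ∀ e, cr x y (f e) = cr x y p + e * ((y.1 - x.1) ^ 2 + (y.2 - x.2) ^ 2) := by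
    intro e; simp only [f, cr]; ring
  have hU0 : f ⁻¹' U ∈ nhds (0 : ℝ) :=
    hf.continuousAt.preimage_mem_nhds (by rw [hf0]; exact hU.mem_nhds hp)
  rcases eq_or_ne (cr x y p) 0 with h0 | h0
  · have h1 : ∃ᶠ e in nhdsWithin (0 : ℝ) {0}ᶜ, e ∈ f ⁻¹' U ∧ e ≠ 0 := by
      apply Filter.Eventually.frequently
      filter_upwards [mem_nhdsWithin_of_mem_nhds hU0, self_mem_nhdsWithin] with e he he'
      exact ⟨he, he'⟩
    obtain ⟨e, he, he'⟩ := h1.exists
    refine ⟨f e, he, ?_⟩
    rw [hcr, h0, zero_add]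
    exact mul_ne_zero he' hpos.ne'
  · exact ⟨p, hp, h0⟩

/-- two triangles on the same side of the same directed side overlap -/
theorem otri_inter_same_side {a b c d : Pt} (h1 : Ccw a b c) (h2 : Ccw a b d) :
    (otri a b c ∩ otri a b d).Nonempty := by
  have hpos : 0 < (b.1 - a.1) ^ 2 + (b.2 - a.2) ^ 2 := by
    by_contra hcon
    apply h1.ne
    have h1 : (b.1 - a.1) ^ 2 = 0 := by nlinarith [sq_nonneg (b.1 - a.1), sq_nonneg (b.2 - a.2)]
    have h2 : (b.2 - a.2) ^ 2 = 0 := by nlinarith [sq_nonneg (b.1 - a.1), sq_nonneg (b.2 - a.2)]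
    have h3 := pow_eq_zero_iff (two_ne_zero) |>.1 h1
    have h4 := pow_eq_zero_iff (two_ne_zero) |>.1 h2
    ext <;> linarith
  let m : Pt := ((a.1 + b.1) / 2, (a.2 + b.2) / 2)
  let f : ℝ → Pt := fun e => (m.1 - e * (b.2 - a.2), m.2 + e * (b.1 - a.1))
  have hf : Continuous f := by
    refine Continuous.prodMk ?_ ?_ <;> fun_prop
  have hcr : ∀ e, cr a b (f e) = e * ((b.1 - a.1) ^ 2 + (b.2 - a.2) ^ 2) := by
    intro e; simp only [f, m, cr]; ring
  have hc : ∀ u v : Pt, Continuous fun e => cr u v (f e) := by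
    intro u v
    simp only [f, cr]
    fun_prop
  have hev : ∀ u v : Pt, 0 < cr u v (f 0) → ∀ᶠ e in nhdsWithin (0 : ℝ) (Set.Ioi 0),
      0 < cr u v (f e) := by
    intro u v h
    exact mem_nhdsWithin_of_mem_nhds ((hc u v).continuousAt.eventually (lt_mem_nhds h))
  have e1 : cr b c (f 0) = cr a b c / 2 := by simp only [f, m, cr]; ring
  have e2 : cr c a (f 0) = cr a b c / 2 := by simp only [f, m, cr]; ring
  have e3 : cr b d (f 0) = cr a b d / 2 := by simp only [f, m, cr]; ring
  have e4 : cr d a (f 0) = cr a b d / 2 := by simp only [f, m, cr]; ring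
  have q1 : 0 < cr a b c / 2 := half_pos h1
  have q2 : 0 < cr a b d / 2 := half_pos h2
  have hall : ∀ᶠ e in nhdsWithin (0 : ℝ) (Set.Ioi 0),
      0 < cr b c (f e) ∧ 0 < cr c a (f e) ∧ 0 < cr b d (f e) ∧ 0 < cr d a (f e) ∧ 0 < e := by
    filter_upwards [hev b c (by rw [e1]; exact q1), hev c a (by rw [e2]; exact q1),
      hev b d (by rw [e3]; exact q2), hev d a (by rw [e4]; exact q2), self_mem_nhdsWithin]
      with e p1 p2 p3 p4 p5
    exact ⟨p1, p2, p3, p4, p5⟩
  obtain ⟨e, p1, p2, p3, p4, p5⟩ := hall.exists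
  have p6 : 0 < cr a b (f e) := by rw [hcr]; exact mul_pos p5 hpos
  exact ⟨f e, ⟨p6, p1, p2⟩, ⟨p6, p3, p4⟩⟩

/-- (disjointness after the flip) -/
theorem UQ.disj_flip {x y w1 w2 : Pt} (h : UQ x y w1 w2) {O : Set Pt} (hO : IsOpen O)
    (h1 : Disjoint (otri x y w1) O) (h2 : Disjoint (otri y x w2) O) :
    Disjoint (otri x w2 w1) O ∧ Disjoint (otri y w1 w2) O := by
  have key : ∀ T : Set Pt, IsOpen T → (∀ p ∈ T, p ∈ otri x w2 w1 ∨ p ∈ otri y w1 w2) →
      Disjoint T O := by
    intro T hT hsub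
    rw [Set.disjoint_iff_inter_eq_empty]
    by_contra hne
    have hne' : (T ∩ O).Nonempty := Set.nonempty_iff_ne_empty.2 hne
    obtain ⟨p, hp, hc⟩ := exists_off_line (hT.inter hO) hne' h.t1.ne
    rcases h.otri_sub (hsub p hp.1) hc with h3 | h3
    · exact Set.disjoint_left.1 h1 h3 hp.2
    · exact Set.disjoint_left.1 h2 h3 hp.2
  exact ⟨key _ (isOpen_otri _ _ _) fun p hp => Or.inl hp,
    key _ (isOpen_otri _ _ _) fun p hp => Or.inr hp⟩

/-- the two new triangles are disjoint -/
theorem UQ.disj_new {x y w1 w2 : Pt} (h : UQ x y w1 w2) :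
    Disjoint (otri x w2 w1) (otri y w1 w2) := by
  rw [Set.disjoint_left]
  rintro p ⟨_, h2, _⟩ ⟨_, h4, _⟩
  rw [cr_swap'] at h4
  linarith

/-- (c3) a triangle with side `w1w2` meets the interior of the quadrilateral in an old triangle -/
theorem UQ.c3 {x y w1 w2 u : Pt} (h : UQ x y w1 w2) (hu : Ccw w1 w2 u) :
    ∃ p ∈ otri w1 w2 u, p ∈ otri x y w1 ∨ p ∈ otri y x w2 := by
  have h1 := otri_inter_same_side hu h.ay.rot
  obtain ⟨p, hp, hc⟩ := exists_off_line ((isOpen_otri _ _ _).inter (isOpen_otri _ _ _)) h1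
    h.t1.ne
  refine ⟨p, hp.1, h.otri_sub (Or.inr ?_) hc⟩
  rw [← otri_rot]; exact hp.2

/-! ### seeing -/

/-- every point of the quadrilateral sees every point of the quadrilateral -/
theorem UQ.sees {x y w1 w2 : Pt} (h : UQ x y w1 w2) {q p : Pt}
    (hq : q ∈ ctri x y w1 ∪ ctri y x w2) (hp : p ∈ ctri x y w1 ∪ ctri y x w2) :
    segment ℝ q p ⊆ ctri x y w1 ∪ ctri y x w2 := by
  rw [h.union] at *
  exact (convex_quad _ _ _ _).segment_subset hq hp

/-- seeing through a side which is blocked only at `y`: `t1 = (x,y,w1)`, `t = (y,x,x')`, the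
angle sum at `x` is smaller than `π` (`Ccw x x' w1`), `p` in `t` on the left of the ray from `y`
... i.e. `0 ≤ cr y w1 p` -/
theorem sees_half {x y w1 x' p : Pt} (h1 : Ccw x y w1) (h2 : Ccw y x x') (hx : Ccw x x' w1)
    (hp : p ∈ ctri y x x') (hy : 0 ≤ cr y w1 p) :
    segment ℝ w1 p ⊆ ctri x y w1 ∪ ctri y x x' := by
  rintro q ⟨s, r, hs, hr, hsr, rfl⟩
  obtain ⟨hp1, hp2, hp3⟩ := hp
  have h1' : 0 < cr x y w1 := h1
  have h2' : 0 < cr y x x' := h2
  have hx' : 0 < cr x x' w1 := hx
  have k1 : 0 ≤ cr w1 x p := by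
    have e : cr y x x' * cr w1 x p = cr x x' p * cr x y w1 + cr y x p * cr x x' w1 := by
      unfold cr; ring
    refine nonneg_of_mul_nonneg_right ?_ h2'
    rw [e]; positivity
  have c1 : cr y w1 (s • w1 + r • p) = r * cr y w1 p := by
    rw [cr_affine _ _ _ _ _ _ hsr, cr_self_right]; ring
  have c2 : cr w1 x (s • w1 + r • p) = r * cr w1 x p := by
    rw [cr_affine _ _ _ _ _ _ hsr, cr_self_left]; ring
  have c3 : cr x y (s • w1 + r • p) = s * cr x y w1 - r * cr y x p := by
    rw [cr_affine _ _ _ _ _ _ hsr, cr_swap' y x p]; ring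
  have c4 : cr x x' (s • w1 + r • p) = s * cr x x' w1 + r * cr x x' p :=
    cr_affine _ _ _ _ _ _ hsr
  have c5 : cr x' y (s • w1 + r • p) = s * cr x' y w1 + r * cr x' y p :=
    cr_affine _ _ _ _ _ _ hsr
  rcases le_total 0 (cr x y (s • w1 + r • p)) with h5 | h5
  · left
    refine ⟨h5, ?_, ?_⟩
    · rw [c1]; positivity
    · rw [c2]; positivity
  · right
    refine ⟨?_, ?_, ?_⟩
    · rw [cr_swap']; linarith
    · rw [c4]; positivity
    · rw [c5]
      rcases le_total 0 (cr x' y w1) with h6 | h6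
      · positivity
      · have pl : cr x y w1 * cr x' y p + cr y x p * cr x' y w1 = cr y w1 p * cr y x x' := by
          unfold cr; ring
        have pl' : 0 ≤ cr x y w1 * cr x' y p + cr y x p * cr x' y w1 := by
          rw [pl]; positivity
        have h7 : s * cr x y w1 ≤ r * cr y x p := by rw [c3] at h5; linarith
        have h8 : (r * cr y x p) * cr x' y w1 ≤ (s * cr x y w1) * cr x' y w1 :=
          mul_le_mul_of_nonpos_right h7 h6
        refine nonneg_of_mul_nonneg_right (a := cr x y w1) ?_ h1'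
        nlinarith [mul_nonneg hr pl']

/-- the mirror image: `t2 = (y,x',w2)` on the other side of `t`: written for
`t = (y,x,x')`, `t2 = (x',... )`: side `x'y` of `t`, neighbour `(y,x',w2)`, angle sum at `x'`
smaller than `π` -/
theorem sees_half' {x y x' w2 p : Pt} (h1 : Ccw y x' w2) (h2 : Ccw y x x') (hx : Ccw x' w2 x)
    (hp : p ∈ ctri y x x') (hy : 0 ≤ cr y p w2) :
    segment ℝ w2 p ⊆ ctri y x' w2 ∪ ctri y x x' := by
  rintro q ⟨s, r, hs, hr, hsr, rfl⟩
  obtain ⟨hp1, hp2, hp3⟩ := hp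
  have h1' : 0 < cr y x' w2 := h1
  have h2' : 0 < cr y x x' := h2
  have hx' : 0 < cr x' w2 x := hx
  have k1 : 0 ≤ cr x' w2 p := by
    have e : cr y x x' * cr x' w2 p = cr x x' p * cr y x' w2 + cr x' y p * cr x' w2 x := by
      unfold cr; ring
    refine nonneg_of_mul_nonneg_right ?_ h2'
    rw [e]; positivity
  have c1 : cr w2 y (s • w2 + r • p) = r * cr y p w2 := by
    rw [cr_affine _ _ _ _ _ _ hsr, cr_self_left, ← cr_rot w2 y p]; ring
  have c2 : cr x' w2 (s • w2 + r • p) = r * cr x' w2 p := by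
    rw [cr_affine _ _ _ _ _ _ hsr, cr_self_right]; ring
  have c3 : cr y x' (s • w2 + r • p) = s * cr y x' w2 - r * cr x' y p := by
    rw [cr_affine _ _ _ _ _ _ hsr, cr_swap' x' y p]; ring
  have c4 : cr x x' (s • w2 + r • p) = s * cr x' w2 x + r * cr x x' p := by
    rw [cr_affine _ _ _ _ _ _ hsr, ← cr_rot x x' w2]
  have c5 : cr y x (s • w2 + r • p) = s * cr y x w2 + r * cr y x p :=
    cr_affine _ _ _ _ _ _ hsr
  rcases le_total 0 (cr y x' (s • w2 + r • p)) with h5 | h5
  · left
    refine ⟨h5, ?_, ?_⟩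
    · rw [c2]; positivity
    · rw [c1]; positivity
  · right
    refine ⟨?_, ?_, ?_⟩
    · rw [c5]
      rcases le_total 0 (cr y x w2) with h6 | h6
      · positivity
      · have pl : cr y x' w2 * cr y x p + cr x' y p * cr y x w2 = cr y p w2 * cr y x x' := by
          unfold cr; ring
        have pl' : 0 ≤ cr y x' w2 * cr y x p + cr x' y p * cr y x w2 := by
          rw [pl]; positivity
        have h7 : s * cr y x' w2 ≤ r * cr x' y p := by rw [c3] at h5; linarith
        have h8 : (r * cr x' y p) * cr y x w2 ≤ (s * cr y x' w2) * cr y x w2 :=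
          mul_le_mul_of_nonpos_right h7 h6
        refine nonneg_of_mul_nonneg_right (a := cr y x' w2) ?_ h1'
        nlinarith [mul_nonneg hr pl']
    · rw [c4]; positivity
    · rw [cr_swap']; linarith

/-- (pair) around `y`: `w1, x, x', w2` counterclockwise, total angle smaller than `2π`; then a
point `p` of the triangle `(y,x,x')` is not more than `π` away from `w1` or from `w2` -/
theorem pair_dichotomy {y w1 x x' w2 p : Pt} (h1 : Ccw y w1 x) (h2 : Ccw y x x')
    (h3 : Ccw y x' w2) (hs : ang y w1 x + ang y x x' + ang y x' w2 < 2 * Real.pi)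
    (hp : p ∈ ctri y x x') : 0 ≤ cr y w1 p ∨ 0 ≤ cr y p w2 := by
  obtain ⟨hp1, hp2, hp3⟩ := hp
  have h1' : 0 < cr y w1 x := h1
  have h2' : 0 < cr y x x' := h2
  have h3' : 0 < cr y x' w2 := h3
  have hp3' : 0 ≤ cr y p x' := by rw [cr_rot x' y p]; exact hp3
  have e1 : cr y x x' * cr y w1 p = cr y p x' * cr y w1 x + cr y x p * cr y w1 x' := by
    unfold cr; ring
  have e2 : cr y x x' * cr y p w2 = cr y x p * cr y x' w2 + cr y p x' * cr y x w2 := by
    unfold cr; ring
  rcases hp1.eq_or_lt with h0 | h0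
  · left
    refine nonneg_of_mul_nonneg_right ?_ h2'
    rw [e1, ← h0]
    have : 0 ≤ cr y p x' * cr y w1 x := by positivity
    linarith
  rcases hp3'.eq_or_lt with h0' | h0'
  · right
    refine nonneg_of_mul_nonneg_right ?_ h2'
    rw [e2, ← h0']
    have : 0 ≤ cr y x p * cr y x' w2 := by positivity
    linarith
  by_contra hcon
  push Not at hcon
  have a1 : ¬ Ccw y w1 p := fun h => absurd h (by unfold Ccw; linarith [hcon.1])
  have a2 : ¬ Ccw y p w2 := fun h => absurd h (by unfold Ccw; linarith [hcon.2])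
  rw [← ang_add_lt_pi_iff h1 h0] at a1
  rw [← ang_add_lt_pi_iff h0' h3] at a2
  have a3 := ang_add_of_ccw (a := y) (b := x) (c := p) (d := x') h0 h0' h2
  linarith

end AG
end

/- AG.Geo -/
section
/-!
# Project AG (MP_586e8d), block GEO-B: geometric objects

`Geo S pt`: the triangles of `S` are counterclockwise, glued sides match, the open triangles are
pairwise disjoint, and at EVERY POINT the sum of all angles is smaller than `2π`.
-/

set_option linter.unusedSectionVars false
set_option linter.unusedSimpArgs false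

namespace AG

open Finset

variable {I : Type} [DecidableEq I]

/-- the angle at the corner `a` -/
noncomputable def cang (pt : Sd I → Pt) (a : Sd I) : ℝ := ang (pt a) (pt (rot a)) (pt (unrot a))

/-- the open triangle of the corner `a` -/
def ctr (pt : Sd I → Pt) (a : Sd I) : Set Pt := otri (pt a) (pt (rot a)) (pt (unrot a))

open Classical in
/-- geometric objects -/
structure Geo (S : Obj I) (pt : Sd I → Pt) : Prop where
  ccw0 : ∀ t ∈ S.F, Ccw (pt (t, 0)) (pt (t, 1)) (pt (t, 2))
  mat : ∀ a, S.g a ≠ a → pt (rot (S.g a)) = pt a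
  disj0 : ∀ t ∈ S.F, ∀ t' ∈ S.F, t ≠ t' →
    Disjoint (otri (pt (t, 0)) (pt (t, 1)) (pt (t, 2))) (otri (pt (t', 0)) (pt (t', 1)) (pt (t', 2)))
  asum : ∀ p : Pt, ∑ a ∈ S.sides.filter (fun a => pt a = p), cang pt a < 2 * Real.pi

/-- the diagonal `{a, S.g a}` is BLOCKED AT THE START POINT of `a`, i.e. at the visit of the
corner `a` -/
def Blk (S : Obj I) (pt : Sd I → Pt) (a : Sd I) : Prop :=
  S.g a ≠ a ∧ Real.pi ≤ cang pt a + cang pt (rot (S.g a))

/-- the diagonal `{a, S.g a}` is a `U` diagonal -/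
structure IsU (S : Obj I) (pt : Sd I → Pt) (a : Sd I) : Prop where
  glued : S.g a ≠ a
  start : cang pt a + cang pt (rot (S.g a)) < Real.pi
  stop : cang pt (S.g a) + cang pt (rot a) < Real.pi

/-! ### triangles, independent of the first corner -/

theorem ctr_eq0 (pt : Sd I → Pt) (a : Sd I) :
    ctr pt a = otri (pt (a.1, 0)) (pt (a.1, 1)) (pt (a.1, 2)) := by
  rcases a with ⟨t, i⟩
  fin_cases i
  · rfl
  · exact otri_rot (pt (t, 0)) (pt (t, 1)) (pt (t, 2))
  · exact (otri_rot (pt (t, 2)) (pt (t, 0)) (pt (t, 1))).symm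

theorem tri_eq (pt : Sd I → Pt) (a : Sd I) :
    tri pt a.1 = ctri (pt a) (pt (rot a)) (pt (unrot a)) := by
  rcases a with ⟨t, i⟩
  fin_cases i
  · rfl
  · exact (ctri_rot (pt (t, 0)) (pt (t, 1)) (pt (t, 2))).symm
  · exact ctri_rot (pt (t, 2)) (pt (t, 0)) (pt (t, 1))

theorem tri_eq' (pt : Sd I → Pt) {t : I} {a : Sd I} (h : a.1 = t) :
    tri pt t = ctri (pt a) (pt (rot a)) (pt (unrot a)) := by rw [← h, tri_eq]

theorem ctr_rot (pt : Sd I → Pt) (a : Sd I) : ctr pt (rot a) = ctr pt a := by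
  rw [ctr_eq0, ctr_eq0, rot_fst]

theorem ctr_unrot (pt : Sd I → Pt) (a : Sd I) : ctr pt (unrot a) = ctr pt a := by
  rw [ctr_eq0, ctr_eq0, unrot_fst]

theorem ccw_of_ccw0 {pt : Sd I → Pt} {a : Sd I}
    (h : Ccw (pt (a.1, 0)) (pt (a.1, 1)) (pt (a.1, 2))) : Ccw (pt a) (pt (rot a)) (pt (unrot a)) := by
  rcases a with ⟨t, i⟩
  fin_cases i
  · exact h
  · exact h.rot
  · exact h.rot'

namespace Geo

variable {S : Obj I} {pt : Sd I → Pt} (hG : Geo S pt)
include hG

theorem ccw {a : Sd I} (h : a.1 ∈ S.F) : Ccw (pt a) (pt (rot a)) (pt (unrot a)) :=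
  ccw_of_ccw0 (hG.ccw0 _ h)

theorem disj {a b : Sd I} (ha : a.1 ∈ S.F) (hb : b.1 ∈ S.F) (h : a.1 ≠ b.1) :
    Disjoint (ctr pt a) (ctr pt b) := by
  rw [ctr_eq0, ctr_eq0]; exact hG.disj0 _ ha _ hb h

/-- the other end of a glued side -/
theorem mat' {a : Sd I} (h : S.g a ≠ a) : pt (S.g a) = pt (rot a) := by
  have := hG.mat (S.g a) (Obj.g_ne_iff.2 h)
  rw [S.invol] at this
  exact this.symm

/-- equivalent corners lie at the same point -/
theorem pt_eqv {a b : Sd I} (h : S.Eqv a b) : pt a = pt b := by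
  induction h with
  | rel x y hxy => obtain ⟨h1, rfl⟩ := hxy; exact (hG.mat x h1).symm
  | refl x => rfl
  | symm x y _ ih => exact ih.symm
  | trans x y z _ _ ih1 ih2 => exact ih1.trans ih2

theorem pt_cw (a : Sd I) : pt (S.cw a) = pt a := (hG.pt_eqv (S.cw_eqv a)).symm

theorem pt_ne_rot {a : Sd I} (h : a.1 ∈ S.F) : pt a ≠ pt (rot a) := (hG.ccw h).ne
theorem pt_ne_unrot {a : Sd I} (h : a.1 ∈ S.F) : pt a ≠ pt (unrot a) := (hG.ccw h).ne'
theorem pt_rot_ne_unrot {a : Sd I} (h : a.1 ∈ S.F) : pt (rot a) ≠ pt (unrot a) := (hG.ccw h).ne''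

/-- two corners of the same triangle at the same point are equal -/
theorem eq_of_fst {a b : Sd I} (h : a.1 ∈ S.F) (h1 : b.1 = a.1) (h2 : pt b = pt a) : b = a := by
  rcases eq_of_fst_eq h1 with h3 | h3 | h3
  · exact h3
  · subst h3; exact absurd h2.symm (hG.pt_ne_rot h)
  · subst h3; exact absurd h2.symm (hG.pt_ne_unrot h)

/-- A DIRECTED SEGMENT IS A SIDE OF AT MOST ONE TRIANGLE -/
theorem side_inj {a b : Sd I} (ha : a.1 ∈ S.F) (hb : b.1 ∈ S.F) (h1 : pt a = pt b)
    (h2 : pt (rot a) = pt (rot b)) : a = b := by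
  by_contra hne
  have hfst : a.1 ≠ b.1 := by
    intro e
    exact hne (hG.eq_of_fst hb e h1)
  have hd := hG.disj ha hb hfst
  have hcb := hG.ccw hb
  rw [← h1, ← h2] at hcb
  obtain ⟨p, hp1, hp2⟩ := otri_inter_same_side (hG.ccw ha) hcb
  refine Set.disjoint_left.1 hd hp1 ?_
  unfold ctr
  rw [← h1, ← h2]
  exact hp2

/-- a side opposite to a glued side `a` is `S.g a`: TWO DIFFERENT DIAGONALS WITH THE SAME ENDS
ARE IMPOSSIBLE -/
theorem side_anti {a b : Sd I} (ha : S.g a ≠ a) (hb : b.1 ∈ S.F) (h1 : pt b = pt (rot a))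
    (h2 : pt (rot b) = pt a) : b = S.g a := by
  apply hG.side_inj hb (Obj.g_memF ha)
  · rw [h1, hG.mat' ha]
  · rw [h2, hG.mat a ha]

/-! ### angles -/

theorem cang_pos {a : Sd I} (h : a.1 ∈ S.F) : 0 < cang pt a := ang_pos (hG.ccw h)

theorem cang_lt {a : Sd I} (h : a.1 ∈ S.F) : cang pt a < Real.pi := ang_lt_pi (hG.ccw h)

/-- the angles of a triangle -/
theorem cang_tri {a : Sd I} (h : a.1 ∈ S.F) :
    cang pt a + cang pt (rot a) + cang pt (unrot a) = Real.pi := by
  have h1 := ang_sum (hG.ccw h)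
  unfold cang
  rw [unrot_rot, rot_rot, rot_unrot, unrot_unrot]
  exact h1

/-- the sum of the angles of any set of corners at one point is smaller than `2π` -/
theorem sum_lt {X : Finset (Sd I)} (hX : ∀ c ∈ X, c.1 ∈ S.F) {p : Pt} (hp : ∀ c ∈ X, pt c = p) :
    ∑ c ∈ X, cang pt c < 2 * Real.pi := by
  classical
  have hsub : X ⊆ S.sides.filter (fun a => pt a = p) := by
    intro c hc
    exact mem_filter.2 ⟨Obj.mem_sides.2 (hX c hc), hp c hc⟩
  have h1 := Finset.sum_le_sum_of_subset_of_nonneg (f := cang pt) hsub (by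
    intro c hc _
    exact (hG.cang_pos (Obj.mem_sides.1 (mem_filter.1 hc).1)).le)
  refine lt_of_le_of_lt h1 ?_
  convert hG.asum p

theorem sum_two_lt {a b : Sd I} (ha : a.1 ∈ S.F) (hb : b.1 ∈ S.F) (hab : a ≠ b)
    (h : pt a = pt b) : cang pt a + cang pt b < 2 * Real.pi := by
  have := hG.sum_lt (X := {a, b}) (p := pt b) (by simp [ha, hb]) (by simp [h])
  rwa [Finset.sum_pair hab] at this

theorem sum_three_lt {a b c : Sd I} (ha : a.1 ∈ S.F) (hb : b.1 ∈ S.F) (hc : c.1 ∈ S.F)
    (hab : a ≠ b) (hac : a ≠ c) (hbc : b ≠ c) (h1 : pt a = pt c) (h2 : pt b = pt c) :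
    cang pt a + cang pt b + cang pt c < 2 * Real.pi := by
  have := hG.sum_lt (X := {a, b, c}) (p := pt c) (by simp [ha, hb, hc]) (by simp [h1, h2])
  rw [Finset.sum_insert (by simp [hab, hac]), Finset.sum_pair hbc] at this
  linarith

theorem sum_four_lt {a b c d : Sd I} (ha : a.1 ∈ S.F) (hb : b.1 ∈ S.F) (hc : c.1 ∈ S.F)
    (hd : d.1 ∈ S.F) (hab : a ≠ b) (hac : a ≠ c) (had : a ≠ d) (hbc : b ≠ c) (hbd : b ≠ d)
    (hcd : c ≠ d) (h1 : pt a = pt d) (h2 : pt b = pt d) (h3 : pt c = pt d) :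
    cang pt a + cang pt b + cang pt c + cang pt d < 2 * Real.pi := by
  have := hG.sum_lt (X := {a, b, c, d}) (p := pt d) (by simp [ha, hb, hc, hd])
    (by simp [h1, h2, h3])
  rw [Finset.sum_insert (by simp [hab, hac, had]), Finset.sum_insert (by simp [hbc, hbd]),
    Finset.sum_pair hcd] at this
  linarith

/-! ### blocked diagonals -/

/-- a diagonal is blocked at most at one end -/
theorem not_blk_both {a : Sd I} (h1 : Blk S pt a) (h2 : Blk S pt (S.g a)) : False := by
  have ha := S.memF a h1.1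
  have hb := Obj.g_memF h1.1
  have h3 := hG.cang_tri ha
  have h4 := hG.cang_tri hb
  have h5 := hG.cang_pos (a := unrot a) ha
  have h6 := hG.cang_pos (a := unrot (S.g a)) hb
  have h7 := h1.2
  have h8 := h2.2
  rw [S.invol] at h8
  linarith

omit hG in
/-- trichotomy for a glued side -/
theorem isU_or_blk {a : Sd I} (h : S.g a ≠ a) : IsU S pt a ∨ Blk S pt a ∨ Blk S pt (S.g a) := by
  by_cases h1 : Real.pi ≤ cang pt a + cang pt (rot (S.g a))
  · exact Or.inr (Or.inl ⟨h, h1⟩)
  by_cases h2 : Real.pi ≤ cang pt (S.g a) + cang pt (rot a)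
  · refine Or.inr (Or.inr ⟨Obj.g_ne_iff.2 h, ?_⟩)
    rw [S.invol]; exact h2
  · exact Or.inl ⟨h, not_le.1 h1, not_le.1 h2⟩

omit hG in
theorem _root_.AG.IsU.symm {a : Sd I} (h : IsU S pt a) : IsU S pt (S.g a) :=
  ⟨Obj.g_ne_iff.2 h.glued, by rw [S.invol]; exact h.stop, by rw [S.invol]; exact h.start⟩

omit hG in
theorem _root_.AG.IsU.not_blk {a : Sd I} (h : IsU S pt a) : ¬ Blk S pt a := fun h1 =>
  absurd h1.2 (not_le.2 h.start)

omit hG in
theorem _root_.AG.IsU.not_blk' {a : Sd I} (h : IsU S pt a) : ¬ Blk S pt (S.g a) :=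
  h.symm.not_blk

omit hG in
theorem isU_iff {a : Sd I} : IsU S pt a ↔ S.g a ≠ a ∧ ¬ Blk S pt a ∧ ¬ Blk S pt (S.g a) := by
  constructor
  · intro h; exact ⟨h.glued, h.not_blk, h.not_blk'⟩
  · rintro ⟨h1, h2, h3⟩
    rcases isU_or_blk (pt := pt) h1 with h | h | h
    · exact h
    · exact absurd h h2
    · exact absurd h h3

/-- the corner `rot (S.g a)` is in the triangle across -/
theorem rot_g_ne {a : Sd I} (h : S.g a ≠ a) : rot (S.g a) ≠ a := by
  intro e
  exact S.ne a h (by rw [← rot_fst (S.g a), e])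

/-- (G1) two diagonals blocked at the same point are equal or consecutive -/
theorem blk_consecutive {a b : Sd I} (ha : Blk S pt a) (hb : Blk S pt b) (h : pt a = pt b) :
    a = b ∨ b = rot (S.g a) ∨ a = rot (S.g b) := by
  by_contra hcon
  push Not at hcon
  obtain ⟨h1, h2, h3⟩ := hcon
  have fa := S.memF a ha.1
  have fb := S.memF b hb.1
  have ga : (rot (S.g a)).1 ∈ S.F := Obj.g_memF ha.1
  have gb : (rot (S.g b)).1 ∈ S.F := Obj.g_memF hb.1
  have pa : pt (rot (S.g a)) = pt a := hG.mat a ha.1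
  have pb : pt (rot (S.g b)) = pt b := hG.mat b hb.1
  have n1 : a ≠ rot (S.g a) := (hG.rot_g_ne ha.1).symm
  have n2 : b ≠ rot (S.g b) := (hG.rot_g_ne hb.1).symm
  have n3 : rot (S.g a) ≠ rot (S.g b) := fun e => h1 (S.g_injective (rot_injective e))
  have key := hG.sum_four_lt fa ga fb gb n1 h1 h3 h2.symm n3 n2 (by rw [h, pb])
    (by rw [pa, h, pb]) (by rw [pb])
  have k1 := ha.2
  have k2 := hb.2
  linarith

/-- two diagonals blocked at the same point lie in the same visit -/
theorem blk_eqv {a b : Sd I} (ha : Blk S pt a) (hb : Blk S pt b) (h : pt a = pt b) :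
    S.Eqv a b := by
  rcases hG.blk_consecutive ha hb h with h1 | h1 | h1
  · rw [h1]; exact Obj.Eqv.refl _ _
  · rw [h1]; exact Obj.Eqv.of_glued ha.1
  · rw [h1]; exact (Obj.Eqv.of_glued hb.1).symm

/-- no three triangles around a point -/
theorem no_three {a : Sd I} (h1 : S.g a ≠ a) (h2 : S.g (rot (S.g a)) ≠ rot (S.g a))
    (h3 : rot (S.g (rot (S.g (rot (S.g a))))) = a) : False := by
  obtain ⟨c1, hc1⟩ : ∃ c, c = rot (S.g a) := ⟨_, rfl⟩
  obtain ⟨c2, hc2⟩ : ∃ c, c = rot (S.g c1) := ⟨_, rfl⟩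
  rw [← hc1] at h2 h3
  rw [← hc2] at h3
  have fa := S.memF a h1
  have f1 : c1.1 ∈ S.F := S.memF c1 h2
  have f2 : c2.1 ∈ S.F := by rw [hc2]; exact Obj.g_memF h2
  have p1 : pt c1 = pt a := by rw [hc1]; exact hG.mat a h1
  have p2 : pt c2 = pt c1 := by rw [hc2]; exact hG.mat c1 h2
  have h3' : S.g c2 ≠ c2 := by
    intro e
    rw [e] at h3
    exact hG.pt_ne_rot f2 (by rw [h3, p2, p1])
  have u1 : pt (unrot c1) = pt (rot a) := by rw [hc1, unrot_rot]; exact hG.mat' h1
  have u2 : pt (unrot c2) = pt (rot c1) := by rw [hc2, unrot_rot]; exact hG.mat' h2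
  have u3 : pt (unrot a) = pt (rot c2) := by rw [← h3, unrot_rot]; exact hG.mat' h3'
  have n1 : a ≠ c1 := by rw [hc1]; exact (hG.rot_g_ne h1).symm
  have n2 : c1 ≠ c2 := by rw [hc2]; exact (hG.rot_g_ne h2).symm
  have n3 : a ≠ c2 := by rw [← h3]; exact hG.rot_g_ne h3'
  have key := hG.sum_three_lt f2 f1 fa n2.symm n3.symm n1.symm (by rw [p2, p1]) p1
  have k2 := hG.ccw f2
  have k1 := hG.ccw f1
  have k0 := hG.ccw fa
  have e2 : cang pt c2 = ang (pt a) (pt (rot c2)) (pt (rot c1)) := by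
    unfold cang; rw [u2, p2, p1]
  have e1 : cang pt c1 = ang (pt a) (pt (rot c1)) (pt (rot a)) := by
    unfold cang; rw [u1, p1]
  have e0 : cang pt a = ang (pt a) (pt (rot a)) (pt (rot c2)) := by
    unfold cang; rw [u3]
  rw [p2, p1, u2] at k2
  rw [p1, u1] at k1
  rw [u3] at k0
  have := ang_sum_around k2 k1 k0
  rw [e2, e1, e0] at key
  linarith

/-- (G1) at most two diagonals are blocked at a point -/
theorem blk_three {a b c : Sd I} (ha : Blk S pt a) (hb : Blk S pt b) (hc : Blk S pt c)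
    (h1 : pt a = pt b) (h2 : pt b = pt c) : a = b ∨ a = c ∨ b = c := by
  by_contra hcon
  push Not at hcon
  obtain ⟨n1, n2, n3⟩ := hcon
  have inj : ∀ {u v w : Sd I}, u = rot (S.g v) → u = rot (S.g w) → v = w := fun e1 e2 =>
    S.g_injective (rot_injective (e1.symm.trans e2))
  rcases hG.blk_consecutive ha hb h1 with h3 | h3 | h3
  · exact n1 h3
  · -- b = cw a
    rcases hG.blk_consecutive hb hc h2 with h4 | h4 | h4
    · exact n3 h4
    · rcases hG.blk_consecutive ha hc (h1.trans h2) with h5 | h5 | h5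
      · exact n2 h5
      · exact n1 (inj h5 h4)
      · refine hG.no_three ha.1 (by rw [← h3]; exact hb.1) ?_
        rw [← h3, ← h4, ← h5]
    · exact n2 (inj h3 h4)
  · -- a = cw b
    rcases hG.blk_consecutive hb hc h2 with h4 | h4 | h4
    · exact n3 h4
    · exact n2 (h3.trans h4.symm)
    · rcases hG.blk_consecutive ha hc (h1.trans h2) with h5 | h5 | h5
      · exact n2 h5
      · refine hG.no_three ha.1 (by rw [← h5]; exact hc.1) ?_
        rw [← h5, ← h4, ← h3]
      · exact n3 (inj h3 h5)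

/-! ### restriction -/

theorem mono {S' : Obj I} (h : S'.Le S) : Geo S' pt where
  ccw0 t ht := hG.ccw0 t (h.F ht)
  mat a ha := by
    obtain ⟨h1, h2⟩ := h.glued ha
    rw [h1]; exact hG.mat a h2
  disj0 t ht t' ht' hne := hG.disj0 t (h.F ht) t' (h.F ht') hne
  asum p := by
    classical
    refine hG.sum_lt (p := p) ?_ ?_
    · intro c hc
      exact h.F (Obj.mem_sides.1 (mem_filter.1 hc).1)
    · intro c hc
      exact (mem_filter.1 hc).2

theorem _root_.AG.Blk.mono {S' : Obj I} (h : S'.Le S) {a : Sd I} (hb : Blk S' pt a) :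
    Blk S pt a := by
  obtain ⟨h1, h2⟩ := h.glued hb.1
  refine ⟨h2, ?_⟩
  rw [← h1]; exact hb.2

end Geo

end AG
end

/- AG.GeoFlip -/
section
/-!
# Project AG (MP_586e8d), block GEO-B: the flip of a `U` diagonal of a geometric object

TASK: prove the `sorry`s (in this order; the first lemmas are the pieces of the last one).

Notation: `b = S.g a`, `x = pt a`, `y = pt (rot a) = pt b`, `w1 = pt (unrot a)`,
`w2 = pt (unrot b)`, `pt (rot b) = x`.  The hypotheses of the quadrilateral are `hG.uq`.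
After the flip the triangle `a.1` is `(x,w2,w1)` and `b.1` is `(y,w1,w2)` (see Flip.lean); the
geometry is in Quad.lean: `UQ.disj_flip`, `UQ.disj_new`, `UQ.union_flip`, the angles are additive
by `ang_add_of_ccw` of Plane.lean.

`geo_flip`, field `asum`: for every point `p` the sum over all corners at `p` does not change.
Write the sum over `S.sides = S.F ×ˢ univ` as a sum over `t ∈ S.F` of
`∑ i, if pt (t,i) = p then cang (t,i) else 0` (`Finset.sum_filter`, `Finset.sum_product`), the
terms with `t ≠ a.1, b.1` are equal, and for `a.1`, `b.1` write the three corners as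
`a, rot a, unrot a` (lemma `sum_three` below) and use the six angle lemmas.
Field `mat`: for `c` with `(S.flip a h).g c ≠ c` put `d = sigB a b c` (so `c = sigF a b d` and
`S.g d ≠ d`) and distinguish `d = a`, `d = b` (the new diagonal), otherwise `d` and `S.g d` are both
different from `a, b`, and `flipPt (sigF d) = pt d`, `flipPt (rot (sigF d)) = pt (rot d)` for every
`d ≠ a, b` (lemmas `flipPt_sigF`, `flipPt_rot_sigF`).
-/

set_option linter.unusedSectionVars false
set_option linter.unusedSimpArgs false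

namespace AG

open Finset

variable {I : Type} [DecidableEq I]

/-- a sum over the three corners of a triangle, starting at any corner -/
theorem sum_three (f : Sd I → ℝ) (a : Sd I) :
    ∑ i : Fin 3, f (a.1, i) = f a + f (rot a) + f (unrot a) := by
  rcases a with ⟨t, i⟩
  have h1 : ∀ i : Fin 3, ∑ j : Fin 3, f (t, j) = f (t, i) + f (t, i + 1) + f (t, i + 2) := by
    intro i
    rw [Fin.sum_univ_three]
    fin_cases i
    · rfl
    · show f (t, 0) + f (t, 1) + f (t, 2) = f (t, 1) + f (t, 2) + f (t, 0)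
      ring
    · show f (t, 0) + f (t, 1) + f (t, 2) = f (t, 2) + f (t, 0) + f (t, 1)
      ring
  exact h1 i

section
variable {pt : Sd I → Pt} {a b : Sd I}

/-- start point of an old side under its new name (`d ≠ a, b`) -/
theorem flipPt_sigF (h : b.1 ≠ a.1) (h1 : pt b = pt (rot a)) (h2 : pt (rot b) = pt a) {d : Sd I}
    (hda : d ≠ a) (hdb : d ≠ b) : flipPt pt a b (sigF a b d) = pt d := by
  by_cases k1 : d = rot a
  · subst k1
    rw [sigF_ra, flipPt_b h, h1]
  by_cases k2 : d = rot b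
  · subst k2
    rw [sigF_rb h, flipPt_a h, h2]
  rw [sigF_other hda k1 hdb k2, flipPt_other k1 k2]

/-- end point of an old side under its new name (`d ≠ a, b`) -/
theorem flipPt_rot_sigF (h : b.1 ≠ a.1) (h1 : pt b = pt (rot a)) (h2 : pt (rot b) = pt a)
    {d : Sd I} (hda : d ≠ a) (hdb : d ≠ b) :
    flipPt pt a b (rot (sigF a b d)) = pt (rot d) := by
  by_cases k1 : d = rot a
  · subst k1
    rw [sigF_ra, flipPt_rb h, rot_rot]
  by_cases k2 : d = rot b
  · subst k2
    rw [sigF_rb h, flipPt_ra, rot_rot]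
  rw [sigF_other hda k1 hdb k2, flipPt_other (fun e => hda (rot_injective e))
    (fun e => hdb (rot_injective e))]

end

private theorem ccw0_of_ccw {pt : Sd I → Pt} {a : Sd I}
    (h : Ccw (pt a) (pt (rot a)) (pt (unrot a))) :
    Ccw (pt (a.1, 0)) (pt (a.1, 1)) (pt (a.1, 2)) := by
  rcases a with ⟨t, i⟩
  fin_cases i
  · exact h
  · exact h.rot'
  · exact h.rot

namespace Geo

variable {S : Obj I} {pt : Sd I → Pt} (hG : Geo S pt)
include hG

/-- the quadrilateral of a `U` diagonal -/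
theorem uq {a : Sd I} (hU : IsU S pt a) :
    UQ (pt a) (pt (rot a)) (pt (unrot a)) (pt (unrot (S.g a))) := by
  have h1 := hG.ccw (S.memF a hU.glued)
  have h2 := hG.ccw (Obj.g_memF hU.glued)
  have m1 := hG.mat' hU.glued
  have m2 := hG.mat a hU.glued
  rw [m1, m2] at h2
  have s1 := hU.start
  have s2 := hU.stop
  unfold cang at s1 s2
  rw [m2, rot_rot, unrot_rot, m1] at s1
  rw [m1, m2, rot_rot, unrot_rot] at s2
  refine UQ.of_ang h1 h2 ?_ ?_
  · rw [add_comm]; exact s1
  · rw [add_comm]; exact s2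

/-- angles after the flip: `a` -/
theorem cang_flip_a {a : Sd I} (hU : IsU S pt a) :
    cang (flipPt pt a (S.g a)) a = cang pt a + cang pt (rot (S.g a)) := by
  have hq := hG.uq hU
  have hba := S.ne a hU.glued
  have m1 := hG.mat' hU.glued
  have m2 := hG.mat a hU.glued
  unfold cang
  rw [flipPt_a hba, flipPt_ra, flipPt_ua hba, m2, rot_rot, unrot_rot, m1,
    ang_add_of_ccw hq.t2.rot hq.t1 hq.ax]
  ring

theorem cang_flip_b {a : Sd I} (hU : IsU S pt a) :
    cang (flipPt pt a (S.g a)) (S.g a) = cang pt (S.g a) + cang pt (rot a) := by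
  have hq := hG.uq hU
  have hba := S.ne a hU.glued
  have m1 := hG.mat' hU.glued
  have m2 := hG.mat a hU.glued
  unfold cang
  rw [flipPt_b hba, flipPt_rb hba, flipPt_ub hba, m1, m2, rot_rot, unrot_rot,
    ang_add_of_ccw hq.t1.rot hq.t2 hq.ay]
  ring

theorem cang_flip_w1 {a : Sd I} (hU : IsU S pt a) :
    cang (flipPt pt a (S.g a)) (unrot a) + cang (flipPt pt a (S.g a)) (rot (S.g a))
      = cang pt (unrot a) := by
  have hq := hG.uq hU
  have hba := S.ne a hU.glued
  have m1 := hG.mat' hU.glued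
  have m2 := hG.mat a hU.glued
  unfold cang
  rw [rot_unrot, unrot_unrot, rot_rot, unrot_rot, flipPt_ua hba, flipPt_a hba, flipPt_ra,
    flipPt_rb hba, flipPt_ub hba, flipPt_b hba, m1]
  exact (ang_add_of_ccw hq.ax.rot' hq.ay.rot hq.t1.rot').symm

theorem cang_flip_w2 {a : Sd I} (hU : IsU S pt a) :
    cang (flipPt pt a (S.g a)) (unrot (S.g a)) + cang (flipPt pt a (S.g a)) (rot a)
      = cang pt (unrot (S.g a)) := by
  have hq := hG.uq hU
  have hba := S.ne a hU.glued
  have m1 := hG.mat' hU.glued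
  have m2 := hG.mat a hU.glued
  unfold cang
  rw [rot_unrot, unrot_unrot, rot_rot, unrot_rot, flipPt_ub hba, flipPt_b hba, flipPt_rb hba,
    flipPt_ra, flipPt_ua hba, flipPt_a hba, m1, m2]
  exact (ang_add_of_ccw hq.ay.rot' hq.ax.rot hq.t2.rot').symm

omit hG in
theorem cang_flip_other {a b c : Sd I} (h1 : c.1 ≠ a.1) (h2 : c.1 ≠ b.1) :
    cang (flipPt pt a b) c = cang pt c := by
  unfold cang
  rw [flipPt_of_fst h1 h2, flipPt_of_fst (c := rot c) h1 h2, flipPt_of_fst (c := unrot c) h1 h2]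

/-- THE FLIP OF A `U` DIAGONAL IS A GEOMETRIC OBJECT -/
theorem geo_flip {a : Sd I} (hU : IsU S pt a) (hf : S.Flippable a) :
    Geo (S.flip a hf) (flipPt pt a (S.g a)) := by
  have hq := hG.uq hU
  have hba := S.ne a hU.glued
  have m1 := hG.mat' hU.glued
  have m2 := hG.mat a hU.glued
  have ha := S.memF a hU.glued
  have hb := Obj.g_memF hU.glued
  have ea : ctr (flipPt pt a (S.g a)) a = otri (pt a) (pt (unrot (S.g a))) (pt (unrot a)) := by
    unfold ctr
    rw [flipPt_a hba, flipPt_ra, flipPt_ua hba]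
  have eb : ctr (flipPt pt a (S.g a)) (S.g a) =
      otri (pt (rot a)) (pt (unrot a)) (pt (unrot (S.g a))) := by
    unfold ctr
    rw [flipPt_b hba, flipPt_rb hba, flipPt_ub hba, m1]
  have oa : ctr pt a = otri (pt a) (pt (rot a)) (pt (unrot a)) := rfl
  have ob : ctr pt (S.g a) = otri (pt (rot a)) (pt a) (pt (unrot (S.g a))) := by
    unfold ctr
    rw [m1, m2]
  have hother : ∀ t : I, t ≠ a.1 → t ≠ (S.g a).1 → ∀ i : Fin 3,
      flipPt pt a (S.g a) (t, i) = pt (t, i) := fun t h1 h2 i => flipPt_of_fst h1 h2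
  -- an open triangle of another name is disjoint from the two new triangles
  have hdis : ∀ t ∈ S.F, t ≠ a.1 → t ≠ (S.g a).1 →
      Disjoint (ctr (flipPt pt a (S.g a)) a) (otri (pt (t, 0)) (pt (t, 1)) (pt (t, 2))) ∧
      Disjoint (ctr (flipPt pt a (S.g a)) (S.g a))
        (otri (pt (t, 0)) (pt (t, 1)) (pt (t, 2))) := by
    intro t ht h1 h2
    rw [ea, eb]
    refine hq.disj_flip (isOpen_otri _ _ _) ?_ ?_
    · rw [← oa, ctr_eq0]
      exact hG.disj0 _ ha _ ht (Ne.symm h1)
    · rw [← ob, ctr_eq0]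
      exact hG.disj0 _ hb _ ht (Ne.symm h2)
  refine ⟨?_, ?_, ?_, ?_⟩
  · intro t ht
    by_cases h1 : t = a.1
    · subst h1
      apply ccw0_of_ccw
      rw [flipPt_a hba, flipPt_ra, flipPt_ua hba]
      exact hq.ax
    by_cases h2 : t = (S.g a).1
    · subst h2
      apply ccw0_of_ccw
      rw [flipPt_b hba, flipPt_rb hba, flipPt_ub hba, m1]
      exact hq.ay
    rw [hother t h1 h2, hother t h1 h2, hother t h1 h2]
    exact hG.ccw0 t ht
  · intro c hc
    obtain ⟨d, rfl⟩ : ∃ d, sigF a (S.g a) d = c := ⟨sigB a (S.g a) c, sigF_sigB hba c⟩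
    rw [Obj.flip_g_sig] at hc ⊢
    have hd : S.g d ≠ d := fun e => hc (by rw [e])
    by_cases h1 : d = a
    · subst h1
      rw [sigF_a, sigF_b hba, rot_rot, flipPt_ub hba, flipPt_ra]
    by_cases h2 : d = S.g a
    · subst h2
      rw [S.invol, sigF_a, sigF_b hba, rot_rot, flipPt_ua hba, flipPt_rb hba]
    have h3 : S.g d ≠ a := fun e => h2 (by rw [← e, S.invol])
    have h4 : S.g d ≠ S.g a := fun e => h1 (S.g_injective e)
    rw [flipPt_rot_sigF hba m1 m2 h3 h4, flipPt_sigF hba m1 m2 h1 h2]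
    exact hG.mat d hd
  · intro t ht t' ht' hne
    by_cases h1 : t = a.1
    · subst h1
      by_cases h2 : t' = (S.g a).1
      · subst h2
        rw [← ctr_eq0, ← ctr_eq0, ea, eb]
        exact hq.disj_new
      · rw [← ctr_eq0, hother t' hne.symm h2, hother t' hne.symm h2, hother t' hne.symm h2]
        exact (hdis t' ht' hne.symm h2).1
    by_cases h2 : t = (S.g a).1
    · subst h2
      by_cases h3 : t' = a.1
      · subst h3
        rw [← ctr_eq0, ← ctr_eq0, ea, eb]
        exact hq.disj_new.symm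
      · rw [← ctr_eq0, hother t' h3 hne.symm, hother t' h3 hne.symm, hother t' h3 hne.symm]
        exact (hdis t' ht' h3 hne.symm).2
    rw [hother t h1 h2, hother t h1 h2, hother t h1 h2]
    by_cases h3 : t' = a.1
    · subst h3
      rw [← ctr_eq0 (flipPt pt a (S.g a))]
      exact (hdis t ht h1 h2).1.symm
    by_cases h4 : t' = (S.g a).1
    · subst h4
      rw [← ctr_eq0 (flipPt pt a (S.g a))]
      exact (hdis t ht h1 h2).2.symm
    rw [hother t' h3 h4, hother t' h3 h4, hother t' h3 h4]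
    exact hG.disj0 t ht t' ht' hne
  · intro p
    have h := hG.asum p
    rw [Finset.sum_filter] at h ⊢
    refine lt_of_eq_of_lt ?_ h
    have hs : (S.flip a hf).sides = S.sides := rfl
    rw [hs]
    unfold Obj.sides
    rw [Finset.sum_product, Finset.sum_product, ← sub_eq_zero, ← Finset.sum_sub_distrib,
      ← Finset.sum_subset (s₁ := {a.1, (S.g a).1}) ?_ ?_, Finset.sum_pair (Ne.symm hba)]
    · rw [sum_three (fun c => if flipPt pt a (S.g a) c = p then cang (flipPt pt a (S.g a)) c else 0),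
        sum_three (fun c => if flipPt pt a (S.g a) c = p then cang (flipPt pt a (S.g a)) c else 0),
        sum_three (fun c => if pt c = p then cang pt c else 0),
        sum_three (fun c => if pt c = p then cang pt c else 0)]
      have c1 := hG.cang_flip_a hU
      have c2 := hG.cang_flip_b hU
      have c3 := hG.cang_flip_w1 hU
      have c4 := hG.cang_flip_w2 hU
      rw [flipPt_a hba, flipPt_ra, flipPt_ua hba, flipPt_b hba, flipPt_rb hba, flipPt_ub hba, m1,
        m2, c1, c2]
      by_cases k1 : pt a = p <;> by_cases k2 : pt (rot a) = p <;>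
        by_cases k3 : pt (unrot a) = p <;> by_cases k4 : pt (unrot (S.g a)) = p <;>
        simp only [k1, k2, k3, k4, if_true, if_false] <;> linarith
    · intro t ht
      rw [mem_insert, mem_singleton] at ht
      rcases ht with rfl | rfl
      · exact ha
      · exact hb
    · intro t _ hn
      rw [mem_insert, mem_singleton, not_or] at hn
      rw [sub_eq_zero]
      refine Finset.sum_congr rfl fun i _ => ?_
      rw [hother t hn.1 hn.2, cang_flip_other (c := (t, i)) hn.1 hn.2]

/-- the union of the two triangles is unchanged -/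
theorem tri_flip {a : Sd I} (hU : IsU S pt a) :
    tri (flipPt pt a (S.g a)) a.1 ∪ tri (flipPt pt a (S.g a)) (S.g a).1
      = tri pt a.1 ∪ tri pt (S.g a).1 := by
  have hq := hG.uq hU
  have hba := S.ne a hU.glued
  have m1 := hG.mat' hU.glued
  have m2 := hG.mat a hU.glued
  rw [tri_eq, tri_eq, tri_eq, tri_eq, flipPt_a hba, flipPt_ra, flipPt_ua hba, flipPt_b hba,
    flipPt_rb hba, flipPt_ub hba, m1, m2]
  exact hq.union_flip

omit hG in
/-- the other triangles are unchanged -/
theorem tri_flip_other {a b : Sd I} {t : I} (h1 : t ≠ a.1) (h2 : t ≠ b.1) :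
    tri (flipPt pt a b) t = tri pt t := by
  unfold tri
  rw [flipPt_of_fst (c := (t, 0)) h1 h2, flipPt_of_fst (c := (t, 1)) h1 h2,
    flipPt_of_fst (c := (t, 2)) h1 h2]

/-- the new diagonal is a `U` diagonal of the flipped object -/
theorem isU_flip {a : Sd I} (hU : IsU S pt a) (hf : S.Flippable a) :
    IsU (S.flip a hf) (flipPt pt a (S.g a)) (rot a) := by
  have hba := S.ne a hU.glued
  refine ⟨?_, ?_, ?_⟩
  · rw [Obj.flip_g_rot]
    exact ne_of_fst hba
  · rw [Obj.flip_g_rot, rot_rot, add_comm, hG.cang_flip_w2 hU]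
    exact hG.cang_lt (a := unrot (S.g a)) (Obj.g_memF hU.glued)
  · rw [Obj.flip_g_rot, rot_rot, add_comm, hG.cang_flip_w1 hU]
    exact hG.cang_lt (a := unrot a) (S.memF a hU.glued)

end Geo

end AG
end

/- AG.GeoSee -/
section
/-!
# Project AG (MP_586e8d), block GEO-B: seeing lemmas, coincidences (c1), (c3)
-/

set_option linter.unusedSectionVars false
set_option linter.unusedSimpArgs false

namespace AG

open Finset

variable {I : Type} [DecidableEq I]

namespace Geo

variable {S : Obj I} {pt : Sd I → Pt} (hG : Geo S pt)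
include hG

theorem hit_pt {C : Finset (Sd I)} {c : Sd I} (h : S.Hit C c) : ∃ d ∈ C, pt d = pt c := by
  obtain ⟨d, hd, h1⟩ := h
  exact ⟨d, hd, hG.pt_eqv h1⟩

/-- a corner is a point of its triangle -/
theorem pt_mem_tri {c : Sd I} (hc : c.1 ∈ S.F) : pt c ∈ tri pt c.1 := by
  rw [tri_eq]; exact mem_ctri_left (hG.ccw hc)

omit hG in
theorem convex_tri (pt : Sd I → Pt) (t : I) : Convex ℝ (tri pt t) := convex_ctri _ _ _

/-- a triangle is covered if one of its corner points is a point of `C` -/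
theorem cov_of_pt {c : Sd I} (hc : c.1 ∈ S.F) {R : Set Pt} (hR : tri pt c.1 ⊆ R)
    {C : Finset (Sd I)} {d : Sd I} (hd : d ∈ C) (h : pt d = pt c) : Cov pt R C c.1 := by
  intro p hp
  refine ⟨d, hd, ?_⟩
  rw [h]
  exact ((convex_tri pt c.1).segment_subset (hG.pt_mem_tri hc) hp).trans hR

/-- a dominated triangle is covered -/
theorem cov_of_hit {t : I} (ht : t ∈ S.F) {R : Set Pt} (hR : tri pt t ⊆ R)
    {C : Finset (Sd I)} {i : Fin 3} (h : S.Hit C (t, i)) : Cov pt R C t := by
  obtain ⟨d, hd, h1⟩ := hG.hit_pt h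
  exact hG.cov_of_pt (c := (t, i)) ht hR hd h1

theorem cov_of_hit' {c : Sd I} (hc : c.1 ∈ S.F) {R : Set Pt} (hR : tri pt c.1 ⊆ R)
    {C : Finset (Sd I)} (h : S.Hit C c) : Cov pt R C c.1 := by
  obtain ⟨d, hd, h1⟩ := hG.hit_pt h
  exact hG.cov_of_pt hc hR hd h1

/-- the two triangles at a glued side, in points -/
theorem tri_g {a : Sd I} (h : S.g a ≠ a) :
    tri pt (S.g a).1 = ctri (pt (rot a)) (pt a) (pt (unrot (S.g a))) := by
  rw [tri_eq, hG.mat' h, hG.mat a h]

theorem ccw_g {a : Sd I} (h : S.g a ≠ a) :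
    Ccw (pt (rot a)) (pt a) (pt (unrot (S.g a))) := by
  have := hG.ccw (Obj.g_memF h)
  rwa [hG.mat' h, hG.mat a h] at this

/-- SEEING LEMMA (U): if the triangle across a `U` diagonal is dominated, then `a.1` is covered -/
theorem cov_U {a : Sd I} (hU : IsU S pt a) {R : Set Pt} (h1 : tri pt a.1 ⊆ R)
    (h2 : tri pt (S.g a).1 ⊆ R) {C : Finset (Sd I)} {c : Sd I} (hc : c.1 = (S.g a).1)
    (h : S.Hit C c) : Cov pt R C a.1 := by
  intro p hp
  obtain ⟨d, hd, hdc⟩ := hG.hit_pt h
  refine ⟨d, hd, ?_⟩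
  have hq := hG.uq hU
  have hb : (S.g a).1 ∈ S.F := Obj.g_memF hU.glued
  have hcm : pt c ∈ tri pt (S.g a).1 := by rw [← hc]; exact hG.pt_mem_tri (by rw [hc]; exact hb)
  rw [hdc]
  rw [hG.tri_g hU.glued] at hcm h2
  rw [tri_eq] at hp h1
  exact (hq.sees (Or.inr hcm) (Or.inl hp)).trans (Set.union_subset h1 h2)

/-- the data of a pair at the corner `c`: both sides of the triangle at this corner are blocked
at this corner -/
structure _root_.AG.IsPair (S : Obj I) (pt : Sd I → Pt) (c : Sd I) : Prop where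
  b1 : Blk S pt c
  b2 : Blk S pt (S.g (unrot c))

omit hG in
theorem _root_.AG.IsPair.g2 {c : Sd I} (h : IsPair S pt c) : S.g (unrot c) ≠ unrot c :=
  Obj.g_ne_iff.1 h.b2.1

/-- SEEING LEMMA (pair) -/
theorem cov_pair {c : Sd I} (hP : IsPair S pt c) {R : Set Pt} (h0 : tri pt c.1 ⊆ R)
    (h1 : tri pt (S.g c).1 ⊆ R) (h2 : tri pt (S.g (unrot c)).1 ⊆ R) {C : Finset (Sd I)}
    {d1 d2 : Sd I} (hd1 : d1.1 = (S.g c).1) (hit1 : S.Hit C d1)
    (hd2 : d2.1 = (S.g (unrot c)).1) (hit2 : S.Hit C d2) : Cov pt R C c.1 := by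
  have g1 := hP.b1.1
  have g2 := hP.g2
  have fc := S.memF c g1
  have f1 := Obj.g_memF g1
  have f2 := Obj.g_memF g2
  obtain ⟨q1, hq1, hq1'⟩ := hG.hit_pt hit1
  obtain ⟨q2, hq2, hq2'⟩ := hG.hit_pt hit2
  -- points
  have m1 : pt (S.g c) = pt (rot c) := hG.mat' g1
  have m2 : pt (rot (S.g c)) = pt c := hG.mat c g1
  have m3 : pt (S.g (unrot c)) = pt c := by rw [hG.mat' g2, rot_unrot]
  have m4 : pt (rot (S.g (unrot c))) = pt (unrot c) := hG.mat _ g2
  have k0 : Ccw (pt c) (pt (rot c)) (pt (unrot c)) := hG.ccw fc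
  have k1 : Ccw (pt (rot c)) (pt c) (pt (unrot (S.g c))) := hG.ccw_g g1
  have k2 : Ccw (pt c) (pt (unrot c)) (pt (unrot (S.g (unrot c)))) := by
    have := hG.ccw_g g2
    rwa [rot_unrot] at this
  -- all cases in which a corner point of the triangle itself is hit
  by_cases e1 : d1 = S.g c
  · exact hG.cov_of_pt (c := rot c) fc h0 hq1 (by rw [hq1', e1, m1])
  by_cases e2 : d1 = rot (S.g c)
  · exact hG.cov_of_pt fc h0 hq1 (by rw [hq1', e2, m2])
  by_cases e3 : d2 = S.g (unrot c)
  · exact hG.cov_of_pt fc h0 hq2 (by rw [hq2', e3, m3])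
  by_cases e4 : d2 = rot (S.g (unrot c))
  · exact hG.cov_of_pt (c := unrot c) fc h0 hq2 (by rw [hq2', e4, m4])
  have e5 : d1 = unrot (S.g c) := by
    rcases eq_of_fst_eq hd1 with h | h | h
    · exact absurd h e1
    · exact absurd h e2
    · exact h
  have e6 : d2 = unrot (S.g (unrot c)) := by
    rcases eq_of_fst_eq hd2 with h | h | h
    · exact absurd h e3
    · exact absurd h e4
    · exact h
  rw [e5] at hq1'
  rw [e6] at hq2'
  -- not blocked at the other ends
  have n1 : ¬ Blk S pt (S.g c) := fun h => hG.not_blk_both hP.b1 h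
  have n2 : ¬ Blk S pt (unrot c) := fun h => hG.not_blk_both h hP.b2
  have l1 : cang pt (S.g c) + cang pt (rot c) < Real.pi := by
    by_contra hcon
    exact n1 ⟨Obj.g_ne_iff.2 g1, by rw [S.invol]; exact not_lt.1 hcon⟩
  have l2 : cang pt (unrot c) + cang pt (rot (S.g (unrot c))) < Real.pi := by
    by_contra hcon
    exact n2 ⟨g2, not_lt.1 hcon⟩
  have a1 : cang pt (S.g c) = ang (pt (rot c)) (pt c) (pt (unrot (S.g c))) := by
    unfold cang; rw [m1, m2]
  have a2 : cang pt (rot c) = ang (pt (rot c)) (pt (unrot c)) (pt c) := by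
    unfold cang; rw [rot_rot, unrot_rot]
  have a3 : cang pt (unrot c) = ang (pt (unrot c)) (pt c) (pt (rot c)) := by
    unfold cang; rw [rot_unrot, unrot_unrot]
  have a4 : cang pt (rot (S.g (unrot c)))
      = ang (pt (unrot c)) (pt (unrot (S.g (unrot c)))) (pt c) := by
    unfold cang; rw [rot_rot, unrot_rot, m3, m4]
  have a5 : cang pt (rot (S.g c)) = ang (pt c) (pt (unrot (S.g c))) (pt (rot c)) := by
    unfold cang; rw [rot_rot, unrot_rot, m1, m2]
  have a6 : cang pt (S.g (unrot c)) = ang (pt c) (pt (unrot c)) (pt (unrot (S.g (unrot c)))) := by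
    unfold cang; rw [m3, m4]
  have x1 : Ccw (pt (rot c)) (pt (unrot c)) (pt (unrot (S.g c))) :=
    (ang_add k0.rot k1 (by rw [← a1, ← a2]; linarith)).1
  have x2 : Ccw (pt (unrot c)) (pt (unrot (S.g (unrot c)))) (pt (rot c)) :=
    (ang_add k2.rot k0.rot' (by rw [← a4, ← a3]; linarith)).1
  have ne : rot (S.g c) ≠ S.g (unrot c) := by
    intro e
    have : pt (unrot (S.g c)) = pt (unrot c) := by rw [← rot_rot, e, m4]
    rw [this] at x1
    exact x1.ne'' rfl
  have hs : ang (pt c) (pt (unrot (S.g c))) (pt (rot c)) + ang (pt c) (pt (rot c)) (pt (unrot c))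
      + ang (pt c) (pt (unrot c)) (pt (unrot (S.g (unrot c)))) < 2 * Real.pi := by
    rw [← a5, ← a6]
    exact hG.sum_three_lt (a := rot (S.g c)) (b := c) (c := S.g (unrot c)) f1 fc f2
      (hG.rot_g_ne g1) ne (fun e => S.ne _ g2 (by rw [← e]; rfl)) (by rw [m2, m3]) m3.symm
  intro p hp
  rw [tri_eq] at hp h0
  rcases pair_dichotomy k1.rot k0 k2 hs hp with h | h
  · refine ⟨q1, hq1, ?_⟩
    rw [hq1']
    rw [hG.tri_g g1] at h1
    exact (sees_half k1 k0 x1 hp h).trans (Set.union_subset h1 h0)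
  · refine ⟨q2, hq2, ?_⟩
    rw [hq2']
    rw [hG.tri_g g2, rot_unrot] at h2
    exact (sees_half' k2 k0 x2 hp h).trans (Set.union_subset h2 h0)

/-- (c1) the two triangles across the sides of a triangle at the corner `c` have different third
vertices (otherwise the three triangles would fill the full angle around `pt c`) -/
theorem c1 {c : Sd I} (g1 : S.g c ≠ c) (g2 : S.g (unrot c) ≠ unrot c) :
    pt (unrot (S.g c)) ≠ pt (unrot (S.g (unrot c))) := by
  intro e
  have fc := S.memF c g1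
  have f1 := Obj.g_memF g1
  have f2 := Obj.g_memF g2
  have m1 : pt (S.g c) = pt (rot c) := hG.mat' g1
  have m2 : pt (rot (S.g c)) = pt c := hG.mat c g1
  have m3 : pt (S.g (unrot c)) = pt c := by rw [hG.mat' g2, rot_unrot]
  have m4 : pt (rot (S.g (unrot c))) = pt (unrot c) := hG.mat _ g2
  have k0 : Ccw (pt c) (pt (rot c)) (pt (unrot c)) := hG.ccw fc
  have k1 : Ccw (pt (rot c)) (pt c) (pt (unrot (S.g c))) := hG.ccw_g g1
  have k2 : Ccw (pt c) (pt (unrot c)) (pt (unrot (S.g (unrot c)))) := by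
    have := hG.ccw_g g2
    rwa [rot_unrot] at this
  have a5 : cang pt (rot (S.g c)) = ang (pt c) (pt (unrot (S.g c))) (pt (rot c)) := by
    unfold cang; rw [rot_rot, unrot_rot, m1, m2]
  have a6 : cang pt (S.g (unrot c)) = ang (pt c) (pt (unrot c)) (pt (unrot (S.g (unrot c)))) := by
    unfold cang; rw [m3, m4]
  have ne : rot (S.g c) ≠ S.g (unrot c) := by
    intro e'
    have h3 : pt (unrot (S.g (unrot c))) = pt (rot c) := by rw [← e', unrot_rot, m1]
    have h4 : pt (unrot (S.g c)) = pt (unrot c) := by rw [← rot_rot, e', m4]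
    rw [h3, h4] at e
    exact k0.ne'' e.symm
  have hs := hG.sum_three_lt (a := rot (S.g c)) (b := c) (c := S.g (unrot c)) f1 fc f2
      (hG.rot_g_ne g1) ne (fun e => S.ne _ g2 (by rw [← e]; rfl)) (by rw [m2, m3]) m3.symm
  rw [a5, a6, ← e] at hs
  rw [← e] at k2
  have := ang_sum_around k1.rot k0 k2
  unfold cang at hs
  linarith

/-- (c3) no triangle has a side joining the opposite vertices of the quadrilateral of a `U`
diagonal -/
theorem no_side_across {a : Sd I} (hU : IsU S pt a) {d : Sd I} (hd : d.1 ∈ S.F) :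
    ¬ (pt d = pt (unrot a) ∧ pt (rot d) = pt (unrot (S.g a))) := by
  rintro ⟨e1, e2⟩
  have hq := hG.uq hU
  have fa := S.memF a hU.glued
  have fb := Obj.g_memF hU.glued
  have kd := hG.ccw hd
  rw [e1, e2] at kd
  obtain ⟨p, hp, hp2⟩ := hq.c3 kd
  have hpd : p ∈ ctr pt d := by unfold ctr; rw [e1, e2]; exact hp
  rcases hp2 with hp2 | hp2
  · have h1 : d.1 = a.1 := by
      by_contra hne
      exact Set.disjoint_left.1 (hG.disj hd fa hne) hpd hp2
    -- `pt (rot d)` is a corner of `a.1` but lies on the other side of `a`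
    have h2 : pt (rot d) ∈ tri pt a.1 := by rw [← h1]; exact hG.pt_mem_tri (c := rot d) hd
    rw [tri_eq, e2] at h2
    have h3 : 0 < cr (pt (rot a)) (pt a) (pt (unrot (S.g a))) := hG.ccw_g hU.glued
    rw [cr_swap'] at h3
    linarith [h2.1]
  · have hp3 : p ∈ ctr pt (S.g a) := by
      unfold ctr; rw [hG.mat' hU.glued, hG.mat a hU.glued]; exact hp2
    have h1 : d.1 = (S.g a).1 := by
      by_contra hne
      exact Set.disjoint_left.1 (hG.disj hd fb hne) hpd hp3
    have h2 : pt d ∈ tri pt (S.g a).1 := by rw [← h1]; exact hG.pt_mem_tri hd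
    rw [hG.tri_g hU.glued, e1] at h2
    have h3 : 0 < cr (pt a) (pt (rot a)) (pt (unrot a)) := hG.ccw fa
    rw [cr_swap'] at h3
    linarith [h2.1]

/-- (c3), the other direction of the side -/
theorem no_side_across' {a : Sd I} (hU : IsU S pt a) {d : Sd I} (hd : d.1 ∈ S.F) :
    ¬ (pt d = pt (unrot (S.g a)) ∧ pt (rot d) = pt (unrot a)) := by
  have := hG.no_side_across hU.symm hd
  rwa [S.invol] at this

end Geo

/-! ### solutions of the flipped object -/

/-- corners of the flipped object as corners of the old one -/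
def unflip (a b : Sd I) (c : Sd I) : Sd I :=
  if c = rot a then unrot b else if c = rot b then unrot a else c

theorem flipPt_eq {α : Type} (pt : Sd I → α) (a b c : Sd I) :
    flipPt pt a b c = pt (unflip a b c) := by
  unfold flipPt unflip
  split_ifs <;> rfl

/-- a set covered in the sense of `Cov` -/
theorem cov_image {pt pt' : Sd I → Pt} {f : Sd I → Sd I} (h : ∀ c, pt' c = pt (f c)) {R : Set Pt}
    {C : Finset (Sd I)} {p : Pt} (hp : ∃ c ∈ C, segment ℝ (pt' c) p ⊆ R) :
    ∃ c ∈ C.image f, segment ℝ (pt c) p ⊆ R := by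
  obtain ⟨c, hc, h1⟩ := hp
  exact ⟨f c, mem_image_of_mem f hc, by rw [← h]; exact h1⟩

namespace Geo

variable {S : Obj I} {pt : Sd I → Pt} (hG : Geo S pt)
include hG

/-- coverage goes back from the flipped object -/
theorem cov_unflip {a : Sd I} (hU : IsU S pt a) {R : Set Pt} {C : Finset (Sd I)}
    (h : ∀ t ∈ S.F, Cov (flipPt pt a (S.g a)) R C t) :
    ∀ t ∈ S.F, Cov pt R (C.image (unflip a (S.g a))) t := by
  intro t ht p hp
  by_cases h1 : t = a.1 ∨ t = (S.g a).1
  · have h2 : p ∈ tri (flipPt pt a (S.g a)) a.1 ∪ tri (flipPt pt a (S.g a)) (S.g a).1 := by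
      rw [hG.tri_flip hU]
      rcases h1 with h1 | h1
      · left; rw [← h1]; exact hp
      · right; rw [← h1]; exact hp
    rcases h2 with h2 | h2
    · exact cov_image (flipPt_eq pt a (S.g a)) (h _ (S.memF a hU.glued) p h2)
    · exact cov_image (flipPt_eq pt a (S.g a)) (h _ (Obj.g_memF hU.glued) p h2)
  · push Not at h1
    rw [← tri_flip_other (pt := pt) h1.1 h1.2] at hp
    exact cov_image (flipPt_eq pt a (S.g a)) (h t ht p hp)

/-- the triangles of the flipped object are in `R` -/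
theorem tri_flip_subset {a : Sd I} (hU : IsU S pt a) {R : Set Pt} (h : ∀ t ∈ S.F, tri pt t ⊆ R) :
    ∀ t ∈ S.F, tri (flipPt pt a (S.g a)) t ⊆ R := by
  intro t ht
  have h0 := hG.tri_flip hU
  have h1 : tri pt a.1 ∪ tri pt (S.g a).1 ⊆ R :=
    Set.union_subset (h _ (S.memF a hU.glued)) (h _ (Obj.g_memF hU.glued))
  rw [← h0] at h1
  by_cases h2 : t = a.1
  · rw [h2]; exact Set.subset_union_left.trans h1
  by_cases h3 : t = (S.g a).1
  · rw [h3]; exact Set.subset_union_right.trans h1
  rw [tri_flip_other h2 h3]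
  exact h t ht

end Geo

end AG
end

/- AG.GeoDefs -/
section
/-!
# Project AG: `S.Geo pt`, `S.Blk pt a`, `S.IsU pt a` as notations for the definitions of helper23
(Geo.lean): all theorems of the namespace `AG.Geo` can be used with `hg : S.Geo pt`.
-/

namespace AG

variable {I : Type} [DecidableEq I]

namespace Obj

/-- geometric objects, see `AG.Geo` -/
abbrev Geo (S : Obj I) (pt : Sd I → Pt) : Prop := AG.Geo S pt

/-- the diagonal `{a, S.g a}` is blocked at the start point of `a`, see `AG.Blk` -/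
abbrev Blk (S : Obj I) (pt : Sd I → Pt) (a : Sd I) : Prop := AG.Blk S pt a

/-- U diagonals, see `AG.IsU` -/
abbrev IsU (S : Obj I) (pt : Sd I → Pt) (a : Sd I) : Prop := AG.IsU S pt a

end Obj

end AG
end

/- AG.Blades -/
section
/-!
# Project AG: faces, blades, candidates (virtual blades), stubs, minimal counterexamples

CONVENTIONS (see Defs.lean): `a = (t,i)` is a corner of `t` and the side of `t` from this corner to
the next corner `rot a`.  The corner `a` has the two sides `a` (clockwise side, it starts at the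
corner) and `unrot a` (counterclockwise side, it ends at the corner); the opposite side is `rot a`.
If `a` is glued, `S.g a` is the partner, it runs backwards; the corner `rot (S.g a)` is the
clockwise neighbour of the corner `a` in its fan, `S.g (unrot a)` the counterclockwise one.

VIRTUAL BLADE at the corner `w` of the face `s = w.1`: the blade triangle `t` is glued to the side
`rot w` of `s` opposite to `w`; its side is `a = S.g (rot w)`, which starts at the corner
`rot (rot w) = unrot w` of `s` and ends at the corner `rot w` of `s`.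
* `VirtA w`: the apex `y` of `t` is the start of `a`, i.e. the blade `t` has apex corner `a`;
  then `x` = end of `a` = corner `rot w` of `s`, and the STUB `v x` is the side `w`.
* `VirtB w`: the apex `y` of `t` is the end of `a`, i.e. the blade `t` has apex corner `rot a`;
  then `x` = start of `a` = corner `unrot w` of `s`, and the STUB `v x` is the side `unrot w`.
-/

namespace AG

open Finset

variable {I : Type} [DecidableEq I]

namespace Obj

/-- all three sides of `t` are glued -/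
def Face (S : Obj I) (t : I) : Prop := t ∈ S.F ∧ ∀ i, S.g (t, i) ≠ (t, i)

/-- REAL BLADE with apex corner `c`: the two sides at the corner are glued, the base `rot c` is
not glued and not an ear -/
def Blade (S : Obj I) (c : Sd I) : Prop :=
  S.g c ≠ c ∧ S.g (unrot c) ≠ unrot c ∧ S.g (rot c) = rot c ∧ rot c ∉ S.E

/-- EARED triangle with apex corner `c` -/
def Eared (S : Obj I) (c : Sd I) : Prop :=
  S.g c ≠ c ∧ S.g (unrot c) ≠ unrot c ∧ rot c ∈ S.E

/-- the neighbour across the glued side `a` is a face (ACTIVE in the text; in a bridgeless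
connected object `S - {t,s}` is then connected for every blade `t` adjacent to the face `s`) -/
def Active (S : Obj I) (a : Sd I) : Prop := S.g a ≠ a ∧ S.Face (S.g a).1

/-- the triangle `c.1` hosts a pair at its corner `c`: both its sides at `c` are glued and blocked
at `c` (see `AG.IsPair`) -/
abbrev PairAt (S : Obj I) (pt : Sd I → Pt) (c : Sd I) : Prop := AG.IsPair S pt c

/-- candidate across the side `a` of the blade `a.1` whose apex is the START of `a` -/
def CandA (S : Obj I) (pt : Sd I → Pt) (a : Sd I) : Prop :=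
  S.Blade a ∧ S.Active a ∧ (S.IsU pt a ∨ (S.PairAt pt a ∧ ¬ S.Active (unrot a)))

/-- candidate across the side `a` of the blade `a.1` whose apex is the END of `a` -/
def CandB (S : Obj I) (pt : Sd I → Pt) (a : Sd I) : Prop :=
  S.Blade (rot a) ∧ S.Active a ∧ (S.IsU pt a ∨ (S.PairAt pt (rot a) ∧ ¬ S.Active (rot a)))

/-- candidate (virtual blade) `(t,s)`: `t = a.1`, `s = (S.g a).1`, across the side `a` of `t` -/
def Cand (S : Obj I) (pt : Sd I → Pt) (a : Sd I) : Prop := S.CandA pt a ∨ S.CandB pt a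

/-- virtual blade at the corner `w` with stub `w` -/
def VirtA (S : Obj I) (pt : Sd I → Pt) (w : Sd I) : Prop := S.CandA pt (S.g (rot w))

/-- virtual blade at the corner `w` with stub `unrot w` -/
def VirtB (S : Obj I) (pt : Sd I → Pt) (w : Sd I) : Prop := S.CandB pt (S.g (rot w))

/-- blade (real or virtual) at the corner `w`; its triangle (the blade triangle or the face) is
`w.1` -/
def BladeAt (S : Obj I) (pt : Sd I → Pt) (w : Sd I) : Prop :=
  S.Blade w ∨ S.VirtA pt w ∨ S.VirtB pt w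

/-- `c` is a STUB of the blade at the corner `w` -/
def Stub (S : Obj I) (pt : Sd I → Pt) (w c : Sd I) : Prop :=
  (S.Blade w ∧ (c = w ∨ c = unrot w)) ∨ (S.VirtA pt w ∧ c = w) ∨ (S.VirtB pt w ∧ c = unrot w)

/-- the corner `p` is at an ear end: some ear starts or ends at the visit of `p` -/
def EarEnd (S : Obj I) (p : Sd I) : Prop := ∃ a ∈ S.E, S.Eqv a p ∨ S.Eqv (rot a) p

/-! ### small facts on faces and blades -/

section facts

variable {S : Obj I} {pt : Sd I → Pt}

theorem VirtA.face {w : Sd I} (h : S.VirtA pt w) : S.Face w.1 := by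
  have := h.2.1.2
  rwa [S.invol, rot_fst] at this

theorem VirtB.face {w : Sd I} (h : S.VirtB pt w) : S.Face w.1 := by
  have := h.2.1.2
  rwa [S.invol, rot_fst] at this

theorem Face.glued {t : I} (h : S.Face t) {a : Sd I} (ha : a.1 = t) : S.g a ≠ a := by
  subst ha; exact h.2 a.2

theorem BladeAt.memF {w : Sd I} (h : S.BladeAt pt w) : w.1 ∈ S.F := by
  rcases h with h | h | h
  · exact S.memF _ h.1
  · exact h.face.1
  · exact h.face.1

theorem BladeAt.glued {w : Sd I} (h : S.BladeAt pt w) : S.g w ≠ w := by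
  rcases h with h | h | h
  · exact h.1
  · exact h.face.glued rfl
  · exact h.face.glued rfl

theorem BladeAt.glued' {w : Sd I} (h : S.BladeAt pt w) : S.g (unrot w) ≠ unrot w := by
  rcases h with h | h | h
  · exact h.2.1
  · exact h.face.glued rfl
  · exact h.face.glued rfl

theorem Eared.unglued {c : Sd I} (h : S.Eared c) : S.g (rot c) = rot c := S.earFree _ h.2.2

theorem Eared.memF {c : Sd I} (h : S.Eared c) : c.1 ∈ S.F := S.memF _ h.1

theorem Blade.memF {c : Sd I} (h : S.Blade c) : c.1 ∈ S.F := S.memF _ h.1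

theorem Eared.not_bladeAt {c : Sd I} (h : S.Eared c) : ¬ S.BladeAt pt c := by
  rintro (h1 | h1 | h1)
  · exact h1.2.2.2 h.2.2
  · exact h1.face.glued (rot_fst c) h.unglued
  · exact h1.face.glued (rot_fst c) h.unglued

theorem Blade.not_virt {c : Sd I} (h : S.Blade c) : ¬ (S.VirtA pt c ∨ S.VirtB pt c) := by
  rintro (h1 | h1)
  · exact h1.face.glued (rot_fst c) h.2.2.1
  · exact h1.face.glued (rot_fst c) h.2.2.1

/-- the only unglued side of a blade or of an eared triangle with apex corner `c` is `rot c` -/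
theorem eq_rot_of_unglued {c a : Sd I} (h1 : S.g c ≠ c) (h2 : S.g (unrot c) ≠ unrot c)
    (ha : S.g a = a) (hac : a.1 = c.1) : a = rot c := by
  rcases eq_of_fst_eq hac with h | h | h
  · rw [h] at ha; exact absurd ha h1
  · exact h
  · rw [h] at ha; exact absurd ha h2

theorem Face.g {c : Sd I} (h : S.Face c.1) : S.g c ≠ c := h.2 c.2

theorem Face.glued' {a b : Sd I} (h : S.Face b.1) (e : a.1 = b.1) : S.g a ≠ a := by
  rw [← e] at h; exact h.2 a.2

/-- no triangle is a real blade and a face -/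
theorem Blade.not_face {c : Sd I} (h : S.Blade c) : ¬ S.Face c.1 := fun h1 =>
  (h1.glued' (a := rot c) rfl) h.2.2.1

theorem Eared.not_face {c : Sd I} (h : S.Eared c) : ¬ S.Face c.1 := fun h1 =>
  (h1.glued' (a := rot c) rfl) (S.earFree _ h.2.2)

/-- no triangle is eared and a real blade -/
theorem Blade.not_eared {c d : Sd I} (h : S.Blade c) (h' : S.Eared d) : c.1 ≠ d.1 := by
  intro e
  have h0 := S.earFree _ h'.2.2
  rcases eq_of_fst_eq e with h1 | h1 | h1
  · rw [h1] at h; exact h.2.2.2 h'.2.2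
  · rw [h1] at h; exact h.1 h0
  · rw [h1] at h
    apply h.2.1
    rw [unrot_unrot]
    exact h0

theorem Blade.unique {c d : Sd I} (h : S.Blade c) (h' : S.Blade d) (e : c.1 = d.1) : c = d := by
  have h0 := h'.2.2.1
  rcases eq_of_fst_eq e with h1 | h1 | h1
  · exact h1
  · rw [h1] at h; exact absurd h0 h.1
  · rw [h1] at h
    exfalso
    apply h.2.1
    rw [unrot_unrot]
    exact h0

theorem Eared.unique {c d : Sd I} (h : S.Eared c) (h' : S.Eared d) (e : c.1 = d.1) : c = d := by
  have h0 := S.earFree _ h'.2.2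
  rcases eq_of_fst_eq e with h1 | h1 | h1
  · exact h1
  · rw [h1] at h; exact absurd h0 h.1
  · rw [h1] at h
    exfalso
    apply h.2.1
    rw [unrot_unrot]
    exact h0

end facts

/-- INDUCTION HYPOTHESIS: P holds for all geometric connected objects inside `R` with fewer than
`n` glued sides -/
def IH (I : Type) [DecidableEq I] (R : Set Pt) (n : ℕ) : Prop :=
  ∀ (S : Obj I) (pt : Sd I → Pt), S.Geo pt → S.Conn → (∀ t ∈ S.F, tri pt t ⊆ R) →
    S.glued.card < n → ∀ W ⊆ S.sides, P S pt R W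

/-- MINIMAL COUNTEREXAMPLE (with no forced visit, see the reductions) -/
structure Cex (S : Obj I) (pt : Sd I → Pt) (R : Set Pt) : Prop where
  geo : S.Geo pt
  conn : S.Conn
  sub : ∀ t ∈ S.F, tri pt t ⊆ R
  ih : IH I R S.glued.card
  bad : ¬ P S pt R ∅

end Obj

end AG
end

/- AG.GeoMore -/
section
/-!
# Project AG (MP_586e8d), block GEO-B: further forms of the geometric facts
-/

set_option linter.unusedSectionVars false
set_option linter.unusedSimpArgs false

namespace AG

open Finset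

variable {I : Type} [DecidableEq I]

namespace Geo

variable {S : Obj I} {pt : Sd I → Pt} (hG : Geo S pt)
include hG

/-- a diagonal is blocked at most at one end -/
theorem b1 {a : Sd I} (h : Blk S pt a) : ¬ Blk S pt (S.g a) := fun h' => hG.not_blk_both h h'

/-- (G1) in the form with `cw` -/
theorem g1 {a b : Sd I} (ha : Blk S pt a) (hb : Blk S pt b) (h : S.Eqv a b) :
    a = b ∨ b = S.cw a ∨ a = S.cw b := by
  have e1 : S.cw a = rot (S.g a) := by unfold Obj.cw; rw [if_neg ha.1]
  have e2 : S.cw b = rot (S.g b) := by unfold Obj.cw; rw [if_neg hb.1]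
  rw [e1, e2]
  exact hG.blk_consecutive ha hb (hG.pt_eqv h)

theorem sh_aux {a : Sd I} (ga : S.g a ≠ a) (gb : S.g (rot a) ≠ rot a) :
    (S.g a).1 ≠ (S.g (rot a)).1 := by
  intro e
  have fa := S.memF a ga
  have f2 := Obj.g_memF gb
  have m1 : pt (S.g a) = pt (rot a) := hG.mat' ga
  have m2 : pt (rot (S.g a)) = pt a := hG.mat a ga
  have m3 : pt (S.g (rot a)) = pt (unrot a) := by rw [hG.mat' gb, rot_rot]
  have m4 : pt (rot (S.g (rot a))) = pt (rot a) := hG.mat _ gb
  have h1 : S.g a = rot (S.g (rot a)) :=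
    hG.eq_of_fst (a := rot (S.g (rot a))) f2 e (by rw [m1, m4])
  have h2 : pt (unrot (S.g (rot a))) = pt a := by rw [← rot_rot, ← h1, m2]
  have k1 : 0 < cr (pt (unrot a)) (pt (rot a)) (pt a) := by
    have := hG.ccw f2
    rw [m3, m4, h2] at this
    exact this
  have k2 : 0 < cr (pt a) (pt (rot a)) (pt (unrot a)) := hG.ccw fa
  have k3 : cr (pt (unrot a)) (pt (rot a)) (pt a) = - cr (pt a) (pt (rot a)) (pt (unrot a)) := by
    unfold cr; ring
  linarith

/-- two triangles are not glued along two sides -/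
theorem sh {a b : Sd I} (h1 : a.1 = b.1) (h2 : a ≠ b) (ga : S.g a ≠ a) (gb : S.g b ≠ b) :
    (S.g a).1 ≠ (S.g b).1 := by
  rcases eq_of_fst_eq h1.symm with h3 | h3 | h3
  · exact absurd h3.symm h2
  · rw [h3] at gb ⊢
    exact hG.sh_aux ga gb
  · have h4 : a = rot b := by rw [h3, rot_unrot]
    rw [h4] at ga ⊢
    exact (hG.sh_aux gb ga).symm

/-- the third vertices of the two triangles at a diagonal are different -/
theorem third {a : Sd I} (h : S.g a ≠ a) : pt (unrot a) ≠ pt (unrot (S.g a)) := by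
  intro e
  have k1 : 0 < cr (pt (rot a)) (pt a) (pt (unrot (S.g a))) := hG.ccw_g h
  have k2 : 0 < cr (pt a) (pt (rot a)) (pt (unrot a)) := hG.ccw (S.memF a h)
  rw [← e, cr_swap'] at k1
  linarith

/-- the apex of the triangle across `a` is not a corner point of the triangle `a.1` -/
theorem third_not_corner {a c : Sd I} (h : S.g a ≠ a) (hc : c.1 = a.1) :
    pt c ≠ pt (unrot (S.g a)) := by
  intro e
  have k1 : 0 < cr (pt (rot a)) (pt a) (pt (unrot (S.g a))) := hG.ccw_g h
  have fa := S.memF a h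
  have h2 : pt c ∈ tri pt a.1 := by rw [← hc]; exact hG.pt_mem_tri (c := c) (by rw [hc]; exact fa)
  rw [tri_eq, e] at h2
  rw [cr_swap'] at k1
  linarith [h2.1]

end Geo

end AG
end
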