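import Mathlib
import Pool.Agent.Helper16.VGG.G01
import Pool.Agent.Helper16.VGG.G03

/- Helper41.AG7.Count -/
section
/-!
# AG (MP_586e8d, Shermer), section 7: the counting inequality, abstract form

`R` = triangles of the region, `Dg = R^+` (inner diagonals and stubs), `St` = stubs (`|St| = 2`, closed case `0`),
`V` = visits of `R`, `inc t` = glued sides of `t`, `bl d = none` iff `d` is a U diagonal, `bl d = some w` iff `d` is
blocked at the visit `w`; `A w` = diagonals blocked at `w`.
-/

set_option autoImplicit false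
open Finset

namespace Pool.Agent.Helper41.AG7

/-- the data of section 7 (counting part) -/
structure Reg (τ δ ν : Type*) [DecidableEq τ] [DecidableEq δ] [DecidableEq ν] where
  face : Finset τ
  blade : Finset τ
  eared : Finset τ
  Dg : Finset δ
  St : Finset δ
  V : Finset ν
  inc : τ → Finset δ
  bl : δ → Option ν
  /-- the neighbour of the (pair-ready) blade `t` across `d` is active -/
  act : τ → δ → Prop
  /-- the triangle outside `R` at the stub `d` is a blade -/
  outB : δ → Prop
  /-- pair-ready blades of `R` with exactly one active neighbour, which is in `R` -/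
  CP : Finset τ
  disj_fb : Disjoint face blade
  disj_fe : Disjoint face eared
  disj_be : Disjoint blade eared
  St_sub : St ⊆ Dg
  inc_face : ∀ t ∈ face, inc t ⊆ Dg ∧ (inc t).card = 3
  inc_blade : ∀ t ∈ blade, inc t ⊆ Dg ∧ (inc t).card = 2
  inc_eared : ∀ t ∈ eared, inc t ⊆ Dg ∧ (inc t).card = 2
  /-- an inner diagonal is a side of exactly two triangles of `R`, a stub of exactly one -/
  inner_two : ∀ d ∈ Dg, d ∉ St → (((face ∪ blade) ∪ eared).filter (fun t => d ∈ inc t)).card = 2
  stub_one : ∀ d ∈ St, (((face ∪ blade) ∪ eared).filter (fun t => d ∈ inc t)).card = 1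
  /-- two triangles share at most one diagonal -/
  share : ∀ t ∈ (face ∪ blade) ∪ eared, ∀ t' ∈ (face ∪ blade) ∪ eared, t ≠ t' → (inc t ∩ inc t').card ≤ 1
  bl_mem : ∀ d ∈ Dg, ∀ w, bl d = some w → w ∈ V
  A_le : ∀ w ∈ V, (Dg.filter (fun d => bl d = some w)).card ≤ 2
  /-- a pair is hosted by a triangle of `R` -/
  host : ∀ w ∈ V, (Dg.filter (fun d => bl d = some w)).card = 2 →
    ∃ t ∈ (face ∪ blade) ∪ eared, Dg.filter (fun d => bl d = some w) ⊆ inc t
  /-- number of visits -/
  visits : V.card + 2 * Dg.card = 3 * ((face ∪ blade) ∪ eared).card + 2 * St.card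
  /-- no U diagonal between two blades -/
  U_blades : ∀ d ∈ Dg, bl d = none → (blade.filter (fun t => d ∈ inc t)).card ≤ 1
  U_blades_out : ∀ d ∈ St, bl d = none → outB d → ∀ t ∈ blade, d ∉ inc t
  /-- a blade hosting a pair: both neighbours are active, or it is in `CP` and at least one is active -/
  pair_ready : ∀ t ∈ blade, (∃ w ∈ V, Dg.filter (fun d => bl d = some w) = inc t) →
    (∀ d ∈ inc t, act t d) ∨ (t ∈ CP ∧ ∃ d ∈ inc t, act t d)
  /-- an active neighbour inside `R` is a face -/
  act_face : ∀ t ∈ blade, ∀ d ∈ inc t, d ∉ St → act t d → ∃ s ∈ face, d ∈ inc s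

namespace Reg

variable {τ δ ν : Type*} [DecidableEq τ] [DecidableEq δ] [DecidableEq ν] (D : Reg τ δ ν)

/-- the triangles of `R` -/
def R : Finset τ := (D.face ∪ D.blade) ∪ D.eared

/-- the diagonals blocked at the visit `w` -/
def A (w : ν) : Finset δ := D.Dg.filter (fun d => D.bl d = some w)

/-- `t` hosts a pair -/
def Hosts (t : τ) : Prop := ∃ w ∈ D.V, (D.A w).card = 2 ∧ D.A w ⊆ D.inc t

/-- the slot `(s, d)` is used -/
def Used (s : τ) (d : δ) : Prop :=
  D.bl d = none ∨ (∃ w ∈ D.V, (D.A w).card = 2 ∧ D.A w ⊆ D.inc s ∧ d ∈ D.A w) ∨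
    (∃ t ∈ D.blade, d ∈ D.inc t ∧ D.Hosts t ∧ D.act t d)

open Classical in
/-- the unused slots -/
noncomputable def unused : Finset (τ × δ) :=
  (D.face ×ˢ D.Dg).filter (fun x => x.2 ∈ D.inc x.1 ∧ ¬ D.Used x.1 x.2)

/-- the zero visits -/
def zeros : Finset ν := D.V.filter (fun w => (D.A w).card = 0)

open Classical in
/-- the U diagonals with a blade on one side (in `R` or, for a stub, outside) -/
noncomputable def CU : Finset δ :=
  D.Dg.filter (fun d => D.bl d = none ∧ ((∃ t ∈ D.blade, d ∈ D.inc t) ∨ (d ∈ D.St ∧ D.outB d)))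

open Classical in
/-- costs of the eared triangles -/
noncomputable def Ecost : Finset (τ × δ) :=
  (D.eared ×ˢ D.Dg).filter (fun x => x.2 ∈ D.inc x.1 ∧ (D.bl x.2 = none ∨ D.Hosts x.1))

open Classical in
/-- the stubs of type (Ub) -/
noncomputable def Ubs : Finset δ := D.St.filter (fun d => D.bl d = none ∧ ¬ D.outB d)

open Classical in
/-- the stubs of type (Pb) -/
noncomputable def Pbs : Finset δ :=
  D.St.filter (fun d => ∃ t ∈ D.blade, d ∈ D.inc t ∧ D.Hosts t ∧ D.act t d)

/-- the diagonals which belong to a pair -/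
def D2 : Finset δ := (D.V.filter (fun w => (D.A w).card = 2)).biUnion D.A

/-- the U diagonals -/
def DU : Finset δ := D.Dg.filter (fun d => D.bl d = none)

open Classical in
/-- number of triangles of the set `X` with the side `d` -/
noncomputable def cf (X : Finset τ) (d : δ) : ℕ := (X.filter (fun t => d ∈ D.inc t)).card

lemma sum_cf (X : Finset τ) (hX : ∀ t ∈ X, D.inc t ⊆ D.Dg) :
    ∑ d ∈ D.Dg, D.cf X d = ∑ t ∈ X, (D.inc t).card := by
  classical
  have h1 : ∀ d ∈ D.Dg, D.cf X d = ∑ t ∈ X, if d ∈ D.inc t then 1 else 0 := by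
    intro d _
    rw [cf, card_filter]
  rw [sum_congr rfl h1, sum_comm]
  refine sum_congr rfl (fun t ht => ?_)
  rw [← card_filter]
  congr 1
  ext d
  rw [mem_filter]
  exact ⟨fun h => h.2, fun h => ⟨hX t ht h, h⟩⟩

lemma R_card : D.R.card = D.face.card + D.blade.card + D.eared.card := by
  rw [R, card_union_of_disjoint, card_union_of_disjoint D.disj_fb]
  rw [disjoint_union_left]
  exact ⟨D.disj_fe, D.disj_be⟩

lemma cf_R (d : δ) : D.cf D.R d = D.cf D.face d + D.cf D.blade d + D.cf D.eared d := by
  classical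
  unfold cf R
  rw [filter_union, filter_union, card_union_of_disjoint, card_union_of_disjoint]
  · exact disjoint_filter_filter D.disj_fb
  · rw [disjoint_union_left]
    exact ⟨disjoint_filter_filter D.disj_fe, disjoint_filter_filter D.disj_be⟩

lemma inc_R (t : τ) (ht : t ∈ D.R) : D.inc t ⊆ D.Dg := by
  rw [R, mem_union, mem_union] at ht
  rcases ht with (h | h) | h
  · exact (D.inc_face t h).1
  · exact (D.inc_blade t h).1
  · exact (D.inc_eared t h).1

lemma sum_R : 3 * D.face.card + 2 * D.blade.card + 2 * D.eared.card + D.St.card = 2 * D.Dg.card := by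
  classical
  have h1 : ∑ d ∈ D.Dg, D.cf D.R d = ∑ t ∈ D.R, (D.inc t).card := D.sum_cf D.R D.inc_R
  have h2 : ∑ t ∈ D.R, (D.inc t).card = 3 * D.face.card + 2 * D.blade.card + 2 * D.eared.card := by
    rw [R, sum_union, sum_union D.disj_fb]
    · rw [sum_congr rfl (fun t ht => (D.inc_face t ht).2), sum_congr rfl (fun t ht => (D.inc_blade t ht).2),
        sum_congr rfl (fun t ht => (D.inc_eared t ht).2)]
      simp only [sum_const, smul_eq_mul]
      ring
    · rw [disjoint_union_left]
      exact ⟨D.disj_fe, D.disj_be⟩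
  have h3 : ∑ d ∈ D.Dg, (D.cf D.R d + if d ∈ D.St then 1 else 0) = ∑ d ∈ D.Dg, 2 := by
    refine sum_congr rfl (fun d hd => ?_)
    by_cases h : d ∈ D.St
    · rw [if_pos h]
      have := D.stub_one d h
      unfold cf R
      convert congrArg (· + 1) this
    · rw [if_neg h, add_zero]
      have := D.inner_two d hd h
      unfold cf R
      convert this
  rw [sum_add_distrib, h1, h2, ← card_filter, sum_const, smul_eq_mul] at h3
  have h4 : D.Dg.filter (fun d => d ∈ D.St) = D.St := by
    ext d
    rw [mem_filter]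
    exact ⟨fun h => h.2, fun h => ⟨D.St_sub h, h⟩⟩
  rw [h4] at h3
  omega

lemma card_Dg : D.Dg.card = D.DU.card + ∑ w ∈ D.V, (D.A w).card := by
  classical
  have h1 : D.Dg = D.DU ∪ D.V.biUnion D.A := by
    ext d
    rw [mem_union, mem_biUnion]
    constructor
    · intro hd
      cases h : D.bl d with
      | none => exact Or.inl (by rw [DU, mem_filter]; exact ⟨hd, h⟩)
      | some w => exact Or.inr ⟨w, D.bl_mem d hd w h, by rw [A, mem_filter]; exact ⟨hd, h⟩⟩
    · rintro (h | ⟨w, _, h⟩)
      · exact (mem_filter.1 h).1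
      · exact (mem_filter.1 h).1
  have h2 : Disjoint D.DU (D.V.biUnion D.A) := by
    rw [disjoint_left]
    intro d h h'
    rw [mem_biUnion] at h'
    obtain ⟨w, _, h'⟩ := h'
    have e1 := (mem_filter.1 h).2
    have e2 := (mem_filter.1 h').2
    rw [e1] at e2
    exact absurd e2 (by simp)
  conv_lhs => rw [h1]
  rw [card_union_of_disjoint h2, card_biUnion]
  intro w _ w' _ hw
  rw [Function.onFun, disjoint_left]
  intro d h h'
  have e1 := (mem_filter.1 h).2
  have e2 := (mem_filter.1 h').2
  rw [e1] at e2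
  exact hw (Option.some.inj e2)

lemma sum_A : ∑ w ∈ D.V, (D.A w).card + D.zeros.card =
    D.V.card + (D.V.filter (fun w => (D.A w).card = 2)).card := by
  classical
  rw [zeros, card_filter, card_filter, card_eq_sum_ones, ← sum_add_distrib, ← sum_add_distrib]
  refine sum_congr rfl (fun w hw => ?_)
  have := D.A_le w hw
  have h : (D.A w).card ≤ 2 := this
  interval_cases h' : (D.A w).card <;> simp

lemma card_D2 : D.D2.card = 2 * (D.V.filter (fun w => (D.A w).card = 2)).card := by
  classical
  rw [D2, card_biUnion]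
  · rw [sum_congr rfl (fun w hw => (mem_filter.1 hw).2), sum_const, smul_eq_mul, mul_comm]
  · intro w _ w' _ hw
    rw [Function.onFun, disjoint_left]
    intro d h h'
    have e1 := (mem_filter.1 h).2
    have e2 := (mem_filter.1 h').2
    rw [e1] at e2
    exact hw (Option.some.inj e2)

/-- `2 (P + U) + |St| = 3 |face| + 2 z` -/
lemma slots_eq : D.D2.card + 2 * D.DU.card + D.St.card = 3 * D.face.card + 2 * D.zeros.card := by
  have h1 := D.sum_R
  have h2 := D.card_Dg
  have h3 := D.sum_A
  have h4 := D.card_D2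
  have h5 := D.visits
  have h6 := D.R_card
  rw [R] at h6
  omega

open Classical in
/-- number of used slots at `d` -/
noncomputable def uf (d : δ) : ℕ := (D.face.filter (fun s => d ∈ D.inc s ∧ D.Used s d)).card

open Classical in
/-- number of ear costs at `d` -/
noncomputable def ef (d : δ) : ℕ :=
  (D.eared.filter (fun t => d ∈ D.inc t ∧ (D.bl d = none ∨ D.Hosts t))).card

open Classical in
/-- the bad diagonals: a non active neighbour of a blade of `CP` -/
noncomputable def bad : Finset δ :=
  D.Dg.filter (fun d => ∃ t ∈ D.CP, t ∈ D.blade ∧ d ∈ D.inc t ∧ ¬ D.act t d ∧ ∃ d' ∈ D.inc t, D.act t d')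

lemma card_bad : D.bad.card ≤ D.CP.card := by
  classical
  have h : ∀ d ∈ D.bad, ∃ t ∈ D.CP, t ∈ D.blade ∧ d ∈ D.inc t ∧ ¬ D.act t d ∧ ∃ d' ∈ D.inc t, D.act t d' :=
    fun d hd => (mem_filter.1 hd).2
  rcases isEmpty_or_nonempty τ with h0 | h0
  · have : D.bad = ∅ := by
      rw [eq_empty_iff_forall_notMem]
      intro d hd
      obtain ⟨t, _⟩ := h d hd
      exact h0.elim t
    rw [this, card_empty]
    exact Nat.zero_le _
  choose! f hf using h
  refine card_le_card_of_injOn f (fun d hd => (hf d hd).1) ?_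
  intro d hd d' hd' hff
  rw [mem_coe] at hd hd'
  obtain ⟨_, h2, h3, h4, e, he, he'⟩ := hf d hd
  obtain ⟨_, _, h3', h4', _⟩ := hf d' hd'
  rw [← hff] at h3' h4'
  by_contra hne
  have h5 : ({d, d', e} : Finset δ) ⊆ D.inc (f d) := by
    intro x hx
    rw [mem_insert, mem_insert, mem_singleton] at hx
    rcases hx with rfl | rfl | rfl
    · exact h3
    · exact h3'
    · exact he
  have h6 := card_le_card h5
  have h7 : ({d, d', e} : Finset δ).card = 3 := by
    rw [card_eq_three]
    refine ⟨d, d', e, hne, ?_, ?_, rfl⟩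
    · rintro rfl; exact h4 he'
    · rintro rfl; exact h4' he'
  rw [h7, (D.inc_blade _ h2).2] at h6
  omega

lemma sum_uf : ∑ d ∈ D.Dg, D.uf d + D.unused.card = 3 * D.face.card := by
  classical
  have h1 : D.unused.card = ∑ d ∈ D.Dg, (D.face.filter (fun s => d ∈ D.inc s ∧ ¬ D.Used s d)).card := by
    rw [unused, card_filter, sum_product_right]
    refine sum_congr rfl (fun d _ => ?_)
    rw [card_filter]
  have h2 : ∑ d ∈ D.Dg, D.cf D.face d = 3 * D.face.card := by
    rw [D.sum_cf D.face (fun t ht => (D.inc_face t ht).1),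
      sum_congr rfl (fun t ht => (D.inc_face t ht).2), sum_const, smul_eq_mul, mul_comm]
  rw [h1, ← h2, ← sum_add_distrib]
  refine sum_congr rfl (fun d _ => ?_)
  rw [uf, cf, ← filter_filter, ← filter_filter]
  exact card_filter_add_card_filter_not _

lemma sum_ef : ∑ d ∈ D.Dg, D.ef d = D.Ecost.card := by
  classical
  rw [Ecost, card_filter, sum_product_right]
  refine sum_congr rfl (fun d _ => ?_)
  rw [ef, card_filter]

lemma local_U (d : δ) (hd : d ∈ D.Dg) (hU : D.bl d = none) :
    2 ≤ D.uf d + D.ef d + (if d ∈ D.CU then 1 else 0) + (if d ∈ D.Ubs then 1 else 0) := by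
  classical
  have h1 : D.uf d = D.cf D.face d := by
    rw [uf, cf]
    congr 1
    refine filter_congr (fun s _ => ?_)
    exact ⟨fun h => h.1, fun h => ⟨h, Or.inl hU⟩⟩
  have h2 : D.ef d = D.cf D.eared d := by
    rw [ef, cf]
    congr 1
    refine filter_congr (fun s _ => ?_)
    exact ⟨fun h => h.1, fun h => ⟨h, Or.inl hU⟩⟩
  have h3 := D.cf_R d
  have h4 : D.cf D.blade d ≤ 1 := by
    have := D.U_blades d hd hU
    rw [cf]
    convert this
  have h5 : D.cf D.blade d = 1 → d ∈ D.CU := by
    intro h
    rw [cf] at h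
    have hne : (D.blade.filter (fun t => d ∈ D.inc t)).Nonempty := by
      rw [← card_pos]; omega
    obtain ⟨t, ht⟩ := hne
    rw [mem_filter] at ht
    rw [CU, mem_filter]
    exact ⟨hd, hU, Or.inl ⟨t, ht.1, ht.2⟩⟩
  by_cases hs : d ∈ D.St
  · have h6 : D.cf D.R d = 1 := by
      have := D.stub_one d hs
      rw [cf, R]
      convert this
    by_cases ho : D.outB d
    · have h7 : D.cf D.blade d = 0 := by
        rw [cf, card_eq_zero, filter_eq_empty_iff]
        intro t ht
        exact D.U_blades_out d hs hU ho t ht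
      have h8 : d ∈ D.CU := by
        rw [CU, mem_filter]
        exact ⟨hd, hU, Or.inr ⟨hs, ho⟩⟩
      rw [if_pos h8]
      omega
    · have h8 : d ∈ D.Ubs := by
        rw [Ubs, mem_filter]
        exact ⟨hs, hU, ho⟩
      rw [if_pos h8]
      by_cases h9 : D.cf D.blade d = 1
      · rw [if_pos (h5 h9)]
        omega
      · omega
  · have h6 : D.cf D.R d = 2 := by
      have := D.inner_two d hd hs
      rw [cf, R]
      convert this
    by_cases h9 : D.cf D.blade d = 1
    · rw [if_pos (h5 h9)]
      omega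
    · omega

lemma local_D2 (d : δ) (hd : d ∈ D.D2) (hb : d ∉ D.bad) :
    1 ≤ D.uf d + D.ef d + (if d ∈ D.Pbs then 1 else 0) := by
  classical
  rw [D2, mem_biUnion] at hd
  obtain ⟨w, hw, hdw⟩ := hd
  rw [mem_filter] at hw
  obtain ⟨hwV, hw2⟩ := hw
  obtain ⟨t, htR, ht⟩ := D.host w hwV hw2
  have ht' : D.A w ⊆ D.inc t := ht
  have hH : D.Hosts t := ⟨w, hwV, hw2, ht'⟩
  have hdD : d ∈ D.Dg := (mem_filter.1 hdw).1
  rw [mem_union, mem_union] at htR
  rcases htR with (h | h) | h
  · have : 0 < D.uf d := by
      rw [uf, card_pos]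
      refine ⟨t, ?_⟩
      rw [mem_filter]
      exact ⟨h, ht' hdw, Or.inr (Or.inl ⟨w, hwV, hw2, ht', hdw⟩)⟩
    omega
  · have hA : D.A w = D.inc t := by
      apply eq_of_subset_of_card_le ht'
      rw [hw2, (D.inc_blade t h).2]
    have hpr := D.pair_ready t h ⟨w, hwV, hA⟩
    by_cases hact : D.act t d
    · by_cases hs : d ∈ D.St
      · have : d ∈ D.Pbs := by
          rw [Pbs, mem_filter]
          exact ⟨hs, t, h, ht' hdw, hH, hact⟩
        rw [if_pos this]
        omega
      · obtain ⟨s, hs1, hs2⟩ := D.act_face t h d (ht' hdw) hs hact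
        have : 0 < D.uf d := by
          rw [uf, card_pos]
          refine ⟨s, ?_⟩
          rw [mem_filter]
          exact ⟨hs1, hs2, Or.inr (Or.inr ⟨t, h, ht' hdw, hH, hact⟩)⟩
        omega
    · exfalso
      apply hb
      rw [bad, mem_filter]
      rcases hpr with hpr | ⟨h1, h2⟩
      · exact absurd (hpr d (ht' hdw)) hact
      · exact ⟨hdD, t, h1, h, ht' hdw, hact, h2⟩
  · have : 0 < D.ef d := by
      rw [ef, card_pos]
      refine ⟨t, ?_⟩
      rw [mem_filter]
      exact ⟨h, ht' hdw, Or.inr hH⟩
    omega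

/-- THE COUNTING INEQUALITY -/
theorem count : D.unused.card + 2 * D.zeros.card ≤
    D.St.card + D.CU.card + D.CP.card + D.Ecost.card + D.Ubs.card + D.Pbs.card := by
  classical
  have h1 := D.slots_eq
  have h2 := D.sum_uf
  have h3 := D.sum_ef
  have h4 := D.card_bad
  have hsub : ∀ X : Finset δ, X ⊆ D.Dg → ∑ d ∈ D.Dg, (if d ∈ X then 1 else 0) = X.card := by
    intro X hX
    rw [← card_filter]
    congr 1
    ext d
    rw [mem_filter]
    exact ⟨fun h => h.2, fun h => ⟨hX h, h⟩⟩
  have e1 := hsub D.CU (filter_subset _ _)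
  have e2 := hsub D.Ubs ((filter_subset _ _).trans D.St_sub)
  have e3 := hsub D.Pbs ((filter_subset _ _).trans D.St_sub)
  have e4 := hsub D.bad (filter_subset _ _)
  have e5 := hsub D.DU (filter_subset _ _)
  have hD2 : D.D2 ⊆ D.Dg := by
    intro d hd
    rw [D2, mem_biUnion] at hd
    obtain ⟨w, _, h⟩ := hd
    exact (mem_filter.1 h).1
  have e6 := hsub D.D2 hD2
  have key : ∑ d ∈ D.Dg, (2 * (if d ∈ D.DU then 1 else 0) + (if d ∈ D.D2 then 1 else 0)) ≤
      ∑ d ∈ D.Dg, (D.uf d + D.ef d + (if d ∈ D.CU then 1 else 0) + (if d ∈ D.Ubs then 1 else 0) +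
        (if d ∈ D.Pbs then 1 else 0) + (if d ∈ D.bad then 1 else 0)) := by
    refine sum_le_sum (fun d hd => ?_)
    cases h : D.bl d with
    | none =>
      have h5 := D.local_U d hd h
      have h6 : d ∉ D.D2 := by
        intro h'
        rw [D2, mem_biUnion] at h'
        obtain ⟨w, _, h''⟩ := h'
        have := (mem_filter.1 h'').2
        rw [h] at this
        exact absurd this (by simp)
      rw [if_neg h6]
      split_ifs at * <;> omega
    | some w =>
      have h6 : d ∉ D.DU := by
        intro h'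
        have := (mem_filter.1 h').2
        rw [h] at this
        exact absurd this (by simp)
      rw [if_neg h6]
      by_cases h7 : d ∈ D.D2
      · by_cases h8 : d ∈ D.bad
        · rw [if_pos h7, if_pos h8]
          omega
        · have h9 := D.local_D2 d h7 h8
          rw [if_pos h7]
          split_ifs at * <;> omega
      · rw [if_neg h7]
        omega
  simp only [sum_add_distrib, ← mul_sum] at key
  omega

end Reg

end Pool.Agent.Helper41.AG7
end

/- Helper29.AG7.Dict -/
section
/-!
# AG section 7: dictionary between `Obj I` and the abstract record `Reg` of `Helper41/AG7/Count.lean`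

`X ⊆ S.F` is the set of triangles of the region (`X = R`, or `X = S.F` in the closed case).
* a DIAGONAL is the unordered pair `dg S a = {a, S.g a}` of glued sides;
* `inc S t` = diagonals of the triangle `t`, `Dgs S X` = inner diagonals and stubs of `X`, `Sts S X` = stubs;
* a VISIT of the region is its last corner (clockwise) in `S.keep X`, `vz S X a` = the visit of the region at the start
  of the side `a` (`a` or `S.g a` is a side of a triangle of `X`);
* `blk a` : the diagonal of the glued side `a` is blocked at the start of `a`;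
* `bl` : blocked end of a diagonal as a visit of the region.
-/

set_option autoImplicit false
open Finset

namespace Pool.Agent.Helper29.AG7

open _root_.AG _root_.AG.Obj

variable {I : Type} [DecidableEq I]

/-- the diagonal of the glued side `a` -/
def dg (S : Obj I) (a : Sd I) : Finset (Sd I) := {a, S.g a}

theorem mem_dg {S : Obj I} {a b : Sd I} : b ∈ dg S a ↔ b = a ∨ b = S.g a := by
  simp [dg]

theorem dg_g (S : Obj I) (a : Sd I) : dg S (S.g a) = dg S a := by
  rw [dg, dg, S.invol, pair_comm]

theorem dg_eq_iff {S : Obj I} {a b : Sd I} : dg S a = dg S b ↔ b = a ∨ b = S.g a := by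
  constructor
  · intro h
    rw [← mem_dg, h]
    exact mem_dg.2 (Or.inl rfl)
  · rintro (h | h)
    · rw [h]
    · rw [h, dg_g]

/-- the glued sides of the triangle `t` -/
def gs (S : Obj I) (t : I) : Finset (Sd I) :=
  ((univ : Finset (Fin 3)).filter (fun i => S.g (t, i) ≠ (t, i))).image (fun i => (t, i))

theorem mem_gs {S : Obj I} {t : I} {a : Sd I} : a ∈ gs S t ↔ a.1 = t ∧ S.g a ≠ a := by
  simp only [gs, mem_image, mem_filter, mem_univ, true_and]
  constructor
  · rintro ⟨i, h, rfl⟩
    exact ⟨rfl, h⟩
  · rintro ⟨rfl, h⟩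
    exact ⟨a.2, h, rfl⟩

/-- the diagonals of the triangle `t` -/
def inc (S : Obj I) (t : I) : Finset (Finset (Sd I)) := (gs S t).image (dg S)

theorem mem_inc {S : Obj I} {t : I} {d : Finset (Sd I)} :
    d ∈ inc S t ↔ ∃ a, a.1 = t ∧ S.g a ≠ a ∧ d = dg S a := by
  simp only [inc, mem_image, mem_gs]
  constructor
  · rintro ⟨a, ⟨h1, h2⟩, rfl⟩
    exact ⟨a, h1, h2, rfl⟩
  · rintro ⟨a, h1, h2, rfl⟩
    exact ⟨a, ⟨h1, h2⟩, rfl⟩

theorem dg_mem_inc {S : Obj I} {a : Sd I} (h : S.g a ≠ a) : dg S a ∈ inc S a.1 :=
  mem_inc.2 ⟨a, rfl, h, rfl⟩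

theorem dg_mem_inc_iff {S : Obj I} {a : Sd I} (h : S.g a ≠ a) {t : I} :
    dg S a ∈ inc S t ↔ t = a.1 ∨ t = (S.g a).1 := by
  rw [mem_inc]
  constructor
  · rintro ⟨b, rfl, _, hb⟩
    rcases dg_eq_iff.1 hb with h1 | h1
    · exact Or.inl (by rw [h1])
    · exact Or.inr (by rw [h1])
  · rintro (h1 | h1)
    · exact ⟨a, h1.symm, h, rfl⟩
    · exact ⟨S.g a, h1.symm, g_ne_iff.2 h, (dg_g S a).symm⟩

theorem card_inc (S : Obj I) (t : I) : (inc S t).card = (gs S t).card := by
  rw [inc, card_image_of_injOn]
  intro a ha b hb hab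
  rw [mem_coe, mem_gs] at ha hb
  rcases dg_eq_iff.1 hab with h | h
  · exact h.symm
  · exact absurd ((congrArg Prod.fst h).symm.trans (hb.1.trans ha.1.symm)) (S.ne a ha.2)

/-- inner diagonals and stubs of `X` -/
def Dgs (S : Obj I) (X : Finset I) : Finset (Finset (Sd I)) := X.biUnion (inc S)

theorem mem_Dgs {S : Obj I} {X : Finset I} {d : Finset (Sd I)} :
    d ∈ Dgs S X ↔ ∃ a, a.1 ∈ X ∧ S.g a ≠ a ∧ d = dg S a := by
  simp only [Dgs, mem_biUnion, mem_inc]
  constructor
  · rintro ⟨t, ht, a, rfl, h2, rfl⟩
    exact ⟨a, ht, h2, rfl⟩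
  · rintro ⟨a, h1, h2, rfl⟩
    exact ⟨a.1, h1, a, rfl, h2, rfl⟩

/-- stubs of `X` -/
def Sts (S : Obj I) (X : Finset I) : Finset (Finset (Sd I)) := (S.bd X).image (dg S)

theorem mem_Sts {S : Obj I} {X : Finset I} {d : Finset (Sd I)} :
    d ∈ Sts S X ↔ ∃ a, a.1 ∈ X ∧ (S.g a).1 ∉ X ∧ S.g a ≠ a ∧ d = dg S a := by
  simp only [Sts, mem_image, mem_bd]
  constructor
  · rintro ⟨a, ⟨h1, h2, h3⟩, rfl⟩
    exact ⟨a, h2, h3, h1, rfl⟩
  · rintro ⟨a, h1, h2, h3, rfl⟩
    exact ⟨a, ⟨h3, h1, h2⟩, rfl⟩

theorem Sts_sub (S : Obj I) (X : Finset I) : Sts S X ⊆ Dgs S X := by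
  intro d hd
  obtain ⟨a, h1, _, h3, h4⟩ := mem_Sts.1 hd
  exact mem_Dgs.2 ⟨a, h1, h3, h4⟩

theorem card_Sts (S : Obj I) (X : Finset I) : (Sts S X).card = (S.bd X).card := by
  rw [Sts, card_image_of_injOn]
  intro a ha b hb hab
  rw [mem_coe, mem_bd] at ha hb
  rcases dg_eq_iff.1 hab with h | h
  · exact h.symm
  · exact absurd (h ▸ hb.2.1) ha.2.2

theorem inc_sub {S : Obj I} {X : Finset I} {t : I} (ht : t ∈ X) : inc S t ⊆ Dgs S X :=
  subset_biUnion_of_mem (inc S) ht

/-- an inner diagonal is a side of two triangles of `X` -/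
theorem inner_two {S : Obj I} {X : Finset I} {d : Finset (Sd I)} (hd : d ∈ Dgs S X)
    (hs : d ∉ Sts S X) : (X.filter (fun t => d ∈ inc S t)).card = 2 := by
  obtain ⟨a, h1, h2, rfl⟩ := mem_Dgs.1 hd
  have h3 : (S.g a).1 ∈ X := by
    by_contra h
    exact hs (mem_Sts.2 ⟨a, h1, h, h2, rfl⟩)
  have : X.filter (fun t => dg S a ∈ inc S t) = {a.1, (S.g a).1} := by
    ext t
    rw [mem_filter, dg_mem_inc_iff h2, mem_insert, mem_singleton]
    constructor
    · exact fun h => h.2
    · rintro (h | h)
      · exact ⟨h ▸ h1, Or.inl h⟩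
      · exact ⟨h ▸ h3, Or.inr h⟩
  rw [this, card_pair (Ne.symm (S.ne a h2))]

/-- a stub is a side of exactly one triangle of `X` -/
theorem stub_one {S : Obj I} {X : Finset I} {d : Finset (Sd I)} (hs : d ∈ Sts S X) :
    (X.filter (fun t => d ∈ inc S t)).card = 1 := by
  obtain ⟨a, h1, h2, h3, rfl⟩ := mem_Sts.1 hs
  have : X.filter (fun t => dg S a ∈ inc S t) = {a.1} := by
    ext t
    rw [mem_filter, dg_mem_inc_iff h3, mem_singleton]
    constructor
    · rintro ⟨h, h' | h'⟩
      · exact h'
      · exact absurd (h' ▸ h) h2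
    · intro h
      exact ⟨h ▸ h1, Or.inl h⟩
  rw [this, card_singleton]

/-- number of glued sides of the triangles of `X` -/
theorem sum_card_inc (S : Obj I) (X : Finset I) :
    ∑ t ∈ X, (inc S t).card + (Sts S X).card = 2 * (Dgs S X).card := by
  classical
  have h1 : ∑ t ∈ X, (inc S t).card = ∑ d ∈ Dgs S X, (X.filter (fun t => d ∈ inc S t)).card := by
    have h2 : ∀ t ∈ X, (inc S t).card = ∑ d ∈ Dgs S X, if d ∈ inc S t then 1 else 0 := by
      intro t ht
      rw [← card_filter]
      congr 1
      ext d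
      rw [mem_filter]
      exact ⟨fun h => ⟨inc_sub ht h, h⟩, fun h => h.2⟩
    rw [sum_congr rfl h2, sum_comm]
    refine sum_congr rfl (fun d _ => ?_)
    rw [card_filter]
  have h3 : (Sts S X).card = ∑ d ∈ Dgs S X, if d ∈ Sts S X then 1 else 0 := by
    rw [← card_filter]
    congr 1
    ext d
    rw [mem_filter]
    exact ⟨fun h => ⟨Sts_sub S X h, h⟩, fun h => h.2⟩
  rw [h1, h3, ← sum_add_distrib, card_eq_sum_ones, mul_sum]
  refine sum_congr rfl (fun d hd => ?_)
  by_cases h : d ∈ Sts S X
  · rw [if_pos h, stub_one h, mul_one]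
  · rw [if_neg h, inner_two hd h, mul_one, add_zero]

/-- number of visits of the region -/
theorem visits_eq (S : Obj I) {X : Finset I} (hX : X ⊆ S.F) :
    (S.keep X).vis.card + 2 * (Dgs S X).card = 3 * X.card + 2 * (Sts S X).card := by
  classical
  have h1 := card_vis_add_card_glued (S.keep X)
  rw [keep_F S hX] at h1
  have h2 : ∑ t ∈ X, (gs S t).card = (S.glued.filter (fun a => a.1 ∈ X)).card := by
    rw [← card_biUnion]
    · congr 1
      ext a
      simp only [mem_biUnion, mem_gs, mem_filter, mem_glued]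
      constructor
      · rintro ⟨t, ht, rfl, h⟩
        exact ⟨h, ht⟩
      · rintro ⟨h, h'⟩
        exact ⟨a.1, h', rfl, h⟩
    · intro t _ t' _ htt
      rw [Function.onFun, disjoint_left]
      intro a ha hb
      exact htt ((mem_gs.1 ha).1.symm.trans (mem_gs.1 hb).1)
  have h3 : (S.glued.filter (fun a => a.1 ∈ X)).card = (S.keep X).glued.card + (S.bd X).card := by
    rw [← card_union_of_disjoint]
    · congr 1
      ext a
      simp only [mem_filter, mem_glued, mem_union, mem_bd, keep_g]
      by_cases h1 : a.1 ∈ X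
      · by_cases h2 : (S.g a).1 ∈ X
        · simp [h1, h2]
        · simp [h1, h2]
      · simp [h1]
    · rw [disjoint_left]
      intro a ha hb
      rw [mem_glued, keep_g] at ha
      rw [mem_bd] at hb
      rw [if_neg (fun h => hb.2.2 h.2)] at ha
      exact ha rfl
  have h4 := sum_card_inc S X
  have h5 : ∑ t ∈ X, (inc S t).card = ∑ t ∈ X, (gs S t).card := sum_congr rfl (fun t _ => card_inc S t)
  have h6 := card_Sts S X
  omega

/-- two triangles of the region share at most one diagonal -/
theorem share {S : Obj I}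
    (hsh : ∀ a b, a.1 = b.1 → a ≠ b → S.g a ≠ a → S.g b ≠ b → (S.g a).1 ≠ (S.g b).1)
    {t t' : I} (htt : t ≠ t') : (inc S t ∩ inc S t').card ≤ 1 := by
  rw [card_le_one]
  intro d hd e he
  rw [mem_inter] at hd he
  obtain ⟨a, rfl, ha, rfl⟩ := mem_inc.1 hd.1
  obtain ⟨b, hb1, hb, rfl⟩ := mem_inc.1 he.1
  have h1 := (dg_mem_inc_iff ha).1 hd.2
  have h2 := (dg_mem_inc_iff hb).1 he.2
  by_cases hab : a = b
  · rw [hab]
  · exfalso
    rcases h1 with h1 | h1
    · exact htt h1.symm
    · rcases h2 with h2 | h2
      · exact htt (hb1.symm.trans h2.symm)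
      · exact hsh a b hb1.symm hab ha hb (h1.symm.trans h2)

/-! ### visits of the region -/

/-- the visit of the region at the start of the side `a` -/
noncomputable def vz (S : Obj I) (X : Finset I) (a : Sd I) : Sd I :=
  if a.1 ∈ X then (S.keep X).last a else (S.keep X).last (rot (S.g a))

theorem keep_linear {S : Obj I} (hl : S.Linear) (X : Finset I) : (S.keep X).Linear :=
  hl.mono (keep_le S X)

/-- for a diagonal inside the region the two definitions agree -/
theorem vz_inner {S : Obj I} (hl : S.Linear) {X : Finset I} {a : Sd I} (h1 : a.1 ∈ X)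
    (h2 : (S.g a).1 ∈ X) (h3 : S.g a ≠ a) : (S.keep X).last (rot (S.g a)) = (S.keep X).last a := by
  have h4 : (S.keep X).g a = S.g a := by rw [keep_g, if_pos ⟨h1, h2⟩]
  have h5 : (S.keep X).cw a = rot (S.g a) := by
    rw [cw, h4, if_neg h3]
  rw [← h5]
  exact last_cw (keep_linear hl X) a

theorem vz_eqv {S : Obj I} {X : Finset I} {a : Sd I} (h3 : S.g a ≠ a) : S.Eqv a (vz S X a) := by
  unfold vz
  split_ifs with h
  · exact (last_eqv (S.keep X) a).mono (keep_le S X)
  · exact (Eqv.of_glued h3).trans ((last_eqv (S.keep X) _).mono (keep_le S X))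

theorem vz_mem {S : Obj I} (hl : S.Linear) {X : Finset I} (hX : X ⊆ S.F) {a : Sd I}
    (h : a.1 ∈ X ∨ (S.g a).1 ∈ X) : vz S X a ∈ (S.keep X).vis := by
  unfold vz
  split_ifs with h1
  · apply last_mem_vis (keep_linear hl X)
    rw [mem_sides, keep_F S hX]
    exact h1
  · apply last_mem_vis (keep_linear hl X)
    rw [mem_sides, keep_F S hX, rot_fst]
    rcases h with h | h
    · exact absurd h h1
    · exact h

/-- a linear object has no clockwise cycles -/
theorem linear_cycle {S : Obj I} (hl : S.Linear) {a : Sd I} {m : ℕ} (hm : m ≠ 0)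
    (h : S.cw^[m] a = a) : S.g a = a := by
  obtain ⟨n, hn⟩ := hl a
  have h1 : ∀ k, S.cw^[m * k] a = a := by
    intro k
    rw [Function.iterate_mul]
    exact Function.iterate_fixed h k
  have h2 : S.cw^[m * (n + 1)] a = S.cw^[n] a := by
    obtain ⟨k, hk⟩ := Nat.exists_eq_add_of_le (show n ≤ m * (n + 1) by
      calc n ≤ n + 1 := Nat.le_succ n
        _ = 1 * (n + 1) := (one_mul _).symm
        _ ≤ m * (n + 1) := Nat.mul_le_mul_right _ (Nat.one_le_iff_ne_zero.2 hm))
    rw [hk, add_comm, Function.iterate_add_apply, cw_iter_of_unglued hn]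
  rw [h1] at h2
  rw [← h2] at hn
  exact hn

/-! ### the blocked end -/

section blocked

variable (S : Obj I) (X : Finset I) (blk : Sd I → Prop)

open Classical in
/-- the blocked end of a diagonal, as a visit of the region -/
noncomputable def bl (d : Finset (Sd I)) : Option (Sd I) :=
  if h : ∃ a ∈ d, blk a then some (vz S X h.choose) else none

variable {S X blk}

theorem bl_of_blk (hb1 : ∀ a, blk a → ¬ blk (S.g a)) {a : Sd I} (h : blk a) :
    bl S X blk (dg S a) = some (vz S X a) := by
  classical
  have hex : ∃ b ∈ dg S a, blk b := ⟨a, mem_dg.2 (Or.inl rfl), h⟩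
  unfold bl
  rw [dif_pos hex]
  have h1 := hex.choose_spec
  rcases mem_dg.1 h1.1 with h2 | h2
  · rw [h2]
  · exact absurd (h2 ▸ h1.2) (hb1 a h)

theorem bl_none {a : Sd I} : bl S X blk (dg S a) = none ↔ ¬ blk a ∧ ¬ blk (S.g a) := by
  classical
  unfold bl
  split_ifs with h
  · simp only [false_iff, not_and, not_not]
    obtain ⟨b, hb, hb'⟩ := h
    intro h1
    rcases mem_dg.1 hb with h2 | h2
    · exact absurd (h2 ▸ hb') h1
    · exact h2 ▸ hb'
  · simp only [true_iff]
    constructor
    · exact fun h1 => h ⟨a, mem_dg.2 (Or.inl rfl), h1⟩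
    · exact fun h1 => h ⟨S.g a, mem_dg.2 (Or.inr rfl), h1⟩

theorem bl_some (hb1 : ∀ a, blk a → ¬ blk (S.g a)) {a w : Sd I} :
    bl S X blk (dg S a) = some w ↔ (blk a ∧ vz S X a = w) ∨ (blk (S.g a) ∧ vz S X (S.g a) = w) := by
  by_cases h1 : blk a
  · rw [bl_of_blk hb1 h1]
    simp [h1, hb1 a h1]
  · by_cases h2 : blk (S.g a)
    · rw [← dg_g, bl_of_blk hb1 h2]
      simp [h1, h2]
    · rw [(bl_none).2 ⟨h1, h2⟩]
      simp [h1, h2]

/-- the diagonals of the region blocked at the visit `w` -/
noncomputable def Aw (S : Obj I) (X : Finset I) (blk : Sd I → Prop) (w : Sd I) :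
    Finset (Finset (Sd I)) := (Dgs S X).filter (fun d => bl S X blk d = some w)

theorem mem_Aw (hb0 : ∀ a, blk a → S.g a ≠ a) (hb1 : ∀ a, blk a → ¬ blk (S.g a))
    {d : Finset (Sd I)} {w : Sd I} : d ∈ Aw S X blk w ↔
    ∃ a, (a.1 ∈ X ∨ (S.g a).1 ∈ X) ∧ d = dg S a ∧ blk a ∧ vz S X a = w := by
  rw [Aw, mem_filter, mem_Dgs]
  constructor
  · rintro ⟨⟨a, h1, h2, rfl⟩, h3⟩
    rcases (bl_some hb1).1 h3 with ⟨h4, h5⟩ | ⟨h4, h5⟩
    · exact ⟨a, Or.inl h1, rfl, h4, h5⟩
    · exact ⟨S.g a, Or.inr (by rw [S.invol]; exact h1), (dg_g S a).symm, h4, h5⟩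
  · rintro ⟨a, h1, rfl, h3, h4⟩
    refine ⟨?_, by rw [bl_of_blk hb1 h3, h4]⟩
    rcases h1 with h1 | h1
    · exact ⟨a, h1, hb0 a h3, rfl⟩
    · exact ⟨S.g a, h1, g_ne_iff.2 (hb0 a h3), (dg_g S a).symm⟩

/-- `(G1)` : diagonals blocked at the same visit are consecutive -/
def G1 (S : Obj I) (blk : Sd I → Prop) : Prop :=
  ∀ a b, blk a → blk b → S.Eqv a b → a = b ∨ b = S.cw a ∨ a = S.cw b

theorem bl_mem (hl : S.Linear) (hX : X ⊆ S.F) (hb1 : ∀ a, blk a → ¬ blk (S.g a))
    {d : Finset (Sd I)} (hd : d ∈ Dgs S X) {w : Sd I} (h : bl S X blk d = some w) :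
    w ∈ (S.keep X).vis := by
  obtain ⟨a, h1, h2, rfl⟩ := mem_Dgs.1 hd
  rcases (bl_some hb1).1 h with ⟨_, h5⟩ | ⟨_, h5⟩
  · rw [← h5]
    exact vz_mem hl hX (Or.inl h1)
  · rw [← h5]
    exact vz_mem hl hX (Or.inr (by rw [S.invol]; exact h1))

/-- two different diagonals blocked at the same visit of the region: the triangle between them is in the region -/
theorem between_mem (hl : S.Linear) {a b : Sd I} (hb0 : ∀ a, blk a → S.g a ≠ a)
    (ha : blk a) (hb : blk b) (hab : b = S.cw a) (hw : vz S X a = vz S X b)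
    (h1 : a.1 ∈ X ∨ (S.g a).1 ∈ X) : b.1 ∈ X := by
  by_contra hb3
  have h3 : S.cw a = rot (S.g a) := by rw [cw, if_neg (hb0 a ha)]
  have h4 : b.1 = (S.g a).1 := by rw [hab, h3, rot_fst]
  have h5 : a.1 ∈ X := by
    rcases h1 with h1 | h1
    · exact h1
    · rw [← h4] at h1; exact absurd h1 hb3
  have h6 : vz S X a = a := by
    unfold vz
    rw [if_pos h5]
    apply last_of_unglued
    rw [keep_g, if_neg]
    rw [← h4]
    exact fun h => hb3 h.2
  have h7 : vz S X b = (S.keep X).last (rot (S.g b)) := by
    unfold vz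
    rw [if_neg hb3]
  -- clockwise iteration from `rot (g b)` leads to `a`
  obtain ⟨n, hn⟩ := keep_linear hl X (rot (S.g b))
  have h8 : (S.keep X).cw^[n] (rot (S.g b)) = a := by
    rw [← last_eq_of hn, ← h7, ← hw, h6]
  have h9 : ∀ (m : ℕ) (c : Sd I), ∃ k, (S.keep X).cw^[m] c = S.cw^[k] c := by
    intro m
    induction m with
    | zero => exact fun c => ⟨0, rfl⟩
    | succ m ih =>
      intro c
      rw [Function.iterate_succ_apply]
      by_cases h : (S.keep X).g c = c
      · rw [cw_of_unglued h]
        exact ih c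
      · obtain ⟨h', h''⟩ := (keep_le S X).glued h
        have h10 : (S.keep X).cw c = S.cw c := by rw [cw, cw, if_neg h, if_neg h'', h']
        rw [h10]
        obtain ⟨k, hk⟩ := ih (S.cw c)
        exact ⟨k + 1, by rw [hk, Function.iterate_succ_apply]⟩
  obtain ⟨k, hk⟩ := h9 n (rot (S.g b))
  have h10 : S.cw b = rot (S.g b) := by rw [cw, if_neg (hb0 b hb)]
  have h11 : S.cw^[k + 2] a = a := by
    rw [Function.iterate_add_apply]
    have : S.cw^[2] a = rot (S.g b) := by
      rw [Function.iterate_succ_apply, Function.iterate_one, ← hab, h10]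
    rw [this, ← hk, h8]
  exact hb0 a ha (linear_cycle hl (by omega) h11)

theorem A_le (hl : S.Linear) (hb0 : ∀ a, blk a → S.g a ≠ a) (hb1 : ∀ a, blk a → ¬ blk (S.g a))
    (hG : G1 S blk) (w : Sd I) : (Aw S X blk w).card ≤ 2 := by
  by_contra hlt
  rw [not_le] at hlt
  obtain ⟨d1, h1, d2, h2, d3, h3, h12, h13, h23⟩ := two_lt_card.1 hlt
  obtain ⟨a, _, rfl, ha, ha'⟩ := (mem_Aw hb0 hb1).1 h1
  obtain ⟨b, _, rfl, hb, hb'⟩ := (mem_Aw hb0 hb1).1 h2
  obtain ⟨c, _, rfl, hc, hc'⟩ := (mem_Aw hb0 hb1).1 h3
  have eab : S.Eqv a b := (vz_eqv (X := X) (hb0 a ha)).trans (by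
    rw [ha', ← hb']; exact (vz_eqv (hb0 b hb)).symm)
  have eac : S.Eqv a c := (vz_eqv (X := X) (hb0 a ha)).trans (by
    rw [ha', ← hc']; exact (vz_eqv (hb0 c hc)).symm)
  have ebc : S.Eqv b c := eab.symm.trans eac
  have nab : a ≠ b := fun h => h12 (by rw [h])
  have nac : a ≠ c := fun h => h13 (by rw [h])
  have nbc : b ≠ c := fun h => h23 (by rw [h])
  have key : ∀ x y z : Sd I, blk x → blk y → blk z → x ≠ y → x ≠ z → y ≠ z → S.Eqv x z →
      y = S.cw x → z = S.cw y → False := by
    intro x y z hx hy hz n1 n2 n3 e h h'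
    rcases hG x z hx hz e with h4 | h4 | h4
    · exact n2 h4
    · exact n3 (h.trans h4.symm)
    · have : S.cw^[3] x = x := by
        rw [Function.iterate_succ_apply, Function.iterate_succ_apply, Function.iterate_one, ← h, ← h', ← h4]
      exact hb0 x hx (linear_cycle hl (by norm_num) this)
  rcases hG a b ha hb eab with h4 | h4 | h4
  · exact nab h4
  · rcases hG b c hb hc ebc with h5 | h5 | h5
    · exact nbc h5
    · exact key a b c ha hb hc nab nac nbc eac h4 h5
    · rcases hG a c ha hc eac with h6 | h6 | h6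
      · exact nac h6
      · exact nbc (h4.trans h6.symm)
      · exact key c a b hc ha hb nac.symm nbc.symm nab ebc.symm h6 h4
  · rcases hG a c ha hc eac with h5 | h5 | h5
    · exact nac h5
    · exact key b a c hb ha hc nab.symm nbc nac ebc h4 h5
    · rcases hG b c hb hc ebc with h6 | h6 | h6
      · exact nbc h6
      · exact key b c a hb hc ha nbc nab.symm nac.symm eab.symm h6 h5
      · exact key c b a hc hb ha nbc.symm nac.symm nab.symm eac.symm h6 h4

/-- a pair is hosted by a triangle of the region -/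
theorem host (hl : S.Linear) (hb0 : ∀ a, blk a → S.g a ≠ a) (hb1 : ∀ a, blk a → ¬ blk (S.g a))
    (hG : G1 S blk) {w : Sd I} (h : (Aw S X blk w).card = 2) :
    ∃ b, b.1 ∈ X ∧ Aw S X blk w = {dg S b, dg S (unrot b)} ∧ blk b ∧ blk (S.g (unrot b)) ∧
      S.g (unrot b) ≠ unrot b := by
  obtain ⟨d1, d2, h12, hA⟩ := card_eq_two.1 h
  have h1 : d1 ∈ Aw S X blk w := by rw [hA]; exact mem_insert_self _ _
  have h2 : d2 ∈ Aw S X blk w := by rw [hA]; exact mem_insert_of_mem (mem_singleton_self _)
  obtain ⟨a, ha0, rfl, ha, ha'⟩ := (mem_Aw hb0 hb1).1 h1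
  obtain ⟨b, hb0', rfl, hb, hb'⟩ := (mem_Aw hb0 hb1).1 h2
  have eab : S.Eqv a b := (vz_eqv (X := X) (hb0 a ha)).trans (by
    rw [ha', ← hb']; exact (vz_eqv (hb0 b hb)).symm)
  have key : ∀ x y : Sd I, blk x → blk y → y = S.cw x →
      dg S (unrot y) = dg S x ∧ blk (S.g (unrot y)) ∧ S.g (unrot y) ≠ unrot y := by
    intro x y hx hy hxy
    have h3 : unrot y = S.g x := by
      rw [hxy, cw, if_neg (hb0 x hx), unrot_rot]
    rw [h3]
    exact ⟨dg_g S x, by rw [S.invol]; exact hx, by rw [S.invol]; exact (hb0 x hx).symm⟩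
  rcases hG a b ha hb eab with h4 | h4 | h4
  · exact absurd (by rw [h4]) h12
  · have hbX := between_mem hl hb0 ha hb h4 (ha'.trans hb'.symm) ha0
    obtain ⟨k1, k2, k3⟩ := key a b ha hb h4
    exact ⟨b, hbX, by rw [hA, k1, pair_comm], hb, k2, k3⟩
  · have haX := between_mem hl hb0 hb ha h4 (hb'.trans ha'.symm) hb0'
    obtain ⟨k1, k2, k3⟩ := key b a hb ha h4
    exact ⟨a, haX, by rw [hA, k1], ha, k2, k3⟩

end blocked

end Pool.Agent.Helper29.AG7
end

/- Helper41.AG7.Slots -/
section
/-!
# AG (MP_586e8d, Shermer), section 7: criteria for unused slots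
-/

set_option autoImplicit false
open Finset

namespace Pool.Agent.Helper41.AG7

namespace Reg

variable {τ δ ν : Type*} [DecidableEq τ] [DecidableEq δ] [DecidableEq ν] (D : Reg τ δ ν)

lemma mem_unused (s : τ) (d : δ) : (s, d) ∈ D.unused ↔ s ∈ D.face ∧ d ∈ D.inc s ∧ ¬ D.Used s d := by
  classical
  rw [unused, mem_filter, mem_product]
  constructor
  · rintro ⟨⟨h1, _⟩, h3, h4⟩
    exact ⟨h1, h3, h4⟩
  · rintro ⟨h1, h3, h4⟩
    exact ⟨⟨h1, (D.inc_face s h1).1 h3⟩, h3, h4⟩

lemma mem_A {d : δ} {w : ν} : d ∈ D.A w ↔ d ∈ D.Dg ∧ D.bl d = some w := by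
  rw [A, mem_filter]

lemma A_unique {d : δ} {w w' : ν} (h : D.bl d = some w) (h' : d ∈ D.A w') : w = w' := by
  have := (D.mem_A.1 h').2
  rw [h] at this
  exact Option.some.inj this

/-- a blade hosting a pair: its glued sides are the pair -/
lemma hosts_blade {t : τ} (ht : t ∈ D.blade) {w : ν} (h2 : (D.A w).card = 2) (h : D.A w ⊆ D.inc t) :
    D.A w = D.inc t := by
  apply eq_of_subset_of_card_le h
  rw [h2, (D.inc_blade t ht).2]

/-- general criterion: `d` blocked at `w`, no other diagonal of `A w` on `s`, no blade hosts the pair at `w` -/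
lemma unused_of {s : τ} {d : δ} {w : ν} (hs : s ∈ D.face) (hd : d ∈ D.inc s) (hb : D.bl d = some w)
    (h1 : ∀ d' ∈ D.A w, d' ∈ D.inc s → d' = d)
    (h2 : ∀ t ∈ D.blade, D.A w = D.inc t → (D.A w).card ≠ 2) : (s, d) ∈ D.unused := by
  rw [mem_unused]
  refine ⟨hs, hd, ?_⟩
  rintro (h | ⟨w', hw', hc, hsub, hdw⟩ | ⟨t, ht, hdt, ⟨w', hw', hc, hsub⟩, _⟩)
  · rw [h] at hb
    exact absurd hb (by simp)
  · have := D.A_unique hb hdw
    subst this
    have h3 : D.A w ⊆ {d} := by
      intro d' hd'
      rw [mem_singleton]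
      exact h1 d' hd' (hsub hd')
    have := card_le_card h3
    rw [hc, card_singleton] at this
    omega
  · have hA := D.hosts_blade ht hc hsub
    rw [← hA] at hdt
    have := D.A_unique hb hdt
    subst this
    exact h2 t ht hA hc

/-- the only diagonal blocked at its visit -/
lemma unused_of_card_one {s : τ} {d : δ} {w : ν} (hs : s ∈ D.face) (hd : d ∈ D.inc s) (hb : D.bl d = some w)
    (h1 : (D.A w).card = 1) : (s, d) ∈ D.unused := by
  apply D.unused_of hs hd hb
  · intro d' hd' _
    have hdA : d ∈ D.A w := D.mem_A.2 ⟨(D.inc_face s hs).1 hd, hb⟩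
    obtain ⟨x, hx⟩ := card_eq_one.1 h1
    rw [hx, mem_singleton] at hd' hdA
    rw [hd', hdA]
  · intro t _ _ h
    rw [h1] at h
    exact absurd h (by norm_num)

/-- a stub which is the side of a face and the only member of `A w` on it -/
lemma unused_stub {s : τ} {d : δ} {w : ν} (hs : s ∈ D.face) (hd : d ∈ D.inc s) (hst : d ∈ D.St)
    (hb : D.bl d = some w) (h1 : ∀ d' ∈ D.A w, d' ∈ D.inc s → d' = d) : (s, d) ∈ D.unused := by
  apply D.unused_of hs hd hb h1
  intro t ht hA _
  have hdA : d ∈ D.A w := D.mem_A.2 ⟨D.St_sub hst, hb⟩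
  rw [hA] at hdA
  have h2 := D.stub_one d hst
  have h3 : ({s, t} : Finset τ) ⊆ ((D.face ∪ D.blade) ∪ D.eared).filter (fun t => d ∈ D.inc t) := by
    intro x hx
    rw [mem_insert, mem_singleton] at hx
    rw [mem_filter, mem_union, mem_union]
    rcases hx with rfl | rfl
    · exact ⟨Or.inl (Or.inl hs), hd⟩
    · exact ⟨Or.inl (Or.inr ht), hdA⟩
  have h4 := card_le_card h3
  have hne : s ≠ t := by
    rintro rfl
    exact disjoint_left.1 D.disj_fb hs ht
  rw [h2, card_pair hne] at h4
  omega

/-- a non U diagonal between two faces: one of its two slots is unused -/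
lemma unused_inner {s s' : τ} {d : δ} {w : ν} (hs : s ∈ D.face) (hs' : s' ∈ D.face) (hne : s ≠ s')
    (hd : d ∈ D.inc s) (hd' : d ∈ D.inc s') (hb : D.bl d = some w) :
    (s, d) ∈ D.unused ∨ (s', d) ∈ D.unused := by
  have hDg := (D.inc_face s hs).1 hd
  have hdA : d ∈ D.A w := D.mem_A.2 ⟨hDg, hb⟩
  -- no blade has the side d
  have hbl : ∀ t ∈ D.blade, d ∉ D.inc t := by
    intro t ht hdt
    have h3 : ({s, s', t} : Finset τ) ⊆ ((D.face ∪ D.blade) ∪ D.eared).filter (fun t => d ∈ D.inc t) := by
      intro x hx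
      rw [mem_insert, mem_insert, mem_singleton] at hx
      rw [mem_filter, mem_union, mem_union]
      rcases hx with rfl | rfl | rfl
      · exact ⟨Or.inl (Or.inl hs), hd⟩
      · exact ⟨Or.inl (Or.inl hs'), hd'⟩
      · exact ⟨Or.inl (Or.inr ht), hdt⟩
    have h4 := card_le_card h3
    have e1 : s ≠ t := by rintro rfl; exact disjoint_left.1 D.disj_fb hs ht
    have e2 : s' ≠ t := by rintro rfl; exact disjoint_left.1 D.disj_fb hs' ht
    have h5 : ({s, s', t} : Finset τ).card = 3 := card_eq_three.2 ⟨s, s', t, hne, e1, e2, rfl⟩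
    rw [h5] at h4
    by_cases hst : d ∈ D.St
    · rw [D.stub_one d hst] at h4; omega
    · rw [D.inner_two d hDg hst] at h4; omega
  have hnot3 : ∀ t ∈ D.blade, D.A w = D.inc t → (D.A w).card ≠ 2 := by
    intro t ht hA _
    exact hbl t ht (hA ▸ hdA)
  by_cases h1 : ∀ d' ∈ D.A w, d' ∈ D.inc s → d' = d
  · exact Or.inl (D.unused_of hs hd hb h1 hnot3)
  · right
    apply D.unused_of hs' hd' hb _ hnot3
    intro d1 hd1 hd1s'
    by_contra hne1
    push Not at h1
    obtain ⟨d2, hd2, hd2s, hne2⟩ := h1
    -- d, d1, d2 are in A w; |A w| ≤ 2, so d1 = d2, then s, s' share d and d1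
    have hw : w ∈ D.V := D.bl_mem d hDg w hb
    have hle : (D.A w).card ≤ 2 := D.A_le w hw
    have h12 : d1 = d2 := by
      by_contra hn
      have h5 : ({d, d1, d2} : Finset δ) ⊆ D.A w := by
        intro x hx
        rw [mem_insert, mem_insert, mem_singleton] at hx
        rcases hx with rfl | rfl | rfl
        · exact hdA
        · exact hd1
        · exact hd2
      have h6 := card_le_card h5
      rw [card_eq_three.2 ⟨d, d1, d2, fun h => hne1 h.symm, fun h => hne2 h.symm, hn, rfl⟩] at h6
      omega
    subst h12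
    have h7 : ({d, d1} : Finset δ) ⊆ D.inc s ∩ D.inc s' := by
      intro x hx
      rw [mem_insert, mem_singleton] at hx
      rw [mem_inter]
      rcases hx with rfl | rfl
      · exact ⟨hd, hd'⟩
      · exact ⟨hd2s, hd1s'⟩
    have h8 := card_le_card h7
    rw [card_pair (fun h => hne1 h.symm)] at h8
    have h9 := D.share s (by rw [mem_union, mem_union]; exact Or.inl (Or.inl hs)) s'
      (by rw [mem_union, mem_union]; exact Or.inl (Or.inl hs')) hne
    omega

end Reg

end Pool.Agent.Helper41.AG7
end

/- Helper96.PolyList -/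
section
/-!
# A library of polynomial time functions on booleans, numbers and lists
-/

set_option autoImplicit false
set_option linter.all false

namespace Pool.Agent.Helper96

open T

section
variable {α β γ δ ε : Type} [Enc α] [Enc β] [Enc γ] [Enc δ] [Enc ε]

/-- folding, with an explicit bound -/
theorem Poly.foldl' {f : α → List β} {g : α → γ} {h : α → γ → β → γ} (hf : Poly f)
    (hg : Poly g) (hh : Poly (fun q : (α × β) × γ => h q.1.1 q.2 q.1.2)) (B : ℕ → ℕ)
    (hB : IsPB B) (hb : ∀ a l', l' <+: f a → sz (l'.foldl (h a) (g a)) ≤ B (sz a)) :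
    Poly (fun a => (f a).foldl (h a) (g a)) := by
  obtain ⟨k, hk⟩ := hB
  exact Poly.foldl hf hg hh ⟨k, fun a l' hl' => (hb a l' hl').trans (hk _)⟩

theorem Poly.szPB {f : α → β} (hf : Poly f) : ∃ B : ℕ → ℕ, IsPB B ∧ Monotone B ∧
    ∀ a, sz (f a) ≤ B (sz a) := by
  obtain ⟨k, hk⟩ := hf.sz_le
  exact ⟨fun n => (n + 2) ^ k, by fun_prop, monotone_pb k, hk⟩

/-! ### booleans -/

@[fun_prop]
theorem Poly.not {p : α → Bool} (hp : Poly p) : Poly (fun a => !(p a)) := by
  have : (fun a => !(p a)) = fun a => bif p a then false else true := by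
    funext a; cases p a <;> rfl
  rw [this]; fun_prop

@[fun_prop]
theorem Poly.and {p q : α → Bool} (hp : Poly p) (hq : Poly q) :
    Poly (fun a => p a && q a) := by
  have : (fun a => p a && q a) = fun a => bif p a then q a else false := by
    funext a; cases p a <;> rfl
  rw [this]; fun_prop

@[fun_prop]
theorem Poly.or {p q : α → Bool} (hp : Poly p) (hq : Poly q) :
    Poly (fun a => p a || q a) := by
  have : (fun a => p a || q a) = fun a => bif p a then true else q a := by
    funext a; cases p a <;> rfl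
  rw [this]; fun_prop

@[fun_prop]
theorem Poly.ite_decide {p : α → Prop} [∀ a, Decidable (p a)] {f g : α → β}
    (hp : Poly (fun a => decide (p a))) (hf : Poly f) (hg : Poly g) :
    Poly (fun a => if p a then f a else g a) := by
  have : (fun a => if p a then f a else g a) = fun a => bif decide (p a) then f a else g a := by
    funext a; by_cases h : p a <;> simp [h]
  rw [this]; fun_prop

theorem Poly.decide_congr {p q : α → Prop} {dp : ∀ a, Decidable (p a)}
    {dq : ∀ a, Decidable (q a)}
    (h : ∀ a, p a ↔ q a) (hp : Poly (fun a => @decide (p a) (dp a))) :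
    Poly (fun a => @decide (q a) (dq a)) := by
  have : (fun a => @decide (q a) (dq a)) = fun a => @decide (p a) (dp a) := by
    funext a
    by_cases hpa : p a
    · have := (h a).1 hpa
      simp [hpa, this]
    · have : ¬ q a := fun hq => hpa ((h a).2 hq)
      simp [hpa, this]
  rw [this]; exact hp

@[fun_prop]
theorem Poly.decide_and {p q : α → Prop} [∀ a, Decidable (p a)] [∀ a, Decidable (q a)]
    (hp : Poly (fun a => decide (p a))) (hq : Poly (fun a => decide (q a))) :
    Poly (fun a => decide (p a ∧ q a)) := by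
  have : (fun a => decide (p a ∧ q a)) = fun a => decide (p a) && decide (q a) := by
    funext a; simp
  rw [this]; fun_prop

@[fun_prop]
theorem Poly.decide_or {p q : α → Prop} [∀ a, Decidable (p a)] [∀ a, Decidable (q a)]
    (hp : Poly (fun a => decide (p a))) (hq : Poly (fun a => decide (q a))) :
    Poly (fun a => decide (p a ∨ q a)) := by
  have : (fun a => decide (p a ∨ q a)) = fun a => decide (p a) || decide (q a) := by
    funext a; simp
  rw [this]; fun_prop

@[fun_prop]
theorem Poly.decide_not {p : α → Prop} [∀ a, Decidable (p a)]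
    (hp : Poly (fun a => decide (p a))) :
    Poly (fun a => decide (¬ p a)) := by
  have : (fun a => decide (¬ p a)) = fun a => !decide (p a) := by
    funext a; simp
  rw [this]; fun_prop

@[fun_prop]
theorem Poly.decide_bool {p : α → Bool} (hp : Poly p) :
    Poly (fun a => decide (p a = true)) := by
  have : (fun a => decide (p a = true)) = p := by funext a; cases p a <;> rfl
  rw [this]; exact hp

/-! ### constructors and destructors -/

@[fun_prop]
theorem Poly.cons {f : α → β} {g : α → List β} (hf : Poly f) (hg : Poly g) :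
    Poly (fun a => f a :: g a) := (hf.prodMk hg).recast fun a => rfl

theorem Poly.toTree (α : Type) [Enc α] : Poly (fun a : α => enc a) :=
  (Poly.id' (α := α)).recast fun a => rfl

@[fun_prop]
theorem Poly.tail {f : α → List β} (hf : Poly f) : Poly (fun a => (f a).tail) := by
  have h : Poly (fun a => T.sndD (enc (f a))) := Poly.sndD₀.comp ((Poly.toTree _).comp hf)
  refine h.recast fun a => ?_
  cases f a <;> rfl

@[fun_prop]
theorem Poly.isEmpty {f : α → List β} (hf : Poly f) : Poly (fun a => (f a).isEmpty) := by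
  have h : Poly (fun a => T.isL (enc (f a))) := Poly.isL₀.comp ((Poly.toTree _).comp hf)
  refine h.recast fun a => ?_
  cases f a <;> rfl

@[fun_prop]
theorem Poly.headD {f : α → List β} {g : α → β} (hf : Poly f) (hg : Poly g) :
    Poly (fun a => (f a).headD (g a)) := by
  have h : Poly (fun a => bif (f a).isEmpty then enc (g a) else T.fstD (enc (f a))) :=
    (Poly.isEmpty hf).cond ((Poly.toTree _).comp hg) (Poly.fstD₀.comp ((Poly.toTree _).comp hf))
  refine h.recast fun a => ?_
  cases f a <;> rfl

@[fun_prop]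
theorem Poly.head? {f : α → List β} (hf : Poly f) : Poly (fun a => (f a).head?) := by
  have h : Poly (fun a => bif (f a).isEmpty then L else N (T.fstD (enc (f a))) L) :=
    (Poly.isEmpty hf).cond (Poly.const L)
      ((Poly.prodMk (Poly.fstD₀.comp ((Poly.toTree _).comp hf)) (Poly.const L)).recast
        (fun a => rfl))
  refine h.recast fun a => ?_
  cases f a <;> rfl

@[fun_prop]
theorem Poly.some' {f : α → β} (hf : Poly f) : Poly (fun a => some (f a)) :=
  (hf.prodMk (Poly.const ())).recast fun a => rfl

@[fun_prop]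
theorem Poly.isSome {f : α → Option β} (hf : Poly f) : Poly (fun a => (f a).isSome) := by
  have h : Poly (fun a => !(T.isL (enc (f a)))) :=
    Poly.not (Poly.isL₀.comp ((Poly.toTree _).comp hf))
  refine h.recast fun a => ?_
  cases f a <;> rfl

@[fun_prop]
theorem Poly.isNone {f : α → Option β} (hf : Poly f) : Poly (fun a => (f a).isNone) := by
  have h : Poly (fun a => (T.isL (enc (f a)))) :=
    (Poly.isL₀.comp ((Poly.toTree _).comp hf))
  refine h.recast fun a => ?_
  cases f a <;> rfl

@[fun_prop]
theorem Poly.getD {f : α → Option β} {g : α → β} (hf : Poly f) (hg : Poly g) :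
    Poly (fun a => (f a).getD (g a)) := by
  have h : Poly (fun a => bif (f a).isNone then enc (g a) else T.fstD (enc (f a))) :=
    (Poly.isNone hf).cond ((Poly.toTree _).comp hg) (Poly.fstD₀.comp ((Poly.toTree _).comp hf))
  refine h.recast fun a => ?_
  cases f a <;> rfl

theorem Poly.optionElim [Inhabited β] {f : α → Option β} {g : α → γ} {h : α → β → γ}
    (hf : Poly f) (hg : Poly g) (hh : Poly (fun q : α × β => h q.1 q.2)) :
    Poly (fun a => (f a).elim (g a) (h a)) := by
  have : Poly (fun a => bif (f a).isNone then g a else h a ((f a).getD default)) := by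
    exact (Poly.isNone hf).cond hg (Poly.comp (g := fun q : α × β => h q.1 q.2)
      (f := fun a => (a, (f a).getD default)) hh (by fun_prop))
  refine this.recast fun a => ?_
  cases f a <;> rfl

@[fun_prop]
theorem Poly.succ {f : α → ℕ} (hf : Poly f) : Poly (fun a => f a + 1) :=
  ((Poly.const L).prodMk hf).recast fun a => rfl

@[fun_prop]
theorem Poly.pred {f : α → ℕ} (hf : Poly f) : Poly (fun a => f a - 1) := by
  have h : Poly (fun a => T.sndD (enc (f a))) := Poly.sndD₀.comp ((Poly.toTree _).comp hf)
  refine h.recast fun a => ?_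
  cases f a <;> rfl

@[fun_prop]
theorem Poly.isZero {f : α → ℕ} (hf : Poly f) : Poly (fun a => (f a == 0)) := by
  have h : Poly (fun a => T.isL (enc (f a))) := Poly.isL₀.comp ((Poly.toTree _).comp hf)
  refine h.recast fun a => ?_
  cases f a <;> rfl

/-- numbers as lists of units -/
theorem enc_units (n : ℕ) : enc (List.replicate n ()) = enc n := by
  induction n with
  | zero => rfl
  | succ n ih => rw [List.replicate_succ, enc_cons, enc_succ, ih]; rfl

@[fun_prop]
theorem Poly.units {f : α → ℕ} (hf : Poly f) : Poly (fun a => List.replicate (f a) ()) :=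
  hf.recast fun a => enc_units _

/-- unary iteration -/
theorem Poly.iterate {n : α → ℕ} {g : α → γ} {h : α → γ → γ} (hn : Poly n)
    (hg : Poly g) (hh : Poly (fun q : α × γ => h q.1 q.2)) (B : ℕ → ℕ)
    (hB : IsPB B) (hb : ∀ a i, i ≤ n a → sz ((h a)^[i] (g a)) ≤ B (sz a)) :
    Poly (fun a => (h a)^[n a] (g a)) := by
  have key : ∀ a (l : List Unit) (x : γ), l.foldl (fun x _ => h a x) x = (h a)^[l.length] x := by
    intro a l
    induction l with
    | nil => intro x; rfl
    | cons y l ih => intro x; simp [ih]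
  have := Poly.foldl' (f := fun a => List.replicate (n a) ()) (g := g)
    (h := fun a x (_ : Unit) => h a x) (by fun_prop) hg
    (Poly.comp (g := fun q : α × γ => h q.1 q.2) (f := fun q : (α × Unit) × γ => (q.1.1, q.2))
      hh (by fun_prop)) B hB (by
      intro a l' hl'
      rw [key]
      apply hb
      have := hl'.length_le
      simpa using this)
  refine this.recast fun a => ?_
  rw [key, List.length_replicate]

/-! ### lists -/

theorem sz_reverse (l : List α) : sz l.reverse = sz l := by
  induction l with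
  | nil => rfl
  | cons a l ih =>
    rw [List.reverse_cons]
    have h1 := sz_list_append l.reverse [a]
    have h2 : sz [a] = sz a + 2 := rfl
    rw [sz_cons]
    omega

theorem sz_foldl_cons (l m : List α) : sz (l.foldl (fun acc b => b :: acc) m) + 1 = sz l + sz m := by
  have : l.foldl (fun acc b => b :: acc) m = l.reverse ++ m := by
    induction l generalizing m with
    | nil => rfl
    | cons a l ih => simp [ih]
  rw [this]
  have := sz_list_append l.reverse m
  rw [sz_reverse] at this
  exact this

theorem sz_prefix_le {l m : List α} (h : l <+: m) : sz l ≤ sz m := by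
  obtain ⟨t, rfl⟩ := h
  have := sz_list_append l t
  have := sz_pos t
  omega

@[fun_prop]
theorem Poly.reverse {f : α → List β} (hf : Poly f) : Poly (fun a => (f a).reverse) := by
  obtain ⟨B, hB, hm, hs⟩ := hf.szPB
  have h1 := Poly.foldl' (f := f) (g := fun _ => ([] : List β)) (h := fun _ acc b => b :: acc)
    hf (Poly.const _) (by fun_prop) B hB (by
      intro a l' hl'
      have := sz_foldl_cons l' ([] : List β)
      have := sz_prefix_le hl'
      have := hs a
      rw [sz_nil] at *
      omega)
  refine h1.recast fun a => ?_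
  have : ∀ (l m : List β), l.foldl (fun acc b => b :: acc) m = l.reverse ++ m := by
    intro l
    induction l with
    | nil => intro m; rfl
    | cons a l ih => intro m; simp [ih]
  rw [this]; simp

@[fun_prop]
theorem Poly.append {f g : α → List β} (hf : Poly f) (hg : Poly g) :
    Poly (fun a => f a ++ g a) := by
  obtain ⟨B, hB, hm, hs⟩ := hf.szPB
  obtain ⟨B', hB', hm', hs'⟩ := hg.szPB
  have h1 := Poly.foldl' (f := fun a => (f a).reverse) (g := g) (h := fun _ acc b => b :: acc)
    (by fun_prop) hg (by fun_prop) (fun n => B n + B' n) (by fun_prop) (by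
      intro a l' hl'
      have := sz_foldl_cons l' (g a)
      have := sz_prefix_le hl'
      have := hs a
      have := hs' a
      rw [sz_reverse] at *
      beta_reduce
      omega)
  refine h1.recast fun a => ?_
  have : ∀ (l m : List β), l.foldl (fun acc b => b :: acc) m = l.reverse ++ m := by
    intro l
    induction l with
    | nil => intro m; rfl
    | cons a l ih => intro m; simp [ih]
  rw [this]; simp

theorem sz_map_le (l : List α) (h : α → β) (C : ℕ) (hC : ∀ a ∈ l, sz (h a) ≤ C) :
    sz (l.map h) ≤ l.length * (C + 1) + 1 := by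
  have := sz_list_le (l.map h) C (by
    intro b hb
    obtain ⟨a, ha, rfl⟩ := List.mem_map.1 hb
    exact hC a ha)
  simpa using this

/-- bound on the values of a function on the elements of a list -/
theorem Poly.elemBound {f : α → List β} {h : α → β → γ} (hf : Poly f)
    (hh : Poly (fun q : α × β => h q.1 q.2)) :
    ∃ B C : ℕ → ℕ, IsPB B ∧ IsPB C ∧ (∀ a, (f a).length ≤ B (sz a)) ∧ (∀ a, sz (f a) ≤ B (sz a)) ∧
      ∀ a, ∀ b ∈ f a, sz (h a b) ≤ C (sz a) := by
  obtain ⟨B, hB, hm, hs⟩ := hf.szPB
  obtain ⟨C, hC, hmC, hsC⟩ := hh.szPB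
  refine ⟨B, fun n => C (n + B n + 1), hB, by fun_prop, ?_, hs, ?_⟩
  · intro a
    have := length_lt_sz (f a)
    have := hs a
    omega
  · intro a b hb
    have h1 := hsC (a, b)
    have h2 := sz_mem_lt hb
    have h3 := hs a
    refine h1.trans (hmC ?_)
    rw [sz_prod]
    omega

@[fun_prop]
theorem Poly.map {f : α → List β} {h : α → β → γ} (hf : Poly f)
    (hh : Poly (fun q : α × β => h q.1 q.2)) : Poly (fun a => (f a).map (h a)) := by
  obtain ⟨B, C, hB, hC, h1, h2, h3⟩ := Poly.elemBound hf hh
  have key : ∀ a (l : List β) (m : List γ),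
      l.foldl (fun acc b => h a b :: acc) m = (l.map (h a)).reverse ++ m := by
    intro a l
    induction l with
    | nil => intro m; rfl
    | cons x l ih => intro m; simp [ih]
  have h4 := Poly.foldl' (f := f) (g := fun _ => ([] : List γ))
    (h := fun a acc b => h a b :: acc) hf (Poly.const _)
    ((Poly.comp (g := fun q : α × β => h q.1 q.2) hh (by fun_prop)).cons (by fun_prop))
    (fun n => B n * (C n + 1) + 1) (by fun_prop) (by
      intro a l' hl'
      rw [key, List.append_nil, sz_reverse]
      have := sz_map_le l' (h a) (C (sz a)) (fun b hb => h3 a b (hl'.subset hb))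
      have h5 : l'.length ≤ B (sz a) := hl'.length_le.trans (h1 a)
      have h6 : l'.length * (C (sz a) + 1) ≤ B (sz a) * (C (sz a) + 1) :=
        Nat.mul_le_mul_right _ h5
      beta_reduce
      omega)
  have h5 := Poly.reverse h4
  refine h5.recast fun a => ?_
  rw [key]; simp

theorem sz_sublist_le {l m : List α} (h : l.Sublist m) : sz l ≤ sz m := by
  induction h with
  | slnil => exact le_rfl
  | cons a _ ih => rw [sz_cons]; omega
  | cons_cons a _ ih => rw [sz_cons, sz_cons]; omega

@[fun_prop]
theorem Poly.filter {f : α → List β} {h : α → β → Bool} (hf : Poly f)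
    (hh : Poly (fun q : α × β => h q.1 q.2)) : Poly (fun a => (f a).filter (h a)) := by
  obtain ⟨B, hB, hm, hs⟩ := hf.szPB
  have key : ∀ a (l : List β) (m : List β),
      l.foldl (fun acc b => bif h a b then b :: acc else acc) m
        = (l.filter (h a)).reverse ++ m := by
    intro a l
    induction l with
    | nil => intro m; rfl
    | cons x l ih =>
      intro m
      rw [List.foldl_cons, ih]
      cases hx : h a x <;> simp [hx]
  have h4 := Poly.foldl' (f := f) (g := fun _ => ([] : List β))
    (h := fun a acc b => bif h a b then b :: acc else acc) hf (Poly.const _)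
    ((Poly.comp (g := fun q : α × β => h q.1 q.2) hh (by fun_prop)).cond
      (by fun_prop) (by fun_prop))
    B hB (by
      intro a l' hl'
      rw [key, List.append_nil, sz_reverse]
      exact (sz_sublist_le List.filter_sublist).trans ((sz_prefix_le hl').trans (hs a)))
  have h5 := Poly.reverse h4
  refine h5.recast fun a => ?_
  rw [key]; simp

theorem sz_flatten_le (l : List (List α)) (C : ℕ) (hC : ∀ a ∈ l, sz a ≤ C) :
    sz l.flatten ≤ l.length * C + 1 := by
  induction l with
  | nil => simp [sz_nil]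
  | cons a l ih =>
    have h1 := hC a List.mem_cons_self
    have h2 := ih (fun b hb => hC b (List.mem_cons_of_mem _ hb))
    have h3 := sz_list_append a l.flatten
    rw [List.flatten_cons, List.length_cons, add_mul]
    omega

@[fun_prop]
theorem Poly.flatMap {f : α → List β} {h : α → β → List γ} (hf : Poly f)
    (hh : Poly (fun q : α × β => h q.1 q.2)) : Poly (fun a => (f a).flatMap (h a)) := by
  obtain ⟨B, C, hB, hC, h1, h2, h3⟩ := Poly.elemBound hf hh
  have key : ∀ a (l : List β) (m : List γ),
      l.foldl (fun acc b => acc ++ h a b) m = m ++ l.flatMap (h a) := by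
    intro a l
    induction l with
    | nil => intro m; simp
    | cons x l ih => intro m; simp [ih]
  have h4 := Poly.foldl' (f := f) (g := fun _ => ([] : List γ))
    (h := fun a acc b => acc ++ h a b) hf (Poly.const _)
    (Poly.append (by fun_prop) (Poly.comp (g := fun q : α × β => h q.1 q.2) hh (by fun_prop)))
    (fun n => B n * C n + 1) (by fun_prop) (by
      intro a l' hl'
      rw [key, List.nil_append, List.flatMap_def]
      have := sz_flatten_le (l'.map (h a)) (C (sz a)) (by
        intro b hb
        obtain ⟨x, hx, rfl⟩ := List.mem_map.1 hb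
        exact h3 a x (hl'.subset hx))
      rw [List.length_map] at this
      have h5 : l'.length ≤ B (sz a) := hl'.length_le.trans (h1 a)
      have h6 : l'.length * C (sz a) ≤ B (sz a) * C (sz a) := Nat.mul_le_mul_right _ h5
      beta_reduce
      omega)
  refine h4.recast fun a => ?_
  rw [key]; simp

@[fun_prop]
theorem Poly.all {f : α → List β} {h : α → β → Bool} (hf : Poly f)
    (hh : Poly (fun q : α × β => h q.1 q.2)) : Poly (fun a => (f a).all (h a)) := by
  have key : ∀ a (l : List β) (m : Bool),
      l.foldl (fun acc b => acc && h a b) m = (m && l.all (h a)) := by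
    intro a l
    induction l with
    | nil => intro m; simp
    | cons x l ih => intro m; simp [ih, Bool.and_assoc]
  have h4 := Poly.foldl' (f := f) (g := fun _ => true)
    (h := fun a acc b => acc && h a b) hf (Poly.const _)
    (Poly.and (by fun_prop) (Poly.comp (g := fun q : α × β => h q.1 q.2) hh (by fun_prop)))
    (fun _ => 3) (by fun_prop) (by
      intro a l' hl'
      exact sz_bool_le _)
  refine h4.recast fun a => ?_
  rw [key]; simp

@[fun_prop]
theorem Poly.any {f : α → List β} {h : α → β → Bool} (hf : Poly f)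
    (hh : Poly (fun q : α × β => h q.1 q.2)) : Poly (fun a => (f a).any (h a)) := by
  have key : ∀ a (l : List β) (m : Bool),
      l.foldl (fun acc b => acc || h a b) m = (m || l.any (h a)) := by
    intro a l
    induction l with
    | nil => intro m; simp
    | cons x l ih => intro m; simp [ih, Bool.or_assoc]
  have h4 := Poly.foldl' (f := f) (g := fun _ => false)
    (h := fun a acc b => acc || h a b) hf (Poly.const _)
    (Poly.or (by fun_prop) (Poly.comp (g := fun q : α × β => h q.1 q.2) hh (by fun_prop)))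
    (fun _ => 3) (by fun_prop) (by
      intro a l' hl'
      exact sz_bool_le _)
  refine h4.recast fun a => ?_
  rw [key]; simp

@[fun_prop]
theorem Poly.length {f : α → List β} (hf : Poly f) : Poly (fun a => (f a).length) := by
  have h : Poly (fun a => (f a).map (fun _ => ())) := by fun_prop
  refine h.recast fun a => ?_
  have : (f a).map (fun _ => ()) = List.replicate (f a).length () := by
    simp [List.map_const']
  rw [this, enc_units]

@[fun_prop]
theorem Poly.add {f g : α → ℕ} (hf : Poly f) (hg : Poly g) : Poly (fun a => f a + g a) := by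
  have h : Poly (fun a => List.replicate (f a) () ++ List.replicate (g a) ()) := by fun_prop
  refine h.recast fun a => ?_
  rw [← List.replicate_add, enc_units]

@[fun_prop]
theorem Poly.replicate {f : α → ℕ} {g : α → β} (hf : Poly f) (hg : Poly g) :
    Poly (fun a => List.replicate (f a) (g a)) := by
  have h : Poly (fun a => (List.replicate (f a) ()).map (fun _ => g a)) :=
    Poly.map (by fun_prop) (by fun_prop)
  refine h.recast fun a => ?_
  simp [List.map_replicate]

@[fun_prop]
theorem Poly.mul {f g : α → ℕ} (hf : Poly f) (hg : Poly g) : Poly (fun a => f a * g a) := by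
  have h : Poly (fun a => (List.replicate (f a) ()).flatMap
    (fun _ => List.replicate (g a) ())) := Poly.flatMap (by fun_prop) (by fun_prop)
  refine h.recast fun a => ?_
  rw [← enc_units]
  congr 1
  induction f a with
  | zero => simp
  | succ n ih => rw [List.replicate_succ, List.flatMap_cons, ← ih, ← List.replicate_add]; congr 1; ring

@[fun_prop]
theorem Poly.sub {f g : α → ℕ} (hf : Poly f) (hg : Poly g) : Poly (fun a => f a - g a) := by
  obtain ⟨B, hB, hm, hs⟩ := hf.szPB
  have key : ∀ i n : ℕ, (fun x : ℕ => x - 1)^[i] n = n - i := by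
    intro i
    induction i with
    | zero => intro n; rfl
    | succ i ih => intro n; rw [Function.iterate_succ_apply, ih]; omega
  have h := Poly.iterate (n := g) (g := f) (h := fun _ x => x - 1) hg hf (by fun_prop) B hB (by
    intro a i hi
    rw [key]
    have := hs a
    rw [sz_nat] at *
    omega)
  refine h.recast fun a => ?_
  rw [key]

@[fun_prop]
theorem Poly.decide_le {f g : α → ℕ} [∀ a, Decidable (f a ≤ g a)] (hf : Poly f) (hg : Poly g) :
    Poly (fun a => decide (f a ≤ g a)) := by
  have h : Poly (fun a => (f a - g a == 0)) := by fun_prop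
  refine h.recast fun a => ?_
  congr 1
  by_cases h : f a ≤ g a
  · simp [h]
  · have : ¬ (f a - g a = 0) := by omega
    simp [h]
    omega

@[fun_prop]
theorem Poly.decide_lt {f g : α → ℕ} [∀ a, Decidable (f a < g a)] (hf : Poly f) (hg : Poly g) :
    Poly (fun a => decide (f a < g a)) := by
  have h : Poly (fun a => decide (f a + 1 ≤ g a)) := by fun_prop
  exact Poly.decide_congr (fun a => Nat.succ_le_iff) h

@[fun_prop]
theorem Poly.drop {f : α → ℕ} {g : α → List β} (hf : Poly f) (hg : Poly g) :
    Poly (fun a => (g a).drop (f a)) := by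
  obtain ⟨B, hB, hm, hs⟩ := hg.szPB
  have key : ∀ (i : ℕ) (l : List β), (fun x : List β => x.tail)^[i] l = l.drop i := by
    intro i
    induction i with
    | zero => intro n; rfl
    | succ i ih => intro n; rw [Function.iterate_succ_apply, ih]; cases n <;> simp
  have h := Poly.iterate (n := f) (g := g) (h := fun _ x => x.tail) hf hg (by fun_prop) B hB (by
    intro a i hi
    rw [key]
    exact (sz_sublist_le (List.drop_sublist _ _)).trans (hs a))
  refine h.recast fun a => ?_
  rw [key]

@[fun_prop]
theorem Poly.take {f : α → ℕ} {g : α → List β} (hf : Poly f) (hg : Poly g) :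
    Poly (fun a => (g a).take (f a)) := by
  have h : Poly (fun a => (((g a).reverse.drop ((g a).length - f a)).reverse)) := by fun_prop
  refine h.recast fun a => ?_
  congr 1
  rw [List.drop_reverse, List.reverse_reverse]
  by_cases hh : f a ≤ (g a).length
  · congr 1; omega
  · rw [List.take_of_length_le (by omega), List.take_of_length_le (by omega)]

@[fun_prop]
theorem Poly.getElem? {f : α → ℕ} {g : α → List β} (hf : Poly f) (hg : Poly g) :
    Poly (fun a => (g a)[f a]?) := by
  have h : Poly (fun a => ((g a).drop (f a)).head?) := by fun_prop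
  refine h.recast fun a => ?_
  congr 1
  rw [List.head?_drop]

@[fun_prop]
theorem Poly.listGetD {f : α → ℕ} {g : α → List β} {d : α → β} (hf : Poly f) (hg : Poly g)
    (hd : Poly d) : Poly (fun a => (g a).getD (f a) (d a)) := by
  have h : Poly (fun a => ((g a)[f a]?).getD (d a)) := by fun_prop
  refine h.recast fun a => ?_
  congr 1

@[fun_prop]
theorem Poly.range {f : α → ℕ} (hf : Poly f) : Poly (fun a => List.range (f a)) := by
  obtain ⟨B, hB, hm, hs⟩ := hf.szPB
  have key : ∀ i : ℕ, (fun x : List ℕ => x ++ [x.length])^[i] [] = List.range i := by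
    intro i
    induction i with
    | zero => rfl
    | succ i ih => rw [Function.iterate_succ_apply', ih, List.range_succ]; simp
  have h := Poly.iterate (n := f) (g := fun _ => ([] : List ℕ))
    (h := fun _ x => x ++ [x.length]) hf (Poly.const _) (by fun_prop)
    (fun n => B n * (B n + 1) + 1) (by fun_prop) (by
    intro a i hi
    rw [key]
    have h1 := sz_list_le (List.range i) (2 * i + 1) (by
      intro b hb
      rw [sz_nat]
      have := List.mem_range.1 hb
      omega)
    have h2 := hs a
    rw [sz_nat] at h2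
    rw [List.length_range] at h1
    beta_reduce
    have h3 : i * (2 * i + 1 + 1) ≤ B (sz a) * (B (sz a) + 1) := Nat.mul_le_mul (by omega) (by omega)
    omega)
  refine h.recast fun a => ?_
  rw [key]

/-! ### equality -/

theorem eqBits_key : ∀ (l m : List Bool) (ok : Bool),
    (l.foldl (fun (st : List Bool × Bool) b =>
      (st.1.tail, st.2 && !st.1.isEmpty && (bif st.1.headD false then b else !b))) (m, ok))
    = (m.drop l.length, ok && decide (m.take l.length = l)) := by
  intro l
  induction l with
  | nil => intro m ok; simp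
  | cons b l ih =>
    intro m ok
    rw [List.foldl_cons, ih]
    cases m with
    | nil => simp
    | cons c m =>
      simp only [List.tail_cons, List.isEmpty_cons, List.headD_cons, List.length_cons,
        List.drop_succ_cons, List.take_succ_cons, List.cons.injEq, Prod.mk.injEq, true_and]
      cases b <;> cases c <;> cases ok <;> simp <;> rfl

theorem Poly.eqBits {f g : α → List Bool} (hf : Poly f) (hg : Poly g) :
    Poly (fun a => decide (f a = g a)) := by
  obtain ⟨B, hB, hm, hs⟩ := hg.szPB
  have h1 := Poly.foldl' (f := f) (g := fun a => (g a, true))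
    (h := fun a (st : List Bool × Bool) b =>
      (st.1.tail, st.2 && !st.1.isEmpty && (bif st.1.headD false then b else !b))) hf
    (by fun_prop) (by fun_prop) (fun n => B n + 4) (by fun_prop) (by
      intro a l' hl'
      rw [eqBits_key, sz_prod]
      have h1 : sz ((g a).drop l'.length) ≤ B (sz a) :=
        (sz_sublist_le (List.drop_sublist _ _)).trans (hs a)
      have h2 := sz_bool_le (true && decide ((g a).take l'.length = l'))
      beta_reduce
      omega)
  have h2 : Poly (fun a => (((f a).foldl (fun (st : List Bool × Bool) b =>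
      (st.1.tail, st.2 && !st.1.isEmpty && (bif st.1.headD false then b else !b)))
        (g a, true)).2) &&
      (((f a).foldl (fun (st : List Bool × Bool) b =>
      (st.1.tail, st.2 && !st.1.isEmpty && (bif st.1.headD false then b else !b)))
        (g a, true)).1).isEmpty) := Poly.and (Poly.snd h1) (Poly.isEmpty (Poly.fst h1))
  refine h2.recast fun a => ?_
  rw [eqBits_key]
  congr 1
  simp only [Bool.true_and]
  by_cases h : f a = g a
  · simp [h]
  · have : ¬ ((g a).take (f a).length = f a ∧ (g a).drop (f a).length = []) := by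
      rintro ⟨h1, h2⟩
      apply h
      have := List.take_append_drop (f a).length (g a)
      rw [h1, h2, List.append_nil] at this
      exact this
    simp only [h, decide_false]
    by_cases h3 : (g a).take (f a).length = f a
    · have h4 : ¬ ((g a).drop (f a).length = []) := fun h4 => this ⟨h3, h4⟩
      simp only [h3, decide_true, Bool.true_and]
      cases hd : (g a).drop (f a).length with
      | nil => exact absurd hd h4
      | cons x l => rfl
    · simp [h3]

@[fun_prop]
theorem Poly.decide_eq {f g : α → β} [∀ a, Decidable (f a = g a)] (hf : Poly f) (hg : Poly g) :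
    Poly (fun a => decide (f a = g a)) := by
  have h : Poly (fun a => decide (T.bits (enc (f a)) = T.bits (enc (g a)))) :=
    Poly.eqBits (Poly.bits₀.comp ((Poly.toTree _).comp hf))
      (Poly.bits₀.comp ((Poly.toTree _).comp hg))
  refine Poly.decide_congr (fun a => ?_) h
  exact ⟨fun h => Enc.inj (T.bits_injective h), fun h => by rw [h]⟩

@[fun_prop]
theorem Poly.beq_eq [DecidableEq β] {f g : α → β} (hf : Poly f) (hg : Poly g) :
    Poly (fun a => f a == g a) := by
  have h : Poly (fun a => decide (f a = g a)) := by fun_prop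
  refine h.recast fun a => ?_
  congr 1

open Classical in
@[fun_prop]
theorem Poly.decide_mem {f : α → β} {g : α → List β} [∀ a, Decidable (f a ∈ g a)] (hf : Poly f)
    (hg : Poly g) : Poly (fun a => decide (f a ∈ g a)) := by
  have h : Poly (fun a => (g a).any (fun b => decide (b = f a))) :=
    Poly.any hg (by fun_prop)
  refine h.recast fun a => ?_
  congr 1
  by_cases h : f a ∈ g a
  · simp [h]
  · simp [h]
    rintro x hx rfl
    exact h hx

@[fun_prop]
theorem Poly.zip {f : α → List β} {g : α → List γ} (hf : Poly f) (hg : Poly g) :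
    Poly (fun a => (f a).zip (g a)) := by
  -- state: remaining second list, accumulated result (reversed)
  have key : ∀ (l : List β) (m : List γ) (acc : List (β × γ)),
      l.foldl (fun (st : List γ × List (β × γ)) b =>
        bif st.1.isEmpty then st else (st.1.tail, (st.1.take 1).map (fun c => (b, c)) ++ st.2))
          (m, acc)
        = (m.drop l.length, (l.zip m).reverse ++ acc) := by
    intro l
    induction l with
    | nil => intro m acc; simp
    | cons b l ih =>
      intro m acc
      rw [List.foldl_cons]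
      cases m with
      | nil =>
        simp only [List.isEmpty_nil, cond_true]
        rw [ih]; simp
      | cons c m =>
        simp only [List.isEmpty_cons, cond_false]
        rw [ih]; simp
  obtain ⟨B, hB, hm, hs⟩ := hf.szPB
  obtain ⟨B', hB', hm', hs'⟩ := hg.szPB
  have szzip : ∀ (l : List β) (m : List γ), sz (l.zip m) ≤ sz l + sz m := by
    intro l
    induction l with
    | nil => intro m; simp [sz_nil]
    | cons b l ih =>
      intro m
      cases m with
      | nil => simp [sz_nil]
      | cons c m =>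
        rw [List.zip_cons_cons, sz_cons, sz_cons, sz_cons, sz_prod]
        have := ih m
        omega
  have h1 := Poly.foldl' (f := f) (g := fun a => (g a, ([] : List (β × γ))))
    (h := fun a (st : List γ × List (β × γ)) b =>
        bif st.1.isEmpty then st else (st.1.tail, (st.1.take 1).map (fun c => (b, c)) ++ st.2))
    hf (by fun_prop) (by
      refine Poly.cond (by fun_prop) (by fun_prop) (Poly.prodMk (by fun_prop)
        (Poly.append (Poly.map (by fun_prop) (by fun_prop)) (by fun_prop))))
    (fun n => B' n + (B n + B' n) + 1) (by fun_prop) (by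
      intro a l' hl'
      rw [key, sz_prod, List.append_nil, sz_reverse]
      have h1 : sz ((g a).drop l'.length) ≤ B' (sz a) :=
        (sz_sublist_le (List.drop_sublist _ _)).trans (hs' a)
      have h2 := szzip l' (g a)
      have h3 := (sz_prefix_le hl').trans (hs a)
      have h4 := hs' a
      beta_reduce
      omega)
  have h2 := Poly.reverse (Poly.snd h1)
  refine h2.recast fun a => ?_
  rw [key]; simp

/-- powers with a fixed exponent -/
@[fun_prop]
theorem Poly.pow {f : α → ℕ} (hf : Poly f) (k : ℕ) : Poly (fun a => f a ^ k) := by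
  induction k with
  | zero => simpa using Poly.const (1 : ℕ)
  | succ k ih => simpa [pow_succ] using ih.mul hf

@[fun_prop]
theorem Poly.min {f g : α → ℕ} (hf : Poly f) (hg : Poly g) : Poly (fun a => min (f a) (g a)) := by
  have h : Poly (fun a => f a - (f a - g a)) := by fun_prop
  refine h.recast fun a => ?_
  congr 1; omega

end

end Pool.Agent.Helper96
end
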