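import Pool.Agent.Helper16.VGG.G01
import Pool.Agent.Helper16.VGG.G02

/- AG.Fan -/
section
/-!
# Project AG: positions in the fan of a visit   (helper86)

`S.ps a` is the number of clockwise steps from the corner `a` to the end of its fan.  The corners
of one visit have the positions `0, 1, …, m`.  A glued side `a` (it starts at the vertex of the
corner `a`) lies between the triangles at the positions `ps a - 1` (the triangle `(S.g a).1`) and
`ps a` (the triangle `a.1`).  So the glued sides at a visit `v` are listed by the glued corners of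
`v`, with the numbers `ps a = 1, …, m` (this is `f_i` of the text).
-/

set_option linter.unusedSectionVars false
set_option linter.unusedSimpArgs false

namespace AG

open Finset

variable {I : Type} [DecidableEq I]

namespace Obj

open Classical in
/-- position of a corner in its fan: the number of clockwise steps to the end of the fan -/
noncomputable def ps (S : Obj I) (a : Sd I) : ℕ :=
  if h : ∃ n, S.g (S.cw^[n] a) = S.cw^[n] a then Nat.find h else 0

variable {S : Obj I}

theorem ps_of_unglued {a : Sd I} (h : S.g a = a) : S.ps a = 0 := by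
  classical
  have h0 : ∃ n, S.g (S.cw^[n] a) = S.cw^[n] a := ⟨0, h⟩
  rw [ps, dif_pos h0]
  exact (Nat.find_eq_zero h0).2 h

theorem cw_of_glued {a : Sd I} (h : S.g a ≠ a) : S.cw a = rot (S.g a) := by simp [cw, h]

theorem cw_fst {a : Sd I} (h : S.g a ≠ a) : (S.cw a).1 = (S.g a).1 := by simp [cw_of_glued h]

theorem ccw_of_glued {a : Sd I} (h : S.g (unrot a) ≠ unrot a) : S.ccw a = S.g (unrot a) := by
  simp [ccw, h]

/-- the counterclockwise neighbour of a corner is glued along its own side -/
theorem g_ccw {a : Sd I} (h : S.g (unrot a) ≠ unrot a) : S.g (S.ccw a) = unrot a := by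
  rw [ccw_of_glued h, S.invol]

theorem ccw_glued {a : Sd I} (h : S.g (unrot a) ≠ unrot a) : S.g (S.ccw a) ≠ S.ccw a := by
  rw [ccw_of_glued h, S.invol]
  exact h.symm

theorem cw_ccw {a : Sd I} (h : S.g (unrot a) ≠ unrot a) : S.cw (S.ccw a) = a := by
  rw [cw_of_glued (ccw_glued h), g_ccw h, rot_unrot]

theorem ccw_cw {a : Sd I} (h : S.g a ≠ a) : S.ccw (S.cw a) = a := by
  have h1 : S.cw a = rot (S.g a) := cw_of_glued h
  have h2 : S.g (unrot (S.cw a)) ≠ unrot (S.cw a) := by
    rw [h1, unrot_rot, S.invol]; exact h.symm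
  rw [ccw_of_glued h2, h1, unrot_rot, S.invol]

theorem unrot_cw_glued {a : Sd I} (h : S.g a ≠ a) :
    S.g (unrot (S.cw a)) ≠ unrot (S.cw a) := by
  rw [cw_of_glued h, unrot_rot, S.invol]; exact h.symm

theorem ccw_eqv {a : Sd I} (h : S.g (unrot a) ≠ unrot a) : S.Eqv a (S.ccw a) := by
  have := S.cw_eqv (S.ccw a)
  rw [cw_ccw h] at this
  exact this.symm

theorem ps_of_glued (hl : S.Linear) {a : Sd I} (h : S.g a ≠ a) :
    S.ps a = S.ps (S.cw a) + 1 := by
  classical
  have h0 : ∃ n, S.g (S.cw^[n] a) = S.cw^[n] a := hl a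
  have h1 : ∃ n, S.g (S.cw^[n] (S.cw a)) = S.cw^[n] (S.cw a) := hl _
  rw [ps, dif_pos h0, ps, dif_pos h1]
  have h2 : ∃ n, S.g (S.cw^[n + 1] a) = S.cw^[n + 1] a := by
    obtain ⟨n, hn⟩ := h1
    exact ⟨n, by rw [Function.iterate_succ_apply]; exact hn⟩
  rw [Nat.find_comp_succ h0 h2 (by simpa using h)]
  rfl

theorem ps_eq_zero_iff (hl : S.Linear) {a : Sd I} : S.ps a = 0 ↔ S.g a = a := by
  constructor
  · intro h
    by_contra h1
    rw [ps_of_glued hl h1] at h
    omega
  · exact ps_of_unglued

theorem ps_pos_iff (hl : S.Linear) {a : Sd I} : 0 < S.ps a ↔ S.g a ≠ a := by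
  rw [Nat.pos_iff_ne_zero, ne_eq, ps_eq_zero_iff hl]

theorem ps_ccw (hl : S.Linear) {a : Sd I} (h : S.g (unrot a) ≠ unrot a) :
    S.ps (S.ccw a) = S.ps a + 1 := by
  rw [ps_of_glued hl (ccw_glued h), cw_ccw h]

theorem cw_inj {a b : Sd I} (ha : S.g a ≠ a) (hb : S.g b ≠ b) (h : S.cw a = S.cw b) : a = b := by
  rw [cw_of_glued ha, cw_of_glued hb] at h
  exact S.g_injective (rot_injective h)

/-- a corner is determined by its visit and its position -/
theorem ps_inj (hl : S.Linear) {a b : Sd I} (h : S.Eqv a b) (hp : S.ps a = S.ps b) : a = b := by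
  have key : ∀ n : ℕ, ∀ a b : Sd I, S.last a = S.last b → S.ps a = n → S.ps b = n → a = b := by
    intro n
    induction n with
    | zero =>
      intro a b h ha hb
      rw [ps_eq_zero_iff hl] at ha hb
      rwa [last_of_unglued ha, last_of_unglued hb] at h
    | succ n ih =>
      intro a b h ha hb
      have ha' : S.g a ≠ a := (ps_pos_iff hl).1 (by omega)
      have hb' : S.g b ≠ b := (ps_pos_iff hl).1 (by omega)
      refine cw_inj ha' hb' (ih _ _ ?_ ?_ ?_)
      · rw [last_cw hl, last_cw hl, h]
      · have := ps_of_glued hl ha'; omega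
      · have := ps_of_glued hl hb'; omega
  exact key _ a b ((eqv_iff hl).1 h) rfl hp.symm

/-- all positions below the position of `a` occur in the visit of `a` -/
theorem exists_ps (hl : S.Linear) {a : Sd I} {k : ℕ} (hk : k ≤ S.ps a) :
    ∃ b, S.Eqv a b ∧ S.ps b = k := by
  have key : ∀ n : ℕ, ∀ a : Sd I, S.ps a = n → k ≤ n → ∃ b, S.Eqv a b ∧ S.ps b = k := by
    intro n
    induction n with
    | zero => intro a ha hk; exact ⟨a, Eqv.refl S a, by omega⟩
    | succ n ih =>
      intro a ha hk
      rcases Nat.lt_or_ge n k with h1 | h1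
      · exact ⟨a, Eqv.refl S a, by omega⟩
      · have ha' : S.g a ≠ a := (ps_pos_iff hl).1 (by omega)
        have h2 := ps_of_glued hl ha'
        obtain ⟨b, hb, hb'⟩ := ih (S.cw a) (by omega) h1
        exact ⟨b, (S.cw_eqv a).trans hb, hb'⟩
  exact key _ a rfl hk

/-- a corner which is not the first one counterclockwise ... the corner with position one more is
the counterclockwise neighbour -/
theorem ccw_of_ps (hl : S.Linear) {a b : Sd I} (h : S.Eqv a b) (hp : S.ps b = S.ps a + 1) :
    S.cw b = a ∧ S.g b ≠ b ∧ S.g (unrot a) ≠ unrot a ∧ S.ccw a = b := by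
  have hb : S.g b ≠ b := (ps_pos_iff hl).1 (by omega)
  have h1 := ps_of_glued hl hb
  have h2 : S.cw b = a :=
    ps_inj hl (((S.cw_eqv b).symm.trans h.symm)) (by omega)
  refine ⟨h2, hb, ?_, ?_⟩
  · rw [← h2]; exact unrot_cw_glued hb
  · rw [← h2]; exact ccw_cw hb

/-- the side `unrot a` of a corner is glued iff the position above occurs -/
theorem unrot_glued_of_lt (hl : S.Linear) {a b : Sd I} (h : S.Eqv a b) (hp : S.ps a < S.ps b) :
    S.g (unrot a) ≠ unrot a := by
  obtain ⟨c, hc, hc'⟩ := exists_ps hl (show S.ps a + 1 ≤ S.ps b by omega)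
  exact (ccw_of_ps hl (h.trans hc) hc').2.2.1

/-- CROSSING: if exactly one of the triangles at two positions of a visit is in `X`, then between
them the fan crosses the boundary of `X` -/
theorem exists_cross (hl : S.Linear) {a b : Sd I} (h : S.Eqv a b) (hp : S.ps a ≤ S.ps b)
    {X : Finset I} (hX : ¬ (a.1 ∈ X ↔ b.1 ∈ X)) :
    ∃ c, S.Eqv a c ∧ S.g c ≠ c ∧ S.ps a < S.ps c ∧ S.ps c ≤ S.ps b ∧
      ¬ (c.1 ∈ X ↔ (S.g c).1 ∈ X) ∧ (c.1 ∈ X ↔ b.1 ∈ X) := by
  have key : ∀ n : ℕ, ∀ b : Sd I, S.ps b = n → S.Eqv a b → S.ps a ≤ n → ¬ (a.1 ∈ X ↔ b.1 ∈ X) →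
      ∃ c, S.Eqv a c ∧ S.g c ≠ c ∧ S.ps a < S.ps c ∧ S.ps c ≤ n ∧
      ¬ (c.1 ∈ X ↔ (S.g c).1 ∈ X) ∧ (c.1 ∈ X ↔ b.1 ∈ X) := by
    intro n
    induction n with
    | zero =>
      intro b hb hab hle hX
      have : a = b := ps_inj hl hab (by omega)
      exact absurd (by rw [this]) hX
    | succ n ih =>
      intro b hb hab hle hX
      rcases Nat.lt_or_ge n (S.ps a) with h1 | h1
      · have : a = b := ps_inj hl hab (by omega)
        exact absurd (by rw [this]) hX
      · have hb' : S.g b ≠ b := (ps_pos_iff hl).1 (by omega)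
        have h2 := ps_of_glued hl hb'
        by_cases h3 : b.1 ∈ X ↔ (S.g b).1 ∈ X
        · have h4 : (S.cw b).1 = (S.g b).1 := cw_fst hb'
          obtain ⟨c, c1, c2, c3, c4, c5, c6⟩ := ih (S.cw b) (by omega) (hab.trans (S.cw_eqv b)) h1
            (by rw [h4, ← h3]; exact hX)
          exact ⟨c, c1, c2, c3, by omega, c5, by rw [c6, h4, ← h3]⟩
        · exact ⟨b, hab, hb', by omega, by omega, h3, Iff.rfl⟩
  exact key _ b rfl h hp hX

/-- a glued side with exactly one triangle in `X` is a boundary side (in one of the two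
directions) -/
theorem mem_bd_or {X : Finset I} {c : Sd I} (h : S.g c ≠ c) (hX : ¬ (c.1 ∈ X ↔ (S.g c).1 ∈ X)) :
    c ∈ S.bd X ∨ S.g c ∈ S.bd X := by
  by_cases h1 : c.1 ∈ X
  · left; rw [mem_bd]; exact ⟨h, h1, fun h2 => hX ⟨fun _ => h2, fun _ => h1⟩⟩
  · right; rw [mem_bd]
    refine ⟨g_ne_iff.2 h, ?_, by rw [S.invol]; exact h1⟩
    by_contra h2
    exact hX ⟨fun h3 => absurd h3 h1, fun h3 => absurd h3 h2⟩

/-- the corners at the two ends of a fan: there is a last corner in the counterclockwise
direction -/
theorem exists_top (hl : S.Linear) {a : Sd I} (ha : a.1 ∈ S.F) :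
    ∃ b, S.Eqv a b ∧ S.g (unrot b) = unrot b ∧ ∀ c, S.Eqv a c → S.ps c ≤ S.ps b := by
  classical
  let T := S.sides.filter (fun c => S.Eqv a c)
  have hT : T.Nonempty := ⟨a, by simp [T, mem_sides, ha, Eqv.refl]⟩
  obtain ⟨b, hb, hmax⟩ := T.exists_max_image S.ps hT
  simp only [T, mem_filter, mem_sides] at hb hmax
  refine ⟨b, hb.2, ?_, fun c hc => ?_⟩
  · by_contra h
    have h1 := ps_ccw hl h
    have h2 : (S.ccw b).1 ∈ S.F := by rw [ccw_of_glued h]; exact g_memF h
    have := hmax (S.ccw b) ⟨h2, hb.2.trans (ccw_eqv h)⟩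
    omega
  · by_cases hc' : c.1 ∈ S.F
    · exact hmax c ⟨hc', hc⟩
    · have h0 : S.g c = c := by
        by_contra h; exact hc' (S.memF c h)
      rw [ps_of_unglued h0]; exact Nat.zero_le _

end Obj

end AG
end

/- AG.Exposed -/
section
/-!
# Project AG (MP_586e8d), block GEO-B: extreme points (7.6), plane part

Proofs.  `lex_min`: `V` finite and nonempty, `n, d` vectors which are linearly independent.  Choose
`p ∈ V` minimizing `n·p`, and among these minimizing `d·p` (`Finset.exists_min_image` twice, or
`exists_min_image` for a lexicographic order).  For every other `q ∈ V` either `n·(q-p) > 0`, or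
`n·(q-p) = 0` and `d·(q-p) > 0` (`= 0` in both would give `q = p`), so for small `ε > 0`
`(n + ε d)·(q-p) > 0`; `V` is finite, so one `ε` works (`Filter.eventually_all_finset` in
`nhdsWithin 0 (Set.Ioi 0)`, then `.exists`).

`three_exposed`: `V` contains a ccw triangle.  `p1` from `lex_min` with `n = (1,0), d = (0,1)`,
`p2` with `n = (-1,0), d = (0,-1)`.  `p1 ≠ p2` (otherwise `V` would be one point).  Some point `q`
of `V` is not on the line `p1 p2`; take `n` = the normal of `p1p2` with `n·(q - p1) < 0` and any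
independent `d`: `p3` has `n·p3 ≤ n·q < n·p1 = n·p2`, so it is different from both.

-/

set_option linter.unusedSectionVars false
set_option linter.unusedSimpArgs false

namespace AG

open Finset

/-- scalar product -/
def dot (u v : Pt) : ℝ := u.1 * v.1 + u.2 * v.2

/-- `p` is the strict minimum of the linear function `u` on `V` -/
def Exposed (V : Finset Pt) (p u : Pt) : Prop := p ∈ V ∧ ∀ q ∈ V, q ≠ p → 0 < dot u (q - p)

theorem dot_add_smul (n d w : Pt) (e : ℝ) :
    dot (n.1 + e * d.1, n.2 + e * d.2) w = dot n w + e * dot d w := by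
  unfold dot; ring

theorem dot_sub (n q p : Pt) : dot n (q - p) = dot n q - dot n p := by
  unfold dot; simp only [Prod.fst_sub, Prod.snd_sub]; ring

/-- lexicographic minimum -/
theorem lex_min {V : Finset Pt} (hV : V.Nonempty) {n d : Pt} (h : n.1 * d.2 - n.2 * d.1 ≠ 0) :
    ∃ p u, Exposed V p u ∧ ∀ q ∈ V, dot n p ≤ dot n q := by
  obtain ⟨p1, hp1, hmin1⟩ := V.exists_min_image (fun q => dot n q) hV
  have hne : (V.filter (fun q => dot n q = dot n p1)).Nonempty :=
    ⟨p1, Finset.mem_filter.2 ⟨hp1, rfl⟩⟩
  obtain ⟨p, hp, hmin2⟩ :=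
    (V.filter (fun q => dot n q = dot n p1)).exists_min_image (fun q => dot d q) hne
  rw [Finset.mem_filter] at hp
  have hall : ∀ q ∈ V, ∀ᶠ e in nhdsWithin (0 : ℝ) (Set.Ioi 0),
      q ≠ p → 0 < dot (n.1 + e * d.1, n.2 + e * d.2) (q - p) := by
    intro q hq
    by_cases hqp : q = p
    · exact Filter.Eventually.of_forall fun e h0 => absurd hqp h0
    have h1 : dot n p ≤ dot n q := by rw [hp.2]; exact hmin1 q hq
    rcases h1.lt_or_eq with h2 | h2
    · have hc : Continuous fun e : ℝ => dot n (q - p) + e * dot d (q - p) := by fun_prop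
      have h0 : 0 < dot n (q - p) + 0 * dot d (q - p) := by rw [dot_sub]; linarith
      have := (hc.tendsto 0).eventually (lt_mem_nhds h0)
      refine (this.filter_mono nhdsWithin_le_nhds).mono fun e he _ => ?_
      rw [dot_add_smul]; exact he
    · have h3 : dot d p ≤ dot d q :=
        hmin2 q (Finset.mem_filter.2 ⟨hq, by rw [← h2, hp.2]⟩)
      have h4 : dot d p ≠ dot d q := by
        intro h5
        apply hqp
        have e1 : n.1 * (q.1 - p.1) + n.2 * (q.2 - p.2) = 0 := by
          unfold dot at h2; linarith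
        have e2 : d.1 * (q.1 - p.1) + d.2 * (q.2 - p.2) = 0 := by
          unfold dot at h5; linarith
        have e3 : (n.1 * d.2 - n.2 * d.1) * (q.1 - p.1) = 0 := by
          linear_combination d.2 * e1 - n.2 * e2
        have e4 : (n.1 * d.2 - n.2 * d.1) * (q.2 - p.2) = 0 := by
          linear_combination n.1 * e2 - d.1 * e1
        have e5 := (mul_eq_zero.1 e3).resolve_left h
        have e6 := (mul_eq_zero.1 e4).resolve_left h
        exact Prod.ext (by linarith) (by linarith)
      have h5 : dot d p < dot d q := lt_of_le_of_ne h3 h4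
      filter_upwards [self_mem_nhdsWithin] with e he _
      have he' : (0 : ℝ) < e := he
      rw [dot_add_smul, dot_sub n, dot_sub d, h2]
      have : 0 < e * (dot d q - dot d p) := mul_pos he' (by linarith)
      linarith
  have hall2 : ∀ᶠ e in nhdsWithin (0 : ℝ) (Set.Ioi 0), ∀ q ∈ V,
      q ≠ p → 0 < dot (n.1 + e * d.1, n.2 + e * d.2) (q - p) :=
    (Filter.eventually_all_finset V).2 hall
  obtain ⟨e, he⟩ := hall2.exists
  exact ⟨p, (n.1 + e * d.1, n.2 + e * d.2), ⟨hp.1, he⟩, fun q hq => by rw [hp.2]; exact hmin1 q hq⟩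

private theorem cr_zero_of {a b c p r : Pt} (hpr : p ≠ r) (ha : cr p r a = 0) (hb : cr p r b = 0)
    (hc : cr p r c = 0) : cr a b c = 0 := by
  unfold cr at *
  have h1 : (r.1 - p.1) * ((b.1 - a.1) * (c.2 - a.2) - (b.2 - a.2) * (c.1 - a.1)) = 0 := by
    linear_combination (b.1 - a.1) * (hc - ha) - (c.1 - a.1) * (hb - ha)
  have h2 : (r.2 - p.2) * ((b.1 - a.1) * (c.2 - a.2) - (b.2 - a.2) * (c.1 - a.1)) = 0 := by
    linear_combination (b.2 - a.2) * (hc - ha) - (c.2 - a.2) * (hb - ha)
  rcases mul_eq_zero.1 h1 with h3 | h3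
  · rcases mul_eq_zero.1 h2 with h4 | h4
    · exact absurd (Prod.ext (by linarith) (by linarith)) hpr
    · exact h4
  · exact h3

/-- three different exposed points -/
theorem three_exposed {V : Finset Pt} {a b c : Pt} (ha : a ∈ V) (hb : b ∈ V) (hc : c ∈ V)
    (h : Ccw a b c) : ∃ p1 p2 p3 u1 u2 u3, Exposed V p1 u1 ∧ Exposed V p2 u2 ∧ Exposed V p3 u3 ∧
      p1 ≠ p2 ∧ p1 ≠ p3 ∧ p2 ≠ p3 := by
  obtain ⟨p1, u1, hp1, hm1⟩ := lex_min (V := V) ⟨a, ha⟩ (n := ((1 : ℝ), (0 : ℝ)))
    (d := ((0 : ℝ), (1 : ℝ))) (by norm_num)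
  obtain ⟨p2, u2, hp2, hm2⟩ := lex_min (V := V) ⟨a, ha⟩ (n := ((-1 : ℝ), (0 : ℝ)))
    (d := ((0 : ℝ), (-1 : ℝ))) (by norm_num)
  have h12 : p1 ≠ p2 := by
    rintro rfl
    have key : ∀ q ∈ V, q.1 = p1.1 := by
      intro q hq
      have h1 := hm1 q hq
      have h2 := hm2 q hq
      unfold dot at h1 h2
      simp only [one_mul, zero_mul, add_zero, neg_mul] at h1 h2
      linarith
    have ea := key a ha
    have eb := key b hb
    have ec := key c hc
    unfold Ccw cr at h
    rw [ea, eb, ec] at h
    simp at h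
  have hq : ∃ q ∈ V, cr p1 p2 q ≠ 0 := by
    by_contra hcon
    push Not at hcon
    have := cr_zero_of h12 (hcon a ha) (hcon b hb) (hcon c hc)
    unfold Ccw at h
    rw [this] at h
    exact lt_irrefl _ h
  obtain ⟨q, hqV, hq⟩ := hq
  have hpos : 0 < (p2.1 - p1.1) ^ 2 + (p2.2 - p1.2) ^ 2 := by
    by_contra hcon
    have h1 : (p2.1 - p1.1) ^ 2 = 0 := by nlinarith [sq_nonneg (p2.1 - p1.1), sq_nonneg (p2.2 - p1.2)]
    have h2 : (p2.2 - p1.2) ^ 2 = 0 := by nlinarith [sq_nonneg (p2.1 - p1.1), sq_nonneg (p2.2 - p1.2)]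
    have h3 := pow_eq_zero_iff (two_ne_zero) |>.1 h1
    have h4 := pow_eq_zero_iff (two_ne_zero) |>.1 h2
    exact h12 (Prod.ext (by linarith) (by linarith))
  -- the two signs of the normal
  have main : ∀ s : ℝ, s ≠ 0 → s * cr p1 p2 q < 0 → ∃ p3 u3, Exposed V p3 u3 ∧ p1 ≠ p3 ∧ p2 ≠ p3 := by
    intro s hs hneg
    obtain ⟨p3, u3, hp3, hm3⟩ := lex_min (V := V) ⟨a, ha⟩
      (n := (-(s * (p2.2 - p1.2)), s * (p2.1 - p1.1))) (d := (p2.1 - p1.1, p2.2 - p1.2)) (by
        have : -(s * (p2.2 - p1.2)) * (p2.2 - p1.2) - s * (p2.1 - p1.1) * (p2.1 - p1.1)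
            = -(s * ((p2.1 - p1.1) ^ 2 + (p2.2 - p1.2) ^ 2)) := by ring
        simp only
        rw [this]
        exact neg_ne_zero.2 (mul_ne_zero hs hpos.ne'))
    refine ⟨p3, u3, hp3, ?_, ?_⟩
    · rintro rfl
      have := hm3 q hqV
      unfold dot at this
      unfold cr at hneg
      simp only at this
      nlinarith
    · rintro rfl
      have := hm3 q hqV
      unfold dot at this
      unfold cr at hneg
      simp only at this
      nlinarith
  rcases lt_or_gt_of_ne hq with h0 | h0
  · obtain ⟨p3, u3, hp3, h13, h23⟩ := main 1 one_ne_zero (by linarith)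
    exact ⟨p1, p2, p3, u1, u2, u3, hp1, hp2, hp3, h12, h13, h23⟩
  · obtain ⟨p3, u3, hp3, h13, h23⟩ := main (-1) (by norm_num) (by linarith)
    exact ⟨p1, p2, p3, u1, u2, u3, hp1, hp2, hp3, h12, h13, h23⟩

/-- transitivity in an open half plane -/
theorem ccw_trans_of_dot {p u a b c : Pt} (ha : 0 < dot u (a - p)) (hb : 0 < dot u (b - p))
    (hc : 0 < dot u (c - p)) (h1 : Ccw p a b) (h2 : Ccw p b c) : Ccw p a c := by
  unfold Ccw at *
  have key : cr p a c * dot u (b - p) = cr p a b * dot u (c - p) + cr p b c * dot u (a - p) := by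
    unfold cr dot
    simp only [Prod.fst_sub, Prod.snd_sub]
    ring
  have h3 : 0 < cr p a c * dot u (b - p) := by
    rw [key]; positivity
  exact (pos_iff_pos_of_mul_pos h3).2 hb

end AG
end

/- Helper69.AGF.FanConn -/
section
/-!
AGF module FanConn: connectedness of the fan of triangles around a vertex.

PROOF HINTS. Let R u u' := for all t t' in T with {v,u} subset t and {v,u'} subset t':
ReflTransGen (Adj T (v in .)) t t'. (0) For one neighbour u: any two triangles t, t' containing {v,u} are equal or adjacent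
(Adj with e = {v,u}, card 2). (1) hbase: {v,u,u'} =: s in T contains both {v,u} and {v,u'}: t - s - t' by (0). (2) htrans: {v,w} is
contained in some triangle s in T: t ~ s ~ t'. So between_induction gives R u u' whenever det v u u' > 0, by symmetry
(adj_rel_symm) whenever det v u u' <> 0. (3) Given t, t' at v: t = {v,p,q}, t' = {v,p',q'} (at_vertex), 0 < det v p q,
0 < det v p' q'. If det v p p' <> 0: done by R. If det v p q' <> 0: done. Otherwise det v p p' = 0 and det v p q' = 0 with p <> v: then
p', q' are both on the line v p and det v p' q' = 0: contradiction (Plucker (p,p',q',x) or coordinates: from det v p p' = 0 and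
det v p q' = 0, p <> v follows det v p' q' = 0).
-/

noncomputable section

namespace Pool.Agent.Helper69.AGF

variable {T : Finset (Finset Pt)}

lemma Adj.symm {ok : Finset Pt → Prop} {t t' : Finset Pt} (h : Adj T ok t t') : Adj T ok t' t := by
  obtain ⟨h1, h2, h3, e, h4, h5, h6, h7⟩ := h
  exact ⟨h2, h1, h3.symm, e, h4, h6, h5, h7⟩

lemma adj_rel_symm {ok : Finset Pt → Prop} {t t' : Finset Pt}
    (h : Relation.ReflTransGen (Adj T ok) t t') : Relation.ReflTransGen (Adj T ok) t' t := by
  induction h with
  | refl => exact Relation.ReflTransGen.refl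
  | tail _ h2 ih => exact Relation.ReflTransGen.head h2.symm ih

lemma adj_rel_mono {ok ok' : Finset Pt → Prop} (h : ∀ e, ok e → ok' e) {t t' : Finset Pt}
    (h1 : Relation.ReflTransGen (Adj T ok) t t') : Relation.ReflTransGen (Adj T ok') t t' := by
  induction h1 with
  | refl => exact Relation.ReflTransGen.refl
  | tail _ h2 ih =>
    obtain ⟨h1, h2, h3, e, h4, h5, h6, h7⟩ := h2
    exact Relation.ReflTransGen.tail ih ⟨h1, h2, h3, e, h4, h5, h6, h _ h7⟩

private lemma fan_step {v u : Pt} (hvu : v ≠ u) {t t' : Finset Pt} (ht : t ∈ T) (ht' : t' ∈ T)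
    (h : ({v, u} : Finset Pt) ⊆ t) (h' : ({v, u} : Finset Pt) ⊆ t') :
    Relation.ReflTransGen (Adj T (fun e => v ∈ e)) t t' := by
  by_cases he : t = t'
  · subst he; exact Relation.ReflTransGen.refl
  · exact Relation.ReflTransGen.single
      ⟨ht, ht', he, {v, u}, Finset.card_pair hvu, h, h', by simp⟩

private lemma det_zero_of_zero {v p p' q' : Pt} (hp : p ≠ v) (h1 : det v p p' = 0)
    (h2 : det v p q' = 0) : det v p' q' = 0 := by
  by_contra hcon
  apply hp
  unfold det at h1 h2 hcon
  have e1 : (p.1 - v.1) * ((p'.1 - v.1) * (q'.2 - v.2) - (p'.2 - v.2) * (q'.1 - v.1)) = 0 := by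
    linear_combination (p'.1 - v.1) * h2 - (q'.1 - v.1) * h1
  have e2 : (p.2 - v.2) * ((p'.1 - v.1) * (q'.2 - v.2) - (p'.2 - v.2) * (q'.1 - v.1)) = 0 := by
    linear_combination (p'.2 - v.2) * h2 - (q'.2 - v.2) * h1
  have f1 := (mul_eq_zero.mp e1).resolve_right hcon
  have f2 := (mul_eq_zero.mp e2).resolve_right hcon
  exact Prod.ext (by linarith) (by linarith)

/-- The triangles at v are connected through sides at v. -/
theorem IsTri.fan_conn (hT : IsTri T) (hconv : Convex ℝ (region T)) {v : Pt} {t t' : Finset Pt}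
    (ht : t ∈ T) (hvt : v ∈ t) (ht' : t' ∈ T) (hvt' : v ∈ t') :
    Relation.ReflTransGen (Adj T (fun e => v ∈ e)) t t' := by
  have hne_of_det : ∀ a b : Pt, 0 < det v a b → v ≠ a ∧ v ≠ b := by
    intro a b h
    refine ⟨?_, ?_⟩
    · rintro rfl; simp at h
    · rintro rfl; simp at h
  have hpos : ∀ u u' : Pt, ({v, u} : Finset Pt) ∈ sides T → ({v, u'} : Finset Pt) ∈ sides T →
      0 < det v u u' → ∀ s ∈ T, ∀ s' ∈ T, ({v, u} : Finset Pt) ⊆ s → ({v, u'} : Finset Pt) ⊆ s' →
      Relation.ReflTransGen (Adj T (fun e => v ∈ e)) s s' := by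
    intro u u' hu hu' hd
    refine hT.between_induction hconv
      (R := fun u u' => ∀ s ∈ T, ∀ s' ∈ T, ({v, u} : Finset Pt) ⊆ s → ({v, u'} : Finset Pt) ⊆ s' →
        Relation.ReflTransGen (Adj T (fun e => v ∈ e)) s s') ?_ ?_ hu hu' hd
    · intro a b hab hdab s hs s' hs' h1 h2
      obtain ⟨na, nb⟩ := hne_of_det a b hdab
      refine Relation.ReflTransGen.trans (fan_step na hs hab h1 ?_) (fan_step nb hab hs' ?_ h2)
      · intro x hx
        simp only [Finset.mem_insert, Finset.mem_singleton] at hx ⊢
        tauto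
      · intro x hx
        simp only [Finset.mem_insert, Finset.mem_singleton] at hx ⊢
        tauto
    · intro a w b _ hw _ _ _ _ r1 r2 s hs s' hs' h1 h2
      obtain ⟨_, c, hc, hwc⟩ := mem_sides.mp hw
      exact Relation.ReflTransGen.trans (r1 s hs c hc h1 hwc) (r2 c hc s' hs' hwc h2)
  have hne : ∀ u u' : Pt, ({v, u} : Finset Pt) ∈ sides T → ({v, u'} : Finset Pt) ∈ sides T →
      det v u u' ≠ 0 → ∀ s ∈ T, ∀ s' ∈ T, ({v, u} : Finset Pt) ⊆ s → ({v, u'} : Finset Pt) ⊆ s' →
      Relation.ReflTransGen (Adj T (fun e => v ∈ e)) s s' := by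
    intro u u' hu hu' hd s hs s' hs' h1 h2
    rcases lt_or_gt_of_ne hd with h | h
    · have h' : 0 < det v u' u := by rw [det_swap']; linarith
      exact adj_rel_symm (hpos u' u hu' hu h' s' hs' s hs h2 h1)
    · exact hpos u u' hu hu' h s hs s' hs' h1 h2
  obtain ⟨p, q, hpq, hd⟩ := hT.at_vertex ht hvt
  obtain ⟨p', q', hpq', hd'⟩ := hT.at_vertex ht' hvt'
  obtain ⟨np, _⟩ := hne_of_det p q hd
  obtain ⟨np', nq'⟩ := hne_of_det p' q' hd'
  have sp : ({v, p} : Finset Pt) ⊆ t := by
    rw [hpq]; intro x hx
    simp only [Finset.mem_insert, Finset.mem_singleton] at hx ⊢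
    tauto
  have sp' : ({v, p'} : Finset Pt) ⊆ t' := by
    rw [hpq']; intro x hx
    simp only [Finset.mem_insert, Finset.mem_singleton] at hx ⊢
    tauto
  have sq' : ({v, q'} : Finset Pt) ⊆ t' := by
    rw [hpq']; intro x hx
    simp only [Finset.mem_insert, Finset.mem_singleton] at hx ⊢
    tauto
  have mp : ({v, p} : Finset Pt) ∈ sides T := mem_sides.mpr ⟨Finset.card_pair np, t, ht, sp⟩
  have mp' : ({v, p'} : Finset Pt) ∈ sides T :=
    mem_sides.mpr ⟨Finset.card_pair np', t', ht', sp'⟩
  have mq' : ({v, q'} : Finset Pt) ∈ sides T :=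
    mem_sides.mpr ⟨Finset.card_pair nq', t', ht', sq'⟩
  by_cases h1 : det v p p' = 0
  · by_cases h2 : det v p q' = 0
    · exact absurd (det_zero_of_zero np.symm h1 h2) hd'.ne'
    · exact hne p q' mp mq' h2 t ht t' ht' sp sq'
  · exact hne p p' mp mp' h1 t ht t' ht' sp sp'

end Pool.Agent.Helper69.AGF

end
end

/- Helper69.AGF.Lower -/
section
/-!
AGF module Lower: lexicographically lower neighbours; connectedness of the dual graph.

PROOF HINTS. exists_lower: v in region; segment v p is in the region (convexity), star_dir gives t in T, v in t and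
v + e (p - v) in hull t with e > 0; at_vertex: t = {v,a,b}. mem_hull3_comb: v + e (p-v) = r v + s a + t b, r+s+t = 1, so
e (p - v) = s (a - v) + t (b - v), s,t >= 0. If neither a nor b is lexicographically smaller than v, then the first coordinates of
a - v and b - v are >= 0 and, if they vanish, the second ones are >= 0; so s (a-v) + t (b-v) has first coordinate >= 0, and if this is 0
the second is >= 0 (if s (a-v).1 + t (b-v).1 = 0 both terms vanish; each term with (a-v).1 > 0 has s = 0): so it is not
lexicographically negative, but e (p - v) is. Prod.Lex.toLex_lt_toLex (or Prod.Lex.lt_iff) describes the order of toLex.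
dual_conn: T is nonempty; let v0 be the lexicographically smallest vertex (Finset.exists_min_image (verts T) toLex). Fix a triangle t0
containing v0. Claim: for every v in verts T and every triangle t containing v, t is connected to t0 (any sides allowed): strong
induction on v along the lexicographic order restricted to the finite set verts T (e.g. on the number of vertices smaller than v, or
Finset.strongInductionOn / WellFounded on a finite linear order). If v = v0: fan_conn + adj_rel_mono. Otherwise
toLex v0 < toLex v (toLex injective), v0 in region, exists_lower gives u, a triangle s contains {v,u}; t ~ s by fan_conn at v,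
s ~ t0 by the induction hypothesis for u.
-/

noncomputable section

namespace Pool.Agent.Helper69.AGF

variable {T : Finset (Finset Pt)}

/-- A vertex which is not the lexicographically smallest point of the region has a lexicographically smaller
neighbour. -/
theorem IsTri.exists_lower (hT : IsTri T) (hconv : Convex ℝ (region T)) {v p : Pt}
    (hv : v ∈ verts T) (hp : p ∈ region T) (hlow : toLex p < toLex v) :
    ∃ u, ({v, u} : Finset Pt) ∈ sides T ∧ toLex u < toLex v := by
  have hvr : v ∈ region T := by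
    obtain ⟨t0, ht0, hvt0⟩ := mem_verts.mp hv
    exact mem_region.mpr ⟨t0, ht0, subset_hull hvt0⟩
  obtain ⟨t, ht, hvt, e, he, _, hmem⟩ := hT.star_dir hv (hconv.segment_subset hvr hp)
  obtain ⟨a, b, rfl, hd⟩ := hT.at_vertex ht hvt
  have hva : v ≠ a := by
    rintro rfl; simp at hd
  have hvb : v ≠ b := by
    rintro rfl; simp at hd
  have hsa : ({v, a} : Finset Pt) ∈ sides T :=
    mem_sides.mpr ⟨Finset.card_pair hva, _, ht, by
      intro x hx
      simp only [Finset.mem_insert, Finset.mem_singleton] at hx ⊢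
      tauto⟩
  have hsb : ({v, b} : Finset Pt) ∈ sides T :=
    mem_sides.mpr ⟨Finset.card_pair hvb, _, ht, by
      intro x hx
      simp only [Finset.mem_insert, Finset.mem_singleton] at hx ⊢
      tauto⟩
  obtain ⟨r, s, q, hr, hs, hq, h1, heq⟩ := mem_hull3_comb.mp hmem
  obtain rfl : r = 1 - s - q := by linarith
  have e1 : e * (p.1 - v.1) = s * (a.1 - v.1) + q * (b.1 - v.1) := by
    have := congrArg Prod.fst heq
    simp only [Prod.fst_add, Prod.smul_fst, smul_eq_mul, Prod.fst_sub] at this
    linarith
  have e2 : e * (p.2 - v.2) = s * (a.2 - v.2) + q * (b.2 - v.2) := by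
    have := congrArg Prod.snd heq
    simp only [Prod.snd_add, Prod.smul_snd, smul_eq_mul, Prod.snd_sub] at this
    linarith
  by_contra hcon
  push Not at hcon
  have ha := hcon a hsa
  have hb := hcon b hsb
  rw [Prod.Lex.toLex_le_toLex] at ha hb
  rw [Prod.Lex.toLex_lt_toLex] at hlow
  have ha1 : 0 ≤ s * (a.1 - v.1) := by
    apply mul_nonneg hs
    rcases ha with h | h
    · linarith
    · linarith [h.1]
  have hb1 : 0 ≤ q * (b.1 - v.1) := by
    apply mul_nonneg hq
    rcases hb with h | h
    · linarith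
    · linarith [h.1]
  rcases hlow with h | ⟨h, h'⟩
  · have : e * (p.1 - v.1) < 0 := mul_neg_of_pos_of_neg he (by linarith)
    linarith
  · rw [h, sub_self, mul_zero] at e1
    have ha0 : s * (a.1 - v.1) = 0 := by linarith
    have hb0 : q * (b.1 - v.1) = 0 := by linarith
    have ha2 : 0 ≤ s * (a.2 - v.2) := by
      rcases mul_eq_zero.mp ha0 with h0 | h0
      · rw [h0, zero_mul]
      · apply mul_nonneg hs
        rcases ha with h | h
        · linarith
        · linarith [h.2]
    have hb2 : 0 ≤ q * (b.2 - v.2) := by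
      rcases mul_eq_zero.mp hb0 with h0 | h0
      · rw [h0, zero_mul]
      · apply mul_nonneg hq
        rcases hb with h | h
        · linarith
        · linarith [h.2]
    have : e * (p.2 - v.2) < 0 := mul_neg_of_pos_of_neg he (by linarith)
    linarith

/-- The dual graph is connected. -/
theorem IsTri.dual_conn (hT : IsTri T) (hconv : Convex ℝ (region T)) {t t' : Finset Pt}
    (ht : t ∈ T) (ht' : t' ∈ T) : Relation.ReflTransGen (Adj T (fun _ => True)) t t' := by
  classical
  have hne : (verts T).Nonempty := by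
    obtain ⟨a, b, c, rfl, _⟩ := hT.tri t ht
    exact ⟨a, mem_verts.mpr ⟨_, ht, by simp⟩⟩
  obtain ⟨v0, hv0, hmin⟩ := Finset.exists_min_image (verts T) (fun v => toLex v) hne
  obtain ⟨t0, ht0, hvt0⟩ := mem_verts.mp hv0
  have hr0 : v0 ∈ region T := mem_region.mpr ⟨t0, ht0, subset_hull hvt0⟩
  have key : ∀ n : ℕ, ∀ v ∈ verts T,
      ((verts T).filter (fun w => toLex w < toLex v)).card = n → ∀ s ∈ T, v ∈ s →
      Relation.ReflTransGen (Adj T (fun _ => True)) s t0 := by
    intro n
    induction n using Nat.strong_induction_on with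
    | _ n ih =>
      intro v hv hcard s hs hvs
      by_cases hvv : v = v0
      · subst hvv
        exact adj_rel_mono (fun _ _ => trivial) (hT.fan_conn hconv hs hvs ht0 hvt0)
      · have hlt : toLex v0 < toLex v := by
          refine lt_of_le_of_ne (hmin v hv) ?_
          intro h
          exact hvv (toLex.injective h).symm
        obtain ⟨u, hu, hul⟩ := hT.exists_lower hconv hv hr0 hlt
        obtain ⟨_, s', hs', hsub⟩ := mem_sides.mp hu
        have hvs' : v ∈ s' := hsub (by simp)
        have hus' : u ∈ s' := hsub (by simp)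
        have huv : u ∈ verts T := mem_verts.mpr ⟨s', hs', hus'⟩
        have h1 : Relation.ReflTransGen (Adj T (fun _ => True)) s s' :=
          adj_rel_mono (fun _ _ => trivial) (hT.fan_conn hconv hs hvs hs' hvs')
        have h2 : Relation.ReflTransGen (Adj T (fun _ => True)) s' t0 := by
          refine ih _ ?_ u huv rfl s' hs' hus'
          rw [← hcard]
          apply Finset.card_lt_card
          refine ⟨?_, ?_⟩
          · intro w hw
            rw [Finset.mem_filter] at hw ⊢
            exact ⟨hw.1, hw.2.trans hul⟩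
          · intro hcon
            have := hcon (Finset.mem_filter.mpr ⟨huv, hul⟩)
            rw [Finset.mem_filter] at this
            exact lt_irrefl _ this.2
        exact h1.trans h2
  have hall : ∀ s ∈ T, Relation.ReflTransGen (Adj T (fun _ => True)) s t0 := by
    intro s hs
    obtain ⟨a, b, c, rfl, _⟩ := hT.tri s hs
    exact key _ a (mem_verts.mpr ⟨_, hs, by simp⟩) rfl _ hs (by simp)
  exact (hall t ht).trans (adj_rel_symm (hall t' ht'))

end Pool.Agent.Helper69.AGF

end
end

/- Helper69.AGF.Cocycle -/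
section
/-!
AGF module Cocycle: every Z/2 cocycle on the sides of a triangulation of a convex region is a coboundary.

The function f is constructed by adding the vertices in lexicographic order. For a new vertex a with a lower
neighbour u0 put f a = f u0 + z {a, u0}. Two lower neighbours u, u' of a give the same value: induction principle
between_induction (base: the triangle {a,u,u'}; intermediate neighbours of two lower neighbours are lower).
-/

noncomputable section

namespace Pool.Agent.Helper69.AGF

variable {T : Finset (Finset Pt)}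

private lemma cocycle_sum3 (z : Finset Pt → ZMod 2) {a u u' : Pt} (h1 : a ≠ u) (h2 : a ≠ u')
    (h3 : u ≠ u') : ∑ e ∈ ({a, u, u'} : Finset Pt).powersetCard 2, z e =
      z {a, u} + z {a, u'} + z {u, u'} := by
  have hset : ({a, u, u'} : Finset Pt).powersetCard 2 =
      ({({a, u} : Finset Pt), {a, u'}, {u, u'}} : Finset (Finset Pt)) := by
    ext e
    rw [Finset.mem_powersetCard]
    constructor
    · rintro ⟨hsub, hcard⟩
      obtain ⟨x, y, hxy, rfl⟩ := Finset.card_eq_two.mp hcard
      have hx := hsub (Finset.mem_insert_self x {y})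
      have hy := hsub (Finset.mem_insert_of_mem (Finset.mem_singleton_self y))
      simp only [Finset.mem_insert, Finset.mem_singleton] at hx hy ⊢
      rcases hx with rfl | rfl | rfl <;> rcases hy with rfl | rfl | rfl
      · exact absurd rfl hxy
      · exact Or.inl rfl
      · exact Or.inr (Or.inl rfl)
      · exact Or.inl (Finset.pair_comm _ _)
      · exact absurd rfl hxy
      · exact Or.inr (Or.inr rfl)
      · exact Or.inr (Or.inl (Finset.pair_comm _ _))
      · exact Or.inr (Or.inr (Finset.pair_comm _ _))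
      · exact absurd rfl hxy
    · intro he
      simp only [Finset.mem_insert, Finset.mem_singleton] at he
      rcases he with rfl | rfl | rfl
      · refine ⟨?_, Finset.card_pair h1⟩
        intro q hq
        simp only [Finset.mem_insert, Finset.mem_singleton] at hq ⊢
        tauto
      · refine ⟨?_, Finset.card_pair h2⟩
        intro q hq
        simp only [Finset.mem_insert, Finset.mem_singleton] at hq ⊢
        tauto
      · refine ⟨?_, Finset.card_pair h3⟩
        intro q hq
        simp only [Finset.mem_insert, Finset.mem_singleton] at hq ⊢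
        tauto
  have hu' : u' ∉ ({a, u} : Finset Pt) := by
    simp only [Finset.mem_insert, Finset.mem_singleton, not_or]
    exact ⟨fun h => h2 h.symm, fun h => h3 h.symm⟩
  have ha : a ∉ ({u, u'} : Finset Pt) := by
    simp only [Finset.mem_insert, Finset.mem_singleton, not_or]
    exact ⟨h1, h2⟩
  have e1 : ({a, u} : Finset Pt) ∉ ({({a, u'} : Finset Pt), {u, u'}} : Finset (Finset Pt)) := by
    simp only [Finset.mem_insert, Finset.mem_singleton, not_or]
    constructor
    · intro h
      apply hu'
      rw [h]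
      exact Finset.mem_insert_of_mem (Finset.mem_singleton_self _)
    · intro h
      apply ha
      rw [← h]
      exact Finset.mem_insert_self _ _
  have e2 : ({a, u'} : Finset Pt) ∉ ({({u, u'} : Finset Pt)} : Finset (Finset Pt)) := by
    simp only [Finset.mem_singleton]
    intro h
    apply ha
    rw [← h]
    exact Finset.mem_insert_self _ _
  rw [hset, Finset.sum_insert e1, Finset.sum_insert e2, Finset.sum_singleton, add_assoc]

private lemma cocycle_z2 : ∀ p q r s t : ZMod 2, p + q + r = 0 → r = s + t → s + p = t + q := by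
  decide

private lemma cocycle_z2' : ∀ p q r : ZMod 2, p + q = r → q = r + p := by
  decide

private lemma cocycle_lex {p q : Pt} : toLex p < toLex q ↔ p.1 < q.1 ∨ p.1 = q.1 ∧ p.2 < q.2 := by
  rw [Prod.Lex.toLex_lt_toLex]

/-- A neighbour strictly between two lower ones is lower. -/
private lemma cocycle_lower {a u w u' : Pt} (h1 : 0 < det a u w) (h2 : 0 < det a w u')
    (h3 : 0 < det a u u') (hu : toLex u < toLex a) (hu' : toLex u' < toLex a) :
    toLex w < toLex a := by
  rw [cocycle_lex] at hu hu' ⊢
  have e1 : det a u u' * (w.1 - a.1) = det a w u' * (u.1 - a.1) + det a u w * (u'.1 - a.1) := by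
    unfold det; ring
  have e2 : det a u u' * (w.2 - a.2) = det a w u' * (u.2 - a.2) + det a u w * (u'.2 - a.2) := by
    unfold det; ring
  have key : ∀ x : ℝ, det a u u' * x < 0 → x < 0 := by
    intro x hx
    by_contra hcon
    push Not at hcon
    have := mul_nonneg h3.le hcon
    linarith
  have neg : ∀ {c x : ℝ}, 0 < c → x < 0 → c * x < 0 := fun hc hx => mul_neg_of_pos_of_neg hc hx
  rcases hu with hu | ⟨hu, hu2⟩
  · left
    have hx : det a w u' * (u.1 - a.1) < 0 := neg h2 (by linarith)
    have hy : det a u w * (u'.1 - a.1) ≤ 0 := by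
      rcases hu' with hu' | ⟨hu', _⟩
      · exact (neg h1 (by linarith)).le
      · rw [hu', sub_self, mul_zero]
    have := key _ (by rw [e1]; linarith)
    linarith
  · rcases hu' with hu' | ⟨hu', hu2'⟩
    · left
      have hx : det a w u' * (u.1 - a.1) = 0 := by rw [hu, sub_self, mul_zero]
      have hy : det a u w * (u'.1 - a.1) < 0 := neg h1 (by linarith)
      have := key _ (by rw [e1]; linarith)
      linarith
    · right
      have hx : det a w u' * (u.1 - a.1) = 0 := by rw [hu, sub_self, mul_zero]
      have hy : det a u w * (u'.1 - a.1) = 0 := by rw [hu', sub_self, mul_zero]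
      have hw1 : det a u u' * (w.1 - a.1) = 0 := by rw [e1, hx, hy, add_zero]
      have hw1' : w.1 = a.1 := by
        rcases mul_eq_zero.mp hw1 with h | h
        · exact absurd h h3.ne'
        · linarith
      refine ⟨hw1', ?_⟩
      have hx2 : det a w u' * (u.2 - a.2) < 0 := neg h2 (by linarith)
      have hy2 : det a u w * (u'.2 - a.2) < 0 := neg h1 (by linarith)
      have := key _ (by rw [e2]; linarith)
      linarith

/-- Two lower neighbours of a with determinant zero are equal. -/
private lemma cocycle_par (hT : IsTri T) {a u u' : Pt} (hs : ({a, u} : Finset Pt) ∈ sides T)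
    (hs' : ({a, u'} : Finset Pt) ∈ sides T) (h0 : det a u u' = 0) (hu : toLex u < toLex a)
    (hu' : toLex u' < toLex a) : u = u' := by
  rw [cocycle_lex] at hu hu'
  have h0' : (u.1 - a.1) * (u'.2 - a.2) = (u.2 - a.2) * (u'.1 - a.1) := by
    unfold det at h0; linarith
  rcases hu with hu | ⟨hu, hu2⟩
  · have hn : u.1 - a.1 < 0 := by linarith
    have hn' : u'.1 - a.1 < 0 := by
      rcases hu' with hu' | ⟨hu', hu2'⟩
      · linarith
      · exfalso
        rw [hu', sub_self, mul_zero] at h0'
        rcases mul_eq_zero.mp h0' with h | h <;> linarith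
    refine hT.same_dir hs hs' (c := (u'.1 - a.1) / (u.1 - a.1)) (div_pos_of_neg_of_neg hn' hn) ?_
    apply Prod.ext
    · simp only [Prod.fst_sub, Prod.smul_fst, smul_eq_mul]
      rw [div_mul_cancel₀ _ hn.ne]
    · simp only [Prod.snd_sub, Prod.smul_snd, smul_eq_mul]
      rw [div_mul_eq_mul_div, eq_div_iff hn.ne]
      linarith
  · have hn : u.2 - a.2 < 0 := by linarith
    have hz : u.1 - a.1 = 0 := by linarith
    rw [hz, zero_mul] at h0'
    have hz' : u'.1 - a.1 = 0 := by
      rcases mul_eq_zero.mp h0'.symm with h | h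
      · linarith
      · exact h
    have hn' : u'.2 - a.2 < 0 := by
      rcases hu' with hu' | ⟨hu', hu2'⟩ <;> linarith
    refine hT.same_dir hs hs' (c := (u'.2 - a.2) / (u.2 - a.2)) (div_pos_of_neg_of_neg hn' hn) ?_
    apply Prod.ext
    · simp only [Prod.fst_sub, Prod.smul_fst, smul_eq_mul]
      rw [hz, hz', mul_zero]
    · simp only [Prod.snd_sub, Prod.smul_snd, smul_eq_mul]
      rw [div_mul_cancel₀ _ hn.ne]

private lemma cocycle_side_verts {x y : Pt} (h : ({x, y} : Finset Pt) ∈ sides T) :
    x ≠ y ∧ x ∈ verts T ∧ y ∈ verts T := by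
  rw [mem_sides] at h
  obtain ⟨h2, t, ht, hsub⟩ := h
  refine ⟨?_, ?_, ?_⟩
  · rintro rfl
    simp at h2
  · exact mem_verts.mpr ⟨t, ht, hsub (Finset.mem_insert_self _ _)⟩
  · exact mem_verts.mpr ⟨t, ht, hsub (Finset.mem_insert_of_mem (Finset.mem_singleton_self _))⟩

/-- All lower neighbours of a give the same value. -/
private lemma cocycle_same (hT : IsTri T) (hconv : Convex ℝ (region T)) (z : Finset Pt → ZMod 2)
    (hz : ∀ t ∈ T, ∑ e ∈ t.powersetCard 2, z e = 0) (f : Pt → ZMod 2) (a : Pt)
    (hf : ∀ x y : Pt, toLex x < toLex a → toLex y < toLex a → ({x, y} : Finset Pt) ∈ sides T →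
      z {x, y} = f x + f y)
    {u u' : Pt} (hs : ({a, u} : Finset Pt) ∈ sides T) (hs' : ({a, u'} : Finset Pt) ∈ sides T)
    (hu : toLex u < toLex a) (hu' : toLex u' < toLex a) :
    f u + z {a, u} = f u' + z {a, u'} := by
  have hmain : ∀ u u' : Pt, ({a, u} : Finset Pt) ∈ sides T → ({a, u'} : Finset Pt) ∈ sides T →
      0 < det a u u' → (toLex u < toLex a → toLex u' < toLex a →
        f u + z {a, u} = f u' + z {a, u'}) := by
    intro u u' hs hs' hd
    refine hT.between_induction hconv
      (R := fun u u' => toLex u < toLex a → toLex u' < toLex a →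
        f u + z {a, u} = f u' + z {a, u'}) ?_ ?_ hs hs' hd
    · intro u u' ht hd hu hu'
      have h1 : a ≠ u := by
        rintro rfl
        simp at hd
      have h2 : a ≠ u' := by
        rintro rfl
        simp at hd
      have h3 : u ≠ u' := by
        rintro rfl
        simp at hd
      have hsum := hz _ ht
      rw [cocycle_sum3 z h1 h2 h3] at hsum
      have hside : ({u, u'} : Finset Pt) ∈ sides T := by
        rw [mem_sides]
        refine ⟨Finset.card_pair h3, _, ht, ?_⟩
        intro q hq
        simp only [Finset.mem_insert, Finset.mem_singleton] at hq ⊢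
        tauto
      exact cocycle_z2 _ _ _ _ _ hsum (hf u u' hu hu' hside)
    · intro u w u' _ _ _ h1 h2 h3 r1 r2 hu hu'
      have hw := cocycle_lower h1 h2 h3 hu hu'
      exact (r1 hu hw).trans (r2 hw hu')
  rcases lt_trichotomy (det a u u') 0 with h | h | h
  · have h' : 0 < det a u' u := by
      rw [det_swap' a u u']
      linarith
    exact (hmain u' u hs' hs h' hu' hu).symm
  · rw [cocycle_par hT hs hs' h hu hu']
  · exact hmain u u' hs hs' h hu hu'

theorem IsTri.cocycle (hT : IsTri T) (hconv : Convex ℝ (region T)) (z : Finset Pt → ZMod 2)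
    (hz : ∀ t ∈ T, ∑ e ∈ t.powersetCard 2, z e = 0) :
    ∃ f : Pt → ZMod 2, ∀ x y : Pt, ({x, y} : Finset Pt) ∈ sides T → z {x, y} = f x + f y := by
  have main : ∀ s : Finset Pt, (∀ x ∈ s, ∀ y ∈ verts T, toLex y < toLex x → y ∈ s) →
      ∃ f : Pt → ZMod 2, ∀ x ∈ s, ∀ y ∈ s, ({x, y} : Finset Pt) ∈ sides T →
        z {x, y} = f x + f y := by
    intro s
    refine Finset.induction_on_max_value (fun p : Pt => toLex p)
      (motive := fun s => (∀ x ∈ s, ∀ y ∈ verts T, toLex y < toLex x → y ∈ s) →
      ∃ f : Pt → ZMod 2, ∀ x ∈ s, ∀ y ∈ s, ({x, y} : Finset Pt) ∈ sides T →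
        z {x, y} = f x + f y) s ?_ ?_
    · intro _
      exact ⟨fun _ => 0, fun x hx => absurd hx (Finset.notMem_empty x)⟩
    · intro a s ha hmax ih hcl
      have hlt : ∀ x ∈ s, toLex x < toLex a := by
        intro x hx
        refine lt_of_le_of_ne (hmax x hx) ?_
        intro h
        have hxa : x = a := toLex.injective h
        exact ha (hxa ▸ hx)
      have hlow : ∀ y ∈ verts T, toLex y < toLex a → y ∈ s := by
        intro y hy hya
        have := hcl a (Finset.mem_insert_self a s) y hy hya
        rw [Finset.mem_insert] at this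
        rcases this with h | h
        · rw [h] at hya
          exact absurd hya (lt_irrefl _)
        · exact h
      have hcl' : ∀ x ∈ s, ∀ y ∈ verts T, toLex y < toLex x → y ∈ s := by
        intro x hx y hy hyx
        exact hlow y hy (hyx.trans (hlt x hx))
      obtain ⟨f, hf⟩ := ih hcl'
      have hf' : ∀ x y : Pt, toLex x < toLex a → toLex y < toLex a →
          ({x, y} : Finset Pt) ∈ sides T → z {x, y} = f x + f y := by
        intro x y hx hy hxy
        obtain ⟨_, hxv, hyv⟩ := cocycle_side_verts hxy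
        exact hf x (hlow x hxv hx) y (hlow y hyv hy) hxy
      -- the value at a
      have hval : ∃ c : ZMod 2, ∀ u ∈ s, ({a, u} : Finset Pt) ∈ sides T → z {a, u} = c + f u := by
        by_cases hex : ∃ u0 ∈ s, ({a, u0} : Finset Pt) ∈ sides T
        · obtain ⟨u0, hu0, hs0⟩ := hex
          refine ⟨f u0 + z {a, u0}, ?_⟩
          intro u hu hs
          have := cocycle_same hT hconv z hz f a hf' hs hs0 (hlt u hu) (hlt u0 hu0)
          exact cocycle_z2' _ _ _ this
        · refine ⟨0, ?_⟩
          intro u hu hs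
          exact absurd ⟨u, hu, hs⟩ hex
      obtain ⟨c, hc⟩ := hval
      refine ⟨Function.update f a c, ?_⟩
      intro x hx y hy hxy
      obtain ⟨hne, _, _⟩ := cocycle_side_verts hxy
      rw [Finset.mem_insert] at hx hy
      have hup : ∀ w ∈ s, Function.update f a c w = f w := by
        intro w hw
        rw [Function.update_of_ne]
        rintro rfl
        exact ha hw
      rcases hx with rfl | hx
      · rcases hy with rfl | hy
        · exact absurd rfl hne
        · rw [hup y hy, Function.update_self]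
          exact hc y hy hxy
      · rcases hy with rfl | hy
        · rw [hup x hx, Function.update_self, Finset.pair_comm x y, add_comm (f x) c]
          exact hc x hx (by rw [Finset.pair_comm y x]; exact hxy)
        · rw [hup x hx, hup y hy]
          exact hf x hx y hy hxy
  obtain ⟨f, hf⟩ := main (verts T) (fun _ _ y hy _ => hy)
  refine ⟨f, ?_⟩
  intro x y hxy
  obtain ⟨_, hx, hy⟩ := cocycle_side_verts hxy
  exact hf x hx y hy hxy

end Pool.Agent.Helper69.AGF

end
end
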