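import Pool.Agent.Helper16.VGG.G05

/- AG.GeoLin -/
section
/-!
# Project AG (MP_586e8d), block GEO-B: the fans of a geometric object are linear
-/

set_option linter.unusedSectionVars false
set_option linter.unusedSimpArgs false

namespace AG

open Finset

/-- a cyclic sequence of directions around a point has total angle at least `2π` -/
theorem fan_sum {v : Pt} {d : ℕ → Pt} {m : ℕ} (hm : 0 < m)
    (h : ∀ k < m, Ccw v (d (k + 1)) (d k)) (hd : d m = d 0) :
    2 * Real.pi ≤ ∑ k ∈ range m, ang v (d (k + 1)) (d k) := by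
  have hne : ∀ n, n ≤ m → toC (d n) - toC v ≠ 0 := by
    intro n hn
    rcases Nat.lt_or_ge n m with h1 | h1
    · exact sub_toC_ne (h n h1).ne'.symm
    · have h2 : n = m := le_antisymm hn h1
      rw [h2, hd]
      exact sub_toC_ne (h 0 hm).ne'.symm
  have main : ∀ n, n ≤ m → ∃ j : ℤ, ∑ k ∈ range n, ang v (d (k + 1)) (d k) =
      Complex.arg ((toC (d 0) - toC v) / (toC (d n) - toC v)) + 2 * Real.pi * j := by
    intro n
    induction n with
    | zero =>
      intro _
      refine ⟨0, ?_⟩
      rw [div_self (hne 0 (Nat.zero_le m)), Complex.arg_one]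
      simp
    | succ n ih =>
      intro hn
      obtain ⟨j, hj⟩ := ih (by omega)
      have h0 := hne 0 (Nat.zero_le m)
      have h1 := hne n (by omega)
      have h2 := hne (n + 1) hn
      obtain ⟨k, hk⟩ := ang_coe_mul (div_ne_zero h0 h1) (div_ne_zero h1 h2)
      have e : (toC (d 0) - toC v) / (toC (d n) - toC v) *
          ((toC (d n) - toC v) / (toC (d (n + 1)) - toC v)) =
          (toC (d 0) - toC v) / (toC (d (n + 1)) - toC v) := by
        field_simp
      rw [e] at hk
      refine ⟨j - k, ?_⟩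
      rw [Finset.sum_range_succ, hj]
      push_cast
      unfold ang
      linarith
  obtain ⟨j, hj⟩ := main m le_rfl
  rw [hd, div_self (hne 0 (Nat.zero_le m)), Complex.arg_one, zero_add] at hj
  have hpos : 0 < ∑ k ∈ range m, ang v (d (k + 1)) (d k) := by
    apply Finset.sum_pos
    · intro k hk
      exact ang_pos (h k (Finset.mem_range.1 hk))
    · exact ⟨0, Finset.mem_range.2 hm⟩
  rw [hj] at hpos ⊢
  have hj0 : 0 < j := by
    apply int_lt_of_mul
    push_cast
    rw [mul_zero]
    exact hpos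
  have hj1 : (1 : ℝ) ≤ j := by exact_mod_cast hj0
  nlinarith [Real.pi_pos]

variable {I : Type} [DecidableEq I]

namespace Geo

variable {S : Obj I} {pt : Sd I → Pt} (hG : Geo S pt)
include hG

/-- the fans of a geometric object are linear -/
theorem linear : S.Linear := by
  intro a
  by_contra hcon
  push Not at hcon
  have hsucc : ∀ n, S.cw^[n + 1] a = rot (S.g (S.cw^[n] a)) := by
    intro n
    rw [Function.iterate_succ_apply', Obj.cw, if_neg (hcon n)]
  have hmemF : ∀ n, (S.cw^[n] a).1 ∈ S.F := fun n => S.memF _ (hcon n)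
  have hpt : ∀ n, pt (S.cw^[n] a) = pt a := by
    intro n
    induction n with
    | zero => rfl
    | succ n ih => rw [Function.iterate_succ_apply', hG.pt_cw, ih]
  -- backwards
  have hback : ∀ i k, S.cw^[i] a = S.cw^[i + k] a → S.cw^[k] a = a := by
    intro i
    induction i with
    | zero =>
      intro k hk
      rw [zero_add] at hk
      exact hk.symm
    | succ i ih =>
      intro k hk
      apply ih k
      have e : i + 1 + k = (i + k) + 1 := by omega
      rw [e, hsucc, hsucc] at hk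
      exact S.g_injective (rot_injective hk)
  -- pigeonhole
  have hper : ∃ k, 0 < k ∧ S.cw^[k] a = a := by
    have hmaps : ∀ n, S.cw^[n] a ∈ S.sides := fun n => Obj.mem_sides.2 (hmemF n)
    obtain ⟨i, j, hij, he⟩ : ∃ i j : ℕ, i ≠ j ∧ S.cw^[i] a = S.cw^[j] a := by
      by_contra hinj
      push Not at hinj
      have hinj' : Function.Injective (fun n : ℕ => S.cw^[n] a) := by
        intro i j he
        by_contra hne
        exact hinj i j hne he
      have hfin : Set.Finite (Set.range (fun n : ℕ => S.cw^[n] a)) := by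
        apply Set.Finite.subset (S.sides.finite_toSet)
        rintro _ ⟨n, rfl⟩
        exact hmaps n
      exact Set.infinite_range_of_injective hinj' hfin
    rcases Nat.lt_or_gt_of_ne hij with h | h
    · refine ⟨j - i, by omega, hback i (j - i) ?_⟩
      rw [he]
      congr 2
      omega
    · refine ⟨i - j, by omega, hback j (i - j) ?_⟩
      rw [← he]
      congr 2
      omega
  obtain ⟨k, hk, hka⟩ := hper
  have hP : a ∈ Function.periodicPts S.cw := ⟨k, hk, hka⟩
  obtain ⟨m, hm⟩ : ∃ m, m = Function.minimalPeriod S.cw a := ⟨_, rfl⟩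
  have hm0 : 0 < m := by
    rw [hm]
    exact Function.minimalPeriod_pos_of_mem_periodicPts hP
  have hma : S.cw^[m] a = a := by
    rw [hm]
    exact Function.isPeriodicPt_minimalPeriod S.cw a
  have hinj : Set.InjOn (fun n => S.cw^[n] a) (Finset.range m : Set ℕ) := by
    intro i hi j hj he
    rw [Finset.coe_range] at hi hj
    rw [hm] at hi hj
    exact Function.iterate_injOn_Iio_minimalPeriod hi hj he
  have hsum := hG.sum_lt (X := (range m).image (fun n => S.cw^[n] a)) (p := pt a) (by
    intro c hc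
    obtain ⟨n, _, rfl⟩ := Finset.mem_image.1 hc
    exact hmemF n) (by
    intro c hc
    obtain ⟨n, _, rfl⟩ := Finset.mem_image.1 hc
    exact hpt n)
  rw [Finset.sum_image hinj] at hsum
  have hshift : ∑ n ∈ range m, cang pt (S.cw^[n + 1] a) = ∑ n ∈ range m, cang pt (S.cw^[n] a) := by
    have e1 := Finset.sum_range_succ' (fun n => cang pt (S.cw^[n] a)) m
    have e2 := Finset.sum_range_succ (fun n => cang pt (S.cw^[n] a)) m
    rw [hma] at e2
    rw [e2] at e1
    simp only [Function.iterate_zero, id_eq] at e1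
    linarith
  have hcang : ∀ n, cang pt (S.cw^[n + 1] a) =
      ang (pt a) (pt (rot (S.cw^[n + 1] a))) (pt (rot (S.cw^[n] a))) := by
    intro n
    unfold cang
    rw [hpt (n + 1)]
    have e : pt (unrot (S.cw^[n + 1] a)) = pt (rot (S.cw^[n] a)) := by
      rw [hsucc, unrot_rot, hG.mat' (hcon n)]
    rw [e]
  have hfan := fan_sum (v := pt a) (d := fun n => pt (rot (S.cw^[n] a))) hm0 (by
    intro n _
    have h1 := hG.ccw (hmemF (n + 1))
    have e : pt (unrot (S.cw^[n + 1] a)) = pt (rot (S.cw^[n] a)) := by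
      rw [hsucc, unrot_rot, hG.mat' (hcon n)]
    rw [hpt (n + 1), e] at h1
    exact h1) (by
    simp only [Function.iterate_zero, id_eq]
    rw [hma])
  have heq : ∑ n ∈ range m, ang (pt a) (pt (rot (S.cw^[n + 1] a))) (pt (rot (S.cw^[n] a))) =
      ∑ n ∈ range m, cang pt (S.cw^[n] a) := by
    rw [← hshift]
    exact Finset.sum_congr rfl (fun n _ => (hcang n).symm)
  have hfan' : 2 * Real.pi ≤ ∑ n ∈ range m, cang pt (S.cw^[n] a) := by
    rw [← heq]
    exact hfan
  exact absurd hsum (not_lt.2 hfan')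

/-- the third vertices of the two triangles at a diagonal are different -/
theorem apex_ne {a : Sd I} (h : S.g a ≠ a) : pt (unrot a) ≠ pt (unrot (S.g a)) := by
  intro he
  have h1 := hG.ccw (S.memF a h)
  have h2 := hG.ccw (Obj.g_memF h)
  rw [hG.mat' h, hG.mat a h, ← he] at h2
  unfold Ccw at h1 h2
  rw [cr_swap'] at h2
  linarith

/-- every glued side of a geometric object can be flipped combinatorially -/
theorem flippable {a : Sd I} (h : S.g a ≠ a) : S.Flippable a := by
  refine ⟨h, ?_, ?_⟩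
  · intro he
    have hg : S.g (rot a) ≠ rot a := by
      intro h2
      rw [h2] at he
      have := congrArg Prod.fst he
      rw [rot_fst, unrot_fst] at this
      exact S.ne a h this.symm
    have h3 := hG.mat' hg
    rw [he, rot_rot] at h3
    exact hG.apex_ne h h3.symm
  · intro he
    have hg : S.g (unrot a) ≠ unrot a := by
      intro h2
      rw [h2] at he
      have := congrArg Prod.fst he
      rw [rot_fst, unrot_fst] at this
      exact S.ne a h this.symm
    have h3 := hG.mat (unrot a) hg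
    rw [he, rot_rot] at h3
    exact hG.apex_ne h h3.symm

end Geo

end AG
end

/- AG.Red.Basic -/
section
/-!
# Project AG, block RED (sections 1-3): basic tools
-/

namespace AG

open Finset

variable {I : Type} [DecidableEq I]

namespace Obj

/-! ### geometric objects: heredity, points of equivalent corners -/

theorem Geo.pt_eq {S : Obj I} {pt : Sd I → Pt} (hg : S.Geo pt) {a b : Sd I} (h : S.Eqv a b) :
    pt a = pt b := hg.pt_eqv h

theorem Geo.ccw_at {S : Obj I} {pt : Sd I → Pt} (hg : S.Geo pt) {a : Sd I} (ha : a.1 ∈ S.F) :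
    Ccw (pt a) (pt (rot a)) (pt (unrot a)) := hg.ccw ha

theorem Geo.sub {S' S : Obj I} {pt : Sd I → Pt} (hg : S.Geo pt) (h : S'.Le S) : S'.Geo pt :=
  hg.mono h

/-! ### iterating `cw` -/

theorem Linear.glued_of_iter {S : Obj I} (hl : S.Linear) {a : Sd I} (ha : S.g a ≠ a) {m : ℕ}
    (hm : 0 < m) : S.cw^[m] a ≠ a := by
  intro h
  obtain ⟨n, hn⟩ := hl a
  have h1 : S.cw^[m * n] a = a := by
    rw [Function.iterate_mul]
    exact Function.iterate_fixed h n
  have h2 : n ≤ m * n := Nat.le_mul_of_pos_left n hm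
  obtain ⟨k, hk⟩ := Nat.exists_eq_add_of_le h2
  rw [hk, add_comm, Function.iterate_add_apply, cw_iter_of_unglued hn] at h1
  rw [h1] at hn
  exact ha hn

theorem last_eq_iter {S' S : Obj I} (h : S'.Le S) (hl : S'.Linear) (b : Sd I) :
    ∃ n, S'.last b = S.cw^[n] b := by
  obtain ⟨n, hn⟩ := hl b
  rw [last_eq_of hn]
  clear hn
  induction n with
  | zero => exact ⟨0, rfl⟩
  | succ n ih =>
    obtain ⟨m, hm⟩ := ih
    rw [Function.iterate_succ_apply', hm]
    by_cases h1 : S'.g (S.cw^[m] b) = S.cw^[m] b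
    · exact ⟨m, cw_of_unglued h1⟩
    · obtain ⟨h2, h3⟩ := h.glued h1
      refine ⟨m + 1, ?_⟩
      rw [Function.iterate_succ_apply']
      simp [cw, h2, h3]

/-- if the corner `a` is glued in `S` but not in `S'`, then in `S'` it is not equivalent to the
corners which come after it in the clockwise direction -/
theorem not_eqv_iter {S' S : Obj I} (h : S'.Le S) (hl : S.Linear) {a : Sd I} (ha : S.g a ≠ a)
    (ha' : S'.g a = a) {m : ℕ} (hm : 0 < m) : ¬ S'.Eqv a (S.cw^[m] a) := by
  intro he
  have hl' := Linear.mono h hl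
  rw [eqv_iff hl', last_of_unglued ha'] at he
  obtain ⟨n, hn⟩ := last_eq_iter h hl' (S.cw^[m] a)
  rw [hn, ← Function.iterate_add_apply] at he
  exact hl.glued_of_iter ha (by omega : 0 < n + m) he.symm

/-- the two corners at the start of a cut side are not equivalent after the cut -/
theorem not_eqv_cut {S : Obj I} (hl : S.Linear) {a : Sd I} (ha : S.g a ≠ a) :
    ¬ (S.cut a).Eqv a (rot (S.g a)) := by
  have := not_eqv_iter (cut_le S a) hl ha (by simp [cut_g]) (m := 1) one_pos
  simpa [cw, ha] using this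

theorem not_eqv_cut' {S : Obj I} (hl : S.Linear) {a : Sd I} (ha : S.g a ≠ a) :
    ¬ (S.cut a).Eqv (S.g a) (rot a) := by
  have := not_eqv_iter (cut_le S a) hl (g_ne_iff.2 ha) (by simp [cut_g]) (m := 1) one_pos
  rw [Function.iterate_one, cw, if_neg (g_ne_iff.2 ha), S.invol] at this
  exact this

/-- if the triangle of the corner `c` is removed, the two neighbours of `c` in its fan are not
equivalent any more -/
theorem not_eqv_remove {S' S : Obj I} (h : S'.Le S) (hl : S.Linear) {c : Sd I}
    (hc : S.g c ≠ c) (hc' : S.g (unrot c) ≠ unrot c) (ht : c.1 ∉ S'.F) :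
    ¬ S'.Eqv (S.g (unrot c)) (rot (S.g c)) := by
  have h1 : S.g (S.g (unrot c)) ≠ S.g (unrot c) := g_ne_iff.2 hc'
  have h2 : S'.g (S.g (unrot c)) = S.g (unrot c) := by
    by_contra h3
    obtain ⟨h4, _⟩ := h.glued h3
    rw [S.invol] at h4
    have h5 := g_memF (S := S') h3
    rw [h4, unrot_fst] at h5
    exact ht h5
  have := not_eqv_iter h hl h1 h2 (m := 2) two_pos
  have e1 : S.cw (S.g (unrot c)) = c := by
    rw [cw, if_neg h1, S.invol, rot_unrot]
  have e2 : S.cw^[2] (S.g (unrot c)) = rot (S.g c) := by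
    rw [Function.iterate_succ_apply, e1, Function.iterate_one, cw, if_neg hc]
  rwa [e2] at this

/-! ### solutions -/

theorem Cov.subset {pt : Sd I → Pt} {R : Set Pt} {C D : Finset (Sd I)} {t : I}
    (h : Cov pt R C t) (hCD : C ⊆ D) : Cov pt R D t := fun p hp => by
  obtain ⟨c, hc, h1⟩ := h p hp
  exact ⟨c, hCD hc, h1⟩

theorem Cov.erase {S : Obj I} {pt : Sd I → Pt} (hg : S.Geo pt) {R : Set Pt} {C : Finset (Sd I)}
    {t : I} (h : Cov pt R C t) {d d' : Sd I} (hd' : d' ∈ C) (hne : d ≠ d') (he : S.Eqv d d') :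
    Cov pt R (C.erase d) t := fun p hp => by
  obtain ⟨c, hc, h1⟩ := h p hp
  by_cases hcd : c = d
  · subst hcd
    exact ⟨d', mem_erase.2 ⟨hne.symm, hd'⟩, by rw [← hg.pt_eq he]; exact h1⟩
  · exact ⟨c, mem_erase.2 ⟨hcd, hc⟩, h1⟩

/-- pushing a solution of a sub-object forward -/
theorem _root_.AG.Sol.transfer {S' S : Obj I} {pt : Sd I → Pt} {R : Set Pt}
    {W W' C : Finset (Sd I)} (h : S'.Le S) (hs : Sol S' pt R W' C)
    (hW : ∀ w ∈ W, S.Hit C w) (hE : ∀ a ∈ S.E, S.Hit C a ∨ S.Hit C (rot a))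
    (hD : ∀ t ∈ S.F, t ∉ S'.F → S.Noncore t → ∃ i, S.Hit C (t, i))
    (hC : ∀ t ∈ S.F, t ∉ S'.F → Cov pt R C t) : Sol S pt R W C where
  sub := hs.sub.trans fun a ha => by
    rw [mem_sides] at ha ⊢; exact h.F ha
  forced := hW
  ear := hE
  dom t ht := by
    by_cases h1 : t ∈ S'.F
    · obtain ⟨i, hi⟩ := hs.dom t (ht.mono h h1)
      exact ⟨i, hi.mono h⟩
    · exact hD t ht.1 h1 ht
  cov t ht := by
    by_cases h1 : t ∈ S'.F
    · exact hs.cov t h1
    · exact hC t ht h1

/-- count once -/
theorem _root_.AG.Sol.erase {S : Obj I} {pt : Sd I → Pt} (hg : S.Geo pt) {R : Set Pt}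
    {W C : Finset (Sd I)} (hs : Sol S pt R W C) {d d' : Sd I} (hd' : d' ∈ C) (hne : d ≠ d')
    (he : S.Eqv d d') : Sol S pt R W (C.erase d) where
  sub := (erase_subset _ _).trans hs.sub
  forced w hw := (hs.forced w hw).erase hd' hne he
  ear a ha := (hs.ear a ha).imp (fun h => h.erase hd' hne he) (fun h => h.erase hd' hne he)
  dom t ht := by
    obtain ⟨i, hi⟩ := hs.dom t ht
    exact ⟨i, hi.erase hd' hne he⟩
  cov t ht := Cov.erase hg (hs.cov t ht) hd' hne he

/-- two forced copies of one visit give two different equivalent elements of the solution -/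
theorem exists_dup {S' S : Obj I} {pt : Sd I → Pt} {R : Set Pt} {W' C : Finset (Sd I)}
    (h : S'.Le S) (hs : Sol S' pt R W' C) {w w' : Sd I} (hw : w ∈ W') (hw' : w' ∈ W')
    (hne : ¬ S'.Eqv w w') (he : S.Eqv w w') :
    ∃ d ∈ C, ∃ d' ∈ C, d ≠ d' ∧ S.Eqv d d' ∧ S.Eqv d w := by
  obtain ⟨d, hd, h1⟩ := hs.forced w hw
  obtain ⟨d', hd', h2⟩ := hs.forced w' hw'
  refine ⟨d, hd, d', hd', ?_, ?_, h1.mono h⟩
  · rintro rfl
    exact hne (h1.symm.trans h2)
  · exact ((h1.mono h).trans he).trans (h2.mono h).symm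

/-- a corner in the solution covers its own triangle -/
theorem Geo.cov_of_hit {S : Obj I} {pt : Sd I → Pt} (hg : S.Geo pt) {R : Set Pt}
    {C : Finset (Sd I)} {a : Sd I} (ha : a.1 ∈ S.F) (hR : tri pt a.1 ⊆ R) (hC : S.Hit C a) :
    Cov pt R C a.1 := hg.cov_of_hit' ha hR hC

end Obj

end AG
end

/- AG.Red.Single -/
section
/-!
# Project AG, block RED: the case of one triangle, reduction to inequivalent forced corners
-/

namespace AG

open Finset

variable {I : Type} [DecidableEq I]

namespace Obj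

private theorem single_fin : ∀ w e : Finset (Fin 3), ∃ c : Finset (Fin 3), w ⊆ c ∧
    (∀ i ∈ e, i ∈ c ∨ i + 1 ∈ c) ∧ c.Nonempty ∧ 6 * c.card ≤ 6 + 4 * w.card + 2 * e.card := by
  decide

private theorem single_card {t : I} {W : Finset (Sd I)} (hW : ∀ a ∈ W, a.1 = t) :
    W.card = ((univ : Finset (Fin 3)).filter (fun i => (t, i) ∈ W)).card := by
  have h1 : W = ((univ : Finset (Fin 3)).filter (fun i => (t, i) ∈ W)).image (fun i => (t, i)) := by
    ext a
    simp only [mem_image, mem_filter, mem_univ, true_and]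
    constructor
    · intro ha
      have h2 := hW a ha
      refine ⟨a.2, ?_, ?_⟩
      · rw [← h2]; exact ha
      · rw [← h2]
    · rintro ⟨i, hi, rfl⟩
      exact hi
  conv_lhs => rw [h1]
  exact card_image_of_injective _ (fun i j h => (Prod.ext_iff.1 h).2)

/-- one triangle -/
theorem P_single {S : Obj I} {pt : Sd I → Pt} {R : Set Pt} (hg : S.Geo pt)
    (hR : ∀ t ∈ S.F, tri pt t ⊆ R) {t : I} (hF : S.F = {t}) {W : Finset (Sd I)}
    (hW : W ⊆ S.sides) : P S pt R W := by
  have hWt : ∀ a ∈ W, a.1 = t := fun a ha => by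
    have h1 := mem_sides.1 (hW ha)
    rw [hF] at h1
    exact mem_singleton.1 h1
  have hEt : ∀ a ∈ S.E, a.1 = t := fun a ha => by
    have h1 := S.earF a ha
    rw [hF] at h1
    exact mem_singleton.1 h1
  have hun : ∀ a, S.g a = a := by
    intro a
    by_contra h
    have h1 := S.memF a h
    have h2 := g_memF h
    rw [hF, mem_singleton] at h1 h2
    exact S.ne a h (h2.trans h1.symm)
  have hvis : S.vis.card = 3 := by
    have h1 : S.vis = S.sides := by
      ext a
      rw [mem_vis, mem_sides]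
      exact ⟨fun h => h.1, fun h => ⟨h, hun a⟩⟩
    rw [h1, card_sides, hF, card_singleton]
  obtain ⟨c, hc1, hc2, ⟨i0, hi0⟩, hc3⟩ := single_fin
    ((univ : Finset (Fin 3)).filter (fun i => (t, i) ∈ W))
    ((univ : Finset (Fin 3)).filter (fun i => (t, i) ∈ S.E))
  rw [← single_card hWt, ← single_card hEt] at hc3
  have hmem : ∀ i, i ∈ c → (t, i) ∈ c.image (fun i => ((t, i) : Sd I)) := fun i hi =>
    mem_image.2 ⟨i, hi, rfl⟩
  refine ⟨c.image (fun i => (t, i)), ⟨?_, ?_, ?_, ?_, ?_⟩, ?_⟩
  · intro a ha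
    obtain ⟨i, _, rfl⟩ := mem_image.1 ha
    rw [mem_sides, hF]
    exact mem_singleton_self t
  · rintro ⟨t', i⟩ ha
    have h1 : t' = t := hWt _ ha
    subst h1
    exact ⟨_, hmem i (hc1 (mem_filter.2 ⟨mem_univ _, ha⟩)), Eqv.refl _ _⟩
  · rintro ⟨t', i⟩ ha
    have h1 : t' = t := hEt _ ha
    subst h1
    rcases hc2 i (mem_filter.2 ⟨mem_univ _, ha⟩) with h | h
    · exact Or.inl ⟨_, hmem i h, Eqv.refl _ _⟩
    · exact Or.inr ⟨_, hmem _ h, Eqv.refl _ _⟩
  · intro t' ht'
    have h1 := ht'.1
    rw [hF, mem_singleton] at h1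
    subst h1
    exact ⟨i0, _, hmem i0 hi0, Eqv.refl _ _⟩
  · intro t' ht'
    have h1 := ht'
    rw [hF, mem_singleton] at h1
    subst h1
    exact Geo.cov_of_hit hg (a := (t', i0)) ht' (hR _ ht') ⟨_, hmem i0 hi0, Eqv.refl _ _⟩
  · rw [card_image_of_injective _ (fun i j h => (Prod.ext_iff.1 h).2)]
    unfold N2
    rw [hF, hvis, card_singleton]
    omega

/-- pairwise inequivalent corners -/
def Reduced (S : Obj I) (W : Finset (Sd I)) : Prop :=
  ∀ w ∈ W, ∀ w' ∈ W, S.Eqv w w' → w = w'

/-- it is enough to prove P for reduced sets of forced corners -/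
theorem P_of_reduced {S : Obj I} {pt : Sd I → Pt} {R : Set Pt}
    (h : ∀ W ⊆ S.sides, S.Reduced W → P S pt R W) {W : Finset (Sd I)} (hW : W ⊆ S.sides) :
    P S pt R W := by
  induction hn : W.card using Nat.strong_induction_on generalizing W with
  | _ n ih =>
    by_cases hr : S.Reduced W
    · exact h W hW hr
    · unfold Reduced at hr
      push Not at hr
      obtain ⟨w, hw, w', hw', he, hne⟩ := hr
      obtain ⟨C, hs, hc⟩ := ih (W.erase w).card (by rw [← hn]; exact card_erase_lt_of_mem hw)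
        ((erase_subset _ _).trans hW) rfl
      refine ⟨C, ⟨hs.sub, fun v hv => ?_, hs.ear, hs.dom, hs.cov⟩, hc.trans ?_⟩
      · by_cases hvw : v = w
        · subst hvw
          exact (hs.forced w' (mem_erase.2 ⟨Ne.symm hne, hw'⟩)).eqv he.symm
        · exact hs.forced v (mem_erase.2 ⟨hvw, hv⟩)
      · have h1 : (W.erase w).card ≤ W.card := card_le_card (erase_subset _ _)
        unfold N2
        omega

end Obj

end AG
end

/- AG.Red.GeoStub -/
section
/-!
# Project AG, block RED: the geometric facts which are used (theorems of GEO-B, helper23)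
-/

namespace AG

open Finset

variable {I : Type} [DecidableEq I]

namespace Obj

/-- linear fans -/
theorem Geo.linear {S : Obj I} {pt : Sd I → Pt} (hg : S.Geo pt) : S.Linear :=
  AG.Geo.linear hg

/-- diagonals in U can be flipped -/
theorem IsU.flippable {S : Obj I} {pt : Sd I → Pt} (hg : S.Geo pt) {a : Sd I}
    (hU : S.IsU pt a) : S.Flippable a := AG.Geo.flippable hg hU.glued

theorem Geo.flip {S : Obj I} {pt : Sd I → Pt} (hg : S.Geo pt) {a : Sd I}
    (hU : S.IsU pt a) (h : S.Flippable a) : (S.flip a h).Geo (flipPt pt a (S.g a)) :=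
  AG.Geo.geo_flip hg hU h

/-- the flip does not change the union of the two triangles -/
theorem Geo.flip_tri {S : Obj I} {pt : Sd I → Pt} (hg : S.Geo pt) {a : Sd I}
    (hU : S.IsU pt a) :
    tri (flipPt pt a (S.g a)) a.1 ∪ tri (flipPt pt a (S.g a)) (S.g a).1 =
      tri pt a.1 ∪ tri pt (S.g a).1 := AG.Geo.tri_flip hg hU

/-- seeing lemma, case U: the neighbour across `a` is dominated -/
theorem Geo.see_U {S : Obj I} {pt : Sd I → Pt} (hg : S.Geo pt) {R : Set Pt} {C : Finset (Sd I)}
    {a : Sd I} (hU : S.IsU pt a) (h1 : tri pt a.1 ⊆ R) (h2 : tri pt (S.g a).1 ⊆ R)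
    (hC : ∃ i, S.Hit C ((S.g a).1, i)) : Cov pt R C a.1 := by
  obtain ⟨i, hi⟩ := hC
  exact AG.Geo.cov_U hg hU h1 h2 (c := ((S.g a).1, i)) rfl hi

/-- seeing lemma, case pair: both neighbours are dominated -/
theorem Geo.see_pair {S : Obj I} {pt : Sd I → Pt} (hg : S.Geo pt) {R : Set Pt}
    {C : Finset (Sd I)} {c : Sd I} (hp : S.PairAt pt c) (h0 : tri pt c.1 ⊆ R)
    (h1 : tri pt (S.g c).1 ⊆ R) (h2 : tri pt (S.g (unrot c)).1 ⊆ R)
    (hC1 : ∃ i, S.Hit C ((S.g c).1, i)) (hC2 : ∃ i, S.Hit C ((S.g (unrot c)).1, i)) :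
    Cov pt R C c.1 := by
  obtain ⟨i, hi⟩ := hC1
  obtain ⟨j, hj⟩ := hC2
  exact AG.Geo.cov_pair hg hp h0 h1 h2 (d1 := ((S.g c).1, i)) (d2 := ((S.g (unrot c)).1, j)) rfl hi rfl hj

end Obj

end AG
end

/- AG.Red.Bridge -/
section
/-!
# Project AG, block RED: 2.2, an object with a bridge
-/

namespace AG

open Finset

variable {I : Type} [DecidableEq I]

namespace Obj

private theorem bridge_even_glued (S : Obj I) : S.glued.card % 2 = 0 := by
  have h : ∑ _a ∈ S.glued, (1 : ZMod 2) = 0 := by
    refine Finset.sum_involution (fun a _ => S.g a) ?_ ?_ ?_ ?_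
    · intro a ha
      decide
    · intro a ha _
      exact mem_glued.1 ha
    · intro a ha
      exact g_mem_glued.2 ha
    · intro a ha
      exact S.invol a
  rw [Finset.sum_const, nsmul_eq_mul, mul_one, ZMod.natCast_eq_zero_iff] at h
  omega

private theorem bridge_N2_even (S : Obj I) (k : ℕ) : S.N2 k % 2 = 0 := by
  have h3 := card_vis_add_card_glued S
  have h4 := bridge_even_glued S
  simp only [N2]
  omega

/-- one side of a bridge is connected -/
private theorem bridge_conn_keep {S : Obj I} (hc : S.Conn) {X : Finset I} (hX : X ⊆ S.F)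
    {a : Sd I} (hbd : S.bd X = {a}) : (S.keep X).Conn := by
  have ha : a ∈ S.bd X := by rw [hbd]; exact mem_singleton_self a
  rw [mem_bd] at ha
  have hXF : X ≠ S.F := by
    rintro rfl
    exact ha.2.2 (g_memF ha.1)
  refine ⟨by rw [keep_F S hX]; exact ⟨a.1, ha.2.1⟩, fun Z hZ hne hZX => ?_⟩
  rw [keep_F S hX] at hZ hZX
  rw [keep_bd S hZ]
  by_contra hemp
  rw [not_nonempty_iff_eq_empty, filter_eq_empty_iff] at hemp
  by_cases haZ : a.1 ∈ Z
  · have hne' : (X \ Z).Nonempty := by
      rw [sdiff_nonempty]; exact fun h => hZX (subset_antisymm hZ h)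
    have hcF : X \ Z ≠ S.F := by
      intro h
      have h0 : a.1 ∈ X \ Z := by rw [h]; exact hX ha.2.1
      exact (mem_sdiff.1 h0).2 haZ
    obtain ⟨c, hcb⟩ := hc.2 (X \ Z) (sdiff_subset.trans hX) hne' hcF
    rw [mem_bd, mem_sdiff, mem_sdiff, not_and, not_not] at hcb
    obtain ⟨h1, ⟨h2, h3⟩, h4⟩ := hcb
    by_cases h5 : (S.g c).1 ∈ X
    · have h6 : S.g c ∈ S.bd Z := by
        rw [mem_bd, S.invol]
        exact ⟨fun h => h1 h.symm, h4 h5, h3⟩
      have h7 := hemp h6
      rw [S.invol] at h7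
      exact h7 h2
    · have h6 : c ∈ S.bd X := mem_bd.2 ⟨h1, h2, h5⟩
      rw [hbd, mem_singleton] at h6
      rw [h6] at h3
      exact h3 haZ
  · obtain ⟨c, hcb⟩ := hc.2 Z (hZ.trans hX) hne
      (fun h => hXF (subset_antisymm hX (h ▸ hZ)))
    have h5 := hemp hcb
    have h6 : c ∈ S.bd X := by
      rw [mem_bd] at hcb ⊢
      exact ⟨hcb.1, hZ hcb.2.1, h5⟩
    rw [hbd, mem_singleton] at h6
    rw [mem_bd, h6] at hcb
    exact haZ hcb.2.1

private theorem bridge_card_glued {S : Obj I} {X : Finset I} {a : Sd I} (ha : a ∈ S.bd X) :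
    (S.keep X).glued.card < S.glued.card := by
  rw [mem_bd] at ha
  refine card_lt_card ⟨fun c hc => ?_, fun h => ?_⟩
  · rw [mem_glued] at hc ⊢
    exact ((keep_le S X).glued hc).2
  · have h1 := h (mem_glued.2 ha.1)
    rw [mem_glued, keep_g, if_neg (fun h2 => ha.2.2 h2.2)] at h1
    exact h1 rfl

/-- the union of solutions of the two parts is a solution -/
private theorem bridge_union {S : Obj I} {pt : Sd I → Pt} {R : Set Pt} {X : Finset I}
    (hX : X ⊆ S.F) {W W1 W2 C1 C2 : Finset (Sd I)} (hWs : W ⊆ S.sides)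
    (h1 : Sol (S.keep X) pt R W1 C1) (h2 : Sol (S.keep (S.F \ X)) pt R W2 C2)
    (hW1 : ∀ w ∈ W, w.1 ∈ X → w ∈ W1) (hW2 : ∀ w ∈ W, w.1 ∈ S.F \ X → w ∈ W2) :
    Sol S pt R W (C1 ∪ C2) := by
  have l1 := keep_le S X
  have l2 := keep_le S (S.F \ X)
  have f1 := keep_F S hX
  have f2 : (S.keep (S.F \ X)).F = S.F \ X := keep_F S sdiff_subset
  have k1 : ∀ c, (S.keep X).Hit C1 c → S.Hit (C1 ∪ C2) c := fun c h =>
    (h.mono l1).subset subset_union_left
  have k2 : ∀ c, (S.keep (S.F \ X)).Hit C2 c → S.Hit (C1 ∪ C2) c := fun c h =>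
    (h.mono l2).subset subset_union_right
  have hmem : ∀ t ∈ S.F, t ∉ X → t ∈ S.F \ X := fun t ht h => mem_sdiff.2 ⟨ht, h⟩
  refine ⟨union_subset (fun c hc => ?_) (fun c hc => ?_), fun w hw => ?_, fun c hc => ?_,
    fun t ht => ?_, fun t ht => ?_⟩
  · have := mem_sides.1 (h1.sub hc)
    exact mem_sides.2 (l1.F this)
  · have := mem_sides.1 (h2.sub hc)
    exact mem_sides.2 (l2.F this)
  · by_cases h : w.1 ∈ X
    · exact k1 _ (h1.forced w (hW1 w hw h))
    · exact k2 _ (h2.forced w (hW2 w hw (hmem _ (mem_sides.1 (hWs hw)) h)))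
  · by_cases h : c.1 ∈ X
    · exact (h1.ear c (mem_filter.2 ⟨hc, h⟩)).imp (k1 _) (k1 _)
    · exact (h2.ear c (mem_filter.2 ⟨hc, hmem _ (S.earF c hc) h⟩)).imp (k2 _) (k2 _)
  · by_cases h : t ∈ X
    · obtain ⟨i, hi⟩ := h1.dom t (ht.mono l1 (by rw [f1]; exact h))
      exact ⟨i, k1 _ hi⟩
    · obtain ⟨i, hi⟩ := h2.dom t (ht.mono l2 (by rw [f2]; exact hmem _ ht.1 h))
      exact ⟨i, k2 _ hi⟩
  · by_cases h : t ∈ X
    · exact Cov.subset (h1.cov t (by rw [f1]; exact h)) subset_union_left
    · exact Cov.subset (h2.cov t (by rw [f2]; exact hmem _ ht h)) subset_union_right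

/-- the part `X` has `N` divisible by 3, the solution of the other part contains an end of the
bridge: force this end in `X` and count it once -/
private theorem bridge_force {S : Obj I} {pt : Sd I → Pt} {R : Set Pt} (hg : S.Geo pt)
    (hc : S.Conn) (hR : ∀ t ∈ S.F, tri pt t ⊆ R) (ih : IH I R S.glued.card) {X : Finset I}
    (hX : X ⊆ S.F) {a : Sd I} (hbd : S.bd X = {a}) {W W2 C2 : Finset (Sd I)} (hW : W ⊆ S.sides)
    (h2 : Sol (S.keep (S.F \ X)) pt R W2 C2) (hW2 : ∀ w ∈ W, w.1 ∈ S.F \ X → w ∈ W2)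
    {u v : Sd I} (hu : u.1 ∈ X) (huv : S.Eqv u v) (hv : S.Hit C2 v)
    (h6 : (S.keep X).N2 (W.filter (fun w => w.1 ∈ X)).card % 6 = 0) :
    ∃ C, Sol S pt R W C ∧
      6 * C.card + 6 ≤ (S.keep X).N2 (W.filter (fun w => w.1 ∈ X)).card + 6 * C2.card := by
  have ha : a ∈ S.bd X := by rw [hbd]; exact mem_singleton_self a
  have f1 := keep_F S hX
  obtain ⟨C1, h1, hc1⟩ := ih (S.keep X) pt (hg.sub (keep_le S X)) (bridge_conn_keep hc hX hbd)
    (fun t ht => hR t ((keep_le S X).F ht)) (bridge_card_glued ha)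
    (insert u (W.filter (fun w => w.1 ∈ X))) (by
      intro w hw
      rw [mem_sides, f1]
      rcases mem_insert.1 hw with rfl | hw
      · exact hu
      · exact (mem_filter.1 hw).2)
  have hs : Sol S pt R W (C1 ∪ C2) := bridge_union hX hW h1 h2
    (fun w hw h => mem_insert_of_mem (mem_filter.2 ⟨hw, h⟩)) hW2
  obtain ⟨d, hd, hdu⟩ := (h1.forced u (mem_insert_self _ _)).mono (keep_le S X)
  obtain ⟨d', hd', hdv⟩ := hv
  have hne : d ≠ d' := by
    rintro rfl
    have e1 := mem_sides.1 (h1.sub hd)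
    have e2 := mem_sides.1 (h2.sub hd')
    rw [f1] at e1
    rw [keep_F S sdiff_subset] at e2
    exact (mem_sdiff.1 e2).2 e1
  refine ⟨(C1 ∪ C2).erase d, hs.erase hg (mem_union_right _ hd') hne
    ((hdu.trans huv).trans hdv.symm), ?_⟩
  have k1 : ((C1 ∪ C2).erase d).card + 1 = (C1 ∪ C2).card :=
    card_erase_add_one (mem_union_left _ hd)
  have k2 := card_union_le C1 C2
  have k3 := card_insert_le u (W.filter (fun w => w.1 ∈ X))
  simp only [N2] at hc1 h6 ⊢
  omega

/-- the part `X` has `N` divisible by 3: add an ear to the other part -/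
private theorem bridge_ear {S : Obj I} {pt : Sd I → Pt} {R : Set Pt} (hg : S.Geo pt)
    (hc : S.Conn) (hR : ∀ t ∈ S.F, tri pt t ⊆ R) (ih : IH I R S.glued.card) {X : Finset I}
    (hX : X ⊆ S.F) {a : Sd I} (hbd : S.bd X = {a}) {W : Finset (Sd I)} (hW : W ⊆ S.sides)
    (h6 : (S.keep X).N2 (W.filter (fun w => w.1 ∈ X)).card % 6 = 0) : P S pt R W := by
  have ha : a ∈ S.bd X := by rw [hbd]; exact mem_singleton_self a
  have ha' := mem_bd.1 ha
  have hbY : S.bd (S.F \ X) = {S.g a} := by
    rw [bd_sdiff, inter_eq_right.2 hX, hbd, image_singleton]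
  have hbm : S.g a ∈ S.bd (S.F \ X) := by rw [hbY]; exact mem_singleton_self _
  have hb' := mem_bd.1 hbm
  have f2 : (S.keep (S.F \ X)).F = S.F \ X := keep_F S sdiff_subset
  have hbE : S.g a ∉ (S.keep (S.F \ X)).E := by
    intro h
    have h1 := S.earFree _ (mem_filter.1 h).1
    exact hb'.1 h1
  have hE2 : ∀ c ∈ insert (S.g a) (S.keep (S.F \ X)).E, c.1 ∈ (S.keep (S.F \ X)).F ∧
      (S.keep (S.F \ X)).g c = c := by
    intro c hc'
    rcases mem_insert.1 hc' with rfl | hc'
    · refine ⟨by rw [f2]; exact hb'.2.1, ?_⟩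
      rw [keep_g, if_neg (fun h => hb'.2.2 h.2)]
    · exact ⟨(S.keep (S.F \ X)).earF c hc', (S.keep (S.F \ X)).earFree c hc'⟩
  obtain ⟨S2, hS2⟩ : ∃ S2, S2 = (S.keep (S.F \ X)).setE _ hE2 := ⟨_, rfl⟩
  have hle2 : S2.Le (S.keep (S.F \ X)) := by rw [hS2]; exact setE_le _ _ _
  have hle : S2.Le S := hle2.trans (keep_le _ _)
  have hF2 : S2.F = S.F \ X := by rw [hS2]; exact f2
  have hconn2 : S2.Conn := by
    rw [hS2]; exact bridge_conn_keep hc sdiff_subset hbY
  have hgl2 : S2.glued.card < S.glued.card := by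
    rw [hS2]; exact bridge_card_glued hbm
  obtain ⟨C2, h2, hc2⟩ := ih S2 pt (hg.sub hle) hconn2 (fun t ht => hR t (hle.F ht)) hgl2
    (W.filter (fun w => w.1 ∈ S.F \ X)) (by
      intro w hw
      rw [mem_sides, hF2]
      exact (mem_filter.1 hw).2)
  have hear := h2.ear (S.g a) (by rw [hS2]; exact mem_insert_self _ _)
  have hs2 : Sol (S.keep (S.F \ X)) pt R (W.filter (fun w => w.1 ∈ S.F \ X)) C2 := by
    refine Sol.transfer hle2 h2 (fun w hw => (h2.forced w hw).mono hle2) (fun e he => ?_)
      (fun t ht ht' => absurd (by rw [hF2, ← f2]; exact ht) ht')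
      (fun t ht ht' => absurd (by rw [hF2, ← f2]; exact ht) ht')
    exact (h2.ear e (by rw [hS2]; exact mem_insert_of_mem he)).imp
      (fun h => h.mono hle2) (fun h => h.mono hle2)
  have hN2 : S2.N2 (W.filter (fun w => w.1 ∈ S.F \ X)).card
      = (S.keep (S.F \ X)).N2 (W.filter (fun w => w.1 ∈ S.F \ X)).card + 2 := by
    have e1 : S2.F = (S.keep (S.F \ X)).F := by rw [hS2]; rfl
    have e2 : S2.vis = (S.keep (S.F \ X)).vis := by rw [hS2]; rfl
    have e3 : S2.E.card = (S.keep (S.F \ X)).E.card + 1 := by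
      rw [hS2]; exact card_insert_of_notMem hbE
    simp only [N2, e1, e2, e3]
    omega
  have hadd := N2_keep_add S hX (W.filter (fun w => w.1 ∈ X)).card
    (W.filter (fun w => w.1 ∈ S.F \ X)).card
  have hWc : (W.filter (fun w => w.1 ∈ X)).card + (W.filter (fun w => w.1 ∈ S.F \ X)).card
      = W.card := by
    rw [← Finset.card_filter_add_card_filter_not (s := W) (fun w => w.1 ∈ X)]
    congr 2
    refine filter_congr fun w hw => ?_
    simp [mem_sides.1 (hW hw)]
  rw [hWc, hbd, card_singleton] at hadd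
  have hW2 : ∀ w ∈ W, w.1 ∈ S.F \ X → w ∈ W.filter (fun w => w.1 ∈ S.F \ X) :=
    fun w hw h => mem_filter.2 ⟨hw, h⟩
  rcases hear with h | h
  · obtain ⟨C, hC, hCc⟩ := bridge_force hg hc hR ih hX hbd hW hs2 hW2 (u := rot a)
      (v := S.g a) ha'.2.1 (Eqv.of_glued' ha'.1) (h.mono hle) h6
    exact ⟨C, hC, by omega⟩
  · obtain ⟨C, hC, hCc⟩ := bridge_force hg hc hR ih hX hbd hW hs2 hW2 (u := a)
      (v := rot (S.g a)) ha'.2.1 (Eqv.of_glued ha'.1) (h.mono hle) h6
    exact ⟨C, hC, by omega⟩

theorem P_bridge {S : Obj I} {pt : Sd I → Pt} {R : Set Pt} (hg : S.Geo pt) (hc : S.Conn)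
    (hR : ∀ t ∈ S.F, tri pt t ⊆ R) (ih : IH I R S.glued.card) {a : Sd I} (ha : S.Bridge a)
    {W : Finset (Sd I)} (hW : W ⊆ S.sides) (hr : S.Reduced W) : P S pt R W := by
  obtain ⟨X, hX, hbd⟩ := ha
  by_cases h1 : (S.keep X).N2 (W.filter (fun w => w.1 ∈ X)).card % 6 = 0
  · exact bridge_ear hg hc hR ih hX hbd hW h1
  have hbY : S.bd (S.F \ X) = {S.g a} := by
    rw [bd_sdiff, inter_eq_right.2 hX, hbd, image_singleton]
  by_cases h2 : (S.keep (S.F \ X)).N2 (W.filter (fun w => w.1 ∈ S.F \ X)).card % 6 = 0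
  · exact bridge_ear hg hc hR ih sdiff_subset hbY hW h2
  have ha : a ∈ S.bd X := by rw [hbd]; exact mem_singleton_self a
  have hb : S.g a ∈ S.bd (S.F \ X) := by rw [hbY]; exact mem_singleton_self _
  obtain ⟨C1, hs1, hc1⟩ := ih (S.keep X) pt (hg.sub (keep_le S X)) (bridge_conn_keep hc hX hbd)
    (fun t ht => hR t ((keep_le S X).F ht)) (bridge_card_glued ha)
    (W.filter (fun w => w.1 ∈ X)) (by
      intro w hw
      rw [mem_sides, keep_F S hX]
      exact (mem_filter.1 hw).2)
  obtain ⟨C2, hs2, hc2⟩ := ih (S.keep (S.F \ X)) pt (hg.sub (keep_le S _))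
    (bridge_conn_keep hc sdiff_subset hbY)
    (fun t ht => hR t ((keep_le S _).F ht)) (bridge_card_glued hb)
    (W.filter (fun w => w.1 ∈ S.F \ X)) (by
      intro w hw
      rw [mem_sides, keep_F S sdiff_subset]
      exact (mem_filter.1 hw).2)
  have hadd := N2_keep_add S hX (W.filter (fun w => w.1 ∈ X)).card
    (W.filter (fun w => w.1 ∈ S.F \ X)).card
  have hWc : (W.filter (fun w => w.1 ∈ X)).card + (W.filter (fun w => w.1 ∈ S.F \ X)).card
      = W.card := by
    rw [← Finset.card_filter_add_card_filter_not (s := W) (fun w => w.1 ∈ X)]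
    congr 2
    refine filter_congr fun w hw => ?_
    simp [mem_sides.1 (hW hw)]
  rw [hWc, hbd, card_singleton] at hadd
  have e1 := bridge_N2_even (S.keep X) (W.filter (fun w => w.1 ∈ X)).card
  have e2 := bridge_N2_even (S.keep (S.F \ X)) (W.filter (fun w => w.1 ∈ S.F \ X)).card
  have k := card_union_le C1 C2
  exact ⟨C1 ∪ C2, bridge_union hX hW hs1 hs2 (fun w hw h => mem_filter.2 ⟨hw, h⟩)
    (fun w hw h => mem_filter.2 ⟨hw, h⟩), by omega⟩

end Obj

end AG
end

/- AG.Red.RemoveA -/
section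
/-!
# Project AG, block RED: removing triangles from a bridgeless connected object, part A
-/

namespace AG

open Finset

variable {I : Type} [DecidableEq I]

namespace Obj

/-- if at most three glued sides leave `M`, the rest of a bridgeless connected object is
connected -/
theorem Conn.remove {S : Obj I} (hc : S.Conn) (hb : S.Bridgeless) {M : Finset I} (hM : M ⊆ S.F)
    (hne : M ≠ S.F) (h3 : (S.bd M).card ≤ 3) : (S.keep (S.F \ M)).Conn := by
  have hKF : (S.keep (S.F \ M)).F = S.F \ M := keep_F S sdiff_subset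
  refine ⟨?_, ?_⟩
  · rw [hKF, sdiff_nonempty]
    intro h
    exact hne (subset_antisymm hM h)
  · rw [hKF]
    intro X hX hXne hXY
    rw [keep_bd S hX]
    by_contra hemp
    rw [not_nonempty_iff_eq_empty, filter_eq_empty_iff] at hemp
    have hXF : X ⊆ S.F := hX.trans sdiff_subset
    have hXM : ∀ t ∈ X, t ∉ M := fun t ht => (mem_sdiff.1 (hX ht)).2
    -- partners of the boundary of `X` are in `M`
    have hXp : ∀ a ∈ S.bd X, (S.g a).1 ∈ M := by
      intro a ha
      by_contra hn
      exact hemp ha (mem_sdiff.2 ⟨g_memF (mem_bd.1 ha).1, hn⟩)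
    let Z : Finset I := (S.F \ M) \ X
    have hZF : Z ⊆ S.F := sdiff_subset.trans sdiff_subset
    have hZp : ∀ a ∈ S.bd Z, (S.g a).1 ∈ M := by
      intro a ha
      obtain ⟨h1, h2, h4⟩ := mem_bd.1 ha
      by_contra hn
      have h5 : (S.g a).1 ∈ S.F \ M := mem_sdiff.2 ⟨g_memF h1, hn⟩
      have h6 : (S.g a).1 ∈ X := by
        by_contra h7
        exact h4 (mem_sdiff.2 ⟨h5, h7⟩)
      have h8 : S.g a ∈ S.bd X := by
        rw [mem_bd, S.invol]
        exact ⟨(fun h => h1 h.symm), h6, (mem_sdiff.1 h2).2⟩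
      have h9 := hXp _ h8
      rw [S.invol] at h9
      exact (mem_sdiff.1 (mem_sdiff.1 h2).1).2 h9
    have hXneF : X ≠ S.F := by
      intro h
      apply hXY
      refine subset_antisymm hX ?_
      rw [h]
      exact sdiff_subset
    have hZne : Z.Nonempty := by
      rw [sdiff_nonempty]
      intro h
      exact hXY (subset_antisymm hX h)
    have hZneF : Z ≠ S.F := by
      intro h
      obtain ⟨t, ht⟩ := hXne
      have h1 : t ∈ Z := by
        rw [h]
        exact hXF ht
      exact (mem_sdiff.1 h1).2 ht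
    have c1 := hb.two_le hXF (hc.2 X hXF hXne hXneF)
    have c2 := hb.two_le hZF (hc.2 Z hZF hZne hZneF)
    have hdisj : Disjoint (S.bd X) (S.bd Z) := by
      rw [disjoint_left]
      intro a ha hb'
      exact (mem_sdiff.1 (mem_bd.1 hb').2.1).2 (mem_bd.1 ha).2.1
    have hsub : (S.bd X ∪ S.bd Z).image S.g ⊆ S.bd M := by
      intro b hb'
      obtain ⟨a, ha, rfl⟩ := mem_image.1 hb'
      rcases mem_union.1 ha with ha | ha
      · rw [mem_bd, S.invol]
        exact ⟨fun h => (mem_bd.1 ha).1 h.symm, hXp a ha, hXM _ (mem_bd.1 ha).2.1⟩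
      · rw [mem_bd, S.invol]
        exact ⟨fun h => (mem_bd.1 ha).1 h.symm, hZp a ha,
          (mem_sdiff.1 (mem_sdiff.1 (mem_bd.1 ha).2.1).1).2⟩
    have hcard := card_le_card hsub
    rw [card_image_of_injective _ S.g_injective, card_union_of_disjoint hdisj] at hcard
    omega

/-- bookkeeping for the removal of `M` -/
theorem N2_remove_set (S : Obj I) {M : Finset I} (hM : M ⊆ S.F) (k : ℕ) :
    (S.keep (S.F \ M)).N2 k + M.card + (S.vis.filter (fun a => a.1 ∈ M)).card
      + 2 * (S.E.filter (fun a => a.1 ∈ M)).card = S.N2 k + (S.bd M).card := by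
  have h2 := card_vis_keep S (sdiff_subset : S.F \ M ⊆ S.F)
  rw [card_bd_sdiff S hM] at h2
  have h3 : (S.vis.filter (fun a => a.1 ∈ M)).card
      + (S.vis.filter (fun a => a.1 ∈ S.F \ M)).card = S.vis.card := by
    rw [← Finset.card_filter_add_card_filter_not (s := S.vis) (fun a => a.1 ∈ M)]
    congr 2
    refine filter_congr fun a ha => ?_
    simp [(mem_vis.1 ha).1]
  have h4 : (S.E.filter (fun a => a.1 ∈ M)).card
      + (S.E.filter (fun a => a.1 ∈ S.F \ M)).card = S.E.card := by
    rw [← Finset.card_filter_add_card_filter_not (s := S.E) (fun a => a.1 ∈ M)]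
    congr 2
    refine filter_congr fun a ha => ?_
    simp [S.earF a ha]
  have h5 : M.card + (S.F \ M).card = S.F.card := by
    rw [card_sdiff_of_subset hM]; have := card_le_card hM; omega
  simp only [N2, keep_F S sdiff_subset, keep_E]
  omega

/-- fewer glued sides -/
theorem card_glued_remove_lt (S : Obj I) {M : Finset I} {a : Sd I} (ha : S.g a ≠ a)
    (haM : a.1 ∈ M) : (S.keep (S.F \ M)).glued.card < S.glued.card := by
  apply card_lt_card
  rw [ssubset_iff_of_subset]
  · refine ⟨a, mem_glued.2 ha, ?_⟩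
    rw [mem_glued, not_not, keep_g, if_neg]
    rintro ⟨h1, -⟩
    exact (mem_sdiff.1 h1).2 haM
  · intro b hb
    rw [mem_glued] at hb ⊢
    exact ((keep_le S _).glued hb).2

private theorem bd_single_nonempty {S : Obj I} (hc : S.Conn) (h2 : 2 ≤ S.F.card) {t : I}
    (ht : t ∈ S.F) : (S.bd {t}).Nonempty := by
  apply hc.2 {t} (singleton_subset_iff.2 ht) (singleton_nonempty t)
  intro h
  have := congrArg Finset.card h
  rw [card_singleton] at this
  omega

/-- in a bridgeless connected object with at least two triangles every triangle has at least two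
glued sides: at most one side is unglued -/
theorem Bridgeless.two_glued {S : Obj I} (hc : S.Conn) (hb : S.Bridgeless)
    (h2 : 2 ≤ S.F.card) {a : Sd I} (ha : a.1 ∈ S.F) (hu : S.g a = a) :
    S.g (rot a) ≠ rot a ∧ S.g (unrot a) ≠ unrot a := by
  have hcard := hb.two_le (singleton_subset_iff.2 ha) (bd_single_nonempty hc h2 ha)
  have hmem : ∀ b ∈ S.bd {a.1}, b = rot a ∨ b = unrot a := by
    intro b hb'
    obtain ⟨h3, h4, -⟩ := mem_bd.1 hb'
    rcases eq_of_fst_eq (mem_singleton.1 h4) with h | h | h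
    · rw [h] at h3
      exact absurd hu h3
    · exact Or.inl h
    · exact Or.inr h
  constructor
  · intro h
    have hs : S.bd {a.1} ⊆ {unrot a} := by
      intro b hb'
      rcases hmem b hb' with h5 | h5
      · rw [h5] at hb'
        exact absurd h (mem_bd.1 hb').1
      · exact mem_singleton.2 h5
    have := card_le_card hs
    rw [card_singleton] at this
    omega
  · intro h
    have hs : S.bd {a.1} ⊆ {rot a} := by
      intro b hb'
      rcases hmem b hb' with h5 | h5
      · exact mem_singleton.2 h5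
      · rw [h5] at hb'
        exact absurd h (mem_bd.1 hb').1
    have := card_le_card hs
    rw [card_singleton] at this
    omega

/-- in a bridgeless object with two triangles nothing is noncore -/
theorem Bridgeless.not_noncore {S : Obj I} (hc : S.Conn) (hb : S.Bridgeless)
    (h2 : 2 ≤ S.F.card) (t : I) : ¬ S.Noncore t := by
  rintro ⟨ht, h⟩
  obtain ⟨b, hb'⟩ := bd_single_nonempty hc h2 ht
  obtain ⟨h3, h4, -⟩ := mem_bd.1 hb'
  have h5 : b = (t, b.2) := by
    rw [← mem_singleton.1 h4]
  rw [h5] at h3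
  exact hb _ (h b.2 h3)

end Obj

end AG
end

/- AG.Red.Remove -/
section
/-!
# Project AG, block RED: removing triangles from a bridgeless connected object
-/

namespace AG

open Finset

variable {I : Type} [DecidableEq I]

namespace Obj

/-- a blade: the boundary of its triangle -/
theorem Blade.bd {S : Obj I} {c : Sd I} (hB : S.Blade c) :
    S.bd {c.1} = {c, unrot c} := by
  ext a
  rw [mem_bd, mem_insert, mem_singleton, mem_singleton, mem_singleton]
  constructor
  · rintro ⟨h1, h2, -⟩
    rcases eq_of_fst_eq h2 with h | h | h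
    · exact Or.inl h
    · rw [h] at h1
      exact absurd hB.2.2.1 h1
    · exact Or.inr h
  · rintro (h | h)
    · rw [h]
      exact ⟨hB.1, rfl, S.ne _ hB.1⟩
    · rw [h]
      exact ⟨hB.2.1, rfl, S.ne _ hB.2.1⟩

theorem Blade.conn_remove {S : Obj I} (hc : S.Conn) (hb : S.Bridgeless) {c : Sd I}
    (hB : S.Blade c) : (S.keep (S.F \ {c.1})).Conn := by
  refine Conn.remove hc hb (singleton_subset_iff.2 hB.memF) ?_ ?_
  · intro h
    have h1 : (S.g c).1 ∈ S.F := g_memF hB.1
    rw [← h, mem_singleton] at h1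
    exact S.ne _ hB.1 h1
  · rw [hB.bd]
    exact card_le_two.trans (by omega)

theorem Blade.N2_remove {S : Obj I} {c : Sd I} (hB : S.Blade c) (k : ℕ) :
    (S.keep (S.F \ {c.1})).N2 k = S.N2 k := by
  have h := Obj.N2_remove_set S (singleton_subset_iff.2 hB.memF) k
  have h1 : S.vis.filter (fun a => a.1 ∈ ({c.1} : Finset I)) = {rot c} := by
    ext b
    rw [mem_filter, mem_vis, mem_singleton, mem_singleton]
    constructor
    · rintro ⟨⟨-, h2⟩, h3⟩
      rcases eq_of_fst_eq h3 with h4 | h4 | h4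
      · rw [h4] at h2
        exact absurd h2 hB.1
      · exact h4
      · rw [h4] at h2
        exact absurd h2 hB.2.1
    · rintro rfl
      exact ⟨⟨hB.memF, hB.2.2.1⟩, rfl⟩
  have h2 : S.E.filter (fun a => a.1 ∈ ({c.1} : Finset I)) = ∅ := by
    rw [filter_eq_empty_iff]
    intro b hbE hb1
    rw [mem_singleton] at hb1
    rcases eq_of_fst_eq hb1 with h4 | h4 | h4
    · rw [h4] at hbE
      exact hB.1 (S.earFree _ hbE)
    · rw [h4] at hbE
      exact hB.2.2.2 hbE
    · rw [h4] at hbE
      exact hB.2.1 (S.earFree _ hbE)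
  rw [h1, h2, hB.bd, card_singleton, card_singleton, card_empty,
    card_pair (unrot_ne c).symm] at h
  omega

/-- a triangle `s` which is not a face and is glued to a removed triangle is noncore in the rest -/
theorem noncore_of_not_face {S : Obj I} {a : Sd I} (ha : S.g a ≠ a)
    (hf : ¬ S.Face (S.g a).1) : (S.keep (S.F \ {a.1})).Noncore (S.g a).1 := by
  have hsF : (S.g a).1 ∈ S.F := g_memF ha
  have hex : ∃ i, S.g ((S.g a).1, i) = ((S.g a).1, i) := by
    by_contra hcon
    exact hf ⟨hsF, fun i hi => hcon ⟨i, hi⟩⟩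
  obtain ⟨i0, hi0⟩ := hex
  have hKF : (S.keep (S.F \ {a.1})).F = S.F \ {a.1} := keep_F S sdiff_subset
  have hsK : (S.g a).1 ∈ (S.keep (S.F \ {a.1})).F := by
    rw [hKF, mem_sdiff, mem_singleton]
    exact ⟨hsF, S.ne _ ha⟩
  -- a side of `s` which is glued in the rest
  have key : ∀ b : Sd I, b.1 = (S.g a).1 → (S.keep (S.F \ {a.1})).g b ≠ b →
      b ≠ ((S.g a).1, i0) ∧ b ≠ S.g a := by
    intro b _ hb
    obtain ⟨-, h2⟩ := (keep_le S (S.F \ {a.1})).glued hb
    constructor
    · rintro rfl
      exact h2 hi0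
    · rintro rfl
      apply hb
      rw [keep_g, if_neg]
      rintro ⟨-, h3⟩
      rw [S.invol, mem_sdiff, mem_singleton] at h3
      exact h3.2 rfl
  have huniq : ∀ b b' : Sd I, b.1 = (S.g a).1 → b'.1 = (S.g a).1 →
      (S.keep (S.F \ {a.1})).g b ≠ b → (S.keep (S.F \ {a.1})).g b' ≠ b' → b = b' := by
    intro b b' hb hb' h1 h1'
    obtain ⟨k1, k2⟩ := key b hb h1
    obtain ⟨k1', k2'⟩ := key b' hb' h1'
    have hne : S.g a ≠ ((S.g a).1, i0) := by
      intro h
      rw [← h, S.invol] at hi0
      exact ha hi0.symm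
    obtain ⟨u, hu⟩ : ∃ u : Sd I, u = ((S.g a).1, i0) := ⟨_, rfl⟩
    rw [← hu] at k1 k1' hne
    have hu1 : u.1 = (S.g a).1 := by rw [hu]
    rcases eq_of_fst_eq (hb.trans hu1.symm) with e | e | e
    · exact absurd e k1
    · rcases eq_of_fst_eq (hb'.trans hu1.symm) with e' | e' | e'
      · exact absurd e' k1'
      · rw [e, e']
      · exfalso
        rcases eq_of_fst_eq (hu1.symm : (S.g a).1 = u.1) with e2 | e2 | e2
        · exact hne e2
        · exact k2 (e.trans e2.symm)
        · exact k2' (e'.trans e2.symm)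
    · rcases eq_of_fst_eq (hb'.trans hu1.symm) with e' | e' | e'
      · exact absurd e' k1'
      · exfalso
        rcases eq_of_fst_eq (hu1.symm : (S.g a).1 = u.1) with e2 | e2 | e2
        · exact hne e2
        · exact k2' (e'.trans e2.symm)
        · exact k2 (e.trans e2.symm)
      · rw [e, e']
  refine ⟨hsK, fun i hi => ⟨{(S.g a).1}, singleton_subset_iff.2 hsK, ?_⟩⟩
  ext b
  rw [mem_bd, mem_singleton, mem_singleton, mem_singleton]
  constructor
  · rintro ⟨h1, h2, -⟩
    exact huniq _ _ h2 rfl h1 hi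
  · rintro rfl
    exact ⟨hi, rfl, (S.keep (S.F \ {a.1})).ne _ hi⟩

/-- the three sides of a blade triangle, seen from one of its glued sides -/
private theorem blade_sides {S : Obj I} {a : Sd I} (hB : S.Blade a ∨ S.Blade (rot a)) :
    ∃ o β : Sd I, o.1 = a.1 ∧ β.1 = a.1 ∧ S.g o ≠ o ∧ o ≠ a ∧ S.g β = β ∧ β ∉ S.E ∧
      ∀ b : Sd I, b.1 = a.1 → b = a ∨ b = o ∨ b = β := by
  rcases hB with h | h
  · refine ⟨unrot a, rot a, rfl, rfl, h.2.1, unrot_ne a, h.2.2.1, h.2.2.2, fun b hb => ?_⟩
    rcases eq_of_fst_eq hb with e | e | e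
    · exact Or.inl e
    · exact Or.inr (Or.inr e)
    · exact Or.inr (Or.inl e)
  · refine ⟨rot a, unrot a, rfl, rfl, h.1, rot_ne a, ?_, ?_, fun b hb => eq_of_fst_eq hb⟩
    · rw [← rot_rot]
      exact h.2.2.1
    · rw [← rot_rot]
      exact h.2.2.2

private theorem face_glued {S : Obj I} {a : Sd I} (hA : S.Active a) {b : Sd I}
    (hb : b.1 = (S.g a).1) : S.g b ≠ b := by
  have h1 := hA.2.2 b.2
  have h2 : ((S.g a).1, b.2) = b := by rw [← hb]
  rwa [h2] at h1

private theorem bd_two_subset {S : Obj I} {a o β : Sd I}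
    (hβg : S.g β = β) (hall : ∀ b : Sd I, b.1 = a.1 → b = a ∨ b = o ∨ b = β) :
    S.bd {a.1, (S.g a).1} ⊆ {o, rot (S.g a), unrot (S.g a)} := by
  intro b hb
  rw [mem_bd, mem_insert, mem_singleton, mem_insert, mem_singleton] at hb
  obtain ⟨h1, h2, h3⟩ := hb
  rw [mem_insert, mem_insert, mem_singleton]
  rcases h2 with h2 | h2
  · rcases hall b h2 with e | e | e
    · rw [e] at h3
      exact absurd (Or.inr rfl) h3
    · exact Or.inl e
    · rw [e] at h1
      exact absurd hβg h1
  · rcases eq_of_fst_eq h2 with e | e | e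
    · rw [e, S.invol] at h3
      exact absurd (Or.inl rfl) h3
    · exact Or.inr (Or.inl e)
    · exact Or.inr (Or.inr e)

/-- a side of the face different from `g a` whose partner is in the blade triangle -/
private theorem partner_eq {S : Obj I} {a o β b : Sd I} (hA : S.Active a)
    (hβg : S.g β = β) (hall : ∀ b : Sd I, b.1 = a.1 → b = a ∨ b = o ∨ b = β)
    (hb : b.1 = (S.g a).1) (hba : b ≠ S.g a) (hp : (S.g b).1 = a.1) : S.g b = o := by
  rcases hall _ hp with e | e | e
  · exfalso
    apply hba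
    rw [← S.invol b, e]
  · exact e
  · exfalso
    have h1 := face_glued hA hb
    apply g_ne_iff.2 h1
    rw [e]
    exact hβg

private theorem two_ne_F {S : Obj I} {a o β : Sd I} (hA : S.Active a)
    (hβg : S.g β = β) (hall : ∀ b : Sd I, b.1 = a.1 → b = a ∨ b = o ∨ b = β) :
    ({a.1, (S.g a).1} : Finset I) ≠ S.F := by
  intro h
  have key : ∀ b : Sd I, b.1 = (S.g a).1 → b ≠ S.g a → S.g b = o := by
    intro b hb hba
    have h1 := face_glued hA hb
    have h2 : (S.g b).1 ∈ S.F := g_memF h1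
    rw [← h, mem_insert, mem_singleton] at h2
    rcases h2 with h2 | h2
    · exact partner_eq hA hβg hall hb hba h2
    · exact absurd (h2.trans hb.symm) (S.ne _ h1)
  have h1 := key (rot (S.g a)) rfl (rot_ne _)
  have h2 := key (unrot (S.g a)) rfl (unrot_ne _)
  exact unrot_ne_rot (S.g a) (S.g_injective (h2.trans h1.symm))

private theorem two_subset_F {S : Obj I} {a : Sd I} (hA : S.Active a) :
    ({a.1, (S.g a).1} : Finset I) ⊆ S.F := by
  intro t ht
  rw [mem_insert, mem_singleton] at ht
  rcases ht with rfl | rfl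
  · exact S.memF _ hA.1
  · exact hA.2.1

/-- blade `a.1` (apex `a` or `rot a`) and face `s = (S.g a).1`: the boundary of `{t, s}` has three
elements, so the rest is connected, `N` is unchanged -/
theorem conn_remove_two {S : Obj I} (hc : S.Conn) (hb : S.Bridgeless) {a : Sd I}
    (hB : S.Blade a ∨ S.Blade (rot a)) (hA : S.Active a) :
    (S.keep (S.F \ {a.1, (S.g a).1})).Conn := by
  obtain ⟨o, β, -, -, -, -, hβg, -, hall⟩ := blade_sides hB
  refine Conn.remove hc hb (two_subset_F hA) (two_ne_F hA hβg hall) ?_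
  exact (card_le_card (bd_two_subset hβg hall)).trans card_le_three

theorem N2_remove_two {S : Obj I} (hc : S.Conn) (hb : S.Bridgeless) {a : Sd I}
    (hB : S.Blade a ∨ S.Blade (rot a)) (hA : S.Active a) (k : ℕ) :
    (S.keep (S.F \ {a.1, (S.g a).1})).N2 k = S.N2 k := by
  obtain ⟨o, β, ho1, hβ1, hog, hoa, hβg, hβE, hall⟩ := blade_sides hB
  have hne : a.1 ≠ (S.g a).1 := fun h => S.ne _ hA.1 h.symm
  have h := Obj.N2_remove_set S (two_subset_F hA) k
  have hvis : S.vis.filter (fun b => b.1 ∈ ({a.1, (S.g a).1} : Finset I)) = {β} := by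
    ext b
    rw [mem_filter, mem_vis, mem_insert, mem_singleton, mem_singleton]
    constructor
    · rintro ⟨⟨-, h2⟩, h3 | h3⟩
      · rcases hall b h3 with e | e | e
        · rw [e] at h2
          exact absurd h2 hA.1
        · rw [e] at h2
          exact absurd h2 hog
        · exact e
      · exact absurd h2 (face_glued hA h3)
    · rintro rfl
      refine ⟨⟨?_, hβg⟩, Or.inl hβ1⟩
      rw [hβ1]
      exact S.memF _ hA.1
  have hE : S.E.filter (fun b => b.1 ∈ ({a.1, (S.g a).1} : Finset I)) = ∅ := by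
    rw [filter_eq_empty_iff]
    intro b hbE hb1
    rw [mem_insert, mem_singleton] at hb1
    have h2 := S.earFree _ hbE
    rcases hb1 with h3 | h3
    · rcases hall b h3 with e | e | e
      · rw [e] at h2
        exact hA.1 h2
      · rw [e] at h2
        exact hog h2
      · rw [e] at hbE
        exact hβE hbE
    · exact face_glued hA h3 h2
  have hM2 : 2 ≤ (S.bd {a.1, (S.g a).1}).card := by
    refine hb.two_le (two_subset_F hA) ?_
    exact hc.2 _ (two_subset_F hA) ⟨a.1, mem_insert_self _ _⟩ (two_ne_F hA hβg hall)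
  have hsub := bd_two_subset (S := S) hβg hall
  -- the other glued side of the blade leaves the pair
  have ho : (S.g o).1 ≠ (S.g a).1 := by
    intro hcon
    have hgo : S.g o ≠ S.g a := fun e => hoa (S.g_injective e)
    have hlt : S.bd {a.1, (S.g a).1} ⊆
        ({o, rot (S.g a), unrot (S.g a)} : Finset (Sd I)) \ {o, S.g o} := by
      intro b hb'
      rw [mem_sdiff]
      refine ⟨hsub hb', ?_⟩
      rw [mem_insert, mem_singleton]
      rw [mem_bd, mem_insert, mem_singleton, mem_insert, mem_singleton] at hb'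
      rintro (e | e)
      · rw [e] at hb'
        exact hb'.2.2 (Or.inr hcon)
      · rw [e, S.invol] at hb'
        exact hb'.2.2 (Or.inl ho1)
    have h1 := card_le_card hlt
    have h2 : ({o, rot (S.g a), unrot (S.g a)} : Finset (Sd I)) \ {o, S.g o} ⊆
        ({rot (S.g a), unrot (S.g a)} : Finset (Sd I)).erase (S.g o) := by
      intro b hb'
      rw [mem_sdiff, mem_insert, mem_insert, mem_singleton, mem_insert, mem_singleton] at hb'
      rw [mem_erase, mem_insert, mem_singleton]
      obtain ⟨h3, h4⟩ := hb'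
      refine ⟨fun e => h4 (Or.inr e), ?_⟩
      rcases h3 with e | e
      · exact absurd (Or.inl e) h4
      · exact e
    have h3 := card_le_card h2
    have h4 : S.g o ∈ ({rot (S.g a), unrot (S.g a)} : Finset (Sd I)) := by
      rw [mem_insert, mem_singleton]
      rcases eq_of_fst_eq hcon with e | e | e
      · exact absurd e hgo
      · exact Or.inl e
      · exact Or.inr e
    rw [card_erase_of_mem h4, card_pair (unrot_ne_rot (S.g a)).symm] at h3
    omega
  have hbd : S.bd {a.1, (S.g a).1} = {o, rot (S.g a), unrot (S.g a)} := by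
    refine subset_antisymm hsub ?_
    have hface : ∀ b : Sd I, b.1 = (S.g a).1 → b ≠ S.g a → b ∈ S.bd {a.1, (S.g a).1} := by
      intro b hb1 hba
      have h1 := face_glued hA hb1
      rw [mem_bd, mem_insert, mem_singleton, mem_insert, mem_singleton]
      refine ⟨h1, Or.inr hb1, ?_⟩
      rintro (e | e)
      · have h2 := partner_eq hA hβg hall hb1 hba e
        apply ho
        rw [← h2, S.invol]
        exact hb1
      · exact S.ne _ h1 (e.trans hb1.symm)
    intro b hb'
    rw [mem_insert, mem_insert, mem_singleton] at hb'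
    rcases hb' with e | e | e
    · rw [e, mem_bd, mem_insert, mem_singleton, mem_insert, mem_singleton]
      refine ⟨hog, Or.inl ho1, ?_⟩
      rintro (e' | e')
      · exact S.ne _ hog (e'.trans ho1.symm)
      · exact ho e'
    · rw [e]
      exact hface _ rfl (rot_ne _)
    · rw [e]
      exact hface _ rfl (unrot_ne _)
  have hcard3 : ({o, rot (S.g a), unrot (S.g a)} : Finset (Sd I)).card = 3 := by
    rw [card_eq_three]
    refine ⟨o, rot (S.g a), unrot (S.g a), ?_, ?_, (unrot_ne_rot (S.g a)).symm, rfl⟩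
    · intro e
      apply hne
      rw [← ho1, e]
      rfl
    · intro e
      apply hne
      rw [← ho1, e]
      rfl
  rw [hvis, hE, hbd, hcard3, card_singleton, card_empty, card_pair hne] at h
  omega

end Obj

end AG
end

/- AG.Red.Forced -/
section
/-!
# Project AG, block RED: 2.3 (a forced visit) and 2.4 (N mod 3)
-/

namespace AG

open Finset

variable {I : Type} [DecidableEq I]

namespace Obj

/-- a bridgeless connected object with at least two triangles: every corner is equivalent to the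
start of a glued side -/
private theorem exists_glued_eqv {S : Obj I} (hc : S.Conn) (hb : S.Bridgeless)
    (h2 : 2 ≤ S.F.card) {w : Sd I} (hw : w.1 ∈ S.F) : ∃ a, S.g a ≠ a ∧ S.Eqv a w := by
  by_cases h : S.g w = w
  · have h1 := (Bridgeless.two_glued hc hb h2 hw h).2
    refine ⟨S.g (unrot w), g_ne_iff.2 h1, ?_⟩
    have h3 := Eqv.of_glued' h1
    rw [rot_unrot] at h3
    exact h3.symm
  · exact ⟨w, h, Eqv.refl _ _⟩

private theorem even_glued (S : Obj I) : S.glued.card % 2 = 0 := by
  have h : ∑ _a ∈ S.glued, (1 : ZMod 2) = 0 := by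
    refine Finset.sum_involution (fun a _ => S.g a) ?_ ?_ ?_ ?_
    · intro a ha
      decide
    · intro a ha _
      exact mem_glued.1 ha
    · intro a ha
      exact g_mem_glued.2 ha
    · intro a ha
      exact S.invol a
  rw [Finset.sum_const, nsmul_eq_mul, mul_one, ZMod.natCast_eq_zero_iff] at h
  omega

/-- solving the cut object solves the object -/
private theorem sol_cut {S : Obj I} {pt : Sd I → Pt} {R : Set Pt} {a : Sd I}
    {W W' C : Finset (Sd I)} (hs : Sol (S.cut a) pt R W' C) (hW : ∀ w ∈ W, S.Hit C w) :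
    Sol S pt R W C := by
  refine Sol.transfer (cut_le S a) hs hW ?_ ?_ ?_
  · intro b hb
    exact (hs.ear b hb).imp (Hit.mono (cut_le S a)) (Hit.mono (cut_le S a))
  · intro t ht ht'
    exact absurd ht ht'
  · intro t ht ht'
    exact absurd ht ht'

/-- 2.3: bridgeless, at least two triangles, at least one forced visit -/
theorem P_forced {S : Obj I} {pt : Sd I → Pt} {R : Set Pt} (hg : S.Geo pt) (hc : S.Conn)
    (hb : S.Bridgeless) (h2 : 2 ≤ S.F.card) (hR : ∀ t ∈ S.F, tri pt t ⊆ R)
    (ih : IH I R S.glued.card) {W : Finset (Sd I)} (hW : W ⊆ S.sides) (hr : S.Reduced W)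
    (hne : W.Nonempty) : P S pt R W := by
  obtain ⟨w, hw⟩ := hne
  obtain ⟨a, ha, haw⟩ := exists_glued_eqv hc hb h2 (mem_sides.1 (hW hw))
  have hl := hg.linear
  have hle := cut_le S a
  have haF : a.1 ∈ S.F := S.memF a ha
  have hgF : (S.g a).1 ∈ S.F := g_memF ha
  have hlt : (S.cut a).glued.card < S.glued.card := by
    have := card_glued_cut S ha
    omega
  have hc1 : (S.cut a).Conn := hc.cut (hb a)
  have hsF : (S.cut a).sides = S.sides := rfl
  have hn1 := not_eqv_cut hl ha
  have hn2 := not_eqv_cut' hl ha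
  have he1 : S.Eqv a (rot (S.g a)) := Eqv.of_glued ha
  have he2 : S.Eqv (S.g a) (rot a) := (Eqv.of_glued' ha).symm
  have hma : a ∈ S.sides := mem_sides.2 haF
  have hmra : rot a ∈ S.sides := mem_sides.2 haF
  have hmg : S.g a ∈ S.sides := mem_sides.2 hgF
  have hmrg : rot (S.g a) ∈ S.sides := mem_sides.2 hgF
  by_cases hw2 : ∃ w2 ∈ W, S.Eqv w2 (rot a)
  · obtain ⟨w2, hw2, hw2a⟩ := hw2
    have hpt : pt a ≠ pt (rot a) := (hg.ccw_at haF).ne
    have hww : w2 ≠ w := by
      rintro rfl
      exact hpt (hg.pt_eq (haw.trans hw2a))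
    let W1 : Finset (Sd I) :=
      insert a (insert (rot (S.g a)) (insert (S.g a) (insert (rot a) ((W.erase w).erase w2))))
    have hW1 : W1 ⊆ (S.cut a).sides := by
      intro b hb'
      rw [hsF]
      simp only [W1, mem_insert, mem_erase] at hb'
      rcases hb' with h | h | h | h | h
      · rw [h]; exact hma
      · rw [h]; exact hmrg
      · rw [h]; exact hmg
      · rw [h]; exact hmra
      · exact hW h.2.2
    have hcard : W1.card ≤ W.card + 2 := by
      have h1 : ((W.erase w).erase w2).card + 2 = W.card := by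
        rw [card_erase_of_mem (mem_erase.2 ⟨hww, hw2⟩), card_erase_of_mem hw]
        have h3 : ({w2, w} : Finset (Sd I)) ⊆ W := by
          intro b hb'
          rw [mem_insert, mem_singleton] at hb'
          rcases hb' with h | h
          · rw [h]; exact hw2
          · rw [h]; exact hw
        have h4 := card_le_card h3
        rw [card_pair hww] at h4
        omega
      have h5 : W1.card ≤ ((W.erase w).erase w2).card + 1 + 1 + 1 + 1 :=
        (card_insert_le _ _).trans (Nat.succ_le_succ ((card_insert_le _ _).trans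
          (Nat.succ_le_succ ((card_insert_le _ _).trans (Nat.succ_le_succ
            (card_insert_le _ _))))))
      omega
    obtain ⟨C, hC, hCc⟩ := ih (S.cut a) pt (hg.sub hle) hc1 hR hlt W1 hW1
    have hm1 : a ∈ W1 := by simp [W1]
    have hm2 : rot (S.g a) ∈ W1 := by simp [W1]
    have hm3 : S.g a ∈ W1 := by simp [W1]
    have hm4 : rot a ∈ W1 := by simp [W1]
    have hforced : ∀ w' ∈ W, S.Hit C w' := by
      intro w' hw'
      by_cases h1 : w' = w
      · rw [h1]
        exact ((hC.forced a hm1).mono hle).eqv haw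
      · by_cases h3 : w' = w2
        · rw [h3]
          exact ((hC.forced _ hm4).mono hle).eqv hw2a.symm
        · refine (hC.forced w' ?_).mono hle
          simp only [W1, mem_insert, mem_erase]
          exact Or.inr (Or.inr (Or.inr (Or.inr ⟨h3, h1, hw'⟩)))
    obtain ⟨d, hd, d', hd', hdd, hde, hda⟩ := exists_dup hle hC hm1 hm2 hn1 he1
    obtain ⟨e, he, e', he', hee, hee', hea⟩ := exists_dup hle hC hm3 hm4 hn2 he2
    have hS0 : Sol S pt R W C := sol_cut hC hforced
    have hS1 : Sol S pt R W (C.erase d) := hS0.erase hg hd' hdd hde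
    have hde1 : ∀ x, S.Eqv x (S.g a) → x ≠ d := by
      rintro x hx rfl
      apply hpt
      rw [← hg.pt_eq hda, hg.pt_eq hx, hg.pt_eq he2]
    have hed : e ∈ C.erase d := mem_erase.2 ⟨hde1 e hea, he⟩
    have hed' : e' ∈ C.erase d := mem_erase.2 ⟨hde1 e' (hee'.symm.trans hea), he'⟩
    have hS2 : Sol S pt R W ((C.erase d).erase e) := hS1.erase hg hed' hee hee'
    refine ⟨_, hS2, ?_⟩
    have k1 : ((C.erase d).erase e).card + 1 = (C.erase d).card := card_erase_add_one hed
    have k2 : (C.erase d).card + 1 = C.card := card_erase_add_one hd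
    rw [N2_cut S ha] at hCc
    simp only [N2] at hCc ⊢
    omega
  · let W1 : Finset (Sd I) := insert a (insert (rot (S.g a)) (W.erase w))
    have hW1 : W1 ⊆ (S.cut a).sides := by
      intro b hb'
      rw [hsF]
      simp only [W1, mem_insert, mem_erase] at hb'
      rcases hb' with h | h | h
      · rw [h]; exact hma
      · rw [h]; exact hmrg
      · exact hW h.2
    have hcard : W1.card ≤ W.card + 1 := by
      have h1 : (W.erase w).card + 1 = W.card := card_erase_add_one hw
      have h5 : W1.card ≤ (W.erase w).card + 1 + 1 :=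
        (card_insert_le _ _).trans (Nat.succ_le_succ (card_insert_le _ _))
      omega
    obtain ⟨C, hC, hCc⟩ := ih (S.cut a) pt (hg.sub hle) hc1 hR hlt W1 hW1
    have hm1 : a ∈ W1 := by simp [W1]
    have hm2 : rot (S.g a) ∈ W1 := by simp [W1]
    have hforced : ∀ w' ∈ W, S.Hit C w' := by
      intro w' hw'
      by_cases h1 : w' = w
      · rw [h1]
        exact ((hC.forced a hm1).mono hle).eqv haw
      · refine (hC.forced w' ?_).mono hle
        simp only [W1, mem_insert, mem_erase]
        exact Or.inr (Or.inr ⟨h1, hw'⟩)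
    obtain ⟨d, hd, d', hd', hdd, hde, hda⟩ := exists_dup hle hC hm1 hm2 hn1 he1
    have hS0 : Sol S pt R W C := sol_cut hC hforced
    have hS1 : Sol S pt R W (C.erase d) := hS0.erase hg hd' hdd hde
    refine ⟨_, hS1, ?_⟩
    have k2 : (C.erase d).card + 1 = C.card := card_erase_add_one hd
    rw [N2_cut S ha] at hCc
    simp only [N2] at hCc ⊢
    omega

/-- 2.4: bridgeless, at least two triangles, `N` not `2` mod `3` -/
theorem P_mod {S : Obj I} {pt : Sd I → Pt} {R : Set Pt} (hg : S.Geo pt) (hc : S.Conn)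
    (hb : S.Bridgeless) (h2 : 2 ≤ S.F.card) (hR : ∀ t ∈ S.F, tri pt t ⊆ R)
    (ih : IH I R S.glued.card) (hN : S.N2 0 % 6 ≠ 4) : P S pt R ∅ := by
  obtain ⟨t, ht⟩ := hc.1
  obtain ⟨a, ha, -⟩ := exists_glued_eqv hc hb h2 (w := (t, 0)) ht
  have hlt : (S.cut a).glued.card < S.glued.card := by
    have := card_glued_cut S ha
    omega
  have hc1 : (S.cut a).Conn := hc.cut (hb a)
  obtain ⟨C, hC, hCc⟩ := ih (S.cut a) pt (hg.sub (cut_le S a)) hc1 hR hlt ∅ (empty_subset _)
  refine ⟨C, sol_cut hC (fun w hw => absurd hw (notMem_empty w)), ?_⟩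
  rw [N2_cut S ha] at hCc
  have h3 := card_vis_add_card_glued S
  have h4 := even_glued S
  simp only [N2, card_empty] at hCc hN ⊢
  omega

end Obj

end AG
end

/- AG.Red.Main -/
section
/-!
# Project AG, block RED: minimal counterexamples, first properties; P holds if there is none
-/

namespace AG

open Finset

variable {I : Type} [DecidableEq I]

namespace Obj

/-- the number of glued sides is even -/
theorem card_glued_even (S : Obj I) : S.glued.card % 2 = 0 := by
  have h : (∑ _a ∈ S.glued, (1 : ZMod 2)) = 0 := by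
    refine Finset.sum_involution (fun a _ => S.g a) ?_ ?_ ?_ ?_
    · intro a _; decide
    · intro a ha _
      exact mem_glued.1 ha
    · intro a ha
      exact g_mem_glued.2 ha
    · intro a _
      exact S.invol a
  rw [Finset.sum_const, nsmul_eq_mul, mul_one] at h
  exact Nat.even_iff.1 ((ZMod.natCast_eq_zero_iff_even).1 h)

/-- `N2` is even -/
theorem N2_even (S : Obj I) (k : ℕ) : S.N2 k % 2 = 0 := by
  have h1 := card_glued_even S
  have h2 := card_vis_add_card_glued S
  unfold N2
  omega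

theorem Cex.two_le {S : Obj I} {pt : Sd I → Pt} {R : Set Pt} (hC : Cex S pt R) :
    2 ≤ S.F.card := by
  by_contra h
  have h1 : S.F.card = 1 := by
    have := hC.conn.1.card_pos
    omega
  obtain ⟨t, ht⟩ := card_eq_one.1 h1
  exact hC.bad (P_single hC.geo hC.sub ht (empty_subset _))

theorem Cex.bridgeless {S : Obj I} {pt : Sd I → Pt} {R : Set Pt} (hC : Cex S pt R) :
    S.Bridgeless := fun _ ha =>
  hC.bad (P_bridge hC.geo hC.conn hC.sub hC.ih ha (empty_subset _)
    (fun w hw => absurd hw (notMem_empty w)))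

theorem Cex.N2_mod {S : Obj I} {pt : Sd I → Pt} {R : Set Pt} (hC : Cex S pt R) :
    S.N2 0 % 6 = 4 := by
  by_contra h
  exact hC.bad (P_mod hC.geo hC.conn hC.bridgeless hC.two_le hC.sub hC.ih h)

/-- if there is no minimal counterexample (with names in `I`, inside `R`), then P holds -/
theorem P_all {R : Set Pt} (hno : ∀ (S : Obj I) (pt : Sd I → Pt), ¬ Cex S pt R)
    {S : Obj I} {pt : Sd I → Pt} (hg : S.Geo pt) (hc : S.Conn)
    (hR : ∀ t ∈ S.F, tri pt t ⊆ R) {W : Finset (Sd I)} (hW : W ⊆ S.sides) : P S pt R W := by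
  have key : ∀ n : ℕ, IH I R n := by
    intro n
    induction n with
    | zero => intro S pt _ _ _ hlt; exact absurd hlt (Nat.not_lt_zero _)
    | succ n ihn =>
      intro S pt hg hc hR hlt W hW
      rcases Nat.lt_succ_iff_lt_or_eq.1 hlt with h1 | h1
      · exact ihn S pt hg hc hR h1 W hW
      have ih : IH I R S.glued.card := by rw [h1]; exact ihn
      refine P_of_reduced (fun W hW hr => ?_) hW
      by_cases hb : S.Bridgeless
      · by_cases h2 : 2 ≤ S.F.card
        · rcases W.eq_empty_or_nonempty with hW0 | hW0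
          · subst hW0
            by_contra hbad
            exact hno S pt ⟨hg, hc, hR, ih, hbad⟩
          · exact P_forced hg hc hb h2 hR ih hW hr hW0
        · have h3 : S.F.card = 1 := by
            have := hc.1.card_pos
            omega
          obtain ⟨t, ht⟩ := card_eq_one.1 h3
          exact P_single hg hR ht hW
      · unfold Bridgeless at hb
        push Not at hb
        obtain ⟨a, ha⟩ := hb
        exact P_bridge hg hc hR ih ha hW hr
  exact key (S.glued.card + 1) S pt hg hc hR (Nat.lt_succ_self _) W hW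

end Obj

end AG
end

/- Helper29.AG7.FlipStub -/
section
/-!
# geometric facts used in ConvFan.lean (owner: GEO-B, helper23)
-/

set_option autoImplicit false
open Finset

namespace AG

variable {I : Type} [DecidableEq I]

namespace Obj

theorem Geo.fs_a {S : Obj I} {pt : Sd I → Pt} (hG : S.Geo pt) {a : Sd I} (hU : S.IsU pt a) :
    cang (flipPt pt a (S.g a)) a = cang pt a + cang pt (rot (S.g a)) :=
  AG.Geo.cang_flip_a hG hU

theorem Geo.fs_w1 {S : Obj I} {pt : Sd I → Pt} (hG : S.Geo pt) {a : Sd I} (hU : S.IsU pt a)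
    (h : S.Flippable a) : cang (flipPt pt a (S.g a)) (unrot a) < cang pt (unrot a) := by
  have h1 := AG.Geo.cang_flip_w1 hG hU
  have h2 : 0 < cang (flipPt pt a (S.g a)) (rot (S.g a)) := by
    apply AG.Geo.cang_pos (Obj.Geo.flip hG hU h)
    exact g_memF hU.glued
  linarith

theorem fs_other {pt : Sd I → Pt} {a b c : Sd I} (h1 : c.1 ≠ a.1) (h2 : c.1 ≠ b.1) :
    cang (flipPt pt a b) c = cang pt c := AG.Geo.cang_flip_other h1 h2

end Obj

end AG
end
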