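import Pool.Agent.Helper16.VGG.G02
import Pool.Agent.Helper16.VGG.G05
import Pool.Agent.Helper16.VGG.G07

/- AG.Cuts -/
section
/-!
# Project AG: the cut calculus (C1-C7, L1, L3, L4 of AG_v2.md), in dart form   (helper85)

`S.bd X` is the set of the darts which leave `X`.  Everything is for `X ⊆ S.F`.
-/

set_option linter.unusedSectionVars false
set_option linter.unusedSimpArgs false

namespace AG

open Finset

variable {I : Type} [DecidableEq I]

namespace Obj

variable {S : Obj I}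

/-! ### general tools -/

theorem Conn.eq_empty_or {X : Finset I} (hc : S.Conn) (hX : X ⊆ S.F) (h : S.bd X = ∅) :
    X = ∅ ∨ X = S.F := by
  by_contra hcon
  push Not at hcon
  have := hc.2 X hX hcon.1 hcon.2
  rw [h] at this
  exact not_nonempty_empty this

theorem Conn.bd_nonempty {X : Finset I} (hc : S.Conn) (hX : X ⊆ S.F) (hne : X.Nonempty)
    (hF : X ≠ S.F) : (S.bd X).Nonempty := hc.2 X hX hne hF

/-- every cut of a connected bridgeless object has at least two edges -/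
theorem Bridgeless.two_le' (hb : S.Bridgeless) (hc : S.Conn) {X : Finset I} (hX : X ⊆ S.F)
    (hne : X.Nonempty) (hF : X ≠ S.F) : 2 ≤ (S.bd X).card :=
  hb.two_le hX (hc.bd_nonempty hX hne hF)

theorem nonempty_of_bd {X : Finset I} {a : Sd I} (h : a ∈ S.bd X) : X.Nonempty :=
  ⟨a.1, (mem_bd.1 h).2.1⟩

theorem ne_F_of_bd {X : Finset I} {a : Sd I} (h : a ∈ S.bd X) : X ≠ S.F := by
  rintro rfl
  exact (mem_bd.1 h).2.2 (g_memF (mem_bd.1 h).1)

theorem mem_bd_compl {X : Finset I} {a : Sd I} : a ∈ S.bd (S.F \ X) ↔ S.g a ∈ S.bd (S.F ∩ X) := by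
  rw [bd_sdiff, mem_image]
  constructor
  · rintro ⟨b, hb, rfl⟩; rw [S.invol]; exact hb
  · intro h; exact ⟨S.g a, h, S.invol a⟩

theorem mem_bd_compl' {X : Finset I} (hX : X ⊆ S.F) {a : Sd I} :
    a ∈ S.bd (S.F \ X) ↔ S.g a ∈ S.bd X := by
  rw [mem_bd_compl, inter_eq_right.2 hX]

/-! ### C1 -/

/-- C1, undirected: same boundary edges -/
theorem eq_or_compl (hc : S.Conn) {X Y : Finset I} (hX : X ⊆ S.F) (hY : Y ⊆ S.F)
    (h : ∀ a, (a ∈ S.bd X ∨ S.g a ∈ S.bd X) ↔ (a ∈ S.bd Y ∨ S.g a ∈ S.bd Y)) :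
    Y = X ∨ Y = S.F \ X := by
  -- glued sides: crossing for `X` iff crossing for `Y`
  have key : ∀ a, S.g a ≠ a → ((a.1 ∈ X ↔ (S.g a).1 ∈ X) ↔ (a.1 ∈ Y ↔ (S.g a).1 ∈ Y)) := by
    intro a ha
    have hk : ∀ Z : Finset I, (a ∈ S.bd Z ∨ S.g a ∈ S.bd Z) ↔ ¬ (a.1 ∈ Z ↔ (S.g a).1 ∈ Z) := by
      intro Z
      rw [mem_bd, mem_bd, S.invol]
      have ha' : a ≠ S.g a := ha.symm
      by_cases h1 : a.1 ∈ Z <;> by_cases h2 : (S.g a).1 ∈ Z <;> simp [h1, h2, ha, ha']
    have := h a
    rw [hk, hk] at this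
    exact not_iff_not.1 this
  set Z := (X \ Y) ∪ (Y \ X) with hZ
  have hZF : Z ⊆ S.F := by
    intro t ht
    rw [hZ, mem_union, mem_sdiff, mem_sdiff] at ht
    rcases ht with ht | ht
    · exact hX ht.1
    · exact hY ht.1
  have hmem : ∀ t, t ∈ Z ↔ ¬ (t ∈ X ↔ t ∈ Y) := by
    intro t
    rw [hZ, mem_union, mem_sdiff, mem_sdiff]
    by_cases h1 : t ∈ X <;> by_cases h2 : t ∈ Y <;> simp [h1, h2]
  have hbd : S.bd Z = ∅ := by
    rw [eq_empty_iff_forall_notMem]
    intro a ha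
    rw [mem_bd, hmem, hmem] at ha
    obtain ⟨h0, h1, h2⟩ := ha
    have h3 := key a h0
    tauto
  rcases hc.eq_empty_or hZF hbd with h1 | h1
  · left
    ext t
    by_contra hcon
    have : t ∈ Z := (hmem t).2 (fun e => hcon e.symm)
    rw [h1] at this
    exact notMem_empty _ this
  · right
    ext t
    rw [mem_sdiff]
    constructor
    · intro ht
      have h2 : t ∈ Z := h1 ▸ hY ht
      rw [hmem] at h2
      exact ⟨hY ht, fun h3 => h2 ⟨fun _ => ht, fun _ => h3⟩⟩
    · rintro ⟨h2, h3⟩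
      have h4 : t ∈ Z := h1 ▸ h2
      rw [hmem] at h4
      by_contra h5
      exact h4 ⟨fun h => absurd h h3, fun h => absurd h h5⟩

/-- C1, directed: a nonempty boundary determines the set -/
theorem eq_of_bd_eq (hc : S.Conn) {X Y : Finset I} (hX : X ⊆ S.F) (hY : Y ⊆ S.F)
    (hne : (S.bd X).Nonempty) (h : S.bd X = S.bd Y) : X = Y := by
  rcases eq_or_compl hc hX hY (fun a => by rw [h]) with h1 | h1
  · exact h1.symm
  · exfalso
    obtain ⟨a, ha⟩ := hne
    have h2 : a ∈ S.bd Y := h ▸ ha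
    rw [h1] at h2
    have h3 := (mem_bd.1 ha).2.1
    have h4 := (mem_bd.1 h2).2.1
    exact (mem_sdiff.1 h4).2 h3

/-! ### C2: the face lemma -/

/-- C2: two different sides of a triangle with three glued sides are never a 2-cut -/
theorem Bridgeless.face_aux (hb : S.Bridgeless) {X : Finset I} (hX : X ⊆ S.F) {a b c : Sd I}
    (hab : b.1 = a.1) (hac : c.1 = a.1) (hcg : S.g c ≠ c) (hca : c ≠ a) (hcb : c ≠ b)
    (hall : ∀ d : Sd I, d.1 = a.1 → d = a ∨ d = b ∨ d = c)
    (h : S.bd X = {a, b}) : False := by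
  have ha : a ∈ S.bd X := by rw [h]; simp
  have hb' : b ∈ S.bd X := by rw [h]; simp
  have hcn : c ∉ S.bd X := by rw [h]; simp [hca, hcb]
  have haX := (mem_bd.1 ha).2.1
  have hcX : (S.g c).1 ∈ X := by
    by_contra h1
    exact hcn (mem_bd.2 ⟨hcg, hac ▸ haX, h1⟩)
  refine hb (S.g c) ⟨X.erase a.1, (erase_subset _ _).trans hX, ?_⟩
  ext d
  rw [mem_singleton, mem_bd, mem_erase, mem_erase]
  constructor
  · rintro ⟨h1, ⟨h2, h3⟩, h4⟩
    by_cases h5 : (S.g d).1 ∈ X
    · have h6 : (S.g d).1 = a.1 := by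
        by_contra h7; exact h4 ⟨h7, h5⟩
      rcases hall _ h6 with h7 | h7 | h7
      · exfalso
        apply (mem_bd.1 ha).2.2
        rw [← h7, S.invol]; exact h3
      · exfalso
        apply (mem_bd.1 hb').2.2
        rw [← h7, S.invol]; exact h3
      · rw [← h7, S.invol]
    · exfalso
      have h6 : d ∈ S.bd X := mem_bd.2 ⟨h1, h3, h5⟩
      rw [h, mem_insert, mem_singleton] at h6
      rcases h6 with rfl | rfl
      · exact h2 rfl
      · exact h2 hab
  · rintro rfl
    refine ⟨g_ne_iff.2 hcg, ⟨?_, hcX⟩, ?_⟩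
    · rw [← hac]; exact S.ne c hcg
    · rw [S.invol, hac]; exact fun h1 => h1.1 rfl

/-- C2 -/
theorem Bridgeless.face_cut (hb : S.Bridgeless) {X : Finset I} (hX : X ⊆ S.F) {a b : Sd I}
    (hf : S.Face a.1) (hab : b.1 = a.1) (hne : a ≠ b) :
    S.bd X ≠ {a, b} ∧ S.bd X ≠ {S.g a, S.g b} := by
  -- the third side
  obtain ⟨c, hc1, hc2, hc3, hall⟩ : ∃ c : Sd I, c.1 = a.1 ∧ c ≠ a ∧ c ≠ b ∧
      ∀ d : Sd I, d.1 = a.1 → d = a ∨ d = b ∨ d = c := by
    rcases eq_of_fst_eq hab with h | h | h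
    · exact absurd h.symm hne
    · refine ⟨unrot a, rfl, unrot_ne a, by rw [h]; exact unrot_ne_rot a, fun d hd => ?_⟩
      rcases eq_of_fst_eq hd with h1 | h1 | h1
      · exact Or.inl h1
      · exact Or.inr (Or.inl (h1.trans h.symm))
      · exact Or.inr (Or.inr h1)
    · refine ⟨rot a, rfl, rot_ne a, by rw [h]; exact (unrot_ne_rot a).symm, fun d hd => ?_⟩
      rcases eq_of_fst_eq hd with h1 | h1 | h1
      · exact Or.inl h1
      · exact Or.inr (Or.inr h1)
      · exact Or.inr (Or.inl (h1.trans h.symm))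
  have hcg : S.g c ≠ c := by
    have := hf.2 c.2
    rwa [← hc1] at this
  refine ⟨hb.face_aux hX hab hc1 hcg hc2 hc3 hall, fun h => ?_⟩
  refine hb.face_aux (X := S.F \ X) sdiff_subset hab hc1 hcg hc2 hc3 hall ?_
  rw [bd_sdiff, inter_eq_right.2 hX, h, image_insert, image_singleton, S.invol, S.invol]

/-! ### C3: the sub lemma -/

/-- C3 -/
theorem sub_of_bd (hc : S.Conn) {X Y : Finset I} (hY : Y ⊆ S.F) (hne : X.Nonempty) (hX : X ⊆ S.F)
    (h1 : ∀ a ∈ S.bd X, (S.g a).1 ∉ Y) (h2 : ∀ a ∈ S.bd Y, a.1 ∈ X) : Y ⊆ X := by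
  have hbd : S.bd (Y \ X) = ∅ := by
    rw [eq_empty_iff_forall_notMem]
    intro a ha
    rw [mem_bd, mem_sdiff, mem_sdiff] at ha
    obtain ⟨h0, ⟨h3, h4⟩, h5⟩ := ha
    by_cases h6 : (S.g a).1 ∈ Y
    · have h7 : (S.g a).1 ∈ X := by by_contra h8; exact h5 ⟨h6, h8⟩
      have h8 : S.g a ∈ S.bd X := mem_bd.2 ⟨g_ne_iff.2 h0, h7, by rw [S.invol]; exact h4⟩
      have := h1 _ h8
      rw [S.invol] at this
      exact this h3
    · exact h4 (h2 a (mem_bd.2 ⟨h0, h3, h6⟩))
  rcases hc.eq_empty_or (sdiff_subset.trans hY) hbd with h3 | h3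
  · exact sdiff_eq_empty_iff_subset.1 h3
  · exfalso
    obtain ⟨t, ht⟩ := hne
    have : t ∈ Y \ X := h3 ▸ hX ht
    exact (mem_sdiff.1 this).2 ht

/-- C3, disjoint form -/
theorem disjoint_of_bd (hc : S.Conn) {X Y : Finset I} (hX : X ⊆ S.F) (hF : X ≠ S.F)
    (h1 : ∀ a ∈ S.bd X, a.1 ∉ Y) (h2 : ∀ a ∈ S.bd Y, a.1 ∉ X) : Disjoint X Y := by
  have hbd : S.bd (X ∩ Y) = ∅ := by
    rw [eq_empty_iff_forall_notMem]
    intro a ha
    rw [mem_bd, mem_inter, mem_inter] at ha
    obtain ⟨h0, ⟨h3, h4⟩, h5⟩ := ha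
    by_cases h6 : (S.g a).1 ∈ X
    · have h7 : (S.g a).1 ∉ Y := fun h8 => h5 ⟨h6, h8⟩
      exact h2 a (mem_bd.2 ⟨h0, h4, h7⟩) h3
    · exact h1 a (mem_bd.2 ⟨h0, h3, h6⟩) h4
  rcases hc.eq_empty_or (inter_subset_left.trans hX) hbd with h3 | h3
  · exact disjoint_iff_inter_eq_empty.2 h3
  · exfalso
    apply hF
    exact subset_antisymm hX (h3 ▸ inter_subset_left)

/-! ### C4: both sides of a 2-cut are connected -/

/-- C4 -/
theorem exists_inner (hc : S.Conn) (hb : S.Bridgeless) {X Z : Finset I} (hX : X ⊆ S.F)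
    (h2 : (S.bd X).card ≤ 3) (hZ : Z ⊆ X) (hne : Z.Nonempty) (hZX : Z ≠ X) :
    ∃ a ∈ S.bd Z, (S.g a).1 ∈ X := by
  by_contra hcon
  push Not at hcon
  have s1 : S.bd Z ⊆ S.bd X := by
    intro a ha
    have h := mem_bd.1 ha
    exact mem_bd.2 ⟨h.1, hZ h.2.1, hcon a ha⟩
  have s2 : S.bd (X \ Z) ⊆ S.bd X := by
    intro a ha
    rw [mem_bd, mem_sdiff, mem_sdiff] at ha
    obtain ⟨h0, ⟨h3, h4⟩, h5⟩ := ha
    refine mem_bd.2 ⟨h0, h3, fun h6 => ?_⟩
    have h7 : (S.g a).1 ∈ Z := by by_contra h8; exact h5 ⟨h6, h8⟩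
    have h8 : S.g a ∈ S.bd Z := mem_bd.2 ⟨g_ne_iff.2 h0, h7, by rw [S.invol]; exact h4⟩
    have := hcon _ h8
    rw [S.invol] at this
    exact this h3
  have hdisj : Disjoint (S.bd Z) (S.bd (X \ Z)) := by
    rw [disjoint_left]
    intro a ha ha'
    exact (mem_sdiff.1 (mem_bd.1 ha').2.1).2 (mem_bd.1 ha).2.1
  have hXne : X.Nonempty := hne.mono hZ
  have hne2 : (X \ Z).Nonempty := by
    rw [sdiff_nonempty]
    exact fun h => hZX (subset_antisymm hZ h)
  have c1 : 2 ≤ (S.bd Z).card := by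
    apply hb.two_le' hc (hZ.trans hX) hne
    rintro rfl
    exact hZX (subset_antisymm hZ hX)
  have c2 : 2 ≤ (S.bd (X \ Z)).card := by
    apply hb.two_le' hc (sdiff_subset.trans hX) hne2
    intro h
    obtain ⟨t, ht⟩ := hne
    have : t ∈ X \ Z := h ▸ hX (hZ ht)
    exact (mem_sdiff.1 this).2 ht
  have c3 := card_le_card (union_subset s1 s2)
  rw [card_union_of_disjoint hdisj] at c3
  omega

/-- C4 / C7: a set with at most three boundary edges is connected -/
theorem keep_conn (hc : S.Conn) (hb : S.Bridgeless) {X : Finset I} (hX : X ⊆ S.F)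
    (h2 : (S.bd X).card ≤ 3) (hne : X.Nonempty) : (S.keep X).Conn := by
  refine ⟨by rw [keep_F S hX]; exact hne, fun Z hZ hZne hZX => ?_⟩
  rw [keep_F S hX] at hZ hZX
  obtain ⟨a, ha, ha'⟩ := exists_inner hc hb hX h2 hZ hZne hZX
  rw [keep_bd S hZ]
  exact ⟨a, mem_filter.2 ⟨ha, ha'⟩⟩

/-- C7: removing a set with at most three boundary edges -/
theorem keep_sdiff_conn (hc : S.Conn) (hb : S.Bridgeless) {M : Finset I} (hM : M ⊆ S.F)
    (h3 : (S.bd M).card ≤ 3) (hne : (S.F \ M).Nonempty) : (S.keep (S.F \ M)).Conn :=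
  keep_conn hc hb sdiff_subset (by rw [card_bd_sdiff S hM]; exact h3) hne

/-! ### C6: the crossing lemma -/

/-- number of darts from `U` to `W` -/
def nd (S : Obj I) (U W : Finset I) : ℕ :=
  (S.glued.filter (fun a => a.1 ∈ U ∧ (S.g a).1 ∈ W)).card

theorem nd_symm (U W : Finset I) : S.nd U W = S.nd W U := by
  unfold nd
  refine card_bij' (fun a _ => S.g a) (fun a _ => S.g a) ?_ ?_ ?_ ?_
  · intro a ha
    rw [mem_filter] at ha ⊢
    exact ⟨g_mem_glued.2 ha.1, ha.2.2, by rw [S.invol]; exact ha.2.1⟩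
  · intro a ha
    rw [mem_filter] at ha ⊢
    exact ⟨g_mem_glued.2 ha.1, ha.2.2, by rw [S.invol]; exact ha.2.1⟩
  · intro a _; exact S.invol a
  · intro a _; exact S.invol a

theorem nd_pos {U W : Finset I} (h : 0 < S.nd U W) :
    ∃ a, S.g a ≠ a ∧ a.1 ∈ U ∧ (S.g a).1 ∈ W := by
  obtain ⟨a, ha⟩ := card_pos.1 h
  rw [mem_filter, mem_glued] at ha
  exact ⟨a, ha⟩

/-- C6 -/
theorem crossing (hc : S.Conn) (hb : S.Bridgeless) {X Y : Finset I} (hX : X ⊆ S.F)
    (hY : Y ⊆ S.F) (hX2 : (S.bd X).card = 2) (hY2 : (S.bd Y).card = 2)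
    (h1 : (X ∩ Y).Nonempty) (h2 : (X \ Y).Nonempty) (h3 : (Y \ X).Nonempty)
    (h4 : (S.F \ (X ∪ Y)).Nonempty) :
    ∃ e e' f f' : Sd I,
      S.bd X = {e, e'} ∧ S.bd Y = {f, f'} ∧
      (e.1 ∈ X ∧ e.1 ∈ Y ∧ (S.g e).1 ∉ X ∧ (S.g e).1 ∈ Y) ∧
      (e'.1 ∈ X ∧ e'.1 ∉ Y ∧ (S.g e').1 ∉ X ∧ (S.g e').1 ∉ Y) ∧
      (f.1 ∈ X ∧ f.1 ∈ Y ∧ (S.g f).1 ∈ X ∧ (S.g f).1 ∉ Y) ∧
      (f'.1 ∉ X ∧ f'.1 ∈ Y ∧ (S.g f').1 ∉ X ∧ (S.g f').1 ∉ Y) := by
  classical
  set P := X ∩ Y with hP
  set Q := X \ Y with hQ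
  set R := Y \ X with hR
  set O := S.F \ (X ∪ Y) with hO
  -- sums over glued darts
  have hbd : ∀ Z : Finset I, (S.bd Z).card
      = ∑ a ∈ S.glued, if a.1 ∈ Z ∧ (S.g a).1 ∉ Z then 1 else 0 := fun Z => by
    rw [bd, Finset.card_filter]
  have hnd : ∀ U W : Finset I, S.nd U W
      = ∑ a ∈ S.glued, if a.1 ∈ U ∧ (S.g a).1 ∈ W then 1 else 0 := fun U W => by
    rw [nd, Finset.card_filter]
  have e1 : (S.bd X).card = S.nd P R + S.nd P O + S.nd Q R + S.nd Q O := by
    simp only [hbd, hnd, ← Finset.sum_add_distrib]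
    refine Finset.sum_congr rfl fun a ha => ?_
    have hg := mem_glued.1 ha
    have m1 := S.memF a hg
    have m2 := g_memF hg
    by_cases b1 : a.1 ∈ X <;> by_cases b2 : a.1 ∈ Y <;> by_cases b3 : (S.g a).1 ∈ X <;>
      by_cases b4 : (S.g a).1 ∈ Y <;> simp [hP, hQ, hR, hO, b1, b2, b3, b4, m1, m2]
  have e2 : (S.bd Y).card = S.nd P Q + S.nd P O + S.nd R Q + S.nd R O := by
    simp only [hbd, hnd, ← Finset.sum_add_distrib]
    refine Finset.sum_congr rfl fun a ha => ?_
    have hg := mem_glued.1 ha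
    have m1 := S.memF a hg
    have m2 := g_memF hg
    by_cases b1 : a.1 ∈ X <;> by_cases b2 : a.1 ∈ Y <;> by_cases b3 : (S.g a).1 ∈ X <;>
      by_cases b4 : (S.g a).1 ∈ Y <;> simp [hP, hQ, hR, hO, b1, b2, b3, b4, m1, m2]
  have e3 : (S.bd P).card = S.nd P Q + S.nd P R + S.nd P O := by
    simp only [hbd, hnd, ← Finset.sum_add_distrib]
    refine Finset.sum_congr rfl fun a ha => ?_
    have hg := mem_glued.1 ha
    have m1 := S.memF a hg
    have m2 := g_memF hg
    by_cases b1 : a.1 ∈ X <;> by_cases b2 : a.1 ∈ Y <;> by_cases b3 : (S.g a).1 ∈ X <;>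
      by_cases b4 : (S.g a).1 ∈ Y <;> simp [hP, hQ, hR, hO, b1, b2, b3, b4, m1, m2]
  have e4 : (S.bd Q).card = S.nd Q P + S.nd Q R + S.nd Q O := by
    simp only [hbd, hnd, ← Finset.sum_add_distrib]
    refine Finset.sum_congr rfl fun a ha => ?_
    have hg := mem_glued.1 ha
    have m1 := S.memF a hg
    have m2 := g_memF hg
    by_cases b1 : a.1 ∈ X <;> by_cases b2 : a.1 ∈ Y <;> by_cases b3 : (S.g a).1 ∈ X <;>
      by_cases b4 : (S.g a).1 ∈ Y <;> simp [hP, hQ, hR, hO, b1, b2, b3, b4, m1, m2]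
  have e5 : (S.bd R).card = S.nd R P + S.nd R Q + S.nd R O := by
    simp only [hbd, hnd, ← Finset.sum_add_distrib]
    refine Finset.sum_congr rfl fun a ha => ?_
    have hg := mem_glued.1 ha
    have m1 := S.memF a hg
    have m2 := g_memF hg
    by_cases b1 : a.1 ∈ X <;> by_cases b2 : a.1 ∈ Y <;> by_cases b3 : (S.g a).1 ∈ X <;>
      by_cases b4 : (S.g a).1 ∈ Y <;> simp [hP, hQ, hR, hO, b1, b2, b3, b4, m1, m2]
  have e6 : (S.bd O).card = S.nd O P + S.nd O Q + S.nd O R := by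
    simp only [hbd, hnd, ← Finset.sum_add_distrib]
    refine Finset.sum_congr rfl fun a ha => ?_
    have hg := mem_glued.1 ha
    have m1 := S.memF a hg
    have m2 := g_memF hg
    by_cases b1 : a.1 ∈ X <;> by_cases b2 : a.1 ∈ Y <;> by_cases b3 : (S.g a).1 ∈ X <;>
      by_cases b4 : (S.g a).1 ∈ Y <;> simp [hP, hQ, hR, hO, b1, b2, b3, b4, m1, m2]
  have hPF : P ⊆ S.F := inter_subset_left.trans hX
  have hQF : Q ⊆ S.F := sdiff_subset.trans hX
  have hRF : R ⊆ S.F := sdiff_subset.trans hY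
  have hOF : O ⊆ S.F := sdiff_subset
  have hne : ∀ {U W : Finset I}, U ⊆ S.F → W ⊆ S.F → W.Nonempty → Disjoint U W → U ≠ S.F := by
    rintro U W hU hW ⟨t, ht⟩ hd rfl
    exact disjoint_left.1 hd (hW ht) ht
  have dPQ : Disjoint P Q := by
    rw [disjoint_left]; intro t h h'
    exact (mem_sdiff.1 h').2 (mem_inter.1 h).2
  have dRP : Disjoint R P := by
    rw [disjoint_left]; intro t h h'
    exact (mem_sdiff.1 h).2 (mem_inter.1 h').1
  have dOP : Disjoint O P := by
    rw [disjoint_left]; intro t h h'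
    exact (mem_sdiff.1 h).2 (mem_union_left _ (mem_inter.1 h').1)
  have b3 := hb.two_le' hc hPF h1 (hne hPF hQF h2 dPQ)
  have b4 := hb.two_le' hc hQF h2 (hne hQF hPF h1 dPQ.symm)
  have b5 := hb.two_le' hc hRF h3 (hne hRF hPF h1 dRP)
  have b6 := hb.two_le' hc hOF h4 (hne hOF hPF h1 dOP)
  have s1 := nd_symm (S := S) Q P
  have s2 := nd_symm (S := S) R P
  have s3 := nd_symm (S := S) O P
  have s4 := nd_symm (S := S) R Q
  have s5 := nd_symm (S := S) O Q
  have s6 := nd_symm (S := S) O R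
  have pPR : 0 < S.nd P R := by omega
  have pQO : 0 < S.nd Q O := by omega
  have pPQ : 0 < S.nd P Q := by omega
  have pRO : 0 < S.nd R O := by omega
  obtain ⟨e, he0, he1, he2⟩ := nd_pos pPR
  obtain ⟨e', he0', he1', he2'⟩ := nd_pos pQO
  obtain ⟨f, hf0, hf1, hf2⟩ := nd_pos pPQ
  obtain ⟨f', hf0', hf1', hf2'⟩ := nd_pos pRO
  simp only [hP, hQ, hR, hO, mem_inter, mem_sdiff, mem_union, not_or] at he1 he2 he1' he2' hf1 hf2 hf1' hf2'
  have pair : ∀ {Z : Finset I} {a b : Sd I}, (S.bd Z).card = 2 → a ∈ S.bd Z → b ∈ S.bd Z → a ≠ b →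
      S.bd Z = {a, b} := by
    intro Z a b hZ ha hb hab
    symm
    apply eq_of_subset_of_card_le
    · intro x hx
      rw [mem_insert, mem_singleton] at hx
      rcases hx with rfl | rfl <;> assumption
    · rw [hZ, card_pair hab]
  refine ⟨e, e', f, f', ?_, ?_, ⟨he1.1, he1.2, he2.2, he2.1⟩, ⟨he1'.1, he1'.2, he2'.2.1, he2'.2.2⟩,
    ⟨hf1.1, hf1.2, hf2.1, hf2.2⟩, ⟨hf1'.2, hf1'.1, hf2'.2.1, hf2'.2.2⟩⟩
  · refine pair hX2 (mem_bd.2 ⟨he0, he1.1, he2.2⟩) (mem_bd.2 ⟨he0', he1'.1, he2'.2.1⟩) ?_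
    rintro rfl
    exact he1'.2 he1.2
  · refine pair hY2 (mem_bd.2 ⟨hf0, hf1.2, hf2.2⟩) (mem_bd.2 ⟨hf0', hf1'.1, hf2'.2.2⟩) ?_
    rintro rfl
    exact hf1'.2 hf1.1

/-! ### sets between two sides of one visit -/

/-- no side joins a visit to itself (true for geometric objects) -/
def Loopless (S : Obj I) : Prop := ∀ a : Sd I, a.1 ∈ S.F → ¬ S.Eqv a (rot a)

/-- `X` is the part of the object between the sides `c` and `c'` of one visit: it contains the
triangles at the positions `ps c, …, ps c' - 1` -/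
structure IsIn (S : Obj I) (c c' : Sd I) (X : Finset I) : Prop where
  gl : S.g c ≠ c
  gl' : S.g c' ≠ c'
  eqv : S.Eqv c c'
  lt : S.ps c < S.ps c'
  sub : X ⊆ S.F
  bd : S.bd X = {c, S.g c'}

namespace IsIn

variable {c c' : Sd I} {X : Finset I}

theorem mem_left (h : S.IsIn c c' X) : c ∈ S.bd X := by rw [h.bd]; simp
theorem mem_right (h : S.IsIn c c' X) : S.g c' ∈ S.bd X := by rw [h.bd]; simp

theorem ne (hr : S.Loopless) (h : S.IsIn c c' X) : c ≠ S.g c' := by
  intro e
  have h1 : S.Eqv (rot c') (S.g c') := Eqv.of_glued' h.gl'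
  rw [← e] at h1
  exact hr c' (S.memF _ h.gl') ((h1.trans h.eqv).symm)

theorem card (hr : S.Loopless) (h : S.IsIn c c' X) : (S.bd X).card = 2 := by
  rw [h.bd, card_pair (h.ne hr)]

theorem nonempty (h : S.IsIn c c' X) : X.Nonempty := nonempty_of_bd h.mem_left

theorem ne_F (h : S.IsIn c c' X) : X ≠ S.F := ne_F_of_bd h.mem_left

/-- no boundary edge at the positions strictly between, below or above -/
theorem no_cross (hr : S.Loopless) (h : S.IsIn c c' X) {e : Sd I} (he : S.Eqv c e)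
    (h1 : S.ps e ≠ S.ps c) (h2 : S.ps e ≠ S.ps c') (hg : S.g e ≠ e) :
    e.1 ∈ X ↔ (S.g e).1 ∈ X := by
  by_contra hcon
  have hcF := S.memF _ h.gl
  have hcF' := S.memF _ h.gl'
  have l1 : ¬ S.Eqv c (S.g c) := fun h3 => hr c hcF (h3.trans (Eqv.of_glued' h.gl).symm)
  have l2 : ¬ S.Eqv c' (S.g c') := fun h3 => hr c' hcF' (h3.trans (Eqv.of_glued' h.gl').symm)
  rcases mem_bd_or hg hcon with h3 | h3
  · rw [h.bd, mem_insert, mem_singleton] at h3
    rcases h3 with rfl | h3
    · exact h1 rfl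
    · rw [h3] at he
      exact l2 (h.eqv.symm.trans he)
  · rw [h.bd, mem_insert, mem_singleton] at h3
    rcases h3 with h3 | h3
    · rw [← h3, S.invol] at l1
      rw [← h3] at he
      exact l1 he
    · exact h2 (by rw [S.g_injective h3])

/-- L1 -/
theorem mem_iff (hl : S.Linear) (hr : S.Loopless) (h : S.IsIn c c' X) {d : Sd I}
    (hd : S.Eqv c d) : d.1 ∈ X ↔ S.ps c ≤ S.ps d ∧ S.ps d < S.ps c' := by
  have hc1 : c.1 ∈ X := (mem_bd.1 h.mem_left).2.1
  have hc2 : (S.g c).1 ∉ X := (mem_bd.1 h.mem_left).2.2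
  have hc3 : (S.g c').1 ∈ X := (mem_bd.1 h.mem_right).2.1
  have hc4 : c'.1 ∉ X := by have := (mem_bd.1 h.mem_right).2.2; rwa [S.invol] at this
  rcases Nat.lt_or_ge (S.ps d) (S.ps c) with h1 | h1
  · -- below
    have h2 := ps_of_glued hl h.gl
    have h3 : d.1 ∉ X := by
      intro hdX
      obtain ⟨e, e1, e2, e3, e4, e5, -⟩ := exists_cross hl (a := d) (b := S.cw c)
        (hd.symm.trans (S.cw_eqv c)) (by omega) (X := X)
        (by rw [cw_fst h.gl]; exact fun hh => hc2 (hh.1 hdX))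
      exact e5 (h.no_cross hr (hd.trans e1) (by omega) (by have := h.lt; omega) e2)
    constructor
    · intro h4; exact absurd h4 h3
    · intro h4; omega
  · rcases Nat.lt_or_ge (S.ps d) (S.ps c') with h2 | h2
    · constructor
      · intro _; exact ⟨h1, h2⟩
      · intro _
        by_contra hdX
        obtain ⟨e, e1, e2, e3, e4, e5, -⟩ := exists_cross hl (a := c) (b := d) hd h1 (X := X)
          (fun hh => hdX (hh.1 hc1))
        exact e5 (h.no_cross hr e1 (by omega) (by omega) e2)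
    · constructor
      · intro hdX
        exfalso
        obtain ⟨e, e1, e2, e3, e4, e5, -⟩ := exists_cross hl (a := c') (b := d)
          (h.eqv.symm.trans hd) h2 (X := X) (fun hh => hc4 (hh.2 hdX))
        exact e5 (h.no_cross hr (h.eqv.trans e1) (by have := h.lt; omega) (by omega) e2)
      · intro h4; omega

/-- uniqueness -/
theorem unique (hc : S.Conn) {Y : Finset I} (h : S.IsIn c c' X) (h' : S.IsIn c c' Y) : X = Y :=
  eq_of_bd_eq hc h.sub h'.sub ⟨c, h.mem_left⟩ (h.bd.trans h'.bd.symm)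

/-- the triangle below `c` -/
theorem g_left_iff (hl : S.Linear) (hr : S.Loopless) (h : S.IsIn c c' X) {d : Sd I}
    (hd : S.Eqv c d) (hg : S.g d ≠ d) :
    (S.g d).1 ∈ X ↔ S.ps c + 1 ≤ S.ps d ∧ S.ps d ≤ S.ps c' := by
  have h1 : (S.cw d).1 = (S.g d).1 := cw_fst hg
  have h2 := ps_of_glued hl hg
  rw [← h1, h.mem_iff hl hr (hd.trans (S.cw_eqv d))]
  omega

end IsIn

/-- existence of `IsIn` from the boundary edges -/
theorem exists_isIn (hl : S.Linear) (hr : S.Loopless) {c c' : Sd I} {X : Finset I}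
    (hX : X ⊆ S.F) (gl : S.g c ≠ c) (gl' : S.g c' ≠ c') (he : S.Eqv c c')
    (hlt : S.ps c < S.ps c')
    (h : ∀ a, (a ∈ S.bd X ∨ S.g a ∈ S.bd X) ↔ (a = c ∨ a = S.g c ∨ a = c' ∨ a = S.g c')) :
    ∃ Y, (Y = X ∨ Y = S.F \ X) ∧ S.IsIn c c' Y := by
  have main : ∀ Y ⊆ S.F, c ∈ S.bd Y →
      (∀ a, (a ∈ S.bd Y ∨ S.g a ∈ S.bd Y) ↔ (a = c ∨ a = S.g c ∨ a = c' ∨ a = S.g c')) →
      S.IsIn c c' Y := by
    intro Y hY hcY hh
    have hcF := S.memF _ gl
    have hcF' := S.memF _ gl'
    have l1 : ¬ S.Eqv c (S.g c) := fun h3 => hr c hcF (h3.trans (Eqv.of_glued' gl).symm)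
    have l2 : ¬ S.Eqv c' (S.g c') := fun h3 => hr c' hcF' (h3.trans (Eqv.of_glued' gl').symm)
    have hc1 : c.1 ∈ Y := (mem_bd.1 hcY).2.1
    have hc' : c' ∉ S.bd Y := by
      intro h1
      have h2 : (S.g c').1 ∉ Y := (mem_bd.1 h1).2.2
      have h3 := ps_of_glued hl gl'
      obtain ⟨e, e1, e2, e3, e4, e5, -⟩ := exists_cross hl (a := c) (b := S.cw c')
        (he.trans (S.cw_eqv c')) (by omega) (X := Y)
        (by rw [cw_fst gl']; exact fun hh => h2 (hh.1 hc1))
      have h4 := (hh e).1 (mem_bd_or e2 e5)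
      rcases h4 with rfl | h4 | rfl | h4
      · omega
      · rw [h4] at e1; exact l1 e1
      · omega
      · rw [h4] at e1; exact l2 (he.symm.trans e1)
    have hgc' : S.g c' ∈ S.bd Y := by
      have := (hh c').2 (by simp)
      rcases this with h1 | h1
      · exact absurd h1 hc'
      · exact h1
    refine ⟨gl, gl', he, hlt, hY, ?_⟩
    ext a
    rw [mem_insert, mem_singleton]
    constructor
    · intro ha
      rcases (hh a).1 (Or.inl ha) with h1 | h1 | h1 | h1
      · exact Or.inl h1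
      · exfalso
        have h2 := (mem_bd.1 ha).2.2
        rw [h1, S.invol] at h2
        exact h2 hc1
      · exact absurd (h1 ▸ ha) hc'
      · exact Or.inr h1
    · rintro (rfl | rfl)
      · exact hcY
      · exact hgc'
  have hc0 := (h c).2 (by simp)
  rcases hc0 with h1 | h1
  · exact ⟨X, Or.inl rfl, main X hX h1 h⟩
  · refine ⟨S.F \ X, Or.inr rfl, main _ sdiff_subset ((mem_bd_compl' hX).2 h1) fun a => ?_⟩
    rw [mem_bd_compl' hX, mem_bd_compl' hX, S.invol, ← h a]
    exact or_comm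

/-- L4, nesting -/
theorem IsIn.subset (hc : S.Conn) (hl : S.Linear) (hr : S.Loopless) {c c' d d' : Sd I}
    {X Y : Finset I} (h : S.IsIn c c' X) (h' : S.IsIn d d' Y) (he : S.Eqv c d)
    (h1 : S.ps c ≤ S.ps d) (h2 : S.ps d' ≤ S.ps c') : Y ⊆ X := by
  refine sub_of_bd hc h'.sub h.nonempty h.sub (fun a ha => ?_) (fun a ha => ?_)
  · rw [h.bd, mem_insert, mem_singleton] at ha
    rcases ha with rfl | rfl
    · rw [h'.g_left_iff hl hr he.symm h.gl]
      omega
    · rw [S.invol, h'.mem_iff hl hr (he.symm.trans h.eqv)]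
      omega
  · rw [h'.bd, mem_insert, mem_singleton] at ha
    have := h'.lt
    rcases ha with rfl | rfl
    · rw [h.mem_iff hl hr he]
      omega
    · rw [h.g_left_iff hl hr (he.trans h'.eqv) h'.gl']
      omega

/-- L4, disjointness -/
theorem IsIn.disjoint (hc : S.Conn) (hl : S.Linear) (hr : S.Loopless) {c c' d d' : Sd I}
    {X Y : Finset I} (h : S.IsIn c c' X) (h' : S.IsIn d d' Y) (he : S.Eqv c d)
    (h1 : S.ps c' ≤ S.ps d) : Disjoint X Y := by
  have hlt := h.lt
  have hlt' := h'.lt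
  refine disjoint_of_bd hc h.sub h.ne_F (fun a ha => ?_) (fun a ha => ?_)
  · rw [h.bd, mem_insert, mem_singleton] at ha
    rcases ha with rfl | rfl
    · rw [h'.mem_iff hl hr he.symm]
      omega
    · rw [h'.g_left_iff hl hr (he.symm.trans h.eqv) h.gl']
      omega
  · rw [h'.bd, mem_insert, mem_singleton] at ha
    rcases ha with rfl | rfl
    · rw [h.mem_iff hl hr he]
      omega
    · rw [h.g_left_iff hl hr (he.trans h'.eqv) h'.gl']
      omega

/-! ### geometric objects -/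

/-- a directed segment is a side of at most one triangle -/
theorem Geo.eq_of_pts {pt : Sd I → Pt} (hG : S.Geo pt) {a b : Sd I} (ha : a.1 ∈ S.F)
    (hb : b.1 ∈ S.F) (h1 : pt a = pt b) (h2 : pt (rot a) = pt (rot b)) : a = b :=
  hG.side_inj ha hb h1 h2

theorem Geo.pt_of_eqv {pt : Sd I → Pt} (hG : S.Geo pt) {a b : Sd I} (h : S.Eqv a b) :
    pt a = pt b := by
  induction h with
  | rel x y hxy => rcases hxy with ⟨h1, rfl⟩; exact (hG.mat x h1).symm
  | refl x => rfl
  | symm x y _ ih => exact ih.symm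
  | trans x y z _ _ ih1 ih2 => exact ih1.trans ih2

/-- geometric objects have no loops -/
theorem Geo.loopless {pt : Sd I → Pt} (hG : S.Geo pt) : S.Loopless := by
  intro a ha he
  have h1 := Geo.pt_of_eqv hG he
  have hccw : Ccw (pt a) (pt (rot a)) (pt (unrot a)) := hG.ccw ha
  exact hccw.ne h1

/-- L3: two sides with the same visits at both ends (in the same direction) are equal -/
theorem Geo.eq_of_eqv {pt : Sd I → Pt} (hG : S.Geo pt) {a b : Sd I} (ha : a.1 ∈ S.F)
    (hb : b.1 ∈ S.F) (h1 : S.Eqv a b) (h2 : S.Eqv (rot a) (rot b)) : a = b :=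
  Geo.eq_of_pts hG ha hb (Geo.pt_of_eqv hG h1) (Geo.pt_of_eqv hG h2)

/-- L3 for edges: two glued sides which join the same two points are the same edge -/
theorem Geo.eq_or_of_pts {pt : Sd I → Pt} (hG : S.Geo pt) {a b : Sd I} (ha : a.1 ∈ S.F)
    (hb : S.g b ≠ b) (h1 : (pt a = pt b ∧ pt (rot a) = pt (rot b)) ∨
      (pt a = pt (rot b) ∧ pt (rot a) = pt b)) : a = b ∨ a = S.g b := by
  rcases h1 with ⟨h1, h2⟩ | ⟨h1, h2⟩
  · exact Or.inl (Geo.eq_of_pts hG ha (S.memF _ hb) h1 h2)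
  · right
    refine Geo.eq_of_pts hG ha (g_memF hb) ?_ ?_
    · rw [h1]; exact Geo.pt_of_eqv hG (Eqv.of_glued' hb)
    · rw [h2]; exact Geo.pt_of_eqv hG (Eqv.of_glued hb)

end Obj

end AG
end

/- AG.Reg.Defs -/
section
/-!
# Project AG, block 6: definitions (pairs, regions, the sets which are counted)

Positions are those of Fan.lean: `S.ps a` = number of clockwise steps from the corner `a` to the
end of its fan; the glued sides at a visit are the glued corners `a` of the visit, the side `a` lies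
between the positions `ps a - 1` and `ps a`.

`p = (w, w')` : a PAIR of blades at one visit, `w` is the one with the LOWER position
(clockwise), `w'` the one with the HIGHER position.
-/

namespace AG

open Finset

variable {I : Type} [DecidableEq I]

namespace Obj

/-- virtual blade at the corner `w` -/
def Vir (S : Obj I) (pt : Sd I → Pt) (w : Sd I) : Prop := S.VirtA pt w ∨ S.VirtB pt w

/-- all facts of sections 1-5 which are used in section 6 -/
structure Base (S : Obj I) (pt : Sd I → Pt) : Prop where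
  conn : S.Conn
  bl : S.Bridgeless
  lin : S.Linear
  two : 2 ≤ S.F.card
  /-- L3: a glued side is determined by the visits of its two ends -/
  seg : ∀ a b : Sd I, S.g a ≠ a → S.g b ≠ b → S.Eqv a b → S.Eqv (rot a) (rot b) → a = b
  /-- the corners of one triangle lie in different visits -/
  tri : ∀ a b : Sd I, a.1 ∈ S.F → b.1 = a.1 → S.Eqv a b → a = b
  /-- pair rule -/
  pr : ∀ c1 c2 d1 d2 : Sd I, S.BladeAt pt c1 → S.BladeAt pt c2 → S.Eqv c1 c2 → c1 ≠ c2 →
    S.Stub pt c1 d1 → S.Stub pt c2 d2 → d1 ≠ d2 ∧ d1 ≠ S.g d2 ∧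
      ∃ X ⊆ S.F, ∃ e1 e2, (e1 = d1 ∨ e1 = S.g d1) ∧ (e2 = d2 ∨ e2 = S.g d2) ∧ S.bd X = {e1, e2}
  adj : ∀ c1 c2 : Sd I, S.BladeAt pt c1 → S.BladeAt pt c2 → S.Step c1 c2 →
    S.VirtB pt c1 ∧ S.VirtA pt c2
  one : ∀ w w' : Sd I, S.BladeAt pt w → S.BladeAt pt w' → w.1 = w'.1 → w = w'
  /-- at an ear end there is no blade -/
  earEnd : ∀ p w : Sd I, S.EarEnd p → S.BladeAt pt w → ¬ S.Eqv p w
  /-- no visit is the start of an ear and the end of an ear -/
  ear_se : ∀ a ∈ S.E, ∀ b ∈ S.E, ¬ S.Eqv a (rot b)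

open Classical in
/-- the lower stub corner of the blade at `w` (`f_lo` of the text), position `ps w` or `ps w + 1` -/
noncomputable def lo (S : Obj I) (pt : Sd I → Pt) (w : Sd I) : Sd I :=
  if S.VirtB pt w then S.ccw w else w

open Classical in
/-- the higher stub corner of the blade at `w` (`f_hi` of the text) -/
noncomputable def hi (S : Obj I) (pt : Sd I → Pt) (w : Sd I) : Sd I :=
  if S.VirtA pt w then w else S.ccw w

open Classical in
/-- the corner at `x` of the triangle `w.1` of a virtual blade -/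
noncomputable def xc (S : Obj I) (pt : Sd I → Pt) (w : Sd I) : Sd I :=
  if S.VirtA pt w then rot w else unrot w

open Classical in
/-- the corner at `x` of the triangle `t` of a virtual blade -/
noncomputable def tc (S : Obj I) (pt : Sd I → Pt) (w : Sd I) : Sd I :=
  if S.VirtA pt w then rot (S.g (rot w)) else S.g (rot w)

open Classical in
/-- the set `In_v(c,c')` of the text (see `IsIn`) -/
noncomputable def InS (S : Obj I) (c c' : Sd I) : Finset I :=
  if h : ∃ X, IsIn S c c' X then h.choose else ∅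

/-- pair of blades at one visit, `w` has the lower position -/
structure Pr (S : Obj I) (pt : Sd I → Pt) (w w' : Sd I) : Prop where
  b : S.BladeAt pt w
  b' : S.BladeAt pt w'
  eqv : S.Eqv w w'
  lt : S.ps w < S.ps w'

/-- `A_p` of the text -/
noncomputable def pA (S : Obj I) (pt : Sd I → Pt) (w w' : Sd I) : Finset I :=
  S.InS (S.hi pt w) (S.lo pt w')

/-- complement of `B_p` -/
noncomputable def pO (S : Obj I) (pt : Sd I → Pt) (w w' : Sd I) : Finset I :=
  S.InS (S.lo pt w) (S.hi pt w')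

/-- `B_p` of the text -/
noncomputable def pB (S : Obj I) (pt : Sd I → Pt) (w w' : Sd I) : Finset I :=
  S.F \ S.pO pt w w'

/-- the pair is trivial: `A_p` is one eared triangle -/
def Triv (S : Obj I) (pt : Sd I → Pt) (w w' : Sd I) : Prop :=
  ∃ c, S.Eared c ∧ S.pA pt w w' = {c.1}

/-- consecutive pair -/
structure Cons (S : Obj I) (pt : Sd I → Pt) (w w' : Sd I) : Prop extends S.Pr pt w w' where
  no : ∀ u, S.BladeAt pt u → S.Eqv w u → S.ps w < S.ps u → S.ps u < S.ps w' → False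

/-- the chosen nontrivial pair with minimal `B` -/
structure OpenMin (S : Obj I) (pt : Sd I → Pt) (R : Set Pt) (w0 w0' : Sd I) : Prop where
  cex : Cex S pt R
  pr : S.Pr pt w0 w0'
  nt : ¬ S.Triv pt w0 w0'
  min : ∀ (S' : Obj I) (pt' : Sd I → Pt) (u u' : Sd I), Cex S' pt' R →
    S'.glued.card = S.glued.card → S'.Pr pt' u u' → ¬ S'.Triv pt' u u' →
    (S.pB pt w0 w0').card ≤ (S'.pB pt' u u').card

/-- closed case: all pairs are trivial -/
structure ClosedMin (S : Obj I) (pt : Sd I → Pt) (R : Set Pt) : Prop where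
  cex : Cex S pt R
  triv : ∀ u u', S.Pr pt u u' → S.Triv pt u u'

/-- the eared triangle with apex corner `c` is enclosed -/
def Enc (S : Obj I) (pt : Sd I → Pt) (c : Sd I) : Prop :=
  S.Eared c ∧ S.BladeAt pt (S.cw c) ∧ S.BladeAt pt (S.ccw c)

/-- the visit `z` meets `K` -/
def Meets (S : Obj I) (K : Finset I) (z : Sd I) : Prop := ∃ c : Sd I, S.Eqv c z ∧ c.1 ∈ K

/-- no blade at the visit `z` -/
def NoB (S : Obj I) (pt : Sd I → Pt) (z : Sd I) : Prop := ∀ w, S.BladeAt pt w → ¬ S.Eqv w z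

/-- `z` is the `x` of a b-like side of `A_p`, `p = (w, w')` -/
def BL (S : Obj I) (pt : Sd I → Pt) (w w' : Sd I) (z : Sd I) : Prop :=
  (S.VirtA pt w ∧ S.Eqv (S.xc pt w) z) ∨ (S.VirtB pt w' ∧ S.Eqv (S.xc pt w') z)

section sets

variable (S : Obj I) (pt : Sd I → Pt) (K : Finset I) (V : Sd I → Prop)

open Classical in
/-- all consecutive pairs with both triangles in `K`, not at the visit `V` -/
noncomputable def CP : Finset (Sd I × Sd I) :=
  (S.sides ×ˢ S.sides).filter (fun p => S.Cons pt p.1 p.2 ∧ p.1.1 ∈ K ∧ p.2.1 ∈ K ∧ ¬ V p.1)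

open Classical in
/-- the nontrivial ones -/
noncomputable def PIn : Finset (Sd I × Sd I) :=
  (S.CP pt K V).filter (fun p => ¬ S.Triv pt p.1 p.2)

open Classical in
/-- blades with triangle in `K`, not at the visit `V` -/
noncomputable def BlK : Finset (Sd I) :=
  S.sides.filter (fun w => S.BladeAt pt w ∧ w.1 ∈ K ∧ ¬ V w)

open Classical in
/-- virtual blades with triangle in `K`, not at the visit `V` -/
noncomputable def CandK : Finset (Sd I) :=
  S.sides.filter (fun w => S.Vir pt w ∧ w.1 ∈ K ∧ ¬ V w)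

open Classical in
/-- real blades in `K` -/
noncomputable def RealK : Finset (Sd I) :=
  S.sides.filter (fun c => S.Blade c ∧ c.1 ∈ K)

open Classical in
/-- eared triangles in `K` (apex corners) -/
noncomputable def EarsK : Finset (Sd I) :=
  S.sides.filter (fun c => S.Eared c ∧ c.1 ∈ K)

open Classical in
/-- not enclosed eared triangles in `K` (apex corners) -/
noncomputable def EarK : Finset (Sd I) :=
  S.sides.filter (fun c => S.Eared c ∧ c.1 ∈ K ∧ ¬ S.Enc pt c)

open Classical in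
/-- visits (names) different from `V` which meet `K` -/
noncomputable def WK : Finset (Sd I) :=
  S.vis.filter (fun z => ¬ V z ∧ S.Meets K z)

open Classical in
/-- visits different from `V` which meet `K`, with no blade triangle in `K` -/
noncomputable def Zr : Finset (Sd I) :=
  S.vis.filter (fun z => ¬ V z ∧ S.Meets K z ∧ ∀ w, S.BladeAt pt w → w.1 ∈ K → ¬ S.Eqv w z)

open Classical in
/-- torso: `K` without the sets `A_p`, `p` nontrivial consecutive pair in `K` -/
noncomputable def tau : Finset I :=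
  K.filter (fun t => ∀ p ∈ S.PIn pt K V, t ∉ S.pA pt p.1 p.2)

end sets

/-- a region `K` with a distinguished visit `V` (`ε = 1`: one-copy, `ε = 0`: open or closed) -/
structure Shape (S : Obj I) (K : Finset I) (V : Sd I → Prop) (ε : ℕ) : Prop where
  sub : K ⊆ S.F
  Vinv : ∀ a b, S.Eqv a b → V a → V b
  cnt : (S.WK K V).card = (S.vis.filter (fun a => a.1 ∈ K)).card + ε
  conv : ∀ a b c, S.Eqv a b → S.Eqv b c → ¬ V a → S.ps a ≤ S.ps b → S.ps b ≤ S.ps c →
    a.1 ∈ K → c.1 ∈ K → b.1 ∈ K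
  noReal : ∀ c, S.Blade c → c.1 ∈ K → ¬ V c

/-- `z` is the `x` of a virtual blade at the visit of `v` with triangle in `K` -/
def BLg (S : Obj I) (pt : Sd I → Pt) (K : Finset I) (v z : Sd I) : Prop :=
  ∃ w, S.Vir pt w ∧ S.Eqv w v ∧ w.1 ∈ K ∧ S.Eqv (S.xc pt w) z

/-- `z` is an end of the ear of the eared triangle with apex corner `c` -/
def EndOf (S : Obj I) (c z : Sd I) : Prop := S.Eqv (rot c) z ∨ S.Eqv (unrot c) z

end Obj

end AG
end

/- AG.Reg.Blade -/
section
/-!
# Project AG, block 6: first facts on blades, stubs, pairs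
-/

set_option linter.unusedSectionVars false
set_option linter.unusedSimpArgs false
set_option linter.unusedVariables false

namespace AG

open Finset

variable {I : Type} [DecidableEq I]

namespace Obj

variable {S : Obj I} {pt : Sd I → Pt} {a b c d w w' u z : Sd I}

/-! ### kinds of blades -/

theorem VirtA.blade (h : S.VirtA pt w) : S.Blade (S.g (rot w)) := h.1

theorem VirtB.blade (h : S.VirtB pt w) : S.Blade (rot (S.g (rot w))) := h.1

theorem VirtA.glued_rot (h : S.VirtA pt w) : S.g (rot w) ≠ rot w := by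
  have h1 := h.2.1.1
  rwa [S.invol, ne_comm] at h1

theorem VirtB.glued_rot (h : S.VirtB pt w) : S.g (rot w) ≠ rot w := by
  have h1 := h.2.1.1
  rwa [S.invol, ne_comm] at h1

theorem Vir.face (h : S.Vir pt w) : S.Face w.1 := h.elim (fun h => h.face) (fun h => h.face)

theorem Vir.bladeAt (h : S.Vir pt w) : S.BladeAt pt w := h.elim (fun h => Or.inr (Or.inl h))
  (fun h => Or.inr (Or.inr h))

theorem Blade.bladeAt (h : S.Blade w) : S.BladeAt pt w := Or.inl h

theorem VirtA.not_B (h : S.VirtA pt w) : ¬ S.VirtB pt w := fun h' => h'.blade.1 h.blade.2.2.1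

theorem VirtB.not_A (h : S.VirtB pt w) : ¬ S.VirtA pt w := fun h' => h'.not_B h

theorem Blade.not_vir (h : S.Blade w) : ¬ S.Vir pt w := fun h' => h.not_face h'.face

theorem Blade.not_A (h : S.Blade w) : ¬ S.VirtA pt w := fun h' => h.not_vir (Or.inl h')

theorem Blade.not_B (h : S.Blade w) : ¬ S.VirtB pt w := fun h' => h.not_vir (Or.inr h')

theorem BladeAt.not_eared (h : S.BladeAt pt w) (h' : S.Eared c) : w.1 ≠ c.1 := by
  intro e
  rcases h with h | h | h
  · exact h.not_eared h' e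
  · exact h'.not_face (e ▸ h.face)
  · exact h'.not_face (e ▸ h.face)

theorem BladeAt.real_or_vir (h : S.BladeAt pt w) : S.Blade w ∨ S.Vir pt w := h

/-! ### stub corners -/

theorem lo_of_B (h : S.VirtB pt w) : S.lo pt w = S.ccw w := if_pos h
theorem lo_of_not_B (h : ¬ S.VirtB pt w) : S.lo pt w = w := if_neg h
theorem hi_of_A (h : S.VirtA pt w) : S.hi pt w = w := if_pos h
theorem hi_of_not_A (h : ¬ S.VirtA pt w) : S.hi pt w = S.ccw w := if_neg h
theorem xc_of_A (h : S.VirtA pt w) : S.xc pt w = rot w := if_pos h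
theorem xc_of_not_A (h : ¬ S.VirtA pt w) : S.xc pt w = unrot w := if_neg h
theorem tc_of_A (h : S.VirtA pt w) : S.tc pt w = rot (S.g (rot w)) := if_pos h
theorem tc_of_not_A (h : ¬ S.VirtA pt w) : S.tc pt w = S.g (rot w) := if_neg h

theorem xc_fst : (S.xc pt w).1 = w.1 := by unfold xc; split_ifs <;> rfl

theorem BladeAt.eqv_lo (h : S.BladeAt pt w) : S.Eqv w (S.lo pt w) := by
  unfold lo; split_ifs
  · exact ccw_eqv h.glued'
  · exact Eqv.refl _ _

theorem BladeAt.eqv_hi (h : S.BladeAt pt w) : S.Eqv w (S.hi pt w) := by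
  unfold hi; split_ifs
  · exact Eqv.refl _ _
  · exact ccw_eqv h.glued'

theorem BladeAt.glued_lo (h : S.BladeAt pt w) : S.g (S.lo pt w) ≠ S.lo pt w := by
  unfold lo; split_ifs
  · exact ccw_glued h.glued'
  · exact h.glued

theorem BladeAt.glued_hi (h : S.BladeAt pt w) : S.g (S.hi pt w) ≠ S.hi pt w := by
  unfold hi; split_ifs
  · exact h.glued
  · exact ccw_glued h.glued'

theorem BladeAt.ps_lo (hl : S.Linear) (h : S.BladeAt pt w) :
    S.ps w ≤ S.ps (S.lo pt w) ∧ S.ps (S.lo pt w) ≤ S.ps w + 1 := by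
  unfold lo; split_ifs
  · rw [ps_ccw hl h.glued']; omega
  · omega

theorem BladeAt.ps_hi (hl : S.Linear) (h : S.BladeAt pt w) :
    S.ps w ≤ S.ps (S.hi pt w) ∧ S.ps (S.hi pt w) ≤ S.ps w + 1 := by
  unfold hi; split_ifs
  · omega
  · rw [ps_ccw hl h.glued']; omega

theorem BladeAt.ps_lo_le_hi (hl : S.Linear) (h : S.BladeAt pt w) :
    S.ps (S.lo pt w) ≤ S.ps (S.hi pt w) := by
  by_cases hA : S.VirtA pt w
  · rw [hi_of_A hA, lo_of_not_B hA.not_B]
  · rw [hi_of_not_A hA, ps_ccw hl h.glued']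
    exact (h.ps_lo hl).2

theorem BladeAt.ps_lo_eq (hl : S.Linear) (h : S.BladeAt pt w) :
    (S.VirtB pt w ∧ S.ps (S.lo pt w) = S.ps w + 1) ∨
      (¬ S.VirtB pt w ∧ S.ps (S.lo pt w) = S.ps w) := by
  by_cases hB : S.VirtB pt w
  · left; rw [lo_of_B hB, ps_ccw hl h.glued']; exact ⟨hB, rfl⟩
  · right; rw [lo_of_not_B hB]; exact ⟨hB, rfl⟩

theorem BladeAt.ps_hi_eq (hl : S.Linear) (h : S.BladeAt pt w) :
    (S.VirtA pt w ∧ S.ps (S.hi pt w) = S.ps w) ∨
      (¬ S.VirtA pt w ∧ S.ps (S.hi pt w) = S.ps w + 1) := by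
  by_cases hA : S.VirtA pt w
  · left; rw [hi_of_A hA]; exact ⟨hA, rfl⟩
  · right; rw [hi_of_not_A hA, ps_ccw hl h.glued']; exact ⟨hA, rfl⟩

/-- `lo w` or its partner is a stub of the blade -/
theorem BladeAt.stub_lo (h : S.BladeAt pt w) :
    S.Stub pt w (S.lo pt w) ∨ S.Stub pt w (S.g (S.lo pt w)) := by
  by_cases hB : S.VirtB pt w
  · right; rw [lo_of_B hB, g_ccw h.glued']; exact Or.inr (Or.inr ⟨hB, rfl⟩)
  · left; rw [lo_of_not_B hB]
    rcases h with h | h | h
    · exact Or.inl ⟨h, Or.inl rfl⟩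
    · exact Or.inr (Or.inl ⟨h, rfl⟩)
    · exact absurd h hB

theorem BladeAt.stub_hi (h : S.BladeAt pt w) :
    S.Stub pt w (S.hi pt w) ∨ S.Stub pt w (S.g (S.hi pt w)) := by
  by_cases hA : S.VirtA pt w
  · left; rw [hi_of_A hA]; exact Or.inr (Or.inl ⟨hA, rfl⟩)
  · right; rw [hi_of_not_A hA, g_ccw h.glued']
    rcases h with h | h | h
    · exact Or.inl ⟨h, Or.inr rfl⟩
    · exact absurd h hA
    · exact Or.inr (Or.inr ⟨h, rfl⟩)

/-- the triangle of the blade at `w` is one of the two triangles at its stubs -/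
theorem BladeAt.tri_lo (h : S.BladeAt pt w) :
    (S.lo pt w).1 = w.1 ∨ (S.g (S.lo pt w)).1 = w.1 := by
  unfold lo; split_ifs
  · right; rw [g_ccw h.glued']; rfl
  · left; rfl

theorem BladeAt.tri_hi (h : S.BladeAt pt w) :
    (S.hi pt w).1 = w.1 ∨ (S.g (S.hi pt w)).1 = w.1 := by
  unfold hi; split_ifs
  · left; rfl
  · right; rw [g_ccw h.glued']; rfl

/-! ### types of triangles -/

theorem Base.loopless (hB : Base S pt) : S.Loopless := fun a ha h =>
  rot_ne a (hB.tri a (rot a) ha rfl h).symm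

/-- each triangle has at least two glued sides -/
theorem Base.two_glued (hB : Base S pt) {c : Sd I} (hc : c.1 ∈ S.F) (h : S.g c = c) :
    S.g (rot c) ≠ rot c ∧ S.g (unrot c) ≠ unrot c := by
  have hsub : ({c.1} : Finset I) ⊆ S.F := singleton_subset_iff.2 hc
  have hne : ({c.1} : Finset I) ≠ S.F := by
    intro e
    have := hB.two
    rw [← e, card_singleton] at this
    omega
  have h2 := hB.bl.two_le' hB.conn hsub (singleton_nonempty _) hne
  have key : ∀ x y : Sd I, S.g x = x → (∀ d : Sd I, d.1 = c.1 → d = c ∨ d = x ∨ d = y) → False := by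
    intro x y hx hall
    have h3 : S.bd {c.1} ⊆ {y} := by
      intro d hd
      rw [mem_bd, mem_singleton] at hd
      rcases hall d hd.2.1 with h4 | h4 | h4
      · rw [h4] at hd; exact absurd h hd.1
      · rw [h4] at hd; exact absurd hx hd.1
      · exact mem_singleton.2 h4
    have := card_le_card h3
    rw [card_singleton] at this
    omega
  constructor
  · intro h1
    refine key (rot c) (unrot c) h1 (fun d hd => eq_of_fst_eq hd)
  · intro h1
    refine key (unrot c) (rot c) h1 (fun d hd => ?_)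
    rcases eq_of_fst_eq hd with h3 | h3 | h3
    · exact Or.inl h3
    · exact Or.inr (Or.inr h3)
    · exact Or.inr (Or.inl h3)

/-- an unglued side is the base of a real blade or an ear -/
theorem Base.of_unglued (hB : Base S pt) {c : Sd I} (hc : c.1 ∈ S.F) (h : S.g c = c) :
    (c ∉ S.E ∧ S.Blade (unrot c)) ∨ (c ∈ S.E ∧ S.Eared (unrot c)) := by
  obtain ⟨h1, h2⟩ := hB.two_glued hc h
  have e1 : unrot (unrot c) = rot c := unrot_unrot c
  have e2 : rot (unrot c) = c := rot_unrot c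
  by_cases hE : c ∈ S.E
  · right
    refine ⟨hE, h2, ?_, ?_⟩
    · rw [e1]; exact h1
    · rw [e2]; exact hE
  · left
    refine ⟨hE, h2, ?_, ?_, ?_⟩
    · rw [e1]; exact h1
    · rw [e2]; exact h
    · rw [e2]; exact hE

theorem Base.types (hB : Base S pt) {t : I} (ht : t ∈ S.F) :
    S.Face t ∨ ∃ c : Sd I, c.1 = t ∧ (S.Blade c ∨ S.Eared c) := by
  by_cases h : ∀ i, S.g (t, i) ≠ (t, i)
  · exact Or.inl ⟨ht, h⟩
  · push Not at h
    obtain ⟨i, hi⟩ := h
    right
    rcases hB.of_unglued (c := (t, i)) ht hi with h1 | h1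
    · exact ⟨unrot (t, i), rfl, Or.inl h1.2⟩
    · exact ⟨unrot (t, i), rfl, Or.inr h1.2⟩

/-! ### pairs -/

/-- INT -/
theorem Base.int (hB : Base S pt) (h : S.Pr pt w w') : S.ps (S.hi pt w) < S.ps (S.lo pt w') := by
  have h1 := h.b.ps_hi hB.lin
  have h2 := h.b'.ps_lo hB.lin
  have h3 := h.lt
  rcases Nat.lt_or_ge (S.ps (S.hi pt w)) (S.ps (S.lo pt w')) with h4 | h4
  · exact h4
  · exfalso
    have h5 : S.hi pt w = S.lo pt w' :=
      ps_inj hB.lin ((h.b.eqv_hi.symm.trans h.eqv).trans h.b'.eqv_lo) (by omega)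
    have hne : w ≠ w' := by rintro rfl; exact absurd h.lt (lt_irrefl _)
    rcases h.b.stub_hi with h6 | h6 <;> rcases h.b'.stub_lo with h7 | h7
    · exact (hB.pr _ _ _ _ h.b h.b' h.eqv hne h6 h7).1 h5
    · exact (hB.pr _ _ _ _ h.b h.b' h.eqv hne h6 h7).2.1 (by rw [S.invol]; exact h5)
    · exact (hB.pr _ _ _ _ h.b h.b' h.eqv hne h6 h7).2.1 (by rw [h5])
    · exact (hB.pr _ _ _ _ h.b h.b' h.eqv hne h6 h7).1 (by rw [h5])

/-- PR: existence of the sets `In` -/
theorem Base.exists_isIn (hB : Base S pt) (h : S.Pr pt w w') {c c' : Sd I}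
    (hc : c = S.lo pt w ∨ c = S.hi pt w) (hc' : c' = S.lo pt w' ∨ c' = S.hi pt w') :
    ∃ X, S.IsIn c c' X := by
  have hne : w ≠ w' := by rintro rfl; exact absurd h.lt (lt_irrefl _)
  have hint := hB.int h
  have l1 := h.b.ps_lo_le_hi hB.lin
  have l2 := h.b'.ps_lo_le_hi hB.lin
  have hg : S.g c ≠ c := by
    rcases hc with rfl | rfl
    · exact h.b.glued_lo
    · exact h.b.glued_hi
  have hg' : S.g c' ≠ c' := by
    rcases hc' with rfl | rfl
    · exact h.b'.glued_lo
    · exact h.b'.glued_hi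
  have he : S.Eqv c c' := by
    have h1 : S.Eqv w c := by
      rcases hc with rfl | rfl
      · exact h.b.eqv_lo
      · exact h.b.eqv_hi
    have h2 : S.Eqv w' c' := by
      rcases hc' with rfl | rfl
      · exact h.b'.eqv_lo
      · exact h.b'.eqv_hi
    exact (h1.symm.trans h.eqv).trans h2
  have hlt : S.ps c < S.ps c' := by
    rcases hc with rfl | rfl <;> rcases hc' with rfl | rfl <;> omega
  have s1 : S.Stub pt w c ∨ S.Stub pt w (S.g c) := by
    rcases hc with rfl | rfl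
    · exact h.b.stub_lo
    · exact h.b.stub_hi
  have s2 : S.Stub pt w' c' ∨ S.Stub pt w' (S.g c') := by
    rcases hc' with rfl | rfl
    · exact h.b'.stub_lo
    · exact h.b'.stub_hi
  -- the cut
  obtain ⟨X, hX, e1, e2, h1, h2, hbd⟩ : ∃ X ⊆ S.F, ∃ e1 e2, (e1 = c ∨ e1 = S.g c) ∧
      (e2 = c' ∨ e2 = S.g c') ∧ S.bd X = {e1, e2} := by
    rcases s1 with h6 | h6 <;> rcases s2 with h7 | h7
    · exact (hB.pr _ _ _ _ h.b h.b' h.eqv hne h6 h7).2.2
    · obtain ⟨X, hX, e1, e2, h1, h2, h3⟩ := (hB.pr _ _ _ _ h.b h.b' h.eqv hne h6 h7).2.2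
      rw [S.invol] at h2
      exact ⟨X, hX, e1, e2, h1, h2.symm, h3⟩
    · obtain ⟨X, hX, e1, e2, h1, h2, h3⟩ := (hB.pr _ _ _ _ h.b h.b' h.eqv hne h6 h7).2.2
      rw [S.invol] at h1
      exact ⟨X, hX, e1, e2, h1.symm, h2, h3⟩
    · obtain ⟨X, hX, e1, e2, h1, h2, h3⟩ := (hB.pr _ _ _ _ h.b h.b' h.eqv hne h6 h7).2.2
      rw [S.invol] at h1 h2
      exact ⟨X, hX, e1, e2, h1.symm, h2.symm, h3⟩
  obtain ⟨Y, _, hY⟩ := AG.Obj.exists_isIn hB.lin hB.loopless hX hg hg' he hlt (fun a => by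
    rw [hbd]
    simp only [mem_insert, mem_singleton]
    have inv : ∀ x y : Sd I, S.g x = y ↔ x = S.g y := fun x y =>
      ⟨fun e => by rw [← e, S.invol], fun e => by rw [e, S.invol]⟩
    rcases h1 with rfl | rfl <;> rcases h2 with rfl | rfl <;>
      simp only [inv, S.invol] <;> tauto)
  exact ⟨Y, hY⟩

theorem Base.isIn_InS (hB : Base S pt) (h : ∃ X, S.IsIn c d X) : S.IsIn c d (S.InS c d) := by
  unfold InS; rw [dif_pos h]; exact h.choose_spec

theorem Base.isIn_pA (hB : Base S pt) (h : S.Pr pt w w') :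
    S.IsIn (S.hi pt w) (S.lo pt w') (S.pA pt w w') :=
  hB.isIn_InS (hB.exists_isIn h (Or.inr rfl) (Or.inl rfl))

theorem Base.isIn_pO (hB : Base S pt) (h : S.Pr pt w w') :
    S.IsIn (S.lo pt w) (S.hi pt w') (S.pO pt w w') :=
  hB.isIn_InS (hB.exists_isIn h (Or.inl rfl) (Or.inr rfl))

/-- blade triangle of the lower blade in `A_p` iff b-like -/
theorem Base.mem_pA_left (hB : Base S pt) (h : S.Pr pt w w') :
    w.1 ∈ S.pA pt w w' ↔ S.VirtA pt w := by
  have h1 := hB.isIn_pA h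
  have h2 := h.b.ps_hi_eq hB.lin
  have h3 := hB.int h
  have h4 := h.b.ps_hi hB.lin
  rw [h1.mem_iff hB.lin hB.loopless h.b.eqv_hi.symm]
  constructor
  · rintro ⟨h5, h6⟩
    rcases h2 with h2 | h2
    · exact h2.1
    · omega
  · intro hA
    rcases h2 with h2 | h2
    · omega
    · exact absurd hA h2.1

theorem Base.mem_pA_right (hB : Base S pt) (h : S.Pr pt w w') :
    w'.1 ∈ S.pA pt w w' ↔ S.VirtB pt w' := by
  have h1 := hB.isIn_pA h
  have h2 := h.b'.ps_lo_eq hB.lin
  have h3 := hB.int h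
  have h4 := h.b'.ps_lo hB.lin
  rw [h1.mem_iff hB.lin hB.loopless (h.b.eqv_hi.symm.trans h.eqv)]
  constructor
  · rintro ⟨h5, h6⟩
    rcases h2 with h2 | h2
    · exact h2.1
    · omega
  · intro hA
    rcases h2 with h2 | h2
    · omega
    · exact absurd hA h2.1

/-- a blade at the visit of the consecutive pair with triangle in `A_p` is a b-like blade of the
pair -/
theorem Base.blade_in_pA (hB : Base S pt) (h : S.Cons pt w w') (hu : S.BladeAt pt u)
    (he : S.Eqv w u) (hm : u.1 ∈ S.pA pt w w') :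
    (u = w ∧ S.VirtA pt w) ∨ (u = w' ∧ S.VirtB pt w') := by
  have hp := h.toPr
  have h1 := hB.isIn_pA hp
  have h2 := hp.b.ps_hi hB.lin
  have h3 := hp.b'.ps_lo hB.lin
  have h4 := (h1.mem_iff hB.lin hB.loopless (hp.b.eqv_hi.symm.trans he)).1 hm
  have h5 : ¬ (S.ps w < S.ps u ∧ S.ps u < S.ps w') := fun h6 => h.no u hu he h6.1 h6.2
  have h6 : S.ps u = S.ps w ∨ S.ps u = S.ps w' := by omega
  rcases h6 with h6 | h6
  · left
    have h7 : u = w := ps_inj hB.lin he.symm h6
    refine ⟨h7, ?_⟩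
    rw [h7] at hm
    exact (hB.mem_pA_left hp).1 hm
  · right
    have h7 : u = w' := ps_inj hB.lin (he.symm.trans hp.eqv) h6
    refine ⟨h7, ?_⟩
    rw [h7] at hm
    exact (hB.mem_pA_right hp).1 hm

end Obj

end AG
end

/- AG.Reg.Count -/
section
/-!
# Project AG, block 6: counting the visits which meet a region   (helper85)

`Rg S K vK σ`: `K` is a region with distinguished visit `vK` such that every other visit meets `K` in
an interval, and the number of the other visits meeting `K` is the number of unglued sides of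
triangles of `K`, plus `σ`.  One-copy regions have `σ = 1`, the regions `F ∖ K₀` (with `K₀` one-copy)
and `F` itself have `σ = 0`.
-/

set_option linter.unusedSectionVars false
set_option linter.unusedSimpArgs false

namespace AG

open Finset

variable {I : Type} [DecidableEq I]

namespace Obj

variable {S : Obj I}

/-- the lowest corners in `K`: the clockwise neighbour is not in `K` -/
def low (S : Obj I) (K : Finset I) : Finset (Sd I) :=
  S.sides.filter (fun a => a.1 ∈ K ∧ (S.g a = a ∨ (S.g a).1 ∉ K))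

open Classical in
/-- the visits which meet `K` -/
noncomputable def meet (S : Obj I) (K : Finset I) : Finset (Sd I) :=
  S.vis.filter (fun z => ∃ a, S.Eqv z a ∧ a.1 ∈ K)

theorem mem_low {K : Finset I} (hK : K ⊆ S.F) {a : Sd I} :
    a ∈ S.low K ↔ a.1 ∈ K ∧ (S.g a = a ∨ a ∈ S.bd K) := by
  simp only [low, mem_filter, mem_sides, mem_bd]
  constructor
  · rintro ⟨h1, h2, h3⟩
    refine ⟨h2, ?_⟩
    by_cases h4 : S.g a = a
    · exact Or.inl h4
    · exact Or.inr ⟨h4, h2, h3.resolve_left h4⟩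
  · rintro ⟨h1, h2⟩
    exact ⟨hK h1, h1, h2.imp id fun h => h.2.2⟩

theorem card_low {K : Finset I} (hK : K ⊆ S.F) :
    (S.low K).card = (S.vis.filter (fun a => a.1 ∈ K)).card + (S.bd K).card := by
  rw [← card_union_of_disjoint]
  · congr 1
    ext a
    rw [mem_low hK, mem_union, mem_filter, mem_vis]
    constructor
    · rintro ⟨h1, h2⟩
      exact h2.imp (fun h => ⟨⟨hK h1, h⟩, h1⟩) id
    · rintro (⟨⟨h1, h2⟩, h3⟩ | h)
      · exact ⟨h3, Or.inl h2⟩
      · exact ⟨(mem_bd.1 h).2.1, Or.inr h⟩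
  · rw [disjoint_left]
    intro a ha hb
    rw [mem_filter, mem_vis] at ha
    exact (mem_bd.1 hb).1 ha.1.2

theorem mem_meet {K : Finset I} {z : Sd I} :
    z ∈ S.meet K ↔ z ∈ S.vis ∧ ∃ a, S.Eqv z a ∧ a.1 ∈ K := by
  simp [meet]

theorem last_mem_meet (hl : S.Linear) {K : Finset I} (hK : K ⊆ S.F) {a : Sd I} (ha : a.1 ∈ K) :
    S.last a ∈ S.meet K :=
  mem_meet.2 ⟨last_mem_vis hl (mem_sides.2 (hK ha)), a, (last_eqv S a).symm, ha⟩

theorem vis_eq_last {z : Sd I} (hl : S.Linear) (hz : z ∈ S.vis) {a : Sd I} (h : S.Eqv z a) :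
    S.last a = z := by
  rw [← (eqv_iff hl).1 h, last_of_unglued (mem_vis.1 hz).2]

/-- every visit meeting `K` has a lowest corner -/
theorem image_low (hl : S.Linear) {K : Finset I} (hK : K ⊆ S.F) :
    (S.low K).image S.last = S.meet K := by
  classical
  ext z
  rw [mem_image]
  constructor
  · rintro ⟨a, ha, rfl⟩
    exact last_mem_meet hl hK ((mem_low hK).1 ha).1
  · intro hz
    obtain ⟨hzv, a, hza, haK⟩ := mem_meet.1 hz
    let T := S.sides.filter (fun b => S.Eqv z b ∧ b.1 ∈ K)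
    have hT : T.Nonempty := ⟨a, by simp [T, mem_sides, hK haK, hza, haK]⟩
    obtain ⟨b, hb, hmin⟩ := T.exists_min_image S.ps hT
    simp only [T, mem_filter, mem_sides] at hb hmin
    refine ⟨b, ?_, vis_eq_last hl hzv hb.2.1⟩
    simp only [low, mem_filter, mem_sides]
    refine ⟨hb.1, hb.2.2, ?_⟩
    by_contra hcon
    push Not at hcon
    have h1 := ps_of_glued hl hcon.1
    have h2 : (S.cw b).1 = (S.g b).1 := cw_fst hcon.1
    have := hmin (S.cw b) ⟨by rw [h2]; exact hK hcon.2, hb.2.1.trans (S.cw_eqv b),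
      by rw [h2]; exact hcon.2⟩
    omega

/-- a visit with two lowest corners crosses the boundary twice -/
theorem low_double (hl : S.Linear) {K : Finset I} (hK : K ⊆ S.F) {a b : Sd I}
    (ha : a ∈ S.low K) (hb : b ∈ S.low K) (he : S.Eqv a b) (hlt : S.ps a < S.ps b) :
    b ∈ S.bd K ∧ ∃ e, S.Eqv a e ∧ S.g e ∈ S.bd K ∧ S.ps a < S.ps e ∧ S.ps e < S.ps b := by
  have hbg : S.g b ≠ b := (ps_pos_iff hl).1 (by omega)
  have ha' := (mem_low hK).1 ha
  have hb' := (mem_low hK).1 hb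
  have hbb : b ∈ S.bd K := hb'.2.resolve_left hbg
  refine ⟨hbb, ?_⟩
  have h1 := ps_of_glued hl hbg
  have h2 : (S.cw b).1 = (S.g b).1 := cw_fst hbg
  have h3 : (S.g b).1 ∉ K := (mem_bd.1 hbb).2.2
  obtain ⟨e, e1, e2, e3, e4, e5, e6⟩ := exists_cross hl (a := a) (b := S.cw b)
    (he.trans (S.cw_eqv b)) (by omega) (X := K) (by rw [h2]; exact fun hh => h3 (hh.1 ha'.1))
  refine ⟨e, e1, ?_, e3, by omega⟩
  rw [h2] at e6
  have h4 : e.1 ∉ K := fun hh => h3 (e6.1 hh)
  rw [mem_bd, S.invol]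
  refine ⟨e2.symm, ?_, h4⟩
  by_contra h5
  exact e5 ⟨fun hh => absurd hh h4, fun hh => absurd hh h5⟩

/-- a gap in the fan inside `K` gives two boundary crossings -/
theorem gap_double (hl : S.Linear) {K : Finset I} {a b u : Sd I}
    (he : S.Eqv a b) (hu : S.Eqv a u) (h1 : S.ps a ≤ S.ps u) (h2 : S.ps u ≤ S.ps b)
    (haK : a.1 ∈ K) (hbK : b.1 ∈ K) (huK : u.1 ∉ K) :
    ∃ e f, S.Eqv a e ∧ S.Eqv a f ∧ S.g e ∈ S.bd K ∧ f ∈ S.bd K ∧ S.ps e < S.ps f := by
  obtain ⟨e, e1, e2, e3, e4, e5, e6⟩ := exists_cross hl (a := a) (b := u) hu h1 (X := K)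
    (fun hh => huK (hh.1 haK))
  obtain ⟨f, f1, f2, f3, f4, f5, f6⟩ := exists_cross hl (a := u) (b := b) (hu.symm.trans he) h2
    (X := K) (fun hh => huK (hh.2 hbK))
  refine ⟨e, f, e1, hu.trans f1, ?_, ?_, by omega⟩
  · rw [mem_bd, S.invol]
    have h4 : e.1 ∉ K := fun hh => huK (e6.1 hh)
    refine ⟨e2.symm, ?_, h4⟩
    by_contra h5
    exact e5 ⟨fun hh => absurd hh h4, fun hh => absurd hh h5⟩
  · have h4 : f.1 ∈ K := f6.2 hbK
    exact mem_bd.2 ⟨f2, h4, fun hh => f5 ⟨fun _ => hh, fun _ => h4⟩⟩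

/-- no two different glued sides join the same two visits (L3) -/
def Simple (S : Obj I) : Prop := ∀ a b : Sd I, S.g a ≠ a → S.g b ≠ b → S.Eqv a b →
  S.Eqv (rot a) (rot b) → a = b

theorem IsIn.not_eqv_g (hs : S.Simple) {c c' : Sd I} {X : Finset I} (h : S.IsIn c c' X) :
    ¬ S.Eqv (S.g c) (S.g c') := by
  intro h1
  have h2 := hs c c' h.gl h.gl' h.eqv
    ((Eqv.of_glued' h.gl).trans (h1.trans (Eqv.of_glued' h.gl').symm))
  have := h.lt
  rw [h2] at this
  exact lt_irrefl _ this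

theorem Loopless.g (hr : S.Loopless) {c : Sd I} (h : S.g c ≠ c) : ¬ S.Eqv c (S.g c) :=
  fun h1 => hr c (S.memF _ h) (h1.trans (Eqv.of_glued' h).symm)

theorem IsIn.no_double (hr : S.Loopless) (hs : S.Simple) {c c' : Sd I} {X : Finset I}
    (h : S.IsIn c c' X) {e f : Sd I} (he : S.g e ∈ S.bd X) (hf : f ∈ S.bd X) (hef : S.Eqv e f)
    (hlt : S.ps e < S.ps f) : False := by
  have l1 := hr.g h.gl
  have l2 := hr.g h.gl'
  have l3 := h.not_eqv_g hs
  have h3 := h.lt
  rw [h.bd, mem_insert, mem_singleton] at he hf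
  rcases he with he | he
  · have he' : e = S.g c := by rw [← he, S.invol]
    rcases hf with hf | hf
    · rw [he', hf] at hef; exact l1 hef.symm
    · rw [he', hf] at hef; exact l3 hef
  · have he' : e = c' := S.g_injective he
    rcases hf with hf | hf
    · rw [he', hf] at hlt; omega
    · rw [he', hf] at hef; exact l2 hef

/-- regions with a distinguished visit -/
structure Rg (S : Obj I) (K : Finset I) (vK : Sd I → Prop) (σ : ℕ) : Prop where
  sub : K ⊆ S.F
  inv : ∀ a b, S.Eqv a b → vK a → vK b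
  interval : ∀ a b u, ¬ vK a → S.Eqv a b → S.Eqv a u → S.ps a ≤ S.ps u → S.ps u ≤ S.ps b →
    a.1 ∈ K → b.1 ∈ K → u.1 ∈ K
  count : ∀ (_ : DecidablePred fun z => ¬ vK z), ((S.meet K).filter (fun z => ¬ vK z)).card =
    (S.vis.filter (fun a => a.1 ∈ K)).card + σ

/-- one-copy regions -/
theorem IsIn.rg (hl : S.Linear) (hr : S.Loopless) (hs : S.Simple) {c c' : Sd I} {K : Finset I}
    (h : S.IsIn c c' K) : S.Rg K (S.Eqv c) 1 where
  sub := h.sub
  inv a b hab ha := ha.trans hab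
  interval a b u _ hab hau h1 h2 haK hbK := by
    by_contra huK
    obtain ⟨e, f, e1, f1, he, hf, hlt⟩ := gap_double hl hab hau h1 h2 haK hbK huK
    exact h.no_double hr hs he hf (e1.symm.trans f1) hlt
  count hd := by
    have hinj : Set.InjOn S.last (S.low K : Set (Sd I)) := by
      intro a ha b hb hab
      have hab' : S.Eqv a b := (eqv_iff hl).2 hab
      rcases Nat.lt_trichotomy (S.ps a) (S.ps b) with h1 | h1 | h1
      · obtain ⟨hb', e, e1, e2, e3, e4⟩ := low_double hl h.sub ha hb hab' h1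
        exact (h.no_double hr hs e2 hb' (e1.symm.trans hab') e4).elim
      · exact ps_inj hl hab' h1
      · obtain ⟨hb', e, e1, e2, e3, e4⟩ := low_double hl h.sub hb ha hab'.symm h1
        exact (h.no_double hr hs e2 hb' (e1.symm.trans hab'.symm) e4).elim
    have h1 : (S.meet K).card = (S.vis.filter (fun a => a.1 ∈ K)).card + 2 := by
      rw [← image_low hl h.sub, card_image_of_injOn hinj, card_low h.sub, h.card hr]
    have h2 : (S.meet K).filter (fun z => ¬ S.Eqv c z) = (S.meet K).erase (S.last c) := by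
      ext z
      rw [mem_filter, mem_erase]
      constructor
      · rintro ⟨hz, hz'⟩
        refine ⟨?_, hz⟩
        rintro rfl
        exact hz' (last_eqv S c)
      · rintro ⟨hz', hz⟩
        refine ⟨hz, fun h3 => hz' ?_⟩
        exact (vis_eq_last hl (mem_meet.1 hz).1 h3.symm).symm
    have h3 : S.last c ∈ S.meet K := last_mem_meet hl h.sub (mem_bd.1 h.mem_left).2.1
    have h4 := card_erase_of_mem h3
    have h5 := card_pos.2 ⟨_, h3⟩
    rw [← h2] at h4
    convert (show ((S.meet K).filter (fun z => ¬ S.Eqv c z)).card =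
      (S.vis.filter (fun a => a.1 ∈ K)).card + 1 by omega)

/-- the closed case -/
theorem rg_F (hl : S.Linear) : S.Rg S.F (fun _ => False) 0 where
  sub := subset_rfl
  inv _ _ _ h := h
  interval a b u _ _ hau h1 h2 haK hbK := by
    by_contra huK
    have h0 : S.g u = u := by by_contra h; exact huK (S.memF _ h)
    have h3 := ps_of_unglued h0
    have h4 : a = u := ps_inj hl hau (by omega)
    exact huK (h4 ▸ haK)
  count hd := by
    have h1 : (S.meet S.F).filter (fun z => ¬ False) = S.vis.filter (fun a => a.1 ∈ S.F) := by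
      ext z
      simp only [not_false_eq_true, mem_filter, and_true, mem_meet]
      constructor
      · rintro ⟨h1, -⟩; exact ⟨h1, (mem_vis.1 h1).1⟩
      · rintro ⟨h1, h2⟩; exact ⟨h1, z, Eqv.refl S z, h2⟩
    rw [add_zero]
    convert congrArg card h1

/-- the open case: the complement of a one-copy region -/
theorem IsIn.rg_compl (hl : S.Linear) (hr : S.Loopless) (hs : S.Simple) {c c' : Sd I}
    {K₀ : Finset I} (h : S.IsIn c c' K₀) : S.Rg (S.F \ K₀) (S.Eqv c) 0 := by
  have l1 := hr.g h.gl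
  have l2 := hr.g h.gl'
  have l3 := h.not_eqv_g hs
  have hlt := h.lt
  have hbd : S.bd (S.F \ K₀) = {S.g c, c'} := by
    rw [bd_sdiff, inter_eq_right.2 h.sub, h.bd, image_insert, image_singleton, S.invol]
  -- two crossings only at the visit of `c`
  have key : ∀ e f, S.g e ∈ S.bd (S.F \ K₀) → f ∈ S.bd (S.F \ K₀) → S.Eqv e f → S.ps e < S.ps f →
      e = c ∧ f = c' := by
    intro e f he hf hef hps
    rw [hbd, mem_insert, mem_singleton] at he hf
    rcases he with he | he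
    · have he' : e = c := S.g_injective he
      refine ⟨he', ?_⟩
      rcases hf with hf | hf
      · rw [he', hf] at hef; exact absurd hef l1
      · exact hf
    · have he' : e = S.g c' := by rw [← he, S.invol]
      exfalso
      rcases hf with hf | hf
      · rw [he', hf] at hef; exact l3 hef.symm
      · rw [he', hf] at hef; exact l2 hef.symm
  have hsub : S.F \ K₀ ⊆ S.F := sdiff_subset
  have hc'b : c' ∈ S.bd (S.F \ K₀) := by rw [hbd]; simp
  refine ⟨hsub, fun a b hab ha => ha.trans hab, ?_, fun hd => ?_⟩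
  · intro a b u ha hab hau h1 h2 haK hbK
    by_contra huK
    obtain ⟨e, f, e1, f1, he, hf, hps⟩ := gap_double hl hab hau h1 h2 haK hbK huK
    obtain ⟨rfl, -⟩ := key e f he hf (e1.symm.trans f1) hps
    exact ha e1.symm
  · have hc'low : c' ∈ S.low (S.F \ K₀) := (mem_low hsub).2 ⟨(mem_bd.1 hc'b).2.1, Or.inr hc'b⟩
    -- the unglued end of the fan of `c`
    have hlastK : (S.last c).1 ∈ S.F \ K₀ := by
      rw [mem_sdiff]
      refine ⟨mem_sides.1 ((mem_filter.1 (last_mem_vis hl (mem_sides.2 (S.memF _ h.gl)))).1), ?_⟩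
      rw [h.mem_iff hl hr (last_eqv S c)]
      have h1 := ps_of_unglued (last_unglued hl c)
      have h2 := (ps_pos_iff hl).2 h.gl
      omega
    have hlastlow : S.last c ∈ S.low (S.F \ K₀) :=
      (mem_low hsub).2 ⟨hlastK, Or.inl (last_unglued hl c)⟩
    have hlne : S.last c ≠ c' := by
      intro e
      have h1 := last_unglued hl c
      rw [e] at h1
      exact h.gl' h1
    have himg : ((S.low (S.F \ K₀)).erase c').image S.last = S.meet (S.F \ K₀) := by
      rw [← image_low hl hsub]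
      apply subset_antisymm
      · exact image_subset_image (erase_subset _ _)
      · intro z hz
        obtain ⟨a, ha, rfl⟩ := mem_image.1 hz
        rw [mem_image]
        by_cases hac : a = c'
        · refine ⟨S.last c, mem_erase.2 ⟨hlne, hlastlow⟩, ?_⟩
          rw [hac, last_of_unglued (last_unglued hl c)]
          exact (eqv_iff hl).1 h.eqv
        · exact ⟨a, mem_erase.2 ⟨hac, ha⟩, rfl⟩
    have hinj : Set.InjOn S.last ((S.low (S.F \ K₀)).erase c' : Finset (Sd I)) := by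
      intro a ha b hb hab
      rw [mem_coe, mem_erase] at ha hb
      have hab' : S.Eqv a b := (eqv_iff hl).2 hab
      rcases Nat.lt_trichotomy (S.ps a) (S.ps b) with h1 | h1 | h1
      · obtain ⟨hb', e, e1, e2, e3, e4⟩ := low_double hl hsub ha.2 hb.2 hab' h1
        exact absurd (key e b e2 hb' (e1.symm.trans hab') e4).2 hb.1
      · exact ps_inj hl hab' h1
      · obtain ⟨hb', e, e1, e2, e3, e4⟩ := low_double hl hsub hb.2 ha.2 hab'.symm h1
        exact absurd (key e a e2 hb' (e1.symm.trans hab'.symm) e4).2 ha.1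
    have hbc : (S.bd (S.F \ K₀)).card = 2 := by rw [card_bd_sdiff S h.sub, h.card hr]
    have h1 : (S.meet (S.F \ K₀)).card = (S.vis.filter (fun a => a.1 ∈ S.F \ K₀)).card + 1 := by
      have h2 := card_erase_of_mem hc'low
      have h3 := card_low (S := S) hsub
      rw [← himg, card_image_of_injOn hinj, h2, h3, hbc]
      omega
    have h2 : (S.meet (S.F \ K₀)).filter (fun z => ¬ S.Eqv c z)
        = (S.meet (S.F \ K₀)).erase (S.last c) := by
      ext z
      rw [mem_filter, mem_erase]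
      constructor
      · rintro ⟨hz, hz'⟩
        refine ⟨?_, hz⟩
        rintro rfl
        exact hz' (last_eqv S c)
      · rintro ⟨hz', hz⟩
        refine ⟨hz, fun h3 => hz' ?_⟩
        exact (vis_eq_last hl (mem_meet.1 hz).1 h3.symm).symm
    have h3 : S.last c ∈ S.meet (S.F \ K₀) := by
      have := last_mem_meet hl hsub hlastK
      rwa [last_of_unglued (last_unglued hl c)] at this
    have h4 := card_erase_of_mem h3
    have h5 := card_pos.2 ⟨_, h3⟩
    rw [← h2] at h4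
    convert (show ((S.meet (S.F \ K₀)).filter (fun z => ¬ S.Eqv c z)).card =
      (S.vis.filter (fun a => a.1 ∈ S.F \ K₀)).card + 0 by omega)

end Obj

end AG
end

/- AG.Reg.Ident -/
section
/-!
# Project AG, block 6: the counting identity (6.8)   (helper85)

`CP` = consecutive pairs of blades with both triangles in `K` at visits different from `V`
(trivial pairs included), `EarsK` = all eared triangles of `K`, `CandK` = virtual blades in `K` not at
`V`, `Zr` = visits different from `V` which meet `K` and have no blade triangle in `K` (ear ends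
included).
-/

set_option linter.unusedSectionVars false
set_option linter.unusedSimpArgs false
set_option linter.unusedVariables false

namespace AG

open Finset

variable {I : Type} [DecidableEq I]

namespace Obj

variable {S : Obj I} {pt : Sd I → Pt}

theorem Base.simple (hB : Base S pt) : S.Simple := fun a b ha hb h1 h2 => hB.seg a b ha hb h1 h2

/-! ### consecutive pairs of a finite set of corners -/

open Classical in
/-- consecutive pairs of `B` (in the same visit) -/
noncomputable def consP (S : Obj I) (B : Finset (Sd I)) : Finset (Sd I × Sd I) :=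
  (B ×ˢ B).filter (fun p => S.Eqv p.1 p.2 ∧ S.ps p.1 < S.ps p.2 ∧
    ∀ u ∈ B, S.Eqv p.1 u → S.ps p.1 < S.ps u → ¬ S.ps u < S.ps p.2)

theorem mem_consP {B : Finset (Sd I)} {p : Sd I × Sd I} : p ∈ S.consP B ↔
    p.1 ∈ B ∧ p.2 ∈ B ∧ S.Eqv p.1 p.2 ∧ S.ps p.1 < S.ps p.2 ∧
    ∀ u ∈ B, S.Eqv p.1 u → S.ps p.1 < S.ps u → ¬ S.ps u < S.ps p.2 := by
  simp [consP, and_assoc]

/-- the number of consecutive pairs -/
theorem card_consP (hl : S.Linear) (B : Finset (Sd I)) :
    (S.consP B).card + (B.image S.last).card = B.card := by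
  classical
  let nm := B.filter (fun w => ∃ u ∈ B, S.Eqv u w ∧ S.ps u < S.ps w)
  let mn := B.filter (fun w => ¬ ∃ u ∈ B, S.Eqv u w ∧ S.ps u < S.ps w)
  have h1 : nm.card + mn.card = B.card := card_filter_add_card_filter_not _
  have h2 : (S.consP B).card = nm.card := by
    have hi : (S.consP B).image Prod.snd = nm := by
      ext w
      rw [mem_image]
      constructor
      · rintro ⟨p, hp, rfl⟩
        obtain ⟨a, b, c, d, -⟩ := mem_consP.1 hp
        exact mem_filter.2 ⟨b, p.1, a, c, d⟩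
      · intro hw
        obtain ⟨hwB, u, hu, huw, hps⟩ := mem_filter.1 hw
        let U := B.filter (fun u => S.Eqv u w ∧ S.ps u < S.ps w)
        obtain ⟨m, hm, hmax⟩ := U.exists_max_image S.ps ⟨u, mem_filter.2 ⟨hu, huw, hps⟩⟩
        obtain ⟨m1, m2, m3⟩ := mem_filter.1 hm
        refine ⟨(m, w), mem_consP.2 ⟨m1, hwB, m2, m3, ?_⟩, rfl⟩
        intro v hv hmv h3 h4
        have := hmax v (mem_filter.2 ⟨hv, hmv.symm.trans m2, h4⟩)
        simp only at h3
        omega
    rw [← hi, card_image_of_injOn]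
    intro p hp q hq hpq
    have hp' := mem_consP.1 (mem_coe.1 hp)
    have hq' := mem_consP.1 (mem_coe.1 hq)
    obtain ⟨p1, p2⟩ := p
    obtain ⟨q1, q2⟩ := q
    simp only at hpq
    subst hpq
    obtain ⟨a1, a2, a3, a4, a5⟩ := hp'
    obtain ⟨b1, b2, b3, b4, b5⟩ := hq'
    simp only at a1 a2 a3 a4 a5 b1 b2 b3 b4 b5
    have h3 : S.Eqv p1 q1 := a3.trans b3.symm
    rcases Nat.lt_trichotomy (S.ps p1) (S.ps q1) with h | h | h
    · exact absurd b4 (a5 q1 b1 h3 h)
    · rw [ps_inj hl h3 h]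
    · exact absurd a4 (b5 p1 a1 h3.symm h)
  have h3 : (B.image S.last).card = mn.card := by
    have hi : mn.image S.last = B.image S.last := by
      apply subset_antisymm (image_subset_image (filter_subset _ _))
      intro z hz
      obtain ⟨w, hw, rfl⟩ := mem_image.1 hz
      let U := B.filter (fun u => S.Eqv u w)
      obtain ⟨m, hm, hmin⟩ := U.exists_min_image S.ps ⟨w, mem_filter.2 ⟨hw, Eqv.refl S w⟩⟩
      obtain ⟨m1, m2⟩ := mem_filter.1 hm
      refine mem_image.2 ⟨m, mem_filter.2 ⟨m1, ?_⟩, (eqv_iff hl).1 m2⟩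
      rintro ⟨u, hu, hum, hlt⟩
      have := hmin u (mem_filter.2 ⟨hu, hum.trans m2⟩)
      omega
    rw [← hi, card_image_of_injOn]
    intro a ha b hb hab
    obtain ⟨ha1, ha2⟩ := mem_filter.1 (mem_coe.1 ha)
    obtain ⟨hb1, hb2⟩ := mem_filter.1 (mem_coe.1 hb)
    have hab' : S.Eqv a b := (eqv_iff hl).2 hab
    rcases Nat.lt_trichotomy (S.ps a) (S.ps b) with h | h | h
    · exact absurd ⟨a, ha1, hab', h⟩ hb2
    · exact ps_inj hl hab' h
    · exact absurd ⟨b, hb1, hab'.symm, h⟩ ha2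
  omega

/-! ### shapes -/

theorem mem_WK {K : Finset I} {V : Sd I → Prop} {z : Sd I} :
    z ∈ S.WK K V ↔ z ∈ S.meet K ∧ ¬ V z := by
  simp only [WK, mem_filter, mem_meet]
  constructor
  · rintro ⟨h1, h2, c, h3, h4⟩; exact ⟨⟨h1, c, h3.symm, h4⟩, h2⟩
  · rintro ⟨⟨h1, c, h3, h4⟩, h2⟩; exact ⟨h1, h2, c, h3.symm, h4⟩

theorem Rg.shape {K : Finset I} {V : Sd I → Prop} {ε : ℕ} (h : S.Rg K V ε)
    (hr : ∀ c, S.Blade c → c.1 ∈ K → ¬ V c) : S.Shape K V ε where
  sub := h.sub
  Vinv := h.inv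
  cnt := by
    have key : ∀ (inst : DecidablePred fun z => ¬ V z),
        (S.WK K V).card = ((S.meet K).filter (fun z => ¬ V z)).card := by
      intro inst
      congr 1
      ext z
      rw [mem_WK, mem_filter]
    have inst : DecidablePred fun z => ¬ V z := fun _ => Classical.dec _
    exact (key inst).trans (h.count inst)
  conv a b c hab hbc hV h1 h2 ha hc := h.interval a c b hV (hab.trans hbc) hab h1 h2 ha hc
  noReal := hr

/-- a one-copy set is a region (`ε = 1`) -/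
theorem Base.shape_in (hB : Base S pt) {c c' : Sd I} {K : Finset I} (h : S.IsIn c c' K)
    (hr : ∀ u, S.Blade u → S.Eqv c u → u.1 ∉ K) : S.Shape K (S.Eqv c) 1 :=
  (h.rg hB.lin hB.loopless hB.simple).shape fun u hu huK hcu => hr u hu hcu huK

/-- the complement of a one-copy set is a region (`ε = 0`) -/
theorem Base.shape_compl (hB : Base S pt) {c c' : Sd I} {K : Finset I} (h : S.IsIn c c' K)
    (hr : ∀ u, S.Blade u → S.Eqv c u → u.1 ∈ K) : S.Shape (S.F \ K) (S.Eqv c) 0 :=
  (h.rg_compl hB.lin hB.loopless hB.simple).shape fun u hu huK hcu =>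
    (mem_sdiff.1 huK).2 (hr u hu hcu)

/-- closed case -/
theorem Base.shape_closed (hB : Base S pt) : S.Shape S.F (fun _ => False) 0 :=
  (rg_F hB.lin).shape fun _ _ _ h => h

/-- IDENTITY -/
theorem Base.ident (hB : Base S pt) {K : Finset I} {V : Sd I → Prop} {ε : ℕ}
    (h : S.Shape K V ε) :
    (S.CP pt K V).card + (S.EarsK K).card + ε = (S.CandK pt K V).card + (S.Zr pt K V).card := by
  classical
  have hl := hB.lin
  have hKF := h.sub
  set B := S.BlK pt K V with hBdef
  have memB : ∀ w, w ∈ B ↔ S.BladeAt pt w ∧ w.1 ∈ K ∧ ¬ V w := by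
    intro w
    rw [hBdef]
    simp only [BlK, mem_filter, mem_sides, and_iff_right_iff_imp]
    exact fun h => hKF h.2.1
  have memR : ∀ c, c ∈ S.RealK K ↔ S.Blade c ∧ c.1 ∈ K := by
    intro c
    simp only [RealK, mem_filter, mem_sides, and_iff_right_iff_imp]
    exact fun h => hKF h.2
  have memE : ∀ c, c ∈ S.EarsK K ↔ S.Eared c ∧ c.1 ∈ K := by
    intro c
    simp only [EarsK, mem_filter, mem_sides, and_iff_right_iff_imp]
    exact fun h => hKF h.2
  have memC : ∀ w, w ∈ S.CandK pt K V ↔ S.Vir pt w ∧ w.1 ∈ K ∧ ¬ V w := by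
    intro w
    simp only [CandK, mem_filter, mem_sides, and_iff_right_iff_imp]
    exact fun h => hKF h.2.1
  -- (1)
  have c1 : B.card = (S.RealK K).card + (S.CandK pt K V).card := by
    rw [← card_union_of_disjoint]
    · congr 1
      ext w
      rw [memB, mem_union, memR, memC]
      constructor
      · rintro ⟨h1, h2, h3⟩
        rcases h1.real_or_vir with h1 | h1
        · exact Or.inl ⟨h1, h2⟩
        · exact Or.inr ⟨h1, h2, h3⟩
      · rintro (⟨h1, h2⟩ | ⟨h1, h2, h3⟩)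
        · exact ⟨h1.bladeAt, h2, h.noReal w h1 h2⟩
        · exact ⟨h1.bladeAt, h2, h3⟩
    · rw [disjoint_left]
      intro w hw hw'
      exact ((memR w).1 hw).1.not_vir ((memC w).1 hw').1
  -- (2)
  have c2 := card_consP hl B
  -- (3)
  have c3 : S.consP B = S.CP pt K V := by
    ext p
    rw [mem_consP, memB, memB]
    simp only [CP, mem_filter, mem_product, mem_sides]
    constructor
    · rintro ⟨⟨a1, a2, a3⟩, ⟨b1, b2, b3⟩, d1, d2, d3⟩
      refine ⟨⟨hKF a2, hKF b2⟩, ⟨⟨a1, b1, d1, d2⟩, fun u hu hwu h1 h2 => ?_⟩, a2, b2, a3⟩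
      have huK : u.1 ∈ K := h.conv p.1 u p.2 hwu (hwu.symm.trans d1) a3 h1.le h2.le a2 b2
      exact d3 u ((memB u).2 ⟨hu, huK, fun hh => a3 (h.Vinv _ _ hwu.symm hh)⟩) hwu h1 h2
    · rintro ⟨-, hc, a2, b2, a3⟩
      exact ⟨⟨hc.b, a2, a3⟩, ⟨hc.b', b2, fun hh => a3 (h.Vinv _ _ hc.eqv.symm hh)⟩, hc.eqv, hc.lt,
        fun u hu hwu h1 h2 => hc.no u ((memB u).1 hu).1 hwu h1 h2⟩
  -- (4)
  have c4 : (S.vis.filter (fun a => a.1 ∈ K)).card = (S.RealK K).card + (S.EarsK K).card := by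
    rw [← card_union_of_disjoint]
    · symm
      refine card_bij' (fun c _ => rot c) (fun a _ => unrot a) ?_ ?_ ?_ ?_
      · intro c hc
        rw [mem_union, memR, memE] at hc
        rw [mem_filter, mem_vis]
        rcases hc with ⟨h1, h2⟩ | ⟨h1, h2⟩
        · exact ⟨⟨hKF h2, h1.2.2.1⟩, h2⟩
        · exact ⟨⟨hKF h2, S.earFree _ h1.2.2⟩, h2⟩
      · intro a ha
        rw [mem_filter, mem_vis] at ha
        rw [mem_union, memR, memE]
        obtain ⟨⟨h0, h1⟩, h2⟩ := ha
        rcases hB.of_unglued h0 h1 with ⟨-, h3⟩ | ⟨-, h3⟩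
        · exact Or.inl ⟨h3, h2⟩
        · exact Or.inr ⟨h3, h2⟩
      · intro c _; exact unrot_rot c
      · intro a _; exact rot_unrot a
    · rw [disjoint_left]
      intro c hc hc'
      exact ((memR c).1 hc).1.not_eared ((memE c).1 hc').1 rfl
  -- (5)
  have c5 : (S.WK K V).card = (B.image S.last).card + (S.Zr pt K V).card := by
    rw [← card_union_of_disjoint]
    · congr 1
      ext z
      simp only [WK, Zr, mem_union, mem_filter, mem_image]
      constructor
      · rintro ⟨hz, hV, hm⟩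
        by_cases h1 : ∃ w, S.BladeAt pt w ∧ w.1 ∈ K ∧ S.Eqv w z
        · obtain ⟨w, hw, hwK, hwz⟩ := h1
          left
          refine ⟨w, (memB w).2 ⟨hw, hwK, fun hh => hV (h.Vinv _ _ hwz hh)⟩, ?_⟩
          exact vis_eq_last hl hz hwz.symm
        · right
          exact ⟨hz, hV, hm, fun w hw hwK hwz => h1 ⟨w, hw, hwK, hwz⟩⟩
      · rintro (⟨w, hw, rfl⟩ | ⟨hz, hV, hm, -⟩)
        · obtain ⟨h1, h2, h3⟩ := (memB w).1 hw
          exact ⟨last_mem_vis hl (mem_sides.2 (hKF h2)),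
            fun hh => h3 (h.Vinv _ _ (last_eqv S w).symm hh), w, last_eqv S w, h2⟩
        · exact ⟨hz, hV, hm⟩
    · rw [disjoint_left]
      intro z hz hz'
      obtain ⟨w, hw, rfl⟩ := mem_image.1 hz
      have hw' := (memB w).1 hw
      simp only [Zr, mem_filter] at hz'
      exact hz'.2.2.2 w hw'.1 hw'.2.1 (last_eqv S w)
  have c6 := h.cnt
  rw [c3] at c2
  omega

end Obj

end AG
end

/- Helper69.AGF.BigTri -/
section
/-!
AGF module BigTri: every bounded set is in the interior of a triangle.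
-/

noncomputable section

namespace Pool.Agent.Helper69.AGF

/-- The same for bounded sets. -/
theorem exists_big_triangle' {S : Set Pt} (hS : Bornology.IsBounded S) :
    ∃ A B C : Pt, 0 < det A B C ∧ S ⊆ interior (hull {A, B, C}) := by
  obtain ⟨R, hR⟩ := hS.exists_norm_le
  set M : ℝ := |R| + 1 with hM
  have hM0 : 0 < M := by positivity
  have hpos : 0 < det (-3 * M, -M) (3 * M, -M) (0, 5 * M) := by
    simp only [det]
    nlinarith
  refine ⟨(-3 * M, -M), (3 * M, -M), (0, 5 * M), hpos, ?_⟩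
  rw [interior_hull3 hpos]
  intro p hp
  have h1 : ‖p‖ < M := by
    have := hR p hp
    have := le_abs_self R
    linarith
  have hx : |p.1| < M := lt_of_le_of_lt (by simpa using norm_fst_le p) h1
  have hy : |p.2| < M := lt_of_le_of_lt (by simpa using norm_snd_le p) h1
  rw [abs_lt] at hx hy
  have a1 : 0 < M * (p.2 + M) := mul_pos hM0 (by linarith)
  have a2 : 0 < M * (M - p.2) := mul_pos hM0 (by linarith)
  have a3 : 0 < M * (p.1 + M) := mul_pos hM0 (by linarith)
  have a4 : 0 < M * (M - p.1) := mul_pos hM0 (by linarith)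
  have a5 : 0 < M * M := mul_pos hM0 hM0
  refine ⟨?_, ?_, ?_⟩
  · simp only [det]; nlinarith
  · simp only [det]; nlinarith
  · simp only [det]; nlinarith

/-- Every finite set of points is contained in the interior of a (positively oriented) triangle. -/
theorem exists_big_triangle (V : Finset Pt) :
    ∃ A B C : Pt, 0 < det A B C ∧ ∀ p ∈ V, p ∈ interior (hull {A, B, C}) := by
  obtain ⟨A, B, C, h1, h2⟩ := exists_big_triangle' (S := (V : Set Pt)) V.finite_toSet.isBounded
  exact ⟨A, B, C, h1, fun p hp => h2 (by exact_mod_cast hp)⟩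

end Pool.Agent.Helper69.AGF

end
end
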