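import Pool.Agent.Helper16.VGG.G05
import Pool.Agent.Helper16.VGG.G06
import Pool.Agent.Helper16.VGG.G07

/- Helper29.AG7.RegOf -/
section
/-!
# AG section 7: the record `Reg` of a region

`RHyp S pt X` collects the facts about the object `S` and the region `X` which are used for the record
`reg : Reg I (Finset (Sd I)) (Sd I)` of `Helper41/AG7/Count.lean`.
-/

set_option autoImplicit false
set_option linter.unusedSectionVars false
open Finset

namespace Pool.Agent.Helper29.AG7

open _root_.AG _root_.AG.Obj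

variable {I : Type} [DecidableEq I]

/-- the facts used for the record of the region `X` (`X = R` or `X = S.F`) -/
structure RHyp (S : Obj I) (pt : Sd I → Pt) (X : Finset I) : Prop where
  sub : X ⊆ S.F
  lin : S.Linear
  /-- no diagonal is blocked at both ends -/
  b1 : ∀ a, S.Blk pt a → ¬ S.Blk pt (S.g a)
  /-- (G1) -/
  g1 : G1 S (S.Blk pt)
  /-- two triangles are not glued along two sides -/
  sh : ∀ a b, a.1 = b.1 → a ≠ b → S.g a ≠ a → S.g b ≠ b → (S.g a).1 ≠ (S.g b).1
  /-- faces, blades, eared triangles -/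
  three : ∀ t ∈ S.F, S.Face t ∨ (∃ c : Sd I, c.1 = t ∧ S.Blade c) ∨ (∃ c : Sd I, c.1 = t ∧ S.Eared c)
  /-- (S1) : the neighbour of a blade across a U diagonal is a face -/
  s1 : ∀ c a, S.Blade c → a.1 = c.1 → S.IsU pt a → S.Face (S.g a).1
  /-- (S2) : a pair-ready blade has a neighbour which is a face -/
  s2 : ∀ c, S.Blade c → S.PairAt pt c → S.Face (S.g c).1 ∨ S.Face (S.g (unrot c)).1
  /-- no candidate leaves the region: for a stub `a` whose inner triangle is a blade with a pair at its apex `c`, not both the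
  outer triangle is a face and the other neighbour is not a face -/
  outP : ∀ c a b, S.Blade c → c.1 ∈ X → S.PairAt pt c → ((a = c ∧ b = unrot c) ∨ (a = unrot c ∧ b = c)) →
    (S.g a).1 ∉ X → S.Face (S.g a).1 → S.Face (S.g b).1

variable {S : Obj I} {pt : Sd I → Pt} {X : Finset I}

open Classical in
/-- faces of the region -/
noncomputable def faces (S : Obj I) (X : Finset I) : Finset I := X.filter (fun t => S.Face t)

open Classical in
/-- blades of the region -/
noncomputable def blades (S : Obj I) (X : Finset I) : Finset I :=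
  X.filter (fun t => ∃ c : Sd I, c.1 = t ∧ S.Blade c)

open Classical in
/-- eared triangles of the region -/
noncomputable def eareds (S : Obj I) (X : Finset I) : Finset I :=
  X.filter (fun t => ∃ c : Sd I, c.1 = t ∧ S.Eared c)

theorem mem_faces {t : I} : t ∈ faces S X ↔ t ∈ X ∧ S.Face t := by
  classical
  rw [faces, mem_filter]

theorem mem_blades {t : I} : t ∈ blades S X ↔ t ∈ X ∧ ∃ c : Sd I, c.1 = t ∧ S.Blade c := by
  classical
  rw [blades, mem_filter]

theorem mem_eareds {t : I} : t ∈ eareds S X ↔ t ∈ X ∧ ∃ c : Sd I, c.1 = t ∧ S.Eared c := by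
  classical
  rw [eareds, mem_filter]

theorem face_glued {a : Sd I} (h : S.Face a.1) : S.g a ≠ a := h.2 a.2

theorem blade_not_face {c : Sd I} (h : S.Blade c) : ¬ S.Face c.1 := fun hf =>
  face_glued (a := rot c) hf h.2.2.1

theorem eared_not_glued {c : Sd I} (h : S.Eared c) : S.g (rot c) = rot c := S.earFree _ h.2.2

theorem eared_not_face {c : Sd I} (h : S.Eared c) : ¬ S.Face c.1 := fun hf =>
  face_glued (a := rot c) hf (eared_not_glued h)

/-- the apex corner of a blade is unique -/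
theorem corner_unique {b c : Sd I} (hb : S.g b ≠ b) (hb' : S.g (unrot b) ≠ unrot b)
    (hc : S.g (rot c) = rot c) (h : b.1 = c.1) : b = c := by
  rcases eq_of_fst_eq h with h1 | h1 | h1
  · exact h1
  · rw [h1] at hb; exact absurd hc hb
  · rw [h1, unrot_unrot] at hb'
    exact absurd hc hb'

theorem blade_not_eared {c e : Sd I} (h : S.Blade c) (he : S.Eared e) : c.1 ≠ e.1 := by
  intro h1
  have h2 : c = e := corner_unique h.1 h.2.1 (eared_not_glued he) h1
  exact h.2.2.2 (h2 ▸ he.2.2)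

theorem gs_face {t : I} (h : S.Face t) : (gs S t).card = 3 := by
  have : gs S t = (univ : Finset (Fin 3)).image (fun i => (t, i)) := by
    rw [gs]
    congr 1
    rw [filter_eq_self]
    exact fun i _ => h.2 i
  rw [this, card_image_of_injective _ (fun i j hij => (Prod.mk.inj hij).2)]
  rfl

theorem gs_two {c : Sd I} (h1 : S.g c ≠ c) (h2 : S.g (unrot c) ≠ unrot c) (h3 : S.g (rot c) = rot c) :
    gs S c.1 = {c, unrot c} := by
  ext a
  rw [mem_gs, mem_insert, mem_singleton]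
  constructor
  · rintro ⟨h, h'⟩
    rcases eq_of_fst_eq h with h4 | h4 | h4
    · exact Or.inl h4
    · rw [h4] at h'; exact absurd h3 h'
    · exact Or.inr h4
  · rintro (rfl | rfl)
    · exact ⟨rfl, h1⟩
    · exact ⟨rfl, h2⟩

theorem inc_two {c : Sd I} (h1 : S.g c ≠ c) (h2 : S.g (unrot c) ≠ unrot c) (h3 : S.g (rot c) = rot c) :
    inc S c.1 = {dg S c, dg S (unrot c)} := by
  rw [inc, gs_two h1 h2 h3, image_insert, image_singleton]

theorem card_gs_two {c : Sd I} (h1 : S.g c ≠ c) (h2 : S.g (unrot c) ≠ unrot c)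
    (h3 : S.g (rot c) = rot c) : (gs S c.1).card = 2 := by
  rw [gs_two h1 h2 h3, card_pair (unrot_ne c).symm]

/-- the neighbour of `t` across `d` is a face -/
def act (S : Obj I) (t : I) (d : Finset (Sd I)) : Prop :=
  ∃ a, a.1 = t ∧ S.g a ≠ a ∧ dg S a = d ∧ S.Face (S.g a).1

/-- the triangle outside the region at the stub `d` is a blade -/
def outB (S : Obj I) (X : Finset I) (d : Finset (Sd I)) : Prop :=
  ∃ a, a.1 ∈ X ∧ (S.g a).1 ∉ X ∧ S.g a ≠ a ∧ d = dg S a ∧ ∃ c, c.1 = (S.g a).1 ∧ S.Blade c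

open Classical in
/-- the pair-ready blades of the region with exactly one neighbour which is a face, this neighbour is in the region -/
noncomputable def CPs (S : Obj I) (pt : Sd I → Pt) (X : Finset I) : Finset I :=
  (blades S X).filter (fun t => ∃ c a b, c.1 = t ∧ S.Blade c ∧ S.PairAt pt c ∧
    ((a = c ∧ b = unrot c) ∨ (a = unrot c ∧ b = c)) ∧ S.Face (S.g a).1 ∧ (S.g a).1 ∈ X ∧ ¬ S.Face (S.g b).1)

namespace RHyp

variable (H : RHyp S pt X)
include H

theorem union : (faces S X ∪ blades S X) ∪ eareds S X = X := by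
  ext t
  rw [mem_union, mem_union, mem_faces, mem_blades, mem_eareds]
  constructor
  · rintro ((h | h) | h) <;> exact h.1
  · intro h
    rcases H.three t (H.sub h) with h1 | h1 | h1
    · exact Or.inl (Or.inl ⟨h, h1⟩)
    · exact Or.inl (Or.inr ⟨h, h1⟩)
    · exact Or.inr ⟨h, h1⟩

/-- (S1) for the diagonal -/
theorem U_face {c a : Sd I} (hc : S.Blade c) (ha : a.1 = c.1) (hg : S.g a ≠ a)
    (hU : bl S X (S.Blk pt) (dg S a) = none) : S.Face (S.g a).1 := by
  rw [bl_none] at hU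
  exact H.s1 c a hc ha (AG.Geo.isU_iff.2 ⟨hg, hU.1, hU.2⟩)

theorem pair_of {t : I} {w : Sd I} {c : Sd I} (hc : S.Blade c) (hct : c.1 = t)
    (h : Aw S X (S.Blk pt) w = inc S t) : S.PairAt pt c := by
  have h1 : (Aw S X (S.Blk pt) w).card = 2 := by
    rw [h, ← hct, card_inc, card_gs_two hc.1 hc.2.1 hc.2.2.1]
  obtain ⟨b, hb1, hb2, hb3, hb4, hb5⟩ := host H.lin (fun a ha => ha.1) H.b1 H.g1 h1
  -- `b` is a corner of `t`: both diagonals are sides of `t`
  have h2 : dg S b ∈ inc S t := by rw [← h, hb2]; exact mem_insert_self _ _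
  have h3 : dg S (unrot b) ∈ inc S t := by
    rw [← h, hb2]; exact mem_insert_of_mem (mem_singleton_self _)
  have h4 : b.1 = t := by
    by_contra hne
    have e1 : t = (S.g b).1 := by
      rcases (dg_mem_inc_iff hb3.1).1 h2 with h5 | h5
      · exact absurd h5.symm hne
      · exact h5
    have e2 : t = (S.g (unrot b)).1 := by
      rcases (dg_mem_inc_iff hb5).1 h3 with h5 | h5
      · exact absurd h5.symm hne
      · exact h5
    exact H.sh b (unrot b) rfl (unrot_ne b).symm hb3.1 hb5 (e1.symm.trans e2)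
  have h5 : b = c := corner_unique hb3.1 hb5 hc.2.2.1 (h4.trans hct.symm)
  rw [← h5]
  exact ⟨hb3, hb4⟩

/-- the record of the region -/
noncomputable def reg : Helper41.AG7.Reg I (Finset (Sd I)) (Sd I) where
  face := faces S X
  blade := blades S X
  eared := eareds S X
  Dg := Dgs S X
  St := Sts S X
  V := (S.keep X).vis
  inc := inc S
  bl := bl S X (S.Blk pt)
  act := act S
  outB := outB S X
  CP := CPs S pt X
  disj_fb := by
    rw [disjoint_left]
    intro t h1 h2
    obtain ⟨c, hc, hb⟩ := (mem_blades.1 h2).2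
    exact blade_not_face hb (hc ▸ (mem_faces.1 h1).2)
  disj_fe := by
    rw [disjoint_left]
    intro t h1 h2
    obtain ⟨c, hc, hb⟩ := (mem_eareds.1 h2).2
    exact eared_not_face hb (hc ▸ (mem_faces.1 h1).2)
  disj_be := by
    rw [disjoint_left]
    intro t h1 h2
    obtain ⟨c, hc, hb⟩ := (mem_blades.1 h1).2
    obtain ⟨e, he, hb'⟩ := (mem_eareds.1 h2).2
    exact blade_not_eared hb hb' (hc.trans he.symm)
  St_sub := Sts_sub S X
  inc_face := by
    intro t ht
    rw [mem_faces] at ht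
    exact ⟨inc_sub ht.1, by rw [card_inc, gs_face ht.2]⟩
  inc_blade := by
    intro t ht
    rw [mem_blades] at ht
    obtain ⟨hX, c, rfl, hc⟩ := ht
    exact ⟨inc_sub hX, by rw [card_inc, card_gs_two hc.1 hc.2.1 hc.2.2.1]⟩
  inc_eared := by
    intro t ht
    rw [mem_eareds] at ht
    obtain ⟨hX, c, rfl, hc⟩ := ht
    exact ⟨inc_sub hX, by rw [card_inc, card_gs_two hc.1 hc.2.1 (eared_not_glued hc)]⟩
  inner_two := by
    intro d hd hs
    rw [H.union]
    convert inner_two hd hs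
  stub_one := by
    intro d hs
    rw [H.union]
    convert stub_one hs
  share := by
    intro t _ t' _ htt
    convert share H.sh htt
  bl_mem := fun d hd w h => bl_mem H.lin H.sub H.b1 hd h
  A_le := by
    intro w _
    have := A_le (X := X) H.lin (fun a ha => ha.1) H.b1 H.g1 w
    rw [Aw] at this
    convert this
  host := by
    intro w _ h
    have h' : (Aw S X (S.Blk pt) w).card = 2 := by
      rw [Aw]
      convert h
    obtain ⟨b, hb1, hb2, hb3, hb4, hb5⟩ := host H.lin (fun a ha => ha.1) H.b1 H.g1 h'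
    refine ⟨b.1, by rw [H.union]; exact hb1, ?_⟩
    have h3 : Aw S X (S.Blk pt) w ⊆ inc S b.1 := by
      rw [hb2]
      intro d hd
      rw [mem_insert, mem_singleton] at hd
      rcases hd with rfl | rfl
      · exact dg_mem_inc hb3.1
      · exact dg_mem_inc (a := unrot b) hb5
    intro d hd
    apply h3
    rw [Aw]
    exact hd
  visits := by
    rw [H.union]
    exact visits_eq S H.sub
  U_blades := by
    intro d hd hU
    rw [card_le_one]
    intro t ht t' ht'
    rw [mem_filter, mem_blades] at ht ht'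
    obtain ⟨⟨_, c, rfl, hc⟩, h1⟩ := ht
    obtain ⟨⟨_, c', rfl, hc'⟩, h2⟩ := ht'
    obtain ⟨a, ha1, ha2, rfl⟩ := mem_inc.1 h1
    by_contra hne
    have h3 : c'.1 = (S.g a).1 := by
      rcases (dg_mem_inc_iff ha2).1 h2 with h4 | h4
      · exact absurd (ha1.symm.trans h4.symm) hne
      · exact h4
    have h4 := H.U_face hc ha1 ha2 hU
    rw [← h3] at h4
    exact blade_not_face hc' h4
  U_blades_out := by
    intro d _ hU ho t ht hd
    rw [mem_blades] at ht
    obtain ⟨hX, c, rfl, hc⟩ := ht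
    obtain ⟨a, ha1, ha2, ha3, rfl, e, he, hb⟩ := ho
    have h3 : c.1 = a.1 := by
      rcases (dg_mem_inc_iff ha3).1 hd with h4 | h4
      · exact h4
      · rw [h4] at hX; exact absurd hX ha2
    have h4 := H.U_face hc h3.symm ha3 hU
    rw [← he] at h4
    exact blade_not_face hb h4
  pair_ready := by
    classical
    intro t ht hw
    rw [mem_blades] at ht
    obtain ⟨hX, c, rfl, hc⟩ := ht
    obtain ⟨w, _, hw⟩ := hw
    have hA : Aw S X (S.Blk pt) w = inc S c.1 := by
      rw [Aw, ← hw]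
    have hp := H.pair_of hc rfl hA
    have hi : inc S c.1 = {dg S c, dg S (unrot c)} := inc_two hc.1 hc.2.1 hc.2.2.1
    by_cases h1 : S.Face (S.g c).1
    · by_cases h2 : S.Face (S.g (unrot c)).1
      · left
        intro d hd
        rw [hi, mem_insert, mem_singleton] at hd
        rcases hd with rfl | rfl
        · exact ⟨c, rfl, hc.1, rfl, h1⟩
        · exact ⟨unrot c, rfl, hc.2.1, rfl, h2⟩
      · right
        refine ⟨?_, dg S c, by rw [hi]; exact mem_insert_self _ _, ⟨c, rfl, hc.1, rfl, h1⟩⟩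
        rw [CPs, mem_filter, mem_blades]
        refine ⟨⟨hX, c, rfl, hc⟩, c, c, unrot c, rfl, hc, hp, Or.inl ⟨rfl, rfl⟩, h1, ?_, h2⟩
        by_contra h3
        exact h2 (H.outP c c (unrot c) hc hX hp (Or.inl ⟨rfl, rfl⟩) h3 h1)
    · have h2 : S.Face (S.g (unrot c)).1 := (H.s2 c hc hp).resolve_left h1
      right
      refine ⟨?_, dg S (unrot c), by rw [hi]; exact mem_insert_of_mem (mem_singleton_self _),
        ⟨unrot c, rfl, hc.2.1, rfl, h2⟩⟩
      rw [CPs, mem_filter, mem_blades]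
      refine ⟨⟨hX, c, rfl, hc⟩, c, unrot c, c, rfl, hc, hp, Or.inr ⟨rfl, rfl⟩, h2, ?_, h1⟩
      by_contra h3
      exact h1 (H.outP c (unrot c) c hc hX hp (Or.inr ⟨rfl, rfl⟩) h3 h2)
  act_face := by
    intro t ht d hd hs ha
    rw [mem_blades] at ht
    obtain ⟨a, ha1, ha2, rfl, hf⟩ := ha
    refine ⟨(S.g a).1, ?_, ?_⟩
    · rw [mem_faces]
      refine ⟨?_, hf⟩
      by_contra h
      exact hs (mem_Sts.2 ⟨a, ha1 ▸ ht.1, h, ha2, rfl⟩)
    · exact (dg_mem_inc_iff ha2).2 (Or.inr rfl)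

end RHyp

end Pool.Agent.Helper29.AG7
end

/- AG.GeoExt -/
section
/-!
# Project AG (MP_586e8d), block GEO-B: extreme points (7.6)

TASK: prove the `sorry`s (`exists_ext` follows from `three_exposed` of Exposed.lean, applied to
`V = S.sides.image pt`, and `ang_sum_exposed`).

`ang_sum_exposed`: the whole visit is `c 0, c 1 = cw c 0, …, c K` (`c 0` its first corner), directions
`d k = pt (rot (c k))`, `pt (unrot (c (k+1))) = d k`; all directions `e` satisfy `0 < u·(e-p)`.  For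
three such directions: `Ccw p a b`, `Ccw p b c` imply `Ccw p a c`, because
`(u·b) det(a,c) = (u·c) det(a,b) + (u·a) det(b,c)` (vectors from `p`).  So by induction
`Ccw p (d k) (pt (unrot (c 0)))` and
`∑_{j≤k} cang (c j) = ang p (d k) (pt (unrot (c 0))) < π` (`ang_add_of_ccw`).
The set `{d | S.Eqv c d}` is the set of these iterates: use `Obj.last`, `Obj.last_eqv`,
`Obj.eqv_iff`, `Obj.last_cw` of Basic.lean (`hlin : S.Linear`).  Instead of the first corner one
can also prove: for every `n` and every corner `a`, the corners `a, cw a, …, cw^[n] a` (as long as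
glued) have total angle `< π`, and choose `a` in the class with the largest distance to `last a`.
-/

set_option linter.unusedSectionVars false
set_option linter.unusedSimpArgs false

namespace AG

open Finset

variable {I : Type} [DecidableEq I]

namespace Geo

private theorem cw_inj_glued {S : Obj I} {a b : Sd I} (ha : S.g a ≠ a) (hb : S.g b ≠ b)
    (h : S.cw a = S.cw b) : a = b := by
  unfold Obj.cw at h
  rw [if_neg ha, if_neg hb] at h
  exact S.g_injective (rot_injective h)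

private theorem chain_eq {S : Obj I} (m : ℕ) : ∀ (k : ℕ) (a b : Sd I),
    (∀ i < m + k, S.g (S.cw^[i] a) ≠ S.cw^[i] a) → (∀ i < m, S.g (S.cw^[i] b) ≠ S.cw^[i] b) →
    S.cw^[m + k] a = S.cw^[m] b → S.cw^[k] a = b := by
  induction m with
  | zero =>
    intro k a b _ _ h
    simpa using h
  | succ m ih =>
    intro k a b h1 h2 h3
    apply ih k a b (fun i hi => h1 i (by omega)) (fun i hi => h2 i (by omega))
    have e : m + 1 + k = (m + k) + 1 := by omega
    rw [e, Function.iterate_succ_apply', Function.iterate_succ_apply'] at h3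
    exact cw_inj_glued (h1 _ (by omega)) (h2 _ (by omega)) h3

variable {S : Obj I} {pt : Sd I → Pt} (hG : Geo S pt)
include hG

private theorem chain_sum {V : Finset Pt} (hV : ∀ c ∈ S.sides, pt c ∈ V) {p u : Pt}
    (hp : Exposed V p u) {a : Sd I} (ha : a ∈ S.sides) (hap : pt a = p) (n : ℕ)
    (hn : ∀ i < n, S.g (S.cw^[i] a) ≠ S.cw^[i] a) :
    S.cw^[n] a ∈ S.sides ∧ pt (S.cw^[n] a) = p ∧
    Ccw p (pt (rot (S.cw^[n] a))) (pt (unrot a)) ∧
    ∑ i ∈ range (n + 1), cang pt (S.cw^[i] a) =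
      ang p (pt (rot (S.cw^[n] a))) (pt (unrot a)) := by
  have hdot : ∀ b ∈ S.sides, pt b ≠ p → 0 < dot u (pt b - p) := fun b hb h =>
    hp.2 _ (hV b hb) h
  induction n with
  | zero =>
    have h1 := hG.ccw (Obj.mem_sides.1 ha)
    refine ⟨ha, hap, ?_, ?_⟩
    · rw [hap] at h1; exact h1
    · simp only [zero_add, sum_range_one, Function.iterate_zero, id_eq]
      unfold cang
      rw [hap]
  | succ n ih =>
    obtain ⟨h1, h2, h3, h4⟩ := ih (fun i hi => hn i (by omega))
    have hg := hn n (by omega)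
    obtain ⟨b, hb⟩ : ∃ b, b = S.cw^[n] a := ⟨_, rfl⟩
    rw [← hb] at h1 h2 h3 h4 hg
    have e : S.cw^[n + 1] a = S.cw b := by rw [Function.iterate_succ_apply', hb]
    have ecw : S.cw b = rot (S.g b) := by unfold Obj.cw; rw [if_neg hg]
    have hcb : S.cw b ∈ S.sides := Obj.cw_mem h1
    have hpcb : pt (S.cw b) = p := by rw [hG.pt_cw, h2]
    have hun : pt (unrot (S.cw b)) = pt (rot b) := by
      rw [ecw, unrot_rot]; exact hG.mat' hg
    have hc1 := hG.ccw (Obj.mem_sides.1 hcb)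
    rw [hpcb, hun] at hc1
    have fa : a.1 ∈ S.F := Obj.mem_sides.1 ha
    have fb : b.1 ∈ S.F := Obj.mem_sides.1 h1
    have fcb : (S.cw b).1 ∈ S.F := Obj.mem_sides.1 hcb
    have hu : unrot a ∈ S.sides := Obj.mem_sides.2 fa
    have hrb : rot b ∈ S.sides := Obj.mem_sides.2 fb
    have hrcb : rot (S.cw b) ∈ S.sides := Obj.mem_sides.2 fcb
    have d1 := hdot _ hrcb (fun h => hG.pt_ne_rot (Obj.mem_sides.1 hcb) (by rw [h, hpcb]))
    have d2 := hdot _ hrb (fun h => hG.pt_ne_rot (Obj.mem_sides.1 h1) (by rw [h, h2]))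
    have d3 := hdot _ hu (fun h => hG.pt_ne_unrot (Obj.mem_sides.1 ha) (by rw [h, hap]))
    have hc2 := ccw_trans_of_dot d1 d2 d3 hc1 h3
    rw [e]
    refine ⟨hcb, hpcb, hc2, ?_⟩
    rw [sum_range_succ, h4, e, ang_add_of_ccw hc1 h3 hc2]
    have hcang : cang pt (S.cw b) = ang p (pt (rot (S.cw b))) (pt (rot b)) := by
      unfold cang
      rw [hpcb, hun]
    rw [hcang, add_comm]

/-- the total angle of a visit at an exposed point is smaller than `π` -/
theorem ang_sum_exposed (hlin : S.Linear) {V : Finset Pt} (hV : ∀ c ∈ S.sides, pt c ∈ V) {p u : Pt}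
    (hp : Exposed V p u) {c : Sd I} (hc : c ∈ S.sides) (hcp : pt c = p) {X : Finset (Sd I)}
    (hX : ∀ d ∈ X, d ∈ S.sides ∧ S.Eqv c d) : ∑ d ∈ X, cang pt d < Real.pi := by
  classical
  rcases X.eq_empty_or_nonempty with h0 | hne
  · rw [h0, sum_empty]; exact Real.pi_pos
  let nn : Sd I → ℕ := fun a => Nat.find (hlin a)
  have hnn1 : ∀ a, S.g (S.cw^[nn a] a) = S.cw^[nn a] a := fun a => Nat.find_spec (hlin a)
  have hnn2 : ∀ a, ∀ i < nn a, S.g (S.cw^[i] a) ≠ S.cw^[i] a := fun a i hi =>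
    Nat.find_min (hlin a) hi
  have hlast : ∀ a, S.last a = S.cw^[nn a] a := fun a => Obj.last_eq_of (hnn1 a)
  obtain ⟨a, haX, hmax⟩ := exists_max_image X nn hne
  have hap : pt a = p := by rw [← hG.pt_eqv (hX a haX).2, hcp]
  have hk : ∀ d ∈ X, S.cw^[nn a - nn d] a = d := by
    intro d hd
    have h1 : nn d ≤ nn a := hmax d hd
    have h2 : nn d + (nn a - nn d) = nn a := by omega
    apply chain_eq (nn d) (nn a - nn d) a d
    · rw [h2]; exact hnn2 a
    · exact hnn2 d
    · rw [h2, ← hlast, ← hlast]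
      exact (Obj.eqv_iff hlin).1 ((hX a haX).2.symm.trans (hX d hd).2)
  obtain ⟨-, -, h3, h4⟩ := hG.chain_sum hV hp (hX a haX).1 hap (nn a) (hnn2 a)
  have h5 : ∑ d ∈ X, cang pt d = ∑ i ∈ X.image (fun d => nn a - nn d), cang pt (S.cw^[i] a) := by
    rw [sum_image]
    · exact sum_congr rfl (fun d hd => by rw [hk d hd])
    · intro d hd d' hd' h
      rw [← hk d hd, ← hk d' hd']
      simp only at h
      rw [h]
  have h6 : X.image (fun d => nn a - nn d) ⊆ range (nn a + 1) := by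
    intro i hi
    obtain ⟨d, _, rfl⟩ := mem_image.1 hi
    rw [mem_range]
    omega
  have h7 : ∑ i ∈ X.image (fun d => nn a - nn d), cang pt (S.cw^[i] a) ≤
      ∑ i ∈ range (nn a + 1), cang pt (S.cw^[i] a) := by
    apply sum_le_sum_of_subset_of_nonneg h6
    intro i hi _
    have h8 := (hG.chain_sum hV hp (hX a haX).1 hap i
      (fun j hj => hnn2 a j (by have := mem_range.1 hi; omega))).1
    exact (hG.cang_pos (Obj.mem_sides.1 h8)).le
  rw [h5]
  refine lt_of_le_of_lt h7 ?_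
  rw [h4]
  exact ang_lt_pi h3

/-- (7.6) EXTREME POINTS: at least three, and at each of them every visit has total angle `< π` -/
theorem exists_ext (hlin : S.Linear) (hne : S.F.Nonempty) : ∃ Ext : Finset Pt, 3 ≤ Ext.card ∧
    ∀ q ∈ Ext, (∃ c ∈ S.sides, pt c = q) ∧ ∀ c ∈ S.sides, pt c = q → ∀ X : Finset (Sd I),
      (∀ d ∈ X, d ∈ S.sides ∧ S.Eqv c d) → ∑ d ∈ X, cang pt d < Real.pi := by
  classical
  obtain ⟨t, ht⟩ := hne
  have hV : ∀ c ∈ S.sides, pt c ∈ S.sides.image pt := fun c hc => mem_image_of_mem pt hc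
  have hs : ∀ i : Fin 3, (t, i) ∈ S.sides := fun i => Obj.mem_sides.2 ht
  obtain ⟨p1, p2, p3, u1, u2, u3, e1, e2, e3, n1, n2, n3⟩ :=
    three_exposed (hV _ (hs 0)) (hV _ (hs 1)) (hV _ (hs 2)) (hG.ccw0 t ht)
  have key : ∀ q u, Exposed (S.sides.image pt) q u → (∃ c ∈ S.sides, pt c = q) ∧
      ∀ c ∈ S.sides, pt c = q → ∀ X : Finset (Sd I),
        (∀ d ∈ X, d ∈ S.sides ∧ S.Eqv c d) → ∑ d ∈ X, cang pt d < Real.pi := by
    intro q u hq
    refine ⟨?_, fun c hc hcq X hX => hG.ang_sum_exposed hlin hV hq hc hcq hX⟩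
    obtain ⟨c, hc, h⟩ := mem_image.1 hq.1
    exact ⟨c, hc, h⟩
  refine ⟨{p1, p2, p3}, ?_, ?_⟩
  · rw [card_insert_of_notMem (by simp [n1, n2]), card_pair n3]
  · intro q hq
    simp only [mem_insert, mem_singleton] at hq
    rcases hq with rfl | rfl | rfl
    · exact key _ _ e1
    · exact key _ _ e2
    · exact key _ _ e3

end Geo

end AG
end

/- Helper41.AG7.Bills -/
section
/-!
# AG (MP_586e8d, Shermer), section 7: bills and credits, abstract form

Every zero visit `w` has two credits `(w, true)` (called `α(w)`) and `(w, false)` (called `γ(w)`), every unused slot has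
one credit. The bills are: `X0` (pairs with no non enclosed ear in their torso), the ear costs, the extreme points
`Ext`, the stubs of type (Ub), (Pb).

`a d`, `v d` = the end visits of the stub `d` (`v d` = the copy of the cut point `v`), `s d` = the triangle of `R` at `d`.
-/

set_option autoImplicit false
open Finset

namespace Pool.Agent.Helper41.AG7

/-- the data of section 7 (bills) -/
structure Bil (τ δ ν κ π : Type*) [DecidableEq τ] [DecidableEq δ] [DecidableEq ν] [DecidableEq κ] [DecidableEq π]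
    extends Reg τ δ ν where
  X0 : Finset π
  Ext : Finset κ
  pos : ν → κ
  vp : π → ν
  tor : π → Finset τ
  wide : π → Prop
  a : δ → ν
  v : δ → ν
  s : δ → τ
  /-- the other diagonal of `s d` at the visit `a d` -/
  xw : δ → δ
  /-- the ear end of an ear cost -/
  pe : τ × δ → ν
  /- visits of the stubs -/
  a_inj : ∀ d ∈ St, ∀ d' ∈ St, a d = a d' → d = d'
  v_inj : ∀ d ∈ St, ∀ d' ∈ St, v d = v d' → d = d'
  a_ne_v : ∀ d ∈ St, ∀ d' ∈ St, a d ≠ v d'
  xw_not : ∀ d ∈ St, xw d ∉ St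
  /- ear ends -/
  pe_inj : ∀ x ∈ toReg.Ecost, ∀ y ∈ toReg.Ecost, pe x = pe y → x = y
  pe_ne_vp : ∀ x ∈ toReg.Ecost, ∀ p ∈ X0, pe x ≠ vp p
  pe_ne_a : ∀ x ∈ toReg.Ecost, ∀ d ∈ St, pe x ≠ a d
  pe_ne_v : ∀ x ∈ toReg.Ecost, ∀ d ∈ St, pe x ≠ v d
  /- pairs -/
  vp_ne_v : ∀ p ∈ X0, ∀ d ∈ St, vp p ≠ v d
  tor_disj : ∀ p ∈ X0, ∀ q ∈ X0, p ≠ q → Disjoint (tor p) (tor q)
  wide_ext : ∀ p ∈ X0, wide p → pos (vp p) ∉ Ext
  wide_inj : ∀ p ∈ X0, ∀ q ∈ X0, wide p → wide q → vp p = vp q → p = q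
  /-- (a) -/
  bill_a : ∀ p ∈ X0, (vp p ∈ toReg.zeros ∧ wide p) ∨
    ∃ x ∈ toReg.unused, x.1 ∈ tor p ∧
      (∀ d ∈ St, x = (s d, d) → pos (a d) ∉ Ext) ∧
      (∀ d ∈ toReg.Ubs, a d ∉ toReg.zeros → x ≠ (s d, xw d))
  /-- (b) -/
  bill_b : ∀ x ∈ toReg.Ecost, pe x ∈ toReg.zeros ∨
    ∃ y ∈ toReg.unused, bl y.2 = some (pe x) ∧ ∀ p ∈ X0, y.1 ∉ tor p
  /-- (c) -/
  bill_c : ∀ q ∈ Ext, (∃ w ∈ toReg.zeros, pos w = q) ∨
    ∃ d ∈ St, pos (a d) = q ∧ bl d = some (a d) ∧
      ((s d, d) ∈ toReg.unused ∨ ((toReg.A (a d)).card = 1 ∧ v d ∈ toReg.zeros))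
  /-- (Ub) -/
  bill_U : ∀ d ∈ toReg.Ubs, a d ∈ toReg.zeros ∨
    ((s d, xw d) ∈ toReg.unused ∧ bl (xw d) = some (a d))
  /-- (Pb) -/
  bill_P : ∀ d ∈ toReg.Pbs, v d ∈ toReg.zeros ∧ (toReg.A (a d)).card = 2

namespace Bil

variable {τ δ ν κ π : Type*} [DecidableEq τ] [DecidableEq δ] [DecidableEq ν] [DecidableEq κ] [DecidableEq π]
  (B : Bil τ δ ν κ π)

/-- the bills -/
inductive Bill (τ δ κ π : Type*)
  | A : π → Bill τ δ κ π
  | B : τ × δ → Bill τ δ κ π
  | C : κ → Bill τ δ κ π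
  | U : δ → Bill τ δ κ π
  | P : δ → Bill τ δ κ π

/-- the bill is paid with the credit -/
inductive Pay : Bill τ δ κ π → (ν × Bool) ⊕ (τ × δ) → Prop
  | a1 (p : π) : p ∈ B.X0 → B.vp p ∈ B.zeros → B.wide p → Pay (.A p) (.inl (B.vp p, true))
  | a2 (p : π) (x : τ × δ) : p ∈ B.X0 → x ∈ B.unused → x.1 ∈ B.tor p →
      (∀ d ∈ B.St, x = (B.s d, d) → B.pos (B.a d) ∉ B.Ext) →
      (∀ d ∈ B.Ubs, B.a d ∉ B.zeros → x ≠ (B.s d, B.xw d)) → Pay (.A p) (.inr x)
  | b1 (x : τ × δ) : x ∈ B.Ecost → B.pe x ∈ B.zeros → Pay (.B x) (.inl (B.pe x, true))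
  | b2 (x y : τ × δ) : x ∈ B.Ecost → y ∈ B.unused → B.bl y.2 = some (B.pe x) →
      (∀ p ∈ B.X0, y.1 ∉ B.tor p) → Pay (.B x) (.inr y)
  | c1 (w : ν) : w ∈ B.zeros → B.pos w ∈ B.Ext → Pay (.C (B.pos w)) (.inl (w, false))
  | c2 (d : δ) : d ∈ B.St → B.pos (B.a d) ∈ B.Ext → (B.s d, d) ∈ B.unused → B.bl d = some (B.a d) →
      Pay (.C (B.pos (B.a d))) (.inr (B.s d, d))
  | c3 (d : δ) : d ∈ B.St → B.pos (B.a d) ∈ B.Ext → (B.A (B.a d)).card = 1 → B.v d ∈ B.zeros →
      Pay (.C (B.pos (B.a d))) (.inl (B.v d, true))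
  | u1 (d : δ) : d ∈ B.Ubs → B.a d ∈ B.zeros → (∀ p ∈ B.X0, B.wide p → B.vp p ≠ B.a d) →
      Pay (.U d) (.inl (B.a d, true))
  | u2 (d : δ) (p : π) : d ∈ B.Ubs → B.a d ∈ B.zeros → p ∈ B.X0 → B.wide p → B.vp p = B.a d →
      Pay (.U d) (.inl (B.a d, false))
  | u3 (d : δ) : d ∈ B.Ubs → B.a d ∉ B.zeros → (B.s d, B.xw d) ∈ B.unused →
      B.bl (B.xw d) = some (B.a d) → Pay (.U d) (.inr (B.s d, B.xw d))
  | p1 (d : δ) : d ∈ B.Pbs → B.v d ∈ B.zeros → (B.A (B.a d)).card = 2 → Pay (.P d) (.inl (B.v d, true))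

lemma Ubs_St (d : δ) (h : d ∈ B.Ubs) : d ∈ B.St := by
  classical
  exact (mem_filter.1 h).1

lemma Pbs_St (d : δ) (h : d ∈ B.Pbs) : d ∈ B.St := by
  classical
  exact (mem_filter.1 h).1

/-- every credit pays at most one bill: credits `α` -/
lemma unique_t (b : Bill τ δ κ π) (w : ν) (h : B.Pay b (.inl (w, true))) (b' : Bill τ δ κ π)
    (h' : B.Pay b' (.inl (w, true))) : b = b' := by
  cases h with
  | a1 p h1 h2 h3 =>
    generalize hz : B.vp p = z at h'
    cases h' with
    | a1 q k1 k2 k3 => rw [B.wide_inj p h1 q k1 h3 k3 hz]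
    | b1 x k1 k2 => exact absurd hz.symm (B.pe_ne_vp x k1 p h1)
    | c3 d k1 k2 k3 k4 => exact absurd hz (B.vp_ne_v p h1 d k1)
    | u1 d k1 k2 k3 => exact absurd hz (k3 p h1 h3)
    | p1 d k1 k2 k3 => exact absurd hz (B.vp_ne_v p h1 d (B.Pbs_St d k1))
  | b1 x h1 h2 =>
    generalize hz : B.pe x = z at h'
    cases h' with
    | a1 q k1 k2 k3 => exact absurd hz (B.pe_ne_vp x h1 q k1)
    | b1 y k1 k2 => rw [B.pe_inj x h1 y k1 hz]
    | c3 d k1 k2 k3 k4 => exact absurd hz (B.pe_ne_v x h1 d k1)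
    | u1 d k1 k2 k3 => exact absurd hz (B.pe_ne_a x h1 d (B.Ubs_St d k1))
    | p1 d k1 k2 k3 => exact absurd hz (B.pe_ne_v x h1 d (B.Pbs_St d k1))
  | c3 e h1 h2 h3 h4 =>
    generalize hz : B.v e = z at h'
    cases h' with
    | a1 q k1 k2 k3 => exact absurd hz.symm (B.vp_ne_v q k1 e h1)
    | b1 y k1 k2 => exact absurd hz.symm (B.pe_ne_v y k1 e h1)
    | c3 d k1 k2 k3 k4 => rw [B.v_inj e h1 d k1 hz]
    | u1 d k1 k2 k3 => exact absurd hz.symm (B.a_ne_v d (B.Ubs_St d k1) e h1)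
    | p1 d k1 k2 k3 =>
      have := B.v_inj e h1 d (B.Pbs_St d k1) hz
      subst this
      rw [h3] at k3
      exact absurd k3 (by norm_num)
  | u1 e h1 h2 h3 =>
    generalize hz : B.a e = z at h'
    cases h' with
    | a1 q k1 k2 k3 => exact absurd hz.symm (h3 q k1 k3)
    | b1 y k1 k2 => exact absurd hz.symm (B.pe_ne_a y k1 e (B.Ubs_St e h1))
    | c3 d k1 k2 k3 k4 => exact absurd hz (B.a_ne_v e (B.Ubs_St e h1) d k1)
    | u1 d k1 k2 k3 => rw [B.a_inj e (B.Ubs_St e h1) d (B.Ubs_St d k1) hz]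
    | p1 d k1 k2 k3 => exact absurd hz (B.a_ne_v e (B.Ubs_St e h1) d (B.Pbs_St d k1))
  | p1 e h1 h2 h3 =>
    generalize hz : B.v e = z at h'
    cases h' with
    | a1 q k1 k2 k3 => exact absurd hz.symm (B.vp_ne_v q k1 e (B.Pbs_St e h1))
    | b1 y k1 k2 => exact absurd hz.symm (B.pe_ne_v y k1 e (B.Pbs_St e h1))
    | c3 d k1 k2 k3 k4 =>
      have := B.v_inj e (B.Pbs_St e h1) d k1 hz
      subst this
      rw [k3] at h3
      exact absurd h3 (by norm_num)
    | u1 d k1 k2 k3 => exact absurd hz.symm (B.a_ne_v d (B.Ubs_St d k1) e (B.Pbs_St e h1))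
    | p1 d k1 k2 k3 => rw [B.v_inj e (B.Pbs_St e h1) d (B.Pbs_St d k1) hz]

/-- credits `γ` -/
lemma unique_f (b : Bill τ δ κ π) (w : ν) (h : B.Pay b (.inl (w, false))) (b' : Bill τ δ κ π)
    (h' : B.Pay b' (.inl (w, false))) : b = b' := by
  cases h with
  | c1 _ h1 h2 =>
    cases h' with
    | c1 _ k1 k2 => rfl
    | u2 d p k1 k2 k3 k4 k5 =>
      rw [← k5] at h2
      exact absurd h2 (B.wide_ext p k3 k4)
  | u2 e p h1 h2 h3 h4 h5 =>
    generalize hz : B.a e = z at h'
    cases h' with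
    | c1 _ k1 k2 =>
      rw [← hz, ← h5] at k2
      exact absurd k2 (B.wide_ext p h3 h4)
    | u2 d q k1 k2 k3 k4 k5 => rw [B.a_inj e (B.Ubs_St e h1) d (B.Ubs_St d k1) hz]

/-- slots -/
lemma unique_s (b : Bill τ δ κ π) (y : τ × δ) (h : B.Pay b (.inr y)) (b' : Bill τ δ κ π)
    (h' : B.Pay b' (.inr y)) : b = b' := by
  cases h with
  | a2 p _ h1 h2 h3 h4 h5 =>
    cases h' with
    | a2 q _ k1 k2 k3 k4 k5 =>
      by_contra hne
      have hpq : p ≠ q := by rintro rfl; exact hne rfl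
      exact disjoint_left.1 (B.tor_disj p h1 q k1 hpq) h3 k3
    | b2 x _ k1 k2 k3 k4 => exact absurd h3 (k4 p h1)
    | c2 d k1 k2 k3 k4 => exact absurd k2 (h4 d k1 rfl)
    | u3 d k1 k2 k3 k4 => exact absurd rfl (h5 d k1 k2)
  | b2 x _ h1 h2 h3 h4 =>
    cases h' with
    | a2 q _ k1 k2 k3 k4 k5 => exact absurd k3 (h4 q k1)
    | b2 x' _ k1 k2 k3 k4 =>
      rw [h3] at k3
      rw [B.pe_inj x h1 x' k1 (Option.some.inj k3)]
    | c2 d k1 k2 k3 k4 =>
      simp only at h3
      rw [k4] at h3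
      exact absurd (Option.some.inj h3).symm (B.pe_ne_a x h1 d k1)
    | u3 d k1 k2 k3 k4 =>
      simp only at h3
      rw [k4] at h3
      exact absurd (Option.some.inj h3).symm (B.pe_ne_a x h1 d (B.Ubs_St d k1))
  | c2 e h1 h2 h3 h4 =>
    generalize hz : (B.s e, e) = z at h'
    cases h' with
    | a2 q _ k1 k2 k3 k4 k5 => exact absurd h2 (k4 e h1 hz.symm)
    | b2 x _ k1 k2 k3 k4 =>
      rw [← hz] at k3
      simp only at k3
      rw [h4] at k3
      exact absurd (Option.some.inj k3).symm (B.pe_ne_a x k1 e h1)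
    | c2 d k1 k2 k3 k4 =>
      have : e = d := (Prod.ext_iff.1 hz).2
      rw [this]
    | u3 d k1 k2 k3 k4 =>
      have : e = B.xw d := (Prod.ext_iff.1 hz).2
      rw [this] at h1
      exact absurd h1 (B.xw_not d (B.Ubs_St d k1))
  | u3 e h1 h2 h3 h4 =>
    generalize hz : (B.s e, B.xw e) = z at h'
    cases h' with
    | a2 q _ k1 k2 k3 k4 k5 => exact absurd hz.symm (k5 e h1 h2)
    | b2 x _ k1 k2 k3 k4 =>
      rw [← hz] at k3
      simp only at k3
      rw [h4] at k3
      exact absurd (Option.some.inj k3).symm (B.pe_ne_a x k1 e (B.Ubs_St e h1))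
    | c2 d k1 k2 k3 k4 =>
      have : B.xw e = d := (Prod.ext_iff.1 hz).2
      rw [← this] at k1
      exact absurd k1 (B.xw_not e (B.Ubs_St e h1))
    | u3 d k1 k2 k3 k4 =>
      have : B.xw e = B.xw d := (Prod.ext_iff.1 hz).2
      rw [this, k4] at h4
      rw [B.a_inj e (B.Ubs_St e h1) d (B.Ubs_St d k1) (Option.some.inj h4).symm]

lemma unique (b b' : Bill τ δ κ π) (c : (ν × Bool) ⊕ (τ × δ)) (h : B.Pay b c) (h' : B.Pay b' c) : b = b' := by
  rcases c with ⟨w, t⟩ | y
  · cases t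
    · exact B.unique_f b w h b' h'
    · exact B.unique_t b w h b' h'
  · exact B.unique_s b y h b' h'

/-- the credits -/
noncomputable def credits : Finset ((ν × Bool) ⊕ (τ × δ)) := (B.zeros ×ˢ (univ : Finset Bool)).disjSum B.unused

lemma credits_card : B.credits.card = 2 * B.zeros.card + B.unused.card := by
  rw [credits, card_disjSum, card_product, Finset.card_univ, Fintype.card_bool, mul_comm]

lemma pay_mem (b : Bill τ δ κ π) (c : (ν × Bool) ⊕ (τ × δ)) (h : B.Pay b c) : c ∈ B.credits := by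
  cases h with
  | a1 p h1 h2 h3 => rw [credits, inl_mem_disjSum, mem_product]; exact ⟨h2, mem_univ _⟩
  | a2 p x h1 h2 h3 h4 h5 => rw [credits, inr_mem_disjSum]; exact h2
  | b1 x h1 h2 => rw [credits, inl_mem_disjSum, mem_product]; exact ⟨h2, mem_univ _⟩
  | b2 x y h1 h2 h3 h4 => rw [credits, inr_mem_disjSum]; exact h2
  | c1 w h1 h2 => rw [credits, inl_mem_disjSum, mem_product]; exact ⟨h1, mem_univ _⟩
  | c2 d h1 h2 h3 h4 => rw [credits, inr_mem_disjSum]; exact h3
  | c3 d h1 h2 h3 h4 => rw [credits, inl_mem_disjSum, mem_product]; exact ⟨h4, mem_univ _⟩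
  | u1 d h1 h2 h3 => rw [credits, inl_mem_disjSum, mem_product]; exact ⟨h2, mem_univ _⟩
  | u2 d p h1 h2 h3 h4 h5 => rw [credits, inl_mem_disjSum, mem_product]; exact ⟨h2, mem_univ _⟩
  | u3 d h1 h2 h3 h4 => rw [credits, inr_mem_disjSum]; exact h3
  | p1 d h1 h2 h3 => rw [credits, inl_mem_disjSum, mem_product]; exact ⟨h2, mem_univ _⟩

/-- the set of all bills, as a subset of a sum type -/
noncomputable def allB : Finset (((π ⊕ (τ × δ)) ⊕ κ) ⊕ (δ ⊕ δ)) :=
  ((B.X0.disjSum B.Ecost).disjSum B.Ext).disjSum (B.Ubs.disjSum B.Pbs)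

/-- from the sum type to bills -/
def toBill : ((π ⊕ (τ × δ)) ⊕ κ) ⊕ (δ ⊕ δ) → Bill τ δ κ π
  | .inl (.inl (.inl p)) => .A p
  | .inl (.inl (.inr x)) => .B x
  | .inl (.inr q) => .C q
  | .inr (.inl d) => .U d
  | .inr (.inr d) => .P d

omit [DecidableEq τ] [DecidableEq δ] [DecidableEq κ] [DecidableEq π] in
lemma toBill_inj (x y : ((π ⊕ (τ × δ)) ⊕ κ) ⊕ (δ ⊕ δ))
    (h : toBill (τ := τ) (δ := δ) (κ := κ) (π := π) x = toBill y) : x = y := by
  rcases x with ((x | x) | x) | (x | x) <;> rcases y with ((y | y) | y) | (y | y) <;>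
    simp_all [toBill]

lemma pay_ex (x : ((π ⊕ (τ × δ)) ⊕ κ) ⊕ (δ ⊕ δ)) (hx : x ∈ B.allB) :
    ∃ c, B.Pay (toBill x) c := by
  classical
  rcases x with ((p | x) | q) | (d | d)
  · rw [allB, inl_mem_disjSum, inl_mem_disjSum, inl_mem_disjSum] at hx
    rcases B.bill_a p hx with ⟨h1, h2⟩ | ⟨x, h1, h2, h3, h4⟩
    · exact ⟨_, Pay.a1 p hx h1 h2⟩
    · exact ⟨_, Pay.a2 p x hx h1 h2 h3 h4⟩
  · rw [allB, inl_mem_disjSum, inl_mem_disjSum, inr_mem_disjSum] at hx
    rcases B.bill_b x hx with h1 | ⟨y, h1, h2, h3⟩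
    · exact ⟨_, Pay.b1 x hx h1⟩
    · exact ⟨_, Pay.b2 x y hx h1 h2 h3⟩
  · rw [allB, inl_mem_disjSum, inr_mem_disjSum] at hx
    rcases B.bill_c q hx with ⟨w, h1, rfl⟩ | ⟨d, h1, rfl, h3, h4⟩
    · exact ⟨_, Pay.c1 w h1 hx⟩
    · rcases h4 with h4 | ⟨h4, h5⟩
      · exact ⟨_, Pay.c2 d h1 hx h4 h3⟩
      · exact ⟨_, Pay.c3 d h1 hx h4 h5⟩
  · rw [allB, inr_mem_disjSum, inl_mem_disjSum] at hx
    by_cases h0 : B.a d ∈ B.zeros
    · by_cases h1 : ∃ p ∈ B.X0, B.wide p ∧ B.vp p = B.a d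
      · obtain ⟨p, h2, h3, h4⟩ := h1
        exact ⟨_, Pay.u2 d p hx h0 h2 h3 h4⟩
      · refine ⟨_, Pay.u1 d hx h0 (fun p h2 h3 h4 => h1 ⟨p, h2, h3, h4⟩)⟩
    · rcases B.bill_U d hx with h1 | ⟨h1, h2⟩
      · exact absurd h1 h0
      · exact ⟨_, Pay.u3 d hx h0 h1 h2⟩
  · rw [allB, inr_mem_disjSum, inr_mem_disjSum] at hx
    obtain ⟨h1, h2⟩ := B.bill_P d hx
    exact ⟨_, Pay.p1 d hx h1 h2⟩

/-- THE BILLS ARE PAID -/
theorem bills : B.X0.card + B.Ecost.card + B.Ext.card + B.Ubs.card + B.Pbs.card ≤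
    2 * B.zeros.card + B.unused.card := by
  classical
  have h1 : B.allB.card ≤ B.credits.card := by
    rcases isEmpty_or_nonempty ((ν × Bool) ⊕ (τ × δ)) with h0 | h0
    · have : B.allB = ∅ := by
        rw [eq_empty_iff_forall_notMem]
        intro x hx
        obtain ⟨c, _⟩ := B.pay_ex x hx
        exact h0.elim c
      rw [this, card_empty]
      exact Nat.zero_le _
    have h := B.pay_ex
    choose! f hf using h
    refine card_le_card_of_injOn f (fun x hx => B.pay_mem _ _ (hf x hx)) ?_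
    intro x hx y hy hxy
    rw [mem_coe] at hx hy
    have e1 := hf x hx
    have e2 := hf y hy
    rw [← hxy] at e2
    exact toBill_inj x y (B.unique _ _ _ e1 e2)
  rw [credits_card, allB, card_disjSum, card_disjSum, card_disjSum, card_disjSum] at h1
  omega

/-- with the counting inequality -/
theorem final : B.X0.card + B.Ext.card ≤ B.St.card + B.CU.card + B.CP.card := by
  have h1 := B.bills
  have h2 := B.toReg.count
  omega

end Bil

end Pool.Agent.Helper41.AG7
end

/- Helper41.AG7.Open -/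
section
/-!
# AG section 7: the open region

`X` is the region `R`, `bd X = {b, b'}`, the stub `b` starts at `v0` (corner `b`), the stub `b'` ends at `v0`
(corner `rot b'`).  `a_1` = corner `rot b`, `a_2` = corner `b'`.
-/

set_option autoImplicit false
set_option linter.unusedSectionVars false
open Finset

namespace Pool.Agent.Helper41.AG7

open _root_.AG _root_.AG.Obj Pool.Agent.Helper29.AG7

variable {I : Type} [DecidableEq I]

/-- the open region -/
structure Op (S : Obj I) (pt : Sd I → Pt) (X : Finset I) (b b' : Sd I) : Prop where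
  geo : S.Geo pt
  H : RHyp S pt X
  bd : S.bd X = {b, b'}
  eqv : S.Eqv b (rot b')
  psl : S.ps (rot b') < S.ps b
  /-- not both stubs are blocked at `v0` -/
  nb : ¬ (S.Blk pt b ∧ S.Blk pt (S.g b'))
  f1 : S.Face b.1 ∨ S.Blade (rot b)
  f2 : S.Face b'.1 ∨ S.Blade b'

/-- the visit `a_i` of the stub `d` -/
noncomputable def aD (S : Obj I) (X : Finset I) (b b' : Sd I) (d : Finset (Sd I)) : Sd I :=
  if d = dg S b then (S.keep X).last (rot b) else (S.keep X).last b'

/-- the visit `v_i` of the stub `d` -/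
noncomputable def vD (S : Obj I) (X : Finset I) (b b' : Sd I) (d : Finset (Sd I)) : Sd I :=
  if d = dg S b then (S.keep X).last b else (S.keep X).last (rot b')

/-- the triangle `s_i` of the stub `d` -/
def sD (S : Obj I) (b b' : Sd I) (d : Finset (Sd I)) : I := if d = dg S b then b.1 else b'.1

/-- the other diagonal of `s_i` at `a_i` -/
def xD (S : Obj I) (b b' : Sd I) (d : Finset (Sd I)) : Finset (Sd I) :=
  if d = dg S b then dg S (rot b) else dg S (unrot b')

variable {S : Obj I} {pt : Sd I → Pt} {X : Finset I} {b b' : Sd I}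

theorem pt_last (hg : S.Geo pt) (X : Finset I) (a : Sd I) : pt ((S.keep X).last a) = pt a :=
  (hg.pt_eqv ((last_eqv (S.keep X) a).mono (keep_le S X))).symm

theorem ps_last (hl : S.Linear) (X : Finset I) (a : Sd I) : S.ps ((S.keep X).last a) ≤ S.ps a := by
  obtain ⟨n, hn⟩ := keep_linear hl X a
  rw [last_eq_of hn]
  clear hn
  induction n with
  | zero => exact le_refl _
  | succ n ih =>
    rw [Function.iterate_succ_apply']
    refine le_trans ?_ ih
    obtain ⟨c, hc⟩ : ∃ c, c = (S.keep X).cw^[n] a := ⟨_, rfl⟩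
    rw [← hc]
    by_cases h : (S.keep X).g c = c
    · rw [cw_of_unglued h]
    · have h1 : (S.keep X).cw c = S.cw c := by
        obtain ⟨h2, h3⟩ := (keep_le S X).glued h
        rw [cw_of_glued h, cw_of_glued h3, h2]
      obtain ⟨h2, h3⟩ := (keep_le S X).glued h
      rw [h1, ps_of_glued hl h3]
      omega

/-- the visits of a diagonal -/
theorem vz_in {a : Sd I} (h : a.1 ∈ X) : vz S X a = (S.keep X).last a := by
  rw [vz, if_pos h]

theorem vz_out {a : Sd I} (h : a.1 ∉ X) : vz S X a = (S.keep X).last (rot (S.g a)) := by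
  rw [vz, if_neg h]

theorem regA (H : RHyp S pt X) (w : Sd I) : H.reg.A w = Aw S X (S.Blk pt) w := rfl

theorem mem_A' (H : RHyp S pt X) {d : Finset (Sd I)} {w : Sd I} : d ∈ H.reg.A w ↔
    ∃ a, (a.1 ∈ X ∨ (S.g a).1 ∈ X) ∧ d = dg S a ∧ S.Blk pt a ∧ vz S X a = w := by
  rw [regA]
  exact mem_Aw (fun a ha => ha.1) H.b1

theorem mem_zeros (H : RHyp S pt X) {w : Sd I} : w ∈ H.reg.zeros ↔ w ∈ (S.keep X).vis ∧
    ∀ a, (a.1 ∈ X ∨ (S.g a).1 ∈ X) → S.Blk pt a → vz S X a ≠ w := by
  rw [Reg.zeros, mem_filter, card_eq_zero, eq_empty_iff_forall_notMem]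
  constructor
  · rintro ⟨h1, h2⟩
    refine ⟨h1, fun a ha hb hv => h2 (dg S a) ((mem_A' H).2 ⟨a, ha, rfl, hb, hv⟩)⟩
  · rintro ⟨h1, h2⟩
    refine ⟨h1, fun d hd => ?_⟩
    obtain ⟨a, ha, _, hb, hv⟩ := (mem_A' H).1 hd
    exact h2 a ha hb hv

namespace Op

variable (O : Op S pt X b b')
include O

theorem bX : b.1 ∈ X ∧ (S.g b).1 ∉ X ∧ S.g b ≠ b := by
  have h : b ∈ S.bd X := by rw [O.bd]; exact mem_insert_self _ _
  obtain ⟨h1, h2, h3⟩ := mem_bd.1 h
  exact ⟨h2, h3, h1⟩

theorem bX' : b'.1 ∈ X ∧ (S.g b').1 ∉ X ∧ S.g b' ≠ b' := by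
  have h : b' ∈ S.bd X := by rw [O.bd]; exact mem_insert_of_mem (mem_singleton_self _)
  obtain ⟨h1, h2, h3⟩ := mem_bd.1 h
  exact ⟨h2, h3, h1⟩

theorem ptv : pt (rot b') = pt b := (O.geo.pt_eqv O.eqv).symm

theorem bF : b.1 ∈ S.F := O.H.sub O.bX.1
theorem bF' : b'.1 ∈ S.F := O.H.sub O.bX'.1

theorem ne : b ≠ b' := by
  intro h
  have h1 := O.ptv
  rw [← h] at h1
  exact O.geo.pt_ne_rot O.bF h1.symm

theorem dg_ne : dg S b' ≠ dg S b := by
  intro h
  rcases dg_eq_iff.1 h with h1 | h1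
  · exact O.ne h1
  · have := O.bX'.2.1
    rw [← h1] at this
    exact this O.bX.1

theorem mem_St {d : Finset (Sd I)} : d ∈ Sts S X ↔ d = dg S b ∨ d = dg S b' := by
  rw [Sts, O.bd, image_insert, image_singleton, mem_insert, mem_singleton]

theorem aD_b : aD S X b b' (dg S b) = (S.keep X).last (rot b) := if_pos rfl
theorem aD_b' : aD S X b b' (dg S b') = (S.keep X).last b' := if_neg O.dg_ne
theorem vD_b : vD S X b b' (dg S b) = (S.keep X).last b := if_pos rfl
theorem vD_b' : vD S X b b' (dg S b') = (S.keep X).last (rot b') := if_neg O.dg_ne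
theorem sD_b : sD S b b' (dg S b) = b.1 := if_pos rfl
theorem sD_b' : sD S b b' (dg S b') = b'.1 := if_neg O.dg_ne
theorem xD_b : xD S b b' (dg S b) = dg S (rot b) := if_pos rfl
theorem xD_b' : xD S b b' (dg S b') = dg S (unrot b') := if_neg O.dg_ne

/-- the four sides at the stubs -/
theorem stub_side {a : Sd I} (h : a.1 ∈ X ∨ (S.g a).1 ∈ X) (hg : S.g a ≠ a)
    (hn : ¬ (a.1 ∈ X ∧ (S.g a).1 ∈ X)) : a = b ∨ a = S.g b ∨ a = b' ∨ a = S.g b' := by
  by_cases h1 : a.1 ∈ X
  · have h2 : (S.g a).1 ∉ X := fun h2 => hn ⟨h1, h2⟩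
    have h3 : a ∈ S.bd X := mem_bd.2 ⟨hg, h1, h2⟩
    rw [O.bd, mem_insert, mem_singleton] at h3
    rcases h3 with h3 | h3
    · exact Or.inl h3
    · exact Or.inr (Or.inr (Or.inl h3))
  · have h2 : (S.g a).1 ∈ X := h.resolve_left h1
    have h3 : S.g a ∈ S.bd X := mem_bd.2 ⟨by rw [S.invol]; exact hg.symm, h2, by rw [S.invol]; exact h1⟩
    rw [O.bd, mem_insert, mem_singleton] at h3
    rcases h3 with h3 | h3
    · right; left; rw [← h3, S.invol]
    · right; right; right; rw [← h3, S.invol]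

theorem vz_gb : vz S X (S.g b) = (S.keep X).last (rot b) := by
  rw [vz_out O.bX.2.1, S.invol]

theorem vz_gb' : vz S X (S.g b') = (S.keep X).last (rot b') := by
  rw [vz_out O.bX'.2.1, S.invol]

theorem keep_b : (S.keep X).g b = b := by
  rw [keep_g, if_neg]
  exact fun h => O.bX.2.1 h.2

theorem keep_b' : (S.keep X).g b' = b' := by
  rw [keep_g, if_neg]
  exact fun h => O.bX'.2.1 h.2

theorem last_b : (S.keep X).last b = b := last_of_unglued O.keep_b

theorem last_b' : (S.keep X).last b' = b' := last_of_unglued O.keep_b'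

theorem v_ne : (S.keep X).last b ≠ (S.keep X).last (rot b') := by
  intro h
  rw [O.last_b] at h
  have h1 := ps_last O.H.lin X (rot b')
  rw [← h] at h1
  have := O.psl
  omega

theorem pt_a_ne : pt (rot b) ≠ pt b' := by
  intro h
  have h1 : b = S.g b' := by
    apply O.geo.side_inj O.bF (g_memF O.bX'.2.2)
    · rw [O.geo.mat' O.bX'.2.2, O.ptv]
    · rw [h, O.geo.mat b' O.bX'.2.2]
  have := O.bX'.2.1
  rw [← h1] at this
  exact this O.bX.1

theorem a_ne : (S.keep X).last (rot b) ≠ (S.keep X).last b' := by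
  intro h
  apply O.pt_a_ne
  rw [← pt_last O.geo X (rot b), h, pt_last O.geo]

theorem pt_rb_ne : pt (rot b) ≠ pt b := fun h => O.geo.pt_ne_rot O.bF h.symm

theorem pt_b'_ne : pt b' ≠ pt b := fun h => O.geo.pt_ne_rot O.bF' (by rw [h, O.ptv])

theorem pt_aD {d : Finset (Sd I)} (hd : d ∈ Sts S X) : pt (aD S X b b' d) ≠ pt b := by
  rcases O.mem_St.1 hd with rfl | rfl
  · rw [O.aD_b, pt_last O.geo]; exact O.pt_rb_ne
  · rw [O.aD_b', pt_last O.geo]; exact O.pt_b'_ne

theorem pt_vD {d : Finset (Sd I)} (hd : d ∈ Sts S X) : pt (vD S X b b' d) = pt b := by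
  rcases O.mem_St.1 hd with rfl | rfl
  · rw [O.vD_b, pt_last O.geo]
  · rw [O.vD_b', pt_last O.geo, O.ptv]

theorem aD_inj : ∀ d ∈ Sts S X, ∀ d' ∈ Sts S X, aD S X b b' d = aD S X b b' d' → d = d' := by
  intro d hd d' hd' h
  rcases O.mem_St.1 hd with rfl | rfl <;> rcases O.mem_St.1 hd' with rfl | rfl
  · rfl
  · rw [O.aD_b, O.aD_b'] at h; exact absurd h O.a_ne
  · rw [O.aD_b, O.aD_b'] at h; exact absurd h.symm O.a_ne
  · rfl

theorem vD_inj : ∀ d ∈ Sts S X, ∀ d' ∈ Sts S X, vD S X b b' d = vD S X b b' d' → d = d' := by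
  intro d hd d' hd' h
  rcases O.mem_St.1 hd with rfl | rfl <;> rcases O.mem_St.1 hd' with rfl | rfl
  · rfl
  · rw [O.vD_b, O.vD_b'] at h; exact absurd h O.v_ne
  · rw [O.vD_b, O.vD_b'] at h; exact absurd h.symm O.v_ne
  · rfl

theorem a_ne_v : ∀ d ∈ Sts S X, ∀ d' ∈ Sts S X, aD S X b b' d ≠ vD S X b b' d' := by
  intro d hd d' hd' h
  have h1 := O.pt_aD hd
  rw [h, O.pt_vD hd'] at h1
  exact h1 rfl

theorem xD_not : ∀ d ∈ Sts S X, xD S b b' d ∉ Sts S X := by
  intro d hd h
  -- the ends of `x w` are not at `v0`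
  have key : ∀ a : Sd I, a.1 ∈ S.F → pt a ≠ pt b → pt (rot a) ≠ pt b → dg S a ∉ Sts S X := by
    intro a ha h1 h2 h3
    rcases O.mem_St.1 h3 with h4 | h4
    · rcases dg_eq_iff.1 h4 with h5 | h5
      · rw [← h5] at h1; exact h1 rfl
      · have h6 : a = S.g b := by rw [h5, S.invol]
        rw [h6, O.geo.mat b O.bX.2.2] at h2
        exact h2 rfl
    · rcases dg_eq_iff.1 h4 with h5 | h5
      · rw [← h5, O.ptv] at h2; exact h2 rfl
      · have h6 : a = S.g b' := by rw [h5, S.invol]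
        rw [h6, O.geo.mat' O.bX'.2.2, O.ptv] at h1
        exact h1 rfl
  rcases O.mem_St.1 hd with rfl | rfl
  · rw [O.xD_b] at h
    refine key (rot b) O.bF O.pt_rb_ne ?_ h
    rw [rot_rot]
    exact fun h => O.geo.pt_ne_unrot O.bF h.symm
  · rw [O.xD_b'] at h
    refine key (unrot b') O.bF' ?_ ?_ h
    · intro h
      exact O.geo.pt_rot_ne_unrot O.bF' (by rw [h, O.ptv])
    · rw [rot_unrot]; exact O.pt_b'_ne

/-- `a_1, a_2, v_1, v_2` are visits of the region -/
theorem aD_mem {d : Finset (Sd I)} (hd : d ∈ Sts S X) : aD S X b b' d ∈ (S.keep X).vis := by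
  have hs : ∀ a : Sd I, a.1 ∈ X → (S.keep X).last a ∈ (S.keep X).vis := fun a ha =>
    last_mem_vis (keep_linear O.H.lin X) (mem_sides.2 (by rw [keep_F S O.H.sub]; exact ha))
  rcases O.mem_St.1 hd with rfl | rfl
  · rw [O.aD_b]; exact hs _ O.bX.1
  · rw [O.aD_b']; exact hs _ O.bX'.1

theorem vD_mem {d : Finset (Sd I)} (hd : d ∈ Sts S X) : vD S X b b' d ∈ (S.keep X).vis := by
  have hs : ∀ a : Sd I, a.1 ∈ X → (S.keep X).last a ∈ (S.keep X).vis := fun a ha =>
    last_mem_vis (keep_linear O.H.lin X) (mem_sides.2 (by rw [keep_F S O.H.sub]; exact ha))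
  rcases O.mem_St.1 hd with rfl | rfl
  · rw [O.vD_b]; exact hs _ O.bX.1
  · rw [O.vD_b']; exact hs _ O.bX'.1
end Op
end AG7
end Helper41
end Agent
end Pool
end

/- Helper41.AG7.OpenBills -/
section
/-!
# AG section 7: the bills (c), (Ub), (Pb) of the open region
-/

set_option autoImplicit false
set_option linter.unusedSectionVars false
open Finset

namespace Pool.Agent.Helper41.AG7

open _root_.AG _root_.AG.Obj Pool.Agent.Helper29.AG7

variable {I : Type} [DecidableEq I]

/-- extreme points of the region -/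
structure ExtOf (S : Obj I) (pt : Sd I → Pt) (X : Finset I) (Ext : Finset Pt) : Prop where
  three : 3 ≤ Ext.card
  mem : ∀ q ∈ Ext, ∃ c : Sd I, c.1 ∈ X ∧ pt c = q
  small : ∀ c : Sd I, c.1 ∈ X → pt c ∈ Ext → ∀ Y : Finset (Sd I),
    (∀ d ∈ Y, d.1 ∈ X ∧ (S.keep X).Eqv c d) → ∑ d ∈ Y, cang pt d < Real.pi

variable {S : Obj I} {pt : Sd I → Pt} {X : Finset I} {b b' : Sd I} {Ext : Finset Pt}

theorem exists_extOf (hg : S.Geo pt) (hl : S.Linear) (hX : X ⊆ S.F) (hne : X.Nonempty) :
    ∃ Ext, ExtOf S pt X Ext := by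
  have hg' : (S.keep X).Geo pt := hg.mono (keep_le S X)
  obtain ⟨Ext, h1, h2⟩ := hg'.exists_ext (keep_linear hl X) (by rw [keep_F S hX]; exact hne)
  have hs : ∀ c : Sd I, c ∈ (S.keep X).sides ↔ c.1 ∈ X := fun c => by rw [mem_sides, keep_F S hX]
  refine ⟨Ext, h1, fun q hq => ?_, fun c hc hq Y hY => ?_⟩
  · obtain ⟨⟨c, hc, hcq⟩, _⟩ := h2 q hq
    exact ⟨c, (hs c).1 hc, hcq⟩
  · exact (h2 _ hq).2 c ((hs c).2 hc) rfl Y (fun d hd => ⟨(hs d).2 (hY d hd).1, (hY d hd).2⟩)

/-- no inner diagonal is blocked at an extreme point -/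
theorem ExtOf.not_blk (E : ExtOf S pt X Ext) {a : Sd I} (h1 : a.1 ∈ X) (h2 : (S.g a).1 ∈ X)
    (hb : S.Blk pt a) : pt a ∉ Ext := by
  intro hq
  have h3 : a ≠ rot (S.g a) := fun h => S.ne a hb.1 (by rw [← rot_fst (S.g a), ← h])
  have hk : (S.keep X).g a = S.g a := by rw [keep_g, if_pos ⟨h1, h2⟩]
  have he : (S.keep X).Eqv a (rot (S.g a)) := by
    have := Eqv.of_glued (S := S.keep X) (a := a) (by rw [hk]; exact hb.1)
    rwa [hk] at this
  have h4 := E.small a h1 hq {a, rot (S.g a)} (by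
    intro d hd
    rw [mem_insert, mem_singleton] at hd
    rcases hd with rfl | rfl
    · exact ⟨h1, Eqv.refl _ _⟩
    · exact ⟨h2, he⟩)
  rw [sum_pair h3] at h4
  have h5 := hb.2
  linarith

/-- a fan with one corner -/
theorem last_eq_self {S' : Obj I} {w : Sd I} (hw : S'.g (unrot w) = unrot w) (hl : S'.Linear)
    {a : Sd I} (h : S'.last a = w) : a = w := by
  obtain ⟨n, hn⟩ := hl a
  rw [last_eq_of hn] at h
  clear hn
  induction n with
  | zero => exact h
  | succ n ih =>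
    rw [Function.iterate_succ_apply'] at h
    obtain ⟨c, hc⟩ : ∃ c, c = S'.cw^[n] a := ⟨_, rfl⟩
    rw [← hc] at h ih
    by_cases hg : S'.g c = c
    · rw [cw_of_unglued hg] at h
      exact ih h
    · rw [cw_of_glued hg] at h
      have h1 : S'.g c = unrot w := by rw [← h, unrot_rot]
      have h2 : S'.g (unrot w) = c := by rw [← h1, S'.invol]
      rw [hw] at h2
      rw [h1, h2] at hg
      exact absurd rfl hg

namespace Op

variable (O : Op S pt X b b')
include O

theorem stub_of_ext (E : ExtOf S pt X Ext) {a : Sd I} (h : a.1 ∈ X ∨ (S.g a).1 ∈ X)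
    (hb : S.Blk pt a) (hq : pt a ∈ Ext) : a = b ∨ a = S.g b ∨ a = b' ∨ a = S.g b' :=
  O.stub_side h hb.1 (fun h1 => E.not_blk h1.1 h1.2 hb hq)

theorem pt_vz {a : Sd I} (hg : S.g a ≠ a) : pt (vz S X a) = pt a :=
  (O.geo.pt_eqv (vz_eqv (X := X) hg)).symm

theorem v1_zero (h : S.Blade (rot b)) (hb : ¬ S.Blk pt b) : (S.keep X).last b ∈ O.H.reg.zeros := by
  rw [mem_zeros]
  refine ⟨by have := O.vD_mem (O.mem_St.2 (Or.inl rfl)); rwa [O.vD_b] at this, ?_⟩
  intro a ha hba hv
  have hu : S.g (unrot b) = unrot b := by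
    have := h.2.2.1
    rwa [rot_rot] at this
  have hk : (S.keep X).g (unrot b) = unrot b := by rw [keep_g]; split_ifs <;> [exact hu; rfl]
  rw [O.last_b] at hv
  by_cases h1 : a.1 ∈ X
  · rw [vz_in h1] at hv
    have := last_eq_self hk (keep_linear O.H.lin X) hv
    rw [this] at hba
    exact hb hba
  · rw [vz_out h1] at hv
    have h2 := last_eq_self hk (keep_linear O.H.lin X) hv
    have h3 : S.g a = unrot b := by rw [← h2, unrot_rot]
    have h4 : S.g (unrot b) = a := by rw [← h3, S.invol]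
    rw [hu] at h4
    exact hba.1 (by rw [h3, h4])

theorem v2_zero (h : S.Blade b') (hb : ¬ S.Blk pt (S.g b')) :
    (S.keep X).last (rot b') ∈ O.H.reg.zeros := by
  rw [mem_zeros]
  refine ⟨by have := O.vD_mem (O.mem_St.2 (Or.inr rfl)); rwa [O.vD_b'] at this, ?_⟩
  intro a ha hba hv
  have hu : S.g (rot b') = rot b' := h.2.2.1
  have hk : (S.keep X).g (rot b') = rot b' := by rw [keep_g]; split_ifs <;> [exact hu; rfl]
  have hk' : (S.keep X).g (unrot (rot b')) = unrot (rot b') := by rw [unrot_rot]; exact O.keep_b'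
  rw [last_of_unglued hk] at hv
  by_cases h1 : a.1 ∈ X
  · rw [vz_in h1] at hv
    have := last_eq_self hk' (keep_linear O.H.lin X) hv
    rw [this] at hba
    exact hba.1 hu
  · rw [vz_out h1] at hv
    have h2 := last_eq_self hk' (keep_linear O.H.lin X) hv
    have h3 : S.g a = b' := rot_injective h2
    have h4 : a = S.g b' := by rw [← h3, S.invol]
    rw [h4] at hba
    exact hb hba

/-- the stub `d_1` blocked at `a_1` -/
theorem bl_b (h : S.Blk pt (S.g b)) : O.H.reg.bl (dg S b) = some (aD S X b b' (dg S b)) := by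
  have h1 := bl_of_blk (S := S) (X := X) O.H.b1 h
  rw [dg_g, O.vz_gb] at h1
  rw [O.aD_b]
  exact h1

theorem bl_b' (h : S.Blk pt b') : O.H.reg.bl (dg S b') = some (aD S X b b' (dg S b')) := by
  have h1 := bl_of_blk (S := S) (X := X) O.H.b1 h
  rw [vz_in O.bX'.1] at h1
  rw [O.aD_b']
  exact h1

theorem mem_face_b (h : S.Face b.1) : b.1 ∈ O.H.reg.face := mem_faces.2 ⟨O.bX.1, h⟩
theorem mem_face_b' (h : S.Face b'.1) : b'.1 ∈ O.H.reg.face := mem_faces.2 ⟨O.bX'.1, h⟩

/-- (c) -/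
theorem bill_c (E : ExtOf S pt X Ext) (q : Pt) (hq : q ∈ Ext) :
    (∃ w ∈ O.H.reg.zeros, pt w = q) ∨ ∃ d ∈ Sts S X, pt (aD S X b b' d) = q ∧
      O.H.reg.bl d = some (aD S X b b' d) ∧ ((sD S b b' d, d) ∈ O.H.reg.unused ∨
        ((O.H.reg.A (aD S X b b' d)).card = 1 ∧ vD S X b b' d ∈ O.H.reg.zeros)) := by
  by_cases hqb : q = pt b
  · left
    by_cases h1 : S.Blk pt b
    · have h2 : ¬ S.Blk pt (S.g b') := fun h => O.nb ⟨h1, h⟩
      refine ⟨(S.keep X).last (rot b'), ?_, by rw [pt_last O.geo, O.ptv, hqb]⟩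
      rw [mem_zeros]
      refine ⟨by have := O.vD_mem (O.mem_St.2 (Or.inr rfl)); rwa [O.vD_b'] at this, ?_⟩
      intro a ha hba hv
      have hpa : pt a = pt b := by
        rw [← O.pt_vz hba.1, hv, pt_last O.geo, O.ptv]
      rcases O.stub_of_ext E ha hba (by rw [hpa, ← hqb]; exact hq) with rfl | rfl | rfl | rfl
      · rw [vz_in O.bX.1] at hv
        exact O.v_ne hv
      · exact O.pt_rb_ne (by rw [← O.geo.mat' O.bX.2.2]; exact hpa)
      · exact O.pt_b'_ne hpa
      · exact h2 hba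
    · refine ⟨(S.keep X).last b, ?_, by rw [pt_last O.geo, hqb]⟩
      rw [mem_zeros]
      refine ⟨by have := O.vD_mem (O.mem_St.2 (Or.inl rfl)); rwa [O.vD_b] at this, ?_⟩
      intro a ha hba hv
      have hpa : pt a = pt b := by
        rw [← O.pt_vz hba.1, hv, pt_last O.geo]
      rcases O.stub_of_ext E ha hba (by rw [hpa, ← hqb]; exact hq) with rfl | rfl | rfl | rfl
      · exact h1 hba
      · exact O.pt_rb_ne (by rw [← O.geo.mat' O.bX.2.2]; exact hpa)
      · exact O.pt_b'_ne hpa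
      · rw [O.vz_gb'] at hv
        exact O.v_ne hv.symm
  · obtain ⟨c, hc, hcq⟩ := E.mem q hq
    by_cases hz : (S.keep X).last c ∈ O.H.reg.zeros
    · exact Or.inl ⟨_, hz, by rw [pt_last O.geo, hcq]⟩
    · right
      -- all sides blocked at this visit
      have key : ∀ a, (a.1 ∈ X ∨ (S.g a).1 ∈ X) → S.Blk pt a → vz S X a = (S.keep X).last c →
          a = S.g b ∨ a = b' := by
        intro a ha hba hv
        have hpa : pt a = q := by rw [← O.pt_vz hba.1, hv, pt_last O.geo, hcq]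
        rcases O.stub_of_ext E ha hba (by rw [hpa]; exact hq) with h | h | h | h
        · rw [h] at hpa; exact absurd hpa.symm hqb
        · exact Or.inl h
        · exact Or.inr h
        · rw [h, O.geo.mat' O.bX'.2.2, O.ptv] at hpa; exact absurd hpa.symm hqb
      have hex : ∃ a, (a.1 ∈ X ∨ (S.g a).1 ∈ X) ∧ S.Blk pt a ∧ vz S X a = (S.keep X).last c := by
        by_contra hcon
        apply hz
        rw [mem_zeros]
        refine ⟨last_mem_vis (keep_linear O.H.lin X) (mem_sides.2 (by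
          rw [keep_F S O.H.sub]; exact hc)), fun a ha hba hv => hcon ⟨a, ha, hba, hv⟩⟩
      obtain ⟨a, ha, hba, hv⟩ := hex
      rcases key a ha hba hv with rfl | rfl
      · have hw : aD S X b b' (dg S b) = (S.keep X).last c := by rw [O.aD_b, ← O.vz_gb, hv]
        have hcard : (O.H.reg.A (aD S X b b' (dg S b))).card = 1 := by
          rw [card_eq_one]
          refine ⟨dg S b, ?_⟩
          ext d
          rw [mem_A' O.H, mem_singleton]
          constructor
          · rintro ⟨e, he1, rfl, he3, he4⟩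
            rw [hw] at he4
            rcases key e he1 he3 he4 with h | h
            · rw [h, dg_g]
            · exfalso
              rw [h, vz_in O.bX'.1, ← hw, O.aD_b] at he4
              exact O.a_ne he4.symm
          · rintro rfl
            exact ⟨S.g b, ha, (dg_g S b).symm, hba, by rw [hv, hw]⟩
        refine ⟨dg S b, O.mem_St.2 (Or.inl rfl), ?_, O.bl_b hba, ?_⟩
        · rw [hw, pt_last O.geo, hcq]
        · rcases O.f1 with hf | hf
          · left
            rw [O.sD_b]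
            exact O.H.reg.unused_of_card_one (O.mem_face_b hf) (dg_mem_inc O.bX.2.2) (O.bl_b hba) hcard
          · right
            refine ⟨hcard, ?_⟩
            rw [O.vD_b]
            refine O.v1_zero hf (fun h => O.H.b1 b h hba)
      · have hw : aD S X b a (dg S a) = (S.keep X).last c := by rw [O.aD_b', ← vz_in O.bX'.1, hv]
        have hcard : (O.H.reg.A (aD S X b a (dg S a))).card = 1 := by
          rw [card_eq_one]
          refine ⟨dg S a, ?_⟩
          ext d
          rw [mem_A' O.H, mem_singleton]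
          constructor
          · rintro ⟨e, he1, rfl, he3, he4⟩
            rw [hw] at he4
            rcases key e he1 he3 he4 with h | h
            · exfalso
              rw [h, O.vz_gb, ← hw, O.aD_b'] at he4
              exact O.a_ne he4
            · rw [h]
          · rintro rfl
            exact ⟨a, ha, rfl, hba, by rw [hv, hw]⟩
        refine ⟨dg S a, O.mem_St.2 (Or.inr rfl), ?_, O.bl_b' hba, ?_⟩
        · rw [hw, pt_last O.geo, hcq]
        · rcases O.f2 with hf | hf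
          · left
            rw [O.sD_b']
            exact O.H.reg.unused_of_card_one (O.mem_face_b' hf) (dg_mem_inc O.bX'.2.2) (O.bl_b' hba) hcard
          · right
            refine ⟨hcard, ?_⟩
            rw [O.vD_b']
            exact O.v2_zero hf (fun h => O.H.b1 a hba h)

/-- (Pb) -/
theorem bill_P (d : Finset (Sd I)) (hd : d ∈ O.H.reg.Pbs) : vD S X b b' d ∈ O.H.reg.zeros ∧
    (O.H.reg.A (aD S X b b' d)).card = 2 := by
  classical
  rw [Reg.Pbs, mem_filter] at hd
  obtain ⟨hst, t, ht, hdt, ⟨w, hwV, hw2, hwt⟩, _⟩ := hd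
  have hA := O.H.reg.hosts_blade ht hw2 hwt
  have hdw : d ∈ O.H.reg.A w := by rw [hA]; exact hdt
  have htb := mem_blades.1 (show t ∈ blades S X from ht)
  rcases O.mem_St.1 hst with rfl | rfl
  · have htb1 : t = b.1 := by
      rcases (dg_mem_inc_iff O.bX.2.2).1 (show dg S b ∈ inc S t from hdt) with h | h
      · exact h
      · rw [h] at htb; exact absurd htb.1 O.bX.2.1
    have hbl : S.Blade (rot b) := by
      rcases O.f1 with h | h
      · obtain ⟨c, hc1, hc2⟩ := htb.2
        rw [← htb1, ← hc1] at h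
        exact absurd h (blade_not_face hc2)
      · exact h
    have hp := O.H.pair_of (w := w) hbl htb1.symm hA
    have hgb : S.Blk pt (S.g b) := by
      have := hp.2
      rwa [unrot_rot] at this
    have h1 := O.bl_b hgb
    have h2 := O.H.reg.A_unique h1 hdw
    rw [h2]
    refine ⟨?_, hw2⟩
    rw [O.vD_b]
    exact O.v1_zero hbl (fun h => O.H.b1 b h hgb)
  · have htb1 : t = b'.1 := by
      rcases (dg_mem_inc_iff O.bX'.2.2).1 (show dg S b' ∈ inc S t from hdt) with h | h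
      · exact h
      · rw [h] at htb; exact absurd htb.1 O.bX'.2.1
    have hbl : S.Blade b' := by
      rcases O.f2 with h | h
      · obtain ⟨c, hc1, hc2⟩ := htb.2
        rw [← htb1, ← hc1] at h
        exact absurd h (blade_not_face hc2)
      · exact h
    have hp := O.H.pair_of (w := w) hbl htb1.symm hA
    have h1 := O.bl_b' hp.1
    have h2 := O.H.reg.A_unique h1 hdw
    rw [h2]
    refine ⟨?_, hw2⟩
    rw [O.vD_b']
    exact O.v2_zero hbl (O.H.b1 b' hp.1)

end Op

/-- alternative (x) of section 8 at the stub `b` (b-like side with the face `(g b).1`) -/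
structure Alt1 (S : Obj I) (pt : Sd I → Pt) (X : Finset I) (b : Sd I) : Prop where
  face : S.Face b.1
  gl : S.g (unrot (S.g b)) ≠ unrot (S.g b)
  out : (S.g (unrot (S.g b))).1 ∉ X
  fin : S.g (unrot (S.g (unrot (S.g b)))) = unrot (S.g (unrot (S.g b)))
  ang : Real.pi ≤ cang pt (rot b) + cang pt (S.g b) + cang pt (S.g (unrot (S.g b)))

/-- alternative (x) of section 8 at the stub `b'` -/
structure Alt2 (S : Obj I) (pt : Sd I → Pt) (X : Finset I) (b' : Sd I) : Prop where
  face : S.Face b'.1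
  gl : S.g (rot (S.g b')) ≠ rot (S.g b')
  out : (S.g (rot (S.g b'))).1 ∉ X
  fin : S.g (rot (S.g (rot (S.g b')))) = rot (S.g (rot (S.g b')))
  ang : Real.pi ≤ cang pt b' + cang pt (rot (S.g b')) + cang pt (rot (S.g (rot (S.g b'))))

/-- two sets of corners at one point with large angles meet -/
theorem meet_of_big (hg : S.Geo pt) {p : Pt} {c1 c2 c3 a : Sd I} (h1 : c1.1 ∈ S.F) (h2 : c2.1 ∈ S.F)
    (h3 : c3.1 ∈ S.F) (p1 : pt c1 = p) (p2 : pt c2 = p) (p3 : pt c3 = p) (n12 : c1 ≠ c2)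
    (n13 : c1 ≠ c3) (n23 : c2 ≠ c3) (hs : Real.pi ≤ cang pt c1 + cang pt c2 + cang pt c3)
    (hb : S.Blk pt a) (pa : pt a = p) :
    (a = c1 ∨ a = c2 ∨ a = c3) ∨ (rot (S.g a) = c1 ∨ rot (S.g a) = c2 ∨ rot (S.g a) = c3) := by
  by_contra hcon
  push Not at hcon
  obtain ⟨⟨a1, a2, a3⟩, ⟨b1, b2, b3⟩⟩ := hcon
  have hra : a ≠ rot (S.g a) := fun h => S.ne a hb.1 (by rw [← rot_fst (S.g a), ← h])
  have haF : a.1 ∈ S.F := S.memF a hb.1
  have hrF : (rot (S.g a)).1 ∈ S.F := g_memF hb.1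
  have hpr : pt (rot (S.g a)) = p := by rw [hg.mat a hb.1, pa]
  have := hg.sum_lt (X := {a, rot (S.g a), c1, c2, c3}) (p := p) (by
    intro c hc
    simp only [mem_insert, mem_singleton] at hc
    rcases hc with rfl | rfl | rfl | rfl | rfl <;> assumption) (by
    intro c hc
    simp only [mem_insert, mem_singleton] at hc
    rcases hc with rfl | rfl | rfl | rfl | rfl <;> assumption)
  rw [sum_insert (by simp [hra, a1, a2, a3]), sum_insert (by simp [b1, b2, b3]),
    sum_insert (by simp [n12, n13]), sum_pair n23] at this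
  have h5 := hb.2
  linarith

namespace Op

variable (O : Op S pt X b b')
include O

/-- (Ub) -/
theorem bill_U' (u1 : S.IsU pt b → ¬ (∃ c, c.1 = (S.g b).1 ∧ S.Blade c) → Alt1 S pt X b)
    (u2 : S.IsU pt b' → ¬ (∃ c, c.1 = (S.g b').1 ∧ S.Blade c) → Alt2 S pt X b')
    (d : Finset (Sd I)) (hd : d ∈ O.H.reg.Ubs) : aD S X b b' d ∈ O.H.reg.zeros ∨
      ((O.H.reg.A (aD S X b b' d)).card = 1 ∧ (sD S b b' d, xD S b b' d) ∈ O.H.reg.unused ∧
        O.H.reg.bl (xD S b b' d) = some (aD S X b b' d)) := by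
  classical
  rw [Reg.Ubs, mem_filter] at hd
  obtain ⟨hst, hbl, hout⟩ := hd
  by_cases hz : aD S X b b' d ∈ O.H.reg.zeros
  · exact Or.inl hz
  right
  have hex : ∃ a, (a.1 ∈ X ∨ (S.g a).1 ∈ X) ∧ S.Blk pt a ∧ vz S X a = aD S X b b' d := by
    by_contra hcon
    apply hz
    rw [mem_zeros]
    exact ⟨O.aD_mem hst, fun a ha hba hv => hcon ⟨a, ha, hba, hv⟩⟩
  rcases O.mem_St.1 hst with rfl | rfl
  · have hU : S.IsU pt b := by
      have h1 := bl_none.1 (show bl S X (S.Blk pt) (dg S b) = none from hbl)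
      exact AG.Geo.isU_iff.2 ⟨O.bX.2.2, h1.1, h1.2⟩
    have A := u1 hU (fun ⟨c, hc1, hc2⟩ => hout ⟨b, O.bX.1, O.bX.2.1, O.bX.2.2, rfl, c, hc1, hc2⟩)
    have key : ∀ a, (a.1 ∈ X ∨ (S.g a).1 ∈ X) → S.Blk pt a →
        vz S X a = aD S X b b' (dg S b) → a = rot b := by
      intro a ha hba hv
      have pa : pt a = pt (rot b) := by rw [← O.pt_vz hba.1, hv, O.aD_b, pt_last O.geo]
      have g1 : (S.g b).1 ∈ S.F := g_memF O.bX.2.2
      have g2 : (S.g (unrot (S.g b))).1 ∈ S.F := g_memF A.gl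
      have q1 : pt (S.g b) = pt (rot b) := O.geo.mat' O.bX.2.2
      have q2 : pt (S.g (unrot (S.g b))) = pt (rot b) := by
        rw [O.geo.mat' A.gl, rot_unrot, q1]
      have n12 : rot b ≠ S.g b := fun h => S.ne b O.bX.2.2 (by rw [← h, rot_fst])
      have n13 : rot b ≠ S.g (unrot (S.g b)) := by
        intro h
        apply A.out
        rw [← h, rot_fst]; exact O.bX.1
      have n23 : S.g b ≠ S.g (unrot (S.g b)) := fun h => S.ne (unrot (S.g b)) A.gl (by
        rw [← h, unrot_fst])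
      rcases meet_of_big O.geo (c1 := rot b) (c2 := S.g b) (c3 := S.g (unrot (S.g b)))
        O.bF g1 g2 rfl q1 q2 n12 n13 n23 A.ang hba pa with (h | h | h) | (h | h | h)
      · exact h
      · rw [h] at hba; exact absurd hba hU.not_blk'
      · rw [h] at ha
        rcases ha with ha | ha
        · exact absurd ha A.out
        · rw [S.invol, unrot_fst] at ha; exact absurd ha O.bX.2.1
      · have h1 : a = S.g b := by rw [← rot_injective h, S.invol]
        rw [h1] at hba; exact absurd hba hU.not_blk'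
      · have h1 : S.g a = unrot (S.g b) := by rw [← h, unrot_rot]
        have h2 : a = S.g (unrot (S.g b)) := by rw [← h1, S.invol]
        rcases ha with ha | ha
        · rw [h2] at ha; exact absurd ha A.out
        · rw [h1, unrot_fst] at ha; exact absurd ha O.bX.2.1
      · have h1 : S.g a = unrot (S.g (unrot (S.g b))) := by rw [← h, unrot_rot]
        have h2 : S.g (unrot (S.g (unrot (S.g b)))) = a := by rw [← h1, S.invol]
        rw [A.fin] at h2
        exact absurd (by rw [h1, h2]) hba.1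
    obtain ⟨a, ha, hba, hv⟩ := hex
    have hab := key a ha hba hv
    have hblx : O.H.reg.bl (dg S (rot b)) = some (aD S X b b' (dg S b)) := by
      rw [← hv, hab]
      rw [hab] at hba
      exact bl_of_blk O.H.b1 hba
    have hcard : (O.H.reg.A (aD S X b b' (dg S b))).card = 1 := by
      rw [card_eq_one]
      refine ⟨dg S (rot b), ?_⟩
      ext d
      rw [mem_A' O.H, mem_singleton]
      constructor
      · rintro ⟨e, he1, rfl, he3, he4⟩
        rw [key e he1 he3 he4]
      · rintro rfl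
        exact ⟨a, ha, by rw [hab], hba, hv⟩
    rw [O.sD_b, O.xD_b]
    refine ⟨hcard, O.H.reg.unused_of_card_one (O.mem_face_b A.face) ?_ hblx hcard, hblx⟩
    have : S.g (rot b) ≠ rot b := face_glued (a := rot b) A.face
    exact dg_mem_inc (a := rot b) this
  · have hU : S.IsU pt b' := by
      have h1 := bl_none.1 (show bl S X (S.Blk pt) (dg S b') = none from hbl)
      exact AG.Geo.isU_iff.2 ⟨O.bX'.2.2, h1.1, h1.2⟩
    have A := u2 hU (fun ⟨c, hc1, hc2⟩ => hout ⟨b', O.bX'.1, O.bX'.2.1, O.bX'.2.2, rfl, c, hc1, hc2⟩)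
    have key : ∀ a, (a.1 ∈ X ∨ (S.g a).1 ∈ X) → S.Blk pt a →
        vz S X a = aD S X b b' (dg S b') → a = S.g (unrot b') := by
      intro a ha hba hv
      have pa : pt a = pt b' := by rw [← O.pt_vz hba.1, hv, O.aD_b', pt_last O.geo]
      have g1 : (rot (S.g b')).1 ∈ S.F := g_memF O.bX'.2.2
      have g2 : (rot (S.g (rot (S.g b')))).1 ∈ S.F := g_memF A.gl
      have q1 : pt (rot (S.g b')) = pt b' := O.geo.mat b' O.bX'.2.2
      have q2 : pt (rot (S.g (rot (S.g b')))) = pt b' := by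
        rw [O.geo.mat _ A.gl, q1]
      have n12 : b' ≠ rot (S.g b') := fun h => S.ne b' O.bX'.2.2 (by rw [← rot_fst (S.g b'), ← h])
      have n13 : b' ≠ rot (S.g (rot (S.g b'))) := by
        intro h
        apply A.out
        rw [← rot_fst (S.g (rot (S.g b'))), ← h]; exact O.bX'.1
      have n23 : rot (S.g b') ≠ rot (S.g (rot (S.g b'))) := fun h =>
        S.ne (rot (S.g b')) A.gl (by rw [← rot_injective h, rot_fst])
      rcases meet_of_big O.geo (c1 := b') (c2 := rot (S.g b')) (c3 := rot (S.g (rot (S.g b'))))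
        O.bF' g1 g2 rfl q1 q2 n12 n13 n23 A.ang hba pa with (h | h | h) | (h | h | h)
      · rw [h] at hba; exact absurd hba hU.not_blk
      · rw [h] at ha
        rcases ha with ha | ha
        · exact absurd ha O.bX'.2.1
        · exact absurd ha A.out
      · rw [h] at hba
        exact absurd A.fin hba.1
      · have h1 : S.g a = unrot b' := by rw [← h, unrot_rot]
        rw [← h1, S.invol]
      · have h1 : a = b' := by
          have := rot_injective h
          exact S.g_injective this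
        rw [h1] at hba; exact absurd hba hU.not_blk
      · have h1 : a = rot (S.g b') := S.g_injective (rot_injective h)
        rw [h1] at ha
        rcases ha with ha | ha
        · exact absurd ha O.bX'.2.1
        · exact absurd ha A.out
    obtain ⟨a, ha, hba, hv⟩ := hex
    have hab := key a ha hba hv
    have hdg : dg S a = dg S (unrot b') := by rw [hab, dg_g]
    have hblx : O.H.reg.bl (dg S (unrot b')) = some (aD S X b b' (dg S b')) := by
      rw [← hdg, ← hv]
      exact bl_of_blk O.H.b1 hba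
    have hcard : (O.H.reg.A (aD S X b b' (dg S b'))).card = 1 := by
      rw [card_eq_one]
      refine ⟨dg S (unrot b'), ?_⟩
      ext d
      rw [mem_A' O.H, mem_singleton]
      constructor
      · rintro ⟨e, he1, rfl, he3, he4⟩
        rw [key e he1 he3 he4, dg_g]
      · rintro rfl
        exact ⟨a, ha, hdg.symm, hba, hv⟩
    rw [O.sD_b', O.xD_b']
    refine ⟨hcard, O.H.reg.unused_of_card_one (O.mem_face_b' A.face) ?_ hblx hcard, hblx⟩
    have : S.g (unrot b') ≠ unrot b' := face_glued (a := unrot b') A.face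
    exact dg_mem_inc (a := unrot b') this

theorem bill_U (u1 : S.IsU pt b → ¬ (∃ c, c.1 = (S.g b).1 ∧ S.Blade c) → Alt1 S pt X b)
    (u2 : S.IsU pt b' → ¬ (∃ c, c.1 = (S.g b').1 ∧ S.Blade c) → Alt2 S pt X b')
    (d : Finset (Sd I)) (hd : d ∈ O.H.reg.Ubs) : aD S X b b' d ∈ O.H.reg.zeros ∨
      ((sD S b b' d, xD S b b' d) ∈ O.H.reg.unused ∧
        O.H.reg.bl (xD S b b' d) = some (aD S X b b' d)) :=
  (O.bill_U' u1 u2 d hd).imp id (fun h => h.2)

end Op

end Pool.Agent.Helper41.AG7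
end
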