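import Pool.Agent.Helper16.VGG.G04
import Pool.Agent.Helper16.VGG.G06

/- Helper94.UR.PForm -/
section
/-!
# Derived terms and formulas, their meaning, and polynomial time
-/

set_option autoImplicit false

namespace Pool.Agent.Helper94.UR

open Pool.Agent.Helper20.Flip Pool.Agent.Helper96

/-! ### derived terms and formulas -/

def Tm.sub (s t : Tm) : Tm := .add s (.neg t)
def Tm.two : Tm := .add .one .one
def Tm.four : Tm := .add .two .two
def Tm.sq (t : Tm) : Tm := .mul t t

/-- sum of a list of terms -/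
def Tm.sum : List Tm → Tm
  | [] => .zero
  | t :: l => .add t (Tm.sum l)

/-- the natural number with given binary digits -/
def Tm.nat : List Bool → Tm
  | [] => .zero
  | b :: l => .add (if b then .one else .zero) (.mul .two (Tm.nat l))

/-- the variables with three indices -/
def v3 (k i j : ℕ) : Tm := .var (Nat.pair k (Nat.pair i j))

/-- the values of the variables with three indices -/
def g3 (v : ℕ → ℝ) (k i j : ℕ) : ℝ := v (Nat.pair k (Nat.pair i j))

/-- values of the variables from a function of three indices -/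
def m3 (g : ℕ → ℕ → ℕ → ℝ) (n : ℕ) : ℝ :=
  g (Nat.unpair n).1 (Nat.unpair (Nat.unpair n).2).1 (Nat.unpair (Nat.unpair n).2).2

def Fm.tt : Fm := .eq .zero .zero
def Fm.ff : Fm := .lt .zero .zero
def Fm.le (s t : Tm) : Fm := .not (.lt t s)
def Fm.imp (φ ψ : Fm) : Fm := .or (.not φ) ψ

/-- conjunction of a list of formulas -/
def Fm.all : List Fm → Fm
  | [] => .tt
  | φ :: l => .and φ (Fm.all l)

/-- disjunction of a list of formulas -/
def Fm.any : List Fm → Fm
  | [] => .ff
  | φ :: l => .or φ (Fm.any l)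

/-! ### meaning -/

section
variable (v : ℕ → ℝ)

@[simp] theorem eval_zero : Tm.eval v .zero = 0 := rfl
@[simp] theorem eval_one : Tm.eval v .one = 1 := rfl
@[simp] theorem eval_add (s t : Tm) : Tm.eval v (.add s t) = s.eval v + t.eval v := rfl
@[simp] theorem eval_neg (t : Tm) : Tm.eval v (.neg t) = - t.eval v := rfl
@[simp] theorem eval_mul (s t : Tm) : Tm.eval v (.mul s t) = s.eval v * t.eval v := rfl
@[simp] theorem eval_sub (s t : Tm) : Tm.eval v (.sub s t) = s.eval v - t.eval v := by
  simp [Tm.sub, sub_eq_add_neg]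
@[simp] theorem eval_two : Tm.eval v .two = 2 := by simp [Tm.two]; norm_num
@[simp] theorem eval_four : Tm.eval v .four = 4 := by simp [Tm.four]; norm_num
@[simp] theorem eval_sq (t : Tm) : Tm.eval v (.sq t) = t.eval v ^ 2 := by simp [Tm.sq, sq]
@[simp] theorem eval_v3 (k i j : ℕ) : Tm.eval v (v3 k i j) = g3 v k i j := rfl
@[simp] theorem g3_m3 (g : ℕ → ℕ → ℕ → ℝ) (k i j : ℕ) : g3 (m3 g) k i j = g k i j := by
  simp [g3, m3, Nat.unpair_pair]

@[simp] theorem eval_sum (l : List Tm) : (Tm.sum l).eval v = (l.map (Tm.eval v)).sum := by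
  induction l with
  | nil => rfl
  | cons t l ih => simp [Tm.sum, ih]

@[simp] theorem eval_nat (l : List Bool) : (Tm.nat l).eval v = (val l : ℝ) := by
  induction l with
  | nil => simp [Tm.nat, val]
  | cons b l ih => cases b <;> simp [Tm.nat, val, ih]

@[simp] theorem holds_eq (s t : Tm) : (Fm.eq s t).Holds v ↔ s.eval v = t.eval v := Iff.rfl
@[simp] theorem holds_lt (s t : Tm) : (Fm.lt s t).Holds v ↔ s.eval v < t.eval v := Iff.rfl
@[simp] theorem holds_le (s t : Tm) : (Fm.le s t).Holds v ↔ s.eval v ≤ t.eval v := by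
  show ¬ (t.eval v < s.eval v) ↔ _
  exact not_lt
@[simp] theorem holds_not (φ : Fm) : (Fm.not φ).Holds v ↔ ¬ φ.Holds v := Iff.rfl
@[simp] theorem holds_and (φ ψ : Fm) : (Fm.and φ ψ).Holds v ↔ φ.Holds v ∧ ψ.Holds v := Iff.rfl
@[simp] theorem holds_or (φ ψ : Fm) : (Fm.or φ ψ).Holds v ↔ φ.Holds v ∨ ψ.Holds v := Iff.rfl
@[simp] theorem holds_imp (φ ψ : Fm) : (Fm.imp φ ψ).Holds v ↔ (φ.Holds v → ψ.Holds v) := by
  show (¬ _ ∨ _) ↔ _
  exact imp_iff_not_or.symm
@[simp] theorem holds_tt : Fm.tt.Holds v := rfl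
@[simp] theorem holds_ff : ¬ Fm.ff.Holds v := lt_irrefl _

@[simp] theorem holds_all (l : List Fm) : (Fm.all l).Holds v ↔ ∀ φ ∈ l, φ.Holds v := by
  induction l with
  | nil => simp [Fm.all]
  | cons φ l ih => simp [Fm.all, ih]

@[simp] theorem holds_any (l : List Fm) : (Fm.any l).Holds v ↔ ∃ φ ∈ l, φ.Holds v := by
  induction l with
  | nil => simp [Fm.any]
  | cons φ l ih => simp [Fm.any, ih]

end

/-! ### encodings -/

instance : Enc Tm := ⟨fun t => enc t.code, fun _ _ h => Tm.code_injective (Enc.inj h)⟩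

instance : Enc Fm := ⟨fun t => enc t.code, fun _ _ h => Fm.code_injective (Enc.inj h)⟩

section
variable {α β γ : Type} [Enc α] [Enc β] [Enc γ]

@[fun_prop]
theorem Poly.tmCode {f : α → Tm} (hf : Poly f) : Poly (fun a => (f a).code) :=
  hf.recast fun _ => rfl

@[fun_prop]
theorem Poly.fmCode {f : α → Fm} (hf : Poly f) : Poly (fun a => (f a).code) :=
  hf.recast fun _ => rfl

theorem Poly.tm_of_code {f : α → Tm} (hf : Poly (fun a => (f a).code)) : Poly f :=
  hf.recast fun _ => rfl

theorem Poly.fm_of_code {f : α → Fm} (hf : Poly (fun a => (f a).code)) : Poly f :=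
  hf.recast fun _ => rfl

@[fun_prop]
theorem Poly.tmVar {f : α → ℕ} (hf : Poly f) : Poly (fun a => Tm.var (f a)) := by
  apply Poly.tm_of_code
  simp only [Tm.code]
  fun_prop

@[fun_prop]
theorem Poly.tmAdd {f g : α → Tm} (hf : Poly f) (hg : Poly g) :
    Poly (fun a => Tm.add (f a) (g a)) := by
  apply Poly.tm_of_code
  simp only [Tm.code]
  fun_prop

@[fun_prop]
theorem Poly.tmNeg {f : α → Tm} (hf : Poly f) : Poly (fun a => Tm.neg (f a)) := by
  apply Poly.tm_of_code
  simp only [Tm.code]
  fun_prop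

@[fun_prop]
theorem Poly.tmMul {f g : α → Tm} (hf : Poly f) (hg : Poly g) :
    Poly (fun a => Tm.mul (f a) (g a)) := by
  apply Poly.tm_of_code
  simp only [Tm.code]
  fun_prop

@[fun_prop]
theorem Poly.tmSub {f g : α → Tm} (hf : Poly f) (hg : Poly g) :
    Poly (fun a => Tm.sub (f a) (g a)) := by
  unfold Tm.sub; fun_prop

@[fun_prop]
theorem Poly.tmSq {f : α → Tm} (hf : Poly f) : Poly (fun a => Tm.sq (f a)) := by
  unfold Tm.sq; fun_prop

theorem code_sum (l : List Tm) :
    (Tm.sum l).code = l.flatMap (fun t => [false, true, true] ++ t.code) ++ Tm.zero.code := by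
  induction l with
  | nil => rfl
  | cons t l ih => simp [Tm.sum, Tm.code, ih]

@[fun_prop]
theorem Poly.tmSum {f : α → List Tm} (hf : Poly f) : Poly (fun a => Tm.sum (f a)) := by
  apply Poly.tm_of_code
  simp only [code_sum]
  fun_prop

theorem code_nat (l : List Bool) :
    (Tm.nat l).code = l.flatMap (fun b => [false, true, true] ++
      ((if b then Tm.one else Tm.zero).code ++ ([true, false, true] ++ Tm.two.code))) ++
        Tm.zero.code := by
  induction l with
  | nil => rfl
  | cons t l ih => simp [Tm.nat, Tm.code, ih]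

@[fun_prop]
theorem Poly.tmNat {f : α → List Bool} (hf : Poly f) : Poly (fun a => Tm.nat (f a)) := by
  apply Poly.tm_of_code
  simp only [code_nat]
  fun_prop

@[fun_prop]
theorem Poly.natPair {f g : α → ℕ} (hf : Poly f) (hg : Poly g) :
    Poly (fun a => Nat.pair (f a) (g a)) := by
  unfold Nat.pair
  fun_prop

@[fun_prop]
theorem Poly.v3 {f g h : α → ℕ} (hf : Poly f) (hg : Poly g) (hh : Poly h) :
    Poly (fun a => v3 (f a) (g a) (h a)) := by
  unfold UR.v3; fun_prop

@[fun_prop]
theorem Poly.fmEq {f g : α → Tm} (hf : Poly f) (hg : Poly g) :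
    Poly (fun a => Fm.eq (f a) (g a)) := by
  apply Poly.fm_of_code
  simp only [Fm.code]
  fun_prop

@[fun_prop]
theorem Poly.fmLt {f g : α → Tm} (hf : Poly f) (hg : Poly g) :
    Poly (fun a => Fm.lt (f a) (g a)) := by
  apply Poly.fm_of_code
  simp only [Fm.code]
  fun_prop

@[fun_prop]
theorem Poly.fmNot {f : α → Fm} (hf : Poly f) : Poly (fun a => Fm.not (f a)) := by
  apply Poly.fm_of_code
  simp only [Fm.code]
  fun_prop

@[fun_prop]
theorem Poly.fmAnd {f g : α → Fm} (hf : Poly f) (hg : Poly g) :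
    Poly (fun a => Fm.and (f a) (g a)) := by
  apply Poly.fm_of_code
  simp only [Fm.code]
  fun_prop

@[fun_prop]
theorem Poly.fmOr {f g : α → Fm} (hf : Poly f) (hg : Poly g) :
    Poly (fun a => Fm.or (f a) (g a)) := by
  apply Poly.fm_of_code
  simp only [Fm.code]
  fun_prop

@[fun_prop]
theorem Poly.fmLe {f g : α → Tm} (hf : Poly f) (hg : Poly g) :
    Poly (fun a => Fm.le (f a) (g a)) := by
  unfold Fm.le; fun_prop

@[fun_prop]
theorem Poly.fmImp {f g : α → Fm} (hf : Poly f) (hg : Poly g) :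
    Poly (fun a => Fm.imp (f a) (g a)) := by
  unfold Fm.imp; fun_prop

theorem code_all (l : List Fm) :
    (Fm.all l).code = l.flatMap (fun t => [false, true, true] ++ t.code) ++ Fm.tt.code := by
  induction l with
  | nil => rfl
  | cons t l ih => simp [Fm.all, Fm.code, ih]

theorem code_any (l : List Fm) :
    (Fm.any l).code = l.flatMap (fun t => [true, false, false] ++ t.code) ++ Fm.ff.code := by
  induction l with
  | nil => rfl
  | cons t l ih => simp [Fm.any, Fm.code, ih]

@[fun_prop]
theorem Poly.fmAll {f : α → List Fm} (hf : Poly f) : Poly (fun a => Fm.all (f a)) := by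
  apply Poly.fm_of_code
  simp only [code_all]
  fun_prop

@[fun_prop]
theorem Poly.fmAny {f : α → List Fm} (hf : Poly f) : Poly (fun a => Fm.any (f a)) := by
  apply Poly.fm_of_code
  simp only [code_any]
  fun_prop

end

end Pool.Agent.Helper94.UR
end

/- Helper94.UR.Gen -/
section
/-!
# The formulas
-/

set_option autoImplicit false

namespace Pool.Agent.Helper94.UR

open Pool.Agent.Helper20.Flip Pool.Agent.Helper96

/-- pairs of terms, as points -/
abbrev PT := Tm × Tm

/-- value of a pair of terms -/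
def ev (v : ℕ → ℝ) (p : PT) : Pt := (p.1.eval v, p.2.eval v)

/-- the point with the variables `(κ, i, 0)` and `(κ, i, 1)` -/
def pv (κ i : ℕ) : PT := (v3 κ i 0, v3 κ i 1)

/-- the next index modulo `n` -/
def nx (n a : ℕ) : ℕ := if a + 1 = n then 0 else a + 1

def d2T (A B : PT) : Tm := .add (.sq (.sub A.1 B.1)) (.sq (.sub A.2 B.2))

/-! ### the polygon: kind 0 for the vertices, kind 1 for the lengths of the edges -/

def vx (a : ℕ) : PT := pv 0 a

/-- the equations of the vertices; the numbers `v3 1 a 0` are the lengths of the edges -/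
def ratF (r : RatCode) (x : Tm) : Fm :=
  .eq (.mul (.nat r.2.2) x) (if r.1 then .neg (.nat r.2.1) else .nat r.2.1)

def baseF (P : List (RatCode × RatCode)) : Fm :=
  .all ((List.range P.length).map fun a =>
    .and (.and (ratF (P.getD a default).1 (vx a).1) (ratF (P.getD a default).2 (vx a).2))
      (.and (.le .zero (v3 1 a 0))
        (.eq (.sq (v3 1 a 0)) (d2T (vx a) (vx (nx P.length a))))))

/-! ### constraints -/

/-- Codes of constraints: `(0, i, j)` for the pair of the disks `i`, `j`, and `(k, i, a)`,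
`1 ≤ k ≤ 5`, for the disk `i` and the vertex or edge `a`: `1` the vertex `a` has distance at
least `1`; `2` the projection is before the edge; `3` the projection is after the edge; `4`, `5`:
the centre is at distance at least `1` to the left (right) of the line. -/
abbrev Con := ℕ × ℕ × ℕ

/-- linear part -/
def cα (n k a : ℕ) : PT :=
  if k = 1 then (.zero, .zero)
  else if k = 2 then (.sub (vx a).1 (vx (nx n a)).1, .sub (vx a).2 (vx (nx n a)).2)
  else if k = 3 then (.sub (vx (nx n a)).1 (vx a).1, .sub (vx (nx n a)).2 (vx a).2)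
  else if k = 4 then (.sub (vx a).2 (vx (nx n a)).2, .sub (vx (nx n a)).1 (vx a).1)
  else (.sub (vx (nx n a)).2 (vx a).2, .sub (vx a).1 (vx (nx n a)).1)

/-- reference point -/
def cr (n k a : ℕ) : PT := if k = 3 then vx (nx n a) else vx a

/-- constant -/
def ce (k a : ℕ) : Tm :=
  if k = 1 then .one else if k = 2 then .zero else if k = 3 then .zero else v3 1 a 0

/-- the value of the constraint `c` at the centres of kind `κ` -/
def qT (n κ : ℕ) (c : Con) : Tm :=
  if c.1 = 0 then .sub (d2T (pv κ c.2.1) (pv κ c.2.2)) .four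
  else .add (if c.1 = 1 then d2T (pv κ c.2.1) (cr n c.1 c.2.2) else .zero)
    (.sub (.add (.mul (cα n c.1 c.2.2).1 (.sub (pv κ c.2.1).1 (cr n c.1 c.2.2).1))
      (.mul (cα n c.1 c.2.2).2 (.sub (pv κ c.2.1).2 (cr n c.1 c.2.2).2))) (ce c.1 c.2.2))

/-- the gradient of the constraint `c` with respect to the centre `l` -/
def gT (n κ : ℕ) (c : Con) (l : ℕ) : PT :=
  if c.1 = 0 then
    (if l = c.2.1 then (.mul .two (.sub (pv κ c.2.1).1 (pv κ c.2.2).1),
        .mul .two (.sub (pv κ c.2.1).2 (pv κ c.2.2).2))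
      else if l = c.2.2 then (.mul .two (.sub (pv κ c.2.2).1 (pv κ c.2.1).1),
        .mul .two (.sub (pv κ c.2.2).2 (pv κ c.2.1).2))
      else (.zero, .zero))
  else if l = c.2.1 then
    (.add (if c.1 = 1 then .mul .two (.sub (pv κ c.2.1).1 (cr n c.1 c.2.2).1) else .zero)
        (cα n c.1 c.2.2).1,
      .add (if c.1 = 1 then .mul .two (.sub (pv κ c.2.1).2 (cr n c.1 c.2.2).2) else .zero)
        (cα n c.1 c.2.2).2)
  else (.zero, .zero)

/-- the zone constraints for the disk `i` and the edge `a` -/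
def zoneL (n i a : ℕ) (b b' : Bool) : List Con :=
  if b then [(if b' then 4 else 5, i, a)]
  else if b' then [(1, i, nx n a), (3, i, a)] else [(1, i, a), (2, i, a)]

/-- all constraints, for a guess `y` (even positions) -/
def consL (n m : ℕ) (y : List Bool) : List Con :=
  (List.range m).flatMap (fun i => (List.range i).map fun j => (0, i, j)) ++
  (List.range m).flatMap (fun i => (List.range n).flatMap fun a =>
    zoneL n i a (y.getD (2 * (2 * (i * n + a))) false) (y.getD (2 * (2 * (i * n + a) + 1)) false))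

/-- the indices of the selected constraints, for a guess `y` (odd positions) -/
def selL (n m : ℕ) (y : List Bool) : List ℕ :=
  (List.range (consL n m y).length).filter fun k => y.getD (2 * k + 1) false

/-! ### the parts of the sentences: kind 2 for the strictly feasible point, kind 3 for the centres,
kind 4 for the multipliers, kind 5 for points near the centres -/

/-- strict feasibility of the reversed constraints -/
def sfF (n m : ℕ) (y : List Bool) : Fm :=
  .all ((selL n m y).map fun k => .lt (qT n 2 ((consL n m y).getD k default)) .zero)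

/-- the sum of the multipliers times the gradients -/
def gradT (n m : ℕ) (y : List Bool) (l : ℕ) : PT :=
  (.sum ((selL n m y).map fun k => .mul (v3 4 k 0) (gT n 3 ((consL n m y).getD k default) l).1),
    .sum ((selL n m y).map fun k => .mul (v3 4 k 0) (gT n 3 ((consL n m y).getD k default) l).2))

/-- the conditions of Karush, Kuhn and Tucker -/
def kktF (n m : ℕ) (y : List Bool) : Fm :=
  .and (.all ((selL n m y).map fun k => .le .zero (v3 4 k 0)))
    (.and (.all ((List.range m).map fun l =>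
        .and (.eq (.add (.mul .two (v3 3 l 0)) (gradT n m y l).1) .zero)
          (.eq (.add (.mul .two (v3 3 l 1)) (gradT n m y l).2) .zero)))
      (.all ((selL n m y).map fun k =>
        .and (.le (qT n 3 ((consL n m y).getD k default)) .zero)
          (.eq (.mul (v3 4 k 0) (qT n 3 ((consL n m y).getD k default))) .zero))))

/-- the certificate for the failure of strict feasibility -/
def nsfF (n m : ℕ) (y : List Bool) : Fm :=
  .and (.all ((selL n m y).map fun k => .le .zero (v3 4 k 0)))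
    (.and (.eq (.sum ((selL n m y).map fun k => v3 4 k 0)) .one)
      (.and (.all ((List.range m).map fun l =>
          .and (.eq (gradT n m y l).1 .zero) (.eq (gradT n m y l).2 .zero)))
        (.le .zero (.sum ((selL n m y).map fun k =>
          .mul (v3 4 k 0) (qT n 3 ((consL n m y).getD k default)))))))

/-- the horizontal extent of the edge `a` -/
def dxT (n a : ℕ) : Tm := .sub (vx (nx n a)).1 (vx a).1

/-- height of the line of the edge `a` at the abscissa of `p`, times the extent -/
def htT (n a : ℕ) (p : PT) : Tm :=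
  .add (.mul (vx a).2 (dxT n a))
    (.mul (.sub p.1 (vx a).1) (.sub (vx (nx n a)).2 (vx a).2))

/-- the edge `a` is above the point `p` -/
def abF (n a : ℕ) (p : PT) : Fm :=
  .and (.or (.and (.lt (vx a).1 p.1) (.lt p.1 (vx (nx n a)).1))
      (.and (.lt (vx (nx n a)).1 p.1) (.lt p.1 (vx a).1)))
    (.lt (.mul p.2 (.sq (dxT n a))) (.mul (htT n a p) (dxT n a)))

/-- at the abscissa of `p` the edge `a` is not higher than the edge `e` -/
def lowF (n a e : ℕ) (p : PT) : Fm :=
  .le (.mul (.mul (htT n a p) (dxT n a)) (.sq (dxT n e)))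
    (.mul (.mul (htT n e p) (dxT n e)) (.sq (dxT n a)))

/-- the inside test: the lowest and the highest edge above `p` have the same direction -/
def insF (n : ℕ) (p : PT) : Fm :=
  .any ((List.range n).flatMap fun a => (List.range n).map fun b =>
    .and (.lt .zero (.mul (dxT n a) (dxT n b)))
      (.and (.and (abF n a p) (abF n b p))
        (.all ((List.range n).map fun e =>
          .imp (abF n e p) (.and (lowF n a e p) (lowF n e b p))))))

/-- `p` is not vertically above or below a vertex -/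
def genF (n : ℕ) (p : PT) : Fm := .all ((List.range n).map fun a => .not (.eq (vx a).1 p.1))

/-- `p` is generic and at distance less than one from the centre `l` -/
def nearF (n l : ℕ) : Fm :=
  .and (.lt (d2T (pv 5 l) (pv 3 l)) .one) (genF n (pv 5 l))

/-- the centres are feasible -/
def feasF (n m : ℕ) (y : List Bool) : Fm :=
  .and (.all ((consL n m y).map fun c => .le .zero (qT n 3 c)))
    (.all ((List.range m).map fun l => .and (nearF n l) (insF n (pv 5 l))))

/-- the centres are not feasible -/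
def nfeasF (n m : ℕ) (y : List Bool) : Fm :=
  .or (.any ((consL n m y).map fun c => .lt (qT n 3 c) .zero))
    (.any ((List.range m).map fun l => .and (nearF n l) (.not (insF n (pv 5 l)))))

/-! ### simple polygons: kind 6 for separating lines, kind 7 for a point of two edges -/

/-- value of the affine function with the coefficients of kind 6 -/
def affT (a b : ℕ) (A : PT) : Tm :=
  .add (.add (.mul (v3 6 (Nat.pair a b) 0) A.1) (.mul (v3 6 (Nat.pair a b) 1) A.2))
    (v3 6 (Nat.pair a b) 2)

/-- the linear part of the affine function with the coefficients of kind 6 -/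
def linT (a b : ℕ) (A B : PT) : Tm :=
  .add (.mul (v3 6 (Nat.pair a b) 0) (.sub A.1 B.1))
    (.mul (v3 6 (Nat.pair a b) 1) (.sub A.2 B.2))

/-- certificate for the pair of edges `a`, `b` -/
def sepF (n a b : ℕ) : Fm :=
  if a = b then .tt
  else if a = nx n b then .tt
  else if b = nx n a then .and (.le .one (linT a b (vx a) (vx b)))
    (.le (linT a b (vx (nx n b)) (vx b)) .zero)
  else .and (.and (.le .one (affT a b (vx a))) (.le .one (affT a b (vx (nx n a)))))
    (.and (.le (affT a b (vx b)) (.neg .one)) (.le (affT a b (vx (nx n b))) (.neg .one)))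

def ptEq (A B : PT) : Fm := .and (.eq A.1 B.1) (.eq A.2 B.2)

/-- certificate for a simple polygon -/
def simF (n : ℕ) : Fm :=
  .and (.all ((List.range n).map fun a => .not (ptEq (vx a) (vx (nx n a)))))
    (.all ((List.range n).flatMap fun a => (List.range n).map fun b => sepF n a b))

/-- the point `v3 7 0` is the point with the parameter `v3 7 j 0` of the edge `a` -/
def onF (n a j : ℕ) : Fm :=
  .and (.and (.le .zero (v3 7 j 0)) (.le (v3 7 j 0) .one))
    (.and (.eq (v3 7 0 0) (.add (vx a).1 (.mul (v3 7 j 0) (.sub (vx (nx n a)).1 (vx a).1))))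
      (.eq (v3 7 0 1) (.add (vx a).2 (.mul (v3 7 j 0) (.sub (vx (nx n a)).2 (vx a).2)))))

/-- certificate for a polygon which is not simple -/
def nsimF (n : ℕ) : Fm :=
  .or (.any ((List.range n).map fun a => ptEq (vx a) (vx (nx n a))))
    (.any ((List.range n).flatMap fun a => (List.range n).map fun b =>
      if a = b then .ff else .and (.and (onF n a 1) (onF n b 2))
        (.and (if b = nx n a then .not (ptEq (pv 7 0) (vx b)) else .tt)
          (if a = nx n b then .not (ptEq (pv 7 0) (vx a)) else .tt))))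

/-! ### the two sentences -/

/-- the sentence for membership -/
def yesF (P : List (RatCode × RatCode)) (m : ℕ) (y : List Bool) : Fm :=
  .and (baseF P) (.and (simF P.length)
    (.and (sfF P.length m y) (.and (kktF P.length m y) (feasF P.length m y))))

/-- the sentence for non-membership -/
def noF (P : List (RatCode × RatCode)) (m : ℕ) (y : List Bool) : Fm :=
  .and (baseF P) (.or (nsimF P.length)
    (.or (nsfF P.length m y) (.and (kktF P.length m y) (nfeasF P.length m y))))

end Pool.Agent.Helper94.UR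
end

/- Helper94.UR.Real -/
section
/-!
# The meaning of the parts of the sentences
-/

set_option autoImplicit false

namespace Pool.Agent.Helper94.UR

open Pool.Agent.Helper20.Flip

/-- square of the Euclidean distance -/
def d2 (A B : Pt) : ℝ := (A.1 - B.1) ^ 2 + (A.2 - B.2) ^ 2

/-- the scalar product -/
def dot (A B : Pt) : ℝ := A.1 * B.1 + A.2 * B.2

/-- the vertices of the polygon, as a function on the natural numbers -/
noncomputable def vert (P : List (RatCode × RatCode)) (a : ℕ) : Pt :=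
  (ratVal (P.getD a default).1, ratVal (P.getD a default).2)

/-- the lengths of the edges -/
noncomputable def rho (P : List (RatCode × RatCode)) (a : ℕ) : ℝ :=
  √ (d2 (vert P a) (vert P (nx P.length a)))

/-! ### constraints, for vertices `V` and lengths `ρ` -/

def rα (n : ℕ) (V : ℕ → Pt) (k a : ℕ) : Pt :=
  if k = 1 then (0, 0)
  else if k = 2 then ((V a).1 - (V (nx n a)).1, (V a).2 - (V (nx n a)).2)
  else if k = 3 then ((V (nx n a)).1 - (V a).1, (V (nx n a)).2 - (V a).2)
  else if k = 4 then ((V a).2 - (V (nx n a)).2, (V (nx n a)).1 - (V a).1)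
  else ((V (nx n a)).2 - (V a).2, (V a).1 - (V (nx n a)).1)

def rr (n : ℕ) (V : ℕ → Pt) (k a : ℕ) : Pt := if k = 3 then V (nx n a) else V a

def re (ρ : ℕ → ℝ) (k a : ℕ) : ℝ := if k = 1 then 1 else if k = 2 then 0 else if k = 3 then 0 else ρ a

/-- the value of the constraint `c` at the centres `x` -/
def qR (n : ℕ) (V : ℕ → Pt) (ρ : ℕ → ℝ) (x : ℕ → Pt) (c : Con) : ℝ :=
  if c.1 = 0 then d2 (x c.2.1) (x c.2.2) - 4
  else (if c.1 = 1 then d2 (x c.2.1) (rr n V c.1 c.2.2) else 0) +
    (((rα n V c.1 c.2.2).1 * ((x c.2.1).1 - (rr n V c.1 c.2.2).1) +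
      (rα n V c.1 c.2.2).2 * ((x c.2.1).2 - (rr n V c.1 c.2.2).2)) - re ρ c.1 c.2.2)

/-- the gradient of the constraint `c` with respect to the centre `l` -/
def gR (n : ℕ) (V : ℕ → Pt) (x : ℕ → Pt) (c : Con) (l : ℕ) : Pt :=
  if c.1 = 0 then
    (if l = c.2.1 then (2 * ((x c.2.1).1 - (x c.2.2).1), 2 * ((x c.2.1).2 - (x c.2.2).2))
      else if l = c.2.2 then (2 * ((x c.2.2).1 - (x c.2.1).1), 2 * ((x c.2.2).2 - (x c.2.1).2))
      else (0, 0))
  else if l = c.2.1 then
    ((if c.1 = 1 then 2 * ((x c.2.1).1 - (rr n V c.1 c.2.2).1) else 0) + (rα n V c.1 c.2.2).1,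
      (if c.1 = 1 then 2 * ((x c.2.1).2 - (rr n V c.1 c.2.2).2) else 0) + (rα n V c.1 c.2.2).2)
  else (0, 0)

/-- codes of constraints for `m` disks and `n` edges -/
def Con.Valid (n m : ℕ) (c : Con) : Prop :=
  (c.1 = 0 ∧ c.2.1 < m ∧ c.2.2 < m ∧ c.2.1 ≠ c.2.2) ∨
    (1 ≤ c.1 ∧ c.1 ≤ 5 ∧ c.2.1 < m ∧ c.2.2 < n)

/-- strict feasibility of the reversed constraints `Z k`, `k ∈ K` -/
def SFr (n : ℕ) (V : ℕ → Pt) (ρ : ℕ → ℝ) (Z : ℕ → Con) (K : Finset ℕ) : Prop :=
  ∃ z : ℕ → Pt, ∀ k ∈ K, qR n V ρ z (Z k) < 0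

/-- the conditions of Karush, Kuhn and Tucker for the reversed constraints -/
def KKTr (n m : ℕ) (V : ℕ → Pt) (ρ : ℕ → ℝ) (Z : ℕ → Con) (K : Finset ℕ) (x : ℕ → Pt)
    (ω : ℕ → ℝ) : Prop :=
  (∀ k ∈ K, 0 ≤ ω k) ∧
  (∀ l < m, 2 * (x l).1 + ∑ k ∈ K, ω k * (gR n V x (Z k) l).1 = 0 ∧
    2 * (x l).2 + ∑ k ∈ K, ω k * (gR n V x (Z k) l).2 = 0) ∧
  ∀ k ∈ K, qR n V ρ x (Z k) ≤ 0 ∧ ω k * qR n V ρ x (Z k) = 0

/-- the certificate for the failure of strict feasibility -/
def NSFr (n m : ℕ) (V : ℕ → Pt) (ρ : ℕ → ℝ) (Z : ℕ → Con) (K : Finset ℕ) : Prop :=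
  ∃ (x : ℕ → Pt) (ω : ℕ → ℝ), (∀ k ∈ K, 0 ≤ ω k) ∧ ∑ k ∈ K, ω k = 1 ∧
    (∀ l < m, ∑ k ∈ K, ω k * (gR n V x (Z k) l).1 = 0 ∧
      ∑ k ∈ K, ω k * (gR n V x (Z k) l).2 = 0) ∧
    0 ≤ ∑ k ∈ K, ω k * qR n V ρ x (Z k)

/-! ### the inside test -/

/-- no vertex is vertically above or below `p` -/
def Gen {n : ℕ} (V : ZMod n → Pt) (p : Pt) : Prop := ∀ i, (V i).1 ≠ p.1

/-- the height of the line of the edge `i` at the abscissa `x` -/
noncomputable def hgt {n : ℕ} (V : ZMod n → Pt) (i : ZMod n) (x : ℝ) : ℝ :=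
  (V i).2 + (x - (V i).1) * ((V (i + 1)).2 - (V i).2) / ((V (i + 1)).1 - (V i).1)

/-- the edge `i` is above the point `p` -/
def Above {n : ℕ} (V : ZMod n → Pt) (i : ZMod n) (p : Pt) : Prop :=
  (((V i).1 < p.1 ∧ p.1 < (V (i + 1)).1) ∨ ((V (i + 1)).1 < p.1 ∧ p.1 < (V i).1)) ∧
    p.2 < hgt V i p.1

/-- the inside test: there are edges above `p`, and the lowest and the highest of them have the
same direction -/
def Ins {n : ℕ} (V : ZMod n → Pt) (p : Pt) : Prop :=
  ∃ a b, 0 < ((V (a + 1)).1 - (V a).1) * ((V (b + 1)).1 - (V b).1) ∧ Above V a p ∧ Above V b p ∧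
    ∀ e, Above V e p → hgt V a p.1 ≤ hgt V e p.1 ∧ hgt V e p.1 ≤ hgt V b p.1

/-! ### certificates for simple polygons -/

/-- separating affine functions for the pairs of edges -/
def SimC {n : ℕ} (V : ZMod n → Pt) : Prop :=
  (∀ i, V i ≠ V (i + 1)) ∧ ∀ i j : ZMod n, i ≠ j → i ≠ j + 1 →
    (j = i + 1 → ∃ α : Pt, 1 ≤ dot α (V i - V j) ∧ dot α (V (j + 1) - V j) ≤ 0) ∧
    (j ≠ i + 1 → ∃ (α : Pt) (c : ℝ), 1 ≤ dot α (V i) + c ∧ 1 ≤ dot α (V (i + 1)) + c ∧
      dot α (V j) + c ≤ -1 ∧ dot α (V (j + 1)) + c ≤ -1)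

/-! ### conditions on the centres -/

/-- the point `c` has distance at least one from the segment -/
def Far (A B c : Pt) : Prop := ∀ X ∈ segment ℝ A B, 1 ≤ d2 X c

/-- the disjunction of the four zones -/
def Zones (A B c : Pt) : Prop :=
  (1 ≤ d2 c A ∧ 0 ≤ dot (A - B) (c - A)) ∨ (1 ≤ d2 c B ∧ 0 ≤ dot (B - A) (c - B)) ∨
    (0 ≤ dot (A.2 - B.2, B.1 - A.1) (c - A) - √ (d2 A B)) ∨
    (0 ≤ dot (B.2 - A.2, A.1 - B.1) (c - A) - √ (d2 A B))

end Pool.Agent.Helper94.UR
end

/- Helper94.UR.SideDefs -/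
section
/-!
# The two sides of a polygon
-/

set_option autoImplicit false

namespace Pool.Agent.Helper94.UR

open Pool.Agent.Helper20.Flip Pool.Agent.Helper97.UDP

/-- the point with the parameter `t` of the edge `i` -/
def ept {n : ℕ} (V : ZMod n → Pt) (i : ZMod n) (t : ℝ) : Pt := V i + t • (V (i + 1) - V i)

/-- the left normal of the edge `i` -/
def nrm {n : ℕ} (V : ZMod n → Pt) (i : ZMod n) : Pt :=
  (-((V (i + 1)).2 - (V i).2), (V (i + 1)).1 - (V i).1)

/-- The points which can be reached from an inner point of an edge along a segment which leaves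
the edge to the left (`s = 1`) or to the right (`s = -1`) and does not meet the curve again. -/
def sideSet {n : ℕ} (V : ZMod n → Pt) (s : ℝ) : Set Pt :=
  {p | ∃ (i : ZMod n) (t : ℝ), 0 < t ∧ t < 1 ∧ 0 < s * cross (V i) (V (i + 1)) p ∧
    ∀ τ : ℝ, 0 < τ → τ ≤ 1 → ept V i t + τ • (p - ept V i t) ∉ curve V}

end Pool.Agent.Helper94.UR
end

/- Helper94.UR.Sides1 -/
section
/-!
# Points on one side of one edge
-/

set_option autoImplicit false

namespace Pool.Agent.Helper94.UR

open Pool.Agent.Helper20.Flip Pool.Agent.Helper97.UDP Topology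

variable {n : ℕ} {V : ZMod n → Pt}

private theorem ept_mem (V : ZMod n → Pt) (i : ZMod n) {t : ℝ} (ht : 0 ≤ t) (ht' : t ≤ 1) :
    ept V i t ∈ segment ℝ (V i) (V (i + 1)) := by
  refine ⟨1 - t, t, by linarith, ht, by ring, ?_⟩
  unfold ept
  rw [smul_sub, sub_smul, one_smul]
  abel

/-- an inner point of an edge is not on another edge -/
theorem ept_notMem (hV : IsSimple V) {i j : ZMod n} (hij : i ≠ j) {t : ℝ} (ht : 0 < t)
    (ht' : t < 1) : ept V i t ∉ segment ℝ (V j) (V (j + 1)) := by
  intro h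
  have hne : V (i + 1) - V i ≠ 0 := by
    rw [sub_ne_zero]
    exact (hV.2.1 i).symm
  rcases hV.2.2 i j hij _ (ept_mem V i ht.le ht'.le) h with ⟨h1, h2⟩ | ⟨-, h2⟩
  · rw [h1] at h2
    have h3 : (1 - t) • (V (i + 1) - V i) = 0 := by
      have h4 : V i + t • (V (i + 1) - V i) = V (i + 1) := h2
      rw [sub_smul, one_smul, sub_eq_zero, sub_eq_iff_eq_add']
      exact h4.symm
    rcases smul_eq_zero.1 h3 with h4 | h4
    · linarith
    · exact hne h4
  · have h3 : t • (V (i + 1) - V i) = 0 := by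
      have h4 : V i + t • (V (i + 1) - V i) = V i := h2
      exact add_eq_left.1 h4
    rcases smul_eq_zero.1 h3 with h4 | h4
    · linarith
    · exact hne h4

/-- the union of the other edges -/
private def others (V : ZMod n → Pt) (i : ZMod n) : Set Pt :=
  ⋃ j : {j : ZMod n // j ≠ i}, segment ℝ (V j) (V (j + 1))

private theorem isCompact_seg (a b : Pt) : IsCompact (segment ℝ a b) := by
  rw [← convexHull_pair]
  have h2 : ({a, b} : Set Pt).Finite := Set.toFinite _
  exact h2.isCompact_convexHull (𝕜 := ℝ)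

private theorem isClosed_others [NeZero n] (V : ZMod n → Pt) (i : ZMod n) :
    IsClosed (others V i) :=
  isClosed_iUnion_of_finite fun _ => (isCompact_seg _ _).isClosed

private theorem notMem_curve {i : ZMod n} {p : Pt} (h1 : p ∉ others V i)
    (h2 : cross (V i) (V (i + 1)) p ≠ 0) : p ∉ curve V := by
  rintro ⟨j, hj⟩
  by_cases hji : j = i
  · subst hji
    exact h2 (edgeFun_eq_zero hj)
  · exact h1 (Set.mem_iUnion.2 ⟨⟨j, hji⟩, hj⟩)

private theorem ept_notMem_others (hV : IsSimple V) (i : ZMod n) {t : ℝ} (ht : 0 < t)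
    (ht' : t < 1) : ept V i t ∉ others V i := by
  intro h
  obtain ⟨⟨j, hj⟩, h⟩ := Set.mem_iUnion.1 h
  exact ept_notMem hV (Ne.symm hj) ht ht' h

/-- Near an inner point of an edge: the half disks. -/
theorem exists_halfball (hV : IsSimple V) (i : ZMod n) {t : ℝ} (ht : 0 < t) (ht' : t < 1) :
    ∃ r > 0, ∀ p ∈ Metric.ball (ept V i t) r, cross (V i) (V (i + 1)) p ≠ 0 → p ∉ curve V := by
  have : NeZero n := ⟨by have := hV.1; omega⟩
  obtain ⟨r, hr, h⟩ := Metric.isOpen_iff.1 (isClosed_others V i).isOpen_compl _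
    (ept_notMem_others hV i ht ht')
  exact ⟨r, hr, fun p hp hc => notMem_curve (h hp) hc⟩

private theorem cross_ept (V : ZMod n → Pt) (i : ZMod n) (t τ : ℝ) (u : Pt) :
    cross (V i) (V (i + 1)) (ept V i t + τ • u) = τ * cross (V i) (V (i + 1)) (V i + u) := by
  unfold cross ept
  simp only [Prod.fst_add, Prod.snd_add, Prod.smul_fst, Prod.smul_snd, smul_eq_mul,
    Prod.fst_sub, Prod.snd_sub]
  ring

/-- The points of an edge can be left in every direction which is not parallel to the edge. -/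
theorem eventually_side (hV : IsSimple V) (i : ZMod n) {t : ℝ} (ht : 0 < t) (ht' : t < 1)
    {s : ℝ} {u : Pt} (hu : 0 < s * cross (V i) (V (i + 1)) (V i + u)) :
    ∀ᶠ τ : ℝ in 𝓝[>] 0, ept V i t + τ • u ∈ sideSet V s := by
  obtain ⟨r, hr, h⟩ := exists_halfball hV i ht ht'
  have hc : cross (V i) (V (i + 1)) (V i + u) ≠ 0 := by
    intro h0
    rw [h0, mul_zero] at hu
    exact lt_irrefl _ hu
  rw [eventually_nhdsWithin_iff, Metric.eventually_nhds_iff]
  refine ⟨r / (‖u‖ + 1), by positivity, fun τ hτ hτ0 => ?_⟩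
  have hτ0 : 0 < τ := hτ0
  rw [Real.dist_eq, sub_zero, abs_of_pos hτ0] at hτ
  have hτr : τ * ‖u‖ < r := by
    rw [lt_div_iff₀ (by positivity)] at hτ
    nlinarith [norm_nonneg u]
  refine ⟨i, t, ht, ht', ?_, fun τ' h1 h2 => ?_⟩
  · rw [cross_ept]
    have : s * (τ * cross (V i) (V (i + 1)) (V i + u)) =
        τ * (s * cross (V i) (V (i + 1)) (V i + u)) := by ring
    rw [this]
    exact mul_pos hτ0 hu
  · have h3 : ept V i t + τ' • (ept V i t + τ • u - ept V i t) = ept V i t + (τ' * τ) • u := by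
      rw [add_sub_cancel_left, smul_smul]
    rw [h3]
    apply h
    · rw [Metric.mem_ball, dist_eq_norm, add_sub_cancel_left, norm_smul, Real.norm_eq_abs,
        abs_of_pos (mul_pos h1 hτ0)]
      calc τ' * τ * ‖u‖ ≤ 1 * τ * ‖u‖ := by gcongr
        _ = τ * ‖u‖ := by ring
        _ < r := hτr
    · rw [cross_ept]
      exact mul_ne_zero (mul_pos h1 hτ0).ne' hc

/-- The points on one side of the same edge are in the same component. -/
theorem same_edge (hV : IsSimple V) (i : ZMod n) {s : ℝ} (hs : s = 1 ∨ s = -1) {t t' : ℝ}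
    (ht : 0 < t) (ht' : t < 1) (hu : 0 < t') (hu' : t' < 1) {p p' : Pt}
    (hp : 0 < s * cross (V i) (V (i + 1)) p)
    (hpc : ∀ τ : ℝ, 0 < τ → τ ≤ 1 → ept V i t + τ • (p - ept V i t) ∉ curve V)
    (hp' : 0 < s * cross (V i) (V (i + 1)) p')
    (hpc' : ∀ τ : ℝ, 0 < τ → τ ≤ 1 → ept V i t' + τ • (p' - ept V i t') ∉ curve V) :
    p' ∈ connectedComponentIn (curve V)ᶜ p := by
  have : NeZero n := ⟨by have := hV.1; omega⟩
  have hseg : segment ℝ (ept V i t) (ept V i t') ⊆ (others V i)ᶜ := by
    rintro x ⟨a, b, ha, hb, hab, rfl⟩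
    have h1 : a • ept V i t + b • ept V i t' = ept V i (a * t + b * t') := by
      unfold ept
      have h2 : a • (V i + t • (V (i + 1) - V i)) + b • (V i + t' • (V (i + 1) - V i)) =
          (a + b) • V i + (a * t + b * t') • (V (i + 1) - V i) := by
        rw [smul_add, smul_add, smul_smul, smul_smul, add_smul, add_smul]
        abel
      rw [h2, hab, one_smul]
    rw [h1]
    apply ept_notMem_others hV i
    · rcases eq_or_lt_of_le ha with h | h
      · have : b = 1 := by linarith
        rw [← h, this]; linarith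
      · nlinarith
    · rcases eq_or_lt_of_le ha with h | h
      · have : b = 1 := by linarith
        rw [← h, this]; linarith
      · nlinarith
  obtain ⟨δ, hδ, hthick⟩ := (isCompact_seg (ept V i t) (ept V i t')).exists_thickening_subset_open
    (isClosed_others V i).isOpen_compl hseg
  -- the convex strip
  set W : Set Pt := Metric.thickening δ (segment ℝ (ept V i t) (ept V i t')) ∩
    {q | 0 < s * cross (V i) (V (i + 1)) q} with hW
  have hhalf : Convex ℝ {q : Pt | 0 < s * cross (V i) (V (i + 1)) q} := by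
    intro x hx y hy a b ha hb hab
    have hx : 0 < s * cross (V i) (V (i + 1)) x := hx
    have hy : 0 < s * cross (V i) (V (i + 1)) y := hy
    show 0 < s * cross (V i) (V (i + 1)) (a • x + b • y)
    have h1 : s * cross (V i) (V (i + 1)) (a • x + b • y) =
        a * (s * cross (V i) (V (i + 1)) x) + b * (s * cross (V i) (V (i + 1)) y) := by
      have hb' : b = 1 - a := by linarith
      subst hb'
      unfold cross
      simp only [Prod.fst_add, Prod.snd_add, Prod.smul_fst, Prod.smul_snd, smul_eq_mul]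
      ring
    rw [h1]
    rcases eq_or_lt_of_le ha with h | h
    · have : b = 1 := by linarith
      rw [← h, this]; linarith
    · have := mul_pos h hx
      have := mul_nonneg hb hy.le
      linarith
  have hWconv : Convex ℝ W := ((convex_segment _ _).thickening δ).inter hhalf
  have hWsub : W ⊆ (curve V)ᶜ := by
    rintro q ⟨hq1, hq2⟩
    refine notMem_curve (hthick hq1) ?_
    intro h0
    have hq2 : 0 < s * cross (V i) (V (i + 1)) q := hq2
    rw [h0, mul_zero] at hq2
    exact lt_irrefl _ hq2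
  -- the segment from an inner point of the edge
  have key : ∀ {x : ℝ} {q : Pt}, ept V i x ∈ segment ℝ (ept V i t) (ept V i t') →
      0 < s * cross (V i) (V (i + 1)) q →
      (∀ τ : ℝ, 0 < τ → τ ≤ 1 → ept V i x + τ • (q - ept V i x) ∉ curve V) →
      ∃ z ∈ W, ∃ S : Set Pt, IsPreconnected S ∧ S ⊆ (curve V)ᶜ ∧ q ∈ S ∧ z ∈ S := by
    intro x q hx hq hqc
    have hτ0 : 0 < min 1 (δ / (2 * (‖q - ept V i x‖ + 1))) := by positivity
    obtain ⟨τ, hτ⟩ : ∃ τ, τ = min 1 (δ / (2 * (‖q - ept V i x‖ + 1))) := ⟨_, rfl⟩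
    rw [← hτ] at hτ0
    have hτ1 : τ ≤ 1 := by rw [hτ]; exact min_le_left _ _
    have hτ2 : τ * ‖q - ept V i x‖ < δ := by
      have h1 : τ ≤ δ / (2 * (‖q - ept V i x‖ + 1)) := by rw [hτ]; exact min_le_right _ _
      rw [le_div_iff₀ (by positivity)] at h1
      nlinarith [norm_nonneg (q - ept V i x)]
    refine ⟨ept V i x + τ • (q - ept V i x), ⟨?_, ?_⟩,
      (fun τ : ℝ => ept V i x + τ • (q - ept V i x)) '' Set.Ioc 0 1, ?_, ?_, ?_, ?_⟩
    · rw [Metric.mem_thickening_iff]
      refine ⟨ept V i x, hx, ?_⟩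
      rw [dist_eq_norm, add_sub_cancel_left, norm_smul, Real.norm_eq_abs, abs_of_pos hτ0]
      exact hτ2
    · show 0 < s * cross (V i) (V (i + 1)) (ept V i x + τ • (q - ept V i x))
      rw [cross_ept]
      have h1 : cross (V i) (V (i + 1)) (V i + (q - ept V i x)) =
          cross (V i) (V (i + 1)) q := by
        unfold cross ept
        simp only [Prod.fst_add, Prod.snd_add, Prod.smul_fst, Prod.smul_snd, smul_eq_mul,
          Prod.fst_sub, Prod.snd_sub]
        ring
      rw [h1]
      have : s * (τ * cross (V i) (V (i + 1)) q) = τ * (s * cross (V i) (V (i + 1)) q) := by ring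
      rw [this]
      exact mul_pos hτ0 hq
    · apply isPreconnected_Ioc.image
      fun_prop
    · rintro _ ⟨τ', ⟨h1, h2⟩, rfl⟩
      exact hqc τ' h1 h2
    · exact ⟨1, ⟨zero_lt_one, le_rfl⟩, by simp⟩
    · exact ⟨τ, ⟨hτ0, hτ1⟩, rfl⟩
  obtain ⟨z, hz, S, hS, hSc, hpS, hzS⟩ := key (left_mem_segment ℝ _ _) hp hpc
  obtain ⟨z', hz', S', hS', hSc', hpS', hzS'⟩ := key (right_mem_segment ℝ _ _) hp' hpc'
  have h1 : IsPreconnected (S ∪ W) := hS.union z hzS hz hWconv.isPreconnected
  have h2 : IsPreconnected (S ∪ W ∪ S') := h1.union z' (Or.inr hz') hzS' hS'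
  exact h2.subset_connectedComponentIn (Or.inl (Or.inl hpS))
    (Set.union_subset (Set.union_subset hSc hWsub) hSc') (Or.inr hpS')

end Pool.Agent.Helper94.UR
end

/- Helper94.UR.Sides2 -/
section
/-!
# The sides of consecutive edges
-/

set_option autoImplicit false

namespace Pool.Agent.Helper94.UR

open Pool.Agent.Helper20.Flip Pool.Agent.Helper97.UDP Topology

variable {n : ℕ} {V : ZMod n → Pt}

/-- the determinant of two vectors -/
private def crd2 (d w : Pt) : ℝ := d.1 * w.2 - d.2 * w.1

private theorem cross_left (a v w : Pt) : cross a v (v + w) = crd2 (v - a) w := by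
  simp only [cross, crd2, Prod.fst_add, Prod.snd_add, Prod.fst_sub, Prod.snd_sub]
  ring

private theorem cross_right (v b w : Pt) : cross v b (v + w) = crd2 (b - v) w := by
  simp only [cross, crd2, Prod.fst_add, Prod.snd_add, Prod.fst_sub, Prod.snd_sub]
  ring

private theorem cross_comb (A B x y : Pt) {α β : ℝ} (h : α + β = 1) :
    cross A B (α • x + β • y) = α * cross A B x + β * cross A B y := by
  obtain rfl : β = 1 - α := by linarith
  simp only [cross, Prod.fst_add, Prod.snd_add, Prod.smul_fst, Prod.smul_snd, smul_eq_mul]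
  ring

private theorem cross_seg {A B q : Pt} (h : q ∈ segment ℝ A B) : cross A B q = 0 := by
  obtain ⟨α, β, -, -, hab, rfl⟩ := h
  rw [cross_comb _ _ _ _ hab]
  simp only [cross]
  ring

private theorem one_add_ne (hn : 3 ≤ n) (i : ZMod n) : i ≠ i + 1 := by
  intro h
  have h1 : (1 : ZMod n) = 0 := by
    have := congrArg (fun x => x - i) h
    simpa using this.symm
  have h2 : ((1 : ℕ) : ZMod n) = 0 := by simpa using h1
  rw [ZMod.natCast_eq_zero_iff] at h2
  have := Nat.le_of_dvd (by norm_num) h2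
  omega

private theorem two_add_ne (hn : 3 ≤ n) (i : ZMod n) : i ≠ i + 1 + 1 := by
  intro h
  have h1 : (1 + 1 : ZMod n) = 0 := by
    have := congrArg (fun x => x - i) h
    rw [add_assoc] at this
    simpa using this.symm
  have h2 : ((2 : ℕ) : ZMod n) = 0 := by
    push_cast
    rw [← h1]
    norm_num
  rw [ZMod.natCast_eq_zero_iff] at h2
  have := Nat.le_of_dvd (by norm_num) h2
  omega

private theorem exists_ball (hV : IsSimple V) (i : ZMod n) :
    ∃ r > 0, ∀ q ∈ Metric.ball (V (i + 1)) r, q ∈ curve V →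
      q ∈ segment ℝ (V i) (V (i + 1)) ∨ q ∈ segment ℝ (V (i + 1)) (V (i + 1 + 1)) := by
  have : NeZero n := ⟨by have := hV.1; omega⟩
  set K : Set Pt := ⋃ j : {j : ZMod n // j ≠ i ∧ j ≠ i + 1}, segment ℝ (V j) (V (j + 1)) with hK
  have h1 : IsClosed K := by
    refine isClosed_iUnion_of_finite fun j => ?_
    rw [← convexHull_pair]
    have h2 : ({V j, V (j + 1)} : Set Pt).Finite := Set.toFinite _
    exact (h2.isCompact_convexHull (𝕜 := ℝ)).isClosed
  have h2 : V (i + 1) ∈ Kᶜ := by
    intro h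
    obtain ⟨⟨j, hj⟩, hjm⟩ := Set.mem_iUnion.1 h
    rcases hV.2.2 i j (Ne.symm hj.1) (V (i + 1)) (right_mem_segment ℝ _ _) hjm with h3 | h3
    · exact hj.2 h3.1
    · exact hV.2.1 i h3.2.symm
  obtain ⟨r, hr, hsub⟩ := Metric.isOpen_iff.1 h1.isOpen_compl _ h2
  refine ⟨r, hr, fun q hq hqc => ?_⟩
  obtain ⟨j, hj⟩ := hqc
  by_cases h3 : j = i
  · subst h3
    exact Or.inl hj
  by_cases h4 : j = i + 1
  · subst h4
    exact Or.inr hj
  exact absurd (Set.mem_iUnion.2 ⟨⟨j, h3, h4⟩, hj⟩) (hsub hq)

private theorem mem_seg {A B : Pt} {θ : ℝ} (h0 : 0 ≤ θ) (h1 : θ ≤ 1) :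
    A + θ • (B - A) ∈ segment ℝ A B := by
  refine ⟨1 - θ, θ, by linarith, h0, by ring, ?_⟩
  ext <;> simp only [Prod.fst_add, Prod.snd_add, Prod.smul_fst, Prod.smul_snd, smul_eq_mul,
    Prod.fst_sub, Prod.snd_sub] <;> ring

/-- the edges are not folded back -/
private theorem not_folded (hV : IsSimple V) (i : ZMod n)
    (h0 : crd2 (V (i + 1) - V i) (V (i + 1 + 1) - V (i + 1)) = 0) :
    ∃ l : ℝ, 0 < l ∧ V (i + 1 + 1) - V (i + 1) = l • (V (i + 1) - V i) := by
  have hd1 : V (i + 1) - V i ≠ 0 := sub_ne_zero.2 (Ne.symm (hV.2.1 i))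
  have hd2 : V (i + 1 + 1) - V (i + 1) ≠ 0 := sub_ne_zero.2 (Ne.symm (hV.2.1 (i + 1)))
  set d := V (i + 1) - V i with hd
  set f := V (i + 1 + 1) - V (i + 1) with hf
  have hq : 0 < d.1 ^ 2 + d.2 ^ 2 := by
    by_contra hcon
    have h1 : d.1 = 0 := by nlinarith [sq_nonneg d.1, sq_nonneg d.2]
    have h2 : d.2 = 0 := by nlinarith [sq_nonneg d.1, sq_nonneg d.2]
    exact hd1 (Prod.ext h1 h2)
  have hl : f = ((d.1 * f.1 + d.2 * f.2) / (d.1 ^ 2 + d.2 ^ 2)) • d := by
    simp only [crd2] at h0
    have hq' : d.1 ^ 2 + d.2 ^ 2 ≠ 0 := hq.ne'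
    ext
    · simp only [Prod.smul_fst, smul_eq_mul]
      field_simp
      linear_combination (-d.2) * h0
    · simp only [Prod.smul_snd, smul_eq_mul]
      field_simp
      linear_combination (d.1) * h0
  set l := (d.1 * f.1 + d.2 * f.2) / (d.1 ^ 2 + d.2 ^ 2) with hldef
  refine ⟨l, ?_, hl⟩
  by_contra hcon
  have hl0 : l ≠ 0 := by
    intro h
    rw [h, zero_smul] at hl
    exact hd2 hl
  have hneg : l < 0 := lt_of_le_of_ne (not_lt.1 hcon) hl0
  have hpos : 0 < 1 - l := by linarith
  set θ : ℝ := 1 / (1 - l) with hθ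
  have hθ0 : 0 < θ := by positivity
  have hθ1 : θ ≤ 1 := by
    rw [hθ, div_le_one hpos]
    linarith
  have hθl : θ * (1 - l) = 1 := by
    rw [hθ]
    field_simp
  have hx1 : V (i + 1) + θ • f ∈ segment ℝ (V (i + 1)) (V (i + 1 + 1)) := by
    rw [hf]
    exact mem_seg hθ0.le hθ1
  have hx2 : V (i + 1) + θ • f ∈ segment ℝ (V i) (V (i + 1)) := by
    have h3 : V (i + 1) + θ • f = V i + (1 + θ * l) • (V (i + 1) - V i) := by
      rw [hl, ← hd, add_smul, one_smul, mul_smul, hd]
      abel
    rw [h3]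
    refine mem_seg (by nlinarith) ?_
    have : θ * l < 0 := mul_neg_of_pos_of_neg hθ0 hneg
    linarith
  rcases hV.2.2 i (i + 1) (one_add_ne hV.1 i) _ hx2 hx1 with h | h
  · have h4 : θ • f = 0 := by
      have := h.2
      simpa using this
    rcases smul_eq_zero.1 h4 with h5 | h5
    · exact hθ0.ne' h5
    · exact hd2 h5
  · exact two_add_ne hV.1 i h.1

private theorem mem_ball_of {v w : Pt} {r : ℝ} (h : ‖w‖ < r) : v + w ∈ Metric.ball v r := by
  rw [mem_ball_iff_norm]
  simpa using h

private theorem exists_eps {M r : ℝ} (hM : 0 < M) (hr : 0 < r) :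
    ∃ ε : ℝ, 0 < ε ∧ ε < 1 ∧ ε * M < r := by
  refine ⟨min (1 / 2) (r / (2 * M)), by positivity, ?_, ?_⟩
  · exact (min_le_left _ _).trans_lt (by norm_num)
  · calc min (1 / 2) (r / (2 * M)) * M ≤ r / (2 * M) * M :=
          mul_le_mul_of_nonneg_right (min_le_right _ _) hM.le
      _ = r / 2 := by
        field_simp
      _ < r := by linarith

private theorem crd2_smul_add (d x y : Pt) (ε σ : ℝ) :
    crd2 d (ε • x + σ • y) = ε * crd2 d x + σ * crd2 d y := by
  simp only [crd2, Prod.fst_add, Prod.snd_add, Prod.smul_fst, Prod.smul_snd, smul_eq_mul]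
  ring

private theorem crd2_self (d : Pt) : crd2 d d = 0 := by
  simp only [crd2]
  ring

private theorem crd2_neg (d x : Pt) : crd2 d (-x) = -crd2 d x := by
  simp only [crd2, Prod.fst_neg, Prod.snd_neg]
  ring

private theorem crd2_comm (d x : Pt) : crd2 x d = -crd2 d x := by
  simp only [crd2]
  ring

private theorem convex_side (A B v : Pt) (r s : ℝ) :
    Convex ℝ {q | q ∈ Metric.ball v r ∧ 0 < s * cross A B q} := by
  intro x hx y hy α β hα hβ hab
  refine ⟨convex_ball v r hx.1 hy.1 hα hβ hab, ?_⟩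
  rw [cross_comb _ _ _ _ hab]
  have h1 := hx.2
  have h2 := hy.2
  rcases hα.eq_or_lt with h | h
  · have hβ1 : β = 1 := by linarith
    rw [← h, hβ1]
    linarith
  · have h3 : 0 < α * (s * cross A B x) := mul_pos h h1
    have h4 : 0 ≤ β * (s * cross A B y) := mul_nonneg hβ h2.le
    linarith

/-- There are points on the same side of two consecutive edges in the same component. -/
theorem exists_turn (hV : IsSimple V) (i : ZMod n) {s : ℝ} (hs : s = 1 ∨ s = -1) :
    ∃ (t t' : ℝ) (p p' : Pt), 0 < t ∧ t < 1 ∧ 0 < t' ∧ t' < 1 ∧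
      0 < s * cross (V i) (V (i + 1)) p ∧
      (∀ τ : ℝ, 0 < τ → τ ≤ 1 → ept V i t + τ • (p - ept V i t) ∉ curve V) ∧
      0 < s * cross (V (i + 1)) (V (i + 1 + 1)) p' ∧
      (∀ τ : ℝ, 0 < τ → τ ≤ 1 →
        ept V (i + 1) t' + τ • (p' - ept V (i + 1) t') ∉ curve V) ∧
      p' ∈ connectedComponentIn (curve V)ᶜ p := by
  obtain ⟨r, hr, hball⟩ := exists_ball hV i
  set d := V (i + 1) - V i with hd
  set f := V (i + 1 + 1) - V (i + 1) with hf
  set v := V (i + 1) with hv
  have ept1 : ∀ ε : ℝ, ept V i (1 - ε) = v + ε • (-d) := by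
    intro ε
    unfold ept
    rw [← hv, hd]
    ext <;> simp only [Prod.fst_add, Prod.snd_add, Prod.smul_fst, Prod.smul_snd, smul_eq_mul,
      Prod.fst_sub, Prod.snd_sub, Prod.fst_neg, Prod.snd_neg] <;> ring
  have ept2 : ∀ ε : ℝ, ept V (i + 1) ε = v + ε • f := fun ε => rfl
  have move : ∀ (x u : Pt) (ε τ : ℝ),
      (v + ε • x) + τ • ((v + (ε • x + ε • u)) - (v + ε • x)) = v + (ε • x + (τ * ε) • u) := by
    intro x u ε τ
    rw [mul_smul]
    have : v + (ε • x + ε • u) - (v + ε • x) = ε • u := by abel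
    rw [this]
    abel
  -- an auxiliary vector
  rcases lt_or_ge 0 (s * crd2 d f) with hpos | hneg
  · -- convex corner
    set M : ℝ := ‖-d‖ + ‖f‖ + 1 with hM
    have hM0 : 0 < M := by positivity
    obtain ⟨ε, hε0, hε1, hεM⟩ := exists_eps hM0 hr
    have key : ∀ x y : ℝ, 0 < x → x ≤ ε → 0 < y → y ≤ ε → v + (x • (-d) + y • f) ∉ curve V := by
      intro x y hx hxε hy hyε hc
      have hb : v + (x • (-d) + y • f) ∈ Metric.ball v r := by
        refine mem_ball_of (lt_of_le_of_lt ?_ hεM)
        calc ‖x • (-d) + y • f‖ ≤ ‖x • (-d)‖ + ‖y • f‖ := norm_add_le _ _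
          _ = x * ‖-d‖ + y * ‖f‖ := by
            rw [norm_smul, norm_smul, Real.norm_of_nonneg hx.le, Real.norm_of_nonneg hy.le]
          _ ≤ ε * ‖-d‖ + ε * ‖f‖ := add_le_add
            (mul_le_mul_of_nonneg_right hxε (norm_nonneg _))
            (mul_le_mul_of_nonneg_right hyε (norm_nonneg _))
          _ ≤ ε * M := by
            rw [hM]
            nlinarith
      rcases hball _ hb hc with h | h
      · have h1 := cross_seg h
        rw [cross_left, crd2_smul_add, ← hd, crd2_neg, crd2_self] at h1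
        have h2 : y * (s * crd2 d f) = 0 := by linear_combination s * h1
        exact (mul_pos hy hpos).ne' h2
      · have h1 := cross_seg h
        rw [cross_right, crd2_smul_add, ← hf, crd2_neg, crd2_self, crd2_comm] at h1
        have h2 : x * (s * crd2 d f) = 0 := by linear_combination s * h1
        exact (mul_pos hx hpos).ne' h2
    refine ⟨1 - ε, ε, v + (ε • (-d) + ε • f), v + (ε • (-d) + ε • f), by linarith, by linarith,
      hε0, hε1, ?_, ?_, ?_, ?_, ?_⟩
    · rw [cross_left, crd2_smul_add, ← hd, crd2_neg, crd2_self]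
      have := mul_pos hε0 hpos
      linarith
    · intro τ hτ hτ1
      rw [ept1, move]
      exact key _ _ hε0 le_rfl (mul_pos hτ hε0) (by nlinarith)
    · rw [cross_right, crd2_smul_add, ← hf, crd2_neg, crd2_self, crd2_comm]
      have := mul_pos hε0 hpos
      linarith
    · intro τ hτ hτ1
      rw [ept2, add_comm (ε • (-d)) (ε • f), move, add_comm (ε • f)]
      exact key _ _ (mul_pos hτ hε0) (by nlinarith) hε0 le_rfl
    · exact mem_connectedComponentIn (key _ _ hε0 le_rfl hε0 le_rfl)
  · -- reflex or straight corner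
    obtain ⟨u, hu1, hu2⟩ : ∃ u : Pt, 0 < s * crd2 d u ∧ 0 < s * crd2 f u := by
      rcases hneg.eq_or_lt with h0 | hlt
      · have h1 : crd2 d f = 0 := by
          rcases hs with rfl | rfl <;> linarith
        obtain ⟨l, hl, hfl⟩ := not_folded hV i h1
        rw [← hf, ← hv, ← hd] at hfl
        have hd0 : d ≠ 0 := sub_ne_zero.2 (Ne.symm (hV.2.1 i))
        have hq : 0 < d.1 ^ 2 + d.2 ^ 2 := by
          by_contra hcon
          have h1 : d.1 = 0 := by nlinarith [sq_nonneg d.1, sq_nonneg d.2]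
          have h2 : d.2 = 0 := by nlinarith [sq_nonneg d.1, sq_nonneg d.2]
          exact hd0 (Prod.ext h1 h2)
        have hss : s * s = 1 := by
          rcases hs with rfl | rfl <;> norm_num
        have h3 : s * crd2 d (s * (-d.2), s * d.1) = d.1 ^ 2 + d.2 ^ 2 := by
          simp only [crd2]
          linear_combination (d.1 ^ 2 + d.2 ^ 2) * hss
        refine ⟨(s * (-d.2), s * d.1), by rw [h3]; exact hq, ?_⟩
        have h4 : s * crd2 f (s * (-d.2), s * d.1) = l * (d.1 ^ 2 + d.2 ^ 2) := by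
          rw [← h3, hfl]
          simp only [crd2, Prod.smul_fst, Prod.smul_snd, smul_eq_mul]
          ring
        rw [h4]
        exact mul_pos hl hq
      · refine ⟨d - f, ?_, ?_⟩
        · have h1 : s * crd2 d (d - f) = -(s * crd2 d f) := by
            simp only [crd2, Prod.fst_sub, Prod.snd_sub]
            ring
          rw [h1]
          linarith
        · have h1 : s * crd2 f (d - f) = -(s * crd2 d f) := by
            simp only [crd2, Prod.fst_sub, Prod.snd_sub]
            ring
          rw [h1]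
          linarith
    set M : ℝ := ‖-d‖ + ‖f‖ + ‖u‖ + 1 with hM
    have hM0 : 0 < M := by positivity
    obtain ⟨ε, hε0, hε1, hεM⟩ := exists_eps hM0 hr
    set S1 : Set Pt := {q | q ∈ Metric.ball v r ∧ 0 < s * cross (V i) v q} with hS1
    set S2 : Set Pt := {q | q ∈ Metric.ball v r ∧ 0 < s * cross v (V (i + 1 + 1)) q} with hS2
    have hC1 : S1 ⊆ (curve V)ᶜ := by
      rintro q ⟨hq, hq'⟩ hc
      rcases hball _ hq hc with h | h
      · rw [cross_seg h] at hq'
        simp at hq'
      · obtain ⟨α, β, hα, hβ, hab, rfl⟩ := h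
        rw [cross_comb _ _ _ _ hab] at hq'
        have h1 : cross (V i) v v = 0 := by
          simp only [cross]
          ring
        have h2 : cross (V i) v (V (i + 1 + 1)) = crd2 d f := by
          rw [hd, hf, ← cross_left]
          congr 1
          abel
        rw [h1, h2] at hq'
        have : β * (s * crd2 d f) ≤ 0 := mul_nonpos_of_nonneg_of_nonpos hβ hneg
        linarith
    have hC2 : S2 ⊆ (curve V)ᶜ := by
      rintro q ⟨hq, hq'⟩ hc
      rcases hball _ hq hc with h | h
      · obtain ⟨α, β, hα, hβ, hab, rfl⟩ := h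
        rw [cross_comb _ _ _ _ hab] at hq'
        have h1 : cross v (V (i + 1 + 1)) v = 0 := by
          simp only [cross]
          ring
        have h2 : cross v (V (i + 1 + 1)) (V i) = crd2 d f := by
          simp only [cross, crd2, hd, hf, Prod.fst_sub, Prod.snd_sub]
          ring
        rw [h1, h2] at hq'
        have : α * (s * crd2 d f) ≤ 0 := mul_nonpos_of_nonneg_of_nonpos hα hneg
        linarith
      · rw [cross_seg h] at hq'
        simp at hq'
    have m1 : ∀ x σ : ℝ, 0 ≤ x → x ≤ ε → 0 < σ → σ ≤ ε → v + (x • (-d) + σ • u) ∈ S1 := by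
      intro x σ hx hxε hσ hσε
      refine ⟨mem_ball_of (lt_of_le_of_lt ?_ hεM), ?_⟩
      · calc ‖x • (-d) + σ • u‖ ≤ ‖x • (-d)‖ + ‖σ • u‖ := norm_add_le _ _
          _ = x * ‖-d‖ + σ * ‖u‖ := by
            rw [norm_smul, norm_smul, Real.norm_of_nonneg hx, Real.norm_of_nonneg hσ.le]
          _ ≤ ε * ‖-d‖ + ε * ‖u‖ := add_le_add
            (mul_le_mul_of_nonneg_right hxε (norm_nonneg _))
            (mul_le_mul_of_nonneg_right hσε (norm_nonneg _))
          _ ≤ ε * M := by
            rw [hM]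
            nlinarith [norm_nonneg f, norm_nonneg (-d), norm_nonneg u, mul_nonneg hε0.le (norm_nonneg f)]
      · rw [cross_left, crd2_smul_add, ← hd, crd2_neg, crd2_self]
        have := mul_pos hσ hu1
        linarith
    have m2 : ∀ x σ : ℝ, 0 ≤ x → x ≤ ε → 0 < σ → σ ≤ ε → v + (x • f + σ • u) ∈ S2 := by
      intro x σ hx hxε hσ hσε
      refine ⟨mem_ball_of (lt_of_le_of_lt ?_ hεM), ?_⟩
      · calc ‖x • f + σ • u‖ ≤ ‖x • f‖ + ‖σ • u‖ := norm_add_le _ _
          _ = x * ‖f‖ + σ * ‖u‖ := by
            rw [norm_smul, norm_smul, Real.norm_of_nonneg hx, Real.norm_of_nonneg hσ.le]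
          _ ≤ ε * ‖f‖ + ε * ‖u‖ := add_le_add
            (mul_le_mul_of_nonneg_right hxε (norm_nonneg _))
            (mul_le_mul_of_nonneg_right hσε (norm_nonneg _))
          _ ≤ ε * M := by
            rw [hM]
            nlinarith [norm_nonneg f, norm_nonneg (-d), norm_nonneg u,
              mul_nonneg hε0.le (norm_nonneg (-d))]
      · rw [cross_right, crd2_smul_add, ← hf, crd2_self]
        have := mul_pos hσ hu2
        linarith
    refine ⟨1 - ε, ε, v + (ε • (-d) + ε • u), v + (ε • f + ε • u), by linarith, by linarith,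
      hε0, hε1, (m1 _ _ hε0.le le_rfl hε0 le_rfl).2, ?_, (m2 _ _ hε0.le le_rfl hε0 le_rfl).2,
      ?_, ?_⟩
    · intro τ hτ hτ1
      rw [ept1, move]
      exact hC1 (m1 _ _ hε0.le le_rfl (mul_pos hτ hε0) (by nlinarith))
    · intro τ hτ hτ1
      rw [ept2, move]
      exact hC2 (m2 _ _ hε0.le le_rfl (mul_pos hτ hε0) (by nlinarith))
    · have hc1 : IsPreconnected S1 := (convex_side _ _ _ _ _).isPreconnected
      have hc2 : IsPreconnected S2 := (convex_side _ _ _ _ _).isPreconnected
      have hq1 : v + ((0 : ℝ) • (-d) + ε • u) ∈ S1 := m1 _ _ le_rfl hε0.le hε0 le_rfl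
      have hq2 : v + ((0 : ℝ) • (-d) + ε • u) ∈ S2 := by
        have := m2 0 ε le_rfl hε0.le hε0 le_rfl
        simpa only [zero_smul] using this
      have hU : IsPreconnected (S1 ∪ S2) := IsPreconnected.union _ hq1 hq2 hc1 hc2
      exact hU.subset_connectedComponentIn (Or.inl (m1 _ _ hε0.le le_rfl hε0 le_rfl))
        (Set.union_subset hC1 hC2) (Or.inr (m2 _ _ hε0.le le_rfl hε0 le_rfl))

end Pool.Agent.Helper94.UR
end

/- Helper94.UR.Sides3 -/
section
/-!
# The sides of a polygon are connected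
-/

set_option autoImplicit false

namespace Pool.Agent.Helper94.UR

open Pool.Agent.Helper20.Flip Pool.Agent.Helper97.UDP Topology

variable {n : ℕ} {V : ZMod n → Pt}

private theorem same_side_aux (hV : IsSimple V) {s : ℝ} (hs : s = 1 ∨ s = -1) (i : ZMod n)
    {t : ℝ} (ht : 0 < t) (ht' : t < 1) {p : Pt} (hp : 0 < s * cross (V i) (V (i + 1)) p)
    (hpc : ∀ τ : ℝ, 0 < τ → τ ≤ 1 → ept V i t + τ • (p - ept V i t) ∉ curve V) (m : ℕ) :
    ∀ (j : ZMod n), j = i + m → ∀ (u : ℝ) (q : Pt), 0 < u → u < 1 →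
      0 < s * cross (V j) (V (j + 1)) q →
      (∀ τ : ℝ, 0 < τ → τ ≤ 1 → ept V j u + τ • (q - ept V j u) ∉ curve V) →
      q ∈ connectedComponentIn (curve V)ᶜ p := by
  induction m with
  | zero =>
    intro j hj u q hu hu' hq hqc
    have hji : j = i := by simpa using hj
    subst hji
    exact same_edge hV _ hs ht ht' hu hu' hp hpc hq hqc
  | succ m ih =>
    intro j hj u q hu hu' hq hqc
    obtain ⟨t1, t2, p1, p2, h1, h1', h2, h2', hp1, hpc1, hp2, hpc2, h12⟩ :=
      exists_turn hV (i + (m : ZMod n)) hs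
    have e : i + (m : ZMod n) + 1 = j := by
      rw [hj]
      push_cast
      ring
    rw [e] at hp2 hpc2
    have a1 : p1 ∈ connectedComponentIn (curve V)ᶜ p := ih _ rfl t1 p1 h1 h1' hp1 hpc1
    have a2 : q ∈ connectedComponentIn (curve V)ᶜ p2 :=
      same_edge hV j hs h2 h2' hu hu' hp2 hpc2 hq hqc
    rw [connectedComponentIn_eq a1, connectedComponentIn_eq h12]
    exact a2

/-- All the points on the same side of a simple polygon are in the same component. -/
theorem same_side (hV : IsSimple V) {s : ℝ} (hs : s = 1 ∨ s = -1) {p q : Pt}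
    (hp : p ∈ sideSet V s) (hq : q ∈ sideSet V s) :
    q ∈ connectedComponentIn (curve V)ᶜ p := by
  obtain ⟨i, t, ht, ht', hp1, hpc⟩ := hp
  obtain ⟨j, u, hu, hu', hq1, hqc⟩ := hq
  have hn : 3 ≤ n := hV.1
  have : NeZero n := ⟨by omega⟩
  refine same_side_aux hV hs i ht ht' hp1 hpc (j - i).val j ?_ u q hu hu' hq1 hqc
  rw [ZMod.natCast_zmod_val]
  ring

end Pool.Agent.Helper94.UR
end

/- Helper94.UR.Wind -/
section
/-!
# The two sides of an edge are in different components (by the winding number)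
-/

set_option autoImplicit false

namespace Pool.Agent.Helper94.UR

open Pool.Agent.Helper20.Flip Pool.Agent.Helper97.UDP Topology

variable {n : ℕ} {V : ZMod n → Pt}

private noncomputable def toC (p : Pt) : ℂ := ⟨p.1, p.2⟩

private noncomputable def quo (V : ZMod n → Pt) (i : ZMod n) (p : Pt) : ℂ :=
  (toC (V (i + 1)) - toC p) / (toC (V i) - toC p)

private theorem toC_inj {p q : Pt} (h : toC p = toC q) : p = q := by
  have h1 := congrArg Complex.re h
  have h2 := congrArg Complex.im h
  exact Prod.ext h1 h2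

private theorem continuous_toC : Continuous toC := by
  have : toC = fun p : Pt => ((p.1 : ℂ) + (p.2 : ℂ) * Complex.I) := by
    funext p
    apply Complex.ext <;> simp [toC]
  rw [this]
  fun_prop

private theorem quo_mem {i : ZMod n} {p : Pt} (hp : p ∉ segment ℝ (V i) (V (i + 1))) :
    toC (V i) - toC p ≠ 0 ∧ quo V i p ∈ Complex.slitPlane := by
  have h0 : toC (V i) - toC p ≠ 0 := by
    intro h
    have : V i = p := toC_inj (sub_eq_zero.1 h)
    exact hp (this ▸ left_mem_segment ℝ _ _)
  refine ⟨h0, ?_⟩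
  by_contra hq
  rw [Complex.mem_slitPlane_iff] at hq
  push Not at hq
  obtain ⟨h1, h2⟩ := hq
  set c : ℝ := -(quo V i p).re with hc
  have hc0 : 0 ≤ c := by linarith
  have h3 : quo V i p = -(c : ℂ) := Complex.ext (by simp [hc]) (by simp [h2])
  have h4 : toC (V (i + 1)) - toC p = -(c : ℂ) * (toC (V i) - toC p) := by
    rw [← h3, quo, div_mul_cancel₀ _ h0]
  have h5 : (V (i + 1)).1 - p.1 = -(c * ((V i).1 - p.1)) := by
    have := congrArg Complex.re h4
    simpa [toC] using this
  have h6 : (V (i + 1)).2 - p.2 = -(c * ((V i).2 - p.2)) := by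
    have := congrArg Complex.im h4
    simpa [toC] using this
  apply hp
  have h7 : (1 + c : ℝ) ≠ 0 := by positivity
  refine ⟨c / (1 + c), 1 / (1 + c), by positivity, by positivity, ?_, ?_⟩
  · field_simp
    ring
  · refine Prod.ext ?_ ?_
    · simp only [Prod.fst_add, Prod.smul_fst, smul_eq_mul]
      field_simp
      linarith
    · simp only [Prod.snd_add, Prod.smul_snd, smul_eq_mul]
      field_simp
      linarith

private theorem continuousAt_arg_quo {i : ZMod n} {p : Pt}
    (hp : p ∉ segment ℝ (V i) (V (i + 1))) :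
    ContinuousAt (fun q => (quo V i q).arg) p := by
  obtain ⟨h1, h2⟩ := quo_mem hp
  have h3 : ContinuousAt (quo V i) p := by
    unfold quo
    exact ContinuousAt.div (by have := continuous_toC; fun_prop)
      (by have := continuous_toC; fun_prop) h1
  exact ContinuousAt.comp (f := quo V i) (g := Complex.arg) (Complex.continuousAt_arg h2) h3

private noncomputable def wind [NeZero n] (V : ZMod n → Pt) (p : Pt) : ℝ :=
  ∑ i, (quo V i p).arg

private theorem wind_int [NeZero n] {p : Pt} (hp : p ∉ curve V) :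
    ∃ k : ℤ, wind V p = k * (2 * Real.pi) := by
  have hp' : ∀ i, p ∉ segment ℝ (V i) (V (i + 1)) := fun i hi => hp ⟨i, hi⟩
  have hprod : ∏ i, quo V i p = 1 := by
    unfold quo
    rw [Finset.prod_div_distrib]
    have h1 := Equiv.prod_comp (Equiv.addRight (1 : ZMod n)) fun i => toC (V i) - toC p
    have h2 : ∏ i, (toC (V (i + 1)) - toC p) = ∏ i, (toC (V i) - toC p) := h1
    rw [h2]
    exact div_self (Finset.prod_ne_zero_iff.2 fun i _ => (quo_mem (hp' i)).1)
  have hexp : Complex.exp ((wind V p : ℝ) * Complex.I) = 1 := by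
    unfold wind
    push_cast
    rw [Finset.sum_mul, Complex.exp_sum]
    have h1 : ∏ i, ((‖quo V i p‖ : ℂ) * Complex.exp ((quo V i p).arg * Complex.I)) = 1 := by
      rw [← hprod]
      exact Finset.prod_congr rfl fun i _ => Complex.norm_mul_exp_arg_mul_I _
    rw [Finset.prod_mul_distrib] at h1
    have h2 : ∏ i, (‖quo V i p‖ : ℂ) = 1 := by
      rw [← Complex.ofReal_prod, ← norm_prod, hprod]
      simp
    rw [h2, one_mul] at h1
    exact h1
  obtain ⟨k, hk⟩ := Complex.exp_eq_one_iff.1 hexp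
  refine ⟨k, ?_⟩
  have h3 : ((wind V p : ℝ) : ℂ) = ((k * (2 * Real.pi) : ℝ) : ℂ) := by
    have h4 : ((wind V p : ℝ) : ℂ) * Complex.I = ((k * (2 * Real.pi) : ℝ) : ℂ) * Complex.I := by
      rw [hk]
      push_cast
      ring
    exact mul_right_cancel₀ Complex.I_ne_zero h4
  exact_mod_cast h3

private theorem wind_const [NeZero n] {S : Set Pt} (hS : IsPreconnected S)
    (hsub : S ⊆ (curve V)ᶜ) {x y : Pt} (hx : x ∈ S) (hy : y ∈ S) : wind V x = wind V y := by
  have hcont : ContinuousOn (wind V) S := by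
    intro p hp
    have hp' : ∀ i, p ∉ segment ℝ (V i) (V (i + 1)) := fun i hi => hsub hp ⟨i, hi⟩
    refine ContinuousAt.continuousWithinAt ?_
    exact tendsto_finsetSum _ fun i _ => (continuousAt_arg_quo (hp' i))
  have key : ∀ a ∈ S, ∀ b ∈ S, ¬ wind V a < wind V b := by
    intro a ha b hb hab
    obtain ⟨k, hk⟩ := wind_int (hsub ha)
    obtain ⟨l, hl⟩ := wind_int (hsub hb)
    have hpi := Real.pi_pos
    have hkl : k < l := by
      rw [hk, hl] at hab
      have := lt_of_mul_lt_mul_right hab (by positivity)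
      exact_mod_cast this
    have hkl' : (k : ℝ) + 1 ≤ l := by exact_mod_cast hkl
    obtain ⟨z, hz, hz'⟩ := hS.intermediate_value ha hb hcont
      (show wind V a + Real.pi ∈ Set.Icc (wind V a) (wind V b) by
        rw [hl, hk]
        constructor
        · linarith
        · nlinarith)
    obtain ⟨m, hm⟩ := wind_int (hsub hz)
    rw [hz', hk] at hm
    have h1 : (2 * (m - k) : ℝ) = 1 := by
      have : Real.pi * (2 * (m - k)) = Real.pi * 1 := by linarith
      exact mul_left_cancel₀ hpi.ne' this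
    have h2 : (2 * (m - k) : ℤ) = 1 := by exact_mod_cast h1
    omega
  exact le_antisymm (not_lt.1 (key y hy x hx)) (not_lt.1 (key x hx y hy))

/-- The winding number (times `2π`) is constant on the connected subsets of the complement, and
it jumps at the midpoint of an edge. -/
theorem eventually_jump (hV : IsSimple V) (i : ZMod n) :
    ∀ᶠ ε : ℝ in 𝓝[>] 0, ept V i (1 / 2) - ε • nrm V i ∉
      connectedComponentIn (curve V)ᶜ (ept V i (1 / 2) + ε • nrm V i) := by
  have hn : NeZero n := ⟨by have := hV.1; omega⟩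
  have hne := hV.2.1 i
  -- the midpoint is not on the other edges
  have hm : ∀ j, j ≠ i → ept V i (1 / 2) ∉ segment ℝ (V j) (V (j + 1)) := by
    intro j hj hmem
    have hmi : ept V i (1 / 2) ∈ segment ℝ (V i) (V (i + 1)) := by
      refine ⟨1 / 2, 1 / 2, by norm_num, by norm_num, by norm_num, ?_⟩
      unfold ept
      refine Prod.ext ?_ ?_
      · simp only [Prod.fst_add, Prod.smul_fst, smul_eq_mul, Prod.fst_sub]
        ring
      · simp only [Prod.snd_add, Prod.smul_snd, smul_eq_mul, Prod.snd_sub]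
        ring
    rcases hV.2.2 i j (Ne.symm hj) _ hmi hmem with ⟨h1, h2⟩ | ⟨h1, h2⟩
    · rw [h1] at h2
      apply hne
      unfold ept at h2
      have e1 := congrArg Prod.fst h2
      have e2 := congrArg Prod.snd h2
      simp only [Prod.fst_add, Prod.smul_fst, smul_eq_mul, Prod.fst_sub] at e1
      simp only [Prod.snd_add, Prod.smul_snd, smul_eq_mul, Prod.snd_sub] at e2
      exact Prod.ext (by linarith) (by linarith)
    · apply hne
      unfold ept at h2
      have e1 := congrArg Prod.fst h2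
      have e2 := congrArg Prod.snd h2
      simp only [Prod.fst_add, Prod.smul_fst, smul_eq_mul, Prod.fst_sub] at e1
      simp only [Prod.snd_add, Prod.smul_snd, smul_eq_mul, Prod.snd_sub] at e2
      exact Prod.ext (by linarith) (by linarith)
  -- the other terms
  let F : ℝ → ℝ := fun ε => ∑ j ∈ Finset.univ.erase i,
    ((quo V j (ept V i (1 / 2) + ε • nrm V i)).arg -
      (quo V j (ept V i (1 / 2) - ε • nrm V i)).arg)
  have hF0 : F 0 = 0 := by
    refine Finset.sum_eq_zero fun j _ => ?_
    rw [zero_smul, add_zero, sub_zero, sub_self]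
  have hF : ContinuousAt F 0 := by
    refine tendsto_finsetSum _ fun j hj => ?_
    have hj' := hm j (Finset.ne_of_mem_erase hj)
    have c1 : ContinuousAt (fun ε : ℝ => (quo V j (ept V i (1 / 2) + ε • nrm V i)).arg) 0 := by
      refine ContinuousAt.comp (f := fun ε : ℝ => ept V i (1 / 2) + ε • nrm V i)
        (g := fun q => (quo V j q).arg) ?_ (by fun_prop)
      rw [zero_smul, add_zero]
      exact continuousAt_arg_quo hj'
    have c2 : ContinuousAt (fun ε : ℝ => (quo V j (ept V i (1 / 2) - ε • nrm V i)).arg) 0 := by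
      refine ContinuousAt.comp (f := fun ε : ℝ => ept V i (1 / 2) - ε • nrm V i)
        (g := fun q => (quo V j q).arg) ?_ (by fun_prop)
      rw [zero_smul, sub_zero]
      exact continuousAt_arg_quo hj'
    exact c1.sub c2
  have hev : ∀ᶠ ε in 𝓝 (0 : ℝ), -Real.pi < F ε := by
    refine hF.eventually (lt_mem_nhds ?_)
    rw [hF0]
    linarith [Real.pi_pos]
  have hsmall : ∀ᶠ ε in 𝓝 (0 : ℝ), ε < 1 / 2 := gt_mem_nhds (by norm_num)
  filter_upwards [nhdsWithin_le_nhds hev, nhdsWithin_le_nhds hsmall, self_mem_nhdsWithin]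
    with ε h1 h2 h3
  intro hmem
  have h3' : (0 : ℝ) < ε := h3
  have hpos : ept V i (1 / 2) + ε • nrm V i ∈ (curve V)ᶜ := by
    by_contra hcon
    rw [connectedComponentIn_eq_empty hcon] at hmem
    exact hmem
  have hw := wind_const isPreconnected_connectedComponentIn (connectedComponentIn_subset _ _)
    (mem_connectedComponentIn hpos) hmem
  -- the term of the edge
  have hD : toC (V (i + 1)) - toC (V i) ≠ 0 := by
    intro h
    exact hne (toC_inj (sub_eq_zero.1 h)).symm
  have hq : ∀ δ : ℝ, quo V i (ept V i (1 / 2) + δ • nrm V i) =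
      ⟨-(1 - 4 * δ ^ 2) / (1 + 4 * δ ^ 2), 4 * δ / (1 + 4 * δ ^ 2)⟩ := by
    intro δ
    have hden : (1 + 4 * δ ^ 2 : ℝ) ≠ 0 := by positivity
    have e1 : toC (V (i + 1)) - toC (ept V i (1 / 2) + δ • nrm V i) =
        (toC (V (i + 1)) - toC (V i)) * ⟨1 / 2, -δ⟩ := by
      apply Complex.ext
      · simp only [toC, ept, nrm, Complex.sub_re, Complex.mul_re, Complex.sub_im, Prod.fst_add,
          Prod.smul_fst, smul_eq_mul, Prod.fst_sub]
        ring
      · simp only [toC, ept, nrm, Complex.sub_re, Complex.mul_im, Complex.sub_im, Prod.snd_add,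
          Prod.smul_snd, smul_eq_mul, Prod.snd_sub]
        ring
    have e2 : toC (V i) - toC (ept V i (1 / 2) + δ • nrm V i) =
        (toC (V (i + 1)) - toC (V i)) * ⟨-(1 / 2), -δ⟩ := by
      apply Complex.ext
      · simp only [toC, ept, nrm, Complex.sub_re, Complex.mul_re, Complex.sub_im, Prod.fst_add,
          Prod.smul_fst, smul_eq_mul, Prod.fst_sub]
        ring
      · simp only [toC, ept, nrm, Complex.sub_re, Complex.mul_im, Complex.sub_im, Prod.snd_add,
          Prod.smul_snd, smul_eq_mul, Prod.snd_sub]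
        ring
    have e3 : (⟨-(1 / 2), -δ⟩ : ℂ) ≠ 0 := by
      intro h
      have := congrArg Complex.re h
      norm_num at this
    unfold quo
    rw [e1, e2, mul_div_mul_left _ _ hD, div_eq_iff e3]
    apply Complex.ext
    · simp only [Complex.mul_re]
      field_simp
      ring
    · simp only [Complex.mul_im]
      field_simp
      ring
  have hplus : Real.pi / 2 < (quo V i (ept V i (1 / 2) + ε • nrm V i)).arg := by
    rw [hq ε]
    have him : (0 : ℝ) < 4 * ε / (1 + 4 * ε ^ 2) := by positivity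
    have hre : -(1 - 4 * ε ^ 2) / (1 + 4 * ε ^ 2) < 0 := by
      apply div_neg_of_neg_of_pos _ (by positivity)
      nlinarith
    by_contra hcon
    rw [not_lt] at hcon
    have := (Complex.arg_le_pi_div_two_iff.1 hcon)
    rcases this with h | h
    · exact absurd h (not_le.2 hre)
    · exact absurd h (not_lt.2 him.le)
  have hminus : (quo V i (ept V i (1 / 2) - ε • nrm V i)).arg < -(Real.pi / 2) := by
    have e4 : ept V i (1 / 2) - ε • nrm V i = ept V i (1 / 2) + (-ε) • nrm V i := by
      rw [neg_smul, sub_eq_add_neg]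
    rw [e4, hq (-ε)]
    have him : 4 * (-ε) / (1 + 4 * (-ε) ^ 2) < 0 := by
      apply div_neg_of_neg_of_pos (by linarith) (by positivity)
    have hre : -(1 - 4 * (-ε) ^ 2) / (1 + 4 * (-ε) ^ 2) < 0 := by
      apply div_neg_of_neg_of_pos _ (by positivity)
      nlinarith
    by_contra hcon
    rw [not_lt] at hcon
    have := (Complex.neg_pi_div_two_le_arg_iff.1 hcon)
    rcases this with h | h
    · exact absurd h (not_le.2 hre)
    · exact absurd h (not_le.2 him)
  unfold wind at hw
  rw [← Finset.add_sum_erase _ _ (Finset.mem_univ i),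
    ← Finset.add_sum_erase _ _ (Finset.mem_univ i)] at hw
  have hFs : F ε = ∑ j ∈ Finset.univ.erase i, (quo V j (ept V i (1 / 2) + ε • nrm V i)).arg -
      ∑ j ∈ Finset.univ.erase i, (quo V j (ept V i (1 / 2) - ε • nrm V i)).arg :=
    Finset.sum_sub_distrib _ _
  rw [hFs] at h1
  linarith

end Pool.Agent.Helper94.UR
end

/- Helper94.UR.Two -/
section
/-!
# The two sides of a simple polygon are in different components
-/

set_option autoImplicit false

namespace Pool.Agent.Helper94.UR

open Pool.Agent.Helper20.Flip Pool.Agent.Helper97.UDP Topology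

variable {n : ℕ} {V : ZMod n → Pt}

private theorem cross_nrm (V : ZMod n → Pt) (i : ZMod n) (h : V i ≠ V (i + 1)) :
    0 < cross (V i) (V (i + 1)) (V i + nrm V i) := by
  have h1 : cross (V i) (V (i + 1)) (V i + nrm V i) =
      ((V (i + 1)).1 - (V i).1) ^ 2 + ((V (i + 1)).2 - (V i).2) ^ 2 := by
    unfold cross nrm
    simp only [Prod.fst_add, Prod.snd_add]
    ring
  rw [h1]
  by_contra hcon
  have g1 := sq_nonneg ((V (i + 1)).1 - (V i).1)
  have g2 := sq_nonneg ((V (i + 1)).2 - (V i).2)
  have h2 : (V (i + 1)).1 - (V i).1 = 0 := pow_eq_zero_iff (two_ne_zero) |>.1 (by linarith)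
  have h3 : (V (i + 1)).2 - (V i).2 = 0 := pow_eq_zero_iff (two_ne_zero) |>.1 (by linarith)
  exact h (Prod.ext (by linarith) (by linarith))

theorem sides_ne (hV : IsSimple V) {p q : Pt} (hp : p ∈ sideSet V 1) (hq : q ∈ sideSet V (-1)) :
    q ∉ connectedComponentIn (curve V)ᶜ p := by
  intro hpq
  have hc := cross_nrm V 0 (hV.2.1 0)
  have hc' : 0 < (-1 : ℝ) * cross (V 0) (V (0 + 1)) (V 0 + -nrm V 0) := by
    have h1 : (-1 : ℝ) * cross (V 0) (V (0 + 1)) (V 0 + -nrm V 0) =
        cross (V 0) (V (0 + 1)) (V 0 + nrm V 0) := by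
      unfold cross
      simp only [Prod.fst_add, Prod.snd_add, Prod.fst_neg, Prod.snd_neg]
      ring
    rw [h1]
    exact hc
  have e1 := eventually_side hV 0 (t := 1 / 2) (by norm_num) (by norm_num) (s := 1)
    (u := nrm V 0) (by rw [one_mul]; exact hc)
  have e2 := eventually_side hV 0 (t := 1 / 2) (by norm_num) (by norm_num) (s := -1)
    (u := -nrm V 0) hc'
  obtain ⟨ε, h1, h2, h3⟩ := (e1.and (e2.and (eventually_jump hV 0))).exists
  have g1 := same_side hV (Or.inl rfl) h1 hp
  have g2 := same_side hV (Or.inr rfl) hq h2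
  apply h3
  rw [sub_eq_add_neg, ← smul_neg]
  rw [connectedComponentIn_eq g1, connectedComponentIn_eq hpq]
  exact g2

end Pool.Agent.Helper94.UR
end
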