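import Pool.Agent.Helper16.VGG.G01
import Pool.Agent.Helper16.VGG.G02
import Pool.Agent.Helper16.VGG.G05
import Pool.Agent.Helper16.VGG.G07
import Pool.Agent.Helper16.VGG.G08

/- AG.Pair.Good -/
section
/-!
# Project AG, block 5 (pair rule): solutions of linked parts

`rel` is an equivalence relation of corners which contains the equivalence `(S.keep X).Eqv` of the
part `X` considered and whose classes are points; hits are counted with respect to `rel`.  If `X`
is connected by glued sides and by `rel` (pinches), then `X` is solved as if it were connected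
(`good_of_linked`).
-/

set_option linter.unusedSectionVars false
set_option linter.unusedSimpArgs false

namespace AG

open Finset

variable {I : Type} [DecidableEq I]

namespace Obj

/-- no glued side leads from `Y` to `X \ Y` -/
def Closed (S : Obj I) (X Y : Finset I) : Prop :=
  ∀ a, S.g a ≠ a → a.1 ∈ Y → (S.g a).1 ∈ X → (S.g a).1 ∈ Y

theorem Closed.sdiff {S : Obj I} {X Y : Finset I} (h : S.Closed X Y) :
    S.Closed X (X \ Y) := by
  intro a ha h1 h2
  rw [mem_sdiff] at h1 ⊢
  refine ⟨h2, fun h3 => h1.2 ?_⟩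
  have := h (S.g a) (g_ne_iff.2 ha) h3 (by rw [S.invol]; exact h1.1)
  rwa [S.invol] at this

/-- the connected component of `t` in `X` -/
theorem exists_comp (S : Obj I) {X : Finset I} (hX : X ⊆ S.F) {t : I} (ht : t ∈ X) :
    ∃ Z ⊆ X, t ∈ Z ∧ S.Closed X Z ∧ (S.keep Z).Conn ∧
      ∀ Z' ⊆ X, t ∈ Z' → S.Closed X Z' → Z ⊆ Z' := by
  classical
  let 𝒵 : Finset (Finset I) := X.powerset.filter fun Z => t ∈ Z ∧ S.Closed X Z
  have hne : 𝒵.Nonempty := ⟨X, by
    simp only [𝒵, mem_filter, mem_powerset]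
    exact ⟨subset_rfl, ht, fun a _ _ h => h⟩⟩
  obtain ⟨Z, hZ, hmin⟩ := exists_min_image 𝒵 Finset.card hne
  simp only [𝒵, mem_filter, mem_powerset] at hZ hmin
  obtain ⟨hZX, htZ, hZc⟩ := hZ
  have key : ∀ Z' ⊆ X, t ∈ Z' → S.Closed X Z' → Z ⊆ Z' := by
    intro Z' h1 h2 h3
    have h4 : S.Closed X (Z ∩ Z') := by
      intro a ha h5 h6
      rw [mem_inter] at h5 ⊢
      exact ⟨hZc a ha h5.1 h6, h3 a ha h5.2 h6⟩
    have h5 := hmin (Z ∩ Z') ⟨inter_subset_left.trans hZX, mem_inter.2 ⟨htZ, h2⟩, h4⟩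
    have h6 : Z ∩ Z' = Z := eq_of_subset_of_card_le inter_subset_left h5
    rw [← h6]; exact inter_subset_right
  refine ⟨Z, hZX, htZ, hZc, ⟨?_, ?_⟩, key⟩
  · rw [keep_F S (hZX.trans hX)]; exact ⟨t, htZ⟩
  · rw [keep_F S (hZX.trans hX)]
    intro Y hY hYne hYZ
    by_contra hemp
    rw [not_nonempty_iff_eq_empty] at hemp
    have h1 : S.Closed X Y := by
      intro a ha h2 h3
      by_contra h4
      have h5 : (S.g a).1 ∈ Z := hZc a ha (hY h2) h3
      have h6 : a ∈ (S.keep Z).bd Y := by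
        rw [mem_bd, keep_g, if_pos ⟨hY h2, h5⟩]
        exact ⟨ha, h2, h4⟩
      rw [hemp] at h6
      exact notMem_empty _ h6
    have h2 : S.Closed X (Z \ Y) := by
      intro a ha h3 h4
      rw [mem_sdiff] at h3 ⊢
      refine ⟨hZc a ha h3.1 h4, fun h5 => h3.2 ?_⟩
      have := h1 (S.g a) (g_ne_iff.2 ha) h5 (by rw [S.invol]; exact hZX h3.1)
      rwa [S.invol] at this
    by_cases h3 : t ∈ Y
    · exact hYZ (subset_antisymm hY (key Y (hY.trans hZX) h3 h1))
    · have h4 := key (Z \ Y) (sdiff_subset.trans hZX) (mem_sdiff.2 ⟨htZ, h3⟩) h2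
      obtain ⟨s, hs⟩ := hYne
      exact (mem_sdiff.1 (h4 (hY hs))).2 hs

/-- `C` solves the part `X` of `S`, with hits counted with respect to `rel` -/
structure GSol (S : Obj I) (pt : Sd I → Pt) (R : Set Pt) (rel : Sd I → Sd I → Prop)
    (X : Finset I) (W C : Finset (Sd I)) : Prop where
  sub : ∀ c ∈ C, c.1 ∈ X
  forced : ∀ w ∈ W, ∃ d ∈ C, rel d w
  ear : ∀ a ∈ S.E, a.1 ∈ X → (∃ d ∈ C, rel d a) ∨ ∃ d ∈ C, rel d (rot a)
  dom : ∀ t ∈ X, (S.keep X).Noncore t → ∃ i, ∃ d ∈ C, rel d (t, i)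
  cov : ∀ t ∈ X, Cov pt R C t

/-- the part `X` has a solution of the size of a solution of a connected object -/
def Good (S : Obj I) (pt : Sd I → Pt) (R : Set Pt) (rel : Sd I → Sd I → Prop) (X : Finset I)
    (W : Finset (Sd I)) : Prop :=
  ∃ C, S.GSol pt R rel X W C ∧ 6 * C.card ≤ (S.keep X).N2 W.card

theorem good_of_P {S : Obj I} {pt : Sd I → Pt} {R : Set Pt} {rel : Sd I → Sd I → Prop}
    {X : Finset I} (hX : X ⊆ S.F) {W : Finset (Sd I)} (h : P (S.keep X) pt R W)
    (hrel : ∀ a b, (S.keep X).Eqv a b → rel a b) : S.Good pt R rel X W := by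
  obtain ⟨C, hC, h1⟩ := h
  refine ⟨C, ⟨?_, ?_, ?_, ?_, ?_⟩, h1⟩
  · intro c hc
    have := hC.sub hc
    rwa [mem_sides, keep_F S hX] at this
  · intro w hw
    obtain ⟨d, hd, h2⟩ := hC.forced w hw
    exact ⟨d, hd, hrel _ _ h2⟩
  · intro a ha haX
    rcases hC.ear a (by rw [keep_E, mem_filter]; exact ⟨ha, haX⟩) with h2 | h2
    · obtain ⟨d, hd, h3⟩ := h2
      exact Or.inl ⟨d, hd, hrel _ _ h3⟩
    · obtain ⟨d, hd, h3⟩ := h2
      exact Or.inr ⟨d, hd, hrel _ _ h3⟩
  · intro t _ ht
    obtain ⟨i, d, hd, h3⟩ := hC.dom t ht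
    exact ⟨i, d, hd, hrel _ _ h3⟩
  · intro t ht
    exact hC.cov t (by rw [keep_F S hX]; exact ht)

theorem Closed.no_edge {S : Obj I} {X Y : Finset I} (h : S.Closed X Y) {a : Sd I}
    (ha : S.g a ≠ a) (h1 : a.1 ∈ X \ Y) : (S.g a).1 ∉ Y := by
  intro h2
  rw [mem_sdiff] at h1
  have := h (S.g a) (g_ne_iff.2 ha) h2 (by rw [S.invol]; exact h1.1)
  rw [S.invol] at this
  exact h1.2 this

/-- a closed part has the boundary it has in `S`: the count of two complementary closed parts -/
theorem N2_closed_add (S : Obj I) {X Y : Finset I} (hX : X ⊆ S.F) (hY : Y ⊆ X)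
    (h : S.Closed X Y) (k l : ℕ) :
    (S.keep Y).N2 k + (S.keep (X \ Y)).N2 l = (S.keep X).N2 (k + l) + 2 := by
  have h1 := card_vis_keep S hX
  have h2 := card_vis_keep S (hY.trans hX)
  have h3 := card_vis_keep S ((sdiff_subset : X \ Y ⊆ X).trans hX)
  have h4 : (S.bd X).card = (S.bd Y).card + (S.bd (X \ Y)).card := by
    rw [← card_union_of_disjoint]
    · congr 1
      ext a
      simp only [mem_bd, mem_union, mem_sdiff]
      constructor
      · rintro ⟨h5, h6, h7⟩
        by_cases h8 : a.1 ∈ Y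
        · exact Or.inl ⟨h5, h8, fun h9 => h7 (hY h9)⟩
        · exact Or.inr ⟨h5, ⟨h6, h8⟩, fun h9 => h7 h9.1⟩
      · rintro (⟨h5, h6, h7⟩ | ⟨h5, h6, h7⟩)
        · exact ⟨h5, hY h6, fun h8 => h7 (h a h5 h6 h8)⟩
        · refine ⟨h5, h6.1, fun h8 => h7 ⟨h8, ?_⟩⟩
          exact h.no_edge h5 (mem_sdiff.2 h6)
    · rw [disjoint_left]
      intro a ha hb
      exact (mem_sdiff.1 (mem_bd.1 hb).2.1).2 (mem_bd.1 ha).2.1
  have h5 : (S.vis.filter (fun a => a.1 ∈ X)).card
      = (S.vis.filter (fun a => a.1 ∈ Y)).card + (S.vis.filter (fun a => a.1 ∈ X \ Y)).card := by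
    rw [← card_union_of_disjoint]
    · congr 1
      ext a
      simp only [mem_filter, mem_union, mem_sdiff]
      constructor
      · rintro ⟨h5, h6⟩
        by_cases h7 : a.1 ∈ Y
        · exact Or.inl ⟨h5, h7⟩
        · exact Or.inr ⟨h5, h6, h7⟩
      · rintro (⟨h5, h6⟩ | ⟨h5, h6⟩)
        · exact ⟨h5, hY h6⟩
        · exact ⟨h5, h6.1⟩
    · rw [disjoint_left]
      intro a ha hb
      exact (mem_sdiff.1 (mem_filter.1 hb).2).2 (mem_filter.1 ha).2
  have h6 : (S.E.filter (fun a => a.1 ∈ X)).card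
      = (S.E.filter (fun a => a.1 ∈ Y)).card + (S.E.filter (fun a => a.1 ∈ X \ Y)).card := by
    rw [← card_union_of_disjoint]
    · congr 1
      ext a
      simp only [mem_filter, mem_union, mem_sdiff]
      constructor
      · rintro ⟨h5, h6⟩
        by_cases h7 : a.1 ∈ Y
        · exact Or.inl ⟨h5, h7⟩
        · exact Or.inr ⟨h5, h6, h7⟩
      · rintro (⟨h5, h6⟩ | ⟨h5, h6⟩)
        · exact ⟨h5, hY h6⟩
        · exact ⟨h5, h6.1⟩
    · rw [disjoint_left]
      intro a ha hb
      exact (mem_sdiff.1 (mem_filter.1 hb).2).2 (mem_filter.1 ha).2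
  have h7 : X.card = Y.card + (X \ Y).card := by
    rw [card_sdiff_of_subset hY]; have := card_le_card hY; omega
  simp only [N2, keep_F S hX, keep_F S (hY.trans hX), keep_F S (sdiff_subset.trans hX), keep_E]
  omega

theorem keep_mono (S : Obj I) {X Y : Finset I} (h : Y ⊆ X) : (S.keep Y).Le (S.keep X) := by
  refine ⟨inter_subset_inter_left h, fun a => ?_⟩
  rw [keep_g, keep_g]
  by_cases h1 : a.1 ∈ Y ∧ (S.g a).1 ∈ Y
  · rw [if_pos h1, if_pos ⟨h h1.1, h h1.2⟩]; exact Or.inl rfl
  · rw [if_neg h1]; exact Or.inr rfl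

/-- union of the solutions of two complementary parts -/
theorem GSol.union {S : Obj I} {pt : Sd I → Pt} {R : Set Pt} {rel : Sd I → Sd I → Prop}
    {X Y : Finset I} (hX : X ⊆ S.F) (hY : Y ⊆ X) {W₁ W₂ C₁ C₂ : Finset (Sd I)}
    (h₁ : S.GSol pt R rel Y W₁ C₁) (h₂ : S.GSol pt R rel (X \ Y) W₂ C₂) :
    S.GSol pt R rel X (W₁ ∪ W₂) (C₁ ∪ C₂) where
  sub c hc := by
    rcases mem_union.1 hc with h | h
    · exact hY (h₁.sub c h)
    · exact sdiff_subset (h₂.sub c h)
  forced w hw := by
    rcases mem_union.1 hw with h | h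
    · obtain ⟨d, hd, h3⟩ := h₁.forced w h
      exact ⟨d, mem_union_left _ hd, h3⟩
    · obtain ⟨d, hd, h3⟩ := h₂.forced w h
      exact ⟨d, mem_union_right _ hd, h3⟩
  ear a ha haX := by
    by_cases hY' : a.1 ∈ Y
    · rcases h₁.ear a ha hY' with ⟨d, hd, h3⟩ | ⟨d, hd, h3⟩
      · exact Or.inl ⟨d, mem_union_left _ hd, h3⟩
      · exact Or.inr ⟨d, mem_union_left _ hd, h3⟩
    · rcases h₂.ear a ha (mem_sdiff.2 ⟨haX, hY'⟩) with ⟨d, hd, h3⟩ | ⟨d, hd, h3⟩
      · exact Or.inl ⟨d, mem_union_right _ hd, h3⟩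
      · exact Or.inr ⟨d, mem_union_right _ hd, h3⟩
  dom t ht htn := by
    by_cases hY' : t ∈ Y
    · obtain ⟨i, d, hd, h3⟩ := h₁.dom t hY' (htn.mono (keep_mono S hY)
        (by rw [keep_F S (hY.trans hX)]; exact hY'))
      exact ⟨i, d, mem_union_left _ hd, h3⟩
    · have h4 : t ∈ X \ Y := mem_sdiff.2 ⟨ht, hY'⟩
      obtain ⟨i, d, hd, h3⟩ := h₂.dom t h4 (htn.mono (keep_mono S sdiff_subset)
        (by rw [keep_F S (sdiff_subset.trans hX)]; exact h4))
      exact ⟨i, d, mem_union_right _ hd, h3⟩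
  cov t ht := by
    by_cases hY' : t ∈ Y
    · exact Cov.subset (h₁.cov t hY') subset_union_left
    · exact Cov.subset (h₂.cov t (mem_sdiff.2 ⟨ht, hY'⟩)) subset_union_right

/-- count once -/
theorem GSol.erase {S : Obj I} {pt : Sd I → Pt} {R : Set Pt} {rel : Sd I → Sd I → Prop}
    (hrel : Equivalence rel) (hpt : ∀ a b, rel a b → pt a = pt b)
    {X : Finset I} {W C : Finset (Sd I)} (h : S.GSol pt R rel X W C) {d d' : Sd I}
    (hd' : d' ∈ C) (hne : d ≠ d') (he : rel d d') : S.GSol pt R rel X W (C.erase d) := by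
  have key : ∀ c, (∃ e ∈ C, rel e c) → ∃ e ∈ C.erase d, rel e c := by
    rintro c ⟨e, he1, he2⟩
    by_cases hed : e = d
    · subst hed
      exact ⟨d', mem_erase.2 ⟨hne.symm, hd'⟩, hrel.trans (hrel.symm he) he2⟩
    · exact ⟨e, mem_erase.2 ⟨hed, he1⟩, he2⟩
  refine ⟨fun c hc => h.sub c (mem_of_mem_erase hc), fun w hw => key _ (h.forced w hw),
    fun a ha haX => (h.ear a ha haX).imp (key _) (key _), ?_, ?_⟩
  · intro t ht htn
    obtain ⟨i, h1⟩ := h.dom t ht htn
    exact ⟨i, key _ h1⟩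
  · intro t ht p hp
    obtain ⟨c, hc, h1⟩ := h.cov t ht p hp
    by_cases hcd : c = d
    · subst hcd
      exact ⟨d', mem_erase.2 ⟨hne.symm, hd'⟩, by rw [← hpt _ _ he]; exact h1⟩
    · exact ⟨c, mem_erase.2 ⟨hcd, hc⟩, h1⟩

theorem GSol.weaken {S : Obj I} {pt : Sd I → Pt} {R : Set Pt} {rel : Sd I → Sd I → Prop}
    {X : Finset I} {W W' C : Finset (Sd I)} (h : S.GSol pt R rel X W C) (hW : W' ⊆ W) :
    S.GSol pt R rel X W' C :=
  ⟨h.sub, fun w hw => h.forced w (hW hw), h.ear, h.dom, h.cov⟩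

/-- two closed parts joined by a pinch -/
theorem good_join {S : Obj I} {pt : Sd I → Pt} {R : Set Pt} {rel : Sd I → Sd I → Prop}
    (hrel : Equivalence rel) (hpt : ∀ a b, rel a b → pt a = pt b)
    {X Y : Finset I} (hX : X ⊆ S.F) (hY : Y ⊆ X) (hc : S.Closed X Y)
    (h₁ : ∀ W : Finset (Sd I), (∀ w ∈ W, w.1 ∈ Y) → S.Good pt R rel Y W)
    (h₂ : ∀ W : Finset (Sd I), (∀ w ∈ W, w.1 ∈ X \ Y) → S.Good pt R rel (X \ Y) W)
    {p q : Sd I} (hp : p.1 ∈ Y) (hq : q.1 ∈ X \ Y) (hpq : rel p q)
    {W : Finset (Sd I)} (hW : ∀ w ∈ W, w.1 ∈ X) : S.Good pt R rel X W := by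
  let W₁ := W.filter fun w => w.1 ∈ Y
  let W₂ := W.filter fun w => ¬ w.1 ∈ Y
  have hW12 : W₁ ∪ W₂ = W := filter_union_filter_not_eq _ _
  have hcard : W₁.card + W₂.card = W.card := card_filter_add_card_filter_not _
  have hW₁ : ∀ w ∈ W₁, w.1 ∈ Y := fun w hw => (mem_filter.1 hw).2
  have hW₂ : ∀ w ∈ W₂, w.1 ∈ X \ Y := fun w hw =>
    mem_sdiff.2 ⟨hW w (mem_filter.1 hw).1, (mem_filter.1 hw).2⟩
  have hN := N2_closed_add S hX hY hc W₁.card W₂.card
  rw [hcard] at hN
  obtain ⟨C₁, hC₁, hn₁⟩ := h₁ W₁ hW₁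
  obtain ⟨C₂, hC₂, hn₂⟩ := h₂ W₂ hW₂
  by_cases hle : 6 * (C₁.card + C₂.card) ≤ (S.keep X).N2 W.card
  · refine ⟨C₁ ∪ C₂, ?_, ?_⟩
    · have := GSol.union hX hY hC₁ hC₂
      rwa [hW12] at this
    · have := card_union_le C₁ C₂
      omega
  · obtain ⟨D₁, hD₁, hm₁⟩ := h₁ (insert p W₁) (by
      intro w hw
      rcases mem_insert.1 hw with h | h
      · rw [h]; exact hp
      · exact hW₁ w h)
    obtain ⟨D₂, hD₂, hm₂⟩ := h₂ (insert q W₂) (by
      intro w hw
      rcases mem_insert.1 hw with h | h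
      · rw [h]; exact hq
      · exact hW₂ w h)
    have hk₁ : (insert p W₁).card ≤ W₁.card + 1 := card_insert_le _ _
    have hk₂ : (insert q W₂).card ≤ W₂.card + 1 := card_insert_le _ _
    have hm₁' : 6 * D₁.card ≤ (S.keep Y).N2 W₁.card + 4 := by
      refine hm₁.trans ?_
      simp only [N2]; omega
    have hm₂' : 6 * D₂.card ≤ (S.keep (X \ Y)).N2 W₂.card + 4 := by
      refine hm₂.trans ?_
      simp only [N2]; omega
    obtain ⟨d₁, hd₁, he₁⟩ := hD₁.forced p (mem_insert_self _ _)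
    obtain ⟨d₂, hd₂, he₂⟩ := hD₂.forced q (mem_insert_self _ _)
    have hne : d₂ ≠ d₁ := by
      rintro rfl
      exact (mem_sdiff.1 (hD₂.sub _ hd₂)).2 (hD₁.sub _ hd₁)
    have he : rel d₂ d₁ := hrel.trans he₂ (hrel.trans (hrel.symm hpq) (hrel.symm he₁))
    have hU := (GSol.union hX hY hD₁ hD₂).weaken
      (show W ⊆ insert p W₁ ∪ insert q W₂ by
        rw [← hW12]
        exact union_subset_union (subset_insert _ _) (subset_insert _ _))
    refine ⟨(D₁ ∪ D₂).erase d₂, GSol.erase hrel hpt hU (mem_union_left _ hd₁) hne he, ?_⟩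
    have h1 := card_union_le D₁ D₂
    have h2 := card_erase_of_mem (mem_union_right D₁ hd₂)
    have h3 : 0 < D₂.card := card_pos.2 ⟨d₂, hd₂⟩
    omega

/-- LINK LEMMA: a part which is connected by glued sides and pinches is good -/
theorem good_of_linked {S : Obj I} {pt : Sd I → Pt} {R : Set Pt} {rel : Sd I → Sd I → Prop}
    (hrel : Equivalence rel) (hpt : ∀ a b, rel a b → pt a = pt b)
    {X : Finset I} (hX : X ⊆ S.F) (hne : X.Nonempty)
    (hE : ∀ a b, (S.keep X).Eqv a b → rel a b)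
    (hP : ∀ Z ⊆ X, (S.keep Z).Conn → ∀ W ⊆ (S.keep Z).sides, P (S.keep Z) pt R W)
    (hlink : ∀ Y ⊆ X, Y.Nonempty → Y ≠ X → S.Closed X Y →
      ∃ p q, rel p q ∧ p.1 ∈ Y ∧ q.1 ∈ X \ Y)
    {W : Finset (Sd I)} (hW : ∀ w ∈ W, w.1 ∈ X) : S.Good pt R rel X W := by
  classical
  have hconn : ∀ Z ⊆ X, (S.keep Z).Conn → ∀ W : Finset (Sd I), (∀ w ∈ W, w.1 ∈ Z) →
      S.Good pt R rel Z W := by
    intro Z hZ hc W hW
    refine good_of_P (hZ.trans hX) (hP Z hZ hc W ?_) ?_
    · intro w hw
      rw [mem_sides, keep_F S (hZ.trans hX)]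
      exact hW w hw
    · intro a b hab
      exact hE a b (hab.mono (keep_mono S hZ))
  let 𝒴 : Finset (Finset I) := X.powerset.filter fun Y => Y.Nonempty ∧ S.Closed X Y ∧
    ∀ W : Finset (Sd I), (∀ w ∈ W, w.1 ∈ Y) → S.Good pt R rel Y W
  have h𝒴 : 𝒴.Nonempty := by
    obtain ⟨t, ht⟩ := hne
    obtain ⟨Z, hZ, h1, h2, h3, _⟩ := exists_comp S hX ht
    refine ⟨Z, ?_⟩
    simp only [𝒴, mem_filter, mem_powerset]
    exact ⟨hZ, ⟨t, h1⟩, h2, hconn Z hZ h3⟩
  obtain ⟨Y, hY, hmax⟩ := exists_max_image 𝒴 Finset.card h𝒴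
  simp only [𝒴, mem_filter, mem_powerset] at hY hmax
  obtain ⟨hYX, hYne, hYc, hYg⟩ := hY
  by_cases hYeq : Y = X
  · subst hYeq; exact hYg W hW
  · exfalso
    obtain ⟨p, q, hpq, hp, hq⟩ := hlink Y hYX hYne hYeq hYc
    obtain ⟨Z, hZ, h1, h2, h3, h4⟩ := exists_comp S hX (mem_sdiff.1 hq).1
    have h5 : Z ⊆ X \ Y := h4 _ sdiff_subset hq hYc.sdiff
    have h6 : S.Closed X (Y ∪ Z) := by
      intro a ha h7 h8
      rcases mem_union.1 h7 with h9 | h9
      · exact mem_union_left _ (hYc a ha h9 h8)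
      · exact mem_union_right _ (h2 a ha h9 h8)
    have h7 : (Y ∪ Z) \ Y = Z := by
      rw [union_sdiff_left]
      exact sdiff_eq_self_of_disjoint
        (disjoint_left.2 fun s hs hs' => (mem_sdiff.1 (h5 hs)).2 hs')
    have h8 : Y ∪ Z ⊆ X := union_subset hYX hZ
    have h9 : S.Closed (Y ∪ Z) Y := fun a ha h10 h11 => hYc a ha h10 (h8 h11)
    have h10 := hmax (Y ∪ Z) ⟨h8, hYne.mono subset_union_left, h6, fun W' hW' =>
      good_join hrel hpt (h8.trans hX) subset_union_left h9 hYg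
        (by rw [h7]; exact hconn Z hZ h3) hp (by rw [h7]; exact h1) hpq hW'⟩
    have h11 : (Y ∪ Z).card = Y.card + Z.card := card_union_of_disjoint
      (disjoint_left.2 fun s hs hs' => (mem_sdiff.1 (h5 hs')).2 hs)
    have h12 : 0 < Z.card := card_pos.2 ⟨_, h1⟩
    omega

end Obj

end AG
end

/- AG.Pair.Bld -/
section
/-!
# Project AG, block 5 (pair rule): abstract blades and the success criterion

`Bld S pt R c rm σ G y`: abstract (real or virtual) blade at the corner `c`; `rm` = the removed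
triangles, `σ` = the stub side, `G` = the group of the other sides which leave `rm`; all sides of
`G` have an end at the visit of `y`, so that after the removal of `rm` the partners of the sides of
`G` are linked by the visit of `y`.
-/

set_option linter.unusedSectionVars false
set_option linter.unusedSimpArgs false

namespace AG

open Finset

variable {I : Type} [DecidableEq I]

namespace Obj

/-- abstract blade at the corner `c` -/
structure Bld (S : Obj I) (pt : Sd I → Pt) (R : Set Pt) (c : Sd I) (rm : Finset I) (σ : Sd I)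
    (G : Finset (Sd I)) (y : Sd I) : Prop where
  sub : rm ⊆ S.F
  mem : c.1 ∈ rm
  bd : S.bd rm = insert σ G
  nin : σ ∉ G
  vs : (σ = c ∧ unrot c ∈ G) ∨ (σ = unrot c ∧ c ∈ G)
  card : rm.card + (S.vis.filter (fun a => a.1 ∈ rm)).card = G.card + 1
  ears : ∀ a ∈ S.E, a.1 ∉ rm
  only : ∀ a, a.1 ∈ rm → S.Eqv a c → a = c
  ny : ¬ S.Eqv y c
  link : ∀ a ∈ G, S.Eqv y a ∨ S.Eqv y (rot a)
  cov : ∀ C : Finset (Sd I), S.Hit C c →
    (∀ a ∈ G, (S.keep (S.F \ rm)).Noncore (S.g a).1 → ∃ i, S.Hit C ((S.g a).1, i)) →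
    ∀ t ∈ rm, Cov pt R C t

section facts

variable {S : Obj I} {pt : Sd I → Pt} {R : Set Pt} {c : Sd I} {rm : Finset I} {σ : Sd I}
  {G : Finset (Sd I)} {y : Sd I}

theorem Bld.c_mem (b : S.Bld pt R c rm σ G y) : c ∈ S.bd rm := by
  rw [b.bd]
  rcases b.vs with ⟨h, _⟩ | ⟨_, h⟩
  · rw [h]; exact mem_insert_self _ _
  · exact mem_insert_of_mem h

theorem Bld.uc_mem (b : S.Bld pt R c rm σ G y) : unrot c ∈ S.bd rm := by
  rw [b.bd]
  rcases b.vs with ⟨_, h⟩ | ⟨h, _⟩
  · exact mem_insert_of_mem h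
  · rw [h]; exact mem_insert_self _ _

theorem Bld.σ_mem (b : S.Bld pt R c rm σ G y) : σ ∈ S.bd rm := by
  rw [b.bd]; exact mem_insert_self _ _

theorem Bld.G_mem (b : S.Bld pt R c rm σ G y) {a : Sd I} (ha : a ∈ G) : a ∈ S.bd rm := by
  rw [b.bd]; exact mem_insert_of_mem ha

theorem Bld.G_ne (b : S.Bld pt R c rm σ G y) : G.Nonempty := by
  rcases b.vs with ⟨_, h⟩ | ⟨_, h⟩ <;> exact ⟨_, h⟩

theorem Bld.glued (b : S.Bld pt R c rm σ G y) : S.g c ≠ c := (mem_bd.1 b.c_mem).1

/-- the partner of a side of the group has a corner at the visit of `y` -/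
theorem Bld.link' (b : S.Bld pt R c rm σ G y) {a : Sd I} (ha : a ∈ G) :
    ∃ p, p.1 = (S.g a).1 ∧ S.Eqv y p := by
  have hg := (mem_bd.1 (b.G_mem ha)).1
  rcases b.link a ha with h | h
  · exact ⟨rot (S.g a), rfl, h.trans (Eqv.of_glued hg)⟩
  · exact ⟨S.g a, rfl, h.trans (Eqv.of_glued' hg)⟩

end facts

/-- no triangle of a connected bridgeless object with a glued side is noncore -/
theorem not_noncore {S : Obj I} (hc : S.Conn) (hb : S.Bridgeless) {a : Sd I} (ha : S.g a ≠ a)
    (t : I) : ¬ S.Noncore t := by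
  rintro ⟨ht, h⟩
  have h1 : ({t} : Finset I) ≠ S.F := by
    intro h2
    have h3 := S.memF a ha
    have h4 := g_memF ha
    rw [← h2, mem_singleton] at h3 h4
    exact S.ne a ha (h4.trans h3.symm)
  obtain ⟨b, hb1⟩ := hc.2 {t} (singleton_subset_iff.2 ht) (singleton_nonempty t) h1
  rw [mem_bd, mem_singleton] at hb1
  obtain ⟨h2, h3, _⟩ := hb1
  have h4 : b = (t, b.2) := Prod.ext h3 rfl
  rw [h4] at h2
  exact hb _ (h b.2 h2)

/-- removing the set `rm` of triangles -/
theorem N2_rmSet (S : Obj I) {rm : Finset I} (h : rm ⊆ S.F) (hE : ∀ a ∈ S.E, a.1 ∉ rm) (k : ℕ) :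
    (S.keep (S.F \ rm)).N2 k + rm.card + (S.vis.filter (fun a => a.1 ∈ rm)).card
      = S.N2 k + (S.bd rm).card := by
  have h2 := card_vis_keep S (sdiff_subset : S.F \ rm ⊆ S.F)
  rw [card_bd_sdiff S h] at h2
  have h3 : (S.vis.filter (fun a => a.1 ∈ rm)).card
      + (S.vis.filter (fun a => a.1 ∈ S.F \ rm)).card = S.vis.card := by
    rw [← Finset.card_filter_add_card_filter_not (s := S.vis) (fun a => a.1 ∈ rm)]
    congr 2
    refine filter_congr fun a ha => ?_
    simp [(mem_vis.1 ha).1]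
  have h4 : S.E.filter (fun a => a.1 ∈ S.F \ rm) = S.E := by
    refine filter_true_of_mem fun a ha => ?_
    exact mem_sdiff.2 ⟨S.earF a ha, hE a ha⟩
  have h5 : rm.card + (S.F \ rm).card = S.F.card := by
    rw [card_sdiff_of_subset h]; have := card_le_card h; omega
  simp only [N2, keep_F S sdiff_subset, keep_E, h4]
  omega

theorem card_bd_union (S : Obj I) {A B : Finset I} (h : Disjoint A B) :
    (S.bd (A ∪ B)).card + 2 * ((S.bd A).filter (fun a => (S.g a).1 ∈ B)).card
      = (S.bd A).card + (S.bd B).card := by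
  have hd : ∀ t, t ∈ A → t ∈ B → False := fun t h1 h2 => disjoint_left.1 h h1 h2
  have h1 : S.bd (A ∪ B) = (S.bd A).filter (fun a => ¬ (S.g a).1 ∈ B)
      ∪ (S.bd B).filter (fun a => ¬ (S.g a).1 ∈ A) := by
    ext a
    simp only [mem_bd, mem_union, mem_filter, not_or]
    tauto
  have h2 : Disjoint ((S.bd A).filter (fun a => ¬ (S.g a).1 ∈ B))
      ((S.bd B).filter (fun a => ¬ (S.g a).1 ∈ A)) := by
    rw [disjoint_left]
    intro a ha hb
    exact hd a.1 (mem_bd.1 (mem_filter.1 ha).1).2.1 (mem_bd.1 (mem_filter.1 hb).1).2.1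
  have h3 : ((S.bd B).filter (fun a => (S.g a).1 ∈ A)).card
      = ((S.bd A).filter (fun a => (S.g a).1 ∈ B)).card := by
    have : (S.bd B).filter (fun a => (S.g a).1 ∈ A)
        = ((S.bd A).filter (fun a => (S.g a).1 ∈ B)).image S.g := by
      ext a
      simp only [mem_filter, mem_image, mem_bd]
      constructor
      · rintro ⟨⟨h4, h5, h6⟩, h7⟩
        refine ⟨S.g a, ⟨⟨g_ne_iff.2 h4, h7, ?_⟩, ?_⟩, S.invol a⟩
        · rw [S.invol]; exact fun h8 => hd _ h8 h5
        · rw [S.invol]; exact h5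
      · rintro ⟨b, ⟨⟨h4, h5, h6⟩, h7⟩, rfl⟩
        rw [S.invol]
        exact ⟨⟨ne_comm.1 h4, h7, fun h8 => hd _ h5 h8⟩, h5⟩
    rw [this, card_image_of_injective _ S.g_injective]
  have h4 := Finset.card_filter_add_card_filter_not (s := S.bd A) (fun a => (S.g a).1 ∈ B)
  have h5 := Finset.card_filter_add_card_filter_not (s := S.bd B) (fun a => (S.g a).1 ∈ A)
  rw [h1, card_union_of_disjoint h2]
  omega

/-- shrinking a solution: every element keeps an equivalent one -/
theorem _root_.AG.Sol.shrink {S : Obj I} {pt : Sd I → Pt} (hg : S.Geo pt) {R : Set Pt}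
    {W C C' : Finset (Sd I)} (h : Sol S pt R W C) (hsub : C' ⊆ C)
    (hC : ∀ d ∈ C, ∃ d' ∈ C', S.Eqv d d') : Sol S pt R W C' := by
  have key : ∀ c, S.Hit C c → S.Hit C' c := by
    rintro c ⟨e, he1, he2⟩
    obtain ⟨d', hd', h1⟩ := hC e he1
    exact ⟨d', hd', h1.symm.trans he2⟩
  refine ⟨hsub.trans h.sub, fun w hw => key _ (h.forced w hw),
    fun a ha => (h.ear a ha).imp (key _) (key _), ?_, ?_⟩
  · intro t ht
    obtain ⟨i, hi⟩ := h.dom t ht
    exact ⟨i, key _ hi⟩
  · intro t ht p hp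
    obtain ⟨c, hc, h1⟩ := h.cov t ht p hp
    obtain ⟨d', hd', h2⟩ := hC c hc
    exact ⟨d', hd', by rw [← hg.pt_eq h2]; exact h1⟩

/-- the relation for the link lemma: at the visit of `c` the equivalence in `keep X`, elsewhere the
equivalence in `S` -/
def vrel (S : Obj I) (X : Finset I) (c a b : Sd I) : Prop :=
  (S.keep X).Eqv a b ∨ (S.Eqv a b ∧ ¬ S.Eqv a c)

theorem vrel_eqv {S : Obj I} {X : Finset I} {c a b : Sd I} (h : S.vrel X c a b) : S.Eqv a b := by
  rcases h with h | h
  · exact h.mono (keep_le S X)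
  · exact h.1

theorem vrel_equivalence (S : Obj I) (X : Finset I) (c : Sd I) :
    Equivalence (S.vrel X c) where
  refl a := Or.inl (Eqv.refl _ _)
  symm := by
    rintro a b (h | ⟨h1, h2⟩)
    · exact Or.inl h.symm
    · exact Or.inr ⟨h1.symm, fun h3 => h2 (h1.trans h3)⟩
  trans := by
    rintro a b d h h'
    by_cases hc : S.Eqv a c
    · have hb : S.Eqv b c := (vrel_eqv h).symm.trans hc
      rcases h with h | h
      · rcases h' with h' | h'
        · exact Or.inl (h.trans h')
        · exact absurd hb h'.2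
      · exact absurd hc h.2
    · exact Or.inr ⟨(vrel_eqv h).trans (vrel_eqv h'), hc⟩

theorem vrel_of_at {S : Obj I} {X : Finset I} {c a b : Sd I} (h : S.vrel X c a b)
    (ha : S.Eqv a c) : (S.keep X).Eqv a b := by
  rcases h with h | h
  · exact h
  · exact absurd ha h.2

/-- parts of a minimal counterexample which miss a glued side satisfy P -/
theorem Cex.part {S : Obj I} {pt : Sd I → Pt} {R : Set Pt} (hS : Cex S pt R) {Z : Finset I}
    (hZ : Z ⊆ S.F) {a : Sd I} (ha : S.g a ≠ a) (haZ : a.1 ∉ Z) (hc : (S.keep Z).Conn)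
    {W : Finset (Sd I)} (hW : W ⊆ (S.keep Z).sides) : P (S.keep Z) pt R W := by
  refine hS.ih (S.keep Z) pt (hS.geo.sub (keep_le S Z)) hc ?_ ?_ W hW
  · intro t ht
    exact hS.sub t ((keep_le S Z).F ht)
  · refine card_lt_card ⟨?_, fun h => ?_⟩
    · intro b hb
      rw [mem_glued] at hb ⊢
      exact ((keep_le S Z).glued hb).2
    · have h1 := h (mem_glued.2 ha)
      rw [mem_glued] at h1
      have h2 := (S.keep Z).memF a h1
      rw [keep_F S hZ] at h2
      exact haZ h2

/-- SUCCESS CRITERION: in a minimal counterexample the part `F \ (rm₁ ∪ rm₂)` is not linked -/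
theorem not_linked {S : Obj I} {pt : Sd I → Pt} {R : Set Pt} (hS : Cex S pt R)
    (hB : S.Bridgeless) {c₁ c₂ σ₁ σ₂ y₁ y₂ : Sd I} {rm₁ rm₂ : Finset I}
    {G₁ G₂ : Finset (Sd I)} (b₁ : S.Bld pt R c₁ rm₁ σ₁ G₁ y₁) (b₂ : S.Bld pt R c₂ rm₂ σ₂ G₂ y₂)
    (he : S.Eqv c₁ c₂)
    (ha₁ : ∀ a ∈ G₁, (S.g a).1 ∈ rm₂ → (S.g a).1 = c₂.1)
    (ha₂ : ∀ a ∈ G₂, (S.g a).1 ∈ rm₁ → (S.g a).1 = c₁.1)
    {W : Finset (Sd I)} (hWX : ∀ w ∈ W, w.1 ∈ S.F \ (rm₁ ∪ rm₂)) (hWc : ∀ w ∈ W, S.Eqv w c₁)
    (hWp : ∀ w ∈ W, ∀ w' ∈ W, (S.keep (S.F \ (rm₁ ∪ rm₂))).Eqv w w' → w = w')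
    (hWne : W.Nonempty)
    (hN : (S.keep (S.F \ (rm₁ ∪ rm₂))).N2 0 + 6 ≤ S.N2 0 + 2 * W.card) :
    ∃ Y ⊆ S.F \ (rm₁ ∪ rm₂), Y.Nonempty ∧ Y ≠ S.F \ (rm₁ ∪ rm₂) ∧
      S.Closed (S.F \ (rm₁ ∪ rm₂)) Y ∧
      ∀ p q, S.Eqv p q → ¬ S.Eqv p c₁ → p.1 ∈ Y → q.1 ∈ S.F \ (rm₁ ∪ rm₂) → q.1 ∈ Y := by
  classical
  set X : Finset I := S.F \ (rm₁ ∪ rm₂) with hXdef
  have hX : X ⊆ S.F := sdiff_subset
  by_contra hcon
  have hlink : ∀ Y ⊆ X, Y.Nonempty → Y ≠ X → S.Closed X Y →
      ∃ p q, S.vrel X c₁ p q ∧ p.1 ∈ Y ∧ q.1 ∈ X \ Y := by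
    intro Y hY hYne hYX hYc
    by_contra hno
    refine hcon ⟨Y, hY, hYne, hYX, hYc, fun p q hpq hpc hp hq => ?_⟩
    by_contra hqY
    exact hno ⟨p, q, Or.inr ⟨hpq, hpc⟩, hp, mem_sdiff.2 ⟨hq, hqY⟩⟩
  have hXne : X.Nonempty := by
    obtain ⟨w, hw⟩ := hWne
    exact ⟨_, hWX w hw⟩
  have hc₁X : ∀ Z ⊆ X, c₁.1 ∉ Z := fun Z hZ h =>
    (mem_sdiff.1 (hZ h)).2 (mem_union_left _ b₁.mem)
  obtain ⟨C, hC, hn⟩ := good_of_linked (vrel_equivalence S X c₁)
    (fun a b h => hS.geo.pt_eq (vrel_eqv h)) hX hXne (fun a b h => Or.inl h)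
    (fun Z hZ hc W hW => hS.part (hZ.trans hX) b₁.glued (hc₁X Z hZ) hc hW) hlink hWX
  -- the elements of `C` at the visit of `c₁`
  have hcardW : W.card ≤ (C.filter fun d => S.Eqv d c₁).card := by
    choose! f hf1 hf2 using hC.forced
    refine card_le_card_of_injOn f ?_ ?_
    · intro w hw
      rw [mem_coe, mem_filter]
      exact ⟨hf1 w hw, (vrel_eqv (hf2 w hw)).trans (hWc w hw)⟩
    · intro w hw w' hw' hww
      have h1 := vrel_of_at (hf2 w hw) ((vrel_eqv (hf2 w hw)).trans (hWc w hw))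
      have h2 := vrel_of_at (hf2 w' hw') ((vrel_eqv (hf2 w' hw')).trans (hWc w' hw'))
      rw [hww] at h1
      exact hWp w hw w' hw' (h1.symm.trans h2)
  obtain ⟨w₀, hw₀⟩ := hWne
  obtain ⟨d₀, hd₀, hd₀w⟩ := hC.forced w₀ hw₀
  have hd₀c : S.Eqv d₀ c₁ := (vrel_eqv hd₀w).trans (hWc w₀ hw₀)
  have hit₁ : S.Hit C c₁ := ⟨d₀, hd₀, hd₀c⟩
  have hit₂ : S.Hit C c₂ := hit₁.eqv he
  have hitN : ∀ t, t ∈ X → (S.keep X).Noncore t → ∃ i, S.Hit C (t, i) := by
    intro t ht hnc
    obtain ⟨i, d, hd, h1⟩ := hC.dom t ht hnc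
    exact ⟨i, d, hd, vrel_eqv h1⟩
  have hXsub₁ : X ⊆ S.F \ rm₁ := sdiff_subset_sdiff subset_rfl subset_union_left
  have hXsub₂ : X ⊆ S.F \ rm₂ := sdiff_subset_sdiff subset_rfl subset_union_right
  have hcov₁ : ∀ t ∈ rm₁, Cov pt R C t := by
    refine b₁.cov C hit₁ fun a ha hnc => ?_
    have h1 := mem_bd.1 (b₁.G_mem ha)
    by_cases h2 : (S.g a).1 ∈ rm₂
    · refine ⟨c₂.2, ?_⟩
      rw [ha₁ a ha h2]
      exact hit₂
    · have h3 : (S.g a).1 ∈ X :=
        mem_sdiff.2 ⟨g_memF h1.1, fun h4 => (mem_union.1 h4).elim h1.2.2 h2⟩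
      exact hitN _ h3 (hnc.mono (keep_mono S hXsub₁) (by rw [keep_F S hX]; exact h3))
  have hcov₂ : ∀ t ∈ rm₂, Cov pt R C t := by
    refine b₂.cov C hit₂ fun a ha hnc => ?_
    have h1 := mem_bd.1 (b₂.G_mem ha)
    by_cases h2 : (S.g a).1 ∈ rm₁
    · refine ⟨c₁.2, ?_⟩
      rw [ha₂ a ha h2]
      exact hit₁
    · have h3 : (S.g a).1 ∈ X :=
        mem_sdiff.2 ⟨g_memF h1.1, fun h4 => (mem_union.1 h4).elim h2 h1.2.2⟩
      exact hitN _ h3 (hnc.mono (keep_mono S hXsub₂) (by rw [keep_F S hX]; exact h3))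
  have hsol : Sol S pt R ∅ C := by
    refine ⟨?_, by simp, ?_, ?_, ?_⟩
    · intro c hc
      rw [mem_sides]
      exact hX (hC.sub c hc)
    · intro a ha
      have h1 : a.1 ∈ X := mem_sdiff.2 ⟨S.earF a ha, fun h4 =>
        (mem_union.1 h4).elim (b₁.ears a ha) (b₂.ears a ha)⟩
      rcases hC.ear a ha h1 with ⟨d, hd, h2⟩ | ⟨d, hd, h2⟩
      · exact Or.inl ⟨d, hd, vrel_eqv h2⟩
      · exact Or.inr ⟨d, hd, vrel_eqv h2⟩
    · intro t ht
      exact absurd ht (not_noncore hS.conn hB b₁.glued t)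
    · intro t ht
      by_cases h1 : t ∈ rm₁
      · exact hcov₁ t h1
      · by_cases h2 : t ∈ rm₂
        · exact hcov₂ t h2
        · exact hC.cov t (mem_sdiff.2 ⟨ht, fun h3 => (mem_union.1 h3).elim h1 h2⟩)
  refine hS.bad ⟨insert d₀ (C.filter fun d => ¬ S.Eqv d c₁), hsol.shrink hS.geo ?_ ?_, ?_⟩
  · exact insert_subset hd₀ (filter_subset _ _)
  · intro d hd
    by_cases h1 : S.Eqv d c₁
    · exact ⟨d₀, mem_insert_self _ _, h1.trans hd₀c.symm⟩
    · exact ⟨d, mem_insert_of_mem (mem_filter.2 ⟨hd, h1⟩), Eqv.refl _ _⟩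
  · have h1 := card_insert_le d₀ (C.filter fun d => ¬ S.Eqv d c₁)
    have h2 := Finset.card_filter_add_card_filter_not (s := C) (fun d => S.Eqv d c₁)
    have h3 : (S.keep X).N2 W.card = (S.keep X).N2 0 + 4 * W.card := by
      simp only [N2]; omega
    rw [card_empty]
    omega

end Obj

end AG
end

/- Helper69.AGF.RankDefs -/
section
/-!
Definitions for the rank estimate: dual graph and Z/2 boundary map.
-/

noncomputable section

open scoped Classical

namespace Pool.Agent.Helper69.AGF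

/-- The dual graph of T. -/
def dual (T : Finset (Finset Pt)) : SimpleGraph {t // t ∈ T} where
  Adj t t' := Adj T (fun _ => True) t.1 t'.1
  symm := ⟨by
    rintro a b ⟨h1, h2, h3, e, h4, h5, h6, h7⟩
    exact ⟨h2, h1, h3.symm, e, h4, h6, h5, h7⟩⟩
  loopless := ⟨fun a h => h.2.2.1 rfl⟩

/-- The map which sends a Z/2 chain on the diagonals to its values on the triangles (sum over the three sides). -/
def bdMap (T E : Finset (Finset Pt)) :
    ({e // e ∈ diags T E} → ZMod 2) →ₗ[ZMod 2] ({t // t ∈ T} → ZMod 2) where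
  toFun z t := ∑ e : {e // e ∈ diags T E}, if e.1 ⊆ t.1 then z e else 0
  map_add' z z' := by
    funext t
    simp only [Pi.add_apply, ← Finset.sum_add_distrib]
    refine Finset.sum_congr rfl fun e _ => ?_
    split_ifs <;> simp
  map_smul' c z := by
    funext t
    simp only [Pi.smul_apply, smul_eq_mul, RingHom.id_apply, Finset.mul_sum]
    refine Finset.sum_congr rfl fun e _ => ?_
    split_ifs <;> simp

end Pool.Agent.Helper69.AGF

end
end

/- Helper69.AGF.RankLow -/
section
/-!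
AGF module RankLow: lower bound for the dimension of the cycle space (rank-nullity).

PROOF HINTS. psi : ({t // t in T} -> ZMod 2) linear -> ((dual T).ConnectedComponent -> ZMod 2), psi w C = sum of w t over the t with
connectedComponentMk t = C. psi is surjective (choose a representative t_C of every component and w = indicator of t_C times the value), so
finrank (ker psi) = T.card - c (LinearMap.finrank_range_add_finrank_ker; finrank of functions = Fintype.card). psi (bdMap z) = 0: every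
diagonal e lies in exactly two triangles t1, t2 of T (Part.two_tri), which are adjacent in the dual graph (common side e, e.card = 2 by
mem_sides), so they are in the same component, and the contribution of e is z e + z e = 0 (CharTwo / ZMod 2: decide). So range (bdMap) is
contained in ker psi, finrank (range) <= T.card - c, and finrank (ker bdMap) = D - finrank (range) >= D - (T.card - c).
-/

noncomputable section

open scoped Classical

namespace Pool.Agent.Helper69.AGF

variable {T' T E : Finset (Finset Pt)}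

private def psi (T : Finset (Finset Pt)) :
    ({t // t ∈ T} → ZMod 2) →ₗ[ZMod 2] ((dual T).ConnectedComponent → ZMod 2) where
  toFun w C := ∑ t : {t // t ∈ T}, if (dual T).connectedComponentMk t = C then w t else 0
  map_add' z z' := by
    funext t
    simp only [Pi.add_apply, ← Finset.sum_add_distrib]
    refine Finset.sum_congr rfl fun e _ => ?_
    split_ifs <;> simp
  map_smul' c z := by
    funext t
    simp only [Pi.smul_apply, smul_eq_mul, RingHom.id_apply, Finset.mul_sum]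
    refine Finset.sum_congr rfl fun e _ => ?_
    split_ifs <;> simp

private lemma psi_surj (T : Finset (Finset Pt)) : Function.Surjective (psi T) := by
  intro f
  have hrep : ∀ C : (dual T).ConnectedComponent, ∃ t, (dual T).connectedComponentMk t = C :=
    fun C => C.exists_rep
  choose r hr using hrep
  refine ⟨fun t => if r ((dual T).connectedComponentMk t) = t
    then f ((dual T).connectedComponentMk t) else 0, ?_⟩
  funext C
  change (∑ t : {t // t ∈ T}, if (dual T).connectedComponentMk t = C then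
    (if r ((dual T).connectedComponentMk t) = t then f ((dual T).connectedComponentMk t) else 0)
      else 0) = f C
  rw [Finset.sum_eq_single (r C)]
  · rw [if_pos (hr C), hr C, if_pos rfl]
  · intro t _ ht
    split_ifs with h1 h2
    · exact absurd (by rw [← h2, h1]) ht
    · rfl
    · rfl
  · intro hn
    exact absurd (Finset.mem_univ _) hn

private lemma psi_bd (h : Part T' T E) (z : {e // e ∈ diags T E} → ZMod 2) :
    psi T (bdMap T E z) = 0 := by
  funext C
  change (∑ t : {t // t ∈ T}, if (dual T).connectedComponentMk t = C then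
    (∑ e : {e // e ∈ diags T E}, if e.1 ⊆ t.1 then z e else 0) else 0) = 0
  have h1 : ∀ t : {t // t ∈ T}, (if (dual T).connectedComponentMk t = C then
      (∑ e : {e // e ∈ diags T E}, if e.1 ⊆ t.1 then z e else 0) else 0) =
      ∑ e : {e // e ∈ diags T E}, (if (dual T).connectedComponentMk t = C then
        (if e.1 ⊆ t.1 then z e else 0) else 0) := by
    intro t
    split_ifs
    · rfl
    · simp
  rw [Finset.sum_congr rfl fun t _ => h1 t, Finset.sum_comm]
  refine Finset.sum_eq_zero fun e _ => ?_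
  obtain ⟨t1, ht1, t2, ht2, hne, e1, e2, huniq⟩ := h.two_tri e.2
  have hcc : (dual T).connectedComponentMk ⟨t1, ht1⟩ = (dual T).connectedComponentMk ⟨t2, ht2⟩ := by
    refine SimpleGraph.ConnectedComponent.sound (SimpleGraph.Adj.reachable ?_)
    exact ⟨ht1, ht2, hne, e.1, (mem_sides.1 (mem_diags.1 e.2).1).1, e1, e2, trivial⟩
  rw [Fintype.sum_eq_add (⟨t1, ht1⟩ : {t // t ∈ T}) ⟨t2, ht2⟩
    (fun hh => hne (congrArg Subtype.val hh))]
  · simp only [hcc, if_pos e1, if_pos e2]
    exact CharTwo.add_self_eq_zero _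
  · rintro ⟨t, ht⟩ ⟨hx1, hx2⟩
    have : ¬ e.1 ⊆ t := by
      intro hs
      rcases huniq t (h.sub ht) hs with rfl | rfl
      · exact hx1 rfl
      · exact hx2 rfl
    simp [this]

theorem Part.rank_low (h : Part T' T E) :
    (diags T E).card + Nat.card (dual T).ConnectedComponent ≤
      T.card + Module.finrank (ZMod 2) (LinearMap.ker (bdMap T E)) := by
  have hle : LinearMap.range (bdMap T E) ≤ LinearMap.ker (psi T) := by
    rintro _ ⟨z, rfl⟩
    exact psi_bd h z
  have h1 := LinearMap.finrank_range_add_finrank_ker (bdMap T E)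
  have h2 := LinearMap.finrank_range_add_finrank_ker (psi T)
  rw [LinearMap.range_eq_top.2 (psi_surj T), finrank_top] at h2
  have h3 := Submodule.finrank_mono hle
  haveI : Fintype (dual T).ConnectedComponent := Fintype.ofFinite _
  rw [Module.finrank_fintype_fun_eq_card, Module.finrank_fintype_fun_eq_card] at h2
  rw [Module.finrank_fintype_fun_eq_card] at h1
  have h4 : Fintype.card {e // e ∈ diags T E} = (diags T E).card := Fintype.card_coe _
  have h5 : Fintype.card {t // t ∈ T} = T.card := Fintype.card_coe _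
  rw [h4] at h1
  rw [h5] at h2
  rw [Nat.card_eq_fintype_card]
  omega

end Pool.Agent.Helper69.AGF

end
end

/- Helper69.AGF.Rank -/
section
/-!
AGF module Rank: the cycle rank of the dual graph is at most the number of boundary polygons minus one.

PROOF HINTS. rank_up: for z in ker (bdMap) let zz : Finset Pt -> ZMod 2 be its extension by zero. For t in T the sum over
t.powersetCard 2 of zz is (bdMap z) t = 0; for t in T' \ T all sides e of t have zz e = 0 (a diagonal of T contained in t would force t in T by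
Part.other or two_tri). So IsTri.cocycle (for T') gives f_z with zz {x,y} = f_z x + f_z y on all sides of T'. For {x,y} in E:
zz {x,y} = 0, so f_z x = f_z y (char 2). So for v in verts T connected to r i by edges of E, f_z v = f_z (r i) (induction along ReflTransGen).
The map z |-> (i : Fin k |-> f_z (r i.succ) + f_z (r 0)) is injective: if z and z' have the same image then c := f_z (r i) + f_z' (r i) is
independent of i : Fin (k+1), so f_z v + f_z' v = c for all v in verts T and for every diagonal {x,y} of T: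
z {x,y} + z' {x,y} = f_z x + f_z y + f_z' x + f_z' y = c + c = 0, so z = z'. Hence card (ker) <= card (Fin k -> ZMod 2) = 2^k, and
card (ker) = 2 ^ finrank (card_eq_pow_finrank), so finrank <= k.
euler: combine rank_low, rank_up and Part.count (omega): 3F = 2D + n, D + c <= F + k give 2F + c <= D + n + k.
-/

noncomputable section

open scoped Classical

namespace Pool.Agent.Helper69.AGF

variable {T' T E : Finset (Finset Pt)}

/-- Extension by zero of a chain on the diagonals. -/
private def ext0 (T E : Finset (Finset Pt)) (z : {e // e ∈ diags T E} → ZMod 2) (e : Finset Pt) : ZMod 2 :=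
  if h : e ∈ diags T E then z ⟨e, h⟩ else 0

private lemma ext0_mem (z : {e // e ∈ diags T E} → ZMod 2) (e : {e // e ∈ diags T E}) :
    ext0 T E z e.1 = z e := by
  simp [ext0, e.2]

private lemma ext0_not_mem (z : {e // e ∈ diags T E} → ZMod 2) {e : Finset Pt}
    (he : e ∉ diags T E) : ext0 T E z e = 0 := by
  simp [ext0, he]

private lemma ext0_sum (h : Part T' T E) (z : {e // e ∈ diags T E} → ZMod 2)
    (hz : bdMap T E z = 0) : ∀ t ∈ T', ∑ e ∈ t.powersetCard 2, ext0 T E z e = 0 := by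
  intro t ht'
  by_cases ht : t ∈ T
  · have h1 : (bdMap T E z) ⟨t, ht⟩ = 0 := by rw [hz]; rfl
    change (∑ e : {e // e ∈ diags T E}, if e.1 ⊆ t then z e else 0) = 0 at h1
    have h2 : (∑ e : {e // e ∈ diags T E}, if e.1 ⊆ t then z e else 0) =
        ∑ e : {e // e ∈ diags T E}, (fun e : Finset Pt => if e ⊆ t then ext0 T E z e else 0) e.1 := by
      refine Finset.sum_congr rfl fun e _ => ?_
      simp only [ext0_mem]
    rw [h2, Finset.sum_coe_sort (diags T E)
      (fun e : Finset Pt => if e ⊆ t then ext0 T E z e else 0), ← Finset.sum_filter] at h1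
    rw [← h1]
    symm
    refine Finset.sum_subset ?_ ?_
    · intro e he
      rw [Finset.mem_filter] at he
      rw [Finset.mem_powersetCard]
      exact ⟨he.2, (mem_sides.1 (mem_diags.1 he.1).1).1⟩
    · intro e he hne
      apply ext0_not_mem
      intro hd
      apply hne
      rw [Finset.mem_filter]
      exact ⟨hd, (Finset.mem_powersetCard.1 he).1⟩
  · refine Finset.sum_eq_zero fun e he => ?_
    apply ext0_not_mem
    intro hd
    obtain ⟨t1, ht1, t2, ht2, -, -, -, hu⟩ := h.two_tri hd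
    rcases hu t ht' (Finset.mem_powersetCard.1 he).1 with rfl | rfl
    · exact ht ht1
    · exact ht ht2

private lemma two_eq {a b : ZMod 2} (h : a + b = 0) : a = b := by
  revert h
  revert a b
  decide

private lemma exists_pot (h : Part T' T E) (k : ℕ) (r : Fin (k + 1) → Pt)
    (hr : ∀ v ∈ verts T, ∃ i, Relation.ReflTransGen (fun x y : Pt => ({x, y} : Finset Pt) ∈ E) (r i) v)
    (z : {e // e ∈ diags T E} → ZMod 2) (hz : bdMap T E z = 0) :
    ∃ f : Pt → ZMod 2, (∀ x y : Pt, ({x, y} : Finset Pt) ∈ sides T' →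
      ext0 T E z {x, y} = f x + f y) ∧
      (∀ i v, Relation.ReflTransGen (fun x y : Pt => ({x, y} : Finset Pt) ∈ E) (r i) v →
        f v = f (r i)) := by
  obtain ⟨f, hf⟩ := h.tri.cocycle h.conv (ext0 T E z) (ext0_sum h z hz)
  refine ⟨f, hf, ?_⟩
  intro i v hv
  induction hv with
  | refl => rfl
  | tail _ hbc ih =>
    rw [← ih]
    symm
    apply two_eq
    rw [← hf _ _ (h.edge_side hbc)]
    apply ext0_not_mem
    intro hd
    exact (mem_diags.1 hd).2 hbc

theorem Part.rank_up (h : Part T' T E) (k : ℕ) (r : Fin (k + 1) → Pt)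
    (hr : ∀ v ∈ verts T, ∃ i, Relation.ReflTransGen (fun x y : Pt => ({x, y} : Finset Pt) ∈ E) (r i) v) :
    Module.finrank (ZMod 2) (LinearMap.ker (bdMap T E)) ≤ k := by
  have hex : ∀ z : LinearMap.ker (bdMap T E), ∃ f : Pt → ZMod 2,
      (∀ x y : Pt, ({x, y} : Finset Pt) ∈ sides T' → ext0 T E z.1 {x, y} = f x + f y) ∧
      (∀ i v, Relation.ReflTransGen (fun x y : Pt => ({x, y} : Finset Pt) ∈ E) (r i) v →
        f v = f (r i)) := fun z => exists_pot h k r hr z.1 (LinearMap.mem_ker.1 z.2)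
  choose F hF1 hF2 using hex
  have hinj : Function.Injective
      (fun (z : LinearMap.ker (bdMap T E)) (i : Fin k) => F z (r i.succ) + F z (r 0)) := by
    intro z z' hzz
    have h1 : ∀ i : Fin (k + 1), F z (r i) + F z' (r i) = F z (r 0) + F z' (r 0) := by
      intro i
      refine Fin.cases rfl (fun j => ?_) i
      have h2 := congrFun hzz j
      simp only at h2
      have key : ∀ a b c d : ZMod 2, a + b = c + d → a + c = b + d := by decide
      exact key _ _ _ _ h2
    have h3 : ∀ v ∈ verts T, F z v + F z' v = F z (r 0) + F z' (r 0) := by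
      intro v hv
      obtain ⟨i, hi⟩ := hr v hv
      rw [hF2 z i v hi, hF2 z' i v hi, h1 i]
    apply Subtype.ext
    funext e
    obtain ⟨hcard, t, ht, het⟩ := mem_sides.1 (mem_diags.1 e.2).1
    obtain ⟨x, y, hxy, hexy⟩ := Finset.card_eq_two.1 hcard
    have hS : ({x, y} : Finset Pt) ∈ sides T' := by
      rw [← hexy]
      exact mem_sides.2 ⟨hcard, t, h.sub ht, het⟩
    have hx : x ∈ verts T := mem_verts.2 ⟨t, ht, het (by rw [hexy]; simp)⟩
    have hy : y ∈ verts T := mem_verts.2 ⟨t, ht, het (by rw [hexy]; simp)⟩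
    have h4 := hF1 z x y hS
    have h5 := hF1 z' x y hS
    rw [← hexy, ext0_mem] at h4 h5
    have h6 := h3 x hx
    have h7 := h3 y hy
    rw [h4, h5]
    have key : ∀ a b c d e : ZMod 2, a + c = e → b + d = e → a + b = c + d := by decide
    exact key _ _ _ _ _ h6 h7
  haveI : Fintype (LinearMap.ker (bdMap T E)) := Fintype.ofFinite _
  have hcard := Fintype.card_le_of_injective _ hinj
  rw [Module.card_eq_pow_finrank (K := ZMod 2) (V := LinearMap.ker (bdMap T E)), ZMod.card,
    Fintype.card_fun, ZMod.card, Fintype.card_fin] at hcard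
  exact (Nat.pow_le_pow_iff_right (by norm_num)).1 hcard

/-- The main count: 2 F - D + c <= n + h. -/
theorem Part.euler (h : Part T' T E) (k : ℕ) (r : Fin (k + 1) → Pt)
    (hr : ∀ v ∈ verts T, ∃ i, Relation.ReflTransGen (fun x y : Pt => ({x, y} : Finset Pt) ∈ E) (r i) v) :
    2 * T.card + Nat.card (dual T).ConnectedComponent ≤ (diags T E).card + E.card + k := by
  have h1 := h.rank_low
  have h2 := h.rank_up k r hr
  have h3 := h.count
  omega

end Pool.Agent.Helper69.AGF

end
end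

/- AG.GC.Adapter -/
section
/-!
# The object of a triangulation
-/

set_option autoImplicit false

noncomputable section

namespace AG

open scoped Classical
open Pool.Agent.Helper69

/-! ### closed triangles and hulls -/

theorem hull_eq_ctri {a b c : Pt} (h : Ccw a b c) : AGF.hull {a, b, c} = ctri a b c := by
  unfold AGF.hull
  apply Set.Subset.antisymm
  · apply convexHull_min _ (convex_ctri a b c)
    intro p hp
    simp only [Finset.coe_insert, Finset.coe_singleton, Set.mem_insert_iff,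
      Set.mem_singleton_iff] at hp
    rcases hp with rfl | rfl | rfl
    · exact mem_ctri_left h
    · rw [← ctri_rot]; exact mem_ctri_left h.rot
    · rw [← ctri_rot, ← ctri_rot]; exact mem_ctri_left h.rot'
  · intro p hp
    obtain ⟨h1, h2, h3⟩ := hp
    have hD : 0 < cr a b c := h
    have hs := cr_sum a b c p
    have hconv := convex_convexHull ℝ (({a, b, c} : Finset Pt) : Set Pt)
    have ha : a ∈ convexHull ℝ (({a, b, c} : Finset Pt) : Set Pt) :=
      subset_convexHull ℝ _ (by simp)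
    have hb : b ∈ convexHull ℝ (({a, b, c} : Finset Pt) : Set Pt) :=
      subset_convexHull ℝ _ (by simp)
    have hc : c ∈ convexHull ℝ (({a, b, c} : Finset Pt) : Set Pt) :=
      subset_convexHull ℝ _ (by simp)
    have key : p = (cr b c p / cr a b c) • a + (cr c a p / cr a b c) • b +
        (cr a b p / cr a b c) • c := by
      have hne : cr a b c ≠ 0 := hD.ne'
      ext
      · simp only [Prod.fst_add, Prod.smul_fst, smul_eq_mul]
        field_simp
        unfold cr
        ring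
      · simp only [Prod.snd_add, Prod.smul_snd, smul_eq_mul]
        field_simp
        unfold cr
        ring
    rw [key]
    have hw : cr b c p / cr a b c + cr c a p / cr a b c + cr a b p / cr a b c = 1 := by
      field_simp
      linarith
    have e1 : ∀ i ∈ (Finset.univ : Finset (Fin 3)), 0 ≤ (![cr b c p / cr a b c,
        cr c a p / cr a b c, cr a b p / cr a b c] : Fin 3 → ℝ) i := by
      intro i _
      fin_cases i
      · exact div_nonneg h2 hD.le
      · exact div_nonneg h3 hD.le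
      · exact div_nonneg h1 hD.le
    have := hconv.sum_mem (t := Finset.univ) (w := ![cr b c p / cr a b c,
        cr c a p / cr a b c, cr a b p / cr a b c]) (z := ![a, b, c]) e1
        (by rw [Fin.sum_univ_three]; exact hw) (by
          intro i _
          fin_cases i
          · exact ha
          · exact hb
          · exact hc)
    rw [Fin.sum_univ_three] at this
    exact this

/-- points of the hull of a subset of a line are on this line -/
theorem cr_eq_zero_of_mem_hull {x y p : Pt} {s : Finset Pt} (hs : ∀ q ∈ s, cr x y q = 0)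
    (hp : p ∈ AGF.hull s) : cr x y p = 0 := by
  have hconv : Convex ℝ {q : Pt | cr x y q = 0} := by
    intro q hq r hr a b _ _ hab
    simp only [Set.mem_setOf_eq] at *
    rw [cr_affine _ _ _ _ _ _ hab, hq, hr]
    ring
  exact convexHull_min (fun q hq => hs q hq) hconv hp

/-! ### numbering the vertices -/

/-- a counterclockwise numbering of the vertices of a triangle -/
def cor (t : Finset Pt) : Fin 3 → Pt :=
  if h : ∃ f : Fin 3 → Pt, t = {f 0, f 1, f 2} ∧ Ccw (f 0) (f 1) (f 2) then h.choose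
  else fun _ => 0

/-- the corner points -/
def ptT (a : Sd (Finset Pt)) : Pt := cor a.1 a.2

variable {T : Finset (Finset Pt)}

theorem cor_spec (hT : AGF.IsTri T) {t : Finset Pt} (ht : t ∈ T) :
    t = {cor t 0, cor t 1, cor t 2} ∧ Ccw (cor t 0) (cor t 1) (cor t 2) := by
  have h : ∃ f : Fin 3 → Pt, t = {f 0, f 1, f 2} ∧ Ccw (f 0) (f 1) (f 2) := by
    obtain ⟨a, b, c, h1, h2⟩ := hT.tri t ht
    exact ⟨![a, b, c], h1, h2⟩
  have e : cor t = h.choose := by
    unfold cor
    rw [dif_pos h]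
  rw [e]
  exact h.choose_spec

theorem cor_ccw (hT : AGF.IsTri T) {t : Finset Pt} (ht : t ∈ T) (i : Fin 3) :
    Ccw (cor t i) (cor t (i + 1)) (cor t (i + 2)) := by
  have h := (cor_spec hT ht).2
  fin_cases i
  · exact h
  · exact h.rot
  · exact h.rot'

theorem cor_eq (hT : AGF.IsTri T) {t : Finset Pt} (ht : t ∈ T) (i : Fin 3) :
    t = {cor t i, cor t (i + 1), cor t (i + 2)} := by
  have h := (cor_spec hT ht).1
  fin_cases i
  · exact h
  · show t = {cor t 1, cor t 2, cor t 0}
    conv_lhs => rw [h]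
    ext p; simp only [Finset.mem_insert, Finset.mem_singleton]; tauto
  · show t = {cor t 2, cor t 0, cor t 1}
    conv_lhs => rw [h]
    ext p; simp only [Finset.mem_insert, Finset.mem_singleton]; tauto

theorem cor_mem (hT : AGF.IsTri T) {t : Finset Pt} (ht : t ∈ T) (i : Fin 3) : cor t i ∈ t := by
  have h := cor_eq hT ht i
  have h2 : cor t i ∈ ({cor t i, cor t (i + 1), cor t (i + 2)} : Finset Pt) := by simp
  rw [← h] at h2
  exact h2

theorem fin3_ne : ∀ i j : Fin 3, i ≠ j → j = i + 1 ∨ j = i + 2 := by decide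

theorem fin3_ne' : ∀ i j : Fin 3, i ≠ j → j = i + 1 ∨ i = j + 1 := by decide

theorem fin3_eq : ∀ i j : Fin 3, i = j ∨ i = j + 1 → i + 1 = j ∨ i + 1 = j + 1 → i = j := by
  decide

theorem cor_inj (hT : AGF.IsTri T) {t : Finset Pt} (ht : t ∈ T) {i j : Fin 3}
    (h : cor t i = cor t j) : i = j := by
  have h3 := cor_ccw hT ht i
  by_contra hne
  have hj : j = i + 1 ∨ j = i + 2 := fin3_ne i j hne
  rcases hj with rfl | rfl
  · exact h3.ne h
  · exact h3.ne' h

theorem exists_cor (hT : AGF.IsTri T) {t : Finset Pt} (ht : t ∈ T) {p : Pt} (hp : p ∈ t) :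
    ∃ i, cor t i = p := by
  have h := (cor_spec hT ht).1
  rw [h] at hp
  simp only [Finset.mem_insert, Finset.mem_singleton] at hp
  rcases hp with h | h | h
  · exact ⟨0, h.symm⟩
  · exact ⟨1, h.symm⟩
  · exact ⟨2, h.symm⟩

/-- a counterclockwise numbering is determined by its first point -/
theorem exists_cor_ccw (hT : AGF.IsTri T) {t : Finset Pt} (ht : t ∈ T) {p q r : Pt}
    (h : t = {p, q, r}) (hc : Ccw p q r) :
    ∃ j, cor t j = p ∧ cor t (j + 1) = q ∧ cor t (j + 2) = r := by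
  obtain ⟨j, hj⟩ := exists_cor hT ht (p := p) (by rw [h]; simp)
  have h1 := cor_eq hT ht j
  have h3 := cor_ccw hT ht j
  rw [hj] at h1 h3
  have hq : q ∈ ({p, cor t (j + 1), cor t (j + 2)} : Finset Pt) := by
    rw [← h1, h]; simp
  have hr : r ∈ ({p, cor t (j + 1), cor t (j + 2)} : Finset Pt) := by
    rw [← h1, h]; simp
  simp only [Finset.mem_insert, Finset.mem_singleton] at hq hr
  have hpq := hc.ne
  have hpr := hc.ne'
  have hqr := hc.ne''
  rcases hq with e | e | e
  · exact absurd e.symm hpq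
  · rcases hr with e' | e' | e'
    · exact absurd e'.symm hpr
    · exact absurd (e.trans e'.symm) hqr
    · exact ⟨j, hj, e.symm, e'.symm⟩
  · rcases hr with e' | e' | e'
    · exact absurd e'.symm hpr
    · exfalso
      rw [← e, ← e'] at h3
      unfold Ccw at h3 hc
      rw [cr_swap] at h3
      linarith
    · exact absurd (e.trans e'.symm) hqr

theorem hull_eq (hT : AGF.IsTri T) {t : Finset Pt} (ht : t ∈ T) (i : Fin 3) :
    AGF.hull t = ctri (cor t i) (cor t (i + 1)) (cor t (i + 2)) := by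
  conv_lhs => rw [cor_eq hT ht i]
  exact hull_eq_ctri (cor_ccw hT ht i)

/-- open triangles of different names are disjoint -/
theorem otri_disjoint (hT : AGF.IsTri T) {t t' : Finset Pt} (ht : t ∈ T) (ht' : t' ∈ T)
    (hne : t ≠ t') (i j : Fin 3) :
    Disjoint (otri (cor t i) (cor t (i + 1)) (cor t (i + 2)))
      (otri (cor t' j) (cor t' (j + 1)) (cor t' (j + 2))) := by
  rw [Set.disjoint_left]
  intro p hp hp'
  have h1 : p ∈ AGF.hull t := by
    rw [hull_eq hT ht i]; exact otri_subset_ctri _ _ _ hp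
  have h2 : p ∈ AGF.hull t' := by
    rw [hull_eq hT ht' j]; exact otri_subset_ctri _ _ _ hp'
  have h3 := hT.glue t ht t' ht' ⟨h1, h2⟩
  -- some vertex of t is not in t'
  have h4 : ∃ k, cor t k ∉ t' := by
    by_contra hcon
    push Not at hcon
    apply hne
    have hsub : t ⊆ t' := by
      intro q hq
      obtain ⟨k, hk⟩ := exists_cor hT ht hq
      rw [← hk]; exact hcon k
    have hc1 : t.card = 3 := by
      conv_lhs => rw [cor_eq hT ht 0]
      have h5 := cor_ccw hT ht 0
      rw [Finset.card_insert_of_notMem, Finset.card_pair h5.ne'']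
      simp only [Finset.mem_insert, Finset.mem_singleton, not_or]
      exact ⟨h5.ne, h5.ne'⟩
    have hc2 : t'.card = 3 := by
      conv_lhs => rw [cor_eq hT ht' 0]
      have h5 := cor_ccw hT ht' 0
      rw [Finset.card_insert_of_notMem, Finset.card_pair h5.ne'']
      simp only [Finset.mem_insert, Finset.mem_singleton, not_or]
      exact ⟨h5.ne, h5.ne'⟩
    exact Finset.eq_of_subset_of_card_le hsub (by rw [hc1, hc2])
  obtain ⟨k, hk⟩ := h4
  have h5 : ∀ q ∈ t ∩ t', cr (cor t (k + 1)) (cor t (k + 2)) q = 0 := by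
    intro q hq
    rw [Finset.mem_inter] at hq
    have h6 := hq.1
    rw [cor_eq hT ht k] at h6
    simp only [Finset.mem_insert, Finset.mem_singleton] at h6
    rcases h6 with h6 | h6 | h6
    · rw [h6] at hq; exact absurd hq.2 hk
    · rw [h6]; exact cr_self_left _ _
    · rw [h6]; exact cr_self_right _ _
  have h7 := cr_eq_zero_of_mem_hull h5 h3
  have h8 : p ∈ otri (cor t k) (cor t (k + 1)) (cor t (k + 2)) := by
    have e0 : otri (cor t 1) (cor t 2) (cor t 0) = otri (cor t 0) (cor t 1) (cor t 2) :=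
      otri_rot _ _ _
    have e1 : otri (cor t 2) (cor t 0) (cor t 1) = otri (cor t 1) (cor t 2) (cor t 0) :=
      otri_rot _ _ _
    fin_cases i <;> fin_cases k <;>
      simp_all
  linarith [h8.2.1]

/-! ### gluing -/

/-- the side `a` is glued to the side `b` -/
def Gl (T : Finset (Finset Pt)) (a b : Sd (Finset Pt)) : Prop :=
  a.1 ∈ T ∧ b.1 ∈ T ∧ a.1 ≠ b.1 ∧ ptT b = ptT (rot a) ∧ ptT (rot b) = ptT a

theorem Gl.symm {a b : Sd (Finset Pt)} (h : Gl T a b) : Gl T b a :=
  ⟨h.2.1, h.1, h.2.2.1.symm, h.2.2.2.2.symm, h.2.2.2.1.symm⟩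

theorem Gl.unique (hT : AGF.IsTri T) {a b b' : Sd (Finset Pt)} (h : Gl T a b) (h' : Gl T a b') :
    b = b' := by
  have h1 : b.1 = b'.1 := by
    by_contra hne
    have hd := otri_disjoint hT h.2.1 h'.2.1 hne b.2 b'.2
    have e1 : cor b'.1 b'.2 = cor b.1 b.2 := (h'.2.2.2.1.trans h.2.2.2.1.symm : ptT b' = ptT b)
    have e2 : cor b'.1 (b'.2 + 1) = cor b.1 (b.2 + 1) :=
      (h'.2.2.2.2.trans h.2.2.2.2.symm : ptT (rot b') = ptT (rot b))
    have c1 := cor_ccw hT h.2.1 b.2
    have c2 := cor_ccw hT h'.2.1 b'.2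
    rw [e1, e2] at c2 hd
    obtain ⟨p, hp, hp'⟩ := otri_inter_same_side c1 c2
    exact Set.disjoint_left.1 hd hp hp'
  have h2 : cor b.1 b.2 = cor b.1 b'.2 := by
    have : ptT b = ptT b' := h.2.2.2.1.trans h'.2.2.2.1.symm
    unfold ptT at this
    rw [this, h1]
  have h3 := cor_inj hT h.2.1 h2
  exact Prod.ext h1 h3

/-- the gluing map -/
def glue (T : Finset (Finset Pt)) (a : Sd (Finset Pt)) : Sd (Finset Pt) :=
  if h : ∃ b, Gl T a b then h.choose else a

theorem glue_of (hT : AGF.IsTri T) {a b : Sd (Finset Pt)} (h : Gl T a b) : glue T a = b := by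
  have h' : ∃ b, Gl T a b := ⟨b, h⟩
  unfold glue
  rw [dif_pos h']
  exact Gl.unique hT h'.choose_spec h

theorem gl_of_ne {a : Sd (Finset Pt)} (h : glue T a ≠ a) : Gl T a (glue T a) := by
  unfold glue at *
  split_ifs at * with h'
  · exact h'.choose_spec
  · exact absurd rfl h

theorem glue_ne_iff (hT : AGF.IsTri T) {a : Sd (Finset Pt)} : glue T a ≠ a ↔ ∃ b, Gl T a b := by
  constructor
  · intro h; exact ⟨_, gl_of_ne h⟩
  · rintro ⟨b, h⟩
    rw [glue_of hT h]
    intro e
    exact h.2.2.1 (by rw [e])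

/-- The object of a triangulation: all pairs of triangles with a common side are glued, there are
no ears. -/
def ofTri (hT : AGF.IsTri T) : Obj (Finset Pt) where
  F := T
  g := glue T
  E := ∅
  invol a := by
    by_cases h : glue T a = a
    · rw [h, h]
    · exact glue_of hT (gl_of_ne h).symm
  ne a h := (gl_of_ne h).2.2.1.symm
  memF a h := (gl_of_ne h).1
  earF a h := absurd h (Finset.notMem_empty a)
  earFree a h := absurd h (Finset.notMem_empty a)

variable (hT : AGF.IsTri T)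

theorem ofTri_F : (ofTri hT).F = T := rfl

theorem ofTri_g : (ofTri hT).g = glue T := rfl

theorem ofTri_E : (ofTri hT).E = ∅ := rfl

theorem mem_sides_ofTri {a : Sd (Finset Pt)} : a ∈ (ofTri hT).sides ↔ a.1 ∈ T := by
  unfold Obj.sides
  rw [Finset.mem_product]
  simp [ofTri_F]

include hT

theorem tri_ofTri {t : Finset Pt} (ht : t ∈ T) : tri ptT t = AGF.hull t := by
  rw [hull_eq hT ht 0]
  rfl

theorem mat_ofTri {a : Sd (Finset Pt)} (h : (ofTri hT).g a ≠ a) :
    ptT (rot ((ofTri hT).g a)) = ptT a :=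
  (gl_of_ne (T := T) h).2.2.2.2

/-- the side as a set of two points -/
def eset (a : Sd (Finset Pt)) : Finset Pt := {ptT a, ptT (rot a)}

theorem eset_sub {a : Sd (Finset Pt)} (ha : a.1 ∈ T) : eset a ⊆ a.1 := by
  intro p hp
  unfold eset at hp
  simp only [Finset.mem_insert, Finset.mem_singleton] at hp
  rcases hp with rfl | rfl
  · exact cor_mem hT ha _
  · exact cor_mem hT ha _

theorem eset_card {a : Sd (Finset Pt)} (ha : a.1 ∈ T) : (eset a).card = 2 := by
  unfold eset
  exact Finset.card_pair (cor_ccw hT ha a.2).ne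

theorem eset_mem_sides {a : Sd (Finset Pt)} (ha : a.1 ∈ T) : eset a ∈ AGF.sides T :=
  AGF.mem_sides.2 ⟨eset_card hT ha, a.1, ha, eset_sub hT ha⟩

theorem exists_eset {e t : Finset Pt} (he : e.card = 2) (ht : t ∈ T) (het : e ⊆ t) :
    ∃ i, eset (t, i) = e := by
  obtain ⟨x, y, hxy, rfl⟩ := Finset.card_eq_two.1 he
  obtain ⟨i, hi⟩ := exists_cor hT ht (het (by simp : x ∈ ({x, y} : Finset Pt)))
  obtain ⟨j, hj⟩ := exists_cor hT ht (het (by simp : y ∈ ({x, y} : Finset Pt)))
  have hij : i ≠ j := by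
    rintro rfl
    exact hxy (hi.symm.trans hj)
  have : j = i + 1 ∨ i = j + 1 := fin3_ne' i j hij
  rcases this with h | h
  · refine ⟨i, ?_⟩
    show ({cor t i, cor t (i + 1)} : Finset Pt) = {x, y}
    rw [← h, hi, hj]
  · refine ⟨j, ?_⟩
    show ({cor t j, cor t (j + 1)} : Finset Pt) = {x, y}
    rw [← h, hi, hj, Finset.pair_comm]

theorem eset_inj {t : Finset Pt} (ht : t ∈ T) {i j : Fin 3} (h : eset (t, i) = eset (t, j)) :
    i = j := by
  have h1 : cor t i ∈ eset (t, j) := by
    rw [← h]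
    simp [eset, ptT]
  have h2 : cor t (i + 1) ∈ eset (t, j) := by
    rw [← h]
    simp [eset, ptT, rot]
  simp only [eset, ptT, rot, Finset.mem_insert, Finset.mem_singleton] at h1 h2
  have h3 : i = j ∨ i = j + 1 := by
    rcases h1 with h | h
    · exact Or.inl (cor_inj hT ht h)
    · exact Or.inr (cor_inj hT ht h)
  have h4 : i + 1 = j ∨ i + 1 = j + 1 := by
    rcases h2 with h | h
    · exact Or.inl (cor_inj hT ht h)
    · exact Or.inr (cor_inj hT ht h)
  exact fin3_eq i j h3 h4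

omit hT in
theorem eset_gl {a b : Sd (Finset Pt)} (h : Gl T a b) : eset b = eset a := by
  unfold eset
  rw [h.2.2.2.1, h.2.2.2.2, Finset.pair_comm]

/-- two different triangles of `T` with a common side are glued along this side -/
theorem glue_of_common {a : Sd (Finset Pt)} (ha : a.1 ∈ T) {t : Finset Pt} (ht : t ∈ T)
    (hne : a.1 ≠ t) (h : eset a ⊆ t) : ∃ j, Gl T a (t, j) := by
  obtain ⟨i, hi⟩ := exists_eset hT (eset_card hT ha) ht h
  -- the orientation
  have c1 := cor_ccw hT ha a.2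
  have c2 := cor_ccw hT ht i
  have he : ({cor t i, cor t (i + 1)} : Finset Pt) = {cor a.1 a.2, cor a.1 (a.2 + 1)} := hi
  have h1 : cor t i = cor a.1 a.2 ∨ cor t i = cor a.1 (a.2 + 1) := by
    have : cor t i ∈ ({cor a.1 a.2, cor a.1 (a.2 + 1)} : Finset Pt) := by rw [← he]; simp
    simpa using this
  have h2 : cor t (i + 1) = cor a.1 a.2 ∨ cor t (i + 1) = cor a.1 (a.2 + 1) := by
    have : cor t (i + 1) ∈ ({cor a.1 a.2, cor a.1 (a.2 + 1)} : Finset Pt) := by rw [← he]; simp
    simpa using this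
  rcases h1 with h1 | h1
  · rcases h2 with h2 | h2
    · exact absurd (h1.trans h2.symm) c2.ne
    · exfalso
      have hd := otri_disjoint hT ha ht hne a.2 i
      rw [h1, h2] at c2 hd
      obtain ⟨p, hp, hp'⟩ := otri_inter_same_side c1 c2
      exact Set.disjoint_left.1 hd hp hp'
  · rcases h2 with h2 | h2
    · exact ⟨i, ha, ht, hne, h1, h2⟩
    · exact absurd (h1.trans h2.symm) c2.ne

omit hT

variable {T' E : Finset (Finset Pt)}

/-- the unglued sides are the boundary edges -/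
theorem unglued_iff (hP : AGF.Part T' T E) {a : Sd (Finset Pt)} (ha : a.1 ∈ T) :
    glue T a = a ↔ eset a ∈ E := by
  have hT := hP.isTri
  constructor
  · intro h
    by_contra hE
    obtain ⟨t1, h1, t2, h2, hne, e1, e2, -⟩ :=
      hP.two_tri (AGF.mem_diags.2 ⟨eset_mem_sides hT ha, hE⟩)
    have : ∃ t ∈ T, a.1 ≠ t ∧ eset a ⊆ t := by
      by_cases h3 : a.1 = t1
      · exact ⟨t2, h2, by rw [h3]; exact hne, e2⟩
      · exact ⟨t1, h1, h3, e1⟩
    obtain ⟨t, ht, hat, het⟩ := this
    obtain ⟨j, hj⟩ := glue_of_common hT ha ht hat het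
    exact (glue_ne_iff hT).2 ⟨_, hj⟩ h
  · intro h
    by_contra hg
    have hgl := gl_of_ne hg
    obtain ⟨t1, h1, e1, hu⟩ := hP.one_tri h
    have u1 := hu _ ha (eset_sub hT ha)
    have u2 := hu _ hgl.2.1 (by rw [← eset_gl hgl]; exact eset_sub hT hgl.2.1)
    exact hgl.2.2.1 (u1.trans u2.symm)

theorem card_vis (hP : AGF.Part T' T E) (hE2 : ∀ e ∈ E, e.card = 2) :
    (ofTri hP.isTri).vis.card = E.card := by
  have hT := hP.isTri
  refine Finset.card_bij (fun a _ => eset a) ?_ ?_ ?_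
  · intro a ha
    unfold Obj.vis at ha
    rw [Finset.mem_filter, mem_sides_ofTri] at ha
    exact (unglued_iff hP ha.1).1 ha.2
  · intro a ha b hb hab
    unfold Obj.vis at ha hb
    rw [Finset.mem_filter, mem_sides_ofTri] at ha hb
    have h1 := (unglued_iff hP ha.1).1 ha.2
    obtain ⟨t1, -, -, hu⟩ := hP.one_tri h1
    have u1 := hu _ ha.1 (eset_sub hT ha.1)
    have u2 := hu _ hb.1 (by rw [show eset a = eset b from hab]; exact eset_sub hT hb.1)
    have h2 : a.1 = b.1 := u1.trans u2.symm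
    obtain ⟨t, i⟩ := a
    obtain ⟨t', j⟩ := b
    simp only at h2
    subst h2
    rw [eset_inj hT ha.1 hab]
  · intro e he
    obtain ⟨t1, h1, e1, -⟩ := hP.one_tri he
    obtain ⟨i, hi⟩ := exists_eset hT (hE2 e he) h1 e1
    refine ⟨(t1, i), ?_, hi⟩
    unfold Obj.vis
    rw [Finset.mem_filter, mem_sides_ofTri]
    refine ⟨h1, (unglued_iff hP h1).2 ?_⟩
    rw [hi]
    exact he

end AG

end
end

/- AG.GC.AngSum -/
section
/-!
# The angles of disjoint triangles at a point
-/

set_option autoImplicit false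

noncomputable section

namespace AG

open MeasureTheory Real

/-- the unit vector with the argument `θ` -/
def dir (θ : ℝ) : Pt := (Real.cos θ, Real.sin θ)

/-- the directions from `p` into the triangle `p b c` -/
def arc (p b c : Pt) : Set ℝ :=
  {θ | θ ∈ Set.Ioc (-π) π ∧ 0 < cr p b (p + dir θ) ∧ 0 < cr p (p + dir θ) c}

theorem measurableSet_arc (p b c : Pt) : MeasurableSet (arc p b c) := by
  have h1 : Continuous fun θ : ℝ => cr p b (p + dir θ) := by
    unfold cr dir
    simp only [Prod.fst_add, Prod.snd_add]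
    fun_prop
  have h2 : Continuous fun θ : ℝ => cr p (p + dir θ) c := by
    unfold cr dir
    simp only [Prod.fst_add, Prod.snd_add]
    fun_prop
  have e : arc p b c = Set.Ioc (-π) π ∩ ({θ | 0 < cr p b (p + dir θ)} ∩
      {θ | 0 < cr p (p + dir θ) c}) := rfl
  rw [e]
  exact measurableSet_Ioc.inter ((isOpen_lt continuous_const h1).measurableSet.inter
    (isOpen_lt continuous_const h2).measurableSet)

theorem cr_scale (p b d : Pt) (ε : ℝ) : cr p b (p + ε • d) = ε * cr p b (p + d) := by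
  unfold cr
  simp only [Prod.fst_add, Prod.snd_add, Prod.smul_fst, Prod.smul_snd, smul_eq_mul]
  ring

theorem cr_scale' (p c d : Pt) (ε : ℝ) : cr p (p + ε • d) c = ε * cr p (p + d) c := by
  unfold cr
  simp only [Prod.fst_add, Prod.snd_add, Prod.smul_fst, Prod.smul_snd, smul_eq_mul]
  ring

theorem eventually_mem_otri {p b c : Pt} (h : Ccw p b c) {d : Pt} (h1 : 0 < cr p b (p + d))
    (h2 : 0 < cr p (p + d) c) : ∀ᶠ ε : ℝ in nhdsWithin 0 (Set.Ioi 0), p + ε • d ∈ otri p b c := by
  have hc : Continuous fun ε : ℝ => cr b c (p + ε • d) := by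
    unfold cr
    simp only [Prod.fst_add, Prod.snd_add, Prod.smul_fst, Prod.smul_snd, smul_eq_mul]
    fun_prop
  have h0 : 0 < cr b c (p + (0 : ℝ) • d) := by
    rw [zero_smul, add_zero, cr_rot]
    exact h
  have hev : ∀ᶠ ε : ℝ in nhds 0, 0 < cr b c (p + ε • d) :=
    hc.continuousAt.eventually (isOpen_Ioi.mem_nhds h0)
  filter_upwards [nhdsWithin_le_nhds hev, self_mem_nhdsWithin] with ε h3 h4
  have h4' : 0 < ε := h4
  refine ⟨?_, h3, ?_⟩
  · rw [cr_scale]; exact mul_pos h4' h1
  · rw [← cr_rot c p, cr_scale']; exact mul_pos h4' h2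

theorem arc_disjoint {p b c b' c' : Pt} (h : Ccw p b c) (h' : Ccw p b' c')
    (hd : Disjoint (otri p b c) (otri p b' c')) : Disjoint (arc p b c) (arc p b' c') := by
  rw [Set.disjoint_left]
  rintro θ ⟨-, h1, h2⟩ ⟨-, h3, h4⟩
  obtain ⟨ε, h5, h6⟩ := ((eventually_mem_otri h h1 h2).and (eventually_mem_otri h' h3 h4)).exists
  exact Set.disjoint_left.1 hd h5 h6

theorem norm_mul_sin {z : ℂ} (θ : ℝ) :
    z.re * Real.sin θ - z.im * Real.cos θ = ‖z‖ * Real.sin (θ - Complex.arg z) := by
  rw [Real.sin_sub]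
  have h1 : ‖z‖ * Real.cos (Complex.arg z) = z.re := Complex.norm_mul_cos_arg z
  have h2 : ‖z‖ * Real.sin (Complex.arg z) = z.im := Complex.norm_mul_sin_arg z
  rw [← h1, ← h2]
  ring

theorem mem_arc_iff {p b c : Pt} (h : Ccw p b c) {θ : ℝ} : θ ∈ arc p b c ↔
    θ ∈ Set.Ioc (-π) π ∧ 0 < Real.sin (θ - Complex.arg (toC b - toC p)) ∧
      0 < Real.sin (Complex.arg (toC b - toC p) + ang p b c - θ) := by
  have hb : toC b - toC p ≠ 0 := sub_toC_ne h.ne.symm
  have hc : toC c - toC p ≠ 0 := sub_toC_ne h.ne'.symm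
  have e1 : cr p b (p + dir θ) =
      ‖toC b - toC p‖ * Real.sin (θ - Complex.arg (toC b - toC p)) := by
    rw [← norm_mul_sin]
    unfold cr dir
    simp only [Prod.fst_add, Prod.snd_add, Complex.sub_re, Complex.sub_im, toC_re, toC_im]
    ring
  have e2 : cr p (p + dir θ) c =
      ‖toC c - toC p‖ * Real.sin (Complex.arg (toC b - toC p) + ang p b c - θ) := by
    have e3 : cr p (p + dir θ) c = -(‖toC c - toC p‖ *
        Real.sin (θ - Complex.arg (toC c - toC p))) := by
      rw [← norm_mul_sin]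
      unfold cr dir
      simp only [Prod.fst_add, Prod.snd_add, Complex.sub_re, Complex.sub_im, toC_re, toC_im]
      ring
    obtain ⟨k, hk⟩ := ang_coe_mul hb (div_ne_zero hc hb)
    rw [mul_div_cancel₀ _ hb] at hk
    have e4 : Complex.arg (toC b - toC p) + ang p b c - θ =
        -(θ - Complex.arg (toC c - toC p)) - k * (2 * π) := by
      unfold ang
      linarith
    rw [e3, e4, Real.sin_sub_int_mul_two_pi, Real.sin_neg]
    ring
  unfold arc
  rw [Set.mem_setOf_eq, e1, e2]
  have n1 : 0 < ‖toC b - toC p‖ := norm_pos_iff.2 hb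
  have n2 : 0 < ‖toC c - toC p‖ := norm_pos_iff.2 hc
  rw [mul_pos_iff_of_pos_left n1, mul_pos_iff_of_pos_left n2]

theorem volume_arc {p b c : Pt} (h : Ccw p b c) :
    ENNReal.ofReal (ang p b c) ≤ volume (arc p b c) := by
  set β := Complex.arg (toC b - toC p) with hβ
  have b1 : -π < β := Complex.neg_pi_lt_arg _
  have b2 : β ≤ π := Complex.arg_le_pi _
  have d1 := ang_pos h
  have d2 := ang_lt_pi h
  set δ := ang p b c with hδ
  by_cases hcase : β + δ ≤ π
  · have hsub : Set.Ioo β (β + δ) ⊆ arc p b c := by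
      rintro θ ⟨h1, h2⟩
      rw [mem_arc_iff h]
      refine ⟨⟨by linarith, by linarith⟩, ?_, ?_⟩
      · exact Real.sin_pos_of_pos_of_lt_pi (by linarith) (by linarith)
      · exact Real.sin_pos_of_pos_of_lt_pi (by linarith) (by linarith)
    calc ENNReal.ofReal δ = volume (Set.Ioo β (β + δ)) := by
          rw [Real.volume_Ioo]; congr 1; ring
      _ ≤ _ := measure_mono hsub
  · rw [not_le] at hcase
    have hsub : Set.Ioc β π ∪ Set.Ioo (-π) (β + δ - 2 * π) ⊆ arc p b c := by
      rintro θ (⟨h1, h2⟩ | ⟨h1, h2⟩)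
      · rw [mem_arc_iff h]
        refine ⟨⟨by linarith, by linarith⟩, ?_, ?_⟩
        · rcases lt_or_ge (θ - β) π with h3 | h3
          · exact Real.sin_pos_of_pos_of_lt_pi (by linarith) h3
          · exfalso
            -- then β ≤ 0 and β + δ ≤ π
            linarith
        · exact Real.sin_pos_of_pos_of_lt_pi (by linarith) (by linarith)
      · rw [mem_arc_iff h]
        refine ⟨⟨by linarith, by linarith⟩, ?_, ?_⟩
        · have : θ - β = (θ - β + 2 * π) - 2 * π := by ring
          rw [← hβ, this, Real.sin_sub_two_pi]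
          exact Real.sin_pos_of_pos_of_lt_pi (by linarith) (by linarith)
        · have : β + δ - θ = (β + δ - θ - 2 * π) + 2 * π := by ring
          rw [← hβ, ← hδ, this, Real.sin_add_two_pi]
          exact Real.sin_pos_of_pos_of_lt_pi (by linarith) (by linarith)
    have hdis : Disjoint (Set.Ioc β π) (Set.Ioo (-π) (β + δ - 2 * π)) := by
      rw [Set.disjoint_left]
      rintro θ ⟨h1, h2⟩ ⟨h3, h4⟩
      linarith
    calc ENNReal.ofReal δ = ENNReal.ofReal (π - β) + ENNReal.ofReal (β + δ - 2 * π - -π) := by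
          rw [← ENNReal.ofReal_add (by linarith) (by linarith)]
          congr 1
          ring
      _ = volume (Set.Ioc β π ∪ Set.Ioo (-π) (β + δ - 2 * π)) := by
          rw [measure_union hdis measurableSet_Ioo, Real.volume_Ioc, Real.volume_Ioo]
      _ ≤ _ := measure_mono hsub

/-- The sum of the angles of disjoint triangles at a common vertex is at most `2 π`. -/
theorem sum_ang_le {ι : Type*} (s : Finset ι) (p : Pt) (b c : ι → Pt)
    (h : ∀ i ∈ s, Ccw p (b i) (c i))
    (hd : ∀ i ∈ s, ∀ j ∈ s, i ≠ j → Disjoint (otri p (b i) (c i)) (otri p (b j) (c j))) :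
    ∑ i ∈ s, ang p (b i) (c i) ≤ 2 * π := by
  have h1 : ∑ i ∈ s, ENNReal.ofReal (ang p (b i) (c i)) ≤ ENNReal.ofReal (2 * π) := by
    calc ∑ i ∈ s, ENNReal.ofReal (ang p (b i) (c i))
        ≤ ∑ i ∈ s, volume (arc p (b i) (c i)) := Finset.sum_le_sum fun i hi => volume_arc (h i hi)
      _ = volume (⋃ i ∈ s, arc p (b i) (c i)) := by
          rw [measure_biUnion_finset]
          · intro i hi j hj hij
            exact arc_disjoint (h i hi) (h j hj) (hd i hi j hj hij)
          · intro i _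
            exact measurableSet_arc _ _ _
      _ ≤ volume (Set.Ioc (-π) π) := by
          apply measure_mono
          intro θ hθ
          simp only [Set.mem_iUnion] at hθ
          obtain ⟨i, _, hi⟩ := hθ
          exact hi.1
      _ = ENNReal.ofReal (2 * π) := by
          rw [Real.volume_Ioc]
          congr 1
          ring
  rw [← ENNReal.ofReal_sum_of_nonneg (fun i hi => (ang_pos (h i hi)).le)] at h1
  exact (ENNReal.ofReal_le_ofReal_iff (by positivity)).1 h1

end AG

end
end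

/- AG.GC.GeoOf -/
section
/-!
# The object of a triangulation is geometric
-/

set_option autoImplicit false

noncomputable section

namespace AG

open scoped Classical
open Pool.Agent.Helper69

variable {T T' E : Finset (Finset Pt)}

theorem otri_disjoint' (hT : AGF.IsTri T) {a b : Sd (Finset Pt)} (ha : a.1 ∈ T) (hb : b.1 ∈ T)
    (hne : a.1 ≠ b.1) : Disjoint (otri (ptT a) (ptT (rot a)) (ptT (unrot a)))
      (otri (ptT b) (ptT (rot b)) (ptT (unrot b))) :=
  otri_disjoint hT ha hb hne a.2 b.2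

theorem ccw_ptT (hT : AGF.IsTri T) {a : Sd (Finset Pt)} (ha : a.1 ∈ T) :
    Ccw (ptT a) (ptT (rot a)) (ptT (unrot a)) := cor_ccw hT ha a.2

theorem geo_ofTri (hP : AGF.Part T' T E) (hdeg : ∀ v ∈ AGF.verts T, ∃ e ∈ E, v ∈ e) :
    (ofTri hP.isTri).Geo ptT where
  ccw0 t ht := (cor_spec hP.isTri ht).2
  mat a ha := mat_ofTri hP.isTri ha
  disj0 t ht s hs hne := otri_disjoint hP.isTri ht hs hne 0 0
  asum p := by
    have hT' := hP.tri
    set A := (ofTri hP.isTri).sides.filter (fun a => ptT a = p) with hA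
    rcases A.eq_empty_or_nonempty with h0 | ⟨a0, ha0⟩
    · rw [h0, Finset.sum_empty]
      positivity
    · rw [hA, Finset.mem_filter, mem_sides_ofTri] at ha0
      have hv : p ∈ AGF.verts T := by
        rw [AGF.mem_verts]
        refine ⟨a0.1, ha0.1, ?_⟩
        rw [← ha0.2]
        exact cor_mem hP.isTri ha0.1 a0.2
      obtain ⟨e, he, hpe⟩ := hdeg p hv
      obtain ⟨t, -, t', ht', hnt', -, het'⟩ := hP.edge_one e he
      obtain ⟨j, hj⟩ := exists_cor hT' ht' (het' hpe)
      set a' : Sd (Finset Pt) := (t', j) with ha'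
      have hA' : ∀ a ∈ insert a' A, a.1 ∈ T' ∧ ptT a = p := by
        intro a ha
        rw [Finset.mem_insert] at ha
        rcases ha with rfl | ha
        · exact ⟨ht', hj⟩
        · rw [hA, Finset.mem_filter, mem_sides_ofTri] at ha
          exact ⟨hP.sub ha.1, ha.2⟩
      have hnot : a' ∉ A := by
        intro h
        rw [hA, Finset.mem_filter, mem_sides_ofTri] at h
        exact hnt' h.1
      have key := sum_ang_le (insert a' A) p (fun a => ptT (rot a)) (fun a => ptT (unrot a))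
        (by
          intro a ha
          have h1 := ccw_ptT hT' (hA' a ha).1
          rw [(hA' a ha).2] at h1
          exact h1)
        (by
          intro a ha b hb hab
          have h1 : a.1 ≠ b.1 := by
            intro h
            apply hab
            have h2 : cor a.1 a.2 = cor a.1 b.2 := by
              have h3 : ptT a = ptT b := (hA' a ha).2.trans (hA' b hb).2.symm
              unfold ptT at h3
              rw [h3, h]
            exact Prod.ext h (cor_inj hT' (hA' a ha).1 h2)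
          have h2 := otri_disjoint' hT' (hA' a ha).1 (hA' b hb).1 h1
          rw [(hA' a ha).2, (hA' b hb).2] at h2
          exact h2)
      rw [Finset.sum_insert hnot] at key
      have hpos : 0 < ang p (ptT (rot a')) (ptT (unrot a')) := by
        have h1 := ccw_ptT hT' (a := a') ht'
        have h2 : ptT a' = p := hj
        rw [h2] at h1
        exact ang_pos h1
      have e1 : ∑ a ∈ A, cang ptT a = ∑ a ∈ A, ang p (ptT (rot a)) (ptT (unrot a)) := by
        refine Finset.sum_congr rfl fun a ha => ?_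
        unfold cang
        rw [(hA' a (Finset.mem_insert_of_mem ha)).2]
      rw [e1]
      linarith

end AG

end
end
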