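import Pool.Agent.Helper16.VGG.G02
import Pool.Agent.Helper16.VGG.G04
import Pool.Agent.Helper16.VGG.G05
import Pool.Agent.Helper16.VGG.G07
import Pool.Agent.Helper16.VGG.G08

/- AG.S8.FlipBl -/
section
/-!
# Project AG, section 8: blades which do not touch the flipped triangles persist   (helper86)

`a` is the flipped side, `b = S.g a`.
-/

set_option linter.unusedSectionVars false

namespace AG

open Finset

variable {I : Type} [DecidableEq I]

theorem sigF_of_fst {a b c : Sd I} (h1 : c.1 ≠ a.1) (h2 : c.1 ≠ b.1) : sigF a b c = c :=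
  sigF_other (ne_of_fst h1) (ne_of_fst (d := rot a) h1) (ne_of_fst h2) (ne_of_fst (d := rot b) h2)

theorem sigB_of_fst {a b c : Sd I} (h1 : c.1 ≠ a.1) (h2 : c.1 ≠ b.1) : sigB a b c = c :=
  sigB_other (ne_of_fst h1) (ne_of_fst (d := rot a) h1) (ne_of_fst h2) (ne_of_fst (d := rot b) h2)

/-- the flipped triangles are permuted among themselves -/
theorem sigF_fst_mem {a b c : Sd I} (h : c.1 = a.1 ∨ c.1 = b.1) :
    (sigF a b c).1 = a.1 ∨ (sigF a b c).1 = b.1 := by
  unfold sigF
  split_ifs <;> simp_all

namespace Obj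

section
variable {S : Obj I} {a : Sd I} (h : S.Flippable a)

theorem flip_g_of_fst {c : Sd I} (h1 : c.1 ≠ a.1) (h2 : c.1 ≠ (S.g a).1) :
    (S.flip a h).g c = sigF a (S.g a) (S.g c) := by
  rw [flip_g, sigB_of_fst h1 h2]

theorem flip_g_eq {c : Sd I} (h1 : c.1 ≠ a.1) (h2 : c.1 ≠ (S.g a).1) (h3 : (S.g c).1 ≠ a.1)
    (h4 : (S.g c).1 ≠ (S.g a).1) : (S.flip a h).g c = S.g c := by
  rw [flip_g_of_fst h h1 h2, sigF_of_fst h3 h4]

theorem flip_glued_iff {c : Sd I} (h1 : c.1 ≠ a.1) (h2 : c.1 ≠ (S.g a).1) :
    (S.flip a h).g c = c ↔ S.g c = c := by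
  rw [flip_g_of_fst h h1 h2]
  constructor
  · intro e
    by_cases h3 : (S.g c).1 = a.1 ∨ (S.g c).1 = (S.g a).1
    · rcases sigF_fst_mem h3 with h4 | h4
      · rw [e] at h4; exact absurd h4 h1
      · rw [e] at h4; exact absurd h4 h2
    · rw [not_or] at h3
      rwa [sigF_of_fst h3.1 h3.2] at e
  · intro e
    rw [e, sigF_of_fst h1 h2]

theorem flip_E_of_fst {c : Sd I} (h1 : c.1 ≠ a.1) (h2 : c.1 ≠ (S.g a).1) :
    c ∈ (S.flip a h).E ↔ c ∈ S.E := by
  have := flip_E h c
  rwa [sigF_of_fst h1 h2] at this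

theorem flip_face {t : I} (h1 : t ≠ a.1) (h2 : t ≠ (S.g a).1) :
    (S.flip a h).Face t ↔ S.Face t := by
  unfold Face
  rw [flip_F]
  refine and_congr Iff.rfl (forall_congr' fun i => ?_)
  exact not_congr (flip_glued_iff h (c := (t, i)) h1 h2)

theorem flip_glued_sig {d : Sd I} :
    (S.flip a h).g (sigF a (S.g a) d) = sigF a (S.g a) d ↔ S.g d = d := by
  rw [flip_g_sig]
  constructor
  · intro e
    exact (sig a (S.g a) h.ne).injective e
  · intro e; rw [e]

/-- if both triangles are faces, they are faces after the flip -/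
theorem flip_face_self (ha : S.Face a.1) (hb : S.Face (S.g a).1) :
    (S.flip a h).Face a.1 ∧ (S.flip a h).Face (S.g a).1 := by
  have hne := h.ne
  have key : ∀ c : Sd I, c.1 = a.1 ∨ c.1 = (S.g a).1 → (S.flip a h).g c ≠ c := by
    intro c hc
    obtain ⟨d, rfl⟩ : ∃ d, sigF a (S.g a) d = c := ⟨sigB a (S.g a) c, sigF_sigB hne c⟩
    intro e
    rw [flip_glued_sig] at e
    by_cases h3 : d.1 = a.1 ∨ d.1 = (S.g a).1
    · rcases h3 with h3 | h3
      · exact ha.2 d.2 (by rw [← h3]; exact e)
      · exact hb.2 d.2 (by rw [← h3]; exact e)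
    · rw [not_or] at h3
      rw [sigF_of_fst h3.1 h3.2] at hc
      rcases hc with hc | hc
      · exact h3.1 hc
      · exact h3.2 hc
  exact ⟨⟨ha.1, fun i => key (a.1, i) (Or.inl rfl)⟩, ⟨hb.1, fun i => key ((S.g a).1, i) (Or.inr rfl)⟩⟩

theorem flip_blade {c : Sd I} (h1 : c.1 ≠ a.1) (h2 : c.1 ≠ (S.g a).1) :
    (S.flip a h).Blade c ↔ S.Blade c := by
  unfold Blade
  rw [ne_eq, ne_eq, flip_glued_iff h h1 h2, flip_glued_iff h (c := unrot c) h1 h2,
    flip_glued_iff h (c := rot c) h1 h2, flip_E_of_fst h (c := rot c) h1 h2]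

/-- `c` is a corner of a triangle which is not flipped -/
def Off (S : Obj I) (a c : Sd I) : Prop := c.1 ≠ a.1 ∧ c.1 ≠ (S.g a).1

theorem Off.of_fst {S : Obj I} {a c d : Sd I} (h : S.Off a c) (hd : d.1 = c.1) : S.Off a d :=
  ⟨by rw [hd]; exact h.1, by rw [hd]; exact h.2⟩

theorem Off.rot {S : Obj I} {a c : Sd I} (h : S.Off a c) : S.Off a (rot c) := h
theorem Off.unrot {S : Obj I} {a c : Sd I} (h : S.Off a c) : S.Off a (unrot c) := h

theorem off_flip_g {c : Sd I} (hc : S.Off a c) (hg : S.Off a (S.g c)) :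
    (S.flip a h).g c = S.g c := flip_g_eq h hc.1 hc.2 hg.1 hg.2

theorem flip_active {c : Sd I} (hc : S.Off a c) (hg : S.Off a (S.g c)) :
    (S.flip a h).Active c ↔ S.Active c := by
  unfold Active
  rw [off_flip_g h hc hg, flip_face h hg.1 hg.2]

variable (pt : Sd I → Pt)

theorem flip_cang {c : Sd I} (hc : S.Off a c) : cang (flipPt pt a (S.g a)) c = cang pt c :=
  Geo.cang_flip_other hc.1 hc.2

theorem flip_blk {c : Sd I} (hc : S.Off a c) (hg : S.Off a (S.g c)) :
    (S.flip a h).Blk (flipPt pt a (S.g a)) c ↔ S.Blk pt c := by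
  unfold Obj.Blk AG.Blk
  rw [off_flip_g h hc hg, flip_cang pt hc, flip_cang pt hg.rot]

theorem flip_isU {c : Sd I} (hc : S.Off a c) (hg : S.Off a (S.g c)) :
    (S.flip a h).IsU (flipPt pt a (S.g a)) c ↔ S.IsU pt c := by
  unfold Obj.IsU
  have e := off_flip_g h hc hg
  constructor
  · rintro ⟨h1, h2, h3⟩
    rw [e] at h1 h2 h3
    rw [flip_cang pt hc, flip_cang pt hg.rot] at h2
    rw [flip_cang pt hg, flip_cang pt hc.rot] at h3
    exact ⟨h1, h2, h3⟩
  · rintro ⟨h1, h2, h3⟩
    refine ⟨by rw [e]; exact h1, ?_, ?_⟩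
    · rw [e, flip_cang pt hc, flip_cang pt hg.rot]; exact h2
    · rw [e, flip_cang pt hg, flip_cang pt hc.rot]; exact h3

theorem flip_pairAt {c : Sd I} (hc : S.Off a c) (hg : S.Off a (S.g c))
    (hg' : S.Off a (S.g (unrot c))) :
    (S.flip a h).PairAt (flipPt pt a (S.g a)) c ↔ S.PairAt pt c := by
  have e := off_flip_g h hc.unrot hg'
  have k1 := flip_blk h pt hc hg
  have k2 := flip_blk h pt (c := S.g (unrot c)) hg' (by rw [S.invol]; exact hc.unrot)
  unfold Obj.Blk at k1 k2
  constructor
  · rintro ⟨h1, h2⟩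
    rw [e] at h2
    exact ⟨k1.1 h1, k2.1 h2⟩
  · rintro ⟨h1, h2⟩
    exact ⟨k1.2 h1, by rw [e]; exact k2.2 h2⟩

theorem flip_candA {c : Sd I} (hc : S.Off a c) (hg : S.Off a (S.g c))
    (hg' : S.Off a (S.g (unrot c))) :
    (S.flip a h).CandA (flipPt pt a (S.g a)) c ↔ S.CandA pt c := by
  unfold CandA
  rw [flip_blade h hc.1 hc.2, flip_active h hc hg, flip_isU h pt hc hg, flip_pairAt h pt hc hg hg',
    flip_active h hc.unrot hg']

theorem flip_candB {c : Sd I} (hc : S.Off a c) (hg : S.Off a (S.g c))
    (hg' : S.Off a (S.g (rot c))) :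
    (S.flip a h).CandB (flipPt pt a (S.g a)) c ↔ S.CandB pt c := by
  unfold CandB
  rw [flip_blade h hc.rot.1 hc.rot.2, flip_active h hc hg, flip_isU h pt hc hg,
    flip_pairAt h pt (c := AG.rot c) hc.rot hg' (by rw [unrot_rot]; exact hg),
    flip_active h hc.rot hg']

theorem flip_virtA {u : Sd I} (hu : S.Off a u) (hg : S.Off a (S.g (rot u)))
    (hg' : S.Off a (S.g (unrot (S.g (rot u))))) :
    (S.flip a h).VirtA (flipPt pt a (S.g a)) u ↔ S.VirtA pt u := by
  unfold VirtA
  rw [off_flip_g h hu.rot hg]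
  exact flip_candA h pt hg (by rw [S.invol]; exact hu.rot) hg'

theorem flip_virtB {u : Sd I} (hu : S.Off a u) (hg : S.Off a (S.g (rot u)))
    (hg' : S.Off a (S.g (rot (S.g (rot u))))) :
    (S.flip a h).VirtB (flipPt pt a (S.g a)) u ↔ S.VirtB pt u := by
  unfold VirtB
  rw [off_flip_g h hu.rot hg]
  exact flip_candB h pt hg (by rw [S.invol]; exact hu.rot) hg'

end

end Obj

end AG
end

/- Helper85.AG.EmptyTri -/
section
/-!
# Empty triangles on both sides of the edges
-/

namespace Helper85.AG

namespace Cfg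

variable (G : Cfg)

theorem crs_ab_co {a b c : Pt} (h : crs a b c ≠ 0) (p : Pt) : crs a b p = coT a b c p * crs a b c := by
  simp only [coT]; field_simp

theorem crs_ca_co {a b c : Pt} (h : crs a b c ≠ 0) (p : Pt) : crs c a p = coS a b c p * crs a b c := by
  simp only [coS]; field_simp; simp only [crs]; ring

theorem crs_bc_co {a b c : Pt} (h : crs a b c ≠ 0) (p : Pt) :
    crs b c p = (1 - coS a b c p - coT a b c p) * crs a b c := by
  have h1 := crs_ab_co h p
  have h2 := crs_ca_co h p
  have h3 := crs_sum a b c p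
  linarith

theorem mem_Tri_co {a b c : Pt} (h : 0 < crs a b c) (p : Pt) :
    p ∈ Tri a b c ↔ 0 ≤ coS a b c p ∧ 0 ≤ coT a b c p ∧ coS a b c p + coT a b c p ≤ 1 := by
  simp only [Tri, Set.mem_ofPred_eq]
  rw [crs_ab_co h.ne', crs_bc_co h.ne', crs_ca_co h.ne']
  constructor
  · rintro ⟨h1, h2, h3⟩
    refine ⟨nonneg_of_mul_nonneg_left h3 h, nonneg_of_mul_nonneg_left h1 h, ?_⟩
    have := nonneg_of_mul_nonneg_left h2 h
    linarith
  · rintro ⟨h1, h2, h3⟩
    refine ⟨mul_nonneg h2 h.le, mul_nonneg (by linarith) h.le, mul_nonneg h1 h.le⟩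

/-- An edge cannot enter the corner at `a`. -/
theorem no_enter {a b c u v r : Pt} (hab : G.E a b) (hac : G.E a c) (hD : crs a b c ≠ 0)
    (huv : G.E u v) (hr : r ∈ openSegment ℝ u v) (hs : 0 < coS a b c r) (ht : 0 < coT a b c r)
    (hg : coS a b c r + coT a b c r ≤ 1) (hu : coS a b c u < 0 ∨ coT a b c u < 0)
    (hgu : coS a b c u + coT a b c u < 1) (hua : u ≠ a) (hva : v ≠ a) : False := by
  set s := coS a b c with hsdef
  set t := coT a b c with htdef
  obtain ⟨l, l0, l1, hall, i, hi, he⟩ := exit_time ![s r, t r] ![s u, t u]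
    (by intro i; fin_cases i <;> simp <;> linarith)
    (by rcases hu with h | h
        · exact ⟨0, by simpa using h⟩
        · exact ⟨1, by simpa using h⟩)
  have f0 : 0 ≤ (1 - l) * s r + l * s u := by simpa using hall 0
  have f1 : 0 ≤ (1 - l) * t r + l * t u := by simpa using hall 1
  have hlpos : 0 < l := by
    rcases lt_or_eq_of_le l0 with h | h
    · exact h
    · exfalso
      rw [← h] at he
      fin_cases i
      · simp at he; linarith
      · simp at he; linarith
  set r' := (1 - l) • r + l • u with hr'def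
  have e3 : s r' = (1 - l) * s r + l * s u := coS_comb hr'def
  have e4 : t r' = (1 - l) * t r + l * t u := coT_comb hr'def
  have hr'o : r' ∈ openSegment ℝ u v := mem_open_of_between hr l0 l1
  have hg' : s r' + t r' < 1 := by rw [e3, e4]; nlinarith
  have heq' := co_eq hD r'
  change r' = (1 - s r' - t r') • a + s r' • b + t r' • c at heq'
  have ha := G.mem hab
  have hau : r' ≠ a := fun h => G.noV huv ha (h ▸ hr'o)
  have side1 : t r' = 0 → False := by
    intro h0
    rw [h0, zero_smul, add_zero, sub_zero] at heq'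
    have h1 : 0 ≤ s r' := by rw [e3]; exact f0
    rcases lt_or_eq_of_le h1 with h2 | h2
    · have h3 : r' ∈ openSegment ℝ a b := mem_openSegment_iff_param.2 ⟨s r', h2, by linarith, heq'⟩
      rcases G.cross huv hab hr'o h3 with ⟨h, -⟩ | ⟨-, h⟩
      · exact hua h
      · exact hva h
    · rw [← h2] at heq'
      apply hau
      simpa using heq'
  have side2 : s r' = 0 → False := by
    intro h0
    rw [h0, zero_smul, add_zero, sub_zero] at heq'
    have h1 : 0 ≤ t r' := by rw [e4]; exact f1
    rcases lt_or_eq_of_le h1 with h2 | h2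
    · have h3 : r' ∈ openSegment ℝ a c := mem_openSegment_iff_param.2 ⟨t r', h2, by linarith, heq'⟩
      rcases G.cross huv hac hr'o h3 with ⟨h, -⟩ | ⟨-, h⟩
      · exact hua h
      · exact hva h
    · rw [← h2] at heq'
      apply hau
      simpa using heq'
  fin_cases i
  · apply side2; rw [e3]; simpa using he
  · apply side1; rw [e4]; simpa using he

/-- The first edge at `a` to the left of `a b`. -/
theorem exists_first {a b w0 : Pt} (ha : a ∈ G.V) (hw0 : w0 ∈ G.V) (h : 0 < crs a b w0) :
    ∃ c, G.E a c ∧ 0 < crs a b c ∧ ∀ d, G.E a d → 0 < crs a b d → 0 ≤ crs a c d := by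
  classical
  obtain ⟨c0, hc0, hc0'⟩ := G.exists_edge_left ha hw0 h
  let N : Finset Pt := G.V.filter (fun c => G.E a c ∧ 0 < crs a b c)
  let κ : Pt → ℝ := fun c => ((c.1 - a.1) * (b.1 - a.1) + (c.2 - a.2) * (b.2 - a.2)) / crs a b c
  obtain ⟨c, hc, hmax⟩ := N.exists_max_image κ ⟨c0, by simp [N, hc0, hc0', G.mem (G.symm hc0)]⟩
  have hc' : c ∈ G.V ∧ G.E a c ∧ 0 < crs a b c := by simpa [N] using hc
  refine ⟨c, hc'.2.1, hc'.2.2, ?_⟩
  intro d hd hd'
  have h1 := hmax d (by simp [N, hd, hd', G.mem (G.symm hd)])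
  simp only [κ] at h1
  rw [div_le_div_iff₀ hd' hc'.2.2] at h1
  have hL : 0 < (b.1 - a.1) ^ 2 + (b.2 - a.2) ^ 2 := by
    by_contra hc
    push Not at hc
    have h2 : b.1 - a.1 = 0 := by nlinarith [sq_nonneg (b.1 - a.1), sq_nonneg (b.2 - a.2)]
    have h3 : b.2 - a.2 = 0 := by nlinarith [sq_nonneg (b.1 - a.1), sq_nonneg (b.2 - a.2)]
    simp [crs, h2, h3] at hd'
  have h2 : crs a c d * ((b.1 - a.1) ^ 2 + (b.2 - a.2) ^ 2) =
      ((c.1 - a.1) * (b.1 - a.1) + (c.2 - a.2) * (b.2 - a.2)) * crs a b d
      - ((d.1 - a.1) * (b.1 - a.1) + (d.2 - a.2) * (b.2 - a.2)) * crs a b c := by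
    simp only [crs]; ring
  by_contra hcon
  push Not at hcon
  have := mul_neg_of_neg_of_pos hcon hL
  linarith

/-- The empty triangle to the left of the edge `a b`. -/
theorem exists_tri {a b w0 : Pt} (hab : G.E a b) (hw0 : w0 ∈ G.V) (h : 0 < crs a b w0) :
    ∃ c, G.E a c ∧ G.E b c ∧ 0 < crs a b c ∧ ∀ v ∈ G.V, v ∈ Tri a b c → v = a ∨ v = b ∨ v = c := by
  classical
  have ha := G.mem hab
  have hb := G.mem (G.symm hab)
  obtain ⟨c, hac, hD0, hfirst⟩ := G.exists_first ha hw0 h
  have hD : crs a b c ≠ 0 := hD0.ne'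
  have hcV := G.mem (G.symm hac)
  have hne_ab := G.ne hab
  have hne_ac := G.ne hac
  have hne_bc : b ≠ c := by rintro rfl; rw [crs_self_right] at hD0; exact lt_irrefl _ hD0
  set s := coS a b c with hsdef
  set t := coT a b c with htdef
  have sa : s a = 0 := (co_left hD).1
  have ta : t a = 0 := (co_left hD).2
  have sb : s b = 1 := (co_q hD).1
  have tb : t b = 0 := (co_q hD).2
  have sc : s c = 0 := (co_x hD).1
  have tc : t c = 1 := (co_x hD).2
  -- an edge from a with positive coordinates is impossible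
  have hfirst' : ∀ d, G.E a d → 0 < s d → 0 < t d → False := by
    intro d hd h1 h2
    have h3 : 0 < crs a b d := by rw [crs_ab_co hD]; exact mul_pos h2 hD0
    have h4 := hfirst d hd h3
    have h5 := crs_ca_co hD d
    rw [crs_swap] at h5
    have := mul_pos h1 hD0
    change -crs a c d = s d * crs a b c at h5
    linarith
  let W : Finset Pt := G.V.filter (fun w => 0 ≤ s w ∧ 0 ≤ t w ∧ s w + t w ≤ 1 ∧ w ≠ a ∧ w ≠ b ∧ w ≠ c)
  have hW : ∀ {w}, w ∈ W ↔ w ∈ G.V ∧ 0 ≤ s w ∧ 0 ≤ t w ∧ s w + t w ≤ 1 ∧ w ≠ a ∧ w ≠ b ∧ w ≠ c := by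
    intro w; simp [W]
  have hWe : ∀ w, w ∉ W := by
    intro w0' hw0'
    obtain ⟨w, hw, hmin⟩ := W.exists_min_image (fun w => s w + t w) ⟨w0', hw0'⟩
    obtain ⟨hwV, hs, ht, hst, hwa, hwb, hwc⟩ := hW.1 hw
    have hew := co_eq hD w
    change w = (1 - s w - t w) • a + s w • b + t w • c at hew
    have htw : 0 < t w := by
      rcases lt_or_eq_of_le ht with h1 | h1
      · exact h1
      · exfalso
        rw [← h1, zero_smul, add_zero, sub_zero] at hew
        have h2 : s w ≠ 0 := by intro h2; apply hwa; rw [hew, h2]; simp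
        have h3 : s w ≠ 1 := by intro h3; apply hwb; rw [hew, h3]; simp
        have h4 : s w ≤ 1 := by linarith
        exact G.noV hab hwV (mem_openSegment_iff_param.2 ⟨s w, lt_of_le_of_ne hs h2.symm,
          lt_of_le_of_ne h4 h3, hew⟩)
    have hsw : 0 < s w := by
      rcases lt_or_eq_of_le hs with h1 | h1
      · exact h1
      · exfalso
        rw [← h1, zero_smul, add_zero, sub_zero] at hew
        have h2 : t w ≠ 0 := htw.ne'
        have h3 : t w ≠ 1 := by intro h3; apply hwc; rw [hew, h3]; simp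
        have h4 : t w ≤ 1 := by linarith
        exact G.noV hac hwV (mem_openSegment_iff_param.2 ⟨t w, htw, lt_of_le_of_ne h4 h3, hew⟩)
    have hnoV : ∀ v ∈ G.V, v ∉ openSegment ℝ a w := by
      intro v hv hv'
      obtain ⟨k, k0, k1, hk⟩ := mem_openSegment_iff_param.1 hv'
      have e1 : s v = k * s w := by have : s v = (1 - k) * s a + k * s w := coS_comb hk
                                    rw [this, sa]; ring
      have e2 : t v = k * t w := by have : t v = (1 - k) * t a + k * t w := coT_comb hk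
                                    rw [this, ta]; ring
      have h1 : 0 < s v := by rw [e1]; positivity
      have h2 : 0 < t v := by rw [e2]; positivity
      have hvW : v ∈ W := by
        rw [hW]
        refine ⟨hv, h1.le, h2.le, by rw [e1, e2]; nlinarith, ?_, ?_, ?_⟩
        · rintro rfl; rw [sa] at h1; exact lt_irrefl _ h1
        · rintro rfl; rw [tb] at h2; exact lt_irrefl _ h2
        · rintro rfl; rw [sc] at h1; exact lt_irrefl _ h1
      have := hmin v hvW
      rw [e1, e2] at this
      nlinarith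
    have hEaw : G.E a w := by
      refine G.max ha hwV hwa.symm hnoV ?_
      intro u v r huv hr hr'
      by_contra hne
      have ho := G.opp ha hwV hwa.symm hnoV huv hr hr' hne
      have hua : u ≠ a := by
        rintro rfl
        rw [crs_self_left] at ho
        rcases ho with ⟨h1, -⟩ | ⟨h1, -⟩ <;> exact lt_irrefl _ h1
      have hva : v ≠ a := by
        rintro rfl
        rw [crs_self_left] at ho
        rcases ho with ⟨-, h1⟩ | ⟨-, h1⟩ <;> exact lt_irrefl _ h1
      obtain ⟨k, k0, k1, hk⟩ := mem_openSegment_iff_param.1 hr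
      have e1 : s r = k * s w := by have : s r = (1 - k) * s a + k * s w := coS_comb hk
                                    rw [this, sa]; ring
      have e2 : t r = k * t w := by have : t r = (1 - k) * t a + k * t w := coT_comb hk
                                    rw [this, ta]; ring
      have h1 : 0 < s r := by rw [e1]; positivity
      have h2 : 0 < t r := by rw [e2]; positivity
      have h3 : s r + t r < s w + t w := by rw [e1, e2]; nlinarith
      have main : ∀ u v, G.E u v → r ∈ openSegment ℝ u v → u ≠ a → v ≠ a → s u + t u ≤ s r + t r →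
          False := by
        intro u v huv hr' hua hva hgu
        refine G.no_enter hab hac hD huv hr' h1 h2 (by linarith) ?_ (by linarith) hua hva
        by_contra hcon
        push Not at hcon
        obtain ⟨c1, c2⟩ := hcon
        have huW : u ∈ W := by
          rw [hW]
          refine ⟨G.mem huv, c1, c2, by linarith, hua, ?_, ?_⟩
          · rintro rfl; rw [sb, tb] at hgu; linarith
          · rintro rfl; rw [sc, tc] at hgu; linarith
        have := hmin u huW
        linarith
      obtain ⟨m, m0, m1, hm⟩ := mem_openSegment_iff_param.1 hr'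
      have e3 : s r = (1 - m) * s u + m * s v := coS_comb hm
      have e4 : t r = (1 - m) * t u + m * t v := coT_comb hm
      by_cases hgu : s u + t u ≤ s r + t r
      · exact main u v huv hr' hua hva hgu
      · refine main v u (G.symm huv) (by rw [openSegment_symm]; exact hr') hva hua ?_
        push Not at hgu
        by_contra hcon
        push Not at hcon
        have h5 : (1 - m) * (s r + t r) < (1 - m) * (s u + t u) :=
          mul_lt_mul_of_pos_left hgu (by linarith)
        have h6 : m * (s r + t r) < m * (s v + t v) := mul_lt_mul_of_pos_left hcon m0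
        linarith
    exact hfirst' w hEaw hsw htw
  refine ⟨c, hac, ?_, hD0, ?_⟩
  · -- E b c
    have hbcV : ∀ v ∈ G.V, v ∉ openSegment ℝ b c := by
      intro v hv hv'
      obtain ⟨k, k0, k1, hk⟩ := mem_openSegment_iff_param.1 hv'
      have e1 : s v = (1 - k) := by have : s v = (1 - k) * s b + k * s c := coS_comb hk
                                    rw [this, sb, sc]; ring
      have e2 : t v = k := by have : t v = (1 - k) * t b + k * t c := coT_comb hk
                              rw [this, tb, tc]; ring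
      apply hWe v
      rw [hW]
      refine ⟨hv, by rw [e1]; linarith, by rw [e2]; linarith, by rw [e1, e2]; linarith, ?_, ?_, ?_⟩
      · rintro rfl; rw [ta] at e2; linarith
      · rintro rfl; rw [tb] at e2; linarith
      · rintro rfl; rw [tc] at e2; linarith
    refine G.max hb hcV hne_bc hbcV ?_
    intro u v r huv hr hr'
    by_contra hne
    have ho := G.opp hb hcV hne_bc hbcV huv hr hr' hne
    obtain ⟨k, k0, k1, hk⟩ := mem_openSegment_iff_param.1 hr
    have e1 : s r = (1 - k) := by have : s r = (1 - k) * s b + k * s c := coS_comb hk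
                                  rw [this, sb, sc]; ring
    have e2 : t r = k := by have : t r = (1 - k) * t b + k * t c := coT_comb hk
                            rw [this, tb, tc]; ring
    have main : ∀ u v, G.E u v → r ∈ openSegment ℝ u v → 0 < crs b c u → crs b c v < 0 → False := by
      intro u v huv hr' hu hv
      rw [crs_bc_co hD] at hu hv
      change 0 < (1 - s u - t u) * crs a b c at hu
      change (1 - s v - t v) * crs a b c < 0 at hv
      have hu' : s u + t u < 1 := by
        by_contra hc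
        push Not at hc
        have := mul_nonpos_of_nonpos_of_nonneg (show 1 - s u - t u ≤ 0 by linarith) hD0.le
        linarith
      have hv' : 1 < s v + t v := by
        by_contra hc
        push Not at hc
        have := mul_nonneg (show 0 ≤ 1 - s v - t v by linarith) hD0.le
        linarith
      have hva : v ≠ a := by rintro rfl; rw [sa, ta] at hv'; linarith
      obtain ⟨m, m0, m1, hm⟩ := mem_openSegment_iff_param.1 hr'
      have e3 : s r = (1 - m) * s u + m * s v := coS_comb hm
      have e4 : t r = (1 - m) * t u + m * t v := coT_comb hm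
      by_cases hua : u = a
      · rw [hua, sa, mul_zero, zero_add] at e3
        rw [hua, ta, mul_zero, zero_add] at e4
        have h5 : 0 < s v := by
          by_contra hc
          push Not at hc
          have := mul_nonpos_of_nonneg_of_nonpos m0.le hc
          linarith
        have h6 : 0 < t v := by
          by_contra hc
          push Not at hc
          have := mul_nonpos_of_nonneg_of_nonpos m0.le hc
          linarith
        exact hfirst' v (hua ▸ huv) h5 h6
      · refine G.no_enter hab hac hD huv hr' (by change 0 < s r; rw [e1]; linarith)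
          (by change 0 < t r; rw [e2]; linarith) (by change s r + t r ≤ 1; rw [e1, e2]; linarith) ?_ hu'
          hua hva
        by_contra hcon
        push Not at hcon
        obtain ⟨c1, c2⟩ := hcon
        apply hWe u
        rw [hW]
        refine ⟨G.mem huv, c1, c2, hu'.le, hua, ?_, ?_⟩
        · rintro rfl; rw [sb, tb] at hu'; linarith
        · rintro rfl; rw [sc, tc] at hu'; linarith
    rcases ho with ⟨h1, h2⟩ | ⟨h1, h2⟩
    · exact main u v huv hr' h1 h2
    · exact main v u (G.symm huv) (by rw [openSegment_symm]; exact hr') h2 h1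
  · intro v hv hvT
    rw [mem_Tri_co hD0] at hvT
    by_contra hcon
    push Not at hcon
    exact hWe v (hW.2 ⟨hv, hvT.1, hvT.2.1, hvT.2.2, hcon.1, hcon.2.1, hcon.2.2⟩)

end Cfg

end Helper85.AG
end

/- Helper85.AG.Tri2 -/
section
/-!
# Empty triangles: no edge enters, uniqueness, cover
-/

namespace Helper85.AG

namespace Cfg

variable (G : Cfg)

/-- `a b c` is a positively oriented empty triangle of the plane graph. -/
structure IsT (a b c : Pt) : Prop where
  ab : G.E a b
  bc : G.E b c
  ac : G.E a c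
  pos : 0 < crs a b c
  empty : ∀ v ∈ G.V, v ∈ Tri a b c → v = a ∨ v = b ∨ v = c

variable {G}

theorem Tri_rot (a b c : Pt) : Tri b c a = Tri a b c := by
  ext p
  simp only [Tri, Set.mem_ofPred_eq]
  constructor
  · rintro ⟨h1, h2, h3⟩; exact ⟨h3, h1, h2⟩
  · rintro ⟨h1, h2, h3⟩; exact ⟨h2, h3, h1⟩

theorem IsT.rot {a b c : Pt} (h : G.IsT a b c) : G.IsT b c a where
  ab := h.bc
  bc := G.symm h.ac
  ac := G.symm h.ab
  pos := by rw [crs_rot]; exact h.pos
  empty := by
    intro v hv hvT
    rw [Tri_rot] at hvT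
    rcases h.empty v hv hvT with h1 | h1 | h1
    · exact Or.inr (Or.inr h1)
    · exact Or.inl h1
    · exact Or.inr (Or.inl h1)

theorem IsT.ne_ab {a b c : Pt} (h : G.IsT a b c) : a ≠ b := G.ne h.ab
theorem IsT.ne_bc {a b c : Pt} (h : G.IsT a b c) : b ≠ c := G.ne h.bc
theorem IsT.ne_ac {a b c : Pt} (h : G.IsT a b c) : a ≠ c := G.ne h.ac

/-- Points of an open segment with ends in the closed triangle are in the triangle. -/
theorem Tri_convex {a b c u v p : Pt} (hu : u ∈ Tri a b c) (hv : v ∈ Tri a b c)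
    (hp : p ∈ openSegment ℝ u v) : p ∈ Tri a b c := by
  obtain ⟨s, t, hs, ht, hst, rfl⟩ := hp
  refine ⟨?_, ?_, ?_⟩
  · rw [crs_aff _ _ _ _ _ _ hst]
    exact add_nonneg (mul_nonneg hs.le hu.1) (mul_nonneg ht.le hv.1)
  · rw [crs_aff _ _ _ _ _ _ hst]
    exact add_nonneg (mul_nonneg hs.le hu.2.1) (mul_nonneg ht.le hv.2.1)
  · rw [crs_aff _ _ _ _ _ _ hst]
    exact add_nonneg (mul_nonneg hs.le hu.2.2) (mul_nonneg ht.le hv.2.2)

/-- No edge meets the open triangle. -/
theorem IsT.no_edge {a b c u v p : Pt} (h : G.IsT a b c) (huv : G.E u v) (hp : p ∈ openSegment ℝ u v)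
    (h1 : 0 < crs a b p) (h2 : 0 < crs b c p) (h3 : 0 < crs c a p) : False := by
  -- the ends of the edge are vertices of the triangle
  have key : ∀ u v, G.E u v → p ∈ openSegment ℝ u v → u = a ∨ u = b ∨ u = c := by
    intro u v huv hp
    by_cases hu : u ∈ Tri a b c
    · exact h.empty u (G.mem huv) hu
    · exfalso
      have hpT : p ∈ Tri a b c := ⟨h1.le, h2.le, h3.le⟩
      obtain ⟨t, t0, t1, hT, hcase⟩ := exit_tri hpT hu
      set r := (1 - t) • p + t • u with hr
      have hro : r ∈ openSegment ℝ u v := mem_open_of_between hp t0 t1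
      have side : ∀ {a b c : Pt}, G.IsT a b c → r ∈ Tri a b c → 0 < crs a b p → crs a b r = 0 → False := by
        intro a b c h hT hpos h0
        have hra : r ≠ a := fun he => G.noV huv (G.mem h.ab) (he ▸ hro)
        have hrb : r ≠ b := fun he => G.noV huv (G.mem h.bc) (he ▸ hro)
        have hro' := mem_openSegment_of_tri h.pos hT h0 hra hrb
        have hpo : p ∈ openSegment ℝ a b := by
          rcases G.cross huv h.ab hro hro' with ⟨h4, h5⟩ | ⟨h4, h5⟩
          · rw [← h4, ← h5]; exact hp
          · rw [← h4, ← h5, openSegment_symm]; exact hp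
        rw [crs_open_self hpo] at hpos
        exact lt_irrefl _ hpos
      rcases hcase with ⟨-, h0⟩ | ⟨-, h0⟩ | ⟨-, h0⟩
      · exact side h hT h1 h0
      · exact side h.rot (by rw [Tri_rot]; exact hT) h2 h0
      · exact side h.rot.rot (by rw [Tri_rot, Tri_rot]; exact hT) h3 h0
  have hu := key u v huv hp
  have hv := key v u (G.symm huv) (by rw [openSegment_symm]; exact hp)
  have z1 : p ∉ openSegment ℝ a b := fun hh => by rw [crs_open_self hh] at h1; exact lt_irrefl _ h1
  have z2 : p ∉ openSegment ℝ b c := fun hh => by rw [crs_open_self hh] at h2; exact lt_irrefl _ h2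
  have z3 : p ∉ openSegment ℝ c a := fun hh => by rw [crs_open_self hh] at h3; exact lt_irrefl _ h3
  have hne := G.ne huv
  rcases hu with rfl | rfl | rfl <;> rcases hv with rfl | rfl | rfl
  · exact hne rfl
  · exact z1 hp
  · exact z3 (by rw [openSegment_symm]; exact hp)
  · exact z1 (by rw [openSegment_symm]; exact hp)
  · exact hne rfl
  · exact z2 hp
  · exact z3 hp
  · exact z2 (by rw [openSegment_symm]; exact hp)
  · exact hne rfl

/-- Uniqueness of the triangle to the left of an edge. -/
theorem IsT.unique {a b c d : Pt} (h : G.IsT a b c) (h' : G.IsT a b d) : c = d := by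
  by_contra hcd
  -- `crs a c d` decides which of the two is first at `a`
  have main : ∀ {c d : Pt}, G.IsT a b c → G.IsT a b d → c ≠ d → 0 ≤ crs a d c → False := by
    intro c d h h' hcd hs
    -- d is in the angle of `a b c` at `a`; `d` is not in the triangle, so `a d` crosses `b c`
    have hD := h.pos
    have hD' := hD.ne'
    have hdV := G.mem (G.symm h'.bc)
    have ht : 0 < coT a b c d := by
      have := crs_ab_co hD' d
      have h1 := h'.pos
      rw [this] at h1
      by_contra hc
      push Not at hc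
      have := mul_nonpos_of_nonpos_of_nonneg hc hD.le
      linarith
    have hs' : 0 ≤ coS a b c d := by
      have := crs_ca_co hD' d
      rw [show crs c a d = crs a d c from by simp only [crs]; ring] at this
      rw [this] at hs
      exact nonneg_of_mul_nonneg_left hs hD
    have hdT : d ∉ Tri a b c := by
      intro hT
      rcases h.empty d hdV hT with h1 | h1 | h1
      · exact (G.ne h'.ac) h1.symm
      · exact (G.ne h'.bc) h1.symm
      · exact hcd h1.symm
    have hsum : 1 < coS a b c d + coT a b c d := by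
      by_contra hc
      push Not at hc
      exact hdT ((mem_Tri_co hD d).2 ⟨hs', ht.le, hc⟩)
    set σ := coS a b c d + coT a b c d with hσ
    have hσ0 : 0 < σ := by linarith
    -- the crossing point
    set p : Pt := (1 - 1 / σ) • a + (1 / σ) • d with hp
    have hpad : p ∈ openSegment ℝ a d :=
      mem_openSegment_iff_param.2 ⟨1 / σ, by positivity, by rw [div_lt_one hσ0]; exact hsum, hp⟩
    have e1 : coS a b c p = coS a b c d / σ := by
      rw [coS_comb hp, (co_left hD').1]; ring
    have e2 : coT a b c p = coT a b c d / σ := by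
      rw [coT_comb hp, (co_left hD').2]; ring
    have e3 : coS a b c p + coT a b c p = 1 := by
      rw [e1, e2, ← add_div, ← hσ]; exact div_self hσ0.ne'
    have heq := co_eq hD' p
    rw [show 1 - coS a b c p - coT a b c p = 0 by linarith, zero_smul, zero_add] at heq
    rcases lt_or_eq_of_le hs' with h5 | h5
    · have hpbc : p ∈ openSegment ℝ b c := by
        refine mem_openSegment_iff_param.2 ⟨coT a b c p, by rw [e2]; positivity, ?_, ?_⟩
        · have : 0 < coS a b c p := by rw [e1]; positivity
          linarith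
        · rw [show 1 - coT a b c p = coS a b c p by linarith]; exact heq
      rcases G.cross h'.ac h.bc hpad hpbc with ⟨h6, -⟩ | ⟨h6, -⟩
      · exact (G.ne h.ab) h6
      · exact (G.ne h.ac) h6
    · have e4 : coS a b c p = 0 := by rw [e1, ← h5]; simp
      rw [e4, zero_smul, zero_add, show coT a b c p = 1 by linarith, one_smul] at heq
      exact G.noV h'.ac (G.mem (G.symm h.ac)) (heq ▸ hpad)
  rcases le_total 0 (crs a d c) with h1 | h1
  · exact main h h' hcd h1
  · refine main h' h (Ne.symm hcd) ?_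
    rw [crs_swap' a d c]; linarith

end Cfg

end Helper85.AG
end

/- Helper85.AG.Region -/
section
/-!
# Regions bounded by edges of the plane graph; the triangles cover the region
-/

namespace Helper85.AG

open Metric Set

/-- The open triangle. -/
def openTri (a b c : Pt) : Set Pt := {p | 0 < crs a b p ∧ 0 < crs b c p ∧ 0 < crs c a p}

theorem continuous_crs (a b : Pt) : Continuous (crs a b) := by
  unfold crs; fun_prop

theorem isOpen_openTri (a b c : Pt) : IsOpen (openTri a b c) := by
  have h1 := isOpen_lt continuous_const (continuous_crs a b) (f := fun _ => (0 : ℝ))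
  have h2 := isOpen_lt continuous_const (continuous_crs b c) (f := fun _ => (0 : ℝ))
  have h3 := isOpen_lt continuous_const (continuous_crs c a) (f := fun _ => (0 : ℝ))
  exact (h1.inter (h2.inter h3))

theorem isClosed_Tri (a b c : Pt) : IsClosed (Tri a b c) := by
  have h1 := isClosed_le continuous_const (continuous_crs a b) (f := fun _ => (0 : ℝ))
  have h2 := isClosed_le continuous_const (continuous_crs b c) (f := fun _ => (0 : ℝ))
  have h3 := isClosed_le continuous_const (continuous_crs c a) (f := fun _ => (0 : ℝ))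
  exact (h1.inter (h2.inter h3))

theorem convex_half (a b : Pt) : Convex ℝ {p | 0 < crs a b p} := by
  intro u hu v hv s t hs ht hst
  simp only [mem_ofPred_eq] at *
  rw [crs_aff _ _ _ _ _ _ hst]
  rcases lt_or_eq_of_le hs with h | h
  · have := mul_pos h hu
    have := mul_nonneg ht hv.le
    linarith
  · have : t = 1 := by linarith
    rw [← h, this]; linarith

theorem convex_openTri (a b c : Pt) : Convex ℝ (openTri a b c) :=
  (convex_half a b).inter ((convex_half b c).inter (convex_half c a))

theorem openTri_subset_Tri (a b c : Pt) : openTri a b c ⊆ Tri a b c :=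
  fun _ h => ⟨h.1.le, h.2.1.le, h.2.2.le⟩

namespace Cfg

variable {G : Cfg}

/-- `P` is a bounded region with boundary edges `B`. -/
structure Region (G : Cfg) (P : Set Pt) (B : Pt → Pt → Prop) : Prop where
  sub : ∀ {a b}, B a b → G.E a b
  symm : ∀ {a b}, B a b → B b a
  fr : ∀ p, p ∈ frontier P ↔ ∃ a b, B a b ∧ p ∈ segment ℝ a b
  cl : closure (interior P) = P
  bdd : Bornology.IsBounded P

variable {P : Set Pt} {B : Pt → Pt → Prop}

/-- A connected set which does not meet the frontier is inside or outside. -/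
theorem dich {P S : Set Pt} (hS : IsPreconnected S) (hfr : ∀ p ∈ S, p ∉ frontier P) :
    S ⊆ interior P ∨ S ⊆ Pᶜ := by
  have h := IsPreconnected.subset_or_subset isOpen_interior isClosed_closure.isOpen_compl
    (u := interior P) (v := (closure P)ᶜ)
    (Set.disjoint_compl_right_iff_subset.2 (interior_subset.trans subset_closure)) (by
      intro p hp
      by_cases h1 : p ∈ interior P
      · exact Or.inl h1
      · right
        intro h2
        exact hfr p hp ⟨h2, h1⟩) hS
  rcases h with h | h
  · exact Or.inl h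
  · exact Or.inr (h.trans (compl_subset_compl.2 subset_closure))

/-- The union of all closed edges. -/
def K (G : Cfg) : Set Pt := {p | ∃ u v, G.E u v ∧ p ∈ segment ℝ u v}

theorem isCompact_segment (u v : Pt) : IsCompact (segment ℝ u v) := by
  rw [segment_eq_image_lineMap]
  exact isCompact_Icc.image (by fun_prop)

/-- The union of a family of edges is compact. -/
theorem isCompact_edges (G : Cfg) (Q : Pt → Pt → Prop) :
    IsCompact {p | ∃ u v, G.E u v ∧ Q u v ∧ p ∈ segment ℝ u v} := by
  classical
  have : {p | ∃ u v, G.E u v ∧ Q u v ∧ p ∈ segment ℝ u v} =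
      ⋃ e ∈ (G.V ×ˢ G.V).filter (fun e => G.E e.1 e.2 ∧ Q e.1 e.2), segment ℝ e.1 e.2 := by
    ext p
    simp only [mem_ofPred_eq, mem_iUnion, Finset.mem_filter, Finset.mem_product]
    constructor
    · rintro ⟨u, v, h1, h2, h3⟩
      exact ⟨(u, v), ⟨⟨G.mem h1, G.mem (G.symm h1)⟩, h1, h2⟩, h3⟩
    · rintro ⟨e, ⟨-, h1, h2⟩, h3⟩
      exact ⟨e.1, e.2, h1, h2, h3⟩
  rw [this]
  exact (Finset.finite_toSet _).isCompact_biUnion (fun e _ => isCompact_segment _ _)

theorem isCompact_K (G : Cfg) : IsCompact G.K := by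
  have := isCompact_edges G (fun _ _ => True)
  simpa [K] using this

theorem Region.fr_K (R : G.Region P B) {p : Pt} (hp : p ∈ frontier P) : p ∈ G.K := by
  obtain ⟨a, b, h1, h2⟩ := (R.fr p).1 hp
  exact ⟨a, b, R.sub h1, h2⟩

theorem Region.isClosed (R : G.Region P B) : IsClosed P := R.cl ▸ isClosed_closure

/-- A point of a closed edge is a vertex or in the open edge. -/
theorem seg_cases {u v p : Pt} (huv : G.E u v) (hp : p ∈ segment ℝ u v) :
    p ∈ G.V ∨ p ∈ openSegment ℝ u v := by
  by_cases h1 : p = u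
  · left; rw [h1]; exact G.mem huv
  · by_cases h2 : p = v
    · left; rw [h2]; exact G.mem (G.symm huv)
    · right; exact mem_openSegment_of_ne_left_right (Ne.symm h1) (Ne.symm h2) hp

/-- The open triangle does not meet the edges. -/
theorem IsT.not_K {a b c p : Pt} (h : G.IsT a b c) (hp : p ∈ openTri a b c) : p ∉ G.K := by
  rintro ⟨u, v, huv, hs⟩
  rcases seg_cases huv hs with h1 | h1
  · rcases h.empty p h1 (openTri_subset_Tri _ _ _ hp) with rfl | rfl | rfl
    · exact absurd hp.1 (by rw [crs_self_left]; exact lt_irrefl _)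
    · exact absurd hp.1 (by rw [crs_self_right]; exact lt_irrefl _)
    · exact absurd hp.2.1 (by rw [crs_self_right]; exact lt_irrefl _)
  · exact h.no_edge huv h1 hp.1 hp.2.1 hp.2.2

/-- Every empty triangle is inside or outside. -/
theorem Region.tri (R : G.Region P B) {a b c : Pt} (h : G.IsT a b c) :
    openTri a b c ⊆ interior P ∨ openTri a b c ⊆ Pᶜ :=
  dich (convex_openTri a b c).isPreconnected (fun _ hp hf => h.not_K hp (R.fr_K hf))

/-- Only one edge near a point of an open edge. -/
theorem near_edge {a b p : Pt} (hab : G.E a b) (hp : p ∈ openSegment ℝ a b) :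
    ∃ ε > 0, ∀ q ∈ ball p ε, q ∈ G.K → q ∈ segment ℝ a b := by
  have hc := (isCompact_edges G (fun u v => ¬ ((u = a ∧ v = b) ∨ (u = b ∧ v = a)))).isClosed
  have hn : p ∉ {p | ∃ u v, G.E u v ∧ (¬ ((u = a ∧ v = b) ∨ (u = b ∧ v = a))) ∧ p ∈ segment ℝ u v} := by
    rintro ⟨u, v, huv, hne, hs⟩
    rcases seg_cases huv hs with h1 | h1
    · exact G.noV hab h1 hp
    · rcases G.cross hab huv hp h1 with ⟨h2, h3⟩ | ⟨h2, h3⟩
      · exact hne (Or.inl ⟨h2.symm, h3.symm⟩)
      · exact hne (Or.inr ⟨h3.symm, h2.symm⟩)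
  obtain ⟨ε, hε, hball⟩ := Metric.isOpen_iff.1 hc.isOpen_compl p hn
  refine ⟨ε, hε, ?_⟩
  rintro q hq ⟨u, v, huv, hs⟩
  by_contra hcon
  apply hball hq
  refine ⟨u, v, huv, ?_, hs⟩
  rintro (⟨rfl, rfl⟩ | ⟨rfl, rfl⟩)
  · exact hcon hs
  · rw [segment_symm] at hs; exact hcon hs

theorem crs_seg {a b p : Pt} (hp : p ∈ segment ℝ a b) : crs a b p = 0 := by
  obtain ⟨s, t, hs, ht, hst, rfl⟩ := hp
  rw [crs_aff _ _ _ _ _ _ hst, crs_self_left, crs_self_right]; ring

/-- If the region has interior points to the left of the line `a b` then there is a vertex to the left. -/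
theorem Region.left_vertex (R : G.Region P B) {a b q : Pt} (hq : q ∈ interior P)
    (h : 0 < crs a b q) : ∃ w ∈ G.V, 0 < crs a b w := by
  by_contra hcon
  push Not at hcon
  have hsub : {p | 0 < crs a b p} ⊆ interior P ∨ {p | 0 < crs a b p} ⊆ Pᶜ := by
    apply dich (convex_half a b).isPreconnected
    intro p hp hf
    obtain ⟨u, v, huv, hs⟩ := R.fr_K hf
    have h1 := hcon u (G.mem huv)
    have h2 := hcon v (G.mem (G.symm huv))
    obtain ⟨s, t, hs, ht, hst, rfl⟩ := hs
    simp only [mem_ofPred_eq] at hp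
    rw [crs_aff _ _ _ _ _ _ hst] at hp
    have := mul_nonpos_of_nonneg_of_nonpos hs h1
    have := mul_nonpos_of_nonneg_of_nonpos ht h2
    linarith
  rcases hsub with h1 | h1
  · -- unbounded
    obtain ⟨C, hC⟩ := (R.bdd.subset (h1.trans interior_subset)).exists_norm_le
    -- direction to the left
    let d : Pt := (-(b.2 - a.2), b.1 - a.1)
    have hd : ∀ t : ℝ, crs a b (q + t • d) = crs a b q + t * ((b.1 - a.1) ^ 2 + (b.2 - a.2) ^ 2) := by
      intro t
      simp only [crs, d, Prod.fst_add, Prod.snd_add, Prod.smul_fst, Prod.smul_snd, smul_eq_mul]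
      ring
    have hL : 0 < (b.1 - a.1) ^ 2 + (b.2 - a.2) ^ 2 := by
      by_contra hc
      push Not at hc
      have h2 : b.1 - a.1 = 0 := by nlinarith [sq_nonneg (b.1 - a.1), sq_nonneg (b.2 - a.2)]
      have h3 : b.2 - a.2 = 0 := by nlinarith [sq_nonneg (b.1 - a.1), sq_nonneg (b.2 - a.2)]
      simp [crs, h2, h3] at h
    have hdn : 0 < ‖d‖ := by
      rw [norm_pos_iff]
      intro h0
      have h2 : b.2 - a.2 = 0 := by have := congrArg Prod.fst h0; simp [d] at this; linarith
      have h3 : b.1 - a.1 = 0 := by have := congrArg Prod.snd h0; simpa [d] using this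
      rw [h2, h3] at hL; simp at hL
    set t : ℝ := (C + ‖q‖ + 1) / ‖d‖ with ht
    have hC0 : 0 ≤ C := (norm_nonneg q).trans (hC q (by simpa using h))
    have ht0 : 0 < t := by rw [ht]; positivity
    have h2 := hC (q + t • d) (by
      simp only [mem_ofPred_eq]; rw [hd]; positivity)
    have h3 : ‖t • d‖ ≤ ‖q + t • d‖ + ‖q‖ := by
      calc ‖t • d‖ = ‖(q + t • d) - q‖ := by congr 1; abel
        _ ≤ _ := norm_sub_le _ _
    rw [norm_smul, Real.norm_of_nonneg ht0.le, ht, div_mul_cancel₀ _ hdn.ne'] at h3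
    linarith
  · exact h1 h (interior_subset hq)

/-- Points of the open triangle near a point of the side `a b`. -/
theorem openTri_near {a b c p : Pt} (hD : 0 < crs a b c) (hp : p ∈ openSegment ℝ a b) {ε : ℝ}
    (hε : 0 < ε) : ∃ q ∈ ball p ε, q ∈ openTri a b c := by
  have hcont : Filter.Tendsto (fun t : ℝ => (1 - t) • p + t • c) (nhdsWithin 0 (Ioi 0)) (nhds p) := by
    have : Continuous (fun t : ℝ => (1 - t) • p + t • c) := by fun_prop
    have h := this.tendsto 0
    simp only [sub_zero, one_smul, zero_smul, add_zero] at h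
    exact h.mono_left nhdsWithin_le_nhds
  have h1 : ∀ᶠ t in nhdsWithin (0 : ℝ) (Ioi 0), ((1 - t) • p + t • c) ∈ ball p ε :=
    hcont (ball_mem_nhds p hε)
  have h2 : ∀ᶠ t in nhdsWithin (0 : ℝ) (Ioi 0), t ∈ Ioo (0 : ℝ) 1 :=
    Ioo_mem_nhdsGT (by norm_num)
  obtain ⟨t, ht1, ht2, ht3⟩ := (h1.and h2).exists
  refine ⟨_, ht1, ?_⟩
  obtain ⟨m, m0, m1, hm⟩ := mem_openSegment_iff_param.1 hp
  refine ⟨?_, ?_, ?_⟩
  · rw [crs_aff _ _ _ _ _ _ (by ring), crs_open_self hp]
    have := mul_pos ht2 hD
    linarith
  · rw [crs_aff _ _ _ _ _ _ (by ring), crs_self_right, hm, crs_aff _ _ _ _ _ _ (by ring), crs_self_left,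
      crs_rot]
    have := mul_pos (mul_pos (show 0 < 1 - t by linarith) (show 0 < 1 - m by linarith)) hD
    linarith
  · rw [crs_aff _ _ _ _ _ _ (by ring), crs_self_left, hm, crs_aff _ _ _ _ _ _ (by ring), crs_self_right,
      crs_rot']
    have := mul_pos (mul_pos (show 0 < 1 - t by linarith) m0) hD
    linarith

/-- The triangle on the left side of an edge, if the region is there. -/
theorem Region.left_tri (R : G.Region P B) {a b p : Pt} (hab : G.E a b) (hp : p ∈ openSegment ℝ a b) :
    ∃ ε > 0, ∀ q ∈ ball p ε, 0 < crs a b q → q ∈ interior P →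
      ∃ c, G.IsT a b c ∧ openTri a b c ⊆ interior P := by
  obtain ⟨ε, hε, hball⟩ := near_edge hab hp
  refine ⟨ε, hε, ?_⟩
  intro q hq hqc hqP
  obtain ⟨w, hw, hw'⟩ := R.left_vertex hqP hqc
  obtain ⟨c, h1, h2, h3, h4⟩ := G.exists_tri hab hw hw'
  have hT : G.IsT a b c := ⟨hab, h2, h1, h3, h4⟩
  refine ⟨c, hT, ?_⟩
  have hhalf : ball p ε ∩ {x | 0 < crs a b x} ⊆ interior P ∨ ball p ε ∩ {x | 0 < crs a b x} ⊆ Pᶜ := by
    apply dich ((convex_ball p ε).inter (convex_half a b)).isPreconnected
    rintro x ⟨hx1, hx2⟩ hf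
    have := crs_seg (hball x hx1 (R.fr_K hf))
    simp only [mem_ofPred_eq] at hx2
    linarith
  have hin : ball p ε ∩ {x | 0 < crs a b x} ⊆ interior P := by
    rcases hhalf with h | h
    · exact h
    · exact absurd (interior_subset hqP) (h ⟨hq, hqc⟩)
  rcases R.tri hT with h | h
  · exact h
  · exfalso
    obtain ⟨x, hx, hx'⟩ := openTri_near h3 hp hε
    exact h hx' (interior_subset (hin ⟨hx, hx'.1⟩))

end Cfg

end Helper85.AG
end

/- Helper85.AG.Cover -/
section
/-!
# The empty triangles cover
-/

namespace Helper85.AG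

open Metric Set

namespace Cfg

variable {G : Cfg}

/-- A point off the edges lies in an empty triangle, if every side of a line containing it contains a vertex. -/
theorem cover_aux {x : Pt} (hx : x ∉ G.K) (hconv : ∀ a b, 0 < crs a b x → ∃ w ∈ G.V, 0 < crs a b w)
    (hT : ∃ a b c, G.IsT a b c) : ∃ a b c, G.IsT a b c ∧ x ∈ Tri a b c := by
  classical
  -- an edge whose line does not contain x
  obtain ⟨a, b, hab, hline⟩ : ∃ a b, G.E a b ∧ crs a b x ≠ 0 := by
    obtain ⟨a, b, c, h⟩ := hT
    by_contra hcon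
    push Not at hcon
    have h1 := hcon a b h.ab
    have h2 := hcon b c h.bc
    have h3 := hcon c a (G.symm h.ac)
    have h4 := crs_sum a b c x
    have := h.pos
    linarith
  -- the set of bad parameters is finite
  have hfin : {t : ℝ | ∃ v ∈ G.V, v ≠ x ∧ v ∈ segment ℝ x ((1 - t) • a + t • b)}.Finite := by
    have : {t : ℝ | ∃ v ∈ G.V, v ≠ x ∧ v ∈ segment ℝ x ((1 - t) • a + t • b)} ⊆
        ⋃ v ∈ G.V, {t : ℝ | v ≠ x ∧ v ∈ segment ℝ x ((1 - t) • a + t • b)} := by
      rintro t ⟨v, hv, h1, h2⟩
      simp only [mem_iUnion, mem_ofPred_eq]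
      exact ⟨v, hv, h1, h2⟩
    refine Set.Finite.subset (Set.Finite.biUnion (Finset.finite_toSet _) ?_) this
    intro v _
    apply Set.Subsingleton.finite
    rintro t ⟨hvx, ht⟩ t' ⟨-, ht'⟩
    -- v = (1-s) x + s y_t
    obtain ⟨p, q, hp, hq, hpq, e⟩ := ht
    obtain ⟨p', q', hp', hq', hpq', e'⟩ := ht'
    have hq0 : q ≠ 0 := by rintro rfl; apply hvx; rw [← e, show p = 1 by linarith]; simp
    have hq0' : q' ≠ 0 := by rintro rfl; apply hvx; rw [← e', show p' = 1 by linarith]; simp
    have c1 : crs a b v = p * crs a b x := by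
      rw [← e, crs_aff _ _ _ _ _ _ hpq, crs_aff _ _ _ _ _ _ (by ring), crs_self_left, crs_self_right]; ring
    have c2 : crs a b v = p' * crs a b x := by
      rw [← e', crs_aff _ _ _ _ _ _ hpq', crs_aff _ _ _ _ _ _ (by ring), crs_self_left, crs_self_right]; ring
    have hpp : p = p' := by
      apply mul_right_cancel₀ hline
      rw [← c1, ← c2]
    have hqq : q = q' := by linarith
    subst hpp; subst hqq
    have h5 : q • ((1 - t) • a + t • b) = q • ((1 - t') • a + t' • b) := by
      have h6 : q • ((1 - t) • a + t • b) = v - p • x := by rw [← e]; abel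
      have h7 : q • ((1 - t') • a + t' • b) = v - p • x := by rw [← e']; abel
      rw [h6, h7]
    exact param_inj (G.ne hab) (smul_right_injective _ hq0 h5)
  obtain ⟨t, ⟨ht0, ht1⟩, htgood⟩ : (Ioo (0 : ℝ) 1 \ {t : ℝ | ∃ v ∈ G.V, v ≠ x ∧
      v ∈ segment ℝ x ((1 - t) • a + t • b)}).Nonempty :=
    ((Ioo_infinite (by norm_num)).sdiff hfin).nonempty
  simp only [mem_ofPred_eq, not_exists, not_and] at htgood
  set y : Pt := (1 - t) • a + t • b with hy
  have hyab : y ∈ openSegment ℝ a b := mem_openSegment_iff_param.2 ⟨t, ht0, ht1, hy⟩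
  have hyK : y ∈ G.K := ⟨a, b, hab, openSegment_subset_segment _ _ _ hyab⟩
  let f : ℝ → Pt := fun s => (1 - s) • x + s • y
  have hf : Continuous f := by fun_prop
  have hC : IsCompact (Icc (0 : ℝ) 1 ∩ f ⁻¹' G.K) :=
    isCompact_Icc.inter_right ((isCompact_K G).isClosed.preimage hf)
  have hCne : (Icc (0 : ℝ) 1 ∩ f ⁻¹' G.K).Nonempty := by
    refine ⟨1, ⟨by norm_num, le_refl _⟩, ?_⟩
    change f 1 ∈ G.K
    simpa [f] using hyK
  obtain ⟨s, ⟨⟨hs0, hs1⟩, hsK⟩, hleast⟩ := hC.exists_isLeast hCne
  have hsK' : f s ∈ G.K := hsK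
  have hspos : 0 < s := by
    rcases lt_or_eq_of_le hs0 with h | h
    · exact h
    · exfalso
      rw [← h] at hsK'
      simp only [f, sub_zero, one_smul, zero_smul, add_zero] at hsK'
      exact hx hsK'
  have hfseg : ∀ r, 0 ≤ r → r ≤ 1 → f r ∈ segment ℝ x y := by
    intro r h0 h1
    exact ⟨1 - r, r, by linarith, h0, by ring, rfl⟩
  set q := f s with hqdef
  have hqx : q ≠ x := fun h => hx (h ▸ hsK')
  have hqV : q ∉ G.V := fun h => htgood q h hqx (hfseg s hs0 hs1)
  obtain ⟨u, v, huv, hseg⟩ := hsK'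
  have hqo : q ∈ openSegment ℝ u v := by
    rcases seg_cases huv hseg with h | h
    · exact absurd h hqV
    · exact h
  -- x is not on the line u v
  have hxuv : crs u v x ≠ 0 := by
    intro h0
    obtain ⟨m, hm⟩ := exists_param (G.ne huv) h0
    obtain ⟨n, n0, n1, hn⟩ := mem_openSegment_iff_param.1 hqo
    have hxs : ¬ (0 ≤ m ∧ m ≤ 1) := by
      rintro ⟨h1, h2⟩
      exact hx ⟨u, v, huv, ⟨1 - m, m, by linarith, h1, by ring, hm.symm⟩⟩
    -- one of the ends is between x and q
    have hbet : ∀ w ∈ G.V, ∀ k : ℝ, 0 ≤ k → k ≤ 1 → w = (1 - k) • x + k • q → False := by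
      intro w hw k k0 k1 he
      have h1 : w = f (k * s) := by
        rw [he, hqdef]; simp only [f]; module
      have h2 : w ≠ x := by
        rintro rfl
        have hz : w ∉ G.K := hx
        by_cases hwu : w = u
        · exact hz ⟨u, v, huv, hwu ▸ left_mem_segment _ _ _⟩
        · by_cases hwv : w = v
          · exact hz ⟨u, v, huv, hwv ▸ right_mem_segment _ _ _⟩
          · -- w is a vertex, hence on some edge
            obtain ⟨z0, hz0, hz0'⟩ : ∃ z0 ∈ G.V, 0 < crs w q z0 ∨ 0 < crs q w z0 := by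
              by_contra hc
              push Not at hc
              have hq1 := hc u (G.mem huv)
              have hq2 := hc v (G.mem (G.symm huv))
              have ha1 := hc a (G.mem hab)
              have hb1 := hc b (G.mem (G.symm hab))
              have e1 : ∀ z, crs q w z = - crs w q z := fun z => crs_swap w q z
              rw [e1] at hq1 hq2 ha1 hb1
              have ea : crs w q a = 0 := by linarith [ha1.1, ha1.2]
              have eb : crs w q b = 0 := by linarith [hb1.1, hb1.2]
              -- w, q, a, b collinear with w = x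
              have hwq : w ≠ q := fun h => hqV (h ▸ hw)
              obtain ⟨α, hα⟩ := exists_param hwq ea
              obtain ⟨β, hβ⟩ := exists_param hwq eb
              apply hline
              rw [hα, hβ]
              simp only [crs, Prod.fst_add, Prod.snd_add, Prod.smul_fst, Prod.smul_snd, smul_eq_mul]
              ring
            rcases hz0' with h3 | h3
            · obtain ⟨c, hc, -⟩ := G.exists_edge_left hw hz0 h3
              exact hz ⟨w, c, hc, left_mem_segment _ _ _⟩
            · have h4 : 0 < crs w (w + (w - q)) z0 := by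
                have : crs w (w + (w - q)) z0 = crs q w z0 := by
                  simp only [crs, Prod.fst_add, Prod.snd_add, Prod.fst_sub, Prod.snd_sub]; ring
                rw [this]; exact h3
              obtain ⟨c, hc, -⟩ := G.exists_edge_left hw hz0 h4
              exact hz ⟨w, c, hc, left_mem_segment _ _ _⟩
      exact htgood w hw h2 (h1 ▸ hfseg _ (by positivity) (by nlinarith))
    rcases lt_or_ge m 0 with h1 | h1
    · -- u between x and q: 0 = (1-k) m + k n
      have hd : 0 < n - m := by linarith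
      refine hbet u (G.mem huv) (-m / (n - m)) (div_nonneg (by linarith) hd.le)
        (by rw [div_le_one hd]; linarith) ?_
      rw [hm, hn]
      have : (1 - -m / (n - m)) • ((1 - m) • u + m • v) + (-m / (n - m)) • ((1 - n) • u + n • v)
          = (1 - ((1 - -m / (n - m)) * m + (-m / (n - m)) * n)) • u
            + ((1 - -m / (n - m)) * m + (-m / (n - m)) * n) • v := by module
      rw [this]
      have h0 : (1 - -m / (n - m)) * m + (-m / (n - m)) * n = 0 := by field_simp; ring
      rw [h0]; simp
    · have h2 : 1 < m := by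
        by_contra hc
        push Not at hc
        exact hxs ⟨h1, hc⟩
      have hd : 0 < m - n := by linarith
      refine hbet v (G.mem (G.symm huv)) ((m - 1) / (m - n)) (div_nonneg (by linarith) hd.le)
        (by rw [div_le_one hd]; linarith) ?_
      rw [hm, hn]
      have : (1 - (m - 1) / (m - n)) • ((1 - m) • u + m • v) + ((m - 1) / (m - n)) • ((1 - n) • u + n • v)
          = (1 - ((1 - (m - 1) / (m - n)) * m + ((m - 1) / (m - n)) * n)) • u
            + ((1 - (m - 1) / (m - n)) * m + ((m - 1) / (m - n)) * n) • v := by module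
      rw [this]
      have h0 : (1 - (m - 1) / (m - n)) * m + ((m - 1) / (m - n)) * n = 1 := by field_simp; ring
      rw [h0]; simp
  -- the triangle on the side of x
  have main : ∀ u v, G.E u v → q ∈ openSegment ℝ u v → 0 < crs u v x →
      ∃ a b c, G.IsT a b c ∧ x ∈ Tri a b c := by
    intro u v huv hqo hpos
    obtain ⟨w, hw, hw'⟩ := hconv u v hpos
    obtain ⟨c, h1, h2, h3, h4⟩ := G.exists_tri huv hw hw'
    have hT : G.IsT u v c := ⟨huv, h2, h1, h3, h4⟩
    refine ⟨u, v, c, hT, ?_⟩
    by_contra hxT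
    obtain ⟨m, m0, m1, hm⟩ := mem_openSegment_iff_param.1 hqo
    have q1 : crs u v q = 0 := crs_open_self hqo
    have q2 : 0 < crs v c q := by
      rw [hm, crs_aff _ _ _ _ _ _ (by ring), crs_self_left, crs_rot]
      have := mul_pos (show 0 < 1 - m by linarith) h3
      linarith
    have q3 : 0 < crs c u q := by
      rw [hm, crs_aff _ _ _ _ _ _ (by ring), crs_self_right, crs_rot']
      have := mul_pos m0 h3
      linarith
    obtain ⟨l, l0, l1, hT', hcase⟩ := exit_tri (a := u) (b := v) (c := c) (r := q) (u := x)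
      ⟨q1.ge, q2.le, q3.le⟩ hxT
    set r' := (1 - l) • q + l • x with hr'
    have hfr : r' = f ((1 - l) * s) := by rw [hr', hqdef]; simp only [f]; module
    have hlpos : 0 < l := by
      rcases lt_or_eq_of_le l0 with h | h
      · exact h
      · exfalso
        have hrq : r' = q := by rw [hr', ← h]; simp
        rw [hrq] at hcase
        rcases hcase with ⟨h5, -⟩ | ⟨-, h5⟩ | ⟨-, h5⟩
        · linarith
        · linarith
        · linarith
    have hr'K : r' ∈ G.K := by
      rcases hcase with ⟨h5, -⟩ | ⟨-, h5⟩ | ⟨-, h5⟩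
      · linarith
      · exact ⟨v, c, hT.bc, mem_seg_of_tri hT.rot.pos (by rw [Tri_rot]; exact hT') h5⟩
      · exact ⟨c, u, G.symm hT.ac, mem_seg_of_tri hT.rot.rot.pos (by rw [Tri_rot, Tri_rot]; exact hT') h5⟩
    have h9 : (1 - l) * s ∈ f ⁻¹' G.K := by
      change f ((1 - l) * s) ∈ G.K
      rw [← hfr]; exact hr'K
    have h10 : (1 - l) * s ∈ Icc (0 : ℝ) 1 := ⟨mul_nonneg (by linarith) hs0, by nlinarith⟩
    have := hleast ⟨h10, h9⟩
    nlinarith
  rcases lt_or_gt_of_ne hxuv with h | h
  · refine main v u (G.symm huv) (by rw [openSegment_symm]; exact hqo) ?_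
    rw [crs_swap]; linarith
  · exact main u v huv hqo h

end Cfg

end Helper85.AG
end

/- Helper85.AG.Dense -/
section
/-!
# The complement of the edges is dense; overlapping triangles are equal
-/

namespace Helper85.AG

open Metric Set

theorem dense_line_compl {a b : Pt} (hab : a ≠ b) : Dense {p | crs a b p ≠ 0} := by
  intro p
  by_cases hp : crs a b p = 0
  swap
  · exact subset_closure hp
  rw [Metric.mem_closure_iff]
  intro ε hε
  let d : Pt := (-(b.2 - a.2), b.1 - a.1)
  have hd : ∀ t : ℝ, crs a b (p + t • d) = crs a b p + t * ((b.1 - a.1) ^ 2 + (b.2 - a.2) ^ 2) := by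
    intro t
    simp only [crs, d, Prod.fst_add, Prod.snd_add, Prod.smul_fst, Prod.smul_snd, smul_eq_mul]
    ring
  have hL : 0 < (b.1 - a.1) ^ 2 + (b.2 - a.2) ^ 2 := by
    by_contra hc
    push Not at hc
    apply hab
    ext
    · nlinarith [sq_nonneg (b.1 - a.1), sq_nonneg (b.2 - a.2)]
    · nlinarith [sq_nonneg (b.1 - a.1), sq_nonneg (b.2 - a.2)]
  have hdn : 0 ≤ ‖d‖ := norm_nonneg d
  set t : ℝ := ε / (2 * (‖d‖ + 1)) with ht
  have ht0 : 0 < t := by positivity
  refine ⟨p + t • d, ?_, ?_⟩
  · simp only [mem_ofPred_eq]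
    rw [hd, hp]
    have := mul_pos ht0 hL
    linarith
  · rw [dist_eq_norm, sub_add_cancel_left, norm_neg, norm_smul, Real.norm_of_nonneg ht0.le, ht]
    rw [div_mul_eq_mul_div, div_lt_iff₀ (by positivity)]
    nlinarith

namespace Cfg

variable {G : Cfg}

theorem dense_K_compl (G : Cfg) : Dense (G.K)ᶜ := by
  classical
  have h : Dense (⋂ e ∈ ((G.V ×ˢ G.V).filter (fun e => G.E e.1 e.2) : Set (Pt × Pt)),
      {p : Pt | crs e.1 e.2 p ≠ 0}) := by
    apply dense_biInter_of_isOpen
    · intro e _
      exact isOpen_ne_fun (continuous_crs _ _) continuous_const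
    · exact (Finset.finite_toSet _).countable
    · intro e he
      simp only [Finset.coe_filter, mem_ofPred_eq] at he
      exact dense_line_compl (G.ne he.2)
  refine h.mono ?_
  intro p hp hK
  obtain ⟨u, v, huv, hs⟩ := hK
  simp only [mem_iInter] at hp
  have := hp (u, v) (by simp [huv, G.mem huv, G.mem (G.symm huv)])
  exact this (crs_seg hs)

theorem Tri_sub_closure {a b c : Pt} (h : 0 < crs a b c) : Tri a b c ⊆ closure (openTri a b c) := by
  intro p hp
  set g : Pt := (1 / 3 : ℝ) • a + (1 / 3 : ℝ) • b + (1 / 3 : ℝ) • c with hg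
  have g1 : crs a b g = crs a b c / 3 := by
    rw [hg]; simp only [crs, Prod.fst_add, Prod.snd_add, Prod.smul_fst, Prod.smul_snd, smul_eq_mul]; ring
  have g2 : crs b c g = crs a b c / 3 := by
    rw [hg]; simp only [crs, Prod.fst_add, Prod.snd_add, Prod.smul_fst, Prod.smul_snd, smul_eq_mul]; ring
  have g3 : crs c a g = crs a b c / 3 := by
    rw [hg]; simp only [crs, Prod.fst_add, Prod.snd_add, Prod.smul_fst, Prod.smul_snd, smul_eq_mul]; ring
  have hcont : Filter.Tendsto (fun t : ℝ => (1 - t) • p + t • g) (nhdsWithin 0 (Ioi 0)) (nhds p) := by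
    have : Continuous (fun t : ℝ => (1 - t) • p + t • g) := by fun_prop
    have h := this.tendsto 0
    simp only [sub_zero, one_smul, zero_smul, add_zero] at h
    exact h.mono_left nhdsWithin_le_nhds
  refine mem_closure_of_tendsto hcont ?_
  have h2 : ∀ᶠ t in nhdsWithin (0 : ℝ) (Ioi 0), t ∈ Ioo (0 : ℝ) 1 :=
    Ioo_mem_nhdsGT (by norm_num)
  filter_upwards [h2] with t ht
  have ht' : 0 ≤ 1 - t := by linarith [ht.2]
  refine ⟨?_, ?_, ?_⟩
  · rw [crs_aff _ _ _ _ _ _ (by ring), g1]
    have := mul_nonneg ht' hp.1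
    have := mul_pos ht.1 (show 0 < crs a b c / 3 by linarith)
    linarith
  · rw [crs_aff _ _ _ _ _ _ (by ring), g2]
    have := mul_nonneg ht' hp.2.1
    have := mul_pos ht.1 (show 0 < crs a b c / 3 by linarith)
    linarith
  · rw [crs_aff _ _ _ _ _ _ (by ring), g3]
    have := mul_nonneg ht' hp.2.2
    have := mul_pos ht.1 (show 0 < crs a b c / 3 by linarith)
    linarith

/-- A point of the closed triangle is in the open triangle, in an open side, or a vertex. -/
theorem IsT.cases {a b c p : Pt} (h : G.IsT a b c) (hp : p ∈ Tri a b c) :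
    p ∈ openTri a b c ∨ p ∈ segment ℝ a b ∨ p ∈ segment ℝ b c ∨ p ∈ segment ℝ c a := by
  rcases lt_or_eq_of_le hp.1 with h1 | h1
  · rcases lt_or_eq_of_le hp.2.1 with h2 | h2
    · rcases lt_or_eq_of_le hp.2.2 with h3 | h3
      · exact Or.inl ⟨h1, h2, h3⟩
      · right; right; right
        exact mem_seg_of_tri h.rot.rot.pos (by rw [Tri_rot, Tri_rot]; exact hp) h3.symm
    · right; right; left
      exact mem_seg_of_tri h.rot.pos (by rw [Tri_rot]; exact hp) h2.symm
  · right; left
    exact mem_seg_of_tri h.pos hp h1.symm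

theorem IsT.K_of_not_open {a b c p : Pt} (h : G.IsT a b c) (hp : p ∈ Tri a b c)
    (hn : p ∉ openTri a b c) : p ∈ G.K := by
  rcases h.cases hp with h1 | h1 | h1 | h1
  · exact absurd h1 hn
  · exact ⟨a, b, h.ab, h1⟩
  · exact ⟨b, c, h.bc, h1⟩
  · exact ⟨c, a, G.symm h.ac, h1⟩

/-- Two empty triangles with overlapping interiors: the first is contained in the second. -/
theorem IsT.sub_of_overlap {a b c a' b' c' p : Pt} (h : G.IsT a b c) (h' : G.IsT a' b' c')
    (hp : p ∈ openTri a b c) (hp' : p ∈ openTri a' b' c') : Tri a b c ⊆ Tri a' b' c' := by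
  have h1 : openTri a b c ⊆ openTri a' b' c' ∨ openTri a b c ⊆ (Tri a' b' c')ᶜ := by
    apply IsPreconnected.subset_or_subset (isOpen_openTri _ _ _) (isClosed_Tri _ _ _).isOpen_compl
      (Set.disjoint_compl_right_iff_subset.2 (openTri_subset_Tri _ _ _)) ?_
      (convex_openTri a b c).isPreconnected
    intro q hq
    by_cases h2 : q ∈ openTri a' b' c'
    · exact Or.inl h2
    · right
      intro h3
      exact h.not_K hq (h'.K_of_not_open h3 h2)
  rcases h1 with h1 | h1
  · calc Tri a b c ⊆ closure (openTri a b c) := Tri_sub_closure h.pos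
      _ ⊆ closure (Tri a' b' c') := closure_mono (h1.trans (openTri_subset_Tri _ _ _))
      _ = _ := (isClosed_Tri _ _ _).closure_eq
  · exact absurd (openTri_subset_Tri _ _ _ hp') (h1 hp)

/-- The vertices of the graph in the closed triangle. -/
theorem IsT.vert_iff {a b c : Pt} (h : G.IsT a b c) (v : Pt) :
    (v ∈ G.V ∧ v ∈ Tri a b c) ↔ (v = a ∨ v = b ∨ v = c) := by
  constructor
  · rintro ⟨h1, h2⟩; exact h.empty v h1 h2
  · have hpos := h.pos
    rintro (rfl | rfl | rfl)
    · exact ⟨G.mem h.ab, by rw [crs_self_left], by rw [crs_rot]; exact hpos.le, by rw [crs_self_right]⟩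
    · exact ⟨G.mem h.bc, by rw [crs_self_right], by rw [crs_self_left], by rw [crs_rot']; exact hpos.le⟩
    · exact ⟨G.mem (G.symm h.ac), hpos.le, by rw [crs_self_right], by rw [crs_self_left]⟩

theorem IsT.eq_of_overlap {a b c a' b' c' p : Pt} (h : G.IsT a b c) (h' : G.IsT a' b' c')
    (hp : p ∈ openTri a b c) (hp' : p ∈ openTri a' b' c') :
    ({a, b, c} : Finset Pt) = {a', b', c'} := by
  have e : Tri a b c = Tri a' b' c' :=
    Set.Subset.antisymm (h.sub_of_overlap h' hp hp') (h'.sub_of_overlap h hp' hp)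
  ext v
  simp only [Finset.mem_insert, Finset.mem_singleton]
  rw [← h.vert_iff v, ← h'.vert_iff v, e]

end Cfg

end Helper85.AG
end

/- Helper85.AG.Constrained -/
section
/-!
# Triangulations of a triangle with prescribed inner vertices and edges
-/

namespace Pool.Agent.Helper69.AGF

open Helper85.AG (crs)
open Helper85.AG.Cfg

theorem crs_eq_det (a b c : Pt) : crs a b c = det a b c := rfl

theorem Tri_eq_hull {a b c : Pt} (h : 0 < det a b c) : Helper85.AG.Tri a b c = hull {a, b, c} := by
  ext p
  rw [mem_hull3 h]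
  rfl

/-- Properties of a set of edges of a plane graph on the vertex set `V`. -/
structure GoodEdges (V : Finset Pt) (S : Finset (Finset Pt)) : Prop where
  edge : ∀ e ∈ S, ∃ a b, a ≠ b ∧ e = {a, b} ∧ a ∈ V ∧ b ∈ V ∧ ∀ p ∈ V, p ∉ openSegment ℝ a b
  cross : ∀ a b c d p, ({a, b} : Finset Pt) ∈ S → ({c, d} : Finset Pt) ∈ S →
    p ∈ openSegment ℝ a b → p ∈ openSegment ℝ c d → ({a, b} : Finset Pt) = {c, d}

theorem pair_eq {a b c d : Pt} (h : ({a, b} : Finset Pt) = {c, d}) :
    (a = c ∧ b = d) ∨ (a = d ∧ b = c) := by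
  have ha : a ∈ ({c, d} : Finset Pt) := h ▸ Finset.mem_insert_self a {b}
  have hb : b ∈ ({c, d} : Finset Pt) := h ▸ (by simp)
  have hc : c ∈ ({a, b} : Finset Pt) := h.symm ▸ Finset.mem_insert_self c {d}
  have hd : d ∈ ({a, b} : Finset Pt) := h.symm ▸ (by simp)
  simp only [Finset.mem_insert, Finset.mem_singleton] at ha hb hc hd
  tauto

/-- Extension to a maximal plane graph. -/
theorem exists_cfg (V : Finset Pt) (E : Finset (Finset Pt)) (hE : GoodEdges V E) :
    ∃ G : Helper85.AG.Cfg, G.V = V ∧ ∀ a b, ({a, b} : Finset Pt) ∈ E → G.E a b := by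
  classical
  let U : Finset (Finset (Finset Pt)) :=
    (V.powersetCard 2).powerset.filter (fun S => GoodEdges V S ∧ E ⊆ S)
  have hsub : ∀ S, GoodEdges V S → S ⊆ V.powersetCard 2 := by
    intro S hS e he
    obtain ⟨a, b, hab, rfl, ha, hb, -⟩ := hS.edge e he
    rw [Finset.mem_powersetCard]
    refine ⟨?_, Finset.card_pair hab⟩
    intro x hx
    simp only [Finset.mem_insert, Finset.mem_singleton] at hx
    rcases hx with rfl | rfl <;> assumption
  obtain ⟨S, hS, hmax⟩ := U.exists_max_image Finset.card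
    ⟨E, by simp only [U, Finset.mem_filter, Finset.mem_powerset]; exact ⟨hsub E hE, hE, subset_rfl⟩⟩
  simp only [U, Finset.mem_filter, Finset.mem_powerset] at hS
  obtain ⟨-, hgood, hES⟩ := hS
  refine ⟨{ V := V
            E := fun a b => ({a, b} : Finset Pt) ∈ S
            symm := ?_, mem := ?_, ne := ?_, noV := ?_, cross := ?_, max := ?_ }, rfl, ?_⟩
  · intro a b h; rw [Finset.pair_comm]; exact h
  · intro a b h
    obtain ⟨c, d, -, he, hc, hd, -⟩ := hgood.edge _ h
    rcases pair_eq he with ⟨rfl, -⟩ | ⟨rfl, -⟩ <;> assumption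
  · intro a b h
    obtain ⟨c, d, hcd, he, -⟩ := hgood.edge _ h
    rcases pair_eq he with ⟨rfl, rfl⟩ | ⟨rfl, rfl⟩
    · exact hcd
    · exact hcd.symm
  · intro a b v h hv
    obtain ⟨c, d, -, he, -, -, hno⟩ := hgood.edge _ h
    rcases pair_eq he with ⟨rfl, rfl⟩ | ⟨rfl, rfl⟩
    · exact hno v hv
    · rw [openSegment_symm]; exact hno v hv
  · intro a b c d p h1 h2 h3 h4
    exact pair_eq (hgood.cross a b c d p h1 h2 h3 h4)
  · intro a b ha hb hab hno hcr
    by_contra hnS
    have hgood' : GoodEdges V (insert {a, b} S) := by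
      constructor
      · intro e he
        rw [Finset.mem_insert] at he
        rcases he with rfl | he
        · exact ⟨a, b, hab, rfl, ha, hb, hno⟩
        · exact hgood.edge e he
      · intro c d c' d' p h1 h2 h3 h4
        rw [Finset.mem_insert] at h1 h2
        have key : ∀ c d c' d' : Pt, ({c, d} : Finset Pt) = {a, b} → ({c', d'} : Finset Pt) ∈ S →
            p ∈ openSegment ℝ c d → p ∈ openSegment ℝ c' d' → False := by
          intro c d c' d' h1 h2 h3 h4
          have h5 : p ∈ openSegment ℝ a b := by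
            rcases pair_eq h1 with ⟨rfl, rfl⟩ | ⟨rfl, rfl⟩
            · exact h3
            · rw [openSegment_symm]; exact h3
          apply hnS
          rcases hcr c' d' p h2 h5 h4 with ⟨rfl, rfl⟩ | ⟨rfl, rfl⟩
          · exact h2
          · rw [Finset.pair_comm]; exact h2
        rcases h1 with h1 | h1
        · rcases h2 with h2 | h2
          · rw [h1, h2]
          · exact (key c d c' d' h1 h2 h3 h4).elim
        · rcases h2 with h2 | h2
          · exact (key c' d' c d h2 h1 h4 h3).elim
          · exact hgood.cross c d c' d' p h1 h2 h3 h4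
    have := hmax (insert {a, b} S) (by
      simp only [U, Finset.mem_filter, Finset.mem_powerset]
      exact ⟨hsub _ hgood', hgood', hES.trans (Finset.subset_insert _ _)⟩)
    rw [Finset.card_insert_of_notMem hnS] at this
    omega
  · intro a b h; exact hES h

theorem exists_constrained {A B C : Pt} (h : 0 < det A B C) (V : Finset Pt)
    (hV : ∀ p ∈ V, p ∈ interior (hull {A, B, C})) (E : Finset (Finset Pt))
    (hE : ∀ e ∈ E, ∃ a b, a ≠ b ∧ e = {a, b} ∧ a ∈ V ∧ b ∈ V ∧
      ∀ p ∈ V, p ∈ segment ℝ a b → p = a ∨ p = b)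
    (hcross : ∀ a b c d, {a, b} ∈ E → {c, d} ∈ E → ({a, b} : Finset Pt) ≠ {c, d} →
      ∀ p ∈ segment ℝ a b, p ∈ segment ℝ c d → (p = a ∨ p = b) ∧ (p = c ∨ p = d)) :
    ∃ T, IsTri T ∧ region T = hull {A, B, C} ∧ verts T = V ∪ {A, B, C} ∧ E ⊆ sides T := by
  classical
  have hint := interior_hull3 h
  have hABCv : ∀ q ∈ ({A, B, C} : Finset Pt), q ∉ interior (hull {A, B, C}) := by
    intro q hq
    rw [hint]
    simp only [Finset.mem_insert, Finset.mem_singleton] at hq
    rintro ⟨h1, h2, h3⟩
    rcases hq with rfl | rfl | rfl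
    · simp at h1
    · simp at h1
    · simp at h2
  have hgood : GoodEdges (V ∪ {A, B, C}) E := by
    constructor
    · intro e he
      obtain ⟨a, b, hab, rfl, ha, hb, hno⟩ := hE e he
      refine ⟨a, b, hab, rfl, Finset.mem_union_left _ ha, Finset.mem_union_left _ hb, ?_⟩
      intro p hp hps
      rw [Finset.mem_union] at hp
      rcases hp with hp | hp
      · rcases hno p hp (openSegment_subset_segment _ _ _ hps) with rfl | rfl
        · exact hab (left_mem_openSegment_iff.1 hps)
        · exact hab (right_mem_openSegment_iff.1 hps)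
      · apply hABCv p hp
        exact (convex_hull _).interior.openSegment_subset (hV a ha) (hV b hb) hps
    · intro a b c d p h1 h2 h3 h4
      by_contra hne
      obtain ⟨h5, h6⟩ := hcross a b c d h1 h2 hne p (openSegment_subset_segment _ _ _ h3)
        (openSegment_subset_segment _ _ _ h4)
      obtain ⟨a', b', hab, he, -⟩ := hE _ h1
      have hab' : a ≠ b := by
        rcases pair_eq he with ⟨rfl, rfl⟩ | ⟨rfl, rfl⟩
        · exact hab
        · exact hab.symm
      rcases h5 with rfl | rfl
      · exact hab' (left_mem_openSegment_iff.1 h3)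
      · exact hab' (right_mem_openSegment_iff.1 h3)
  obtain ⟨G, hGV, hGE⟩ := exists_cfg _ E hgood
  have hA : A ∈ G.V := by rw [hGV]; simp
  have hB : B ∈ G.V := by rw [hGV]; simp
  have hC : C ∈ G.V := by rw [hGV]; simp
  have hVsub : ∀ v ∈ G.V, v ∈ hull {A, B, C} := by
    intro v hv
    rw [hGV, Finset.mem_union] at hv
    rcases hv with hv | hv
    · exact interior_subset (hV v hv)
    · exact subset_hull hv
  -- a triangle at every edge
  have hedge : ∀ u v, G.E u v → ∃ w, G.IsT u v w ∨ G.IsT v u w := by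
    intro u v huv
    have hne := G.ne huv
    have hnl : ∃ z ∈ G.V, crs u v z ≠ 0 := by
      by_contra hcon
      push Not at hcon
      obtain ⟨α, hα⟩ := Helper85.AG.exists_param hne (hcon A hA)
      obtain ⟨β, hβ⟩ := Helper85.AG.exists_param hne (hcon B hB)
      obtain ⟨γ, hγ⟩ := Helper85.AG.exists_param hne (hcon C hC)
      have : det A B C = 0 := by
        rw [hα, hβ, hγ]
        simp only [det, Prod.fst_add, Prod.snd_add, Prod.smul_fst, Prod.smul_snd, smul_eq_mul]
        ring
      linarith
    obtain ⟨z, hz, hz'⟩ := hnl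
    rcases lt_or_gt_of_ne hz' with h1 | h1
    · have h2 : 0 < crs v u z := by rw [Helper85.AG.crs_swap]; linarith
      obtain ⟨c, a1, a2, a3, a4⟩ := G.exists_tri (G.symm huv) hz h2
      exact ⟨c, Or.inr ⟨G.symm huv, a2, a1, a3, a4⟩⟩
    · obtain ⟨c, a1, a2, a3, a4⟩ := G.exists_tri huv hz h1
      exact ⟨c, Or.inl ⟨huv, a2, a1, a3, a4⟩⟩
  -- an edge at every vertex
  have hvert : ∀ v ∈ G.V, ∃ c, G.E v c := by
    intro v hv
    have hs := Helper85.AG.crs_sum A B C v
    have e1 : crs A B v = crs v A B := by simp only [crs]; ring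
    have e2 : crs B C v = crs v B C := by simp only [crs]; ring
    have e3 : crs C A v = crs v C A := by simp only [crs]; ring
    rw [e1, e2, e3, crs_eq_det A B C] at hs
    by_cases h1 : 0 < crs v A B
    · obtain ⟨c, hc, -⟩ := G.exists_edge_left hv hB h1; exact ⟨c, hc⟩
    · by_cases h2 : 0 < crs v B C
      · obtain ⟨c, hc, -⟩ := G.exists_edge_left hv hC h2; exact ⟨c, hc⟩
      · obtain ⟨c, hc, -⟩ := G.exists_edge_left hv hA (show 0 < crs v C A by linarith)
        exact ⟨c, hc⟩
  let T : Finset (Finset Pt) := (G.V.powersetCard 3).filter (fun t => ∃ a b c, t = {a, b, c} ∧ G.IsT a b c)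
  have hTmem : ∀ {a b c}, G.IsT a b c → ({a, b, c} : Finset Pt) ∈ T := by
    intro a b c hT
    simp only [T, Finset.mem_filter, Finset.mem_powersetCard]
    refine ⟨⟨?_, ?_⟩, a, b, c, rfl, hT⟩
    · intro x hx
      simp only [Finset.mem_insert, Finset.mem_singleton] at hx
      rcases hx with rfl | rfl | rfl
      · exact G.mem hT.ab
      · exact G.mem hT.bc
      · exact G.mem (G.symm hT.ac)
    · exact Finset.card_eq_three.2 ⟨a, b, c, hT.ne_ab, hT.ne_ac, hT.ne_bc, rfl⟩
  have hTT : ∀ t ∈ T, ∃ a b c, t = {a, b, c} ∧ G.IsT a b c := by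
    intro t ht
    simp only [T, Finset.mem_filter] at ht
    exact ht.2
  have hTV : ∀ t ∈ T, t ⊆ G.V := by
    intro t ht
    simp only [T, Finset.mem_filter, Finset.mem_powersetCard] at ht
    exact ht.1.1
  refine ⟨T, ⟨?_, ?_⟩, ?_, ?_, ?_⟩
  · intro t ht
    obtain ⟨a, b, c, rfl, hT⟩ := hTT t ht
    exact ⟨a, b, c, rfl, hT.pos⟩
  · -- glue
    intro t ht t' ht' p hp
    obtain ⟨a, b, c, rfl, hT⟩ := hTT t ht
    obtain ⟨a', b', c', rfl, hT'⟩ := hTT t' ht'
    obtain ⟨hp1, hp2⟩ := hp
    rw [← Tri_eq_hull hT.pos] at hp1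
    rw [← Tri_eq_hull hT'.pos] at hp2
    have memt : ∀ v, v ∈ ({a, b, c} : Finset Pt) ↔ v ∈ G.V ∧ v ∈ Helper85.AG.Tri a b c := by
      intro v; rw [hT.vert_iff]; simp
    have memt' : ∀ v, v ∈ ({a', b', c'} : Finset Pt) ↔ v ∈ G.V ∧ v ∈ Helper85.AG.Tri a' b' c' := by
      intro v; rw [hT'.vert_iff]; simp
    by_cases hpV : p ∈ G.V
    · exact subset_hull (Finset.mem_inter.2 ⟨(memt p).2 ⟨hpV, hp1⟩, (memt' p).2 ⟨hpV, hp2⟩⟩)
    by_cases ho : p ∈ Helper85.AG.openTri a b c
    · have ho' : p ∈ Helper85.AG.openTri a' b' c' := by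
        by_contra hn
        exact hT.not_K ho (hT'.K_of_not_open hp2 hn)
      have he := hT.eq_of_overlap hT' ho ho'
      rw [← he, Finset.inter_self, ← Tri_eq_hull hT.pos]
      exact hp1
    · -- p is on an open side of both
      have side : ∀ {a b c : Pt}, G.IsT a b c → p ∈ Helper85.AG.Tri a b c →
          p ∉ Helper85.AG.openTri a b c → ∃ u v, u ∈ ({a, b, c} : Finset Pt) ∧
            v ∈ ({a, b, c} : Finset Pt) ∧ G.E u v ∧ p ∈ openSegment ℝ u v := by
        intro a b c hT hp1 ho
        have fin : ∀ u v, G.E u v → p ∈ segment ℝ u v → p ∈ openSegment ℝ u v := by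
          intro u v huv hs
          rcases seg_cases huv hs with h1 | h1
          · exact absurd h1 hpV
          · exact h1
        rcases hT.cases hp1 with h1 | h1 | h1 | h1
        · exact absurd h1 ho
        · exact ⟨a, b, by simp, by simp, hT.ab, fin _ _ hT.ab h1⟩
        · exact ⟨b, c, by simp, by simp, hT.bc, fin _ _ hT.bc h1⟩
        · exact ⟨c, a, by simp, by simp, G.symm hT.ac, fin _ _ (G.symm hT.ac) h1⟩
      obtain ⟨u, v, hu, hv, huv, hpo⟩ := side hT hp1 ho
      have ho' : p ∉ Helper85.AG.openTri a' b' c' := by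
        intro hn
        exact hT'.not_K hn (hT.K_of_not_open hp1 ho)
      obtain ⟨u', v', hu', hv', huv', hpo'⟩ := side hT' hp2 ho'
      have hsub : ({u, v} : Finset Pt) ⊆ {a, b, c} ∩ {a', b', c'} := by
        intro x hx
        simp only [Finset.mem_insert, Finset.mem_singleton] at hx
        rw [Finset.mem_inter]
        rcases G.cross huv huv' hpo hpo' with ⟨rfl, rfl⟩ | ⟨rfl, rfl⟩
        · rcases hx with rfl | rfl
          · exact ⟨hu, hu'⟩
          · exact ⟨hv, hv'⟩
        · rcases hx with rfl | rfl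
          · exact ⟨hu, hv'⟩
          · exact ⟨hv, hu'⟩
      apply hull_mono hsub
      rw [hull_pair]
      exact openSegment_subset_segment _ _ _ hpo
  · -- region
    apply Set.Subset.antisymm
    · intro p hp
      simp only [region, Set.mem_iUnion] at hp
      obtain ⟨t, ht, hpt⟩ := hp
      have : hull t ⊆ hull {A, B, C} := by
        apply convexHull_min _ (convex_hull _)
        intro v hv
        exact hVsub v (hTV t ht hv)
      exact this hpt
    · have hclosed : IsClosed (region T) := by
        unfold region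
        exact Set.Finite.isClosed_biUnion (Finset.finite_toSet T) (fun t _ => isClosed_hull t)
      have hT0 : ∃ a b c, G.IsT a b c := by
        obtain ⟨c, hc⟩ := hvert A hA
        obtain ⟨w, hw | hw⟩ := hedge _ _ hc
        · exact ⟨_, _, _, hw⟩
        · exact ⟨_, _, _, hw⟩
      have h1 : interior (hull {A, B, C}) ∩ (G.K)ᶜ ⊆ region T := by
        rintro x ⟨hx, hxK⟩
        have hx' := interior_subset hx
        obtain ⟨a, b, c, hT, hxT⟩ := cover_aux hxK (by
          intro a b hpos
          obtain ⟨r, s, t, hr, hs, ht, hrst, rfl⟩ := mem_hull3_comb.1 hx'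
          rw [crs_eq_det, det_comb3 _ _ _ _ _ _ _ _ hrst] at hpos
          by_contra hcon
          push Not at hcon
          have e1 := mul_nonpos_of_nonneg_of_nonpos hr (hcon A hA)
          have e2 := mul_nonpos_of_nonneg_of_nonpos hs (hcon B hB)
          have e3 := mul_nonpos_of_nonneg_of_nonpos ht (hcon C hC)
          simp only [crs_eq_det] at e1 e2 e3
          linarith) hT0
        simp only [region, Set.mem_iUnion]
        refine ⟨{a, b, c}, hTmem hT, ?_⟩
        rw [← Tri_eq_hull hT.pos]
        exact hxT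
      calc hull {A, B, C} ⊆ closure (interior (hull {A, B, C})) := hull3_subset_closure h
        _ ⊆ closure (interior (hull {A, B, C}) ∩ (G.K)ᶜ) := by
            apply closure_minimal _ isClosed_closure
            exact (dense_K_compl G).open_subset_closure_inter isOpen_interior
        _ ⊆ closure (region T) := closure_mono h1
        _ = region T := hclosed.closure_eq
  · -- vertices
    rw [← hGV]
    ext v
    simp only [verts, Finset.mem_biUnion, id]
    constructor
    · rintro ⟨t, ht, hvt⟩
      exact hTV t ht hvt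
    · intro hv
      obtain ⟨c, hc⟩ := hvert v hv
      obtain ⟨w, hw | hw⟩ := hedge _ _ hc
      · exact ⟨_, hTmem hw, by simp⟩
      · exact ⟨_, hTmem hw, by simp⟩
  · -- prescribed edges
    intro e he
    obtain ⟨a, b, hab, rfl, -⟩ := hE e he
    have hGab := hGE a b he
    simp only [sides, Finset.mem_biUnion, Finset.mem_powersetCard]
    obtain ⟨w, hw | hw⟩ := hedge _ _ hGab
    · refine ⟨_, hTmem hw, ?_, Finset.card_pair hab⟩
      intro x hx
      simp only [Finset.mem_insert, Finset.mem_singleton] at hx ⊢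
      tauto
    · refine ⟨_, hTmem hw, ?_, Finset.card_pair hab⟩
      intro x hx
      simp only [Finset.mem_insert, Finset.mem_singleton] at hx ⊢
      tauto

end Pool.Agent.Helper69.AGF
end
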