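import Pool.Agent.Helper16.VGG.G05
import Pool.Agent.Helper16.VGG.G06
import Pool.Agent.Helper16.VGG.G07
import Pool.Agent.Helper16.VGG.G08
import Pool.Agent.Helper16.VGG.G10

/- AG.Red.S12 -/
section
/-!
# Project AG, block RED: 2.7 (S1), (S2), candidates, 3.1
-/

namespace AG

open Finset

variable {I : Type} [DecidableEq I]

namespace Obj

/-- the glued sides of a blade triangle -/
theorem Blade.eq_of_glued {S : Obj I} {c x : Sd I} (hB : S.Blade c) (hx : x.1 = c.1)
    (hg : S.g x ≠ x) : x = c ∨ x = unrot c := by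
  rcases eq_of_fst_eq hx with h | h | h
  · exact Or.inl h
  · rw [h] at hg; exact absurd hB.2.2.1 hg
  · exact Or.inr h

/-- the blade triangle has no ear -/
theorem Blade.no_ear {S : Obj I} {c e : Sd I} (hB : S.Blade c) (he : e ∈ S.E) : e.1 ≠ c.1 := by
  intro h
  have h1 := S.earFree e he
  rcases eq_of_fst_eq h with h2 | h2 | h2
  · rw [h2] at h1; exact hB.1 h1
  · rw [h2] at he; exact hB.2.2.2 he
  · rw [h2] at h1; exact hB.2.1 h1

/-- a face has no ear -/
theorem Face.no_ear {S : Obj I} {s : I} (hF : S.Face s) {e : Sd I} (he : e ∈ S.E) : e.1 ≠ s := by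
  rintro rfl
  exact hF.2 e.2 (S.earFree e he)

/-- in a minimal counterexample the rest after the removal of a blade has a solution within the
bound which does not cover the blade -/
theorem Cex.remove_blade {S : Obj I} {pt : Sd I → Pt} {R : Set Pt} (hC : Cex S pt R) {c : Sd I}
    (hB : S.Blade c) :
    ∃ C, Sol (S.keep (S.F \ {c.1})) pt R ∅ C ∧ ¬ Cov pt R C c.1 := by
  have hle := S.keep_le (S.F \ {c.1})
  obtain ⟨C, hs, hcard⟩ := hC.ih (S.keep (S.F \ {c.1})) pt (hC.geo.sub hle)
    (hB.conn_remove hC.conn hC.bridgeless) (fun t ht => hC.sub t (hle.F ht))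
    (card_glued_remove_lt S hB.1 (mem_singleton_self _)) ∅ (empty_subset _)
  refine ⟨C, hs, fun hcov => hC.bad ⟨C, ?_, ?_⟩⟩
  · refine hs.transfer hle (fun w hw => absurd hw (notMem_empty w)) (fun e he => ?_)
      (fun t _ _ hn => absurd hn (Bridgeless.not_noncore hC.conn hC.bridgeless hC.two_le t))
      (fun t ht ht' => ?_)
    · have h1 : e ∈ (S.keep (S.F \ {c.1})).E := by
        rw [keep_E, mem_filter, mem_sdiff, mem_singleton]
        exact ⟨he, S.earF e he, hB.no_ear he⟩
      exact (hs.ear e h1).imp (fun h => h.mono hle) (fun h => h.mono hle)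
    · rw [keep_F S sdiff_subset, mem_sdiff, mem_singleton] at ht'
      have h1 : t = c.1 := by
        by_contra h2
        exact ht' ⟨ht, h2⟩
      rw [h1]; exact hcov
  · rw [hB.N2_remove] at hcard
    exact hcard

/-- (S1): the neighbour of a blade across a diagonal in U is a face -/
theorem Cex.s1 {S : Obj I} {pt : Sd I → Pt} {R : Set Pt} (hC : Cex S pt R) {a : Sd I}
    (hB : S.Blade a ∨ S.Blade (rot a)) (hU : S.IsU pt a) : S.Active a := by
  refine ⟨hU.1, ?_⟩
  by_contra hf
  have key : ∃ C, Sol (S.keep (S.F \ {a.1})) pt R ∅ C ∧ ¬ Cov pt R C a.1 := by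
    rcases hB with hB | hB
    · exact hC.remove_blade hB
    · have h := hC.remove_blade hB
      exact h
  obtain ⟨C, hs, hcov⟩ := key
  obtain ⟨i, hi⟩ := hs.dom _ (noncore_of_not_face hU.1 hf)
  exact hcov (hC.geo.see_U hU (hC.sub _ (S.memF _ hU.1)) (hC.sub _ (g_memF hU.1))
    ⟨i, hi.mono (S.keep_le _)⟩)

/-- (S2): a pair-ready blade has a neighbour which is a face -/
theorem Cex.s2 {S : Obj I} {pt : Sd I → Pt} {R : Set Pt} (hC : Cex S pt R) {c : Sd I}
    (hB : S.Blade c) (hp : S.PairAt pt c) : S.Active c ∨ S.Active (unrot c) := by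
  by_contra hcon
  rw [not_or] at hcon
  have h1 : ¬ S.Face (S.g c).1 := fun h => hcon.1 ⟨hB.1, h⟩
  have h2 : ¬ S.Face (S.g (unrot c)).1 := fun h => hcon.2 ⟨hB.2.1, h⟩
  obtain ⟨C, hs, hcov⟩ := hC.remove_blade hB
  obtain ⟨i, hi⟩ := hs.dom _ (noncore_of_not_face hB.1 h1)
  have hn2 : (S.keep (S.F \ {c.1})).Noncore (S.g (unrot c)).1 :=
    noncore_of_not_face (a := unrot c) hB.2.1 h2
  obtain ⟨j, hj⟩ := hs.dom _ hn2
  exact hcov (hC.geo.see_pair hp (hC.sub _ hB.memF) (hC.sub _ (g_memF hB.1))
    (hC.sub _ (g_memF hB.2.1)) ⟨i, hi.mono (S.keep_le _)⟩ ⟨j, hj.mono (S.keep_le _)⟩)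

/-- a U diagonal of a blade gives a candidate -/
theorem Cex.cand_of_U {S : Obj I} {pt : Sd I → Pt} {R : Set Pt} (hC : Cex S pt R) {a : Sd I}
    (hB : S.Blade a ∨ S.Blade (rot a)) (hU : S.IsU pt a) : S.Cand pt a := by
  have hA := hC.s1 hB hU
  rcases hB with hB | hB
  · exact Or.inl ⟨hB, hA, Or.inl hU⟩
  · exact Or.inr ⟨hB, hA, Or.inl hU⟩

omit [DecidableEq I] in
theorem Cand.active {S : Obj I} {pt : Sd I → Pt} {a : Sd I} (hc : S.Cand pt a) :
    S.Active a := by
  rcases hc with hc | hc
  · exact hc.2.1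
  · exact hc.2.1

omit [DecidableEq I] in
theorem Cand.blade {S : Obj I} {pt : Sd I → Pt} {a : Sd I} (hc : S.Cand pt a) :
    S.Blade a ∨ S.Blade (rot a) := hc.imp (fun h => h.1) (fun h => h.1)

/-- sub-objects without the triangle `t` are sub-objects of the rest after the removal of `t` -/
theorem Le.keep_sdiff {S' S : Obj I} (hle : S'.Le S) {t : I} (ht : t ∉ S'.F) :
    S'.Le (S.keep (S.F \ {t})) := by
  refine ⟨fun s hs => ?_, fun b => ?_⟩
  · rw [keep_F S sdiff_subset, mem_sdiff, mem_singleton]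
    refine ⟨hle.F hs, ?_⟩
    rintro rfl
    exact ht hs
  · by_cases hb : S'.g b = b
    · exact Or.inr hb
    · left
      obtain ⟨h1, _⟩ := hle.glued hb
      have h2 := S'.memF b hb
      have h3 := g_memF (S := S') hb
      rw [h1] at h3
      rw [keep_g, if_pos, h1]
      rw [mem_sdiff, mem_sdiff, mem_singleton, mem_singleton]
      refine ⟨⟨hle.F h2, ?_⟩, hle.F h3, ?_⟩
      · intro h; rw [h] at h2; exact ht h2
      · intro h; rw [h] at h3; exact ht h3

/-- `a` a candidate, `t = a.1`, `s = (S.g a).1`.  If the sub-object `S'` does not contain `t`, but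
contains the OTHER neighbour of `t`, `C` solves `S'` and hits the corner `unrot (S.g a)` of `s`,
then `t` is covered -/
theorem Cand.cov {S S' : Obj I} {pt : Sd I → Pt} {R : Set Pt} (hg : S.Geo pt)
    (hR : ∀ t ∈ S.F, tri pt t ⊆ R) {a : Sd I} (hc : S.Cand pt a) (hle : S'.Le S)
    (ht : a.1 ∉ S'.F) (hoth : ∀ b : Sd I, b.1 = a.1 → S.g b ≠ b → b ≠ a → (S.g b).1 ∈ S'.F)
    {W C : Finset (Sd I)} (hs : Sol S' pt R W C) (hhit : S.Hit C (unrot (S.g a))) :
    Cov pt R C a.1 := by
  have hA := hc.active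
  have hit1 : ∃ i, S.Hit C ((S.g a).1, i) := ⟨(unrot (S.g a)).2, hhit⟩
  have hT : tri pt a.1 ⊆ R := hR _ (S.memF _ hA.1)
  have hS : tri pt (S.g a).1 ⊆ R := hR _ (g_memF hA.1)
  -- the other neighbour is dominated if it is not a face
  have hoth2 : ∀ b : Sd I, b.1 = a.1 → S.g b ≠ b → b ≠ a → ¬ S.Active b →
      ∃ i, S.Hit C ((S.g b).1, i) := by
    intro b hb hgb hne hna
    have h1 : ¬ S.Face (S.g b).1 := fun h => hna ⟨hgb, h⟩
    have h2 := noncore_of_not_face hgb h1
    have h3 : b.1 ∉ S'.F := by rw [hb]; exact ht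
    obtain ⟨i, hi⟩ := hs.dom _ (h2.mono (hle.keep_sdiff h3) (hoth b hb hgb hne))
    exact ⟨i, hi.mono hle⟩
  rcases hc with ⟨hB, _, hU | ⟨hp, hna⟩⟩ | ⟨hB, _, hU | ⟨hp, hna⟩⟩
  · exact hg.see_U hU hT hS hit1
  · exact hg.see_pair hp hT hS (hR _ (g_memF hB.2.1)) hit1
      (hoth2 (unrot a) rfl hB.2.1 (unrot_ne a) hna)
  · exact hg.see_U hU hT hS hit1
  · have h1 : Cov pt R C (rot a).1 := by
      refine hg.see_pair hp hT (hR _ (g_memF hB.1)) ?_ 
        (hoth2 (rot a) rfl hB.1 (rot_ne a) hna) ?_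
      · rw [unrot_rot]; exact hS
      · rw [unrot_rot]; exact hit1
    exact h1

/-- a blade triangle and an adjacent face have only one common side -/
theorem Blade.single_glued {S : Obj I} (hb : S.Bridgeless) {a b : Sd I}
    (hB : S.Blade a ∨ S.Blade (rot a)) (hA : S.Active a) (h1 : b.1 = a.1) (h2 : S.g b ≠ b)
    (h3 : b ≠ a) : (S.g b).1 ≠ (S.g a).1 := by
  intro he
  -- the glued sides of `t` are `a` and `b`
  have ht : ∀ x : Sd I, x.1 = a.1 → S.g x ≠ x → x = a ∨ x = b := by
    intro x hx hxg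
    rcases hB with hB | hB
    · have h4 := hB.eq_of_glued h1 h2
      rcases hB.eq_of_glued hx hxg with h5 | h5
      · exact Or.inl h5
      · rcases h4 with h4 | h4
        · exact absurd h4 h3
        · exact Or.inr (h5.trans h4.symm)
    · have h4 := hB.eq_of_glued (x := b) h1 h2
      rw [unrot_rot] at h4
      have h5 := hB.eq_of_glued (x := x) hx hxg
      rw [unrot_rot] at h5
      rcases h5 with h5 | h5
      · rcases h4 with h4 | h4
        · exact Or.inr (h5.trans h4.symm)
        · exact absurd h4 h3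
      · exact Or.inl h5
  have hne : S.g b ≠ S.g a := fun h => h3 (S.g_injective h)
  -- the third side of `s`
  obtain ⟨c, hc1, hc2, hc3, hc4⟩ : ∃ c : Sd I, c.1 = (S.g a).1 ∧ c ≠ S.g a ∧ c ≠ S.g b ∧
      ∀ x : Sd I, x.1 = (S.g a).1 → x = S.g a ∨ x = S.g b ∨ x = c := by
    rcases eq_of_fst_eq he with h4 | h4 | h4
    · exact absurd h4 hne
    · refine ⟨unrot (S.g a), rfl, unrot_ne _, by rw [h4]; exact unrot_ne_rot _, fun x hx => ?_⟩
      rw [h4]; exact eq_of_fst_eq hx
    · refine ⟨rot (S.g a), rfl, rot_ne _, by rw [h4]; exact (unrot_ne_rot _).symm,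
        fun x hx => ?_⟩
      rw [h4]
      rcases eq_of_fst_eq hx with h5 | h5 | h5
      · exact Or.inl h5
      · exact Or.inr (Or.inr h5)
      · exact Or.inr (Or.inl h5)
  have hcg : S.g c ≠ c := by
    have : S.Face c.1 := by rw [hc1]; exact hA.2
    exact this.glued rfl
  refine hb c ⟨{a.1, (S.g a).1}, ?_, ?_⟩
  · intro x hx
    rw [mem_insert, mem_singleton] at hx
    rcases hx with rfl | rfl
    · exact S.memF _ hA.1
    · exact g_memF hA.1
  · ext x
    rw [mem_bd, mem_singleton, mem_insert, mem_singleton, mem_insert, mem_singleton, not_or]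
    constructor
    · rintro ⟨h4, h5 | h5, h6, h7⟩
      · exfalso
        rcases ht x h5 h4 with rfl | rfl
        · exact h7 rfl
        · exact h7 he
      · rcases hc4 x h5 with rfl | rfl | rfl
        · rw [S.invol] at h6; exact absurd rfl h6
        · rw [S.invol] at h6; exact absurd h1 h6
        · rfl
    · rintro rfl
      refine ⟨hcg, Or.inr hc1, fun h4 => ?_, fun h4 => ?_⟩
      · rcases ht _ h4 (g_ne_iff.2 hcg) with h5 | h5
        · exact hc2 (by rw [← h5, S.invol])
        · exact hc3 (by rw [← h5, S.invol])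
      · exact S.ne x hcg (h4.trans hc1.symm)

/-- 3.1: the visit of a virtual blade is no ear end -/
theorem Cex.cand_not_earEnd {S : Obj I} {pt : Sd I → Pt} {R : Set Pt} (hC : Cex S pt R)
    {a : Sd I} (hc : S.Cand pt a) : ¬ S.EarEnd (unrot (S.g a)) := by
  rintro ⟨e, heE, hew⟩
  have hB := hc.blade
  have hA := hc.active
  have hsg := fun b => Blade.single_glued (b := b) hC.bridgeless hB hA
  obtain ⟨w, hw⟩ : ∃ w, w = unrot (S.g a) := ⟨_, rfl⟩
  have hw1 : w.1 = (S.g a).1 := by rw [hw]; rfl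
  rw [← hw] at hew
  -- the sides at the corner `w`
  have hwf : S.Face w.1 := by rw [hw1]; exact hA.2
  have hg1 : S.g w ≠ w := hwf.glued rfl
  have hg2 : S.g (unrot w) ≠ unrot w := hwf.glued (unrot_fst w)
  obtain ⟨S1, hS1⟩ : ∃ S1, S1 = S.keep (S.F \ {a.1, (S.g a).1}) := ⟨_, rfl⟩
  have hle1 : S1.Le S := by rw [hS1]; exact S.keep_le _
  have hF1 : ∀ t, t ∈ S1.F ↔ t ∈ S.F ∧ t ≠ a.1 ∧ t ≠ (S.g a).1 := by
    intro t
    rw [hS1, keep_F S sdiff_subset, mem_sdiff, mem_insert, mem_singleton, not_or]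
  have hconn1 : S1.Conn := by rw [hS1]; exact conn_remove_two hC.conn hC.bridgeless hB hA
  have hN1 : ∀ k, S1.N2 k = S.N2 k := by
    intro k; rw [hS1]; exact N2_remove_two hC.conn hC.bridgeless hB hA k
  have hlt1 : S1.glued.card < S.glued.card := by
    rw [hS1]; exact card_glued_remove_lt S hA.1 (mem_insert_self _ _)
  have hearT : ∀ f ∈ S.E, f.1 ≠ a.1 := by
    intro f hf
    rcases hB with hB | hB
    · exact hB.no_ear hf
    · exact hB.no_ear hf
  have hE1 : ∀ f, f ∈ S1.E ↔ f ∈ S.E := by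
    intro f
    rw [hS1, keep_E, mem_filter, mem_sdiff, mem_insert, mem_singleton, not_or]
    constructor
    · exact fun h => h.1
    · exact fun h => ⟨h, S.earF f h, hearT f h, hA.2.no_ear h⟩
  -- the neighbours of `w`
  have hnb : ∀ b : Sd I, b.1 = (S.g a).1 → b ≠ S.g a → S.g b ≠ b → (S.g b).1 ∈ S1.F := by
    intro b h1 h2 h3
    rw [hF1]
    refine ⟨g_memF h3, fun h4 => ?_, fun h4 => S.ne b h3 (h4.trans h1.symm)⟩
    have h5 : S.g b ≠ a := by
      intro h6; exact h2 (by rw [← h6, S.invol])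
    have h6 := hsg (S.g b) h4 (g_ne_iff.2 h3) h5
    rw [S.invol] at h6
    exact h6 h1
  have hwne : w ≠ S.g a := by rw [hw]; exact unrot_ne _
  have hwne2 : unrot w ≠ S.g a := by rw [hw, unrot_unrot]; exact rot_ne _
  have hm1 : (rot (S.g w)).1 ∈ S1.F := hnb w hw1 hwne hg1
  have hm2 : (S.g (unrot w)).1 ∈ S1.F := hnb (unrot w) hw1 hwne2 hg2
  -- drop the ear
  have heF : e ∈ S1.E := (hE1 e).2 heE
  obtain ⟨S2, hS2⟩ : ∃ S2, S2 = S1.setE (S1.E.erase e)
      (fun b hb => ⟨S1.earF b (mem_of_mem_erase hb), S1.earFree b (mem_of_mem_erase hb)⟩) :=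
    ⟨_, rfl⟩
  have hS2F : S2.F = S1.F := by rw [hS2]; rfl
  have hS2E : S2.E = S1.E.erase e := by rw [hS2]; rfl
  have hle2 : S2.Le S := by
    rw [hS2]; exact (setE_le _ _ _).trans hle1
  have hconn2 : S2.Conn := by rw [hS2]; exact hconn1
  have hlt2 : S2.glued.card < S.glued.card := by rw [hS2]; exact hlt1
  have hvis2 : S2.vis.card = S1.vis.card := by rw [hS2]; rfl
  have hN2 : ∀ k, S2.N2 k + 2 = S.N2 k := by
    intro k
    rw [← hN1 k]
    simp only [N2, hS2F, hvis2, hS2E, card_erase_of_mem heF]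
    have := card_pos.2 ⟨e, heF⟩
    omega
  obtain ⟨W, hW⟩ : ∃ W : Finset (Sd I), W = {S.g (unrot w), rot (S.g w)} := ⟨_, rfl⟩
  have hWc : W.card ≤ 2 := by rw [hW]; exact card_le_two
  have hWs : W ⊆ S2.sides := by
    intro x hx
    rw [hW, mem_insert, mem_singleton] at hx
    rw [mem_sides, hS2F]
    rcases hx with rfl | rfl
    · exact hm2
    · exact hm1
  obtain ⟨C, hs, hcard⟩ := hC.ih S2 pt (hC.geo.sub hle2) hconn2
    (fun t ht => hC.sub t (hle2.F ht)) hlt2 W hWs
  -- the corner `w` is hit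
  have hwS2 : w.1 ∉ S2.F := by
    rw [hS2F, hF1]; exact fun h => h.2.2 hw1
  have heq1 : S.Eqv (S.g (unrot w)) w := by
    have := (Eqv.of_glued' hg2).symm
    rwa [rot_unrot] at this
  have heq2 : S.Eqv w (rot (S.g w)) := Eqv.of_glued hg1
  obtain ⟨d, hd, d', hd', hne, hdd, hdw⟩ := exists_dup hle2 hs
    (w := S.g (unrot w)) (w' := rot (S.g w)) (by rw [hW]; exact mem_insert_self _ _)
    (by rw [hW]; exact mem_insert_of_mem (mem_singleton_self _))
    (not_eqv_remove hle2 hC.geo.linear hg1 hg2 hwS2) (heq1.trans heq2)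
  have hhit : S.Hit C w := ⟨d, hd, hdw.trans heq1⟩
  have hsol : Sol S pt R ∅ C := by
    refine hs.transfer hle2 (fun w hw => absurd hw (notMem_empty w)) (fun f hf => ?_)
      (fun t _ _ hn => absurd hn (Bridgeless.not_noncore hC.conn hC.bridgeless hC.two_le t))
      (fun t ht ht' => ?_)
    · by_cases hfe : f = e
      · subst hfe
        rcases hew with h | h
        · exact Or.inl (hhit.eqv h.symm)
        · exact Or.inr (hhit.eqv h.symm)
      · have h1 : f ∈ S2.E := by
          rw [hS2E, mem_erase]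
          exact ⟨hfe, (hE1 f).2 hf⟩
        exact (hs.ear f h1).imp (fun h => h.mono hle2) (fun h => h.mono hle2)
    · rw [hS2F, hF1] at ht'
      by_cases h1 : t = a.1
      · subst h1
        refine Cand.cov hC.geo hC.sub hc hle2 ?_ ?_ hs (by rw [← hw]; exact hhit)
        · rw [hS2F, hF1]; exact fun h => h.2.1 rfl
        · intro b h2 h3 h4
          rw [hS2F, hF1]
          exact ⟨g_memF h3, fun h5 => S.ne b h3 (h5.trans h2.symm), hsg b h2 h3 h4⟩
      · have h2 : t = w.1 := by
          rw [hw1]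
          by_contra h3
          exact ht' ⟨ht, h1, h3⟩
        rw [h2]
        exact hC.geo.cov_of_hit hwf.1 (hC.sub _ hwf.1) hhit
  refine hC.bad ⟨C.erase d, hsol.erase hC.geo hd' hne hdd, ?_⟩
  rw [card_erase_of_mem hd, card_empty]
  have h1 := hN2 W.card
  have h2 : S.N2 W.card ≤ S.N2 0 + 8 := by
    simp only [N2]; omega
  have h3 := card_pos.2 ⟨d, hd⟩
  omega

end Obj

end AG
end

/- AG.Red.Coin -/
section
/-!
# Project AG, 5.2: coincidences of two blades at the same visit

`w`, `w₁`, `w₂` are corners; a virtual blade at `w` consists of the face `s = w.1` and the blade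
triangle `t = (S.g (rot w)).1`.
-/

set_option linter.unusedSectionVars false

namespace AG

open Finset

variable {I : Type} [DecidableEq I]

namespace Obj

/-- virtual blade at the corner `w` -/
def Virt (S : Obj I) (pt : Sd I → Pt) (w : Sd I) : Prop := S.VirtA pt w ∨ S.VirtB pt w

section

variable {S : Obj I} {pt : Sd I → Pt}

theorem VirtA.glued {w : Sd I} (h : S.VirtA pt w) : S.g (rot w) ≠ rot w :=
  g_ne_iff.1 h.2.1.1

theorem VirtB.glued {w : Sd I} (h : S.VirtB pt w) : S.g (rot w) ≠ rot w :=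
  g_ne_iff.1 h.2.1.1

theorem Virt.glued {w : Sd I} (h : S.Virt pt w) : S.g (rot w) ≠ rot w :=
  h.elim VirtA.glued VirtB.glued

theorem Virt.face {w : Sd I} (h : S.Virt pt w) : S.Face w.1 :=
  h.elim VirtA.face VirtB.face

theorem Virt.not_face {w : Sd I} (h : S.Virt pt w) : ¬ S.Face (S.g (rot w)).1 := by
  intro hf
  rcases h with h | h
  · exact hf.glued (rot_fst _) h.1.2.2.1
  · exact hf.glued (a := rot (rot (S.g (rot w)))) rfl h.1.2.2.1

theorem BladeAt.iff {w : Sd I} : S.BladeAt pt w ↔ S.Blade w ∨ S.Virt pt w := Iff.rfl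

/-- the only glued sides of the blade triangle of a virtual blade of type A -/
theorem VirtA.only {w d : Sd I} (h : S.VirtA pt w) (hd : d.1 = (S.g (rot w)).1)
    (hg : S.g d ≠ d) : d = S.g (rot w) ∨ d = unrot (S.g (rot w)) := by
  rcases eq_of_fst_eq hd with h1 | h1 | h1
  · exact Or.inl h1
  · subst h1; exact absurd h.1.2.2.1 hg
  · exact Or.inr h1

/-- the only glued sides of the blade triangle of a virtual blade of type B -/
theorem VirtB.only {w d : Sd I} (h : S.VirtB pt w) (hd : d.1 = (S.g (rot w)).1)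
    (hg : S.g d ≠ d) : d = S.g (rot w) ∨ d = rot (S.g (rot w)) := by
  rcases eq_of_fst_eq hd with h1 | h1 | h1
  · exact Or.inl h1
  · exact Or.inr h1
  · subst h1
    have h2 := h.1.2.2.1
    rw [rot_rot] at h2
    exact absurd h2 hg

end

end Obj

open Obj

namespace Geo

variable {S : Obj I} {pt : Sd I → Pt} (hG : Geo S pt)
include hG

/-- two blades at the same visit are in different triangles -/
theorem blade_fst_ne {w₁ w₂ : Sd I} (h₁ : w₁.1 ∈ S.F) (hne : w₁ ≠ w₂) (he : pt w₁ = pt w₂) :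
    w₁.1 ≠ w₂.1 := fun h => hne (hG.eq_of_fst (h ▸ h₁) h he)

/-- NO CORNER OF THE BLADE TRIANGLE OF A VIRTUAL BLADE AT `w` IS AT THE POINT OF `w` -/
theorem pt_ne_of_across {w d : Sd I} (h : S.g (rot w) ≠ rot w) (hd : d.1 = (S.g (rot w)).1) :
    pt d ≠ pt w := by
  have hw : w.1 ∈ S.F := S.memF (rot w) h
  rcases eq_of_fst_eq hd with h1 | h1 | h1
  · subst h1
    rw [hG.mat' h, rot_rot]
    exact (hG.pt_ne_unrot hw).symm
  · subst h1
    rw [hG.mat _ h]
    exact (hG.pt_ne_rot hw).symm
  · subst h1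
    have := hG.apex_ne h
    rw [unrot_rot] at this
    exact this.symm

theorem not_eqv_of_across {w d : Sd I} (h : S.g (rot w) ≠ rot w) (hd : d.1 = (S.g (rot w)).1) :
    ¬ S.Eqv d w := fun he => hG.pt_ne_of_across h hd (hG.pt_eqv he)

/-- no side of the blade triangle of a virtual blade at `w` has an end at the point of `w` -/
theorem pt_ne_of_across' {w d : Sd I} (h : S.g (rot w) ≠ rot w) (hd : d.1 = (S.g (rot w)).1) :
    pt (rot d) ≠ pt w := hG.pt_ne_of_across h (by rw [rot_fst, hd])

/-- (c1) the blade triangles of two different virtual blades at the same visit are different -/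
theorem coin1 {w₁ w₂ : Sd I} (h₁ : S.g (rot w₁) ≠ rot w₁) (h₂ : S.g (rot w₂) ≠ rot w₂)
    (hne : w₁ ≠ w₂) (he : pt w₁ = pt w₂) : (S.g (rot w₁)).1 ≠ (S.g (rot w₂)).1 := by
  intro ht
  have e1 : pt (unrot (S.g (S.g (rot w₁)))) = pt w₁ := by rw [S.invol, unrot_rot]
  have e2 : pt (unrot (S.g (S.g (rot w₂)))) = pt w₂ := by rw [S.invol, unrot_rot]
  rcases eq_of_fst_eq ht with h | h | h
  · exact hne (rot_injective (S.g_injective h))
  · -- `g (rot w₁) = rot (g (rot w₂))`
    have h3 : S.g (rot w₂) = unrot (S.g (rot w₁)) := by rw [h, unrot_rot]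
    have := hG.c1 (c := S.g (rot w₁)) (g_ne_iff.2 h₁) (by rw [← h3]; exact g_ne_iff.2 h₂)
    rw [← h3, e1, e2] at this
    exact this he
  · have := hG.c1 (c := S.g (rot w₂)) (g_ne_iff.2 h₂) (by rw [← h]; exact g_ne_iff.2 h₁)
    rw [← h, e1, e2] at this
    exact this he.symm

/-- (c2) the blade triangle of a virtual blade at `w₁` is not glued to the triangle of another
(real or virtual) blade at the same visit -/
theorem coin2 {w₁ w₂ : Sd I} (h₁ : S.g (rot w₁) ≠ rot w₁) (hne : w₁ ≠ w₂)
    (he : pt w₁ = pt w₂) {d : Sd I} (hd : d.1 = (S.g (rot w₁)).1) (hg : S.g d ≠ d) :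
    (S.g d).1 ≠ w₂.1 := by
  intro h
  rcases eq_of_fst_eq h with h3 | h3 | h3
  · -- the side of `w₂.1` is `w₂`
    have h4 := hG.mat d hg
    have h5 := hG.mat' hg
    rw [h3] at h5
    exact hG.pt_ne_of_across' h₁ hd (h5.symm.trans he.symm)
  · -- the side opposite to `w₂`
    have h4 : d = S.g (rot w₂) := by rw [← h3, S.invol]
    have h5 : S.g (rot w₂) ≠ rot w₂ := by
      rw [← h4, ← h3]; exact hg.symm
    exact hG.coin1 h₁ h5 hne he (by rw [← hd, h4])
  · have h4 := hG.mat d hg
    rw [h3, rot_unrot] at h4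
    exact hG.pt_ne_of_across h₁ hd (h4.symm.trans he.symm)

/-- (c2), the other direction -/
theorem coin2' {w₁ w₂ : Sd I} (h₁ : S.g (rot w₁) ≠ rot w₁) (hne : w₁ ≠ w₂)
    (he : pt w₁ = pt w₂) {d : Sd I} (hd : d.1 = w₂.1) (hg : S.g d ≠ d) :
    (S.g d).1 ≠ (S.g (rot w₁)).1 := by
  intro h
  have := hG.coin2 h₁ hne he h (g_ne_iff.2 hg)
  rw [S.invol] at this
  exact this hd

/-- the blade triangle of a virtual blade at `w₁` is not the triangle of a real or virtual blade
at the same visit -/
theorem coin1' {w₁ w₂ : Sd I} (h₁ : S.g (rot w₁) ≠ rot w₁) (he : pt w₁ = pt w₂) :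
    (S.g (rot w₁)).1 ≠ w₂.1 := fun h =>
  hG.pt_ne_of_across (d := w₂) h₁ h.symm he.symm

/-- core of (c3): both of type A -/
theorem coin3A {w₁ w₂ : Sd I} (h₁ : S.Face w₁.1) (hU : S.IsU pt (S.g (rot w₂)))
    (he : pt w₁ = pt w₂) (hx : pt (unrot (S.g (rot w₂))) = pt (unrot w₁)) : False := by
  refine hG.no_side_across hU (d := unrot w₁) h₁.1 ⟨hx.symm, ?_⟩
  rw [rot_unrot, S.invol, unrot_rot, he]

/-- core of (c3): both of type B -/
theorem coin3B {w₁ w₂ : Sd I} (h₁ : S.Face w₁.1) (hU : S.IsU pt (S.g (rot w₂)))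
    (he : pt w₁ = pt w₂) (hx : pt (unrot (S.g (rot w₂))) = pt (rot w₁)) : False := by
  refine hG.no_side_across' hU (d := w₁) h₁.1 ⟨?_, hx.symm⟩
  rw [S.invol, unrot_rot, he]

/-- (c3) if the blade triangles of two virtual blades at the same visit are adjacent, then they
have the same apex: the apex corners are consecutive in their fan, and one blade is of type A, the
other one of type B -/
theorem coin3 {w₁ w₂ : Sd I} (h₁ : S.Virt pt w₁) (h₂ : S.Virt pt w₂) (he : pt w₁ = pt w₂)
    {d : Sd I} (hd : d.1 = (S.g (rot w₁)).1) (hg : S.g d ≠ d)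
    (hd2 : (S.g d).1 = (S.g (rot w₂)).1) :
    (S.VirtA pt w₁ ∧ S.VirtB pt w₂ ∧ S.Step (rot (S.g (rot w₂))) (S.g (rot w₁))) ∨
    (S.VirtB pt w₁ ∧ S.VirtA pt w₂ ∧ S.Step (rot (S.g (rot w₁))) (S.g (rot w₂))) := by
  have hg' := g_ne_iff.2 hg
  -- `d` is not the virtual side
  have n1 : d ≠ S.g (rot w₁) := by
    intro h
    apply h₂.not_face
    rw [← hd2, h, S.invol]
    exact h₁.face
  have n2 : S.g d ≠ S.g (rot w₂) := by
    intro h
    apply h₁.not_face
    rw [← hd, S.g_injective h]
    exact h₂.face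
  have m1 := hG.mat d hg
  have m2 := hG.mat' hg
  -- the position of the apexes
  have q1 : pt (S.g (rot w₁)) = pt (unrot w₁) := by rw [hG.mat' h₁.glued, rot_rot]
  have q1' : pt (rot (S.g (rot w₁))) = pt (rot w₁) := hG.mat _ h₁.glued
  have q2 : pt (S.g (rot w₂)) = pt (unrot w₂) := by rw [hG.mat' h₂.glued, rot_rot]
  have q2' : pt (rot (S.g (rot w₂))) = pt (rot w₂) := hG.mat _ h₂.glued
  have nb : ¬ (S.Blk pt d ∧ S.Blk pt (S.g d)) := fun h => hG.not_blk_both h.1 h.2
  rcases h₁ with h₁ | h₁ <;> rcases h₂ with h₂ | h₂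
  · -- A, A
    exfalso
    have e1 := (h₁.only hd hg).resolve_left n1
    have e2 := (h₂.only hd2 hg').resolve_left n2
    have u1 : S.IsU pt (S.g (rot w₁)) ∨ S.Blk pt (S.g d) := by
      rcases h₁.2.2 with h | h
      · exact Or.inl h
      · right; rw [e1]; exact h.1.b2
    have u2 : S.IsU pt (S.g (rot w₂)) ∨ S.Blk pt d := by
      rcases h₂.2.2 with h | h
      · exact Or.inl h
      · right
        have h3 := h.1.b2
        rwa [← e2, S.invol] at h3
    rcases u1 with u1 | u1
    · -- `t₁` is of type U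
      refine hG.coin3A h₂.face u1 he.symm ?_
      rw [← e1, ← m1, e2, rot_unrot, q2]
    rcases u2 with u2 | u2
    · refine hG.coin3A h₁.face u2 he ?_
      rw [← e2, m2, e1, rot_unrot, q1]
    exact nb ⟨u2, u1⟩
  · -- A, B
    left
    have e1 := (h₁.only hd hg).resolve_left n1
    have e2 := (h₂.only hd2 hg').resolve_left n2
    refine ⟨h₁, h₂, ?_, ?_⟩
    · rw [← e2]; exact hg'
    · rw [← e2, S.invol, e1, rot_unrot]
  · -- B, A
    right
    have e1 := (h₁.only hd hg).resolve_left n1
    have e2 := (h₂.only hd2 hg').resolve_left n2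
    refine ⟨h₁, h₂, ?_, ?_⟩
    · rw [← e1]; exact hg
    · rw [← e1, e2, rot_unrot]
  · -- B, B
    exfalso
    have e1 := (h₁.only hd hg).resolve_left n1
    have e2 := (h₂.only hd2 hg').resolve_left n2
    have u1 : S.IsU pt (S.g (rot w₁)) ∨ S.Blk pt d := by
      rcases h₁.2.2 with h | h
      · exact Or.inl h
      · right; rw [e1]; exact h.1.b1
    have u2 : S.IsU pt (S.g (rot w₂)) ∨ S.Blk pt (S.g d) := by
      rcases h₂.2.2 with h | h
      · exact Or.inl h
      · right; rw [e2]; exact h.1.b1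
    rcases u1 with u1 | u1
    · refine hG.coin3B h₂.face u1 he.symm ?_
      rw [← rot_rot, ← e1, ← m2, e2, q2']
    rcases u2 with u2 | u2
    · refine hG.coin3B h₁.face u2 he ?_
      rw [← rot_rot, ← e2, m1, e1, q1']
    exact nb ⟨u1, u2⟩

end Geo

end AG
end

/- AG.Red.Ears -/
section
/-!
# Project AG, block RED: 2.5, ear ends in a minimal counterexample
-/

namespace AG

open Finset

variable {I : Type} [DecidableEq I]

namespace Obj

/-- 2.5, first part: the start of an ear and the end of an ear are never at the same visit -/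
theorem Cex.not_two_ears {S : Obj I} {pt : Sd I → Pt} {R : Set Pt} (hC : Cex S pt R)
    {a b : Sd I} (ha : a ∈ S.E) (hb : b ∈ S.E) : ¬ S.Eqv a (rot b) := by
  intro h
  have hl := hC.geo.linear
  have hbr := hC.bridgeless
  have hab : a ≠ b := by
    rintro rfl
    have h1 := hC.geo.ccw_at (S.earF a ha)
    rw [hC.geo.pt_eq h] at h1
    exact Ccw.ne h1 rfl
  have hau := S.earFree a ha
  have hd : S.g (unrot a) ≠ unrot a :=
    (Bridgeless.two_glued hC.conn hbr hC.two_le (S.earF a ha) hau).2
  have hE1 : ∀ c ∈ (S.E.erase a).erase b, c.1 ∈ (S.cut (unrot a)).F ∧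
      (S.cut (unrot a)).g c = c := fun c hc => by
    have hcE : c ∈ (S.cut (unrot a)).E := mem_of_mem_erase (mem_of_mem_erase hc)
    exact ⟨(S.cut (unrot a)).earF c hcE, (S.cut (unrot a)).earFree c hcE⟩
  obtain ⟨S1, hS1⟩ : ∃ S1, S1 = (S.cut (unrot a)).setE ((S.E.erase a).erase b) hE1 := ⟨_, rfl⟩
  have hle : S1.Le S := by
    rw [hS1]; exact (setE_le _ _ _).trans (cut_le _ _)
  have hF : S1.F = S.F := by rw [hS1]; rfl
  have hE : S1.E = (S.E.erase a).erase b := by rw [hS1]; rfl
  have hv : S1.vis.card = S.vis.card + 2 := by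
    rw [hS1]; exact card_vis_cut S hd
  have hconn : S1.Conn := by
    rw [hS1]; exact hC.conn.cut (hbr _)
  have hgl : S1.glued.card < S.glued.card := by
    have h1 := card_glued_cut S hd
    have h2 : S1.glued.card = (S.cut (unrot a)).glued.card := by rw [hS1]; rfl
    omega
  have hne : ¬ S1.Eqv (S.g (unrot a)) a := by
    have := not_eqv_cut' hl hd
    rw [rot_unrot] at this
    rw [hS1]; exact this
  have hEqv : S.Eqv (S.g (unrot a)) a := by
    have := Eqv.of_glued' (S := S) hd
    rw [rot_unrot] at this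
    exact this.symm
  have hEcard : S1.E.card + 2 = S.E.card := by
    rw [hE, card_erase_of_mem (mem_erase.2 ⟨hab.symm, hb⟩), card_erase_of_mem ha]
    have h1 : 1 < S.E.card := one_lt_card.2 ⟨a, ha, b, hb, hab⟩
    omega
  have hga : S.g (unrot a) ≠ a := fun h1 => hne (by rw [h1]; exact Eqv.refl _ _)
  have hWc : ({S.g (unrot a), a} : Finset (Sd I)).card = 2 := card_pair hga
  obtain ⟨C, hs, hcard⟩ := hC.ih S1 pt (hC.geo.sub hle) hconn
    (fun t ht => hC.sub t (hF ▸ ht)) hgl {S.g (unrot a), a} (by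
      intro w hw
      rw [mem_sides, hF]
      rcases mem_insert.1 hw with rfl | hw
      · exact g_memF hd
      · rw [mem_singleton.1 hw]; exact S.earF a ha)
  have hHa : S.Hit C a := (hs.forced a (by simp)).mono hle
  have hsol : Sol S pt R ∅ C := by
    refine Sol.transfer hle hs (fun w hw => absurd hw (notMem_empty w)) (fun e he => ?_)
      (fun t ht ht' => absurd (hF ▸ ht) ht') (fun t ht ht' => absurd (hF ▸ ht) ht')
    by_cases h1 : e = a
    · rw [h1]; exact Or.inl hHa
    · by_cases h2 : e = b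
      · rw [h2]; exact Or.inr (hHa.eqv h)
      · have he1 : e ∈ S1.E := by
          rw [hE]; exact mem_erase.2 ⟨h2, mem_erase.2 ⟨h1, he⟩⟩
        exact (hs.ear e he1).imp (fun h => h.mono hle) (fun h => h.mono hle)
  obtain ⟨d, hdC, d', hd'C, hdd, hdeq, -⟩ := exists_dup (w := S.g (unrot a)) (w' := a) hle hs
    (by simp) (by simp) hne hEqv
  refine hC.bad ⟨C.erase d, hsol.erase hC.geo hd'C hdd hdeq, ?_⟩
  have h3 : (C.erase d).card + 1 = C.card := card_erase_add_one hdC
  rw [hWc] at hcard
  simp only [N2, hF, hv] at hcard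
  simp only [N2, card_empty]
  omega

/-- 2.5, second part: the apex visit of a real blade is no ear end -/
theorem Cex.blade_not_earEnd {S : Obj I} {pt : Sd I → Pt} {R : Set Pt} (hC : Cex S pt R)
    {c : Sd I} (hB : S.Blade c) : ¬ S.EarEnd c := by
  rintro ⟨e, heE, he⟩
  have hl := hC.geo.linear
  have hbr := hC.bridgeless
  have hnot : ∀ x ∈ S.E, x.1 ≠ c.1 := by
    intro x hx hxc
    rcases eq_of_fst_eq hxc with h | h | h
    · rw [h] at hx; exact hB.1 (S.earFree _ hx)
    · rw [h] at hx; exact hB.2.2.2 hx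
    · rw [h] at hx; exact hB.2.1 (S.earFree _ hx)
  have hmem0 : ∀ x ∈ S.E, x ∈ (S.keep (S.F \ {c.1})).E := by
    intro x hx
    rw [keep_E, mem_filter, mem_sdiff, mem_singleton]
    exact ⟨hx, S.earF x hx, hnot x hx⟩
  have hE0 : (S.keep (S.F \ {c.1})).E = S.E := by
    refine subset_antisymm (filter_subset _ _) hmem0
  have hE1 : ∀ x ∈ S.E.erase e, x.1 ∈ (S.keep (S.F \ {c.1})).F ∧
      (S.keep (S.F \ {c.1})).g x = x := fun x hx => by
    have hx1 := hmem0 x (mem_of_mem_erase hx)
    exact ⟨(S.keep (S.F \ {c.1})).earF x hx1, (S.keep (S.F \ {c.1})).earFree x hx1⟩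
  obtain ⟨S1, hS1⟩ : ∃ S1, S1 = (S.keep (S.F \ {c.1})).setE (S.E.erase e) hE1 := ⟨_, rfl⟩
  have hle : S1.Le S := by
    rw [hS1]; exact (setE_le _ _ _).trans (keep_le _ _)
  have hF : S1.F = S.F \ {c.1} := by rw [hS1]; exact keep_F S sdiff_subset
  have hE : S1.E = S.E.erase e := by rw [hS1]; rfl
  have hv : S1.vis.card = (S.keep (S.F \ {c.1})).vis.card := by rw [hS1]; rfl
  have hF0 : S1.F.card = (S.keep (S.F \ {c.1})).F.card := by rw [hS1]; rfl
  have hN := hB.N2_remove 2
  have hconn : S1.Conn := by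
    rw [hS1]; exact hB.conn_remove hC.conn hbr
  have hgl : S1.glued.card < S.glued.card := by
    have h1 := card_glued_remove_lt S (M := {c.1}) hB.1 (mem_singleton_self _)
    have h2 : S1.glued.card = (S.keep (S.F \ {c.1})).glued.card := by rw [hS1]; rfl
    omega
  have hcF : c.1 ∉ S1.F := by
    rw [hF]; simp
  have hne : ¬ S1.Eqv (S.g (unrot c)) (rot (S.g c)) :=
    not_eqv_remove hle hl hB.1 hB.2.1 hcF
  have hEq1 : S.Eqv c (S.g (unrot c)) := by
    have := Eqv.of_glued' (S := S) hB.2.1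
    rwa [rot_unrot] at this
  have hEq2 : S.Eqv c (rot (S.g c)) := Eqv.of_glued hB.1
  have hEqv : S.Eqv (S.g (unrot c)) (rot (S.g c)) := hEq1.symm.trans hEq2
  have hEcard : S1.E.card + 1 = S.E.card := by
    rw [hE]; exact card_erase_add_one heE
  have hga : S.g (unrot c) ≠ rot (S.g c) := fun h1 => hne (by rw [h1]; exact Eqv.refl _ _)
  have hWc : ({S.g (unrot c), rot (S.g c)} : Finset (Sd I)).card = 2 := card_pair hga
  obtain ⟨C, hs, hcard⟩ := hC.ih S1 pt (hC.geo.sub hle) hconn
    (fun t ht => hC.sub t (hle.F ht)) hgl {S.g (unrot c), rot (S.g c)} (by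
      intro w hw
      rw [mem_sides, hF, mem_sdiff, mem_singleton]
      rcases mem_insert.1 hw with rfl | hw
      · exact ⟨g_memF hB.2.1, S.ne _ hB.2.1⟩
      · rw [mem_singleton.1 hw]; exact ⟨g_memF hB.1, S.ne _ hB.1⟩)
  have hHc : S.Hit C c := ((hs.forced _ (mem_insert_self _ _)).mono hle).eqv hEq1.symm
  have hsol : Sol S pt R ∅ C := by
    refine Sol.transfer hle hs (fun w hw => absurd hw (notMem_empty w)) (fun x hx => ?_)
      (fun t ht ht' _ => ?_) (fun t ht ht' => ?_)
    · by_cases h1 : x = e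
      · rw [h1]
        rcases he with he | he
        · exact Or.inl (hHc.eqv he.symm)
        · exact Or.inr (hHc.eqv he.symm)
      · have hx1 : x ∈ S1.E := by
          rw [hE]; exact mem_erase.2 ⟨h1, hx⟩
        exact (hs.ear x hx1).imp (fun h => h.mono hle) (fun h => h.mono hle)
    · have h1 : t = c.1 := by
        by_contra h2
        exact ht' (by rw [hF, mem_sdiff, mem_singleton]; exact ⟨ht, h2⟩)
      exact ⟨c.2, by rw [h1]; exact hHc⟩
    · have h1 : t = c.1 := by
        by_contra h2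
        exact ht' (by rw [hF, mem_sdiff, mem_singleton]; exact ⟨ht, h2⟩)
      rw [h1]
      exact hC.geo.cov_of_hit hB.memF (hC.sub _ hB.memF) hHc
  obtain ⟨d, hdC, d', hd'C, hdd, hdeq, -⟩ := exists_dup (w := S.g (unrot c))
    (w' := rot (S.g c)) hle hs (by simp) (by simp) hne hEqv
  refine hC.bad ⟨C.erase d, hsol.erase hC.geo hd'C hdd hdeq, ?_⟩
  have h3 : (C.erase d).card + 1 = C.card := card_erase_add_one hdC
  rw [hWc] at hcard
  simp only [N2, hF0, hv] at hcard
  simp only [N2, hE0] at hN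
  simp only [N2, card_empty]
  omega

end Obj

end AG
end

/- AG.Red.FlipRed -/
section
/-!
# Project AG, block RED: 2.6, flips of a minimal counterexample
-/

namespace AG

open Finset

variable {I : Type} [DecidableEq I]

/-- the corner of the old object at the vertex of the new corner `c` (in the same visit) -/
def pushC (a b c : Sd I) : Sd I :=
  if c = rot a then unrot b else if c = rot b then unrot a else c

/-- a corner of the new object at the vertex of the old corner `c` -/
def pullC (a b c : Sd I) : Sd I :=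
  if c = rot a then b else if c = rot b then a else c

section

variable {a b : Sd I}

theorem pushC_ra : pushC a b (rot a) = unrot b := by simp [pushC]

theorem pushC_rb (h : b.1 ≠ a.1) : pushC a b (rot b) = unrot a := by
  have h2 : rot b ≠ rot a := ne_of_fst h
  simp [pushC, h2]

theorem pushC_other {c : Sd I} (h1 : c ≠ rot a) (h2 : c ≠ rot b) : pushC a b c = c := by
  simp [pushC, h1, h2]

theorem pullC_ra : pullC a b (rot a) = b := by simp [pullC]

theorem pullC_rb (h : b.1 ≠ a.1) : pullC a b (rot b) = a := by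
  have h2 : rot b ≠ rot a := ne_of_fst h
  simp [pullC, h2]

theorem pullC_other {c : Sd I} (h1 : c ≠ rot a) (h2 : c ≠ rot b) : pullC a b c = c := by
  simp [pullC, h1, h2]

theorem pushC_fst (h : b.1 ≠ a.1) (c : Sd I) :
    (pushC a b c).1 = c.1 ∨ ((pushC a b c).1 = a.1 ∨ (pushC a b c).1 = b.1) := by
  by_cases h1 : c = rot a
  · subst h1; rw [pushC_ra]; exact Or.inr (Or.inr rfl)
  by_cases h2 : c = rot b
  · subst h2; rw [pushC_rb h]; exact Or.inr (Or.inl rfl)
  rw [pushC_other h1 h2]; exact Or.inl rfl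

theorem pushC_rot_sigF (h : b.1 ≠ a.1) {f : Sd I} (h1 : f ≠ a) (h2 : f ≠ b) :
    pushC a b (rot (sigF a b f)) = rot f := by
  by_cases k1 : f = rot a
  · subst k1; rw [sigF_ra, pushC_rb h, rot_rot]
  by_cases k2 : f = rot b
  · subst k2; rw [sigF_rb h, pushC_ra, rot_rot]
  rw [sigF_other h1 k1 h2 k2]
  exact pushC_other (fun e => h1 (rot_injective e)) (fun e => h2 (rot_injective e))

theorem pullC_eq_sigF (h : b.1 ≠ a.1) {f : Sd I} (h1 : f ≠ a) (h2 : f ≠ b) :
    pullC a b f = sigF a b f := by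
  by_cases k1 : f = rot a
  · subst k1; rw [sigF_ra, pullC_ra]
  by_cases k2 : f = rot b
  · subst k2; rw [sigF_rb h, pullC_rb h]
  rw [sigF_other h1 k1 h2 k2, pullC_other k1 k2]

theorem sigF_mem {X : Finset I} (h : b.1 ≠ a.1) (hX : a.1 ∈ X ↔ b.1 ∈ X) (c : Sd I) :
    (sigF a b c).1 ∈ X ↔ c.1 ∈ X := by
  by_cases k1 : c = rot a
  · subst k1; rw [sigF_ra, rot_fst]; exact hX.symm
  by_cases k2 : c = rot b
  · subst k2; rw [sigF_rb h, rot_fst]; exact hX
  rw [sigF_fst_other k1 k2]

end

namespace Obj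

/-- the two old corners at `x` and at `y` which have disappeared -/
theorem flip_eqv_old {S : Obj I} {a : Sd I} (h : S.Flippable a) :
    S.Eqv (rot (S.g a)) a ∧ S.Eqv (rot a) (S.g a) :=
  ⟨(Eqv.of_glued h.glued).symm, Eqv.of_glued' h.glued⟩

theorem pushC_sigF_eqv {S : Obj I} {a : Sd I} (h : S.Flippable a) {e : Sd I} (h1 : e ≠ a)
    (h2 : e ≠ S.g a) : S.Eqv (pushC a (S.g a) (sigF a (S.g a) e)) e := by
  by_cases k1 : e = rot a
  · subst k1
    rw [sigF_ra, pushC_other (ne_of_fst h.ne) (rot_ne _).symm]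
    exact (flip_eqv_old h).2.symm
  by_cases k2 : e = rot (S.g a)
  · subst k2
    rw [sigF_rb h.ne, pushC_other (rot_ne _).symm (ne_of_fst h.ne.symm)]
    exact (flip_eqv_old h).1.symm
  rw [sigF_other h1 k1 h2 k2, pushC_other k1 k2]
  exact Eqv.refl _ _

/-- visits are unchanged: equivalent corners of the flip are equivalent in `S` -/
theorem flip_eqv {S : Obj I} {a : Sd I} (h : S.Flippable a) {c d : Sd I}
    (hcd : (S.flip a h).Eqv c d) : S.Eqv (pushC a (S.g a) c) (pushC a (S.g a) d) := by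
  induction hcd with
  | rel x y hxy =>
    obtain ⟨h1, rfl⟩ := hxy
    obtain ⟨e, rfl⟩ : ∃ e, sigF a (S.g a) e = x := ⟨sigB a (S.g a) x, sigF_sigB h.ne x⟩
    rw [flip_g_sig]
    rw [flip_g_sig] at h1
    have hge : S.g e ≠ e := fun e' => h1 (by rw [e'])
    by_cases k1 : e = a
    · rw [k1, sigF_a, pushC_ra, sigF_b h.ne, rot_rot,
        pushC_other (c := unrot (S.g a)) (ne_of_fst h.ne) (unrot_ne_rot _)]
      exact Eqv.refl _ _
    by_cases k2 : e = S.g a
    · rw [k2, S.invol, sigF_b h.ne, pushC_rb h.ne, sigF_a, rot_rot,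
        pushC_other (unrot_ne_rot _) (ne_of_fst h.ne.symm)]
      exact Eqv.refl _ _
    have m1 : S.g e ≠ a := fun e' => k2 (by rw [← e', S.invol])
    have m2 : S.g e ≠ S.g a := fun e' => k1 (S.g_injective e')
    rw [pushC_rot_sigF h.ne m1 m2]
    exact (pushC_sigF_eqv h k1 k2).trans (Eqv.of_glued hge)
  | refl x => exact Eqv.refl _ _
  | symm x y _ ih => exact ih.symm
  | trans x y z _ _ ih1 ih2 => exact ih1.trans ih2

theorem flip_eqv_new {S : Obj I} {a : Sd I} (h : S.Flippable a) :
    (S.flip a h).Eqv (unrot (S.g a)) (rot a) ∧ (S.flip a h).Eqv (unrot a) (rot (S.g a)) := by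
  have h1 := flip_g_rot h
  have h2 := flip_g_rot' h
  constructor
  · have h3 : (S.flip a h).g (rot a) ≠ rot a := by
      rw [h1]; exact ne_of_fst h.ne
    have := Eqv.of_glued h3
    rw [h1, rot_rot] at this
    exact this.symm
  · have h3 : (S.flip a h).g (rot (S.g a)) ≠ rot (S.g a) := by
      rw [h2]; exact ne_of_fst h.ne.symm
    have := Eqv.of_glued h3
    rw [h2, rot_rot] at this
    exact this.symm

theorem pullC_rot_eqv {S : Obj I} {a : Sd I} (h : S.Flippable a) {f : Sd I} (h1 : f ≠ a)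
    (h2 : f ≠ S.g a) :
    (S.flip a h).Eqv (pullC a (S.g a) (rot f)) (rot (sigF a (S.g a) f)) := by
  by_cases k1 : f = rot a
  · subst k1
    rw [sigF_ra, rot_rot, pullC_other (unrot_ne_rot _) (ne_of_fst h.ne.symm)]
    exact (flip_eqv_new h).2
  by_cases k2 : f = rot (S.g a)
  · subst k2
    rw [sigF_rb h.ne, rot_rot, pullC_other (c := unrot (S.g a)) (ne_of_fst h.ne) (unrot_ne_rot _)]
    exact (flip_eqv_new h).1
  rw [sigF_other h1 k1 h2 k2,
    pullC_other (fun e => h1 (rot_injective e)) (fun e => h2 (rot_injective e))]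
  exact Eqv.refl _ _

theorem pull_eqv {S : Obj I} {a : Sd I} (h : S.Flippable a) {c d : Sd I} (hcd : S.Eqv c d) :
    (S.flip a h).Eqv (pullC a (S.g a) c) (pullC a (S.g a) d) := by
  induction hcd with
  | rel x y hxy =>
    obtain ⟨h1, rfl⟩ := hxy
    by_cases k1 : x = a
    · rw [k1, pullC_rb h.ne, pullC_other (rot_ne _).symm (ne_of_fst h.ne.symm)]
      exact Eqv.refl _ _
    by_cases k2 : x = S.g a
    · rw [k2, S.invol, pullC_ra, pullC_other (ne_of_fst h.ne) (rot_ne _).symm]
      exact Eqv.refl _ _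
    have m1 : S.g x ≠ a := fun e' => k2 (by rw [← e', S.invol])
    have m2 : S.g x ≠ S.g a := fun e' => k1 (S.g_injective e')
    have h3 : (S.flip a h).g (sigF a (S.g a) x) ≠ sigF a (S.g a) x := by
      rw [flip_g_sig]
      exact fun e => h1 ((sig a (S.g a) h.ne).injective e)
    have h4 := Eqv.of_glued h3
    rw [flip_g_sig] at h4
    rw [pullC_eq_sigF h.ne k1 k2]
    exact h4.trans (pullC_rot_eqv h m1 m2).symm
  | refl x => exact Eqv.refl _ _
  | symm x y _ ih => exact ih.symm
  | trans x y z _ _ ih1 ih2 => exact ih1.trans ih2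

theorem pull_push_eqv {S : Obj I} {a : Sd I} (h : S.Flippable a) (c : Sd I) :
    (S.flip a h).Eqv (pullC a (S.g a) (pushC a (S.g a) c)) c := by
  by_cases k1 : c = rot a
  · subst k1
    rw [pushC_ra, pullC_other (c := unrot (S.g a)) (ne_of_fst h.ne) (unrot_ne_rot _)]
    exact (flip_eqv_new h).1
  by_cases k2 : c = rot (S.g a)
  · subst k2
    rw [pushC_rb h.ne, pullC_other (unrot_ne_rot _) (ne_of_fst h.ne.symm)]
    exact (flip_eqv_new h).2
  rw [pushC_other k1 k2, pullC_other k1 k2]
  exact Eqv.refl _ _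

/-- and conversely -/
theorem flip_eqv' {S : Obj I} {a : Sd I} (h : S.Flippable a) {c d : Sd I}
    (hcd : S.Eqv (pushC a (S.g a) c) (pushC a (S.g a) d)) : (S.flip a h).Eqv c d :=
  (pull_push_eqv h c).symm.trans ((pull_eqv h hcd).trans (pull_push_eqv h d))

theorem flip_conn {S : Obj I} {a : Sd I} (h : S.Flippable a) (hc : S.Conn) :
    (S.flip a h).Conn := by
  refine ⟨hc.1, fun X hX hne hXF => ?_⟩
  by_cases hab : a.1 ∈ X ↔ (S.g a).1 ∈ X
  · obtain ⟨e, he⟩ := hc.2 X hX hne hXF
    rw [mem_bd] at he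
    refine ⟨sigF a (S.g a) e, ?_⟩
    rw [mem_bd, flip_g_sig]
    refine ⟨fun e' => he.1 ((sig a (S.g a) h.ne).injective e'), ?_, ?_⟩
    · exact (sigF_mem h.ne hab e).2 he.2.1
    · exact fun h' => he.2.2 ((sigF_mem h.ne hab (S.g e)).1 h')
  · by_cases h1 : a.1 ∈ X
    · have h2 : (S.g a).1 ∉ X := fun h2 => hab ⟨fun _ => h2, fun _ => h1⟩
      refine ⟨rot a, ?_⟩
      rw [mem_bd, flip_g_rot]
      exact ⟨ne_of_fst h.ne, h1, h2⟩
    · have h2 : (S.g a).1 ∈ X := by
        by_contra h2
        exact hab ⟨fun h => absurd h h1, fun h => absurd h h2⟩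
      refine ⟨rot (S.g a), ?_⟩
      rw [mem_bd, flip_g_rot']
      exact ⟨ne_of_fst h.ne.symm, h2, h1⟩

theorem flip_glued_card {S : Obj I} {a : Sd I} (h : S.Flippable a) :
    (S.flip a h).glued.card = S.glued.card := by
  have : (S.flip a h).glued = S.glued.map (sig a (S.g a) h.ne).toEmbedding := by
    ext c
    obtain ⟨e, rfl⟩ : ∃ e, sigF a (S.g a) e = c := ⟨sigB a (S.g a) c, sigF_sigB h.ne c⟩
    rw [mem_glued, flip_g_sig, Finset.mem_map]
    constructor
    · intro h1
      exact ⟨e, mem_glued.2 fun e' => h1 (by rw [e']), rfl⟩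
    · rintro ⟨d, hd, h1⟩
      have h2 : d = e := (sig a (S.g a) h.ne).injective h1
      subst h2
      rw [mem_glued] at hd
      exact fun e' => hd ((sig a (S.g a) h.ne).injective e')
  rw [this, Finset.card_map]

theorem flip_N2 {S : Obj I} {a : Sd I} (h : S.Flippable a) (k : ℕ) :
    (S.flip a h).N2 k = S.N2 k := by
  have h1 := card_vis_add_card_glued S
  have h2 := card_vis_add_card_glued (S.flip a h)
  rw [flip_glued_card h, flip_F] at h2
  have h3 := flip_E_card h
  unfold N2
  rw [flip_F, h3]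
  omega

/-- FLIP LEMMA -/
theorem P_of_flip {S : Obj I} {pt : Sd I → Pt} {R : Set Pt} (hg : S.Geo pt) (hc : S.Conn)
    (hb : S.Bridgeless) (h2 : 2 ≤ S.F.card) {a : Sd I} (hU : S.IsU pt a) (h : S.Flippable a)
    (hP : P (S.flip a h) (flipPt pt a (S.g a)) R ∅) : P S pt R ∅ := by
  obtain ⟨C, hC, hcard⟩ := hP
  have hit : ∀ {c : Sd I}, (S.flip a h).Hit C c →
      S.Hit (C.image (pushC a (S.g a))) (pushC a (S.g a) c) := by
    rintro c ⟨d, hd, h1⟩
    exact ⟨_, mem_image_of_mem _ hd, flip_eqv h h1⟩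
  refine ⟨C.image (pushC a (S.g a)), ⟨?_, ?_, ?_, ?_, ?_⟩, ?_⟩
  · intro c hc
    obtain ⟨d, hd, rfl⟩ := mem_image.1 hc
    have h3 := mem_sides.1 (hC.sub hd)
    rw [flip_F] at h3
    rw [mem_sides]
    rcases pushC_fst h.ne d with h4 | h4 | h4
    · rw [h4]; exact h3
    · rw [h4]; exact S.memF _ h.glued
    · rw [h4]; exact g_memF h.glued
  · intro w hw; exact absurd hw (notMem_empty w)
  · intro e he
    have hge := S.earFree e he
    have k1 : e ≠ a := fun e' => h.glued (by rw [← e', hge])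
    have k2 : e ≠ S.g a := fun e' => by
      have h5 : S.g (S.g a) = S.g a := by rw [← e', hge]
      exact g_ne_iff.2 h.glued h5
    rcases hC.ear _ ((flip_E h e).2 he) with h3 | h3
    · exact Or.inl ((hit h3).eqv (pushC_sigF_eqv h k1 k2))
    · right
      have := hit h3
      rwa [pushC_rot_sigF h.ne k1 k2] at this
  · intro t ht
    exact absurd ht (Bridgeless.not_noncore hc hb h2 t)
  · exact AG.Geo.cov_unflip hg hU hC.cov
  · calc 6 * (C.image (pushC a (S.g a))).card ≤ 6 * C.card := by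
          have := card_image_le (s := C) (f := pushC a (S.g a))
          omega
      _ ≤ (S.flip a h).N2 (∅ : Finset (Sd I)).card := hcard
      _ = S.N2 (∅ : Finset (Sd I)).card := flip_N2 h _

/-- 2.6: the flip of a minimal counterexample is a minimal counterexample -/
theorem Cex.flip {S : Obj I} {pt : Sd I → Pt} {R : Set Pt} (hC : Cex S pt R) {a : Sd I}
    (hU : S.IsU pt a) (h : S.Flippable a) :
    Cex (S.flip a h) (flipPt pt a (S.g a)) R where
  geo := AG.Geo.geo_flip hC.geo hU h
  conn := flip_conn h hC.conn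
  sub := AG.Geo.tri_flip_subset hC.geo hU hC.sub
  ih := by rw [flip_glued_card h]; exact hC.ih
  bad hP := hC.bad (P_of_flip hC.geo hC.conn hC.bridgeless hC.two_le hU h hP)

end Obj

end AG
end

/- Helper29.AG7.ConvFan -/
section
/-!
# AG section 7.3: a convex fan of faces with U diagonals between two edges of a 2-cut is impossible

`e i = S.cw^[i] c'`, `0 ≤ i ≤ k`; `bd K = {e k, g (e 0)}`; the triangles of `e 1, …, e k` are faces in `K`.
-/

set_option autoImplicit false
set_option linter.unusedSectionVars false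
open Finset

namespace Pool.Agent.Helper29.AG7

open _root_.AG _root_.AG.Obj

variable {I : Type} [DecidableEq I]

theorem sigF_mem {a b : Sd I} (hba : b.1 ≠ a.1) {K : Finset I} (h1 : a.1 ∈ K) (h2 : b.1 ∈ K) (d : Sd I) :
    (sigF a b d).1 ∈ K ↔ d.1 ∈ K := by
  by_cases k1 : d = a
  · subst k1; rw [sigF_a]; rfl
  by_cases k2 : d = rot a
  · subst k2; rw [sigF_ra]; exact ⟨fun _ => h1, fun _ => h2⟩
  by_cases k3 : d = b
  · subst k3; rw [sigF_b hba]; rfl
  by_cases k4 : d = rot b
  · subst k4; rw [sigF_rb hba]; exact ⟨fun _ => h2, fun _ => h1⟩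
  rw [sigF_other k1 k2 k3 k4]

theorem flip_glued_iff {S : Obj I} {a : Sd I} (h : S.Flippable a) (d : Sd I) :
    (S.flip a h).g (sigF a (S.g a) d) ≠ sigF a (S.g a) d ↔ S.g d ≠ d := by
  rw [flip_g_sig, not_iff_not]
  exact ⟨fun e => (sig a (S.g a) h.ne).injective e, fun e => by rw [e]⟩

/-- the boundary after the flip of a diagonal inside `K` -/
theorem bd_flip {S : Obj I} {a : Sd I} (h : S.Flippable a) {K : Finset I} (h1 : a.1 ∈ K)
    (h2 : (S.g a).1 ∈ K) : (S.flip a h).bd K = (S.bd K).image (sigF a (S.g a)) := by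
  ext c
  obtain ⟨d, rfl⟩ : ∃ d, sigF a (S.g a) d = c := ⟨sigB a (S.g a) c, sigF_sigB h.ne c⟩
  have key : sigF a (S.g a) d ∈ (S.flip a h).bd K ↔ d ∈ S.bd K := by
    rw [mem_bd, mem_bd, flip_glued_iff, sigF_mem h.ne h1 h2, flip_g_sig, sigF_mem h.ne h1 h2]
  rw [key, mem_image]
  constructor
  · exact fun hd => ⟨d, hd, rfl⟩
  · rintro ⟨d', hd', he⟩
    have : d' = d := (sig a (S.g a) h.ne).injective he
    rwa [← this]

/-- FACE LEMMA at a fan of length one -/
theorem face_two_cut {S : Obj I} (hb : S.Bridgeless) {K : Finset I} (hK : K ⊆ S.F) {c : Sd I}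
    (hf : S.Face c.1) (hc : c.1 ∈ K) (hbd : S.bd K = {c, unrot c}) : False := by
  have h1 : S.g (rot c) ≠ rot c := hf.2 _
  have h2 : (S.g (rot c)).1 ∈ K := by
    by_contra h
    have : rot c ∈ S.bd K := mem_bd.2 ⟨h1, hc, h⟩
    rw [hbd, mem_insert, mem_singleton] at this
    rcases this with h3 | h3
    · exact rot_ne c h3
    · exact unrot_ne_rot c h3.symm
  refine hb (S.g (rot c)) ⟨K.erase c.1, (erase_subset _ _).trans hK, ?_⟩
  ext d
  rw [mem_bd, mem_singleton]
  constructor
  · rintro ⟨h3, h4, h5⟩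
    rw [mem_erase] at h4
    by_cases h6 : (S.g d).1 = c.1
    · rcases eq_of_fst_eq h6 with h7 | h7 | h7
      · exfalso
        have : c ∈ S.bd K := by rw [hbd]; exact mem_insert_self _ _
        rw [mem_bd, ← h7, S.invol] at this
        exact this.2.2 h4.2
      · rw [← h7, S.invol]
      · exfalso
        have : unrot c ∈ S.bd K := by rw [hbd]; exact mem_insert_of_mem (mem_singleton_self _)
        rw [mem_bd, ← h7, S.invol] at this
        exact this.2.2 h4.2
    · exfalso
      have h7 : (S.g d).1 ∉ K := fun h => h5 (mem_erase.2 ⟨h6, h⟩)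
      have : d ∈ S.bd K := mem_bd.2 ⟨h3, h4.2, h7⟩
      rw [hbd, mem_insert, mem_singleton] at this
      rcases this with h8 | h8
      · exact h4.1 (by rw [h8])
      · exact h4.1 (by rw [h8, unrot_fst])
  · rintro rfl
    refine ⟨g_ne_iff.2 h1, mem_erase.2 ⟨S.ne _ h1, h2⟩, ?_⟩
    rw [S.invol, rot_fst]
    exact fun h => (mem_erase.1 h).1 rfl

section
variable {R : Set Pt}

/-- THE CONVEX FAN -/
theorem no_convex_fan (k : ℕ) : ∀ (S : Obj I) (pt : Sd I → Pt), Cex S pt R → ∀ (K : Finset I) (c : Sd I),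
    K ⊆ S.F → c.1 ∉ K → S.bd K = {S.cw^[k + 1] c, S.g c} →
    (∀ i ≤ k + 1, S.g (S.cw^[i] c) ≠ S.cw^[i] c) →
    (∀ i, 1 ≤ i → i ≤ k + 1 → (S.cw^[i] c).1 ∈ K ∧ S.Face (S.cw^[i] c).1) →
    (∀ i, 1 ≤ i → i ≤ k → ¬ S.Blk pt (S.g (S.cw^[i] c))) →
    ∑ i ∈ range (k + 1), cang pt (S.cw^[i + 1] c) < Real.pi → False := by
  induction k with
  | zero =>
    intro S pt hC K c hK _ hbd hgl hin _ _
    have h0 : S.g c ≠ c := hgl 0 (by omega)
    have h1 := hin 1 le_rfl (by omega)
    rw [zero_add, Function.iterate_one] at hbd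
    rw [Function.iterate_one] at h1
    have h2 : unrot (S.cw c) = S.g c := by rw [cw, if_neg h0, unrot_rot]
    refine face_two_cut hC.bridgeless hK h1.2 h1.1 ?_
    rw [h2]
    exact hbd
  | succ k ih =>
    intro S pt hC K c hK hcK hbd hgl hin hnb hsum
    have hG := hC.geo
    have hl := hG.linear
    set e : ℕ → Sd I := fun i => S.cw^[i] c with he
    have hes : ∀ i ≤ k + 2, e (i + 1) = rot (S.g (e i)) := by
      intro i hi
      simp only [he]
      rw [Function.iterate_succ_apply', cw, if_neg (hgl i hi)]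
    have hpt : ∀ i, pt (e i) = pt c := fun i => (hG.pt_eq (cw_iter_eqv S i c)).symm
    have hF : ∀ i ≤ k + 2, (e i).1 ∈ S.F := fun i hi => S.memF _ (hgl i hi)
    have hinj : ∀ i j, i < j → j ≤ k + 2 → e i ≠ e j := by
      intro i j hij hj h
      have h1 : S.cw^[j - i] (e i) = e i := by
        simp only [he] at h ⊢
        rw [← Function.iterate_add_apply, Nat.sub_add_cancel hij.le]
        exact h.symm
      exact hgl i (by omega) (linear_cycle hl (by omega) h1)
    -- the diagonal to be flipped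
    set a : Sd I := e (k + 1) with ha
    have hae : rot (S.g a) = e (k + 2) := (hes (k + 1) (by omega)).symm
    have haK : a.1 ∈ K := (hin (k + 1) (by omega) (by omega)).1
    have hbK : (S.g a).1 ∈ K := by
      have := (hin (k + 2) (by omega) (by omega)).1
      have h1 : (e (k + 2)).1 = (S.g a).1 := by rw [← hae, rot_fst]
      rw [← h1]
      exact this
    have haF := S.memF _ (hgl (k + 1) (by omega))
    have hga : S.g a ≠ a := hgl (k + 1) (by omega)
    have hcp : ∀ i ≤ k + 2, 0 < cang pt (e i) := fun i hi => hG.cang_pos (hF i hi)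
    have hU : S.IsU pt a := by
      refine AG.Geo.isU_iff.2 ⟨hga, ?_, hnb (k + 1) (by omega) le_rfl⟩
      rintro ⟨_, h⟩
      rw [hae] at h
      have h1 : cang pt (e (k + 1)) + cang pt (e (k + 2)) ≤ ∑ i ∈ range (k + 2), cang pt (e (i + 1)) := by
        rw [sum_range_succ, sum_range_succ]
        have : 0 ≤ ∑ i ∈ range k, cang pt (e (i + 1)) :=
          sum_nonneg (fun i hi => (hcp (i + 1) (by rw [mem_range] at hi; omega)).le)
        linarith
      have h2 : ∑ i ∈ range (k + 2), cang pt (e (i + 1)) < Real.pi := hsum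
      rw [ha] at h
      linarith
    have hfl : S.Flippable a := IsU.flippable hG hU
    have hC' := hC.flip hU hfl
    -- points
    have hpa : pt a = pt c := hpt _
    have hra : pt (rot a) ≠ pt c := by
      rw [← hpa]; exact (hG.ccw_at haF).ne.symm
    have hura : pt (unrot a) ≠ pt c := by
      rw [← hpa]; exact (hG.ccw_at haF).ne'.symm
    have hbF : (S.g a).1 ∈ S.F := g_memF hga
    have hrb : pt (rot (S.g a)) = pt c := by rw [hae]; exact hpt _
    have hb : pt (S.g a) ≠ pt c := by
      rw [← hrb]; exact (hG.ccw_at hbF).ne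
    have hurb : pt (unrot (S.g a)) ≠ pt c := by
      rw [← hrb]; exact (hG.ccw_at hbF).ne''.symm
    -- `sigF` fixes the sides at the fan
    have hs1 : ∀ i ≤ k, sigF a (S.g a) (e i) = e i := by
      intro i hi
      refine sigF_other (hinj i (k + 1) (by omega) (by omega)) ?_ ?_ ?_
      · intro h; exact hra (by rw [← h]; exact hpt i)
      · intro h; exact hb (by rw [← h]; exact hpt i)
      · rw [hae]; exact hinj i (k + 2) (by omega) (by omega)
    have hs2 : ∀ i ≤ k, sigF a (S.g a) (S.g (e i)) = S.g (e i) := by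
      intro i hi
      have h1 : pt (rot (S.g (e i))) = pt c := by rw [← hes i (by omega)]; exact hpt _
      refine sigF_other ?_ ?_ ?_ ?_
      · intro h; rw [h] at h1; exact hra h1
      · intro h; rw [h, rot_rot] at h1; exact hura h1
      · intro h
        exact hinj i (k + 1) (by omega) (by omega) (S.g_injective h)
      · intro h; rw [h, rot_rot] at h1; exact hurb h1
    have hgc : ∀ i ≤ k, (S.flip a hfl).g (e i) = S.g (e i) := by
      intro i hi
      have := flip_g_sig hfl (e i)
      rwa [hs1 i hi, hs2 i hi] at this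
    have hga' : (S.flip a hfl).g a = S.g (e (k + 2)) := by
      have := flip_g_sig hfl (rot (S.g a))
      rw [sigF_rb hfl.ne] at this
      rw [this, hae]
      have h1 : e (k + 2) ∈ S.bd K := by rw [hbd]; exact mem_insert_self _ _
      have h2 := (mem_bd.1 h1).2.2
      refine sigF_other ?_ ?_ ?_ ?_
      · intro h; rw [h] at h2; exact h2 haK
      · intro h; rw [h] at h2; exact h2 haK
      · intro h; rw [h] at h2; exact h2 hbK
      · intro h; rw [h] at h2; exact h2 hbK
    have hit : ∀ i ≤ k + 1, (S.flip a hfl).cw^[i] c = e i := by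
      intro i
      induction i with
      | zero => intro _; rfl
      | succ i ih2 =>
        intro hi
        rw [Function.iterate_succ_apply', ih2 (by omega), cw, hgc i (by omega),
          if_neg (hgl i (by omega)), hes i (by omega)]
    have hgi : ∀ i ≤ k + 1, (S.flip a hfl).g (e i) ≠ e i := by
      intro i hi
      rcases Nat.lt_or_ge k i with h1 | h1
      · have : i = k + 1 := by omega
        rw [this]
        change (S.flip a hfl).g a ≠ a
        rw [hga']
        have h1 : e (k + 2) ∈ S.bd K := by rw [hbd]; exact mem_insert_self _ _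
        have h2 := (mem_bd.1 h1).2.2
        intro h
        rw [h] at h2
        exact h2 haK
      · rw [hgc i h1]
        exact hgl i (by omega)
    refine ih (S.flip a hfl) (flipPt pt a (S.g a)) hC' K c hK hcK ?_ ?_ ?_ ?_ ?_
    · rw [bd_flip hfl haK hbK, hbd, image_insert, image_singleton, hit (k + 1) le_rfl]
      have h1 : sigF a (S.g a) (S.cw^[k + 1 + 1] c) = a := by
        have : S.cw^[k + 1 + 1] c = rot (S.g a) := hae.symm
        rw [this]
        exact sigF_rb hfl.ne
      have h2 : sigF a (S.g a) (S.g c) = (S.flip a hfl).g c := by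
        have e1 : e 0 = c := rfl
        have := hs2 0 (by omega)
        rw [e1] at this
        rw [this, ← e1, hgc 0 (by omega)]
      rw [h1, h2]
    · intro i hi
      rw [hit i hi]
      exact hgi i hi
    · intro i h1 h2
      rw [hit i h2]
      have h3 := hin i h1 (by omega)
      refine ⟨h3.1, h3.2.1, ?_⟩
      -- face
      intro j
      by_cases h4 : (e i).1 = a.1
      · -- the three sides of the triangle `a.1`
        have h5 : ∀ d : Sd I, d.1 = a.1 → (S.flip a hfl).g d ≠ d := by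
          intro d hd
          rcases eq_of_fst_eq hd with h6 | h6 | h6
          · rw [h6]; exact hgi (k + 1) le_rfl
          · rw [h6, ← sigF_a (a := a) (b := S.g a), flip_glued_iff]
            exact hga
          · have h7 : sigF a (S.g a) (unrot a) = unrot a :=
              sigF_other (unrot_ne a) (unrot_ne_rot a) (ne_of_fst hfl.ne.symm) (ne_of_fst hfl.ne.symm)
            rw [h6, ← h7, flip_glued_iff]
            have h8 := (hin (k + 1) (by omega) (by omega)).2
            exact h8.2 (unrot a).2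
        exact h5 ((e i).1, j) h4
      · by_cases h5 : (e i).1 = (S.g a).1
        · exfalso
          have h6 : (e i).1 = (e (k + 2)).1 := by rw [← hae, rot_fst]; exact h5
          have h7 : e i = e (k + 2) := by
            rcases eq_of_fst_eq h6 with h8 | h8 | h8
            · exact h8
            · exfalso
              have := (hG.ccw_at (hF (k + 2) le_rfl)).ne
              rw [← h8, hpt, hpt] at this
              exact this rfl
            · exfalso
              have := (hG.ccw_at (hF (k + 2) le_rfl)).ne'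
              rw [← h8, hpt, hpt] at this
              exact this rfl
          exact hinj i (k + 2) (by omega) le_rfl h7
        · have h6 : sigF a (S.g a) ((e i).1, j) = ((e i).1, j) :=
            sigF_other (ne_of_fst h4) (ne_of_fst h4) (ne_of_fst h5) (ne_of_fst h5)
          change (S.flip a hfl).g ((e i).1, j) ≠ ((e i).1, j)
          rw [← h6, flip_glued_iff]
          exact h3.2.2 j
    · intro i h1 h2
      rw [hit i (by omega)]
      rintro ⟨_, h4⟩
      refine hnb i h1 (by omega) ⟨g_ne_iff.2 (hgl i (by omega)), ?_⟩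
      rw [(S.flip a hfl).invol, hgc i (by omega)] at h4
      rw [S.invol]
      refine h4.trans ?_
      -- the triangle of `e i` is not changed
      have hne : ∀ j, j ≤ k + 2 → i ≠ j → (e i).1 ≠ (e j).1 := by
        intro j hj hij h6
        have h7 : e i = e j := by
          rcases eq_of_fst_eq h6 with h8 | h8 | h8
          · exact h8
          · exfalso
            have := (hG.ccw_at (hF j hj)).ne
            rw [← h8, hpt, hpt] at this
            exact this rfl
          · exfalso
            have := (hG.ccw_at (hF j hj)).ne'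
            rw [← h8, hpt, hpt] at this
            exact this rfl
        rcases Nat.lt_or_ge i j with h8 | h8
        · exact hinj i j h8 hj h7
        · exact hinj j i (by omega) (by omega) h7.symm
      have h5 : cang (flipPt pt a (S.g a)) (rot (e i)) = cang pt (rot (e i)) := by
        apply fs_other
        · rw [rot_fst]; exact hne (k + 1) (by omega) (by omega)
        · rw [rot_fst]
          have := hne (k + 2) le_rfl (by omega)
          rwa [← hae, rot_fst] at this
      have h6 : cang (flipPt pt a (S.g a)) (S.g (e i)) ≤ cang pt (S.g (e i)) := by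
        have h7 : S.g (e i) = unrot (e (i + 1)) := by rw [hes i (by omega), unrot_rot]
        rcases Nat.lt_or_ge i k with h8 | h8
        · refine (fs_other ?_ ?_).le
          · rw [h7, unrot_fst]
            intro h9
            have h10 : e (i + 1) = e (k + 1) := by
              rcases eq_of_fst_eq h9 with h11 | h11 | h11
              · exact h11
              · exfalso
                have := (hG.ccw_at haF).ne
                rw [← h11, hpt, hpt] at this
                exact this rfl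
              · exfalso
                have := (hG.ccw_at haF).ne'
                rw [← h11, hpt, hpt] at this
                exact this rfl
            exact hinj (i + 1) (k + 1) (by omega) (by omega) h10
          · rw [h7, unrot_fst]
            intro h9
            have h9' : (e (i + 1)).1 = (e (k + 2)).1 := by rw [← hae, rot_fst]; exact h9
            have h10 : e (i + 1) = e (k + 2) := by
              rcases eq_of_fst_eq h9' with h11 | h11 | h11
              · exact h11
              · exfalso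
                have := (hG.ccw_at (hF (k + 2) le_rfl)).ne
                rw [← h11, hpt, hpt] at this
                exact this rfl
              · exfalso
                have := (hG.ccw_at (hF (k + 2) le_rfl)).ne'
                rw [← h11, hpt, hpt] at this
                exact this rfl
            exact hinj (i + 1) (k + 2) (by omega) (by omega) h10
        · have h9 : i = k := by omega
          rw [h7, h9]
          exact (hG.fs_w1 hU hfl).le
      linarith
    · have h1 : ∀ i ∈ range k, cang (flipPt pt a (S.g a)) ((S.flip a hfl).cw^[i + 1] c) = cang pt (e (i + 1)) := by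
        intro i hi
        rw [mem_range] at hi
        rw [hit (i + 1) (by omega)]
        refine fs_other ?_ ?_
        · intro h9
          have h10 : e (i + 1) = e (k + 1) := by
            rcases eq_of_fst_eq h9 with h11 | h11 | h11
            · exact h11
            · exfalso
              have := (hG.ccw_at haF).ne
              rw [← h11, hpt, hpt] at this
              exact this rfl
            · exfalso
              have := (hG.ccw_at haF).ne'
              rw [← h11, hpt, hpt] at this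
              exact this rfl
          exact hinj (i + 1) (k + 1) (by omega) (by omega) h10
        · intro h9
          have h9' : (e (i + 1)).1 = (e (k + 2)).1 := by rw [← hae, rot_fst]; exact h9
          have h10 : e (i + 1) = e (k + 2) := by
            rcases eq_of_fst_eq h9' with h11 | h11 | h11
            · exact h11
            · exfalso
              have := (hG.ccw_at (hF (k + 2) le_rfl)).ne
              rw [← h11, hpt, hpt] at this
              exact this rfl
            · exfalso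
              have := (hG.ccw_at (hF (k + 2) le_rfl)).ne'
              rw [← h11, hpt, hpt] at this
              exact this rfl
          exact hinj (i + 1) (k + 2) (by omega) (by omega) h10
      rw [sum_range_succ, sum_congr rfl h1, hit (k + 1) le_rfl]
      have h2 : cang (flipPt pt a (S.g a)) a = cang pt a + cang pt (rot (S.g a)) := hG.fs_a hU
      have h3 : ∑ i ∈ range (k + 1 + 1), cang pt (S.cw^[i + 1] c) < Real.pi := hsum
      rw [sum_range_succ, sum_range_succ] at h3
      rw [hae] at h2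
      change ∑ i ∈ range k, cang pt (e (i + 1)) + cang (flipPt pt a (S.g a)) a < Real.pi
      rw [h2]
      have h4 : ∑ i ∈ range k, cang pt (e (i + 1)) + cang pt (e (k + 1)) + cang pt (e (k + 2)) < Real.pi := h3
      rw [ha]
      linarith

end

end Pool.Agent.Helper29.AG7
end

/- Helper29.AG7.BillA -/
section
/-!
# AG section 7.3: the fan of a pair with no ear gives a zero visit or an unused slot
-/

set_option autoImplicit false
set_option linter.unusedSectionVars false
open Finset

namespace Pool.Agent.Helper29.AG7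

open _root_.AG _root_.AG.Obj

variable {I : Type} [DecidableEq I]

/-- a fan of faces of `K ⊆ X` from the stub `S.cw^[k] c` to the stub `c`; `e i = S.cw^[i] c` -/
structure FanIn (S : Obj I) (X K : Finset I) (c : Sd I) (k : ℕ) : Prop where
  KX : K ⊆ X
  cK : c.1 ∉ K
  bd : S.bd K = {S.cw^[k] c, S.g c}
  pos : 1 ≤ k
  gl : ∀ i ≤ k, S.g (S.cw^[i] c) ≠ S.cw^[i] c
  inK : ∀ i, 1 ≤ i → i ≤ k → (S.cw^[i] c).1 ∈ K
  face : ∀ i, 1 ≤ i → i ≤ k → S.Face (S.cw^[i] c).1

section
variable {S : Obj I} {pt : Sd I → Pt} {X K : Finset I} {c : Sd I} {k : ℕ}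

/-- the side from position `i` to position `i+1` -/
theorem FanIn.succ (F : FanIn S X K c k) {i : ℕ} (hi : i ≤ k) :
    S.cw^[i + 1] c = rot (S.g (S.cw^[i] c)) := by
  rw [Function.iterate_succ_apply', cw, if_neg (F.gl i hi)]

theorem FanIn.inj (F : FanIn S X K c k) (hl : S.Linear) {i j : ℕ} (hij : i < j) (hj : j ≤ k) :
    S.cw^[i] c ≠ S.cw^[j] c := by
  intro h
  have h1 : S.cw^[j - i] (S.cw^[i] c) = S.cw^[i] c := by
    rw [← Function.iterate_add_apply, Nat.sub_add_cancel hij.le]
    exact h.symm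
  exact F.gl i (by omega) (linear_cycle hl (by omega) h1)

theorem FanIn.inj' (F : FanIn S X K c k) (hl : S.Linear) {i j : ℕ} (hi : i ≤ k) (hj : j ≤ k)
    (h : S.cw^[i] c = S.cw^[j] c) : i = j := by
  rcases Nat.lt_trichotomy i j with h1 | h1 | h1
  · exact absurd h (F.inj hl h1 hj)
  · exact h1
  · exact absurd h.symm (F.inj hl h1 hi)

theorem FanIn.two_le (F : FanIn S X K c k) (hb : S.Bridgeless) (hX : X ⊆ S.F) : 2 ≤ k := by
  have h1 := F.pos
  rcases Nat.lt_or_ge 1 k with h2 | h2
  · exact h2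
  · exfalso
    have hk : k = 1 := by omega
    subst hk
    have h0 : S.g c ≠ c := F.gl 0 (by omega)
    have h3 : unrot (S.cw^[1] c) = S.g c := by
      have := F.succ (i := 0) (by omega)
      rw [zero_add] at this
      rw [this, unrot_rot]
      rfl
    refine face_two_cut hb (F.KX.trans hX) (F.face 1 le_rfl le_rfl) (F.inK 1 le_rfl le_rfl) ?_
    rw [h3]
    exact F.bd

/-- a slot whose diagonal is blocked at a visit with only this blocked diagonal is unused -/
theorem unused_single (H : RHyp S pt X) {t : I} {d : Finset (Sd I)} {w : Sd I} (ht : t ∈ X)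
    (hf : S.Face t) (hd : d ∈ inc S t) (hA : Aw S X (S.Blk pt) w = {d}) : (t, d) ∈ H.reg.unused := by
  classical
  have hdA : d ∈ Aw S X (S.Blk pt) w := by rw [hA]; exact mem_singleton_self _
  have hbl : bl S X (S.Blk pt) d = some w := (mem_filter.1 hdA).2
  have hdD : d ∈ Dgs S X := (mem_filter.1 hdA).1
  rw [Helper41.AG7.Reg.unused, mem_filter, mem_product]
  refine ⟨⟨mem_faces.2 ⟨ht, hf⟩, hdD⟩, hd, ?_⟩
  rintro (h | ⟨w', _, h1, h2, h3⟩ | ⟨t', ht', h1, ⟨w', _, h2, h3⟩, _⟩)
  · have : bl S X (S.Blk pt) d = none := h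
    rw [hbl] at this
    exact absurd this (by simp)
  · have h4 : bl S X (S.Blk pt) d = some w' := (mem_filter.1 h3).2
    rw [hbl] at h4
    have h5 : w = w' := Option.some.inj h4
    have h6 : (Aw S X (S.Blk pt) w').card = 2 := h1
    rw [← h5, hA, card_singleton] at h6
    exact absurd h6 (by norm_num)
  · have h4 : H.reg.A w' = inc S t' := by
      apply eq_of_subset_of_card_le h3
      rw [h2]
      exact (H.reg.inc_blade t' ht').2.le
    have h5 : d ∈ H.reg.A w' := by rw [h4]; exact h1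
    have h6 : bl S X (S.Blk pt) d = some w' := (mem_filter.1 h5).2
    rw [hbl] at h6
    have h7 : w = w' := Option.some.inj h6
    have h8 : (Aw S X (S.Blk pt) w').card = 2 := h2
    rw [← h7, hA, card_singleton] at h8
    exact absurd h8 (by norm_num)

/-- two faces glued along a blocked diagonal: one of the two slots is unused -/
theorem unused_one_of_two (H : RHyp S pt X) {a : Sd I} (ha : S.g a ≠ a) (h1 : a.1 ∈ X)
    (h2 : (S.g a).1 ∈ X) (hf1 : S.Face a.1) (hf2 : S.Face (S.g a).1)
    (hn : bl S X (S.Blk pt) (dg S a) ≠ none) :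
    (a.1, dg S a) ∈ H.reg.unused ∨ ((S.g a).1, dg S a) ∈ H.reg.unused := by
  classical
  by_contra hcon
  rw [not_or] at hcon
  have hdD : dg S a ∈ Dgs S X := mem_Dgs.2 ⟨a, h1, ha, rfl⟩
  have key : ∀ t, t ∈ X → S.Face t → dg S a ∈ inc S t → (t, dg S a) ∉ H.reg.unused →
      ∃ w', (H.reg.A w').card = 2 ∧ H.reg.A w' ⊆ inc S t ∧ bl S X (S.Blk pt) (dg S a) = some w' := by
    intro t ht hf hd hu
    rw [Helper41.AG7.Reg.unused, mem_filter, mem_product] at hu
    have h3 : H.reg.Used t (dg S a) := by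
      by_contra h
      exact hu ⟨⟨mem_faces.2 ⟨ht, hf⟩, hdD⟩, hd, h⟩
    rcases h3 with h | ⟨w', _, k1, k2, k3⟩ | ⟨t', ht', k1, _, _⟩
    · exact absurd h hn
    · exact ⟨w', k1, k2, (mem_filter.1 k3).2⟩
    · exfalso
      obtain ⟨e, he, hbe⟩ := (mem_blades.1 ht').2
      rcases (dg_mem_inc_iff ha).1 k1 with k2 | k2
      · exact blade_not_face hbe (by rw [he, k2]; exact hf1)
      · exact blade_not_face hbe (by rw [he, k2]; exact hf2)
  obtain ⟨w, k1, k2, k3⟩ := key a.1 h1 hf1 (dg_mem_inc ha) hcon.1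
  obtain ⟨w', l1, l2, l3⟩ := key (S.g a).1 h2 hf2 ((dg_mem_inc_iff ha).2 (Or.inr rfl)) hcon.2
  rw [k3] at l3
  have h3 : w = w' := Option.some.inj l3
  rw [← h3] at l2
  have h4 : H.reg.A w ⊆ inc S a.1 ∩ inc S (S.g a).1 := subset_inter k2 l2
  have h5 := card_le_card h4
  have h6 := share H.sh (Ne.symm (S.ne a ha) : a.1 ≠ (S.g a).1)
  rw [k1] at h5
  have h7 : (inc S a.1 ∩ inc S (S.g a).1).card ≤ 1 := by convert h6
  omega

/-- 7.3, all inner diagonals of the fan are U: the visit of the fan is a zero, or only one of the two stubs is blocked there;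
in all cases the sector is wide -/
theorem fan_all_U {R : Set Pt} (H : RHyp S pt X) (hC : Cex S pt R) (F : FanIn S X K c k)
    (hU : ∀ i, 1 ≤ i → i < k → S.IsU pt (S.cw^[i] c)) :
    Real.pi ≤ ∑ i ∈ range k, cang pt (S.cw^[i + 1] c) ∧
    (Aw S X (S.Blk pt) (vz S X (S.cw c)) = ∅ ∨ Aw S X (S.Blk pt) (vz S X (S.cw c)) = {dg S c} ∨
      Aw S X (S.Blk pt) (vz S X (S.cw c)) = {dg S (S.cw^[k] c)}) := by
  classical
  have hG := hC.geo
  have hl := H.lin
  have hk2 := F.two_le hC.bridgeless H.sub
  have hwide : Real.pi ≤ ∑ i ∈ range k, cang pt (S.cw^[i + 1] c) := by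
    by_contra hlt
    rw [not_le] at hlt
    obtain ⟨m, rfl⟩ : ∃ m, k = m + 1 := ⟨k - 1, by omega⟩
    exact no_convex_fan m S pt hC K c (F.KX.trans H.sub) F.cK F.bd F.gl
      (fun i h1 h2 => ⟨F.inK i h1 h2, F.face i h1 h2⟩)
      (fun i h1 h2 => (AG.Geo.isU_iff.1 (hU i h1 (by omega))).2.2) hlt
  refine ⟨hwide, ?_⟩
  have hg0 : S.g c ≠ c := F.gl 0 (by omega)
  have h1X : (S.cw c).1 ∈ X := F.KX (F.inK 1 le_rfl F.pos)
  have hptw : pt (vz S X (S.cw c)) = pt c := by
    have h1 : S.g (S.cw c) ≠ S.cw c := F.gl 1 F.pos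
    rw [← hG.pt_eq (vz_eqv (X := X) h1), ← hG.pt_eq (S.cw_eqv c)]
  have hpt : ∀ i, pt (S.cw^[i] c) = pt c := fun i => (hG.pt_eq (cw_iter_eqv S i c)).symm
  have hF : ∀ i ≤ k, (S.cw^[i] c).1 ∈ S.F := fun i hi => S.memF _ (F.gl i hi)
  -- a side blocked at the point of the fan is one of the two stubs
  have key : ∀ a, S.Blk pt a → pt a = pt c → a = c ∨ a = S.cw^[k] c := by
    intro a ha hpa
    by_contra hcon
    rw [not_or] at hcon
    have hne : ∀ i ≤ k, a ≠ S.cw^[i] c := by
      intro i hi h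
      rcases Nat.eq_zero_or_pos i with h1 | h1
      · rw [h1] at h; exact hcon.1 h
      · rcases Nat.lt_or_ge i k with h2 | h2
        · exact (AG.Geo.isU_iff.1 (hU i h1 h2)).2.1 (h ▸ ha)
        · have : i = k := by omega
          rw [this] at h
          exact hcon.2 h
    have hne2 : ∀ i, 1 ≤ i → i ≤ k → S.cw a ≠ S.cw^[i] c := by
      intro i h1 h2 h
      obtain ⟨j, rfl⟩ : ∃ j, i = j + 1 := ⟨i - 1, by omega⟩
      rw [Function.iterate_succ_apply'] at h
      exact hne j (by omega) (cw_inj ha.1 (F.gl j (by omega)) h)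
    have haw : a ≠ S.cw a := by
      rw [cw, if_neg ha.1]
      intro h
      exact S.ne a ha.1 (by rw [← rot_fst (S.g a), ← h])
    let Y : Finset (Sd I) := (range k).image (fun i => S.cw^[i + 1] c)
    have hY : ∑ x ∈ Y, cang pt x = ∑ i ∈ range k, cang pt (S.cw^[i + 1] c) := by
      apply sum_image
      intro i hi j hj hij
      have hi' := mem_range.1 (mem_coe.1 hi)
      have hj' := mem_range.1 (mem_coe.1 hj)
      have := F.inj' hl (i := i + 1) (j := j + 1) (by omega) (by omega) hij
      omega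
    have haY : a ∉ Y := by
      intro h
      obtain ⟨i, hi, hi'⟩ := mem_image.1 h
      rw [mem_range] at hi
      exact hne (i + 1) (by omega) hi'.symm
    have hawY : S.cw a ∉ Y := by
      intro h
      obtain ⟨i, hi, hi'⟩ := mem_image.1 h
      rw [mem_range] at hi
      exact hne2 (i + 1) (by omega) (by omega) hi'.symm
    have h1 := hG.sum_lt (X := insert a (insert (S.cw a) Y)) (p := pt c) (by
      intro x hx
      rw [mem_insert, mem_insert] at hx
      rcases hx with rfl | rfl | hx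
      · exact S.memF _ ha.1
      · rw [cw, if_neg ha.1, rot_fst]; exact g_memF ha.1
      · obtain ⟨i, hi, rfl⟩ := mem_image.1 hx
        rw [mem_range] at hi
        exact hF (i + 1) (by omega)) (by
      intro x hx
      rw [mem_insert, mem_insert] at hx
      rcases hx with rfl | rfl | hx
      · exact hpa
      · rw [← hG.pt_eq (S.cw_eqv a)]; exact hpa
      · obtain ⟨i, hi, rfl⟩ := mem_image.1 hx
        exact hpt (i + 1))
    rw [sum_insert (by rw [mem_insert, not_or]; exact ⟨haw, haY⟩), sum_insert hawY, hY] at h1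
    have h2 := ha.2
    have h3 : S.cw a = rot (S.g a) := by rw [cw, if_neg ha.1]
    rw [h3] at h1
    linarith
  have hsub : ∀ d ∈ Aw S X (S.Blk pt) (vz S X (S.cw c)),
      (S.Blk pt c ∧ d = dg S c) ∨ (S.Blk pt (S.cw^[k] c) ∧ d = dg S (S.cw^[k] c)) := by
    intro d hd
    obtain ⟨a, _, rfl, hb, hv⟩ := (mem_Aw (fun a ha => ha.1) H.b1).1 hd
    have h1 : pt a = pt c := by
      rw [hG.pt_eq (vz_eqv (X := X) hb.1), hv, hptw]
    rcases key a hb h1 with h2 | h2
    · left; rw [h2] at hb; exact ⟨hb, by rw [h2]⟩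
    · right; rw [h2] at hb; exact ⟨hb, by rw [h2]⟩
  have hnot : ¬ (S.Blk pt c ∧ S.Blk pt (S.cw^[k] c)) := by
    rintro ⟨h1, h2⟩
    rcases H.g1 c (S.cw^[k] c) h1 h2 (cw_iter_eqv S k c) with h3 | h3 | h3
    · exact F.inj hl (i := 0) (j := k) (by omega) le_rfl h3
    · have h4 : S.cw^[k] c = S.cw^[1] c := h3
      exact absurd (F.inj' hl le_rfl (by omega) h4) (by omega)
    · have h4 : S.cw^[k + 1] c = c := by rw [Function.iterate_succ_apply']; exact h3.symm
      exact hg0 (linear_cycle hl (by omega) h4)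
  by_cases h1 : S.Blk pt c
  · have h2 : ¬ S.Blk pt (S.cw^[k] c) := fun h => hnot ⟨h1, h⟩
    have h3 : Aw S X (S.Blk pt) (vz S X (S.cw c)) ⊆ {dg S c} := by
      intro d hd
      rcases hsub d hd with h4 | h4
      · rw [h4.2]; exact mem_singleton_self _
      · exact absurd h4.1 h2
    rcases subset_singleton_iff.1 h3 with h4 | h4
    · exact Or.inl h4
    · exact Or.inr (Or.inl h4)
  · have h3 : Aw S X (S.Blk pt) (vz S X (S.cw c)) ⊆ {dg S (S.cw^[k] c)} := by
      intro d hd
      rcases hsub d hd with h4 | h4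
      · exact absurd h4.1 h1
      · rw [h4.2]; exact mem_singleton_self _
    rcases subset_singleton_iff.1 h3 with h4 | h4
    · exact Or.inl h4
    · exact Or.inr (Or.inr h4)

/-- 7.3 -/
theorem fan_bill {R : Set Pt} (H : RHyp S pt X) (hC : Cex S pt R) (F : FanIn S X K c k) :
    2 ≤ k ∧
    ((∃ i, 1 ≤ i ∧ i < k ∧ bl S X (S.Blk pt) (dg S (S.cw^[i] c)) ≠ none ∧
        (((S.cw^[i] c).1, dg S (S.cw^[i] c)) ∈ H.reg.unused ∨
          ((S.cw^[i + 1] c).1, dg S (S.cw^[i] c)) ∈ H.reg.unused)) ∨
      (Real.pi ≤ ∑ i ∈ range k, cang pt (S.cw^[i + 1] c) ∧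
        (∀ i, 1 ≤ i → i < k → S.IsU pt (S.cw^[i] c)) ∧
        (vz S X (S.cw c) ∈ H.reg.zeros ∨
          (Aw S X (S.Blk pt) (vz S X (S.cw c)) = {dg S c} ∧
            ((S.cw c).1, dg S c) ∈ H.reg.unused) ∨
          (Aw S X (S.Blk pt) (vz S X (S.cw c)) = {dg S (S.cw^[k] c)} ∧
            ((S.cw^[k] c).1, dg S (S.cw^[k] c)) ∈ H.reg.unused)))) := by
  classical
  have hk2 := F.two_le hC.bridgeless H.sub
  refine ⟨hk2, ?_⟩
  by_cases hU : ∀ i, 1 ≤ i → i < k → S.IsU pt (S.cw^[i] c)
  · right
    obtain ⟨h1, h2⟩ := fan_all_U H hC F hU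
    refine ⟨h1, hU, ?_⟩
    have h1X : (S.cw c).1 ∈ X := F.KX (F.inK 1 le_rfl F.pos)
    rcases h2 with h2 | h2 | h2
    · left
      rw [Helper41.AG7.Reg.zeros, mem_filter]
      refine ⟨vz_mem H.lin H.sub (Or.inl h1X), ?_⟩
      have : (Aw S X (S.Blk pt) (vz S X (S.cw c))).card = 0 := by rw [h2, card_empty]
      exact this
    · right; left
      refine ⟨h2, unused_single H h1X (F.face 1 le_rfl F.pos) ?_ h2⟩
      have h0 : S.g c ≠ c := F.gl 0 (by omega)
      refine (dg_mem_inc_iff h0).2 (Or.inr ?_)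
      rw [cw, if_neg h0, rot_fst]
    · right; right
      refine ⟨h2, unused_single H (F.KX (F.inK k F.pos le_rfl)) (F.face k F.pos le_rfl) ?_ h2⟩
      exact dg_mem_inc (F.gl k le_rfl)
  · left
    push Not at hU
    obtain ⟨i, h1, h2, h3⟩ := hU
    have hg := F.gl i (by omega)
    have hs := F.succ (i := i) (by omega)
    have h4 : (S.cw^[i + 1] c).1 = (S.g (S.cw^[i] c)).1 := by rw [hs, rot_fst]
    have h5 : bl S X (S.Blk pt) (dg S (S.cw^[i] c)) ≠ none := by
      intro h
      rw [bl_none] at h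
      exact h3 (AG.Geo.isU_iff.2 ⟨hg, h.1, h.2⟩)
    refine ⟨i, h1, h2, h5, ?_⟩
    rw [h4]
    exact unused_one_of_two H hg (F.KX (F.inK i h1 (by omega)))
      (by rw [← h4]; exact F.KX (F.inK (i + 1) (by omega) (by omega))) (F.face i h1 (by omega))
      (by rw [← h4]; exact F.face (i + 1) (by omega) (by omega)) h5

end

end Pool.Agent.Helper29.AG7
end
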