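import Pool.Agent.Helper16.VGG.G09

/- AG.Reg.Torso -/
section
/-!
# Project AG, block 6: the torso inequality for a finite family of regions (6.10)
-/

set_option linter.unusedSectionVars false
set_option linter.unusedSimpArgs false
set_option linter.unusedVariables false

namespace AG

open Finset

variable {I : Type} [DecidableEq I]

namespace Obj

variable {S : Obj I} {pt : Sd I → Pt}

/-- a finite family of pairwise disjoint one-copy regions `A i` (with visit `v i`) in the region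
`K` with visit `V` -/
structure Fam (S : Obj I) (pt : Sd I → Pt) (K : Finset I) (V : Sd I → Prop) {ι : Type}
    (s : Finset ι) (A : ι → Finset I) (v : ι → Sd I) : Prop where
  sub : ∀ i ∈ s, A i ⊆ K
  disj : ∀ i ∈ s, ∀ j ∈ s, i ≠ j → Disjoint (A i) (A j)
  shape : ∀ i ∈ s, S.Shape (A i) (S.Eqv (v i)) 1
  nV : ∀ i ∈ s, ¬ V (v i)
  /-- no virtual blade of a member is at the visit `V` -/
  virV : ∀ i ∈ s, ∀ w, S.Vir pt w → w.1 ∈ A i → ¬ V w
  zA : ∀ i ∈ s, ∀ z ∈ S.Zr pt (A i) (S.Eqv (v i)), S.BLg pt (A i) (v i) z ∨ S.NoB pt z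
  zV : ∀ z, S.NoB pt z → ¬ V z
  zB : ∀ i ∈ s, ∀ j ∈ s, i ≠ j → ∀ z, S.NoB pt z → S.Meets (A i) z → S.Meets (A j) z →
    S.BLg pt (A i) (v i) z ∨ S.BLg pt (A j) (v j) z
  /-- a member is met by the ear end of an eared triangle outside only in the b-like way -/
  ear : ∀ i ∈ s, ∀ c, S.Eared c → c.1 ∈ K → c.1 ∉ A i → ∀ z, S.EndOf c z → S.Meets (A i) z →
    S.BLg pt (A i) (v i) z

open Classical in
/-- virtual blades of `K` in no member -/
noncomputable def candT (S : Obj I) (pt : Sd I → Pt) (K : Finset I) (V : Sd I → Prop) {ι : Type}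
    (s : Finset ι) (A : ι → Finset I) : Finset (Sd I) :=
  (S.CandK pt K V).filter (fun w => ∀ i ∈ s, w.1 ∉ A i)

open Classical in
/-- eared triangles of `K` in no member -/
noncomputable def earsT (S : Obj I) (K : Finset I) {ι : Type}
    (s : Finset ι) (A : ι → Finset I) : Finset (Sd I) :=
  (S.EarsK K).filter (fun c => ∀ i ∈ s, c.1 ∉ A i)

open Classical in
/-- visits of `Zr K` which meet members only in the b-like way and are not the end of an ear
outside the members -/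
noncomputable def zrT (S : Obj I) (pt : Sd I → Pt) (K : Finset I) (V : Sd I → Prop) {ι : Type}
    (s : Finset ι) (A : ι → Finset I) (v : ι → Sd I) : Finset (Sd I) :=
  (S.Zr pt K V).filter (fun z => (∀ i ∈ s, S.Meets (A i) z → S.BLg pt (A i) (v i) z) ∧
    ∀ c ∈ S.earsT K s A, ¬ S.EndOf c z)

/-- two tops of one fan are equal -/
theorem top_unique (hl : S.Linear) {a b : Sd I} (h : S.Eqv a b) (ha : S.g (unrot a) = unrot a)
    (hb : S.g (unrot b) = unrot b) : a = b := by
  rcases Nat.lt_trichotomy (S.ps a) (S.ps b) with h1 | h1 | h1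
  · exact absurd ha (unrot_glued_of_lt hl h h1)
  · exact ps_inj hl h h1
  · exact absurd hb (unrot_glued_of_lt hl h.symm h1)

theorem eqv_vis_unique (hl : S.Linear) {a b : Sd I} (h : S.Eqv a b) (ha : a ∈ S.vis)
    (hb : b ∈ S.vis) : a = b := by
  have h1 := (eqv_iff hl).1 h
  rwa [last_of_unglued (mem_vis.1 ha).2, last_of_unglued (mem_vis.1 hb).2] at h1

open Classical in
theorem card_split {β ι : Type} (X : Finset β) (f : β → I) (s : Finset ι) (A : ι → Finset I)
    (hd : ∀ i ∈ s, ∀ j ∈ s, i ≠ j → Disjoint (A i) (A j)) :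
    (X.filter (fun x => ∀ i ∈ s, f x ∉ A i)).card + ∑ i ∈ s, (X.filter (fun x => f x ∈ A i)).card
      = X.card := by
  rw [← Finset.card_biUnion]
  · rw [← Finset.card_union_of_disjoint]
    · congr 1
      ext x
      simp only [mem_union, mem_filter, mem_biUnion]
      constructor
      · rintro (h | ⟨i, _, h⟩)
        · exact h.1
        · exact h.1
      · intro h
        by_cases h1 : ∀ i ∈ s, f x ∉ A i
        · exact Or.inl ⟨h, h1⟩
        · push Not at h1
          obtain ⟨i, hi, h2⟩ := h1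
          exact Or.inr ⟨i, hi, h, h2⟩
    · rw [Finset.disjoint_left]
      intro x h1 h2
      simp only [mem_filter, mem_biUnion] at h1 h2
      obtain ⟨i, hi, h3⟩ := h2
      exact h1.2 i hi h3.2
  · intro i hi j hj hij
    rw [Function.onFun, Finset.disjoint_left]
    intro x h1 h2
    simp only [mem_filter] at h1 h2
    exact Finset.disjoint_left.1 (hd i hi j hj hij) h1.2 h2.2

open Classical in
/-- virtual blades of the member at its visit -/
noncomputable def bv (S : Obj I) (pt : Sd I → Pt) (A : Finset I) (v : Sd I) : Finset (Sd I) :=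
  S.sides.filter (fun w => S.Vir pt w ∧ S.Eqv w v ∧ w.1 ∈ A)

open Classical in
/-- (1) -/
theorem Fam.cand_le {K : Finset I} {V : Sd I → Prop}
    {ι : Type} {s : Finset ι} {A : ι → Finset I} {v : ι → Sd I} (hF : S.Fam pt K V s A v)
    (hV : ∀ a b, S.Eqv a b → V a → V b) :
    (S.candT pt K V s A).card + ∑ i ∈ s, ((S.CandK pt (A i) (S.Eqv (v i))).card
      + (S.bv pt (A i) (v i)).card) ≤ (S.CandK pt K V).card := by
  rw [← card_split (S.CandK pt K V) (fun w => w.1) s A hF.disj]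
  apply Nat.add_le_add_left
  apply Finset.sum_le_sum
  intro i hi
  rw [← Finset.card_union_of_disjoint]
  · apply Finset.card_le_card
    intro w hw
    rw [mem_union] at hw
    rw [mem_filter]
    rcases hw with hw | hw
    · simp only [CandK, mem_filter] at hw ⊢
      exact ⟨⟨hw.1, hw.2.1, hF.sub i hi hw.2.2.1, hF.virV i hi w hw.2.1 hw.2.2.1⟩, hw.2.2.1⟩
    · simp only [bv, CandK, mem_filter] at hw ⊢
      exact ⟨⟨hw.1, hw.2.1, hF.sub i hi hw.2.2.2, hF.virV i hi w hw.2.1 hw.2.2.2⟩, hw.2.2.2⟩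
  · rw [Finset.disjoint_left]
    intro w h1 h2
    simp only [CandK, mem_filter] at h1
    simp only [bv, mem_filter] at h2
    exact h1.2.2.2 h2.2.2.1.symm

open Classical in
/-- (2) -/
theorem zr_bl_le (hl : S.Linear) (A : Finset I) (v : Sd I) :
    ((S.Zr pt A (S.Eqv v)).filter (fun z => S.BLg pt A v z)).card ≤ (S.bv pt A v).card := by
  have hch : ∀ z, ∃ w, z ∈ (S.Zr pt A (S.Eqv v)).filter (fun z => S.BLg pt A v z) →
      S.Vir pt w ∧ S.Eqv w v ∧ w.1 ∈ A ∧ S.Eqv (S.xc pt w) z := by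
    intro z
    by_cases hz : z ∈ (S.Zr pt A (S.Eqv v)).filter (fun z => S.BLg pt A v z)
    · obtain ⟨w, h1⟩ := (mem_filter.1 hz).2
      exact ⟨w, fun _ => h1⟩
    · exact ⟨z, fun h => absurd h hz⟩
  choose f hf using hch
  apply Finset.card_le_card_of_injOn f
  · intro z hz
    obtain ⟨h1, h2, h3, _⟩ := hf z hz
    simp only [bv, coe_filter, Set.mem_ofPred_eq, mem_sides]
    exact ⟨h1.bladeAt.memF, h1, h2, h3⟩
  · intro z hz z' hz' h
    obtain ⟨_, _, _, h4⟩ := hf z hz
    obtain ⟨_, _, _, h4'⟩ := hf z' hz'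
    rw [h] at h4
    have hz0 := (mem_filter.1 hz).1
    have hz0' := (mem_filter.1 hz').1
    simp only [Zr, mem_filter] at hz0 hz0'
    exact eqv_vis_unique hl (h4.symm.trans h4') hz0.1 hz0'.1

open Classical in
/-- (3) -/
theorem Fam.zr_le (hB : Base S pt) {K : Finset I} {V : Sd I → Prop}
    {ι : Type} {s : Finset ι} {A : ι → Finset I} {v : ι → Sd I} (hF : S.Fam pt K V s A v)
    (hK : K ⊆ S.F) (hV : ∀ a b, S.Eqv a b → V a → V b) :
    2 * (S.earsT K s A).card + (S.zrT pt K V s A v).card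
      + ∑ i ∈ s, ((S.Zr pt (A i) (S.Eqv (v i))).filter (fun z => ¬ S.BLg pt (A i) (v i) z)).card
      ≤ (S.Zr pt K V).card := by
  have hl := hB.lin
  have hE : ∀ c ∈ S.earsT K s A, S.Eared c ∧ c.1 ∈ K ∧ ∀ i ∈ s, c.1 ∉ A i := by
    intro c hc
    simp only [earsT, EarsK, mem_filter] at hc
    exact ⟨hc.1.2.1, hc.1.2.2, hc.2⟩
  have hEnd : ∀ z ∈ S.vis, (∃ c ∈ S.earsT K s A, S.EndOf c z) → z ∈ S.Zr pt K V := by
    rintro z hz ⟨c, hc, hcz⟩
    obtain ⟨h1, h2, h3⟩ := hE c hc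
    have hend : S.EarEnd z := by
      refine ⟨rot c, h1.2.2, ?_⟩
      rcases hcz with h | h
      · exact Or.inl h
      · right; rw [rot_rot]; exact h
    have hno : S.NoB pt z := fun w hw he => hB.earEnd z w hend hw he.symm
    simp only [Zr, mem_filter]
    refine ⟨hz, hF.zV z hno, ?_, fun w hw _ => hno w hw⟩
    rcases hcz with h | h
    · exact ⟨rot c, h, h2⟩
    · exact ⟨unrot c, h, h2⟩
  -- the first ends
  have hinj1 : Set.InjOn (rot : Sd I → Sd I) (S.earsT K s A : Set (Sd I)) :=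
    fun a _ b _ h => rot_injective h
  have hinj2 : Set.InjOn (fun c => S.last (unrot c)) (S.earsT K s A : Set (Sd I)) := by
    intro a ha b hb h
    have ha' := hE a ha
    have hb' := hE b hb
    have h1 : S.Eqv (unrot a) (unrot b) := (eqv_iff hl).2 h
    have h2 : unrot a = unrot b := by
      apply top_unique hl h1
      · rw [unrot_unrot]; exact S.earFree _ ha'.1.2.2
      · rw [unrot_unrot]; exact S.earFree _ hb'.1.2.2
    have h3 := congrArg rot h2
    rwa [rot_unrot, rot_unrot] at h3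
  let X1 := (S.earsT K s A).image rot
  let X2 := (S.earsT K s A).image (fun c => S.last (unrot c))
  let X3 := S.zrT pt K V s A v
  let X4 := s.biUnion (fun i => (S.Zr pt (A i) (S.Eqv (v i))).filter
    (fun z => ¬ S.BLg pt (A i) (v i) z))
  have hX1 : X1.card = (S.earsT K s A).card := Finset.card_image_of_injOn hinj1
  have hX2 : X2.card = (S.earsT K s A).card := Finset.card_image_of_injOn hinj2
  have hX1m : ∀ z ∈ X1, z ∈ S.vis ∧ ∃ c ∈ S.earsT K s A, z = rot c := by
    intro z hz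
    obtain ⟨c, hc, rfl⟩ := mem_image.1 hz
    refine ⟨?_, c, hc, rfl⟩
    have := hE c hc
    rw [mem_vis]
    exact ⟨hK this.2.1, S.earFree _ this.1.2.2⟩
  have hX2m : ∀ z ∈ X2, z ∈ S.vis ∧ ∃ c ∈ S.earsT K s A, z = S.last (unrot c) := by
    intro z hz
    obtain ⟨c, hc, rfl⟩ := mem_image.1 hz
    refine ⟨?_, c, hc, rfl⟩
    have := hE c hc
    apply last_mem_vis hl
    rw [mem_sides]
    exact hK this.2.1
  have hX1e : ∀ z ∈ X1, ∃ c ∈ S.earsT K s A, S.EndOf c z := by
    intro z hz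
    obtain ⟨_, c, hc, rfl⟩ := hX1m z hz
    exact ⟨c, hc, Or.inl (Eqv.refl _ _)⟩
  have hX2e : ∀ z ∈ X2, ∃ c ∈ S.earsT K s A, S.EndOf c z := by
    intro z hz
    obtain ⟨_, c, hc, rfl⟩ := hX2m z hz
    exact ⟨c, hc, Or.inr (S.last_eqv _)⟩
  have hX4m : ∀ z ∈ X4, ∃ i ∈ s, z ∈ S.Zr pt (A i) (S.Eqv (v i)) ∧
      ¬ S.BLg pt (A i) (v i) z ∧ S.NoB pt z ∧ S.Meets (A i) z ∧ z ∈ S.vis := by
    intro z hz
    obtain ⟨i, hi, h1⟩ := mem_biUnion.1 hz
    rw [mem_filter] at h1
    refine ⟨i, hi, h1.1, h1.2, ?_, ?_⟩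
    · rcases hF.zA i hi z h1.1 with h | h
      · exact absurd h h1.2
      · exact h
    · have h2 := h1.1
      simp only [Zr, mem_filter] at h2
      exact ⟨h2.2.2.1, h2.1⟩
  have hX4c : X4.card = ∑ i ∈ s, ((S.Zr pt (A i) (S.Eqv (v i))).filter
      (fun z => ¬ S.BLg pt (A i) (v i) z)).card := by
    apply Finset.card_biUnion
    intro i hi j hj hij
    rw [Function.onFun, Finset.disjoint_left]
    intro z h1 h2
    rw [mem_filter] at h1 h2
    have hno : S.NoB pt z := by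
      rcases hF.zA i hi z h1.1 with h | h
      · exact absurd h h1.2
      · exact h
    have h3 := h1.1
    have h4 := h2.1
    simp only [Zr, mem_filter] at h3 h4
    rcases hF.zB i hi j hj hij z hno h3.2.2.1 h4.2.2.1 with h | h
    · exact h1.2 h
    · exact h2.2 h
  have d12 : Disjoint X1 X2 := by
    rw [Finset.disjoint_left]
    intro z h1 h2
    obtain ⟨_, c, hc, rfl⟩ := hX1m z h1
    obtain ⟨_, d, hd, h⟩ := hX2m _ h2
    have h3 : S.Eqv (rot c) (unrot d) := by rw [h]; exact (S.last_eqv _).symm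
    have h4 := hB.ear_se (rot c) (hE c hc).1.2.2 (rot d) (hE d hd).1.2.2
    rw [rot_rot] at h4
    exact h4 h3
  have d3 : Disjoint (X1 ∪ X2) X3 := by
    rw [Finset.disjoint_left]
    intro z h1 h2
    have h3 : ∃ c ∈ S.earsT K s A, S.EndOf c z := by
      rcases mem_union.1 h1 with h | h
      · exact hX1e z h
      · exact hX2e z h
    obtain ⟨c, hc, hcz⟩ := h3
    have h4 : z ∈ S.zrT pt K V s A v := h2
    rw [zrT, mem_filter] at h4
    exact h4.2.2 c hc hcz
  have d4 : Disjoint (X1 ∪ X2 ∪ X3) X4 := by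
    rw [Finset.disjoint_left]
    intro z h1 h2
    obtain ⟨i, hi, h5, h6, h7, h8, _⟩ := hX4m z h2
    rcases mem_union.1 h1 with h | h
    · have h3 : ∃ c ∈ S.earsT K s A, S.EndOf c z := by
        rcases mem_union.1 h with h | h
        · exact hX1e z h
        · exact hX2e z h
      obtain ⟨c, hc, hcz⟩ := h3
      obtain ⟨e1, e2, e3⟩ := hE c hc
      exact h6 (hF.ear i hi c e1 e2 (e3 i hi) z hcz h8)
    · have h4 : z ∈ S.zrT pt K V s A v := h
      rw [zrT, mem_filter] at h4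
      exact h6 (h4.2.1 i hi h8)
  have hsub : X1 ∪ X2 ∪ X3 ∪ X4 ⊆ S.Zr pt K V := by
    intro z hz
    simp only [mem_union] at hz
    rcases hz with ((h | h) | h) | h
    · exact hEnd z (hX1m z h).1 (hX1e z h)
    · exact hEnd z (hX2m z h).1 (hX2e z h)
    · have h4 : z ∈ S.zrT pt K V s A v := h
      rw [zrT, mem_filter] at h4
      exact h4.1
    · obtain ⟨i, hi, h5, h6, h7, h8, h9⟩ := hX4m z h
      simp only [Zr, mem_filter]
      obtain ⟨c, hc, hcA⟩ := h8
      exact ⟨h9, hF.zV z h7, ⟨c, hc, hF.sub i hi hcA⟩, fun w hw _ => h7 w hw⟩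
  have hc := Finset.card_le_card hsub
  rw [Finset.card_union_of_disjoint d4, Finset.card_union_of_disjoint d3,
    Finset.card_union_of_disjoint d12, hX1, hX2, hX4c] at hc
  have hX3 : X3.card = (S.zrT pt K V s A v).card := rfl
  omega

/-- TORSO INEQUALITY -/
theorem Base.torso_le (hB : Base S pt) {K : Finset I} {V : Sd I → Prop} {ε : ℕ}
    (hK : S.Shape K V ε) {ι : Type} {s : Finset ι} {A : ι → Finset I} {v : ι → Sd I}
    (hF : S.Fam pt K V s A v) :
    (S.candT pt K V s A).card + (S.earsT K s A).card + (S.zrT pt K V s A v).card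
      + ∑ i ∈ s, ((S.CP pt (A i) (S.Eqv (v i))).card + 1) ≤ (S.CP pt K V).card + ε := by
  classical
  have h0 := hB.ident hK
  have h1 := hF.cand_le hK.Vinv
  have h3 := hF.zr_le hB hK.sub hK.Vinv
  have h4 := card_split (S.EarsK K) (fun c => c.1) s A hF.disj
  have h5 : ∀ i ∈ s, ((S.EarsK K).filter (fun c => c.1 ∈ A i)) = S.EarsK (A i) := by
    intro i hi
    ext c
    simp only [EarsK, mem_filter]
    constructor
    · rintro ⟨⟨a1, a2, _⟩, a3⟩
      exact ⟨a1, a2, a3⟩
    · rintro ⟨a1, a2, a3⟩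
      exact ⟨⟨a1, a2, hF.sub i hi a3⟩, a3⟩
  rw [Finset.sum_congr rfl (fun i hi => by rw [h5 i hi])] at h4
  have h6 : (S.earsT K s A).card
      = ((S.EarsK K).filter (fun c => ∀ i ∈ s, c.1 ∉ A i)).card := rfl
  rw [← h6] at h4
  have h7 : ∑ i ∈ s, ((S.CP pt (A i) (S.Eqv (v i))).card + (S.EarsK (A i)).card + 1)
      ≤ ∑ i ∈ s, ((S.CandK pt (A i) (S.Eqv (v i))).card + (S.bv pt (A i) (v i)).card
        + ((S.Zr pt (A i) (S.Eqv (v i))).filter (fun z => ¬ S.BLg pt (A i) (v i) z)).card) := by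
    apply Finset.sum_le_sum
    intro i hi
    have e1 := hB.ident (hF.shape i hi)
    have e2 := zr_bl_le (pt := pt) hB.lin (A i) (v i)
    have e3 := Finset.card_filter_add_card_filter_not (s := S.Zr pt (A i) (S.Eqv (v i)))
      (fun z => S.BLg pt (A i) (v i) z)
    omega
  simp only [Finset.sum_add_distrib] at h1 h3 h4 h7 ⊢
  omega

end Obj

end AG
end

/- AG.Reg.Lam -/
section
/-!
# Project AG, block 6: crossing, laminarity (6.5), fan lemma (6.6), exits of a fan
-/

set_option linter.unusedSectionVars false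
set_option linter.unusedSimpArgs false
set_option linter.unusedVariables false

namespace AG

open Finset

variable {I : Type} [DecidableEq I]

namespace Obj

variable {S : Obj I} {pt : Sd I → Pt}

/-- a region with two boundary edges at one visit: `a` starts there, `σ` ends there -/
structure Reg2 (S : Obj I) (K : Finset I) (a σ : Sd I) : Prop where
  sub : K ⊆ S.F
  bd : S.bd K = {a, σ}
  vis : S.Eqv a (rot σ)

theorem IsIn.reg2 {c c' : Sd I} {K : Finset I} (h : S.IsIn c c' K) : S.Reg2 K c (S.g c') :=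
  ⟨h.sub, h.bd, h.eqv.trans (Eqv.of_glued h.gl')⟩

theorem IsIn.reg2_compl {c c' : Sd I} {K : Finset I} (h : S.IsIn c c' K) :
    S.Reg2 (S.F \ K) c' (S.g c) := by
  refine ⟨sdiff_subset, ?_, h.eqv.symm.trans (Eqv.of_glued h.gl)⟩
  rw [bd_sdiff, inter_eq_right.2 h.sub, h.bd, image_insert, image_singleton, S.invol, pair_comm]

theorem Reg2.memA {K : Finset I} {a σ : Sd I} (h : S.Reg2 K a σ) :
    S.g a ≠ a ∧ a.1 ∈ K ∧ (S.g a).1 ∉ K := by
  have : a ∈ S.bd K := by rw [h.bd]; simp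
  rwa [mem_bd] at this

theorem Reg2.memS {K : Finset I} {a σ : Sd I} (h : S.Reg2 K a σ) :
    S.g σ ≠ σ ∧ σ.1 ∈ K ∧ (S.g σ).1 ∉ K := by
  have : σ ∈ S.bd K := by rw [h.bd]; simp
  rwa [mem_bd] at this

/-- leaving the region clockwise at another visit -/
theorem Reg2.exit (hB : Base S pt) {K : Finset I} {a σ c : Sd I} (h : S.Reg2 K a σ)
    (hc : ¬ S.Eqv a c) (hg : S.g c ≠ c) (h1 : c.1 ∈ K) (h2 : (S.g c).1 ∉ K) : c = σ := by
  have h3 : c ∈ S.bd K := mem_bd.2 ⟨hg, h1, h2⟩
  rw [h.bd, mem_insert, mem_singleton] at h3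
  rcases h3 with h3 | h3
  · rw [h3] at hc; exact absurd (Eqv.refl _ _) hc
  · exact h3

/-- entering the region clockwise at another visit -/
theorem Reg2.entry (hB : Base S pt) {K : Finset I} {a σ c : Sd I} (h : S.Reg2 K a σ)
    (hc : ¬ S.Eqv a c) (hg : S.g c ≠ c) (h1 : c.1 ∉ K) (h2 : (S.g c).1 ∈ K) : c = S.g a := by
  have h3 : S.g c ∈ S.bd K := mem_bd.2 ⟨g_ne_iff.2 hg, h2, by rw [S.invol]; exact h1⟩
  rw [h.bd, mem_insert, mem_singleton] at h3
  rcases h3 with h3 | h3
  · rw [← h3, S.invol]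
  · exfalso
    apply hc
    have h4 : c = S.g σ := by rw [← h3, S.invol]
    rw [h4]
    exact h.vis.trans (Eqv.of_glued' h.memS.1)

/-- no visit has both the exit and the entry; equivalently: the two boundary edges have different
second end points -/
theorem Reg2.not_both (hB : Base S pt) {K : Finset I} {a σ : Sd I} (h : S.Reg2 K a σ) :
    ¬ S.Eqv σ (S.g a) := by
  intro he
  obtain ⟨a1, a2, a3⟩ := h.memA
  obtain ⟨s1, s2, s3⟩ := h.memS
  have h1 : S.Eqv (S.g σ) a := (Eqv.of_glued' s1).symm.trans h.vis.symm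
  have h2 : S.Eqv (rot (S.g σ)) (rot a) := by
    refine (Eqv.of_glued s1).symm.trans (he.trans (Eqv.of_glued' a1).symm)
  have h3 := hB.seg (S.g σ) a (g_ne_iff.2 s1) a1 h1 h2
  rw [h3] at s3
  exact s3 a2

/-- the boundary edges determine the visit: two descriptions of the same region -/
theorem Reg2.unique (hB : Base S pt) {K : Finset I} {a σ a' σ' : Sd I} (h : S.Reg2 K a σ)
    (h' : S.Reg2 K a' σ') : a = a' ∧ σ = σ' := by
  have hne : a ≠ σ := by
    rintro rfl
    exact hB.loopless a (h.sub h.memA.2.1) h.vis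
  have e : ({a, σ} : Finset (Sd I)) = {a', σ'} := h.bd.symm.trans h'.bd
  have m1 : a ∈ ({a', σ'} : Finset (Sd I)) := by rw [← e]; simp
  have m2 : σ ∈ ({a', σ'} : Finset (Sd I)) := by rw [← e]; simp
  rw [mem_insert, mem_singleton] at m1 m2
  rcases m1 with m1 | m1 <;> rcases m2 with m2 | m2
  · exact absurd (m1.trans m2.symm) hne
  · exact ⟨m1, m2⟩
  · exfalso
    apply h.not_both hB
    have h3 := h'.vis
    rw [← m1, ← m2] at h3
    exact h3.trans (Eqv.of_glued' h.memA.1)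
  · exact absurd (m1.trans m2.symm) hne

/-- outside part of another visit: below the exit or above the entry -/
theorem Reg2.outside (hB : Base S pt) {K : Finset I} {a σ c d : Sd I} (h : S.Reg2 K a σ)
    (hc : ¬ S.Eqv a c) (h1 : c.1 ∈ K) (hcd : S.Eqv c d) (h2 : d.1 ∉ K) :
    (S.Eqv c σ ∧ S.ps d < S.ps σ) ∨ (S.Eqv c (S.g a) ∧ S.ps (S.g a) ≤ S.ps d) := by
  rcases Nat.lt_or_ge (S.ps d) (S.ps c) with h3 | h3
  · left
    obtain ⟨e, e1, e2, e3, e4, e5, e6⟩ := exists_cross hB.lin hcd.symm h3.le (X := K)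
      (fun h4 => h2 (h4.2 h1))
    have e7 : e.1 ∈ K := e6.2 h1
    have e8 : e = σ := h.exit hB (fun h5 => hc (h5.trans (e1.symm.trans hcd.symm))) e2 e7
      (fun h5 => e5 ⟨fun _ => h5, fun _ => e7⟩)
    rw [← e8]
    exact ⟨hcd.trans e1, e3⟩
  · right
    obtain ⟨e, e1, e2, e3, e4, e5, e6⟩ := exists_cross hB.lin hcd h3 (X := K)
      (fun h4 => h2 (h4.1 h1))
    have e7 : e.1 ∉ K := fun h5 => h2 (e6.1 h5)
    have e8 : e = S.g a := h.entry hB (fun h5 => hc (h5.trans e1.symm)) e2 e7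
      (by
        by_contra h5
        exact e5 ⟨fun h6 => absurd h6 e7, fun h6 => absurd h6 h5⟩)
    rw [← e8]
    exact ⟨e1, e4⟩

/-- 6.6 FAN LEMMA: the fan of the visit of `X` inside `X` avoids one-copy subsets at other visits -/
theorem Base.fan (hB : Base S pt) {c c' d d' : Sd I} {X Y : Finset I} (hX : S.IsIn c c' X)
    (hY : S.IsIn d d' Y) (hne : ¬ S.Eqv c d) (hsub : Y ⊆ X) {u : Sd I} (hu : S.Eqv c u)
    (h1 : u.1 ∈ X) : u.1 ∉ Y := by
  intro hY'
  have hl := hB.lin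
  have rY := hY.reg2
  have hpos := (hX.mem_iff hl hB.loopless hu).1 h1
  have hdu : ¬ S.Eqv d u := fun h => hne (hu.trans h.symm)
  -- below
  have hgc : (S.g c).1 ∉ Y := fun h => (mem_bd.1 hX.mem_left).2.2 (hsub h)
  have e1 : S.Eqv u (S.cw c) := hu.symm.trans (S.cw_eqv c)
  have p1 : S.ps (S.cw c) < S.ps u := by
    have := ps_of_glued hl hX.gl
    omega
  have b1 : S.Eqv d' (S.g d') → False := fun h =>
    hB.loopless d' (S.memF _ hY.gl') (h.trans (Eqv.of_glued' hY.gl').symm)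
  rcases rY.outside hB hdu hY' e1 (by rw [cw_fst hX.gl]; exact hgc) with ⟨h3, _⟩ | ⟨h3, h4⟩
  swap
  · -- the entry is below `u`: impossible, then `u` is not in `Y`
    obtain ⟨e, e2, e3, e4, e5, e6, e7⟩ := exists_cross hl e1.symm p1.le (X := Y)
      (fun h5 => hgc (by rw [← cw_fst hX.gl]; exact h5.2 hY'))
    have e8 : e.1 ∈ Y := e7.2 hY'
    have e9 : e = S.g d' := rY.exit hB (fun h5 => hdu (h5.trans (e2.symm.trans e1.symm))) e3 e8
      (fun h5 => e6 ⟨fun _ => h5, fun _ => e8⟩)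
    apply rY.not_both hB
    rw [← e9]
    exact (e2.symm.trans e1.symm).trans h3
  -- above
  have hc'Y : c'.1 ∉ Y := fun h => by
    have := (mem_bd.1 hX.mem_right).2.2
    rw [S.invol] at this
    exact this (hsub h)
  have e2 : S.Eqv u c' := hu.symm.trans hX.eqv
  obtain ⟨e, f1, f2, f3, f4, f5, f6⟩ := exists_cross hl e2 (by omega) (X := Y)
    (fun h5 => hc'Y (h5.1 hY'))
  have f7 : e.1 ∉ Y := fun h5 => hc'Y (f6.1 h5)
  have f8 : e = S.g d := rY.entry hB (fun h5 => hdu (h5.trans f1.symm)) f2 f7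
    (by
      by_contra h5
      exact f5 ⟨fun h6 => absurd h6 f7, fun h6 => absurd h6 h5⟩)
  apply rY.not_both hB
  rw [← f8]
  exact h3.symm.trans f1

/-- crossing of a one-copy set `Y` with a region `X` (one-copy set or complement of one): if the
four corners are not empty then one boundary edge of `Y` has both ends outside `X` -/
theorem Base.cross_out (hB : Base S pt) {X Y : Finset I} (hX : X ⊆ S.F) (hX2 : (S.bd X).card = 2)
    (hY : Y ⊆ S.F) (hY2 : (S.bd Y).card = 2) (h1 : (X ∩ Y).Nonempty) (h2 : (X \ Y).Nonempty)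
    (h3 : (Y \ X).Nonempty) (h4 : (S.F \ (X ∪ Y)).Nonempty) :
    ∃ f ∈ S.bd Y, f.1 ∉ X ∧ (S.g f).1 ∉ X := by
  obtain ⟨e, e', f, f', g1, g2, g3, g4, g5, g6⟩ :=
    crossing hB.conn hB.bl hX hY hX2 hY2 h1 h2 h3 h4
  exact ⟨f', by rw [g2]; simp, g6.1, g6.2.2.1⟩

/-- at the visit of a one-copy set `X` which crosses `Y` there is an edge of the boundary of `Y`
with both triangles in `X` -/
theorem Base.inner_edge (hB : Base S pt) {c c' : Sd I} {X Y : Finset I} (hX : S.IsIn c c' X)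
    (h : ¬ (c.1 ∈ Y ↔ (S.g c').1 ∈ Y)) :
    ∃ f, S.Eqv c f ∧ S.g f ≠ f ∧ f.1 ∈ X ∧ (S.g f).1 ∈ X ∧ ¬ (f.1 ∈ Y ↔ (S.g f).1 ∈ Y) := by
  have hl := hB.lin
  have h1 : (S.cw c').1 = (S.g c').1 := cw_fst hX.gl'
  have h2 := ps_of_glued hl hX.gl'
  have h3 := hX.lt
  have he : S.Eqv c (S.cw c') := hX.eqv.trans (S.cw_eqv c')
  obtain ⟨f, f1, f2, f3, f4, f5, f6⟩ := exists_cross hl he (by omega) (X := Y)
    (by rw [h1]; exact h)
  refine ⟨f, f1, f2, ?_, ?_, f5⟩
  · rw [hX.mem_iff hl hB.loopless f1]; omega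
  · rw [hX.g_left_iff hl hB.loopless f1 f2]; omega

/-- 6.5 LAMINAR: one-copy sets at different visits do not cross -/
theorem Base.laminar (hB : Base S pt) {c c' d d' : Sd I} {X Y : Finset I} (hX : S.IsIn c c' X)
    (hY : S.IsIn d d' Y) (hne : ¬ S.Eqv c d) (hU : X ∪ Y ≠ S.F) :
    Disjoint X Y ∨ X ⊆ Y ∨ Y ⊆ X := by
  by_contra hcon
  push Not at hcon
  obtain ⟨c1, c2, c3⟩ := hcon
  have lp := hB.loopless
  obtain ⟨e, e', f, f', g1, g2, g3, g4, g5, g6⟩ :=
    crossing hB.conn hB.bl hX.sub hY.sub (hX.card lp) (hY.card lp)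
      (by rwa [Finset.not_disjoint_iff_nonempty_inter] at c1) (by rwa [Finset.sdiff_nonempty])
      (by rwa [Finset.sdiff_nonempty]) (by
        rw [Finset.sdiff_nonempty]
        exact fun h => hU (subset_antisymm (union_subset hX.sub hY.sub) h))
  -- edges of the boundaries at the visits
  have ends : ∀ {c c' : Sd I} {X : Finset I}, S.IsIn c c' X → ∀ a ∈ S.bd X,
      S.Eqv c a ∨ S.Eqv c (rot a) := by
    intro c c' X h a ha
    rw [h.bd, mem_insert, mem_singleton] at ha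
    rcases ha with rfl | rfl
    · exact Or.inl (Eqv.refl _ _)
    · exact Or.inr (h.eqv.trans (Eqv.of_glued h.gl'))
  have hcX : c ∈ S.bd X := hX.mem_left
  have hcX' : S.g c' ∈ S.bd X := hX.mem_right
  have hdY : d ∈ S.bd Y := hY.mem_left
  have hdY' : S.g d' ∈ S.bd Y := hY.mem_right
  have neX := hX.ne lp
  have neY := hY.ne lp
  have sX : ¬ (c.1 ∈ Y ↔ (S.g c').1 ∈ Y) := by
    rw [g1, mem_insert, mem_singleton] at hcX hcX'
    rcases hcX with h1 | h1 <;> rcases hcX' with h2 | h2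
    · exact absurd (h1.trans h2.symm) neX
    · rw [h1, h2]; exact fun h => g4.2.1 (h.1 g3.2.1)
    · rw [h1, h2]; exact fun h => g4.2.1 (h.2 g3.2.1)
    · exact absurd (h1.trans h2.symm) neX
  have sY : ¬ (d.1 ∈ X ↔ (S.g d').1 ∈ X) := by
    rw [g2, mem_insert, mem_singleton] at hdY hdY'
    rcases hdY with h1 | h1 <;> rcases hdY' with h2 | h2
    · exact absurd (h1.trans h2.symm) neY
    · rw [h1, h2]; exact fun h => g6.1 (h.1 g5.1)
    · rw [h1, h2]; exact fun h => g6.1 (h.2 g5.1)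
    · exact absurd (h1.trans h2.symm) neY
  obtain ⟨x, x1, x2, x3, x4, x5⟩ := hB.inner_edge hX sX
  obtain ⟨y, y1, y2, y3, y4, y5⟩ := hB.inner_edge hY sY
  -- `x` is an edge of `bd Y` at the visits of `c` and `d`
  have hx : S.Eqv d x ∨ S.Eqv d (rot x) := by
    rcases mem_bd_or x2 x5 with h | h
    · exact ends hY x h
    · rcases ends hY _ h with h1 | h1
      · exact Or.inr (h1.trans (Eqv.of_glued' x2).symm)
      · exact Or.inl (h1.trans (Eqv.of_glued x2).symm)
  have hy : S.Eqv c y ∨ S.Eqv c (rot y) := by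
    rcases mem_bd_or y2 y5 with h | h
    · exact ends hX y h
    · rcases ends hX _ h with h1 | h1
      · exact Or.inr (h1.trans (Eqv.of_glued' y2).symm)
      · exact Or.inl (h1.trans (Eqv.of_glued y2).symm)
  have hx' : S.Eqv d (rot x) := hx.resolve_left (fun h => hne (x1.trans h.symm))
  have hy' : S.Eqv c (rot y) := hy.resolve_left (fun h => hne (h.trans y1.symm))
  -- so `y` is the partner of `x`
  have h1 : S.Eqv (S.g y) x := (Eqv.of_glued' y2).symm.trans (hy'.symm.trans x1)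
  have h2 : S.Eqv (rot (S.g y)) (rot x) :=
    (Eqv.of_glued y2).symm.trans (y1.symm.trans hx')
  have h3 := hB.seg (S.g y) x (g_ne_iff.2 y2) x2 h1 h2
  -- `x` crosses `Y`, `y` does not
  apply x5
  rw [← h3, S.invol]
  exact ⟨fun _ => y3, fun _ => y4⟩

end Obj

end AG
end

/- AG.Reg.Out -/
section
/-!
# Project AG, block 6: the other ends of the stubs of `A_p` (6.7), the hypotheses zA, zB, ear of
the torso inequality
-/

set_option linter.unusedSectionVars false
set_option linter.unusedSimpArgs false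
set_option linter.unusedVariables false

namespace AG

open Finset

variable {I : Type} [DecidableEq I]

namespace Obj

variable {S : Obj I} {pt : Sd I → Pt}

/-! ### the fan at the other ends of the two boundary edges -/

theorem Reg2.a_mem {K : Finset I} {a σ : Sd I} (h : S.Reg2 K a σ) :
    S.g a ≠ a ∧ a.1 ∈ K ∧ (S.g a).1 ∉ K := by
  have : a ∈ S.bd K := by rw [h.bd]; simp
  rwa [mem_bd] at this

theorem Reg2.σ_mem {K : Finset I} {a σ : Sd I} (h : S.Reg2 K a σ) :
    S.g σ ≠ σ ∧ σ.1 ∈ K ∧ (S.g σ).1 ∉ K := by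
  have : σ ∈ S.bd K := by rw [h.bd]; simp
  rwa [mem_bd] at this

theorem Reg2.not_eqv_σ (hB : Base S pt) {K : Finset I} {a σ : Sd I} (h : S.Reg2 K a σ) :
    ¬ S.Eqv a σ := by
  intro he
  have h1 := hB.tri σ (rot σ) (h.sub h.σ_mem.2.1) rfl (he.symm.trans h.vis)
  exact rot_ne σ h1.symm

theorem Reg2.not_eqv_g (hB : Base S pt) {K : Finset I} {a σ : Sd I} (h : S.Reg2 K a σ) :
    ¬ S.Eqv a (S.g a) := fun he =>
  hB.loopless a (h.sub h.a_mem.2.1) (he.trans (Eqv.of_glued' h.a_mem.1).symm)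

/-- the fan at the other end of `σ`: the part in `K` is `σ` and everything above -/
theorem Reg2.mem_exit (hB : Base S pt) {K : Finset I} {a σ d : Sd I} (h : S.Reg2 K a σ)
    (hd : S.Eqv σ d) : d.1 ∈ K ↔ S.ps σ ≤ S.ps d := by
  obtain ⟨s1, s2, s3⟩ := h.σ_mem
  have hne := h.not_eqv_σ hB
  have key : ∀ c, S.Eqv σ c → S.g c ≠ c → ¬ (c.1 ∈ K ↔ (S.g c).1 ∈ K) → c = σ := by
    intro c h1 h2 h3
    have h4 : ¬ S.Eqv a c := fun h5 => hne (h5.trans h1.symm)
    by_cases h5 : c.1 ∈ K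
    · exact h.exit hB h4 h2 h5 (fun h6 => h3 ⟨fun _ => h6, fun _ => h5⟩)
    · have h6 : (S.g c).1 ∈ K := by
        by_contra h7; exact h3 ⟨fun h8 => absurd h8 h5, fun h8 => absurd h8 h7⟩
      have h7 := h.entry hB h4 h2 h5 h6
      rw [h7] at h1
      exact absurd h1 (h.not_both hB)
  constructor
  · intro hdK
    by_contra hlt
    push Not at hlt
    have e1 := ps_of_glued hB.lin s1
    obtain ⟨c, c1, c2, c3, c4, c5, -⟩ := exists_cross hB.lin (a := d) (b := S.cw σ)
      (hd.symm.trans (S.cw_eqv σ)) (by omega) (X := K)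
      (by rw [cw_fst s1]; exact fun hh => s3 (hh.1 hdK))
    have := key c (hd.trans c1) c2 c5
    rw [this] at c4
    omega
  · intro hle
    by_contra hdK
    obtain ⟨c, c1, c2, c3, c4, c5, -⟩ := exists_cross hB.lin (a := σ) (b := d) hd hle (X := K)
      (fun hh => hdK (hh.1 s2))
    have := key c c1 c2 c5
    rw [this] at c3
    omega

/-- the fan at the other end of `a`: the part in `K` is everything below `g a` -/
theorem Reg2.mem_entry (hB : Base S pt) {K : Finset I} {a σ d : Sd I} (h : S.Reg2 K a σ)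
    (hd : S.Eqv (S.g a) d) : d.1 ∈ K ↔ S.ps d < S.ps (S.g a) := by
  obtain ⟨s1, s2, s3⟩ := h.a_mem
  have hne := h.not_eqv_g hB
  have g1 : S.g (S.g a) ≠ S.g a := g_ne_iff.2 s1
  have key : ∀ c, S.Eqv (S.g a) c → S.g c ≠ c → ¬ (c.1 ∈ K ↔ (S.g c).1 ∈ K) → c = S.g a := by
    intro c h1 h2 h3
    have h4 : ¬ S.Eqv a c := fun h5 => hne (h5.trans h1.symm)
    by_cases h5 : c.1 ∈ K
    · have h6 := h.exit hB h4 h2 h5 (fun h6 => h3 ⟨fun _ => h6, fun _ => h5⟩)
      rw [h6] at h1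
      exact absurd h1.symm (h.not_both hB)
    · have h6 : (S.g c).1 ∈ K := by
        by_contra h7; exact h3 ⟨fun h8 => absurd h8 h5, fun h8 => absurd h8 h7⟩
      exact h.entry hB h4 h2 h5 h6
  constructor
  · intro hdK
    by_contra hlt
    push Not at hlt
    obtain ⟨c, c1, c2, c3, c4, c5, -⟩ := exists_cross hB.lin (a := S.g a) (b := d) hd hlt (X := K)
      (fun hh => s3 (hh.2 hdK))
    have := key c c1 c2 c5
    rw [this] at c3
    omega
  · intro hlt
    by_contra hdK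
    have e1 := ps_of_glued hB.lin g1
    have e2 : (S.cw (S.g a)).1 = a.1 := by rw [cw_fst g1, S.invol]
    obtain ⟨c, c1, c2, c3, c4, c5, -⟩ := exists_cross hB.lin (a := d) (b := S.cw (S.g a))
      (hd.symm.trans (S.cw_eqv _)) (by omega) (X := K)
      (by rw [e2]; exact fun hh => hdK (hh.2 s2))
    have := key c (hd.trans c1) c2 c5
    rw [this] at c4
    omega

/-- top of a fan -/
theorem ps_le_of_top (hl : S.Linear) {t e : Sd I} (ht : S.g (unrot t) = unrot t) (h : S.Eqv t e) :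
    S.ps e ≤ S.ps t := by
  by_contra hlt
  push Not at hlt
  exact unrot_glued_of_lt hl h hlt ht

/-- OUT lemma (stub types 6.7), upper blade `w'`.  `K` is a region (one-copy set or complement of
one, see `IsIn.reg2`, `IsIn.reg2_compl`) with the boundary edge `g (lo w')` which ends at its visit;
`d` is a corner outside `K` in the fan which leaves `K` clockwise across this stub.  Real: `d` is the corner `rot w'`; a-like: `d` is the corner at `x` of
`s` or of `t`; b-like: the part of the fan in `K` is the two corners at `x` of `s` and `t`. -/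
theorem Base.out_upper (hB : Base S pt) {K : Finset I} {a w' d : Sd I}
    (hw : S.BladeAt pt w') (h : S.Reg2 K a (S.g (S.lo pt w')))
    (he : S.Eqv (S.g (S.lo pt w')) d) (hd : d.1 ∉ K) :
    (S.Blade w' ∧ d = rot w') ∨ (S.VirtA pt w' ∧ (d = rot w' ∨ d = rot (S.g (rot w')))) ∨
      (S.VirtB pt w' ∧ ∀ e, S.Eqv d e → e.1 ∈ K → e = unrot w' ∨ e = S.g (rot w')) := by
  have hl := hB.lin
  have hlt : S.ps d < S.ps (S.g (S.lo pt w')) := by
    by_contra hcon
    exact hd ((h.mem_exit hB he).2 (not_lt.1 hcon))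
  by_cases hB' : S.VirtB pt w'
  · right; right
    refine ⟨hB', fun e hde heK => ?_⟩
    have eσ : S.g (S.lo pt w') = unrot w' := by rw [lo_of_B hB', g_ccw hw.glued']
    rw [eσ] at he h
    have h1 := (h.mem_exit hB (he.trans hde)).1 heK
    have g1 : S.g (unrot (unrot w')) ≠ unrot (unrot w') := by
      rw [unrot_unrot]; exact hB'.glued_rot
    have h2 : S.ccw (unrot w') = S.g (rot w') := by rw [ccw_of_glued g1, unrot_unrot]
    have h3 := ps_ccw hl g1
    have h4 : S.Eqv (unrot w') (S.g (rot w')) := by rw [← h2]; exact ccw_eqv g1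
    have h5 : S.g (unrot (S.g (rot w'))) = unrot (S.g (rot w')) := by
      have := hB'.blade.2.2.1
      rwa [rot_rot] at this
    have h6 := ps_le_of_top hl h5 (h4.symm.trans (he.trans hde))
    rw [h2] at h3
    rcases Nat.lt_or_ge (S.ps (unrot w')) (S.ps e) with h7 | h7
    · right; exact ps_inj hl (hde.symm.trans (he.symm.trans h4)) (by omega)
    · left; exact ps_inj hl (hde.symm.trans he.symm) (by omega)
  · have eσ : S.lo pt w' = w' := lo_of_not_B hB'
    rw [eσ] at he h hlt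
    have g1 : S.g (S.g w') ≠ S.g w' := g_ne_iff.2 hw.glued
    have h1 : S.cw (S.g w') = rot w' := by rw [cw_of_glued g1, S.invol]
    have h2 := ps_of_glued hl g1
    rw [h1] at h2
    have h3 : S.Eqv (S.g w') (rot w') := by rw [← h1]; exact S.cw_eqv _
    rcases hw with hw | hw | hw
    · left
      refine ⟨hw, ps_inj hl (he.symm.trans h3) ?_⟩
      rw [ps_of_unglued hw.2.2.1] at h2 ⊢
      omega
    · right; left
      refine ⟨hw, ?_⟩
      have g2 := hw.glued_rot
      have h4 : S.cw (rot w') = rot (S.g (rot w')) := cw_of_glued g2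
      have h5 := ps_of_glued hl g2
      rw [h4] at h5
      have h6 : S.Eqv (rot w') (rot (S.g (rot w'))) := Eqv.of_glued g2
      have h7 : S.ps (rot (S.g (rot w'))) = 0 := ps_of_unglued hw.blade.2.2.1
      rcases Nat.lt_or_ge 0 (S.ps d) with h8 | h8
      · left; exact ps_inj hl (he.symm.trans h3) (by omega)
      · right; exact ps_inj hl (he.symm.trans (h3.trans h6)) (by omega)
    · exact absurd hw hB'

/-- OUT lemma, lower blade `w` -/
theorem Base.out_lower (hB : Base S pt) {K : Finset I} {σ w d : Sd I}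
    (hw : S.BladeAt pt w) (h : S.Reg2 K (S.hi pt w) σ)
    (he : S.Eqv (S.g (S.hi pt w)) d) (hd : d.1 ∉ K) :
    (S.Blade w ∧ d = unrot w) ∨ (S.VirtB pt w ∧ (d = unrot w ∨ d = S.g (rot w))) ∨
      (S.VirtA pt w ∧ ∀ e, S.Eqv d e → e.1 ∈ K → e = rot w ∨ e = rot (S.g (rot w))) := by
  have hl := hB.lin
  have hge : S.ps (S.g (S.hi pt w)) ≤ S.ps d := by
    by_contra hcon
    exact hd ((h.mem_entry hB he).2 (not_le.1 hcon))
  by_cases hA : S.VirtA pt w
  · right; right
    refine ⟨hA, fun e hde heK => ?_⟩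
    rw [hi_of_A hA] at he h hge
    have h1 := (h.mem_entry hB (he.trans hde)).1 heK
    have g1 : S.g (S.g w) ≠ S.g w := g_ne_iff.2 hw.glued
    have h2 : S.cw (S.g w) = rot w := by rw [cw_of_glued g1, S.invol]
    have h3 := ps_of_glued hl g1
    rw [h2] at h3
    have h4 : S.Eqv (S.g w) (rot w) := by rw [← h2]; exact S.cw_eqv _
    have g2 := hA.glued_rot
    have h5 : S.cw (rot w) = rot (S.g (rot w)) := cw_of_glued g2
    have h6 := ps_of_glued hl g2
    rw [h5] at h6
    have h7 : S.Eqv (rot w) (rot (S.g (rot w))) := Eqv.of_glued g2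
    have h8 : S.ps (rot (S.g (rot w))) = 0 := ps_of_unglued hA.blade.2.2.1
    rcases Nat.lt_or_ge 0 (S.ps e) with h9 | h9
    · left; exact ps_inj hl (hde.symm.trans (he.symm.trans h4)) (by omega)
    · right; exact ps_inj hl (hde.symm.trans (he.symm.trans (h4.trans h7))) (by omega)
  · have e1 : S.g (S.hi pt w) = unrot w := by rw [hi_of_not_A hA, g_ccw hw.glued']
    rw [e1] at he hge
    rcases hw with hw | hw | hw
    · left
      have h1 : S.g (unrot (unrot w)) = unrot (unrot w) := by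
        rw [unrot_unrot]; exact hw.2.2.1
      have h2 := ps_le_of_top hl h1 he
      exact ⟨hw, ps_inj hl he.symm (by omega)⟩
    · exact absurd hw hA
    · right; left
      refine ⟨hw, ?_⟩
      have g1 : S.g (unrot (unrot w)) ≠ unrot (unrot w) := by
        rw [unrot_unrot]; exact hw.glued_rot
      have h2 : S.ccw (unrot w) = S.g (rot w) := by rw [ccw_of_glued g1, unrot_unrot]
      have h3 := ps_ccw hl g1
      have h4 : S.Eqv (unrot w) (S.g (rot w)) := by rw [← h2]; exact ccw_eqv g1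
      have h5 : S.g (unrot (S.g (rot w))) = unrot (S.g (rot w)) := by
        have := hw.blade.2.2.1
        rwa [rot_rot] at this
      have h6 := ps_le_of_top hl h5 (h4.symm.trans he)
      rw [h2] at h3
      rcases Nat.lt_or_ge (S.ps (unrot w)) (S.ps d) with h7 | h7
      · right; exact ps_inj hl (he.symm.trans h4) (by omega)
      · left; exact ps_inj hl he.symm (by omega)

/-- the `x` corner of a b-like side is a visit of `Zr` -/
theorem Base.BLg_iff (hB : Base S pt) {w w' : Sd I} (h : S.Cons pt w w') {z : Sd I} :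
    S.BLg pt (S.pA pt w w') w z ↔ S.BL pt w w' z := by
  constructor
  · rintro ⟨u, hu, he, hm, hx⟩
    rcases hB.blade_in_pA h hu.bladeAt he.symm hm with ⟨rfl, hA⟩ | ⟨rfl, hV⟩
    · exact Or.inl ⟨hA, hx⟩
    · exact Or.inr ⟨hV, hx⟩
  · rintro (⟨hA, hx⟩ | ⟨hV, hx⟩)
    · exact ⟨w, Or.inl hA, Eqv.refl _ _, (hB.mem_pA_left h.toPr).2 hA, hx⟩
    · exact ⟨w', Or.inr hV, h.eqv.symm, (hB.mem_pA_right h.toPr).2 hV, hx⟩

/-- summary of the OUT lemmas for `A_p`: `c` in `A_p`, `d` outside, both at a visit different from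
the visit of the pair -/
theorem Base.out_cases (hB : Base S pt) {w w' c d z : Sd I} (h : S.Cons pt w w')
    (hne : ¬ S.Eqv w c) (hc : S.Eqv c z) (hcK : c.1 ∈ S.pA pt w w') (hd : S.Eqv d z)
    (hdK : d.1 ∉ S.pA pt w w') :
    S.BLg pt (S.pA pt w w') w z ∨
    (S.Blade w' ∧ d = rot w') ∨ (S.VirtA pt w' ∧ (d = rot w' ∨ d = rot (S.g (rot w')))) ∨
    (S.Blade w ∧ d = unrot w) ∨ (S.VirtB pt w ∧ (d = unrot w ∨ d = S.g (rot w))) := by
  have hR := (hB.isIn_pA h.toPr).reg2
  have hne' : ¬ S.Eqv (S.hi pt w) c := fun h1 => hne (h.b.eqv_hi.trans h1)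
  rcases hR.outside hB hne' hcK (hc.trans hd.symm) hdK with ⟨h1, _⟩ | ⟨h1, _⟩
  · have he : S.Eqv (S.g (S.lo pt w')) d := h1.symm.trans (hc.trans hd.symm)
    rcases hB.out_upper h.b' hR he hdK with h2 | h2 | h2
    · exact Or.inr (Or.inl h2)
    · exact Or.inr (Or.inr (Or.inl h2))
    · left
      rw [hB.BLg_iff h]
      right
      refine ⟨h2.1, ?_⟩
      rw [xc_of_not_A h2.1.not_A]
      have eσ : S.g (S.lo pt w') = unrot w' := by rw [lo_of_B h2.1, g_ccw h.b'.glued']
      rw [eσ] at he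
      exact he.trans hd
  · have he : S.Eqv (S.g (S.hi pt w)) d := h1.symm.trans (hc.trans hd.symm)
    rcases hB.out_lower h.b hR he hdK with h2 | h2 | h2
    · exact Or.inr (Or.inr (Or.inr (Or.inl h2)))
    · exact Or.inr (Or.inr (Or.inr (Or.inr h2)))
    · left
      rw [hB.BLg_iff h]
      left
      refine ⟨h2.1, ?_⟩
      rw [xc_of_A h2.1]
      rw [hi_of_A h2.1] at he
      exact (Eqv.of_glued' h.b.glued).trans (he.trans hd)

/-- zA -/
theorem Base.zA (hB : Base S pt) {w w' : Sd I} (h : S.Cons pt w w') {z : Sd I}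
    (hz : z ∈ S.Zr pt (S.pA pt w w') (S.Eqv w)) :
    S.BLg pt (S.pA pt w w') w z ∨ S.NoB pt z := by
  simp only [Zr, mem_filter] at hz
  obtain ⟨-, hne, ⟨c, hc, hcK⟩, hno⟩ := hz
  by_cases hN : S.NoB pt z
  · exact Or.inr hN
  left
  unfold NoB at hN
  push Not at hN
  obtain ⟨u, hu, huz⟩ := hN
  have huK : u.1 ∉ S.pA pt w w' := fun h1 => hno u hu h1 huz
  have hwc : ¬ S.Eqv w c := fun h1 => hne (h1.trans hc)
  rcases hB.out_cases h hwc hc hcK huz huK with h1 | ⟨h1, rfl⟩ | ⟨h1, rfl | rfl⟩ | ⟨h1, rfl⟩ |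
    ⟨h1, rfl | rfl⟩
  · exact h1
  · exact absurd (hB.one _ _ hu h1.bladeAt rfl) (rot_ne w')
  · exact absurd (hB.one _ _ hu (Or.inr (Or.inl h1)) rfl) (rot_ne w')
  · exact absurd (hB.one _ _ hu h1.blade.bladeAt rfl) (rot_ne _)
  · exact absurd (hB.one _ _ hu h1.bladeAt rfl) (unrot_ne w)
  · exact absurd (hB.one _ _ hu (Or.inr (Or.inr h1)) rfl) (unrot_ne w)
  · exact absurd (hB.one _ _ hu h1.blade.bladeAt rfl) (rot_ne _).symm

/-- zB -/
theorem Base.zB (hB : Base S pt) {w w' u u' : Sd I} (h : S.Cons pt w w') (h' : S.Cons pt u u')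
    (hd : Disjoint (S.pA pt w w') (S.pA pt u u')) {z : Sd I} (hz : S.NoB pt z)
    (h1 : S.Meets (S.pA pt w w') z) (h2 : S.Meets (S.pA pt u u') z) :
    S.BLg pt (S.pA pt w w') w z ∨ S.BLg pt (S.pA pt u u') u z := by
  obtain ⟨c, hc, hcK⟩ := h1
  obtain ⟨d, hdz, hdA⟩ := h2
  have hdK : d.1 ∉ S.pA pt w w' := fun h3 => disjoint_left.1 hd h3 hdA
  have hwc : ¬ S.Eqv w c := fun h3 => hz w h.b (h3.trans hc)
  have hI := hB.isIn_pA h.toPr
  have hI' := hB.isIn_pA h'.toPr
  have noK : ∀ t, t ∈ S.pA pt w w' → t ∉ S.pA pt u u' := fun t h3 => disjoint_left.1 hd h3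
  -- a boundary side of `A'`
  have bdA : ∀ e : Sd I, S.g e ≠ e → e.1 ∈ S.pA pt u u' → (S.g e).1 ∉ S.pA pt u u' →
      S.Eqv e u ∨ S.Eqv (rot e) u := by
    intro e h3 h4 h5
    have h6 : e ∈ S.bd (S.pA pt u u') := by rw [mem_bd]; exact ⟨h3, h4, h5⟩
    rw [hI'.bd, mem_insert, mem_singleton] at h6
    rcases h6 with h6 | h6
    · left; rw [h6]; exact h'.b.eqv_hi.symm
    · right; rw [h6]
      exact (Eqv.of_glued h'.b'.glued_lo).symm.trans (h'.b'.eqv_lo.symm.trans h'.eqv.symm)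
  have noz : ∀ e, S.Eqv e z → ¬ S.Eqv e u := fun e h3 h4 => hz u h'.b (h4.symm.trans h3)
  -- real blades at the visit of `u` are not in `A'`
  have noreal : ∀ e, S.Blade e → S.Eqv e u → e.1 ∈ S.pA pt u u' → False := by
    intro e h3 h4 h5
    rcases hB.blade_in_pA h' h3.bladeAt h4.symm h5 with ⟨h6, h7⟩ | ⟨h6, h7⟩
    · rw [h6] at h3; exact h3.not_A h7
    · rw [h6] at h3; exact h3.not_B h7
  -- the partner of the stub is in `A`
  have s1 : (S.g (S.lo pt w')).1 ∈ S.pA pt w w' := (mem_bd.1 hI.mem_right).2.1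
  have s2 : (S.hi pt w).1 ∈ S.pA pt w w' := (mem_bd.1 hI.mem_left).2.1
  rcases hB.out_cases h hwc hc hcK hdz hdK with h3 | ⟨h3, rfl⟩ | ⟨h3, h4⟩ | ⟨h3, rfl⟩ | ⟨h3, h4⟩
  · exact Or.inl h3
  · -- real, upper
    exfalso
    rw [lo_of_not_B h3.not_B] at s1
    rcases bdA w' h3.1 hdA (noK _ s1) with h5 | h5
    · exact noreal w' h3 h5 hdA
    · exact noz _ hdz h5
  · -- VirtA, upper
    right
    rw [lo_of_not_B h3.not_B] at s1
    have e1 : S.Eqv (rot w') (rot (S.g (rot w'))) := Eqv.of_glued h3.glued_rot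
    have hxz : S.Eqv (rot w') z := by
      rcases h4 with h4 | h4
      · rw [← h4]; exact hdz
      · rw [h4] at hdz; exact e1.trans hdz
    by_cases hw' : w'.1 ∈ S.pA pt u u'
    · rcases bdA w' h.b'.glued hw' (noK _ s1) with h5 | h5
      · refine ⟨w', Or.inl h3, h5, hw', ?_⟩
        rw [xc_of_A h3]; exact hxz
      · exact absurd h5 (noz _ hxz)
    · exfalso
      have h6 : d = rot (S.g (rot w')) := by
        rcases h4 with h4 | h4
        · rw [h4] at hdA; exact absurd hdA hw'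
        · exact h4
      have h7 : (S.g (rot w')).1 ∈ S.pA pt u u' := by rw [h6] at hdA; exact hdA
      have h8 : S.g (S.g (rot w')) ≠ S.g (rot w') := g_ne_iff.2 h3.glued_rot
      rcases bdA (S.g (rot w')) h8 h7 (by rw [S.invol]; exact hw') with h5 | h5
      · exact noreal _ h3.blade h5 h7
      · rw [h6] at hdz; exact noz _ hdz h5
  · -- real, lower
    exfalso
    rw [hi_of_not_A h3.not_A, ccw_of_glued h3.2.1] at s2
    rcases bdA (unrot w) h3.2.1 hdA (noK _ s2) with h5 | h5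
    · exact noz _ hdz h5
    · rw [rot_unrot] at h5
      exact noreal w h3 h5 hdA
  · -- VirtB, lower
    right
    have gl := h.b.glued'
    rw [hi_of_not_A h3.not_A, ccw_of_glued gl] at s2
    have e1 : S.Eqv (unrot w) (S.g (rot w)) := by
      have := Eqv.of_glued' h3.glued_rot
      rwa [rot_rot] at this
    have hxz : S.Eqv (unrot w) z := by
      rcases h4 with h4 | h4
      · rw [← h4]; exact hdz
      · rw [h4] at hdz; exact e1.trans hdz
    by_cases hw' : w.1 ∈ S.pA pt u u'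
    · rcases bdA (unrot w) gl hw' (noK _ s2) with h5 | h5
      · exact absurd h5 (noz _ hxz)
      · rw [rot_unrot] at h5
        refine ⟨w, Or.inr h3, h5, hw', ?_⟩
        rw [xc_of_not_A h3.not_A]; exact hxz
    · exfalso
      have h6 : d = S.g (rot w) := by
        rcases h4 with h4 | h4
        · rw [h4] at hdA; exact absurd hdA hw'
        · exact h4
      have h7 : (S.g (rot w)).1 ∈ S.pA pt u u' := by rw [h6] at hdA; exact hdA
      have h8 : S.g (S.g (rot w)) ≠ S.g (rot w) := g_ne_iff.2 h3.glued_rot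
      rcases bdA (S.g (rot w)) h8 h7 (by rw [S.invol]; exact hw') with h5 | h5
      · rw [h6] at hdz; exact noz _ hdz h5
      · exact noreal _ h3.blade h5 h7

/-- ear ends of eared triangles outside `A_p` -/
theorem Base.zE (hB : Base S pt) {w w' : Sd I} (h : S.Cons pt w w') {c : Sd I} (hc : S.Eared c)
    (hcA : c.1 ∉ S.pA pt w w') {z : Sd I} (hz : S.EndOf c z) (hm : S.Meets (S.pA pt w w') z) :
    S.BLg pt (S.pA pt w w') w z := by
  obtain ⟨m, hmz, hmK⟩ := hm
  have hend : S.EarEnd z := by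
    refine ⟨rot c, hc.2.2, ?_⟩
    rcases hz with hz | hz
    · exact Or.inl hz
    · right; rw [rot_rot]; exact hz
  have hwm : ¬ S.Eqv w m := fun h1 => hB.earEnd z w hend h.b (h1.trans hmz).symm
  have hex : ∃ d, S.Eqv d z ∧ d.1 = c.1 := by
    rcases hz with hz | hz
    · exact ⟨rot c, hz, rfl⟩
    · exact ⟨unrot c, hz, rfl⟩
  obtain ⟨d, hd, hd1⟩ := hex
  have hdK : d.1 ∉ S.pA pt w w' := by rw [hd1]; exact hcA
  rcases hB.out_cases h hwm hmz hmK hd hdK with h1 | ⟨h1, rfl⟩ | ⟨h1, rfl | rfl⟩ | ⟨h1, rfl⟩ |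
    ⟨h1, rfl | rfl⟩
  · exact h1
  · exact absurd hd1 (h1.not_eared hc)
  · exact absurd (h1.face) (by rw [show w'.1 = c.1 from hd1]; exact hc.not_face)
  · exact absurd hd1 (h1.blade.not_eared hc)
  · exact absurd hd1 (h1.not_eared hc)
  · exact absurd (h1.face) (by rw [show w.1 = c.1 from hd1]; exact hc.not_face)
  · exact absurd hd1 (h1.blade.not_eared hc)

end Obj

end AG
end

/- AG.Reg.Env -/
section
/-!
# Project AG, block 6: the environment `(R, V)`, its family of consecutive pairs, children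
-/

set_option linter.unusedSectionVars false
set_option linter.unusedSimpArgs false
set_option linter.unusedVariables false

namespace AG

open Finset

variable {I : Type} [DecidableEq I]

namespace Obj

variable {S : Obj I} {pt : Sd I → Pt}

/-- the region `R` with its visit `V` (closed case: `R = F`, `V` never) -/
structure Env (S : Obj I) (pt : Sd I → Pt) (R : Finset I) (V : Sd I → Prop) : Prop where
  base : Base S pt
  shape : S.Shape R V 0
  Vbl : ∀ z, V z → ∃ w, S.BladeAt pt w ∧ S.Eqv w z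
  subA : ∀ p ∈ S.CP pt R V, S.pA pt p.1 p.2 ⊆ R
  noV : ∀ p ∈ S.CP pt R V, ∀ u, S.BladeAt pt u → V u → u.1 ∉ S.pA pt p.1 p.2
  ne : ∀ p ∈ S.CP pt R V, ∀ q ∈ S.CP pt R V, S.pA pt p.1 p.2 ∪ S.pA pt q.1 q.2 ≠ S.F

theorem mem_CP {K : Finset I} {V : Sd I → Prop} {p : Sd I × Sd I} :
    p ∈ S.CP pt K V ↔ S.Cons pt p.1 p.2 ∧ p.1.1 ∈ K ∧ p.2.1 ∈ K ∧ ¬ V p.1 := by
  classical
  unfold CP
  rw [mem_filter, mem_product, mem_sides, mem_sides]
  constructor
  · exact fun h => h.2
  · exact fun h => ⟨⟨h.1.toPr.b.memF, h.1.toPr.b'.memF⟩, h⟩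

theorem mem_CandK {K : Finset I} {V : Sd I → Prop} {w : Sd I} :
    w ∈ S.CandK pt K V ↔ S.Vir pt w ∧ w.1 ∈ K ∧ ¬ V w := by
  classical
  unfold CandK
  rw [mem_filter, mem_sides]
  exact ⟨fun h => h.2, fun h => ⟨h.1.bladeAt.memF, h⟩⟩

theorem mem_EarsK {K : Finset I} {c : Sd I} : c ∈ S.EarsK K ↔ S.Eared c ∧ c.1 ∈ K := by
  classical
  unfold EarsK
  rw [mem_filter, mem_sides]
  exact ⟨fun h => h.2, fun h => ⟨h.1.memF, h⟩⟩

theorem mem_EarK {K : Finset I} {c : Sd I} :
    c ∈ S.EarK pt K ↔ S.Eared c ∧ c.1 ∈ K ∧ ¬ S.Enc pt c := by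
  classical
  unfold EarK
  rw [mem_filter, mem_sides]
  exact ⟨fun h => h.2, fun h => ⟨h.1.memF, h⟩⟩

theorem mem_Zr {K : Finset I} {V : Sd I → Prop} {z : Sd I} :
    z ∈ S.Zr pt K V ↔ (z.1 ∈ S.F ∧ S.g z = z) ∧ ¬ V z ∧ S.Meets K z ∧
      ∀ w, S.BladeAt pt w → w.1 ∈ K → ¬ S.Eqv w z := by
  classical
  unfold Zr
  rw [mem_filter, mem_vis]

theorem mem_PIn {K : Finset I} {V : Sd I → Prop} {p : Sd I × Sd I} :
    p ∈ S.PIn pt K V ↔ p ∈ S.CP pt K V ∧ ¬ S.Triv pt p.1 p.2 := by
  classical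
  unfold PIn
  rw [mem_filter]

/-! ### consecutive pairs at one visit -/

/-- the upper blade of a consecutive pair is determined by the lower one and conversely -/
theorem Base.cons_unique (hB : Base S pt) {w w' u u' : Sd I} (h : S.Cons pt w w')
    (h' : S.Cons pt u u') (e : w = u) : w' = u' := by
  subst e
  have hp := h.toPr
  have hp' := h'.toPr
  apply ps_inj hB.lin (hp.eqv.symm.trans hp'.eqv)
  rcases Nat.lt_trichotomy (S.ps w') (S.ps u') with h1 | h1 | h1
  · exact absurd h1 (fun h2 => h'.no w' hp.b' hp.eqv hp.lt h2)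
  · exact h1
  · exact absurd h1 (fun h2 => h.no u' hp'.b' hp'.eqv hp'.lt h2)

/-- the sets `A` of two different consecutive pairs at one visit are disjoint -/
theorem Base.disj_same (hB : Base S pt) {w w' u u' : Sd I} (h : S.Cons pt w w')
    (h' : S.Cons pt u u') (e : S.Eqv w u) (hne : w ≠ u) :
    Disjoint (S.pA pt w w') (S.pA pt u u') := by
  have key : ∀ {w w' u u' : Sd I}, S.Cons pt w w' → S.Cons pt u u' → S.Eqv w u →
      S.ps w < S.ps u → Disjoint (S.pA pt w w') (S.pA pt u u') := by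
    intro w w' u u' h h' e hlt
    have hp := h.toPr
    have hp' := h'.toPr
    have h1 : S.ps w' ≤ S.ps u := by
      by_contra h2
      exact h.no u hp'.b e hlt (by omega)
    have e1 : S.Eqv w' u := hp.eqv.symm.trans e
    have h3 : S.ps (S.lo pt w') ≤ S.ps (S.hi pt u) := by
      rcases Nat.lt_or_ge (S.ps w') (S.ps u) with h4 | h4
      · have h5 := hB.int ⟨hp.b', hp'.b, e1, h4⟩
        have h6 := hp.b'.ps_lo_le_hi hB.lin
        have h7 := hp'.b.ps_lo_le_hi hB.lin
        omega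
      · have h5 : w' = u := ps_inj hB.lin e1 (by omega)
        rw [h5]
        exact hp'.b.ps_lo_le_hi hB.lin
    exact (hB.isIn_pA hp).disjoint hB.conn hB.lin hB.loopless (hB.isIn_pA hp')
      ((hp.b.eqv_hi.symm.trans e).trans hp'.b.eqv_hi) h3
  rcases Nat.lt_trichotomy (S.ps w) (S.ps u) with h1 | h1 | h1
  · exact key h h' e h1
  · exact absurd (ps_inj hB.lin e h1) hne
  · exact (key h' h e.symm h1).symm

theorem Base.pA_nonempty (hB : Base S pt) {w w' : Sd I} (h : S.Pr pt w w') :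
    (S.pA pt w w').Nonempty := (hB.isIn_pA h).nonempty

/-- consecutive pairs with the same set are equal -/
theorem Base.pA_inj (hB : Base S pt) {w w' u u' : Sd I} (h : S.Cons pt w w')
    (h' : S.Cons pt u u') (e : S.pA pt w w' = S.pA pt u u') : w = u ∧ w' = u' := by
  have h1 := (hB.isIn_pA h.toPr).reg2
  have h2 := (hB.isIn_pA h'.toPr).reg2
  rw [← e] at h2
  have h3 := (h1.unique hB h2).1
  have h4 : S.Eqv w u := by
    have := h'.toPr.b.eqv_hi
    rw [← h3] at this
    exact h.toPr.b.eqv_hi.trans this.symm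
  have h5 : w = u := by
    by_contra hne
    have h6 := hB.disj_same h h' h4 hne
    rw [← e, disjoint_self] at h6
    have := hB.pA_nonempty h.toPr
    rw [h6] at this
    exact not_nonempty_empty this
  exact ⟨h5, hB.cons_unique h h' h5⟩

namespace Env

variable {R : Finset I} {V : Sd I → Prop} {p q : Sd I × Sd I}

/-- laminarity -/
theorem lam (hE : Env S pt R V) (hp : p ∈ S.CP pt R V) (hq : q ∈ S.CP pt R V) (hne : p ≠ q) :
    Disjoint (S.pA pt p.1 p.2) (S.pA pt q.1 q.2) ∨ S.pA pt p.1 p.2 ⊂ S.pA pt q.1 q.2 ∨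
      S.pA pt q.1 q.2 ⊂ S.pA pt p.1 p.2 := by
  have hB := hE.base
  have cp := (mem_CP.1 hp).1
  have cq := (mem_CP.1 hq).1
  have hneA : S.pA pt p.1 p.2 ≠ S.pA pt q.1 q.2 := fun e => by
    obtain ⟨h1, h2⟩ := hB.pA_inj cp cq e
    exact hne (Prod.ext h1 h2)
  by_cases hv : S.Eqv p.1 q.1
  · left
    refine hB.disj_same cp cq hv (fun e => hne (Prod.ext e (hB.cons_unique cp cq e)))
  · have h1 : ¬ S.Eqv (S.hi pt p.1) (S.hi pt q.1) := fun h2 =>
      hv ((cp.toPr.b.eqv_hi.trans h2).trans cq.toPr.b.eqv_hi.symm)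
    rcases hB.laminar (hB.isIn_pA cp.toPr) (hB.isIn_pA cq.toPr) h1 (hE.ne p hp q hq) with
      h2 | h2 | h2
    · exact Or.inl h2
    · exact Or.inr (Or.inl (Finset.ssubset_iff_subset_ne.2 ⟨h2, hneA⟩))
    · exact Or.inr (Or.inr (Finset.ssubset_iff_subset_ne.2 ⟨h2, fun e => hneA e.symm⟩))

/-- no blade pair: a corner above both blades is excluded ... the highest corner of a fan -/
theorem _root_.AG.Obj.ps_le_top_fan (hl : S.Linear) {a b : Sd I} (h : S.Eqv a b)
    (hb : S.g (unrot b) = unrot b) : S.ps a ≤ S.ps b := by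
  by_contra h1
  exact unrot_glued_of_lt hl h.symm (by omega) hb

/-- (iii), first direction: a member properly inside `A_p` has its blade triangles in `A_p` -/
theorem mem_of_ssubset (hE : Env S pt R V) (hp : p ∈ S.CP pt R V) (hq : q ∈ S.CP pt R V)
    (hs : S.pA pt q.1 q.2 ⊂ S.pA pt p.1 p.2) :
    q ∈ S.CP pt (S.pA pt p.1 p.2) (S.Eqv p.1) := by
  have hB := hE.base
  have hl := hB.lin
  have cp := (mem_CP.1 hp).1
  have cq := (mem_CP.1 hq).1
  have ip := hB.isIn_pA cp.toPr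
  have iq := hB.isIn_pA cq.toPr
  have hv : ¬ S.Eqv p.1 q.1 := by
    intro hv
    by_cases e : p.1 = q.1
    · have : p = q := Prod.ext e (hB.cons_unique cp cq e)
      rw [this] at hs
      exact (Finset.ssubset_iff_subset_ne.1 hs).2 rfl
    · have h1 := hB.disj_same cp cq hv e
      obtain ⟨t, ht⟩ := hB.pA_nonempty cq.toPr
      exact (disjoint_left.1 h1) (hs.1 ht) ht
  have hv1 : ¬ S.Eqv (S.hi pt p.1) q.1 := fun h => hv (cp.toPr.b.eqv_hi.trans h)
  have hv2 : ¬ S.Eqv (S.hi pt p.1) q.2 := fun h => hv1 (h.trans cq.toPr.eqv.symm)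
  rw [mem_CP]
  refine ⟨cq, ?_, ?_, hv⟩
  · -- the lower blade
    by_cases hA : S.VirtA pt q.1
    · exact hs.1 ((hB.mem_pA_left cq.toPr).2 hA)
    · by_contra hcon
      have e1 : S.hi pt q.1 = S.ccw q.1 := hi_of_not_A hA
      have h1 : (S.ccw q.1).1 ∈ S.pA pt p.1 p.2 := by
        rw [← e1]; exact hs.1 (mem_bd.1 iq.mem_left).2.1
      have h2 : S.g (S.ccw q.1) = unrot q.1 := g_ccw cq.toPr.b.glued'
      have h3 : S.ccw q.1 = S.g (S.lo pt p.2) := by
        refine ip.reg2.exit hB ?_ (ccw_glued cq.toPr.b.glued') h1 ?_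
        · exact fun h => hv1 (h.trans (ccw_eqv cq.toPr.b.glued').symm)
        · rw [h2]; exact hcon
      have h4 : S.lo pt p.2 = unrot q.1 := by
        rw [← h2, h3, S.invol]
      by_cases hBp : S.VirtB pt p.2
      · rw [lo_of_B hBp, ccw_of_glued cp.toPr.b'.glued'] at h4
        have h5 : unrot p.2 = S.ccw q.1 := by
          rw [← S.invol (unrot p.2), h4, ccw_of_glued cq.toPr.b.glued']
        -- the top corner
        have h6 : S.g (unrot (S.g (rot p.2))) = unrot (S.g (rot p.2)) := by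
          have := hBp.blade.2.2.1
          rwa [rot_rot] at this
        have h7 : S.ccw (S.ccw q.1) = S.g (rot p.2) := by
          rw [← h5, ccw_of_glued, unrot_unrot]
          rw [unrot_unrot]; exact hBp.glued_rot
        have h8 : S.g (unrot (S.ccw q.1)) ≠ unrot (S.ccw q.1) := by
          rw [← h5, unrot_unrot]; exact hBp.glued_rot
        have h9 := ps_ccw hl h8
        have h10 := ps_ccw hl cq.toPr.b.glued'
        have h11 : S.Eqv q.1 (S.ccw (S.ccw q.1)) := (ccw_eqv cq.toPr.b.glued').trans (ccw_eqv h8)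
        have h12 := ps_le_top_fan hl (cq.toPr.eqv.symm.trans h11) (by rw [h7]; exact h6)
        have h13 := cq.toPr.lt
        have h14 : S.ps q.2 = S.ps (S.ccw q.1) ∨ S.ps q.2 = S.ps (S.ccw (S.ccw q.1)) := by omega
        rcases h14 with h14 | h14
        · have h15 : q.2 = unrot p.2 := by
            rw [h5]; exact ps_inj hl (cq.toPr.eqv.symm.trans (ccw_eqv cq.toPr.b.glued')) h14
          have h16 : q.2 = p.2 := hB.one _ _ cq.toPr.b' cp.toPr.b' (by rw [h15]; rfl)
          rw [h16] at h15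
          exact unrot_ne _ h15.symm
        · have h15 : q.2 = S.g (rot p.2) := by
            rw [← h7]; exact ps_inj hl (cq.toPr.eqv.symm.trans h11) h14
          exact cq.toPr.b'.glued' (by rw [h15]; exact h6)
      · rw [lo_of_not_B hBp] at h4
        have h5 : p.2 = q.1 := hB.one _ _ cp.toPr.b' cq.toPr.b (by rw [h4]; rfl)
        rw [h5] at h4
        exact unrot_ne _ h4.symm
  · -- the upper blade
    by_cases hBq : S.VirtB pt q.2
    · exact hs.1 ((hB.mem_pA_right cq.toPr).2 hBq)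
    · by_contra hcon
      have e1 : S.lo pt q.2 = q.2 := lo_of_not_B hBq
      have h1 : (S.g q.2).1 ∈ S.pA pt p.1 p.2 := by
        have := (mem_bd.1 iq.mem_right).2.1
        rw [e1] at this
        exact hs.1 this
      have h3 : q.2 = S.g (S.hi pt p.1) := ip.reg2.entry hB hv2 cq.toPr.b'.glued hcon h1
      by_cases hA : S.VirtA pt p.1
      · rw [hi_of_A hA] at h3
        have g1 := cq.toPr.b'.glued
        have h5 : S.cw q.2 = rot p.1 := by rw [cw_of_glued g1, h3, S.invol]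
        have h6 : S.g (rot p.1) ≠ rot p.1 := hA.glued_rot
        have h7 : S.g (rot (S.g (rot p.1))) = rot (S.g (rot p.1)) := hA.blade.2.2.1
        have h8 := ps_of_glued hl g1
        rw [h5] at h8
        have h9 := ps_of_glued hl h6
        rw [cw_of_glued h6, ps_of_unglued h7] at h9
        have h10 := cq.toPr.lt
        have h11 : 0 < S.ps q.1 := (ps_pos_iff hl).2 cq.toPr.b.glued
        have h12 : q.1 = rot p.1 := by
          refine ps_inj hl (cq.toPr.eqv.trans ?_) (by omega)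
          rw [← h5]; exact S.cw_eqv _
        have h13 : q.1 = p.1 := hB.one _ _ cq.toPr.b cp.toPr.b (by rw [h12]; rfl)
        rw [h13] at h12
        exact rot_ne _ h12.symm
      · rw [hi_of_not_A hA, g_ccw cp.toPr.b.glued'] at h3
        have h5 : q.2 = p.1 := hB.one _ _ cq.toPr.b' cp.toPr.b (by rw [h3]; rfl)
        rw [h5] at h3
        exact unrot_ne _ h3.symm

/-- (iii), second direction -/
theorem ssubset_of_mem (hE : Env S pt R V) (hp : p ∈ S.CP pt R V)
    (hq : q ∈ S.CP pt (S.pA pt p.1 p.2) (S.Eqv p.1)) :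
    q ∈ S.CP pt R V ∧ S.pA pt q.1 q.2 ⊂ S.pA pt p.1 p.2 := by
  have hB := hE.base
  have hl := hB.lin
  have cp := (mem_CP.1 hp).1
  obtain ⟨cq, m1, m2, hv⟩ := mem_CP.1 hq
  have hsub := hE.subA p hp
  have hq' : q ∈ S.CP pt R V :=
    mem_CP.2 ⟨cq, hsub m1, hsub m2, fun h => hE.noV p hp q.1 cq.toPr.b h m1⟩
  refine ⟨hq', ?_⟩
  have ip := hB.isIn_pA cp.toPr
  have iq := hB.isIn_pA cq.toPr
  have hv1 : ¬ S.Eqv (S.hi pt p.1) q.1 := fun h => hv (cp.toPr.b.eqv_hi.trans h)
  have hv2 : ¬ S.Eqv (S.hi pt p.1) q.2 := fun h => hv1 (h.trans cq.toPr.eqv.symm)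
  have hne : p ≠ q := by
    rintro rfl
    exact hv (Eqv.refl _ _)
  rcases hE.lam hp hq' hne with h1 | h1 | h1
  · exfalso
    have hA : ¬ S.VirtA pt q.1 := fun hA =>
      (disjoint_left.1 h1) m1 ((hB.mem_pA_left cq.toPr).2 hA)
    have hBq : ¬ S.VirtB pt q.2 := fun hBq =>
      (disjoint_left.1 h1) m2 ((hB.mem_pA_right cq.toPr).2 hBq)
    have e1 : S.hi pt q.1 = S.ccw q.1 := hi_of_not_A hA
    have e2 : S.lo pt q.2 = q.2 := lo_of_not_B hBq
    have h2 : S.ccw q.1 = S.g (S.hi pt p.1) := by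
      refine ip.reg2.entry hB ?_ (ccw_glued cq.toPr.b.glued') ?_ ?_
      · exact fun h => hv1 (h.trans (ccw_eqv cq.toPr.b.glued').symm)
      · intro h3
        refine (disjoint_left.1 h1) h3 ?_
        rw [← e1]; exact (mem_bd.1 iq.mem_left).2.1
      · rw [g_ccw cq.toPr.b.glued']; exact m1
    have h3 : q.2 = S.g (S.lo pt p.2) := by
      refine ip.reg2.exit hB hv2 cq.toPr.b'.glued m2 ?_
      intro h4
      refine (disjoint_left.1 h1) h4 ?_
      have := (mem_bd.1 iq.mem_right).2.1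
      rwa [e2] at this
    apply ip.reg2.not_both hB
    rw [← h2, ← h3]
    exact cq.toPr.eqv.symm.trans (ccw_eqv cq.toPr.b.glued')
  · exfalso
    have h2 : ¬ S.Eqv (S.hi pt q.1) (S.hi pt p.1) := fun h =>
      hv1 (h.symm.trans cq.toPr.b.eqv_hi.symm)
    exact hB.fan iq ip h2 h1.1 cq.toPr.b.eqv_hi.symm (h1.1 m1) m1
  · exact h1

theorem mem_CP_pA (hE : Env S pt R V) (hp : p ∈ S.CP pt R V) :
    q ∈ S.CP pt (S.pA pt p.1 p.2) (S.Eqv p.1) ↔
      q ∈ S.CP pt R V ∧ S.pA pt q.1 q.2 ⊂ S.pA pt p.1 p.2 :=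
  ⟨hE.ssubset_of_mem hp, fun h => hE.mem_of_ssubset hp h.1 h.2⟩

end Env

/-! ### laminar families -/

open Classical in
/-- maximal members -/
noncomputable def maxs {α : Type} (C : Finset α) (A : α → Finset I) : Finset α :=
  C.filter (fun d => ∀ q ∈ C, ¬ A d ⊂ A q)

theorem mem_maxs {α : Type} {C : Finset α} {A : α → Finset I} {d : α} :
    d ∈ maxs C A ↔ d ∈ C ∧ ∀ q ∈ C, ¬ A d ⊂ A q := by
  classical
  unfold maxs
  rw [mem_filter]

theorem exists_maxs {α : Type} {C : Finset α} {A : α → Finset I} {p : α} (hp : p ∈ C) :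
    ∃ d ∈ maxs C A, d = p ∨ A p ⊂ A d := by
  classical
  obtain ⟨d, hd, hmax⟩ := (C.filter (fun d => d = p ∨ A p ⊂ A d)).exists_max_image
    (fun d => (A d).card) ⟨p, mem_filter.2 ⟨hp, Or.inl rfl⟩⟩
  rw [mem_filter] at hd
  refine ⟨d, mem_maxs.2 ⟨hd.1, fun q hq hs => ?_⟩, hd.2⟩
  have h1 := hmax q (mem_filter.2 ⟨hq, Or.inr ?_⟩)
  · have := card_lt_card hs
    omega
  · rcases hd.2 with h2 | h2
    · rw [← h2]; exact hs
    · exact h2.trans hs

theorem maxs_disjoint {α : Type} {C : Finset α} {A : α → Finset I}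
    (hl : ∀ p ∈ C, ∀ q ∈ C, p ≠ q → Disjoint (A p) (A q) ∨ A p ⊂ A q ∨ A q ⊂ A p)
    {d e : α} (hd : d ∈ maxs C A) (he : e ∈ maxs C A) (hne : d ≠ e) : Disjoint (A d) (A e) := by
  rw [mem_maxs] at hd he
  rcases hl d hd.1 e he.1 hne with h | h | h
  · exact h
  · exact absurd h (hd.2 e he.1)
  · exact absurd h (he.2 d hd.1)

theorem lam_card {α : Type} (C : Finset α) (A : α → Finset I)
    (hne : ∀ p ∈ C, (A p).Nonempty)
    (hl : ∀ p ∈ C, ∀ q ∈ C, p ≠ q → Disjoint (A p) (A q) ∨ A p ⊂ A q ∨ A q ⊂ A p) :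
    C.card = ∑ d ∈ maxs C A, ((C.filter (fun q => A q ⊂ A d)).card + 1) := by
  classical
  have h1 : C = (maxs C A).biUnion (fun d => insert d (C.filter (fun q => A q ⊂ A d))) := by
    ext p
    simp only [mem_biUnion, mem_insert, mem_filter]
    constructor
    · intro hp
      obtain ⟨d, hd, h2⟩ := exists_maxs (A := A) hp
      exact ⟨d, hd, h2.elim (fun h => Or.inl h.symm) (fun h => Or.inr ⟨hp, h⟩)⟩
    · rintro ⟨d, hd, h2 | h2⟩
      · rw [h2]; exact (mem_maxs.1 hd).1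
      · exact h2.1
  conv_lhs => rw [h1]
  rw [card_biUnion]
  · refine sum_congr rfl fun d hd => ?_
    rw [card_insert_of_notMem]
    rw [mem_filter]
    exact fun h => (Finset.ssubset_iff_subset_ne.1 h.2).2 rfl
  · intro d hd e he hde
    have hdis := maxs_disjoint hl hd he hde
    have key : ∀ q, q ∈ C → (q = d ∨ A q ⊂ A d) → (q = e ∨ A q ⊂ A e) → False := by
      intro q hq h2 h3
      obtain ⟨t, ht⟩ := hne q hq
      refine (disjoint_left.1 hdis) (a := t) ?_ ?_
      · rcases h2 with h2 | h2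
        · rw [← h2]; exact ht
        · exact h2.1 ht
      · rcases h3 with h3 | h3
        · rw [← h3]; exact ht
        · exact h3.1 ht
    rw [Function.onFun, disjoint_left]
    intro q hq hq'
    simp only [mem_insert, mem_filter] at hq hq'
    have hqC : q ∈ C := by
      rcases hq with h | h
      · rw [h]; exact (mem_maxs.1 hd).1
      · exact h.1
    exact key q hqC (hq.imp id (fun h => h.2)) (hq'.imp id (fun h => h.2))

end Obj

end AG
end

/- AG.Reg.Kids -/
section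
/-!
# Project AG, block 6: children, the torso inequality for `R` and for the `A_p`
-/

set_option linter.unusedSectionVars false
set_option linter.unusedSimpArgs false
set_option linter.unusedVariables false

namespace AG

open Finset

variable {I : Type} [DecidableEq I]

namespace Obj

variable {S : Obj I} {pt : Sd I → Pt}

theorem eqv_congr {a b : Sd I} (h : S.Eqv a b) : S.Eqv a = S.Eqv b := by
  funext c
  exact propext ⟨fun h1 => h.symm.trans h1, fun h1 => h.trans h1⟩

/-- `A_p` is a region at the visit of `p` -/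
theorem Base.shape_pA (hB : Base S pt) {w w' : Sd I} (h : S.Cons pt w w') :
    S.Shape (S.pA pt w w') (S.Eqv w) 1 := by
  rw [eqv_congr h.toPr.b.eqv_hi]
  refine hB.shape_in (hB.isIn_pA h.toPr) (fun u hu he hm => ?_)
  rcases hB.blade_in_pA h (Or.inl hu) (h.toPr.b.eqv_hi.trans he) hm with h1 | h1
  · rw [← h1.1] at h1; exact hu.not_A h1.2
  · rw [← h1.1] at h1; exact hu.not_B h1.2

/-- children: the maximal sets `A_q` of the region -/
noncomputable def kids (S : Obj I) (pt : Sd I → Pt) (K : Finset I) (V : Sd I → Prop) :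
    Finset (Sd I × Sd I) := maxs (S.CP pt K V) (fun q => S.pA pt q.1 q.2)

/-- admissible regions `(K, W)` in the environment `(R, V)` -/
structure Adm (S : Obj I) (pt : Sd I → Pt) (R : Finset I) (V : Sd I → Prop) (K : Finset I)
    (W : Sd I → Prop) (ε : ℕ) : Prop where
  shape : S.Shape K W ε
  Wbl : ∀ z, W z → ∃ w, S.BladeAt pt w ∧ S.Eqv w z
  mem : ∀ q ∈ S.CP pt K W, q ∈ S.CP pt R V ∧ S.pA pt q.1 q.2 ⊆ K
  down : ∀ q ∈ S.CP pt K W, ∀ q' ∈ S.CP pt R V, S.pA pt q'.1 q'.2 ⊂ S.pA pt q.1 q.2 →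
    q' ∈ S.CP pt K W
  virW : ∀ q ∈ S.CP pt K W, ∀ w, S.Vir pt w → w.1 ∈ S.pA pt q.1 q.2 → ¬ W w

namespace Env

variable {R : Finset I} {V : Sd I → Prop} {p q : Sd I × Sd I}

theorem adm_R (hE : Env S pt R V) : Adm S pt R V R V 0 where
  shape := hE.shape
  Wbl := hE.Vbl
  mem q hq := ⟨hq, hE.subA q hq⟩
  down q _ q' hq' _ := hq'
  virW q hq w hw hm hV := hE.noV q hq w hw.bladeAt hV hm

theorem adm_pA (hE : Env S pt R V) (hp : p ∈ S.CP pt R V) :
    Adm S pt R V (S.pA pt p.1 p.2) (S.Eqv p.1) 1 := by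
  have hB := hE.base
  have cp := (mem_CP.1 hp).1
  refine ⟨hB.shape_pA cp, fun z hz => ⟨p.1, cp.toPr.b, hz⟩, fun q hq => ?_, fun q hq q' hq' hs => ?_,
    fun q hq w hw hm hV => ?_⟩
  · have := hE.ssubset_of_mem hp hq
    exact ⟨this.1, this.2.1⟩
  · have := hE.ssubset_of_mem hp hq
    exact hE.mem_of_ssubset hp hq' (hs.trans this.2)
  · have h1 := hE.ssubset_of_mem hp hq
    have cq := (mem_CP.1 hq).1
    have hv := (mem_CP.1 hq).2.2.2
    have h2 : ¬ S.Eqv (S.hi pt p.1) (S.hi pt q.1) := fun h =>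
      hv ((cp.toPr.b.eqv_hi.trans h).trans cq.toPr.b.eqv_hi.symm)
    exact hB.fan (hB.isIn_pA cp.toPr) (hB.isIn_pA cq.toPr) h2 h1.2.1
      (cp.toPr.b.eqv_hi.symm.trans hV) (h1.2.1 hm) hm

end Env

namespace Adm

variable {R : Finset I} {V : Sd I → Prop} {K : Finset I} {W : Sd I → Prop} {ε : ℕ}
  {p q : Sd I × Sd I}

theorem lam (hE : Env S pt R V) (hA : Adm S pt R V K W ε) :
    ∀ p ∈ S.CP pt K W, ∀ q ∈ S.CP pt K W, p ≠ q →
      Disjoint (S.pA pt p.1 p.2) (S.pA pt q.1 q.2) ∨ S.pA pt p.1 p.2 ⊂ S.pA pt q.1 q.2 ∨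
        S.pA pt q.1 q.2 ⊂ S.pA pt p.1 p.2 := fun p hp q hq hne =>
  hE.lam (hA.mem p hp).1 (hA.mem q hq).1 hne

theorem card_CP (hE : Env S pt R V) (hA : Adm S pt R V K W ε) :
    (S.CP pt K W).card =
      ∑ d ∈ S.kids pt K W, ((S.CP pt (S.pA pt d.1 d.2) (S.Eqv d.1)).card + 1) := by
  classical
  rw [lam_card (S.CP pt K W) (fun q => S.pA pt q.1 q.2)
    (fun p hp => hE.base.pA_nonempty (mem_CP.1 hp).1.toPr) (hA.lam hE)]
  refine sum_congr rfl fun d hd => ?_
  have hd' := (mem_maxs.1 hd).1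
  congr 2
  ext q
  rw [mem_filter, hE.mem_CP_pA (hA.mem d hd').1]
  constructor
  · exact fun h => ⟨(hA.mem q h.1).1, h.2⟩
  · exact fun h => ⟨hA.down d hd' q h.1 h.2, h.2⟩

/-- the family of the children -/
theorem fam (hE : Env S pt R V) (hA : Adm S pt R V K W ε) :
    S.Fam pt K W (S.kids pt K W) (fun q => S.pA pt q.1 q.2) (fun q => q.1) := by
  have hB := hE.base
  have hk : ∀ q ∈ S.kids pt K W, q ∈ S.CP pt K W := fun q hq => (mem_maxs.1 hq).1
  have hc : ∀ q ∈ S.kids pt K W, S.Cons pt q.1 q.2 := fun q hq => (mem_CP.1 (hk q hq)).1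
  refine ⟨fun q hq => (hA.mem q (hk q hq)).2, fun p hp q hq hne => ?_, fun q hq => ?_,
    fun q hq => (mem_CP.1 (hk q hq)).2.2.2, fun q hq => hA.virW q (hk q hq), fun q hq z hz => ?_,
    fun z hz hW => ?_, fun p hp q hq hne z hz h1 h2 => ?_, fun q hq c hc1 hcK hcA z hz hm => ?_⟩
  · exact maxs_disjoint (hA.lam hE) hp hq hne
  · exact hB.shape_pA (hc q hq)
  · exact hB.zA (hc q hq) hz
  · obtain ⟨w, hw, he⟩ := hA.Wbl z hW
    exact hz w hw he
  · exact hB.zB (hc p hp) (hc q hq) (maxs_disjoint (hA.lam hE) hp hq hne) hz h1 h2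
  · exact hB.zE (hc q hq) hc1 hcA hz hm

/-- TORSO THEOREM -/
theorem torso (hE : Env S pt R V) (hA : Adm S pt R V K W ε) :
    (S.candT pt K W (S.kids pt K W) (fun q => S.pA pt q.1 q.2)).card +
      (S.earsT K (S.kids pt K W) (fun q => S.pA pt q.1 q.2)).card +
      (S.zrT pt K W (S.kids pt K W) (fun q => S.pA pt q.1 q.2) (fun q => q.1)).card ≤ ε := by
  have h1 := hE.base.torso_le hA.shape (hA.fam hE)
  have h2 := hA.card_CP hE
  omega

/-- every pair is contained in a child -/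
theorem exists_kid (hp : p ∈ S.CP pt K W) : ∃ d ∈ S.kids pt K W,
    S.pA pt p.1 p.2 ⊆ S.pA pt d.1 d.2 := by
  obtain ⟨d, hd, h⟩ := exists_maxs (A := fun q : Sd I × Sd I => S.pA pt q.1 q.2) hp
  refine ⟨d, hd, ?_⟩
  rcases h with h | h
  · rw [h]
  · exact h.1

end Adm

theorem kids_sub {K : Finset I} {W : Sd I → Prop} : S.kids pt K W ⊆ S.CP pt K W := fun q hq =>
  (mem_maxs.1 hq).1

end Obj

end AG
end

/- AG.Reg.Extra -/
section
/-!
# Project AG, block 6: one more one-copy region is impossible (used with `K = A1` in section 8)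
-/

set_option linter.unusedSectionVars false
set_option linter.unusedSimpArgs false
set_option linter.unusedVariables false

namespace AG

open Finset

variable {I : Type} [DecidableEq I]

namespace Obj

variable {S : Obj I} {pt : Sd I → Pt}

/-- a one-copy region `K` in `R` which contains no blade triangle of its visit and behaves like a
member of the laminar family does not exist -/
theorem Env.no_extra {R : Finset I} {V : Sd I → Prop} (hE : Env S pt R V)
    (hVR : ∀ u, S.BladeAt pt u → V u → u.1 ∉ R)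
    {c c' : Sd I} {K : Finset I} (hK : S.IsIn c c' K) (hKR : K ⊆ R) (hV : ¬ V c)
    (hno : ∀ u, S.BladeAt pt u → S.Eqv c u → u.1 ∉ K)
    (hdich : ∀ q ∈ S.CP pt R V, Disjoint (S.pA pt q.1 q.2) K ∨
      (S.pA pt q.1 q.2 ⊆ K ∧ q ∈ S.CP pt K (S.Eqv c)))
    (hin : ∀ q ∈ S.CP pt K (S.Eqv c), S.pA pt q.1 q.2 ⊆ K)
    (hzA : ∀ z, ¬ S.Eqv c z → S.Meets K z →
      (∀ w, S.BladeAt pt w → w.1 ∈ K → ¬ S.Eqv w z) → S.NoB pt z)
    (hzB : ∀ q ∈ S.CP pt R V, Disjoint (S.pA pt q.1 q.2) K → ∀ z, S.NoB pt z →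
      S.Meets (S.pA pt q.1 q.2) z → S.Meets K z → S.BLg pt (S.pA pt q.1 q.2) q.1 z)
    (hear : ∀ e, S.Eared e → e.1 ∈ R → e.1 ∉ K → ∀ z, S.EndOf e z → ¬ S.Meets K z) : False := by
  classical
  have hB := hE.base
  have hkid : ∀ q ∈ S.kids pt R V, q ∈ S.CP pt R V := fun q hq => (mem_maxs.1 hq).1
  have hCsub : ∀ q ∈ S.CP pt K (S.Eqv c), q ∈ S.CP pt R V := by
    intro q hq
    obtain ⟨h1, h2, h3, _⟩ := mem_CP.1 hq
    exact mem_CP.2 ⟨h1, hKR h2, hKR h3, fun h4 => hVR _ h1.toPr.b h4 (hKR h2)⟩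
  have hCmem : ∀ q ∈ S.CP pt R V, ¬ Disjoint (S.pA pt q.1 q.2) K →
      S.pA pt q.1 q.2 ⊆ K ∧ q ∈ S.CP pt K (S.Eqv c) := fun q hq hd =>
    (hdich q hq).resolve_left hd
  have hnd : ∀ q ∈ S.CP pt R V, S.pA pt q.1 q.2 ⊆ K → ¬ Disjoint (S.pA pt q.1 q.2) K := by
    intro q hq hs hd
    obtain ⟨t, ht⟩ := hB.pA_nonempty (mem_CP.1 hq).1.toPr
    exact (disjoint_left.1 hd) ht (hs ht)
  have hA := hE.adm_R
  -- the count for `K`
  have e1 : (S.CP pt K (S.Eqv c)).card = ∑ d ∈ (S.kids pt R V).filter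
      (fun q => ¬ Disjoint (S.pA pt q.1 q.2) K),
        ((S.CP pt (S.pA pt d.1 d.2) (S.Eqv d.1)).card + 1) := by
    rw [lam_card (S.CP pt K (S.Eqv c)) (fun q => S.pA pt q.1 q.2)
      (fun p hp => hB.pA_nonempty (mem_CP.1 hp).1.toPr)
      (fun p hp q hq hne => hE.lam (hCsub p hp) (hCsub q hq) hne)]
    have e2 : maxs (S.CP pt K (S.Eqv c)) (fun q => S.pA pt q.1 q.2) =
        (S.kids pt R V).filter (fun q => ¬ Disjoint (S.pA pt q.1 q.2) K) := by
      ext d
      rw [mem_maxs, mem_filter]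
      constructor
      · rintro ⟨h1, h2⟩
        have h3 := hnd d (hCsub d h1) (hin d h1)
        refine ⟨mem_maxs.2 ⟨hCsub d h1, fun q hq hs => ?_⟩, h3⟩
        refine h2 q (hCmem q hq (fun h4 => ?_)).2 hs
        exact h3 (h4.mono_left hs.1)
      · rintro ⟨h1, h2⟩
        refine ⟨(hCmem d (hkid d h1) h2).2, fun q hq hs => ?_⟩
        exact (mem_maxs.1 h1).2 q (hCsub q hq) hs
    rw [e2]
    refine sum_congr rfl fun d hd => ?_
    rw [mem_filter] at hd
    congr 2
    ext q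
    rw [mem_filter, hE.mem_CP_pA (hkid d hd.1)]
    constructor
    · exact fun h => ⟨hCsub q h.1, h.2⟩
    · intro h
      have h1 : S.pA pt q.1 q.2 ⊆ K := h.2.1.trans (hCmem d (hkid d hd.1) hd.2).1
      exact ⟨(hCmem q h.1 (hnd q h.1 h1)).2, h.2⟩
  have e2 := hA.card_CP hE
  have e3 := sum_filter_add_sum_filter_not (S.kids pt R V)
    (fun q => Disjoint (S.pA pt q.1 q.2) K)
    (fun d => (S.CP pt (S.pA pt d.1 d.2) (S.Eqv d.1)).card + 1)
  -- the family
  let D : Finset (Sd I × Sd I) := (S.kids pt R V).filter (fun q => Disjoint (S.pA pt q.1 q.2) K)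
  have hD : ∀ q, q ∈ D → q ∈ S.kids pt R V ∧ Disjoint (S.pA pt q.1 q.2) K := fun q hq => by
    simpa only [D, mem_filter] using hq
  let A : Option (Sd I × Sd I) → Finset I := fun o => o.elim K (fun q => S.pA pt q.1 q.2)
  let v : Option (Sd I × Sd I) → Sd I := fun o => o.elim c (fun q => q.1)
  have hF0 := hA.fam hE
  have hF : S.Fam pt R V (insertNone D) A v := by
    refine ⟨?_, ?_, ?_, ?_, ?_, ?_, hF0.zV, ?_, ?_⟩
    · rintro (_ | q) hq
      · exact hKR
      · exact hF0.sub q (hD q (some_mem_insertNone.1 hq)).1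
    · rintro (_ | q) hq (_ | q') hq' hne
      · exact absurd rfl hne
      · exact (hD q' (some_mem_insertNone.1 hq')).2.symm
      · exact (hD q (some_mem_insertNone.1 hq)).2
      · exact hF0.disj q (hD q (some_mem_insertNone.1 hq)).1 q'
          (hD q' (some_mem_insertNone.1 hq')).1 (fun h => hne (congrArg some h))
    · rintro (_ | q) hq
      · exact hB.shape_in hK (fun u hu he hm => hno u (Or.inl hu) he hm)
      · exact hF0.shape q (hD q (some_mem_insertNone.1 hq)).1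
    · rintro (_ | q) hq
      · exact hV
      · exact hF0.nV q (hD q (some_mem_insertNone.1 hq)).1
    · rintro (_ | q) hq w hw hm
      · exact fun h => hVR w hw.bladeAt h (hKR hm)
      · exact hF0.virV q (hD q (some_mem_insertNone.1 hq)).1 w hw hm
    · rintro (_ | q) hq z hz
      · obtain ⟨_, h2, h3, h4⟩ := mem_Zr.1 hz
        exact Or.inr (hzA z h2 h3 h4)
      · exact hF0.zA q (hD q (some_mem_insertNone.1 hq)).1 z hz
    · rintro (_ | q) hq (_ | q') hq' hne z hz h1 h2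
      · exact absurd rfl hne
      · have h3 := hD q' (some_mem_insertNone.1 hq')
        exact Or.inr (hzB q' (hkid q' h3.1) h3.2 z hz h2 h1)
      · have h3 := hD q (some_mem_insertNone.1 hq)
        exact Or.inl (hzB q (hkid q h3.1) h3.2 z hz h1 h2)
      · exact hF0.zB q (hD q (some_mem_insertNone.1 hq)).1 q'
          (hD q' (some_mem_insertNone.1 hq')).1 (fun h => hne (congrArg some h)) z hz h1 h2
    · rintro (_ | q) hq e he heK heA z hz hm
      · exact absurd hm (hear e he heK heA z hz)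
      · exact hF0.ear q (hD q (some_mem_insertNone.1 hq)).1 e he heK heA z hz hm
  have h1 := hB.torso_le hE.shape hF
  have e4 : ∑ i ∈ insertNone D, ((S.CP pt (A i) (S.Eqv (v i))).card + 1) =
      ((S.CP pt K (S.Eqv c)).card + 1) +
        ∑ d ∈ D, ((S.CP pt (S.pA pt d.1 d.2) (S.Eqv d.1)).card + 1) := by
    rw [sum_insertNone]
    rfl
  have e5 : ∑ d ∈ D, ((S.CP pt (S.pA pt d.1 d.2) (S.Eqv d.1)).card + 1) =
      ∑ d ∈ (S.kids pt R V).filter (fun q => Disjoint (S.pA pt q.1 q.2) K),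
        ((S.CP pt (S.pA pt d.1 d.2) (S.Eqv d.1)).card + 1) := rfl
  rw [e4, e5] at h1
  omega

end Obj

end AG
end
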