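import Pool.Agent.Helper16.VGG.G05
import Pool.Agent.Helper16.VGG.G07
import Pool.Agent.Helper16.VGG.G09
import Pool.Agent.Helper16.VGG.G10

/- AG.Mir.Defs -/
section
/-!
# Project AG: the mirror image of an object (combinatorial part)

`mc` maps corners, `ms` maps sides: the side `a` (from the corner `a` to the corner `rot a`) has the
mirror image `ms a = mc (rot a)`, which runs from the corner `mc (rot a)` to the corner `mc a`.
Names of triangles are unchanged.
-/

set_option linter.unusedSectionVars false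
set_option linter.unusedSimpArgs false

namespace AG

open Finset

variable {I : Type}

/-- corners of the mirror image -/
def mc (a : Sd I) : Sd I := (a.1, -a.2)

/-- sides of the mirror image -/
def ms (a : Sd I) : Sd I := mc (rot a)

@[simp] theorem mc_fst (a : Sd I) : (mc a).1 = a.1 := rfl
@[simp] theorem ms_fst (a : Sd I) : (ms a).1 = a.1 := rfl

@[simp] theorem mc_mc (a : Sd I) : mc (mc a) = a := by
  refine Prod.ext rfl ?_
  exact (by decide : ∀ i : Fin 3, -(-i) = i) a.2

theorem mc_rot (a : Sd I) : mc (rot a) = unrot (mc a) := by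
  refine Prod.ext rfl ?_
  exact (by decide : ∀ i : Fin 3, -(i + 1) = -i + 2) a.2

theorem mc_unrot (a : Sd I) : mc (unrot a) = rot (mc a) := by
  refine Prod.ext rfl ?_
  exact (by decide : ∀ i : Fin 3, -(i + 2) = -i + 1) a.2

@[simp] theorem ms_ms (a : Sd I) : ms (ms a) = a := by
  refine Prod.ext rfl ?_
  exact (by decide : ∀ i : Fin 3, -(-(i + 1) + 1) = i) a.2

/-- the side which starts at the corner `mc a` -/
theorem mc_eq_ms (a : Sd I) : mc a = ms (unrot a) := by
  unfold ms; rw [rot_unrot]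

theorem ms_eq (a : Sd I) : ms a = unrot (mc a) := mc_rot a

/-- the side opposite to the corner `mc a` -/
theorem rot_mc (a : Sd I) : rot (mc a) = ms (rot a) := by
  refine Prod.ext rfl ?_
  exact (by decide : ∀ i : Fin 3, -i + 1 = -(i + 1 + 1)) a.2

theorem unrot_mc (a : Sd I) : unrot (mc a) = ms a := (mc_rot a).symm

theorem rot_ms (a : Sd I) : rot (ms a) = mc a := by rw [ms_eq, rot_unrot]

theorem unrot_ms (a : Sd I) : unrot (ms a) = ms (rot a) := by
  refine Prod.ext rfl ?_
  exact (by decide : ∀ i : Fin 3, -(i + 1) + 2 = -(i + 1 + 1)) a.2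

theorem mc_injective : Function.Injective (mc : Sd I → Sd I) := fun a b h => by
  rw [← mc_mc a, h, mc_mc]

theorem ms_injective : Function.Injective (ms : Sd I → Sd I) := fun a b h => by
  rw [← ms_ms a, h, ms_ms]

theorem mc_inj {a b : Sd I} : mc a = mc b ↔ a = b := mc_injective.eq_iff
theorem ms_inj {a b : Sd I} : ms a = ms b ↔ a = b := ms_injective.eq_iff

theorem exists_mc (a : Sd I) : ∃ b, a = mc b := ⟨mc a, (mc_mc a).symm⟩
theorem exists_ms (a : Sd I) : ∃ b, a = ms b := ⟨ms a, (ms_ms a).symm⟩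

theorem forall_mc {p : Sd I → Prop} : (∀ a, p a) ↔ ∀ a, p (mc a) :=
  ⟨fun h a => h _, fun h a => by obtain ⟨b, rfl⟩ := exists_mc a; exact h b⟩
theorem forall_ms {p : Sd I → Prop} : (∀ a, p a) ↔ ∀ a, p (ms a) :=
  ⟨fun h a => h _, fun h a => by obtain ⟨b, rfl⟩ := exists_ms a; exact h b⟩
theorem exists_mc_iff {p : Sd I → Prop} : (∃ a, p a) ↔ ∃ a, p (mc a) :=
  ⟨fun ⟨a, h⟩ => by obtain ⟨b, rfl⟩ := exists_mc a; exact ⟨b, h⟩, fun ⟨a, h⟩ => ⟨_, h⟩⟩
theorem exists_ms_iff {p : Sd I → Prop} : (∃ a, p a) ↔ ∃ a, p (ms a) :=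
  ⟨fun ⟨a, h⟩ => by obtain ⟨b, rfl⟩ := exists_ms a; exact ⟨b, h⟩, fun ⟨a, h⟩ => ⟨_, h⟩⟩

variable [DecidableEq I]

theorem mem_image_ms {X : Finset (Sd I)} {a : Sd I} : ms a ∈ X.image ms ↔ a ∈ X := by
  rw [mem_image]
  constructor
  · rintro ⟨b, hb, h⟩; rwa [← ms_injective h]
  · intro h; exact ⟨a, h, rfl⟩

theorem mem_image_mc {X : Finset (Sd I)} {a : Sd I} : mc a ∈ X.image mc ↔ a ∈ X := by
  rw [mem_image]
  constructor
  · rintro ⟨b, hb, h⟩; rwa [← mc_injective h]
  · intro h; exact ⟨a, h, rfl⟩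

namespace Obj

/-- the mirror image -/
def mir (S : Obj I) : Obj I where
  F := S.F
  g a := ms (S.g (ms a))
  E := S.E.image ms
  invol a := by simp [S.invol]
  ne a h := by
    have h1 : S.g (ms a) ≠ ms a := fun e => h (by rw [e, ms_ms])
    have := S.ne _ h1
    simpa using this
  memF a h := by
    have h1 : S.g (ms a) ≠ ms a := fun e => h (by rw [e, ms_ms])
    exact S.memF (ms a) h1
  earF a h := by
    obtain ⟨b, hb, rfl⟩ := mem_image.1 h
    exact S.earF b hb
  earFree a h := by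
    obtain ⟨b, hb, rfl⟩ := mem_image.1 h
    rw [ms_ms, S.earFree _ hb]

variable (S : Obj I)

@[simp] theorem mir_F : S.mir.F = S.F := rfl
theorem mir_g (a : Sd I) : S.mir.g a = ms (S.g (ms a)) := rfl
theorem mir_g_ms (a : Sd I) : S.mir.g (ms a) = ms (S.g a) := by rw [mir_g, ms_ms]
theorem mir_g_mc (a : Sd I) : S.mir.g (mc a) = ms (S.g (unrot a)) := by rw [mc_eq_ms, mir_g_ms]

theorem mir_glued {a : Sd I} : S.mir.g (ms a) ≠ ms a ↔ S.g a ≠ a := by
  rw [mir_g_ms, ne_eq, ms_inj]

theorem mir_unglued {a : Sd I} : S.mir.g (ms a) = ms a ↔ S.g a = a := by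
  rw [mir_g_ms, ms_inj]

theorem mir_glued_mc {a : Sd I} : S.mir.g (mc a) ≠ mc a ↔ S.g (unrot a) ≠ unrot a := by
  rw [mc_eq_ms, mir_glued]

theorem mem_mir_E {a : Sd I} : ms a ∈ S.mir.E ↔ a ∈ S.E := mem_image_ms

theorem ext' {S T : Obj I} (h1 : S.F = T.F) (h2 : S.g = T.g) (h3 : S.E = T.E) : S = T := by
  cases S; cases T; simp only at h1 h2 h3; subst h1; subst h2; subst h3; rfl

@[simp] theorem mir_mir : S.mir.mir = S := by
  apply ext'
  · rfl
  · funext a; rw [mir_g, mir_g_ms, ms_ms]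
  · change (S.E.image ms).image ms = S.E
    rw [image_image]
    have : (ms ∘ ms : Sd I → Sd I) = id := by funext a; exact ms_ms a
    rw [this, image_id]

theorem mir_E_card : S.mir.E.card = S.E.card := card_image_of_injective _ ms_injective

theorem mir_sides : S.mir.sides = S.sides := rfl

theorem mir_vis : S.mir.vis = S.vis.image ms := by
  ext a
  obtain ⟨b, rfl⟩ := exists_ms a
  rw [mem_image_ms, mem_vis, mem_vis, mir_unglued]; rfl

theorem mir_glued_eq : S.mir.glued = S.glued.image ms := by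
  ext a
  obtain ⟨b, rfl⟩ := exists_ms a
  rw [mem_image_ms, mem_glued, mem_glued, mir_glued]

theorem mir_glued_card : S.mir.glued.card = S.glued.card := by
  rw [mir_glued_eq, card_image_of_injective _ ms_injective]

theorem mir_vis_card : S.mir.vis.card = S.vis.card := by
  rw [mir_vis, card_image_of_injective _ ms_injective]

theorem mir_N2 (k : ℕ) : S.mir.N2 k = S.N2 k := by
  unfold N2; rw [mir_vis_card, mir_E_card]; rfl

theorem mem_mir_bd {X : Finset I} {a : Sd I} : ms a ∈ S.mir.bd X ↔ a ∈ S.bd X := by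
  rw [mem_bd, mem_bd, mir_glued, mir_g_ms]; rfl

theorem mir_bd (X : Finset I) : S.mir.bd X = (S.bd X).image ms := by
  ext a
  obtain ⟨b, rfl⟩ := exists_ms a
  rw [mem_image_ms, mem_mir_bd]

theorem mir_bd_nonempty {X : Finset I} : (S.mir.bd X).Nonempty ↔ (S.bd X).Nonempty := by
  rw [mir_bd, image_nonempty]

theorem mir_conn : S.mir.Conn ↔ S.Conn := by
  unfold Conn
  refine and_congr Iff.rfl ?_
  refine forall_congr' fun X => ?_
  rw [mir_bd_nonempty]; rfl

theorem mir_bridge {a : Sd I} : S.mir.Bridge (ms a) ↔ S.Bridge a := by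
  unfold Bridge
  refine exists_congr fun X => and_congr Iff.rfl ?_
  rw [mir_bd]
  constructor
  · intro h
    ext b
    rw [← mem_image_ms, h, mem_singleton, mem_singleton, ms_inj]
  · intro h; rw [h, image_singleton]

theorem mir_noncore {t : I} : S.mir.Noncore t ↔ S.Noncore t := by
  unfold Noncore
  refine and_congr Iff.rfl ?_
  constructor
  · intro h i hi
    have h1 := h (ms (t, i)).2
    have e : ((t, (ms (t, i)).2) : Sd I) = ms (t, i) := rfl
    rw [e, mir_glued, mir_bridge] at h1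
    exact h1 hi
  · intro h i hi
    obtain ⟨b, hb⟩ := exists_ms ((t, i) : Sd I)
    have hb1 : b.1 = t := by rw [← ms_fst b, ← hb]
    have e : b = (t, b.2) := by rw [← hb1]
    rw [hb, mir_glued] at hi
    rw [hb, mir_bridge, e]
    exact h b.2 (by rw [← e]; exact hi)

theorem mir_bridgeless : S.mir.Bridgeless ↔ S.Bridgeless := by
  unfold Bridgeless
  rw [forall_ms]
  refine forall_congr' fun a => ?_
  rw [mir_bridge]

/-! ### corners at a visit -/

theorem mir_step {a b : Sd I} : S.mir.Step (mc a) (mc b) ↔ S.Step b a := by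
  unfold Step
  rw [mir_glued_mc, mir_g_mc, rot_ms, mc_inj]
  constructor
  · rintro ⟨h1, h2⟩
    refine ⟨?_, ?_⟩
    · rw [h2, S.invol]; exact h1.symm
    · rw [h2, S.invol, rot_unrot]
  · rintro ⟨h1, h2⟩
    refine ⟨?_, ?_⟩
    · rw [h2, unrot_rot, S.invol]; exact h1.symm
    · rw [h2, unrot_rot, S.invol]

theorem mir_eqv_aux {S : Obj I} {a b : Sd I} (h : S.Eqv a b) : S.mir.Eqv (mc a) (mc b) := by
  induction h with
  | rel x y hxy => exact (Relation.EqvGen.rel _ _ ((mir_step S).2 hxy)).symm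
  | refl x => exact Eqv.refl _ _
  | symm x y _ ih => exact ih.symm
  | trans x y z _ _ ih1 ih2 => exact ih1.trans ih2

theorem mir_eqv {a b : Sd I} : S.mir.Eqv (mc a) (mc b) ↔ S.Eqv a b := by
  constructor
  · intro h
    have := mir_eqv_aux h
    rwa [mir_mir, mc_mc, mc_mc] at this
  · exact mir_eqv_aux

theorem mir_hit {C : Finset (Sd I)} {c : Sd I} : S.mir.Hit (C.image mc) (mc c) ↔ S.Hit C c := by
  unfold Hit
  constructor
  · rintro ⟨d, hd, h⟩
    obtain ⟨e, he, rfl⟩ := mem_image.1 hd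
    exact ⟨e, he, (S.mir_eqv).1 h⟩
  · rintro ⟨d, hd, h⟩
    exact ⟨mc d, mem_image_of_mem _ hd, (S.mir_eqv).2 h⟩

theorem mir_cw (a : Sd I) : S.mir.cw (mc a) = mc (S.ccw a) := by
  unfold cw ccw
  by_cases h : S.g (unrot a) = unrot a
  · rw [if_pos h, if_pos]
    rw [mir_g_mc, h, mc_eq_ms]
  · rw [if_neg h, if_neg, mir_g_mc, rot_ms]
    exact (mir_glued_mc S).2 h

theorem mir_ccw (a : Sd I) : S.mir.ccw (mc a) = mc (S.cw a) := by
  unfold cw ccw
  rw [unrot_mc]
  by_cases h : S.g a = a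
  · rw [if_pos h, if_pos]
    exact (mir_unglued S).2 h
  · rw [if_neg h, if_neg ((mir_glued S).2 h), mir_g_ms]; rfl

end Obj

end AG
end

/- AG.Mir.Geo -/
section
/-!
# Project AG: the mirror image, geometric part

All statements are proved below.

Hints.  `refl (x,y) = (x,-y)`; `ptm pt a' = refl (pt (mc a'))`, so `ptm pt (mc a) = refl (pt a)`.
`cr (refl a) (refl b) (refl c) = - cr a b c`.
`ang_refl`: with `z = (c-a)/(b-a)` (complex) the mirrored quotient is `conj (z⁻¹)`, which is `z`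
divided by `normSq z`, so it has the same argument (`Complex.arg_real_mul`; `z = 0` or `b = a`
trivial); no hypothesis is needed (`Complex.conj`, `Complex.inv_def`).
`mir_geo`: it suffices to prove one direction for all `S` (`mir_mir`, `ptm_ptm`).  `ccw0` of the
triangle `t`: the corners `(t,0), (t,1), (t,2)` are the mirrors of `(t,0), (t,2), (t,1)`; or use
`Geo.ccw` for corners and `ccw_of_ccw0`; `asum`: `Finset.sum_image`/`sum_bij` with `mc`.
`Sol`: `C' = C.image mc`; `ear`: the ear `ms a` has the corners `ms a = mc (rot a)` and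
`rot (ms a) = mc a`.  `Cov`: `tri (ptm pt) t = refl '' tri pt t`,
`segment ℝ (refl x) (refl y) = refl '' segment ℝ x y`.
-/

set_option linter.unusedSectionVars false
set_option linter.unusedSimpArgs false

namespace AG

open Finset

/-- reflection of the plane -/
def refl (p : Pt) : Pt := (p.1, -p.2)

@[simp] theorem refl_refl (p : Pt) : refl (refl p) = p := by
  unfold refl; simp

theorem refl_injective : Function.Injective refl := fun a b h => by
  rw [← refl_refl a, h, refl_refl]

theorem cr_refl (a b c : Pt) : cr (refl a) (refl b) (refl c) = - cr a b c := by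
  unfold cr refl; ring

private theorem toC_refl (p : Pt) : toC (refl p) = (starRingEnd ℂ) (toC p) := by
  apply Complex.ext
  · simp [refl]
  · simp [refl]

theorem ang_refl (a b c : Pt) : ang (refl a) (refl c) (refl b) = ang a b c := by
  unfold ang
  rw [toC_refl, toC_refl, toC_refl, ← map_sub, ← map_sub, ← map_div₀]
  have e : (toC b - toC a) / (toC c - toC a) = ((toC c - toC a) / (toC b - toC a))⁻¹ := by
    rw [inv_div]
  rw [e, Complex.arg_conj, Complex.arg_inv]
  generalize (toC c - toC a) / (toC b - toC a) = z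
  have h := Complex.neg_pi_lt_arg z
  by_cases hz : z.arg = Real.pi
  · rw [if_pos hz, if_pos rfl, hz]
  · rw [if_neg hz, if_neg, neg_neg]
    intro h1
    linarith

theorem otri_refl (a b c p : Pt) : refl p ∈ otri (refl a) (refl c) (refl b) ↔ p ∈ otri a b c := by
  unfold otri
  simp only [Set.mem_setOf_eq, cr_refl]
  rw [← cr_swap' a c p, ← cr_swap' c b p, ← cr_swap' b a p]
  tauto

theorem ctri_refl (a b c p : Pt) : refl p ∈ ctri (refl a) (refl c) (refl b) ↔ p ∈ ctri a b c := by
  unfold ctri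
  simp only [Set.mem_setOf_eq, cr_refl]
  rw [← cr_swap' a c p, ← cr_swap' c b p, ← cr_swap' b a p]
  tauto

theorem segment_refl (a b : Pt) : segment ℝ (refl a) (refl b) = refl '' segment ℝ a b := by
  have h := image_segment ℝ
    ((LinearMap.prodMap (LinearMap.id : ℝ →ₗ[ℝ] ℝ) (-(LinearMap.id : ℝ →ₗ[ℝ] ℝ))).toAffineMap) a b
  exact h.symm

variable {I : Type}

/-- the points of the mirror image -/
def ptm (pt : Sd I → Pt) (a : Sd I) : Pt := refl (pt (mc a))

theorem ptm_mc (pt : Sd I → Pt) (a : Sd I) : ptm pt (mc a) = refl (pt a) := by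
  unfold ptm; rw [mc_mc]

@[simp] theorem ptm_ptm (pt : Sd I → Pt) : ptm (ptm pt) = pt := by
  funext a; unfold ptm; simp

theorem cang_mir (pt : Sd I → Pt) (a : Sd I) : cang (ptm pt) (mc a) = cang pt a := by
  unfold cang
  rw [← mc_unrot, ← mc_rot, ptm_mc, ptm_mc, ptm_mc, ang_refl]

private theorem mc_zero (t : I) : mc (t, (0 : Fin 3)) = (t, 0) := by
  unfold mc
  rw [neg_zero]

private theorem mem_tri_refl (pt : Sd I → Pt) (t : I) (p : Pt) :
    refl p ∈ tri (ptm pt) t ↔ p ∈ tri pt t := by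
  have e0 : ptm pt (t, 0) = refl (pt (t, 0)) := by
    rw [← ptm_mc, mc_zero]
  have e1 : ptm pt (t, 1) = refl (pt (t, 2)) := ptm_mc pt (t, 2)
  have e2 : ptm pt (t, 2) = refl (pt (t, 1)) := ptm_mc pt (t, 1)
  unfold tri
  rw [e0, e1, e2, ctri_refl]

private theorem mem_image_refl (R : Set Pt) (p : Pt) : p ∈ refl '' R ↔ refl p ∈ R := by
  constructor
  · rintro ⟨q, hq, rfl⟩
    rwa [refl_refl]
  · intro h
    exact ⟨refl p, h, refl_refl p⟩

theorem tri_mir (pt : Sd I → Pt) (t : I) : tri (ptm pt) t = refl '' tri pt t := by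
  ext p
  rw [mem_image_refl, ← mem_tri_refl pt t (refl p), refl_refl]

theorem tri_mir_subset (pt : Sd I → Pt) (t : I) (R : Set Pt) :
    tri (ptm pt) t ⊆ refl '' R ↔ tri pt t ⊆ R := by
  rw [tri_mir, Set.image_subset_image_iff refl_injective]

theorem refl_refl_image (R : Set Pt) : refl '' (refl '' R) = R := by
  ext p
  rw [mem_image_refl, mem_image_refl, refl_refl]

variable [DecidableEq I]

theorem cov_mir {pt : Sd I → Pt} {R : Set Pt} {C : Finset (Sd I)} {t : I} :
    Cov (ptm pt) (refl '' R) (C.image mc) t ↔ Cov pt R C t := by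
  constructor
  · intro h p hp
    obtain ⟨c, hc, hs⟩ := h (refl p) ((mem_tri_refl pt t p).2 hp)
    obtain ⟨d, hd, rfl⟩ := mem_image.1 hc
    refine ⟨d, hd, ?_⟩
    rwa [ptm_mc, segment_refl, Set.image_subset_image_iff refl_injective] at hs
  · intro h p hp
    rw [tri_mir, mem_image_refl] at hp
    obtain ⟨c, hc, hs⟩ := h (refl p) hp
    refine ⟨mc c, mem_image_of_mem _ hc, ?_⟩
    rw [← refl_refl p, ptm_mc, segment_refl, Set.image_subset_image_iff refl_injective]
    exact hs

namespace Obj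

private theorem ptm_zero (pt : Sd I → Pt) (t : I) : ptm pt (t, 0) = refl (pt (t, 0)) := by
  rw [← ptm_mc, mc_zero]
private theorem ptm_one (pt : Sd I → Pt) (t : I) : ptm pt (t, 1) = refl (pt (t, 2)) :=
  ptm_mc pt (t, 2)
private theorem ptm_two (pt : Sd I → Pt) (t : I) : ptm pt (t, 2) = refl (pt (t, 1)) :=
  ptm_mc pt (t, 1)

theorem mir_geo_aux {S : Obj I} {pt : Sd I → Pt} (h : S.Geo pt) : S.mir.Geo (ptm pt) := by
  classical
  refine ⟨?_, ?_, ?_, ?_⟩
  · intro t ht
    have h1 := h.ccw0 t ht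
    unfold Ccw at h1 ⊢
    rw [ptm_zero, ptm_one, ptm_two, cr_refl, cr_swap, neg_neg]
    exact h1
  · intro a ha
    obtain ⟨b, rfl⟩ := exists_ms a
    rw [mir_glued] at ha
    rw [mir_g_ms, rot_ms, ptm_mc, AG.Geo.mat' h ha]
    exact (ptm_mc pt (rot b)).symm
  · intro t ht t' ht' hne
    have h1 := h.disj0 t ht t' ht' hne
    rw [Set.disjoint_left] at h1 ⊢
    intro p hp hp'
    rw [ptm_zero, ptm_one, ptm_two, ← refl_refl p, otri_refl] at hp hp'
    exact h1 hp hp'
  · intro p
    have h1 := h.asum (refl p)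
    refine lt_of_eq_of_lt ?_ h1
    symm
    refine sum_bij (fun a _ => mc a) ?_ ?_ ?_ ?_
    · intro a ha
      rw [mem_filter] at ha ⊢
      refine ⟨?_, ?_⟩
      · have h2 := ha.1
        unfold sides at h2 ⊢
        rw [mem_product] at h2 ⊢
        exact ⟨h2.1, mem_univ _⟩
      · rw [ptm_mc, ha.2, refl_refl]
    · intro a _ b _ hab
      exact mc_injective hab
    · intro b hb
      rw [mem_filter] at hb
      refine ⟨mc b, ?_, mc_mc b⟩
      rw [mem_filter]
      refine ⟨?_, ?_⟩
      · have h2 := hb.1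
        unfold sides at h2 ⊢
        rw [mem_product] at h2 ⊢
        exact ⟨h2.1, mem_univ _⟩
      · rw [← hb.2]
        unfold ptm
        rw [refl_refl]
    · intro a _
      exact (cang_mir pt a).symm

theorem mir_geo {S : Obj I} {pt : Sd I → Pt} : S.mir.Geo (ptm pt) ↔ S.Geo pt := by
  constructor
  · intro h
    have := mir_geo_aux h
    rwa [mir_mir, ptm_ptm] at this
  · exact mir_geo_aux

theorem mir_sol_aux {S : Obj I} {pt : Sd I → Pt} {R : Set Pt} {W C : Finset (Sd I)}
    (h : Sol S pt R W C) : Sol S.mir (ptm pt) (refl '' R) (W.image mc) (C.image mc) := by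
  refine ⟨?_, ?_, ?_, ?_, ?_⟩
  · intro a ha
    obtain ⟨b, hb, rfl⟩ := mem_image.1 ha
    have h2 := h.sub hb
    unfold sides at h2 ⊢
    rw [mem_product] at h2 ⊢
    exact ⟨h2.1, mem_univ _⟩
  · intro w hw
    obtain ⟨b, hb, rfl⟩ := mem_image.1 hw
    exact (S.mir_hit).2 (h.forced b hb)
  · intro a ha
    obtain ⟨b, rfl⟩ := exists_ms a
    rw [mem_mir_E] at ha
    rw [rot_ms]
    rcases h.ear b ha with h1 | h1
    · exact Or.inr ((S.mir_hit).2 h1)
    · exact Or.inl ((S.mir_hit).2 h1)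
  · intro t ht
    rw [mir_noncore] at ht
    obtain ⟨i, hi⟩ := h.dom t ht
    exact ⟨(mc (t, i)).2, (S.mir_hit).2 hi⟩
  · intro t ht
    exact cov_mir.2 (h.cov t ht)

theorem mir_P_aux {S : Obj I} {pt : Sd I → Pt} {R : Set Pt} {W : Finset (Sd I)}
    (h : P S pt R W) : P S.mir (ptm pt) (refl '' R) (W.image mc) := by
  obtain ⟨C, hC, hc⟩ := h
  refine ⟨C.image mc, mir_sol_aux hC, ?_⟩
  rw [card_image_of_injective _ mc_injective, card_image_of_injective _ mc_injective, mir_N2]
  exact hc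

private theorem image_mc_mc (W : Finset (Sd I)) : (W.image mc).image mc = W := by
  ext a
  obtain ⟨b, rfl⟩ := exists_mc a
  rw [mem_image_mc, mem_image]
  constructor
  · rintro ⟨c, hc, h⟩
    rw [← h, mc_mc]
    exact hc
  · intro h
    exact ⟨mc b, h, mc_mc b⟩

theorem mir_P {S : Obj I} {pt : Sd I → Pt} {R : Set Pt} {W : Finset (Sd I)} :
    P S.mir (ptm pt) (refl '' R) (W.image mc) ↔ P S pt R W := by
  constructor
  · intro h
    have := mir_P_aux h
    rwa [mir_mir, ptm_ptm, refl_refl_image, image_mc_mc] at this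
  · exact mir_P_aux

private theorem mir_IH_aux {R : Set Pt} {n : ℕ} (h : IH I R n) : IH I (refl '' R) n := by
  intro S pt hg hc hs hn W hW
  have hg' := mir_geo_aux hg
  have hs' : ∀ t ∈ S.mir.F, tri (ptm pt) t ⊆ R := by
    intro t ht
    have h2 := hs t ht
    rw [tri_mir]
    intro p hp
    rw [mem_image_refl] at hp
    have h3 := h2 hp
    rwa [mem_image_refl, refl_refl] at h3
  have hW' : W.image mc ⊆ S.mir.sides := by
    intro a ha
    obtain ⟨b, hb, rfl⟩ := mem_image.1 ha
    have h2 := hW hb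
    unfold sides at h2 ⊢
    rw [mem_product] at h2 ⊢
    exact ⟨h2.1, mem_univ _⟩
  have h1 := h S.mir (ptm pt) hg' (S.mir_conn.2 hc) hs' (by rw [mir_glued_card]; exact hn) _ hW'
  have h2 := mir_P_aux h1
  rwa [mir_mir, ptm_ptm, image_mc_mc] at h2

theorem mir_IH {R : Set Pt} {n : ℕ} : IH I (refl '' R) n ↔ IH I R n := by
  constructor
  · intro h
    have := mir_IH_aux h
    rwa [refl_refl_image] at this
  · exact mir_IH_aux

theorem mir_cex_aux {S : Obj I} {pt : Sd I → Pt} {R : Set Pt} (h : Cex S pt R) :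
    Cex S.mir (ptm pt) (refl '' R) := by
  refine ⟨mir_geo_aux h.geo, S.mir_conn.2 h.conn, ?_, ?_, ?_⟩
  · intro t ht
    exact (tri_mir_subset pt t R).2 (h.sub t ht)
  · rw [mir_IH, mir_glued_card]
    exact h.ih
  · intro h1
    apply h.bad
    have e : (∅ : Finset (Sd I)) = (∅ : Finset (Sd I)).image mc := rfl
    rw [e, mir_P] at h1
    exact h1

theorem mir_cex {S : Obj I} {pt : Sd I → Pt} {R : Set Pt} :
    Cex S.mir (ptm pt) (refl '' R) ↔ Cex S pt R := by
  constructor
  · intro h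
    have := mir_cex_aux h
    rwa [mir_mir, ptm_ptm, refl_refl_image] at this
  · exact mir_cex_aux

end Obj

end AG
end

/- AG.Mir.Blade -/
section
/-!
# Project AG: the mirror image, faces, blades, virtual blades

TASK: prove the statements (they are in a good order, each is a rewriting with Mir/Defs.lean:
`mir_glued`, `mir_glued_mc`, `mir_unglued`, `mem_mir_E`, `unrot_mc`, `rot_mc`, `rot_ms`,
`mir_g_ms`, `mir_g_mc`, `cang_mir`).

Dictionary: the side `ms a` of `S.mir` is the mirror of the side `a`, it starts at the corner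
`ms a = mc (rot a)` and ends at the corner `rot (ms a) = mc a`.  The corner `mc c` has the sides
`mc c = ms (unrot c)` and `unrot (mc c) = ms c`, its opposite side is `rot (mc c) = ms (rot c)`.
`blk_mir`: `cang (ptm pt) (ms a) = cang pt (rot a)`, and
`rot (S.mir.g (ms a)) = rot (ms (S.g a)) = mc (S.g a)`, so the sum is
`cang pt (rot a) + cang pt (S.g a)`, which is the sum for `Blk (S.g a)`.
`isU_mir`: `isU_iff` of Geo.lean or the fields directly.
-/

set_option linter.unusedSectionVars false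
set_option linter.unusedSimpArgs false

namespace AG

open Finset

variable {I : Type} [DecidableEq I]

namespace Obj

variable (S : Obj I) (pt : Sd I → Pt)

theorem face_mir {t : I} : S.mir.Face t ↔ S.Face t := by
  unfold Face
  refine and_congr Iff.rfl ?_
  constructor
  · intro h i hi
    have h1 := h (ms (t, i)).2
    have e : ((t, (ms (t, i)).2) : Sd I) = ms (t, i) := rfl
    rw [e, mir_glued] at h1
    exact h1 hi
  · intro h i
    obtain ⟨b, hb⟩ := exists_ms ((t, i) : Sd I)
    have hb1 : b.1 = t := by rw [← ms_fst b, ← hb]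
    have e : b = (t, b.2) := by rw [← hb1]
    rw [hb, mir_glued, e]
    exact h b.2

theorem blade_mir {c : Sd I} : S.mir.Blade (mc c) ↔ S.Blade c := by
  unfold Blade
  rw [mir_glued_mc, unrot_mc, mir_glued, rot_mc, mir_unglued, mem_mir_E]
  tauto

theorem eared_mir {c : Sd I} : S.mir.Eared (mc c) ↔ S.Eared c := by
  unfold Eared
  rw [mir_glued_mc, unrot_mc, mir_glued, rot_mc, mem_mir_E]
  tauto

theorem active_mir {a : Sd I} : S.mir.Active (ms a) ↔ S.Active a := by
  unfold Active
  rw [mir_glued, mir_g_ms, ms_fst, face_mir]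

theorem blk_mir {a : Sd I} : S.mir.Blk (ptm pt) (ms a) ↔ S.Blk pt (S.g a) := by
  show (S.mir.g (ms a) ≠ ms a ∧
    Real.pi ≤ cang (ptm pt) (ms a) + cang (ptm pt) (rot (S.mir.g (ms a)))) ↔
    (S.g (S.g a) ≠ S.g a ∧ Real.pi ≤ cang pt (S.g a) + cang pt (rot (S.g (S.g a))))
  rw [mir_glued, mir_g_ms, rot_ms, cang_mir, g_ne_iff, S.invol]
  have e : cang (ptm pt) (ms a) = cang pt (rot a) := cang_mir pt (rot a)
  rw [e, add_comm]

theorem isU_mir {a : Sd I} : S.mir.IsU (ptm pt) (ms a) ↔ S.IsU pt a := by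
  have e : cang (ptm pt) (ms a) = cang pt (rot a) := cang_mir pt (rot a)
  have e2 : cang (ptm pt) (ms (S.g a)) = cang pt (rot (S.g a)) := cang_mir pt (rot (S.g a))
  constructor
  · rintro ⟨h1, h2, h3⟩
    rw [mir_g_ms, rot_ms, cang_mir, e] at h2
    rw [mir_g_ms, rot_ms, cang_mir, e2] at h3
    exact ⟨(S.mir_glued).1 h1, by linarith, by linarith⟩
  · rintro ⟨h1, h2, h3⟩
    refine ⟨(S.mir_glued).2 h1, ?_, ?_⟩
    · rw [mir_g_ms, rot_ms, cang_mir, e]
      linarith
    · rw [mir_g_ms, rot_ms, cang_mir, e2]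
      linarith

theorem pairAt_mir {c : Sd I} : S.mir.PairAt (ptm pt) (mc c) ↔ S.PairAt pt c := by
  have h1 : S.mir.Blk (ptm pt) (mc c) ↔ S.Blk pt (S.g (unrot c)) := by
    rw [mc_eq_ms]
    exact S.blk_mir pt
  have h2 : S.mir.Blk (ptm pt) (S.mir.g (unrot (mc c))) ↔ S.Blk pt c := by
    rw [unrot_mc, mir_g_ms]
    have h3 := S.blk_mir pt (a := S.g c)
    rwa [S.invol] at h3
  constructor
  · rintro ⟨a1, a2⟩
    exact ⟨h2.1 a2, h1.1 a1⟩
  · rintro ⟨a1, a2⟩
    exact ⟨h1.2 a2, h2.2 a1⟩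

theorem candB_mir {a : Sd I} : S.mir.CandB (ptm pt) (ms a) ↔ S.CandA pt a := by
  have h1 : S.mir.Active (mc a) ↔ S.Active (unrot a) := by
    rw [mc_eq_ms]
    exact S.active_mir
  show (S.mir.Blade (rot (ms a)) ∧ S.mir.Active (ms a) ∧ (S.mir.IsU (ptm pt) (ms a) ∨
    (S.mir.PairAt (ptm pt) (rot (ms a)) ∧ ¬ S.mir.Active (rot (ms a))))) ↔
    (S.Blade a ∧ S.Active a ∧ (S.IsU pt a ∨ (S.PairAt pt a ∧ ¬ S.Active (unrot a))))
  rw [rot_ms, blade_mir, active_mir, isU_mir, pairAt_mir, h1]

theorem candA_mir {a : Sd I} : S.mir.CandA (ptm pt) (ms a) ↔ S.CandB pt a := by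
  have h1 : S.mir.Blade (ms a) ↔ S.Blade (rot a) := S.blade_mir
  have h2 : S.mir.PairAt (ptm pt) (ms a) ↔ S.PairAt pt (rot a) := S.pairAt_mir pt
  show (S.mir.Blade (ms a) ∧ S.mir.Active (ms a) ∧ (S.mir.IsU (ptm pt) (ms a) ∨
    (S.mir.PairAt (ptm pt) (ms a) ∧ ¬ S.mir.Active (unrot (ms a))))) ↔
    (S.Blade (rot a) ∧ S.Active a ∧ (S.IsU pt a ∨ (S.PairAt pt (rot a) ∧ ¬ S.Active (rot a))))
  rw [h1, h2, unrot_ms, active_mir, active_mir, isU_mir]

theorem virtB_mir {w : Sd I} : S.mir.VirtB (ptm pt) (mc w) ↔ S.VirtA pt w := by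
  unfold VirtB VirtA
  rw [rot_mc, mir_g_ms, candB_mir]

theorem virtA_mir {w : Sd I} : S.mir.VirtA (ptm pt) (mc w) ↔ S.VirtB pt w := by
  unfold VirtB VirtA
  rw [rot_mc, mir_g_ms, candA_mir]

theorem bladeAt_mir {w : Sd I} : S.mir.BladeAt (ptm pt) (mc w) ↔ S.BladeAt pt w := by
  unfold BladeAt
  rw [blade_mir, virtA_mir, virtB_mir]
  tauto

theorem stub_mir {w c : Sd I} : S.mir.Stub (ptm pt) (mc w) (ms c) ↔ S.Stub pt w c := by
  have h1 : ms c = mc w ↔ c = unrot w := by rw [mc_eq_ms, ms_inj]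
  have h2 : ms c = unrot (mc w) ↔ c = w := by rw [unrot_mc, ms_inj]
  unfold Stub
  rw [blade_mir, virtA_mir, virtB_mir, h1, h2]
  tauto

theorem earEnd_mir {p : Sd I} : S.mir.EarEnd (mc p) ↔ S.EarEnd p := by
  have key : ∀ b : Sd I, (S.mir.Eqv (ms b) (mc p) ∨ S.mir.Eqv (rot (ms b)) (mc p)) ↔
      (S.Eqv b p ∨ S.Eqv (rot b) p) := by
    intro b
    have h1 : S.mir.Eqv (ms b) (mc p) ↔ S.Eqv (rot b) p := S.mir_eqv
    rw [h1, rot_ms, mir_eqv]
    exact or_comm
  constructor
  · rintro ⟨a, ha, h⟩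
    obtain ⟨b, rfl⟩ := exists_ms a
    exact ⟨b, (S.mem_mir_E).1 ha, (key b).1 h⟩
  · rintro ⟨b, hb, h⟩
    exact ⟨ms b, (S.mem_mir_E).2 hb, (key b).2 h⟩

end Obj

end AG
end

/- AG.Mir.Ord -/
section
/-!
# Project AG: the mirror image, positions, pairs, `pA`, `pO`, `pB`, `OpenMin`

All statements are proved.

Hints.  `ps_add`: `S.ps a + S.mir.ps (mc a)` is constant on every visit.  For a glued corner `x`:
`S.ps x = S.ps (cw x) + 1` (`ps_of_glued`), and `mc (S.cw x)` is glued in `S.mir`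
(`mir_glued_mc`, `unrot_cw_glued`) with `S.mir.cw (mc (S.cw x)) = mc (S.ccw (S.cw x)) = mc x`
(`mir_cw`, `ccw_cw`), so `S.mir.ps (mc (cw x)) = S.mir.ps (mc x) + 1`; then induction on `Eqv`.
`mir_linear` : from `S.Linear`; write the fan of `mc a` in `S.mir`: going clockwise in the mirror is
going counterclockwise in `S`.  If it did not end, all `S.ccw^[n] a` would have a glued side
`unrot`, so `S.ps (S.ccw^[n] a) = S.ps a + n` (`ps_ccw`), infinitely many different corners in the
finite set `S.sides`.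
`lo_mir`, `hi_mir`: cases `VirtA`, `VirtB` (a virtual blade cannot be both: `hnot`), with
`cw (ccw w) = w` (`cw_ccw`, the side `unrot w` is glued, `BladeAt.glued'`).
`isIn_mir`: `S.mir.bd X = (S.bd X).image ms = {ms c, ms (g c')}`, `mc (cw c') = ms (g c')` and
`S.mir.g (mc (cw c)) = ms c`.
`inS_mir`: the two predicates `IsIn S.mir (mc (cw c')) (mc (cw c))` and `IsIn S c c'` on `Finset I` are
equal by `funext`, `propext` and `isIn_mir`, so the two choices are equal (no uniqueness is
needed): unfold `InS`, or `congr`.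
-/

set_option linter.unusedSectionVars false
set_option linter.unusedSimpArgs false
set_option linter.unusedVariables false

namespace AG

open Finset

variable {I : Type} [DecidableEq I]

namespace Obj

variable {S : Obj I} {pt : Sd I → Pt}

theorem mir_linear (hl : S.Linear) : S.mir.Linear := by
  rw [Linear, forall_mc]
  intro a
  have hit : ∀ n : ℕ, S.mir.cw^[n] (mc a) = mc (S.ccw^[n] a) := by
    intro n
    induction n with
    | zero => rfl
    | succ n ih => rw [Function.iterate_succ_apply', ih, mir_cw, Function.iterate_succ_apply']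
  by_contra hcon
  push Not at hcon
  have hgl : ∀ n : ℕ, S.g (unrot (S.ccw^[n] a)) ≠ unrot (S.ccw^[n] a) := by
    intro n
    have := hcon n
    rw [hit] at this
    exact (mir_glued_mc S).1 this
  have haF : a.1 ∈ S.F := S.memF (unrot a) (hgl 0)
  obtain ⟨b, -, -, hmax⟩ := exists_top hl haF
  have key : ∀ n : ℕ, S.Eqv a (S.ccw^[n] a) ∧ S.ps (S.ccw^[n] a) = S.ps a + n := by
    intro n
    induction n with
    | zero => exact ⟨Eqv.refl S a, rfl⟩
    | succ n ih =>
      rw [Function.iterate_succ_apply']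
      refine ⟨ih.1.trans (ccw_eqv (hgl n)), ?_⟩
      rw [ps_ccw hl (hgl n), ih.2]; omega
  have h1 := key (S.ps b + 1)
  have h2 := hmax _ h1.1
  omega

theorem ps_add (hl : S.Linear) {a b : Sd I} (h : S.Eqv a b) :
    S.ps a + S.mir.ps (mc a) = S.ps b + S.mir.ps (mc b) := by
  have step : ∀ x : Sd I, S.g x ≠ x →
      S.ps x + S.mir.ps (mc x) = S.ps (S.cw x) + S.mir.ps (mc (S.cw x)) := by
    intro x hx
    have h1 := ps_of_glued hl hx
    have h2 : S.mir.g (mc (S.cw x)) ≠ mc (S.cw x) := (mir_glued_mc S).2 (unrot_cw_glued hx)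
    have h3 := ps_of_glued (mir_linear hl) h2
    rw [mir_cw, ccw_cw hx] at h3
    omega
  induction h with
  | rel x y hxy =>
    have h1 := step x hxy.1
    rw [cw_of_glued hxy.1, ← hxy.2] at h1
    exact h1
  | refl x => rfl
  | symm x y _ ih => exact ih.symm
  | trans x y z _ _ ih1 ih2 => exact ih1.trans ih2

theorem ps_mir_lt (hl : S.Linear) {a b : Sd I} (h : S.Eqv a b) :
    S.mir.ps (mc a) < S.mir.ps (mc b) ↔ S.ps b < S.ps a := by
  have := ps_add hl h; omega

theorem pr_mir (hl : S.Linear) {w w' : Sd I} :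
    S.mir.Pr (ptm pt) (mc w') (mc w) ↔ S.Pr pt w w' := by
  constructor
  · rintro ⟨h1, h2, h3, h4⟩
    have h3' := (S.mir_eqv).1 h3
    exact ⟨(bladeAt_mir S pt).1 h2, (bladeAt_mir S pt).1 h1, h3'.symm, (ps_mir_lt hl h3').1 h4⟩
  · rintro ⟨h1, h2, h3, h4⟩
    exact ⟨(bladeAt_mir S pt).2 h2, (bladeAt_mir S pt).2 h1, (S.mir_eqv).2 h3.symm,
      (ps_mir_lt hl h3.symm).2 h4⟩

theorem cons_mir (hl : S.Linear) {w w' : Sd I} :
    S.mir.Cons (ptm pt) (mc w') (mc w) ↔ S.Cons pt w w' := by
  constructor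
  · rintro ⟨h1, h2⟩
    have h1' := (pr_mir hl).1 h1
    refine ⟨h1', fun u hu he hl1 hl2 => ?_⟩
    exact h2 (mc u) ((bladeAt_mir S pt).2 hu) ((S.mir_eqv).2 (h1'.eqv.symm.trans he))
      ((ps_mir_lt hl (h1'.eqv.symm.trans he)).2 hl2) ((ps_mir_lt hl he.symm).2 hl1)
  · rintro ⟨h1, h2⟩
    refine ⟨(pr_mir hl).2 h1, ?_⟩
    rw [forall_mc]
    intro u hu he hl1 hl2
    have he' := (S.mir_eqv).1 he
    have hu' := (bladeAt_mir S pt).1 hu
    have he2 : S.Eqv w u := h1.eqv.trans he'
    exact h2 u hu' he2 ((ps_mir_lt hl he2.symm).1 hl2) ((ps_mir_lt hl he').1 hl1)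

theorem lo_mir {w : Sd I} (hw : S.BladeAt pt w) (hnot : ¬ (S.VirtA pt w ∧ S.VirtB pt w)) :
    S.mir.lo (ptm pt) (mc w) = mc (S.cw (S.hi pt w)) := by
  classical
  unfold lo hi
  by_cases h : S.VirtA pt w
  · rw [if_pos ((virtB_mir S pt).2 h), if_pos h, mir_ccw]
  · rw [if_neg (fun h' => h ((virtB_mir S pt).1 h')), if_neg h, cw_ccw hw.glued']

theorem hi_mir {w : Sd I} (hw : S.BladeAt pt w) (hnot : ¬ (S.VirtA pt w ∧ S.VirtB pt w)) :
    S.mir.hi (ptm pt) (mc w) = mc (S.cw (S.lo pt w)) := by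
  classical
  unfold lo hi
  by_cases h : S.VirtB pt w
  · rw [if_pos ((virtA_mir S pt).2 h), if_pos h, cw_ccw hw.glued']
  · rw [if_neg (fun h' => h ((virtA_mir S pt).1 h')), if_neg h, mir_ccw]

theorem isIn_mir (hl : S.Linear) {c c' : Sd I} (hc : S.g c ≠ c) (hc' : S.g c' ≠ c')
    {X : Finset I} : S.mir.IsIn (mc (S.cw c')) (mc (S.cw c)) X ↔ S.IsIn c c' X := by
  have e1 : mc (S.cw c') = ms (S.g c') := by rw [cw_of_glued hc']; rfl
  have e2 : S.mir.g (mc (S.cw c)) = ms c := by
    rw [mir_g_mc, cw_of_glued hc, unrot_rot, S.invol]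
  have hpc := ps_of_glued hl hc
  have hpc' := ps_of_glued hl hc'
  have hbd : S.mir.bd X = {mc (S.cw c'), S.mir.g (mc (S.cw c))} ↔ S.bd X = {c, S.g c'} := by
    rw [mir_bd, e1, e2, ← image_singleton (f := ms), ← image_insert, Finset.pair_comm]
    exact (Finset.image_injective ms_injective).eq_iff
  have heq : S.mir.Eqv (mc (S.cw c')) (mc (S.cw c)) ↔ S.Eqv c c' := by
    rw [mir_eqv]
    constructor
    · intro h
      exact (S.cw_eqv c).trans (h.symm.trans (S.cw_eqv c').symm)
    · intro h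
      exact (S.cw_eqv c').symm.trans (h.symm.trans (S.cw_eqv c))
  constructor
  · intro h
    have h1 := heq.1 h.eqv
    have h2 := h.lt
    rw [ps_mir_lt hl ((S.mir_eqv).1 h.eqv)] at h2
    exact ⟨hc, hc', h1, by omega, h.sub, hbd.1 h.bd⟩
  · intro h
    have h1 := heq.2 h.eqv
    refine ⟨(mir_glued_mc S).2 (unrot_cw_glued hc'), (mir_glued_mc S).2 (unrot_cw_glued hc), h1, ?_,
      h.sub, hbd.2 h.bd⟩
    rw [ps_mir_lt hl ((S.mir_eqv).1 h1)]
    have := h.lt
    omega

theorem inS_mir (hl : S.Linear) {c c' : Sd I} (hc : S.g c ≠ c) (hc' : S.g c' ≠ c') :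
    S.mir.InS (mc (S.cw c')) (mc (S.cw c)) = S.InS c c' := by
  classical
  have e : (fun X => S.mir.IsIn (mc (S.cw c')) (mc (S.cw c)) X) = fun X => S.IsIn c c' X :=
    funext fun X => propext (isIn_mir hl hc hc')
  have key : ∀ p q : Finset I → Prop, p = q →
      (if h : ∃ X, p X then h.choose else ∅) = (if h : ∃ X, q X then h.choose else ∅) := by
    rintro p q rfl; rfl
  unfold InS
  exact key _ _ e

theorem lo_glued {w : Sd I} (hw : S.BladeAt pt w) : S.g (S.lo pt w) ≠ S.lo pt w := by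
  classical
  unfold lo
  by_cases h : S.VirtB pt w
  · rw [if_pos h]; exact ccw_glued hw.glued'
  · rw [if_neg h]; exact hw.glued

theorem hi_glued {w : Sd I} (hw : S.BladeAt pt w) : S.g (S.hi pt w) ≠ S.hi pt w := by
  classical
  unfold hi
  by_cases h : S.VirtA pt w
  · rw [if_pos h]; exact hw.glued
  · rw [if_neg h]; exact ccw_glued hw.glued'

theorem pA_mir (hl : S.Linear) (hnot : ∀ w, ¬ (S.VirtA pt w ∧ S.VirtB pt w)) {w w' : Sd I}
    (hw : S.BladeAt pt w) (hw' : S.BladeAt pt w') :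
    S.mir.pA (ptm pt) (mc w') (mc w) = S.pA pt w w' := by
  unfold pA
  rw [hi_mir hw' (hnot w'), lo_mir hw (hnot w), inS_mir hl (hi_glued hw) (lo_glued hw')]

theorem pO_mir (hl : S.Linear) (hnot : ∀ w, ¬ (S.VirtA pt w ∧ S.VirtB pt w)) {w w' : Sd I}
    (hw : S.BladeAt pt w) (hw' : S.BladeAt pt w') :
    S.mir.pO (ptm pt) (mc w') (mc w) = S.pO pt w w' := by
  unfold pO
  rw [lo_mir hw' (hnot w'), hi_mir hw (hnot w), inS_mir hl (lo_glued hw) (hi_glued hw')]

theorem pB_mir (hl : S.Linear) (hnot : ∀ w, ¬ (S.VirtA pt w ∧ S.VirtB pt w)) {w w' : Sd I}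
    (hw : S.BladeAt pt w) (hw' : S.BladeAt pt w') :
    S.mir.pB (ptm pt) (mc w') (mc w) = S.pB pt w w' := by
  unfold pB
  rw [pO_mir hl hnot hw hw', mir_F]

theorem triv_mir (hl : S.Linear) (hnot : ∀ w, ¬ (S.VirtA pt w ∧ S.VirtB pt w)) {w w' : Sd I}
    (hw : S.BladeAt pt w) (hw' : S.BladeAt pt w') :
    S.mir.Triv (ptm pt) (mc w') (mc w) ↔ S.Triv pt w w' := by
  unfold Triv
  rw [pA_mir hl hnot hw hw', exists_mc_iff]
  refine exists_congr fun c => ?_
  rw [eared_mir, mc_fst]

/-- `OpenMin` is invariant.  `hnot` is proved in block 5 (`VirtA.not_virtB`), linearity follows from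
`Geo`; they are hypotheses here only to keep the imports small -/
theorem openMin_mir {R : Set Pt} (hlin : ∀ (S : Obj I) (pt : Sd I → Pt), Cex S pt R → S.Linear)
    (hlin' : ∀ (S : Obj I) (pt : Sd I → Pt), Cex S pt (refl '' R) → S.Linear)
    (hnot : ∀ (S : Obj I) (pt : Sd I → Pt) (w : Sd I), Cex S pt R →
      ¬ (S.VirtA pt w ∧ S.VirtB pt w))
    (hnot' : ∀ (S : Obj I) (pt : Sd I → Pt) (w : Sd I), Cex S pt (refl '' R) →
      ¬ (S.VirtA pt w ∧ S.VirtB pt w))
    {w0 w0' : Sd I} (h : OpenMin S pt R w0 w0') :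
    OpenMin S.mir (ptm pt) (refl '' R) (mc w0') (mc w0) := by
  have hl := hlin S pt h.cex
  have hn := fun w => hnot S pt w h.cex
  refine ⟨mir_cex.2 h.cex, (pr_mir hl).2 h.pr, ?_, ?_⟩
  · rw [triv_mir hl hn h.pr.b h.pr.b']
    exact h.nt
  · intro S' pt' u u' hC hg hp ht
    have hl' := hlin' S' pt' hC
    have hn' := fun w => hnot' S' pt' w hC
    have hC' : Cex S'.mir (ptm pt') R := by
      have := mir_cex.2 hC
      rwa [refl_refl_image] at this
    have h1 := h.min S'.mir (ptm pt') (mc u') (mc u) hC'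
      (by rw [mir_glued_card, hg, mir_glued_card]) ((pr_mir hl').2 hp)
      (by rw [triv_mir hl' hn' hp.b hp.b']; exact ht)
    rw [pB_mir hl' hn' hp.b hp.b'] at h1
    rw [pB_mir hl hn h.pr.b h.pr.b']
    exact h1

end Obj

end AG
end

/- Helper29.AG7.Walk -/
section
/-!
# AG: neighbouring corners of a visit, walks, and the shape of a fan at the far end of a stub (6.7)

`Nb S x y` : the corners `x`, `y` of one visit are neighbours (in one of the two directions); `Bk S pt x y` : the diagonal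
between them is blocked at this visit.  `D1 S x y` : `y` is a dead end beyond `x`, its triangle is a blade.
`D2 S pt x y` : `y` is in a face, then comes one more corner, the last one, in a blade, and the diagonal between these two is
not blocked at the visit.
-/

set_option autoImplicit false
set_option linter.unusedSectionVars false
open Finset

namespace Pool.Agent.Helper29.AG7

open _root_.AG _root_.AG.Obj

variable {I : Type} [DecidableEq I]

/-- neighbouring corners at one visit -/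
def Nb (S : Obj I) (x y : Sd I) : Prop := S.Step x y ∨ S.Step y x

/-- the diagonal between the neighbouring corners `x`, `y` is blocked at their visit -/
def Bk (S : Obj I) (pt : Sd I → Pt) (x y : Sd I) : Prop :=
  (S.Step x y ∧ S.Blk pt x) ∨ (S.Step y x ∧ S.Blk pt y)

variable {S : Obj I} {pt : Sd I → Pt}

theorem Nb.symm {x y : Sd I} (h : Nb S x y) : Nb S y x := Or.symm h

theorem Nb.eqv {x y : Sd I} (h : Nb S x y) : S.Eqv x y := by
  rcases h with h | h
  · exact Relation.EqvGen.rel _ _ h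
  · exact (Relation.EqvGen.rel _ _ h : S.Eqv y x).symm

theorem Bk.symm {x y : Sd I} (h : Bk S pt x y) : Bk S pt y x := Or.symm h

theorem Bk.nb {x y : Sd I} (h : Bk S pt x y) : Nb S x y := by
  rcases h with h | h
  · exact Or.inl h.1
  · exact Or.inr h.1

theorem step_iff_cw {x y : Sd I} : S.Step x y ↔ S.g x ≠ x ∧ y = S.cw x := by
  constructor
  · rintro ⟨h1, h2⟩
    exact ⟨h1, by rw [cw, if_neg h1, h2]⟩
  · rintro ⟨h1, h2⟩
    exact ⟨h1, by rw [h2, cw, if_neg h1]⟩

theorem step_iff_ccw {x y : Sd I} : S.Step y x ↔ S.g (unrot x) ≠ unrot x ∧ y = S.g (unrot x) := by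
  constructor
  · rintro ⟨h1, h2⟩
    have h3 : unrot x = S.g y := by rw [h2, unrot_rot]
    rw [h3, S.invol]
    exact ⟨h1.symm, rfl⟩
  · rintro ⟨h1, h2⟩
    refine ⟨?_, ?_⟩
    · rw [h2, S.invol]; exact h1.symm
    · rw [h2, S.invol, rot_unrot]

theorem nb_iff {x y : Sd I} : Nb S x y ↔
    (S.g x ≠ x ∧ y = rot (S.g x)) ∨ (S.g (unrot x) ≠ unrot x ∧ y = S.g (unrot x)) :=
  or_congr Iff.rfl step_iff_ccw

theorem Nb.ps (hl : S.Linear) {x y : Sd I} (h : Nb S x y) : S.ps x = S.ps y + 1 ∨ S.ps y = S.ps x + 1 := by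
  rcases h with h | h
  · rw [step_iff_cw] at h
    left
    rw [h.2]
    exact ps_of_glued hl h.1
  · rw [step_iff_cw] at h
    right
    rw [h.2]
    exact ps_of_glued hl h.1

/-- `y` is a dead end beyond `x`, in a blade -/
def D1 (S : Obj I) (x y : Sd I) : Prop :=
  (∃ u, S.Blade u ∧ u.1 = y.1) ∧ ∀ y', Nb S y y' → y' = x

/-- `y` is in a face, beyond it there is exactly one more corner, a dead end in a blade, the diagonal between the two is
not blocked at the visit -/
def D2 (S : Obj I) (pt : Sd I → Pt) (x y : Sd I) : Prop :=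
  S.Face y.1 ∧ ∃ y2, Nb S y y2 ∧ y2 ≠ x ∧ ¬ Bk S pt y y2 ∧ (∀ y', Nb S y y' → y' = x ∨ y' = y2) ∧
    (∀ y', Nb S y2 y' → y' = y) ∧ ∃ u, S.Blade u ∧ u.1 = y2.1

/-! ### walks along a fan -/

/-- `n 0, …, n m` are all corners of the visit of `n 0`, in the order of the fan -/
structure Walk (S : Obj I) (n : ℕ → Sd I) (m : ℕ) : Prop where
  nb : ∀ i < m, Nb S (n i) (n (i + 1))
  inj : ∀ i j, i ≤ m → j ≤ m → n i = n j → i = j
  all : ∀ x, S.Eqv (n 0) x → ∃ i ≤ m, x = n i
  adj : ∀ i j, i ≤ m → j ≤ m → Nb S (n i) (n j) → j = i + 1 ∨ i = j + 1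

theorem Walk.eqv {n : ℕ → Sd I} {m : ℕ} (W : Walk S n m) : ∀ i ≤ m, S.Eqv (n 0) (n i) := by
  intro i
  induction i with
  | zero => exact fun _ => Eqv.refl _ _
  | succ i ih => exact fun hi => (ih (by omega)).trans (W.nb i (by omega)).eqv

/-- the walk from the clockwise end of a fan -/
theorem exists_walk_bot (hl : S.Linear) {z : Sd I} (hz : z.1 ∈ S.F) (h : S.g z = z) :
    ∃ n m, Walk S n m ∧ n 0 = z := by
  classical
  obtain ⟨b, hb1, hb2, hb3⟩ := exists_top hl hz
  have hex : ∀ k, k ≤ S.ps b → ∃ c, S.Eqv z c ∧ S.ps c = k := by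
    intro k hk
    obtain ⟨c, hc1, hc2⟩ := exists_ps hl hk
    exact ⟨c, hb1.trans hc1, hc2⟩
  let n : ℕ → Sd I := fun k => if hk : k ≤ S.ps b then (hex k hk).choose else z
  have hn : ∀ k ≤ S.ps b, S.Eqv z (n k) ∧ S.ps (n k) = k := by
    intro k hk
    have := (hex k hk).choose_spec
    simp only [n, dif_pos hk]
    exact this
  have hn0 : n 0 = z := by
    have h1 := hn 0 (Nat.zero_le _)
    exact ps_inj hl h1.1.symm (by rw [h1.2, ps_of_unglued h])
  refine ⟨n, S.ps b, ⟨?_, ?_, ?_, ?_⟩, hn0⟩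
  · intro i hi
    have h1 := hn i (by omega)
    have h2 := hn (i + 1) (by omega)
    have h3 := ccw_of_ps hl (h1.1.symm.trans h2.1) (by rw [h1.2, h2.2])
    right
    rw [step_iff_cw]
    exact ⟨h3.2.1, h3.1.symm⟩
  · intro i j hi hj hij
    rw [← (hn i hi).2, hij, (hn j hj).2]
  · intro x hx
    rw [hn0] at hx
    refine ⟨S.ps x, hb3 x hx, ?_⟩
    have h1 := hn (S.ps x) (hb3 x hx)
    exact ps_inj hl (hx.symm.trans h1.1) h1.2.symm
  · intro i j hi hj hij
    have h1 := Nb.ps hl hij
    rw [(hn i hi).2, (hn j hj).2] at h1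
    omega

/-- the walk from the counterclockwise end of a fan -/
theorem exists_walk_top (hl : S.Linear) {z : Sd I} (h : S.g (unrot z) = unrot z) :
    ∃ n m, Walk S n m ∧ n 0 = z := by
  classical
  have hmax : ∀ x, S.Eqv z x → S.ps x ≤ S.ps z := by
    intro x hx
    by_contra hlt
    rw [not_le] at hlt
    exact unrot_glued_of_lt hl hx hlt h
  have hex : ∀ k, k ≤ S.ps z → ∃ c, S.Eqv z c ∧ S.ps c = k := fun k hk => exists_ps hl hk
  let n : ℕ → Sd I := fun k => if hk : S.ps z - k ≤ S.ps z then (hex _ hk).choose else z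
  have hn : ∀ k, S.Eqv z (n k) ∧ S.ps (n k) = S.ps z - k := by
    intro k
    have hk : S.ps z - k ≤ S.ps z := Nat.sub_le _ _
    have := (hex _ hk).choose_spec
    simp only [n, dif_pos hk]
    exact this
  have hn0 : n 0 = z := by
    have h1 := hn 0
    exact ps_inj hl h1.1.symm (by rw [h1.2, Nat.sub_zero])
  refine ⟨n, S.ps z, ⟨?_, ?_, ?_, ?_⟩, hn0⟩
  · intro i hi
    have h1 := hn i
    have h2 := hn (i + 1)
    have h3 := ccw_of_ps hl (h2.1.symm.trans h1.1) (by rw [h1.2, h2.2]; omega)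
    left
    rw [step_iff_cw]
    exact ⟨h3.2.1, h3.1.symm⟩
  · intro i j hi hj hij
    have h1 := (hn i).2
    have h2 := (hn j).2
    rw [hij, h2] at h1
    omega
  · intro x hx
    rw [hn0] at hx
    have h0 := hmax x hx
    refine ⟨S.ps z - S.ps x, Nat.sub_le _ _, ?_⟩
    have h1 := hn (S.ps z - S.ps x)
    exact ps_inj hl (hx.symm.trans h1.1) (by rw [h1.2]; omega)
  · intro i j hi hj hij
    have h1 := Nb.ps hl hij
    rw [(hn i).2, (hn j).2] at h1
    omega

/-- ALONG A WALK: `tau` is a set of triangles such that every crossing of its boundary at this visit has one of the four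
shapes; `n 0` is in `tau`, its triangle is not a face and not a blade.  If the diagonal between `n j` and `n (j+1)` is
blocked then `n 0, …, n j` are in `tau`. -/
theorem Walk.mem {n : ℕ → Sd I} {m : ℕ} (W : Walk S n m) {tau : Finset I} (h0 : (n 0).1 ∈ tau)
    (hf : ¬ S.Face (n 0).1) (hb : ∀ u, S.Blade u → u.1 ≠ (n 0).1)
    (hcr : ∀ x y, S.Eqv (n 0) x → Nb S x y → x.1 ∈ tau → y.1 ∉ tau →
      D1 S x y ∨ D2 S pt x y ∨ D1 S y x ∨ D2 S pt y x)
    {j : ℕ} (hj : j < m) (hbk : Bk S pt (n j) (n (j + 1))) : ∀ i ≤ j, (n i).1 ∈ tau := by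
  intro i
  induction i with
  | zero => exact fun _ => h0
  | succ i ih =>
    intro hi
    have hi1 := ih (by omega)
    by_contra hout
    have hne : ∀ a b, a ≤ m → b ≤ m → a ≠ b → n a ≠ n b := fun a b ha hb' hab h => hab (W.inj a b ha hb' h)
    rcases hcr (n i) (n (i + 1)) (W.eqv i (by omega)) (W.nb i (by omega)) hi1 hout with h | h | h | h
    · -- `n (i+1)` is a dead end
      have h1 := h.2 (n (i + 1 + 1)) (W.nb (i + 1) (by omega))
      exact hne _ _ (by omega) (by omega) (by omega) h1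
    · obtain ⟨_, y2, h1, h2, h3, h4, h5, _⟩ := h
      have h6 : n (i + 1 + 1) = y2 := by
        rcases h4 (n (i + 1 + 1)) (W.nb (i + 1) (by omega)) with h6 | h6
        · exact absurd h6 (hne _ _ (by omega) (by omega) (by omega))
        · exact h6
      rcases Nat.lt_or_ge (i + 1) j with h7 | h7
      · have h8 : n (i + 1 + 1 + 1) = n (i + 1) :=
          h5 _ (by rw [← h6]; exact W.nb (i + 1 + 1) (by omega))
        exact hne _ _ (by omega) (by omega) (by omega) h8
      · have h8 : j = i + 1 := by omega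
        rw [h8, h6] at hbk
        exact h3 hbk
    · -- `n i` is a dead end in a blade
      rcases Nat.eq_zero_or_pos i with h7 | h7
      · obtain ⟨⟨u, hu1, hu2⟩, _⟩ := h
        rw [h7] at hu2
        exact hb u hu1 hu2
      · obtain ⟨k, rfl⟩ : ∃ k, i = k + 1 := ⟨i - 1, by omega⟩
        have h8 : n k = n (k + 1 + 1) := h.2 _ (W.nb k (by omega)).symm
        exact hne _ _ (by omega) (by omega) (by omega) h8
    · obtain ⟨h0', y2, h1, h2, h3, h4, h5, h6⟩ := h
      rcases Nat.eq_zero_or_pos i with h7 | h7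
      · rw [h7] at h0'; exact hf h0'
      · obtain ⟨k, rfl⟩ : ∃ k, i = k + 1 := ⟨i - 1, by omega⟩
        have h8 : n k = y2 := by
          rcases h4 (n k) (W.nb k (by omega)).symm with h8 | h8
          · exact absurd h8 (hne _ _ (by omega) (by omega) (by omega))
          · exact h8
        rcases Nat.eq_zero_or_pos k with h9 | h9
        · obtain ⟨u, hu1, hu2⟩ := h6
          rw [← h8, h9] at hu2
          exact hb u hu1 hu2
        · obtain ⟨l, rfl⟩ : ∃ l, k = l + 1 := ⟨k - 1, by omega⟩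
          have h10 : n l = n (l + 1 + 1) := h5 _ (by rw [← h8]; exact (W.nb l (by omega)).symm)
          exact hne _ _ (by omega) (by omega) (by omega) h10

/-! ### the fan at the far end of a stub (6.7) -/

/-- the far corner of a real blade `u` across its counterclockwise side -/
theorem D1_unrot {u : Sd I} (h : S.Blade u) : D1 S (S.cw (unrot u)) (unrot u) := by
  refine ⟨⟨u, h, (unrot_fst u).symm⟩, ?_⟩
  intro y hy
  rw [nb_iff, unrot_unrot] at hy
  rcases hy with hy | hy
  · rw [hy.2, cw, if_neg h.2.1]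
  · exact absurd h.2.2.1 hy.1

/-- the far corner of a real blade `u` across its clockwise side -/
theorem D1_rot {u : Sd I} (h : S.Blade u) : D1 S (S.g u) (rot u) := by
  refine ⟨⟨u, h, (rot_fst u).symm⟩, ?_⟩
  intro y hy
  rw [nb_iff, unrot_rot] at hy
  rcases hy with hy | hy
  · exact absurd h.2.2.1 hy.1
  · exact hy.2

theorem virtA_face {w : Sd I} (h : S.VirtA pt w) : S.Face w.1 := by
  have := h.2.1.2
  rwa [S.invol] at this

theorem virtB_face {w : Sd I} (h : S.VirtB pt w) : S.Face w.1 := by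
  have := h.2.1.2
  rwa [S.invol] at this

/-- virtual blade with stub `w`: the fan of the corner `x = rot w` on the clockwise side is `rot w`, then the corner of the
blade triangle, dead end -/
theorem D2_virtA (hG : S.Geo pt) {w : Sd I} (h : S.VirtA pt w) (hw : S.g w ≠ w) :
    D2 S pt (S.g w) (rot w) := by
  have hgr : S.g (rot w) ≠ rot w := by
    have := h.2.1.1
    rw [S.invol] at this
    exact this.symm
  have hnb2 : ∀ y', Nb S (rot (S.g (rot w))) y' → y' = rot w := by
    intro y hy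
    rw [nb_iff, unrot_rot, S.invol] at hy
    rcases hy with hy | hy
    · exact absurd h.1.2.2.1 hy.1
    · exact hy.2
  refine ⟨by rw [rot_fst]; exact virtA_face h, rot (S.g (rot w)), ?_, ?_, ?_, ?_, hnb2, ⟨S.g (rot w), h.1, rfl⟩⟩
  · rw [nb_iff]
    exact Or.inl ⟨hgr, rfl⟩
  · -- the blade triangle is not the neighbour across `w`
    intro he
    have h1 := h.1.2.2.1
    rw [he] at h1
    exact (g_ne_iff.2 hw) h1
  · rintro (⟨_, h1⟩ | ⟨h1, h2⟩)
    · -- blocked at the start of `rot w`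
      rcases h.2.2 with h3 | h3
      · have h4 := h3.stop
        have h5 := h1.2
        rw [S.invol] at h4
        linarith
      · have h4 := hG.b1 h3.1.1
        rw [S.invol] at h4
        exact h4 h1
    · rw [Step] at h1
      exact h1.1 h.1.2.2.1
  · intro y hy
    rw [nb_iff, unrot_rot] at hy
    rcases hy with hy | hy
    · exact Or.inr hy.2
    · exact Or.inl hy.2

/-- virtual blade with stub `unrot w`: the fan of the corner `x = unrot w` on the counterclockwise side -/
theorem D2_virtB (hG : S.Geo pt) {w : Sd I} (h : S.VirtB pt w) (hw : S.g (unrot w) ≠ unrot w) :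
    D2 S pt (S.cw (unrot w)) (unrot w) := by
  have hgr : S.g (rot w) ≠ rot w := by
    have := h.2.1.1
    rw [S.invol] at this
    exact this.symm
  have hbase : S.g (unrot (S.g (rot w))) = unrot (S.g (rot w)) := by
    have := h.1.2.2.1
    rwa [rot_rot] at this
  have hnb2 : ∀ y', Nb S (S.g (rot w)) y' → y' = unrot w := by
    intro y hy
    rw [nb_iff, S.invol] at hy
    rcases hy with hy | hy
    · rw [hy.2, rot_rot]
    · exact absurd hbase hy.1
  refine ⟨by rw [unrot_fst]; exact virtB_face h, S.g (rot w), ?_, ?_, ?_, ?_, hnb2,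
    ⟨rot (S.g (rot w)), h.1, rfl⟩⟩
  · rw [nb_iff, unrot_unrot]
    exact Or.inr ⟨hgr, rfl⟩
  · intro he
    rw [cw, if_neg hw] at he
    have h1 := hbase
    rw [he, unrot_rot] at h1
    exact (g_ne_iff.2 hw) h1
  · rintro (⟨h1, _⟩ | ⟨_, h2⟩)
    · rw [step_iff_cw] at h1
      have h3 := h1.2
      rw [cw, if_neg hw] at h3
      have h4 := hbase
      rw [h3, unrot_rot] at h4
      exact (g_ne_iff.2 hw) h4
    · rcases h.2.2 with h3 | h3
      · have h4 := h3.start
        have h5 := h2.2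
        linarith
      · have h4 := hG.b1 h2
        have h5 := h3.1.b2
        rw [unrot_rot] at h5
        exact h4 h5
  · intro y hy
    rw [nb_iff, unrot_unrot] at hy
    rcases hy with hy | hy
    · left; rw [hy.2, cw, if_neg hw]
    · exact Or.inr hy.2

end Pool.Agent.Helper29.AG7
end

/- Helper29.AG7.BillB -/
section
/-!
# AG section 7.4: the bills (b) of the ear ends

`X` = region, `c` = apex corner of an eared triangle, `n 0, n 1, …` = corners of the visit of an end of the ear, beginning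
with the corner of the eared triangle.
-/

set_option autoImplicit false
set_option linter.unusedSectionVars false
open Finset

namespace Pool.Agent.Helper29.AG7

open _root_.AG _root_.AG.Obj

variable {I : Type} [DecidableEq I] {S : Obj I} {pt : Sd I → Pt} {X : Finset I}

/-- neighbouring corners in the region are in one visit of the region -/
theorem last_nb (hl : S.Linear) {x y : Sd I} (h : Nb S x y) (hx : x.1 ∈ X) (hy : y.1 ∈ X) :
    (S.keep X).last x = (S.keep X).last y := by
  have key : ∀ x y : Sd I, S.Step x y → x.1 ∈ X → y.1 ∈ X →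
      (S.keep X).last x = (S.keep X).last y := by
    intro x y h hx hy
    have h2 : (S.g x).1 ∈ X := by
      have := hy
      rw [h.2, rot_fst] at this
      exact this
    have h3 : (S.keep X).g x = S.g x := by rw [keep_g, if_pos ⟨hx, h2⟩]
    have h4 : (S.keep X).cw x = y := by
      rw [cw, h3, if_neg h.1, h.2]
    rw [← h4, last_cw (keep_linear hl X)]
  rcases h with h | h
  · exact key x y h hx hy
  · exact (key y x h hy hx).symm

theorem Walk.last_eq (hl : S.Linear) {n : ℕ → Sd I} {m : ℕ} (W : Walk S n m) {j : ℕ} (hj : j ≤ m)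
    (hin : ∀ i ≤ j, (n i).1 ∈ X) : (S.keep X).last (n 0) = (S.keep X).last (n j) := by
  induction j with
  | zero => rfl
  | succ j ih =>
    rw [ih (by omega) (fun i hi => hin i (by omega))]
    exact last_nb hl (W.nb j (by omega)) (hin j (by omega)) (hin (j + 1) le_rfl)

/-- a side blocked at the visit of the walk -/
theorem Walk.of_blk {n : ℕ → Sd I} {m : ℕ} (W : Walk S n m) {a : Sd I} (hb : S.Blk pt a)
    (he : S.Eqv (n 0) a) : ∃ i < m, Bk S pt (n i) (n (i + 1)) ∧
      ((a = n i ∧ S.cw a = n (i + 1)) ∨ (a = n (i + 1) ∧ S.cw a = n i)) := by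
  have hs : S.Step a (S.cw a) := step_iff_cw.2 ⟨hb.1, rfl⟩
  obtain ⟨i, hi, h1⟩ := W.all a he
  obtain ⟨k, hk, h2⟩ := W.all (S.cw a) (he.trans (S.cw_eqv a))
  have hnb : Nb S (n i) (n k) := by rw [← h1, ← h2]; exact Or.inl hs
  rcases W.adj i k hi hk hnb with h3 | h3
  · subst h3
    refine ⟨i, by omega, ?_, Or.inl ⟨h1, h2⟩⟩
    rw [← h1, ← h2]
    exact Or.inl ⟨hs, hb⟩
  · subst h3
    refine ⟨k, by omega, ?_, Or.inr ⟨h1, h2⟩⟩
    rw [← h1, ← h2]
    exact Or.inr ⟨hs, hb⟩

theorem not_step_both (hl : S.Linear) {x y : Sd I} (h : S.Step x y) (h' : S.Step y x) : False := by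
  rw [step_iff_cw] at h h'
  have h1 := ps_of_glued hl h.1
  have h2 := ps_of_glued hl h'.1
  rw [← h.2] at h1
  rw [← h'.2] at h2
  omega

/-- two corners of an ear end: the corner of the walk after the first one is not a corner of an eared triangle at its
ear -/
theorem ear_corner (hB : Base S pt) {c c' z x : Sd I} (hc : S.Eared c) (hc' : S.Eared c')
    (hz : z = rot c ∨ z = unrot c) (hx : x = rot c' ∨ x = unrot c') (he : S.Eqv z x) : z = x := by
  have hl := hB.lin
  have u1 := S.earFree _ hc.2.2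
  have u2 := S.earFree _ hc'.2.2
  rcases hz with rfl | rfl <;> rcases hx with rfl | rfl
  · have := (eqv_iff hl).1 he
    rwa [last_of_unglued u1, last_of_unglued u2] at this
  · exfalso
    have := hB.ear_se (rot c) hc.2.2 (rot c') hc'.2.2
    rw [rot_rot] at this
    exact this he
  · exfalso
    have := hB.ear_se (rot c') hc'.2.2 (rot c) hc.2.2
    rw [rot_rot] at this
    exact this he.symm
  · rcases Nat.lt_trichotomy (S.ps (unrot c)) (S.ps (unrot c')) with h1 | h1 | h1
    · have := unrot_glued_of_lt hl he h1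
      rw [unrot_unrot] at this
      exact absurd u1 this
    · exact ps_inj hl he h1
    · have := unrot_glued_of_lt hl he.symm h1
      rw [unrot_unrot] at this
      exact absurd u2 this

theorem earEnd_of (hc : Sd I) (h : S.Eared hc) {z : Sd I} (hz : z = rot hc ∨ z = unrot hc) :
    S.EarEnd z := by
  refine ⟨rot hc, h.2.2, ?_⟩
  rcases hz with rfl | rfl
  · exact Or.inl (Eqv.refl _ _)
  · right; rw [rot_rot]; exact Eqv.refl _ _

/-- MAIN LEMMA of 7.4 -/
theorem ear_slot (H : RHyp S pt X) (hB : Base S pt) {n : ℕ → Sd I} {m : ℕ} (W : Walk S n m)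
    {tau : Finset I} (hsub : tau ⊆ X) {c : Sd I} (hc : S.Eared c) (h0 : c.1 ∈ tau)
    (hz : n 0 = rot c ∨ n 0 = unrot c)
    (hcr : ∀ x y, S.Eqv (n 0) x → Nb S x y → x.1 ∈ tau → y.1 ∉ tau →
      D1 S x y ∨ D2 S pt x y ∨ D1 S y x ∨ D2 S pt y x)
    (hu : ∀ c', S.Eared c' → c'.1 ∈ tau → c' = c)
    (hk0 : 0 < m → ¬ Bk S pt (n 0) (n 1)) :
    (S.keep X).last (n 0) ∈ H.reg.zeros ∨
      ∃ y ∈ H.reg.unused, y.1 ∈ tau ∧ H.reg.bl y.2 = some ((S.keep X).last (n 0)) := by
  classical
  have hl := hB.lin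
  have hz1 : (n 0).1 = c.1 := by rcases hz with h | h <;> rw [h] <;> rfl
  have hn0 : (n 0).1 ∈ tau := by rw [hz1]; exact h0
  have hend : S.EarEnd (n 0) := earEnd_of c hc hz
  have hnob : ∀ w, S.BladeAt pt w → ¬ S.Eqv (n 0) w := fun w hw he => hB.earEnd _ w hend hw he
  by_cases hex : ∃ i, i < m ∧ Bk S pt (n i) (n (i + 1))
  · right
    obtain ⟨hj, hbk⟩ := Nat.find_spec hex
    have hmin : ∀ i, i < Nat.find hex → ¬ Bk S pt (n i) (n (i + 1)) := fun i hi h =>
      Nat.find_min hex hi ⟨by omega, h⟩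
    generalize Nat.find hex = j at hj hbk hmin
    have hjpos : 0 < j := by
      rcases Nat.eq_zero_or_pos j with h | h
      · subst h
        exact absurd hbk (hk0 hj)
      · exact h
    have hmem : ∀ i ≤ j, (n i).1 ∈ tau :=
      W.mem hn0 (by rw [hz1]; exact eared_not_face hc)
        (fun u hu' => by rw [hz1]; exact blade_not_eared hu' hc) hcr hj hbk
    have hX : ∀ i ≤ j, (n i).1 ∈ X := fun i hi => hsub (hmem i hi)
    have hlast := W.last_eq (X := X) hl hj.le hX
    have hej : S.Eqv (n 0) (n j) := W.eqv j hj.le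
    -- `n j` is a face
    have hface : S.Face (n j).1 := by
      rcases H.three _ (H.sub (hX j le_rfl)) with h | ⟨u, hu1, hu2⟩ | ⟨u, hu1, hu2⟩
      · exact h
      · exfalso
        have hprev : Nb S (n j) (n (j - 1)) := by
          have := W.nb (j - 1) (by omega)
          rw [Nat.sub_add_cancel hjpos] at this
          exact this.symm
        have hnext : Nb S (n j) (n (j + 1)) := W.nb j hj
        have hdiff : n (j - 1) ≠ n (j + 1) := fun h => by
          have := W.inj (j - 1) (j + 1) (by omega) (by omega) h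
          omega
        rcases eq_of_fst_eq hu1.symm with h | h | h
        · exact hnob u (Blade.bladeAt hu2) (by rw [← h]; exact hej)
        · have hd := (D1_rot hu2).2
          rw [← h] at hd
          exact hdiff ((hd _ hprev).trans (hd _ hnext).symm)
        · have hd := (D1_unrot hu2).2
          rw [← h] at hd
          exact hdiff ((hd _ hprev).trans (hd _ hnext).symm)
      · exfalso
        have hu3 : u.1 ∈ tau := by rw [hu1]; exact hmem j le_rfl
        have hu4 : u = c := hu u hu2 hu3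
        have hF : (n j).1 ∈ S.F := H.sub (hX j le_rfl)
        have h5 : n j = n 0 := hB.tri (n j) (n 0) hF (by rw [hz1, ← hu1, hu4]) hej.symm
        have := W.inj j 0 hj.le (by omega) h5
        omega
    -- the blocked side
    obtain ⟨a, hba, haj⟩ : ∃ a, S.Blk pt a ∧
        ((a = n j ∧ S.cw a = n (j + 1)) ∨ (a = n (j + 1) ∧ S.cw a = n j)) := by
      rcases hbk with ⟨h1, h2⟩ | ⟨h1, h2⟩
      · exact ⟨n j, h2, Or.inl ⟨rfl, (step_iff_cw.1 h1).2.symm⟩⟩
      · exact ⟨n (j + 1), h2, Or.inr ⟨rfl, (step_iff_cw.1 h1).2.symm⟩⟩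
    have hinc : dg S a ∈ inc S (n j).1 := by
      rw [dg_mem_inc_iff hba.1]
      rcases haj with ⟨h1, _⟩ | ⟨_, h1⟩
      · left; rw [h1]
      · right; rw [← h1, cw_of_glued hba.1, rot_fst]
    have hvz : vz S X a = (S.keep X).last (n 0) := by
      rw [hlast]
      rcases haj with ⟨h1, _⟩ | ⟨h1, h2⟩
      · rw [vz, if_pos (by rw [h1]; exact hX j le_rfl), h1]
      · by_cases h3 : a.1 ∈ X
        · rw [vz, if_pos h3, h1]
          rw [h1] at h3
          exact last_nb hl (W.nb j hj).symm h3 (hX j le_rfl)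
        · rw [vz, if_neg h3, ← h2, cw_of_glued hba.1]
    have hbl : H.reg.bl (dg S a) = some ((S.keep X).last (n 0)) := by
      rw [← hvz]
      exact bl_of_blk H.b1 hba
    refine ⟨((n j).1, dg S a), ?_, hmem j le_rfl, hbl⟩
    apply H.reg.unused_of (mem_faces.2 ⟨hX j le_rfl, hface⟩) hinc hbl
    · -- other diagonals of the face at this visit
      intro d' hd' hd2
      obtain ⟨a', ha1, rfl, ha3, ha4⟩ := (Helper41.AG7.mem_A' H).1 hd'
      have he' : S.Eqv (n 0) a' := by
        have h1 : S.Eqv a' (vz S X a') := vz_eqv ha3.1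
        have h2 : S.Eqv (n 0) ((S.keep X).last (n 0)) :=
          (last_eqv (S.keep X) (n 0)).mono (keep_le S X)
        rw [ha4] at h1
        exact h2.trans h1.symm
      obtain ⟨i, hi, hbi, hai⟩ := W.of_blk ha3 he'
      have hF : (n j).1 ∈ S.F := H.sub (hX j le_rfl)
      have hij : i = j ∨ i + 1 = j := by
        rcases (dg_mem_inc_iff ha3.1).1 hd2 with h | h
        · have h1 : n j = a' := hB.tri (n j) a' hF h.symm (hej.symm.trans he')
          rcases hai with ⟨h2, _⟩ | ⟨h2, _⟩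
          · left; exact W.inj i j (by omega) hj.le (by rw [← h2, h1])
          · right; exact W.inj (i + 1) j (by omega) hj.le (by rw [← h2, h1])
        · have h1 : n j = S.cw a' := by
            apply hB.tri (n j) (S.cw a') hF
            · rw [cw_fst ha3.1, ← h]
            · exact (hej.symm.trans he').trans (S.cw_eqv a')
          rcases hai with ⟨_, h2⟩ | ⟨_, h2⟩
          · right; exact W.inj (i + 1) j (by omega) hj.le (by rw [← h2, h1])
          · left; exact W.inj i j (by omega) hj.le (by rw [← h2, h1])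
      rcases hij with h | h
      · subst h
        congr 1
        rcases haj with ⟨h1, h2⟩ | ⟨h1, h2⟩ <;> rcases hai with ⟨h3, h4⟩ | ⟨h3, h4⟩
        · rw [h1, h3]
        · exfalso
          refine not_step_both hl (x := n i) (y := n (i + 1)) ?_ ?_
          · rw [← h1, ← h2]; exact step_iff_cw.2 ⟨hba.1, rfl⟩
          · rw [← h3, ← h4]; exact step_iff_cw.2 ⟨ha3.1, rfl⟩
        · exfalso
          refine not_step_both hl (x := n i) (y := n (i + 1)) ?_ ?_
          · rw [← h3, ← h4]; exact step_iff_cw.2 ⟨ha3.1, rfl⟩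
          · rw [← h1, ← h2]; exact step_iff_cw.2 ⟨hba.1, rfl⟩
        · rw [h1, h3]
      · exact absurd hbi (hmin i (by omega))
    · -- no blade hosts a pair at this visit
      intro t ht hA _
      obtain ⟨_, u, rfl, hu2⟩ := mem_blades.1 ht
      have hA' : Aw S X (S.Blk pt) ((S.keep X).last (n 0)) = inc S u.1 := hA
      have hp := H.pair_of hu2 rfl hA'
      have h1 : dg S u ∈ Aw S X (S.Blk pt) ((S.keep X).last (n 0)) := by
        rw [hA']; exact dg_mem_inc hu2.1
      have h2 := (mem_filter.1 h1).2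
      rw [bl_of_blk H.b1 hp.1] at h2
      have h3 : vz S X u = (S.keep X).last (n 0) := Option.some.inj h2
      have h4 : S.Eqv u (vz S X u) := vz_eqv hu2.1
      have h5 : S.Eqv (n 0) ((S.keep X).last (n 0)) :=
        (last_eqv (S.keep X) (n 0)).mono (keep_le S X)
      rw [h3] at h4
      exact hnob u (Blade.bladeAt hu2) (h5.trans h4.symm)
  · left
    rw [Helper41.AG7.mem_zeros]
    constructor
    · apply last_mem_vis (keep_linear hl X)
      rw [mem_sides, keep_F S H.sub]
      exact hsub hn0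
    · intro a ha hba hv
      have h1 : S.Eqv a (vz S X a) := vz_eqv hba.1
      have h2 : S.Eqv (n 0) ((S.keep X).last (n 0)) :=
        (last_eqv (S.keep X) (n 0)).mono (keep_le S X)
      rw [hv] at h1
      obtain ⟨i, hi, hbi, _⟩ := W.of_blk hba (h2.trans h1.symm)
      exact hex ⟨i, hi, hbi⟩

end Pool.Agent.Helper29.AG7
end
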