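import Pool.Agent.Helper16.VGG.G08
import Pool.Agent.Helper16.VGG.G09
import Pool.Agent.Helper16.VGG.G12
import Pool.Agent.Helper16.VGG.G14

/- AG.Pair.Cutting -/
section
/-!
# Project AG, block 5 (pair rule): the cuts

`cut_nonadj`: two abstract blades at one visit whose removed sets are disjoint and not joined by a
glued side: the two stub sides form a 2-cut.
`adj_step`: the same for adjacent blades (one glued side between the removed sets); moreover the
common side is the stub of none of them.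
-/

set_option linter.unusedSectionVars false
set_option linter.unusedSimpArgs false

namespace AG

open Finset

variable {I : Type} [DecidableEq I]

namespace Obj

theorem bd_asymm {S : Obj I} {T : Finset I} {a : Sd I} (h : a ∈ S.bd T) : S.g a ∉ S.bd T := by
  intro h'
  rw [mem_bd] at h h'
  exact h.2.2 h'.2.1

theorem no_edge {S : Obj I} (hc : S.Conn) {T : Finset I} (hT : T ⊆ S.F) (hne : T.Nonempty)
    (hTF : T ≠ S.F) (h : ∀ a, a ∉ S.bd T) : False := by
  obtain ⟨a, ha⟩ := hc.2 T hT hne hTF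
  exact h a ha

theorem one_edge {S : Obj I} (hc : S.Conn) (hB : S.Bridgeless) {T : Finset I} (hT : T ⊆ S.F)
    (hne : T.Nonempty) (hTF : T ≠ S.F) {s : Sd I} (h : ∀ a ∈ S.bd T, a = s) : False := by
  have h1 := hc.2 T hT hne hTF
  have h2 := hB.two_le hT h1
  have h3 : S.bd T ⊆ {s} := fun a ha => mem_singleton.2 (h a ha)
  have h4 := card_le_card h3
  rw [card_singleton] at h4
  omega

theorem two_edges {S : Obj I} (hc : S.Conn) (hB : S.Bridgeless) {T : Finset I} (hT : T ⊆ S.F)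
    (hne : T.Nonempty) (hTF : T ≠ S.F) {s₁ s₂ : Sd I}
    (h : ∀ a ∈ S.bd T, (a = s₁ ∨ a = S.g s₁) ∨ (a = s₂ ∨ a = S.g s₂)) :
    ∃ e₁ e₂, (e₁ = s₁ ∨ e₁ = S.g s₁) ∧ (e₂ = s₂ ∨ e₂ = S.g s₂) ∧ S.bd T = {e₁, e₂} ∧
      e₁ ≠ e₂ := by
  have h1 := hc.2 T hT hne hTF
  have h2 := hB.two_le hT h1
  obtain ⟨a, ha, b, hb, hab⟩ := one_lt_card.1 (show 1 < (S.bd T).card by omega)
  -- two elements of the boundary in `{s, g s}` are equal
  have key : ∀ s : Sd I, ∀ x ∈ S.bd T, ∀ z ∈ S.bd T, (x = s ∨ x = S.g s) →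
      (z = s ∨ z = S.g s) → x = z := by
    rintro s x hx z hz (hx1 | hx1) (hz1 | hz1)
    · rw [hx1, hz1]
    · subst hx1; subst hz1; exact absurd hz (bd_asymm hx)
    · subst hx1; subst hz1; exact absurd hx (bd_asymm hz)
    · rw [hx1, hz1]
  have fin : ∀ x ∈ S.bd T, ∀ z ∈ S.bd T, (x = s₁ ∨ x = S.g s₁) → (z = s₂ ∨ z = S.g s₂) →
      x ≠ z → ∃ e₁ e₂, (e₁ = s₁ ∨ e₁ = S.g s₁) ∧ (e₂ = s₂ ∨ e₂ = S.g s₂) ∧
        S.bd T = {e₁, e₂} ∧ e₁ ≠ e₂ := by
    intro x hx z hz h3 h4 h5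
    refine ⟨x, z, h3, h4, ?_, h5⟩
    refine subset_antisymm (fun u hu => ?_) (insert_subset hx (singleton_subset_iff.2 hz))
    rw [mem_insert, mem_singleton]
    rcases h u hu with h6 | h6
    · exact Or.inl (key s₁ u hu x hx h6 h3)
    · exact Or.inr (key s₂ u hu z hz h6 h4)
  rcases h a ha with h3 | h3
  · rcases h b hb with h4 | h4
    · exact absurd (key s₁ a ha b hb h3 h4) hab
    · exact fin a ha b hb h3 h4 hab
  · rcases h b hb with h4 | h4
    · exact fin b hb a ha h4 h3 hab.symm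
    · exact absurd (key s₂ a ha b hb h3 h4) hab

theorem keep_unglued {S : Obj I} {X : Finset I} {a : Sd I} (h : (S.g a).1 ∉ X) :
    (S.keep X).g a = a := by
  rw [keep_g, if_neg fun h' => h h'.2]

/-- the count for two removed sets -/
theorem N2_two {S : Obj I} {pt : Sd I → Pt} {R : Set Pt} {c₁ c₂ σ₁ σ₂ y₁ y₂ : Sd I}
    {rm₁ rm₂ : Finset I} {G₁ G₂ : Finset (Sd I)} (b₁ : S.Bld pt R c₁ rm₁ σ₁ G₁ y₁)
    (b₂ : S.Bld pt R c₂ rm₂ σ₂ G₂ y₂) (hd : Disjoint rm₁ rm₂) :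
    (S.keep (S.F \ (rm₁ ∪ rm₂))).N2 0
      + 2 * ((S.bd rm₁).filter (fun a => (S.g a).1 ∈ rm₂)).card = S.N2 0 := by
  have h1 := N2_rmSet S (union_subset b₁.sub b₂.sub)
    (fun a ha h => (mem_union.1 h).elim (b₁.ears a ha) (b₂.ears a ha)) 0
  have h2 := card_bd_union S hd
  have h3 : (S.bd rm₁).card = G₁.card + 1 := by
    rw [b₁.bd, card_insert_of_notMem b₁.nin]
  have h4 : (S.bd rm₂).card = G₂.card + 1 := by
    rw [b₂.bd, card_insert_of_notMem b₂.nin]
  have h5 : (S.vis.filter (fun a => a.1 ∈ rm₁ ∪ rm₂)).card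
      = (S.vis.filter (fun a => a.1 ∈ rm₁)).card + (S.vis.filter (fun a => a.1 ∈ rm₂)).card := by
    rw [← card_union_of_disjoint]
    · congr 1
      ext a
      simp only [mem_filter, mem_union]
      tauto
    · rw [disjoint_left]
      intro a ha hb
      exact disjoint_left.1 hd (mem_filter.1 ha).2 (mem_filter.1 hb).2
  have h6 : (rm₁ ∪ rm₂).card = rm₁.card + rm₂.card := card_union_of_disjoint hd
  have h7 := b₁.card
  have h8 := b₂.card
  omega

section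

variable {S : Obj I} {pt : Sd I → Pt} {R : Set Pt} {c₁ c₂ σ₁ σ₂ y₁ y₂ : Sd I}
    {rm₁ rm₂ : Finset I} {G₁ G₂ : Finset (Sd I)}

/-- the last corner of the fan is not in a removed triangle -/
theorem Bld.last_notMem (hL : S.Linear) (b₁ : S.Bld pt R c₁ rm₁ σ₁ G₁ y₁) {c : Sd I}
    (h : S.Eqv c c₁) : (S.last c).1 ∉ rm₁ := by
  intro h1
  have h2 := b₁.only _ h1 ((last_eqv S c).symm.trans h)
  have h3 := last_unglued hL c
  rw [h2] at h3
  exact b₁.glued h3

/-- the corner before `c` in the fan is not in the removed set of the blade at `c` -/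
theorem Bld.prev (b₁ : S.Bld pt R c₁ rm₁ σ₁ G₁ y₁) : (S.g (unrot c₁)).1 ∉ rm₁ :=
  (mem_bd.1 b₁.uc_mem).2.2

theorem Bld.prev_eqv (b₁ : S.Bld pt R c₁ rm₁ σ₁ G₁ y₁) : S.Eqv (S.g (unrot c₁)) c₁ := by
  have h := Eqv.of_glued' (mem_bd.1 b₁.uc_mem).1
  rw [rot_unrot] at h
  exact h.symm

/-- PAIR RULE, blades which are not adjacent -/
theorem cut_nonadj (hS : Cex S pt R) (hB : S.Bridgeless) (hL : S.Linear)
    (b₁ : S.Bld pt R c₁ rm₁ σ₁ G₁ y₁) (b₂ : S.Bld pt R c₂ rm₂ σ₂ G₂ y₂)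
    (he : S.Eqv c₁ c₂) (hne : c₁ ≠ c₂) (hd : Disjoint rm₁ rm₂)
    (hna : ∀ a ∈ S.bd rm₁, (S.g a).1 ∉ rm₂) :
    ∃ T ⊆ S.F, ∃ e₁ e₂, (e₁ = σ₁ ∨ e₁ = S.g σ₁) ∧ (e₂ = σ₂ ∨ e₂ = S.g σ₂) ∧
      S.bd T = {e₁, e₂} ∧ e₁ ≠ e₂ := by
  classical
  have hna' : ∀ a ∈ S.bd rm₂, (S.g a).1 ∉ rm₁ := by
    intro a ha h
    rw [mem_bd] at ha
    refine hna (S.g a) ?_ (by rw [S.invol]; exact ha.2.1)
    rw [mem_bd, S.invol]
    exact ⟨ne_comm.1 ha.1, h, fun h1 => disjoint_left.1 hd h1 ha.2.1⟩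
  set X : Finset I := S.F \ (rm₁ ∪ rm₂) with hXdef
  have hX : X ⊆ S.F := sdiff_subset
  have hmemX : ∀ t ∈ S.F, t ∉ rm₁ → t ∉ rm₂ → t ∈ X := fun t h1 h2 h3 =>
    mem_sdiff.2 ⟨h1, fun h4 => (mem_union.1 h4).elim h2 h3⟩
  have hXrm₁ : ∀ t ∈ X, t ∉ rm₁ := fun t ht h => (mem_sdiff.1 ht).2 (mem_union_left _ h)
  have hXrm₂ : ∀ t ∈ X, t ∉ rm₂ := fun t ht h => (mem_sdiff.1 ht).2 (mem_union_right _ h)
  -- the three copies of the visit
  set w₁ := S.g (unrot c₁) with hw₁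
  set w₂ := S.g (unrot c₂) with hw₂
  set w₃ := S.last c₁ with hw₃
  have hg₁ : S.g (unrot c₁) ≠ unrot c₁ := (mem_bd.1 b₁.uc_mem).1
  have hg₂ : S.g (unrot c₂) ≠ unrot c₂ := (mem_bd.1 b₂.uc_mem).1
  have hw₁X : w₁.1 ∈ X := hmemX _ (g_memF hg₁) b₁.prev (hna _ b₁.uc_mem)
  have hw₂X : w₂.1 ∈ X := hmemX _ (g_memF hg₂) (hna' _ b₂.uc_mem) b₂.prev
  have hw₃F : w₃.1 ∈ S.F := by
    have := last_mem_vis hL (a := c₁) (mem_sides.2 (b₁.sub b₁.mem))
    exact (mem_vis.1 this).1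
  have hw₃X : w₃.1 ∈ X := hmemX _ hw₃F (b₁.last_notMem hL (Eqv.refl _ _)) (b₂.last_notMem hL he)
  have h12 : w₁ ≠ w₂ := fun h => hne (by
    have h1 := S.g_injective h
    rw [← rot_unrot c₁, h1, rot_unrot])
  have hun₃ : S.g w₃ = w₃ := last_unglued hL c₁
  have h13 : w₁ ≠ w₃ := fun h => by
    rw [← h, hw₁, S.invol] at hun₃
    exact hg₁ hun₃.symm
  have h23 : w₂ ≠ w₃ := fun h => by
    rw [← h, hw₂, S.invol] at hun₃
    exact hg₂ hun₃.symm
  have hk₁ : (S.keep X).g w₁ = w₁ := keep_unglued (by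
    rw [hw₁, S.invol]; exact fun h => hXrm₁ _ h b₁.mem)
  have hk₂ : (S.keep X).g w₂ = w₂ := keep_unglued (by
    rw [hw₂, S.invol]; exact fun h => hXrm₂ _ h b₂.mem)
  have hk₃ : (S.keep X).g w₃ = w₃ := by
    rcases (keep_le S X).g w₃ with h | h
    · rw [h, hun₃]
    · exact h
  have hLX : (S.keep X).Linear := Linear.mono (keep_le S X) hL
  have hW : ∀ w ∈ ({w₁, w₂, w₃} : Finset (Sd I)), (S.keep X).last w = w := by
    intro w hw
    rw [mem_insert, mem_insert, mem_singleton] at hw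
    rcases hw with h | h | h <;> subst h
    · exact last_of_unglued hk₁
    · exact last_of_unglued hk₂
    · exact last_of_unglued hk₃
  have hcard : ({w₁, w₂, w₃} : Finset (Sd I)).card = 3 := by
    rw [card_insert_of_notMem, card_insert_of_notMem, card_singleton]
    · rw [mem_singleton]; exact h23
    · rw [mem_insert, mem_singleton]; rintro (h | h)
      · exact h12 h
      · exact h13 h
  have hfil : (S.bd rm₁).filter (fun a => (S.g a).1 ∈ rm₂) = ∅ :=
    filter_eq_empty_iff.2 fun a ha => hna a ha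
  have hN := N2_two b₁ b₂ hd
  rw [hfil, card_empty] at hN
  obtain ⟨Y, hYX, hYne, hYneX, hYc, hYl⟩ := not_linked hS hB b₁ b₂ he
    (fun a ha h => absurd h (hna a (b₁.G_mem ha))) (fun a ha h => absurd h (hna' a (b₂.G_mem ha)))
    (W := {w₁, w₂, w₃})
    (by
      intro w hw
      rw [mem_insert, mem_insert, mem_singleton] at hw
      rcases hw with h | h | h <;> subst h
      · exact hw₁X
      · exact hw₂X
      · exact hw₃X)
    (by
      intro w hw
      rw [mem_insert, mem_insert, mem_singleton] at hw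
      rcases hw with h | h | h <;> subst h
      · exact b₁.prev_eqv
      · exact b₂.prev_eqv.trans he.symm
      · exact (last_eqv S c₁).symm)
    (by
      intro w hw w' hw' h
      rw [eqv_iff hLX, hW w hw, hW w' hw'] at h
      exact h)
    ⟨w₁, mem_insert_self _ _⟩
    (by rw [hcard]; omega)
  rw [← hXdef] at hYX hYneX hYc hYl
  -- the groups
  have grp₁ : ∀ a ∈ G₁, ∀ b ∈ G₁, (S.g a).1 ∈ Y → (S.g b).1 ∈ Y := by
    intro a ha b hb h
    obtain ⟨p, hp1, hp2⟩ := b₁.link' ha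
    obtain ⟨q, hq1, hq2⟩ := b₁.link' hb
    have hb' := mem_bd.1 (b₁.G_mem hb)
    have h1 : (S.g b).1 ∈ X := hmemX _ (g_memF hb'.1) hb'.2.2 (hna _ (b₁.G_mem hb))
    have := hYl p q (hp2.symm.trans hq2) (fun h2 => b₁.ny (hp2.trans h2))
      (by rw [hp1]; exact h) (by rw [hq1]; exact h1)
    rwa [hq1] at this
  have grp₂ : ∀ a ∈ G₂, ∀ b ∈ G₂, (S.g a).1 ∈ Y → (S.g b).1 ∈ Y := by
    intro a ha b hb h
    obtain ⟨p, hp1, hp2⟩ := b₂.link' ha
    obtain ⟨q, hq1, hq2⟩ := b₂.link' hb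
    have hb' := mem_bd.1 (b₂.G_mem hb)
    have h1 : (S.g b).1 ∈ X := hmemX _ (g_memF hb'.1) (hna' _ (b₂.G_mem hb)) hb'.2.2
    have := hYl p q (hp2.symm.trans hq2) (fun h2 => b₂.ny (hp2.trans (h2.trans he)))
      (by rw [hp1]; exact h) (by rw [hq1]; exact h1)
    rwa [hq1] at this
  -- the set
  let T : Finset I := Y ∪ ((if ∃ a ∈ G₁, (S.g a).1 ∈ Y then rm₁ else ∅)
    ∪ (if ∃ a ∈ G₂, (S.g a).1 ∈ Y then rm₂ else ∅))
  have hmemT : ∀ t, t ∈ T ↔ t ∈ Y ∨ ((∃ a ∈ G₁, (S.g a).1 ∈ Y) ∧ t ∈ rm₁) ∨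
      ((∃ a ∈ G₂, (S.g a).1 ∈ Y) ∧ t ∈ rm₂) := by
    intro t
    simp only [T, mem_union]
    by_cases h1 : ∃ a ∈ G₁, (S.g a).1 ∈ Y <;> by_cases h2 : ∃ a ∈ G₂, (S.g a).1 ∈ Y <;>
      simp [h1, h2]
  have hTF : T ⊆ S.F := by
    intro t ht
    rcases (hmemT t).1 ht with h | ⟨_, h⟩ | ⟨_, h⟩
    · exact hX (hYX h)
    · exact b₁.sub h
    · exact b₂.sub h
  have hYT : Y ⊆ T := fun t ht => (hmemT t).2 (Or.inl ht)
  have hTne : T ≠ S.F := by
    intro h
    obtain ⟨s, hs1, hs2⟩ : ∃ s ∈ X, s ∉ Y := by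
      by_contra hcon
      push_neg at hcon
      exact hYneX (subset_antisymm hYX hcon)
    have h1 : s ∈ T := by rw [h]; exact hX hs1
    rcases (hmemT s).1 h1 with h2 | ⟨_, h2⟩ | ⟨_, h2⟩
    · exact hs2 h2
    · exact hXrm₁ s hs1 h2
    · exact hXrm₂ s hs1 h2
  obtain ⟨e₁, e₂, h1, h2, h3, h4⟩ := two_edges hS.conn hB hTF (hYne.mono hYT) hTne
    (s₁ := σ₁) (s₂ := σ₂) (by
    intro a ha
    rw [mem_bd] at ha
    obtain ⟨ha1, ha2, ha3⟩ := ha
    have ha3' := fun h => ha3 ((hmemT _).2 h)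
    rcases (hmemT _).1 ha2 with h | ⟨⟨b, hb1, hb2⟩, h⟩ | ⟨⟨b, hb1, hb2⟩, h⟩
    · by_cases h5 : (S.g a).1 ∈ rm₁
      · have h6 : S.g a ∈ S.bd rm₁ := by
          rw [mem_bd, S.invol]
          exact ⟨ne_comm.1 ha1, h5, hXrm₁ _ (hYX h)⟩
        rw [b₁.bd, mem_insert] at h6
        rcases h6 with h6 | h6
        · exact Or.inl (Or.inr (by rw [← h6, S.invol]))
        · exact absurd (Or.inr (Or.inl ⟨⟨S.g a, h6, by rw [S.invol]; exact h⟩, h5⟩)) ha3'
      · by_cases h7 : (S.g a).1 ∈ rm₂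
        · have h6 : S.g a ∈ S.bd rm₂ := by
            rw [mem_bd, S.invol]
            exact ⟨ne_comm.1 ha1, h7, hXrm₂ _ (hYX h)⟩
          rw [b₂.bd, mem_insert] at h6
          rcases h6 with h6 | h6
          · exact Or.inr (Or.inr (by rw [← h6, S.invol]))
          · exact absurd (Or.inr (Or.inr ⟨⟨S.g a, h6, by rw [S.invol]; exact h⟩, h7⟩)) ha3'
        · exact absurd (Or.inl (hYc a ha1 h (hmemX _ (g_memF ha1) h5 h7))) ha3'
    · have h6 : a ∈ S.bd rm₁ := mem_bd.2 ⟨ha1, h, fun h7 => ha3' (Or.inr (Or.inl ⟨⟨b, hb1, hb2⟩, h7⟩))⟩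
      rw [b₁.bd, mem_insert] at h6
      rcases h6 with h6 | h6
      · exact Or.inl (Or.inl h6)
      · exact absurd (Or.inl (grp₁ b hb1 a h6 hb2)) ha3'
    · have h6 : a ∈ S.bd rm₂ := mem_bd.2 ⟨ha1, h, fun h7 => ha3' (Or.inr (Or.inr ⟨⟨b, hb1, hb2⟩, h7⟩))⟩
      rw [b₂.bd, mem_insert] at h6
      rcases h6 with h6 | h6
      · exact Or.inr (Or.inl h6)
      · exact absurd (Or.inl (grp₂ b hb1 a h6 hb2)) ha3')
  exact ⟨T, hTF, e₁, e₂, h1, h2, h3, h4⟩

/-- the data of the adjacent case: `κ` is the only glued side from `rm₁` to `rm₂`, `W` two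
different copies of the visit.  The part is not linked. -/
theorem not_linked_adj (hS : Cex S pt R) (hB : S.Bridgeless) (hL : S.Linear)
    (b₁ : S.Bld pt R c₁ rm₁ σ₁ G₁ y₁) (b₂ : S.Bld pt R c₂ rm₂ σ₂ G₂ y₂)
    (hst : S.Step c₁ c₂) (hd : Disjoint rm₁ rm₂)
    (huniq : ∀ a ∈ S.bd rm₁, (S.g a).1 ∈ rm₂ → a = c₁) :
    ∃ Y ⊆ S.F \ (rm₁ ∪ rm₂), Y.Nonempty ∧ Y ≠ S.F \ (rm₁ ∪ rm₂) ∧
      S.Closed (S.F \ (rm₁ ∪ rm₂)) Y ∧
      ∀ p q, S.Eqv p q → ¬ S.Eqv p c₁ → p.1 ∈ Y → q.1 ∈ S.F \ (rm₁ ∪ rm₂) → q.1 ∈ Y := by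
  classical
  have he : S.Eqv c₁ c₂ := Relation.EqvGen.rel _ _ hst
  have hgc : S.g c₁ = unrot c₂ := by rw [hst.2, unrot_rot]
  have hgc1 : (S.g c₁).1 = c₂.1 := by rw [hgc]; rfl
  have huniq' : ∀ a ∈ S.bd rm₂, (S.g a).1 ∈ rm₁ → a = unrot c₂ := by
    intro a ha h
    rw [mem_bd] at ha
    have h1 := huniq (S.g a) (by
      rw [mem_bd, S.invol]
      exact ⟨ne_comm.1 ha.1, h, fun h1 => disjoint_left.1 hd h1 ha.2.1⟩)
      (by rw [S.invol]; exact ha.2.1)
    rw [← hgc, ← h1, S.invol]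
  set X : Finset I := S.F \ (rm₁ ∪ rm₂) with hXdef
  have hX : X ⊆ S.F := sdiff_subset
  have hmemX : ∀ t ∈ S.F, t ∉ rm₁ → t ∉ rm₂ → t ∈ X := fun t h1 h2 h3 =>
    mem_sdiff.2 ⟨h1, fun h4 => (mem_union.1 h4).elim h2 h3⟩
  have hXrm₁ : ∀ t ∈ X, t ∉ rm₁ := fun t ht h => (mem_sdiff.1 ht).2 (mem_union_left _ h)
  have hXrm₂ : ∀ t ∈ X, t ∉ rm₂ := fun t ht h => (mem_sdiff.1 ht).2 (mem_union_right _ h)
  set w₁ := S.g (unrot c₁) with hw₁
  set w₃ := S.last c₁ with hw₃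
  have hg₁ : S.g (unrot c₁) ≠ unrot c₁ := (mem_bd.1 b₁.uc_mem).1
  have hw₁X : w₁.1 ∈ X := hmemX _ (g_memF hg₁) b₁.prev
    (fun h => unrot_ne c₁ (huniq _ b₁.uc_mem h))
  have hw₃F : w₃.1 ∈ S.F := by
    have := last_mem_vis hL (a := c₁) (mem_sides.2 (b₁.sub b₁.mem))
    exact (mem_vis.1 this).1
  have hw₃X : w₃.1 ∈ X := hmemX _ hw₃F (b₁.last_notMem hL (Eqv.refl _ _)) (b₂.last_notMem hL he)
  have hun₃ : S.g w₃ = w₃ := last_unglued hL c₁
  have h13 : w₁ ≠ w₃ := fun h => by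
    rw [← h, hw₁, S.invol] at hun₃
    exact hg₁ hun₃.symm
  have hk₁ : (S.keep X).g w₁ = w₁ := keep_unglued (by
    rw [hw₁, S.invol]; exact fun h => hXrm₁ _ h b₁.mem)
  have hk₃ : (S.keep X).g w₃ = w₃ := by
    rcases (keep_le S X).g w₃ with h | h
    · rw [h, hun₃]
    · exact h
  have hLX : (S.keep X).Linear := Linear.mono (keep_le S X) hL
  have hW : ∀ w ∈ ({w₁, w₃} : Finset (Sd I)), (S.keep X).last w = w := by
    intro w hw
    rw [mem_insert, mem_singleton] at hw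
    rcases hw with h | h <;> subst h
    · exact last_of_unglued hk₁
    · exact last_of_unglued hk₃
  have hcard : ({w₁, w₃} : Finset (Sd I)).card = 2 := card_pair h13
  have hfil : (S.bd rm₁).filter (fun a => (S.g a).1 ∈ rm₂) = {c₁} := by
    ext a
    rw [mem_filter, mem_singleton]
    constructor
    · rintro ⟨h1, h2⟩; exact huniq a h1 h2
    · rintro rfl; exact ⟨b₁.c_mem, by rw [hgc1]; exact b₂.mem⟩
  have hN := N2_two b₁ b₂ hd
  rw [hfil, card_singleton] at hN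
  refine not_linked hS hB b₁ b₂ he ?_ ?_ (W := {w₁, w₃}) ?_ ?_ ?_ ⟨w₁, mem_insert_self _ _⟩ ?_
  · intro a ha h
    rw [huniq a (b₁.G_mem ha) h]; exact hgc1
  · intro a ha h
    rw [huniq' a (b₂.G_mem ha) h, ← hgc, S.invol]
  · intro w hw
    rw [mem_insert, mem_singleton] at hw
    rcases hw with h | h <;> subst h
    · exact hw₁X
    · exact hw₃X
  · intro w hw
    rw [mem_insert, mem_singleton] at hw
    rcases hw with h | h <;> subst h
    · exact b₁.prev_eqv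
    · exact (last_eqv S c₁).symm
  · intro w hw w' hw' h
    rw [eqv_iff hLX, hW w hw, hW w' hw'] at h
    exact h
  · rw [hcard]; omega

/-- adjacent case: the common side `κ` is not the stub of the first blade (symmetric form) -/
theorem adj_false (hS : Cex S pt R) (hB : S.Bridgeless)
    (b₁ : S.Bld pt R c₁ rm₁ σ₁ G₁ y₁) (b₂ : S.Bld pt R c₂ rm₂ σ₂ G₂ y₂)
    (he : S.Eqv c₁ c₂) (hd : Disjoint rm₁ rm₂)
    (huniq : ∀ a ∈ S.bd rm₁, (S.g a).1 ∈ rm₂ → a = σ₁)
    (hσ : S.g σ₁ ∈ S.bd rm₂) (hG₂ : G₂.card ≤ 2)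
    (hnl : ∃ Y ⊆ S.F \ (rm₁ ∪ rm₂), Y.Nonempty ∧ Y ≠ S.F \ (rm₁ ∪ rm₂) ∧
      S.Closed (S.F \ (rm₁ ∪ rm₂)) Y ∧
      ∀ p q, S.Eqv p q → ¬ S.Eqv p c₁ → p.1 ∈ Y → q.1 ∈ S.F \ (rm₁ ∪ rm₂) → q.1 ∈ Y) :
    False := by
  classical
  set X : Finset I := S.F \ (rm₁ ∪ rm₂) with hXdef
  have hX : X ⊆ S.F := sdiff_subset
  have hmemX : ∀ t ∈ S.F, t ∉ rm₁ → t ∉ rm₂ → t ∈ X := fun t h1 h2 h3 =>
    mem_sdiff.2 ⟨h1, fun h4 => (mem_union.1 h4).elim h2 h3⟩
  have hXrm₁ : ∀ t ∈ X, t ∉ rm₁ := fun t ht h => (mem_sdiff.1 ht).2 (mem_union_left _ h)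
  have hXrm₂ : ∀ t ∈ X, t ∉ rm₂ := fun t ht h => (mem_sdiff.1 ht).2 (mem_union_right _ h)
  have huniq' : ∀ a ∈ S.bd rm₂, (S.g a).1 ∈ rm₁ → a = S.g σ₁ := by
    intro a ha h
    rw [mem_bd] at ha
    have h1 := huniq (S.g a) (by
      rw [mem_bd, S.invol]
      exact ⟨ne_comm.1 ha.1, h, fun h1 => disjoint_left.1 hd h1 ha.2.1⟩)
      (by rw [S.invol]; exact ha.2.1)
    rw [← h1, S.invol]
  have hG₁X : ∀ a ∈ G₁, (S.g a).1 ∈ X := by
    intro a ha
    have h1 := mem_bd.1 (b₁.G_mem ha)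
    exact hmemX _ (g_memF h1.1) h1.2.2 fun h2 =>
      b₁.nin ((huniq a (b₁.G_mem ha) h2) ▸ ha)
  -- a closed linked set which does not contain the first group
  obtain ⟨Z, hZX, hZne, hZneX, hZc, hZl, hZ₁⟩ : ∃ Z ⊆ X, Z.Nonempty ∧ Z ≠ X ∧ S.Closed X Z ∧
      (∀ p q, S.Eqv p q → ¬ S.Eqv p c₁ → p.1 ∈ Z → q.1 ∈ X → q.1 ∈ Z) ∧
      ∀ a ∈ G₁, (S.g a).1 ∉ Z := by
    obtain ⟨Y, hYX, hYne, hYneX, hYc, hYl⟩ := hnl
    have grp₁ : ∀ a ∈ G₁, ∀ b ∈ G₁, (S.g a).1 ∈ Y → (S.g b).1 ∈ Y := by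
      intro a ha b hb h
      obtain ⟨p, hp1, hp2⟩ := b₁.link' ha
      obtain ⟨q, hq1, hq2⟩ := b₁.link' hb
      have := hYl p q (hp2.symm.trans hq2) (fun h2 => b₁.ny (hp2.trans h2))
        (by rw [hp1]; exact h) (by rw [hq1]; exact hG₁X b hb)
      rwa [hq1] at this
    by_cases hex : ∃ a ∈ G₁, (S.g a).1 ∈ Y
    · obtain ⟨a, ha, h⟩ := hex
      refine ⟨X \ Y, sdiff_subset, ?_, ?_, hYc.sdiff, ?_, ?_⟩
      · rw [sdiff_nonempty]; exact fun h1 => hYneX (subset_antisymm hYX h1)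
      · intro h1
        obtain ⟨s, hs⟩ := hYne
        have : s ∈ X \ Y := by rw [h1]; exact hYX hs
        exact (mem_sdiff.1 this).2 hs
      · intro p q hpq hpc hp hq
        rw [mem_sdiff] at hp ⊢
        refine ⟨hq, fun hqY => hp.2 ?_⟩
        exact hYl q p hpq.symm (fun h2 => hpc (hpq.trans h2)) hqY hp.1
      · intro b hb h1
        exact (mem_sdiff.1 h1).2 (grp₁ a ha b hb h)
    · push_neg at hex
      exact ⟨Y, hYX, hYne, hYneX, hYc, hYl, hex⟩
  have hZF : Z ≠ S.F := by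
    intro h
    have h1 : c₁.1 ∈ Z := by rw [h]; exact b₁.sub b₁.mem
    exact hXrm₁ _ (hZX h1) b₁.mem
  -- sides which leave `Z`
  have hout : ∀ a, S.g a ≠ a → a.1 ∈ Z → (S.g a).1 ∉ Z →
      S.g a ∈ S.bd rm₂ ∧ S.g a ≠ S.g σ₁ := by
    intro a ha1 ha2 ha3
    have h1 : (S.g a).1 ∉ rm₁ := by
      intro h2
      have h3 : S.g a ∈ S.bd rm₁ := by
        rw [mem_bd, S.invol]; exact ⟨ne_comm.1 ha1, h2, hXrm₁ _ (hZX ha2)⟩
      rw [b₁.bd, mem_insert] at h3
      rcases h3 with h3 | h3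
      · have h4 : a = S.g σ₁ := by rw [← h3, S.invol]
        rw [h4] at ha2
        exact hXrm₂ _ (hZX ha2) (mem_bd.1 hσ).2.1
      · refine hZ₁ _ h3 ?_
        rw [S.invol]; exact ha2
    have h2 : (S.g a).1 ∈ rm₂ := by
      by_contra h3
      exact ha3 (hZc a ha1 ha2 (hmemX _ (g_memF ha1) h1 h3))
    refine ⟨?_, fun h3 => ?_⟩
    · rw [mem_bd, S.invol]; exact ⟨ne_comm.1 ha1, h2, hXrm₂ _ (hZX ha2)⟩
    · have h4 := S.g_injective h3
      rw [h4] at ha2
      exact hXrm₁ _ (hZX ha2) (mem_bd.1 b₁.σ_mem).2.1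
  -- if all sides of `bd rm₂` except the common one lead to `Z` we have a bridge
  have hall : ∀ (h : ∀ a ∈ S.bd rm₂, a ≠ S.g σ₁ → (S.g a).1 ∈ Z), False := by
    intro h
    have hT : Z ∪ rm₂ ⊆ S.F := union_subset (hZX.trans hX) b₂.sub
    refine one_edge hS.conn hB hT (hZne.mono subset_union_left) ?_ (s := S.g σ₁) ?_
    · intro h1
      have h2 : c₁.1 ∈ Z ∪ rm₂ := by rw [h1]; exact b₁.sub b₁.mem
      rcases mem_union.1 h2 with h3 | h3
      · exact hXrm₁ _ (hZX h3) b₁.mem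
      · exact disjoint_left.1 hd b₁.mem h3
    · intro a ha
      rw [mem_bd] at ha
      obtain ⟨ha1, ha2, ha3⟩ := ha
      rcases mem_union.1 ha2 with h2 | h2
      · have h3 := hout a ha1 h2 fun h4 => ha3 (mem_union_left _ h4)
        exact absurd (mem_union_right _ (mem_bd.1 h3.1).2.1) ha3
      · by_contra h3
        have h4 : a ∈ S.bd rm₂ := mem_bd.2 ⟨ha1, h2, fun h4 => ha3 (mem_union_right _ h4)⟩
        exact ha3 (mem_union_left _ (h a h4 h3))
  have hσ' := hσ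
  rw [b₂.bd, mem_insert] at hσ'
  rcases hσ' with hσ' | hσ'
  · -- the common side is the stub of both
    have hG₂X : ∀ a ∈ G₂, (S.g a).1 ∈ X := by
      intro a ha
      have h1 := mem_bd.1 (b₂.G_mem ha)
      refine hmemX _ (g_memF h1.1) (fun h2 => b₂.nin ?_) h1.2.2
      rw [← hσ', ← huniq' a (b₂.G_mem ha) h2]; exact ha
    have grp₂ : ∀ a ∈ G₂, ∀ b ∈ G₂, (S.g a).1 ∈ Z → (S.g b).1 ∈ Z := by
      intro a ha b hb h
      obtain ⟨p, hp1, hp2⟩ := b₂.link' ha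
      obtain ⟨q, hq1, hq2⟩ := b₂.link' hb
      have := hZl p q (hp2.symm.trans hq2) (fun h2 => b₂.ny (hp2.trans (h2.trans he)))
        (by rw [hp1]; exact h) (by rw [hq1]; exact hG₂X b hb)
      rwa [hq1] at this
    by_cases hex : ∃ a ∈ G₂, (S.g a).1 ∈ Z
    · obtain ⟨a, ha, h⟩ := hex
      refine hall fun b hb hb' => ?_
      rw [b₂.bd, mem_insert] at hb
      rcases hb with hb | hb
      · exact absurd (hb.trans hσ'.symm) hb'
      · exact grp₂ a ha b hb h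
    · push_neg at hex
      refine no_edge hS.conn (hZX.trans hX) hZne hZF fun a ha => ?_
      rw [mem_bd] at ha
      obtain ⟨h1, h2⟩ := hout a ha.1 ha.2.1 ha.2.2
      rw [b₂.bd, mem_insert] at h1
      rcases h1 with h1 | h1
      · exact h2 (h1.trans hσ'.symm)
      · refine hex _ h1 ?_
        rw [S.invol]; exact ha.2.1
  · -- the common side is in the group of the second blade
    have h1 : (S.bd Z).image S.g ⊆ (S.bd rm₂).erase (S.g σ₁) := by
      intro b hb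
      obtain ⟨a, ha, rfl⟩ := mem_image.1 hb
      rw [mem_bd] at ha
      obtain ⟨h1, h2⟩ := hout a ha.1 ha.2.1 ha.2.2
      exact mem_erase.2 ⟨h2, h1⟩
    have h2 : ((S.bd rm₂).erase (S.g σ₁)).card ≤ 2 := by
      rw [card_erase_of_mem hσ, b₂.bd, card_insert_of_notMem b₂.nin]
      omega
    have h3 := hB.two_le (hZX.trans hX) (hS.conn.2 Z (hZX.trans hX) hZne hZF)
    have h4 : (S.bd Z).image S.g = (S.bd rm₂).erase (S.g σ₁) := by
      refine eq_of_subset_of_card_le h1 ?_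
      rw [card_image_of_injective _ S.g_injective]
      omega
    refine hall fun a ha ha' => ?_
    have h5 : a ∈ (S.bd Z).image S.g := by rw [h4]; exact mem_erase.2 ⟨ha', ha⟩
    obtain ⟨b, hb, rfl⟩ := mem_image.1 h5
    rw [S.invol]; exact (mem_bd.1 hb).2.1

/-- adjacent case, the common side is a group side of both blades: the two stubs form a cut -/
theorem adj_cut (hS : Cex S pt R) (hB : S.Bridgeless)
    (b₁ : S.Bld pt R c₁ rm₁ σ₁ G₁ y₁) (b₂ : S.Bld pt R c₂ rm₂ σ₂ G₂ y₂)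
    (hd : Disjoint rm₁ rm₂) {κ : Sd I}
    (huniq : ∀ a ∈ S.bd rm₁, (S.g a).1 ∈ rm₂ → a = κ)
    (hκ₁ : κ ∈ G₁) (hκ₂ : S.g κ ∈ G₂) (hyy : S.Eqv y₁ y₂)
    (hnl : ∃ Y ⊆ S.F \ (rm₁ ∪ rm₂), Y.Nonempty ∧ Y ≠ S.F \ (rm₁ ∪ rm₂) ∧
      S.Closed (S.F \ (rm₁ ∪ rm₂)) Y ∧
      ∀ p q, S.Eqv p q → ¬ S.Eqv p c₁ → p.1 ∈ Y → q.1 ∈ S.F \ (rm₁ ∪ rm₂) → q.1 ∈ Y) :
    ∃ T ⊆ S.F, ∃ e₁ e₂, (e₁ = σ₁ ∨ e₁ = S.g σ₁) ∧ (e₂ = σ₂ ∨ e₂ = S.g σ₂) ∧
      S.bd T = {e₁, e₂} ∧ e₁ ≠ e₂ := by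
  classical
  set X : Finset I := S.F \ (rm₁ ∪ rm₂) with hXdef
  have hX : X ⊆ S.F := sdiff_subset
  have hmemX : ∀ t ∈ S.F, t ∉ rm₁ → t ∉ rm₂ → t ∈ X := fun t h1 h2 h3 =>
    mem_sdiff.2 ⟨h1, fun h4 => (mem_union.1 h4).elim h2 h3⟩
  have hXrm₁ : ∀ t ∈ X, t ∉ rm₁ := fun t ht h => (mem_sdiff.1 ht).2 (mem_union_left _ h)
  have hXrm₂ : ∀ t ∈ X, t ∉ rm₂ := fun t ht h => (mem_sdiff.1 ht).2 (mem_union_right _ h)
  have huniq' : ∀ a ∈ S.bd rm₂, (S.g a).1 ∈ rm₁ → a = S.g κ := by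
    intro a ha h
    rw [mem_bd] at ha
    have h1 := huniq (S.g a) (by
      rw [mem_bd, S.invol]
      exact ⟨ne_comm.1 ha.1, h, fun h1 => disjoint_left.1 hd h1 ha.2.1⟩)
      (by rw [S.invol]; exact ha.2.1)
    rw [← h1, S.invol]
  -- the tied sides
  have tied : ∀ a, (a ∈ G₁ ∧ a ≠ κ) ∨ (a ∈ G₂ ∧ a ≠ S.g κ) →
      (S.g a).1 ∈ X ∧ ∃ p, p.1 = (S.g a).1 ∧ S.Eqv y₁ p := by
    rintro a (⟨ha, ha'⟩ | ⟨ha, ha'⟩)
    · have h1 := mem_bd.1 (b₁.G_mem ha)
      exact ⟨hmemX _ (g_memF h1.1) h1.2.2 fun h2 => ha' (huniq a (b₁.G_mem ha) h2),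
        b₁.link' ha⟩
    · have h1 := mem_bd.1 (b₂.G_mem ha)
      refine ⟨hmemX _ (g_memF h1.1) (fun h2 => ha' (huniq' a (b₂.G_mem ha) h2)) h1.2.2, ?_⟩
      obtain ⟨p, hp1, hp2⟩ := b₂.link' ha
      exact ⟨p, hp1, hyy.trans hp2⟩
  obtain ⟨Z, hZX, hZne, hZc, hZ₁⟩ : ∃ Z ⊆ X, Z.Nonempty ∧ S.Closed X Z ∧
      ∀ a, (a ∈ G₁ ∧ a ≠ κ) ∨ (a ∈ G₂ ∧ a ≠ S.g κ) → (S.g a).1 ∉ Z := by
    obtain ⟨Y, hYX, hYne, hYneX, hYc, hYl⟩ := hnl
    by_cases hex : ∃ a, ((a ∈ G₁ ∧ a ≠ κ) ∨ (a ∈ G₂ ∧ a ≠ S.g κ)) ∧ (S.g a).1 ∈ Y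
    · obtain ⟨a, ha, h⟩ := hex
      refine ⟨X \ Y, sdiff_subset, ?_, hYc.sdiff, ?_⟩
      · rw [sdiff_nonempty]; exact fun h1 => hYneX (subset_antisymm hYX h1)
      · intro b hb h1
        obtain ⟨h2, p, hp1, hp2⟩ := tied a ha
        obtain ⟨h3, q, hq1, hq2⟩ := tied b hb
        refine (mem_sdiff.1 h1).2 ?_
        have := hYl p q (hp2.symm.trans hq2) (fun h2 => b₁.ny (hp2.trans h2))
          (by rw [hp1]; exact h) (by rw [hq1]; exact h3)
        rwa [hq1] at this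
    · push_neg at hex
      exact ⟨Y, hYX, hYne, hYc, hex⟩
  have hZF : Z ≠ S.F := by
    intro h
    have h1 : c₁.1 ∈ Z := by rw [h]; exact b₁.sub b₁.mem
    exact hXrm₁ _ (hZX h1) b₁.mem
  obtain ⟨e₁, e₂, h1, h2, h3, h4⟩ := two_edges hS.conn hB (hZX.trans hX) hZne hZF
    (s₁ := σ₁) (s₂ := σ₂) (by
    intro a ha
    rw [mem_bd] at ha
    obtain ⟨ha1, ha2, ha3⟩ := ha
    by_cases h5 : (S.g a).1 ∈ rm₁
    · have h6 : S.g a ∈ S.bd rm₁ := by
        rw [mem_bd, S.invol]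
        exact ⟨ne_comm.1 ha1, h5, hXrm₁ _ (hZX ha2)⟩
      rw [b₁.bd, mem_insert] at h6
      rcases h6 with h6 | h6
      · exact Or.inl (Or.inr (by rw [← h6, S.invol]))
      · exfalso
        by_cases h7 : S.g a = κ
        · have h8 : a = S.g κ := by rw [← h7, S.invol]
          rw [h8] at ha2
          exact hXrm₂ _ (hZX ha2) (mem_bd.1 (b₂.G_mem hκ₂)).2.1
        · refine hZ₁ _ (Or.inl ⟨h6, h7⟩) ?_
          rw [S.invol]; exact ha2
    · by_cases h7 : (S.g a).1 ∈ rm₂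
      · have h6 : S.g a ∈ S.bd rm₂ := by
          rw [mem_bd, S.invol]
          exact ⟨ne_comm.1 ha1, h7, hXrm₂ _ (hZX ha2)⟩
        rw [b₂.bd, mem_insert] at h6
        rcases h6 with h6 | h6
        · exact Or.inr (Or.inr (by rw [← h6, S.invol]))
        · exfalso
          by_cases h8 : S.g a = S.g κ
          · have h9 := S.g_injective h8
            rw [h9] at ha2
            exact hXrm₁ _ (hZX ha2) (mem_bd.1 (b₁.G_mem hκ₁)).2.1
          · refine hZ₁ _ (Or.inr ⟨h6, h8⟩) ?_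
            rw [S.invol]; exact ha2
      · exact absurd (hZc a ha1 ha2 (hmemX _ (g_memF ha1) h5 h7)) ha3)
  exact ⟨Z, hZX.trans hX, e₁, e₂, h1, h2, h3, h4⟩

/-- PAIR RULE, adjacent blades (`c₂` the clockwise neighbour of `c₁`) -/
theorem adj_step (hS : Cex S pt R) (hB : S.Bridgeless) (hL : S.Linear)
    (b₁ : S.Bld pt R c₁ rm₁ σ₁ G₁ y₁) (b₂ : S.Bld pt R c₂ rm₂ σ₂ G₂ y₂)
    (hst : S.Step c₁ c₂) (hd : Disjoint rm₁ rm₂)
    (huniq : ∀ a ∈ S.bd rm₁, (S.g a).1 ∈ rm₂ → a = c₁)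
    (hG₁ : G₁.card ≤ 2) (hG₂ : G₂.card ≤ 2) :
    σ₁ = unrot c₁ ∧ σ₂ = c₂ ∧
      ∃ T ⊆ S.F, ∃ e₁ e₂, (e₁ = σ₁ ∨ e₁ = S.g σ₁) ∧ (e₂ = σ₂ ∨ e₂ = S.g σ₂) ∧
        S.bd T = {e₁, e₂} ∧ e₁ ≠ e₂ := by
  have he : S.Eqv c₁ c₂ := Relation.EqvGen.rel _ _ hst
  have hgc : S.g c₁ = unrot c₂ := by rw [hst.2, unrot_rot]
  have hgc1 : (S.g c₁).1 = c₂.1 := by rw [hgc]; rfl
  have hnl := not_linked_adj hS hB hL b₁ b₂ hst hd huniq
  have h1 : σ₁ ≠ c₁ := by
    intro h
    refine adj_false hS hB b₁ b₂ he hd (fun a ha h' => (huniq a ha h').trans h.symm) ?_ hG₂ hnl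
    rw [h, hgc]; exact b₂.uc_mem
  have h2 : σ₂ ≠ unrot c₂ := by
    intro h
    have hnl' : ∃ Y ⊆ S.F \ (rm₂ ∪ rm₁), Y.Nonempty ∧ Y ≠ S.F \ (rm₂ ∪ rm₁) ∧
        S.Closed (S.F \ (rm₂ ∪ rm₁)) Y ∧
        ∀ p q, S.Eqv p q → ¬ S.Eqv p c₂ → p.1 ∈ Y → q.1 ∈ S.F \ (rm₂ ∪ rm₁) → q.1 ∈ Y := by
      obtain ⟨Y, hY1, hY2, hY3, hY4, hY5⟩ := hnl
      rw [union_comm rm₂ rm₁]
      exact ⟨Y, hY1, hY2, hY3, hY4, fun p q hpq hp => hY5 p q hpq fun h3 => hp (h3.trans he)⟩
    refine adj_false hS hB b₂ b₁ he.symm hd.symm (fun a ha h' => ?_) ?_ hG₁ hnl'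
    · rw [mem_bd] at ha
      have h3 := huniq (S.g a) (by
        rw [mem_bd, S.invol]
        exact ⟨ne_comm.1 ha.1, h', fun h3 => disjoint_left.1 hd h3 ha.2.1⟩)
        (by rw [S.invol]; exact ha.2.1)
      rw [h, ← hgc, ← h3, S.invol]
    · rw [h, ← hgc, S.invol]; exact b₁.c_mem
  have h3 : σ₁ = unrot c₁ ∧ c₁ ∈ G₁ := by
    rcases b₁.vs with h | h
    · exact absurd h.1 h1
    · exact h
  have h4 : σ₂ = c₂ ∧ unrot c₂ ∈ G₂ := by
    rcases b₂.vs with h | h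
    · exact h
    · exact absurd h.1 h2
  refine ⟨h3.1, h4.1, adj_cut hS hB b₁ b₂ hd (κ := c₁) huniq h3.2 (by rw [hgc]; exact h4.2) ?_ hnl⟩
  -- the other ends of the common side
  have h5 : S.Eqv y₁ (rot c₁) := by
    rcases b₁.link c₁ h3.2 with h | h
    · exact absurd h b₁.ny
    · exact h
  have h6 : S.Eqv y₂ (unrot c₂) := by
    rcases b₂.link (unrot c₂) h4.2 with h | h
    · exact h
    · rw [rot_unrot] at h; exact absurd h b₂.ny
  have h7 : S.Eqv (rot c₁) (unrot c₂) := by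
    rw [← hgc]; exact Eqv.of_glued' hst.1
  exact h5.trans (h7.trans h6.symm)

end

end Obj

end AG
end

/- AG.Pair.Inst -/
section
/-!
# Project AG, block 5 (pair rule): real and virtual blades are abstract blades
-/

set_option linter.unusedSectionVars false
set_option linter.unusedSimpArgs false

namespace AG

open Finset

variable {I : Type} [DecidableEq I]

namespace Obj

section

variable {S : Obj I} {pt : Sd I → Pt} {R : Set Pt}

/-- the three sides of a triangle, as a finite set -/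
theorem filter_fst_eq (T : Finset (Sd I)) (c : Sd I) :
    T.filter (fun a => a.1 ∈ ({c.1} : Finset I))
      = T.filter (fun a => a = c ∨ a = rot c ∨ a = unrot c) := by
  refine filter_congr fun a _ => ?_
  rw [mem_singleton]
  constructor
  · intro h; exact eq_of_fst_eq h
  · rintro (h | h | h) <;> rw [h] <;> rfl

theorem rot_ne_unrot (a : Sd I) : rot a ≠ unrot a := (unrot_ne_rot a).symm

/-- REAL BLADES: the stub can be chosen -/
theorem bld_real (hS : Cex S pt R) {c : Sd I} (h : S.Blade c) {σ τ : Sd I}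
    (hστ : (σ = c ∧ τ = unrot c) ∨ (σ = unrot c ∧ τ = c)) :
    ∃ y, S.Bld pt R c {c.1} σ {τ} y := by
  have hG : Geo S pt := hS.geo
  obtain ⟨h1, h2, h3, h4⟩ := h
  have hcF : c.1 ∈ S.F := S.memF c h1
  have hστ' : ({σ, τ} : Finset (Sd I)) = {c, unrot c} := by
    rcases hστ with ⟨e1, e2⟩ | ⟨e1, e2⟩
    · rw [e1, e2]
    · rw [e1, e2, pair_comm]
  have hne : σ ≠ τ := by
    rcases hστ with ⟨e1, e2⟩ | ⟨e1, e2⟩
    · rw [e1, e2]; exact (unrot_ne c).symm
    · rw [e1, e2]; exact unrot_ne c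
  have hbd : S.bd {c.1} = {c, unrot c} := by
    ext a
    rw [mem_bd, mem_singleton, mem_singleton, mem_insert, mem_singleton]
    constructor
    · rintro ⟨h5, h6, _⟩
      rcases eq_of_fst_eq h6 with h7 | h7 | h7
      · exact Or.inl h7
      · rw [h7] at h5; exact absurd h3 h5
      · exact Or.inr h7
    · rintro (h5 | h5)
      · rw [h5]; exact ⟨h1, rfl, S.ne c h1⟩
      · rw [h5]; exact ⟨h2, rfl, S.ne _ h2⟩
  have hvis : (S.vis.filter (fun a => a.1 ∈ ({c.1} : Finset I))) = {rot c} := by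
    ext a
    rw [filter_fst_eq, mem_filter, mem_vis, mem_singleton]
    constructor
    · rintro ⟨⟨h5, h6⟩, h7 | h7 | h7⟩
      · rw [h7] at h6; exact absurd h6 h1
      · exact h7
      · rw [h7] at h6; exact absurd h6 h2
    · intro h5
      rw [h5]
      exact ⟨⟨hcF, h3⟩, Or.inr (Or.inl rfl)⟩
  -- the visit of the other end of `τ`
  obtain ⟨y, hy1, hy2⟩ : ∃ y, ¬ S.Eqv y c ∧ (S.Eqv y τ ∨ S.Eqv y (rot τ)) := by
    rcases hστ with ⟨_, e2⟩ | ⟨_, e2⟩
    · refine ⟨unrot c, fun he => ?_, Or.inl (by rw [e2]; exact Eqv.refl _ _)⟩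
      exact hG.pt_ne_unrot hcF (hG.pt_eqv he).symm
    · refine ⟨rot c, fun he => ?_, Or.inr (by rw [e2]; exact Eqv.refl _ _)⟩
      exact hG.pt_ne_rot hcF (hG.pt_eqv he).symm
  refine ⟨y, ?_⟩
  constructor
  · exact singleton_subset_iff.2 hcF
  · exact mem_singleton_self _
  · rw [hbd, ← hστ']
  · rw [mem_singleton]; exact hne
  · rcases hστ with ⟨e1, e2⟩ | ⟨e1, e2⟩
    · exact Or.inl ⟨e1, mem_singleton.2 e2.symm⟩
    · exact Or.inr ⟨e1, mem_singleton.2 e2.symm⟩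
  · rw [hvis, card_singleton, card_singleton, card_singleton]
  · intro a ha h5
    rcases eq_of_fst_eq (mem_singleton.1 h5) with h6 | h6 | h6
    · rw [h6] at ha; exact h1 (S.earFree _ ha)
    · rw [h6] at ha; exact h4 ha
    · rw [h6] at ha; exact h2 (S.earFree _ ha)
  · intro a ha he
    exact hG.eq_of_fst hcF (mem_singleton.1 ha) (hG.pt_eqv he)
  · exact hy1
  · intro a ha
    rw [mem_singleton.1 ha]; exact hy2
  · intro C hC _ t ht
    rw [mem_singleton.1 ht]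
    exact hG.cov_of_hit' hcF (hS.sub _ hcF) hC

/-- a triangle with an unglued side, one of whose other sides leads to a removed triangle, is
noncore after the removal -/
theorem noncore_of {Z : Finset I} (hZ : Z ⊆ S.F) {d : Sd I} (hdZ : d.1 ∈ Z)
    (hd : (S.g d).1 ∉ Z) (hnf : ¬ S.Face d.1) (hdF : d.1 ∈ S.F) : (S.keep Z).Noncore d.1 := by
  refine ⟨by rw [keep_F S hZ]; exact hdZ, fun i hi => ?_⟩
  refine ⟨{d.1}, ?_, ?_⟩
  · rw [keep_F S hZ]; exact singleton_subset_iff.2 hdZ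
  · -- some side of `d.1` is not glued in `S`
    have hex : ∃ j, S.g (d.1, j) = (d.1, j) := by
      by_contra hcon
      exact hnf ⟨hdF, fun j hj => hcon ⟨j, hj⟩⟩
    obtain ⟨j, hj⟩ := hex
    have hd1 : (S.keep Z).g d = d := keep_unglued hd
    have hj1 : (S.keep Z).g (d.1, j) = (d.1, j) := by
      rcases (keep_le S Z).g (d.1, j) with h | h
      · rw [h, hj]
      · exact h
    by_cases hdj : d = (d.1, j)
    · -- impossible: `d` is glued in `S`
      exfalso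
      rw [← hdj] at hj
      rw [hj] at hd
      exact hd hdZ
    ext a
    simp only [mem_bd, mem_singleton]
    constructor
    · rintro ⟨h5, h6, _⟩
      -- `a`, `d`, `(d.1,j)`, `(d.1,i)` are sides of one triangle
      have ha1 : a ≠ d := fun h => by rw [h] at h5; exact h5 hd1
      have ha2 : a ≠ (d.1, j) := fun h => by rw [h] at h5; exact h5 hj1
      have hi1 : (d.1, i) ≠ d := fun h => by rw [h] at hi; exact hi hd1
      have hi2 : (d.1, i) ≠ ((d.1, j) : Sd I) := fun h => by rw [h] at hi; exact hi hj1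
      rcases eq_of_fst_eq (a := d) (b := (d.1, j)) rfl with e | e | e
      · exact absurd e.symm hdj
      · rcases eq_of_fst_eq h6 with e1 | e1 | e1
        · exact absurd e1 ha1
        · exact absurd (e1.trans e.symm) ha2
        · rcases eq_of_fst_eq (a := d) (b := (d.1, i)) rfl with e2 | e2 | e2
          · exact absurd e2 hi1
          · exact absurd (e2.trans e.symm) hi2
          · rw [e1, ← e2]
      · rcases eq_of_fst_eq h6 with e1 | e1 | e1
        · exact absurd e1 ha1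
        · rcases eq_of_fst_eq (a := d) (b := (d.1, i)) rfl with e2 | e2 | e2
          · exact absurd e2 hi1
          · rw [e1, ← e2]
          · exact absurd (e2.trans e.symm) hi2
        · exact absurd (e1.trans e.symm) ha2
    · intro h
      rw [h]
      exact ⟨hi, rfl, (S.keep Z).ne _ hi⟩

/-- the common part of the two types of virtual blades: `a` = side of `t` towards `s`, `τ` the
other glued side of `t`, `β` its base; `σ` the stub, `ρ` the other side of the corner `w` -/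
theorem bld_virt (hS : Cex S pt R) {w a τ β σ ρ y : Sd I} (ha : a = S.g (rot w))
    (hg : S.g (rot w) ≠ rot w) (hf : S.Face w.1)
    (hτ1 : τ.1 = a.1) (hτ : S.g τ ≠ τ) (hβ1 : β.1 = a.1) (hβ : S.g β = β) (hβE : β ∉ S.E)
    (haτ : a ≠ τ) (htri : ∀ b, b.1 = a.1 → b = a ∨ b = τ ∨ b = β)
    (hσρ : (σ = w ∧ ρ = unrot w) ∨ (σ = unrot w ∧ ρ = w))
    (hy : ¬ S.Eqv y w) (hyρ : S.Eqv y ρ ∨ S.Eqv y (rot ρ)) (hyτ : S.Eqv y τ ∨ S.Eqv y (rot τ))
    (hcov : ∀ C : Finset (Sd I), S.Hit C w →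
      (¬ S.Face (S.g τ).1 → ∃ i, S.Hit C ((S.g τ).1, i)) → Cov pt R C a.1) :
    S.Bld pt R w {w.1, a.1} σ {ρ, τ} y := by
  have hG : Geo S pt := hS.geo
  have hag : S.g a = rot w := by rw [ha, S.invol]
  have haF : a.1 ∈ S.F := by rw [ha]; exact g_memF hg
  have hwF : w.1 ∈ S.F := hf.1
  have hw : S.g w ≠ w := hf.2 w.2
  have huw : S.g (unrot w) ≠ unrot w := Face.glued hf rfl
  have hagl : S.g a ≠ a := by rw [ha]; exact g_ne_iff.2 hg
  have hwa : w.1 ≠ a.1 := by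
    intro h
    exact S.ne a hagl (by rw [hag, rot_fst, h])
  -- the glued sides of `w.1` other than `rot w` do not lead to `a.1`
  have hnw : ∀ b, b.1 = w.1 → S.g b ≠ b → (S.g b).1 = a.1 → b = rot w := by
    intro b hb1 hb2 hb3
    rcases eq_of_fst_eq hb1 with h | h | h
    · exfalso
      have h5 := hG.mat b hb2
      rw [h] at h5 hb3
      exact hG.pt_ne_of_across hg (d := rot (S.g w)) (by rw [rot_fst, hb3, ha]) h5
    · exact h
    · exfalso
      have h5 := hG.mat' hb2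
      rw [h, rot_unrot] at h5
      rw [h] at hb3
      exact hG.pt_ne_of_across hg (d := S.g (unrot w)) (by rw [hb3, ha]) h5
  have hτw : (S.g τ).1 ≠ w.1 := by
    intro h
    have h5 := hnw (S.g τ) h (g_ne_iff.2 hτ) (by rw [S.invol]; exact hτ1)
    have h6 : τ = S.g (rot w) := by rw [← h5, S.invol]
    exact haτ (ha.trans h6.symm)
  have hw' : (S.g w).1 ≠ a.1 := fun h => (rot_ne w) (hnw w rfl hw h).symm
  have huw' : (S.g (unrot w)).1 ≠ a.1 := fun h => (unrot_ne_rot w) (hnw _ rfl huw h)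
  have hσρ' : ({σ, ρ} : Finset (Sd I)) = {w, unrot w} := by
    rcases hσρ with ⟨e1, e2⟩ | ⟨e1, e2⟩
    · rw [e1, e2]
    · rw [e1, e2, pair_comm]
  have hbd : S.bd {w.1, a.1} = insert σ {ρ, τ} := by
    have : (insert σ {ρ, τ} : Finset (Sd I)) = {w, unrot w} ∪ {τ} := by
      rw [← hσρ']
      ext b
      simp only [mem_insert, mem_singleton, mem_union]
      tauto
    rw [this]
    ext b
    simp only [mem_bd, mem_insert, mem_singleton, mem_union, not_or]
    constructor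
    · rintro ⟨h5, h6 | h6, h7, h8⟩
      · rcases eq_of_fst_eq h6 with h9 | h9 | h9
        · exact Or.inl (Or.inl h9)
        · rw [h9, ← ha] at h8; exact absurd rfl h8
        · exact Or.inl (Or.inr h9)
      · rcases htri b h6 with h9 | h9 | h9
        · rw [h9, hag, rot_fst] at h7; exact absurd rfl h7
        · exact Or.inr h9
        · rw [h9] at h5; exact absurd hβ h5
    · rintro ((h5 | h5) | h5)
      · rw [h5]; exact ⟨hw, Or.inl rfl, S.ne w hw, hw'⟩
      · rw [h5]; exact ⟨huw, Or.inl rfl, S.ne _ huw, huw'⟩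
      · rw [h5]; exact ⟨hτ, Or.inr hτ1, hτw, by rw [← hτ1]; exact S.ne τ hτ⟩
  have hρ1 : ρ.1 = w.1 := by
    rcases hσρ with ⟨_, e2⟩ | ⟨_, e2⟩ <;> rw [e2] <;> rfl
  have hσ1 : σ.1 = w.1 := by
    rcases hσρ with ⟨e2, _⟩ | ⟨e2, _⟩ <;> rw [e2] <;> rfl
  have hρτ : ρ ≠ τ := fun h => hwa (by rw [← hρ1, h, hτ1])
  have hστ : σ ≠ τ := fun h => hwa (by rw [← hσ1, h, hτ1])
  have hσρne : σ ≠ ρ := by
    rcases hσρ with ⟨e1, e2⟩ | ⟨e1, e2⟩
    · rw [e1, e2]; exact (unrot_ne w).symm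
    · rw [e1, e2]; exact unrot_ne w
  have hvis : (S.vis.filter (fun b => b.1 ∈ ({w.1, a.1} : Finset I))) = {β} := by
    ext b
    rw [mem_filter, mem_vis, mem_insert, mem_singleton, mem_singleton]
    constructor
    · rintro ⟨⟨h5, h6⟩, h7 | h7⟩
      · exfalso
        have h8 : S.g b ≠ b := Face.glued hf h7
        exact h8 h6
      · rcases htri b h7 with h9 | h9 | h9
        · rw [h9] at h6; exact absurd h6 hagl
        · rw [h9] at h6; exact absurd h6 hτ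
        · exact h9
    · intro h5
      rw [h5]
      exact ⟨⟨by rw [hβ1]; exact haF, hβ⟩, Or.inr hβ1⟩
  constructor
  · exact insert_subset hwF (singleton_subset_iff.2 haF)
  · exact mem_insert_self _ _
  · exact hbd
  · rw [mem_insert, mem_singleton]
    rintro (h | h)
    · exact hσρne h
    · exact hστ h
  · rcases hσρ with ⟨e1, e2⟩ | ⟨e1, e2⟩
    · exact Or.inl ⟨e1, by rw [e2]; exact mem_insert_self _ _⟩
    · exact Or.inr ⟨e1, by rw [e2]; exact mem_insert_self _ _⟩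
  · rw [hvis, card_singleton, card_pair hwa, card_pair hρτ]
  · intro b hb h5
    rw [mem_insert, mem_singleton] at h5
    rcases h5 with h5 | h5
    · exact Face.glued hf h5 (S.earFree b hb)
    · rcases htri b h5 with h9 | h9 | h9
      · rw [h9] at hb; exact hagl (S.earFree _ hb)
      · rw [h9] at hb; exact hτ (S.earFree _ hb)
      · rw [h9] at hb; exact hβE hb
  · intro b hb he
    rw [mem_insert, mem_singleton] at hb
    rcases hb with h5 | h5
    · exact hG.eq_of_fst hwF h5 (hG.pt_eqv he)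
    · exact absurd he (hG.not_eqv_of_across hg (by rw [h5, ha]))
  · exact hy
  · intro b hb
    rw [mem_insert, mem_singleton] at hb
    rcases hb with h5 | h5
    · rw [h5]; exact hyρ
    · rw [h5]; exact hyτ
  · intro C hC hN t ht
    rw [mem_insert, mem_singleton] at ht
    rcases ht with h5 | h5
    · rw [h5]
      exact hG.cov_of_hit' hwF (hS.sub _ hwF) hC
    · rw [h5]
      refine hcov C hC fun hnf => ?_
      refine hN τ (mem_insert_of_mem (mem_singleton_self _)) ?_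
      have h6 : (S.g τ).1 ∈ S.F := g_memF hτ
      refine noncore_of sdiff_subset (d := S.g τ) ?_ ?_ hnf h6
      · refine mem_sdiff.2 ⟨h6, ?_⟩
        rw [mem_insert, mem_singleton]
        rintro (h7 | h7)
        · exact hτw h7
        · exact S.ne τ hτ (h7.trans hτ1.symm)
      · rw [S.invol]
        intro h7
        refine (mem_sdiff.1 h7).2 ?_
        rw [hτ1]
        exact mem_insert_of_mem (mem_singleton_self _)

/-- VIRTUAL BLADES of type A -/
theorem bld_virtA (hS : Cex S pt R) {w : Sd I} (h : S.VirtA pt w) :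
    ∃ y, S.Bld pt R w {w.1, (S.g (rot w)).1} w {unrot w, unrot (S.g (rot w))} y := by
  have hG : Geo S pt := hS.geo
  have hg := h.glued
  have hf := h.face
  obtain ⟨hbl, hact, htype⟩ := h
  have hwF : w.1 ∈ S.F := hf.1
  have haF : (S.g (rot w)).1 ∈ S.F := g_memF hg
  have hpy : S.Eqv (unrot w) (S.g (rot w)) := by
    have := Eqv.of_glued' hg
    rwa [rot_rot] at this
  refine ⟨unrot w, bld_virt hS (a := S.g (rot w)) (τ := unrot (S.g (rot w)))
    (β := rot (S.g (rot w))) (σ := w) (ρ := unrot w) rfl hg hf rfl hbl.2.1 rfl hbl.2.2.1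
    hbl.2.2.2 (unrot_ne _).symm ?_ (Or.inl ⟨rfl, rfl⟩) ?_ (Or.inl (Eqv.refl _ _)) ?_ ?_⟩
  · intro b hb
    rcases eq_of_fst_eq hb with h1 | h1 | h1
    · exact Or.inl h1
    · exact Or.inr (Or.inr h1)
    · exact Or.inr (Or.inl h1)
  · intro he
    exact hG.pt_ne_unrot hwF (hG.pt_eqv he).symm
  · right; rw [rot_unrot]; exact hpy
  · intro C hC hN
    have hag : (S.g (S.g (rot w))).1 = w.1 := by rw [S.invol, rot_fst]
    rcases htype with hU | ⟨hP, hna⟩
    · refine Geo.see_U hG hU (hS.sub _ haF) (by rw [hag]; exact hS.sub _ hwF) ⟨w.2, ?_⟩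
      rw [hag]; exact hC
    · have hτ := hbl.2.1
      refine Geo.see_pair hG hP (hS.sub _ haF) (by rw [hag]; exact hS.sub _ hwF)
        (hS.sub _ (g_memF hτ)) ⟨w.2, ?_⟩ ?_
      · rw [hag]; exact hC
      · exact hN fun hfa => hna ⟨hτ, hfa⟩

/-- VIRTUAL BLADES of type B -/
theorem bld_virtB (hS : Cex S pt R) {w : Sd I} (h : S.VirtB pt w) :
    ∃ y, S.Bld pt R w {w.1, (S.g (rot w)).1} (unrot w) {w, rot (S.g (rot w))} y := by
  have hG : Geo S pt := hS.geo
  have hg := h.glued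
  have hf := h.face
  obtain ⟨hbl, hact, htype⟩ := h
  have hwF : w.1 ∈ S.F := hf.1
  have haF : (S.g (rot w)).1 ∈ S.F := g_memF hg
  have hpy : S.Eqv (rot w) (rot (S.g (rot w))) := Eqv.of_glued hg
  have hbl2 := hbl.2.2.1
  rw [rot_rot] at hbl2
  refine ⟨rot w, bld_virt hS (a := S.g (rot w)) (τ := rot (S.g (rot w)))
    (β := unrot (S.g (rot w))) (σ := unrot w) (ρ := w) rfl hg hf rfl hbl.1 rfl hbl2
    (by rw [← rot_rot]; exact hbl.2.2.2) (rot_ne _).symm ?_ (Or.inr ⟨rfl, rfl⟩) ?_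
    (Or.inr (Eqv.refl _ _)) ?_ ?_⟩
  · intro b hb
    rcases eq_of_fst_eq hb with h1 | h1 | h1
    · exact Or.inl h1
    · exact Or.inr (Or.inl h1)
    · exact Or.inr (Or.inr h1)
  · intro he
    exact hG.pt_ne_rot hwF (hG.pt_eqv he).symm
  · left; exact hpy
  · intro C hC hN
    have hag : (S.g (S.g (rot w))).1 = w.1 := by rw [S.invol, rot_fst]
    rcases htype with hU | ⟨hP, hna⟩
    · refine Geo.see_U hG hU (hS.sub _ haF) (by rw [hag]; exact hS.sub _ hwF) ⟨w.2, ?_⟩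
      rw [hag]; exact hC
    · have hτ := hbl.1
      have h1 := Geo.see_pair (R := R) (C := C) hG hP (hS.sub _ haF) (hS.sub _ (g_memF hτ))
      rw [unrot_rot] at h1
      have h2 := h1 (by rw [hag]; exact hS.sub _ hwF) (hN fun hfa => hna ⟨hτ, hfa⟩)
        ⟨w.2, by rw [hag]; exact hC⟩
      exact h2

end

end Obj

end AG
end

/- AG.Pair.Rule -/
section
/-!
# Project AG, block 5: the pair rule (PR), adjacent blades (ADJ), each triangle is a blade triangle
at most once (ONE)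

* `adj_rule`: two blades at adjacent corners of one fan: `VirtB` on the counterclockwise side,
  `VirtA` on the clockwise side (both are virtual and share the side `v y`).
* `pair_rule`: stubs of two different blades at one visit form a 2-cut.
* `blade_one`: one triangle has at most one blade corner.
-/

set_option linter.unusedSectionVars false
set_option linter.unusedSimpArgs false

namespace AG

open Finset

variable {I : Type} [DecidableEq I]

namespace Obj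

section

variable {S : Obj I} {pt : Sd I → Pt} {R : Set Pt}

theorem Stub.bladeAt {w d : Sd I} (h : S.Stub pt w d) : S.BladeAt pt w := by
  rcases h with h | h | h
  · exact Or.inl h.1
  · exact Or.inr (Or.inl h.1)
  · exact Or.inr (Or.inr h.1)

/-- every blade has a stub -/
theorem BladeAt.exists_stub {w : Sd I} (h : S.BladeAt pt w) : ∃ d, S.Stub pt w d := by
  rcases h with h | h | h
  · exact ⟨w, Or.inl ⟨h, Or.inl rfl⟩⟩
  · exact ⟨w, Or.inr (Or.inl ⟨h, rfl⟩)⟩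
  · exact ⟨unrot w, Or.inr (Or.inr ⟨h, rfl⟩)⟩

theorem VirtA.not_virtB {w : Sd I} (h : S.VirtA pt w) : ¬ S.VirtB pt w := by
  intro h'
  exact h'.1.1 h.1.2.2.1

theorem Virt.not_blade {w : Sd I} (h : S.Virt pt w) : ¬ S.Blade w := fun h' => h'.not_face h.face

/-- the abstract blade of a blade with a given stub -/
theorem Stub.exists_bld (hS : Cex S pt R) {w d : Sd I} (h : S.Stub pt w d) :
    ∃ rm G y, S.Bld pt R w rm d G y ∧ G.card ≤ 2 ∧
      ∀ t ∈ rm, t = w.1 ∨ (S.Virt pt w ∧ t = (S.g (rot w)).1) := by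
  rcases h with ⟨h, h1 | h1⟩ | ⟨h, h1⟩ | ⟨h, h1⟩
  · obtain ⟨y, hy⟩ := bld_real hS h (σ := d) (τ := unrot w) (Or.inl ⟨h1, rfl⟩)
    refine ⟨_, _, y, hy, by rw [card_singleton]; omega, fun t ht => ?_⟩
    exact Or.inl (mem_singleton.1 ht)
  · obtain ⟨y, hy⟩ := bld_real hS h (σ := d) (τ := w) (Or.inr ⟨h1, rfl⟩)
    refine ⟨_, _, y, hy, by rw [card_singleton]; omega, fun t ht => ?_⟩
    exact Or.inl (mem_singleton.1 ht)
  · obtain ⟨y, hy⟩ := bld_virtA hS h
    refine ⟨{w.1, (S.g (rot w)).1}, {unrot w, unrot (S.g (rot w))}, y, by rw [h1]; exact hy,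
      card_le_two, fun t ht => ?_⟩
    rw [mem_insert, mem_singleton] at ht
    exact ht.imp id fun h2 => ⟨Or.inl h, h2⟩
  · obtain ⟨y, hy⟩ := bld_virtB hS h
    refine ⟨{w.1, (S.g (rot w)).1}, {w, rot (S.g (rot w))}, y, by rw [h1]; exact hy,
      card_le_two, fun t ht => ?_⟩
    rw [mem_insert, mem_singleton] at ht
    exact ht.imp id fun h2 => ⟨Or.inr h, h2⟩

/-- two real blades at one visit are not adjacent -/
theorem not_step_real (hS : Cex S pt R) {a b : Sd I} (ha : S.Blade a) (hb : S.Blade b) :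
    ¬ S.Step a b := by
  intro hst
  have hG : AG.Geo S pt := hS.geo
  have haF : a.1 ∈ S.F := S.memF a ha.1
  have he : S.Eqv a b := Relation.EqvGen.rel _ _ hst
  have hgab : S.g a = unrot b := by rw [hst.2, unrot_rot]
  have hne : b.1 ≠ a.1 := by
    intro h
    exact S.ne a ha.1 (by rw [hgab, unrot_fst, h])
  obtain ⟨y₁, b₁⟩ := bld_real hS ha (σ := a) (τ := unrot a) (Or.inl ⟨rfl, rfl⟩)
  obtain ⟨y₂, b₂⟩ := bld_real hS hb (σ := b) (τ := unrot b) (Or.inl ⟨rfl, rfl⟩)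
  have h1 := adj_step hS hS.bridgeless (Geo.linear hS.geo) b₁ b₂ hst
    (disjoint_singleton.2 hne.symm) (fun c hc hc2 => ?_) (by rw [card_singleton]; omega)
    (by rw [card_singleton]; omega)
  · exact unrot_ne a h1.1.symm
  · rw [mem_bd, mem_singleton] at hc
    rw [mem_singleton] at hc2
    obtain ⟨h2, h3, _⟩ := hc
    rcases eq_of_fst_eq h3 with h4 | h4 | h4
    · exact h4
    · rw [h4] at h2; exact absurd ha.2.2.1 h2
    · exfalso
      rw [h4] at h2 hc2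
      -- the other side of `a.1` leads to `b.1` too
      have e1 := hG.mat _ h2
      have e2 := hG.mat' h2
      rw [rot_unrot] at e2
      have e3 := hG.pt_eqv he
      rcases eq_of_fst_eq hc2 with h5 | h5 | h5
      · rw [h5] at e1
        -- `rot b` lies at the point of `unrot a`, `rot a` lies at the point of `unrot b`
        have e4 : AG.Geo S pt := hG
        have e5 := hG.mat' ha.1
        rw [hgab] at e5
        -- both sides `g a = unrot b`, `g (unrot a) = b`: a real blade `b` with the same neighbours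
        have e6 := hG.apex_ne ha.1
        rw [hgab, unrot_unrot] at e6
        exact e6 e1.symm
      · rw [h5] at e2
        exact hG.pt_ne_rot (S.memF b hb.1) (by rw [e2, e3])
      · have h6 : S.g (unrot a) = S.g a := by rw [h5, hgab]
        exact unrot_ne a (S.g_injective h6)

/-- the glued sides between the triangles of two blades at one visit -/
theorem pair_facts (hS : Cex S pt R) {w₁ w₂ : Sd I} (h₁ : S.BladeAt pt w₁)
    (h₂ : S.BladeAt pt w₂) (he : S.Eqv w₁ w₂) (hne : w₁ ≠ w₂) {rm₁ rm₂ : Finset I}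
    (hr₁ : ∀ t ∈ rm₁, t = w₁.1 ∨ (S.Virt pt w₁ ∧ t = (S.g (rot w₁)).1))
    (hr₂ : ∀ t ∈ rm₂, t = w₂.1 ∨ (S.Virt pt w₂ ∧ t = (S.g (rot w₂)).1)) :
    Disjoint rm₁ rm₂ ∧ ∀ a ∈ S.bd rm₁, (S.g a).1 ∈ rm₂ →
      (a = w₁ ∧ S.Step w₁ w₂) ∨ (a = unrot w₁ ∧ S.Step w₂ w₁) := by
  have hG : AG.Geo S pt := hS.geo
  have hpt := hG.pt_eqv he
  have hF₁ := BladeAt.memF h₁
  have hF₂ := BladeAt.memF h₂
  have hww : w₁.1 ≠ w₂.1 := hG.blade_fst_ne hF₁ hne hpt
  constructor
  · rw [disjoint_left]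
    intro t ht1 ht2
    rcases hr₁ t ht1 with h3 | ⟨v₁, h3⟩ <;> rcases hr₂ t ht2 with h4 | ⟨v₂, h4⟩
    · exact hww (h3.symm.trans h4)
    · exact hG.coin1' v₂.glued hpt.symm (h4.symm.trans h3)
    · exact hG.coin1' v₁.glued hpt (h3.symm.trans h4)
    · exact hG.coin1 v₁.glued v₂.glued hne hpt (h3.symm.trans h4)
  · intro a ha hga
    rw [mem_bd] at ha
    obtain ⟨ha1, ha2, ha3⟩ := ha
    rcases hr₁ _ ha2 with h3 | ⟨v₁, h3⟩ <;> rcases hr₂ _ hga with h4 | ⟨v₂, h4⟩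
    · -- both blade triangles
      have e1 := hG.mat a ha1
      have e2 := hG.mat' ha1
      -- the opposite side of `w₂.1` does not lead to `w₁.1`
      have hop : S.g a ≠ rot w₂ := by
        intro h5
        have h6 : S.g (rot w₂) = a := by rw [← h5, S.invol]
        rcases h₂ with h₂ | h₂
        · have := h₂.2.2.1
          rw [h6, ← h5] at this
          exact ha1 this.symm
        · exact hG.coin1' (w₁ := w₂) (w₂ := w₁) (Virt.glued (show S.Virt pt w₂ from h₂))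
            hpt.symm (by rw [h6, h3])
      rcases eq_of_fst_eq h3 with h5 | h5 | h5
      · left
        refine ⟨h5, ?_⟩
        rw [h5] at e1 e2 ha1 hop h4
        refine ⟨ha1, ?_⟩
        rcases eq_of_fst_eq h4 with h6 | h6 | h6
        · exfalso
          rw [h6] at e2
          exact hG.pt_ne_rot hF₁ (by rw [← e2, hpt])
        · exact absurd h6 hop
        · rw [h6, rot_unrot]
      · exfalso
        rw [h5] at ha1 h4
        rcases h₁ with h₁ | h₁
        · exact ha1 h₁.2.2.1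
        · exact hG.coin1' (w₁ := w₁) (w₂ := w₂) ha1 hpt h4
      · right
        refine ⟨h5, ?_⟩
        rw [h5] at e1 e2 ha1 hop h4
        rcases eq_of_fst_eq h4 with h6 | h6 | h6
        · refine ⟨?_, ?_⟩
          · rw [← h6, S.invol]; exact ha1.symm
          · rw [← h6, S.invol, rot_unrot]
        · exact absurd h6 hop
        · exfalso
          rw [h6, rot_unrot] at e1
          exact hG.pt_ne_unrot hF₁ (by rw [← e1, hpt])
    · exact absurd h4 (hG.coin2' (w₁ := w₂) (w₂ := w₁) v₂.glued hne.symm hpt.symm h3 ha1)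
    · exact absurd h4 (hG.coin2 v₁.glued hne hpt h3 ha1)
    · exfalso
      rcases hG.coin3 v₁ v₂ hpt h3 ha1 h4 with ⟨hA, hB, hst⟩ | ⟨hB, hA, hst⟩
      · exact not_step_real hS hB.1 hA.1 hst
      · exact not_step_real hS hB.1 hA.1 hst

theorem not_step_symm (hS : Cex S pt R) {a b : Sd I} (h : S.Step a b) : ¬ S.Step b a := by
  intro h'
  have hL : S.Linear := Geo.linear hS.geo
  have h1 : S.cw a = b := by rw [cw_of_glued h.1, h.2]
  have h2 : S.cw b = a := by rw [cw_of_glued h'.1, h'.2]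
  have h3 := hL.glued_of_iter h.1 (m := 2) (by norm_num)
  apply h3
  rw [Function.iterate_succ_apply, h1, Function.iterate_one, h2]

/-- ADJ: blades at adjacent corners of one fan -/
theorem adj_rule (hS : Cex S pt R) {w₁ w₂ : Sd I} (h₁ : S.BladeAt pt w₁)
    (h₂ : S.BladeAt pt w₂) (hst : S.Step w₁ w₂) : S.VirtB pt w₁ ∧ S.VirtA pt w₂ := by
  have hG : AG.Geo S pt := hS.geo
  have hL : S.Linear := Geo.linear hS.geo
  have he : S.Eqv w₁ w₂ := Relation.EqvGen.rel _ _ hst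
  have hne : w₁ ≠ w₂ := by
    rintro rfl
    exact not_step_symm hS hst hst
  have key : ∀ d₁ d₂, S.Stub pt w₁ d₁ → S.Stub pt w₂ d₂ → d₁ = unrot w₁ ∧ d₂ = w₂ := by
    intro d₁ d₂ hd₁ hd₂
    obtain ⟨rm₁, G₁, y₁, b₁, hc₁, hr₁⟩ := hd₁.exists_bld hS
    obtain ⟨rm₂, G₂, y₂, b₂, hc₂, hr₂⟩ := hd₂.exists_bld hS
    obtain ⟨hd, hu⟩ := pair_facts hS h₁ h₂ he hne hr₁ hr₂
    have := adj_step hS hS.bridgeless hL b₁ b₂ hst hd (fun a ha hga => ?_) hc₁ hc₂
    · exact ⟨this.1, this.2.1⟩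
    · rcases hu a ha hga with h3 | h3
      · exact h3.1
      · exact absurd h3.2 (not_step_symm hS hst)
  obtain ⟨d₁, hd₁⟩ := BladeAt.exists_stub h₁
  obtain ⟨d₂, hd₂⟩ := BladeAt.exists_stub h₂
  constructor
  · rcases h₁ with h | h | h
    · exact absurd (key w₁ d₂ (Or.inl ⟨h, Or.inl rfl⟩) hd₂).1 (unrot_ne w₁).symm
    · exact absurd (key w₁ d₂ (Or.inr (Or.inl ⟨h, rfl⟩)) hd₂).1 (unrot_ne w₁).symm
    · exact h
  · rcases h₂ with h | h | h
    · exact absurd (key d₁ (unrot w₂) hd₁ (Or.inl ⟨h, Or.inr rfl⟩)).2 (unrot_ne w₂)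
    · exact h
    · exact absurd (key d₁ (unrot w₂) hd₁ (Or.inr (Or.inr ⟨h, rfl⟩))).2 (unrot_ne w₂)

/-- PR: the pair rule -/
theorem pair_rule (hS : Cex S pt R) {w₁ w₂ d₁ d₂ : Sd I} (hd₁ : S.Stub pt w₁ d₁)
    (hd₂ : S.Stub pt w₂ d₂) (he : S.Eqv w₁ w₂) (hne : w₁ ≠ w₂) :
    ∃ T ⊆ S.F, ∃ e₁ e₂, (e₁ = d₁ ∨ e₁ = S.g d₁) ∧ (e₂ = d₂ ∨ e₂ = S.g d₂) ∧
      S.bd T = {e₁, e₂} ∧ e₁ ≠ e₂ := by
  have hL : S.Linear := Geo.linear hS.geo
  have h₁ := hd₁.bladeAt
  have h₂ := hd₂.bladeAt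
  obtain ⟨rm₁, G₁, y₁, b₁, hc₁, hr₁⟩ := hd₁.exists_bld hS
  obtain ⟨rm₂, G₂, y₂, b₂, hc₂, hr₂⟩ := hd₂.exists_bld hS
  obtain ⟨hd, hu⟩ := pair_facts hS h₁ h₂ he hne hr₁ hr₂
  obtain ⟨hd', hu'⟩ := pair_facts hS h₂ h₁ he.symm hne.symm hr₂ hr₁
  by_cases hst : S.Step w₁ w₂
  · refine (adj_step hS hS.bridgeless hL b₁ b₂ hst hd (fun a ha hga => ?_) hc₁ hc₂).2.2
    rcases hu a ha hga with h3 | h3
    · exact h3.1
    · exact absurd h3.2 (not_step_symm hS hst)
  · by_cases hst' : S.Step w₂ w₁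
    · obtain ⟨T, hT, e₁, e₂, h3, h4, h5, h6⟩ :=
        (adj_step hS hS.bridgeless hL b₂ b₁ hst' hd' (fun a ha hga => by
          rcases hu' a ha hga with h3 | h3
          · exact h3.1
          · exact absurd h3.2 hst) hc₂ hc₁).2.2
      exact ⟨T, hT, e₂, e₁, h4, h3, by rw [h5, pair_comm], h6.symm⟩
    · refine cut_nonadj hS hS.bridgeless hL b₁ b₂ he hne hd fun a ha hga => ?_
      rcases hu a ha hga with h3 | h3
      · exact hst h3.2
      · exact hst' h3.2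

/-- PR, second form: the boundary edges of `T` are the stubs `d₁` and `d₂`, which are different -/
theorem pair_rule' (hS : Cex S pt R) {w₁ w₂ d₁ d₂ : Sd I} (hd₁ : S.Stub pt w₁ d₁)
    (hd₂ : S.Stub pt w₂ d₂) (he : S.Eqv w₁ w₂) (hne : w₁ ≠ w₂) :
    d₁ ≠ d₂ ∧ d₁ ≠ S.g d₂ ∧ ∃ T ⊆ S.F, ∀ a, (a ∈ S.bd T ∨ S.g a ∈ S.bd T) ↔
      (a = d₁ ∨ a = S.g d₁ ∨ a = d₂ ∨ a = S.g d₂) := by
  obtain ⟨T, hT, e₁, e₂, h1, h2, h3, h4⟩ := pair_rule hS hd₁ hd₂ he hne
  have m1 : e₁ ∈ S.bd T := by rw [h3]; simp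
  have m2 : e₂ ∈ S.bd T := by rw [h3]; simp
  have n1 := bd_asymm m1
  have hdis : e₁ ≠ S.g e₂ := by
    intro h5
    have := bd_asymm m2
    rw [← h5] at this
    exact this m1
  refine ⟨?_, ?_, T, hT, fun a => ?_⟩
  · intro h5
    subst h5
    rcases h1 with h1 | h1 <;> rcases h2 with h2 | h2
    · exact h4 (h1.trans h2.symm)
    · exact hdis (by rw [h1, h2, S.invol])
    · exact hdis (by rw [h1, h2])
    · exact h4 (h1.trans h2.symm)
  · intro h5
    rcases h1 with h1 | h1 <;> rcases h2 with h2 | h2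
    · exact hdis (by rw [h1, h2, h5])
    · exact h4 (by rw [h1, h2, h5])
    · exact h4 (by rw [h1, h2, h5, S.invol])
    · exact hdis (by rw [h1, h2, h5])
  · rw [h3, mem_insert, mem_singleton, mem_insert, mem_singleton]
    have inv : ∀ x z : Sd I, S.g x = z ↔ x = S.g z := fun x z =>
      ⟨fun h => by rw [← h, S.invol], fun h => by rw [h, S.invol]⟩
    rw [inv a e₁, inv a e₂]
    rcases h1 with h1 | h1 <;> rcases h2 with h2 | h2 <;> rw [h1, h2] <;>
      (try simp only [S.invol]) <;> tauto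

/-- ONE: a triangle is the blade triangle of at most one blade -/
theorem blade_one (hS : Cex S pt R) {w w' : Sd I} (h : S.BladeAt pt w) (h' : S.BladeAt pt w')
    (hw : w.1 = w'.1) : w = w' := by
  -- type A at `w` excludes every other virtual blade at a corner of the same triangle
  have keyA : ∀ {w w' : Sd I}, S.VirtA pt w → S.Virt pt w' → w.1 = w'.1 → w' = w := by
    intro w w' hA hv hww
    have hf := hA.face
    have hgl := hA.glued
    rcases eq_of_fst_eq hww.symm with e | e | e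
    · exact e
    · -- `w' = rot w`: the other blade triangle is across the side `unrot w`
      exfalso
      have er : rot w' = unrot w := by rw [e, rot_rot]
      have hgl' := hv.glued
      rw [er] at hgl'
      rcases hv with hv | hv
      · -- apex at the visit of `w`
        have hb : S.Blade (S.g (unrot w)) := by
          have := hv.1; rwa [er] at this
        have hst : S.Step (S.g (unrot w)) w :=
          ⟨g_ne_iff.2 hgl', by rw [S.invol, rot_unrot]⟩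
        have := (adj_rule hS (Or.inl hb) (Or.inr (Or.inl hA)) hst).1
        exact Virt.not_blade (Or.inr this) hb
      · -- apex at the visit of `unrot w`
        have hb : S.Blade (rot (S.g (unrot w))) := by
          have := hv.1; rwa [er] at this
        have ha : S.Blade (S.g (rot w)) := hA.1
        have e1 : S.Eqv (S.g (rot w)) (unrot w) := by
          have := Eqv.of_glued' hgl
          rw [rot_rot] at this
          exact this.symm
        have e2 : S.Eqv (unrot w) (rot (S.g (unrot w))) := Eqv.of_glued hgl'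
        have hne : S.g (rot w) ≠ rot (S.g (unrot w)) := by
          intro h3
          have h4 : (S.g (rot w)).1 = (S.g (unrot w)).1 := by rw [h3, rot_fst]
          have hG : AG.Geo S pt := hS.geo
          refine hG.pt_ne_of_across hgl (d := S.g (unrot w)) h4.symm ?_
          rw [hG.mat' hgl', rot_unrot]
        obtain ⟨T, hT, x₁, x₂, h5, h6, h7, h8⟩ := pair_rule hS
          (d₁ := S.g (rot w)) (d₂ := S.g (unrot w)) (Or.inl ⟨ha, Or.inl rfl⟩)
          (Or.inl ⟨hb, Or.inr (by rw [unrot_rot])⟩) (e1.trans e2) hne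
        rw [S.invol] at h5 h6
        have hru : (rot w) ≠ unrot w := rot_ne_unrot w
        have hfc := hS.bridgeless.face_cut hT (a := rot w) (b := unrot w) hf rfl hru
        have m1 : x₁ ∈ S.bd T := by rw [h7]; simp
        have m2 : x₂ ∈ S.bd T := by rw [h7]; simp
        rcases h5 with h5 | h5 <;> rcases h6 with h6 | h6
        · exact hfc.2 (by rw [h7, h5, h6])
        · rw [h5] at m1; rw [h6] at m2
          exact (mem_bd.1 m1).2.2 (by rw [S.invol]; exact (mem_bd.1 m2).2.1)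
        · rw [h5] at m1; rw [h6] at m2
          exact (mem_bd.1 m2).2.2 (by rw [S.invol]; exact (mem_bd.1 m1).2.1)
        · exact hfc.1 (by rw [h7, h5, h6])
    · -- `w' = unrot w`: the other blade triangle is across the side `w`
      exfalso
      have er : rot w' = w := by rw [e, rot_unrot]
      have hgl' := hv.glued
      rw [er] at hgl'
      rcases hv with hv | hv
      · -- virtual at `unrot w`, adjacent to the real blade `g (rot w)`
        have hst : S.Step (S.g (rot w)) w' :=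
          ⟨g_ne_iff.2 hgl, by rw [S.invol, rot_rot, e]⟩
        have := (adj_rule hS (Or.inl hA.1) (Or.inr (Or.inl hv)) hst).1
        exact Virt.not_blade (Or.inr this) hA.1
      · have hb : S.Blade (rot (S.g w)) := by
          have := hv.1; rwa [er] at this
        have hst : S.Step w (rot (S.g w)) := ⟨hgl', rfl⟩
        have := (adj_rule hS (Or.inr (Or.inl hA)) (Or.inl hb) hst).2
        exact Virt.not_blade (Or.inl this) hb
  -- two blades of type B
  have keyB : ∀ {w : Sd I}, S.VirtB pt w → S.VirtB pt (rot w) → False := by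
    intro w hB hB'
    have hst : S.Step (rot w) (rot (S.g (rot w))) := ⟨hB.glued, rfl⟩
    have := (adj_rule hS (Or.inr (Or.inr hB')) (Or.inl hB.1) hst).2
    exact Virt.not_blade (Or.inl this) hB.1
  rcases h with h | h
  · rcases h' with h' | h'
    · rcases eq_of_fst_eq hw.symm with e | e | e
      · exact e.symm
      · exfalso
        rw [e] at h'
        exact h'.1 h.2.2.1
      · exfalso
        rw [e] at h'
        have := h'.2.1
        rw [unrot_unrot] at this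
        exact this h.2.2.1
    · exact absurd (hw ▸ (Virt.face (show S.Virt pt w' from h'))) h.not_face
  · rcases h' with h' | h'
    · exact absurd (hw ▸ (Virt.face (show S.Virt pt w from h))) h'.not_face
    · rcases h with hA | hB
      · exact (keyA hA h' hw).symm
      · rcases h' with hA' | hB'
        · exact keyA hA' (Or.inr hB) hw.symm
        · rcases eq_of_fst_eq hw.symm with e | e | e
          · exact e.symm
          · rw [e] at hB'; exact (keyB hB hB').elim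
          · rw [e] at hB'
            exact (keyB hB' (by rw [rot_unrot]; exact hB)).elim

end

end Obj

end AG
end

/- AG.Reg.OfCex -/
section
/-!
# Project AG: a minimal counterexample satisfies all hypotheses `Base` of sections 6-8
-/

set_option linter.unusedSectionVars false
set_option linter.unusedSimpArgs false

namespace AG

open Finset

variable {I : Type} [DecidableEq I]

namespace Obj

variable {S : Obj I} {pt : Sd I → Pt} {R : Set Pt}

theorem EarEnd.congr {p w : Sd I} (h : S.EarEnd p) (he : S.Eqv p w) : S.EarEnd w := by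
  obtain ⟨a, ha, h1⟩ := h
  exact ⟨a, ha, h1.imp (fun h => h.trans he) (fun h => h.trans he)⟩

/-- no blade at an ear end -/
theorem Cex.earEnd_bladeAt (hC : Cex S pt R) {p w : Sd I} (hp : S.EarEnd p)
    (hw : S.BladeAt pt w) : ¬ S.Eqv p w := by
  intro he
  have h1 := hp.congr he
  have hv : ∀ c, S.Cand pt c → S.g (rot w) = c → S.g (rot w) ≠ rot w → False := by
    intro c hc hcw _
    have := hC.cand_not_earEnd hc
    rw [← hcw, S.invol, unrot_rot] at this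
    exact this h1
  rcases hw with h | h | h
  · exact hC.blade_not_earEnd h h1
  · exact hv _ (Or.inl h) rfl h.glued
  · exact hv _ (Or.inr h) rfl h.glued

theorem Cex.base (hC : Cex S pt R) : Base S pt where
  conn := hC.conn
  bl := hC.bridgeless
  lin := Geo.linear hC.geo
  two := hC.two_le
  seg a b ha hb h1 h2 := Geo.eq_of_eqv hC.geo (S.memF a ha) (S.memF b hb) h1 h2
  tri a b ha hb h := (AG.Geo.eq_of_fst hC.geo ha hb (AG.Geo.pt_eqv hC.geo h).symm).symm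
  pr c1 c2 d1 d2 _ _ he hne hd1 hd2 := by
    obtain ⟨h1, h2, _⟩ := pair_rule' hC hd1 hd2 he hne
    obtain ⟨T, hT, e₁, e₂, h3, h4, h5, _⟩ := pair_rule hC hd1 hd2 he hne
    exact ⟨h1, h2, T, hT, e₁, e₂, h3, h4, h5⟩
  adj c1 c2 h1 h2 hst := adj_rule hC h1 h2 hst
  one w w' h h' hw := blade_one hC h h' hw
  earEnd p w hp hw := hC.earEnd_bladeAt hp hw
  ear_se a ha b hb := hC.not_two_ears ha hb

end Obj

end AG
end
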