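import Pool.Agent.AG.Statement
import Pool.Agent.Helper16.VGG.G02
import Pool.Agent.Helper16.VGG.G09
import Pool.Agent.Helper16.VGG.G11
import Pool.Agent.Helper16.VGG.G12
import Pool.Agent.Helper16.VGG.G13

/- AG.GC.Comps -/
section
/-!
# The connected pieces of the object of a triangulation
-/

set_option autoImplicit false

noncomputable section

namespace AG

open scoped Classical
open Pool.Agent.Helper69

theorem Obj.Geo.mono' {I : Type} [DecidableEq I] {S S' : Obj I} {pt : Sd I → Pt}
    (h : S.Geo pt) (hle : S'.Le S) : S'.Geo pt where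
  ccw0 t ht := h.ccw0 t (hle.F ht)
  mat a ha := by
    rcases hle.g a with e | e
    · rw [e]
      exact h.mat a (by rw [← e]; exact ha)
    · exact absurd e ha
  disj0 t ht s hs hne := h.disj0 t (hle.F ht) s (hle.F hs) hne
  asum p := by
    refine lt_of_le_of_lt ?_ (h.asum p)
    refine Finset.sum_le_sum_of_subset_of_nonneg ?_ ?_
    · intro a ha
      rw [Finset.mem_filter] at ha ⊢
      refine ⟨?_, ha.2⟩
      unfold Obj.sides at *
      rw [Finset.mem_product] at *
      exact ⟨hle.F ha.1.1, ha.1.2⟩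
    · intro a ha _
      rw [Finset.mem_filter] at ha
      have h1 : a.1 ∈ S.F := by
        have := ha.1
        unfold Obj.sides at this
        exact (Finset.mem_product.1 this).1
      have h2 := h.ccw0 a.1 h1
      obtain ⟨t, i⟩ := a
      have h3 : Ccw (pt (t, i)) (pt (rot (t, i))) (pt (unrot (t, i))) := by
        fin_cases i
        · exact h2
        · exact h2.rot
        · exact h2.rot'
      exact (ang_pos h3).le

variable {T : Finset (Finset Pt)} (hT : AGF.IsTri T)

/-- the triangles of a component of the dual graph -/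
def compF (C : (AGF.dual T).ConnectedComponent) : Finset (Finset Pt) :=
  T.filter fun t => ∃ h : t ∈ T, (AGF.dual T).connectedComponentMk ⟨t, h⟩ = C

theorem mem_compF {C : (AGF.dual T).ConnectedComponent} {t : Finset Pt} :
    t ∈ compF C ↔ ∃ h : t ∈ T, (AGF.dual T).connectedComponentMk ⟨t, h⟩ = C := by
  unfold compF
  rw [Finset.mem_filter]
  exact ⟨fun h => h.2, fun h => ⟨h.1, h⟩⟩

/-- a piece -/
def piece (C : (AGF.dual T).ConnectedComponent) : Obj (Finset Pt) := (ofTri hT).keep (compF C)

theorem piece_F (C : (AGF.dual T).ConnectedComponent) : (piece hT C).F = compF C := by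
  show T ∩ compF C = compF C
  rw [Finset.inter_eq_right]
  intro t ht
  exact (mem_compF.1 ht).1

theorem piece_E (C : (AGF.dual T).ConnectedComponent) : (piece hT C).E = ∅ := by
  show (∅ : Finset (Sd (Finset Pt))).filter _ = ∅
  rw [Finset.filter_empty]

include hT in
theorem gl_comp {a b : Sd (Finset Pt)} (h : Gl T a b) {C : (AGF.dual T).ConnectedComponent}
    (ha : a.1 ∈ compF C) : b.1 ∈ compF C := by
  obtain ⟨h1, h2⟩ := mem_compF.1 ha
  refine mem_compF.2 ⟨h.2.1, ?_⟩
  rw [← h2, SimpleGraph.ConnectedComponent.eq]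
  apply SimpleGraph.Adj.reachable
  refine ⟨h.2.1, h1, h.2.2.1.symm, eset a, ?_, ?_, ?_, trivial⟩
  · have := (cor_ccw hT h1 a.2).ne
    exact eset_card hT h1
  · rw [← eset_gl h]
    exact eset_sub hT h.2.1
  · exact eset_sub hT h1

theorem piece_g {C : (AGF.dual T).ConnectedComponent} {a : Sd (Finset Pt)}
    (ha : a.1 ∈ compF C) : (piece hT C).g a = glue T a := by
  show (if a.1 ∈ compF C ∧ ((ofTri hT).g a).1 ∈ compF C then (ofTri hT).g a else a) = glue T a
  rw [ofTri_g]
  by_cases h : glue T a = a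
  · rw [h]; simp
  · rw [if_pos ⟨ha, gl_comp hT (gl_of_ne h) ha⟩]

theorem piece_le (C : (AGF.dual T).ConnectedComponent) : (piece hT C).Le (ofTri hT) where
  F := by
    rw [piece_F]
    intro t ht
    exact (mem_compF.1 ht).1
  g a := by
    show (if a.1 ∈ compF C ∧ ((ofTri hT).g a).1 ∈ compF C then (ofTri hT).g a else a) = _ ∨
      (if a.1 ∈ compF C ∧ ((ofTri hT).g a).1 ∈ compF C then (ofTri hT).g a else a) = _
    split_ifs
    · left; rfl
    · right; rfl

theorem piece_conn (C : (AGF.dual T).ConnectedComponent) : (piece hT C).Conn := by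
  constructor
  · obtain ⟨⟨t, ht⟩, rfl⟩ := C.exists_rep
    rw [piece_F]
    exact ⟨t, mem_compF.2 ⟨ht, rfl⟩⟩
  · intro X hX hXne hXF
    rw [piece_F] at hX hXF
    obtain ⟨t, ht⟩ := hXne
    obtain ⟨t', ht', hnt'⟩ : ∃ t' ∈ compF C, t' ∉ X := by
      by_contra hcon
      push Not at hcon
      exact hXF (Finset.Subset.antisymm hX hcon)
    obtain ⟨h1, h2⟩ := mem_compF.1 (hX ht)
    obtain ⟨h3, h4⟩ := mem_compF.1 ht'
    have hr : (AGF.dual T).Reachable ⟨t, h1⟩ ⟨t', h3⟩ := by
      rw [← SimpleGraph.ConnectedComponent.eq, h2, h4]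
    -- an edge leaving X
    obtain ⟨w⟩ := hr
    have key : ∀ {u u' : {t // t ∈ T}} (_ : (AGF.dual T).Walk u u'), u.1 ∈ X → u'.1 ∉ X →
        ∃ p q : {t // t ∈ T}, (AGF.dual T).Adj p q ∧ p.1 ∈ X ∧ q.1 ∉ X := by
      intro u u' w
      induction w with
      | nil => intro h h'; exact absurd h h'
      | @cons u v u' hadj _ ih =>
        intro h h'
        by_cases hv : v.1 ∈ X
        · exact ih hv h'
        · exact ⟨u, v, hadj, h, hv⟩
    obtain ⟨p, q, hadj, hp, hq⟩ := key w ht hnt'
    obtain ⟨-, -, hne, e, he, hep, heq, -⟩ := hadj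
    obtain ⟨i, hi⟩ := exists_eset hT he p.2 hep
    have hcommon : eset (p.1, i) ⊆ q.1 := by rw [hi]; exact heq
    obtain ⟨j, hj⟩ := glue_of_common hT (a := (p.1, i)) p.2 q.2 hne hcommon
    have hpC : p.1 ∈ compF C := hX hp
    have hg : (piece hT C).g (p.1, i) = (q.1, j) := by
      rw [piece_g hT (a := (p.1, i)) hpC]
      exact glue_of hT hj
    refine ⟨(p.1, i), ?_⟩
    unfold Obj.bd Obj.glued Obj.sides
    rw [Finset.mem_filter, Finset.mem_filter, Finset.mem_product, piece_F]
    refine ⟨⟨⟨hpC, Finset.mem_univ _⟩, ?_⟩, hp, ?_⟩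
    · rw [hg]
      intro h
      exact hne (congrArg Prod.fst h).symm
    · rw [hg]
      exact hq

theorem piece_vis (C : (AGF.dual T).ConnectedComponent) :
    (piece hT C).vis = (ofTri hT).vis.filter (fun a => a.1 ∈ compF C) := by
  ext a
  unfold Obj.vis Obj.sides
  rw [Finset.mem_filter, Finset.mem_filter, Finset.mem_filter, Finset.mem_product,
    Finset.mem_product, piece_F]
  constructor
  · rintro ⟨⟨h1, h2⟩, h3⟩
    refine ⟨⟨⟨(mem_compF.1 h1).1, h2⟩, ?_⟩, h1⟩
    rw [piece_g hT h1] at h3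
    exact h3
  · rintro ⟨⟨⟨h1, h2⟩, h3⟩, h4⟩
    refine ⟨⟨h4, h2⟩, ?_⟩
    rw [piece_g hT h4]
    exact h3

instance : Finite (AGF.dual T).ConnectedComponent :=
  Quot.finite _

theorem sum_card_fiber {α : Type*} (A : Finset α) (f : α → Finset Pt) (hf : ∀ a ∈ A, f a ∈ T)
    [Fintype (AGF.dual T).ConnectedComponent] :
    ∑ C : (AGF.dual T).ConnectedComponent, (A.filter (fun a => f a ∈ compF C)).card = A.card := by
  rw [← Finset.card_biUnion]
  · congr 1
    ext a
    simp only [Finset.mem_biUnion, Finset.mem_univ, true_and, Finset.mem_filter]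
    constructor
    · rintro ⟨C, h, -⟩; exact h
    · intro h
      exact ⟨(AGF.dual T).connectedComponentMk ⟨f a, hf a h⟩, h, mem_compF.2 ⟨hf a h, rfl⟩⟩
  · intro C _ C' _ hne
    refine Finset.disjoint_left.2 fun a h h' => hne ?_
    rw [Finset.mem_filter] at h h'
    obtain ⟨h1, h2⟩ := mem_compF.1 h.2
    obtain ⟨h3, h4⟩ := mem_compF.1 h'.2
    rw [← h2, ← h4]

/-- the sum of the numbers `N2` of the pieces -/
theorem sum_N2 [Fintype (AGF.dual T).ConnectedComponent] :
    ∑ C : (AGF.dual T).ConnectedComponent, (piece hT C).N2 0 =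
      T.card + (ofTri hT).vis.card + 2 * Fintype.card (AGF.dual T).ConnectedComponent := by
  have h1 : ∀ C : (AGF.dual T).ConnectedComponent, (piece hT C).N2 0 =
      (T.filter (fun t => id t ∈ compF C)).card +
        ((ofTri hT).vis.filter (fun a => a.1 ∈ compF C)).card + 2 := by
    intro C
    unfold Obj.N2
    rw [piece_E, piece_F, piece_vis]
    have : compF C = T.filter (fun t => id t ∈ compF C) := by
      ext t
      rw [Finset.mem_filter]
      exact ⟨fun h => ⟨(mem_compF.1 h).1, h⟩, fun h => h.2⟩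
    rw [← this]
    simp
  simp_rw [h1]
  rw [Finset.sum_add_distrib, Finset.sum_add_distrib, sum_card_fiber T id (fun t ht => ht),
    sum_card_fiber (ofTri hT).vis Prod.fst]
  · rw [Finset.sum_const, Finset.card_univ]
    ring
  · intro a ha
    unfold Obj.vis at ha
    rw [Finset.mem_filter, mem_sides_ofTri] at ha
    exact ha.1

end AG

end
end

/- Helper94.UR.Outer -/
section
/-!
# The unbounded component and vertical lines
-/

set_option autoImplicit false

namespace Pool.Agent.Helper94.UR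

open Pool.Agent.Helper20.Flip Pool.Agent.Helper97.UDP Topology

variable {n : ℕ} {V : ZMod n → Pt}

private theorem neZero_of_simple (hV : IsSimple V) : NeZero n := ⟨by have := hV.1; omega⟩

private theorem curve_bdd (hV : IsSimple V) : ∃ R : ℝ, 0 ≤ R ∧ ∀ p ∈ curve V, ‖p‖ ≤ R := by
  have := neZero_of_simple hV
  refine ⟨∑ i, ‖V i‖, Finset.sum_nonneg fun i _ => norm_nonneg _, ?_⟩
  rintro p ⟨i, hi⟩
  have h1 : ∀ j, V j ∈ Metric.closedBall (0 : Pt) (∑ i, ‖V i‖) := by
    intro j
    rw [mem_closedBall_zero_iff]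
    exact Finset.single_le_sum (f := fun i => ‖V i‖) (fun i _ => norm_nonneg _)
      (Finset.mem_univ j)
  have h2 := (convex_closedBall (0 : Pt) (∑ i, ‖V i‖)).segment_subset (h1 i) (h1 (i + 1)) hi
  rwa [mem_closedBall_zero_iff] at h2

private theorem outer_preconnected {R : ℝ} (hR : 0 ≤ R) : IsPreconnected {x : Pt | R < ‖x‖} := by
  have e : {x : Pt | R < ‖x‖} =
      (({x : Pt | R < x.1} ∪ {x : Pt | R < x.2}) ∪ {x : Pt | x.1 < -R}) ∪ {x : Pt | x.2 < -R} := by
    ext x
    simp only [Set.mem_setOf_eq, Set.mem_union, Prod.norm_def, lt_max_iff, Real.norm_eq_abs,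
      lt_abs]
    constructor
    · rintro ((h | h) | (h | h))
      · exact Or.inl (Or.inl (Or.inl h))
      · exact Or.inl (Or.inr (by linarith))
      · exact Or.inl (Or.inl (Or.inr h))
      · exact Or.inr (by linarith)
    · rintro (((h | h) | h) | h)
      · exact Or.inl (Or.inl h)
      · exact Or.inr (Or.inl h)
      · exact Or.inl (Or.inr (by linarith))
      · exact Or.inr (Or.inr (by linarith))
  have c1 : IsPreconnected {x : Pt | R < x.1} := by
    apply Convex.isPreconnected
    exact convex_halfSpace_gt (LinearMap.fst ℝ ℝ ℝ).isLinear R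
  have c2 : IsPreconnected {x : Pt | R < x.2} := by
    apply Convex.isPreconnected
    exact convex_halfSpace_gt (LinearMap.snd ℝ ℝ ℝ).isLinear R
  have c3 : IsPreconnected {x : Pt | x.1 < -R} := by
    apply Convex.isPreconnected
    exact convex_halfSpace_lt (LinearMap.fst ℝ ℝ ℝ).isLinear (-R)
  have c4 : IsPreconnected {x : Pt | x.2 < -R} := by
    apply Convex.isPreconnected
    exact convex_halfSpace_lt (LinearMap.snd ℝ ℝ ℝ).isLinear (-R)
  rw [e]
  have d1 : IsPreconnected ({x : Pt | R < x.1} ∪ {x : Pt | R < x.2}) :=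
    IsPreconnected.union ((R + 1, R + 1) : Pt) (by show R < R + 1; linarith)
      (by show R < R + 1; linarith) c1 c2
  have d2 : IsPreconnected (({x : Pt | R < x.1} ∪ {x : Pt | R < x.2}) ∪ {x : Pt | x.1 < -R}) :=
    IsPreconnected.union ((-R - 1, R + 1) : Pt) (Or.inr (by show R < R + 1; linarith))
      (by show -R - 1 < -R; linarith) d1 c3
  exact IsPreconnected.union ((R + 1, -R - 1) : Pt)
    (Or.inl (Or.inl (by show R < R + 1; linarith)))
    (by show -R - 1 < -R; linarith) d2 c4

/-- two points outside of the region are in the same component of the complement -/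
theorem same_outer (hV : IsSimple V) {p q : Pt} (hp : p ∉ region V) (hq : q ∉ region V) :
    q ∈ connectedComponentIn (curve V)ᶜ p := by
  obtain ⟨R, hR, hb⟩ := curve_bdd hV
  have hO := outer_preconnected hR
  have hOC : {x : Pt | R < ‖x‖} ⊆ (curve V)ᶜ := fun x hx hxc => absurd (hb x hxc) (not_le.2 hx)
  have key : ∀ p : Pt, p ∉ region V → ∃ x : Pt, R < ‖x‖ ∧
      connectedComponentIn (curve V)ᶜ p = connectedComponentIn (curve V)ᶜ x := by
    intro p hp
    have hpC : p ∉ curve V := fun h => hp (Or.inl h)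
    by_contra hcon
    push Not at hcon
    apply hp
    right
    refine (Metric.isBounded_closedBall (x := (0 : Pt)) (r := R)).subset ?_
    intro x hx
    rw [mem_closedBall_zero_iff]
    by_contra hxR
    exact hcon x (not_le.1 hxR) (connectedComponentIn_eq hx)
  obtain ⟨x, hx, hpx⟩ := key p hp
  obtain ⟨y, hy, hqy⟩ := key q hq
  have h1 : y ∈ connectedComponentIn (curve V)ᶜ x := hO.subset_connectedComponentIn hx hOC hy
  have h2 := connectedComponentIn_eq h1
  rw [hpx, h2, ← hqy]
  exact mem_connectedComponentIn fun h => hq (Or.inl h)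

/-- on a vertical line which contains no vertex, the curve consists of the points with the heights
of the edges that cross it -/
theorem mem_curve_iff (hV : IsSimple V) {p : Pt} (hg : Gen V p) :
    p ∈ curve V ↔ ∃ i, (((V i).1 < p.1 ∧ p.1 < (V (i + 1)).1) ∨
      ((V (i + 1)).1 < p.1 ∧ p.1 < (V i).1)) ∧ p.2 = hgt V i p.1 := by
  constructor
  · rintro ⟨i, a, b, ha, hb, hab, hp⟩
    refine ⟨i, ?_⟩
    have hp1 : p.1 = (V i).1 + b * ((V (i + 1)).1 - (V i).1) := by
      rw [← hp]
      have : a = 1 - b := by linarith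
      subst this
      simp only [Prod.fst_add, Prod.smul_fst, smul_eq_mul]
      ring
    have hp2 : p.2 = (V i).2 + b * ((V (i + 1)).2 - (V i).2) := by
      rw [← hp]
      have : a = 1 - b := by linarith
      subst this
      simp only [Prod.snd_add, Prod.smul_snd, smul_eq_mul]
      ring
    have hne : (V (i + 1)).1 - (V i).1 ≠ 0 := by
      intro h
      apply hg i
      rw [hp1, h, mul_zero, add_zero]
    have hb0 : 0 < b := by
      rcases eq_or_lt_of_le hb with h | h
      · exfalso
        apply hg i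
        rw [hp1, ← h, zero_mul, add_zero]
      · exact h
    have hb1 : b < 1 := by
      rcases eq_or_lt_of_le (show b ≤ 1 by linarith) with h | h
      · exfalso
        apply hg (i + 1)
        rw [hp1, h, one_mul]
        ring
      · exact h
    constructor
    · rcases lt_or_gt_of_ne hne with h | h
      · right
        constructor <;> nlinarith
      · left
        constructor <;> nlinarith
    · rw [hp2]
      unfold hgt
      have : p.1 - (V i).1 = b * ((V (i + 1)).1 - (V i).1) := by rw [hp1]; ring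
      rw [this]
      field_simp
  · rintro ⟨i, hi, hh⟩
    refine ⟨i, ?_⟩
    have hne : (V (i + 1)).1 - (V i).1 ≠ 0 := by
      rcases hi with h | h
      · have := h.1.trans h.2
        linarith
      · have := h.1.trans h.2
        linarith
    set t := (p.1 - (V i).1) / ((V (i + 1)).1 - (V i).1) with ht
    have ht1 : t * ((V (i + 1)).1 - (V i).1) = p.1 - (V i).1 := by
      rw [ht]
      field_simp
    have ht0 : 0 ≤ t ∧ t ≤ 1 := by
      rcases hi with h | h
      · have h3 : 0 < (V (i + 1)).1 - (V i).1 := by linarith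
        rw [ht]
        constructor
        · exact div_nonneg (by linarith) h3.le
        · rw [div_le_one h3]
          linarith
      · have h3 : (V (i + 1)).1 - (V i).1 < 0 := by linarith
        rw [ht]
        constructor
        · exact div_nonneg_of_nonpos (by linarith) h3.le
        · rw [div_le_one_of_neg h3]
          linarith
    refine ⟨1 - t, t, by linarith, by linarith, by ring, ?_⟩
    apply Prod.ext
    · simp only [Prod.fst_add, Prod.smul_fst, smul_eq_mul]
      linarith
    · simp only [Prod.snd_add, Prod.smul_snd, smul_eq_mul]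
      rw [hh]
      unfold hgt
      rw [← ht1]
      field_simp
      ring

/-- a point with no edge above it is outside -/
theorem outer_of_no_above (hV : IsSimple V) {p : Pt} (hp : p ∉ curve V) (hg : Gen V p)
    (h : ∀ e, ¬ Above V e p) : p ∉ region V := by
  rintro (hr | hr)
  · exact hp hr
  · have hconv : IsPreconnected {x : Pt | x.1 = p.1 ∧ p.2 ≤ x.2} := by
      apply Convex.isPreconnected
      rintro x ⟨hx1, hx2⟩ y ⟨hy1, hy2⟩ a b ha hb hab
      constructor
      · simp only [Prod.fst_add, Prod.smul_fst, smul_eq_mul, hx1, hy1]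
        rw [← add_mul, hab, one_mul]
      · simp only [Prod.snd_add, Prod.smul_snd, smul_eq_mul]
        have : a = 1 - b := by linarith
        subst this
        nlinarith
    have hsub : {x : Pt | x.1 = p.1 ∧ p.2 ≤ x.2} ⊆ (curve V)ᶜ := by
      rintro x ⟨hx1, hx2⟩ hxc
      have hgx : Gen V x := by
        intro i
        rw [hx1]
        exact hg i
      obtain ⟨i, hi, hh⟩ := (mem_curve_iff hV hgx).1 hxc
      rw [hx1] at hi hh
      rcases eq_or_lt_of_le hx2 with h0 | h0
      · apply hp
        have : x = p := Prod.ext hx1 h0.symm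
        rwa [this] at hxc
      · exact h i ⟨hi, by rw [← hh]; exact h0⟩
    have h1 := hconv.subset_connectedComponentIn (show p ∈ {x : Pt | x.1 = p.1 ∧ p.2 ≤ x.2} from
      ⟨rfl, le_rfl⟩) hsub
    obtain ⟨R, hR⟩ := (hr.subset h1).exists_norm_le
    have h2 := hR (p.1, max p.2 (R + 1)) ⟨rfl, le_max_left _ _⟩
    have h3 := (norm_snd_le (p.1, max p.2 (R + 1))).trans h2
    have h4 := (le_abs_self _).trans h3
    have h5 : R + 1 ≤ max p.2 (R + 1) := le_max_right _ _
    have h6 : max p.2 (R + 1) ≤ R := h4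
    linarith

private theorem one_ne_neg_one (hV : IsSimple V) (i : ZMod n) : i - 1 ≠ i + 1 := by
  intro h
  have h1 : ((2 : ℕ) : ZMod n) = 0 := by
    have : (2 : ZMod n) = (i + 1) - (i - 1) := by ring
    rw [Nat.cast_ofNat, this, h, sub_self]
  rw [ZMod.natCast_eq_zero_iff] at h1
  have := Nat.le_of_dvd two_pos h1
  have := hV.1
  omega

private theorem ne_sub_one (hV : IsSimple V) (i : ZMod n) : i - 1 ≠ i := by
  intro h
  have h1 : ((1 : ℕ) : ZMod n) = 0 := by
    have : (1 : ZMod n) = i - (i - 1) := by ring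
    rw [Nat.cast_one, this, h, sub_self]
  rw [ZMod.natCast_eq_zero_iff] at h1
  have := Nat.le_of_dvd one_pos h1
  have := hV.1
  omega

private theorem exists_edge (hV : IsSimple V) : ∃ i, (V i).1 ≠ (V (i + 1)).1 := by
  have := neZero_of_simple hV
  by_contra hcon
  push Not at hcon
  obtain ⟨i, hi⟩ := Finite.exists_max (fun i => (V i).2)
  have h1 : (V i).1 = (V (i + 1)).1 := hcon i
  have h2 : (V (i - 1)).1 = (V i).1 := by
    have := hcon (i - 1)
    rwa [sub_add_cancel] at this
  have h3 : (V (i + 1)).2 < (V i).2 := by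
    refine lt_of_le_of_ne (hi _) fun h => ?_
    exact hV.2.1 i (Prod.ext h1 h.symm)
  have h4 : (V (i - 1)).2 < (V i).2 := by
    refine lt_of_le_of_ne (hi _) fun h => ?_
    have := hV.2.1 (i - 1)
    rw [sub_add_cancel] at this
    exact this (Prod.ext h2 h)
  set y := max (V (i + 1)).2 (V (i - 1)).2 with hy
  have hy1 : y < (V i).2 := max_lt h3 h4
  have hX : ∀ j : ZMod n, (V j).1 = (V i).1 → (V j).2 < (V i).2 → (V j).2 ≤ y →
      ((V i).1, y) ∈ segment ℝ (V i) (V j) := by
    intro j hj1 hj2 hj3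
    have hd : 0 < (V i).2 - (V j).2 := by linarith
    refine ⟨(y - (V j).2) / ((V i).2 - (V j).2), ((V i).2 - y) / ((V i).2 - (V j).2),
      div_nonneg (by linarith) hd.le, div_nonneg (by linarith) hd.le, ?_, ?_⟩
    · rw [← add_div]
      have : y - (V j).2 + ((V i).2 - y) = (V i).2 - (V j).2 := by ring
      rw [this, div_self hd.ne']
    · apply Prod.ext
      · simp only [Prod.fst_add, Prod.smul_fst, smul_eq_mul, hj1]
        rw [← add_mul, ← add_div]
        have : y - (V j).2 + ((V i).2 - y) = (V i).2 - (V j).2 := by ring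
        rw [this, div_self hd.ne', one_mul]
      · simp only [Prod.snd_add, Prod.smul_snd, smul_eq_mul]
        field_simp
        ring
  have hA := hX (i + 1) h1.symm h3 (le_max_left _ _)
  have hB := hX (i - 1) h2 h4 (le_max_right _ _)
  have hB' : ((V i).1, y) ∈ segment ℝ (V (i - 1)) (V (i - 1 + 1)) := by
    rw [sub_add_cancel, segment_symm]
    exact hB
  rcases hV.2.2 (i - 1) i (ne_sub_one hV i) _ hB' hA with ⟨_, h⟩ | ⟨h, _⟩
  · have := congrArg Prod.snd h
    simp only at this
    linarith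
  · exact one_ne_neg_one hV i h

/-- the points of one of the sides are outside -/
theorem exists_out_side (hV : IsSimple V) :
    ∃ s : ℝ, (s = 1 ∨ s = -1) ∧ ∀ p ∈ sideSet V s, p ∉ region V := by
  have := neZero_of_simple hV
  suffices h : ∃ (s : ℝ) (q : Pt), (s = 1 ∨ s = -1) ∧ q ∈ sideSet V s ∧ q ∉ region V by
    obtain ⟨s, q, hs, hq, hqr⟩ := h
    refine ⟨s, hs, fun p hp hpr => hqr ?_⟩
    have h1 := same_side hV hs hq hp
    have h2 : p ∉ curve V := connectedComponentIn_subset _ _ h1
    rcases hpr with h3 | h3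
    · exact absurd h3 h2
    · right
      rw [connectedComponentIn_eq h1]
      exact h3
  obtain ⟨i0, hi0⟩ := exists_edge hV
  -- an abscissa without vertices
  have hfin : (Set.range fun i => (V i).1).Finite := Set.finite_range _
  obtain ⟨x, hx, hxv⟩ : ∃ x, (((V i0).1 < x ∧ x < (V (i0 + 1)).1) ∨
      ((V (i0 + 1)).1 < x ∧ x < (V i0).1)) ∧ x ∉ Set.range fun i => (V i).1 := by
    rcases lt_or_gt_of_ne hi0 with h | h
    · obtain ⟨x, hx, hx'⟩ := (Set.Ioo_infinite h).exists_notMem_finite hfin
      exact ⟨x, Or.inl hx, hx'⟩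
    · obtain ⟨x, hx, hx'⟩ := (Set.Ioo_infinite h).exists_notMem_finite hfin
      exact ⟨x, Or.inr hx, hx'⟩
  set B : Set (ZMod n) := {e | ((V e).1 < x ∧ x < (V (e + 1)).1) ∨
      ((V (e + 1)).1 < x ∧ x < (V e).1)} with hB
  obtain ⟨b, hbB, hbmax⟩ := Set.exists_max_image B (fun e => hgt V e x) (Set.toFinite _) ⟨i0, hx⟩
  have hgen : ∀ y : ℝ, Gen V (x, y) := by
    intro y i h
    exact hxv ⟨i, h⟩
  have hoff : ∀ y : ℝ, hgt V b x < y → (x, y) ∉ curve V := by
    intro y hy hc
    obtain ⟨e, he, he'⟩ := (mem_curve_iff hV (hgen y)).1 hc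
    have h1 : hgt V e x ≤ hgt V b x := hbmax e he
    have h2 : y = hgt V e x := he'
    linarith
  have hne : (V (b + 1)).1 - (V b).1 ≠ 0 := by
    rcases hbB with h | h
    · have := h.1.trans h.2
      linarith
    · have := h.1.trans h.2
      linarith
  set t := (x - (V b).1) / ((V (b + 1)).1 - (V b).1) with ht
  have ht1 : t * ((V (b + 1)).1 - (V b).1) = x - (V b).1 := by
    rw [ht]
    field_simp
  have ht0 : 0 < t ∧ t < 1 := by
    rcases hbB with h | h
    · have h3 : 0 < (V (b + 1)).1 - (V b).1 := by linarith [h.1, h.2]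
      rw [ht]
      constructor
      · exact div_pos (by linarith [h.1]) h3
      · rw [div_lt_one h3]
        linarith [h.2]
    · have h3 : (V (b + 1)).1 - (V b).1 < 0 := by linarith [h.1, h.2]
      rw [ht]
      constructor
      · exact div_pos_of_neg_of_neg (by linarith [h.2]) h3
      · rw [div_lt_one_of_neg h3]
        linarith [h.1]
  have hept : ept V b t = (x, hgt V b x) := by
    unfold ept
    apply Prod.ext
    · simp only [Prod.fst_add, Prod.smul_fst, Prod.fst_sub, smul_eq_mul]
      linarith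
    · simp only [Prod.snd_add, Prod.smul_snd, Prod.snd_sub, smul_eq_mul]
      unfold hgt
      rw [← ht1]
      field_simp
  have hcross : cross (V b) (V (b + 1)) (x, hgt V b x + 1) = (V (b + 1)).1 - (V b).1 := by
    unfold cross hgt
    field_simp
    ring
  set s : ℝ := if 0 < (V (b + 1)).1 - (V b).1 then 1 else -1 with hs
  have hs1 : s = 1 ∨ s = -1 := by
    rw [hs]
    split_ifs
    · exact Or.inl rfl
    · exact Or.inr rfl
  have hs2 : 0 < s * ((V (b + 1)).1 - (V b).1) := by
    rw [hs]
    split_ifs with h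
    · linarith
    · have : (V (b + 1)).1 - (V b).1 < 0 := lt_of_le_of_ne (not_lt.1 h) hne
      linarith
  refine ⟨s, (x, hgt V b x + 1), hs1, ⟨b, t, ht0.1, ht0.2, ?_, ?_⟩, ?_⟩
  · rw [hcross]
    exact hs2
  · intro τ hτ _
    rw [hept]
    have : ((x, hgt V b x) : Pt) + τ • ((x, hgt V b x + 1) - (x, hgt V b x)) =
        (x, hgt V b x + τ) := by
      apply Prod.ext
      · simp
      · simp
    rw [this]
    exact hoff _ (by linarith)
  · refine outer_of_no_above hV (hoff _ (by linarith)) (hgen _) ?_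
    rintro e ⟨he1, he2⟩
    have h1 : hgt V e x ≤ hgt V b x := hbmax e he1
    have h2 : hgt V b x + 1 < hgt V e x := he2
    linarith

/-- every inner point of an edge is a limit of points outside -/
theorem ept_mem_closure (hV : IsSimple V) (i : ZMod n) {t : ℝ} (ht : 0 < t) (ht' : t < 1) :
    ept V i t ∈ closure (region V)ᶜ := by
  obtain ⟨s, hs, hout⟩ := exists_out_side hV
  have hne : 0 < ((V (i + 1)).1 - (V i).1) ^ 2 + ((V (i + 1)).2 - (V i).2) ^ 2 := by
    rcases eq_or_ne ((V (i + 1)).1 - (V i).1) 0 with h | h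
    · rcases eq_or_ne ((V (i + 1)).2 - (V i).2) 0 with h' | h'
      · exact absurd (Prod.ext (by linarith) (by linarith)) (hV.2.1 i)
      · positivity
    · positivity
  have hss : s * s = 1 := by rcases hs with rfl | rfl <;> norm_num
  have hu : 0 < s * cross (V i) (V (i + 1)) (V i + s • nrm V i) := by
    have : s * cross (V i) (V (i + 1)) (V i + s • nrm V i) =
        (s * s) * (((V (i + 1)).1 - (V i).1) ^ 2 + ((V (i + 1)).2 - (V i).2) ^ 2) := by
      unfold cross nrm
      simp only [Prod.fst_add, Prod.snd_add, Prod.smul_fst, Prod.smul_snd, smul_eq_mul]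
      ring
    rw [this, hss, one_mul]
    exact hne
  have hev := eventually_side hV i ht ht' hu
  have hcont : Filter.Tendsto (fun τ : ℝ => ept V i t + τ • (s • nrm V i)) (𝓝[>] 0)
      (𝓝 (ept V i t)) := by
    have h1 : ContinuousAt (fun τ : ℝ => ept V i t + τ • (s • nrm V i)) 0 := by fun_prop
    have h2 := h1.tendsto
    simp only [zero_smul, add_zero] at h2
    exact h2.mono_left nhdsWithin_le_nhds
  refine mem_closure_of_tendsto hcont ?_
  filter_upwards [hev] with τ hτ
  exact hout _ hτ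

end Pool.Agent.Helper94.UR
end

/- Helper94.UR.RegionB -/
section
/-!
# The region: topology, and disks in the region
-/

set_option autoImplicit false

namespace Pool.Agent.Helper94.UR

open Pool.Agent.Helper20.Flip Pool.Agent.Helper97.UDP Topology

variable {n : ℕ} {V : ZMod n → Pt}

private theorem neZero_of (hV : IsSimple V) : NeZero n := ⟨by have := hV.1; omega⟩

private theorem convex_half (f : Pt →ₗ[ℝ] ℝ) (r : ℝ) : Convex ℝ {p : Pt | r < f p} :=
  (convex_Ioi r).is_linear_preimage f.isLinear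

private theorem pre_out (r : ℝ) : IsPreconnected {p : Pt | r < |p.1| ∨ r < |p.2|} := by
  have hx : Convex ℝ {p : Pt | r < p.1} := convex_half (LinearMap.fst ℝ ℝ ℝ) r
  have hx' : Convex ℝ {p : Pt | r < -p.1} := convex_half (-LinearMap.fst ℝ ℝ ℝ) r
  have hy : Convex ℝ {p : Pt | r < p.2} := convex_half (LinearMap.snd ℝ ℝ ℝ) r
  have hy' : Convex ℝ {p : Pt | r < -p.2} := convex_half (-LinearMap.snd ℝ ℝ ℝ) r
  have h1 : IsPreconnected ({p : Pt | r < p.1} ∪ {p : Pt | r < p.2}) :=
    IsPreconnected.union (r + 1, r + 1) (by simp) (by simp) hx.isPreconnected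
      hy.isPreconnected
  have h2 : IsPreconnected (({p : Pt | r < p.1} ∪ {p : Pt | r < p.2}) ∪ {p : Pt | r < -p.1}) :=
    IsPreconnected.union (-(r + 1), r + 1) (by right; simp) (by simp) h1 hx'.isPreconnected
  have h3 : IsPreconnected ((({p : Pt | r < p.1} ∪ {p : Pt | r < p.2}) ∪ {p : Pt | r < -p.1}) ∪
      {p : Pt | r < -p.2}) :=
    IsPreconnected.union (r + 1, -(r + 1)) (by left; left; simp) (by simp) h2 hy'.isPreconnected
  convert h3 using 1
  ext p
  simp only [Set.mem_ofPred_eq, Set.mem_union, lt_abs]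
  tauto

private theorem isCompact_curve [NeZero n] (V : ZMod n → Pt) : IsCompact (curve V) := by
  have h1 : curve V = ⋃ i, segment ℝ (V i) (V (i + 1)) := by
    ext p; simp [curve]
  rw [h1]
  refine isCompact_iUnion fun i => ?_
  rw [← convexHull_pair]
  have h2 : ({V i, V (i + 1)} : Set Pt).Finite := Set.toFinite _
  exact h2.isCompact_convexHull (𝕜 := ℝ)

theorem isCompact_region (hV : IsSimple V) : IsCompact (region V) := by
  have := neZero_of hV
  obtain ⟨R, hR⟩ := (isCompact_curve V).isBounded.exists_norm_le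
  have hsub : {p : Pt | R < |p.1| ∨ R < |p.2|} ⊆ (curve V)ᶜ := by
    intro p hp hpc
    have h1 := hR p hpc
    rw [Prod.norm_def, max_le_iff] at h1
    rcases hp with hp | hp
    · exact absurd hp (not_lt.2 h1.1)
    · exact absurd hp (not_lt.2 h1.2)
  have hunb : ¬ Bornology.IsBounded {p : Pt | R < |p.1| ∨ R < |p.2|} := by
    intro hb
    obtain ⟨C, hC⟩ := hb.exists_norm_le
    have hmem : ((|R| + |C| + 1, 0) : Pt) ∈ {p : Pt | R < |p.1| ∨ R < |p.2|} := by
      left
      show R < |(|R| + |C| + 1)|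
      have h3 : 0 ≤ |R| + |C| + 1 := by positivity
      rw [abs_of_nonneg h3]
      have := le_abs_self R
      have := abs_nonneg C
      linarith
    have h1 := hC _ hmem
    rw [Prod.norm_def, max_le_iff] at h1
    have h2 : |(|R| + |C| + 1)| ≤ C := h1.1
    have h3 : 0 ≤ |R| + |C| + 1 := by positivity
    rw [abs_of_nonneg h3] at h2
    have := le_abs_self C
    have := abs_nonneg R
    linarith
  have hbd : region V ⊆ Metric.closedBall 0 R := by
    intro p hp
    by_contra hpR
    rw [mem_closedBall_zero_iff, Prod.norm_def, max_le_iff, not_and_or, not_le, not_le] at hpR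
    rcases hp with hp | hp
    · exact hsub hpR hp
    · exact hunb (hp.subset ((pre_out R).subset_connectedComponentIn hpR hsub))
  have hcl : IsClosed (region V) := ⟨isOpen_compl_region V⟩
  exact (isCompact_closedBall 0 R).of_isClosed_subset hcl hbd

theorem region_mem_nhds (hV : IsSimple V) {c : Pt} (hc : c ∈ region V) (hc' : c ∉ curve V) :
    region V ∈ 𝓝 c := by
  have := neZero_of hV
  have hopen := (isClosed_curve V).isOpen_compl.connectedComponentIn (x := c)
  refine Filter.mem_of_superset (hopen.mem_nhds (mem_connectedComponentIn hc')) ?_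
  intro q hq
  exact same_comp isPreconnected_connectedComponentIn (connectedComponentIn_subset _ _)
    (mem_connectedComponentIn hc') hq hc

private theorem convex_d2 (c : Pt) : Convex ℝ {p : Pt | d2 p c < 1} := by
  intro p hp q hq a b ha hb hab
  simp only [Set.mem_ofPred_eq, d2, Prod.fst_add, Prod.snd_add, Prod.smul_fst, Prod.smul_snd,
    smul_eq_mul] at hp hq ⊢
  have := sq_comb ha hb hab hp hq
  have e1 : a * p.1 + b * q.1 - c.1 = a * (p.1 - c.1) + b * (q.1 - c.1) := by
    have : c.1 = (a + b) * c.1 := by rw [hab, one_mul]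
    linear_combination -this
  have e2 : a * p.2 + b * q.2 - c.2 = a * (p.2 - c.2) + b * (q.2 - c.2) := by
    have : c.2 = (a + b) * c.2 := by rw [hab, one_mul]
    linear_combination -this
  rw [e1, e2]
  exact this

/-- a point at distance at least one from the curve: all the points at distance less than one are
in the same component of the complement of the curve -/
theorem near_same (hV : IsSimple V) {c : Pt} (hc : ∀ i, Far (V i) (V (i + 1)) c) {p : Pt}
    (hp : d2 p c < 1) : p ∉ curve V ∧ (p ∈ region V ↔ c ∈ region V) := by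
  have hsub : {p : Pt | d2 p c < 1} ⊆ (curve V)ᶜ := by
    rintro q hq ⟨i, hi⟩
    exact absurd (hc i q hi) (not_le.2 hq)
  have hcc : c ∈ {p : Pt | d2 p c < 1} := by
    simp [d2]
  refine ⟨hsub hp, fun h => ?_, fun h => ?_⟩
  · exact same_comp (convex_d2 c).isPreconnected hsub hp hcc h
  · exact same_comp (convex_d2 c).isPreconnected hsub hcc hp h

theorem exists_near_gen (hV : IsSimple V) (c : Pt) : ∃ p, d2 p c < 1 ∧ Gen V p := by
  have := neZero_of hV
  have hfin : (Set.range fun i : ZMod n => (V i).1 - c.1).Finite := Set.finite_range _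
  have hinf : (Set.Ioo (0 : ℝ) 1).Infinite := Set.Ioo_infinite one_pos
  obtain ⟨x, hx, hx'⟩ := (hinf.sdiff hfin).nonempty
  refine ⟨(c.1 + x, c.2), ?_, ?_⟩
  · show (c.1 + x - c.1) ^ 2 + (c.2 - c.2) ^ 2 < 1
    have h1 := hx.1
    have h2 := hx.2
    nlinarith
  · intro i hi
    apply hx'
    refine ⟨i, ?_⟩
    show (V i).1 - c.1 = x
    rw [hi]
    ring

private theorem disk_subset_closure (c : Pt) : disk c ⊆ closure {p : Pt | d2 p c < 1} := by
  intro q hq
  have hq' : (q.1 - c.1) ^ 2 + (q.2 - c.2) ^ 2 ≤ 1 := hq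
  have hcont : Filter.Tendsto (fun t : ℝ => ((q.1 + t * (c.1 - q.1), q.2 + t * (c.2 - q.2)) : Pt))
      (𝓝[>] 0) (𝓝 q) := by
    have h1 : ContinuousAt (fun t : ℝ =>
        ((q.1 + t * (c.1 - q.1), q.2 + t * (c.2 - q.2)) : Pt)) 0 := by fun_prop
    have h2 := h1.tendsto
    simp only [zero_mul, add_zero] at h2
    exact h2.mono_left nhdsWithin_le_nhds
  refine mem_closure_of_tendsto hcont ?_
  have h4 : ∀ᶠ t : ℝ in 𝓝[>] 0, t < 1 :=
    (eventually_lt_nhds one_pos).filter_mono nhdsWithin_le_nhds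
  have h5 : ∀ᶠ t : ℝ in 𝓝[>] 0, 0 < t := self_mem_nhdsWithin
  filter_upwards [h4, h5] with t ht ht0
  show (q.1 + t * (c.1 - q.1) - c.1) ^ 2 + (q.2 + t * (c.2 - q.2) - c.2) ^ 2 < 1
  have e1 : (q.1 + t * (c.1 - q.1) - c.1) ^ 2 + (q.2 + t * (c.2 - q.2) - c.2) ^ 2 =
      (1 - t) ^ 2 * ((q.1 - c.1) ^ 2 + (q.2 - c.2) ^ 2) := by ring
  rw [e1]
  have h6 : (1 - t) ^ 2 < 1 := by nlinarith
  have h7 : 0 ≤ (q.1 - c.1) ^ 2 + (q.2 - c.2) ^ 2 := by positivity
  nlinarith [sq_nonneg (1 - t)]

theorem disk_subset_region_iff (hV : IsSimple V) (c : Pt) :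
    disk c ⊆ region V ↔ c ∈ region V ∧ ∀ i, Far (V i) (V (i + 1)) c := by
  have := neZero_of hV
  constructor
  · intro h
    refine ⟨h (show c ∈ disk c by simp [disk]), fun i X hX => ?_⟩
    by_contra hlt
    rw [not_le] at hlt
    have hopen : IsOpen {p : Pt | d2 p c < 1} :=
      isOpen_lt (by unfold d2; fun_prop) continuous_const
    -- an inner point
    obtain ⟨θ, hθ, rfl⟩ : ∃ θ ∈ Set.Icc (0 : ℝ) 1, ept V i θ = X := by
      rw [segment_eq_image'] at hX
      obtain ⟨θ, h1, h2⟩ := hX
      exact ⟨θ, h1, h2⟩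
    have hcont : Continuous fun t : ℝ => ept V i t := by unfold ept; fun_prop
    have hmem : θ ∈ closure (Set.Ioo (0 : ℝ) 1) := by
      rw [closure_Ioo zero_ne_one]
      exact hθ
    have hpre : IsOpen ((fun t : ℝ => ept V i t) ⁻¹' {p : Pt | d2 p c < 1}) :=
      hopen.preimage hcont
    obtain ⟨t, ht1, ht2⟩ := mem_closure_iff.1 hmem _ hpre hlt
    have h3 := ept_mem_closure hV i ht2.1 ht2.2
    obtain ⟨q, hq1, hq2⟩ := mem_closure_iff.1 h3 _ hopen ht1
    have hq1' : d2 q c < 1 := hq1
    have hqd : q ∈ disk c := by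
      show (q.1 - c.1) ^ 2 + (q.2 - c.2) ^ 2 ≤ 1
      unfold d2 at hq1'
      exact hq1'.le
    exact hq2 (h hqd)
  · rintro ⟨hc, hf⟩
    have hcl : IsClosed (region V) := ⟨isOpen_compl_region V⟩
    have h1 : {p : Pt | d2 p c < 1} ⊆ region V := fun p hp => (near_same hV hf hp).2.2 hc
    exact (disk_subset_closure c).trans (hcl.closure_subset_iff.2 h1)

end Pool.Agent.Helper94.UR
end

/- AG.GC.Region -/
section
/-!
# The region bounded by a simple polygon near its boundary
-/

set_option autoImplicit false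

namespace Pool.Agent.AG

open Topology
open Pool.Agent.Helper94.UR (ept sideSet)

/-- Twice the signed area of the triangle `a b c`. -/
def crs (a b c : ℝ × ℝ) : ℝ := (b.1 - a.1) * (c.2 - a.2) - (b.2 - a.2) * (c.1 - a.1)

variable {k : ℕ} {v : ZMod k → ℝ × ℝ}

theorem isSimple_iff : IsSimple v ↔ Pool.Agent.Helper20.Flip.IsSimple v := Iff.rfl

theorem curve_eq : curve v = Pool.Agent.Helper97.UDP.curve v := rfl

theorem region_eq : region v = Pool.Agent.Helper97.UDP.region v := rfl

theorem crs_eq (a b c : ℝ × ℝ) : crs a b c = Pool.Agent.Helper20.Flip.cross a b c := rfl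

theorem IsSimple.neZero (hv : IsSimple v) : NeZero k := ⟨by have := hv.1; omega⟩

theorem IsSimple.injective (hv : IsSimple v) : Function.Injective v := by
  intro i j hij
  by_contra hne
  rcases hv.2.2 i j hne (v i) (left_mem_segment _ _ _) (hij ▸ left_mem_segment _ _ _) with
    ⟨h1, h2⟩ | ⟨h1, h2⟩
  · rw [h1] at h2
    exact hv.2.1 i h2
  · have h3 : v j = v (j + 1) := by rw [← h1]; exact hij.symm
    exact hv.2.1 j h3

theorem isCompact_segment (a b : ℝ × ℝ) : IsCompact (segment ℝ a b) := by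
  rw [← convexHull_pair]
  have h2 : ({a, b} : Set (ℝ × ℝ)).Finite := Set.toFinite _
  exact h2.isCompact_convexHull (𝕜 := ℝ)

theorem isCompact_curve [NeZero k] (v : ZMod k → ℝ × ℝ) : IsCompact (curve v) := by
  have e : curve v = ⋃ i, segment ℝ (v i) (v (i + 1)) := by
    ext p
    simp [curve]
  rw [e]
  exact isCompact_iUnion fun i => isCompact_segment _ _

theorem isCompact_region (hv : IsSimple v) : IsCompact (region v) :=
  Pool.Agent.Helper94.UR.isCompact_region hv

theorem curve_subset_region : curve v ⊆ region v := fun _ hp => Or.inl hp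

theorem region_mem_nhds (hv : IsSimple v) {p : ℝ × ℝ} (hp : p ∈ region v) (hp' : p ∉ curve v) :
    region v ∈ 𝓝 p :=
  Pool.Agent.Helper94.UR.region_mem_nhds hv hp hp'

theorem curve_subset_closure_compl (hv : IsSimple v) : curve v ⊆ closure (region v)ᶜ := by
  rintro p ⟨i, a, b, ha, hb, hab, rfl⟩
  have he : ∀ t : ℝ, 0 < t → t < 1 → ept v i t ∈ closure (region v)ᶜ := fun t h1 h2 =>
    Pool.Agent.Helper94.UR.ept_mem_closure hv i h1 h2
  have hcont : Continuous fun t : ℝ => ept v i t := by
    unfold ept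
    fun_prop
  have hcl : ∀ t ∈ closure (Set.Ioo (0 : ℝ) 1), ept v i t ∈ closure (region v)ᶜ := by
    intro t ht
    have := (hcont.continuousOn (s := Set.univ)).mono (Set.subset_univ (closure (Set.Ioo (0 : ℝ) 1)))
    have h2 := map_mem_closure hcont ht (t := (closure (region v)ᶜ)) (fun s hs => he s hs.1 hs.2)
    rwa [closure_closure] at h2
  have hb1 : b ∈ closure (Set.Ioo (0 : ℝ) 1) := by
    rw [closure_Ioo (by norm_num)]
    exact ⟨hb, by linarith⟩
  have := hcl b hb1
  have e : ept v i b = a • v i + b • v (i + 1) := by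
    unfold ept
    have : a = 1 - b := by linarith
    rw [this, smul_sub, sub_smul, one_smul]
    abel
  rwa [e] at this

theorem curve_disjoint_interior (hv : IsSimple v) : Disjoint (curve v) (interior (region v)) := by
  rw [Set.disjoint_left]
  intro p hp hpi
  have h1 := curve_subset_closure_compl hv hp
  rw [closure_compl] at h1
  exact h1 hpi

theorem interior_region (hv : IsSimple v) : interior (region v) = region v \ curve v := by
  ext p
  constructor
  · intro hp
    exact ⟨interior_subset hp, fun hc => Set.disjoint_left.1 (curve_disjoint_interior hv) hc hp⟩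
  · rintro ⟨h1, h2⟩
    exact mem_interior_iff_mem_nhds.2 (region_mem_nhds hv h1 h2)

/-- The region near an inner point of an edge is the closed half plane on the inner side. -/
theorem exists_sign (hv : IsSimple v) : ∃ s : ℝ, (s = 1 ∨ s = -1) ∧
    ∀ (i : ZMod k) (t : ℝ), 0 < t → t < 1 → ∀ᶠ q in 𝓝 (ept v i t),
      ((q ∈ region v ↔ 0 ≤ s * crs (v i) (v (i + 1)) q) ∧
        (q ∈ interior (region v) ↔ 0 < s * crs (v i) (v (i + 1)) q)) := by
  obtain ⟨s, hs, hout⟩ := Pool.Agent.Helper94.UR.exists_out_side hv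
  refine ⟨-s, by rcases hs with rfl | rfl <;> simp, fun i t ht ht' => ?_⟩
  have hin : ∀ p ∈ sideSet v (-s), p ∈ region v := by
    intro p hp
    by_contra hpr
    -- a point of the outer side
    have hne : 0 < ((v (i + 1)).1 - (v i).1) ^ 2 + ((v (i + 1)).2 - (v i).2) ^ 2 := by
      rcases eq_or_ne ((v (i + 1)).1 - (v i).1) 0 with h | h
      · rcases eq_or_ne ((v (i + 1)).2 - (v i).2) 0 with h' | h'
        · exact absurd (Prod.ext (by linarith) (by linarith)) (hv.2.1 i)
        · positivity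
      · positivity
    have hu : 0 < s * crs (v i) (v (i + 1)) (v i + s • Pool.Agent.Helper94.UR.nrm v i) := by
      have hss : s * s = 1 := by rcases hs with rfl | rfl <;> norm_num
      have e : s * crs (v i) (v (i + 1)) (v i + s • Pool.Agent.Helper94.UR.nrm v i) =
          (s * s) * (((v (i + 1)).1 - (v i).1) ^ 2 + ((v (i + 1)).2 - (v i).2) ^ 2) := by
        unfold crs Pool.Agent.Helper94.UR.nrm
        simp only [Prod.fst_add, Prod.snd_add, Prod.smul_fst, Prod.smul_snd, smul_eq_mul]
        ring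
      rw [e, hss, one_mul]
      exact hne
    obtain ⟨q, hq⟩ := (Pool.Agent.Helper94.UR.eventually_side hv i ht ht' hu).exists
    have h1 := hout _ hq
    have h2 := Pool.Agent.Helper94.UR.same_outer hv hpr h1
    rcases hs with rfl | rfl
    · have h3 := Pool.Agent.Helper94.UR.same_outer hv h1 hpr
      exact Pool.Agent.Helper94.UR.sides_ne hv hq hp h3
    · rw [neg_neg] at hp
      exact Pool.Agent.Helper94.UR.sides_ne hv hp hq h2
  obtain ⟨r, hr, hball⟩ := Pool.Agent.Helper94.UR.exists_halfball hv i ht ht'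
  -- near the point, the line is contained in the edge
  have hline : ∀ᶠ q in 𝓝 (ept v i t), crs (v i) (v (i + 1)) q = 0 → q ∈ curve v := by
    have hd : v (i + 1) - v i ≠ 0 := sub_ne_zero.2 (hv.2.1 i).symm
    set d : ℝ × ℝ := v (i + 1) - v i with hdd
    have hN : 0 < d.1 ^ 2 + d.2 ^ 2 := by
      rcases eq_or_ne d.1 0 with h | h
      · rcases eq_or_ne d.2 0 with h' | h'
        · exact absurd (Prod.ext h h') hd
        · positivity
      · positivity
    -- the parameter of the projection
    let f : ℝ × ℝ → ℝ := fun q => ((q.1 - (v i).1) * d.1 + (q.2 - (v i).2) * d.2) /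
      (d.1 ^ 2 + d.2 ^ 2)
    have hf : Continuous f := by
      simp only [f]
      fun_prop
    have hft : f (ept v i t) = t := by
      simp only [f, ept, Prod.fst_add, Prod.snd_add, Prod.smul_fst, Prod.smul_snd, smul_eq_mul,
        ← hdd]
      field_simp
      ring
    have hev : ∀ᶠ q in 𝓝 (ept v i t), f q ∈ Set.Ioo (0 : ℝ) 1 :=
      hf.continuousAt.eventually (by
        rw [hft]
        exact Ioo_mem_nhds ht ht')
    filter_upwards [hev] with q hq hc
    refine ⟨i, 1 - f q, f q, by linarith [hq.2], hq.1.le, by ring, ?_⟩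
    have e1 : d.1 * (q.2 - (v i).2) = d.2 * (q.1 - (v i).1) := by
      unfold crs at hc
      simp only [hdd, Prod.fst_sub, Prod.snd_sub]
      linarith
    have e2 : f q * (d.1 ^ 2 + d.2 ^ 2) = (q.1 - (v i).1) * d.1 + (q.2 - (v i).2) * d.2 := by
      simp only [f]
      field_simp
    have e3 : v (i + 1) = v i + d := by rw [hdd]; abel
    rw [e3]
    ext
    · simp only [Prod.fst_add, Prod.smul_fst, smul_eq_mul]
      have : (f q * d.1 - (q.1 - (v i).1)) * (d.1 ^ 2 + d.2 ^ 2) = 0 := by
        linear_combination d.1 * e2 + d.2 * e1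
      rcases mul_eq_zero.1 this with h | h
      · linarith
      · exact absurd h hN.ne'
    · simp only [Prod.snd_add, Prod.smul_snd, smul_eq_mul]
      have : (f q * d.2 - (q.2 - (v i).2)) * (d.1 ^ 2 + d.2 ^ 2) = 0 := by
        linear_combination d.2 * e2 - d.1 * e1
      rcases mul_eq_zero.1 this with h | h
      · linarith
      · exact absurd h hN.ne'
  filter_upwards [Metric.ball_mem_nhds _ hr, hline] with q hq hq0
  have hside : ∀ s' : ℝ, 0 < s' * crs (v i) (v (i + 1)) q → q ∈ sideSet v s' := by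
    intro s' h0
    refine ⟨i, t, ht, ht', h0, fun τ h1 h2 => ?_⟩
    have hcr : Pool.Agent.Helper20.Flip.cross (v i) (v (i + 1))
        (ept v i t + τ • (q - ept v i t)) = τ * crs (v i) (v (i + 1)) q := by
      unfold crs Pool.Agent.Helper20.Flip.cross ept
      simp only [Prod.fst_add, Prod.snd_add, Prod.smul_fst, Prod.smul_snd, smul_eq_mul,
        Prod.fst_sub, Prod.snd_sub]
      ring
    apply hball
    · rw [Metric.mem_ball, dist_eq_norm, add_sub_cancel_left, norm_smul, Real.norm_eq_abs,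
        abs_of_pos h1]
      rw [Metric.mem_ball, dist_eq_norm] at hq
      calc τ * ‖q - ept v i t‖ ≤ 1 * ‖q - ept v i t‖ := by gcongr
        _ = ‖q - ept v i t‖ := one_mul _
        _ < r := hq
    · rw [hcr]
      refine mul_ne_zero h1.ne' fun h => ?_
      rw [h, mul_zero] at h0
      exact lt_irrefl _ h0
  have hcr : ∀ s' : ℝ, 0 < s' * crs (v i) (v (i + 1)) q → q ∉ curve v := by
    intro s' h0
    refine hball q hq fun h => ?_
    have h' : crs (v i) (v (i + 1)) q = 0 := h
    rw [h', mul_zero] at h0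
    exact lt_irrefl _ h0
  rcases lt_trichotomy (-s * crs (v i) (v (i + 1)) q) 0 with h | h | h
  · have h' : 0 < s * crs (v i) (v (i + 1)) q := by linarith
    have h1 := hout _ (hside s h')
    refine ⟨⟨fun h2 => absurd h2 h1, fun h2 => absurd h2 (not_le.2 h)⟩,
      ⟨fun h2 => absurd (interior_subset h2) h1, fun h2 => absurd h2 (by linarith)⟩⟩
  · have h0 : crs (v i) (v (i + 1)) q = 0 := by
      rcases mul_eq_zero.1 h with h3 | h3
      · rcases hs with rfl | rfl <;> norm_num at h3
      · exact h3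
    have h1 := hq0 h0
    refine ⟨⟨fun _ => h.ge, fun _ => curve_subset_region h1⟩,
      ⟨fun h2 => absurd h2 (Set.disjoint_left.1 (curve_disjoint_interior hv) h1),
        fun h2 => absurd h2 (by linarith)⟩⟩
  · have h1 := hin _ (hside (-s) h)
    refine ⟨⟨fun _ => h.le, fun _ => h1⟩, ⟨fun _ => h, fun _ => ?_⟩⟩
    rw [interior_region hv]
    exact ⟨h1, hcr _ h⟩

end Pool.Agent.AG
end

/- AG.GC.Local -/
section
/-!
# The local structure of a polygon with holes
-/

set_option autoImplicit false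

namespace Pool.Agent.AG

open Topology
open Pool.Agent.Helper94.UR (ept)

namespace PolygonWithHoles

variable (P : PolygonWithHoles)

theorem mem_carrier {p : ℝ × ℝ} : p ∈ P.carrier ↔
    p ∈ region (P.v 0) ∧ ∀ c, c ≠ 0 → p ∉ interior (region (P.v c)) := by
  simp [carrier]

theorem isClosed_carrier : IsClosed P.carrier := by
  unfold carrier
  apply (isCompact_region (P.simple 0)).isClosed.sdiff
  exact isOpen_biUnion fun c _ => isOpen_interior

theorem isCompact_carrier : IsCompact P.carrier :=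
  (isCompact_region (P.simple 0)).of_isClosed_subset P.isClosed_carrier Set.sdiff_subset

/-- The boundary curves of different polygons are disjoint. -/
theorem curve_disjoint {c c' : Fin (P.h + 1)} (h : c ≠ c') :
    Disjoint (curve (P.v c)) (curve (P.v c')) := by
  have key : ∀ c, c ≠ 0 → Disjoint (curve (P.v 0)) (curve (P.v c)) := by
    intro c hc
    exact (curve_disjoint_interior (P.simple 0)).mono_right
      (curve_subset_region.trans (P.inside c hc))
  rcases eq_or_ne c 0 with rfl | hc
  · exact key c' h.symm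
  · rcases eq_or_ne c' 0 with rfl | hc'
    · exact (key c hc).symm
    · exact (P.disj c c' hc hc' h).mono curve_subset_region curve_subset_region

theorem curve_subset_carrier (c : Fin (P.h + 1)) : curve (P.v c) ⊆ P.carrier := by
  intro p hp
  rw [P.mem_carrier]
  constructor
  · rcases eq_or_ne c 0 with rfl | hc
    · exact curve_subset_region hp
    · exact interior_subset (P.inside c hc (curve_subset_region hp))
  · intro c' hc' hpi
    rcases eq_or_ne c c' with rfl | hcc
    · exact Set.disjoint_left.1 (curve_disjoint_interior (P.simple c)) hp hpi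
    · rcases eq_or_ne c 0 with rfl | hc
      · exact Set.disjoint_left.1 (curve_disjoint_interior (P.simple 0)) hp
          (P.inside c' hc' (interior_subset hpi))
      · exact Set.disjoint_left.1 (P.disj c c' hc hc' hcc) (curve_subset_region hp)
          (interior_subset hpi)

/-- The vertices as a finite set. -/
noncomputable def verts : Finset (ℝ × ℝ) :=
  haveI : ∀ c, NeZero (P.k c) := fun c => (P.simple c).neZero
  Finset.univ.biUnion fun c => Finset.univ.image (P.v c)

theorem mem_verts {p : ℝ × ℝ} : p ∈ P.verts ↔ ∃ c i, P.v c i = p := by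
  simp [verts]

theorem card_verts : P.verts.card = P.n := by
  have : ∀ c, NeZero (P.k c) := fun c => (P.simple c).neZero
  unfold verts
  rw [Finset.card_biUnion]
  · unfold n
    refine Finset.sum_congr rfl fun c _ => ?_
    rw [Finset.card_image_of_injective _ (P.simple c).injective, Finset.card_univ, ZMod.card]
  · intro c _ c' _ hcc
    refine Finset.disjoint_left.2 fun p hp hp' => ?_
    rw [Finset.mem_image] at hp hp'
    obtain ⟨i, -, rfl⟩ := hp
    obtain ⟨j, -, hj⟩ := hp'
    refine Set.disjoint_left.1 (P.curve_disjoint hcc) ⟨i, left_mem_segment _ _ _⟩ ⟨j, ?_⟩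
    rw [← hj]
    exact left_mem_segment _ _ _

/-- Two different edges have at most a common end point. -/
theorem edges_meet {c c' : Fin (P.h + 1)} {i : ZMod (P.k c)} {j : ZMod (P.k c')}
    (hne : (⟨c, i⟩ : Σ c, ZMod (P.k c)) ≠ ⟨c', j⟩) {x : ℝ × ℝ}
    (hx : x ∈ segment ℝ (P.v c i) (P.v c (i + 1)))
    (hx' : x ∈ segment ℝ (P.v c' j) (P.v c' (j + 1))) :
    (x = P.v c i ∨ x = P.v c (i + 1)) ∧ (x = P.v c' j ∨ x = P.v c' (j + 1)) := by
  rcases eq_or_ne c c' with rfl | hcc
  · have hij : i ≠ j := fun h => hne (by rw [h])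
    rcases (P.simple c).2.2 i j hij x hx hx' with ⟨h1, h2⟩ | ⟨h1, h2⟩
    · rw [← h1]
      exact ⟨Or.inr h2, Or.inl h2⟩
    · rw [← h1]
      exact ⟨Or.inl h2, Or.inr h2⟩
  · exact absurd ⟨j, hx'⟩ (Set.disjoint_left.1 (P.curve_disjoint hcc) ⟨i, hx⟩)

/-- Off the boundary curves membership is locally constant. -/
theorem off_curves {p : ℝ × ℝ} (hp : ∀ c, p ∉ curve (P.v c)) :
    ∀ᶠ q in 𝓝 p, (q ∈ P.carrier ↔ p ∈ P.carrier) := by
  have h1 : ∀ c, ∀ᶠ q in 𝓝 p, ((q ∈ region (P.v c) ↔ p ∈ region (P.v c)) ∧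
      (q ∈ interior (region (P.v c)) ↔ p ∈ interior (region (P.v c)))) := by
    intro c
    by_cases h : p ∈ region (P.v c)
    · have hn := region_mem_nhds (P.simple c) h (hp c)
      have hi : interior (region (P.v c)) ∈ 𝓝 p := interior_mem_nhds.2 hn
      filter_upwards [hn, hi] with q hq hq'
      exact ⟨iff_of_true hq h, iff_of_true hq' (mem_of_mem_nhds hi)⟩
    · have hc : (region (P.v c))ᶜ ∈ 𝓝 p :=
        (isCompact_region (P.simple c)).isClosed.isOpen_compl.mem_nhds h
      filter_upwards [hc] with q hq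
      exact ⟨iff_of_false hq h, iff_of_false (fun h' => hq (interior_subset h'))
        (fun h' => h (interior_subset h'))⟩
  have h2 := Filter.eventually_all.2 h1
  filter_upwards [h2] with q hq
  rw [P.mem_carrier, P.mem_carrier, (hq 0).1]
  refine and_congr_right fun _ => forall_congr' fun c => ?_
  rw [(hq c).2]

/-- Near an inner point of an edge the polygon with holes is a closed half plane; the side depends
only on the polygon and not on the edge. -/
theorem exists_signs : ∃ s : Fin (P.h + 1) → ℝ, (∀ c, s c = 1 ∨ s c = -1) ∧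
    ∀ (c : Fin (P.h + 1)) (i : ZMod (P.k c)) (t : ℝ), 0 < t → t < 1 →
      ∀ᶠ q in 𝓝 (ept (P.v c) i t),
        (q ∈ P.carrier ↔ 0 ≤ s c * crs (P.v c i) (P.v c (i + 1)) q) := by
  choose s hs hloc using fun c => exists_sign (P.simple c)
  refine ⟨fun c => if c = 0 then s c else -s c, fun c => ?_, fun c i t ht ht' => ?_⟩
  · by_cases h : c = 0
    · simp only [h, if_true]
      exact hs 0
    · simp only [h, if_false]
      rcases hs c with h1 | h1 <;> simp [h1]
  have hpc : ept (P.v c) i t ∈ curve (P.v c) := by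
    refine ⟨i, 1 - t, t, by linarith, ht.le, by ring, ?_⟩
    unfold ept
    rw [smul_sub, sub_smul, one_smul]
    abel
  -- the other regions
  have hoth : ∀ c', c' ≠ 0 → c' ≠ c → ∀ᶠ q in 𝓝 (ept (P.v c) i t), q ∉ region (P.v c') := by
    intro c' h1 h2
    refine (isCompact_region (P.simple c')).isClosed.isOpen_compl.mem_nhds ?_
    intro hmem
    rcases eq_or_ne c 0 with rfl | hc
    · exact Set.disjoint_left.1 (curve_disjoint_interior (P.simple 0)) hpc (P.inside c' h1 hmem)
    · exact Set.disjoint_left.1 (P.disj c c' hc h1 h2.symm) (curve_subset_region hpc) hmem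
  have hall : ∀ᶠ q in 𝓝 (ept (P.v c) i t), ∀ c', c' ≠ 0 → c' ≠ c → q ∉ region (P.v c') := by
    rw [Filter.eventually_all]
    intro c'
    by_cases h1 : c' ≠ 0
    · by_cases h2 : c' ≠ c
      · filter_upwards [hoth c' h1 h2] with q hq _ _ using hq
      · exact Filter.Eventually.of_forall fun q _ h => absurd h h2
    · exact Filter.Eventually.of_forall fun q h => absurd h h1
  rcases eq_or_ne c 0 with rfl | hc
  · simp only [if_true]
    filter_upwards [hall, hloc 0 i t ht ht'] with q h1 h2
    rw [P.mem_carrier, h2.1]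
    exact ⟨fun h => h.1, fun h => ⟨h, fun c' hc' hi => h1 c' hc' hc' (interior_subset hi)⟩⟩
  · simp only [hc, if_false]
    have hin : ∀ᶠ q in 𝓝 (ept (P.v c) i t), q ∈ region (P.v 0) :=
      Filter.mem_of_superset (isOpen_interior.mem_nhds (P.inside c hc (curve_subset_region hpc)))
        interior_subset
    filter_upwards [hall, hin, hloc c i t ht ht'] with q h1 h2 h3
    rw [P.mem_carrier]
    constructor
    · intro h
      have h4 := h.2 c hc
      rw [h3.2, not_lt] at h4
      linarith
    · intro h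
      refine ⟨h2, fun c' hc' hi => ?_⟩
      rcases eq_or_ne c' c with rfl | hcc
      · rw [h3.2] at hi
        linarith
      · exact h1 c' hc' hcc (interior_subset hi)

end PolygonWithHoles

end Pool.Agent.AG
end

/- AG.GC.Assemble -/
section
/-!
# From the main theorem on objects to guards
-/

set_option autoImplicit false

noncomputable section

namespace AG

open scoped Classical
open Pool.Agent.Helper69 Pool.Agent.AG

/-- The statement of the main theorem on connected objects, for triangles named by themselves. -/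
def MainFor (R : Set Pt) : Prop :=
  ∀ S : Obj (Finset Pt), S.Geo ptT → S.Conn → (∀ t ∈ S.F, tri ptT t ⊆ R) → P S ptT R ∅

theorem guards_of_part (P : PolygonWithHoles) {T' T E : Finset (Finset Pt)}
    (hP : AGF.Part T' T E) (hreg : AGF.region T = P.carrier) (hv : AGF.verts T = P.verts)
    (hE2 : ∀ e ∈ E, e.card = 2) (hdeg : ∀ v ∈ AGF.verts T, ∃ e ∈ E, v ∈ e)
    (hcard : E.card = P.n)
    (heuler : 2 * T.card + Nat.card (AGF.dual T).ConnectedComponent ≤
      (AGF.diags T E).card + E.card + P.h)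
    (hmain : MainFor P.carrier) :
    ∃ G : Finset (ℝ × ℝ), (∀ g ∈ G, P.IsVertex g) ∧ G.card ≤ (P.n + P.h) / 3 ∧ P.Guards G := by
  have hT := hP.isTri
  have : Fintype (AGF.dual T).ConnectedComponent := Fintype.ofFinite _
  have hgeo := geo_ofTri hP hdeg
  have hpt : ∀ t ∈ T, AGF.hull t ⊆ P.carrier := by
    intro t ht x hx
    rw [← hreg, AGF.mem_region]
    exact ⟨t, ht, hx⟩
  have hsol : ∀ C : (AGF.dual T).ConnectedComponent, AG.P (piece hT C) ptT P.carrier ∅ := by
    intro C
    refine hmain _ (hgeo.mono' (piece_le hT C)) (piece_conn hT C) fun t ht => ?_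
    rw [piece_F] at ht
    have h1 := (mem_compF.1 ht).1
    rw [tri_ofTri hT h1]
    exact hpt t h1
  choose Q hQ hQc using hsol
  refine ⟨(Finset.univ.biUnion Q).image ptT, ?_, ?_, ?_⟩
  · intro g hg
    rw [Finset.mem_image] at hg
    obtain ⟨a, ha, rfl⟩ := hg
    rw [Finset.mem_biUnion] at ha
    obtain ⟨C, -, ha⟩ := ha
    have h1 := (hQ C).sub ha
    unfold Obj.sides at h1
    rw [Finset.mem_product, piece_F] at h1
    have h2 := (mem_compF.1 h1.1).1
    have h3 : ptT a ∈ P.verts := by
      rw [← hv, AGF.mem_verts]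
      exact ⟨a.1, h2, cor_mem hT h2 a.2⟩
    exact P.mem_verts.1 h3
  · have h1 : ((Finset.univ.biUnion Q).image ptT).card ≤ ∑ C, (Q C).card :=
      Finset.card_image_le.trans Finset.card_biUnion_le
    have h2 : 6 * ∑ C, (Q C).card ≤ ∑ C, (piece hT C).N2 0 := by
      rw [Finset.mul_sum]
      refine Finset.sum_le_sum fun C _ => ?_
      have := hQc C
      rwa [Finset.card_empty] at this
    rw [sum_N2 hT, card_vis hP hE2, hcard] at h2
    have h3 := hP.count
    rw [Nat.card_eq_fintype_card] at heuler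
    rw [hcard] at h3 heuler
    rw [Nat.le_div_iff_mul_le (by norm_num)]
    omega
  · intro x hx
    rw [← hreg, AGF.mem_region] at hx
    obtain ⟨t, ht, hxt⟩ := hx
    set C := (AGF.dual T).connectedComponentMk ⟨t, ht⟩ with hC
    have htC : t ∈ (piece hT C).F := by
      rw [piece_F]
      exact mem_compF.2 ⟨ht, rfl⟩
    obtain ⟨c, hc, hseg⟩ := (hQ C).cov t htC x (by rw [tri_ofTri hT ht]; exact hxt)
    exact ⟨ptT c, Finset.mem_image_of_mem _ (Finset.mem_biUnion.2 ⟨C, Finset.mem_univ _, hc⟩), hseg⟩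

end AG

end
end

/- AG.GC.Bridge -/
section
/-!
# The triangles of a triangulation which lie in a polygon with holes
-/

set_option autoImplicit false

noncomputable section

namespace Pool.Agent.AG

open Topology
open Pool.Agent.Helper94.UR (ept)
open Pool.Agent.Helper69.AGF (det hull IsTri Part sides hull_pair subset_hull hull_mono mem_sides)

theorem crs_eq_det (a b c : ℝ × ℝ) : crs a b c = det a b c := rfl

namespace PolygonWithHoles

variable (P : PolygonWithHoles)

/-- The edges as two element sets. -/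
def edges : Finset (Finset (ℝ × ℝ)) :=
  haveI : ∀ c, NeZero (P.k c) := fun c => (P.simple c).neZero
  Finset.univ.biUnion fun c => Finset.univ.image fun i => {P.v c i, P.v c (i + 1)}

theorem mem_edges {e : Finset (ℝ × ℝ)} : e ∈ P.edges ↔ ∃ c i, e = {P.v c i, P.v c (i + 1)} := by
  simp only [edges, Finset.mem_biUnion, Finset.mem_univ, true_and, Finset.mem_image]
  constructor
  · rintro ⟨c, i, h⟩
    exact ⟨c, i, h.symm⟩
  · rintro ⟨c, i, h⟩
    exact ⟨c, i, h.symm⟩

theorem edge_ne (c : Fin (P.h + 1)) (i : ZMod (P.k c)) : P.v c i ≠ P.v c (i + 1) :=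
  (P.simple c).2.1 i

theorem mid_ne {u w : ℝ × ℝ} (huw : u ≠ w) : (1 / 2 : ℝ) • u + (1 / 2 : ℝ) • w ≠ w := by
  intro h
  apply huw
  have h2 : (1 / 2 : ℝ) • u = (1 / 2 : ℝ) • w := by
    have h3 : (1 / 2 : ℝ) • w + (1 / 2 : ℝ) • w = w := by
      rw [← add_smul]; norm_num
    nth_rewrite 2 [← h3] at h
    exact add_right_cancel h
  exact smul_right_injective (ℝ × ℝ) (by norm_num : (1 / 2 : ℝ) ≠ 0) h2

/-- Different edges are different sets. -/
theorem edge_injective {c c' : Fin (P.h + 1)} {i : ZMod (P.k c)} {j : ZMod (P.k c')}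
    (h : ({P.v c i, P.v c (i + 1)} : Finset (ℝ × ℝ)) = {P.v c' j, P.v c' (j + 1)}) :
    (⟨c, i⟩ : Σ c, ZMod (P.k c)) = ⟨c', j⟩ := by
  by_contra hne
  have hm : (1 / 2 : ℝ) • P.v c i + (1 / 2 : ℝ) • P.v c (i + 1) ∈
      segment ℝ (P.v c i) (P.v c (i + 1)) := ⟨1 / 2, 1 / 2, by norm_num, by norm_num, by norm_num,
      rfl⟩
  have hm' : (1 / 2 : ℝ) • P.v c i + (1 / 2 : ℝ) • P.v c (i + 1) ∈
      segment ℝ (P.v c' j) (P.v c' (j + 1)) := by
    rw [← hull_pair, ← h, hull_pair]
    exact hm
  rcases (P.edges_meet hne hm hm').1 with h1 | h1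
  · rw [add_comm] at h1
    exact mid_ne (P.edge_ne c i).symm h1
  · exact mid_ne (P.edge_ne c i) h1

theorem card_edges : P.edges.card = P.n := by
  have : ∀ c, NeZero (P.k c) := fun c => (P.simple c).neZero
  unfold edges
  rw [Finset.card_biUnion]
  · unfold n
    refine Finset.sum_congr rfl fun c _ => ?_
    rw [Finset.card_image_of_injective, Finset.card_univ, ZMod.card]
    intro i j hij
    have h1 := P.edge_injective hij
    rw [Sigma.mk.injEq] at h1
    exact eq_of_heq h1.2
  · intro c _ c' _ hcc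
    refine Finset.disjoint_left.2 fun e he he' => ?_
    rw [Finset.mem_image] at he he'
    obtain ⟨i, -, rfl⟩ := he
    obtain ⟨j, -, hj⟩ := he'
    have h1 := P.edge_injective hj
    rw [Sigma.mk.injEq] at h1
    exact hcc h1.1.symm

theorem mem_curve_iff {p : ℝ × ℝ} : (∃ c, p ∈ curve (P.v c)) ↔ ∃ e ∈ P.edges, p ∈ hull e := by
  constructor
  · rintro ⟨c, i, hi⟩
    exact ⟨_, P.mem_edges.2 ⟨c, i, rfl⟩, by rw [hull_pair]; exact hi⟩
  · rintro ⟨e, he, hp⟩
    obtain ⟨c, i, rfl⟩ := P.mem_edges.1 he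
    rw [hull_pair] at hp
    exact ⟨c, i, hp⟩

/-- A connected set which meets no edge is in the interior of the polygon or outside. -/
theorem const_on {S : Set (ℝ × ℝ)} (hS : IsPreconnected S)
    (hc : ∀ p ∈ S, ∀ e ∈ P.edges, p ∉ hull e) : S ⊆ interior P.carrier ∨ S ⊆ P.carrierᶜ := by
  apply hS.subset_or_subset isOpen_interior P.isClosed_carrier.isOpen_compl
  · exact Set.disjoint_left.2 fun p hp hp' => hp' (interior_subset hp)
  · intro p hp
    by_cases h : p ∈ P.carrier
    · left
      rw [mem_interior_iff_mem_nhds]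
      have h1 : ∀ c, p ∉ curve (P.v c) := by
        intro c hcc
        obtain ⟨e, he, hpe⟩ := P.mem_curve_iff.1 ⟨c, hcc⟩
        exact hc p hp e he hpe
      filter_upwards [P.off_curves h1] with q hq
      exact hq.2 h
    · exact Or.inr h

open Classical in
/-- The triangles in the polygon. -/
def inner (T' : Finset (Finset (ℝ × ℝ))) : Finset (Finset (ℝ × ℝ)) :=
  T'.filter (fun t => hull t ⊆ P.carrier)

theorem mem_inner {T' : Finset (Finset (ℝ × ℝ))} {t : Finset (ℝ × ℝ)} :
    t ∈ P.inner T' ↔ t ∈ T' ∧ hull t ⊆ P.carrier := by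
  classical
  unfold inner
  exact Finset.mem_filter

variable {P} {T' : Finset (Finset (ℝ × ℝ))}

/-- A triangle with one interior point in the polygon lies in the polygon. -/
theorem mem_inner_of_point (hT : IsTri T') (hE : P.edges ⊆ sides T') {t : Finset (ℝ × ℝ)}
    (ht : t ∈ T') {p : ℝ × ℝ} (hp : p ∈ interior (hull t)) (hpc : p ∈ P.carrier) :
    t ∈ P.inner T' := by
  rw [mem_inner]
  refine ⟨ht, ?_⟩
  have hconn : IsPreconnected (interior (hull t)) := by
    exact (Pool.Agent.Helper69.AGF.convex_hull t).interior.isPreconnected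
  rcases P.const_on hconn (fun q hq e he => hT.interior_side ht (hE he) hq) with h | h
  · have h1 : closure (interior (hull t)) ⊆ P.carrier :=
      closure_minimal (h.trans interior_subset) P.isClosed_carrier
    exact (hT.subset_closure ht).trans h1
  · exact absurd hpc (h hp)

/-- Two triangles which contain a common point, not on any edge, have the same status. -/
theorem inner_iff_of_common (hT : IsTri T') (hE : P.edges ⊆ sides T') {t t' : Finset (ℝ × ℝ)}
    (ht' : t' ∈ T') {p : ℝ × ℝ} (hp : p ∈ hull t) (hp' : p ∈ hull t')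
    (hc : ∀ e ∈ P.edges, p ∉ hull e) : t ∈ P.inner T' → t' ∈ P.inner T' := by
  intro h
  have hpc : p ∈ P.carrier := (P.mem_inner.1 h).2 hp
  have h1 : ∀ c, p ∉ curve (P.v c) := by
    intro c hcc
    obtain ⟨e, he, hpe⟩ := P.mem_curve_iff.1 ⟨c, hcc⟩
    exact hc e he hpe
  obtain ⟨q, hq, hq'⟩ := hT.exists_interior ht' hp' (P.off_curves h1)
  have hq'' : q ∈ P.carrier ↔ p ∈ P.carrier := hq'
  exact mem_inner_of_point hT hE ht' hq (hq''.2 hpc)

theorem ept_half {k : ℕ} (v : ZMod k → ℝ × ℝ) (i : ZMod k) :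
    ept v i (1 / 2) = (1 / 2 : ℝ) • v i + (1 / 2 : ℝ) • v (i + 1) := by
  unfold ept
  rw [smul_sub, add_sub, add_comm, add_sub_assoc, add_comm]
  congr 1
  rw [show v i - (1 / 2 : ℝ) • v i = (1 : ℝ) • v i - (1 / 2 : ℝ) • v i by rw [one_smul],
    ← sub_smul]
  norm_num

/-- A triangle of the triangulation on a given side of an edge of the polygon. -/
theorem exists_left (hT : IsTri T') (hconv : Convex ℝ (Pool.Agent.Helper69.AGF.region T'))
    {x y : ℝ × ℝ} (hxy : x ≠ y) (hs : ({x, y} : Finset (ℝ × ℝ)) ∈ sides T')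
    (hx : x ∈ interior (Pool.Agent.Helper69.AGF.region T')) :
    ∃ w, ({x, y, w} : Finset (ℝ × ℝ)) ∈ T' ∧ 0 < det x y w := by
  -- a point on the left of the edge near `x`
  have hcont : Filter.Tendsto (fun s : ℝ => x + s • ((x.2 - y.2, y.1 - x.1) : ℝ × ℝ)) (𝓝 0)
      (𝓝 x) := by
    have h1 : Continuous (fun s : ℝ => x + s • ((x.2 - y.2, y.1 - x.1) : ℝ × ℝ)) := by fun_prop
    have h2 := h1.tendsto 0
    simpa using h2
  have hev := hcont (mem_interior_iff_mem_nhds.mp hx)
  rw [Filter.mem_map, Metric.mem_nhds_iff] at hev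
  obtain ⟨d, hd, hball⟩ := hev
  have h1 : x + (d / 2) • ((x.2 - y.2, y.1 - x.1) : ℝ × ℝ) ∈
      Pool.Agent.Helper69.AGF.region T' := by
    have := hball (show d / 2 ∈ Metric.ball (0 : ℝ) d by
      simp [abs_of_pos hd]; linarith)
    exact this
  refine hT.side_left hconv hs h1 ?_
  have h2 : det x y (x + (d / 2) • ((x.2 - y.2, y.1 - x.1) : ℝ × ℝ)) =
      d / 2 * ((y.1 - x.1) ^ 2 + (y.2 - x.2) ^ 2) := by
    simp only [det, Prod.fst_add, Prod.snd_add, Prod.smul_fst, Prod.smul_snd, smul_eq_mul]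
    ring
  rw [h2]
  apply mul_pos (by linarith)
  rcases eq_or_ne (y.1 - x.1) 0 with h3 | h3
  · rcases eq_or_ne (y.2 - x.2) 0 with h4 | h4
    · exact absurd (Prod.ext (by linarith) (by linarith)) hxy
    · have := sq_pos_of_ne_zero h4
      nlinarith [sq_nonneg (y.1 - x.1)]
  · have := sq_pos_of_ne_zero h3
    nlinarith [sq_nonneg (y.2 - x.2)]

/-- Near an inner point of a side there are interior points of the triangle on the correct side. -/
theorem near_mid {x y w : ℝ × ℝ} (hw : 0 < det x y w) {A : Set (ℝ × ℝ)}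
    (hA : A ∈ 𝓝 ((1 / 2 : ℝ) • x + (1 / 2 : ℝ) • y)) :
    ∃ q ∈ interior (hull {x, y, w}), q ∈ A ∧ 0 < det x y q := by
  have hm : (1 / 2 : ℝ) • x + (1 / 2 : ℝ) • y ∈ hull {x, y, w} := by
    rw [Pool.Agent.Helper69.AGF.mem_hull3_comb]
    exact ⟨1 / 2, 1 / 2, 0, by norm_num, by norm_num, le_refl _, by norm_num, by simp⟩
  have h1 := Pool.Agent.Helper69.AGF.hull3_subset_closure hw hm
  rw [mem_closure_iff_nhds] at h1
  obtain ⟨q, hq1, hq2⟩ := h1 A hA
  refine ⟨q, hq2, hq1, ?_⟩
  rw [Pool.Agent.Helper69.AGF.interior_hull3 hw] at hq2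
  exact hq2.1

/-- Of the two triangles at an edge exactly one is in the polygon. -/
theorem edge_one (hT : IsTri T') (hconv : Convex ℝ (Pool.Agent.Helper69.AGF.region T'))
    (hE : P.edges ⊆ sides T') (hin : P.carrier ⊆ interior (Pool.Agent.Helper69.AGF.region T'))
    {e : Finset (ℝ × ℝ)} (he : e ∈ P.edges) :
    ∃ t ∈ P.inner T', ∃ t' ∈ T', t' ∉ P.inner T' ∧ e ⊆ t ∧ e ⊆ t' := by
  obtain ⟨s, hs, hloc⟩ := P.exists_signs
  obtain ⟨c, i, rfl⟩ := P.mem_edges.1 he
  have hne := P.edge_ne c i
  have hxc : P.v c i ∈ P.carrier :=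
    P.curve_subset_carrier c ⟨i, left_mem_segment ℝ _ _⟩
  have hyc : P.v c (i + 1) ∈ P.carrier :=
    P.curve_subset_carrier c ⟨i, right_mem_segment ℝ _ _⟩
  obtain ⟨w, hw, hdw⟩ := exists_left hT hconv hne (hE he) (hin hxc)
  obtain ⟨w', hw', hdw'⟩ := exists_left hT hconv hne.symm
    (by rw [Finset.pair_comm]; exact hE he) (hin hyc)
  have hmid := hloc c i (1 / 2) (by norm_num) (by norm_num)
  rw [ept_half] at hmid
  have hmid' : ∀ᶠ q in 𝓝 ((1 / 2 : ℝ) • P.v c (i + 1) + (1 / 2 : ℝ) • P.v c i),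
      (q ∈ P.carrier ↔ 0 ≤ s c * crs (P.v c i) (P.v c (i + 1)) q) := by
    rw [add_comm ((1 / 2 : ℝ) • P.v c (i + 1))]
    exact hmid
  obtain ⟨q, hq, hqA, hqd⟩ := near_mid hdw hmid
  obtain ⟨q', hq', hqA', hqd'⟩ := near_mid hdw' hmid'
  have hqA1 : q ∈ P.carrier ↔ 0 ≤ s c * crs (P.v c i) (P.v c (i + 1)) q := hqA
  have hqA1' : q' ∈ P.carrier ↔ 0 ≤ s c * crs (P.v c i) (P.v c (i + 1)) q' := hqA'
  rw [crs_eq_det] at hqA1 hqA1'
  rw [Pool.Agent.Helper69.AGF.det_swap] at hqd'
  have hsub : ({P.v c i, P.v c (i + 1)} : Finset (ℝ × ℝ)) ⊆ {P.v c i, P.v c (i + 1), w} := by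
    intro r hr
    simp only [Finset.mem_insert, Finset.mem_singleton] at hr ⊢
    tauto
  have hsub' : ({P.v c i, P.v c (i + 1)} : Finset (ℝ × ℝ)) ⊆ {P.v c (i + 1), P.v c i, w'} := by
    intro r hr
    simp only [Finset.mem_insert, Finset.mem_singleton] at hr ⊢
    tauto
  rcases hs c with h1 | h1
  · rw [h1, one_mul] at hqA1 hqA1'
    refine ⟨_, mem_inner_of_point hT hE hw hq (hqA1.2 hqd.le), _, hw', ?_, hsub, hsub'⟩
    intro hcon
    have h2 := (P.mem_inner.1 hcon).2 (interior_subset hq')
    have h3 := hqA1'.1 h2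
    linarith
  · rw [h1, neg_mul, one_mul] at hqA1 hqA1'
    refine ⟨_, mem_inner_of_point hT hE hw' hq' (hqA1'.2 (by linarith)), _, hw, ?_, hsub', hsub⟩
    intro hcon
    have h2 := (P.mem_inner.1 hcon).2 (interior_subset hq)
    have h3 := hqA1.1 h2
    linarith

/-- Across a side which is not an edge the status does not change. -/
theorem other_side (hT : IsTri T') (hE : P.edges ⊆ sides T') {e : Finset (ℝ × ℝ)}
    (he : e ∈ sides T') (hne : e ∉ P.edges) {t t' : Finset (ℝ × ℝ)} (ht' : t' ∈ T')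
    (het : e ⊆ t) (het' : e ⊆ t') : t ∈ P.inner T' → t' ∈ P.inner T' := by
  obtain ⟨hcard, -⟩ := mem_sides.1 he
  obtain ⟨x, y, hxy, rfl⟩ := Finset.card_eq_two.1 hcard
  have hm : (1 / 2 : ℝ) • x + (1 / 2 : ℝ) • y ∈ hull {x, y} := by
    rw [hull_pair]
    exact ⟨1 / 2, 1 / 2, by norm_num, by norm_num, by norm_num, rfl⟩
  apply inner_iff_of_common hT hE ht' (hull_mono het hm) (hull_mono het' hm)
  intro e' he' hme'
  have h1 := hT.midpoint_side hxy he (hE he') hme'
  exact hne (h1 ▸ he')

/-- The triangles in the polygon cover it. -/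
theorem region_inner (hT : IsTri T') (hconv : Convex ℝ (Pool.Agent.Helper69.AGF.region T'))
    (hE : P.edges ⊆ sides T') (hin : P.carrier ⊆ interior (Pool.Agent.Helper69.AGF.region T')) :
    Pool.Agent.Helper69.AGF.region (P.inner T') = P.carrier := by
  apply Set.Subset.antisymm
  · intro p hp
    obtain ⟨t, ht, hpt⟩ := Pool.Agent.Helper69.AGF.mem_region.1 hp
    exact (P.mem_inner.1 ht).2 hpt
  · intro p hp
    rw [Pool.Agent.Helper69.AGF.mem_region]
    by_cases hc : ∃ e ∈ P.edges, p ∈ hull e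
    · obtain ⟨e, he, hpe⟩ := hc
      obtain ⟨t, ht, -, -, -, het, -⟩ := edge_one hT hconv hE hin he
      exact ⟨t, ht, hull_mono het hpe⟩
    · push Not at hc
      obtain ⟨t, ht, hpt⟩ := Pool.Agent.Helper69.AGF.mem_region.1 (interior_subset (hin hp))
      have h1 : ∀ c, p ∉ curve (P.v c) := by
        intro c hcc
        obtain ⟨e, he, hpe⟩ := P.mem_curve_iff.1 ⟨c, hcc⟩
        exact hc e he hpe
      obtain ⟨q, hq, hq'⟩ := hT.exists_interior ht hpt (P.off_curves h1)
      have hq'' : q ∈ P.carrier ↔ p ∈ P.carrier := hq'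
      exact ⟨t, mem_inner_of_point hT hE ht hq (hq''.2 hp), hpt⟩

theorem part_inner (hT : IsTri T') (hconv : Convex ℝ (Pool.Agent.Helper69.AGF.region T'))
    (hE : P.edges ⊆ sides T') (hin : P.carrier ⊆ interior (Pool.Agent.Helper69.AGF.region T')) :
    Part T' (P.inner T') P.edges where
  tri := hT
  conv := hconv
  sub := fun t ht => (P.mem_inner.1 ht).1
  edge_side := hE
  edge_one := fun e he => edge_one hT hconv hE hin he
  other := fun e he hne t ht t' ht' het het' =>
    ⟨other_side hT hE he hne ht' het het', other_side hT hE he hne ht het' het⟩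
  inner := by
    intro v hv
    obtain ⟨t, ht, hvt⟩ := Pool.Agent.Helper69.AGF.mem_verts.1 hv
    exact hin ((P.mem_inner.1 ht).2 (subset_hull hvt))

/-- A corner of a triangle is not in its interior. -/
theorem corner_notMem {A B C : ℝ × ℝ} (h : 0 < det A B C) {p : ℝ × ℝ}
    (hp : p ∈ ({A, B, C} : Finset (ℝ × ℝ))) : p ∉ interior (hull {A, B, C}) := by
  rw [Pool.Agent.Helper69.AGF.interior_hull3 h]
  rintro ⟨h1, h2, h3⟩
  simp only [Finset.mem_insert, Finset.mem_singleton] at hp
  rcases hp with rfl | rfl | rfl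
  · simp at h1
  · simp at h1
  · simp at h2

theorem verts_inner {A B C : ℝ × ℝ} (hABC : 0 < det A B C) (hT : IsTri T')
    (hconv : Convex ℝ (Pool.Agent.Helper69.AGF.region T')) (hE : P.edges ⊆ sides T')
    (hreg : Pool.Agent.Helper69.AGF.region T' = hull {A, B, C})
    (hV : ∀ p ∈ Pool.Agent.Helper69.AGF.verts T', p ∈ P.verts ∨ p ∈ ({A, B, C} : Finset (ℝ × ℝ)))
    (hin : P.carrier ⊆ interior (Pool.Agent.Helper69.AGF.region T')) :
    Pool.Agent.Helper69.AGF.verts (P.inner T') = P.verts := by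
  ext p
  rw [Pool.Agent.Helper69.AGF.mem_verts]
  constructor
  · rintro ⟨t, ht, hpt⟩
    obtain ⟨ht', hsub⟩ := P.mem_inner.1 ht
    rcases hV p (Pool.Agent.Helper69.AGF.mem_verts.2 ⟨t, ht', hpt⟩) with h | h
    · exact h
    · have h1 := hin (hsub (subset_hull hpt))
      rw [hreg] at h1
      exact absurd h1 (corner_notMem hABC h)
  · intro hp
    obtain ⟨c, i, rfl⟩ := P.mem_verts.1 hp
    obtain ⟨t, ht, -, -, -, het, -⟩ := edge_one hT hconv hE hin (P.mem_edges.2 ⟨c, i, rfl⟩)
    exact ⟨t, ht, het (by simp)⟩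

/-- Every vertex is connected to the first vertex of its boundary polygon. -/
theorem connected_edges (c : Fin (P.h + 1)) (i : ZMod (P.k c)) :
    Relation.ReflTransGen (fun x y : ℝ × ℝ => ({x, y} : Finset (ℝ × ℝ)) ∈ P.edges) (P.v c 0)
      (P.v c i) := by
  have : NeZero (P.k c) := (P.simple c).neZero
  have key : ∀ m : ℕ, Relation.ReflTransGen
      (fun x y : ℝ × ℝ => ({x, y} : Finset (ℝ × ℝ)) ∈ P.edges) (P.v c 0)
      (P.v c (m : ZMod (P.k c))) := by
    intro m
    induction m with
    | zero =>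
      rw [Nat.cast_zero]
    | succ m ih =>
      refine ih.tail ?_
      rw [P.mem_edges]
      exact ⟨c, (m : ZMod (P.k c)), by rw [Nat.cast_succ]⟩
  have h1 := key i.val
  rwa [ZMod.natCast_zmod_val] at h1

theorem edge_data {e : Finset (ℝ × ℝ)} (he : e ∈ P.edges) :
    ∃ a b, a ≠ b ∧ e = {a, b} ∧ a ∈ P.verts ∧ b ∈ P.verts ∧
      ∀ p ∈ P.verts, p ∈ segment ℝ a b → p = a ∨ p = b := by
  obtain ⟨c, i, rfl⟩ := P.mem_edges.1 he
  refine ⟨_, _, P.edge_ne c i, rfl, P.mem_verts.2 ⟨c, i, rfl⟩, P.mem_verts.2 ⟨c, i + 1, rfl⟩, ?_⟩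
  intro p hp hps
  obtain ⟨c', j, rfl⟩ := P.mem_verts.1 hp
  by_cases hne : (⟨c, i⟩ : Σ c, ZMod (P.k c)) = ⟨c', j⟩
  · left
    have h1 : ∀ x y : (Σ c, ZMod (P.k c)), x = y → P.v y.1 y.2 = P.v x.1 x.2 := by
      rintro x _ rfl
      rfl
    exact h1 _ _ hne
  · exact (P.edges_meet hne hps (left_mem_segment ℝ _ _)).1

theorem edge_cross {a b c d : ℝ × ℝ} (hab : ({a, b} : Finset (ℝ × ℝ)) ∈ P.edges)
    (hcd : ({c, d} : Finset (ℝ × ℝ)) ∈ P.edges) (hne : ({a, b} : Finset (ℝ × ℝ)) ≠ {c, d})
    {p : ℝ × ℝ} (h1 : p ∈ segment ℝ a b) (h2 : p ∈ segment ℝ c d) :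
    (p = a ∨ p = b) ∧ (p = c ∨ p = d) := by
  obtain ⟨c1, i, e1⟩ := P.mem_edges.1 hab
  obtain ⟨c2, j, e2⟩ := P.mem_edges.1 hcd
  rw [← hull_pair, e1, hull_pair] at h1
  rw [← hull_pair, e2, hull_pair] at h2
  have hne' : (⟨c1, i⟩ : Σ c, ZMod (P.k c)) ≠ ⟨c2, j⟩ := by
    intro h
    apply hne
    rw [e1, e2]
    have h3 : ∀ x y : (Σ c, ZMod (P.k c)), x = y →
        ({P.v x.1 x.2, P.v x.1 (x.2 + 1)} : Finset (ℝ × ℝ)) = {P.v y.1 y.2, P.v y.1 (y.2 + 1)} := by
      rintro x _ rfl
      rfl
    exact h3 _ _ h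
  obtain ⟨h3, h4⟩ := P.edges_meet hne' h1 h2
  have m1 : p ∈ ({P.v c1 i, P.v c1 (i + 1)} : Finset (ℝ × ℝ)) := by simpa using h3
  have m2 : p ∈ ({P.v c2 j, P.v c2 (j + 1)} : Finset (ℝ × ℝ)) := by simpa using h4
  rw [← e1] at m1
  rw [← e2] at m2
  exact ⟨by simpa using m1, by simpa using m2⟩

/-- Every polygon with holes has a triangulation `T` whose vertices are the vertices of the
polygon; it is a part of a triangulation `T'` of a large triangle. -/
theorem exists_part (P : PolygonWithHoles) : ∃ T' T : Finset (Finset (ℝ × ℝ)),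
    Part T' T P.edges ∧ Pool.Agent.Helper69.AGF.region T = P.carrier ∧
    Pool.Agent.Helper69.AGF.verts T = P.verts ∧
    (∀ v ∈ Pool.Agent.Helper69.AGF.verts T, ∃ c : Fin (P.h + 1),
      Relation.ReflTransGen (fun x y : ℝ × ℝ => ({x, y} : Finset (ℝ × ℝ)) ∈ P.edges)
        (P.v c 0) v) ∧
    (∃ A B C, Pool.Agent.Helper69.AGF.region T' = hull {A, B, C} ∧ 0 < det A B C) := by
  obtain ⟨A, B, C, hABC, hS⟩ :=
    Pool.Agent.Helper69.AGF.exists_big_triangle' P.isCompact_carrier.isBounded
  have hVc : ∀ p ∈ P.verts, p ∈ P.carrier := by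
    intro p hp
    obtain ⟨c, i, rfl⟩ := P.mem_verts.1 hp
    exact P.curve_subset_carrier c ⟨i, left_mem_segment ℝ _ _⟩
  obtain ⟨T', hT, hreg, hverts, hE⟩ := Pool.Agent.Helper69.AGF.exists_constrained hABC P.verts
    (fun p hp => hS (hVc p hp)) P.edges (fun e he => edge_data he)
    (fun a b c d hab hcd hne p h1 h2 => edge_cross hab hcd hne h1 h2)
  have hconv : Convex ℝ (Pool.Agent.Helper69.AGF.region T') := by
    rw [hreg]
    exact Pool.Agent.Helper69.AGF.convex_hull _
  have hin : P.carrier ⊆ interior (Pool.Agent.Helper69.AGF.region T') := by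
    rw [hreg]
    exact hS
  have hvi : Pool.Agent.Helper69.AGF.verts (P.inner T') = P.verts := by
    refine verts_inner hABC hT hconv hE hreg ?_ hin
    intro p hp
    rw [hverts, Finset.mem_union] at hp
    exact hp
  refine ⟨T', P.inner T', part_inner hT hconv hE hin, region_inner hT hconv hE hin, hvi, ?_,
    ⟨A, B, C, hreg, hABC⟩⟩
  intro v hv
  rw [hvi] at hv
  obtain ⟨c, i, rfl⟩ := P.mem_verts.1 hv
  exact ⟨c, connected_edges c i⟩

/-- The count: `F + n + 2c ≤ 2 (n + h)`, where `c` is the number of components of the dual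
graph. -/
theorem count_bound {T : Finset (Finset (ℝ × ℝ))} (hp : Part T' T P.edges)
    (hr : ∀ v ∈ Pool.Agent.Helper69.AGF.verts T, ∃ c : Fin (P.h + 1),
      Relation.ReflTransGen (fun x y : ℝ × ℝ => ({x, y} : Finset (ℝ × ℝ)) ∈ P.edges)
        (P.v c 0) v) :
    T.card + P.n + 2 * Nat.card (Pool.Agent.Helper69.AGF.dual T).ConnectedComponent ≤
      2 * (P.n + P.h) := by
  have h1 := hp.euler P.h (fun c => P.v c 0) hr
  have h2 := hp.count
  rw [P.card_edges] at h1 h2
  omega

end PolygonWithHoles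

end Pool.Agent.AG

end
end

/- AG.GC.Shermer -/
section
/-!
# Vertex guards from the main theorem on objects
-/

set_option autoImplicit false

noncomputable section

namespace AG

open scoped Classical
open Pool.Agent.Helper69 Pool.Agent.AG

/-- The bound `⌊(n+h)/3⌋` from the main theorem on connected objects. -/
theorem guards_of_main (P : PolygonWithHoles) (hmain : MainFor P.carrier) :
    ∃ G : Finset (ℝ × ℝ), (∀ g ∈ G, P.IsVertex g) ∧ G.card ≤ (P.n + P.h) / 3 ∧ P.Guards G := by
  obtain ⟨T', T, hP, hreg, hv, hr, -⟩ := P.exists_part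
  refine guards_of_part P hP hreg hv ?_ ?_ P.card_edges (hP.euler P.h (fun c => P.v c 0) hr) hmain
  · intro e he
    obtain ⟨c, i, rfl⟩ := P.mem_edges.1 he
    exact Finset.card_pair (P.edge_ne c i)
  · intro v hv'
    rw [hv] at hv'
    obtain ⟨c, i, rfl⟩ := P.mem_verts.1 hv'
    exact ⟨_, P.mem_edges.2 ⟨c, i, rfl⟩, by simp⟩

end AG

end
end
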