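import Pool.Agent.Helper16.VGG.G10
import Pool.Agent.Helper16.VGG.G14
import Pool.Agent.Helper16.VGG.G15

/- AG.Reg.Open -/
section
/-!
# Project AG, block 6: the minimal choice gives an environment (6.3, 6.4), closed case
-/

set_option linter.unusedSectionVars false
set_option linter.unusedSimpArgs false
set_option linter.unusedVariables false

namespace AG

open Finset

variable {I : Type} [DecidableEq I]

namespace Obj

variable {S : Obj I} {pt : Sd I → Pt} {R : Set Pt} {w0 w0' : Sd I}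

/-- closed case -/
theorem ClosedMin.env (hC : ClosedMin S pt R) (hB : Base S pt) :
    Env S pt S.F (fun _ => False) where
  base := hB
  shape := hB.shape_closed
  Vbl _ h := h.elim
  subA p hp := (hB.isIn_pA (mem_CP.1 hp).1.toPr).sub
  noV _ _ _ _ h := h.elim
  ne p hp q hq := by
    have cp := (mem_CP.1 hp).1.toPr
    have cq := (mem_CP.1 hq).1.toPr
    obtain ⟨c, hc, h1⟩ := hC.triv _ _ cp
    obtain ⟨c', hc', h1'⟩ := hC.triv _ _ cq
    intro e
    have h2 := cp.b.memF
    rw [← e, h1, h1', mem_union, mem_singleton, mem_singleton] at h2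
    rcases h2 with h2 | h2
    · exact cp.b.not_eared hc h2
    · exact cp.b.not_eared hc' h2

namespace OpenMin

theorem memO (hO : OpenMin S pt R w0 w0') (hB : Base S pt) {u : Sd I} (he : S.Eqv w0 u) :
    u.1 ∈ S.pO pt w0 w0' ↔ S.ps (S.lo pt w0) ≤ S.ps u ∧ S.ps u < S.ps (S.hi pt w0') :=
  (hB.isIn_pO hO.pr).mem_iff hB.lin hB.loopless (hO.pr.b.eqv_lo.symm.trans he)

theorem subO (hO : OpenMin S pt R w0 w0') (hB : Base S pt) : S.pO pt w0 w0' ⊆ S.F :=
  (hB.isIn_pO hO.pr).sub

theorem reg2R (hO : OpenMin S pt R w0 w0') (hB : Base S pt) :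
    S.Reg2 (S.pB pt w0 w0') (S.hi pt w0') (S.g (S.lo pt w0)) :=
  (hB.isIn_pO hO.pr).reg2_compl

/-- a pair whose set `O` properly contains `O` of the chosen pair is trivial -/
theorem no_bigger (hO : OpenMin S pt R w0 w0') (hB : Base S pt) {u u' : Sd I} (h : S.Pr pt u u')
    (hnt : ¬ S.Triv pt u u') (hs : S.pO pt w0 w0' ⊂ S.pO pt u u') : False := by
  have h1 := hO.min S pt u u' hO.cex rfl h hnt
  have h2 := card_lt_card hs
  have h3 := card_sdiff_of_subset (hO.subO hB)
  have h4 := card_sdiff_of_subset ((hB.isIn_pO h).sub)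
  have h5 := card_le_card ((hB.isIn_pO h).sub)
  unfold pB at h1
  omega

/-- 6.3: the chosen pair consists of the first and the last blade of its visit -/
theorem first_last (hO : OpenMin S pt R w0 w0') (hB : Base S pt) {u : Sd I}
    (hu : S.BladeAt pt u) (he : S.Eqv w0 u) : S.ps w0 ≤ S.ps u ∧ S.ps u ≤ S.ps w0' := by
  have hl := hB.lin
  have hr := hB.loopless
  have hp := hO.pr
  constructor
  · by_contra hcon
    have hlt : S.ps u < S.ps w0 := by omega
    have p1 : S.Pr pt u w0' := ⟨hu, hp.b', he.symm.trans hp.eqv, by have := hp.lt; omega⟩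
    have p2 : S.Pr pt u w0 := ⟨hu, hp.b, he.symm, hlt⟩
    have hnt : ¬ S.Triv pt u w0' := by
      rintro ⟨c, hc, h1⟩
      have h2 : w0.1 ∈ S.pA pt u w0' := by
        rw [(hB.isIn_pA p1).mem_iff hl hr (hu.eqv_hi.symm.trans he.symm)]
        have := hu.ps_hi hl
        have := hp.b'.ps_lo hl
        have := hp.lt
        omega
      rw [h1, mem_singleton] at h2
      exact hp.b.not_eared hc h2
    have hlo : S.ps (S.lo pt u) < S.ps (S.lo pt w0) := by
      have := hB.int p2
      have := hu.ps_lo_le_hi hl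
      omega
    refine hO.no_bigger hB p1 hnt (Finset.ssubset_iff_subset_ne.2 ⟨?_, fun e => ?_⟩)
    · refine (hB.isIn_pO p1).subset hB.conn hl hr (hB.isIn_pO hp) ?_ hlo.le le_rfl
      exact (hu.eqv_lo.symm.trans he.symm).trans hp.b.eqv_lo
    · have h1 := (hB.isIn_pO p1).reg2
      have h2 := (hB.isIn_pO hp).reg2
      rw [e] at h2
      rw [(h1.unique hB h2).1] at hlo
      exact absurd hlo (lt_irrefl _)
  · by_contra hcon
    have hlt : S.ps w0' < S.ps u := by omega
    have e1 : S.Eqv w0' u := hp.eqv.symm.trans he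
    have p1 : S.Pr pt w0 u := ⟨hp.b, hu, he, by have := hp.lt; omega⟩
    have p2 : S.Pr pt w0' u := ⟨hp.b', hu, e1, hlt⟩
    have hnt : ¬ S.Triv pt w0 u := by
      rintro ⟨c, hc, h1⟩
      have h2 : w0'.1 ∈ S.pA pt w0 u := by
        rw [(hB.isIn_pA p1).mem_iff hl hr (hp.b.eqv_hi.symm.trans hp.eqv)]
        have := hp.b.ps_hi hl
        have := hu.ps_lo hl
        have := hp.lt
        omega
      rw [h1, mem_singleton] at h2
      exact hp.b'.not_eared hc h2
    have hhi : S.ps (S.hi pt w0') < S.ps (S.hi pt u) := by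
      have := hB.int p2
      have := hu.ps_lo_le_hi hl
      omega
    refine hO.no_bigger hB p1 hnt (Finset.ssubset_iff_subset_ne.2 ⟨?_, fun e => ?_⟩)
    · exact (hB.isIn_pO p1).subset hB.conn hl hr (hB.isIn_pO hp) (Eqv.refl _ _) le_rfl hhi.le
    · have h1 := (hB.isIn_pO p1).reg2
      have h2 := (hB.isIn_pO hp).reg2
      rw [e] at h2
      have h3 := S.g_injective (h1.unique hB h2).2
      rw [h3] at hhi
      exact absurd hhi (lt_irrefl _)

/-- the only blades of the visit `v0` with triangle in `R` are the a-like ones of the pair -/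
theorem blade_at (hO : OpenMin S pt R w0 w0') (hB : Base S pt) {u : Sd I}
    (hu : S.BladeAt pt u) (he : S.Eqv w0 u) (hR : u.1 ∈ S.pB pt w0 w0') :
    (u = w0 ∧ S.VirtB pt w0) ∨ (u = w0' ∧ S.VirtA pt w0') := by
  have hl := hB.lin
  have hp := hO.pr
  obtain ⟨h1, h2⟩ := hO.first_last hB hu he
  have h3 : u.1 ∉ S.pO pt w0 w0' := (mem_sdiff.1 hR).2
  rw [hO.memO hB he] at h3
  have h4 := hp.b.ps_lo_eq hl
  have h5 := hp.b'.ps_hi_eq hl
  have h6 := hp.lt
  rcases Nat.lt_or_ge (S.ps u) (S.ps (S.lo pt w0)) with h7 | h7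
  · left
    rcases h4 with h4 | h4
    · exact ⟨ps_inj hl he.symm (by omega), h4.1⟩
    · omega
  · right
    rcases h5 with h5 | h5
    · exact ⟨ps_inj hl (he.symm.trans hp.eqv) (by omega), h5.1⟩
    · omega

theorem ne_F (hO : OpenMin S pt R w0 w0') (hB : Base S pt) : S.pB pt w0 w0' ≠ S.F := by
  intro e
  obtain ⟨t, ht⟩ := (hB.isIn_pO hO.pr).nonempty
  have h1 := hO.subO hB ht
  rw [← e] at h1
  exact (mem_sdiff.1 h1).2 ht

/-- not both stubs of a pair at another visit cross the boundary of `R` -/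
theorem not_both_cross (hO : OpenMin S pt R w0 w0') (hB : Base S pt) {c c' : Sd I}
    (hv : ¬ S.Eqv w0 c) (he : S.Eqv c c') (hlt : S.ps c < S.ps c') (hg : S.g c ≠ c)
    (hg' : S.g c' ≠ c') (h1 : ¬ (c.1 ∈ S.pB pt w0 w0' ↔ (S.g c).1 ∈ S.pB pt w0 w0'))
    (h2 : ¬ (c'.1 ∈ S.pB pt w0 w0' ↔ (S.g c').1 ∈ S.pB pt w0 w0')) : False := by
  have hR := hO.reg2R hB
  have hv1 : ¬ S.Eqv (S.hi pt w0') c := fun h =>
    hv ((hO.pr.eqv.trans hO.pr.b'.eqv_hi).trans h)
  have hv2 : ¬ S.Eqv (S.hi pt w0') c' := fun h => hv1 (h.trans he.symm)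
  have key : ∀ d : Sd I, ¬ S.Eqv (S.hi pt w0') d → S.g d ≠ d →
      ¬ (d.1 ∈ S.pB pt w0 w0' ↔ (S.g d).1 ∈ S.pB pt w0 w0') →
      d = S.g (S.lo pt w0) ∨ d = S.g (S.hi pt w0') := by
    intro d hd hgd h3
    by_cases h4 : d.1 ∈ S.pB pt w0 w0'
    · left
      exact hR.exit hB hd hgd h4 (fun h5 => h3 ⟨fun _ => h5, fun _ => h4⟩)
    · right
      refine hR.entry hB hd hgd h4 ?_
      by_contra h5
      exact h3 ⟨fun h => absurd h h4, fun h => absurd h h5⟩
  rcases key c hv1 hg h1 with e1 | e1 <;> rcases key c' hv2 hg' h2 with e2 | e2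
  · rw [e1, e2] at hlt; exact absurd hlt (lt_irrefl _)
  · exact hR.not_both hB (by rw [← e1, ← e2]; exact he)
  · exact hR.not_both hB (by rw [← e1, ← e2]; exact he.symm)
  · rw [e1, e2] at hlt; exact absurd hlt (lt_irrefl _)

/-- 6.4 -/
theorem subA (hO : OpenMin S pt R w0 w0') (hB : Base S pt) {u u' : Sd I} (h : S.Pr pt u u')
    (h1 : u.1 ∈ S.pB pt w0 w0') (h2 : u'.1 ∈ S.pB pt w0 w0') (hv : ¬ S.Eqv w0 u) :
    S.pA pt u u' ⊆ S.pB pt w0 w0' := by
  have iA := hB.isIn_pA h
  have iO := hB.isIn_pO hO.pr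
  have hvv : ¬ S.Eqv w0 (S.hi pt u) := fun h3 => hv (h3.trans h.b.eqv_hi.symm)
  have he : S.Eqv (S.hi pt u) (S.lo pt u') := iA.eqv
  have m1 : (S.hi pt u).1 ∈ S.pA pt u u' := (mem_bd.1 iA.mem_left).2.1
  have m2 : (S.g (S.hi pt u)).1 ∉ S.pA pt u u' := (mem_bd.1 iA.mem_left).2.2
  have m3 : (S.g (S.lo pt u')).1 ∈ S.pA pt u u' := (mem_bd.1 iA.mem_right).2.1
  have m4 : (S.lo pt u').1 ∉ S.pA pt u u' := by
    have := (mem_bd.1 iA.mem_right).2.2
    rwa [S.invol] at this
  have notboth := fun x y => hO.not_both_cross hB hvv he iA.lt iA.gl iA.gl' x y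
  -- `A` is not contained in `O`
  have c1 : ¬ Disjoint (S.pB pt w0 w0') (S.pA pt u u') := by
    intro hd
    have n1 : u.1 ∉ S.pA pt u u' := fun h3 => (disjoint_left.1 hd) h1 h3
    have n2 : u'.1 ∉ S.pA pt u u' := fun h3 => (disjoint_left.1 hd) h2 h3
    refine notboth ?_ ?_
    · rcases h.b.tri_hi with h3 | h3
      · rw [h3] at m1; exact absurd m1 n1
      · intro h4
        exact (disjoint_left.1 hd) (h4.2 (by rw [h3]; exact h1)) m1
    · rcases h.b'.tri_lo with h3 | h3
      · intro h4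
        exact (disjoint_left.1 hd) (h4.1 (by rw [h3]; exact h2)) m3
      · rw [h3] at m3; exact absurd m3 n2
  -- `R` is not contained in `A`
  have c2 : ¬ S.pB pt w0 w0' ⊆ S.pA pt u u' := by
    intro hs
    refine notboth ?_ ?_
    · rcases h.b.tri_hi with h3 | h3
      · intro h4
        exact m2 (hs (h4.1 (by rw [h3]; exact h1)))
      · exact absurd (by rw [h3]; exact hs h1) m2
    · rcases h.b'.tri_lo with h3 | h3
      · exact absurd (by rw [h3]; exact hs h2) m4
      · intro h4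
        exact m4 (hs (h4.2 (by rw [h3]; exact h2)))
  -- `O` is not contained in `A`
  have c3 : ¬ S.pO pt w0 w0' ⊆ S.pA pt u u' := by
    intro hs
    by_cases ht : S.Triv pt u u'
    · obtain ⟨c, hc, hA⟩ := ht
      have h3 : S.pO pt w0 w0' = S.pA pt u u' := by
        rw [hA] at hs ⊢
        rcases Finset.subset_singleton_iff.1 hs with h4 | h4
        · have := iO.nonempty
          rw [h4] at this
          exact absurd this not_nonempty_empty
        · exact h4
      have h4 := iO.reg2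
      have h5 := iA.reg2
      rw [← h3] at h5
      have h6 := (h4.unique hB h5).1
      exact hvv (by rw [← h6]; exact hO.pr.b.eqv_lo)
    · have hAO : S.pA pt u u' ⊆ S.pO pt u u' := by
        refine (hB.isIn_pO h).subset hB.conn hB.lin hB.loopless iA ?_ ?_ ?_
        · exact h.b.eqv_lo.symm.trans h.b.eqv_hi
        · exact h.b.ps_lo_le_hi hB.lin
        · exact h.b'.ps_lo_le_hi hB.lin
      refine hO.no_bigger hB h ht (Finset.ssubset_iff_subset_ne.2 ⟨hs.trans hAO, fun e => ?_⟩)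
      have h4 := iO.reg2
      have h5 := (hB.isIn_pO h).reg2
      rw [← e] at h5
      have h6 := (h4.unique hB h5).1
      refine hv (hO.pr.b.eqv_lo.trans ?_)
      rw [h6]; exact h.b.eqv_lo.symm
  intro t ht
  by_contra hcon
  have hR := hO.reg2R hB
  have k1 : (S.bd (S.pB pt w0 w0')).card = 2 := by
    unfold pB
    rw [card_bd_sdiff S iO.sub]; exact iO.card hB.loopless
  obtain ⟨f, hf, h3, h4⟩ := hB.cross_out (X := S.pB pt w0 w0') (Y := S.pA pt u u') sdiff_subset k1
    iA.sub (iA.card hB.loopless)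
    (by rwa [Finset.not_disjoint_iff_nonempty_inter] at c1)
    (by
      rw [Finset.sdiff_nonempty]; exact c2)
    ⟨t, mem_sdiff.2 ⟨ht, hcon⟩⟩
    (by
      rw [Finset.not_subset] at c3
      obtain ⟨s, hs1, hs2⟩ := c3
      refine ⟨s, mem_sdiff.2 ⟨iO.sub hs1, ?_⟩⟩
      rw [mem_union]
      rintro (h5 | h5)
      · exact (mem_sdiff.1 h5).2 hs1
      · exact hs2 h5)
  rw [iA.bd, mem_insert, mem_singleton] at hf
  rcases hf with rfl | rfl
  · rcases h.b.tri_hi with h5 | h5
    · exact h3 (by rw [h5]; exact h1)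
    · exact h4 (by rw [h5]; exact h1)
  · rw [S.invol] at h4
    rcases h.b'.tri_lo with h5 | h5
    · exact h4 (by rw [h5]; exact h2)
    · exact h3 (by rw [h5]; exact h2)

/-- no blade at the other end `x` of an a-like side with triangle in `R`, upper version for `R`
(`w0` of type B) -/
theorem no_blade_xB (hO : OpenMin S pt R w0 w0') (hB : Base S pt) (hw : S.VirtB pt w0) {e : Sd I}
    (he : S.Eqv (unrot w0) e) (heR : e.1 ∈ S.pB pt w0 w0') :
    e = unrot w0 ∨ e = S.g (rot w0) := by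
  have hR := hO.reg2R hB
  have e1 : S.g (S.lo pt w0) = unrot w0 := by
    rw [lo_of_B hw, g_ccw hO.pr.b.glued']
  have hg : S.g (unrot w0) ≠ unrot w0 := hO.pr.b.glued'
  have hd : (S.cw (unrot w0)).1 ∉ S.pB pt w0 w0' := by
    have h1 : (S.cw (unrot w0)).1 = (S.lo pt w0).1 := by
      rw [cw_fst hg, lo_of_B hw, ccw_of_glued hg]
    rw [h1]
    intro h2
    exact (mem_sdiff.1 h2).2 ((mem_bd.1 (hB.isIn_pO hO.pr).mem_left).2.1)
  have h3 := hB.out_upper hO.pr.b hR (d := S.cw (unrot w0)) (by rw [e1]; exact S.cw_eqv _) hd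
  rcases h3 with h3 | h3 | h3
  · exact absurd hw h3.1.not_B
  · exact absurd hw h3.1.not_B
  · exact h3.2 e ((S.cw_eqv _).symm.trans he) heR

theorem no_blade_xA (hO : OpenMin S pt R w0 w0') (hB : Base S pt) (hw : S.VirtA pt w0') {e : Sd I}
    (he : S.Eqv (rot w0') e) (heR : e.1 ∈ S.pB pt w0 w0') :
    e = rot w0' ∨ e = rot (S.g (rot w0')) := by
  have hR := hO.reg2R hB
  have e1 : S.g (S.hi pt w0') = S.g w0' := by rw [hi_of_A hw]
  have hg : S.g w0' ≠ w0' := hO.pr.b'.glued
  have hd : (S.g w0').1 ∉ S.pB pt w0 w0' := by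
    intro h2
    refine (mem_sdiff.1 h2).2 ?_
    rw [← e1]
    exact (mem_bd.1 (hB.isIn_pO hO.pr).mem_right).2.1
  have h3 := hB.out_lower hO.pr.b' hR (d := S.g w0') (by rw [e1]; exact Eqv.refl _ _) hd
  rcases h3 with h3 | h3 | h3
  · exact absurd hw h3.1.not_A
  · exact absurd hw h3.1.not_A
  · exact h3.2 e ((Eqv.of_glued' hg).symm.trans he) heR

theorem noV (hO : OpenMin S pt R w0 w0') (hB : Base S pt) {u u' : Sd I} (h : S.Pr pt u u')
    (h1 : u.1 ∈ S.pB pt w0 w0') (h2 : u'.1 ∈ S.pB pt w0 w0') (hv : ¬ S.Eqv w0 u) {x : Sd I}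
    (hx : S.BladeAt pt x) (hxv : S.Eqv w0 x) : x.1 ∉ S.pA pt u u' := by
  intro hm
  have iA := hB.isIn_pA h
  have iO := hB.isIn_pO hO.pr
  have hsub := hO.subA hB h h1 h2 hv
  rcases hO.blade_at hB hx hxv (hsub hm) with ⟨rfl, hw⟩ | ⟨rfl, hw⟩
  · have hg : S.g (unrot x) ≠ unrot x := hx.glued'
    have h3 : unrot x ∈ S.bd (S.pA pt u u') := by
      rw [mem_bd]
      refine ⟨hg, hm, fun h4 => ?_⟩
      have h5 : (S.lo pt x).1 ∈ S.pO pt x w0' := (mem_bd.1 iO.mem_left).2.1
      rw [lo_of_B hw, ccw_of_glued hg] at h5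
      exact (mem_sdiff.1 (hsub h4)).2 h5
    rw [iA.bd, mem_insert, mem_singleton] at h3
    rcases h3 with h3 | h3
    · have h4 : S.Eqv (unrot x) u := by rw [h3]; exact h.b.eqv_hi.symm
      rcases hO.no_blade_xB hB hw h4 h1 with h5 | h5
      · have h6 := hB.one _ _ h.b hx (by rw [h5]; rfl)
        rw [h6] at h5
        exact unrot_ne _ h5.symm
      · have h6 := hB.one _ _ h.b (Or.inl hw.blade) (by rw [h5]; rfl)
        rw [h6] at h5
        exact rot_ne _ h5
    · apply hv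
      have h4 : S.Eqv (rot (unrot x)) (S.lo pt u') := by
        rw [h3]; exact (Eqv.of_glued iA.gl').symm
      rw [rot_unrot] at h4
      exact h4.trans (h.b'.eqv_lo.symm.trans h.eqv.symm)
  · have hg : S.g x ≠ x := hx.glued
    have h3 : x ∈ S.bd (S.pA pt u u') := by
      rw [mem_bd]
      refine ⟨hg, hm, fun h4 => ?_⟩
      have h5 : (S.g (S.hi pt x)).1 ∈ S.pO pt w0 x := (mem_bd.1 iO.mem_right).2.1
      rw [hi_of_A hw] at h5
      exact (mem_sdiff.1 (hsub h4)).2 h5
    rw [iA.bd, mem_insert, mem_singleton] at h3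
    rcases h3 with h3 | h3
    · apply hv
      refine hxv.trans ?_
      rw [h3]; exact h.b.eqv_hi.symm
    · have h4 : S.Eqv (rot x) u := by
        refine (Eqv.of_glued' hg).trans ?_
        rw [h3, S.invol]
        exact h.b'.eqv_lo.symm.trans h.eqv.symm
      rcases hO.no_blade_xA hB hw h4 h1 with h5 | h5
      · have h6 := hB.one _ _ h.b hx (by rw [h5]; rfl)
        rw [h6] at h5
        exact rot_ne _ h5.symm
      · have h6 := hB.one _ _ h.b (Or.inl hw.blade) (by rw [h5]; rfl)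
        rw [h6] at h5
        exact rot_ne _ h5.symm

/-- the environment of the open case -/
theorem env (hO : OpenMin S pt R w0 w0') (hB : Base S pt) :
    Env S pt (S.pB pt w0 w0') (S.Eqv w0) where
  base := hB
  shape := by
    rw [eqv_congr hO.pr.b.eqv_lo]
    refine hB.shape_compl (hB.isIn_pO hO.pr) (fun u hu he => ?_)
    by_contra h1
    rcases hO.blade_at hB (Or.inl hu) (hO.pr.b.eqv_lo.trans he) (mem_sdiff.2 ⟨hu.memF, h1⟩) with
      h2 | h2
    · rw [h2.1] at hu; exact hu.not_B h2.2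
    · rw [h2.1] at hu; exact hu.not_A h2.2
  Vbl z hz := ⟨w0, hO.pr.b, hz⟩
  subA p hp := by
    obtain ⟨h1, h2, h3, h4⟩ := mem_CP.1 hp
    exact hO.subA hB h1.toPr h2 h3 h4
  noV p hp u hu hV := by
    obtain ⟨h1, h2, h3, h4⟩ := mem_CP.1 hp
    exact hO.noV hB h1.toPr h2 h3 h4 hu hV
  ne p hp q hq := by
    obtain ⟨h1, h2, h3, h4⟩ := mem_CP.1 hp
    obtain ⟨k1, k2, k3, k4⟩ := mem_CP.1 hq
    intro e
    apply hO.ne_F hB
    refine subset_antisymm sdiff_subset ?_
    rw [← e]
    exact union_subset (hO.subA hB h1.toPr h2 h3 h4) (hO.subA hB k1.toPr k2 k3 k4)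

end OpenMin

end Obj

end AG
end

/- AG.Reg.Results -/
section
/-!
# Project AG, block 6: consequences of the torso theorem (D2, D2c, D4)
-/

set_option linter.unusedSectionVars false
set_option linter.unusedSimpArgs false
set_option linter.unusedVariables false

namespace AG

open Finset

variable {I : Type} [DecidableEq I]

namespace Obj

variable {S : Obj I} {pt : Sd I → Pt}

/-! ### trivial pairs -/

/-- if `A_p` is the eared triangle with apex corner `c` then `p = (cw c, ccw c)` -/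
theorem Base.triv_eq (hB : Base S pt) {w w' c : Sd I} (h : S.Pr pt w w') (hc : S.Eared c)
    (e : S.pA pt w w' = {c.1}) : w = S.cw c ∧ w' = S.ccw c ∧ S.hi pt w = c := by
  have iA := hB.isIn_pA h
  have hA : ¬ S.VirtA pt w := fun hA => by
    have h1 := (hB.mem_pA_left h).2 hA
    rw [e, mem_singleton] at h1
    exact h.b.not_eared hc h1
  have hB' : ¬ S.VirtB pt w' := fun hB' => by
    have h1 := (hB.mem_pA_right h).2 hB'
    rw [e, mem_singleton] at h1
    exact h.b'.not_eared hc h1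
  have m1 : (S.hi pt w).1 = c.1 := by
    have := (mem_bd.1 iA.mem_left).2.1
    rwa [e, mem_singleton] at this
  have m2 : (S.g (S.lo pt w')).1 = c.1 := by
    have := (mem_bd.1 iA.mem_right).2.1
    rwa [e, mem_singleton] at this
  have n1 : S.hi pt w ≠ rot c := fun h1 => by
    have := iA.gl
    rw [h1] at this
    exact this (S.earFree _ hc.2.2)
  have n2 : S.g (S.lo pt w') ≠ rot c := fun h1 => by
    have := g_ne_iff.2 iA.gl'
    rw [h1] at this
    exact this (S.earFree _ hc.2.2)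
  have n3 : S.Eqv (S.hi pt w) (rot (S.g (S.lo pt w'))) := iA.eqv.trans (Eqv.of_glued iA.gl')
  have lp := hB.loopless
  have hcF : c.1 ∈ S.F := S.memF _ hc.1
  have key : S.hi pt w = c ∧ S.g (S.lo pt w') = unrot c := by
    rcases eq_of_fst_eq m1 with h1 | h1 | h1 <;> rcases eq_of_fst_eq m2 with h2 | h2 | h2
    · rw [h1, h2] at n3; exact absurd n3 (lp c hcF)
    · exact absurd h2 n2
    · exact ⟨h1, h2⟩
    · exact absurd h1 n1
    · exact absurd h1 n1
    · exact absurd h1 n1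
    · rw [h1, h2] at n3
      have := hB.tri (unrot c) (rot c) hcF rfl n3
      exact absurd this (unrot_ne_rot c)
    · exact absurd h2 n2
    · rw [h1, h2, rot_unrot] at n3
      have := hB.tri (unrot c) c hcF rfl n3
      exact absurd this (unrot_ne c)
  obtain ⟨k1, k2⟩ := key
  refine ⟨?_, ?_, k1⟩
  · rw [← k1, hi_of_not_A hA, cw_ccw h.b.glued']
  · rw [lo_of_not_B hB'] at k2
    rw [← S.invol w', k2]
    exact (ccw_of_glued hc.2.1).symm

theorem Base.triv_enc (hB : Base S pt) {w w' c : Sd I} (h : S.Pr pt w w') (hc : S.Eared c)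
    (e : S.pA pt w w' = {c.1}) : S.Enc pt c := by
  obtain ⟨h1, h2, -⟩ := hB.triv_eq h hc e
  exact ⟨hc, h1 ▸ h.b, h2 ▸ h.b'⟩

/-- the neighbour of an eared triangle of `A_p` is in `A_p` or a blade triangle of the pair -/
theorem Base.ear_nbr (hB : Base S pt) {w w' c b : Sd I} (h : S.Pr pt w w') (hc : S.Eared c)
    (hm : c.1 ∈ S.pA pt w w') (hb : b.1 = c.1) (hg : S.g b ≠ b) :
    (S.g b).1 ∈ S.pA pt w w' ∨ (S.g b).1 = w.1 ∨ (S.g b).1 = w'.1 := by
  have iA := hB.isIn_pA h
  by_cases h1 : (S.g b).1 ∈ S.pA pt w w'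
  · exact Or.inl h1
  right
  have h2 : b ∈ S.bd (S.pA pt w w') := mem_bd.2 ⟨hg, by rw [hb]; exact hm, h1⟩
  rw [iA.bd, mem_insert, mem_singleton] at h2
  rcases h2 with h2 | h2
  · left
    rcases h.b.tri_hi with h3 | h3
    · exfalso
      rw [← h2, hb] at h3
      exact h.b.not_eared hc h3.symm
    · rw [h2]; exact h3
  · right
    rcases h.b'.tri_lo with h3 | h3
    · rw [h2, S.invol]; exact h3
    · exfalso
      rw [← h2, hb] at h3
      exact h.b'.not_eared hc h3.symm

namespace Env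

variable {R : Finset I} {V : Sd I → Prop} {p q : Sd I × Sd I}

/-! ### D2 -/

theorem vir_in_kid (hE : Env S pt R V) {w : Sd I} (hw : S.Vir pt w) (hR : w.1 ∈ R) (hV : ¬ V w) :
    ∃ d ∈ S.kids pt R V, w.1 ∈ S.pA pt d.1 d.2 := by
  classical
  by_contra hcon
  push Not at hcon
  have h1 := hE.adm_R.torso hE
  have h2 : w ∈ S.candT pt R V (S.kids pt R V) (fun q => S.pA pt q.1 q.2) := by
    rw [candT, mem_filter]
    exact ⟨mem_CandK.2 ⟨hw, hR, hV⟩, fun q hq => hcon q hq⟩
  have := card_pos.2 ⟨w, h2⟩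
  omega

theorem eared_in_kid (hE : Env S pt R V) {c : Sd I} (hc : S.Eared c) (hR : c.1 ∈ R) :
    ∃ d ∈ S.kids pt R V, c.1 ∈ S.pA pt d.1 d.2 := by
  classical
  by_contra hcon
  push Not at hcon
  have h1 := hE.adm_R.torso hE
  have h2 : c ∈ S.earsT R (S.kids pt R V) (fun q => S.pA pt q.1 q.2) := by
    rw [earsT, mem_filter]
    exact ⟨mem_EarsK.2 ⟨hc, hR⟩, fun q hq => hcon q hq⟩
  have := card_pos.2 ⟨c, h2⟩
  omega

theorem zr_in_kid (hE : Env S pt R V) {z : Sd I} (hz : z ∈ S.Zr pt R V) :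
    ∃ d ∈ S.kids pt R V, S.Meets (S.pA pt d.1 d.2) z ∧ ¬ S.BL pt d.1 d.2 z := by
  classical
  by_contra hcon
  push Not at hcon
  have h1 := hE.adm_R.torso hE
  have h2 : z ∈ S.zrT pt R V (S.kids pt R V) (fun q => S.pA pt q.1 q.2) (fun q => q.1) := by
    rw [zrT, mem_filter]
    refine ⟨hz, fun q hq hm => ?_, fun c hc he => ?_⟩
    · exact (hE.base.BLg_iff (mem_CP.1 (kids_sub hq)).1).2 (hcon q hq hm)
    · have := card_pos.2 ⟨c, hc⟩
      omega
  have := card_pos.2 ⟨z, h2⟩
  omega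

/-- (D2) for virtual blades -/
theorem d2_vir (hE : Env S pt R V) {w : Sd I} (hw : S.Vir pt w) (hR : w.1 ∈ R) (hV : ¬ V w) :
    ∃ p ∈ S.PIn pt R V, p ∈ S.kids pt R V ∧ w.1 ∈ S.pA pt p.1 p.2 := by
  obtain ⟨d, hd, hm⟩ := hE.vir_in_kid hw hR hV
  refine ⟨d, mem_PIn.2 ⟨kids_sub hd, ?_⟩, hd, hm⟩
  rintro ⟨c, hc, e⟩
  rw [e, mem_singleton] at hm
  exact hw.bladeAt.not_eared hc hm

/-- (D2) for eared triangles -/
theorem d2_ear (hE : Env S pt R V) {c : Sd I} (hc : S.Eared c) (hR : c.1 ∈ R)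
    (hn : ¬ S.Enc pt c) : ∃ p ∈ S.PIn pt R V, p ∈ S.kids pt R V ∧ c.1 ∈ S.pA pt p.1 p.2 := by
  obtain ⟨d, hd, hm⟩ := hE.eared_in_kid hc hR
  refine ⟨d, mem_PIn.2 ⟨kids_sub hd, ?_⟩, hd, hm⟩
  rintro ⟨c', hc', e⟩
  have h1 := hm
  rw [e, mem_singleton] at h1
  have h2 := hc.unique hc' h1
  subst h2
  exact hn (hE.base.triv_enc (mem_CP.1 (kids_sub hd)).1.toPr hc e)

/-- both neighbours of an eared triangle of `R` are in `R` -/
theorem ear_nbr (hE : Env S pt R V) {c b : Sd I} (hc : S.Eared c) (hR : c.1 ∈ R)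
    (hb : b.1 = c.1) (hg : S.g b ≠ b) : (S.g b).1 ∈ R := by
  obtain ⟨d, hd, hm⟩ := hE.eared_in_kid hc hR
  have hd' := kids_sub hd
  obtain ⟨h1, h2, h3, h4⟩ := mem_CP.1 hd'
  rcases hE.base.ear_nbr h1.toPr hc hm hb hg with h | h | h
  · exact hE.subA d hd' h
  · rw [h]; exact h2
  · rw [h]; exact h3

/-- (D2c) -/
theorem d2c (hE : Env S pt R V) {z : Sd I} (hz : S.NoB pt z) (hne : ¬ S.EarEnd z)
    (hm : S.Meets R z) : ∃ p ∈ S.PIn pt R V, p ∈ S.kids pt R V ∧
      S.Meets (S.pA pt p.1 p.2) z ∧ ¬ S.BL pt p.1 p.2 z := by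
  have hB := hE.base
  have hl := hB.lin
  -- the name of the visit
  obtain ⟨c0, hc0, hc0R⟩ := hm
  have hlast : S.Eqv z (S.last z) := last_eqv S z
  have hF : (S.last z).1 ∈ S.F := by
    have h1 : S.last z = S.last c0 := ((eqv_iff hl).1 hc0).symm
    rw [h1]
    exact (mem_vis.1 (last_mem_vis hl (mem_sides.2 (hE.shape.sub hc0R)))).1
  have hzr : S.last z ∈ S.Zr pt R V := by
    rw [mem_Zr]
    refine ⟨⟨hF, last_unglued hl z⟩, fun hV => ?_, ⟨c0, hc0.trans hlast, hc0R⟩,
      fun w hw _ he => hz w hw (he.trans hlast.symm)⟩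
    obtain ⟨w, hw, he⟩ := hE.Vbl _ hV
    exact hz w hw (he.trans hlast.symm)
  obtain ⟨d, hd, ⟨e, he, heA⟩, hnb⟩ := hE.zr_in_kid hzr
  have he' : S.Eqv e z := he.trans hlast.symm
  have cd := (mem_CP.1 (kids_sub hd)).1
  refine ⟨d, mem_PIn.2 ⟨kids_sub hd, ?_⟩, hd, ⟨e, he', heA⟩, fun h => hnb ?_⟩
  · rintro ⟨c, hc, eA⟩
    rw [eA, mem_singleton] at heA
    rcases eq_of_fst_eq heA with h1 | h1 | h1
    · -- the apex is at the visit of the pair
      have h2 := (hB.triv_eq cd.toPr hc eA).2.2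
      refine hz d.1 cd.toPr.b (cd.toPr.b.eqv_hi.trans ?_)
      rw [h2, ← h1]; exact he'
    · exact hne ⟨rot c, hc.2.2, Or.inl (by rw [← h1]; exact he')⟩
    · exact hne ⟨rot c, hc.2.2, Or.inr (by rw [rot_rot, ← h1]; exact he')⟩
  · rcases h with ⟨h1, h2⟩ | ⟨h1, h2⟩
    · exact Or.inl ⟨h1, h2.trans hlast⟩
    · exact Or.inr ⟨h1, h2.trans hlast⟩

/-- a face at a visit without blades and ear ends is in some `A_p` -/
theorem face_in (hE : Env S pt R V) (hVR : ∀ u, S.BladeAt pt u → V u → u.1 ∉ R) {z u : Sd I}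
    (hz : S.NoB pt z) (hne : ¬ S.EarEnd z) (hu : S.Eqv u z) (hR : u.1 ∈ R) (hf : S.Face u.1) :
    ∃ p ∈ S.PIn pt R V, p ∈ S.kids pt R V ∧ u.1 ∈ S.pA pt p.1 p.2 := by
  have hB := hE.base
  obtain ⟨d, hd, hk, ⟨e, he, heA⟩, hnb⟩ := hE.d2c hz hne ⟨u, hu, hR⟩
  have hdCP := (mem_PIn.1 hd).1
  have cd := (mem_CP.1 hdCP).1
  by_cases hm : u.1 ∈ S.pA pt d.1 d.2
  · exact ⟨d, hd, hk, hm⟩
  have hnv : ¬ S.Eqv d.1 e := fun h => hz d.1 cd.toPr.b (h.trans he)
  have vir_case : ∀ w : Sd I, S.Vir pt w → u.1 = w.1 →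
      ∃ p ∈ S.PIn pt R V, p ∈ S.kids pt R V ∧ u.1 ∈ S.pA pt p.1 p.2 := by
    intro w hw h1
    rw [h1] at hR ⊢
    exact hE.d2_vir hw hR (fun hV => hVR w hw.bladeAt hV hR)
  rcases hB.out_cases cd hnv he heA hu hm with h | ⟨h, h'⟩ | ⟨h, h' | h'⟩ | ⟨h, h'⟩ | ⟨h, h' | h'⟩
  · exact absurd ((hB.BLg_iff cd).1 h) hnb
  · exact absurd (by rw [h'] at hf; exact hf) h.not_face
  · exact vir_case d.2 (Or.inl h) (by rw [h']; rfl)
  · exact absurd (by rw [h'] at hf; exact hf) h.blade.not_face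
  · exact absurd (by rw [h'] at hf; exact hf) h.not_face
  · exact vir_case d.1 (Or.inr h) (by rw [h']; rfl)
  · exact absurd (by rw [h'] at hf; exact hf) h.blade.not_face

/-! ### D4 -/

/-- `|Cand_R| + |Ears_R| ≤ |CP_R|` -/
theorem card_cand (hE : Env S pt R V) :
    (S.CandK pt R V).card + (S.EarsK R).card ≤ (S.CP pt R V).card := by
  classical
  have hF : S.Fam pt R V (∅ : Finset (Sd I × Sd I)) (fun q => S.pA pt q.1 q.2) (fun q => q.1) := by
    refine ⟨?_, ?_, ?_, ?_, ?_, ?_, fun z hz hV => ?_, ?_, ?_⟩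
    · intro i hi; simp at hi
    · intro i hi; simp at hi
    · intro i hi; simp at hi
    · intro i hi; simp at hi
    · intro i hi; simp at hi
    · intro i hi; simp at hi
    · obtain ⟨w, hw, he⟩ := hE.Vbl z hV
      exact hz w hw he
    · intro i hi; simp at hi
    · intro i hi; simp at hi
  have h1 := hE.base.torso_le hE.shape hF
  have h2 : S.candT pt R V (∅ : Finset (Sd I × Sd I)) (fun q => S.pA pt q.1 q.2) =
      S.CandK pt R V := by
    rw [candT, filter_true_of_mem]; intro x _ i hi; simp at hi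
  have h3 : S.earsT R (∅ : Finset (Sd I × Sd I)) (fun q => S.pA pt q.1 q.2) = S.EarsK R := by
    rw [earsT, filter_true_of_mem]; intro x _ i hi; simp at hi
  rw [h2, h3, sum_empty] at h1
  omega

end Env

/-! ### R has no a-like side -/

/-- (D2) no blade of the visit `v0` has its triangle in `R` -/
theorem OpenMin.no_blade {w0 w0' : Sd I} {R : Set Pt} (hO : OpenMin S pt R w0 w0')
    (hB : Base S pt) {u : Sd I} (hu : S.BladeAt pt u) (he : S.Eqv w0 u) :
    u.1 ∉ S.pB pt w0 w0' := by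
  intro hR
  have hE := hO.env hB
  have hl := hB.lin
  rcases hO.blade_at hB hu he hR with ⟨rfl, hw⟩ | ⟨rfl, hw⟩
  · -- `w0` of type B
    have hx : S.Eqv (unrot u) (S.last (unrot u)) := last_eqv S _
    have t1 : S.Eqv (unrot u) (S.g (rot u)) := by
      have := Eqv.of_glued' (S := S) hw.glued_rot
      rwa [rot_rot] at this
    -- no blade of `R` at the visit of `x`
    have nb : ∀ w, S.BladeAt pt w → w.1 ∈ S.pB pt u w0' → ¬ S.Eqv w (unrot u) := by
      intro w hwb hwR hwe
      rcases hO.no_blade_xB hB hw hwe.symm hwR with h5 | h5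
      · have h6 := hB.one _ _ hwb hu (by rw [h5]; rfl)
        rw [h6] at h5
        exact unrot_ne _ h5.symm
      · have h6 := hB.one _ _ hwb (Or.inl hw.blade) (by rw [h5]; rfl)
        rw [h6] at h5
        exact rot_ne _ h5
    have hzr : S.last (unrot u) ∈ S.Zr pt (S.pB pt u w0') (S.Eqv u) := by
      rw [mem_Zr]
      refine ⟨⟨(mem_vis.1 (last_mem_vis hl (mem_sides.2 (by exact hu.memF)))).1, last_unglued hl _⟩, fun hV => ?_,
        ⟨unrot u, hx, hR⟩, fun w hwb hwR hwe => nb w hwb hwR (hwe.trans hx.symm)⟩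
      exact unrot_ne u (hB.tri u (unrot u) hu.memF rfl (hV.trans hx.symm)).symm
    obtain ⟨d, hd, ⟨e, hez, heA⟩, hnb⟩ := hE.zr_in_kid hzr
    have hdCP := kids_sub hd
    obtain ⟨cd, d1R, d2R, dV⟩ := mem_CP.1 hdCP
    have iA := hB.isIn_pA cd.toPr
    have heR := hE.subA d hdCP heA
    have hn0 : u.1 ∉ S.pA pt d.1 d.2 := hE.noV d hdCP u hu (Eqv.refl _ _)
    rcases hO.no_blade_xB hB hw (hx.trans hez.symm) heR with h5 | h5
    · exact hn0 (by rw [h5] at heA; exact heA)
    · rw [h5] at heA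
      have h6 : S.g (rot u) ∈ S.bd (S.pA pt d.1 d.2) :=
        mem_bd.2 ⟨g_ne_iff.2 hw.glued_rot, heA, by rw [S.invol]; exact hn0⟩
      rw [iA.bd, mem_insert, mem_singleton] at h6
      rcases h6 with h6 | h6
      · refine nb d.1 cd.toPr.b d1R (cd.toPr.b.eqv_hi.trans ?_)
        rw [← h6]; exact t1.symm
      · have h7 : S.Eqv d.1 (rot (S.g (rot u))) := by
          rw [h6]
          exact (cd.toPr.eqv.trans cd.toPr.b'.eqv_lo).trans (Eqv.of_glued iA.gl')
        rcases hB.blade_in_pA cd (Or.inl hw.blade) h7 heA with ⟨h8, h9⟩ | ⟨h8, h9⟩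
        · rw [← h8] at h9; exact hw.blade.not_A h9
        · rw [← h8] at h9; exact hw.blade.not_B h9
  · -- `w0'` of type A
    have hx : S.Eqv (rot u) (S.last (rot u)) := last_eqv S _
    have t1 : S.Eqv (rot u) (rot (S.g (rot u))) := Eqv.of_glued hw.glued_rot
    have nb : ∀ w, S.BladeAt pt w → w.1 ∈ S.pB pt w0 u → ¬ S.Eqv w (rot u) := by
      intro w hwb hwR hwe
      rcases hO.no_blade_xA hB hw hwe.symm hwR with h5 | h5
      · have h6 := hB.one _ _ hwb hu (by rw [h5]; rfl)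
        rw [h6] at h5
        exact rot_ne _ h5.symm
      · have h6 := hB.one _ _ hwb (Or.inl hw.blade) (by rw [h5]; rfl)
        rw [h6] at h5
        exact rot_ne _ h5.symm
    have hzr : S.last (rot u) ∈ S.Zr pt (S.pB pt w0 u) (S.Eqv w0) := by
      rw [mem_Zr]
      refine ⟨⟨(mem_vis.1 (last_mem_vis hl (mem_sides.2 (by exact hu.memF)))).1, last_unglued hl _⟩, fun hV => ?_,
        ⟨rot u, hx, hR⟩, fun w hwb hwR hwe => nb w hwb hwR (hwe.trans hx.symm)⟩
      exact rot_ne u (hB.tri u (rot u) hu.memF rfl (he.symm.trans (hV.trans hx.symm))).symm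
    obtain ⟨d, hd, ⟨e, hez, heA⟩, hnb⟩ := hE.zr_in_kid hzr
    have hdCP := kids_sub hd
    obtain ⟨cd, d1R, d2R, dV⟩ := mem_CP.1 hdCP
    have iA := hB.isIn_pA cd.toPr
    have heR := hE.subA d hdCP heA
    have hn0 : u.1 ∉ S.pA pt d.1 d.2 := hE.noV d hdCP u hu he
    rcases hO.no_blade_xA hB hw (hx.trans hez.symm) heR with h5 | h5
    · exact hn0 (by rw [h5] at heA; exact heA)
    · rw [h5] at heA
      have h6 : S.g (rot u) ∈ S.bd (S.pA pt d.1 d.2) :=
        mem_bd.2 ⟨g_ne_iff.2 hw.glued_rot, heA, by rw [S.invol]; exact hn0⟩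
      rw [iA.bd, mem_insert, mem_singleton] at h6
      rcases h6 with h6 | h6
      · have h7 : S.Eqv d.1 (S.g (rot u)) := by
          rw [h6]; exact cd.toPr.b.eqv_hi
        rcases hB.blade_in_pA cd (Or.inl hw.blade) h7 heA with ⟨h8, h9⟩ | ⟨h8, h9⟩
        · rw [← h8] at h9; exact hw.blade.not_A h9
        · rw [← h8] at h9; exact hw.blade.not_B h9
      · refine nb d.1 cd.toPr.b d1R ?_
        refine (cd.toPr.eqv.trans cd.toPr.b'.eqv_lo).trans ?_
        refine (Eqv.of_glued iA.gl').trans ?_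
        rw [← h6]; exact t1.symm

/-- in the open case: no a-like sides -/
theorem OpenMin.not_B {w0 w0' : Sd I} {R : Set Pt} (hO : OpenMin S pt R w0 w0')
    (hB : Base S pt) : ¬ S.VirtB pt w0 := by
  intro h
  apply hO.no_blade hB hO.pr.b (Eqv.refl _ _)
  refine mem_sdiff.2 ⟨hO.pr.b.memF, ?_⟩
  rw [hO.memO hB (Eqv.refl _ _), lo_of_B h, ps_ccw hB.lin hO.pr.b.glued']
  omega

theorem OpenMin.not_A {w0 w0' : Sd I} {R : Set Pt} (hO : OpenMin S pt R w0 w0')
    (hB : Base S pt) : ¬ S.VirtA pt w0' := by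
  intro h
  apply hO.no_blade hB hO.pr.b' hO.pr.eqv
  refine mem_sdiff.2 ⟨hO.pr.b'.memF, ?_⟩
  rw [hO.memO hB hO.pr.eqv, hi_of_A h]
  omega

end Obj

end AG
end

/- Helper29.AG7.Tor -/
section
/-!
# AG section 7: torsos `tor p`, the pairs `X0`, ear ends `pe`

`tor p` = `A_p` without the sets `A_q` of the consecutive pairs `q` in `A_p` (trivial pairs included);
`X0` = consecutive pairs of the region whose torso contains no eared triangle.
-/

set_option autoImplicit false
set_option linter.unusedSectionVars false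
open Finset

namespace Pool.Agent.Helper29.AG7

open _root_.AG _root_.AG.Obj

variable {I : Type} [DecidableEq I] {S : Obj I} {pt : Sd I → Pt} {X : Finset I}

/-! ### torsos -/

open Classical in
/-- `K` without the sets of the consecutive pairs in `K` -/
noncomputable def torC (S : Obj I) (pt : Sd I → Pt) (K : Finset I) (W : Sd I → Prop) : Finset I :=
  K.filter (fun t => ∀ q ∈ S.CP pt K W, t ∉ S.pA pt q.1 q.2)

theorem mem_torC {K : Finset I} {W : Sd I → Prop} {t : I} :
    t ∈ torC S pt K W ↔ t ∈ K ∧ ∀ q ∈ S.CP pt K W, t ∉ S.pA pt q.1 q.2 := by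
  classical
  rw [torC, mem_filter]

/-- torso of the pair `p` -/
noncomputable def tor (S : Obj I) (pt : Sd I → Pt) (p : Sd I × Sd I) : Finset I :=
  torC S pt (S.pA pt p.1 p.2) (S.Eqv p.1)

theorem tor_sub {p : Sd I × Sd I} : tor S pt p ⊆ S.pA pt p.1 p.2 := fun _ ht => (mem_torC.1 ht).1

open Classical in
/-- consecutive pairs whose torso contains no eared triangle -/
noncomputable def X0 (S : Obj I) (pt : Sd I → Pt) (R : Finset I) (V : Sd I → Prop) :
    Finset (Sd I × Sd I) := (S.CP pt R V).filter (fun p => ∀ c, S.Eared c → c.1 ∉ tor S pt p)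

theorem mem_X0 {R : Finset I} {V : Sd I → Prop} {p : Sd I × Sd I} :
    p ∈ X0 S pt R V ↔ p ∈ S.CP pt R V ∧ ∀ c, S.Eared c → c.1 ∉ tor S pt p := by
  classical
  rw [X0, mem_filter]

section env

variable {R : Finset I} {V : Sd I → Prop}

theorem mem_tor (hE : Env S pt R V) {p : Sd I × Sd I} (hp : p ∈ S.CP pt R V) {t : I} :
    t ∈ tor S pt p ↔ t ∈ S.pA pt p.1 p.2 ∧
      ∀ q ∈ S.CP pt R V, S.pA pt q.1 q.2 ⊂ S.pA pt p.1 p.2 → t ∉ S.pA pt q.1 q.2 := by
  rw [tor, mem_torC]
  constructor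
  · rintro ⟨h1, h2⟩
    exact ⟨h1, fun q hq hs => h2 q ((hE.mem_CP_pA hp).2 ⟨hq, hs⟩)⟩
  · rintro ⟨h1, h2⟩
    refine ⟨h1, fun q hq => ?_⟩
    have := (hE.mem_CP_pA hp).1 hq
    exact h2 q this.1 this.2

theorem tor_disj (hE : Env S pt R V) {p q : Sd I × Sd I} (hp : p ∈ S.CP pt R V)
    (hq : q ∈ S.CP pt R V) (hne : p ≠ q) : Disjoint (tor S pt p) (tor S pt q) := by
  rw [disjoint_left]
  intro t h1 h2
  rw [mem_tor hE hp] at h1
  rw [mem_tor hE hq] at h2
  rcases hE.lam hp hq hne with h | h | h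
  · exact disjoint_left.1 h h1.1 h2.1
  · exact h2.2 p hp h h1.1
  · exact h1.2 q hq h h2.1

theorem exists_tor (hE : Env S pt R V) {t : I} (h : ∃ p ∈ S.CP pt R V, t ∈ S.pA pt p.1 p.2) :
    ∃ p ∈ S.CP pt R V, t ∈ tor S pt p := by
  classical
  obtain ⟨p0, hp0, ht0⟩ := h
  obtain ⟨p, hp, hmin⟩ := ((S.CP pt R V).filter (fun p => t ∈ S.pA pt p.1 p.2)).exists_min_image
    (fun p => (S.pA pt p.1 p.2).card) ⟨p0, mem_filter.2 ⟨hp0, ht0⟩⟩
  rw [mem_filter] at hp
  refine ⟨p, hp.1, (mem_tor hE hp.1).2 ⟨hp.2, fun q hq hs ht => ?_⟩⟩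
  have := hmin q (mem_filter.2 ⟨hq, ht⟩)
  have := card_lt_card hs
  omega

/-- an eared triangle of the region lies in the set of a pair -/
theorem eared_in (hE : Env S pt R V) {c : Sd I} (hc : S.Eared c) (h : c.1 ∈ R) :
    ∃ p ∈ S.CP pt R V, c.1 ∈ tor S pt p := by
  classical
  apply exists_tor hE
  by_contra hcon
  push Not at hcon
  have h1 := hE.adm_R.torso hE
  have h2 : c ∈ S.earsT R (S.kids pt R V) (fun q => S.pA pt q.1 q.2) := by
    rw [earsT, mem_filter]
    exact ⟨mem_EarsK.2 ⟨hc, h⟩, fun q hq => hcon q (kids_sub hq)⟩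
  have h3 := card_pos.2 ⟨c, h2⟩
  omega

/-- at most one eared triangle in a torso -/
theorem eared_unique (hE : Env S pt R V) {p : Sd I × Sd I} (hp : p ∈ S.CP pt R V) {c c' : Sd I}
    (hc : S.Eared c) (h : c.1 ∈ tor S pt p) (hc' : S.Eared c') (h' : c'.1 ∈ tor S pt p) :
    c' = c := by
  classical
  have h1 := (hE.adm_pA hp).torso hE
  have key : ∀ d, S.Eared d → d.1 ∈ tor S pt p →
      d ∈ S.earsT (S.pA pt p.1 p.2) (S.kids pt (S.pA pt p.1 p.2) (S.Eqv p.1))
        (fun q => S.pA pt q.1 q.2) := by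
    intro d hd hdt
    rw [tor, mem_torC] at hdt
    rw [earsT, mem_filter]
    exact ⟨mem_EarsK.2 ⟨hd, hdt.1⟩, fun q hq => hdt.2 q (kids_sub hq)⟩
  have h2 : (S.earsT (S.pA pt p.1 p.2) (S.kids pt (S.pA pt p.1 p.2) (S.Eqv p.1))
      (fun q => S.pA pt q.1 q.2)).card ≤ 1 := by omega
  rw [card_le_one] at h2
  exact h2 c' (key c' hc' h') c (key c hc h)

end env

/-! ### the ear end of an ear cost -/

open Classical in
/-- ear end of the cost `x = (e, d)` : the end of `d` which is not the apex of `e` -/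
noncomputable def pe (S : Obj I) (X : Finset I) (x : I × Finset (Sd I)) : Sd I :=
  if h : ∃ c : Sd I, S.Eared c ∧ c.1 = x.1 then
    (if x.2 = dg S h.choose then (S.keep X).last (rot h.choose)
      else (S.keep X).last (unrot h.choose))
  else (x.1, 0)

theorem eared_uniq {c c' : Sd I} (h : S.Eared c) (h' : S.Eared c') (e : c.1 = c'.1) : c = c' :=
  corner_unique h.1 h.2.1 (eared_not_glued h') e

theorem dg_ne_unrot {c : Sd I} (h : S.Eared c) : dg S (unrot c) ≠ dg S c := by
  intro e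
  rcases dg_eq_iff.1 e with h1 | h1
  · exact unrot_ne c h1.symm
  · have h2 : (S.g (unrot c)).1 = c.1 := by rw [← h1]
    exact S.ne (unrot c) h.2.1 (by rw [h2]; rfl)

theorem pe_rot {c : Sd I} (h : S.Eared c) : pe S X (c.1, dg S c) = (S.keep X).last (rot c) := by
  classical
  have hex : ∃ c' : Sd I, S.Eared c' ∧ c'.1 = c.1 := ⟨c, h, rfl⟩
  have h1 := hex.choose_spec
  have h2 : hex.choose = c := eared_uniq h1.1 h h1.2
  unfold pe
  rw [dif_pos hex]
  simp only [h2, if_true]

theorem pe_unrot {c : Sd I} (h : S.Eared c) :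
    pe S X (c.1, dg S (unrot c)) = (S.keep X).last (unrot c) := by
  classical
  have hex : ∃ c' : Sd I, S.Eared c' ∧ c'.1 = c.1 := ⟨c, h, rfl⟩
  have h1 := hex.choose_spec
  have h2 : hex.choose = c := eared_uniq h1.1 h h1.2
  unfold pe
  rw [dif_pos hex]
  simp only [h2]
  rw [if_neg (dg_ne_unrot h)]

end Pool.Agent.Helper29.AG7
end

/- Helper41.AG7.D4 -/
section
/-!
# AG section 7: D2 for virtual blades and eared triangles, D4
-/

set_option autoImplicit false
set_option linter.unusedSectionVars false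
open Finset

namespace Pool.Agent.Helper41.AG7

open _root_.AG _root_.AG.Obj Pool.Agent.Helper29.AG7

variable {I : Type} [DecidableEq I] {S : Obj I} {pt : Sd I → Pt} {R : Finset I}
  {V : Sd I → Prop} {p q : Sd I × Sd I}

/-- D2 for virtual blades -/
theorem env_dv (hE : Env S pt R V) (hd : ∀ u, S.BladeAt pt u → V u → u.1 ∉ R) :
    ∀ w, S.Vir pt w → w.1 ∈ R → ∃ q ∈ S.CP pt R V, w.1 ∈ S.pA pt q.1 q.2 := by
  classical
  intro w hw hwR
  by_contra hcon
  push Not at hcon
  have h1 := hE.adm_R.torso hE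
  have h2 : w ∈ S.candT pt R V (S.kids pt R V) (fun q => S.pA pt q.1 q.2) := by
    rw [candT, mem_filter, mem_CandK]
    exact ⟨⟨hw, hwR, fun h => hd w hw.bladeAt h hwR⟩, fun q hq => hcon q (kids_sub hq)⟩
  have := card_pos.2 ⟨w, h2⟩
  omega

/-- D2 for eared triangles -/
theorem env_de (hE : Env S pt R V) :
    ∀ c, S.Eared c → c.1 ∈ R → ∃ q ∈ S.CP pt R V, c.1 ∈ S.pA pt q.1 q.2 := by
  intro c hc hcR
  obtain ⟨p, hp, h⟩ := eared_in hE hc hcR
  exact ⟨p, hp, tor_sub h⟩

/-- D4 -/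
theorem d4 (hE : Env S pt R V) : (S.CandK pt R V).card ≤ (X0 S pt R V).card := by
  classical
  have hB := hE.base
  -- the identity
  have h0 := hB.ident hE.shape
  -- two ear ends for each ear
  obtain ⟨t0, ht0⟩ := card_pos.1 (lt_of_lt_of_le Nat.zero_lt_two hB.two)
  have hF : S.Fam pt R V (∅ : Finset ℕ) (fun _ => ∅) (fun _ => (t0, 0)) :=
    ⟨fun i hi => absurd hi (notMem_empty i), fun i hi => absurd hi (notMem_empty i),
      fun i hi => absurd hi (notMem_empty i), fun i hi => absurd hi (notMem_empty i),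
      fun i hi => absurd hi (notMem_empty i), fun i hi => absurd hi (notMem_empty i),
      fun z hz hV => by obtain ⟨w, hw, he⟩ := hE.Vbl z hV; exact hz w hw he,
      fun i hi => absurd hi (notMem_empty i), fun i hi => absurd hi (notMem_empty i)⟩
  have h1 := hF.zr_le hB hE.shape.sub hE.shape.Vinv
  have h2 : S.earsT R (∅ : Finset ℕ) (fun _ => ∅) = S.EarsK R := by
    rw [earsT, filter_eq_self]
    exact fun c _ i hi => absurd hi (notMem_empty i)
  rw [h2, sum_empty] at h1
  -- each pair outside `X0` has an ear in its torso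
  have h3 : ((S.CP pt R V) \ (X0 S pt R V)).card ≤ (S.EarsK R).card := by
    have hch : ∀ p, ∃ c : Sd I, p ∈ (S.CP pt R V) \ (X0 S pt R V) → S.Eared c ∧ c.1 ∈ tor S pt p := by
      intro p
      by_cases hp : p ∈ (S.CP pt R V) \ (X0 S pt R V)
      · rw [mem_sdiff, mem_X0] at hp
        have : ∃ c : Sd I, S.Eared c ∧ c.1 ∈ tor S pt p := by
          by_contra hcon
          push Not at hcon
          exact hp.2 ⟨hp.1, hcon⟩
        obtain ⟨c, hc⟩ := this
        exact ⟨c, fun _ => hc⟩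
      · exact ⟨(t0, 0), fun h => absurd h hp⟩
    choose f hf using hch
    apply card_le_card_of_injOn f
    · intro p hp
      obtain ⟨h4, h5⟩ := hf p hp
      exact mem_EarsK.2 ⟨h4, hE.subA p (mem_sdiff.1 hp).1 (tor_sub h5)⟩
    · intro p hp q hq hpq
      by_contra hne
      have hp' := hf p hp
      have hq' := hf q hq
      have h6 := tor_disj hE (mem_sdiff.1 hp).1 (mem_sdiff.1 hq).1 hne
      rw [← hpq] at hq'
      exact (disjoint_left.1 h6) hp'.2 hq'.2
  have h4 : X0 S pt R V ⊆ S.CP pt R V := fun p hp => (mem_X0.1 hp).1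
  have h5 := card_sdiff_add_card_eq_card h4
  omega

end Pool.Agent.Helper41.AG7
end

/- Helper29.AG7.BillA2 -/
section
/-!
# AG section 7.3: the bills (a)
-/

set_option autoImplicit false
set_option linter.unusedSectionVars false
open Finset

namespace Pool.Agent.Helper29.AG7

open _root_.AG _root_.AG.Obj

variable {I : Type} [DecidableEq I] {S : Obj I} {pt : Sd I → Pt} {X : Finset I}

open Classical in
/-- the corners of `A_p` at the visit of the pair `p` -/
noncomputable def fanC (S : Obj I) (pt : Sd I → Pt) (p : Sd I × Sd I) : Finset (Sd I) :=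
  S.sides.filter (fun c => S.Eqv p.1 c ∧ c.1 ∈ S.pA pt p.1 p.2)

theorem mem_fanC {p : Sd I × Sd I} {c : Sd I} : c ∈ fanC S pt p ↔
    c.1 ∈ S.F ∧ S.Eqv p.1 c ∧ c.1 ∈ S.pA pt p.1 p.2 := by
  classical
  rw [fanC, mem_filter, mem_sides]

/-- the sector of `A_p` at the visit of `p` has angle at least `π` -/
def wide (S : Obj I) (pt : Sd I → Pt) (p : Sd I × Sd I) : Prop :=
  Real.pi ≤ ∑ c ∈ fanC S pt p, cang pt c

/-- the visit of the region of the sector of `A_p` -/
noncomputable def vp (S : Obj I) (pt : Sd I → Pt) (X : Finset I) (p : Sd I × Sd I) : Sd I :=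
  (S.keep X).last (S.cw (S.lo pt p.2))

/-- positions along a fan -/
theorem ps_iter (hl : S.Linear) {a : Sd I} : ∀ i, i ≤ S.ps a → S.ps (S.cw^[i] a) = S.ps a - i := by
  intro i
  induction i with
  | zero => intro _; rfl
  | succ i ih =>
    intro hi
    have h1 := ih (by omega)
    have h2 : S.g (S.cw^[i] a) ≠ S.cw^[i] a := (ps_pos_iff hl).1 (by omega)
    rw [Function.iterate_succ_apply']
    have h3 := ps_of_glued hl h2
    omega

theorem iter_eq (hl : S.Linear) {a b : Sd I} (h : S.Eqv a b) (hp : S.ps b ≤ S.ps a) :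
    S.cw^[S.ps a - S.ps b] a = b := by
  refine ps_inj hl ((cw_iter_eqv S _ a).symm.trans h) ?_
  rw [ps_iter hl _ (Nat.sub_le _ _)]
  omega

/-- a corner which is not an end of its fan and not the apex of a blade or of an eared triangle is in a face -/
theorem face_of (hB : Base S pt) (H : RHyp S pt X) {u : Sd I} (hu : u.1 ∈ X) (h1 : S.g u ≠ u)
    (h2 : S.g (unrot u) ≠ unrot u) (h3 : ¬ S.Blade u) (h4 : ¬ S.Eared u) : S.Face u.1 := by
  rcases H.three _ (H.sub hu) with h | ⟨c, hc, hb⟩ | ⟨c, hc, hb⟩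
  · exact h
  · exfalso
    have : u = c := corner_unique h1 h2 hb.2.2.1 hc.symm
    rw [← this] at hb
    exact h3 hb
  · exfalso
    have : u = c := corner_unique h1 h2 (eared_not_glued hb) hc.symm
    rw [← this] at hb
    exact h4 hb

section env

variable {V : Sd I → Prop} {p : Sd I × Sd I}

/-- number of corners of the sector -/
noncomputable def kp (S : Obj I) (pt : Sd I → Pt) (p : Sd I × Sd I) : ℕ :=
  S.ps (S.lo pt p.2) - S.ps (S.hi pt p.1)

theorem kp_pos (hB : Base S pt) (h : S.Pr pt p.1 p.2) : 1 ≤ kp S pt p := by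
  have := hB.int h
  unfold kp
  omega

theorem eqv_hl (h : S.Pr pt p.1 p.2) : S.Eqv (S.lo pt p.2) (S.hi pt p.1) :=
  (h.b'.eqv_lo.symm.trans h.eqv.symm).trans h.b.eqv_hi

theorem iter_kp (hB : Base S pt) (h : S.Pr pt p.1 p.2) :
    S.cw^[kp S pt p] (S.lo pt p.2) = S.hi pt p.1 :=
  iter_eq hB.lin (eqv_hl h) (hB.int h).le

theorem ps_it (hB : Base S pt) (h : S.Pr pt p.1 p.2) {i : ℕ} (hi : i ≤ kp S pt p) :
    S.ps (S.cw^[i] (S.lo pt p.2)) = S.ps (S.lo pt p.2) - i := by
  apply ps_iter hB.lin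
  unfold kp at hi
  omega

theorem it_mem (hB : Base S pt) (h : S.Pr pt p.1 p.2) {i : ℕ} (h1 : 1 ≤ i) (hi : i ≤ kp S pt p) :
    (S.cw^[i] (S.lo pt p.2)).1 ∈ S.pA pt p.1 p.2 := by
  have hA := hB.isIn_pA h
  rw [hA.mem_iff hB.lin hB.loopless ((eqv_hl h).symm.trans (cw_iter_eqv S i _)), ps_it hB h hi]
  have := hB.int h
  unfold kp at hi
  omega

theorem it_eqv (h : S.Pr pt p.1 p.2) (i : ℕ) : S.Eqv p.1 (S.cw^[i] (S.lo pt p.2)) :=
  (h.b.eqv_hi.trans (eqv_hl h).symm).trans (cw_iter_eqv S i _)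

theorem mem_fanC_iff (hB : Base S pt) (h : S.Pr pt p.1 p.2) {c : Sd I} : c ∈ fanC S pt p ↔
    ∃ i, i < kp S pt p ∧ c = S.cw^[i + 1] (S.lo pt p.2) := by
  have hA := hB.isIn_pA h
  rw [mem_fanC]
  constructor
  · rintro ⟨_, h2, h3⟩
    have he : S.Eqv (S.hi pt p.1) c := h.b.eqv_hi.symm.trans h2
    rw [hA.mem_iff hB.lin hB.loopless he] at h3
    have h4 := iter_eq hB.lin ((eqv_hl h).trans he) (by omega)
    refine ⟨S.ps (S.lo pt p.2) - S.ps c - 1, ?_, ?_⟩
    · unfold kp; omega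
    · rw [show S.ps (S.lo pt p.2) - S.ps c - 1 + 1 = S.ps (S.lo pt p.2) - S.ps c by omega, h4]
  · rintro ⟨i, hi, rfl⟩
    have h1 := it_mem hB h (i := i + 1) (by omega) (by omega)
    exact ⟨hA.sub h1, it_eqv h _, h1⟩

/-- the sector lies in the torso -/
theorem it_tor (hE : Env S pt X V) (hp : p ∈ S.CP pt X V) {i : ℕ} (h1 : 1 ≤ i)
    (hi : i ≤ kp S pt p) : (S.cw^[i] (S.lo pt p.2)).1 ∈ tor S pt p := by
  have hB := hE.base
  have cp := (mem_CP.1 hp).1
  rw [mem_tor hE hp]
  have hm := it_mem hB cp.toPr h1 hi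
  refine ⟨hm, fun q hq hs => ?_⟩
  have hq' := (mem_CP.1 ((hE.mem_CP_pA hp).2 ⟨hq, hs⟩))
  have cq := hq'.1
  have hne : ¬ S.Eqv (S.hi pt p.1) (S.hi pt q.1) := fun h =>
    hq'.2.2.2 ((cp.toPr.b.eqv_hi.trans h).trans cq.toPr.b.eqv_hi.symm)
  exact hB.fan (hB.isIn_pA cp.toPr) (hB.isIn_pA cq.toPr) hne hs.1
    (cp.toPr.b.eqv_hi.symm.trans (it_eqv cp.toPr i)) hm

/-- the fan of a pair whose torso has no eared triangle -/
theorem fanIn_of (hE : Env S pt X V) (H : RHyp S pt X) (hp : p ∈ X0 S pt X V) :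
    FanIn S X (S.pA pt p.1 p.2) (S.lo pt p.2) (kp S pt p) := by
  rw [mem_X0] at hp
  obtain ⟨hp, hne⟩ := hp
  have hB := hE.base
  have hl := hB.lin
  have cp := (mem_CP.1 hp).1
  have hA := hB.isIn_pA cp.toPr
  have hint := hB.int cp.toPr
  have hgl : ∀ i ≤ kp S pt p, S.g (S.cw^[i] (S.lo pt p.2)) ≠ S.cw^[i] (S.lo pt p.2) := by
    intro i hi
    rw [← ps_pos_iff hl, ps_it hB cp.toPr hi]
    have h1 : 0 < S.ps (S.hi pt p.1) := (ps_pos_iff hl).2 hA.gl
    unfold kp at hi
    omega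
  refine ⟨hE.subA p hp, ?_, ?_, kp_pos hB cp.toPr, hgl, fun i h1 h2 => it_mem hB cp.toPr h1 h2, ?_⟩
  · intro hm
    rw [hA.mem_iff hl hB.loopless hA.eqv] at hm
    omega
  · rw [iter_kp hB cp.toPr]
    exact hA.bd
  · intro i h1 h2
    have hm := it_mem hB cp.toPr h1 h2
    refine face_of hB H (hE.subA p hp hm) (hgl i h2) ?_ ?_ ?_
    · refine unrot_glued_of_lt hl (b := S.lo pt p.2) (cw_iter_eqv S i _).symm ?_
      rw [ps_it hB cp.toPr h2]
      have : 0 < S.ps (S.lo pt p.2) := (ps_pos_iff hl).2 hA.gl'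
      omega
    · intro hb
      rcases hB.blade_in_pA cp (Blade.bladeAt hb) (it_eqv cp.toPr i) hm with h | h
      · rw [← h.1] at h; exact hb.not_A h.2
      · rw [← h.1] at h; exact hb.not_B h.2
    · intro hc
      exact hne _ hc (it_tor hE hp h1 h2)

theorem sum_fanC (hB : Base S pt) (h : S.Pr pt p.1 p.2) :
    ∑ c ∈ fanC S pt p, cang pt c
      = ∑ i ∈ range (kp S pt p), cang pt (S.cw^[i + 1] (S.lo pt p.2)) := by
  classical
  have h1 : fanC S pt p = (range (kp S pt p)).image (fun i => S.cw^[i + 1] (S.lo pt p.2)) := by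
    ext c
    rw [mem_fanC_iff hB h, mem_image]
    constructor
    · rintro ⟨i, hi, rfl⟩
      exact ⟨i, mem_range.2 hi, rfl⟩
    · rintro ⟨i, hi, rfl⟩
      exact ⟨i, mem_range.1 hi, rfl⟩
  rw [h1, sum_image]
  intro i hi j hj hij
  have hi' := mem_range.1 (mem_coe.1 hi)
  have hj' := mem_range.1 (mem_coe.1 hj)
  have e1 := ps_it hB h (i := i + 1) (by omega)
  have e2 := ps_it hB h (i := j + 1) (by omega)
  simp only at hij
  rw [hij, e2] at e1
  have := hB.int h
  unfold kp at hi' hj'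
  omega

theorem vp_eq (hE : Env S pt X V) (hp : p ∈ S.CP pt X V) :
    vp S pt X p = vz S X (S.cw (S.lo pt p.2)) := by
  have hB := hE.base
  have cp := (mem_CP.1 hp).1
  have h1 : (S.cw (S.lo pt p.2)).1 ∈ S.pA pt p.1 p.2 :=
    it_mem hB cp.toPr (i := 1) le_rfl (kp_pos hB cp.toPr)
  rw [vz, if_pos (hE.subA p hp h1)]
  rfl

theorem vp_eqv (h : S.Pr pt p.1 p.2) : S.Eqv p.1 (vp S pt X p) :=
  ((h.eqv.trans h.b'.eqv_lo).trans (S.cw_eqv _)).trans
    ((last_eqv (S.keep X) _).mono (keep_le S X))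

/-- all corners of the sector are in one visit of the region -/
theorem fan_keep (hE : Env S pt X V) (hp : p ∈ S.CP pt X V) {i : ℕ} (h1 : 1 ≤ i)
    (hi : i ≤ kp S pt p) : (S.keep X).last (S.cw^[i] (S.lo pt p.2)) = vp S pt X p := by
  have hB := hE.base
  have hl := hB.lin
  have cp := (mem_CP.1 hp).1
  have hm : ∀ i, 1 ≤ i → i ≤ kp S pt p → (S.cw^[i] (S.lo pt p.2)).1 ∈ X := fun i h1 h2 =>
    hE.subA p hp (it_mem hB cp.toPr h1 h2)
  induction i with
  | zero => omega
  | succ i ih =>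
    rcases Nat.eq_zero_or_pos i with h2 | h2
    · subst h2; rfl
    · rw [← ih h2 (by omega), Function.iterate_succ_apply']
      have h3 := hm i h2 (by omega)
      have h4 := hm (i + 1) (by omega) hi
      rw [Function.iterate_succ_apply'] at h4
      have hg : S.g (S.cw^[i] (S.lo pt p.2)) ≠ S.cw^[i] (S.lo pt p.2) := by
        rw [← ps_pos_iff hl, ps_it hB cp.toPr (by omega)]
        have := hB.int cp.toPr
        unfold kp at hi
        omega
      rw [cw_fst hg] at h4
      have h5 : (S.keep X).g (S.cw^[i] (S.lo pt p.2)) = S.g (S.cw^[i] (S.lo pt p.2)) := by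
        rw [keep_g, if_pos ⟨h3, h4⟩]
      have h6 : (S.keep X).cw (S.cw^[i] (S.lo pt p.2)) = S.cw (S.cw^[i] (S.lo pt p.2)) := by
        rw [cw, cw, h5]
      rw [← h6, last_cw (keep_linear hl X)]

/-- a wide pair is not at an extreme point -/
theorem wide_ext (hG : S.Geo pt) (hE : Env S pt X V) {Ext : Finset Pt}
    (E : Helper41.AG7.ExtOf S pt X Ext) :
    ∀ p ∈ X0 S pt X V, wide S pt p → pt (vp S pt X p) ∉ Ext := by
  intro p hp hw hext
  rw [mem_X0] at hp
  have hB := hE.base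
  have hl := hB.lin
  have cp := (mem_CP.1 hp.1).1
  have hm1 := hE.subA p hp.1 (it_mem hB cp.toPr (i := 1) le_rfl (kp_pos hB cp.toPr))
  have hpt : pt (vp S pt X p) = pt (S.cw^[1] (S.lo pt p.2)) := by
    rw [← hG.pt_eqv (vp_eqv (X := X) cp.toPr), hG.pt_eqv (it_eqv cp.toPr 1)]
  have := E.small _ hm1 (by rw [← hpt]; exact hext) (fanC S pt p) (by
    intro d hd
    rw [mem_fanC_iff hB cp.toPr] at hd
    obtain ⟨i, hi, rfl⟩ := hd
    refine ⟨hE.subA p hp.1 (it_mem hB cp.toPr (by omega) (by omega)), ?_⟩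
    rw [eqv_iff (keep_linear hl X), fan_keep hE hp.1 le_rfl (kp_pos hB cp.toPr),
      fan_keep hE hp.1 (by omega) (by omega)])
  unfold wide at hw
  linarith

/-- at most one wide pair at a visit -/
theorem wide_inj (hG : S.Geo pt) (hE : Env S pt X V) : ∀ p ∈ X0 S pt X V, ∀ q ∈ X0 S pt X V,
    wide S pt p → wide S pt q → vp S pt X p = vp S pt X q → p = q := by
  classical
  intro p hp q hq hwp hwq he
  rw [mem_X0] at hp hq
  have hB := hE.base
  have cp := (mem_CP.1 hp.1).1
  have cq := (mem_CP.1 hq.1).1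
  by_contra hne
  have hv : S.Eqv p.1 q.1 := by
    refine (vp_eqv (X := X) cp.toPr).trans ?_
    rw [he]
    exact (vp_eqv (X := X) cq.toPr).symm
  have hne1 : p.1 ≠ q.1 := fun h => hne (Prod.ext h (hB.cons_unique cp cq h))
  have hd := hB.disj_same cp cq hv hne1
  have hdis : Disjoint (fanC S pt p) (fanC S pt q) := by
    rw [disjoint_left]
    intro c h1 h2
    rw [mem_fanC] at h1 h2
    exact disjoint_left.1 hd h1.2.2 h2.2.2
  have h1 := hG.sum_lt (X := fanC S pt p ∪ fanC S pt q) (p := pt p.1) (by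
    intro c hc
    rcases mem_union.1 hc with h | h
    · exact (mem_fanC.1 h).1
    · exact (mem_fanC.1 h).1) (by
    intro c hc
    rcases mem_union.1 hc with h | h
    · exact (hG.pt_eqv (mem_fanC.1 h).2.1).symm
    · rw [hG.pt_eqv hv]
      exact (hG.pt_eqv (mem_fanC.1 h).2.1).symm)
  rw [sum_union hdis] at h1
  unfold wide at hwp hwq
  linarith

/-- in the closed case with only trivial pairs there is nothing to pay -/
theorem X0_eq_empty (hE : Env S pt X V) (ht : ∀ u u', S.Pr pt u u' → S.Triv pt u u') :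
    X0 S pt X V = ∅ := by
  rw [eq_empty_iff_forall_notMem]
  intro p hp
  rw [mem_X0] at hp
  have cp := (mem_CP.1 hp.1).1
  obtain ⟨c, hc, hA⟩ := ht p.1 p.2 cp.toPr
  refine hp.2 c hc ((mem_tor hE hp.1).2 ⟨by rw [hA]; exact mem_singleton_self _, fun q hq hs => ?_⟩)
  have cq := (mem_CP.1 hq).1
  obtain ⟨t, ht⟩ := hE.base.pA_nonempty cq.toPr
  have h1 := card_lt_card hs
  rw [hA, card_singleton] at h1
  have h2 := card_pos.2 ⟨t, ht⟩
  omega

end env

/-! ### the bills (a) in the open case -/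

section opn

variable {V : Sd I → Prop} {b b' : Sd I} {Ext : Finset Pt} {R : Set Pt}

/-- BILLS (a) -/
theorem bill_a_open (hC : Cex S pt R) (O : Helper41.AG7.Op S pt X b b') (hE : Env S pt X V)
    (hV : ∀ z, S.Eqv b z → V z) (E : Helper41.AG7.ExtOf S pt X Ext)
    (hUb : ∀ d ∈ O.H.reg.Ubs, Helper41.AG7.aD S X b b' d ∉ O.H.reg.zeros →
      (O.H.reg.A (Helper41.AG7.aD S X b b' d)).card = 1 ∧
        O.H.reg.bl (Helper41.AG7.xD S b b' d) = some (Helper41.AG7.aD S X b b' d)) :
    ∀ p ∈ X0 S pt X V, (vp S pt X p ∈ O.H.reg.zeros ∧ wide S pt p) ∨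
      ∃ x ∈ O.H.reg.unused, x.1 ∈ tor S pt p ∧
        (∀ d ∈ Sts S X, x = (Helper41.AG7.sD S b b' d, d) →
          pt (Helper41.AG7.aD S X b b' d) ∉ Ext) ∧
        (∀ d ∈ O.H.reg.Ubs, Helper41.AG7.aD S X b b' d ∉ O.H.reg.zeros →
          x ≠ (Helper41.AG7.sD S b b' d, Helper41.AG7.xD S b b' d)) := by
  classical
  intro p hp
  have hB := hE.base
  have hl := hB.lin
  have hG := O.geo
  have hpC := (mem_X0.1 hp).1
  have cp := (mem_CP.1 hpC).1
  have hnV := (mem_CP.1 hpC).2.2.2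
  have F := fanIn_of hE O.H hp
  obtain ⟨hk2, hcase⟩ := fan_bill O.H hC F
  have hsubX := hE.subA p hpC
  have hStU : ∀ d ∈ O.H.reg.Ubs, d ∈ Sts S X := fun d hd => by
    rw [Helper41.AG7.Reg.Ubs, mem_filter] at hd
    exact hd.1
  have htri : ∀ x y : Sd I, x.1 ∈ X → y.1 = x.1 → S.Eqv x y → x = y := fun x y h1 h2 h3 =>
    hB.tri x y (O.H.sub h1) h2 h3
  rcases hcase with ⟨i, h1, h2, hbl, hun⟩ | ⟨hw, _, hcase⟩
  · -- an inner diagonal
    right
    obtain ⟨a, ha⟩ : ∃ a, a = S.cw^[i] (S.lo pt p.2) := ⟨_, rfl⟩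
    have hg : S.g a ≠ a := by rw [ha]; exact F.gl i h2.le
    have hsucc : (S.cw^[i + 1] (S.lo pt p.2)).1 = (S.g a).1 := by
      rw [Function.iterate_succ_apply', ← ha, cw_fst hg]
    have t1 : a.1 ∈ tor S pt p := by rw [ha]; exact it_tor hE hpC h1 h2.le
    have t2 : (S.g a).1 ∈ tor S pt p := by rw [← hsucc]; exact it_tor hE hpC (by omega) (by omega)
    have f1 : S.Face a.1 := by rw [ha]; exact F.face i h1 h2.le
    have f2 : S.Face (S.g a).1 := by rw [← hsucc]; exact F.face (i + 1) (by omega) (by omega)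
    have m1 : a.1 ∈ X := hsubX (tor_sub t1)
    have m2 : (S.g a).1 ∈ X := hsubX (tor_sub t2)
    rw [hsucc, ← ha] at hun
    have i1 : dg S a ∈ inc S a.1 := dg_mem_inc hg
    have i2 : dg S a ∈ inc S (S.g a).1 := (dg_mem_inc_iff hg).2 (Or.inr rfl)
    have hnst : dg S a ∉ Sts S X := by
      intro h
      obtain ⟨e, e1, e2, e3, e4⟩ := mem_Sts.1 h
      rcases dg_eq_iff.1 e4 with h5 | h5
      · rw [h5] at e2; exact e2 m2
      · rw [h5, S.invol] at e2; exact e2 m1
    -- one slot is unused, if it is reserved for (Ub) then take the other one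
    have key : ∀ t t' : I, t ≠ t' → t ∈ tor S pt p → t' ∈ tor S pt p → S.Face t' →
        dg S a ∈ inc S t' → (t, dg S a) ∈ O.H.reg.unused →
        ∃ x ∈ O.H.reg.unused, x.1 ∈ tor S pt p ∧
        (∀ d ∈ Sts S X, x = (Helper41.AG7.sD S b b' d, d) →
          pt (Helper41.AG7.aD S X b b' d) ∉ Ext) ∧
        (∀ d ∈ O.H.reg.Ubs, Helper41.AG7.aD S X b b' d ∉ O.H.reg.zeros →
          x ≠ (Helper41.AG7.sD S b b' d, Helper41.AG7.xD S b b' d)) := by
      intro t t' htt ht ht' hf' hi' hu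
      by_cases hres : ∃ d ∈ O.H.reg.Ubs, Helper41.AG7.aD S X b b' d ∉ O.H.reg.zeros ∧
          (t, dg S a) = (Helper41.AG7.sD S b b' d, Helper41.AG7.xD S b b' d)
      · obtain ⟨d, hd, hz, hx⟩ := hres
        obtain ⟨hx1, hx2⟩ := Prod.mk.inj hx
        obtain ⟨c1, c2⟩ := hUb d hd hz
        refine ⟨(t', dg S a), ?_, ht', ?_, ?_⟩
        · exact O.H.reg.unused_of_card_one (mem_faces.2 ⟨hsubX (tor_sub ht'), hf'⟩) hi'
            (by rw [hx2]; exact c2) c1
        · intro e he hxe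
          exact absurd he (by rw [← (Prod.mk.inj hxe).2]; exact hnst)
        · intro e he hze hxe
          obtain ⟨y1, y2⟩ := Prod.mk.inj hxe
          obtain ⟨c3, c4⟩ := hUb e he hze
          have h5 : Helper41.AG7.aD S X b b' d = Helper41.AG7.aD S X b b' e := by
            rw [← hx2] at c2
            rw [← y2, c2] at c4
            exact Option.some.inj c4
          have h6 := O.aD_inj d (hStU d hd) e (hStU e he) h5
          rw [← h6] at y1
          exact htt (hx1.trans y1.symm)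
      · refine ⟨(t, dg S a), hu, ht, ?_, ?_⟩
        · intro e he hxe
          exact absurd he (by rw [← (Prod.mk.inj hxe).2]; exact hnst)
        · intro d hd hz hx
          exact hres ⟨d, hd, hz, hx⟩
    rcases hun with h | h
    · exact key a.1 (S.g a).1 (S.ne a hg).symm t1 t2 f2 i2 h
    · exact key (S.g a).1 a.1 (S.ne a hg) t2 t1 f1 i1 h
  · have hwide : wide S pt p := by
      unfold wide
      rw [sum_fanC hB cp.toPr]
      exact hw
    have hvp := vp_eq hE hpC
    rw [← hvp] at hcase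
    have hext := wide_ext hG hE E p hp hwide
    obtain ⟨c, hc⟩ : ∃ c, c = S.lo pt p.2 := ⟨_, rfl⟩
    have hcpt : pt c = pt (vp S pt X p) := by
      rw [← hG.pt_eqv (vp_eqv (X := X) cp.toPr), hG.pt_eqv (it_eqv cp.toPr 0)]
      rw [hc]; rfl
    have hgc : S.g c ≠ c := by rw [hc]; exact F.gl 0 (by omega)
    have hpc : S.Eqv p.1 c := by rw [hc]; exact it_eqv cp.toPr 0
    have hcwX : (S.g c).1 ∈ X := by
      have := hsubX (it_mem hB cp.toPr (i := 1) le_rfl F.pos)
      rw [Function.iterate_one, ← hc, cw_fst hgc] at this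
      exact this
    rcases hcase with h | ⟨hA, hu⟩ | ⟨hA, hu⟩
    · exact Or.inl ⟨h, hwide⟩
    · right
      rw [← hc] at hA hu
      refine ⟨_, hu, ?_, ?_, ?_⟩
      · have := it_tor hE hpC (i := 1) le_rfl F.pos
        rw [Function.iterate_one, ← hc] at this
        exact this
      · intro d hd hx
        obtain ⟨_, hx2⟩ := Prod.mk.inj hx
        rcases O.mem_St.1 hd with rfl | rfl
        · rcases dg_eq_iff.1 hx2 with h5 | h5
          · exact absurd (hV p.1 (by rw [h5]; exact hpc.symm)) hnV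
          · rw [O.aD_b, Helper41.AG7.pt_last hG, h5, hG.mat c hgc, hcpt]
            exact hext
        · rcases dg_eq_iff.1 hx2 with h5 | h5
          · exfalso
            have := O.bX'.2.1
            rw [h5] at this
            exact this hcwX
          · exfalso
            refine hnV (hV p.1 (O.eqv.trans ?_))
            rw [h5]
            exact (hpc.trans (Eqv.of_glued hgc)).symm
      · intro d hd hz hx
        obtain ⟨hx1, hx2⟩ := Prod.mk.inj hx
        obtain ⟨c1, c2⟩ := hUb d hd hz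
        rw [cw_fst hgc] at hx1
        have hb : bl S X (S.Blk pt) (dg S c) = some (vp S pt X p) := by
          have : dg S c ∈ Aw S X (S.Blk pt) (vp S pt X p) := by rw [hA]; exact mem_singleton_self _
          exact (mem_filter.1 this).2
        have hw2 : Helper41.AG7.aD S X b b' d = vp S pt X p := by
          rw [← hx2] at c2
          have c3 : bl S X (S.Blk pt) (dg S c) = some (Helper41.AG7.aD S X b b' d) := c2
          rw [hb] at c3
          exact (Option.some.inj c3).symm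
        have hve : S.Eqv c (vp S pt X p) := hpc.symm.trans (vp_eqv cp.toPr)
        rcases O.mem_St.1 (hStU d hd) with rfl | rfl
        · rw [O.sD_b] at hx1
          rw [O.xD_b] at hx2
          rcases dg_eq_iff.1 hx2 with h5 | h5
          · refine S.ne c hgc ?_
            rw [hx1, ← h5, rot_fst]
          · have h6 : S.Eqv (rot b) (unrot b) := by
              rw [O.aD_b] at hw2
              have h7 : S.Eqv (rot b) ((S.keep X).last (rot b)) :=
                (last_eqv (S.keep X) _).mono (keep_le S X)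
              rw [hw2] at h7
              refine (h7.trans hve.symm).trans ?_
              have h8 := Eqv.of_glued hgc
              rw [← h5, rot_rot] at h8
              exact h8
            have h7 := htri (rot b) (unrot b) O.bX.1 rfl h6
            exact unrot_ne_rot b h7.symm
        · rw [O.sD_b'] at hx1
          rw [O.xD_b'] at hx2
          rcases dg_eq_iff.1 hx2 with h5 | h5
          · refine S.ne c hgc ?_
            rw [hx1, ← h5, unrot_fst]
          · have h6 : S.cw c = b' := by rw [cw_of_glued hgc, ← h5, rot_unrot]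
            have h7 := hsubX (it_mem hB cp.toPr (i := 2) (by omega) hk2)
            have h8 : S.cw^[2] (S.lo pt p.2) = S.cw b' := by
              rw [← hc, Function.iterate_succ_apply', Function.iterate_one, h6]
            rw [h8, cw_fst O.bX'.2.2] at h7
            exact O.bX'.2.1 h7
    · right
      obtain ⟨c0, hc0⟩ : ∃ c0, c0 = S.cw^[kp S pt p] (S.lo pt p.2) := ⟨_, rfl⟩
      rw [← hc0] at hA hu
      have hg0 : S.g c0 ≠ c0 := by rw [hc0]; exact F.gl _ le_rfl
      have hpc0 : S.Eqv p.1 c0 := by rw [hc0]; exact it_eqv cp.toPr _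
      have hX0 : c0.1 ∈ X := by rw [hc0]; exact hsubX (it_mem hB cp.toPr F.pos le_rfl)
      have hpt0 : pt c0 = pt (vp S pt X p) := by
        rw [← hG.pt_eqv (vp_eqv (X := X) cp.toPr), hG.pt_eqv hpc0]
      refine ⟨_, hu, ?_, ?_, ?_⟩
      · have := it_tor hE hpC F.pos le_rfl
        rw [← hc0] at this
        exact this
      · intro d hd hx
        obtain ⟨_, hx2⟩ := Prod.mk.inj hx
        rcases O.mem_St.1 hd with rfl | rfl
        · rcases dg_eq_iff.1 hx2 with h5 | h5
          · exact absurd (hV p.1 (by rw [h5]; exact hpc0.symm)) hnV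
          · exfalso
            have := O.bX.2.1
            rw [h5, S.invol] at this
            exact this hX0
        · rcases dg_eq_iff.1 hx2 with h5 | h5
          · rw [O.aD_b', Helper41.AG7.pt_last hG, h5, hpt0]
            exact hext
          · exfalso
            have := O.bX'.2.1
            rw [h5, S.invol] at this
            exact this hX0
      · intro d hd hz hx
        obtain ⟨hx1, hx2⟩ := Prod.mk.inj hx
        obtain ⟨c1, c2⟩ := hUb d hd hz
        have hb : bl S X (S.Blk pt) (dg S c0) = some (vp S pt X p) := by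
          have : dg S c0 ∈ Aw S X (S.Blk pt) (vp S pt X p) := by rw [hA]; exact mem_singleton_self _
          exact (mem_filter.1 this).2
        have hw2 : Helper41.AG7.aD S X b b' d = vp S pt X p := by
          rw [← hx2] at c2
          have c3 : bl S X (S.Blk pt) (dg S c0) = some (Helper41.AG7.aD S X b b' d) := c2
          rw [hb] at c3
          exact (Option.some.inj c3).symm
        have hve : S.Eqv c0 (vp S pt X p) := hpc0.symm.trans (vp_eqv cp.toPr)
        rcases O.mem_St.1 (hStU d hd) with rfl | rfl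
        · rw [O.sD_b] at hx1
          rw [O.xD_b] at hx2
          rcases dg_eq_iff.1 hx2 with h5 | h5
          · have h6 := hsubX (it_mem hB cp.toPr (i := kp S pt p - 1) (by omega) (by omega))
            have h7 : S.cw (S.cw^[kp S pt p - 1] (S.lo pt p.2)) = c0 := by
              rw [← Function.iterate_succ_apply' S.cw, hc0]
              congr 2
              omega
            have h8 := F.gl (kp S pt p - 1) (by omega)
            rw [cw_of_glued h8, ← h5] at h7
            have h9 : S.cw^[kp S pt p - 1] (S.lo pt p.2) = S.g b := by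
              rw [← rot_injective h7, S.invol]
            rw [h9] at h6
            exact O.bX.2.1 h6
          · refine S.ne c0 hg0 ?_
            rw [← h5, rot_fst, hx1]
        · rw [O.sD_b'] at hx1
          rw [O.xD_b'] at hx2
          rcases dg_eq_iff.1 hx2 with h5 | h5
          · have h6 : S.Eqv (unrot b') b' := by
              rw [O.aD_b'] at hw2
              have h7 : S.Eqv b' ((S.keep X).last b') :=
                (last_eqv (S.keep X) _).mono (keep_le S X)
              rw [hw2] at h7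
              rw [h5]
              exact hve.trans h7.symm
            have h7 := htri (unrot b') b' O.bX'.1 rfl h6
            exact unrot_ne b' h7
          · refine S.ne c0 hg0 ?_
            rw [← h5, unrot_fst, hx1]

end opn

end Pool.Agent.Helper29.AG7
end
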