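import Pool.Agent.Helper16.VGG.G05
import Pool.Agent.Helper16.VGG.G09
import Pool.Agent.Helper16.VGG.G10
import Pool.Agent.Helper16.VGG.G13
import Pool.Agent.Helper16.VGG.G14
import Pool.Agent.Helper16.VGG.G15
import Pool.Agent.Helper16.VGG.G17

/- AG.S8.FlipFan -/
section
/-!
# Project AG, section 8: the fan of `w` and the flip   (helper86)

`a` is the flipped side (a `U` diagonal), `b = S.g a`, `W = unrot b` is the corner of the triangle
`b.1` opposite to the flipped side.  In `S` the fan of `w` is `..., κ, W, cw W, ...`, in the flipped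
object it is `..., κ, rot a, W, cw W, ...`.
-/

set_option linter.unusedSectionVars false

namespace AG

open Finset

variable {I : Type} [DecidableEq I]

namespace Obj

/-- the situation of section 8 without regions -/
structure C8 (S : Obj I) (pt : Sd I → Pt) (a : Sd I) : Prop where
  geo : S.Geo pt
  u : S.IsU pt a
  base : S.Base pt
  fa : S.Face a.1
  fb : S.Face (S.g a).1

namespace C8

variable {S : Obj I} {pt : Sd I → Pt} {a : Sd I} (C : S.C8 pt a)
include C

theorem ne : (S.g a).1 ≠ a.1 := S.ne a C.u.glued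

theorem off_of_eqv {c : Sd I} (h : S.Eqv (unrot (S.g a)) c) (hne : c ≠ unrot (S.g a)) :
    S.Off a c := by
  refine ⟨fun e => ?_, fun e => ?_⟩
  · exact C.geo.third_not_corner C.u.glued e (C.geo.pt_eqv h).symm
  · exact hne (C.base.tri c (unrot (S.g a)) (by rw [e]; exact g_memF C.u.glued) (by rw [e]; rfl)
      h.symm)

theorem gW : S.g (unrot (S.g a)) ≠ unrot (S.g a) := Face.g (c := unrot (S.g a)) C.fb

theorem off_gW : S.Off a (S.g (unrot (S.g a))) := by
  refine ⟨?_, ?_⟩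
  · have := C.geo.sh (a := unrot (S.g a)) (b := S.g a) rfl (unrot_ne _) C.gW
      (g_ne_iff.2 C.u.glued)
    rwa [S.invol] at this
  · exact S.ne _ C.gW

/-- `κ = g (rot b)` -/
theorem off_k : S.Off a (S.g (rot (S.g a))) := by
  have hg : S.g (rot (S.g a)) ≠ rot (S.g a) := Face.g (c := rot (S.g a)) C.fb
  refine ⟨?_, ?_⟩
  · have := C.geo.sh (a := rot (S.g a)) (b := S.g a) rfl (rot_ne _) hg
      (g_ne_iff.2 C.u.glued)
    rwa [S.invol] at this
  · exact S.ne _ hg

/-- `τ = g (rot a)` -/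
theorem off_t : S.Off a (S.g (rot a)) := by
  have hg : S.g (rot a) ≠ rot a := Face.g (c := rot a) C.fa
  refine ⟨S.ne _ hg, ?_⟩
  exact C.geo.sh (a := rot a) (b := a) rfl (rot_ne _) hg C.u.glued

/-- `g (unrot a)` -/
theorem off_y : S.Off a (S.g (unrot a)) := by
  have hg : S.g (unrot a) ≠ unrot a := Face.g (c := unrot a) C.fa
  refine ⟨S.ne _ hg, ?_⟩
  exact C.geo.sh (a := unrot a) (b := a) rfl (unrot_ne _) hg C.u.glued

variable (h : S.Flippable a)

theorem flip_W : (S.flip a h).g (unrot (S.g a)) = S.g (unrot (S.g a)) := by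
  have k : sigB a (S.g a) (unrot (S.g a)) = unrot (S.g a) :=
    sigB_other (ne_of_fst C.ne) (ne_of_fst C.ne) (unrot_ne _) (unrot_ne_rot _)
  rw [flip_g, k]
  exact sigF_of_fst C.off_gW.1 C.off_gW.2

theorem flip_k : (S.flip a h).g (S.g (rot (S.g a))) = a := by
  rw [flip_g_of_fst h C.off_k.1 C.off_k.2, S.invol, sigF_rb C.ne]

theorem flip_a : (S.flip a h).g a = S.g (rot (S.g a)) := by
  rw [flip_g, sigB_a]
  exact sigF_of_fst C.off_k.1 C.off_k.2

theorem flip_t : (S.flip a h).g (S.g (rot a)) = S.g a := by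
  rw [flip_g_of_fst h C.off_t.1 C.off_t.2, S.invol, sigF_ra]

theorem flip_b : (S.flip a h).g (S.g a) = S.g (rot a) := by
  rw [flip_g, sigB_b C.ne]
  exact sigF_of_fst C.off_t.1 C.off_t.2

theorem flip_y : (S.flip a h).g (unrot a) = S.g (unrot a) := by
  have k : sigB a (S.g a) (unrot a) = unrot a :=
    sigB_other (unrot_ne _) (unrot_ne_rot _) (ne_of_fst C.ne.symm) (ne_of_fst C.ne.symm)
  rw [flip_g, k]
  exact sigF_of_fst C.off_y.1 C.off_y.2

/-- positions below `W` are unchanged -/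
theorem ps_le (hl' : (S.flip a h).Linear) {u : Sd I} (he : S.Eqv (unrot (S.g a)) u)
    (hp : S.ps u ≤ S.ps (unrot (S.g a))) :
    (S.flip a h).Eqv (unrot (S.g a)) u ∧ (S.flip a h).ps u = S.ps u := by
  have hl := C.base.lin
  -- first the statement for chains which start at `u` and go down
  have key : ∀ n : ℕ, ∀ u : Sd I, S.Eqv (unrot (S.g a)) u → S.ps u = n →
      n ≤ S.ps (unrot (S.g a)) → (S.flip a h).ps u = n ∧
        (S.flip a h).cw^[n] u = S.cw^[n] u := by
    intro n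
    induction n with
    | zero =>
      intro u hu h0 _
      have hg : S.g u = u := (ps_eq_zero_iff hl).1 h0
      have hne : u ≠ unrot (S.g a) := fun e => C.gW (by rw [← e]; exact hg)
      have ho := C.off_of_eqv hu hne
      exact ⟨ps_of_unglued ((flip_glued_iff h ho.1 ho.2).2 hg), rfl⟩
    | succ n ih =>
      intro u hu h0 hle
      have hg : S.g u ≠ u := (ps_pos_iff hl).1 (by omega)
      have h1 := ps_of_glued hl hg
      have hcw : S.Eqv (unrot (S.g a)) (S.cw u) := hu.trans (S.cw_eqv u)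
      have hcne : S.cw u ≠ unrot (S.g a) := by
        intro e
        rw [e] at h1
        omega
      have hco := C.off_of_eqv hcw hcne
      have hgo : S.Off a (S.g u) := hco.of_fst (cw_fst hg).symm
      have hg' : (S.flip a h).g u = S.g u := by
        by_cases e : u = unrot (S.g a)
        · rw [e]; exact C.flip_W h
        · exact off_flip_g h (C.off_of_eqv hu e) hgo
      have hg2 : (S.flip a h).g u ≠ u := by rw [hg']; exact hg
      have hcw' : (S.flip a h).cw u = S.cw u := by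
        rw [cw_of_glued hg2, cw_of_glued hg, hg']
      obtain ⟨i1, i2⟩ := ih (S.cw u) hcw (by omega) (by omega)
      refine ⟨?_, ?_⟩
      · rw [ps_of_glued hl' hg2, hcw', i1]
      · rw [Function.iterate_succ_apply, Function.iterate_succ_apply, hcw', i2]
  obtain ⟨h1, h2⟩ := key _ u he rfl hp
  obtain ⟨h3, h4⟩ := key _ (unrot (S.g a)) (Eqv.refl _ _) rfl le_rfl
  refine ⟨?_, h1⟩
  have e1 : S.cw^[S.ps u] u = S.cw^[S.ps (unrot (S.g a))] (unrot (S.g a)) := by
    have k : ∀ v : Sd I, S.g (S.cw^[S.ps v] v) = S.cw^[S.ps v] v := by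
      intro v
      classical
      have h0 : ∃ n, S.g (S.cw^[n] v) = S.cw^[n] v := hl v
      rw [ps, dif_pos h0]
      exact Nat.find_spec h0
    have k1 := last_eq_of (k u)
    have k2 := last_eq_of (k (unrot (S.g a)))
    rw [← k1, ← k2]
    exact (eqv_iff hl).1 he.symm
  have e2 := (S.flip a h).cw_iter_eqv (S.ps u) u
  have e3 := (S.flip a h).cw_iter_eqv (S.ps (unrot (S.g a))) (unrot (S.g a))
  rw [h2, e1] at e2
  rw [h4] at e3
  exact e3.trans e2.symm

theorem ps_W (hl' : (S.flip a h).Linear) :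
    (S.flip a h).ps (unrot (S.g a)) = S.ps (unrot (S.g a)) :=
  (C.ps_le h hl' (Eqv.refl _ _) le_rfl).2

/-- the new corner at `w` -/
theorem ps_new (hl' : (S.flip a h).Linear) :
    (S.flip a h).Eqv (unrot (S.g a)) (rot a) ∧
      (S.flip a h).ps (rot a) = S.ps (unrot (S.g a)) + 1 := by
  have h1 : (S.flip a h).g (rot a) ≠ rot a := by
    rw [flip_g_rot]; exact ne_of_fst C.ne
  have h2 : (S.flip a h).cw (rot a) = unrot (S.g a) := by
    rw [cw_of_glued h1, flip_g_rot, rot_rot]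
  refine ⟨?_, ?_⟩
  · have := (S.flip a h).cw_eqv (rot a)
    rw [h2] at this
    exact this.symm
  · rw [ps_of_glued hl' h1, h2, C.ps_W h hl']

/-- positions above `W` are shifted by one -/
theorem ps_gt (hl' : (S.flip a h).Linear) {u : Sd I} (he : S.Eqv (unrot (S.g a)) u)
    (hp : S.ps (unrot (S.g a)) < S.ps u) :
    (S.flip a h).Eqv (unrot (S.g a)) u ∧ (S.flip a h).ps u = S.ps u + 1 := by
  have hl := C.base.lin
  have key : ∀ n : ℕ, ∀ u : Sd I, S.Eqv (unrot (S.g a)) u →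
      S.ps u = S.ps (unrot (S.g a)) + 1 + n →
      (S.flip a h).Eqv (unrot (S.g a)) u ∧ (S.flip a h).ps u = S.ps u + 1 := by
    intro n
    induction n with
    | zero =>
      intro u hu h0
      have hne : u ≠ unrot (S.g a) := by intro e; rw [e] at h0; omega
      obtain ⟨h1, h2, h3, h4⟩ := ccw_of_ps hl hu h0
      have h5 : u = S.g (rot (S.g a)) := by
        rw [← h4, ccw_of_glued h3, unrot_unrot]
      have h6 : (S.flip a h).g u = a := by rw [h5]; exact C.flip_k h
      have h7 : (S.flip a h).g u ≠ u := by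
        rw [h6]; intro e
        exact (C.off_of_eqv hu hne).1 (by rw [← e])
      have h8 : (S.flip a h).cw u = rot a := by rw [cw_of_glued h7, h6]
      obtain ⟨k1, k2⟩ := C.ps_new h hl'
      have h9 := (S.flip a h).cw_eqv u
      rw [h8] at h9
      refine ⟨k1.trans h9.symm, ?_⟩
      rw [ps_of_glued hl' h7, h8, k2]; omega
    | succ n ih =>
      intro u hu h0
      have hg : S.g u ≠ u := (ps_pos_iff hl).1 (by omega)
      have h1 := ps_of_glued hl hg
      have hcw : S.Eqv (unrot (S.g a)) (S.cw u) := hu.trans (S.cw_eqv u)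
      have hne : u ≠ unrot (S.g a) := by intro e; rw [e] at h0; omega
      have hcne : S.cw u ≠ unrot (S.g a) := by
        intro e
        rw [e] at h1
        omega
      have hco := C.off_of_eqv hcw hcne
      have hgo : S.Off a (S.g u) := hco.of_fst (cw_fst hg).symm
      have hg' : (S.flip a h).g u = S.g u := off_flip_g h (C.off_of_eqv hu hne) hgo
      have hg2 : (S.flip a h).g u ≠ u := by rw [hg']; exact hg
      have hcw' : (S.flip a h).cw u = S.cw u := by
        rw [cw_of_glued hg2, cw_of_glued hg, hg']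
      obtain ⟨i1, i2⟩ := ih (S.cw u) hcw (by omega)
      have h9 := (S.flip a h).cw_eqv u
      rw [hcw'] at h9
      refine ⟨i1.trans h9.symm, ?_⟩
      rw [ps_of_glued hl' hg2, hcw', i2]; omega
  exact key (S.ps u - (S.ps (unrot (S.g a)) + 1)) u he (by omega)

/-- all corners at `w` are equivalent in the flip -/
theorem eqv_flip (hl' : (S.flip a h).Linear) {u : Sd I} (he : S.Eqv (unrot (S.g a)) u) :
    (S.flip a h).Eqv (unrot (S.g a)) u := by
  rcases Nat.lt_or_ge (S.ps (unrot (S.g a))) (S.ps u) with h1 | h1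
  · exact (C.ps_gt h hl' he h1).1
  · exact (C.ps_le h hl' he h1).1

/-- ear ends at `w` -/
theorem earEnd_flip (hl' : (S.flip a h).Linear) (he : S.EarEnd (unrot (S.g a))) :
    (S.flip a h).EarEnd (unrot (S.g a)) := by
  obtain ⟨e, he, h1⟩ := he
  have hg := S.earFree e he
  have ho : S.Off a e := by
    refine ⟨fun e1 => ?_, fun e1 => ?_⟩
    · exact (Face.g (c := e) (by rw [e1]; exact C.fa)) hg
    · exact (Face.g (c := e) (by rw [e1]; exact C.fb)) hg
  refine ⟨e, (flip_E_of_fst h ho.1 ho.2).2 he, ?_⟩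
  rcases h1 with h1 | h1
  · exact Or.inl (C.eqv_flip h hl' h1.symm).symm
  · exact Or.inr (C.eqv_flip h hl' h1.symm).symm

end C8

/-- (Q) the boundary of a set which avoids the two flipped triangles is unchanged -/
theorem flip_bd {S : Obj I} {a : Sd I} (h : S.Flippable a) {Z : Finset I} (h1 : a.1 ∉ Z)
    (h2 : (S.g a).1 ∉ Z) : (S.flip a h).bd Z = S.bd Z := by
  ext e
  rw [mem_bd, mem_bd]
  by_cases he : e.1 ∈ Z
  · have ho1 : e.1 ≠ a.1 := fun e1 => h1 (by rw [← e1]; exact he)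
    have ho2 : e.1 ≠ (S.g a).1 := fun e1 => h2 (by rw [← e1]; exact he)
    have k : ((S.flip a h).g e).1 ∈ Z ↔ (S.g e).1 ∈ Z := by
      rw [flip_g_of_fst h ho1 ho2]
      by_cases h3 : (S.g e).1 = a.1 ∨ (S.g e).1 = (S.g a).1
      · constructor
        · intro h4
          rcases sigF_fst_mem h3 with h5 | h5
          · rw [h5] at h4; exact absurd h4 h1
          · rw [h5] at h4; exact absurd h4 h2
        · intro h4
          rcases h3 with h5 | h5
          · rw [h5] at h4; exact absurd h4 h1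
          · rw [h5] at h4; exact absurd h4 h2
      · rw [not_or] at h3
        rw [sigF_of_fst h3.1 h3.2]
    rw [k, ne_eq, flip_glued_iff h ho1 ho2]
  · simp [he]

end Obj

end AG
end

/- AG.S8.S81 -/
section
/-!
# Project AG, section 8: 8.1 the virtual blade at `w` in the flip, 8.3 persistence   (helper86)
-/

set_option linter.unusedSectionVars false

namespace AG

open Finset

variable {I : Type} [DecidableEq I]

namespace Obj

/-- two sides of a face are not the two edges of a cut (all directions) -/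
theorem Bridgeless.face_cut' {S : Obj I} (hb : S.Bridgeless) {X : Finset I} (hX : X ⊆ S.F)
    {c d e f : Sd I} (hf : S.Face c.1) (hcd : d.1 = c.1) (hne : c ≠ d) (he : e = c ∨ e = S.g c)
    (hf' : f = d ∨ f = S.g d) (hbd : S.bd X = {e, f}) : False := by
  have m1 : e ∈ S.bd X := by rw [hbd]; simp
  have m2 : f ∈ S.bd X := by rw [hbd]; simp
  rw [mem_bd] at m1 m2
  rcases he with rfl | rfl <;> rcases hf' with rfl | rfl
  · exact (hb.face_cut hX hf hcd hne).1 hbd
  · rw [S.invol] at m2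
    exact m2.2.2 (by rw [hcd]; exact m1.2.1)
  · rw [S.invol] at m1
    exact m1.2.2 (by rw [← hcd]; exact m2.2.1)
  · exact (hb.face_cut hX hf hcd hne).2 hbd

namespace C8

variable {S : Obj I} {pt : Sd I → Pt} {a : Sd I} (C : S.C8 pt a)
include C

theorem off_of_not_face {c : Sd I} (hn : ¬ S.Face c.1) : S.Off a c :=
  ⟨fun e => hn (by rw [e]; exact C.fa), fun e => hn (by rw [e]; exact C.fb)⟩

variable (h : S.Flippable a)

/-- 8.1 -/
theorem virtA_flip (hv : S.VirtA pt a)
    (hy : cang pt (rot (S.g (rot a))) + cang pt (rot a) + cang pt (S.g a) < Real.pi) :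
    (S.flip a h).VirtA (flipPt pt a (S.g a)) (unrot (S.g a)) := by
  obtain ⟨hb, ha, hr⟩ := hv
  have hg' : (S.flip a h).Geo (flipPt pt a (S.g a)) := AG.Geo.geo_flip C.geo C.u h
  have e1 : (S.flip a h).g (rot (unrot (S.g a))) = S.g (rot a) := by
    rw [rot_unrot]; exact C.flip_b h
  have e2 : (S.flip a h).g (S.g (rot a)) = S.g a := C.flip_t h
  have off := C.off_t
  have gl : (S.flip a h).g (S.g (rot a)) ≠ S.g (rot a) := by
    rw [e2]; exact fun e => off.2 (by rw [← e])
  unfold VirtA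
  rw [e1]
  refine ⟨(flip_blade h off.1 off.2).2 hb, ⟨gl, ?_⟩, ?_⟩
  · rw [e2]; exact (flip_face_self h C.fa C.fb).2
  · rcases AG.Geo.isU_or_blk (pt := flipPt pt a (S.g a)) gl with h1 | h1 | h1
    · exact Or.inl h1
    · right
      have h2 := h1.2
      rw [e2, flip_cang pt off] at h2
      have h3 := AG.Geo.cang_flip_w1 C.geo C.u
      have h4 : 0 < cang (flipPt pt a (S.g a)) (unrot a) :=
        AG.Geo.cang_pos hg' (C.fa.1 : (unrot a).1 ∈ S.F)
      have hB : S.Blk pt (S.g (rot a)) := by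
        refine ⟨?_, ?_⟩
        · rw [S.invol]; exact ((Face.g (c := rot a) C.fa)).symm
        · rw [S.invol, rot_rot]; linarith
      rcases hr with hr | ⟨hr1, hr2⟩
      · exact absurd hB hr.not_blk
      · have gu : S.g (unrot (S.g (rot a))) ≠ unrot (S.g (rot a)) := hb.2.1
        have hnf : ¬ S.Face (S.g (unrot (S.g (rot a)))).1 := fun hf => hr2 ⟨gu, hf⟩
        have off' := C.off_of_not_face hnf
        refine ⟨⟨h1, ?_⟩, ?_⟩
        · rw [off_flip_g h off.unrot off']
          exact (flip_blk h pt off' (by rw [S.invol]; exact off.unrot)).2 hr1.b2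
        · exact fun h5 => hr2 ((flip_active h off.unrot off').1 h5)
    · exfalso
      rw [e2] at h1
      have h2 := h1.2
      rw [C.flip_b h, AG.Geo.cang_flip_b C.geo C.u, flip_cang pt off.rot] at h2
      linarith

theorem not_bladeAt_W : ¬ S.BladeAt pt (unrot (S.g a)) := by
  rintro (h1 | h1 | h1)
  · exact h1.not_face C.fb
  · have h2 := h1.1
    rw [rot_unrot, S.invol] at h2
    exact h2.not_face C.fa
  · have h2 := h1.1
    rw [rot_unrot, S.invol] at h2
    exact h2.not_face C.fa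

theorem ne_W {u : Sd I} (hb : S.BladeAt pt u) : u ≠ unrot (S.g a) := fun e =>
  C.not_bladeAt_W (by rw [← e]; exact hb)

/-- the other vertices of the triangle `t_u` of a virtual blade at `w` are not `w` -/
theorem no_corner {u c : Sd I} (he : S.Eqv (unrot (S.g a)) u) (gu : S.g (rot u) ≠ rot u)
    (hc : c.1 = (S.g (rot u)).1) : pt c ≠ pt (unrot (S.g a)) := by
  intro e
  have h1 : S.g (S.g (rot u)) ≠ S.g (rot u) := g_ne_iff.2 gu
  apply C.geo.third_not_corner h1 hc
  rw [S.invol, unrot_rot, e]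
  exact C.geo.pt_eqv he

/-- a side of `t_u` is not glued to a side of the second triangle which contains `w` -/
theorem off_b {u d : Sd I} (he : S.Eqv (unrot (S.g a)) u) (gu : S.g (rot u) ≠ rot u)
    (hd : d.1 = (S.g (rot u)).1) (gd : S.g d ≠ d) (hf : ¬ S.Face d.1) :
    (S.g d).1 ≠ (S.g a).1 := by
  intro e
  rcases eq_of_fst_eq e with e1 | e1 | e1
  · have : d = a := S.g_injective e1
    exact hf (by rw [this]; exact C.fa)
  · -- the side `v w` of the second triangle
    apply C.no_corner he gu hd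
    have := C.geo.mat' gd
    rw [e1] at this
    -- pt (rot b) = pt (rot d)
    have h2 := C.geo.mat d gd
    rw [e1, rot_rot] at h2
    exact h2.symm
  · apply C.no_corner he gu (c := rot d) hd
    have := C.geo.mat' gd
    rw [e1] at this
    exact this.symm

/-- 8.3, first case -/
theorem virtA_persist {u : Sd I} (hvb : S.Blade (S.g (rot a))) (he : S.Eqv (unrot (S.g a)) u)
    (hu : S.VirtA pt u) : (S.flip a h).VirtA (flipPt pt a (S.g a)) u := by
  have off := C.off_of_eqv he (C.ne_W (Or.inr (Or.inl hu)))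
  have hB : S.Blade (S.g (rot u)) := hu.1
  have gu : S.g (rot u) ≠ rot u := by
    have := hu.2.1.1
    rw [S.invol] at this
    exact this.symm
  have hnf := hB.not_face
  have off1 := C.off_of_not_face hnf
  refine (flip_virtA h pt off off1 ⟨?_, ?_⟩).2 hu
  · intro e
    have gd : S.g (unrot (S.g (rot u))) ≠ unrot (S.g (rot u)) := hB.2.1
    rcases eq_of_fst_eq e with e1 | e1 | e1
    · have : unrot (S.g (rot u)) = S.g a := by rw [← S.invol (unrot (S.g (rot u))), e1]
      exact off1.2 (by rw [← this]; rfl)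
    · have h2 : unrot (S.g (rot u)) = S.g (rot a) := by
        rw [← S.invol (unrot (S.g (rot u))), e1]
      have h3 := hvb.unique hB (by rw [← h2]; rfl)
      rw [← h2] at h3
      exact unrot_ne _ h3
    · have h2 : unrot (S.g (rot u)) = S.g (unrot a) := by
        rw [← S.invol (unrot (S.g (rot u))), e1]
      -- two real blades at `y`
      have g1 : S.g (rot a) ≠ rot a := Face.g (c := rot a) C.fa
      have g2 : S.g (unrot a) ≠ unrot a := Face.g (c := unrot a) C.fa
      have k1 : S.Eqv (unrot a) (S.g (rot a)) := by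
        have := Eqv.of_glued' g1
        rwa [rot_rot] at this
      have k2 : S.Eqv (S.g (rot u)) (unrot a) := by
        have := Eqv.of_glued' gd
        rwa [rot_unrot, e1] at this
      have hne : S.g (rot a) ≠ S.g (rot u) := by
        intro h3
        have h4 := C.geo.sh (a := unrot a) (b := rot a) rfl (unrot_ne_rot a) g2 g1
        apply h4
        rw [← h2, h3]; rfl
      obtain ⟨_, _, X, hX, e1', e2', hd1, hd2, hbd⟩ := C.base.pr (S.g (rot a)) (S.g (rot u))
        (S.g (rot a)) (unrot (S.g (rot u))) (Or.inl hvb) (Or.inl hB) (k1.symm.trans k2.symm) hne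
        (Or.inl ⟨hvb, Or.inl rfl⟩) (Or.inl ⟨hB, Or.inr rfl⟩)
      rw [S.invol] at hd1
      rw [e1, h2] at hd2
      exact C.base.bl.face_cut' hX (c := rot a) (d := unrot a) C.fa rfl (unrot_ne_rot a).symm
        hd1.symm hd2.symm hbd
  · exact C.off_b he gu rfl hB.2.1 hnf

/-- 8.3, second case -/
theorem virtB_persist {u : Sd I} (hva : S.VirtA pt a) (he : S.Eqv (unrot (S.g a)) u)
    (hu : S.VirtB pt u) : (S.flip a h).VirtB (flipPt pt a (S.g a)) u := by
  have off := C.off_of_eqv he (C.ne_W (Or.inr (Or.inr hu)))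
  have hB : S.Blade (rot (S.g (rot u))) := hu.1
  have gu : S.g (rot u) ≠ rot u := by
    have := hu.2.1.1
    rw [S.invol] at this
    exact this.symm
  have hnf : ¬ S.Face (S.g (rot u)).1 := hB.not_face
  have off1 := C.off_of_not_face hnf
  refine (flip_virtB h pt off off1 ⟨?_, ?_⟩).2 hu
  · intro e
    have gd : S.g (rot (S.g (rot u))) ≠ rot (S.g (rot u)) := hB.1
    rcases eq_of_fst_eq e with e1 | e1 | e1
    · have : rot (S.g (rot u)) = S.g a := by rw [← S.invol (rot (S.g (rot u))), e1]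
      exact off1.2 (by rw [← this]; rfl)
    · -- `u.1` is the neighbour of `t` across the other side
      have h2 : rot (S.g (rot u)) = S.g (rot a) := by
        rw [← S.invol (rot (S.g (rot u))), e1]
      have hg' : (S.flip a h).Geo (flipPt pt a (S.g a)) := AG.Geo.geo_flip C.geo C.u h
      have g1 : S.g (rot a) ≠ rot a := Face.g (c := rot a) C.fa
      have p1 : pt (rot u) = pt (unrot a) := by
        have m1 := C.geo.mat (rot u) gu
        rw [h2] at m1
        rw [← m1]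
        have m2 := C.geo.mat' g1
        rwa [rot_rot] at m2
      have p2 : pt u = pt (unrot (S.g a)) := (C.geo.pt_eqv he).symm
      have k := AG.Geo.side_inj hg' (a := u) (b := rot a) (S.memF _ (VirtB.face hu).g) C.fa.1 ?_ ?_
      · exact off.1 (by rw [k]; rfl)
      · rw [flipPt_of_fst off.1 off.2, flipPt_ra, p2]
      · rw [flipPt_of_fst (c := rot u) off.1 off.2, rot_rot, flipPt_ua C.ne, p1]
    · -- a real blade at `v` next to `a.1`
      have h2 : rot (S.g (rot u)) = S.g (unrot a) := by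
        rw [← S.invol (rot (S.g (rot u))), e1]
      have g2 : S.g (unrot a) ≠ unrot a := Face.g (c := unrot a) C.fa
      have := (C.base.adj (rot (S.g (rot u))) a (Or.inl hB) (Or.inr (Or.inl hva))
        ⟨gd, by rw [e1, rot_unrot]⟩).1
      exact hB.not_virt (Or.inr this)
  · exact C.off_b he gu rfl hB.1 hnf

/-- 8.3: blades at `w` persist, with the same type -/
theorem bladeAt_persist {u : Sd I} (hva : S.VirtA pt a) (he : S.Eqv (unrot (S.g a)) u)
    (hu : S.BladeAt pt u) :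
    (S.Blade u ∧ (S.flip a h).Blade u) ∨
      (S.VirtA pt u ∧ (S.flip a h).VirtA (flipPt pt a (S.g a)) u) ∨
      (S.VirtB pt u ∧ (S.flip a h).VirtB (flipPt pt a (S.g a)) u) := by
  have off := C.off_of_eqv he (C.ne_W hu)
  rcases hu with hu | hu | hu
  · exact Or.inl ⟨hu, (flip_blade h off.1 off.2).2 hu⟩
  · exact Or.inr (Or.inl ⟨hu, C.virtA_persist h hva.1 he hu⟩)
  · exact Or.inr (Or.inr ⟨hu, C.virtB_persist h hva he hu⟩)

end C8

end Obj

end AG
end

/- AG.S8.S82 -/
section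
/-!
# Project AG, section 8: 8.2 the fan of `w` lies in `R`, 8.4, 8.5   (helper86)
-/

set_option linter.unusedSectionVars false

namespace AG

open Finset

variable {I : Type} [DecidableEq I]

namespace Obj

/-- crossing, without order -/
theorem exists_cross_bd {S : Obj I} (hl : S.Linear) {a b : Sd I} (h : S.Eqv a b)
    {X : Finset I} (hX : ¬ (a.1 ∈ X ↔ b.1 ∈ X)) :
    ∃ c, S.Eqv a c ∧ S.g c ≠ c ∧ (c ∈ S.bd X ∨ S.g c ∈ S.bd X) := by
  rcases Nat.le_total (S.ps a) (S.ps b) with h1 | h1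
  · obtain ⟨c, h2, h3, _, _, h4, _⟩ := exists_cross hl h h1 hX
    exact ⟨c, h2, h3, mem_bd_or h3 h4⟩
  · obtain ⟨c, h2, h3, _, _, h4, _⟩ := exists_cross hl h.symm h1 (fun h5 => hX h5.symm)
    exact ⟨c, h.trans h2, h3, mem_bd_or h3 h4⟩

/-- the situation of section 8 (case (Ub), left stub, angle sum smaller than `π`) -/
structure U8 (S : Obj I) (pt : Sd I → Pt) (R : Set Pt) (a w' : Sd I) : Prop where
  om : S.OpenMin pt R a w'
  vA : S.VirtA pt a
  u : S.IsU pt a
  fb : S.Face (S.g a).1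
  y : cang pt (rot (S.g (rot a))) + cang pt (rot a) + cang pt (S.g a) < Real.pi
  env : Env S pt (S.pB pt a w') (S.Eqv a)
  vr : ∀ u, S.BladeAt pt u → S.Eqv a u → u.1 ∉ S.pB pt a w'

namespace U8

variable {S : Obj I} {pt : Sd I → Pt} {R : Set Pt} {a w' : Sd I} (U : S.U8 pt R a w')
include U

theorem base : Base S pt := U.om.cex.base

theorem c8 : S.C8 pt a := ⟨U.om.cex.geo, U.u, U.base, U.vA.face, U.fb⟩

theorem flippable : S.Flippable a := AG.Geo.flippable U.om.cex.geo U.u.glued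

theorem iO : S.IsIn a (S.hi pt w') (S.pO pt a w') := by
  have := U.base.isIn_pO U.om.pr
  rwa [lo_of_not_B U.vA.not_B] at this

theorem bd_pB : S.bd (S.pB pt a w') = {S.g a, S.hi pt w'} := by
  unfold pB
  rw [bd_sdiff, inter_eq_right.2 U.iO.sub, U.iO.bd, image_insert, image_singleton, S.invol]

theorem mem_pB {t : I} : t ∈ S.pB pt a w' ↔ t ∈ S.F ∧ t ∉ S.pO pt a w' := by
  unfold pB; rw [mem_sdiff]

theorem b_mem : (S.g a).1 ∈ S.pB pt a w' := (mem_bd.1 (by rw [U.bd_pB]; simp :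
  S.g a ∈ S.bd (S.pB pt a w'))).2.1

theorem a_not_mem : a.1 ∉ S.pB pt a w' := by
  have := (mem_bd.1 (by rw [U.bd_pB]; simp : S.g a ∈ S.bd (S.pB pt a w'))).2.2
  rwa [S.invol] at this

theorem a_mem_pO : a.1 ∈ S.pO pt a w' := (mem_bd.1 U.iO.mem_left).2.1

/-- corners of one triangle -/
theorem tri_ne {c d : Sd I} (hc : c.1 ∈ S.F) (h : d.1 = c.1) (hne : c ≠ d) : ¬ S.Eqv c d :=
  fun he => hne (U.base.tri c d hc h he)

/-- 8.2 -/
theorem mem_X {u : Sd I} (he : S.Eqv (unrot (S.g a)) u) : u.1 ∈ S.pB pt a w' := by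
  by_contra hu
  have hl := U.base.lin
  have hbF : (S.g a).1 ∈ S.F := U.fb.1
  have ga := U.u.glued
  obtain ⟨c, h1, h2, h3⟩ := exists_cross_bd hl he (X := S.pB pt a w')
    (fun h4 => hu (h4.1 U.b_mem))
  rw [U.bd_pB] at h3
  simp only [mem_insert, mem_singleton] at h3
  -- `a` and `rot (g a)` are at `v`
  have v1 : S.Eqv a (rot (S.g a)) := Eqv.of_glued ga
  have v2 : S.Eqv a (S.hi pt w') := (U.om.pr.eqv).trans U.om.pr.b'.eqv_hi
  have nv : ¬ S.Eqv (unrot (S.g a)) a := fun h4 =>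
    U.tri_ne (c := unrot (S.g a)) (d := rot (S.g a)) hbF rfl (unrot_ne_rot _) (h4.trans v1)
  rcases h3 with (h3 | h3) | (h3 | h3)
  · -- c = g a
    rw [h3] at h1
    exact U.tri_ne (c := unrot (S.g a)) (d := S.g a) hbF rfl (unrot_ne _) h1
  · -- c = hi w'
    rw [h3] at h1
    exact nv (h1.trans v2.symm)
  · -- g c = g a
    have : c = a := S.g_injective h3
    rw [this] at h1
    exact nv h1
  · -- g c = hi w': `w` is the other end of the second stub
    have hk : S.g (rot (S.g a)) ≠ rot (S.g a) := Face.g (c := rot (S.g a)) U.fb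
    have e1 : S.Eqv (unrot (S.g a)) (S.g (rot (S.g a))) := by
      have := Eqv.of_glued' hk
      rwa [rot_rot] at this
    have e2 : S.Eqv (rot (S.g a)) (rot (S.g (rot (S.g a)))) := Eqv.of_glued hk
    have e3 : S.Eqv (rot c) (S.hi pt w') := by
      have := Eqv.of_glued' h2
      rwa [h3] at this
    have h5 : c = S.g (rot (S.g a)) := U.base.seg c _ h2 (g_ne_iff.2 hk) (h1.symm.trans e1)
      (e3.trans ((v2.symm.trans v1).trans e2))
    have h6 : S.hi pt w' = rot (S.g a) := by rw [← h3, h5, S.invol]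
    exact U.base.bl.face_cut' (X := S.pB pt a w') sdiff_subset (c := S.g a) (d := rot (S.g a))
      U.fb rfl (rot_ne _).symm (Or.inl rfl) (Or.inl rfl) (by rw [U.bd_pB, h6])

/-- the flipped object -/
theorem cex' : Cex (S.flip a U.flippable) (flipPt pt a (S.g a)) R :=
  U.om.cex.flip U.u U.flippable

theorem base' : Base (S.flip a U.flippable) (flipPt pt a (S.g a)) := U.cex'.base

theorem virtA' : (S.flip a U.flippable).VirtA (flipPt pt a (S.g a)) (unrot (S.g a)) :=
  U.c8.virtA_flip U.flippable U.vA U.y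

/-- `w` is not an ear end -/
theorem not_earEnd : ¬ S.EarEnd (unrot (S.g a)) := fun h =>
  U.base'.earEnd _ _ (U.c8.earEnd_flip U.flippable U.base'.lin h) (Or.inr (Or.inl U.virtA'))
    (Eqv.refl _ _)

/-- a glued side of the outer region between a set `Z` and the rest of the outer region -/
theorem exists_O {Z : Finset I} (hZ : Z ⊆ S.pO pt a w') (hne : Z.Nonempty) (ha : a.1 ∉ Z) :
    ∃ e, S.g e ≠ e ∧ e.1 ∈ Z ∧ (S.g e).1 ∉ Z ∧ (S.g e).1 ∈ S.pO pt a w' := by
  obtain ⟨e, h1, h2⟩ := exists_inner U.base.conn U.base.bl U.iO.sub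
    (by rw [U.iO.card U.base.loopless]; omega) hZ hne (fun e => ha (by rw [e]; exact U.a_mem_pO))
  rw [mem_bd] at h1
  exact ⟨e, h1.1, h1.2.1, h1.2.2, h2⟩

/-- the same in the flipped object -/
theorem exists_O' {Z : Finset I} (hZ : Z ⊆ S.pO pt a w') (hne : Z.Nonempty) (ha : a.1 ∉ Z) :
    ∃ e, e ∈ (S.flip a U.flippable).bd Z ∧
      (((S.flip a U.flippable).g e).1 = a.1 ∨ ((S.flip a U.flippable).g e).1 = (S.g a).1 ∨
        ((S.flip a U.flippable).g e = S.g e ∧ (S.g e).1 ∈ S.pO pt a w')) ∧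
        e.1 ∈ S.pO pt a w' := by
  obtain ⟨e, h1, h2, h3, h4⟩ := U.exists_O hZ hne ha
  have hb : (S.g a).1 ∉ S.pO pt a w' := (U.mem_pB.1 U.b_mem).2
  have k1 : e.1 ≠ a.1 := fun h5 => ha (by rw [← h5]; exact h2)
  have k2 : e.1 ≠ (S.g a).1 := fun h5 => hb (by rw [← h5]; exact hZ h2)
  have k3 : (S.g e).1 ≠ (S.g a).1 := fun h5 => hb (by rw [← h5]; exact h4)
  by_cases k4 : (S.g e).1 = a.1
  · have k5 : ((S.flip a U.flippable).g e).1 = a.1 ∨
        ((S.flip a U.flippable).g e).1 = (S.g a).1 := by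
      rw [flip_g_of_fst U.flippable k1 k2]
      exact sigF_fst_mem (Or.inl k4)
    have k6 : ((S.flip a U.flippable).g e).1 ∉ Z := by
      rcases k5 with k5 | k5
      · rw [k5]; exact ha
      · rw [k5]; exact fun h5 => hb (hZ h5)
    refine ⟨e, mem_bd.2 ⟨?_, h2, k6⟩, ?_, hZ h2⟩
    · exact fun h5 => h1 ((flip_glued_iff U.flippable k1 k2).1 h5)
    · rcases k5 with k5 | k5
      · exact Or.inl k5
      · exact Or.inr (Or.inl k5)
  · have k5 : (S.flip a U.flippable).g e = S.g e := flip_g_eq U.flippable k1 k2 k4 k3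
    refine ⟨e, mem_bd.2 ⟨?_, h2, ?_⟩, Or.inr (Or.inr ⟨k5, h4⟩), hZ h2⟩
    · rw [k5]; exact h1
    · rw [k5]; exact h3

/-- 8.4: no blade at `w` above `W` -/
theorem no_above {u : Sd I} (hu : S.BladeAt pt u) (he : S.Eqv (unrot (S.g a)) u)
    (hlt : S.ps (unrot (S.g a)) < S.ps u) : False := by
  have hl := U.base.lin
  set S' := S.flip a U.flippable with hS'
  set pt' := flipPt pt a (S.g a) with hpt'
  have hl' : S'.Linear := U.base'.lin
  have off := U.c8.off_of_eqv he (U.c8.ne_W hu)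
  obtain ⟨e1, p1⟩ := U.c8.ps_gt U.flippable hl' he hlt
  have p0 := U.c8.ps_W U.flippable hl'
  obtain ⟨e2, p2⟩ := U.c8.ps_new U.flippable hl'
  rw [← hS'] at e1 p1 p0 e2 p2
  have hb' : S'.BladeAt pt' u := by
    rcases U.c8.bladeAt_persist U.flippable U.vA he hu with h | h | h
    · exact Or.inl h.2
    · exact Or.inr (Or.inl h.2)
    · exact Or.inr (Or.inr h.2)
  have hpr : S'.Pr pt' (unrot (S.g a)) u :=
    ⟨Or.inr (Or.inl U.virtA'), hb', e1, by rw [p0, p1]; omega⟩
  have lo' : S'.lo pt' (unrot (S.g a)) = unrot (S.g a) := lo_of_not_B U.virtA'.not_B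
  have hi' : S'.hi pt' (unrot (S.g a)) = unrot (S.g a) := hi_of_A U.virtA'
  have iA : S'.IsIn (S'.hi pt' (unrot (S.g a))) (S'.lo pt' u)
    (S'.pA pt' (unrot (S.g a)) u) := U.base'.isIn_pA hpr
  have iO' : S'.IsIn (S'.lo pt' (unrot (S.g a))) (S'.hi pt' u)
    (S'.pO pt' (unrot (S.g a)) u) := U.base'.isIn_pO hpr
  rw [hi'] at iA
  rw [lo'] at iO'
  have hlo := hb'.ps_lo hl'
  have hhi := hb'.ps_hi hl'
  have hr' := U.base'.loopless
  -- not trivial
  have hnt : ¬ S'.Triv pt' (unrot (S.g a)) u := by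
    rintro ⟨c, _, hc⟩
    have m1 : (unrot (S.g a)).1 ∈ S'.pA pt' (unrot (S.g a)) u := (mem_bd.1 iA.mem_left).2.1
    have m2 : (rot a).1 ∈ S'.pA pt' (unrot (S.g a)) u := by
      rw [iA.mem_iff hl' hr' e2]
      omega
    rw [hc, mem_singleton] at m1 m2
    exact U.c8.ne (by
      change (unrot (S.g a)).1 = (rot a).1
      rw [m1, m2])
  have hmin := U.om.min S' pt' _ _ U.cex' (flip_glued_card U.flippable) hpr hnt
  -- the new outer region contains the old one and the triangle of `W`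
  have mW : (unrot (S.g a)).1 ∈ S'.pO pt' (unrot (S.g a)) u := (mem_bd.1 iO'.mem_left).2.1
  have ma : (rot a).1 ∈ S'.pO pt' (unrot (S.g a)) u := by
    rw [iO'.mem_iff hl' hr' e2]
    omega
  have hsub : S.pO pt a w' ⊆ S'.pO pt' (unrot (S.g a)) u := by
    by_contra hcon
    have hne : (S.pO pt a w' \ S'.pO pt' (unrot (S.g a)) u).Nonempty := sdiff_nonempty.2 hcon
    obtain ⟨e, h1, h2, h3⟩ := U.exists_O' (Z := S.pO pt a w' \ S'.pO pt' (unrot (S.g a)) u)
      sdiff_subset hne (fun h4 => (mem_sdiff.1 h4).2 ma)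
    rw [← hS'] at h1 h2
    obtain ⟨g1, g2, g3⟩ := mem_bd.1 h1
    have g4 : (S'.g e).1 ∈ S'.pO pt' (unrot (S.g a)) u := by
      rcases h2 with h2 | h2 | ⟨h2, h4⟩
      · rw [h2]; exact ma
      · rw [h2]; exact mW
      · by_contra h5
        exact g3 (mem_sdiff.2 ⟨by rw [h2]; exact h4, h5⟩)
    have g5 : S'.g e ∈ S'.bd (S'.pO pt' (unrot (S.g a)) u) :=
      mem_bd.2 ⟨g_ne_iff.2 g1, g4, by rw [S'.invol]; exact (mem_sdiff.1 g2).2⟩
    rw [iO'.bd, mem_insert, mem_singleton] at g5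
    have h3X : e.1 ∉ S.pB pt a w' := fun h4 => (U.mem_pB.1 h4).2 h3
    rcases g5 with g5 | g5
    · -- e = g' W = g W
      have : e = S.g (unrot (S.g a)) := by
        rw [← U.c8.flip_W U.flippable, ← hS', ← g5, S'.invol]
      apply h3X
      rw [this]
      have h6 := U.mem_X ((S.cw_eqv (unrot (S.g a))))
      rwa [cw_fst U.c8.gW] at h6
    · -- e = hi' u
      have : e = S'.hi pt' u := S'.g_injective g5
      apply h3X
      rw [this]
      by_cases hA : S'.VirtA pt' u
      · rw [hi_of_A hA]; exact U.mem_X he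
      · rw [hi_of_not_A hA]
        -- the corner above `u`
        have gu := hu.glued'
        have h7 : S.Eqv (unrot (S.g a)) (S.ccw u) := he.trans (ccw_eqv gu)
        have h8 : S.ccw u ≠ unrot (S.g a) := by
          intro h9
          have := ps_ccw hl gu
          rw [h9] at this
          omega
        have off2 := U.c8.off_of_eqv h7 h8
        rw [ccw_of_glued gu] at off2
        have h9 : S'.g (unrot u) = S.g (unrot u) := off_flip_g U.flippable off.unrot off2
        have h10 : S'.ccw u = S.ccw u := by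
          rw [ccw_of_glued gu, ccw_of_glued (by rw [h9]; exact gu), h9]
        rw [h10]
        exact U.mem_X h7
  have hss : S'.pB pt' (unrot (S.g a)) u ⊂ S.pB pt a w' := by
    rw [Finset.ssubset_iff_of_subset]
    · refine ⟨(S.g a).1, U.b_mem, fun h1 => ?_⟩
      unfold pB at h1
      exact (mem_sdiff.1 h1).2 mW
    · intro t ht
      unfold pB at ht
      rw [mem_sdiff] at ht
      exact U.mem_pB.2 ⟨ht.1, fun h1 => ht.2 (hsub h1)⟩
  have := card_lt_card hss
  omega

/-- the corner `b` at `x` of the second triangle is not a blade -/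
theorem not_bladeAt_b : ¬ S.BladeAt pt (S.g a) := by
  have hk : S.g (rot (S.g a)) ≠ rot (S.g a) := Face.g (c := rot (S.g a)) U.fb
  have he : S.Eqv (unrot (S.g a)) (S.g (rot (S.g a))) := by
    have := Eqv.of_glued' hk
    rwa [rot_rot] at this
  have hu2 : S.g (unrot (unrot (S.g a))) ≠ unrot (unrot (S.g a)) := by
    rw [unrot_unrot]; exact hk
  have hcc : S.ccw (unrot (S.g a)) = S.g (rot (S.g a)) := by
    rw [ccw_of_glued hu2, unrot_unrot]
  rintro (h1 | h1 | h1)
  · exact h1.not_face U.fb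
  · -- VirtA: a real blade at `w` above `W`
    refine U.no_above (Or.inl h1.blade) he ?_
    have := ps_ccw U.base.lin hu2
    rw [hcc] at this
    omega
  · -- VirtB: a real blade at `v` with triangle in the region
    have h2 : S.Eqv (rot (S.g (rot (S.g a)))) a := by
      have e1 := Eqv.of_glued hk
      have e2 := Eqv.of_glued U.u.glued
      exact (e2.trans e1).symm
    exact U.vr _ (Or.inl h1.blade) h2.symm (by
      have := U.mem_X he
      exact this)

end U8

end Obj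

end AG
end

/- AG.S8.S83 -/
section
/-!
# Project AG, section 8: 8.5-8.7   (helper86)
-/

set_option linter.unusedSectionVars false

namespace AG

open Finset

variable {I : Type} [DecidableEq I]

namespace Obj

namespace U8

variable {S : Obj I} {pt : Sd I → Pt} {R : Set Pt} {a w' : Sd I} (U : S.U8 pt R a w')
include U

/-- the visit of `w` is not the visit of `v` -/
theorem w_ne_v : ¬ S.Eqv (unrot (S.g a)) a := fun h4 =>
  U.tri_ne (c := unrot (S.g a)) (d := rot (S.g a)) U.fb.1 rfl (unrot_ne_rot _)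
    (h4.trans (Eqv.of_glued U.u.glued))

/-- 8.5 -/
theorem b_not_mem {q : Sd I × Sd I} (hq : q ∈ S.CP pt (S.pB pt a w') (S.Eqv a)) :
    (S.g a).1 ∉ S.pA pt q.1 q.2 := by
  intro hm
  have hB := U.base
  obtain ⟨cq, m1, m2, hv⟩ := mem_CP.1 hq
  have hsub := U.env.subA q hq
  have h1 : S.g a ∈ S.bd (S.pA pt q.1 q.2) :=
    mem_bd.2 ⟨g_ne_iff.2 U.u.glued, hm, fun h2 => U.a_not_mem (by
      have := hsub h2; rwa [S.invol] at this)⟩
  rw [(hB.isIn_pA cq.toPr).bd, mem_insert, mem_singleton] at h1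
  rcases h1 with h1 | h1
  · by_cases hA : S.VirtA pt q.1
    · rw [hi_of_A hA] at h1
      exact U.not_bladeAt_b (by rw [h1]; exact cq.toPr.b)
    · rw [hi_of_not_A hA] at h1
      have h2 : a = unrot q.1 := by
        rw [← S.invol a, h1, g_ccw cq.toPr.b.glued']
      have h3 : a.1 = (unrot q.1).1 := congrArg Prod.fst h2
      exact U.a_not_mem (by rw [h3]; exact m1)
  · have h2 : a = S.lo pt q.2 := S.g_injective h1
    apply hv
    have h3 := cq.toPr.b'.eqv_lo
    rw [← h2] at h3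
    exact (cq.toPr.eqv.trans h3).symm

/-- the three sets of the torso of `R` are empty -/
theorem torso0 :
    S.candT pt (S.pB pt a w') (S.Eqv a) (S.kids pt (S.pB pt a w') (S.Eqv a))
        (fun q => S.pA pt q.1 q.2) = ∅ ∧
      S.earsT (S.pB pt a w') (S.kids pt (S.pB pt a w') (S.Eqv a))
        (fun q => S.pA pt q.1 q.2) = ∅ ∧
      S.zrT pt (S.pB pt a w') (S.Eqv a) (S.kids pt (S.pB pt a w') (S.Eqv a))
        (fun q => S.pA pt q.1 q.2) (fun q => q.1) = ∅ := by
  have h := U.env.adm_R.torso U.env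
  refine ⟨card_eq_zero.1 ?_, card_eq_zero.1 ?_, card_eq_zero.1 ?_⟩ <;> omega

/-- D2 -/
theorem vir_in_kid {w : Sd I} (hw : S.Vir pt w) (hm : w.1 ∈ S.pB pt a w') :
    ∃ q ∈ S.CP pt (S.pB pt a w') (S.Eqv a), w.1 ∈ S.pA pt q.1 q.2 := by
  classical
  by_contra hcon
  push Not at hcon
  have h0 := U.torso0.1
  have h1 : w ∈ S.candT pt (S.pB pt a w') (S.Eqv a) (S.kids pt (S.pB pt a w') (S.Eqv a))
      (fun q => S.pA pt q.1 q.2) := by
    unfold candT
    rw [mem_filter, mem_CandK]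
    exact ⟨⟨hw, hm, fun h => U.vr w hw.bladeAt h hm⟩, fun q hq => hcon q (kids_sub hq)⟩
  rw [h0] at h1
  exact notMem_empty _ h1

/-- 8.6, first part: `w` has a blade -/
theorem exists_blade : ∃ u, S.BladeAt pt u ∧ S.Eqv (unrot (S.g a)) u := by
  classical
  by_contra hcon
  push Not at hcon
  have hB := U.base
  have hl := hB.lin
  have hWF : (unrot (S.g a)) ∈ S.sides := mem_sides.2 U.fb.1
  have hz1 := last_mem_vis hl hWF
  have hz2 := S.last_eqv (unrot (S.g a))
  set z := S.last (unrot (S.g a)) with hz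
  have hzr : z ∈ S.Zr pt (S.pB pt a w') (S.Eqv a) := by
    rw [mem_Zr]
    refine ⟨mem_vis.1 hz1, fun h => U.w_ne_v (h.trans hz2.symm).symm, ⟨_, hz2, U.b_mem⟩,
      fun w hw _ he => hcon w hw (hz2.trans he.symm)⟩
  obtain ⟨_, t2, t3⟩ := U.torso0
  have hn : z ∉ S.zrT pt (S.pB pt a w') (S.Eqv a) (S.kids pt (S.pB pt a w') (S.Eqv a))
      (fun q => S.pA pt q.1 q.2) (fun q => q.1) := by
    rw [t3]; exact notMem_empty _
  unfold zrT at hn
  rw [mem_filter, t2] at hn
  have hn2 : ¬ ∀ q ∈ S.kids pt (S.pB pt a w') (S.Eqv a), S.Meets (S.pA pt q.1 q.2) z →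
      S.BLg pt (S.pA pt q.1 q.2) q.1 z := fun h =>
    hn ⟨hzr, h, fun c hc => absurd hc (notMem_empty _)⟩
  push Not at hn2
  obtain ⟨q, hq, ⟨z1, e1, m1⟩, hbl⟩ := hn2
  have hq' := kids_sub hq
  obtain ⟨cq, mq1, mq2, hv⟩ := mem_CP.1 hq'
  have hp := cq.toPr
  have iq := hB.isIn_pA hp
  have hW : (unrot (S.g a)).1 ∉ S.pA pt q.1 q.2 := U.b_not_mem hq'
  have eW : S.Eqv z1 (unrot (S.g a)) := e1.trans hz2.symm
  have hne : ¬ S.Eqv (S.hi pt q.1) z1 := fun h =>
    hcon q.1 hp.b ((hp.b.eqv_hi.trans h).trans eW).symm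
  have hnf1 : ¬ ∀ {c : Sd I}, S.Blade c → c.1 ≠ (S.g a).1 → False := fun h => by
    exact h (c := S.g (rot a)) U.vA.blade U.c8.off_t.2
  rcases iq.reg2.outside hB hne m1 eW hW with ⟨h1, _⟩ | ⟨h1, _⟩
  · -- exit
    rcases hB.out_upper hp.b' iq.reg2 (h1.symm.trans eW) hW with h2 | h2 | h2
    · exact h2.1.not_face (by
        have : q.2.1 = (S.g a).1 := by
          change (rot q.2).1 = (unrot (S.g a)).1
          rw [← h2.2]
        rw [this]; exact U.fb)
    · obtain ⟨hA, h3 | h3⟩ := h2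
      · -- q.2 = rot (g a) is at `v`
        have h4 : q.2 = rot (S.g a) := by
          rw [← unrot_rot q.2, ← h3, unrot_unrot]
        apply hv
        have h5 : S.Eqv a q.2 := by rw [h4]; exact Eqv.of_glued U.u.glued
        exact h5.trans hp.eqv.symm
      · exact hA.blade.not_face (by
          have : (S.g (rot q.2)).1 = (S.g a).1 := by
            change (rot (S.g (rot q.2))).1 = (unrot (S.g a)).1
            rw [← h3]
          rw [this]; exact U.fb)
    · obtain ⟨hVB, h3⟩ := h2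
      apply hbl
      refine ⟨q.2, Or.inr hVB, hp.eqv.symm, (hB.mem_pA_right hp).2 hVB, ?_⟩
      rw [xc_of_not_A hVB.not_A]
      rcases h3 z1 eW.symm m1 with h4 | h4
      · rw [← h4]; exact e1
      · have h5 := Eqv.of_glued' hVB.glued_rot
        rw [rot_rot, ← h4] at h5
        exact h5.trans e1
  · -- entry
    rcases hB.out_lower hp.b iq.reg2 (h1.symm.trans eW) hW with h2 | h2 | h2
    · exact h2.1.not_face (by
        have : q.1.1 = (S.g a).1 := by
          change (unrot q.1).1 = (unrot (S.g a)).1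
          rw [← h2.2]
        rw [this]; exact U.fb)
    · obtain ⟨hVB, h3 | h3⟩ := h2
      · have h4 : q.1 = S.g a := by
          rw [← rot_unrot q.1, ← h3, rot_unrot]
        exact U.not_bladeAt_b (by rw [← h4]; exact hp.b)
      · exact hVB.blade.not_face (by
          have : (rot (S.g (rot q.1))).1 = (S.g a).1 := by
            change (S.g (rot q.1)).1 = (unrot (S.g a)).1
            rw [← h3]
          rw [this]; exact U.fb)
    · obtain ⟨hA, h3⟩ := h2
      apply hbl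
      refine ⟨q.1, Or.inl hA, Eqv.refl _ _, (hB.mem_pA_left hp).2 hA, ?_⟩
      rw [xc_of_A hA]
      rcases h3 z1 eW.symm m1 with h4 | h4
      · rw [← h4]; exact e1
      · have h5 := Eqv.of_glued hA.glued_rot
        rw [← h4] at h5
        exact h5.trans e1

/-- blades at `w` are below `W` -/
theorem below {u : Sd I} (hu : S.BladeAt pt u) (he : S.Eqv (unrot (S.g a)) u) :
    S.ps u < S.ps (unrot (S.g a)) := by
  rcases Nat.lt_trichotomy (S.ps u) (S.ps (unrot (S.g a))) with h | h | h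
  · exact h
  · exact absurd (ps_inj U.base.lin he.symm h) (U.c8.ne_W hu)
  · exact absurd h (fun h => U.no_above hu he h)

/-- the nearest blade -/
theorem exists_nearest : ∃ u, S.BladeAt pt u ∧ S.Eqv (unrot (S.g a)) u ∧
    ∀ v, S.BladeAt pt v → S.Eqv (unrot (S.g a)) v → S.ps v ≤ S.ps u := by
  classical
  obtain ⟨u0, h0, h0'⟩ := U.exists_blade
  obtain ⟨u, hu, hmax⟩ := (S.sides.filter (fun v => S.BladeAt pt v ∧
    S.Eqv (unrot (S.g a)) v)).exists_max_image S.ps
    ⟨u0, by rw [mem_filter, mem_sides]; exact ⟨h0.memF, h0, h0'⟩⟩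
  rw [mem_filter] at hu
  refine ⟨u, hu.2.1, hu.2.2, fun v hv hv' => hmax v ?_⟩
  rw [mem_filter, mem_sides]
  exact ⟨hv.memF, hv, hv'⟩

/-- the higher stub corner of the blade `u` at `w` is the same in the flip -/
theorem hi_flip {u : Sd I} (hu : S.BladeAt pt u) (he : S.Eqv (unrot (S.g a)) u) :
    (S.flip a U.flippable).hi (flipPt pt a (S.g a)) u = S.hi pt u := by
  have off := U.c8.off_of_eqv he (U.c8.ne_W hu)
  have hcc : (S.flip a U.flippable).ccw u = S.ccw u := by
    have gu := hu.glued'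
    have h7 : S.Eqv (unrot (S.g a)) (S.ccw u) := he.trans (ccw_eqv gu)
    have h9 : (S.flip a U.flippable).g (unrot u) = S.g (unrot u) := by
      by_cases h8 : S.ccw u = unrot (S.g a)
      · rw [ccw_of_glued gu] at h8
        have h10 := U.c8.flip_W U.flippable
        have h11 : S.g (unrot (S.g a)) = unrot u := by rw [← h8, S.invol]
        rw [h11] at h10
        rw [h8, ← h10, (S.flip a U.flippable).invol]
      · have off2 := U.c8.off_of_eqv h7 h8
        rw [ccw_of_glued gu] at off2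
        exact off_flip_g U.flippable off.unrot off2
    rw [ccw_of_glued gu, ccw_of_glued (by rw [h9]; exact gu), h9]
  rcases U.c8.bladeAt_persist U.flippable U.vA he hu with h | h | h
  · rw [hi_of_not_A h.1.not_A, hi_of_not_A h.2.not_A, hcc]
  · rw [hi_of_A h.1, hi_of_A h.2]
  · rw [hi_of_not_A h.1.not_A, hi_of_not_A h.2.not_A, hcc]

/-- 8.6: the set `A1` for the blade `u` at `w` -/
theorem exists_A1 {u : Sd I} (hu : S.BladeAt pt u) (he : S.Eqv (unrot (S.g a)) u) :
    ∃ A, S.IsIn (S.hi pt u) (unrot (S.g a)) A ∧ A ⊆ S.pB pt a w' ∧ (S.g a).1 ∉ A := by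
  have hl := U.base.lin
  have hlt := U.below hu he
  set S' := S.flip a U.flippable with hS'
  set pt' := flipPt pt a (S.g a) with hpt'
  have hl' : S'.Linear := U.base'.lin
  have hr' := U.base'.loopless
  obtain ⟨e1, p1⟩ := U.c8.ps_le U.flippable hl' he hlt.le
  have p0 := U.c8.ps_W U.flippable hl'
  obtain ⟨e2, p2⟩ := U.c8.ps_new U.flippable hl'
  rw [← hS'] at e1 p1 p0 e2 p2
  have hb' : S'.BladeAt pt' u := by
    rcases U.c8.bladeAt_persist U.flippable U.vA he hu with h | h | h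
    · exact Or.inl h.2
    · exact Or.inr (Or.inl h.2)
    · exact Or.inr (Or.inr h.2)
  have hpr : S'.Pr pt' u (unrot (S.g a)) :=
    ⟨hb', Or.inr (Or.inl U.virtA'), e1.symm, by rw [p0, p1]; omega⟩
  have lo' : S'.lo pt' (unrot (S.g a)) = unrot (S.g a) := lo_of_not_B U.virtA'.not_B
  have iA : S'.IsIn (S'.hi pt' u) (S'.lo pt' (unrot (S.g a)))
    (S'.pA pt' u (unrot (S.g a))) := U.base'.isIn_pA hpr
  have hhi : S'.hi pt' u = S.hi pt u := U.hi_flip hu he
  rw [lo', hhi] at iA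
  have e3 : S'.Eqv (S.hi pt u) (unrot (S.g a)) := iA.eqv
  have mW : (unrot (S.g a)).1 ∉ S'.pA pt' u (unrot (S.g a)) := by
    rw [iA.mem_iff hl' hr' e3]; omega
  have ma : (rot a).1 ∉ S'.pA pt' u (unrot (S.g a)) := by
    rw [iA.mem_iff hl' hr' (e3.trans e2)]; omega
  have hdisj : ∀ t ∈ S'.pA pt' u (unrot (S.g a)), t ∉ S.pO pt a w' := by
    by_contra hcon
    push Not at hcon
    obtain ⟨t, ht1, ht2⟩ := hcon
    have hne : (S.pO pt a w' ∩ S'.pA pt' u (unrot (S.g a))).Nonempty :=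
      ⟨t, mem_inter.2 ⟨ht2, ht1⟩⟩
    obtain ⟨e, h1, h2, h3⟩ := U.exists_O'
      (Z := S.pO pt a w' ∩ S'.pA pt' u (unrot (S.g a)))
      inter_subset_left hne (fun h4 => ma (mem_inter.1 h4).2)
    rw [← hS'] at h1 h2
    obtain ⟨g1, g2, g3⟩ := mem_bd.1 h1
    have g4 : (S'.g e).1 ∉ S'.pA pt' u (unrot (S.g a)) := by
      rcases h2 with h2 | h2 | ⟨h2, h4⟩
      · rw [h2]; exact ma
      · rw [h2]; exact mW
      · intro h5
        exact g3 (mem_inter.2 ⟨by rw [h2]; exact h4, h5⟩)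
    have g5 : e ∈ S'.bd (S'.pA pt' u (unrot (S.g a))) :=
      mem_bd.2 ⟨g1, (mem_inter.1 g2).2, g4⟩
    rw [iA.bd, mem_insert, mem_singleton] at g5
    have h3X : e.1 ∉ S.pB pt a w' := fun h4 => (U.mem_pB.1 h4).2 h3
    rcases g5 with g5 | g5
    · apply h3X
      rw [g5]
      exact U.mem_X (he.trans hu.eqv_hi)
    · apply h3X
      rw [g5, hS', U.c8.flip_W U.flippable]
      have h6 := U.mem_X ((S.cw_eqv (unrot (S.g a))))
      rwa [cw_fst U.c8.gW] at h6
  refine ⟨S'.pA pt' u (unrot (S.g a)), ?_, fun t ht => U.mem_pB.2 ⟨iA.sub ht, hdisj t ht⟩, mW⟩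
  have hbd : S.bd (S'.pA pt' u (unrot (S.g a))) = {S.hi pt u, S.g (unrot (S.g a))} := by
    rw [← flip_bd U.flippable ma mW, ← hS', iA.bd, hS', U.c8.flip_W U.flippable]
  have hehi : S.Eqv (unrot (S.g a)) (S.hi pt u) := he.trans hu.eqv_hi
  have hps : S.ps (S.hi pt u) < S.ps (unrot (S.g a)) := by
    have h1 := hu.ps_hi hl
    have h2 := iA.lt
    rw [p0, (U.c8.ps_le U.flippable hl' hehi (by omega)).2] at h2
    exact h2
  exact ⟨hu.glued_hi, U.c8.gW, hehi.symm, hps, iA.sub, hbd⟩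

end U8

end Obj

end AG
end

/- Helper41.AG7.Ear -/
section
/-!
# AG section 7: 7.5 (the visits `a_i` are no ear ends of the region) and 7.2

`X` is the open region, `bd X = {b, b'}`, the stub `b` starts at `v0` (corner `b`), the stub `b'` ends at `v0`
(corner `rot b'`).  `a_1` = corner `rot b`, `a_2` = corner `b'`.
-/

set_option autoImplicit false
set_option linter.unusedSectionVars false
open Finset

namespace Pool.Agent.Helper41.AG7

open _root_.AG _root_.AG.Obj

variable {I : Type} [DecidableEq I]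

/-- the open region with the facts of block 6 (D2); `V` = the visit `v0` -/
structure RD (S : Obj I) (pt : Sd I → Pt) (X : Finset I) (V : Sd I → Prop) (b b' : Sd I) : Prop where
  base : Base S pt
  sub : X ⊆ S.F
  hV : ∀ z, V z ↔ S.Eqv b z
  bd : S.bd X = {b, b'}
  eqv : S.Eqv b (rot b')
  psl : S.ps (rot b') < S.ps b
  bl0 : ∃ u, S.BladeAt pt u ∧ S.Eqv b u
  d0 : ∀ u, S.BladeAt pt u → S.Eqv b u → u.1 ∉ X
  dv : ∀ w, S.Vir pt w → w.1 ∈ X → ∃ p ∈ S.CP pt X V, w.1 ∈ S.pA pt p.1 p.2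
  de : ∀ c, S.Eared c → c.1 ∈ X → ∃ p ∈ S.CP pt X V, c.1 ∈ S.pA pt p.1 p.2
  pAsub : ∀ p ∈ S.CP pt X V, S.pA pt p.1 p.2 ⊆ X

variable {S : Obj I} {pt : Sd I → Pt} {X : Finset I} {V : Sd I → Prop} {b b' : Sd I}

theorem cp_cons {p : Sd I × Sd I} (h : p ∈ S.CP pt X V) :
    S.Cons pt p.1 p.2 ∧ p.1.1 ∈ X ∧ p.2.1 ∈ X ∧ ¬ V p.1 := by
  classical
  rw [CP, mem_filter] at h
  exact h.2

namespace RD

variable (Q : RD S pt X V b b')
include Q

theorem lin : S.Linear := Q.base.lin

theorem bX : b.1 ∈ X ∧ (S.g b).1 ∉ X ∧ S.g b ≠ b := by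
  have h : b ∈ S.bd X := by rw [Q.bd]; exact mem_insert_self _ _
  obtain ⟨h1, h2, h3⟩ := mem_bd.1 h
  exact ⟨h2, h3, h1⟩

theorem bX' : b'.1 ∈ X ∧ (S.g b').1 ∉ X ∧ S.g b' ≠ b' := by
  have h : b' ∈ S.bd X := by rw [Q.bd]; exact mem_insert_of_mem (mem_singleton_self _)
  obtain ⟨h1, h2, h3⟩ := mem_bd.1 h
  exact ⟨h2, h3, h1⟩

/-- the ends of a glued side are different visits -/
theorem ends {a : Sd I} (ha : a.1 ∈ S.F) : ¬ S.Eqv a (rot a) := Q.base.loopless a ha

theorem b_rb : ¬ S.Eqv b (rot b) := Q.ends (Q.sub Q.bX.1)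
theorem b'_rb' : ¬ S.Eqv b' (rot b') := Q.ends (Q.sub Q.bX'.1)

theorem rb_gb : S.Eqv (rot b) (S.g b) := Eqv.of_glued' Q.bX.2.2
theorem rb'_gb' : S.Eqv (rot b') (S.g b') := Eqv.of_glued' Q.bX'.2.2
theorem b'_rgb' : S.Eqv b' (rot (S.g b')) := Eqv.of_glued Q.bX'.2.2

/-- `a_1 ≠ a_2` -/
theorem a_ne : ¬ S.Eqv (rot b) b' := by
  intro h
  have h1 : b = S.g b' := by
    apply Q.base.seg b (S.g b') Q.bX.2.2 (g_ne_iff.2 Q.bX'.2.2)
    · exact Q.eqv.trans Q.rb'_gb'
    · exact h.trans Q.b'_rgb'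
  have := Q.bX'.2.1
  rw [← h1] at this
  exact this Q.bX.1

theorem ps_gb : S.ps (S.g b) = S.ps (rot b) + 1 := by
  have h := ps_of_glued Q.lin (a := S.g b) (g_ne_iff.2 Q.bX.2.2)
  rwa [cw_of_glued (g_ne_iff.2 Q.bX.2.2), S.invol] at h

theorem ps_gb' : S.ps (S.g b') = S.ps (rot b') + 1 := by
  have h := ps_of_glued Q.lin (a := S.g b') (g_ne_iff.2 Q.bX'.2.2)
  rwa [cw_of_glued (g_ne_iff.2 Q.bX'.2.2), S.invol] at h

theorem ps_b' : S.ps b' = S.ps (rot (S.g b')) + 1 := by
  have h := ps_of_glued Q.lin (a := b') Q.bX'.2.2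
  rwa [cw_of_glued Q.bX'.2.2] at h

/-- a crossing of the boundary is at one of the four ends -/
theorem cross4 {c : Sd I} (hg : S.g c ≠ c) (h : ¬ (c.1 ∈ X ↔ (S.g c).1 ∈ X)) :
    c = b ∨ c = b' ∨ c = S.g b ∨ c = S.g b' := by
  rcases mem_bd_or hg h with h1 | h1
  · rw [Q.bd, mem_insert, mem_singleton] at h1
    rcases h1 with h1 | h1
    · exact Or.inl h1
    · exact Or.inr (Or.inl h1)
  · rw [Q.bd, mem_insert, mem_singleton] at h1
    rcases h1 with h1 | h1
    · right; right; left; rw [← h1, S.invol]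
    · right; right; right; rw [← h1, S.invol]

/-- the part of the region in the fan of `a_1` is below `rot b` -/
theorem part1 {e : Sd I} (he : S.Eqv (rot b) e) (hX : e.1 ∈ X) : S.ps e ≤ S.ps (rot b) := by
  by_contra hlt
  have h0 := Q.ps_gb
  have h1 : S.Eqv (S.g b) e := Q.rb_gb.symm.trans he
  obtain ⟨c, hc1, hc2, hc3, hc4, hc5, hc6⟩ := exists_cross Q.lin h1 (by omega)
    (X := X) (fun h => Q.bX.2.1 (h.2 hX))
  have hcb : S.Eqv (rot b) c := Q.rb_gb.trans hc1
  rcases Q.cross4 hc2 hc5 with h | h | h | h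
  · rw [h] at hcb; exact Q.b_rb hcb.symm
  · rw [h] at hcb; exact Q.a_ne hcb
  · rw [h] at hc3; omega
  · rw [h] at hcb
    exact Q.b_rb ((Q.eqv.trans Q.rb'_gb').trans hcb.symm)

/-- the part of the region in the fan of `a_2` is above `b'` -/
theorem part2 {e : Sd I} (he : S.Eqv b' e) (hX : e.1 ∈ X) : S.ps b' ≤ S.ps e := by
  by_contra hlt
  have h0 := Q.ps_b'
  have h1 : S.Eqv e (rot (S.g b')) := he.symm.trans Q.b'_rgb'
  obtain ⟨c, hc1, hc2, hc3, hc4, hc5, hc6⟩ := exists_cross Q.lin h1 (by omega)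
    (X := X) (fun h => Q.bX'.2.1 (by have := h.1 hX; rwa [rot_fst] at this))
  have hcb : S.Eqv b' c := he.trans hc1
  rcases Q.cross4 hc2 hc5 with h | h | h | h
  · rw [h] at hcb
    exact Q.b'_rb' (hcb.trans Q.eqv)
  · rw [h] at hc4; omega
  · rw [h] at hcb; exact Q.a_ne (Q.rb_gb.trans hcb.symm)
  · rw [h] at hcb; exact Q.b'_rb' (hcb.trans Q.rb'_gb'.symm)

/-- the outer part above `b` -/
theorem up {f : Sd I} (hf : S.Eqv b f) (hp : S.ps b ≤ S.ps f) : f.1 ∈ X := by
  by_contra hX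
  obtain ⟨c, hc1, hc2, hc3, hc4, hc5, hc6⟩ := exists_cross Q.lin hf hp
    (X := X) (fun h => hX (h.1 Q.bX.1))
  rcases Q.cross4 hc2 hc5 with h | h | h | h
  · rw [h] at hc3; omega
  · rw [h] at hc1; exact Q.b'_rb' (hc1.symm.trans Q.eqv)
  · rw [h] at hc1; exact Q.b_rb (hc1.trans Q.rb_gb.symm)
  · rw [h] at hc3
    have h1 := Q.ps_gb'
    have h2 := Q.psl
    omega

/-- the outer part below `rot b'` -/
theorem down {f : Sd I} (hf : S.Eqv b f) (hp : S.ps f ≤ S.ps (rot b')) : f.1 ∈ X := by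
  by_contra hX
  have h0 : S.Eqv f (rot b') := hf.symm.trans Q.eqv
  obtain ⟨c, hc1, hc2, hc3, hc4, hc5, hc6⟩ := exists_cross Q.lin h0 hp
    (X := X) (fun h => hX (h.2 (by rw [rot_fst]; exact Q.bX'.1)))
  have hcb : S.Eqv b c := hf.trans hc1
  rcases Q.cross4 hc2 hc5 with h | h | h | h
  · rw [h] at hc4
    have := Q.psl
    omega
  · rw [h] at hcb; exact Q.b'_rb' (hcb.symm.trans Q.eqv)
  · rw [h] at hcb; exact Q.b_rb (hcb.trans Q.rb_gb.symm)
  · rw [h, Q.ps_gb'] at hc4
    omega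

/-- if `s_1` is in a child then the child is at the visit `a_1` -/
theorem child1 {p : Sd I × Sd I} (hp : p ∈ S.CP pt X V) (hm : b.1 ∈ S.pA pt p.1 p.2) :
    ∃ u, S.BladeAt pt u ∧ S.Eqv (rot b) u := by
  obtain ⟨h1, _, _, h4⟩ := cp_cons hp
  have hin := Q.base.isIn_pA h1.toPr
  have h5 : b ∈ S.bd (S.pA pt p.1 p.2) :=
    mem_bd.2 ⟨Q.bX.2.2, hm, fun h => Q.bX.2.1 (Q.pAsub p hp h)⟩
  rw [hin.bd, mem_insert, mem_singleton] at h5
  rcases h5 with h5 | h5
  · exfalso
    apply h4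
    rw [Q.hV, h5]
    exact h1.b.eqv_hi.symm
  · have h6 : S.g b = S.lo pt p.2 := by rw [h5, S.invol]
    exact ⟨p.2, h1.b', (Q.rb_gb.trans (by rw [h6]; exact h1.b'.eqv_lo.symm))⟩

theorem child2 {p : Sd I × Sd I} (hp : p ∈ S.CP pt X V) (hm : b'.1 ∈ S.pA pt p.1 p.2) :
    ∃ u, S.BladeAt pt u ∧ S.Eqv b' u := by
  obtain ⟨h1, _, _, h4⟩ := cp_cons hp
  have hin := Q.base.isIn_pA h1.toPr
  have h5 : b' ∈ S.bd (S.pA pt p.1 p.2) :=
    mem_bd.2 ⟨Q.bX'.2.2, hm, fun h => Q.bX'.2.1 (Q.pAsub p hp h)⟩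
  rw [hin.bd, mem_insert, mem_singleton] at h5
  rcases h5 with h5 | h5
  · exact ⟨p.1, h1.b, by rw [h5]; exact h1.b.eqv_hi.symm⟩
  · exfalso
    apply h4
    rw [Q.hV]
    have h6 : S.g b' = S.lo pt p.2 := by rw [h5, S.invol]
    have h7 : S.Eqv b p.2 := (Q.eqv.trans Q.rb'_gb').trans (by rw [h6]; exact h1.b'.eqv_lo.symm)
    exact h7.trans h1.eqv.symm

/-- 7.5 at `a_1` -/
theorem ear1 {c e : Sd I} (hc : S.Eared c) (hcX : c.1 ∈ X) (hec : e = rot c ∨ e = unrot c)
    (he : S.Eqv (rot b) e) : False := by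
  have heX : e.1 ∈ X := by rcases hec with h | h <;> rw [h] <;> exact hcX
  have hend : S.EarEnd e := by
    refine ⟨rot c, hc.2.2, ?_⟩
    rcases hec with h | h
    · left; rw [h]; exact Eqv.refl _ _
    · right; rw [h, rot_rot]; exact Eqv.refl _ _
  have noB : ∀ u, S.BladeAt pt u → ¬ S.Eqv (rot b) u := fun u hu h =>
    Q.base.earEnd e u hend hu (he.symm.trans h)
  have hps := Q.part1 he heX
  have hgb : S.Eqv e (S.g b) := he.symm.trans Q.rb_gb
  have hgbp := Q.ps_gb
  -- `e` is the clockwise end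
  have he' : e = rot c := by
    rcases hec with h | h
    · exact h
    · exfalso
      have h1 := unrot_glued_of_lt Q.lin hgb (by omega)
      rw [h, unrot_unrot] at h1
      exact h1 (S.earFree _ hc.2.2)
  have hpe : S.ps e = 0 := by rw [he']; exact ps_of_unglued (S.earFree _ hc.2.2)
  obtain ⟨p, hp, hcp⟩ := Q.de c hc hcX
  obtain ⟨h1, _, _, h4⟩ := cp_cons hp
  have hin := Q.base.isIn_pA h1.toPr
  have hr2 := hin.reg2
  have heK : e.1 ∈ S.pA pt p.1 p.2 := by rw [he']; exact hcp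
  have hdK : (rot b).1 ∉ S.pA pt p.1 p.2 := fun h => by
    obtain ⟨u, hu1, hu2⟩ := Q.child1 hp h
    exact noB u hu1 hu2
  have hne : ¬ S.Eqv (S.hi pt p.1) e := fun h =>
    Q.base.earEnd e p.1 hend h1.b (h1.b.eqv_hi.trans h).symm
  rcases hr2.outside Q.base hne heK he.symm hdK with ⟨h5, h6⟩ | ⟨h5, h6⟩
  · -- the fan would cross the boundary twice
    obtain ⟨c1, k1, k2, k3, k4, k5, k6⟩ := exists_cross Q.lin he.symm
      (by omega) (X := S.pA pt p.1 p.2) (fun h => hdK (h.1 heK))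
    have k7 : c1.1 ∉ S.pA pt p.1 p.2 := fun h => hdK (k6.1 h)
    have k8 : (S.g c1).1 ∈ S.pA pt p.1 p.2 := by
      by_contra h
      exact k5 ⟨fun h' => absurd h' k7, fun h' => absurd h' h⟩
    have k9 := hr2.entry Q.base (fun h => hne (h.trans k1.symm)) k2 k7 k8
    apply hr2.not_both Q.base
    rw [← k9]
    exact h5.symm.trans k1
  · rcases Q.base.out_lower h1.b hr2 (h5.symm.trans he.symm) hdK with
      ⟨k1, k2⟩ | ⟨k1, k2⟩ | ⟨k1, k2⟩
    · have k3 : b = rot p.1 := by
        apply rot_injective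
        rw [k2, rot_rot]
      exact Q.bX.2.2 (by rw [k3]; exact k1.2.2.1)
    · rcases k2 with k2 | k2
      · have k3 : b = rot p.1 := by
          apply rot_injective
          rw [k2, rot_rot]
        have k4 : p.1.1 = b.1 := by rw [k3]; rfl
        obtain ⟨q, hq, hq'⟩ := Q.dv p.1 (Or.inr k1) (by rw [k4]; exact Q.bX.1)
        rw [k4] at hq'
        obtain ⟨u, hu1, hu2⟩ := Q.child1 hq hq'
        exact noB u hu1 hu2
      · have k3 := k1.blade.2.2.1
        rw [rot_rot, ← k2, unrot_rot] at k3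
        exact Q.bX.2.2 k3
    · rcases k2 e he heK with k3 | k3
      · have k4 : c = p.1 := rot_injective (he'.symm.trans k3)
        rw [k4] at hc
        exact hc.not_face k1.face
      · have k4 : c = S.g (rot p.1) := rot_injective (he'.symm.trans k3)
        exact k1.blade.not_eared hc (by rw [k4])

/-- 7.5 at `a_2` -/
theorem ear2 {c e : Sd I} (hc : S.Eared c) (hcX : c.1 ∈ X) (hec : e = rot c ∨ e = unrot c)
    (he : S.Eqv b' e) : False := by
  have heX : e.1 ∈ X := by rcases hec with h | h <;> rw [h] <;> exact hcX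
  have hend : S.EarEnd e := by
    refine ⟨rot c, hc.2.2, ?_⟩
    rcases hec with h | h
    · left; rw [h]; exact Eqv.refl _ _
    · right; rw [h, rot_rot]; exact Eqv.refl _ _
  have noB : ∀ u, S.BladeAt pt u → ¬ S.Eqv b' u := fun u hu h =>
    Q.base.earEnd e u hend hu (he.symm.trans h)
  have hps := Q.part2 he heX
  have hb'p : 1 ≤ S.ps b' := (ps_pos_iff Q.lin).2 Q.bX'.2.2
  -- `e` is the counterclockwise end
  have he' : e = unrot c := by
    rcases hec with h | h
    · exfalso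
      have : S.ps e = 0 := by rw [h]; exact ps_of_unglued (S.earFree _ hc.2.2)
      omega
    · exact h
  have htop : ∀ f, S.Eqv e f → S.ps f ≤ S.ps e := by
    intro f hf
    by_contra h
    have h1 := unrot_glued_of_lt Q.lin hf (by omega)
    rw [he', unrot_unrot] at h1
    exact h1 (S.earFree _ hc.2.2)
  obtain ⟨p, hp, hcp⟩ := Q.de c hc hcX
  obtain ⟨h1, _, _, h4⟩ := cp_cons hp
  have hin := Q.base.isIn_pA h1.toPr
  have hr2 := hin.reg2
  have heK : e.1 ∈ S.pA pt p.1 p.2 := by rw [he']; exact hcp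
  have hdK : b'.1 ∉ S.pA pt p.1 p.2 := fun h => by
    obtain ⟨u, hu1, hu2⟩ := Q.child2 hp h
    exact noB u hu1 hu2
  have hne : ¬ S.Eqv (S.hi pt p.1) e := fun h =>
    Q.base.earEnd e p.1 hend h1.b (h1.b.eqv_hi.trans h).symm
  rcases hr2.outside Q.base hne heK he.symm hdK with ⟨h5, h6⟩ | ⟨h5, h6⟩
  · rcases Q.base.out_upper h1.b' hr2 (h5.symm.trans he.symm) hdK with
      ⟨k1, k2⟩ | ⟨k1, k2⟩ | ⟨k1, k2⟩
    · exact Q.bX'.2.2 (by rw [k2]; exact k1.2.2.1)
    · rcases k2 with k2 | k2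
      · have k4 : p.2.1 = b'.1 := by rw [k2]; rfl
        obtain ⟨q, hq, hq'⟩ := Q.dv p.2 (Or.inl k1) (by rw [k4]; exact Q.bX'.1)
        rw [k4] at hq'
        obtain ⟨u, hu1, hu2⟩ := Q.child2 hq hq'
        exact noB u hu1 hu2
      · have k3 := k1.blade.2.2.1
        rw [← k2] at k3
        exact Q.bX'.2.2 k3
    · rcases k2 e he heK with k3 | k3
      · have k4 : c = p.2 := by
          have h := he'.symm.trans k3
          rw [← rot_unrot c, h, rot_unrot]
        rw [k4] at hc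
        exact hc.not_face k1.face
      · have k4 : S.g (rot p.2) = unrot c := k3.symm.trans he'
        have k5 := k1.blade
        rw [k4, rot_unrot] at k5
        exact k5.not_eared hc rfl
  · -- the fan would cross the boundary twice
    have hga : S.Eqv (S.g (S.hi pt p.1)) e := h5.symm
    have hgaK : (S.g (S.hi pt p.1)).1 ∉ S.pA pt p.1 p.2 := (mem_bd.1 hin.mem_left).2.2
    obtain ⟨c1, k1, k2, k3, k4, k5, k6⟩ := exists_cross Q.lin hga
      (htop _ hga.symm) (X := S.pA pt p.1 p.2) (fun h => hgaK (h.2 heK))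
    have k7 : c1.1 ∈ S.pA pt p.1 p.2 := k6.2 heK
    have k8 : (S.g c1).1 ∉ S.pA pt p.1 p.2 := fun h => k5 ⟨fun _ => h, fun _ => k7⟩
    have k9 := hr2.exit Q.base (fun h => hne (h.trans (k1.symm.trans hga))) k2 k7 k8
    apply hr2.not_both Q.base
    rw [← k9]
    exact k1.symm

/-- no ear end at `v0` -/
theorem ear0 {c e : Sd I} (hc : S.Eared c) (hec : e = rot c ∨ e = unrot c)
    (he : S.Eqv b e) : False := by
  have hend : S.EarEnd e := by
    refine ⟨rot c, hc.2.2, ?_⟩
    rcases hec with h | h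
    · left; rw [h]; exact Eqv.refl _ _
    · right; rw [h, rot_rot]; exact Eqv.refl _ _
  obtain ⟨u, hu1, hu2⟩ := Q.bl0
  exact Q.base.earEnd e u hend hu1 (he.symm.trans hu2)

/-- 7.2 at `b` -/
theorem f1 : S.Face b.1 ∨ S.Blade (rot b) := by
  rcases Q.base.types (Q.sub Q.bX.1) with h | ⟨c, hc, h | h⟩
  · exact Or.inl h
  · right
    rcases eq_of_fst_eq hc with h1 | h1 | h1
    · rw [h1] at h
      exact absurd Q.bX.1 (Q.d0 b h.bladeAt (Eqv.refl _ _))
    · rw [← h1]; exact h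
    · have h2 := h.2.2.1
      rw [h1, rot_unrot] at h2
      exact absurd h2 Q.bX.2.2
  · exfalso
    have hcX : c.1 ∈ X := by rw [hc]; exact Q.bX.1
    rcases eq_of_fst_eq hc with h1 | h1 | h1
    · exact Q.ear1 h hcX (Or.inl rfl) (by rw [h1]; exact Eqv.refl _ _)
    · refine Q.ear0 h (e := unrot c) (Or.inr rfl) ?_
      rw [h1, unrot_rot]; exact Eqv.refl _ _
    · have h2 := S.earFree _ h.2.2
      rw [h1, rot_unrot] at h2
      exact Q.bX.2.2 h2

/-- 7.2 at `b'` -/
theorem f2 : S.Face b'.1 ∨ S.Blade b' := by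
  rcases Q.base.types (Q.sub Q.bX'.1) with h | ⟨c, hc, h | h⟩
  · exact Or.inl h
  · right
    rcases eq_of_fst_eq hc with h1 | h1 | h1
    · rw [← h1]; exact h
    · have h2 : S.BladeAt pt (rot b') := by rw [← h1]; exact h.bladeAt
      exact absurd (show (rot b').1 ∈ X from Q.bX'.1) (Q.d0 _ h2 Q.eqv)
    · have h2 := h.2.2.1
      rw [h1, rot_unrot] at h2
      exact absurd h2 Q.bX'.2.2
  · exfalso
    have hcX : c.1 ∈ X := by rw [hc]; exact Q.bX'.1
    rcases eq_of_fst_eq hc with h1 | h1 | h1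
    · refine Q.ear0 h (e := rot c) (Or.inl rfl) ?_
      rw [h1]; exact Q.eqv
    · refine Q.ear2 h hcX (e := unrot c) (Or.inr rfl) ?_
      rw [h1, unrot_rot]; exact Eqv.refl _ _
    · have h2 := S.earFree _ h.2.2
      rw [h1, rot_unrot] at h2
      exact Q.bX'.2.2 h2

end RD

end Pool.Agent.Helper41.AG7
end

/- Helper41.AG7.OfMin -/
section
/-!
# AG section 7: the open region of the chosen pair `(w0, w0')`
-/

set_option autoImplicit false
set_option linter.unusedSectionVars false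
open Finset

namespace Pool.Agent.Helper41.AG7

open _root_.AG _root_.AG.Obj Pool.Agent.Helper29.AG7

variable {I : Type} [DecidableEq I]

/-- the facts on `S` and on the region `X = pB w0 w0'` (D2 of block 6) -/
structure Six (S : Obj I) (pt : Sd I → Pt) (w0 w0' : Sd I) : Prop where
  base : Base S pt
  geo : S.Geo pt
  s1 : ∀ c a, S.Blade c → a.1 = c.1 → S.IsU pt a → S.Face (S.g a).1
  s2 : ∀ c, S.Blade c → S.PairAt pt c → S.Face (S.g c).1 ∨ S.Face (S.g (unrot c)).1
  pr : S.Pr pt w0 w0'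
  d0 : ∀ u, S.BladeAt pt u → S.Eqv w0 u → u.1 ∉ S.pB pt w0 w0'
  dv : ∀ w, S.Vir pt w → w.1 ∈ S.pB pt w0 w0' →
    ∃ p ∈ S.CP pt (S.pB pt w0 w0') (S.Eqv w0), w.1 ∈ S.pA pt p.1 p.2
  de : ∀ c, S.Eared c → c.1 ∈ S.pB pt w0 w0' →
    ∃ p ∈ S.CP pt (S.pB pt w0 w0') (S.Eqv w0), c.1 ∈ S.pA pt p.1 p.2
  pAsub : ∀ p ∈ S.CP pt (S.pB pt w0 w0') (S.Eqv w0), S.pA pt p.1 p.2 ⊆ S.pB pt w0 w0'

/-- a candidate across `a` is a virtual blade at the corner opposite to the partner of `a` -/
theorem vir_of_cand {S : Obj I} {pt : Sd I → Pt} {a : Sd I} (h : S.Cand pt a) :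
    S.Vir pt (unrot (S.g a)) := by
  have e : S.g (rot (unrot (S.g a))) = a := by rw [rot_unrot, S.invol]
  rcases h with h | h
  · left; rw [VirtA, e]; exact h
  · right; rw [VirtB, e]; exact h

/-- candidate of pair type -/
theorem cand_of_pair {S : Obj I} {pt : Sd I → Pt} {c a b : Sd I} (hc : S.Blade c)
    (hp : S.PairAt pt c) (hab : (a = c ∧ b = unrot c) ∨ (a = unrot c ∧ b = c))
    (h1 : S.Face (S.g a).1) (h2 : ¬ S.Face (S.g b).1) : S.Cand pt a := by
  rcases hab with ⟨rfl, rfl⟩ | ⟨rfl, rfl⟩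
  · exact Or.inl ⟨hc, ⟨hc.1, h1⟩, Or.inr ⟨hp, fun h => h2 h.2⟩⟩
  · right
    refine ⟨by rw [rot_unrot]; exact hc, ⟨hc.2.1, h1⟩, Or.inr ⟨by rw [rot_unrot]; exact hp, ?_⟩⟩
    rw [rot_unrot]
    exact fun h => h2 h.2

/-- candidate of U type -/
theorem cand_of_U {S : Obj I} {pt : Sd I → Pt} {c a : Sd I} (hc : S.Blade c) (ha : a.1 = c.1)
    (hU : S.IsU pt a) (hf : S.Face (S.g a).1) : S.Cand pt a := by
  rcases eq_of_fst_eq ha with h | h | h
  · left; rw [h] at hU hf ⊢; exact ⟨hc, ⟨hU.1, hf⟩, Or.inl hU⟩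
  · rw [h] at hU; exact absurd hc.2.2.1 hU.1
  · right
    have e : rot a = c := by rw [h, rot_unrot]
    exact ⟨by rw [e]; exact hc, ⟨hU.1, hf⟩, Or.inl hU⟩

namespace Six

variable {S : Obj I} {pt : Sd I → Pt} {w0 w0' : Sd I} (h : Six S pt w0 w0')
include h

theorem isO : S.IsIn (S.lo pt w0) (S.hi pt w0') (S.pO pt w0 w0') := h.base.isIn_pO h.pr

theorem bd : S.bd (S.pB pt w0 w0') = {S.hi pt w0', S.g (S.lo pt w0)} := by
  rw [pB, bd_sdiff, inter_eq_right.2 h.isO.sub, h.isO.bd, image_insert, image_singleton, S.invol,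
    pair_comm]

theorem b_mem : (S.hi pt w0').1 ∈ S.pB pt w0 w0' := by
  have : S.hi pt w0' ∈ S.bd (S.pB pt w0 w0') := by rw [h.bd]; exact mem_insert_self _ _
  exact (mem_bd.1 this).2.1

theorem b'_mem : (S.g (S.lo pt w0)).1 ∈ S.pB pt w0 w0' := by
  have : S.g (S.lo pt w0) ∈ S.bd (S.pB pt w0 w0') := by
    rw [h.bd]; exact mem_insert_of_mem (mem_singleton_self _)
  exact (mem_bd.1 this).2.1

/-- `w0'` is not a-like -/
theorem nA' : ¬ S.VirtA pt w0' := by
  intro hA
  have h1 := h.b_mem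
  rw [hi_of_A hA] at h1
  exact h.d0 w0' h.pr.b' h.pr.eqv h1

/-- `w0` is not a-like -/
theorem nB : ¬ S.VirtB pt w0 := by
  intro hB
  have h1 := h.b'_mem
  rw [lo_of_B hB, g_ccw h.pr.b.glued'] at h1
  exact h.d0 w0 h.pr.b (Eqv.refl _ _) h1

theorem lo_eq : S.lo pt w0 = w0 := lo_of_not_B h.nB
theorem hi_eq : S.hi pt w0' = S.ccw w0' := hi_of_not_A h.nA'
theorem g_hi : S.g (S.hi pt w0') = unrot w0' := by rw [h.hi_eq, g_ccw h.pr.b'.glued']

theorem ps_hi' : S.ps (S.hi pt w0') = S.ps w0' + 1 := by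
  rw [h.hi_eq, ps_ccw h.base.lin h.pr.b'.glued']

theorem eqv : S.Eqv (S.hi pt w0') (rot (S.g (S.lo pt w0))) := by
  have h1 : rot (S.g (S.lo pt w0)) = S.cw (S.lo pt w0) := (cw_of_glued h.pr.b.glued_lo).symm
  rw [h1]
  exact (h.pr.b'.eqv_hi.symm.trans h.pr.eqv.symm).trans (h.pr.b.eqv_lo.trans (S.cw_eqv _))

theorem psl : S.ps (rot (S.g (S.lo pt w0))) < S.ps (S.hi pt w0') := by
  have h1 : rot (S.g (S.lo pt w0)) = S.cw (S.lo pt w0) := (cw_of_glued h.pr.b.glued_lo).symm
  have h2 := ps_of_glued h.base.lin h.pr.b.glued_lo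
  rw [h1, h.ps_hi']
  rw [h.lo_eq] at h2 ⊢
  have := h.pr.lt
  omega

theorem rd : RD S pt (S.pB pt w0 w0') (S.Eqv w0) (S.hi pt w0') (S.g (S.lo pt w0)) where
  base := h.base
  sub := sdiff_subset
  hV _ := ⟨fun hz => (h.pr.b'.eqv_hi.symm.trans h.pr.eqv.symm).trans hz,
    fun hz => (h.pr.eqv.trans h.pr.b'.eqv_hi).trans hz⟩
  bd := h.bd
  eqv := h.eqv
  psl := h.psl
  bl0 := ⟨w0', h.pr.b', h.pr.b'.eqv_hi.symm⟩
  d0 u hu he := h.d0 u hu ((h.pr.eqv.trans h.pr.b'.eqv_hi).trans he)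
  dv := h.dv
  de := h.de
  pAsub := h.pAsub

/-- the triangle outside the region at a stub is the triangle of `w0` or `w0'` -/
theorem out {a : Sd I} (hg : S.g a ≠ a) (h1 : a.1 ∈ S.pB pt w0 w0')
    (h2 : (S.g a).1 ∉ S.pB pt w0 w0') : S.g a = unrot w0' ∨ S.g a = w0 := by
  have h3 : a ∈ S.bd (S.pB pt w0 w0') := mem_bd.2 ⟨hg, h1, h2⟩
  rw [h.bd, mem_insert, mem_singleton] at h3
  rcases h3 with rfl | rfl
  · left; exact h.g_hi
  · right; rw [S.invol, h.lo_eq]

/-- no virtual blade at the corner of the outer triangle opposite to the stub -/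
theorem no_vir_out {a : Sd I} (hg : S.g a ≠ a) (h1 : a.1 ∈ S.pB pt w0 w0')
    (h2 : (S.g a).1 ∉ S.pB pt w0 w0') : ¬ S.Vir pt (unrot (S.g a)) := by
  intro hv
  rcases h.out hg h1 h2 with h3 | h3
  · have h4 := h.base.one _ _ hv.bladeAt h.pr.b' (by rw [h3]; rfl)
    rw [h3, unrot_unrot] at h4
    exact rot_ne _ h4
  · have h4 := h.base.one _ _ hv.bladeAt h.pr.b (by rw [h3]; rfl)
    rw [h3] at h4
    exact unrot_ne _ h4

theorem rhyp : RHyp S pt (S.pB pt w0 w0') where
  sub := sdiff_subset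
  lin := h.base.lin
  b1 _ ha := h.geo.b1 ha
  g1 _ _ ha hb he := h.geo.g1 ha hb he
  sh _ _ h1 h2 h3 h4 := h.geo.sh h1 h2 h3 h4
  three t ht := by
    rcases h.base.types ht with h1 | ⟨c, h1, h2 | h2⟩
    · exact Or.inl h1
    · exact Or.inr (Or.inl ⟨c, h1, h2⟩)
    · exact Or.inr (Or.inr ⟨c, h1, h2⟩)
  s1 := h.s1
  s2 := h.s2
  outP c a b hc hcX hp hab hout hf := by
    by_contra hnf
    have hg : S.g a ≠ a := by
      rcases hab with ⟨rfl, _⟩ | ⟨rfl, _⟩
      · exact hc.1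
      · exact hc.2.1
    have haX : a.1 ∈ S.pB pt w0 w0' := by
      rcases hab with ⟨rfl, _⟩ | ⟨rfl, _⟩
      · exact hcX
      · exact hcX
    exact h.no_vir_out hg haX hout (vir_of_cand (cand_of_pair hc hp hab hf hnf))

theorem op : Op S pt (S.pB pt w0 w0') (S.hi pt w0') (S.g (S.lo pt w0)) where
  geo := h.geo
  H := h.rhyp
  bd := h.bd
  eqv := h.eqv
  psl := h.psl
  nb := by
    rintro ⟨h1, h2⟩
    rw [S.invol] at h2
    have he : S.Eqv (S.hi pt w0') (S.lo pt w0) :=
      (h.pr.b'.eqv_hi.symm.trans h.pr.eqv.symm).trans h.pr.b.eqv_lo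
    have h3 := h.ps_hi'
    have h4 := h.pr.lt
    have h5 := ps_of_glued h.base.lin h1.1
    have h6 := ps_of_glued h.base.lin h2.1
    rw [h.lo_eq] at h6 h2 he
    rcases h.geo.g1 h1 h2 he with h7 | h7 | h7
    · rw [h7] at h3; omega
    · rw [← h7] at h5; omega
    · rw [← h7] at h6; omega
  f1 := h.rd.f1
  f2 := h.rd.f2

end Six

end Pool.Agent.Helper41.AG7
end

/- Helper41.AG7.Alt -/
section
/-!
# AG section 7: alternative (x) in the form `Alt1`, `Alt2` from the angle statements of section 8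
-/

set_option autoImplicit false
set_option linter.unusedSectionVars false
open Finset

namespace Pool.Agent.Helper41.AG7

open _root_.AG _root_.AG.Obj Pool.Agent.Helper29.AG7

variable {I : Type} [DecidableEq I] {S : Obj I} {pt : Sd I → Pt} {w0 w0' : Sd I}

theorem rot_ne_unrot (a : Sd I) : rot a ≠ unrot a := by
  intro h
  have h1 : rot (rot a) = a := by rw [h, rot_unrot]
  rw [rot_rot] at h1
  exact unrot_ne a h1

namespace Six

variable (h : Six S pt w0 w0')
include h

theorem w0_out : w0.1 ∉ S.pB pt w0 w0' := h.d0 w0 h.pr.b (Eqv.refl _ _)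

theorem w0'_out : w0'.1 ∉ S.pB pt w0 w0' := h.d0 w0' h.pr.b' h.pr.eqv

theorem w_ne : w0.1 ≠ w0'.1 := by
  intro e
  have h1 := h.base.one _ _ h.pr.b h.pr.b' e
  have h2 := h.pr.lt
  rw [h1] at h2
  omega

/-- alternative (x) at the stub `b` -/
theorem alt1 (hr : S.VirtB pt w0' → S.IsU pt (unrot w0') → S.Face (S.g (unrot w0')).1 →
      Real.pi ≤ cang pt (S.g (rot w0')) + cang pt (unrot w0') + cang pt (rot (S.g (unrot w0'))))
    (hU : S.IsU pt (S.hi pt w0')) (hnb : ¬ ∃ c, c.1 = (S.g (S.hi pt w0')).1 ∧ S.Blade c) :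
    Alt1 S pt (S.pB pt w0 w0') (S.hi pt w0') := by
  have hgb := h.g_hi
  have hbg : S.g (unrot w0') = S.hi pt w0' := by rw [← hgb, S.invol]
  have hbX := h.b_mem
  have hgl : S.g (S.hi pt w0') ≠ S.hi pt w0' := hU.1
  have hout : (S.g (S.hi pt w0')).1 ∉ S.pB pt w0 w0' := by
    rw [hgb, unrot_fst]; exact h.w0'_out
  have hB : S.VirtB pt w0' := by
    rcases h.pr.b' with h1 | h1 | h1
    · exact absurd ⟨w0', by rw [hgb, unrot_fst], h1⟩ hnb
    · exact absurd h1 h.nA'
    · exact h1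
  have hface : S.Face (S.hi pt w0').1 := by
    rcases h.op.f1 with h1 | h1
    · exact h1
    · exfalso
      have h2 : S.Face (S.g (S.hi pt w0')).1 := h.s1 _ _ h1 (rot_fst _).symm hU
      exact h.no_vir_out hgl hbX hout (vir_of_cand (cand_of_U h1 (rot_fst _).symm hU h2))
  have hU' : S.IsU pt (unrot w0') := by
    rw [← hgb]
    have h1 := AG.Geo.isU_iff.1 hU
    refine AG.Geo.isU_iff.2 ⟨?_, h1.2.2, ?_⟩
    · rw [S.invol]; exact h1.1.symm
    · rw [S.invol]; exact h1.2.1
  have hang := hr hB hU' (by rw [hbg]; exact hface)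
  refine ⟨hface, ?_, ?_, ?_, ?_⟩
  · rw [hgb, unrot_unrot]; exact hB.glued_rot
  · rw [hgb, unrot_unrot]
    intro h1
    have h2 : S.g (rot w0') ∈ S.bd (S.pB pt w0 w0') := by
      refine mem_bd.2 ⟨?_, h1, ?_⟩
      · rw [S.invol]; exact hB.glued_rot.symm
      · rw [S.invol, rot_fst]; exact h.w0'_out
    rw [h.bd, mem_insert, mem_singleton] at h2
    rcases h2 with h2 | h2
    · have h3 : rot w0' = unrot w0' := by rw [← hgb, ← h2, S.invol]
      exact rot_ne_unrot _ h3
    · have h3 : rot w0' = w0 := by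
        have := S.g_injective h2
        rw [this, h.lo_eq]
      exact h.w_ne (by rw [← h3]; rfl)
  · rw [hgb, unrot_unrot]
    have h1 := hB.blade.2.2.1
    rwa [rot_rot] at h1
  · rw [hgb, unrot_unrot]
    rw [hbg] at hang
    linarith

/-- alternative (x) at the stub `b'` -/
theorem alt2 (hl : S.VirtA pt w0 → S.IsU pt w0 → S.Face (S.g w0).1 →
      Real.pi ≤ cang pt (rot (S.g (rot w0))) + cang pt (rot w0) + cang pt (S.g w0))
    (hU : S.IsU pt (S.g (S.lo pt w0))) (hnb : ¬ ∃ c, c.1 = (S.g (S.g (S.lo pt w0))).1 ∧ S.Blade c) :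
    Alt2 S pt (S.pB pt w0 w0') (S.g (S.lo pt w0)) := by
  have hlo := h.lo_eq
  have hbX := h.b'_mem
  rw [S.invol] at hnb
  rw [hlo] at hU hnb hbX ⊢
  have hgl : S.g (S.g w0) ≠ S.g w0 := hU.1
  have hout : (S.g (S.g w0)).1 ∉ S.pB pt w0 w0' := by
    rw [S.invol]; exact h.w0_out
  have hA : S.VirtA pt w0 := by
    rcases h.pr.b with h1 | h1 | h1
    · exact absurd ⟨w0, rfl, h1⟩ hnb
    · exact h1
    · exact absurd h1 h.nB
  have hface : S.Face (S.g w0).1 := by
    have hf := h.op.f2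
    rw [hlo] at hf
    rcases hf with h1 | h1
    · exact h1
    · exfalso
      have h2 : S.Face (S.g (S.g w0)).1 := h.s1 _ _ h1 rfl hU
      exact h.no_vir_out hgl hbX hout (vir_of_cand (cand_of_U h1 rfl hU h2))
  have hU' : S.IsU pt w0 := by
    have h1 := AG.Geo.isU_iff.1 hU
    refine AG.Geo.isU_iff.2 ⟨?_, ?_, h1.2.1⟩
    · have := h1.1; rw [S.invol] at this; exact this.symm
    · have := h1.2.2; rwa [S.invol] at this
  have hang := hl hA hU' hface
  refine ⟨hface, ?_, ?_, ?_, ?_⟩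
  · rw [S.invol]; exact hA.glued_rot
  · rw [S.invol]
    intro h1
    have h2 : S.g (rot w0) ∈ S.bd (S.pB pt w0 w0') := by
      refine mem_bd.2 ⟨?_, h1, ?_⟩
      · rw [S.invol]; exact hA.glued_rot.symm
      · rw [S.invol, rot_fst]; exact h.w0_out
    rw [h.bd, mem_insert, mem_singleton] at h2
    rcases h2 with h2 | h2
    · have h3 : rot w0 = unrot w0' := by rw [← h.g_hi, ← h2, S.invol]
      have h4 : (rot w0).1 = w0'.1 := by rw [h3]; rfl
      exact h.w_ne h4
    · have h3 : rot w0 = w0 := by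
        have := S.g_injective h2
        rw [this, h.lo_eq]
      exact rot_ne w0 h3
  · rw [S.invol]; exact hA.blade.2.2.1
  · rw [S.invol]
    linarith

end Six

end Pool.Agent.Helper41.AG7
end

/- Helper41.AG7.CandLe -/
section
/-!
# AG section 7: `CU + CP ≤ Cand_R`
-/

set_option autoImplicit false
set_option linter.unusedSectionVars false
open Finset

namespace Pool.Agent.Helper41.AG7

open _root_.AG _root_.AG.Obj Pool.Agent.Helper29.AG7

variable {I : Type} [DecidableEq I] {S : Obj I} {pt : Sd I → Pt} {X : Finset I} {V : Sd I → Prop}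

theorem isU_of_none {a : Sd I} (hg : S.g a ≠ a) (h : bl S X (S.Blk pt) (dg S a) = none) :
    S.IsU pt a := by
  have h1 := bl_none.1 h
  exact AG.Geo.isU_iff.2 ⟨hg, h1.1, h1.2⟩

theorem isU_g {a : Sd I} (h : S.IsU pt a) : S.IsU pt (S.g a) := by
  have h1 := AG.Geo.isU_iff.1 h
  refine AG.Geo.isU_iff.2 ⟨?_, h1.2.2, ?_⟩
  · rw [S.invol]; exact h1.1.symm
  · rw [S.invol]; exact h1.2.1

theorem mem_candK {w : Sd I} (h : S.Vir pt w) (h1 : w.1 ∈ X) (h2 : ¬ V w) :
    w ∈ S.CandK pt X V := by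
  classical
  rw [CandK, mem_filter, mem_sides]
  exact ⟨h.bladeAt.memF, h, h1, h2⟩

/-- `hV`: a blade at `V` has its triangle outside the region; `hout`: no virtual blade in the triangle outside a
stub, at the corner opposite to the stub -/
theorem cand_le (H : RHyp S pt X) (hV : ∀ u, S.BladeAt pt u → V u → u.1 ∉ X)
    (hout : ∀ a, S.g a ≠ a → a.1 ∈ X → (S.g a).1 ∉ X → ¬ S.Vir pt (unrot (S.g a))) :
    H.reg.CU.card + H.reg.CP.card ≤ (S.CandK pt X V).card := by
  classical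
  have hmem : ∀ {a : Sd I}, S.g a ≠ a → S.Cand pt a → a.1 ∈ X ∨ (S.g a).1 ∈ X →
      unrot (S.g a) ∈ S.CandK pt X V := by
    intro a hg hc hX
    have hv := vir_of_cand hc
    have h1 : (unrot (S.g a)).1 ∈ X := by
      rw [unrot_fst]
      by_contra h1
      exact hout a hg (hX.resolve_right h1) h1 hv
    exact mem_candK hv h1 (fun h2 => hV _ hv.bladeAt h2 h1)
  have key1 : H.reg.CU ⊆ ((S.CandK pt X V).filter (fun w => S.IsU pt (rot w))).image
      (fun w => dg S (rot w)) := by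
    intro d hd
    rw [Reg.CU, mem_filter] at hd
    obtain ⟨hD, hn, hd⟩ := hd
    rw [mem_image]
    -- the side of the blade
    have hex : ∃ c a, S.Blade c ∧ a.1 = c.1 ∧ S.g a ≠ a ∧ dg S a = d ∧
        (a.1 ∈ X ∨ (S.g a).1 ∈ X) := by
      rcases hd with ⟨t, ht, hdt⟩ | ⟨_, hdo⟩
      · obtain ⟨htX, c, hc1, hc2⟩ := mem_blades.1 (show t ∈ blades S X from ht)
        obtain ⟨a, ha1, ha2, ha3⟩ := mem_inc.1 (show d ∈ inc S t from hdt)
        exact ⟨c, a, hc2, by rw [ha1, hc1], ha2, ha3.symm, Or.inl (by rw [ha1]; exact htX)⟩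
      · obtain ⟨a, h1, h2, h3, h4, c, hc1, hc2⟩ := (show outB S X d from hdo)
        exact ⟨c, S.g a, hc2, hc1.symm, by rw [S.invol]; exact h3.symm, by rw [dg_g, h4],
          Or.inr (by rw [S.invol]; exact h1)⟩
    obtain ⟨c, a, hc, hac, hg, had, hX⟩ := hex
    have hU : S.IsU pt a := isU_of_none (X := X) hg (by rw [had]; exact hn)
    have hf := H.s1 c a hc hac hU
    refine ⟨unrot (S.g a), mem_filter.2 ⟨hmem hg (cand_of_U hc hac hU hf) hX, ?_⟩, ?_⟩
    · rw [rot_unrot]; exact isU_g hU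
    · rw [rot_unrot, dg_g, had]
  have key2 : H.reg.CP ⊆ ((S.CandK pt X V).filter (fun w => ¬ S.IsU pt (rot w))).image
      (fun w => (S.g (rot w)).1) := by
    intro t ht
    have ht' : t ∈ CPs S pt X := ht
    rw [CPs, mem_filter] at ht'
    obtain ⟨htb, c, a, b, hct, hc, hp, hab, hf, hfX, hnf⟩ := ht'
    have hg : S.g a ≠ a := by
      rcases hab with ⟨rfl, _⟩ | ⟨rfl, _⟩
      · exact hc.1
      · exact hc.2.1
    have hat : a.1 = t := by
      rcases hab with ⟨rfl, _⟩ | ⟨rfl, _⟩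
      · exact hct
      · rw [unrot_fst]; exact hct
    rw [mem_image]
    refine ⟨unrot (S.g a), mem_filter.2 ⟨hmem hg (cand_of_pair hc hp hab hf hnf) (Or.inr hfX), ?_⟩, ?_⟩
    · rw [rot_unrot]
      intro hU
      have hU' := isU_g hU
      rw [S.invol] at hU'
      have hU2 := AG.Geo.isU_iff.1 hU'
      rcases hab with ⟨rfl, _⟩ | ⟨rfl, _⟩
      · exact hU2.2.1 hp.1
      · exact hU2.2.2 hp.2
    · rw [rot_unrot, S.invol, hat]
  have h1 := (card_le_card key1).trans card_image_le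
  have h2 := (card_le_card key2).trans card_image_le
  have h3 := card_filter_add_card_filter_not (s := S.CandK pt X V) (fun w => S.IsU pt (rot w))
  omega

end Pool.Agent.Helper41.AG7
end
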