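import Pool.Agent.Helper16.VGG.G08
import Pool.Agent.Helper16.VGG.G14
import Pool.Agent.Helper16.VGG.G16
import Pool.Agent.Helper16.VGG.G17
import Pool.Agent.Helper16.VGG.G18
import Pool.Agent.Helper16.VGG.G19
import Pool.Agent.Helper16.VGG.G20

/- AG.S8.S84 -/
section
/-!
# Project AG, section 8: 8.7, 8.8   (helper86)
-/

set_option linter.unusedSectionVars false

namespace AG

open Finset

variable {I : Type} [DecidableEq I]

namespace Obj

/-- the situation of 8.7, 8.8: `u` is the nearest blade at `w`, `A` the set `A1` -/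
structure N8 (S : Obj I) (pt : Sd I → Pt) (R : Set Pt) (a w' u : Sd I) (A : Finset I) : Prop where
  U : S.U8 pt R a w'
  hu : S.BladeAt pt u
  he : S.Eqv (unrot (S.g a)) u
  hmax : ∀ v, S.BladeAt pt v → S.Eqv (unrot (S.g a)) v → S.ps v ≤ S.ps u
  iA : S.IsIn (S.hi pt u) (unrot (S.g a)) A
  sub : A ⊆ S.pB pt a w'
  nb : (S.g a).1 ∉ A

namespace N8

variable {S : Obj I} {pt : Sd I → Pt} {R : Set Pt} {a w' u : Sd I} {A : Finset I}
  (N : S.N8 pt R a w' u A)
include N

theorem base : Base S pt := N.U.base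

theorem he' : S.Eqv (S.hi pt u) (unrot (S.g a)) := N.iA.eqv

/-- 8.7 -/
theorem not_sub {q : Sd I × Sd I} (hq : q ∈ S.CP pt (S.pB pt a w') (S.Eqv a)) :
    ¬ A ⊆ S.pA pt q.1 q.2 := by
  intro hs
  have hB := N.base
  have hl := hB.lin
  obtain ⟨cq, m1, m2, hv⟩ := mem_CP.1 hq
  have hp := cq.toPr
  have hlt := N.U.below N.hu N.he
  have h1 : S.g (unrot (S.g a)) ∈ S.bd (S.pA pt q.1 q.2) := by
    refine mem_bd.2 ⟨g_ne_iff.2 N.U.c8.gW, hs (mem_bd.1 N.iA.mem_right).2.1, ?_⟩
    rw [S.invol]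
    exact N.U.b_not_mem hq
  rw [(hB.isIn_pA hp).bd, mem_insert, mem_singleton] at h1
  rcases h1 with h1 | h1
  · by_cases hA : S.VirtA pt q.1
    · rw [hi_of_A hA] at h1
      -- the fan of `w` below `W` is `rot q.1`, `rot (g (rot q.1))`
      have g1 : S.g (rot q.1) ≠ rot q.1 := hA.glued_rot
      have g2 : S.g (rot (S.g (rot q.1))) = rot (S.g (rot q.1)) := hA.blade.2.2.1
      have c1 : S.cw (unrot (S.g a)) = rot q.1 := by
        rw [cw_of_glued N.U.c8.gW, h1]
      have c2 : S.cw (rot q.1) = rot (S.g (rot q.1)) := cw_of_glued g1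
      have p1 := ps_of_glued hl N.U.c8.gW
      have p2 := ps_of_glued hl g1
      have p3 := ps_of_unglued g2
      rw [c1] at p1
      rw [c2, p3] at p2
      have e1 : S.Eqv (unrot (S.g a)) (rot q.1) := by
        have := S.cw_eqv (unrot (S.g a)); rwa [c1] at this
      have gu : 0 < S.ps u := (ps_pos_iff hl).2 N.hu.glued
      have e2 : u = rot q.1 := ps_inj hl (N.he.symm.trans e1) (by omega)
      have e3 := hB.one u q.1 N.hu hp.b (by rw [e2]; rfl)
      rw [e3] at e2
      exact rot_ne _ e2.symm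
    · rw [hi_of_not_A hA] at h1
      have h2 : unrot (S.g a) = unrot q.1 := by
        rw [← S.invol (unrot (S.g a)), h1, g_ccw hp.b.glued']
      have h3 : q.1 = S.g a := by rw [← rot_unrot q.1, ← h2, rot_unrot]
      exact N.U.not_bladeAt_b (by rw [← h3]; exact hp.b)
  · have h2 : unrot (S.g a) = S.lo pt q.2 := S.g_injective h1
    by_cases hVB : S.VirtB pt q.2
    · rw [lo_of_B hVB] at h2
      have p1 := ps_ccw hl hp.b'.glued'
      have e1 : S.Eqv q.2 (S.ccw q.2) := ccw_eqv hp.b'.glued'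
      rw [← h2] at p1 e1
      have k1 := N.hmax q.2 hp.b' e1.symm
      have k2 : u = q.2 := ps_inj hl (N.he.symm.trans e1.symm) (by omega)
      have k3 := N.iA.lt
      rw [k2, hi_of_not_A hVB.not_A, ← h2] at k3
      exact lt_irrefl _ k3
    · rw [lo_of_not_B hVB] at h2
      exact N.U.c8.not_bladeAt_W (by rw [h2]; exact hp.b')

theorem union_ne {B : Finset I} (h : B ⊆ S.pB pt a w') : B ∪ A ≠ S.F := by
  intro e
  have : a.1 ∈ B ∪ A := by rw [e]; exact N.U.vA.face.1
  exact N.U.a_not_mem ((union_subset h N.sub) this)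

/-- `u` is not a-like for `A` -/
theorem not_A : ¬ S.VirtA pt u := by
  intro hA
  have hB := N.base
  have hm : u.1 ∈ A := by
    have := (mem_bd.1 N.iA.mem_left).2.1
    rwa [hi_of_A hA] at this
  obtain ⟨q, hq, hmq⟩ := N.U.vir_in_kid (Or.inl hA) (N.sub hm)
  obtain ⟨cq, m1, m2, hv⟩ := mem_CP.1 hq
  have hp := cq.toPr
  by_cases hvq : S.Eqv (unrot (S.g a)) q.1
  · rcases hB.blade_in_pA cq N.hu (hvq.symm.trans N.he) hmq with h1 | h1
    · have := N.hmax q.2 hp.b' (hvq.trans hp.eqv)
      have := hp.lt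
      rw [← h1.1] at this
      omega
    · rw [← h1.1] at h1
      exact hA.not_B h1.2
  · have hne : ¬ S.Eqv (S.hi pt q.1) (S.hi pt u) := fun h =>
      hvq ((hp.b.eqv_hi.trans h).trans N.he').symm
    rcases hB.laminar (hB.isIn_pA hp) N.iA hne (N.union_ne (N.U.env.subA q hq)) with h | h | h
    · exact (disjoint_left.1 h) hmq hm
    · exact hB.fan N.iA (hB.isIn_pA hp) (fun h => hne h.symm) h (N.he'.trans N.he) hm hmq
    · exact N.not_sub hq h

theorem hi_eq : S.hi pt u = S.ccw u := hi_of_not_A N.not_A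

theorem ccw_mem : (S.ccw u).1 ∈ A := by
  have := (mem_bd.1 N.iA.mem_left).2.1
  rwa [N.hi_eq] at this

/-- no blade of the visit in `A` -/
theorem hno {v : Sd I} (hv : S.BladeAt pt v) (h : S.Eqv (S.hi pt u) v) : v.1 ∉ A := by
  have hB := N.base
  rw [N.iA.mem_iff hB.lin hB.loopless h]
  have h1 := N.hmax v hv (N.he'.symm.trans h)
  have h2 := ps_ccw hB.lin N.hu.glued'
  rw [N.hi_eq]
  omega

/-- the corners at `x` below `g W` -/
theorem xvis {d : Sd I} (hd : S.Eqv (S.g (unrot (S.g a))) d)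
    (hlt : S.ps d < S.ps (S.g (unrot (S.g a)))) :
    d = S.g a ∨ d = rot a ∨ d = rot (S.g (rot a)) := by
  have hl := N.base.lin
  have g0 : S.g (S.g (unrot (S.g a))) ≠ S.g (unrot (S.g a)) := g_ne_iff.2 N.U.c8.gW
  have g1 : S.g (S.g a) ≠ S.g a := g_ne_iff.2 N.U.u.glued
  have g2 : S.g (rot a) ≠ rot a := N.U.vA.glued_rot
  have g3 : S.g (rot (S.g (rot a))) = rot (S.g (rot a)) := N.U.vA.blade.2.2.1
  have c0 : S.cw (S.g (unrot (S.g a))) = S.g a := by
    rw [cw_of_glued g0, S.invol, rot_unrot]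
  have c1 : S.cw (S.g a) = rot a := by rw [cw_of_glued g1, S.invol]
  have c2 : S.cw (rot a) = rot (S.g (rot a)) := cw_of_glued g2
  have p0 := ps_of_glued hl g0
  have p1 := ps_of_glued hl g1
  have p2 := ps_of_glued hl g2
  have p3 := ps_of_unglued g3
  have e0 := S.cw_eqv (S.g (unrot (S.g a)))
  have e1 := S.cw_eqv (S.g a)
  have e2 := S.cw_eqv (rot a)
  rw [c0] at p0 e0
  rw [c1] at p1 e1
  rw [c2] at p2 e2
  have hcase : S.ps d = 2 ∨ S.ps d = 1 ∨ S.ps d = 0 := by omega
  rcases hcase with h | h | h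
  · left
    exact ps_inj hl (hd.symm.trans e0) (by omega)
  · right; left
    exact ps_inj hl ((hd.symm.trans e0).trans e1) (by omega)
  · right; right
    exact ps_inj hl (((hd.symm.trans e0).trans e1).trans e2) (by omega)

/-- the corners outside `A` at a visit different from `w` which meets `A` -/
theorem outA {z d : Sd I} (hz : z.1 ∈ A) (hzd : S.Eqv z d) (hd : d.1 ∉ A)
    (hne : ¬ S.Eqv (S.hi pt u) z) :
    (d = S.g a ∨ d = rot a ∨ d = rot (S.g (rot a))) ∨
      ((S.Blade u ∧ d = unrot u) ∨ (S.VirtB pt u ∧ (d = unrot u ∨ d = S.g (rot u)))) := by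
  have hB := N.base
  rcases N.iA.reg2.outside hB hne hz hzd hd with ⟨h1, h2⟩ | ⟨h1, h2⟩
  · left
    exact N.xvis (h1.symm.trans hzd) h2
  · right
    rcases hB.out_lower N.hu N.iA.reg2 (h1.symm.trans hzd) hd with h3 | h3 | h3
    · exact Or.inl h3
    · exact Or.inr h3
    · exact absurd h3.1 N.not_A

/-- `t` is not in the region -/
theorem t_not_mem : (S.g (rot a)).1 ∉ S.pB pt a w' := by
  intro h
  have g2 : S.g (rot a) ≠ rot a := N.U.vA.glued_rot
  have h1 : S.g (rot a) ∈ S.bd (S.pB pt a w') :=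
    mem_bd.2 ⟨g_ne_iff.2 g2, h, by rw [S.invol]; exact N.U.a_not_mem⟩
  rw [N.U.bd_pB, mem_insert, mem_singleton] at h1
  rcases h1 with h1 | h1
  · exact N.U.c8.off_t.2 (by rw [h1])
  · have v2 : S.Eqv a (S.hi pt w') := (N.U.om.pr.eqv).trans N.U.om.pr.b'.eqv_hi
    have v3 := Eqv.of_glued' g2
    rw [rot_rot, h1] at v3
    exact N.U.tri_ne (c := a) (d := unrot a) N.U.vA.face.1 rfl (unrot_ne a).symm
      (v2.trans v3.symm)

theorem hzA {z : Sd I} (hne : ¬ S.Eqv (S.hi pt u) z) (hm : S.Meets A z)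
    (hnb : ∀ w, S.BladeAt pt w → w.1 ∈ A → ¬ S.Eqv w z) : S.NoB pt z := by
  intro w hw hwz
  obtain ⟨z1, e1, m1⟩ := hm
  have hwA : w.1 ∉ A := fun h => hnb w hw h hwz
  have hne1 : ¬ S.Eqv (S.hi pt u) z1 := fun h => hne (h.trans e1)
  rcases N.outA m1 (e1.trans hwz.symm) hwA hne1 with (h | h | h) | (⟨h0, h⟩ | ⟨h0, h | h⟩)
  · exact N.U.not_bladeAt_b (by rw [← h]; exact hw)
  · have := N.base.one w a hw (Or.inr (Or.inl N.U.vA)) (by rw [h]; rfl)
    rw [this] at h
    exact rot_ne a h.symm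
  · exact hw.glued (by rw [h]; exact N.U.vA.blade.2.2.1)
  · have := N.base.one w u hw N.hu (by rw [h]; rfl)
    rw [this] at h
    exact unrot_ne u h.symm
  · have := N.base.one w u hw N.hu (by rw [h]; rfl)
    rw [this] at h
    exact unrot_ne u h.symm
  · apply hw.glued'
    have := h0.blade.2.2.1
    rw [rot_rot] at this
    rw [h]; exact this

theorem hear {e : Sd I} (hE : S.Eared e) (heA : e.1 ∉ A) {z : Sd I} (hz : S.EndOf e z) :
    ¬ S.Meets A z := by
  rintro ⟨z1, e1, m1⟩
  have hend : S.EarEnd z := by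
    refine ⟨rot e, hE.2.2, ?_⟩
    rcases hz with h | h
    · exact Or.inl h
    · exact Or.inr (by rw [rot_rot]; exact h)
  have hne1 : ¬ S.Eqv (S.hi pt u) z1 := fun h =>
    N.base.earEnd z u hend N.hu ((h.trans e1).symm.trans (N.he'.trans N.he))
  have key : ∀ d : Sd I, d.1 = e.1 → S.Eqv d z → False := by
    intro d hd hdz
    rcases N.outA m1 (e1.trans hdz.symm) (by rw [hd]; exact heA) hne1 with
      (h | h | h) | (⟨h0, h⟩ | ⟨h0, h | h⟩)
    · exact hE.not_face (by rw [← hd, h]; exact N.U.fb)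
    · exact hE.not_face (by rw [← hd, h]; exact N.U.vA.face)
    · exact N.U.vA.blade.not_eared hE (by rw [← hd, h]; rfl)
    · exact h0.not_eared hE (by rw [← hd, h]; rfl)
    · exact hE.not_face (by rw [← hd, h]; exact h0.face)
    · exact h0.blade.not_eared hE (by rw [← hd, h]; rfl)
  rcases hz with h | h
  · exact key (rot e) rfl h
  · exact key (unrot e) rfl h

theorem hdich {q : Sd I × Sd I} (hq : q ∈ S.CP pt (S.pB pt a w') (S.Eqv a)) :
    Disjoint (S.pA pt q.1 q.2) A ∨
      (S.pA pt q.1 q.2 ⊆ A ∧ q ∈ S.CP pt A (S.Eqv (S.hi pt u))) := by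
  have hB := N.base
  have hl := hB.lin
  obtain ⟨cq, m1, m2, hv⟩ := mem_CP.1 hq
  have hp := cq.toPr
  have iq := hB.isIn_pA hp
  by_cases hvq : S.Eqv (unrot (S.g a)) q.1
  · left
    have e2 : S.Eqv (unrot (S.g a)) q.2 := hvq.trans hp.eqv
    have h1 := N.hmax q.2 hp.b' e2
    have h3 : S.ps (S.lo pt q.2) ≤ S.ps (S.hi pt u) := by
      rcases Nat.lt_or_ge (S.ps q.2) (S.ps u) with h4 | h4
      · have h5 := hB.int ⟨hp.b', N.hu, e2.symm.trans N.he, h4⟩
        have h6 := hp.b'.ps_lo_le_hi hl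
        have h7 := N.hu.ps_lo_le_hi hl
        omega
      · have h5 : q.2 = u := ps_inj hl (e2.symm.trans N.he) (by omega)
        rw [h5]
        exact N.hu.ps_lo_le_hi hl
    exact iq.disjoint hB.conn hl hB.loopless N.iA
      ((hp.b.eqv_hi.symm.trans hvq.symm).trans N.he'.symm) h3
  · have hne : ¬ S.Eqv (S.hi pt q.1) (S.hi pt u) := fun h =>
      hvq ((hp.b.eqv_hi.trans h).trans N.he').symm
    rcases hB.laminar iq N.iA hne (N.union_ne (N.U.env.subA q hq)) with h | h | h
    · exact Or.inl h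
    · right
      refine ⟨h, mem_CP.2 ⟨cq, ?_, ?_, fun h1 => hvq (N.he'.symm.trans h1)⟩⟩
      · by_contra hcon
        have hA : ¬ S.VirtA pt q.1 := fun hA => hcon (h ((hB.mem_pA_left hp).2 hA))
        have k1 := (mem_bd.1 iq.mem_left).2.1
        rw [hi_of_not_A hA] at k1
        have k2 : S.ccw q.1 ∈ S.bd A :=
          mem_bd.2 ⟨ccw_glued hp.b.glued', h k1, by rw [g_ccw hp.b.glued']; exact hcon⟩
        rw [N.iA.bd, mem_insert, mem_singleton] at k2
        rcases k2 with k2 | k2
        · exact hne (by rw [← k2, hi_of_not_A hA]; exact Eqv.refl _ _)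
        · have h2 : unrot (S.g a) = unrot q.1 := by
            rw [← S.invol (unrot (S.g a)), ← k2, g_ccw hp.b.glued']
          have h3 : q.1 = S.g a := by rw [← rot_unrot q.1, ← h2, rot_unrot]
          exact N.U.not_bladeAt_b (by rw [← h3]; exact hp.b)
      · by_contra hcon
        have hVB : ¬ S.VirtB pt q.2 := fun hA => hcon (h ((hB.mem_pA_right hp).2 hA))
        have k1 := (mem_bd.1 iq.mem_right).2.1
        rw [lo_of_not_B hVB] at k1
        have k2 : S.g q.2 ∈ S.bd A :=
          mem_bd.2 ⟨g_ne_iff.2 hp.b'.glued, h k1, by rw [S.invol]; exact hcon⟩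
        rw [N.iA.bd, mem_insert, mem_singleton] at k2
        rcases k2 with k2 | k2
        · rw [N.hi_eq] at k2
          have h2 : q.2 = unrot u := by
            rw [← S.invol q.2, k2, g_ccw N.hu.glued']
          have h3 := hB.one q.2 u hp.b' N.hu (by rw [h2]; rfl)
          rw [h3] at h2
          exact unrot_ne u h2.symm
        · have h2 : q.2 = unrot (S.g a) := S.g_injective k2
          exact N.U.c8.not_bladeAt_W (by rw [← h2]; exact hp.b')
    · exact absurd h (N.not_sub hq)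

theorem mem_CP_X {q : Sd I × Sd I} (hq : q ∈ S.CP pt A (S.Eqv (S.hi pt u))) :
    q ∈ S.CP pt (S.pB pt a w') (S.Eqv a) := by
  obtain ⟨cq, m1, m2, hv⟩ := mem_CP.1 hq
  exact mem_CP.2 ⟨cq, N.sub m1, N.sub m2, fun h => N.U.vr _ cq.toPr.b h (N.sub m1)⟩

theorem hin {q : Sd I × Sd I} (hq : q ∈ S.CP pt A (S.Eqv (S.hi pt u))) :
    S.pA pt q.1 q.2 ⊆ A := by
  have hB := N.base
  obtain ⟨cq, m1, m2, hv⟩ := mem_CP.1 hq
  have hp := cq.toPr
  have iq := hB.isIn_pA hp
  rcases N.hdich (N.mem_CP_X hq) with h | h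
  · exfalso
    have n1 : q.1.1 ∉ S.pA pt q.1 q.2 := fun h1 => (disjoint_left.1 h) h1 m1
    have n2 : q.2.1 ∉ S.pA pt q.1 q.2 := fun h1 => (disjoint_left.1 h) h1 m2
    have hA : ¬ S.VirtA pt q.1 := fun hA => n1 ((hB.mem_pA_left hp).2 hA)
    have hVB : ¬ S.VirtB pt q.2 := fun hA => n2 ((hB.mem_pA_right hp).2 hA)
    have k1 := (mem_bd.1 iq.mem_left).2.1
    rw [hi_of_not_A hA] at k1
    have k2 : unrot q.1 ∈ S.bd A := by
      refine mem_bd.2 ⟨hp.b.glued', m1, ?_⟩
      rw [← ccw_of_glued hp.b.glued']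
      exact fun h1 => (disjoint_left.1 h) k1 h1
    have k3 := (mem_bd.1 iq.mem_right).2.1
    rw [lo_of_not_B hVB] at k3
    have k4 : q.2 ∈ S.bd A := mem_bd.2 ⟨hp.b'.glued, m2, fun h1 => (disjoint_left.1 h) k3 h1⟩
    rw [N.iA.bd, mem_insert, mem_singleton] at k2 k4
    rcases k4 with k4 | k4
    · exact hv (by rw [← k4]; exact hp.eqv.symm)
    · rcases k2 with k2 | k2
      · -- both boundary edges have the same second end
        apply N.iA.reg2.not_both hB
        have e1 : S.Eqv q.1 (S.g (S.hi pt u)) := by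
          rw [← k2, ← ccw_of_glued hp.b.glued']
          exact ccw_eqv hp.b.glued'
        rw [← k4]
        exact hp.eqv.symm.trans e1
      · apply hv
        have e1 : S.Eqv q.1 (S.ccw q.1) := ccw_eqv hp.b.glued'
        rw [ccw_of_glued hp.b.glued', k2, S.invol] at e1
        exact N.he'.trans e1.symm
  · exact h.1

/-- the triangle of `u` in a set disjoint from `A` -/
theorem hzB_aux {q : Sd I × Sd I} (hq : q ∈ S.CP pt (S.pB pt a w') (S.Eqv a))
    (hd : Disjoint (S.pA pt q.1 q.2) A) (hm : u.1 ∈ S.pA pt q.1 q.2) {z : Sd I}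
    (hz : S.NoB pt z) (huz : S.Eqv (unrot u) z) : S.BLg pt (S.pA pt q.1 q.2) q.1 z := by
  have hB := N.base
  obtain ⟨cq, m1, m2, hv⟩ := mem_CP.1 hq
  have hp := cq.toPr
  have iq := hB.isIn_pA hp
  have k1 : unrot u ∈ S.bd (S.pA pt q.1 q.2) := by
    refine mem_bd.2 ⟨N.hu.glued', hm, ?_⟩
    rw [← ccw_of_glued N.hu.glued']
    exact fun h1 => (disjoint_left.1 hd) h1 N.ccw_mem
  rw [iq.bd, mem_insert, mem_singleton] at k1
  rcases k1 with k1 | k1
  · exfalso
    apply hz q.1 hp.b
    have := hp.b.eqv_hi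
    rw [← k1] at this
    exact this.trans huz
  · have k2 : S.lo pt q.2 = S.ccw u := by
      rw [ccw_of_glued N.hu.glued', k1, S.invol]
    have e1 : S.Eqv q.1 u := by
      have h1 := hp.b'.eqv_lo
      rw [k2] at h1
      exact (hp.eqv.trans h1).trans (ccw_eqv N.hu.glued').symm
    rcases hB.blade_in_pA cq N.hu e1 hm with h1 | h1
    · rw [← h1.1] at h1
      exact absurd h1.2 N.not_A
    · rw [← h1.1] at h1
      refine ⟨u, Or.inr h1.2, e1.symm, hm, ?_⟩
      rw [xc_of_not_A N.not_A]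
      exact huz

theorem hzB {q : Sd I × Sd I} (hq : q ∈ S.CP pt (S.pB pt a w') (S.Eqv a))
    (hd : Disjoint (S.pA pt q.1 q.2) A) {z : Sd I} (hz : S.NoB pt z)
    (h1 : S.Meets (S.pA pt q.1 q.2) z) (h2 : S.Meets A z) :
    S.BLg pt (S.pA pt q.1 q.2) q.1 z := by
  have hB := N.base
  obtain ⟨cq, m1, m2, hv⟩ := mem_CP.1 hq
  have hp := cq.toPr
  have iq := hB.isIn_pA hp
  obtain ⟨z1, e1, n1⟩ := h2
  obtain ⟨z2, e2, n2⟩ := h1
  have hne : ¬ S.Eqv (S.hi pt u) z1 := fun h =>
    hz u N.hu ((N.hu.eqv_hi.trans h).trans e1)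
  have hz2 : z2.1 ∉ A := fun h => (disjoint_left.1 hd) n2 h
  have hsub := N.U.env.subA q hq
  rcases N.outA n1 (e1.trans e2.symm) hz2 hne with (h | h | h) | (⟨h0, h⟩ | ⟨h0, h | h⟩)
  · exact absurd (by rw [h] at n2; exact n2) (N.U.b_not_mem hq)
  · exact absurd (hsub (by rw [h] at n2; exact n2)) N.U.a_not_mem
  · exact absurd (hsub (by rw [h] at n2; exact n2)) N.t_not_mem
  · rw [h] at n2 e2
    exact N.hzB_aux hq hd n2 hz e2
  · rw [h] at n2 e2
    exact N.hzB_aux hq hd n2 hz e2
  · by_cases hm : u.1 ∈ S.pA pt q.1 q.2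
    · refine N.hzB_aux hq hd hm hz ?_
      have h3 := Eqv.of_glued' h0.glued_rot
      rw [rot_rot, ← h] at h3
      exact h3.trans e2
    · exfalso
      rw [h] at n2 e2
      have k1 : S.g (rot u) ∈ S.bd (S.pA pt q.1 q.2) :=
        mem_bd.2 ⟨g_ne_iff.2 h0.glued_rot, n2, by rw [S.invol]; exact hm⟩
      rw [iq.bd, mem_insert, mem_singleton] at k1
      rcases k1 with k1 | k1
      · apply hz q.1 hp.b
        have := hp.b.eqv_hi
        rw [← k1] at this
        exact this.trans e2
      · have k2 : S.lo pt q.2 = rot u := by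
          rw [← S.invol (rot u), k1, S.invol]
        have e3 : S.Eqv q.1 (rot (S.g (rot u))) := by
          have h4 := hp.b'.eqv_lo
          rw [k2] at h4
          exact (hp.eqv.trans h4).trans (Eqv.of_glued h0.glued_rot)
        rcases hB.blade_in_pA cq (Or.inl h0.blade) e3 n2 with h5 | h5
        · rw [← h5.1] at h5
          exact h0.blade.not_A h5.2
        · rw [← h5.1] at h5
          exact h0.blade.not_B h5.2

theorem false : False := by
  refine N.U.env.no_extra N.U.vr N.iA N.sub ?_ (fun v hv h => N.hno hv h)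
    (fun q hq => N.hdich hq) (fun q hq => N.hin hq) (fun z h1 h2 h3 => N.hzA h1 h2 h3)
    (fun q hq h1 z h2 h3 h4 => N.hzB hq h1 h2 h3 h4) (fun e h1 _ h3 z h4 => N.hear h1 h3 h4)
  exact fun h => N.U.w_ne_v (h.trans N.he').symm

end N8

theorem U8.false {S : Obj I} {pt : Sd I → Pt} {R : Set Pt} {a w' : Sd I}
    (U : S.U8 pt R a w') : False := by
  obtain ⟨u, hu, he, hmax⟩ := U.exists_nearest
  obtain ⟨A, iA, hs, hn⟩ := U.exists_A1 hu he
  exact N8.false ⟨U, hu, he, hmax, iA, hs, hn⟩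

end Obj

end AG
end

/- Helper29.AG7.BillB2 -/
section
/-!
# AG section 7: torsos, the bills (b)

`tor p` = `A_p` without the sets `A_q` of the consecutive pairs `q` in `A_p` (trivial pairs included);
`X0` = consecutive pairs of the region whose torso contains no eared triangle.
-/

set_option autoImplicit false
set_option linter.unusedSectionVars false
open Finset

namespace Pool.Agent.Helper29.AG7

open _root_.AG _root_.AG.Obj

variable {I : Type} [DecidableEq I] {S : Obj I} {pt : Sd I → Pt} {X : Finset I}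

/-! ### crossing the boundary of `A_p` away from its visit -/

/-- leaving `A_p` at another visit -/
theorem cross_pA (hB : Base S pt) (hG : S.Geo pt) {w w' x y : Sd I} (h : S.Pr pt w w')
    (hz : ¬ S.Eqv w x) (hnb : Nb S x y) (hx : x.1 ∈ S.pA pt w w') (hy : y.1 ∉ S.pA pt w w') :
    D1 S x y ∨ D2 S pt x y ∨ D2 S pt y x := by
  have hA := hB.isIn_pA h
  have hbd := hA.bd
  rcases hnb with hs | hs
  · -- clockwise: `x` is the partner of `lo w'`
    have h1 : x ∈ S.bd (S.pA pt w w') := by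
      rw [mem_bd]
      refine ⟨hs.1, hx, ?_⟩
      have := hy
      rw [hs.2, rot_fst] at this
      exact this
    rw [hbd, mem_insert, mem_singleton] at h1
    rcases h1 with h1 | h1
    · exfalso
      apply hz
      rw [h1]
      exact h.b.eqv_hi
    · have hy' : y = rot (S.lo pt w') := by rw [hs.2, h1, S.invol]
      rcases h.b' with hb | hb | hb
      · -- real
        have e : S.lo pt w' = w' := lo_of_not_B hb.not_B
        rw [e] at h1 hy'
        left
        rw [h1, hy']
        exact D1_rot hb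
      · have e : S.lo pt w' = w' := lo_of_not_B hb.not_B
        rw [e] at h1 hy'
        right; left
        rw [h1, hy']
        exact D2_virtA hG hb h.b'.glued
      · have e : S.lo pt w' = S.ccw w' := lo_of_B hb
        have hg := h.b'.glued'
        rw [e] at h1 hy'
        rw [g_ccw hg] at h1
        have hy2 : y = S.cw (unrot w') := by
          rw [hy', ccw_of_glued hg, cw_of_glued hg]
        right; right
        rw [h1, hy2]
        exact D2_virtB hG hb hg
  · -- counterclockwise: `y` is the partner of `hi w`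
    have hxs : x = rot (S.g y) := hs.2
    have hgy : S.g (S.g y) ≠ S.g y := g_ne_iff.2 hs.1
    have h1 : S.g y ∈ S.bd (S.pA pt w w') := by
      rw [mem_bd]
      refine ⟨hgy, ?_, by rw [S.invol]; exact hy⟩
      have := hx
      rw [hxs, rot_fst] at this
      exact this
    rw [hbd, mem_insert, mem_singleton] at h1
    rcases h1 with h1 | h1
    · have hyy : y = S.g (S.hi pt w) := by rw [← h1, S.invol]
      have hxx : x = rot (S.hi pt w) := by rw [hxs, h1]
      rcases h.b with hb | hb | hb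
      · have e : S.hi pt w = S.ccw w := hi_of_not_A hb.not_A
        have hg := h.b.glued'
        rw [e] at hyy hxx
        rw [g_ccw hg] at hyy
        have hx2 : x = S.cw (unrot w) := by rw [hxx, ccw_of_glued hg, cw_of_glued hg]
        left
        rw [hyy, hx2]
        exact D1_unrot hb
      · have e : S.hi pt w = w := hi_of_A hb
        rw [e] at hyy hxx
        right; right
        rw [hyy, hxx]
        exact D2_virtA hG hb h.b.glued
      · have e : S.hi pt w = S.ccw w := hi_of_not_A hb.not_A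
        have hg := h.b.glued'
        rw [e] at hyy hxx
        rw [g_ccw hg] at hyy
        have hx2 : x = S.cw (unrot w) := by rw [hxx, ccw_of_glued hg, cw_of_glued hg]
        right; left
        rw [hyy, hx2]
        exact D2_virtB hG hb hg
    · exfalso
      have h2 : y = S.lo pt w' := S.g_injective h1
      apply hz
      have h3 : S.Eqv y x := (Relation.EqvGen.rel _ _ hs : S.Eqv y x)
      rw [h2] at h3
      exact (h.eqv.trans h.b'.eqv_lo).trans h3

section env

variable {R : Finset I} {V : Sd I → Prop}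

/-- crossing of the boundary of a torso at a visit without blades -/
theorem cross_tor (hE : Env S pt R V) (hG : S.Geo pt) {p : Sd I × Sd I} (hp : p ∈ S.CP pt R V)
    {z : Sd I} (hz : ∀ w, S.BladeAt pt w → ¬ S.Eqv z w) {x y : Sd I} (hx : S.Eqv z x)
    (hnb : Nb S x y) (h1 : x.1 ∈ tor S pt p) (h2 : y.1 ∉ tor S pt p) :
    D1 S x y ∨ D2 S pt x y ∨ D1 S y x ∨ D2 S pt y x := by
  have hB := hE.base
  have cp := (mem_CP.1 hp).1
  rw [mem_tor hE hp] at h1 h2
  by_cases hy : y.1 ∈ S.pA pt p.1 p.2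
  · -- entering the set of a smaller pair
    push Not at h2
    obtain ⟨q, hq, hs, hyq⟩ := h2 hy
    have cq := (mem_CP.1 hq).1
    have h3 : ¬ S.Eqv q.1 y := fun h => hz q.1 cq.toPr.b ((hx.trans hnb.eqv).trans h.symm)
    rcases cross_pA hB hG cq.toPr h3 hnb.symm hyq (h1.2 q hq hs) with h | h | h
    · exact Or.inr (Or.inr (Or.inl h))
    · exact Or.inr (Or.inr (Or.inr h))
    · exact Or.inr (Or.inl h)
  · have h3 : ¬ S.Eqv p.1 x := fun h => hz p.1 cp.toPr.b (hx.trans h.symm)
    rcases cross_pA hB hG cp.toPr h3 hnb h1.1 hy with h | h | h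
    · exact Or.inl h
    · exact Or.inr (Or.inl h)
    · exact Or.inr (Or.inr (Or.inr h))

end env

/-! ### the ear end of an ear cost -/

theorem mem_Ecost (H : RHyp S pt X) {x : I × Finset (Sd I)} : x ∈ H.reg.Ecost ↔
    x.1 ∈ X ∧ ∃ c, S.Eared c ∧ c.1 = x.1 ∧ (x.2 = dg S c ∨ x.2 = dg S (unrot c)) ∧
      (bl S X (S.Blk pt) x.2 = none ∨ H.reg.Hosts x.1) := by
  classical
  rw [Helper41.AG7.Reg.Ecost, mem_filter, mem_product]
  constructor
  · rintro ⟨⟨h1, _⟩, h3, h4⟩
    obtain ⟨hX, c, hc1, hc2⟩ := mem_eareds.1 (show x.1 ∈ eareds S X from h1)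
    refine ⟨hX, c, hc2, hc1, ?_, h4⟩
    have h5 : x.2 ∈ inc S c.1 := by rw [hc1]; exact h3
    rw [inc_two hc2.1 hc2.2.1 (eared_not_glued hc2), mem_insert, mem_singleton] at h5
    exact h5
  · rintro ⟨h1, c, hc, hc1, h2, h3⟩
    have h5 : x.2 ∈ inc S x.1 := by
      rw [← hc1, inc_two hc.1 hc.2.1 (eared_not_glued hc), mem_insert, mem_singleton]
      exact h2
    exact ⟨⟨mem_eareds.2 ⟨h1, c, hc1, hc⟩, inc_sub h1 h5⟩, h5, h3⟩

/-- the diagonal of an ear cost is not blocked at the ear end -/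
theorem not_blk_of_cost (H : RHyp S pt X) {c : Sd I} (hc : S.Eared c) (h : H.reg.Hosts c.1) :
    S.Blk pt c ∧ S.Blk pt (S.g (unrot c)) := by
  classical
  obtain ⟨w, hwV, hw2, hws⟩ := h
  have hA2 : (Aw S X (S.Blk pt) w).card = 2 := hw2
  have hsub : Aw S X (S.Blk pt) w ⊆ inc S c.1 := hws
  obtain ⟨b, hb1, hb2, hb3, hb4, hb5⟩ := host H.lin (fun a ha => ha.1) H.b1 H.g1 hA2
  have h2 : dg S b ∈ inc S c.1 := hsub (by rw [hb2]; exact mem_insert_self _ _)
  have h3 : dg S (unrot b) ∈ inc S c.1 :=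
    hsub (by rw [hb2]; exact mem_insert_of_mem (mem_singleton_self _))
  have h4 : b.1 = c.1 := by
    by_contra hne
    have e1 : c.1 = (S.g b).1 := by
      rcases (dg_mem_inc_iff hb3.1).1 h2 with h5 | h5
      · exact absurd h5.symm hne
      · exact h5
    have e2 : c.1 = (S.g (unrot b)).1 := by
      rcases (dg_mem_inc_iff hb5).1 h3 with h5 | h5
      · exact absurd h5.symm hne
      · exact h5
    exact H.sh b (unrot b) rfl (unrot_ne b).symm hb3.1 hb5 (e1.symm.trans e2)
  have h5 : b = c := corner_unique hb3.1 hb5 (eared_not_glued hc) h4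
  rw [← h5]
  exact ⟨hb3, hb4⟩

theorem pe_end (H : RHyp S pt X) {x : I × Finset (Sd I)} (hx : x ∈ H.reg.Ecost) :
    ∃ c z, S.Eared c ∧ c.1 = x.1 ∧ (z = rot c ∨ z = unrot c) ∧ pe S X x = (S.keep X).last z ∧
      ((z = rot c ∧ x.2 = dg S c) ∨ (z = unrot c ∧ x.2 = dg S (unrot c))) := by
  obtain ⟨_, c, hc, hc1, h2, _⟩ := (mem_Ecost H).1 hx
  obtain ⟨t, d⟩ := x
  simp only at hc1 h2
  subst hc1
  rcases h2 with rfl | rfl
  · exact ⟨c, rot c, hc, rfl, Or.inl rfl, pe_rot hc, Or.inl ⟨rfl, rfl⟩⟩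
  · exact ⟨c, unrot c, hc, rfl, Or.inr rfl, pe_unrot hc, Or.inr ⟨rfl, rfl⟩⟩

theorem last_eqv' (S : Obj I) (X : Finset I) (z : Sd I) : S.Eqv z ((S.keep X).last z) :=
  (last_eqv (S.keep X) z).mono (keep_le S X)

/-- no blade at the ear end -/
theorem pe_noB (hB : Base S pt) (H : RHyp S pt X) {x : I × Finset (Sd I)}
    (hx : x ∈ H.reg.Ecost) {w : Sd I} (hw : S.BladeAt pt w) : ¬ S.Eqv w (pe S X x) := by
  obtain ⟨c, z, hc, _, hz, he, _⟩ := pe_end H hx
  rw [he]
  intro h
  exact hB.earEnd z w (earEnd_of c hc hz) hw ((last_eqv' S X z).trans h.symm)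

theorem pe_inj (hB : Base S pt) (H : RHyp S pt X) : ∀ x ∈ H.reg.Ecost, ∀ y ∈ H.reg.Ecost,
    pe S X x = pe S X y → x = y := by
  intro x hx y hy hxy
  obtain ⟨c, z, hc, hc1, hz, he, hd⟩ := pe_end H hx
  obtain ⟨c', z', hc', hc1', hz', he', hd'⟩ := pe_end H hy
  have h1 : S.Eqv z z' := by
    refine (last_eqv' S X z).trans ?_
    rw [← he, hxy, he']
    exact (last_eqv' S X z').symm
  have h2 : z = z' := ear_corner hB hc hc' hz hz' h1
  have h3 : c.1 = c'.1 := by
    have e1 : z.1 = c.1 := by rcases hz with h | h <;> rw [h] <;> rfl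
    have e2 : z'.1 = c'.1 := by rcases hz' with h | h <;> rw [h] <;> rfl
    rw [← e1, h2, e2]
  have h4 : c = c' := eared_uniq hc hc' h3
  subst h4
  apply Prod.ext
  · rw [← hc1, ← hc1']
  · rcases hd with ⟨a1, a2⟩ | ⟨a1, a2⟩ <;> rcases hd' with ⟨b1, b2⟩ | ⟨b1, b2⟩
    · rw [a2, b2]
    · exfalso
      have : rot c = unrot c := by rw [← a1, h2, b1]
      exact unrot_ne_rot c this.symm
    · exfalso
      have : unrot c = rot c := by rw [← a1, h2, b1]
      exact unrot_ne_rot c this
    · rw [a2, b2]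

/-- BILLS (b) -/
theorem bill_b {V : Sd I → Prop} (hE : Env S pt X V) (hG : S.Geo pt) (H : RHyp S pt X) :
    ∀ x ∈ H.reg.Ecost, pe S X x ∈ H.reg.zeros ∨ ∃ y ∈ H.reg.unused,
      H.reg.bl y.2 = some (pe S X x) ∧ ∀ p ∈ X0 S pt X V, y.1 ∉ tor S pt p := by
  intro x hx
  have hB := hE.base
  have hl := hB.lin
  obtain ⟨hX, c0, hc0, hc01, hd0, hcost⟩ := (mem_Ecost H).1 hx
  obtain ⟨c, z, hc, hc1, hz, he, hd⟩ := pe_end H hx
  have hcX : c.1 ∈ X := by rw [hc1]; exact hX
  obtain ⟨p, hp, hpt⟩ := eared_in hE hc hcX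
  have hsub : tor S pt p ⊆ X := fun t ht => hE.subA p hp (tor_sub ht)
  have hnob : ∀ w, S.BladeAt pt w → ¬ S.Eqv z w := fun w hw h =>
    hB.earEnd z w (earEnd_of c hc hz) hw h
  have hzF : z.1 ∈ S.F := by
    have : z.1 = c.1 := by rcases hz with h | h <;> rw [h] <;> rfl
    rw [this]; exact H.sub hcX
  -- no block at the ear end
  have hnb : (z = rot c ∧ ¬ S.Blk pt (S.g c)) ∨ (z = unrot c ∧ ¬ S.Blk pt (unrot c)) := by
    have hcost' : bl S X (S.Blk pt) x.2 = none ∨ H.reg.Hosts c.1 := by rw [hc1]; exact hcost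
    rcases hd with ⟨h1, h2⟩ | ⟨h1, h2⟩
    · left
      refine ⟨h1, ?_⟩
      rcases hcost' with h | h
      · rw [h2, bl_none] at h; exact h.2
      · exact H.b1 _ (not_blk_of_cost H hc h).1
    · right
      refine ⟨h1, ?_⟩
      rcases hcost' with h | h
      · rw [h2, bl_none] at h; exact h.1
      · intro hb
        have h3 := H.b1 _ hb
        exact h3 (not_blk_of_cost H hc h).2
  -- the walk
  obtain ⟨n, m, W, hn0, hk0⟩ : ∃ n m, Walk S n m ∧ n 0 = z ∧ (0 < m → ¬ Bk S pt (n 0) (n 1)) := by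
    rcases hnb with ⟨h1, h2⟩ | ⟨h1, h2⟩
    · have hu : S.g (rot c) = rot c := eared_not_glued hc
      obtain ⟨n, m, W, h0⟩ := exists_walk_bot hl (z := z) hzF (by rw [h1]; exact hu)
      refine ⟨n, m, W, h0, fun hm hbk => ?_⟩
      rcases hbk with ⟨h3, _⟩ | ⟨h3, h4⟩
      · rw [h0, h1] at h3; exact h3.1 hu
      · have h5 := (step_iff_ccw.1 h3).2
        rw [h0, h1, unrot_rot] at h5
        rw [h5] at h4
        exact h2 h4
    · have hu : S.g (unrot z) = unrot z := by
        rw [h1, unrot_unrot]; exact eared_not_glued hc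
      obtain ⟨n, m, W, h0⟩ := exists_walk_top hl (z := z) hu
      refine ⟨n, m, W, h0, fun hm hbk => ?_⟩
      rcases hbk with ⟨_, h4⟩ | ⟨h3, _⟩
      · rw [h0, h1] at h4; exact h2 h4
      · have h5 := (step_iff_ccw.1 h3).1
        rw [h0] at h5
        exact h5 hu
  have hmain := ear_slot H hB W hsub hc hpt (by rw [hn0]; exact hz)
    (fun x y hx hnb h1 h2 => cross_tor hE hG hp (by rw [← hn0] at hnob; exact hnob) hx hnb h1 h2)
    (fun c' hc' h' => eared_unique hE hp hc hpt hc' h') hk0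
  rw [he, ← hn0]
  rcases hmain with h | ⟨y, hy1, hy2, hy3⟩
  · exact Or.inl h
  · refine Or.inr ⟨y, hy1, hy3, fun q hq hyq => ?_⟩
    rw [mem_X0] at hq
    by_cases hpq : p = q
    · subst hpq
      exact hq.2 c hc hpt
    · exact disjoint_left.1 (tor_disj hE hp hq.1 hpq) hy2 hyq

end Pool.Agent.Helper29.AG7
end

/- Helper41.AG7.Closed -/
section
/-!
# AG section 7: the closed case is impossible
-/

set_option autoImplicit false
set_option linter.unusedSectionVars false
open Finset

namespace Pool.Agent.Helper41.AG7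

open _root_.AG _root_.AG.Obj Pool.Agent.Helper29.AG7

variable {I : Type} [DecidableEq I] {S : Obj I} {pt : Sd I → Pt} {R : Set Pt}

theorem s1_of (hC : Cex S pt R) : ∀ c a, S.Blade c → a.1 = c.1 → S.IsU pt a → S.Face (S.g a).1 := by
  intro c a hc ha hU
  rcases eq_of_fst_eq ha with h | h | h
  · exact (hC.s1 (Or.inl (h ▸ hc)) hU).2
  · rw [h] at hU; exact absurd hc.2.2.1 hU.1
  · have e : rot a = c := by rw [h, rot_unrot]
    exact (hC.s1 (Or.inr (by rw [e]; exact hc)) hU).2

theorem s2_of (hC : Cex S pt R) : ∀ c, S.Blade c → S.PairAt pt c →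
    S.Face (S.g c).1 ∨ S.Face (S.g (unrot c)).1 := by
  intro c hc hp
  exact (hC.s2 hc hp).imp (fun h => h.2) (fun h => h.2)

theorem rhyp_closed (hC : Cex S pt R) (hB : Base S pt) : RHyp S pt S.F where
  sub := Subset.refl _
  lin := hB.lin
  b1 _ ha := hC.geo.b1 ha
  g1 _ _ ha hb he := hC.geo.g1 ha hb he
  sh _ _ h1 h2 h3 h4 := hC.geo.sh h1 h2 h3 h4
  three t ht := by
    rcases hB.types ht with h1 | ⟨c, h1, h2 | h2⟩
    · exact Or.inl h1
    · exact Or.inr (Or.inl ⟨c, h1, h2⟩)
    · exact Or.inr (Or.inr ⟨c, h1, h2⟩)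
  s1 := s1_of hC
  s2 := s2_of hC
  outP c a b hc _ _ hab hout _ := by
    exfalso
    apply hout
    apply g_memF
    rcases hab with ⟨rfl, _⟩ | ⟨rfl, _⟩
    · exact hc.1
    · exact hc.2.1

/-- a trivial consecutive pair has its eared triangle in the torso -/
theorem triv_not_X0 {V : Sd I → Prop} {p : Sd I × Sd I}
    (ht : S.Triv pt p.1 p.2) : p ∉ X0 S pt S.F V := by
  intro h
  obtain ⟨c, hc, hA⟩ := ht
  apply (mem_X0.1 h).2 c hc
  rw [tor, mem_torC, hA]
  refine ⟨mem_singleton_self _, fun q hq => ?_⟩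
  exfalso
  obtain ⟨h1, h2, _⟩ := mem_CP.1 hq
  rw [mem_singleton] at h2
  exact h1.toPr.b.not_eared hc h2

open Classical in
theorem closed_false (hC : Cex S pt R) (hE : Env S pt S.F (fun _ => False))
    (ht : ∀ p ∈ S.CP pt S.F (fun _ => False), S.Triv pt p.1 p.2) : False := by
  have hB := hE.base
  have H := rhyp_closed hC hB
  have hne : S.F.Nonempty := card_pos.1 (lt_of_lt_of_le Nat.zero_lt_two hB.two)
  obtain ⟨Ext, E⟩ := exists_extOf (X := S.F) hC.geo hB.lin (Subset.refl _) hne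
  have hX0 : X0 S pt S.F (fun _ => False) = ∅ := by
    rw [eq_empty_iff_forall_notMem]
    intro p hp
    have h1 := (mem_X0.1 hp).1
    exact triv_not_X0 (ht p h1) hp
  have hcand : (S.CandK pt S.F (fun _ => False)).card = 0 := by
    have := d4 hE
    rw [hX0, card_empty] at this
    omega
  have hle := cand_le (V := fun _ => False) H (fun u _ h => absurd h id)
    (fun a hg _ h => absurd (g_memF hg) h)
  have hSt : Sts S S.F = ∅ := by
    rw [Sts]
    have : S.bd S.F = ∅ := by
      rw [eq_empty_iff_forall_notMem]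
      intro a ha
      exact (mem_bd.1 ha).2.2 (g_memF (mem_bd.1 ha).1)
    rw [this, image_empty]
  let B : Bil I (Finset (Sd I)) (Sd I) Pt (Sd I × Sd I) :=
    { H.reg with
      X0 := ∅
      Ext := Ext
      pos := pt
      vp := fun p => p.1
      tor := fun _ => ∅
      wide := fun _ => False
      a := fun _ => (hne.choose, 0)
      v := fun _ => (hne.choose, 0)
      s := fun _ => hne.choose
      xw := fun d => d
      pe := pe S S.F
      a_inj := fun d hd => absurd (show d ∈ Sts S S.F from hd) (by rw [hSt]; exact notMem_empty d)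
      v_inj := fun d hd => absurd (show d ∈ Sts S S.F from hd) (by rw [hSt]; exact notMem_empty d)
      a_ne_v := fun d hd => absurd (show d ∈ Sts S S.F from hd) (by rw [hSt]; exact notMem_empty d)
      xw_not := fun d hd => absurd (show d ∈ Sts S S.F from hd) (by rw [hSt]; exact notMem_empty d)
      pe_inj := pe_inj hB H
      pe_ne_vp := fun x _ p hp => absurd hp (notMem_empty p)
      pe_ne_a := fun x _ d hd => absurd (show d ∈ Sts S S.F from hd) (by rw [hSt]; exact notMem_empty d)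
      pe_ne_v := fun x _ d hd => absurd (show d ∈ Sts S S.F from hd) (by rw [hSt]; exact notMem_empty d)
      vp_ne_v := fun p hp => absurd hp (notMem_empty p)
      tor_disj := fun p hp => absurd hp (notMem_empty p)
      wide_ext := fun p hp => absurd hp (notMem_empty p)
      wide_inj := fun p hp => absurd hp (notMem_empty p)
      bill_a := fun p hp => absurd hp (notMem_empty p)
      bill_b := by
        intro x hx
        rcases bill_b hE hC.geo H x hx with h | ⟨y, h1, h2, _⟩
        · exact Or.inl h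
        · exact Or.inr ⟨y, h1, h2, fun p hp => absurd hp (notMem_empty p)⟩
      bill_c := by
        intro q hq
        left
        obtain ⟨c, hc, hcq⟩ := E.mem q hq
        refine ⟨(S.keep S.F).last c, ?_, by rw [pt_last hC.geo, hcq]⟩
        show (S.keep S.F).last c ∈ H.reg.zeros
        rw [mem_zeros]
        refine ⟨last_mem_vis (keep_linear H.lin S.F) (mem_sides.2 (by
          rw [keep_F S H.sub]; exact hc)), fun a ha hba hv => ?_⟩
        have haF : a.1 ∈ S.F := S.memF a hba.1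
        have hpa : pt a = q := by
          rw [← hcq, ← pt_last hC.geo S.F c, ← hv]
          exact hC.geo.pt_eqv (vz_eqv (X := S.F) hba.1)
        exact E.not_blk haF (g_memF hba.1) hba (by rw [hpa]; exact hq)
      bill_U := fun d hd => absurd (show d ∈ Sts S S.F from (mem_filter.1 hd).1)
        (by rw [hSt]; exact notMem_empty d)
      bill_P := fun d hd => absurd (show d ∈ Sts S S.F from (mem_filter.1 hd).1)
        (by rw [hSt]; exact notMem_empty d) }
  have h1 := B.final
  have h2 : B.St.card = 0 := by show (Sts S S.F).card = 0; rw [hSt]; rfl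
  have h3 : B.CU.card + B.CP.card ≤ 0 := by
    rw [← hcand]
    exact hle
  have h4 : B.Ext.card = Ext.card := rfl
  have h5 := E.three
  omega

end Pool.Agent.Helper41.AG7
end

/- Helper41.AG7.OpenFin -/
section
/-!
# AG section 7: the open case is impossible (given the angle statements of section 8)
-/

set_option autoImplicit false
set_option linter.unusedSectionVars false
open Finset

namespace Pool.Agent.Helper41.AG7

open _root_.AG _root_.AG.Obj Pool.Agent.Helper29.AG7

variable {I : Type} [DecidableEq I] {S : Obj I} {pt : Sd I → Pt} {R : Set Pt} {w0 w0' : Sd I}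

theorem six_of (hO : OpenMin S pt R w0 w0') (hB : Base S pt) : Six S pt w0 w0' where
  base := hB
  geo := hO.cex.geo
  s1 := s1_of hO.cex
  s2 := s2_of hO.cex
  pr := hO.pr
  d0 _ hu he := hO.no_blade hB hu he
  dv := env_dv (hO.env hB) (fun _ hu he => hO.no_blade hB hu he)
  de := env_de (hO.env hB)
  pAsub := (hO.env hB).subA

/-- the visits `v_i` are at `v0` -/
theorem vD_eqv {X : Finset I} {b b' : Sd I} (O : Op S pt X b b') {d : Finset (Sd I)}
    (hd : d ∈ Sts S X) : S.Eqv b (vD S X b b' d) := by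
  rcases O.mem_St.1 hd with rfl | rfl
  · rw [O.vD_b]; exact last_eqv' S X b
  · rw [O.vD_b']; exact O.eqv.trans (last_eqv' S X _)

theorem aD_eqv {X : Finset I} {b b' : Sd I} (O : Op S pt X b b') {d : Finset (Sd I)}
    (hd : d ∈ Sts S X) : S.Eqv (rot b) (aD S X b b' d) ∨ S.Eqv b' (aD S X b b' d) := by
  rcases O.mem_St.1 hd with rfl | rfl
  · left; rw [O.aD_b]; exact last_eqv' S X _
  · right; rw [O.aD_b']; exact last_eqv' S X _

open Classical in
theorem open_false (hO : OpenMin S pt R w0 w0') (hB : Base S pt)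
    (hl : S.VirtA pt w0 → S.IsU pt w0 → S.Face (S.g w0).1 →
      Real.pi ≤ cang pt (rot (S.g (rot w0))) + cang pt (rot w0) + cang pt (S.g w0))
    (hr : S.VirtB pt w0' → S.IsU pt (unrot w0') → S.Face (S.g (unrot w0')).1 →
      Real.pi ≤ cang pt (S.g (rot w0')) + cang pt (unrot w0') + cang pt (rot (S.g (unrot w0')))) :
    False := by
  have hE := hO.env hB
  have h6 := six_of hO hB
  have O := h6.op
  have H := O.H
  have Q := h6.rd
  have hC := hO.cex
  obtain ⟨X, hX⟩ : ∃ X, X = S.pB pt w0 w0' := ⟨_, rfl⟩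
  obtain ⟨b, hb⟩ : ∃ b, b = S.hi pt w0' := ⟨_, rfl⟩
  obtain ⟨b', hb'⟩ : ∃ b', b' = S.g (S.lo pt w0) := ⟨_, rfl⟩
  have u1 : S.IsU pt b → ¬ (∃ c, c.1 = (S.g b).1 ∧ S.Blade c) → Alt1 S pt X b := by
    rw [hb, hX]; exact h6.alt1 hr
  have u2 : S.IsU pt b' → ¬ (∃ c, c.1 = (S.g b').1 ∧ S.Blade c) → Alt2 S pt X b' := by
    rw [hb', hX]; exact h6.alt2 hl
  have hVb : ∀ z, S.Eqv b z → S.Eqv w0 z := fun z hz => by
    rw [hb] at hz; exact (h6.pr.eqv.trans h6.pr.b'.eqv_hi).trans hz
  have hout := fun a => @Six.no_vir_out I _ S pt w0 w0' h6 a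
  have hno : ∀ u, S.BladeAt pt u → S.Eqv w0 u → u.1 ∉ X := by rw [hX]; exact h6.d0
  rw [← hX] at hE O H Q hout
  rw [← hb, ← hb'] at O Q
  have hne : X.Nonempty := ⟨b.1, O.bX.1⟩
  obtain ⟨Ext, E⟩ := exists_extOf (X := X) hC.geo hB.lin H.sub hne
  have hUb : ∀ d ∈ O.H.reg.Ubs, aD S X b b' d ∉ O.H.reg.zeros →
      (O.H.reg.A (aD S X b b' d)).card = 1 ∧
        O.H.reg.bl (xD S b b' d) = some (aD S X b b' d) := by
    intro d hd hz
    rcases O.bill_U' u1 u2 d hd with h | h
    · exact absurd h hz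
    · exact ⟨h.1, h.2.2⟩
  have hle := cand_le (V := S.Eqv w0) O.H hno (fun a h1 h2 h3 => hout a h1 h2 h3)
  have hd4 := d4 hE
  let B : Bil I (Finset (Sd I)) (Sd I) Pt (Sd I × Sd I) :=
    { O.H.reg with
      X0 := X0 S pt X (S.Eqv w0)
      Ext := Ext
      pos := pt
      vp := vp S pt X
      tor := tor S pt
      wide := wide S pt
      a := aD S X b b'
      v := vD S X b b'
      s := sD S b b'
      xw := xD S b b'
      pe := pe S X
      a_inj := O.aD_inj
      v_inj := O.vD_inj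
      a_ne_v := O.a_ne_v
      xw_not := O.xD_not
      pe_inj := pe_inj hB O.H
      pe_ne_vp := by
        intro x hx p hp h
        have cp := (mem_CP.1 (mem_X0.1 hp).1).1
        exact pe_noB hB O.H hx cp.toPr.b (by rw [h]; exact vp_eqv cp.toPr)
      pe_ne_a := by
        intro x hx d hd h
        obtain ⟨c, z, hc, hc1, hz, he, _⟩ := pe_end O.H hx
        have hcX : c.1 ∈ X := by rw [hc1]; exact ((mem_Ecost O.H).1 hx).1
        have h1 : S.Eqv (aD S X b b' d) z := by
          rw [← h, he]; exact (last_eqv' S X z).symm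
        rcases aD_eqv O (show d ∈ Sts S X from hd) with h2 | h2
        · exact Q.ear1 hc hcX hz (h2.trans h1)
        · exact Q.ear2 hc hcX hz (h2.trans h1)
      pe_ne_v := by
        intro x hx d hd h
        obtain ⟨u, hu1, hu2⟩ := Q.bl0
        refine pe_noB hB O.H hx hu1 ?_
        rw [h]
        exact hu2.symm.trans (vD_eqv O (show d ∈ Sts S X from hd))
      vp_ne_v := by
        intro p hp d hd h
        obtain ⟨cp, _, _, hv⟩ := mem_CP.1 (mem_X0.1 hp).1
        apply hv
        apply hVb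
        refine (vD_eqv O (show d ∈ Sts S X from hd)).trans ?_
        rw [← h]
        exact (vp_eqv cp.toPr).symm
      tor_disj := fun p hp q hq hne => tor_disj hE (mem_X0.1 hp).1 (mem_X0.1 hq).1 hne
      wide_ext := wide_ext hC.geo hE E
      wide_inj := wide_inj hC.geo hE
      bill_a := bill_a_open hC O hE hVb E hUb
      bill_b := bill_b hE hC.geo O.H
      bill_c := O.bill_c E
      bill_U := O.bill_U u1 u2
      bill_P := O.bill_P }
  have h1 := B.final
  have h2 : B.St.card ≤ 2 := by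
    show (Sts S X).card ≤ 2
    rw [card_Sts, O.bd]
    exact card_le_two
  have h3 : B.CU.card + B.CP.card ≤ B.X0.card := hle.trans hd4
  have h4 : B.Ext.card = Ext.card := rfl
  have h5 := E.three
  omega

end Pool.Agent.Helper41.AG7
end

/- AG.MainThm -/
section
/-!
# Project AG: assembly.  If neither the open case (a chosen nontrivial pair `(w0, w0')` with minimal
`B`) nor the closed case occurs, then there is no minimal counterexample, hence statement P holds
for all connected geometric objects, hence Shermer's bound.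
-/

set_option linter.unusedSectionVars false

namespace AG

open Finset

variable {I : Type} [DecidableEq I]

namespace Obj

/-- a minimal counterexample gives a chosen pair, or it is closed -/
theorem Cex.exists_min {S : Obj I} {pt : Sd I → Pt} {R : Set Pt} (hC : Cex S pt R) :
    (∃ (S' : Obj I) (pt' : Sd I → Pt) (w w' : Sd I), OpenMin S' pt' R w w') ∨
      ClosedMin S pt R := by
  classical
  by_cases h : ∃ n : ℕ, ∃ (S' : Obj I) (pt' : Sd I → Pt) (w w' : Sd I), Cex S' pt' R ∧
      S'.glued.card = S.glued.card ∧ S'.Pr pt' w w' ∧ ¬ S'.Triv pt' w w' ∧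
      (S'.pB pt' w w').card = n
  · left
    obtain ⟨S', pt', w, w', h1, h2, h3, h4, h5⟩ := Nat.find_spec h
    refine ⟨S', pt', w, w', h1, h3, h4, ?_⟩
    intro S'' pt'' u u' g1 g2 g3 g4
    rw [h5]
    exact Nat.find_min' h ⟨S'', pt'', u, u', g1, g2.trans h2, g3, g4, rfl⟩
  · right
    refine ⟨hC, fun u u' hp => ?_⟩
    by_contra ht
    exact h ⟨_, S, pt, u, u', hC, rfl, hp, ht, rfl⟩

/-- no minimal counterexample, if the open case and the closed case are impossible -/
theorem no_cex {R : Set Pt}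
    (ho : ∀ (S : Obj I) (pt : Sd I → Pt) (w w' : Sd I), OpenMin S pt R w w' → False)
    (hc : ∀ (S : Obj I) (pt : Sd I → Pt), ClosedMin S pt R → False)
    (S : Obj I) (pt : Sd I → Pt) : ¬ Cex S pt R := by
  intro hC
  rcases hC.exists_min with ⟨S', pt', w, w', h⟩ | h
  · exact ho S' pt' w w' h
  · exact hc S pt h

end Obj

/-- Shermer's bound, if the open case and the closed case are impossible -/
theorem guards_of_min (P : Pool.Agent.AG.PolygonWithHoles)
    (ho : ∀ (S : Obj (Finset Pt)) (pt : Sd (Finset Pt) → Pt) (w w' : Sd (Finset Pt)),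
      Obj.OpenMin S pt P.carrier w w' → False)
    (hc : ∀ (S : Obj (Finset Pt)) (pt : Sd (Finset Pt) → Pt),
      Obj.ClosedMin S pt P.carrier → False) :
    ∃ G : Finset (ℝ × ℝ), (∀ g ∈ G, P.IsVertex g) ∧ G.card ≤ (P.n + P.h) / 3 ∧ P.Guards G :=
  guards_of_main P fun _ hg hc' hR =>
    Obj.P_all (Obj.no_cex ho hc) hg hc' hR (Finset.empty_subset _)

end AG
end

/- AG.Final -/
section
/-!
# Project AG: the open case and the closed case are impossible; Shermer's bound
-/

set_option linter.unusedSectionVars false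

namespace AG

open Finset

variable {I : Type} [DecidableEq I]

namespace Obj

/-- section 8, left stub -/
theorem OpenMin.ub_left {S : Obj I} {pt : Sd I → Pt} {R : Set Pt} {w0 w0' : Sd I}
    (hO : OpenMin S pt R w0 w0') (hA : S.VirtA pt w0) (hU : S.IsU pt w0)
    (hf : S.Face (S.g w0).1) :
    Real.pi ≤ cang pt (rot (S.g (rot w0))) + cang pt (rot w0) + cang pt (S.g w0) := by
  by_contra h
  push Not at h
  have hB := hO.cex.base
  exact U8.false ⟨hO, hA, hU, hf, h, hO.env hB, fun u hu he => hO.no_blade hB hu he⟩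

/-- section 8, right stub, by reflection -/
theorem OpenMin.ub_right {S : Obj I} {pt : Sd I → Pt} {R : Set Pt} {w0 w0' : Sd I}
    (hO : OpenMin S pt R w0 w0') (hA : S.VirtB pt w0') (hU : S.IsU pt (unrot w0'))
    (hf : S.Face (S.g (unrot w0')).1) :
    Real.pi ≤ cang pt (S.g (rot w0')) + cang pt (unrot w0') +
      cang pt (rot (S.g (unrot w0'))) := by
  have M : OpenMin S.mir (ptm pt) (refl '' R) (mc w0') (mc w0) :=
    openMin_mir (fun _ _ h => h.base.lin) (fun _ _ h => h.base.lin)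
      (fun _ _ _ _ h => h.1.not_B h.2) (fun _ _ _ _ h => h.1.not_B h.2) hO
  have h := M.ub_left ((virtA_mir S pt).2 hA)
    (by rw [mc_eq_ms]; exact (isU_mir S pt).2 hU)
    (by rw [mir_g_mc, ms_fst, face_mir]; exact hf)
  rw [rot_mc, mir_g_ms, rot_ms, mir_g_mc, cang_mir] at h
  have e1 : ms (rot w0') = mc (unrot w0') := by rw [mc_eq_ms, unrot_unrot]
  have e2 : ms (S.g (unrot w0')) = mc (rot (S.g (unrot w0'))) := rfl
  rw [e1, e2, cang_mir, cang_mir] at h
  exact h

/-- the open case is impossible -/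
theorem OpenMin.false {S : Obj I} {pt : Sd I → Pt} {R : Set Pt} {w0 w0' : Sd I}
    (hO : OpenMin S pt R w0 w0') : False :=
  Pool.Agent.Helper41.AG7.open_false hO hO.cex.base hO.ub_left hO.ub_right

/-- the closed case is impossible -/
theorem ClosedMin.false {S : Obj I} {pt : Sd I → Pt} {R : Set Pt}
    (h : ClosedMin S pt R) : False :=
  Pool.Agent.Helper41.AG7.closed_false h.cex (h.env h.cex.base)
    (fun _ hp => h.triv _ _ (mem_CP.1 hp).1.toPr)

end Obj

/-- Shermer's bound: every polygon with `n` vertices and `h` holes can be guarded by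
`⌊(n + h) / 3⌋` vertex guards -/
theorem guards (P : Pool.Agent.AG.PolygonWithHoles) :
    ∃ G : Finset (ℝ × ℝ), (∀ g ∈ G, P.IsVertex g) ∧ G.card ≤ (P.n + P.h) / 3 ∧ P.Guards G :=
  guards_of_min P (fun _ _ _ _ h => h.false) (fun _ _ h => h.false)

end AG
end
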